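import Mathlib

namespace Pool.Agent.H80.Acm
open MvPolynomial

variable {K : Type} [Field K] {V : Type}

/-- `a, b` is a regular sequence on `S ⧸ I`. -/
def RegPair (I : Ideal (MvPolynomial V K)) (a b : MvPolynomial V K) : Prop :=
  I ⊔ Ideal.span {a, b} ≠ ⊤ ∧ (∀ f, a * f ∈ I → f ∈ I) ∧
    ∀ f, b * f ∈ I ⊔ Ideal.span {a} → f ∈ I ⊔ Ideal.span {a}

/-- Multiplication by `g`, from the degree-`i` part of `S ⧸ J` to the degree-`j` part, is
injective or surjective. -/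
def MaxRank (J : Ideal (MvPolynomial V K)) (g : MvPolynomial V K) (i j : ℕ) : Prop :=
  (∀ f : MvPolynomial V K, f.IsHomogeneous i → g * f ∈ J → f ∈ J) ∨
  (∀ h : MvPolynomial V K, h.IsHomogeneous j →
    ∃ f : MvPolynomial V K, f.IsHomogeneous i ∧ h - g * f ∈ J)

/-- Weak Lefschetz property of `S ⧸ J`. -/
def WLP (J : Ideal (MvPolynomial V K)) : Prop :=
  ∃ l : MvPolynomial V K, l.IsHomogeneous 1 ∧ ∀ i, MaxRank J l i (i + 1)

/-- Strong Lefschetz property of `S ⧸ J`. -/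
def SLP (J : Ideal (MvPolynomial V K)) : Prop :=
  ∃ l : MvPolynomial V K, l.IsHomogeneous 1 ∧ ∀ i k, 1 ≤ k → MaxRank J (l ^ k) i (i + k)

end Pool.Agent.H80.Acm
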