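import Mathlib
import Pool.Agent.H80.AcmDefs

namespace Pool.Agent.H80.Acm
open MvPolynomial

variable {K : Type} [Field K]

noncomputable def Ψ (q : Fin 5 → Polynomial K) :
    MvPolynomial (Fin 5) K →ₐ[K] Polynomial (Polynomial K) :=
  aeval fun i => Polynomial.X * Polynomial.C (q i)

lemma Ψ_X (q : Fin 5 → Polynomial K) (i) : Ψ q (X i) = Polynomial.X * Polynomial.C (q i) :=
  aeval_X _ _

lemma Ψ_C (q : Fin 5 → Polynomial K) (c : K) : Ψ q (C c) = Polynomial.C (Polynomial.C c) :=
  aeval_C _ _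

lemma Ψ_mon (q : Fin 5 → Polynomial K) (d : Fin 5 →₀ ℕ) (c : K) : Ψ q (monomial d c) =
    Polynomial.monomial d.degree (Polynomial.C c * ∏ i, q i ^ d i) := by
  rw [Ψ, aeval_monomial, Finsupp.prod_fintype _ _ (by simp), Finsupp.degree_eq_sum,
    ← Polynomial.C_mul_X_pow_eq_monomial]
  simp only [mul_pow, Finset.prod_mul_distrib, Finset.prod_pow_eq_pow_sum, map_mul, map_prod,
    map_pow]
  change Polynomial.C (Polynomial.C c) * _ = _
  ring

lemma Ψ_hc (q : Fin 5 → Polynomial K) (n : ℕ) (f : MvPolynomial (Fin 5) K) :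
    Ψ q (homogeneousComponent n f) = Polynomial.monomial n ((Ψ q f).coeff n) := by
  induction f using MvPolynomial.induction_on' with
  | monomial d c =>
    rw [homogeneousComponent_of_mem (isHomogeneous_monomial c rfl), Ψ_mon,
      Polynomial.coeff_monomial]
    by_cases h : n = d.degree
    · rw [if_pos h, if_pos h.symm, Ψ_mon, h]
    · rw [if_neg h, if_neg (Ne.symm h), map_zero, map_zero]
  | add f g hf hg => simp only [map_add, hf, hg, Polynomial.coeff_add]

noncomputable def Φ (K : Type) [Field K] := Ψ (K := K) fun i => Polynomial.X ^ (![0, 1, 6, 31, 156] i)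

noncomputable def II (K : Type) [Field K] : Ideal (MvPolynomial (Fin 5) K) := RingHom.ker (Φ K)

lemma mem_II {f : MvPolynomial (Fin 5) K} : f ∈ II K ↔ Φ K f = 0 := Iff.rfl

instance : (II K).IsPrime := RingHom.ker_isPrime _

lemma II_hom {f} (hf : f ∈ II K) (n : ℕ) : homogeneousComponent n f ∈ II K := by
  rw [mem_II] at hf ⊢
  rw [Φ, Ψ_hc, ← Φ, hf]; simp

def wt (d : Fin 5 →₀ ℕ) : ℕ := d 1 + 6 * d 2 + 31 * d 3 + 156 * d 4

lemma deg_eq (d : Fin 5 →₀ ℕ) : d.degree = d 0 + d 1 + d 2 + d 3 + d 4 := by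
  rw [Finsupp.degree_eq_sum, Fin.sum_univ_five]

lemma Φ_mon (d : Fin 5 →₀ ℕ) (c : K) : Φ K (monomial d c) =
    Polynomial.monomial d.degree (Polynomial.monomial (wt d) c) := by
  rw [Φ, Ψ_mon, ← Polynomial.C_mul_X_pow_eq_monomial (n := wt d), Fin.prod_univ_five, wt]
  congr 2
  simp
  ring

def good (d : Fin 5 →₀ ℕ) : Prop :=
  d 1 ≤ 5 ∧ d 1 + 6 * d 2 ≤ 30 ∧ d 1 + 6 * d 2 + 31 * d 3 ≤ 155

lemma eq_zero_of_good {f : MvPolynomial (Fin 5) K} (hf : f ∈ II K) (h : ∀ d ∈ f.support, good d) :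
    f = 0 := by
  by_contra h0
  obtain ⟨d, hd⟩ := (support_nonempty.2 h0)
  have h1 : ((Φ K f).coeff d.degree).coeff (wt d) = coeff d f := by
    conv_lhs => rw [f.as_sum]
    simp only [map_sum, Φ_mon, Polynomial.finset_sum_coeff]
    rw [Finset.sum_eq_single d]
    · simp
    · intro e he hed
      rw [Polynomial.coeff_monomial]
      split_ifs with h1
      · rw [Polynomial.coeff_monomial, if_neg]
        intro h2
        apply hed
        have h3 := h d hd
        have h4 := h e he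
        simp only [deg_eq, wt, good] at h1 h2 h3 h4
        have : e 4 = d 4 := by omega
        have : e 3 = d 3 := by omega
        have : e 2 = d 2 := by omega
        have : e 1 = d 1 := by omega
        have : e 0 = d 0 := by omega
        ext i; fin_cases i <;> assumption
      · simp
    · exact fun h => absurd hd h
  rw [mem_II.1 hf] at h1
  exact mem_support_iff.1 hd (by simpa using h1.symm)

lemma deg_of_mem {f : MvPolynomial (Fin 5) K} {n} (hf : f.IsHomogeneous n) {d} (hd : d ∈ f.support) :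
    d 0 + d 1 + d 2 + d 3 + d 4 = n := by
  rw [← deg_eq, Finsupp.degree_eq_weight_one]
  exact hf (mem_support_iff.1 hd)

lemma coeff5 (q : Fin 5 → Polynomial K) {f} (hf : f ∈ II K) : (Ψ q f).coeff 5 = 0 := by
  have h := eq_zero_of_good (II_hom hf 5) fun d hd => by
    have := deg_of_mem (homogeneousComponent_isHomogeneous 5 f) hd
    simp only [good]; omega
  have h2 := Ψ_hc q 5 f
  rw [h, map_zero] at h2
  simpa using h2.symm

def bad' : Fin 6 → Fin 5 → ℕ :=
  ![![0, 6, 0, 0, 0], ![0, 1, 5, 0, 0], ![0, 0, 6, 0, 0], ![0, 1, 0, 5, 0], ![0, 0, 1, 5, 0],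
    ![0, 0, 0, 6, 0]]

noncomputable def bad (j : Fin 6) : Fin 5 →₀ ℕ := Finsupp.equivFunOnFinite.symm (bad' j)

lemma bad_cases {d : Fin 5 →₀ ℕ} (h1 : d 0 + d 1 + d 2 + d 3 + d 4 = 6) (hg : ¬ good d) :
    ∃ j, d = bad j := by
  have : ∀ b < 7, ∀ c < 7, ∀ e < 7, (b ≤ 5 ∧ b + 6 * c ≤ 30 ∧ b + 6 * c + 31 * e ≤ 155) ∨
      6 < b + c + e ∨ ∃ j, bad' j = ![0, b, c, e, 0] := by
    intro b hb c hc e he
    interval_cases b <;> interval_cases c <;> interval_cases e <;> decide
  simp only [good] at hg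
  obtain h | h | ⟨j, hj⟩ := this (d 1) (by omega) (d 2) (by omega) (d 3) (by omega)
  · exact absurd h hg
  · omega
  · have h0 : d 0 = 0 := by omega
    have h4 : d 4 = 0 := by omega
    refine ⟨j, Finsupp.ext fun i => ?_⟩
    change _ = bad' j i
    rw [hj]
    fin_cases i <;> simp [h0, h4]

lemma rank6 : Module.rank K ↥((II K).restrictScalars K ⊓ homogeneousSubmodule (Fin 5) K 6) ≤ 6 := by
  let L : ↥((II K).restrictScalars K ⊓ homogeneousSubmodule (Fin 5) K 6) →ₗ[K] (Fin 6 → K) :=
    (LinearMap.pi fun j => lcoeff K (bad j)).domRestrict _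
  have : Function.Injective L := by
    rw [injective_iff_map_eq_zero]
    rintro ⟨f, hf, hf'⟩ h
    refine Subtype.ext (eq_zero_of_good hf fun d hd => ?_)
    by_contra hg
    obtain ⟨j, rfl⟩ := bad_cases (deg_of_mem hf' hd) hg
    exact mem_support_iff.1 hd (congrFun h j)
  simpa using LinearMap.rank_le_of_injective L this

def gr (w : ℕ) : ℕ := w / 156 + w % 156 / 31 + w % 156 % 31 / 6 + w % 156 % 31 % 6

lemma gr_le (a b c d : ℕ) : gr (a + 6 * b + 31 * c + 156 * d) ≤ a + b + c + d := by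
  have h : ∀ w < 156, gr (w + 1) ≤ gr w + 1 ∧ gr (w + 6) ≤ gr w + 1 ∧ gr (w + 31) ≤ gr w + 1 := by
    decide +kernel
  have h4 : ∀ w k, gr (w + 156 * k) = gr w + k := fun w k => by
    simp only [gr, Nat.add_mul_mod_self_left, Nat.add_mul_div_left _ _ (by norm_num : 0 < 156)]
    ring
  have h' : ∀ w, gr (w + 1) ≤ gr w + 1 ∧ gr (w + 6) ≤ gr w + 1 ∧ gr (w + 31) ≤ gr w + 1 := fun w => by
    have := h (w % 156) (Nat.mod_lt _ (by norm_num))
    rw [← Nat.mod_add_div w 156]
    simp only [add_right_comm _ (156 * (w / 156)), h4]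
    omega
  rw [h4]
  induction c with
  | zero =>
    induction b with
    | zero =>
      induction a with
      | zero => simp [gr]
      | succ a ih => have := (h' a).1; simp at ih ⊢; omega
    | succ b ih =>
      have := (h' (a + 6 * b)).2.1
      simp only [mul_zero, add_zero, mul_add, mul_one, ← add_assoc] at ih ⊢; omega
  | succ c ih =>
    have := (h' (a + 6 * b + 31 * c)).2.2
    simp only [mul_add, mul_one, ← add_assoc] at ih ⊢; omega

lemma lemA (f : MvPolynomial (Fin 5) K) (n w : ℕ) (h : ((Φ K f).coeff n).coeff w ≠ 0) : gr w ≤ n := by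
  induction f using MvPolynomial.induction_on' with
  | monomial d c =>
    rw [Φ_mon, Polynomial.coeff_monomial] at h
    split_ifs at h with h1
    · rw [Polynomial.coeff_monomial] at h
      split_ifs at h with h2
      · have := gr_le (d 1) (d 2) (d 3) (d 4)
        rw [← h2, ← h1, deg_eq, wt]; omega
      · exact absurd rfl h
    · simp at h
  | add f g hf hg =>
    by_contra h1
    rw [map_add, Polynomial.coeff_add, Polynomial.coeff_add, not_not.1 (mt hf h1),
      not_not.1 (mt hg h1), add_zero] at h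
    exact h rfl

lemma Φ_X (i) : Φ K (X i) = Polynomial.X * Polynomial.C (Polynomial.X ^ (![0, 1, 6, 31, 156] i)) :=
  Ψ_X _ _

lemma lemB (p : Polynomial (Polynomial K)) (h : ∀ n w, (p.coeff n).coeff w ≠ 0 → gr w < n) :
    ∃ f, Φ K (X 0 * f) = p := by
  let M : AddSubmonoid (Polynomial (Polynomial K)) :=
    { carrier := {p | ∃ f, Φ K (X 0 * f) = p}
      add_mem' := by
        rintro _ _ ⟨f, rfl⟩ ⟨g, rfl⟩
        exact ⟨f + g, by rw [mul_add, map_add]⟩
      zero_mem' := ⟨0, by simp⟩ }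
  change p ∈ M
  rw [p.as_sum_support]
  refine sum_mem fun n _ => ?_
  rw [(p.coeff n).as_sum_support, map_sum]
  refine sum_mem fun w hw => ?_
  have h1 := h n w (Polynomial.mem_support_iff.1 hw)
  generalize (p.coeff n).coeff w = c
  obtain ⟨k, hk⟩ := Nat.exists_eq_add_of_lt h1
  have hw2 : w = w % 156 % 31 % 6 + 6 * (w % 156 % 31 / 6) + 31 * (w % 156 / 31) + 156 * (w / 156) := by
    omega
  rw [gr] at hk
  generalize w % 156 % 31 % 6 = e1 at *
  generalize w % 156 % 31 / 6 = e2 at *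
  generalize w % 156 / 31 = e3 at *
  generalize w / 156 = e4 at *
  refine ⟨C c * X 0 ^ k * X 1 ^ e1 * X 2 ^ e2 * X 3 ^ e3 * X 4 ^ e4, ?_⟩
  simp only [map_mul, map_pow, Φ_X, ← Polynomial.C_mul_X_pow_eq_monomial]
  rw [Φ, Ψ_C, hk, hw2]
  simp
  ring

lemma reg04 : RegPair (II K) (X 0) (X 4) := by
  refine ⟨fun h => ?_, fun f hf => ?_, fun f hf => ?_⟩
  · have h1 : II K ⊔ Ideal.span {X 0, X 4} ≤
        RingHom.ker ((Polynomial.evalRingHom 0).comp (Φ K).toRingHom) := by
      refine sup_le (fun f hf => ?_) (Ideal.span_le.2 ?_)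
      · simp [RingHom.mem_ker, mem_II.1 hf]
      · rintro _ (rfl | rfl) <;> simp [RingHom.mem_ker, Φ_X]
    rw [h] at h1
    simpa using h1 (Submodule.mem_top (x := 1))
  · refine (Ideal.IsPrime.mem_or_mem inferInstance hf).resolve_left ?_
    simp [mem_II, Φ_X]
  · obtain ⟨i, hi, g, hg, e⟩ := Submodule.mem_sup.1 hf
    obtain ⟨g, rfl⟩ := Ideal.mem_span_singleton'.1 hg
    obtain ⟨f', hf'⟩ := lemB (Φ K f) fun n w h => by
      have key : ∀ k, Φ K (X 4) = Polynomial.X * Polynomial.C (Polynomial.X ^ k) →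
          ((Φ K g).coeff n).coeff (w + k) = ((Φ K f).coeff n).coeff w := fun k hk => by
        have h0 : Φ K (X 0) = Polynomial.X := by simp [Φ_X]
        have h1 := congrArg (Φ K) e
        rw [map_add, mem_II.1 hi, zero_add, map_mul, map_mul, hk, h0, mul_assoc] at h1
        have h2 := congrArg (fun p => (p.coeff (n + 1)).coeff (w + k)) h1
        simpa only [Polynomial.coeff_mul_X, Polynomial.coeff_X_mul, Polynomial.coeff_C_mul,
          Polynomial.coeff_X_pow_mul] using h2
      have h1 := key 156 (Φ_X 4)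
      have h4 : gr (w + 156) = gr w + 1 := by
        simp only [gr, Nat.add_mod_right, Nat.add_div_right _ (by norm_num : 0 < 156)]
        ring
      generalize w + 156 = v at h1 h4
      rw [← h1] at h
      have := lemA g n v h
      omega
    refine Submodule.mem_sup.2 ⟨f - X 0 * f', ?_, X 0 * f', ?_, by ring⟩
    · rw [mem_II, map_sub, hf', sub_self]
    · exact Ideal.mul_mem_right _ _ (Ideal.mem_span_singleton_self _)

end Pool.Agent.H80.Acm
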