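import Mathlib
import Pool.Agent.H80.Acm1

namespace Pool.Agent.H80.Acm
open MvPolynomial

variable {K : Type} [Field K]

noncomputable def lin (r : Fin 5 → K) : MvPolynomial (Fin 5) K := ∑ i, C (r i) * X i

lemma lin_eq {l : MvPolynomial (Fin 5) K} (hl : l.IsHomogeneous 1) : ∃ r, l = lin r := by
  have : l ∈ homogeneousSubmodule (Fin 5) K 1 := hl
  rw [homogeneousSubmodule_one_eq_span_X] at this
  obtain ⟨c, hc⟩ := (Submodule.mem_span_range_iff_exists_fun K).1 this
  exact ⟨c, by simp only [lin, ← hc, smul_eq_C_mul]⟩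

lemma lin_hom (r : Fin 5 → K) : (lin r).IsHomogeneous 1 :=
  IsHomogeneous.sum _ _ _ fun i _ => (isHomogeneous_X K i).C_mul _

lemma not_surj (r1 r2 r3 : Fin 5 → K) : ¬ ∀ h : MvPolynomial (Fin 5) K, h.IsHomogeneous 6 →
    ∃ f : MvPolynomial (Fin 5) K, f.IsHomogeneous 5 ∧
      h - lin r3 * f ∈ II K ⊔ Ideal.span {lin r1, lin r2} := fun H => by
  let W : Submodule K (Fin 5 → K) := Submodule.span K (Set.range ![r1, r2, r3])
  have h1 : Module.finrank K W ≤ 3 := finrank_range_le_card _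
  have h2 := W.finrank_quotient_add_finrank
  have h3 : Module.finrank K (Fin 2 → K) ≤ Module.finrank K ((Fin 5 → K) ⧸ W) := by
    simp at h2 ⊢; omega
  obtain ⟨g, hg⟩ := finrank_le_iff_exists_linearMap.1 h3
  obtain ⟨π0, hπ⟩ := g.exists_leftInverse_of_injective (LinearMap.ker_eq_bot.2 hg)
  let π : (Fin 5 → K) →ₗ[K] Polynomial K :=
    (Fintype.linearCombination K ![1, Polynomial.X]) ∘ₗ π0 ∘ₗ W.mkQ
  let q : Fin 5 → Polynomial K := fun i => π (Pi.single i 1)
  have hq : ∀ r, Ψ q (lin r) = Polynomial.X * Polynomial.C (π r) := fun r => by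
    conv_rhs => rw [pi_eq_sum_univ' r]
    simp only [lin, map_sum, map_mul, Ψ_C, Ψ_X, Finset.mul_sum, map_smul, q,
      Polynomial.smul_eq_C_mul]
    exact Finset.sum_congr rfl fun i _ => by ring
  have hW : ∀ j, Ψ q (lin (![r1, r2, r3] j)) = 0 := fun j => by
    have : W.mkQ (![r1, r2, r3] j) = 0 :=
      (Submodule.Quotient.mk_eq_zero W).2 (Submodule.subset_span ⟨j, rfl⟩)
    simp only [hq, π, LinearMap.comp_apply, this, map_zero, mul_zero]
  have hs : ∀ v : Fin 2 → K, ∃ r, π r = Fintype.linearCombination K ![1, Polynomial.X] v := fun v => by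
    obtain ⟨r, hr⟩ := W.mkQ_surjective (g v)
    exact ⟨r, by simp only [π, LinearMap.comp_apply, hr, ← LinearMap.comp_apply π0, hπ]; rfl⟩
  obtain ⟨a, ha⟩ := hs (Pi.single 0 1)
  obtain ⟨b, hb⟩ := hs (Pi.single 1 1)
  simp only [Fintype.linearCombination_apply_single, one_smul, Matrix.cons_val_zero,
    Matrix.cons_val_one] at ha hb
  let L : MvPolynomial (Fin 5) K →ₗ[K] Polynomial K :=
    (Polynomial.lcoeff (Polynomial K) 6).restrictScalars K ∘ₗ (Ψ q).toLinearMap
  have key : ∀ j : Fin 7, (Polynomial.X : Polynomial K) ^ (j : ℕ) ∈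
      ((II K).restrictScalars K ⊓ homogeneousSubmodule (Fin 5) K 6).map L := fun j => by
    have hj : (6 - j : ℕ) + j = 6 := by omega
    obtain ⟨f, -, hf⟩ := H (lin a ^ (6 - j : ℕ) * lin b ^ (j : ℕ)) (by
      simpa [hj] using ((lin_hom a).pow (6 - j)).mul ((lin_hom b).pow j))
    obtain ⟨i, hi, g, hg, e⟩ := Submodule.mem_sup.1 hf
    obtain ⟨u, v, rfl⟩ := Ideal.mem_span_pair.1 hg
    refine ⟨homogeneousComponent 6 i, ⟨II_hom hi 6, homogeneousComponent_isHomogeneous 6 i⟩, ?_⟩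
    have e2 := congrArg (Ψ q) e
    have w1 : Ψ q (lin r1) = 0 := hW 0
    have w2 : Ψ q (lin r2) = 0 := hW 1
    have w3 : Ψ q (lin r3) = 0 := hW 2
    simp only [map_add, map_mul, map_sub, map_pow, w1, w2, w3, mul_zero, zero_mul, add_zero,
      sub_zero, hq, ha, hb, map_one, mul_one, mul_pow] at e2
    change (Ψ q _).coeff 6 = _
    rw [Ψ_hc, Polynomial.coeff_monomial, if_pos rfl, e2, ← mul_assoc, ← pow_add, hj, ← map_pow,
      Polynomial.coeff_mul_C, Polynomial.coeff_X_pow_self, one_mul]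
  have hli : LinearIndependent K fun j : Fin 7 => (Polynomial.X : Polynomial K) ^ (j : ℕ) := by
    have := (Polynomial.basisMonomials K).linearIndependent.comp (fun j : Fin 7 => (j : ℕ))
      Fin.val_injective
    simpa [Function.comp_def, Polynomial.monomial_one_right_eq_X_pow] using this
  have h7 := (LinearIndependent.of_comp (Submodule.subtype _)
    (v := fun j : Fin 7 => (⟨_, key j⟩ : Submodule.map L _)) hli).cardinal_le_rank
  have := h7.trans ((rank_map_le _ _).trans rank6)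
  norm_num at this

noncomputable def th (r : Fin 5 → K) : MvPolynomial (Fin 5) K :=
  C (r 1) * X 0 ^ 5 + C (r 2) * X 1 ^ 5 + C (r 3) * X 2 ^ 5 + C (r 4) * X 3 ^ 5

lemma th_hom (r : Fin 5 → K) : (th r).IsHomogeneous 5 :=
  ((((isHomogeneous_X_pow _ 5).C_mul _).add ((isHomogeneous_X_pow _ 5).C_mul _)).add
    ((isHomogeneous_X_pow _ 5).C_mul _)).add ((isHomogeneous_X_pow _ 5).C_mul _)

lemma Φ_C (c : K) : Φ K (C c) = Polynomial.C (Polynomial.C c) := Ψ_C _ _

lemma Φ_th {r : Fin 5 → K} (h : r 0 = 0) : Polynomial.C Polynomial.X * Φ K (th r) =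
    Polynomial.X ^ 4 * Φ K (lin r) := by
  simp [th, lin, Fin.sum_univ_five, h, Φ_X, Φ_C]
  ring

lemma Φ_y (j : Fin 4) : Polynomial.C Polynomial.X * Φ K (X j.castSucc ^ 5) =
    Polynomial.X ^ 4 * Φ K (X j.succ) := by
  fin_cases j <;> simp [Φ_X] <;> ring

lemma mem_II' {f : MvPolynomial (Fin 5) K} (h : Polynomial.C Polynomial.X * Φ K f = 0) : f ∈ II K :=
  (mul_eq_zero.1 h).resolve_left (by simp)

lemma lemD (r : Fin 5 → K) (γ : K) (b : MvPolynomial (Fin 5) K)
    (h : ∀ j : Fin 4, C γ * X j.castSucc ^ 5 - b * X j.succ ∈ II K ⊔ Ideal.span {lin r}) : γ = 0 := by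
  have key : ∀ (j : Fin 4) (z : Fin 5 → K), z j.castSucc = 1 → z j.succ = 0 →
      ∑ i, r i * z i = 0 → γ = 0 := fun j z h1 h2 h3 => by
    obtain ⟨i, hi, g, hg, e⟩ := Submodule.mem_sup.1 (h j)
    obtain ⟨g, rfl⟩ := Ideal.mem_span_singleton'.1 hg
    have h4 := coeff5 (fun i => Polynomial.C (z i)) hi
    have h5 : Ψ (fun i => Polynomial.C (z i)) (lin r) = 0 := by
      have := congrArg (fun c => Polynomial.X * Polynomial.C (Polynomial.C c)) h3
      simp only [map_sum, map_mul, Finset.mul_sum, map_zero, mul_zero] at this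
      simp only [lin, map_sum, map_mul, Ψ_C, Ψ_X, ← this]
      exact Finset.sum_congr rfl fun i _ => by ring
    have e2 := congrArg (Ψ fun i => Polynomial.C (z i)) e
    rw [map_add, map_mul, map_sub, map_mul, map_mul, map_pow, h5, Ψ_C, Ψ_X, Ψ_X, h1, h2] at e2
    simp only [map_zero, mul_zero, add_zero, sub_zero, map_one, mul_one] at e2
    simpa [e2] using h4
  by_cases h4 : r 4 = 0
  · by_cases h0 : r 0 = 0
    · exact key 0 ![1, 0, 0, 0, 0] rfl rfl (by simp [Fin.sum_univ_five, h0])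
    · exact key 2 ![-r 2 / r 0, 0, 1, 0, 0] rfl rfl (by simp [Fin.sum_univ_five]; field_simp; ring)
  · exact key 0 ![1, 0, 0, 0, -r 0 / r 4] rfl rfl (by simp [Fin.sum_univ_five]; field_simp; ring)

lemma RegPair.syz {I : Ideal (MvPolynomial (Fin 5) K)} {a b p q : MvPolynomial (Fin 5) K}
    (h : RegPair I a b) (e : a * p + b * q ∈ I) :
    q ∈ I ⊔ Ideal.span {a} ∧ p ∈ I ⊔ Ideal.span {b} := by
  have h1 : q ∈ I ⊔ Ideal.span {a} := h.2.2 q (Submodule.mem_sup.2 ⟨_, e, -p * a,
    Ideal.mul_mem_left _ _ (Ideal.mem_span_singleton_self _), by ring⟩)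
  refine ⟨h1, ?_⟩
  obtain ⟨i, hi, g, hg, e2⟩ := Submodule.mem_sup.1 h1
  obtain ⟨g, rfl⟩ := Ideal.mem_span_singleton'.1 hg
  refine Submodule.mem_sup.2 ⟨p + g * b, h.2.1 _ ?_, -g * b,
    Ideal.mul_mem_left _ _ (Ideal.mem_span_singleton_self _), by ring⟩
  convert I.sub_mem e (I.mul_mem_left b hi) using 1
  rw [← e2]; ring

lemma not_inj {r1 r2 : Fin 5 → K} (h : RegPair (II K) (lin r1) (lin r2)) (r3 : Fin 5 → K) :
    ¬ ∀ f : MvPolynomial (Fin 5) K, f.IsHomogeneous 5 →
      lin r3 * f ∈ II K ⊔ Ideal.span {lin r1, lin r2} → f ∈ II K ⊔ Ideal.span {lin r1, lin r2} :=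
    fun H => by
  by_cases h0 : r1 0 = 0 ∧ r2 0 = 0
  · have h1 := (h.syz (p := -th r2) (q := th r1) (mem_II' (by
      simp only [map_add, map_mul, map_neg]
      linear_combination Φ K (lin r2) * Φ_th h0.1 - Φ K (lin r1) * Φ_th h0.2))).1
    obtain ⟨i, hi, g, hg, e⟩ := Submodule.mem_sup.1 h1
    obtain ⟨g, rfl⟩ := Ideal.mem_span_singleton'.1 hg
    have h2 := Φ_th h0.1
    rw [← e, map_add, mem_II.1 hi, zero_add, map_mul, ← mul_assoc] at h2
    have h3 : Φ K (lin r1) ≠ 0 := fun h3 => Ideal.IsPrime.ne_top' (I := II K)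
      ((Ideal.eq_top_iff_one _).2 (h.2.1 1 (by rwa [mul_one])))
    have := congrArg (Polynomial.map (Polynomial.evalRingHom 0)) (mul_right_cancel₀ h3 h2)
    simp at this
    exact absurd this.symm (by simp)
  set J := II K ⊔ Ideal.span {lin r1, lin r2}
  let c : Fin 5 → K := r2 0 • r1 - r1 0 • r2
  have hc0 : c 0 = 0 := by simp [c, mul_comm]
  have hc : lin c = C (r2 0) * lin r1 - C (r1 0) * lin r2 := by
    simp only [lin, c, Fin.sum_univ_five, Pi.sub_apply, Pi.smul_apply, smul_eq_mul, map_sub, map_mul]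
    ring
  have m1 : lin r1 ∈ J := Ideal.mem_sup_right (Ideal.subset_span (by simp))
  have m2 : lin r2 ∈ J := Ideal.mem_sup_right (Ideal.subset_span (by simp))
  have k1 : ∀ j : Fin 4, X j.succ * th c - X j.castSucc ^ 5 * lin c ∈ II K := fun j => mem_II' (by
    simp only [map_sub, map_mul]
    linear_combination Φ K (X j.succ) * Φ_th hc0 - Φ K (lin c) * Φ_y (K := K) j)
  have k2 : ∀ j : Fin 4, X j.succ * th c ∈ J := fun j => by
    have m3 : lin c ∈ J := hc ▸ sub_mem (J.mul_mem_left _ m1) (J.mul_mem_left _ m2)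
    have m4 : X j.succ * th c - X j.castSucc ^ 5 * lin c ∈ J := Ideal.mem_sup_left (k1 j)
    have := add_mem m4 (J.mul_mem_left (X j.castSucc ^ 5) m3)
    simpa using this
  have k3 : ∀ r : Fin 5 → K, lin r * th c - C (r 0) * (X 0 * th c) ∈ J := fun r => by
    have := sum_mem (t := Finset.univ) fun j _ => J.mul_mem_left (C (r (Fin.succ j))) (k2 j)
    convert this using 1
    simp only [lin, Fin.sum_univ_succ (n := 4), add_mul, Finset.sum_mul, mul_assoc]
    ring
  have k4 : X 0 * th c ∈ J := by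
    have : ∀ r : Fin 5 → K, lin r ∈ J → r 0 ≠ 0 → X 0 * th c ∈ J := fun r hr hr0 => by
      have := J.mul_mem_left (C (r 0)⁻¹) (sub_mem (J.mul_mem_right (th c) hr) (k3 r))
      rwa [sub_sub_cancel, ← mul_assoc, ← map_mul, inv_mul_cancel₀ hr0, map_one, one_mul] at this
    rcases not_and_or.1 h0 with h | h
    exacts [this r1 m1 h, this r2 m2 h]
  have k5 := H _ (th_hom c) (by simpa using add_mem (k3 r3) (J.mul_mem_left (C (r3 0)) k4))
  obtain ⟨i, hi, g, hg, e⟩ := Submodule.mem_sup.1 k5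
  obtain ⟨a, b, rfl⟩ := Ideal.mem_span_pair.1 hg
  have k6 := fun j : Fin 4 => h.syz (p := C (r2 0) * X j.castSucc ^ 5 - a * X j.succ)
    (q := C (-r1 0) * X j.castSucc ^ 5 - b * X j.succ) (by
      convert sub_mem ((II K).mul_mem_left (X j.succ) hi) (k1 j) using 1
      rw [← e, hc, map_neg]; ring)
  exact h0 ⟨neg_eq_zero.1 (lemD _ _ _ fun j => (k6 j).1), lemD _ _ _ fun j => (k6 j).2⟩

lemma dim_eq : ringKrullDim (MvPolynomial (Fin 5) K ⧸ II K) = 2 := by
  apply le_antisymm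
  · let _ : Algebra (MvPolynomial (Fin 2) K) (MvPolynomial (Fin 5) K ⧸ II K) :=
      ((Ideal.Quotient.mk (II K)).comp (rename ![0, 4]).toRingHom).toAlgebra
    have : Algebra.IsIntegral (MvPolynomial (Fin 2) K) (MvPolynomial (Fin 5) K ⧸ II K) := ⟨fun x => by
      obtain ⟨f, rfl⟩ := Ideal.Quotient.mk_surjective x
      induction f using MvPolynomial.induction_on with
      | C c =>
        have : Ideal.Quotient.mk (II K) (C c) = algebraMap (MvPolynomial (Fin 2) K) _ (C c) := by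
          simp [RingHom.algebraMap_toAlgebra]
        rw [this]; exact isIntegral_algebraMap
      | add f g hf hg => rw [map_add]; exact hf.add hg
      | mul_X f i hf =>
        rw [map_mul]
        refine hf.mul (IsIntegral.of_pow (n := 156) (by norm_num) ?_)
        have key : ∀ a k, Φ K (X i) = Polynomial.X * Polynomial.C (Polynomial.X ^ a) → ∀ N, k + a = N →
            Φ K (X 4) = Polynomial.X * Polynomial.C (Polynomial.X ^ N) →
            Ideal.Quotient.mk (II K) (X i) ^ N =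
              algebraMap (MvPolynomial (Fin 2) K) _ (X 0 ^ k * X 1 ^ a) := by
          rintro a k h N rfl h4
          have h0 : Φ K (X 0) = Polynomial.X := by simp [Φ_X]
          simp only [RingHom.algebraMap_toAlgebra, RingHom.comp_apply, ← map_pow]
          refine Ideal.Quotient.eq.2 (mem_II.2 ?_)
          simp only [AlgHom.toRingHom_eq_coe, RingHom.coe_coe, map_mul, map_pow, rename_X, map_sub,
            Matrix.cons_val_zero, Matrix.cons_val_one, h, h0, h4]
          ring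
        rw [key _ (156 - ![0, 1, 6, 31, 156] i) (Φ_X i) 156 (by fin_cases i <;> rfl) (Φ_X 4)]
        exact isIntegral_algebraMap⟩
    refine (Order.krullDim_le_of_strictMono (PrimeSpectrum.comap (algebraMap
      (MvPolynomial (Fin 2) K) _)) fun p q h => Ideal.IsIntegral.comap_lt_comap
        (I := p.asIdeal) (J := q.asIdeal) h).trans ?_
    change ringKrullDim _ ≤ _
    rw [MvPolynomial.ringKrullDim_of_isNoetherianRing, ringKrullDim_eq_zero_of_field]
    simp
  · let f : MvPolynomial (Fin 5) K ⧸ II K →+* Polynomial K := Ideal.Quotient.lift _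
      ((Polynomial.mapRingHom (Polynomial.evalRingHom 0)).comp (Φ K).toRingHom)
      fun a ha => by simp [mem_II.1 ha]
    have hf : Function.Surjective f := fun p => by
      induction p using Polynomial.induction_on' with
      | add p q hp hq =>
        obtain ⟨a, rfl⟩ := hp
        obtain ⟨b, rfl⟩ := hq
        exact ⟨a + b, map_add _ _ _⟩
      | monomial n c =>
        exact ⟨Ideal.Quotient.mk _ (C c * X 0 ^ n), by
          simp [f, Φ_X, Φ_C, Polynomial.C_mul_X_pow_eq_monomial]⟩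
    have := ringKrullDim_succ_le_of_surjective f hf (r := Ideal.Quotient.mk _ (X 1))
      (mem_nonZeroDivisors_of_ne_zero (by simp [Ideal.Quotient.eq_zero_iff_mem, mem_II, Φ_X]))
      (by simp [f, Φ_X])
    rwa [Polynomial.ringKrullDim_of_isNoetherianRing, ringKrullDim_eq_zero_of_field, zero_add,
      one_add_one_eq_two] at this

theorem main (K : Type) [Field K] : ∃ I : Ideal (MvPolynomial (Fin 5) K),
    (∀ f ∈ I, ∀ n, homogeneousComponent n f ∈ I) ∧ I.IsPrime ∧
    ringKrullDim (MvPolynomial (Fin 5) K ⧸ I) = 2 ∧ RegPair I (X 0) (X 4) ∧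
    ∀ l₁ l₂ : MvPolynomial (Fin 5) K, l₁.IsHomogeneous 1 → l₂.IsHomogeneous 1 → RegPair I l₁ l₂ →
      ¬ WLP (I ⊔ Ideal.span {l₁, l₂}) ∧ ¬ SLP (I ⊔ Ideal.span {l₁, l₂}) := by
  refine ⟨II K, fun f hf n => II_hom hf n, inferInstance, dim_eq, reg04, fun l₁ l₂ h₁ h₂ h => ?_⟩
  obtain ⟨r1, rfl⟩ := lin_eq h₁
  obtain ⟨r2, rfl⟩ := lin_eq h₂
  have : ¬ WLP (II K ⊔ Ideal.span {lin r1, lin r2}) := by
    rintro ⟨l, hl, H⟩
    obtain ⟨r3, rfl⟩ := lin_eq hl
    exact (H 5).elim (not_inj h r3) (not_surj r1 r2 r3)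
  exact ⟨this, fun ⟨l, hl, H⟩ => this ⟨l, hl, fun i => by simpa using H i 1 le_rfl⟩⟩

end Pool.Agent.H80.Acm
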