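import Mathlib

namespace Pool.Agent.H80.Ballean

open Cardinal

variable {X : Type}

/-- `E ∘ F⁻¹`: the pairs `(x, z)` with `(x, y) ∈ E` and `(z, y) ∈ F` for some `y`. -/
def compInv (E F : Set (X × X)) : Set (X × X) := {p | ∃ y, (p.1, y) ∈ E ∧ (p.2, y) ∈ F}

/-- A ballean structure on `X`, given by its family of entourages. -/
def IsBallean (𝓔 : Set (Set (X × X))) : Prop :=
  (∀ E ∈ 𝓔, ∀ x, (x, x) ∈ E) ∧ (∀ E ∈ 𝓔, ∀ F ∈ 𝓔, ∃ D ∈ 𝓔, compInv E F ⊆ D) ∧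
    ⋃₀ 𝓔 = Set.univ

/-- The ball `E[x]`. -/
def ball (E : Set (X × X)) (x : X) : Set X := {y | (x, y) ∈ E}

/-- The neighbourhood `E[A]`. -/
def nbhd (E : Set (X × X)) (A : Set X) : Set X := ⋃ a ∈ A, ball E a

/-- Bounded sets of a ballean. -/
def Bdd (𝓔 : Set (Set (X × X))) (B : Set X) : Prop := ∃ E ∈ 𝓔, ∃ x, B ⊆ ball E x

/-- The entourages of the square ballean `X × X`. -/
def sq (𝓔 : Set (Set (X × X))) : Set (Set ((X × X) × (X × X))) :=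
  {D | ∃ E₁ ∈ 𝓔, ∃ E₂ ∈ 𝓔, D = {q | (q.1.1, q.2.1) ∈ E₁ ∧ (q.1.2, q.2.2) ∈ E₂}}

/-- The cardinal `cof_*(𝓔)`. -/
noncomputable def cofAst (𝓔 : Set (Set (X × X))) : Cardinal :=
  sInf {c | ∃ 𝒞 ⊆ 𝓔, #𝒞 = c ∧ ∀ E ∈ 𝓔, ∃ C ∈ 𝒞, Bdd (sq 𝓔) (E \ C)}

/-- The cardinal `cof_*(𝓔[A])`. -/
noncomputable def cofAstAt (𝓔 : Set (Set (X × X))) (A : Set X) : Cardinal :=
  sInf {c | ∃ 𝒞 ⊆ 𝓔, #𝒞 = c ∧ ∀ E ∈ 𝓔, ∃ C ∈ 𝒞, Bdd 𝓔 (nbhd E A \ nbhd C A)}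

/-- The cardinal `cof_⋆(𝓔)`, the supremum of `cof_*(𝓔[A])` over all `A ⊆ X`. -/
noncomputable def cofStar (𝓔 : Set (Set (X × X))) : Cardinal := ⨆ A : Set X, cofAstAt 𝓔 A

end Pool.Agent.H80.Ballean
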