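import Mathlib
import Pool.Agent.H80.BalleanDefs

namespace Pool.Agent.H80.Ballean

open Cardinal

def LF : Set (Set (ℕ × ℕ)) :=
  {E | (∀ x, (x, x) ∈ E) ∧ (∀ x, {y | (x, y) ∈ E}.Finite) ∧ ∀ y, {x | (x, y) ∈ E}.Finite}

def gr (g : ℕ → ℕ) (S : Set ℕ) : Set (ℕ × ℕ) := {p | p.1 = p.2 ∨ (p.1 ∈ S ∧ p.2 = g p.1)}

lemma gr_mem (g : ℕ → ℕ) (S : Set ℕ) (h : ∀ y, {x | x ∈ S ∧ g x = y}.Finite) : gr g S ∈ LF := by
  refine ⟨fun x => Or.inl rfl, fun x => ?_, fun y => ?_⟩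
  · refine (Set.toFinite {x, g x}).subset ?_
    rintro y (h | h)
    · left; exact h.symm
    · right; exact h.2
  · refine ((h y).insert y).subset ?_
    rintro x (h | h)
    · left; exact h
    · right; exact ⟨h.1, h.2.symm⟩

def star (x : ℕ) (B : Set ℕ) : Set (ℕ × ℕ) := {p | p.1 = p.2 ∨ (p.1 = x ∧ p.2 ∈ B)}

lemma star_mem (x : ℕ) {B : Set ℕ} (hB : B.Finite) : star x B ∈ LF := by
  refine ⟨fun x => Or.inl rfl, fun z => ?_, fun y => ?_⟩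
  · refine (hB.insert z).subset ?_
    rintro y (h | h)
    · left; exact h.symm
    · right; exact h.2
  · refine (Set.toFinite {x, y}).subset ?_
    rintro z (h | h)
    · right; exact h
    · left; exact h.1

lemma isBallean : IsBallean LF := by
  refine ⟨fun E hE => hE.1, fun E hE F hF => ⟨compInv E F, ⟨fun x => ⟨x, hE.1 x, hF.1 x⟩,
    fun x => ?_, fun z => ?_⟩, subset_rfl⟩, ?_⟩
  · refine ((hE.2.1 x).biUnion (t := fun y => {z | (z, y) ∈ F}) (fun y _ => hF.2.2 y)).subset ?_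
    rintro z ⟨y, h1, h2⟩
    exact Set.mem_biUnion h1 h2
  · refine ((hF.2.1 z).biUnion (t := fun y => {x | (x, y) ∈ E}) (fun y _ => hE.2.2 y)).subset ?_
    rintro x ⟨y, h1, h2⟩
    exact Set.mem_biUnion h2 h1
  · refine Set.eq_univ_of_forall fun p => ⟨star p.1 {p.2}, star_mem _ (Set.finite_singleton _), ?_⟩
    exact Or.inr ⟨rfl, rfl⟩

lemma bdd_of_finite {B : Set ℕ} (hB : B.Finite) : Bdd LF B :=
  ⟨star 0 B, star_mem 0 hB, 0, fun y hy => Or.inr ⟨rfl, hy⟩⟩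

lemma finite_of_bdd_sq {B : Set (ℕ × ℕ)} (hB : Bdd (sq LF) B) : B.Finite := by
  obtain ⟨_, ⟨E₁, h1, E₂, h2, rfl⟩, x, hx⟩ := hB
  refine ((h1.2.1 x.1).prod (h2.2.1 x.2)).subset fun p hp => ?_
  exact hx hp

lemma diag_mem : gr id ∅ ∈ LF := gr_mem _ _ (by simp)

lemma cofAstAt_eq (A : Set ℕ) : cofAstAt LF A = 1 := by
  classical
  have key : ∃ C ∈ LF, ∀ E ∈ LF, Bdd LF (nbhd E A \ nbhd C A) := by
    by_cases hA : A.Finite
    · refine ⟨_, diag_mem, fun E hE => bdd_of_finite ?_⟩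
      exact (hA.biUnion (t := fun a => ball E a) (fun a _ => hE.2.1 a)).subset Set.sdiff_subset
    · have hA' : A.Infinite := hA
      refine ⟨gr (Nat.count (· ∈ A)) A, gr_mem _ _ fun y => ?_, fun E _ => bdd_of_finite ?_⟩
      · refine (Set.finite_singleton (Nat.nth (· ∈ A) y)).subset ?_
        rintro x ⟨hx, rfl⟩
        exact (Nat.nth_count (p := (· ∈ A)) hx).symm
      · convert Set.finite_empty
        rw [Set.sdiff_eq_empty]
        intro y _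
        have h1 : Nat.nth (· ∈ A) y ∈ A := Nat.nth_mem_of_infinite hA' y
        refine Set.mem_biUnion h1 (Or.inr ⟨h1, ?_⟩)
        exact (Nat.count_nth_of_infinite (p := (· ∈ A)) hA' y).symm
  obtain ⟨C, hC, h⟩ := key
  apply le_antisymm
  · refine csInf_le' ⟨{C}, by simpa using hC, by simp, fun E hE => ⟨C, rfl, h E hE⟩⟩
  · refine le_csInf ⟨1, {C}, by simpa using hC, by simp, fun E hE => ⟨C, rfl, h E hE⟩⟩ ?_
    rintro _ ⟨𝒞, -, rfl, h3⟩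
    obtain ⟨D, hD, -⟩ := h3 _ hC
    rw [Cardinal.one_le_iff_ne_zero, Cardinal.mk_ne_zero_iff]
    exact ⟨⟨D, hD⟩⟩

lemma cofStar_eq : cofStar LF = 1 := by
  simp [cofStar, cofAstAt_eq]

lemma cofAst_gt : ℵ₀ < cofAst LF := by
  have hne : {c | ∃ 𝒞 ⊆ LF, #𝒞 = c ∧ ∀ E ∈ LF, ∃ C ∈ 𝒞, Bdd (sq LF) (E \ C)}.Nonempty := by
    refine ⟨_, LF, subset_rfl, rfl, fun E hE => ⟨E, hE, ?_⟩⟩
    refine ⟨_, ⟨E, hE, E, hE, rfl⟩, (0, 0), by simp⟩
  obtain ⟨𝒞, h1, h2, h3⟩ := csInf_mem hne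
  unfold cofAst
  rw [← h2]
  by_contra hle
  rw [not_lt, Cardinal.le_aleph0_iff_set_countable] at hle
  have hne' : 𝒞.Nonempty := by
    obtain ⟨D, hD, -⟩ := h3 _ diag_mem
    exact ⟨D, hD⟩
  obtain ⟨f, hf⟩ := hle.exists_eq_range hne'
  have hfL : ∀ n, f n ∈ LF := fun n => h1 (hf ▸ ⟨n, rfl⟩)
  have hb : ∀ x : ℕ, ∃ m : ℕ, x < m ∧ ∀ n ≤ x, (x, m) ∉ f n := by
    intro x
    have hfin : ((Set.Iic x) ∪ ⋃ n ∈ Set.Iic x, {y | (x, y) ∈ f n}).Finite :=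
      (Set.finite_Iic x).union ((Set.finite_Iic x).biUnion fun n _ => (hfL n).2.1 x)
    obtain ⟨m, hm⟩ := hfin.exists_notMem
    refine ⟨m, ?_, fun n hn h => hm (Or.inr (Set.mem_biUnion (show n ∈ Set.Iic x from hn) h))⟩
    by_contra h
    exact hm (Or.inl (not_lt.1 h))
  choose g hg1 hg2 using hb
  have hE : gr g Set.univ ∈ LF := gr_mem _ _ fun y =>
    (Set.finite_Iic y).subset fun x hx => by
      have := hg1 x
      have h2 := hx.2
      simp only [Set.mem_Iic]; omega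
  obtain ⟨C, hC, hB⟩ := h3 _ hE
  rw [hf] at hC
  obtain ⟨n, rfl⟩ := hC
  have hfin := (finite_of_bdd_sq hB).image Prod.fst
  refine (Set.Ici_infinite n) (hfin.subset fun x hx => ⟨(x, g x), ⟨Or.inr ⟨trivial, rfl⟩, hg2 x n hx⟩, rfl⟩)

end Pool.Agent.H80.Ballean
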