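import Mathlib

set_option autoImplicit false

namespace Pool.Agent.H80.Bi

open MeasureTheory Set Filter Topology Metric Module
open scoped RealInnerProductSpace ENNReal

lemma mono1 {f : ℝ → ℝ} {c b : ℝ} (h : c ≤ b) (hf : MonotoneOn f (Icc c b)) :
    ∫⁻ t in Icc c b, ENNReal.ofReal |deriv f t| ≤ ENNReal.ofReal (f b - f c) := by
  have hf' : MonotoneOn f (uIcc c b) := by rwa [uIcc_of_le h]
  have i1 := hf'.intervalIntegrable_deriv
  have i2 := hf'.intervalIntegral_deriv_mem_uIcc
  have le : 0 ≤ f b - f c := sub_nonneg.2 (hf (left_mem_Icc.2 h) (right_mem_Icc.2 h) h)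
  rw [uIcc_of_le le] at i2
  have nn : ∀ t ∈ Ioo c b, 0 ≤ deriv f t := fun t ht => by
    rw [← derivWithin_of_mem_nhds (Icc_mem_nhds ht.1 ht.2)]
    exact hf.derivWithin_nonneg
  rw [← restrict_Ioo_eq_restrict_Icc, setLIntegral_congr_fun measurableSet_Ioo
    (g := fun t => ENNReal.ofReal (deriv f t)) fun t ht => by simp only [abs_of_nonneg (nn t ht)],
    ← ofReal_integral_eq_lintegral_ofReal
      ((intervalIntegrable_iff_integrableOn_Ioo_of_le h).1 i1)
      ((ae_restrict_iff' measurableSet_Ioo).2 (Eventually.of_forall nn)),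
    ← integral_Ioc_eq_integral_Ioo, ← intervalIntegral.integral_of_le h]
  exact ENNReal.ofReal_le_ofReal i2.2

lemma conv1 {f : ℝ → ℝ} (hf : ConvexOn ℝ univ f) (h0 : ∀ t, 0 ≤ f t) {a b : ℝ} (h : a ≤ b) :
    ∫⁻ t in Icc a b, ENNReal.ofReal |deriv f t| ≤ ENNReal.ofReal (f a + f b) := by
  have fc : Continuous f := continuousOn_univ.1 (hf.continuousOn isOpen_univ)
  obtain ⟨c, hc, hm⟩ := isCompact_Icc.exists_isMinOn (nonempty_Icc.2 h) fc.continuousOn
  have m1 : MonotoneOn f (Icc c b) := by
    intro y hy z hz hyz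
    rcases hy.1.eq_or_lt with rfl | h1
    · exact hm ⟨hc.1.trans hz.1, hz.2⟩
    rcases hyz.eq_or_lt with rfl | h2
    · exact le_rfl
    exact hf.le_right_of_left_le (mem_univ c) (mem_univ z) (by
      rw [openSegment_eq_Ioo (h1.trans h2)]; exact ⟨h1, h2⟩) (hm ⟨hc.1.trans hy.1, hy.2⟩)
  have m2 : MonotoneOn (fun t => -f t) (Icc a c) := by
    intro y hy z hz hyz
    simp only [neg_le_neg_iff]
    rcases hz.2.eq_or_lt with rfl | h1
    · exact hm ⟨hy.1, hy.2.trans hc.2⟩
    rcases hyz.eq_or_lt with rfl | h2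
    · exact le_rfl
    exact hf.le_left_of_right_le (mem_univ y) (mem_univ c) (by
      rw [openSegment_eq_Ioo (h2.trans h1)]; exact ⟨h2, h1⟩) (hm ⟨hz.1, hz.2.trans hc.2⟩)
  have k1 := mono1 hc.2 m1
  have k2 := mono1 hc.1 m2
  simp only [deriv.fun_neg, abs_neg] at k2
  rw [← Icc_union_Icc_eq_Icc hc.1 hc.2]
  refine (lintegral_union_le _ _ _).trans ((add_le_add k2 k1).trans ?_)
  have := hm (left_mem_Icc.2 h)
  have := hm (right_mem_Icc.2 h)
  rw [← ENNReal.ofReal_add (by simpa using hm (left_mem_Icc.2 h))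
    (by simpa using hm (right_mem_Icc.2 h))]
  exact ENNReal.ofReal_le_ofReal (by linarith [h0 c])

lemma conv0 {f : ℝ → ℝ} (hf : ConvexOn ℝ univ f) {a b : ℝ} (h : a ≤ b) :
    ∫ t in a..b, f t ≤ (b - a) * (f a + f b) / 2 := by
  have fc : Continuous f := continuousOn_univ.1 (hf.continuousOn isOpen_univ)
  have h1 := intervalIntegral.integral_comp_sub_left f (a := a) (b := b) (a + b)
  simp only [add_sub_cancel_right, add_sub_cancel_left] at h1
  have h2 : ∫ t in a..b, (f t + f (a + b - t)) ≤ ∫ _t in a..b, (f a + f b) := by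
    refine intervalIntegral.integral_mono_on h (Continuous.intervalIntegrable (by fun_prop) _ _)
      (Continuous.intervalIntegrable (by fun_prop) _ _) fun t ht => ?_
    rcases h.eq_or_lt with rfl | hab
    · obtain rfl : t = a := le_antisymm ht.2 ht.1
      simp
    have d : 0 < b - a := by linarith
    have p1 : 0 ≤ (b - t) / (b - a) := div_nonneg (by linarith [ht.2]) d.le
    have p2 : 0 ≤ (t - a) / (b - a) := div_nonneg (by linarith [ht.1]) d.le
    have p3 : (b - t) / (b - a) + (t - a) / (b - a) = 1 := by field_simp; ring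
    have c1 := hf.2 (mem_univ a) (mem_univ b) p1 p2 p3
    have c2 := hf.2 (mem_univ a) (mem_univ b) p2 p1 (by linarith)
    simp only [smul_eq_mul] at c1 c2
    rw [show (b - t) / (b - a) * a + (t - a) / (b - a) * b = t by field_simp; ring] at c1
    rw [show (t - a) / (b - a) * a + (b - t) / (b - a) * b = a + b - t by field_simp; ring] at c2
    have : f a + f b = ((b - t) / (b - a) + (t - a) / (b - a)) * (f a + f b) := by rw [p3, one_mul]
    linarith
  rw [intervalIntegral.integral_add (fc.intervalIntegrable _ _)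
    (Continuous.intervalIntegrable (by fun_prop) _ _), h1, intervalIntegral.integral_const,
    smul_eq_mul] at h2
  linarith

variable {E : Type} [NormedAddCommGroup E] [InnerProductSpace ℝ E] [FiniteDimensional ℝ E]
  [MeasurableSpace E] [BorelSpace E]

noncomputable def top (C : Set E) (e x : E) : ℝ := sSup {t : ℝ | x + t • e ∈ C}

lemma sl_cpt {C : Set E} (hC : IsCompact C) {e : E} (he : ‖e‖ = 1) (x : E) :
    IsCompact {t : ℝ | x + t • e ∈ C} := by
  have : Isometry fun t : ℝ => x + t • e := Isometry.of_dist_eq fun s t => by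
    rw [dist_add_left, dist_eq_norm, ← sub_smul, norm_smul, he, mul_one, dist_eq_norm]
  exact this.isClosedEmbedding.isCompact_preimage hC

lemma top_meas {C : Set E} (hC : IsCompact C) {e : E} (he : ‖e‖ = 1) : Measurable (top C e) := by
  have Z : ∀ c : ℝ, MeasurableSet {x : E | ∃ t, c ≤ t ∧ x + t • e ∈ C} := by
    intro c
    have : {x : E | ∃ t, c ≤ t ∧ x + t • e ∈ C} =
        ⋃ n : ℕ, (fun p : E × ℝ => p.1 - p.2 • e) '' (C ×ˢ Icc c (c + n)) := by
      ext x
      simp only [mem_setOf_eq, mem_iUnion, mem_image, mem_prod, mem_Icc, Prod.exists]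
      constructor
      · rintro ⟨t, h1, h2⟩
        obtain ⟨n, hn⟩ := exists_nat_ge (t - c)
        exact ⟨n, _, t, ⟨h2, h1, by linarith⟩, by simp⟩
      · rintro ⟨n, y, t, ⟨h1, h2, -⟩, rfl⟩
        exact ⟨t, h2, by simpa using h1⟩
    rw [this]
    exact MeasurableSet.iUnion fun n =>
      ((hC.prod isCompact_Icc).image (by fun_prop)).isClosed.measurableSet
  refine measurable_of_Ici fun c => ?_
  have : top C e ⁻¹' Ici c = {x : E | ∃ t, c ≤ t ∧ x + t • e ∈ C} ∪
      ({_x | c ≤ 0} ∩ (⋃ n : ℕ, {x : E | ∃ t, -(n : ℝ) ≤ t ∧ x + t • e ∈ C})ᶜ) := by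
    ext x
    simp only [mem_preimage, mem_Ici, mem_union, mem_setOf_eq, mem_inter_iff, mem_compl_iff,
      mem_iUnion, top]
    rcases eq_empty_or_nonempty {t : ℝ | x + t • e ∈ C} with h | h
    · rw [h, Real.sSup_empty]
      have h' : ∀ t : ℝ, x + t • e ∉ C := fun t ht => (h.subset (show t ∈ _ from ht))
      simp [h']
    · have g := (sl_cpt hC he x).isGreatest_sSup h
      constructor
      · exact fun hc => Or.inl ⟨_, hc, g.1⟩
      · rintro (⟨t, h1, h2⟩ | ⟨-, h2⟩)
        · exact h1.trans (g.2 h2)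
        · obtain ⟨t, ht⟩ := h
          obtain ⟨n, hn⟩ := exists_nat_ge (-t)
          exact (h2 ⟨n, t, by linarith, ht⟩).elim
  rw [this]
  exact (Z c).union ((MeasurableSet.const _).inter (MeasurableSet.iUnion fun n => Z _).compl)

lemma top_fr {C : Set E} (hC : IsCompact C) {e : E} (he : ‖e‖ = 1) {x : E}
    (h : {t : ℝ | x + t • e ∈ C}.Nonempty) : x + top C e x • e ∈ frontier C := by
  have g := (sl_cpt hC he x).isGreatest_sSup h
  refine ⟨subset_closure g.1, fun hi => ?_⟩
  have c : ContinuousAt (fun t : ℝ => x + t • e) (top C e x) := by fun_prop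
  obtain ⟨t, h1, h2⟩ := (((c.eventually (mem_interior_iff_mem_nhds.1 hi)).filter_mono
    (nhdsWithin_le_nhds (s := Ioi (top C e x)))).and self_mem_nhdsWithin).exists
  exact absurd (g.2 h1) (not_le.2 h2)

lemma graph (S : Submodule ℝ E) {e : E} (he : e ∈ Sᗮ) {b : S → ℝ} (hb : Measurable b) {D : Set S}
    (hD : MeasurableSet D) {U : Set E} (hU : ∀ x ∈ D, (x : E) + b x • e ∈ U)
    {F : E → ℝ≥0∞} (hF : Measurable F) :
    ∫⁻ x in D, F ((x : E) + b x • e) ≤ ∫⁻ y in U, F y ∂μHE[finrank ℝ S] := by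
  have m : Measurable fun x : S => (x : E) + b x • e := by fun_prop
  rw [← lintegral_map hF m]
  refine lintegral_mono' (Measure.le_iff.2 fun A hA => ?_) le_rfl
  rw [Measure.map_apply m hA, Measure.restrict_apply (m hA), Measure.restrict_apply hA,
    ← InnerProductSpace.euclideanHausdorffMeasure_eq_volume]
  have sub : (fun x : S => (x : E) + b x • e) ⁻¹' A ∩ D ⊆
      S.orthogonalProjectionOnto '' (A ∩ U) := fun x hx =>
    ⟨_, ⟨hx.1, hU x hx.2⟩, by
      simp [Submodule.orthogonalProjectionOnto_apply_of_mem_orthogonal he]⟩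
  refine (measure_mono sub).trans ?_
  have lip : LipschitzWith 1 S.orthogonalProjectionOnto := LipschitzWith.of_dist_le_mul fun x y => by
    rw [dist_eq_norm, dist_eq_norm, ← map_sub, NNReal.coe_one, one_mul]
    exact S.norm_orthogonalProjectionOnto_apply_le _
  have := lip.hausdorffMeasure_image_le (d := finrank ℝ S) (by positivity) (A ∩ U)
  simp only [Measure.euclideanHausdorffMeasure_def, Measure.smul_apply, ENNReal.smul_def,
    smul_eq_mul]
  exact mul_le_mul_right (by simpa using this) _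

lemma chord {C : Set E} (hC : IsCompact C) (hc : Convex ℝ C) {e : E} (he : ‖e‖ = 1)
    {F G : E → ℝ≥0∞} (hF : Measurable F) (hG : Measurable G)
    (h : ∀ x : E, ⟪e, x⟫ = 0 → ∀ a b : ℝ, a ≤ b →
      ∫⁻ t in Icc a b, G (x + t • e) ≤ F (x + a • e) + F (x + b • e)) :
    ∫⁻ y in C, G y ≤ ∫⁻ y in frontier C, F y ∂μHE[finrank ℝ E - 1] := by
  set S : Submodule ℝ E := (ℝ ∙ e)ᗮ with hS
  have e0 : e ≠ 0 := by rintro rfl; simp at he
  have fr : finrank ℝ S = finrank ℝ E - 1 := by
    have := (ℝ ∙ e).finrank_add_finrank_orthogonal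
    rw [finrank_span_singleton e0, ← hS] at this
    omega
  have eS : e ∈ Sᗮ := Submodule.le_orthogonal_orthogonal _ (Submodule.mem_span_singleton_self e)
  have xe : ∀ x : S, ⟪e, (x : E)⟫ = 0 := fun x => Submodule.mem_orthogonal_singleton_iff_inner_right.1 x.2
  have mp : MeasurePreserving (fun p : ℝ × S => (p.2 : E) + p.1 • e) (volume.prod volume) volume := by
    have h1 := ((ℝ ∙ e).measurePreserving_measurableEquivProd (0 : E)).symm
    rw [InnerProductSpace.euclideanHausdorffMeasure_eq_volume] at h1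
    have h2 := h1.comp (((LinearIsometryEquiv.toSpanUnitSingleton (𝕜 := ℝ) e he).measurePreserving).prod
      (MeasurePreserving.id (volume : Measure S)))
    have e3 : (fun p : ℝ × S => (p.2 : E) + p.1 • e) = ((ℝ ∙ e).measurableEquivProd 0).symm ∘
        Prod.map (LinearIsometryEquiv.toSpanUnitSingleton (𝕜 := ℝ) e he) id := by
      ext p
      simp [add_comm]
    rw [e3]
    exact h2
  have mC := hC.isClosed.measurableSet
  set b : S → ℝ := fun x => top C e x with hb
  set a : S → ℝ := fun x => -top C (-e) x with ha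
  have he' : ‖-e‖ = 1 := by rwa [norm_neg]
  have bm : Measurable b := (top_meas hC he).comp measurable_subtype_coe
  have am : Measurable a := ((top_meas hC he').comp measurable_subtype_coe).neg
  have ainf : ∀ x : S, a x = sInf {t : ℝ | (x : E) + t • e ∈ C} := fun x => by
    rw [Real.sInf_def, ha]
    simp only [top]
    congr 2
    ext t; simp
  set D : Set S := {x | a x < b x} with hD
  have Dm : MeasurableSet D := measurableSet_lt am bm
  have ne : ∀ x ∈ D, {t : ℝ | (x : E) + t • e ∈ C}.Nonempty := by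
    intro x hx
    by_contra hn
    rw [not_nonempty_iff_eq_empty] at hn
    have h1 : a x < b x := hx
    rw [ainf, hb] at h1
    simp only [top, hn] at h1
    simp at h1
  set T : Set E := {y | a (S.orthogonalProjectionOnto y) < ⟪e, y⟫} with hT
  have Tm : MeasurableSet T := measurableSet_lt
    (am.comp S.orthogonalProjectionOnto.continuous.measurable) (by fun_prop)
  have pT : ∀ (x : S) (t : ℝ), (x : E) + t • e ∈ T ↔ a x < t := fun x t => by
    simp [hT, Submodule.orthogonalProjectionOnto_apply_of_mem_orthogonal eS, inner_add_right,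
      xe, inner_smul_right, he]
  have g1 := graph S eS bm Dm (U := frontier C ∩ T)
    (fun x hx => ⟨top_fr hC he (ne x hx), (pT x _).2 hx⟩) hF
  have g2 := graph S eS am Dm (U := frontier C \ T) (fun x hx => ⟨by
      obtain ⟨t, ht⟩ := ne x hx
      have := top_fr hC he' (x := x) ⟨-t, by simpa using ht⟩
      simpa [ha] using this, fun h => lt_irrefl _ ((pT x _).1 h)⟩) hF
  rw [← fr, ← lintegral_inter_add_sdiff F (frontier C) Tm]
  refine le_trans ?_ (add_le_add g1 g2)
  rw [← lintegral_add_left (by fun_prop), ← lintegral_indicator mC,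
    ← mp.lintegral_comp (hG.indicator mC), lintegral_prod_symm' _ (by
      exact (hG.indicator mC).comp mp.measurable), ← lintegral_indicator Dm]
  refine lintegral_mono fun x => ?_
  have e1 : (fun t : ℝ => C.indicator G ((x : E) + t • e)) =
      {t : ℝ | (x : E) + t • e ∈ C}.indicator fun t => G ((x : E) + t • e) := by
    ext t; simp [indicator]
  have sc := sl_cpt hC he (x : E)
  simp only [e1]
  rw [lintegral_indicator sc.isClosed.measurableSet]
  rcases eq_empty_or_nonempty {t : ℝ | (x : E) + t • e ∈ C} with h0 | h0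
  · simp [h0]
  have cv : Convex ℝ {t : ℝ | (x : E) + t • e ∈ C} := by
    intro s hs t ht p q hp hq hpq
    have := hc hs ht hp hq hpq
    simp only [mem_setOf_eq, smul_eq_mul]
    convert this using 1
    obtain rfl : p = 1 - q := by linarith
    module
  rw [eq_Icc_of_connected_compact (cv.isConnected h0) sc, ← ainf]
  change ∫⁻ t in Icc (a x) (b x), _ ≤ _
  by_cases hx : x ∈ D
  · rw [indicator_of_mem hx, add_comm]
    exact h x (xe x) _ _ (le_of_lt hx)
  · rw [setLIntegral_measure_zero]
    · exact zero_le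
    · simp only [Real.volume_Icc, ENNReal.ofReal_eq_zero]
      linarith [not_lt.1 (show ¬ a x < b x from hx)]

lemma dir {C : Set E} (hC : IsCompact C) (hc : Convex ℝ C) {e : E} (he : ‖e‖ = 1) {h : E → ℝ}
    (hh : ConvexOn ℝ univ h) (h0 : ∀ y, 0 ≤ h y) {p q : ℝ} (hp : 0 ≤ p) (hq : 0 ≤ q) :
    ∫⁻ y in C, ENNReal.ofReal (p * h y + q * (h y * |fderiv ℝ h y e|)) ≤
      ∫⁻ y in frontier C, ENNReal.ofReal (p * (h y ^ 2 / 3 + 3 * ⟪e, y⟫ ^ 2) / 2 + q * h y ^ 2 / 2)
        ∂μHE[finrank ℝ E - 1] := by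
  have hcont : Continuous h := continuousOn_univ.1 (hh.continuousOn isOpen_univ)
  have hm := measurable_fderiv_apply_const ℝ h e
  refine chord hC hc he (by fun_prop) (by fun_prop) fun x hx a b hab => ?_
  set φ : ℝ → ℝ := fun t => h (x + t • e) with hφ
  have φc : ConvexOn ℝ univ φ := by
    refine ⟨convex_univ, fun s _ t _ u v hu hv huv => ?_⟩
    have := hh.2 (mem_univ (x + s • e)) (mem_univ (x + t • e)) hu hv huv
    simp only [hφ, smul_eq_mul] at this ⊢
    convert this using 2
    obtain rfl : u = 1 - v := by linarith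
    module
  have φ0 : ∀ t, 0 ≤ φ t := fun t => h0 _
  have φk : Continuous φ := by simp only [hφ]; fun_prop
  have k1 := conv1 (f := φ ^ 2) (φc.pow (fun t _ => φ0 t) 2) (fun t => sq_nonneg _) hab
  have k0 := conv0 φc hab
  have pt : ∀ t, h (x + t • e) * |fderiv ℝ h (x + t • e) e| ≤ |deriv (φ ^ 2) t| / 2 := by
    intro t
    by_cases hd : DifferentiableAt ℝ h (x + t • e)
    · have l : HasDerivAt (fun s : ℝ => x + s • e) e t := by
        simpa using ((hasDerivAt_id t).smul_const e).const_add x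
      have d : HasDerivAt φ (fderiv ℝ h (x + t • e) e) t := hd.hasFDerivAt.comp_hasDerivAt t l
      rw [(d.pow 2).deriv, abs_mul, abs_of_nonneg (a := _ * _ ^ _) (by have := φ0 t; positivity)]
      simp only [hφ]
      norm_num
      linarith
    · rw [fderiv_zero_of_not_differentiableAt hd]
      simp only [ContinuousLinearMap.zero_apply, abs_zero, mul_zero]
      positivity
  have ie : ∀ t : ℝ, ⟪e, x + t • e⟫ = t := fun t => by
    rw [inner_add_right, hx, inner_smul_right, real_inner_self_eq_norm_sq, he]; ring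
  calc ∫⁻ t in Icc a b, ENNReal.ofReal (p * h (x + t • e) +
        q * (h (x + t • e) * |fderiv ℝ h (x + t • e) e|))
      ≤ ∫⁻ t in Icc a b, (ENNReal.ofReal p * ENNReal.ofReal (φ t) +
          ENNReal.ofReal (q / 2) * ENNReal.ofReal |deriv (φ ^ 2) t|) := by
        refine lintegral_mono fun t => ?_
        have := φ0 t
        rw [← ENNReal.ofReal_mul hp, ← ENNReal.ofReal_mul (by positivity),
          ← ENNReal.ofReal_add (by positivity) (by positivity)]
        exact ENNReal.ofReal_le_ofReal (by nlinarith [mul_le_mul_of_nonneg_left (pt t) hq])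
    _ ≤ ENNReal.ofReal p * ENNReal.ofReal ((b - a) * (φ a + φ b) / 2) +
          ENNReal.ofReal (q / 2) * ENNReal.ofReal (φ a ^ 2 + φ b ^ 2) := by
        rw [lintegral_add_left (by fun_prop), lintegral_const_mul' _ _ ENNReal.ofReal_ne_top,
          lintegral_const_mul' _ _ ENNReal.ofReal_ne_top,
          ← ofReal_integral_eq_lintegral_ofReal φk.integrableOn_Icc (Eventually.of_forall φ0),
          integral_Icc_eq_integral_Ioc, ← intervalIntegral.integral_of_le hab]
        exact add_le_add (mul_le_mul_right (ENNReal.ofReal_le_ofReal k0) _) (mul_le_mul_right k1 _)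
    _ ≤ _ := by
        have := φ0 a
        have := φ0 b
        have := sub_nonneg.2 hab
        rw [← ENNReal.ofReal_mul hp, ← ENNReal.ofReal_mul (by positivity),
          ← ENNReal.ofReal_add (by positivity) (by positivity),
          ← ENNReal.ofReal_add (by positivity) (by positivity), ie, ie]
        refine ENNReal.ofReal_le_ofReal ?_
        have k : (b - a) * (φ a + φ b) / 2 ≤
            (φ a ^ 2 / 3 + 3 * a ^ 2) / 2 + (φ b ^ 2 / 3 + 3 * b ^ 2) / 2 := by
          nlinarith [sq_nonneg (φ a + φ b - 3 * (b - a)), sq_nonneg (φ a - φ b), sq_nonneg (a + b)]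
        have := mul_le_mul_of_nonneg_left k hp
        simp only [hφ] at this ⊢
        linarith

lemma oct (a b : ℝ) : Real.sqrt (a ^ 2 + b ^ 2) ≤
    5 / 12 * (|a| + |b| + |3 / 5 * a + 4 / 5 * b| + |-4 / 5 * a + 3 / 5 * b|) := by
  rw [Real.sqrt_le_iff]
  refine ⟨by positivity, ?_⟩
  rcases abs_cases a with ⟨h1, k1⟩ | ⟨h1, k1⟩ <;> rcases abs_cases b with ⟨h2, k2⟩ | ⟨h2, k2⟩ <;>
  rcases abs_cases (3 / 5 * a + 4 / 5 * b) with ⟨h3, k3⟩ | ⟨h3, k3⟩ <;>
  rcases abs_cases (-4 / 5 * a + 3 / 5 * b) with ⟨h4, k4⟩ | ⟨h4, k4⟩ <;>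
  rw [h1, h2, h3, h4] <;> nlinarith

end Pool.Agent.H80.Bi
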