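import Pool.Agent.H80.Bi1

set_option autoImplicit false

namespace Pool.Agent.H80.Bi

open MeasureTheory Set Filter Topology Metric Module
open scoped RealInnerProductSpace ENNReal

lemma comb {E : Type} [NormedAddCommGroup E] [InnerProductSpace ℝ E] [FiniteDimensional ℝ E]
    [MeasurableSpace E] [BorelSpace E] {C : Set E} (hC : IsCompact C) (hc : Convex ℝ C)
    {ι : Type} [Fintype ι] {e : ι → E} (he : ∀ i, ‖e i‖ = 1) {h : E → ℝ}
    (hh : ConvexOn ℝ univ h) (h0 : ∀ y, 0 ≤ h y) {p q : ι → ℝ} (hp : ∀ i, 0 ≤ p i)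
    (hq : ∀ i, 0 ≤ q i) {F G : E → ℝ}
    (hG : ∀ y, G y ≤ ∑ i, (p i * h y + q i * (h y * |fderiv ℝ h y (e i)|)))
    (hF : ∀ y, ∑ i, (p i * (h y ^ 2 / 3 + 3 * ⟪e i, y⟫ ^ 2) / 2 + q i * h y ^ 2 / 2) ≤ F y) :
    ∫⁻ y in C, ENNReal.ofReal (G y) ≤
      ∫⁻ y in frontier C, ENNReal.ofReal (F y) ∂μHE[finrank ℝ E - 1] := by
  have hcont : Continuous h := continuousOn_univ.1 (hh.continuousOn isOpen_univ)
  have hm := fun i => measurable_fderiv_apply_const ℝ h (e i)
  calc ∫⁻ y in C, ENNReal.ofReal (G y)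
      ≤ ∫⁻ y in C, ∑ i, ENNReal.ofReal (p i * h y + q i * (h y * |fderiv ℝ h y (e i)|)) := by
        refine lintegral_mono fun y => ?_
        rw [← ENNReal.ofReal_sum_of_nonneg fun i _ => by
          have := h0 y; have := hp i; have := hq i; positivity]
        exact ENNReal.ofReal_le_ofReal (hG y)
    _ ≤ ∑ i, ∫⁻ y in frontier C, ENNReal.ofReal (p i * (h y ^ 2 / 3 + 3 * ⟪e i, y⟫ ^ 2) / 2 +
          q i * h y ^ 2 / 2) ∂μHE[finrank ℝ E - 1] := by
        rw [lintegral_finset_sum _ fun i _ => by have := hm i; fun_prop]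
        exact Finset.sum_le_sum fun i _ => dir hC hc (he i) hh h0 (hp i) (hq i)
    _ ≤ _ := by
        rw [← lintegral_finset_sum _ fun i _ => by fun_prop]
        refine lintegral_mono fun y => ?_
        rw [← ENNReal.ofReal_sum_of_nonneg fun i _ => by
          have := hp i; have := hq i; positivity]
        exact ENNReal.ofReal_le_ofReal (hF y)

theorem main (k : ℕ) (h : EuclideanSpace ℝ (Fin (k + 2)) → ℝ) (hh : ConvexOn ℝ univ h)
    (h0 : ∀ y, 0 ≤ h y) (C : Set (EuclideanSpace ℝ (Fin (k + 2)))) (hC : IsCompact C)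
    (hc : Convex ℝ C) :
    ENNReal.ofReal (2 / ((k : ℝ) + 2)) *
        ∫⁻ z in C, ENNReal.ofReal (h z * Real.sqrt (1 + ‖gradient h z‖ ^ 2)) ≤
      ∫⁻ y in frontier C, ENNReal.ofReal (‖y‖ ^ 2 + h y ^ 2) ∂μHE[k + 1] := by
  set m : ℝ := k + 2 with hm
  have m2 : 2 ≤ m := by rw [hm]; linarith [Nat.cast_nonneg (α := ℝ) k]
  have m0 : 0 < m := by linarith
  let b : Fin (k + 2) → EuclideanSpace ℝ (Fin (k + 2)) := fun i => EuclideanSpace.single i 1
  have ib : ∀ i y, ⟪b i, y⟫ = y i := fun i y => by simp [b, EuclideanSpace.inner_single_left]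
  have nb : ∀ s t : ℝ, s ^ 2 + t ^ 2 = 1 → ‖s • b 0 + t • b 1‖ = 1 := by
    intro s t hst
    rw [← sq_eq_sq₀ (norm_nonneg _) zero_le_one, ← real_inner_self_eq_norm_sq, inner_add_left,
      real_inner_smul_left, real_inner_smul_left, ib, ib]
    simp [b]
    linarith
  let w : Fin (k + 2) → ℝ := Fin.cons (5 / 12) (Fin.cons (5 / 12) fun _ => 1)
  have w0 : ∀ i, 0 ≤ w i := fun i => Fin.cases (by norm_num [w]) (fun i => Fin.cases
    (by norm_num [w]) (fun i => by simp [w]) i) i
  have key := comb hC hc (ι := Fin (k + 2) ⊕ Bool)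
    (e := Sum.elim b fun s => cond s ((3 / 5 : ℝ) • b 0 + (4 / 5 : ℝ) • b 1)
      ((-4 / 5 : ℝ) • b 0 + (3 / 5 : ℝ) • b 1))
    (by
      rintro (i | _ | _)
      · simp [b]
      · exact nb _ _ (by norm_num)
      · exact nb _ _ (by norm_num)) hh h0
    (p := Sum.elim (fun _ => 2 / m ^ 2) fun _ => 0)
    (q := Sum.elim (fun i => 2 / m * w i) fun _ => 2 / m * (5 / 12))
    (by rintro (i | _) <;> simp only [Sum.elim_inl, Sum.elim_inr] <;> positivity)
    (by
      rintro (i | _) <;> simp only [Sum.elim_inl, Sum.elim_inr]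
      · have := w0 i; positivity
      · positivity)
    (G := fun z => 2 / m * (h z * Real.sqrt (1 + ‖gradient h z‖ ^ 2)))
    (F := fun y => ‖y‖ ^ 2 + h y ^ 2) (fun y => by
      set v := gradient h y with hv
      have fv : ∀ e, fderiv ℝ h y e = ⟪e, v⟫ := fun e => by
        rw [real_inner_comm, hv, gradient, InnerProductSpace.toDual_symm_apply]
      simp only [Fintype.sum_sum_type, Fintype.sum_bool, Sum.elim_inl, Sum.elim_inr, fv, ib,
        cond_true, cond_false, inner_add_left, real_inner_smul_left, Finset.sum_add_distrib,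
        Finset.sum_const, Finset.card_univ, Fintype.card_fin, nsmul_eq_mul, Fin.sum_univ_succ, w,
        Fin.cons_zero, Fin.cons_succ, Fin.succ_zero_eq_one, mul_one, ← Finset.mul_sum]
      set T := ∑ i : Fin k, |v i.succ.succ| with hT
      have T0 : 0 ≤ T := by positivity
      have n1 : ‖v‖ ≤ Real.sqrt (v 0 ^ 2 + v 1 ^ 2) + T := by
        have s1 := Finset.sum_sq_le_sq_sum_of_nonneg (s := Finset.univ)
          (f := fun i : Fin k => |v i.succ.succ|) fun i _ => abs_nonneg _
        simp only [sq_abs] at s1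
        have s2 := Real.sq_sqrt (show 0 ≤ v 0 ^ 2 + v 1 ^ 2 by positivity)
        have s3 := Real.sqrt_nonneg (v 0 ^ 2 + v 1 ^ 2)
        refine le_of_sq_le_sq ?_ (by positivity)
        rw [EuclideanSpace.real_norm_sq_eq, Fin.sum_univ_succ, Fin.sum_univ_succ,
          Fin.succ_zero_eq_one]
        nlinarith [mul_nonneg s3 T0]
      have n2 : Real.sqrt (1 + ‖v‖ ^ 2) ≤ 1 + ‖v‖ :=
        Real.sqrt_le_iff.2 ⟨by positivity, by nlinarith [norm_nonneg v]⟩
      have n3 := oct (v 0) (v 1)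
      have n4 := mul_le_mul_of_nonneg_left (n2.trans (add_le_add_right (n1.trans
        (add_le_add_left n3 T)) 1)) (show 0 ≤ 2 / m * h y by have := h0 y; positivity)
      have e1 : ((k + 2 : ℕ) : ℝ) * (2 / m ^ 2 * h y) = 2 / m * h y := by
        push_cast; rw [← hm]; field_simp
      push_cast at e1 ⊢
      linarith)
    (fun y => by
      simp only [Fintype.sum_sum_type, Fintype.sum_bool, Sum.elim_inl, Sum.elim_inr, ib,
        zero_mul, zero_div, zero_add, Finset.sum_add_distrib]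
      have a1 : ∑ i, 2 / m ^ 2 * (h y ^ 2 / 3 + 3 * y i ^ 2) / 2 =
          h y ^ 2 / (3 * m) + 3 / m ^ 2 * ‖y‖ ^ 2 := by
        rw [EuclideanSpace.real_norm_sq_eq, ← Finset.sum_div, ← Finset.mul_sum,
          Finset.sum_add_distrib, ← Finset.mul_sum, Finset.sum_const, Finset.card_univ,
          Fintype.card_fin, nsmul_eq_mul]
        push_cast; rw [← hm]; field_simp
      have a2 : ∑ i, 2 / m * w i * h y ^ 2 / 2 = (m - 7 / 6) / m * h y ^ 2 := by
        rw [← Finset.sum_div, ← Finset.sum_mul, ← Finset.mul_sum]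
        simp only [w, Fin.sum_univ_succ, Fin.cons_zero, Fin.cons_succ, Finset.sum_const,
          Finset.card_univ, Fintype.card_fin, nsmul_eq_mul, mul_one]
        rw [show (k : ℝ) = m - 2 by rw [hm]; ring]; field_simp; ring
      have a3 : 3 / m ^ 2 ≤ 1 := by rw [div_le_one (by positivity)]; nlinarith
      have a4 := mul_le_mul_of_nonneg_right a3 (sq_nonneg ‖y‖)
      have a5 : h y ^ 2 / (3 * m) + (m - 7 / 6) / m * h y ^ 2 +
          2 * (2 / m * (5 / 12) * h y ^ 2 / 2) = h y ^ 2 := by field_simp; ring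
      rw [a1, a2]
      linarith)
  rw [finrank_euclideanSpace_fin] at key
  rw [← lintegral_const_mul' _ _ ENNReal.ofReal_ne_top]
  simp only [← ENNReal.ofReal_mul (show 0 ≤ 2 / m by positivity)]
  exact key

end Pool.Agent.H80.Bi
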