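import Mathlib

namespace Pool.Agent.H80.Cap

open Set
open scoped ENNReal Pointwise ContDiff

/-- The standard symplectic form `dx ∧ dy` on the real plane, modelled as `ℂ`. -/
def om (v w : ℂ) : ℝ := v.re * w.im - v.im * w.re

/-- A symplectomorphism of the plane: a smooth bijection with smooth inverse preserving `om`. -/
def IsSymp (ψ : ℂ ≃ ℂ) : Prop :=
  ContDiff ℝ ∞ ψ ∧ ContDiff ℝ ∞ ψ.symm ∧ ∀ z v w, om (fderiv ℝ ψ z v) (fderiv ℝ ψ z w) = om v w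

/-- A normalised symplectic capacity on the plane (there the cylinder `Z²(r)` is the disc). -/
def IsCapacity (c : Set ℂ → ℝ≥0∞) : Prop :=
  (∀ (A B : Set ℂ) (ψ : ℂ ≃ ℂ), IsSymp ψ → ψ '' A ⊆ B → c A ≤ c B) ∧
  (∀ (A : Set ℂ) (l : ℝ), l ≠ 0 → c (l • A) = ENNReal.ofReal (l ^ 2) * c A) ∧
  ∀ r : ℝ, 0 < r → c (Metric.closedBall 0 r) = ENNReal.ofReal (Real.pi * r ^ 2)

/-- `φ` preserves the `c`-capacity of small open sets. -/
def PreservesSmall (c : Set ℂ → ℝ≥0∞) (φ : ℂ ≃ₜ ℂ) : Prop :=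
  ∀ z, ∃ U ∈ nhds z, ∀ V ⊆ U, IsOpen V → c (φ '' V) = c V

end Pool.Agent.H80.Cap
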