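import Mathlib
import Pool.Agent.H80.CapDefs

namespace Pool.Agent.H80.Cap

open Set MeasureTheory Real Filter Topology
open scoped ENNReal Pointwise ContDiff

def Scales (g : ℂ ≃ₜ ℂ) (t : ℝ) : Prop := ∀ A, volume (g '' A) = ENNReal.ofReal t * volume A

def Good (g : ℂ ≃ₜ ℂ) : Prop :=
  (∀ z, ∃ L : ℂ →L[ℝ] ℂ, HasFDerivAt g L z ∧ Function.Injective L) ∧ ∃ t, 0 < t ∧ Scales g t

lemma Scales.trans {f g : ℂ ≃ₜ ℂ} {s t : ℝ} (hf : Scales f s) (hg : Scales g t) (ht : 0 ≤ t) :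
    Scales (f.trans g) (t * s) := by
  intro A
  have : (f.trans g) '' A = g '' (f '' A) := by rw [image_image]; rfl
  rw [this, hg, hf, ENNReal.ofReal_mul ht, mul_assoc]

lemma Good.trans {f g : ℂ ≃ₜ ℂ} (hf : Good f) (hg : Good g) : Good (f.trans g) := by
  obtain ⟨h1, s, hs, h2⟩ := hf
  obtain ⟨h3, t, ht, h4⟩ := hg
  refine ⟨fun z => ?_, t * s, mul_pos ht hs, h2.trans h4 ht.le⟩
  obtain ⟨L, hL, hL'⟩ := h1 z
  obtain ⟨K, hK, hK'⟩ := h3 (f z)
  exact ⟨K.comp L, hK.comp z hL, hK'.comp hL'⟩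

lemma scales_of_meas {g : ℂ ≃ₜ ℂ} (h : ∀ A, MeasurableSet A → volume (g '' A) = volume A) :
    Scales g 1 := by
  have h1 : (volume : Measure ℂ).map g.symm.toMeasurableEquiv = volume := by
    ext A hA
    rw [MeasurableEquiv.map_apply, ← h A hA, g.image_eq_preimage_symm]; rfl
  intro A
  rw [ENNReal.ofReal_one, one_mul]
  conv_rhs => rw [← h1, MeasurableEquiv.map_apply]
  rw [g.image_eq_preimage_symm]; rfl

def IsSymp.homeo {ψ : ℂ ≃ ℂ} (h : IsSymp ψ) : ℂ ≃ₜ ℂ :=
  ⟨ψ, h.1.continuous, h.2.1.continuous⟩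

lemma det_eq (L : ℂ →L[ℝ] ℂ) : L.det = om (L 1) (L Complex.I) := by
  rw [ContinuousLinearMap.det, ← LinearMap.det_toMatrix Complex.basisOneI, Matrix.det_fin_two]
  simp [LinearMap.toMatrix_apply, om]
  ring

lemma IsSymp.scales {ψ : ℂ ≃ ℂ} (h : IsSymp ψ) : Scales h.homeo 1 := by
  refine scales_of_meas fun A hA => ?_
  have := lintegral_abs_det_fderiv_eq_addHaar_image volume hA (f := ψ) (f' := fderiv ℝ ψ)
    (fun x _ => (h.1.differentiable (by simp) x).hasFDerivAt.hasFDerivWithinAt) ψ.injective.injOn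
  simp only [det_eq, h.2.2] at this
  show volume (ψ '' A) = _
  rw [← this]; simp [om]

lemma IsSymp.good {ψ : ℂ ≃ ℂ} (h : IsSymp ψ) : Good h.homeo := by
  refine ⟨fun z => ⟨fderiv ℝ ψ z, (h.1.differentiable (by simp) z).hasFDerivAt, ?_⟩, 1, one_pos,
    h.scales⟩
  rw [injective_iff_map_eq_zero]
  intro v hv
  have h1 := h.2.2 z v 1
  have h2 := h.2.2 z v Complex.I
  rw [hv] at h1 h2
  simp [om] at h1 h2
  exact Complex.ext h2.symm (by simpa using h1)

lemma good_smul {l : ℝ} (hl : l ≠ 0) : Good (Homeomorph.smulOfNeZero l hl) := by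
  refine ⟨fun z => ⟨l • ContinuousLinearMap.id ℝ ℂ, (hasFDerivAt_id z).const_smul l,
    fun a b h => smul_right_injective ℂ hl h⟩, l ^ 2, by positivity, fun A => ?_⟩
  have := Measure.addHaar_smul (volume : Measure ℂ) l A
  rw [Complex.finrank_real_complex, abs_of_nonneg (sq_nonneg l)] at this
  exact this

noncomputable def φ : ℂ ≃ₜ ℂ where
  toFun z := z + (|z.re| : ℝ) * Complex.I
  invFun z := z - (|z.re| : ℝ) * Complex.I
  left_inv z := by simp
  right_inv z := by simp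
  continuous_toFun := by fun_prop
  continuous_invFun := by fun_prop

lemma shear_mp (f : ℝ → ℝ) (hf : Continuous f) :
    MeasurePreserving (fun z : ℂ => z + (f z.re : ℝ) * Complex.I) volume volume := by
  have h1 : MeasurePreserving (fun p : ℝ × ℝ => (id p.1, p.2 + f p.1)) volume volume :=
    (MeasurePreserving.id volume).skew_product (g := fun x y => y + f x) (by fun_prop)
      (ae_of_all _ fun x => map_add_right_eq_self volume (f x))
  have h2 := Complex.volume_preserving_equiv_real_prod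
  have h3 := h2.symm.comp (h1.comp h2)
  have h4 : (fun z : ℂ => z + (f z.re : ℝ) * Complex.I) = Complex.measurableEquivRealProd.symm ∘
      (fun p : ℝ × ℝ => (id p.1, p.2 + f p.1)) ∘ Complex.measurableEquivRealProd := by
    funext z
    apply Complex.ext <;> simp [Complex.measurableEquivRealProd]
  rw [h4]; exact h3

lemma φ_scales : Scales φ 1 := by
  refine scales_of_meas fun A hA => ?_
  rw [φ.image_eq_preimage_symm, ← (shear_mp (fun x => -|x|) (by fun_prop)).measure_preimage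
    hA.nullMeasurableSet]
  congr 2
  funext z
  simp [φ, sub_eq_add_neg]

lemma φ_symm_scales : Scales φ.symm 1 := by
  refine scales_of_meas fun A hA => ?_
  rw [φ.symm.image_eq_preimage_symm, ← (shear_mp (fun x => |x|) (by fun_prop)).measure_preimage
    hA.nullMeasurableSet]
  rfl

def D (σ : ℝ) : Set ℂ := Metric.closedBall 0 √σ
def B (σ : ℝ) : Set ℂ := Metric.ball 0 √σ

lemma mem_D {σ : ℝ} (h : 0 ≤ σ) {z : ℂ} : z ∈ D σ ↔ ‖z‖ ^ 2 ≤ σ := by
  rw [D, mem_closedBall_zero_iff, Real.le_sqrt (norm_nonneg _) h]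

lemma mem_B {σ : ℝ} {z : ℂ} : z ∈ B σ ↔ ‖z‖ ^ 2 < σ := by
  rw [B, mem_ball_zero_iff, Real.lt_sqrt (norm_nonneg _)]

lemma vol_D {σ : ℝ} (h : 0 ≤ σ) : volume (D σ) = ENNReal.ofReal (π * σ) := by
  rw [D, Complex.volume_closedBall, ← ENNReal.ofReal_pow (sqrt_nonneg _), Real.sq_sqrt h, mul_comm,
    ENNReal.ofReal_mul pi_pos.le, ← ENNReal.ofReal_coe_nnreal]; rfl

lemma vol_B {σ : ℝ} (h : 0 ≤ σ) : volume (B σ) = ENNReal.ofReal (π * σ) := by
  rw [B, Complex.volume_ball, ← ENNReal.ofReal_pow (sqrt_nonneg _), Real.sq_sqrt h, mul_comm,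
    ENNReal.ofReal_mul pi_pos.le, ← ENNReal.ofReal_coe_nnreal]; rfl

noncomputable def s (k : ℕ) : ℝ := (k + 1).factorial
noncomputable def e (k : ℕ) : ℝ := (1 / 2) ^ k

lemma one_le_s (k : ℕ) : 1 ≤ s k := by unfold s; exact_mod_cast Nat.factorial_pos _
lemma s_succ (k : ℕ) : s (k + 1) = (k + 2) * s k := by
  unfold s; rw [Nat.factorial_succ]; push_cast; ring
lemma e_pos (k : ℕ) : 0 < e k := by unfold e; positivity
lemma e_le (k : ℕ) : e k ≤ 1 := pow_le_one₀ (by norm_num) (by norm_num)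
lemma s_mono {i j : ℕ} (h : i ≤ j) : s i ≤ s j := by
  unfold s; exact_mod_cast Nat.factorial_le (by omega)
lemma s_gap {i j : ℕ} (h : i < j) : s i + e i ≤ s j := by
  have h1 := s_mono (Nat.succ_le_of_lt h)
  rw [s_succ] at h1
  have h0 : (0 : ℝ) ≤ i := Nat.cast_nonneg _
  nlinarith [one_le_s i, e_le i]

def R (k : ℕ) : Set ℂ := B (s k + e k) \ D (s k)

lemma mem_R {k : ℕ} {z : ℂ} : z ∈ R k ↔ s k < ‖z‖ ^ 2 ∧ ‖z‖ ^ 2 < s k + e k := by
  rw [R, Set.mem_sdiff, mem_B, mem_D (by linarith [one_le_s k]), not_le, and_comm]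

lemma vol_R (k : ℕ) : volume (R k) ≤ ENNReal.ofReal (π * e k) := by
  have h0 : 0 ≤ s k := by linarith [one_le_s k]
  have he := e_pos k
  rw [R, measure_sdiff (s₂ := D (s k)) (fun z hz => mem_B.2 (by linarith [(mem_D h0).1 hz]))
    Metric.isClosed_closedBall.measurableSet.nullMeasurableSet (by rw [vol_D h0]; simp),
    vol_B (by linarith), vol_D h0, ← ENNReal.ofReal_sub _ (by positivity)]
  exact le_of_eq (by congr 1; ring)

def V0 : Set ℂ := ⋃ k, R k

lemma V0_open : IsOpen V0 :=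
  isOpen_iUnion fun k => Metric.isOpen_ball.sdiff Metric.isClosed_closedBall

lemma V0_vol : volume V0 ≠ ⊤ := by
  refine ne_top_of_le_ne_top ?_ ((measure_iUnion_le _).trans (ENNReal.tsum_le_tsum vol_R))
  rw [← ENNReal.ofReal_tsum_of_nonneg (f := fun k => π * e k) (fun k => by have := e_pos k; positivity)
    (summable_geometric_two.mul_left _)]
  exact ENNReal.ofReal_ne_top

lemma V0_unb : ¬ Bornology.IsBounded V0 := by
  rw [isBounded_iff_forall_norm_le]
  rintro ⟨C, hC⟩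
  obtain ⟨k, hk⟩ := exists_nat_gt (C ^ 2)
  have hp : 0 ≤ s (k + 1) + e (k + 1) / 2 := by linarith [one_le_s (k + 1), e_pos (k + 1)]
  have hn : ‖((√(s (k + 1) + e (k + 1) / 2) : ℝ) : ℂ)‖ ^ 2 = s (k + 1) + e (k + 1) / 2 := by
    rw [Complex.norm_real, Real.norm_eq_abs, sq_abs, Real.sq_sqrt hp]
  have := hC _ (mem_iUnion.2 ⟨k + 1, mem_R.2 ⟨by rw [hn]; linarith [e_pos (k + 1)],
    by rw [hn]; linarith [e_pos (k + 1)]⟩⟩)
  have h2 := pow_le_pow_left₀ (norm_nonneg _) this 2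
  rw [hn, s_succ] at h2
  have h0 : (0 : ℝ) ≤ k := Nat.cast_nonneg _
  nlinarith [one_le_s k, e_pos (k + 1)]

lemma side (h : ℂ ≃ₜ ℂ) {σ : ℝ} (hσ : 0 ≤ σ) {T : Set ℂ} (hT : IsPreconnected T)
    (hd : ∀ z, ‖z‖ ^ 2 = σ → h z ∉ T) : T ⊆ h '' B σ ∨ T ⊆ h '' (D σ)ᶜ := by
  refine hT.subset_or_subset (h.isOpenMap _ Metric.isOpen_ball)
    (h.isOpenMap _ Metric.isClosed_closedBall.isOpen_compl) ?_ ?_
  · rw [disjoint_image_iff h.injective]
    exact disjoint_compl_right.mono_left Metric.ball_subset_closedBall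
  · intro w hw
    obtain ⟨z, rfl⟩ := h.surjective w
    rcases lt_trichotomy (‖z‖ ^ 2) σ with h1 | h1 | h1
    · exact Or.inl ⟨z, mem_B.2 h1, rfl⟩
    · exact absurd hw (hd z h1)
    · exact Or.inr ⟨z, fun h2 => absurd ((mem_D hσ).1 h2) h1.not_ge, rfl⟩

lemma circle_in (h : ℂ ≃ₜ ℂ) (hV : h '' V0 ⊆ V0) {k : ℕ} {σ : ℝ} (h1 : s k < σ) (h2 : σ < s k + e k) :
    ∃ j, ∀ z, ‖z‖ ^ 2 = σ → h z ∈ R j := by
  have hσ : 0 ≤ σ := by linarith [one_le_s k]
  have hsp : ∀ z : ℂ, z ∈ Metric.sphere (0 : ℂ) √σ ↔ ‖z‖ ^ 2 = σ := fun z => by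
    rw [mem_sphere_zero_iff_norm, eq_comm, Real.sqrt_eq_iff_eq_sq hσ (norm_nonneg _), eq_comm]
  have hc := (isConnected_sphere (E := ℂ) (by simp) 0 (sqrt_nonneg σ)).image (fun z => ‖h z‖ ^ 2)
    (by fun_prop)
  have hin : ∀ a ∈ (fun z => ‖h z‖ ^ 2) '' Metric.sphere (0 : ℂ) √σ, ∃ i, s i < a ∧ a < s i + e i := by
    rintro _ ⟨z, hz, rfl⟩
    rw [hsp] at hz
    obtain ⟨i, hi⟩ := mem_iUnion.1 (hV ⟨z, mem_iUnion.2 ⟨k, mem_R.2 (by rw [hz]; exact ⟨h1, h2⟩)⟩, rfl⟩)
    exact ⟨i, mem_R.1 hi⟩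
  obtain ⟨a, ha⟩ := hc.nonempty
  obtain ⟨j, hj1, hj2⟩ := hin a ha
  refine ⟨j, fun z hz => mem_R.2 ⟨?_, ?_⟩⟩
  · by_contra hn
    obtain ⟨i, hi1, hi2⟩ := hin _ (hc.isPreconnected.Icc_subset ⟨z, (hsp z).2 hz, rfl⟩ ha
      (show s j ∈ Icc _ _ from ⟨not_lt.1 hn, hj1.le⟩))
    rcases lt_or_ge i j with h3 | h3
    · linarith [s_gap h3]
    · linarith [s_mono h3]
  · by_contra hn
    obtain ⟨i, hi1, hi2⟩ := hin _ (hc.isPreconnected.Icc_subset ha ⟨z, (hsp z).2 hz, rfl⟩
      (show s j + e j ∈ Icc _ _ from ⟨hj2.le, not_lt.1 hn⟩))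
    rcases lt_trichotomy i j with h3 | rfl | h3
    · linarith [s_gap h3, e_pos j]
    · linarith
    · linarith [s_gap h3]

lemma nest (h : ℂ ≃ₜ ℂ) {t : ℝ} (ht : 0 < t) (hs : Scales h t) {σ : ℝ} (hσ : 1 < t * σ) {j : ℕ}
    (hj : ∀ z, ‖z‖ ^ 2 = σ → h z ∈ R j) :
    D (s j) ⊆ h '' D σ ∧ s j ≤ t * σ ∧ t * σ ≤ s j + e j := by
  have hσ0 : 0 ≤ σ := by by_contra hn; nlinarith
  have hsj : 0 ≤ s j := by linarith [one_le_s j]
  have hej := e_pos j
  have hvol : volume (h '' D σ) = ENNReal.ofReal (π * (t * σ)) := by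
    rw [hs, vol_D hσ0, ← ENNReal.ofReal_mul ht.le]; congr 1; ring
  have hout : h '' D σ ⊆ B (s j + e j) := by
    intro w hw
    by_contra hn
    rw [mem_B, not_lt] at hn
    have hw0 : 0 < ‖w‖ := by
      rcases (norm_nonneg w).eq_or_lt with h0 | h0
      · rw [← h0] at hn; linarith
      · exact h0
    rcases side h hσ0 (T := (fun τ : ℝ => τ • w) '' Ici 1) (isPreconnected_Ici.image _ (by fun_prop)) (by
      rintro z hz ⟨τ, hτ, h3⟩
      have h4 := (mem_R.1 (hj z hz)).2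
      have hτ' : (1 : ℝ) ≤ τ := hτ
      rw [← h3, norm_smul, mul_pow, Real.norm_eq_abs, sq_abs] at h4
      have : 1 ≤ τ ^ 2 := one_le_pow₀ hτ'
      nlinarith) with h3 | h3
    · have hb : Bornology.IsBounded (h '' D σ) :=
        ((isCompact_closedBall _ _).image h.continuous).isBounded
      obtain ⟨C, hC⟩ := isBounded_iff_forall_norm_le.1 hb
      have h5 := hC w hw
      have := hC _ (image_mono Metric.ball_subset_closedBall (h3 ⟨C / ‖w‖ + 1,
        show 1 ≤ C / ‖w‖ + 1 by have := div_nonneg (hw0.le.trans h5) hw0.le; linarith, rfl⟩))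
      rw [norm_smul, Real.norm_eq_abs, abs_of_nonneg (by
        have := div_nonneg (hw0.le.trans h5) hw0.le; linarith), add_mul, div_mul_cancel₀ _ hw0.ne'] at this
      linarith
    · obtain ⟨z, hz, rfl⟩ := hw
      obtain ⟨z', hz', h4⟩ := h3 ⟨1, le_refl (1 : ℝ), one_smul _ _⟩
      exact hz' (h.injective h4 ▸ hz)
  have hin : D (s j) ⊆ h '' D σ := by
    rcases side h hσ0 (T := D (s j)) (convex_closedBall _ _).isPreconnected
      (fun z hz => (hj z hz).2) with h3 | h3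
    · exact h3.trans (image_mono Metric.ball_subset_closedBall)
    · exfalso
      have h4 : h '' D σ ⊆ R j := fun w hw => ⟨hout hw, fun h5 => by
        obtain ⟨z, hz, rfl⟩ := hw
        obtain ⟨z', hz', h4⟩ := h3 h5
        exact hz' (h.injective h4 ▸ hz)⟩
      have h5 := (measure_mono h4).trans (vol_R j)
      rw [hvol, ENNReal.ofReal_le_ofReal_iff (by positivity)] at h5
      have := le_of_mul_le_mul_left h5 pi_pos
      linarith [e_le j]
  have h1 := measure_mono (μ := volume) hin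
  have h2 := measure_mono (μ := volume) hout
  rw [hvol, vol_D hsj, ENNReal.ofReal_le_ofReal_iff (by positivity)] at h1
  rw [hvol, vol_B (by linarith), ENNReal.ofReal_le_ofReal_iff (by positivity)] at h2
  exact ⟨hin, le_of_mul_le_mul_left h1 pi_pos, le_of_mul_le_mul_left h2 pi_pos⟩

lemma rigid (h : ℂ ≃ₜ ℂ) {t : ℝ} (ht : 0 < t) (hs : Scales h t) (hV : h '' V0 ⊆ V0) :
    ∃ σ, 0 < σ ∧ h '' D σ = D σ := by
  obtain ⟨m, hm⟩ := exists_nat_gt (2 / t + 2 * t)
  have h0 : 0 < 2 / t := by positivity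
  have hm1 : 2 < t * (m + 2) := by
    have : 2 / t < m + 2 := by linarith
    rw [div_lt_iff₀ ht] at this; linarith
  have hm2 : 2 * t < m + 3 := by linarith
  have hk := s_succ m
  have hk2 := s_succ (m + 1)
  have h1 := one_le_s m
  have h2 := one_le_s (m + 1)
  have he := e_pos (m + 1)
  have key : ∀ σ, s (m + 1) < σ → σ < s (m + 1) + e (m + 1) →
      D (s (m + 1)) ⊆ h '' D σ ∧ t * σ ≤ s (m + 1) + e (m + 1) := by
    intro σ h3 h4
    obtain ⟨j, hj⟩ := circle_in h hV h3 h4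
    have h5 : s m + 1 < t * σ := by nlinarith
    obtain ⟨h6, h7, h8⟩ := nest h ht hs (by linarith) hj
    have : j = m + 1 := by
      rcases lt_trichotomy j (m + 1) with h9 | h9 | h9
      · linarith [s_mono (Nat.lt_succ_iff.1 h9), e_le j]
      · exact h9
      · have := s_mono (Nat.succ_le_of_lt h9)
        push_cast at hk2
        have := e_le (m + 1)
        nlinarith
    subst this
    exact ⟨h6, h8⟩
  set a := s (m + 1) with ha
  set b := e (m + 1) with hb
  have ha0 : 0 ≤ a := by linarith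
  have ht1 : t ≤ 1 := by
    by_contra hn
    have hn : 1 < t := not_le.1 hn
    have h3 : (a + b) / t < a + b := div_lt_self (by linarith) hn
    have h4 := (key ((max a ((a + b) / t) + (a + b)) / 2) (by linarith [le_max_left a ((a + b) / t)])
      (by linarith [max_lt (show a < a + b by linarith) h3])).2
    have h5 : (a + b) / t < (max a ((a + b) / t) + (a + b)) / 2 := by
      linarith [le_max_right a ((a + b) / t)]
    rw [div_lt_iff₀ ht] at h5
    linarith
  have hin : D a ⊆ h '' D a := by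
    intro w hw
    obtain ⟨z, rfl⟩ := h.surjective w
    refine ⟨z, (mem_D ha0).2 ?_, rfl⟩
    by_contra hn
    have hn : a < ‖z‖ ^ 2 := not_le.1 hn
    have h3 : a < min (‖z‖ ^ 2) (a + b) := lt_min hn (by linarith)
    obtain ⟨z', hz', h4⟩ := (key ((a + min (‖z‖ ^ 2) (a + b)) / 2) (by linarith)
      (by linarith [min_le_right (‖z‖ ^ 2) (a + b)])).1 hw
    rw [h.injective h4, mem_D (by linarith)] at hz'
    linarith [min_le_left (‖z‖ ^ 2) (a + b)]
  refine ⟨a, by linarith, subset_antisymm ?_ hin⟩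
  have hnull : volume (h '' D a \ D a) = 0 := by
    rw [measure_sdiff hin Metric.isClosed_closedBall.measurableSet.nullMeasurableSet
      (by rw [vol_D ha0]; simp), hs, tsub_eq_zero_iff_le]
    exact mul_le_of_le_one_left' (ENNReal.ofReal_le_one.2 ht1)
  have hop : IsOpen (h '' B a \ D a) :=
    (h.isOpenMap _ Metric.isOpen_ball).sdiff Metric.isClosed_closedBall
  have hemp := (hop.measure_eq_zero_iff volume).1 (measure_mono_null
    (sdiff_subset_sdiff_left (image_mono Metric.ball_subset_closedBall)) hnull)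
  rw [sdiff_eq_empty] at hemp
  have hcl : D a = closure (B a) := (closure_ball _ (Real.sqrt_pos.2 (by linarith)).ne').symm
  calc h '' D a = closure (h '' B a) := by rw [hcl, h.image_closure]
    _ ⊆ D a := closure_minimal hemp Metric.isClosed_closedBall

lemma corner {g : ℂ ≃ₜ ℂ} (hg : Good g) {σ : ℝ} (hσ : 0 < σ) : g '' D σ ≠ φ '' D σ := by
  intro he
  set r := √σ with hr
  have hr0 : 0 < r := Real.sqrt_pos.2 hσ
  obtain ⟨q, hq, hgq⟩ : (-(r : ℂ) * Complex.I) ∈ g '' D σ := by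
    rw [he]
    exact ⟨-(r : ℂ) * Complex.I, by simp [D, abs_of_pos hr0, ← hr], by simp [φ]⟩
  have hcone : ∀ z ∈ D σ, |(g z).re| - r ≤ (g z).im := by
    intro z hz
    obtain ⟨w, hw, h1⟩ : g z ∈ φ '' D σ := he ▸ ⟨z, hz, rfl⟩
    rw [← h1]
    have := (abs_le.1 ((Complex.abs_im_le_norm w).trans (mem_closedBall_zero_iff.1 hw))).1
    simp [φ]
    linarith
  obtain ⟨L, hL, hLi⟩ := hg.1 q
  have key : ∀ (c : ℝ → ℂ) (v : ℂ), HasDerivAt c v 0 → c 0 = q → (∀ᶠ τ in 𝓝 0, c τ ∈ D σ) →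
      v = 0 := by
    intro c v hc h0 hev
    have hd : HasDerivAt (fun τ => g (c τ)) (L v) 0 := (h0 ▸ hL).comp_hasDerivAt 0 hc
    have hre : HasDerivAt (fun τ => (g (c τ)).re) (L v).re 0 :=
      Complex.reCLM.hasFDerivAt.comp_hasDerivAt 0 hd
    have him : HasDerivAt (fun τ => (g (c τ)).im) (L v).im 0 :=
      Complex.imCLM.hasFDerivAt.comp_hasDerivAt 0 hd
    have m1 : IsLocalMin (fun τ => (g (c τ)).im - (g (c τ)).re) 0 := by
      filter_upwards [hev] with τ hτ
      have := hcone _ hτ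
      simp only [h0, hgq]
      simp
      linarith [le_abs_self (g (c τ)).re]
    have m2 : IsLocalMin (fun τ => (g (c τ)).im + (g (c τ)).re) 0 := by
      filter_upwards [hev] with τ hτ
      have := hcone _ hτ
      simp only [h0, hgq]
      simp
      linarith [neg_abs_le (g (c τ)).re]
    have e1 := m1.hasDerivAt_eq_zero (him.sub hre)
    have e2 := m2.hasDerivAt_eq_zero (him.add hre)
    apply hLi
    rw [map_zero]
    exact Complex.ext (by simp; linarith) (by simp; linarith)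
  by_cases hq0 : q = 0
  · have := key (fun τ => (τ : ℂ)) 1 (Complex.ofRealCLM.hasDerivAt) (by simp [hq0]) (by
      filter_upwards [Metric.closedBall_mem_nhds (0 : ℝ) hr0] with τ hτ
      simpa [D] using hτ)
    exact one_ne_zero this
  · have := key (fun τ => circleMap 0 1 τ * q) (circleMap 0 1 0 * Complex.I * q)
      ((hasDerivAt_circleMap 0 1 0).mul_const q) (by simp [circleMap]) (Eventually.of_forall fun τ => by
        simpa [D] using hq)
    simp [circleMap, hq0] at this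

def U (A : Set ℂ) : Prop := ∃ g, Good g ∧ g '' V0 ⊆ A

lemma U.image {A : Set ℂ} (h : U A) {g : ℂ ≃ₜ ℂ} (hg : Good g) : U (g '' A) := by
  obtain ⟨f, hf, h⟩ := h
  refine ⟨f.trans g, hf.trans hg, ?_⟩
  rintro _ ⟨z, hz, rfl⟩
  exact ⟨f z, h ⟨z, hz, rfl⟩, rfl⟩

lemma U.mono {A B : Set ℂ} (h : U A) (hAB : A ⊆ B) : U B := by
  obtain ⟨f, hf, h⟩ := h
  exact ⟨f, hf, h.trans hAB⟩

lemma not_U {K : Set ℂ} (hK : IsCompact K) : ¬ U K := by
  rintro ⟨g, -, h⟩
  exact V0_unb ((g.isCompact_preimage.2 hK).isBounded.subset (image_subset_iff.1 h))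

lemma U_V0 : U V0 := ⟨_, good_smul one_ne_zero, by rintro _ ⟨z, hz, rfl⟩; simpa using hz⟩

lemma not_U_φ : ¬ U (φ '' V0) := by
  rintro ⟨g, hg, h⟩
  obtain ⟨t, ht, hs⟩ := hg.2
  obtain ⟨σ, hσ, h1⟩ := rigid (g.trans φ.symm) (by positivity) (hs.trans φ_symm_scales zero_le_one) (by
    rintro _ ⟨z, hz, rfl⟩
    obtain ⟨w, hw, h2⟩ := h ⟨z, hz, rfl⟩
    simpa [← h2] using hw)
  refine corner hg hσ ?_
  conv_rhs => rw [← h1, image_image]
  simp

open Classical in
noncomputable def c (A : Set ℂ) : ℝ≥0∞ := if U A then ⊤ else volume A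

lemma isCapacity : IsCapacity c := by
  refine ⟨fun A B ψ hψ h => ?_, fun A l hl => ?_, fun r hr => ?_⟩
  · unfold c
    by_cases hB : U B
    · rw [if_pos hB]; exact le_top
    · rw [if_neg hB, if_neg fun hA => hB ((hA.image hψ.good).mono h)]
      have := hψ.scales A
      rw [ENNReal.ofReal_one, one_mul] at this
      rw [← this]; exact measure_mono h
  · unfold c
    by_cases hA : U A
    · rw [if_pos hA, if_pos (show U (l • A) from hA.image (good_smul hl)), ENNReal.mul_top]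
      simpa using hl
    · rw [if_neg hA, if_neg fun h => hA ?_]
      · have := Measure.addHaar_smul (volume : Measure ℂ) l A
        rwa [Complex.finrank_real_complex, abs_of_nonneg (sq_nonneg l)] at this
      · have := h.image (good_smul (inv_ne_zero hl))
        rwa [show (Homeomorph.smulOfNeZero l⁻¹ (inv_ne_zero hl)) '' (l • A) = l⁻¹ • l • A from rfl,
          inv_smul_smul₀ hl] at this
  · rw [c, if_neg (not_U (isCompact_closedBall _ _)), ← vol_D (sq_nonneg r), D, Real.sqrt_sq hr.le]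

lemma preservesSmall : PreservesSmall c φ := by
  refine fun z => ⟨Metric.closedBall z 1, Metric.closedBall_mem_nhds z one_pos, fun V hV _ => ?_⟩
  rw [c, c, if_neg fun h => not_U ((isCompact_closedBall z 1).image φ.continuous) (h.mono (image_mono hV)),
    if_neg fun h => not_U (isCompact_closedBall z 1) (h.mono hV), φ_scales]
  simp

lemma differ : c (φ '' V0) ≠ c V0 := by
  rw [c, c, if_neg not_U_φ, if_pos U_V0, φ_scales]
  simpa using V0_vol

end Pool.Agent.H80.Cap
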