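import Mathlib

set_option autoImplicit false

namespace Pool.Agent.H80.CoarseCount

open Classical

/-- enumerate a finite set of bounded size -/
theorem exists_enum {X : Type} (d : X) (s : Set X) (a : ℕ) (hs : s.Finite) (ha : s.ncard ≤ a) :
    ∃ e : Fin a → X, ∀ y ∈ s, ∃ i, e i = y := by
  have : Fintype s := hs.fintype
  have h : Fintype.card s ≤ Fintype.card (Fin a) := by
    rw [Fintype.card_fin, ← Nat.card_eq_fintype_card, Nat.card_coe_set_eq]; exact ha
  obtain ⟨emb⟩ := Function.Embedding.nonempty_of_card_le h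
  refine ⟨Function.extend emb Subtype.val (fun _ => d), fun y hy => ⟨emb ⟨y, hy⟩, ?_⟩⟩
  exact emb.injective.extend_apply _ _ _

/-- the walk decoded from a start point and a code -/
def walkOf {X : Type} {a : ℕ} (e : X → Fin a → X) (x : X) (c : ℕ → Fin a) : ℕ → X
  | 0 => x
  | k + 1 => e (walkOf e x c k) (c k)

/-- The counting lemma: for large `n` some permutation of `Fin n` is not realised. -/
theorem exists_bad_perm {X : Type} (N : X → X → Prop) (A : Set X) (hA : A.Finite) (a C : ℕ)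
    (hN : ∀ x, {y | N x y}.Finite ∧ {y | N x y}.ncard ≤ a) :
    ∃ (n : ℕ) (σ : Equiv.Perm (Fin n)), ∀ f : ℕ → X, f 0 ∈ A → (∀ i, N (f i) (f (i + 1))) →
      (∀ i : Fin n, N (f i) (f (σ i))) →
      (∀ i : ℕ, {j : ℕ | N (f i) (f j)}.Finite ∧ {j : ℕ | N (f i) (f j)}.ncard ≤ C) → False := by
  have : Fintype A := hA.fintype
  obtain ⟨n, hn⟩ := (Nat.eventually_mul_pow_lt_factorial_sub (Fintype.card A) ((a + 1) * C) 0).exists
  refine ⟨n, ?_⟩
  by_contra hcon
  push Not at hcon
  have he : ∀ x : X, ∃ e : Fin (a + 1) → X, ∀ y, N x y → ∃ i, e i = y := fun x =>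
    exists_enum x {y | N x y} (a + 1) (hN x).1 ((hN x).2.trans (Nat.le_succ a))
  choose e he using he
  -- enumeration of near indices
  have hE : ∀ (g : ℕ → X) (i : ℕ), ∃ E : Fin C → ℕ,
      ({j : ℕ | j < n ∧ N (g i) (g j)}.ncard ≤ C → ∀ j, j < n → N (g i) (g j) → ∃ t, E t = j) := by
    intro g i
    by_cases h : {j : ℕ | j < n ∧ N (g i) (g j)}.ncard ≤ C
    · obtain ⟨E, hE⟩ := exists_enum 0 {j : ℕ | j < n ∧ N (g i) (g j)} C
        ((Set.finite_lt_nat n).subset (fun j hj => hj.1)) h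
      exact ⟨E, fun _ j hj hj' => hE j ⟨hj, hj'⟩⟩
    · exact ⟨fun _ => 0, fun h' => absurd h' h⟩
  choose E hE using hE
  let ext : (Fin n → Fin (a + 1)) → ℕ → Fin (a + 1) := fun c k => if h : k < n then c ⟨k, h⟩ else 0
  let Φ : A × (Fin n → Fin (a + 1)) × (Fin n → Fin C) → (Fin n → ℕ) :=
    fun p i => E (walkOf e p.1.1 (ext p.2.1)) i (p.2.2 i)
  have key : ∀ σ : Equiv.Perm (Fin n), ∃ p, Φ p = fun i => (σ i : ℕ) := by
    intro σ
    obtain ⟨f, h0, h1, h2, h3, -⟩ := hcon σ
    choose c hc using fun i => he (f i) (f (i + 1)) (h1 i)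
    have hw : ∀ k, k ≤ n → walkOf e (f 0) (ext (fun i : Fin n => c i)) k = f k := by
      intro k
      induction k with
      | zero => intro _; rfl
      | succ k ih =>
        intro hk
        have hk' : k < n := hk
        simp only [walkOf, ih hk'.le, ext, dif_pos hk', hc]
    set g := walkOf e (f 0) (ext (fun i : Fin n => c i)) with hg
    have hd : ∀ i : Fin n, ∃ t, E g i t = (σ i : ℕ) := by
      intro i
      apply hE g i _ _ (σ i).2
      · rw [hw _ i.2.le, hw _ (σ i).2.le]; exact h2 i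
      · refine le_trans (Set.ncard_le_ncard ?_ (h3 i).1) (h3 i).2
        intro j hj
        have := hj.2
        rw [hw _ i.2.le, hw _ hj.1.le] at this
        exact this
    choose d hd using hd
    exact ⟨(⟨f 0, h0⟩, fun i : Fin n => c i, d), funext hd⟩
  choose p hp using key
  have hinj : Function.Injective p := by
    intro σ τ h
    have := (hp σ).symm.trans ((congrArg Φ h).trans (hp τ))
    ext i
    exact congrFun this i
  have hle := Fintype.card_le_of_injective p hinj
  simp only [Fintype.card_perm, Fintype.card_fin, Fintype.card_prod, Fintype.card_fun] at hle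
  rw [Nat.sub_zero, mul_pow] at hn
  omega

/-- balls in a connected graph of bounded degree -/
theorem ball_bound {V : Type} (G : SimpleGraph V) (hG : G.Connected) (D : ℕ)
    (hD : ∀ v, (G.neighborSet v).Finite ∧ (G.neighborSet v).ncard ≤ D) (v : V) (R : ℕ) :
    {w | G.dist v w ≤ R}.Finite ∧ {w | G.dist v w ≤ R}.ncard ≤ (D + 1) ^ R := by
  have he : ∀ x : V, ∃ e : Fin (D + 1) → V, ∀ y ∈ insert x (G.neighborSet x), ∃ i, e i = y :=
    fun x => exists_enum x _ (D + 1) ((hD x).1.insert x)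
      ((Set.ncard_insert_le _ _).trans (Nat.succ_le_succ (hD x).2))
  choose e he using he
  induction R with
  | zero =>
    have : {w | G.dist v w ≤ 0} = {v} := by
      ext w
      simp only [Set.mem_ofPred_eq, Nat.le_zero, hG.dist_eq_zero_iff, Set.mem_singleton_iff]
      exact eq_comm
    rw [this]; simp
  | succ R ih =>
    have hsub : {w | G.dist v w ≤ R + 1} ⊆
        (fun p : V × Fin (D + 1) => e p.1 p.2) '' ({w | G.dist v w ≤ R} ×ˢ Set.univ) := by
      intro w hw
      have hw' : G.dist v w ≤ R + 1 := hw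
      by_cases h : G.dist v w ≤ R
      · obtain ⟨i, hi⟩ := he w w (Set.mem_insert _ _)
        exact ⟨(w, i), ⟨h, trivial⟩, hi⟩
      · obtain ⟨p, hp⟩ := hG.exists_walk_length_eq_dist w v
        rw [SimpleGraph.dist_comm] at hp
        cases p with
        | nil => exact absurd (by simp) h
        | cons hadj q =>
          rename_i u
          have hq := SimpleGraph.dist_le q
          simp only [SimpleGraph.Walk.length_cons] at hp
          obtain ⟨i, hi⟩ := he u w (Set.mem_insert_of_mem _ hadj.symm)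
          refine ⟨(u, i), ⟨?_, trivial⟩, hi⟩
          show G.dist v u ≤ R
          rw [SimpleGraph.dist_comm]; omega
    have hfin : ({w | G.dist v w ≤ R} ×ˢ (Set.univ : Set (Fin (D + 1)))).Finite :=
      ih.1.prod Set.finite_univ
    refine ⟨(hfin.image _).subset hsub, ?_⟩
    refine (Set.ncard_le_ncard hsub (hfin.image _)).trans ((Set.ncard_image_le hfin).trans ?_)
    rw [Set.ncard_prod, Set.ncard_univ, Nat.card_eq_fintype_card, Fintype.card_fin, pow_succ]
    exact Nat.mul_le_mul_right _ ih.2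

/-- the comb graph carrying the permutation `σ k` on the `k`-th tooth -/
def comb (σ : ℕ → Σ n : ℕ, Equiv.Perm (Fin n)) : SimpleGraph (ℕ × ℕ) :=
  SimpleGraph.fromRel fun p q =>
    (q.1 = p.1 + 1 ∧ p.2 = 0 ∧ q.2 = 0) ∨ (q.1 = p.1 ∧ q.2 = p.2 + 1) ∨
      (q.1 = p.1 ∧ ∃ i : Fin (σ p.1).1, p.2 = i ∧ q.2 = (σ p.1).2 i)

theorem comb_adj_spine (σ : ℕ → Σ n : ℕ, Equiv.Perm (Fin n)) (k : ℕ) :
    (comb σ).Adj (k, 0) (k + 1, 0) := by
  simp [comb, SimpleGraph.fromRel_adj]

theorem comb_adj_tooth (σ : ℕ → Σ n : ℕ, Equiv.Perm (Fin n)) (k i : ℕ) :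
    (comb σ).Adj (k, i) (k, i + 1) := by
  simp [comb, SimpleGraph.fromRel_adj]

theorem comb_dist_perm (σ : ℕ → Σ n : ℕ, Equiv.Perm (Fin n)) (k : ℕ) (i : Fin (σ k).1) :
    (comb σ).dist (k, i) (k, (σ k).2 i) ≤ 1 := by
  by_cases h : ((k, (i : ℕ)) : ℕ × ℕ) = (k, ((σ k).2 i : ℕ))
  · rw [← h]; simp
  · have : (comb σ).Adj (k, i) (k, (σ k).2 i) := by
      rw [comb, SimpleGraph.fromRel_adj]
      exact ⟨h, Or.inl (Or.inr (Or.inr ⟨rfl, i, rfl, rfl⟩))⟩
    exact (SimpleGraph.dist_eq_one_iff_adj.2 this).le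

theorem comb_connected (σ : ℕ → Σ n : ℕ, Equiv.Perm (Fin n)) : (comb σ).Connected := by
  have h1 : ∀ k, (comb σ).Reachable (0, 0) (k, 0) := by
    intro k
    induction k with
    | zero => rfl
    | succ k ih => exact ih.trans (comb_adj_spine σ k).reachable
  have h2 : ∀ k i, (comb σ).Reachable (0, 0) (k, i) := by
    intro k i
    induction i with
    | zero => exact h1 k
    | succ i ih => exact ih.trans (comb_adj_tooth σ k i).reachable
  exact { preconnected := fun p q => (h2 p.1 p.2).symm.trans (h2 q.1 q.2) }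

theorem comb_degree (σ : ℕ → Σ n : ℕ, Equiv.Perm (Fin n)) (v : ℕ × ℕ) :
    ((comb σ).neighborSet v).Finite ∧ ((comb σ).neighborSet v).ncard ≤ 6 := by
  obtain ⟨k, i⟩ := v
  let u : ℕ := if h : i < (σ k).1 then ((σ k).2 ⟨i, h⟩ : ℕ) else 0
  let u' : ℕ := if h : i < (σ k).1 then ((σ k).2.symm ⟨i, h⟩ : ℕ) else 0
  let e : Fin 6 → ℕ × ℕ := ![(k + 1, 0), (k, i + 1), (k, u), (k - 1, 0), (k, i - 1), (k, u')]
  have hsub : (comb σ).neighborSet (k, i) ⊆ e '' Set.univ := by
    rintro ⟨l, j⟩ hw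
    rw [SimpleGraph.mem_neighborSet, comb, SimpleGraph.fromRel_adj] at hw
    obtain ⟨-, (h | h | h) | (h | h | h)⟩ := hw
    · refine ⟨0, trivial, ?_⟩
      obtain ⟨h1, -, h3⟩ := h
      simp only at h1 h3
      simp [e, h1, h3]
    · refine ⟨1, trivial, ?_⟩
      obtain ⟨h1, h3⟩ := h
      simp only at h1 h3
      simp [e, h1, h3]
    · refine ⟨2, trivial, ?_⟩
      obtain ⟨h1, t, h2, h3⟩ := h
      simp only at h1 h2 h3
      have : i < (σ k).1 := h2 ▸ t.2
      have ht : (⟨i, this⟩ : Fin (σ k).1) = t := Fin.ext h2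
      simp [e, h1, h3, u, this, ht]
    · refine ⟨3, trivial, ?_⟩
      obtain ⟨h1, h2, -⟩ := h
      simp only at h1 h2
      simp [e, h1, h2]
    · refine ⟨4, trivial, ?_⟩
      obtain ⟨h1, h3⟩ := h
      simp only at h1 h3
      simp [e, h1, h3]
    · refine ⟨5, trivial, ?_⟩
      obtain ⟨h1, t, h2, h3⟩ := h
      simp only at h1 h2 h3
      subst h1
      have : i < (σ k).1 := h3 ▸ ((σ k).2 t).2
      have ht : (⟨i, this⟩ : Fin (σ k).1) = (σ k).2 t := Fin.ext h3
      simp [e, h2, u', this, ht]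
  have hfin : (e '' Set.univ).Finite := Set.finite_univ.image _
  refine ⟨hfin.subset hsub, (Set.ncard_le_ncard hsub hfin).trans ?_⟩
  refine (Set.ncard_image_le Set.finite_univ).trans ?_
  simp

theorem comb_dist_spine (σ : ℕ → Σ n : ℕ, Equiv.Perm (Fin n)) (k : ℕ) :
    (comb σ).dist (0, 0) (k, 0) ≤ k := by
  induction k with
  | zero => simp
  | succ k ih =>
    have := (comb_connected σ).dist_triangle (u := (0, 0)) (v := (k, 0)) (w := (k + 1, 0))
    have h1 := SimpleGraph.dist_eq_one_iff_adj.2 (comb_adj_spine σ k)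
    omega

/-- a tooth of the comb cannot be embedded with controlled multiplicity -/
theorem tooth_count (σ : ℕ → Σ n : ℕ, Equiv.Perm (Fin n)) (k i R : ℕ) :
    {j : ℕ | (comb σ).dist (k, i) (k, j) ≤ R}.Finite ∧
      {j : ℕ | (comb σ).dist (k, i) (k, j) ≤ R}.ncard ≤ 7 ^ R := by
  obtain ⟨h1, h2⟩ := ball_bound (comb σ) (comb_connected σ) 6 (comb_degree σ) (k, i) R
  have hinj : Function.Injective (fun j : ℕ => ((k, j) : ℕ × ℕ)) := fun a b h => (Prod.ext_iff.1 h).2
  have hfin : {j : ℕ | (comb σ).dist (k, i) (k, j) ≤ R}.Finite :=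
    Set.Finite.preimage hinj.injOn h1
  refine ⟨hfin, le_trans ?_ h2⟩
  exact Set.ncard_le_ncard_of_injOn (fun j : ℕ => ((k, j) : ℕ × ℕ)) (fun j hj => hj) hinj.injOn h1

end Pool.Agent.H80.CoarseCount
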