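import Mathlib

namespace Pool.Agent.H80.Contact

/-- `f ∼ g`: `g = U · φ(f)` for some `U ∈ GL(2, R)` and some `F`-algebra automorphism `φ` of
`R = F[[x,y]]`. -/
def ContactEquiv {F : Type} [Field F] (f g : Fin 2 → MvPowerSeries (Fin 2) F) : Prop :=
  ∃ (U : GL (Fin 2) (MvPowerSeries (Fin 2) F))
    (φ : MvPowerSeries (Fin 2) F ≃ₐ[F] MvPowerSeries (Fin 2) F),
    g = (U : Matrix (Fin 2) (Fin 2) (MvPowerSeries (Fin 2) F)).mulVec (fun i => φ (f i))

end Pool.Agent.H80.Contact
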