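import Mathlib
import Pool.Agent.H80.ContactDefs

namespace Pool.Agent.H80.Contact

open MvPowerSeries

variable {F : Type} [Field F]

abbrev R (F : Type) [Field F] := MvPowerSeries (Fin 2) F

theorem algHom_C (θ : R F →ₐ[F] R F) (a : F) : θ (C a) = C a := θ.commutes a

theorem algEquiv_C (θ : R F ≃ₐ[F] R F) (a : F) : θ (C a) = C a := θ.commutes a

theorem exists_equiv (a b : Fin 2 → R F) (ha : ∀ i, constantCoeff (a i) = 0)
    (hb : ∀ i, constantCoeff (b i) = 0)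
    (hab : ∀ θ : R F →ₐ[F] R F, (∀ i, θ (X i) = b i) → ∀ i, θ (a i) = X i)
    (hba : ∀ θ : R F →ₐ[F] R F, (∀ i, θ (X i) = a i) → ∀ i, θ (b i) = X i) :
    ∃ φ : R F ≃ₐ[F] R F, ∀ i, φ (X i) = a i := by
  have Ha : HasSubst a := hasSubst_of_constantCoeff_zero ha
  have Hb : HasSubst b := hasSubst_of_constantCoeff_zero hb
  have key : ∀ (a b : Fin 2 → R F) (Ha : HasSubst a) (Hb : HasSubst b),
      (∀ θ : R F →ₐ[F] R F, (∀ i, θ (X i) = b i) → ∀ i, θ (a i) = X i) →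
      (substAlgHom (R := F) Hb).comp (substAlgHom (R := F) Ha) = AlgHom.id F (R F) := by
    intro a b Ha Hb h
    ext1 f
    have h1 := h (substAlgHom Hb) (fun i => substAlgHom_X Hb i)
    simp only [AlgHom.comp_apply, AlgHom.id_apply, substAlgHom_apply] at h1 ⊢
    rw [subst_comp_subst_apply Ha Hb]
    have : (fun s => subst b (a s)) = X := funext h1
    rw [this, subst_self]
    rfl
  exact ⟨AlgEquiv.ofAlgHom (substAlgHom Ha) (substAlgHom Hb) (key b a Hb Ha hba) (key a b Ha Hb hab),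
    fun i => substAlgHom_X Ha i⟩

/-- elements fixed by all algebra maps fixing `y`. -/
def FixY (h : R F) : Prop := ∀ θ : R F →ₐ[F] R F, θ (X 1) = X 1 → θ h = h

theorem exists_tri (ρ η : R F) (hρ : IsUnit ρ) (h1 : FixY ρ) (h2 : FixY η)
    (hη : constantCoeff η = 0) :
    ∃ φ : R F ≃ₐ[F] R F, φ (X 0) = ρ * X 0 + η ∧ φ (X 1) = X 1 := by
  obtain ⟨σ, hσ⟩ := hρ.exists_right_inv
  have h3 : FixY σ := by
    intro θ hθ
    have := congrArg θ hσ
    rw [map_mul, map_one, h1 θ hθ] at this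
    calc θ σ = (ρ * σ) * θ σ := by rw [hσ, one_mul]
      _ = σ * (ρ * θ σ) := by ring
      _ = σ := by rw [this, mul_one]
  obtain ⟨φ, hφ⟩ := exists_equiv ![ρ * X 0 + η, X 1] ![σ * (X 0 - η), X 1]
    (by intro i; fin_cases i <;> simp [hη]) (by intro i; fin_cases i <;> simp [hη])
    (by
      intro θ hθ i
      have e0 : θ (X 0) = σ * (X 0 - η) := hθ 0
      have e1 : θ (X 1) = X 1 := hθ 1
      fin_cases i
      · show θ (ρ * X 0 + η) = X 0
        rw [map_add, map_mul, h1 θ e1, h2 θ e1, e0, ← mul_assoc, hσ]; ring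
      · exact e1)
    (by
      intro θ hθ i
      have e0 : θ (X 0) = ρ * X 0 + η := hθ 0
      have e1 : θ (X 1) = X 1 := hθ 1
      fin_cases i
      · show θ (σ * (X 0 - η)) = X 0
        rw [map_mul, map_sub, h3 θ e1, h2 θ e1, e0]
        linear_combination (X 0 : R F) * hσ
      · exact e1)
  exact ⟨φ, hφ 0, hφ 1⟩

theorem exists_scale (s t : F) (hs : s ≠ 0) (ht : t ≠ 0) :
    ∃ φ : R F ≃ₐ[F] R F, φ (X 0) = C s * X 0 ∧ φ (X 1) = C t * X 1 := by
  obtain ⟨φ, hφ⟩ := exists_equiv ![C s * X 0, C t * X 1] ![C s⁻¹ * X 0, C t⁻¹ * X 1]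
    (by intro i; fin_cases i <;> simp) (by intro i; fin_cases i <;> simp)
    (by
      intro θ hθ i
      have e0 : θ (X 0) = C s⁻¹ * X 0 := hθ 0
      have e1 : θ (X 1) = C t⁻¹ * X 1 := hθ 1
      fin_cases i
      · show θ (C s * X 0) = X 0
        rw [map_mul, algHom_C, e0, ← mul_assoc, ← map_mul, mul_inv_cancel₀ hs, map_one, one_mul]
      · show θ (C t * X 1) = X 1
        rw [map_mul, algHom_C, e1, ← mul_assoc, ← map_mul, mul_inv_cancel₀ ht, map_one, one_mul])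
    (by
      intro θ hθ i
      have e0 : θ (X 0) = C s * X 0 := hθ 0
      have e1 : θ (X 1) = C t * X 1 := hθ 1
      fin_cases i
      · show θ (C s⁻¹ * X 0) = X 0
        rw [map_mul, algHom_C, e0, ← mul_assoc, ← map_mul, inv_mul_cancel₀ hs, map_one, one_mul]
      · show θ (C t⁻¹ * X 1) = X 1
        rw [map_mul, algHom_C, e1, ← mul_assoc, ← map_mul, inv_mul_cancel₀ ht, map_one, one_mul])
  exact ⟨φ, hφ 0, hφ 1⟩

/-- `h ∈ m · (g₁, g₂)`. -/
def InMI (g1 g2 h : R F) : Prop :=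
  ∃ α β : R F, constantCoeff α = 0 ∧ constantCoeff β = 0 ∧ h = α * g1 + β * g2

theorem InMI.add {g1 g2 h k : R F} (H : InMI g1 g2 h) (K : InMI g1 g2 k) : InMI g1 g2 (h + k) := by
  obtain ⟨a, b, ha, hb, rfl⟩ := H
  obtain ⟨c, d, hc, hd, rfl⟩ := K
  exact ⟨a + c, b + d, by simp [ha, hc], by simp [hb, hd], by ring⟩

theorem InMI.mul {g1 g2 h : R F} (H : InMI g1 g2 h) (k : R F) : InMI g1 g2 (k * h) := by
  obtain ⟨a, b, ha, hb, rfl⟩ := H
  exact ⟨k * a, k * b, by simp [ha], by simp [hb], by ring⟩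

theorem InMI.of_unit {g1 g2 h : R F} (k : R F) (hk : constantCoeff k ≠ 0)
    (H : InMI g1 g2 (k * h)) : InMI g1 g2 h := by
  have hu : IsUnit k := isUnit_iff_constantCoeff.mpr (Ne.isUnit hk)
  obtain ⟨σ, hσ⟩ := hu.exists_left_inv
  have := H.mul σ
  rwa [← mul_assoc, hσ, one_mul] at this

theorem contact_of (f g : Fin 2 → R F) (φ : R F ≃ₐ[F] R F) (A B D h1 h2 : R F)
    (hA : constantCoeff A ≠ 0) (hD : constantCoeff D ≠ 0)
    (H1 : InMI (g 0) (g 1) h1) (H2 : InMI (g 0) (g 1) h2)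
    (e1 : φ (f 0) = A * g 0 + B * g 1 + h1) (e2 : φ (f 1) = D * g 1 + h2) :
    ContactEquiv f g := by
  obtain ⟨a, b, ha, hb, rfl⟩ := H1
  obtain ⟨c, d, hc, hd, rfl⟩ := H2
  let W : Matrix (Fin 2) (Fin 2) (R F) := !![A + a, B + b; c, D + d]
  have hW : IsUnit W.det := by
    apply isUnit_iff_constantCoeff.mpr
    apply Ne.isUnit
    simp [W, Matrix.det_fin_two, ha, hb, hc, hd, hA, hD]
  have hW' : IsUnit W := (Matrix.isUnit_iff_isUnit_det W).mpr hW
  obtain ⟨U, hU⟩ := hW'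
  refine ⟨U⁻¹, φ, ?_⟩
  have : (fun i => φ (f i)) = W.mulVec g := by
    funext i
    fin_cases i
    · simp [W, Matrix.mulVec, dotProduct, Fin.sum_univ_two, e1]; ring
    · simp [W, Matrix.mulVec, dotProduct, Fin.sum_univ_two, e2]; ring
  rw [this, Matrix.mulVec_mulVec, ← hU]
  simp

end Pool.Agent.H80.Contact
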