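import Mathlib
import Pool.Agent.H80.Contact

namespace Pool.Agent.H80.Contact

open MvPowerSeries

variable {F : Type} [Field F]

theorem char2_equiv [CharP F 2] (a b c d : F) :
    ContactEquiv
      ![X 0 ^ 3 + X 1 ^ 5 + C a * X 1 ^ 6 + C b * X 1 ^ 8, X 0 ^ 2 * X 1 + X 0 * X 1 ^ 2]
      ![X 0 ^ 3 + X 1 ^ 5 + C c * X 1 ^ 6 + C d * X 1 ^ 8, X 0 ^ 2 * X 1 + X 0 * X 1 ^ 2] := by
  have h2 : (2 : R F) = 0 := by
    have : (2 : F) = 0 := by exact_mod_cast CharP.cast_eq_zero F 2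
    have h := congrArg (C : F →+* R F) this
    rw [map_zero, map_ofNat] at h
    exact h
  set x : R F := X 0 with hx
  set y : R F := X 1 with hy
  set P : R F := C a + C c with hP
  obtain ⟨φ, e0, e1⟩ := exists_tri (F := F) (1 + P * X 1) (P * X 1 ^ 4)
    (isUnit_iff_constantCoeff.mpr (by simp))
    (by intro θ hθ; simp [hP, algHom_C, hθ]) (by intro θ hθ; simp [hP, algHom_C, hθ]) (by simp)
  rw [← hx, ← hy] at e0
  rw [← hy] at e1
  set g1 : R F := x ^ 3 + y ^ 5 + C c * y ^ 6 + C d * y ^ 8 with hg1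
  set g2 : R F := x ^ 2 * y + x * y ^ 2 with hg2
  have cx : constantCoeff x = 0 := by simp [hx]
  have cy : constantCoeff y = 0 := by simp [hy]
  have H4 : InMI g1 g2 (x * y ^ 4) := by
    apply InMI.of_unit (1 - y ^ 2 * (1 + C c * y + C d * y ^ 3)) (by simp [cy])
    exact ⟨-(x * y), x ^ 2 - x * y + y ^ 2, by simp [cx], by simp [cx, cy], by
      rw [hg1, hg2]; ring⟩
  have H7 : InMI g1 g2 (y ^ 7) := by
    apply InMI.of_unit (1 + C c * y + C d * y ^ 3) (by simp [cy])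
    have : InMI g1 g2 (y ^ 2 * g1 + (-(y * (x - y))) * g2) :=
      ⟨_, _, by simp [cy], by simp [cy], rfl⟩
    convert this.add (H4.mul (-1)) using 1
    rw [hg1, hg2]; ring
  have H3 : InMI g1 g2 (x * y ^ 3 + y ^ 6 * (1 + C c * y + C d * y ^ 3)) :=
    ⟨y, -(x - y), cy, by simp [cx, cy], by rw [hg1, hg2]; ring⟩
  have H23 : InMI g1 g2 (x ^ 2 * y ^ 3) := by
    have : InMI g1 g2 (0 * g1 + y ^ 2 * g2) := ⟨_, _, by simp, by simp [cy], rfl⟩
    convert this.add (H4.mul (-1)) using 1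
    rw [hg2]; ring
  refine contact_of _ _ φ ((1 + P * y) ^ 3) 0 1 _ _ (by simp [cy]) (by simp)
    ((H4.mul (3 * x * (1 + P * y) ^ 2 * P + 3 * (1 + P * y) * P ^ 2 * y ^ 4)).add
      (H7.mul (P ^ 3 * y ^ 5 + C b * y - ((3 * P ^ 2 + P ^ 3 * y) +
        C c * (3 * P + 3 * P ^ 2 * y + P ^ 3 * y ^ 2) + C d * y * (1 + P * y) ^ 3))))
    (((H3.mul P).add (H23.mul (P ^ 2))).add
      (H7.mul (P ^ 2 * y ^ 2 - P * (C c + C d * y ^ 2)))) ?_ ?_
  · show φ (x ^ 3 + y ^ 5 + C a * y ^ 6 + C b * y ^ 8) = (1 + P * y) ^ 3 * g1 + 0 * g2 + _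
    simp only [map_add, map_mul, map_pow, algEquiv_C, e0, e1]
    rw [hg1, hP]
    linear_combination (-(C a + 2 * C c) * y ^ 6) * h2
  · show φ (x ^ 2 * y + x * y ^ 2) = 1 * g2 + _
    simp only [map_add, map_mul, map_pow, e0, e1]
    rw [hg2]
    linear_combination (P * x ^ 2 * y ^ 2 + (1 + P * y) * x * P * y ^ 5) * h2

end Pool.Agent.H80.Contact
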