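import Mathlib
import Pool.Agent.H80.Contact

namespace Pool.Agent.H80.Contact

open MvPowerSeries

variable {F : Type} [Field F]

theorem FixY.inv {ρ σ : R F} (hσ : ρ * σ = 1) (h1 : FixY ρ) : FixY σ := by
  intro θ hθ
  have := congrArg θ hσ
  rw [map_mul, map_one, h1 θ hθ] at this
  calc θ σ = (ρ * σ) * θ σ := by rw [hσ, one_mul]
    _ = σ * (ρ * θ σ) := by ring
    _ = σ := by rw [this, mul_one]

theorem cc_ne_zero {h : R F} (H : IsUnit h) : constantCoeff h ≠ 0 :=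
  (isUnit_iff_constantCoeff.mp H).ne_zero

theorem InMI.zero (g1 g2 : R F) : InMI g1 g2 0 := ⟨0, 0, by simp, by simp, by simp⟩

/-- the family. -/
noncomputable def fam (p : ℕ) (l a b : F) : Fin 2 → R F :=
  ![X 0 ^ 2 + X 1 ^ 4, X 1 ^ 5 + C l * X 0 * X 1 ^ 3 + C a * X 0 * X 1 ^ (p + 3) +
    X 0 * X 1 ^ (p + 4) + C b * X 0 * X 1 ^ (2 * p + 3)]

theorem fam_two (p : ℕ) (hp : p ≠ 0) (h2 : (2 : F) = 0) (l : F) (hl : l ^ 2 = -1) (a b c d : F)
    (ha : a ≠ 0) (hc : c ≠ 0) : ContactEquiv (fam p l a b) (fam p l c d) := by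
  have h2' : (2 : R F) = 0 := by
    have h := congrArg (C : F →+* R F) h2
    rw [map_zero, map_ofNat] at h
    exact h
  have hl0 : l ≠ 0 := by rintro rfl; simp at hl
  have hL : (C l : R F) ^ 2 = -1 := by rw [← map_pow, hl]; simp
  set x : R F := X 0 with hx
  set y : R F := X 1 with hy
  have cy : constantCoeff y = 0 := by simp [hy]
  set z : R F := y ^ p with hz
  have cz : constantCoeff z = 0 := by simp [hz, cy, hp]
  have u1 : IsUnit (C c + y + C d * z) := isUnit_iff_constantCoeff.mpr (by simp [cy, cz, hc])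
  have u2 : IsUnit (C l + z * (C a + y + C b * z)) :=
    isUnit_iff_constantCoeff.mpr (by simp [cy, cz, hl0])
  have u3 : IsUnit (C a + y + C b * z) := isUnit_iff_constantCoeff.mpr (by simp [cy, cz, ha])
  have u4 : IsUnit (C l + z * (C c + y + C d * z)) :=
    isUnit_iff_constantCoeff.mpr (by simp [cy, cz, hl0])
  obtain ⟨s1, hs1⟩ := u1.exists_right_inv
  obtain ⟨s2, hs2⟩ := u2.exists_right_inv
  have us1 : IsUnit s1 := IsUnit.of_mul_eq_one_right _ hs1
  have us2 : IsUnit s2 := IsUnit.of_mul_eq_one_right _ hs2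
  have f1 : FixY s1 := FixY.inv hs1 (by intro θ hθ; simp [hz, hy, algHom_C, hθ])
  have f2 : FixY s2 := FixY.inv hs2 (by intro θ hθ; simp [hz, hy, algHom_C, hθ])
  set ρ : R F := (C a + y + C b * z) * s1 * (C l + z * (C c + y + C d * z)) * s2 with hρ
  have uρ : IsUnit ρ := ((u3.mul us1).mul u4).mul us2
  have fρ : FixY ρ := by
    intro θ hθ
    simp [hρ, hz, hy, algHom_C, hθ, f1 θ hθ, f2 θ hθ]
  obtain ⟨φ, e0, e1⟩ := exists_tri (F := F) ρ ((1 - ρ) * C l * y ^ 2) uρ fρ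
    (by intro θ hθ; simp [hy, algHom_C, hθ, fρ θ hθ]) (by simp [cy])
  rw [← hx] at e0
  rw [← hy] at e1
  refine contact_of _ _ φ (ρ ^ 2) 0 ((C a + y + C b * z) * s1) 0 0 (cc_ne_zero (uρ.pow 2))
    (cc_ne_zero (u3.mul us1)) (InMI.zero _ _) (InMI.zero _ _) ?_ ?_
  · show φ (x ^ 2 + y ^ 4) = ρ ^ 2 * (x ^ 2 + y ^ 4) + 0 * _ + 0
    simp only [map_add, map_pow, e0, e1]
    linear_combination ((1 - ρ) ^ 2 * y ^ 4) * hL +
      (ρ * x * (1 - ρ) * C l * y ^ 2 + (ρ - ρ ^ 2) * y ^ 4) * h2'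
  · show φ (y ^ 5 + C l * x * y ^ 3 + C a * x * y ^ (p + 3) + x * y ^ (p + 4) +
        C b * x * y ^ (2 * p + 3)) = (C a + y + C b * z) * s1 *
        (y ^ 5 + C l * x * y ^ 3 + C c * x * y ^ (p + 3) + x * y ^ (p + 4) +
        C d * x * y ^ (2 * p + 3)) + 0
    simp only [map_add, map_mul, map_pow, algEquiv_C, e0, e1]
    have p1 : y ^ (p + 3) = z * y ^ 3 := by rw [pow_add]
    have p2 : y ^ (p + 4) = z * y ^ 4 := by rw [pow_add]
    have p3 : y ^ (2 * p + 3) = z ^ 2 * y ^ 3 := by rw [pow_add, mul_comm 2 p, pow_mul]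
    rw [p1, p2, p3]
    have key : ρ * (C l + z * (C a + y + C b * z)) =
        (C a + y + C b * z) * s1 * (C l + z * (C c + y + C d * z)) := by
      rw [hρ]
      linear_combination ((C a + y + C b * z) * s1 * (C l + z * (C c + y + C d * z))) * hs2
    linear_combination ((x - C l * y ^ 2) * y ^ 3) * key
      - (C l * y ^ 5 * z * (C a + y + C b * z)) * hs1
      + (y ^ 5 * (1 - (C a + y + C b * z) * s1)) * hL

theorem fam_odd [IsAlgClosed F] (p : ℕ) (hp : 2 ≤ p) (h2 : (2 : F) ≠ 0) (l : F) (hl : l ^ 2 = -1)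
    (a b c d : F) (ha : a ≠ 0) (hc : c ≠ 0) : ContactEquiv (fam p l a b) (fam p l c d) := by
  have hl0 : l ≠ 0 := by rintro rfl; simp at hl
  have hL : (C l : R F) ^ 2 = -1 := by rw [← map_pow, hl]; simp
  obtain ⟨t, ht⟩ := IsAlgClosed.exists_pow_nat_eq (c / a) (n := p) (by omega)
  have ht0 : t ≠ 0 := by
    rintro rfl
    rw [zero_pow (by omega)] at ht
    exact div_ne_zero hc ha ht.symm
  have hat : a * t ^ p = c := by rw [ht]; field_simp
  obtain ⟨k, rfl⟩ : ∃ k, p = k + 2 := ⟨p - 2, by omega⟩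
  set r0 : F := (t ^ (k + 3) - 1) / (2 * c) with hr0
  have hr : t ^ (k + 3) = 1 + 2 * r0 * c := by rw [hr0]; field_simp; ring
  set x : R F := X 0 with hx
  set y : R F := X 1 with hy
  have cx : constantCoeff x = 0 := by simp [hx]
  have cy : constantCoeff y = 0 := by simp [hy]
  set w : R F := y ^ k with hw
  set L : R F := C l with hLdef
  set r : R F := C r0 with hrdef
  set T : R F := C t with hT
  set c' : R F := C c with hc'
  set d' : R F := C d with hd'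
  set B : R F := C b * T ^ (2 * (k + 2)) with hB
  have haT : C a * T ^ (k + 2) = c' := by rw [hT, ← map_pow, ← map_mul, hat]
  have hrT : T ^ (k + 3) = 1 + 2 * r * c' := by
    rw [hT, ← map_pow, hr]; simp [hrdef, hc', map_ofNat]
  obtain ⟨τ, e0, e1⟩ := exists_tri (F := F) (1 + r * y)
    (-(L * r * y ^ 3) - r * c' * y ^ 5 * w - r * (1 + r * c') * y ^ 6 * w)
    (isUnit_iff_constantCoeff.mpr (by simp [cy]))
    (by intro θ hθ; simp [hy, hrdef, algHom_C, hθ])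
    (by intro θ hθ; simp [hy, hw, hLdef, hrdef, hc', algHom_C, hθ]) (by simp [cy])
  rw [← hx] at e0
  rw [← hy] at e1
  obtain ⟨s, s0, s1⟩ := exists_scale (t ^ 2) t (pow_ne_zero 2 ht0) ht0
  rw [← hx, map_pow, ← hT] at s0
  rw [← hy, ← hT] at s1
  set u : R F := x - L * y ^ 2 with hu
  have hxu : x = u + L * y ^ 2 := by rw [hu]; ring
  have cu : constantCoeff u = 0 := by simp [hu, cx, cy]
  have p1 : y ^ (k + 2 + 3) = w * y ^ 5 := by rw [hw]; ring
  have p2 : y ^ (k + 2 + 4) = w * y ^ 6 := by rw [hw]; ring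
  have p3 : y ^ (2 * (k + 2) + 3) = w ^ 2 * y ^ 7 := by rw [hw]; ring
  have hg1 : fam (k + 2) l c d 0 = u * u + 2 * L * u * y * y := by
    show x ^ 2 + y ^ 4 = _
    rw [hxu]
    linear_combination (y ^ 4) * hL
  have hg2 : fam (k + 2) l c d 1 =
      L * u * y ^ 3 + (u + L * y * y) * y ^ 3 * (y * y * w) * (c' + y + d' * (y * y * w)) := by
    show y ^ 5 + L * x * y ^ 3 + c' * x * y ^ (k + 2 + 3) + x * y ^ (k + 2 + 4) +
        d' * x * y ^ (2 * (k + 2) + 3) = _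
    rw [p1, p2, p3, hxu]
    linear_combination (y ^ 5) * hL
  set g1 := fam (k + 2) l c d 0 with hG1
  set g2 := fam (k + 2) l c d 1 with hG2
  set z : R F := y * y * w with hz
  have cz : constantCoeff z = 0 := by simp [hz, cy]
  set wc : R F := c' + y + d' * z with hwc
  have H7 : InMI g1 g2 (y ^ 9 * w) := by
    apply InMI.of_unit (L ^ 2 * wc * (2 * (L + z * wc) - z * wc))
      (by simp [cy, cz, hwc, hLdef, hc', hl0, hc, map_ofNat, h2])
    refine ⟨-((L + z * wc) ^ 2 * y ^ 3), (L + z * wc) * (u + 2 * L * y ^ 2) - L * wc * y ^ 2 * z,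
      by simp [cy], by simp [cy, cu], ?_⟩
    rw [hg1, hg2, hz]; ring
  have H5 : InMI g1 g2 (u * y ^ 5) := by
    apply InMI.of_unit (L + z * wc) (by simp [cz, hLdef, hl0])
    have : InMI g1 g2 (0 * g1 + y ^ 2 * g2) := ⟨_, _, by simp, by simp [cy], rfl⟩
    convert this.add (H7.mul (-(L * wc))) using 1
    rw [hg2, hz]; ring
  have cT : constantCoeff T = t := by simp [hT]
  have hτT : τ T = T := algEquiv_C τ t
  have hX : τ x = (u * (1 + r * y) - r * c' * y ^ 5 * w - r * (1 + r * c') * y ^ 6 * w)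
      + L * y ^ 2 := by rw [e0, hu]; ring
  set U : R F := u * (1 + r * y) - r * c' * y ^ 5 * w - r * (1 + r * c') * y ^ 6 * w with hU
  refine contact_of _ _ (s.trans τ) (T ^ 4 * (1 + r * y) ^ 2) (T ^ 4 * (-2 * r * (1 + r * y)))
    (T ^ 5 * (1 + r * y)) _ _ (by simp [cy, cT, ht0]) (by simp [cy, cT, ht0])
    (((H5.mul ((-2) * c' * r^2 * w * y + (-2) * c' * r^3 * w * y^2 + (2) * d' * r * w^2 * y^2 + (2) * d' * r^2 * w^2 * y^3)).add
      (H7.mul ((2) * L * d' * r * w + (2) * L * d' * r^2 * w * y + (2) * L * r^2 + (2) * c' * r^2 * w * y^2 + (2) * c' * r^3 * w * y^3 + c'^2 * r^2 * w * y + (2) * c'^2 * r^3 * w * y^2 + c'^2 * r^4 * w * y^3 + r^2 * w * y^3))).mul (T ^ 4))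
    (((H5.mul (B * r * w^2 * y^3 + B * w^2 * y^2 + (2) * c' * r * w * y + (2) * c' * r^2 * w * y^2 + (-1) * d' * r * w^2 * y^3 + (-1) * d' * w^2 * y^2)).add
      (H7.mul (B * L * w + (-1) * B * c' * r * w^2 * y^3 + (-1) * B * c' * r^2 * w^2 * y^4 + (-1) * B * r * w^2 * y^4 + (-1) * L * c' * r^2 + (-1) * L * d' * r * w * y + (-1) * L * d' * w + (-2) * L * r + (-2) * c' * r * w * y^2 + (-3) * c' * r^2 * w * y^3 + (-1) * c'^2 * r * w * y + (-3) * c'^2 * r^2 * w * y^2 + (-2) * c'^2 * r^3 * w * y^3 + (-1) * r * w * y^3))).mul (T ^ 5))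
    ?_ ?_
  · show τ (s (x ^ 2 + y ^ 4)) = _
    simp only [map_add, map_mul, map_pow, s0, s1, hτT, hX, e1]
    rw [← hG1, ← hG2, hg1, hg2, hwc, hz, hU]
    linear_combination (T ^ 4 * y ^ 4) * hL
  · show τ (s (y ^ 5 + C l * x * y ^ 3 + C a * x * y ^ (k + 2 + 3) + x * y ^ (k + 2 + 4) +
        C b * x * y ^ (2 * (k + 2) + 3))) = _
    simp only [map_add, map_mul, map_pow, algEquiv_C, s0, s1, hτT, hX, e1, mul_pow]
    rw [p1, p2, p3, ← hLdef]
    have q1 : C a * (T ^ 2 * (U + L * y ^ 2)) * (T ^ (k + 2 + 3) * (w * y ^ 5)) =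
        T ^ 5 * c' * (U + L * y ^ 2) * (w * y ^ 5) := by rw [← haT]; ring
    have q2 : (T ^ 2 * (U + L * y ^ 2)) * (T ^ (k + 2 + 4) * (w * y ^ 6)) =
        T ^ 5 * (1 + 2 * r * c') * (U + L * y ^ 2) * (w * y ^ 6) := by rw [← hrT]; ring
    have q3 : C b * (T ^ 2 * (U + L * y ^ 2)) * (T ^ (2 * (k + 2) + 3) * (w ^ 2 * y ^ 7)) =
        T ^ 5 * B * (U + L * y ^ 2) * (w ^ 2 * y ^ 7) := by rw [hB]; ring
    rw [q1, q2, q3, ← hG2, hg2, hwc, hz, hU]
    linear_combination (T ^ 5 * y ^ 5) * hL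

theorem fam_equiv [IsAlgClosed F] (p : ℕ) (hp : p.Prime) (l : F) (hl : l ^ 2 = -1)
    (a b c d : F) (ha : a ≠ 0) (hc : c ≠ 0) : ContactEquiv (fam p l a b) (fam p l c d) := by
  by_cases h2 : (2 : F) = 0
  · exact fam_two p hp.ne_zero h2 l hl a b c d ha hc
  · exact fam_odd p hp.two_le h2 l hl a b c d ha hc

theorem dense_of {F : Type} [Field F] [Infinite F] (S : (Fin 4 → F) → Prop)
    (hS : ∀ v, v 0 ≠ 0 → v 2 ≠ 0 → S v) (P : MvPolynomial (Fin 4) F)
    (hP : ∀ v, S v → MvPolynomial.eval v P = 0) : P = 0 := by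
  have : MvPolynomial.X 0 * MvPolynomial.X 2 * P = 0 := by
    apply MvPolynomial.funext
    intro v
    simp only [map_mul, MvPolynomial.eval_X, map_zero]
    by_cases h0 : v 0 = 0
    · simp [h0]
    by_cases h2 : v 2 = 0
    · simp [h2]
    rw [hP v (hS v h0 h2), mul_zero]
  simpa using this

end Pool.Agent.H80.Contact
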