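import Pool.Agent.H80.DMDefs

/-! An isolated point of a double Markovian correlation model on eleven vertices. -/

namespace Pool.Agent.H80.DM

open Matrix

abbrev Z5 : Type := ℤ√5
abbrev I2 : Type := Fin 2 × Fin 11

noncomputable def rho : Z5 →+* ℝ := Zsqrtd.toReal (by norm_num)

def sv : Fin 11 → Z5 := ![⟨2, 0⟩, ⟨1, -1⟩, ⟨-4, 2⟩, 0, 0, 0, 0, 0, 0, ⟨-4, 2⟩, ⟨1, -1⟩]
def kv : Fin 11 → Z5 :=
  ![⟨6, 0⟩, ⟨1, 1⟩, 0, ⟨1, -1⟩, ⟨-3, 1⟩, 0, 0, ⟨-3, 1⟩, ⟨1, -1⟩, 0, ⟨1, 1⟩]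
def Sz : Matrix (Fin 11) (Fin 11) Z5 := fun i j => sv (j - i)
def Kz : Matrix (Fin 11) (Fin 11) Z5 := fun i j => kv (j - i)
def dd : Fin 2 → Fin 11 := ![1, 2]
def rr : Fin 2 → Fin 11 := ![2, 5]

def bv : Fin 2 → Fin 2 → Fin 11 → Z5 :=
  ![![![⟨0, 0⟩, ⟨5, -5⟩, ⟨-20, 10⟩, ⟨5, -5⟩, ⟨-15, 5⟩, ⟨15, -5⟩, ⟨-15, 5⟩, ⟨5, -5⟩, ⟨-20, 10⟩,
        ⟨5, -5⟩, ⟨0, 0⟩],
      ![⟨0, -8⟩, ⟨0, 2⟩, ⟨10, 2⟩, ⟨-20, 2⟩, ⟨-20, 2⟩, ⟨10, 2⟩, ⟨0, 2⟩, ⟨0, -8⟩, ⟨0, 2⟩,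
        ⟨-5, -3⟩, ⟨0, 2⟩]],
    ![![⟨-90, 40⟩, ⟨70, -30⟩, ⟨-55, 25⟩, ⟨55, -25⟩, ⟨-5, 5⟩, ⟨20, -10⟩, ⟨20, -10⟩, ⟨-5, 5⟩,
        ⟨55, -25⟩, ⟨-55, 25⟩, ⟨70, -30⟩],
      ![⟨-10, 6⟩, ⟨20, -4⟩, ⟨-30, 6⟩, ⟨30, -14⟩, ⟨-5, 11⟩, ⟨30, -14⟩, ⟨-30, 6⟩, ⟨20, -4⟩,
        ⟨-10, 6⟩, ⟨10, -4⟩, ⟨10, -4⟩]]]

def Bz : Matrix I2 I2 Z5 := fun e p => bv e.1 p.1 (p.2 - e.2)

def Jm {R : Type} [CommRing R] (A K : Matrix (Fin 11) (Fin 11) R) : Matrix I2 I2 R := fun p e =>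
  A p.2 e.2 * K (e.2 + dd e.1) (p.2 + rr p.1) + A p.2 (e.2 + dd e.1) * K e.2 (p.2 + rr p.1)

lemma BJ : Bz * Jm Kz Kz = (80 : Z5) • (1 : Matrix I2 I2 Z5) := by decide +kernel
lemma SK : Sz * Kz = (4 : Z5) • (1 : Matrix (Fin 11) (Fin 11) Z5) := by decide +kernel

noncomputable def S0 : Matrix (Fin 11) (Fin 11) ℝ := (1 / 2 : ℝ) • Sz.map rho
noncomputable def K2 : Matrix (Fin 11) (Fin 11) ℝ := Kz.map rho

lemma S0K2 : S0 * K2 = (2 : ℝ) • (1 : Matrix (Fin 11) (Fin 11) ℝ) := by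
  rw [S0, K2, smul_mul_assoc, ← Matrix.map_mul, SK]
  ext i j
  simp only [Matrix.smul_apply, Matrix.map_apply, one_apply, smul_eq_mul, map_mul, map_ofNat,
    apply_ite rho, map_one, map_zero]
  ring

lemma S0inv : S0⁻¹ = (1 / 2 : ℝ) • K2 :=
  inv_eq_right_inv (by rw [mul_smul_comm, S0K2, smul_smul]; norm_num)

lemma K2S0 : K2 * S0 = (2 : ℝ) • (1 : Matrix (Fin 11) (Fin 11) ℝ) := by
  have : S0 * ((1 / 2 : ℝ) • K2) = 1 := by rw [mul_smul_comm, S0K2, smul_smul]; norm_num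
  have h := mul_eq_one_comm.1 this
  rw [← h, smul_mul_assoc, smul_smul]
  norm_num

def GG : SimpleGraph (Fin 11) := SimpleGraph.fromRel fun i j => j - i = 1 ∨ j - i = 3 ∨ j - i = 4
def HH : SimpleGraph (Fin 11) := SimpleGraph.fromRel fun i j => j - i = 1 ∨ j - i = 2

instance : DecidableRel GG.Adj := fun i j => by unfold GG; infer_instance
instance : DecidableRel HH.Adj := fun i j => by unfold HH; infer_instance

lemma reorg {E : Matrix (Fin 11) (Fin 11) ℝ} (hs : ∀ a b, E a b = E b a) (h0 : ∀ a, E a a = 0)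
    (hz : ∀ a b, a ≠ b → ¬ HH.Adj a b → E a b = 0) (f : Fin 11 → Fin 11 → ℝ) :
    ∑ a, ∑ b, f a b * E a b =
      ∑ e : I2, (f e.2 (e.2 + dd e.1) + f (e.2 + dd e.1) e.2) * E e.2 (e.2 + dd e.1) := by
  have h1 : ∀ a, ∑ b, f a b * E a b = f a (a + 1) * E a (a + 1) + f a (a + 2) * E a (a + 2) +
      f a (a + 9) * E a (a + 9) + f a (a + 10) * E a (a + 10) := fun a => by
    rw [← Equiv.sum_comp (Equiv.addLeft a)]
    have k : ∀ a t : Fin 11, t ∈ ({3, 4, 5, 6, 7, 8} : Finset (Fin 11)) →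
        a ≠ a + t ∧ ¬ HH.Adj a (a + t) := by decide +kernel
    have z := fun t ht => hz _ _ (k a t ht).1 (k a t ht).2
    simp only [Fin.sum_univ_succ, Equiv.coe_addLeft, Finset.univ_eq_empty, Finset.sum_empty]
    have z3 := z 3 (by simp)
    have z4 := z 4 (by simp)
    have z5 := z 5 (by simp)
    have z6 := z 6 (by simp)
    have z7 := z 7 (by simp)
    have z8 := z 8 (by simp)
    simp [z3, z4, z5, z6, z7, z8, h0]
    ring
  simp only [h1, Finset.sum_add_distrib, Fintype.sum_prod_type, Fin.sum_univ_two, add_mul]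
  rw [← Equiv.sum_comp (Equiv.addRight 2) fun a => f a (a + 9) * E a (a + 9),
    ← Equiv.sum_comp (Equiv.addRight 1) fun a => f a (a + 10) * E a (a + 10)]
  have e1 : ∀ a : Fin 11, a + 2 + 9 = a := by decide
  have e2 : ∀ a : Fin 11, a + 1 + 10 = a := by decide
  simp only [Equiv.coe_addRight, e1, e2, dd, cons_val_zero, cons_val_one, hs (_ + 2), hs (_ + 1)]
  ring

lemma S0_symm (a b : Fin 11) : S0 a b = S0 b a := by
  have : ∀ a b, Sz a b = Sz b a := by decide +kernel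
  simp [S0, this a b]

lemma S0_diag (a : Fin 11) : S0 a a = 1 := by
  simp [S0, Sz, sv, rho]

lemma S0_zero (a b : Fin 11) (h : a ≠ b) (h' : ¬ HH.Adj a b) : S0 a b = 0 := by
  have : ∀ a b, a ≠ b → ¬ HH.Adj a b → Sz a b = 0 := by decide +kernel
  simp [S0, this a b h h']

lemma S0_pos : S0.PosDef := by
  refine posDef_iff_dotProduct_mulVec.2 ⟨IsHermitian.ext fun a b => by simpa using S0_symm b a,
    fun x hx => ?_⟩
  have h1 := reorg (E := S0 - 1) (fun a b => by simp [S0_symm a b, one_apply, eq_comm])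
    (fun a => by simp [S0_diag]) (fun a b h h' => by simp [S0_zero a b h h', h])
    fun a b => x a * x b
  have h2 : star x ⬝ᵥ S0 *ᵥ x = ∑ a, ∑ b, x a * x b * (S0 - 1) a b + ∑ a, x a ^ 2 := by
    rw [← Finset.sum_add_distrib]
    refine Finset.sum_congr rfl fun a _ => ?_
    simp [mulVec, dotProduct, Finset.mul_sum, mul_sub, one_apply, sq, mul_assoc, mul_comm (S0 _ _)]
  have v1 : ∀ a : Fin 11, (S0 - 1) a (a + 1) = (1 - √5) / 2 := fun a => by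
    have : ∀ a : Fin 11, a ≠ a + 1 := by decide
    simp [S0, Sz, sv, rho, this a]
    ring
  have v2 : ∀ a : Fin 11, (S0 - 1) a (a + 2) = √5 - 2 := fun a => by
    have : ∀ a : Fin 11, a ≠ a + 2 := by decide
    simp [S0, Sz, sv, rho, this a]
    ring
  have s1 := Equiv.sum_comp (Equiv.addRight (1 : Fin 11)) fun a => x a ^ 2
  have s2 := Equiv.sum_comp (Equiv.addRight (2 : Fin 11)) fun a => x a ^ 2
  have s3 := Equiv.sum_comp (Equiv.addRight (1 : Fin 11)) fun a => x a * x (a + 1)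
  have e3 : ∀ a : Fin 11, a + 1 + 1 = a + 2 := by decide
  simp only [Equiv.coe_addRight, e3] at s1 s2 s3
  have q : (√5 : ℝ) ^ 2 = 5 := Real.sq_sqrt (by norm_num)
  have l1 : (2.236 : ℝ) < √5 := Real.lt_sqrt_of_sq_lt (by norm_num)
  have l2 : √5 < (2.237 : ℝ) := (Real.sqrt_lt' (by norm_num)).2 (by norm_num)
  have loc : ∀ u v w : ℝ, 0 ≤ 0.29 * u ^ 2 + 0.4 * v ^ 2 + 0.29 * w ^ 2 +
      (1 - √5) / 2 * (u * v) + (1 - √5) / 2 * (v * w) + 2 * (√5 - 2) * (u * w) := by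
    intro u v w
    have a1 := mul_nonneg (show 0 ≤ 0.29 - (√5 - 2) by linarith) (sq_nonneg (u - w))
    have a2 := mul_nonneg (show 0 ≤ 0.29 + (√5 - 2) - (√5 - 1) ^ 2 * 5 / 16 by nlinarith)
      (sq_nonneg (u + w))
    nlinarith [sq_nonneg (v - (√5 - 1) * 5 / 8 * (u + w))]
  have h3 := Finset.sum_nonneg fun a (_ : a ∈ Finset.univ) => loc (x a) (x (a + 1)) (x (a + 2))
  simp only [Finset.sum_add_distrib, ← Finset.mul_sum, s1, s2, s3] at h3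
  have h4 : 0 < ∑ a, x a ^ 2 := by
    obtain ⟨a, ha⟩ := Function.ne_iff.1 hx
    exact Finset.sum_pos' (fun _ _ => sq_nonneg _) ⟨a, Finset.mem_univ _, sq_pos_of_ne_zero ha⟩
  rw [h2, h1]
  simp only [Fintype.sum_prod_type, Fin.sum_univ_two, dd, cons_val_zero, cons_val_one, v1, v2,
    mul_comm (x (_ + _)) (x _), ← two_mul, ← Finset.sum_mul, ← Finset.mul_sum]
  linarith

lemma S0_mem : S0 ∈ Model1 GG HH := by
  refine ⟨⟨S0_pos, fun a b h h' => ?_, S0_zero⟩, S0_diag⟩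
  have : ∀ a b, a ≠ b → ¬ GG.Adj a b → Kz a b = 0 := by decide +kernel
  simp [S0inv, K2, this a b h h']

lemma one_mem : (1 : Matrix (Fin 11) (Fin 11) ℝ) ∈ Model1 GG HH :=
  ⟨⟨PosDef.one, fun a b h _ => by simp [h], fun a b h _ => by simp [h]⟩, by simp⟩

noncomputable def dJ (S : Matrix (Fin 11) (Fin 11) ℝ) : ℝ := (Jm K2 S.adjugate).det

lemma dJ_cont : Continuous dJ := by
  refine Continuous.matrix_det (continuous_matrix fun p e => ?_)
  have := fun a b => (continuous_id (X := Matrix (Fin 11) (Fin 11) ℝ)).matrix_adjugate.matrix_elem a b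
  exact ((this _ _).const_mul _).add ((this _ _).const_mul _)

lemma adj_eq {S : Matrix (Fin 11) (Fin 11) ℝ} (h : S.PosDef) : S.adjugate = S.det • S⁻¹ := by
  rw [inv_def, smul_smul, Ring.mul_inverse_cancel _ (h.det_pos.ne'.isUnit), one_smul]

lemma dJ_S0 : dJ S0 ≠ 0 := by
  have h1 : Jm K2 S0.adjugate = (S0.det / 2) • (Jm Kz Kz).map rho := by
    ext p e
    simp [adj_eq S0_pos, S0inv, Jm, K2]
    ring
  have h2 : (Bz.map rho).det * ((Jm Kz Kz).map rho).det ≠ 0 := by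
    rw [← det_mul, ← Matrix.map_mul, BJ]
    have : ((80 : Z5) • (1 : Matrix I2 I2 Z5)).map rho = (80 : ℝ) • (1 : Matrix I2 I2 ℝ) := by
      ext i j
      simp [one_apply, apply_ite rho, map_ofNat]
    simp [this]
  rw [dJ, h1, det_smul]
  exact mul_ne_zero (pow_ne_zero _ (half_pos S0_pos.det_pos).ne') (right_ne_zero_of_mul h2)

lemma eq_of_dJ {S : Matrix (Fin 11) (Fin 11) ℝ} (h : S ∈ Model1 GG HH) (hd : dJ S ≠ 0) :
    S = S0 := by
  obtain ⟨⟨hp, hG, hH⟩, h1⟩ := h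
  have hs : ∀ a b, (S - S0) a b = (S - S0) b a := fun a b => by
    have : S a b = S b a := by simpa using hp.1.apply b a
    simp [this, S0_symm a b]
  have h0 : ∀ a, (S - S0) a a = 0 := fun a => by simp [h1, S0_diag]
  have hz : ∀ a b, a ≠ b → ¬ HH.Adj a b → (S - S0) a b = 0 := fun a b h h' => by
    simp [hH a b h h', S0_zero a b h h']
  have e : K2 * (S - S0) * S.adjugate = S.det • K2 - (2 * S.det) • S⁻¹ := by
    rw [mul_sub, sub_mul, mul_assoc, mul_adjugate, K2S0, adj_eq hp]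
    simp [smul_smul, mul_comm]
  have hx := eq_zero_of_mulVec_eq_zero hd (v := fun e => (S - S0) e.2 (e.2 + dd e.1)) (by
    ext p
    have k : ∀ p : I2, p.2 ≠ p.2 + rr p.1 ∧ ¬ GG.Adj p.2 (p.2 + rr p.1) ∧
        Kz p.2 (p.2 + rr p.1) = 0 := by decide +kernel
    have h2 : (K2 * (S - S0) * S.adjugate) p.2 (p.2 + rr p.1) = 0 := by
      rw [e]
      simp [hG _ _ (k p).1 (k p).2.1, K2, (k p).2.2]
    rw [Pi.zero_apply, ← h2]
    refine Eq.trans ?_ ((reorg hs h0 hz fun a b =>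
      K2 p.2 a * S.adjugate b (p.2 + rr p.1)).symm.trans ?_)
    · rfl
    · simp only [mul_apply, Finset.sum_mul, K2]
      rw [Finset.sum_comm]
      exact Finset.sum_congr rfl fun _ _ => Finset.sum_congr rfl fun _ _ => by ring)
  rw [← sub_eq_zero]
  ext a b
  have h3 := reorg hs h0 hz fun c d => if c = a ∧ d = b then 1 else 0
  have h4 : ∀ e : I2, (S - S0) e.2 (e.2 + dd e.1) = 0 := fun e => congrFun hx e
  simp only [h4, mul_zero, Finset.sum_const_zero, ite_and, ite_mul, one_mul, zero_mul] at h3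
  simpa using h3

theorem disc : ¬ IsPreconnected (Model1 GG HH) := by
  intro h
  have ne : (1 : Matrix (Fin 11) (Fin 11) ℝ) ≠ S0 := fun e => by
    have := congrFun (congrFun e 0) 2
    have l1 : (2.236 : ℝ) < √5 := Real.lt_sqrt_of_sq_lt (by norm_num)
    simp [S0, Sz, sv, rho] at this
    linarith
  obtain ⟨S, h1, h2, h3⟩ := h {S | dJ S ≠ 0} {S0}ᶜ (isOpen_ne_fun dJ_cont continuous_const)
    isOpen_compl_singleton (fun S _ => by
      by_cases e : S = S0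
      · exact Or.inl (e ▸ dJ_S0)
      · exact Or.inr e) ⟨S0, S0_mem, dJ_S0⟩ ⟨1, one_mem, ne⟩
  exact h3 (eq_of_dJ h1 h2)

end Pool.Agent.H80.DM
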