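import Mathlib

/-! Gaussian double Markovian models. -/

namespace Pool.Agent.H80.DM

variable {n : ℕ}

/-- The double Markovian model `M(G, H)`. -/
def Model (G H : SimpleGraph (Fin n)) : Set (Matrix (Fin n) (Fin n) ℝ) :=
  {S | S.PosDef ∧ (∀ i j, i ≠ j → ¬ G.Adj i j → S⁻¹ i j = 0) ∧
    ∀ i j, i ≠ j → ¬ H.Adj i j → S i j = 0}

/-- The correlation model `M_1(G, H)`. -/
def Model1 (G H : SimpleGraph (Fin n)) : Set (Matrix (Fin n) (Fin n) ℝ) :=
  {S | S ∈ Model G H ∧ ∀ i, S i i = 1}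

end Pool.Agent.H80.DM
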