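import Mathlib

set_option autoImplicit false

namespace Pool.Agent.H80.Dense

/-- a real analytic function that is not identically zero is nonzero somewhere in every
nonempty open set -/
theorem exists_ne_zero {E : Type} [NormedAddCommGroup E] [NormedSpace ℝ E] (p : E → ℝ)
    (hp : ∀ x, AnalyticAt ℝ p x) (z : E) (hz : p z ≠ 0) (U : Set E) (hU : IsOpen U)
    (hne : U.Nonempty) : ∃ x ∈ U, p x ≠ 0 := by
  by_contra h
  push Not at h
  obtain ⟨x0, hx0⟩ := hne
  have h1 : AnalyticOnNhd ℝ p Set.univ := fun x _ => hp x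
  have h2 : p =ᶠ[nhds x0] 0 := Filter.eventually_of_mem (hU.mem_nhds hx0) h
  exact hz (h1.eqOn_zero_of_preconnected_of_eventuallyEq_zero isPreconnected_univ
    (Set.mem_univ x0) h2 (Set.mem_univ z))

end Pool.Agent.H80.Dense
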