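import Mathlib

set_option autoImplicit false

namespace Pool.Agent.H80.Sard1

/-- one-dimensional Sard lemma: every interval contains a regular value -/
theorem exists_regular_value (φ φ' : ℝ → ℝ) (s : Set ℝ) (h : ∀ x ∈ s, HasDerivAt φ (φ' x) x)
    (a b : ℝ) (hab : a < b) : ∃ δ ∈ Set.Ioo a b, ∀ x ∈ s, φ x = δ → φ' x ≠ 0 := by
  have h0 : MeasureTheory.volume (φ '' {x ∈ s | φ' x = 0}) = 0 := by
    refine MeasureTheory.addHaar_image_eq_zero_of_det_fderivWithin_eq_zero _
      (f' := fun _ => (0 : ℝ →L[ℝ] ℝ)) ?_ ?_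
    · intro x hx
      have h1 := (h x hx.1).hasFDerivAt
      rw [hx.2] at h1
      have h2 : (ContinuousLinearMap.toSpanSingleton ℝ (0 : ℝ) : ℝ →L[ℝ] ℝ) = 0 := by
        ext; simp
      rw [h2] at h1
      exact h1.hasFDerivWithinAt
    · intro x _
      simp [ContinuousLinearMap.det]
  by_contra hcon
  push Not at hcon
  have hsub : Set.Ioo a b ⊆ φ '' {x ∈ s | φ' x = 0} := by
    intro δ hδ
    obtain ⟨x, hx, h1, h2⟩ := hcon δ hδ
    exact ⟨x, ⟨hx, h2⟩, h1⟩
  have := MeasureTheory.measure_mono_null hsub h0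
  rw [Real.volume_Ioo, ENNReal.ofReal_eq_zero] at this
  linarith

end Pool.Agent.H80.Sard1
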