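import Mathlib
import Pool.Agent.H80.Sard1

set_option autoImplicit false

namespace Pool.Agent.H80.Fewnomial

/-- the branch of the curve x^46 + y^46 = 1 -/
noncomputable def Y (x : ℝ) : ℝ := (1 - x ^ 46) ^ ((46 : ℕ) : ℝ)⁻¹

theorem one_sub_nonneg {x : ℝ} (h0 : 0 ≤ x) (h1 : x ≤ 1) : 0 ≤ 1 - x ^ 46 :=
  sub_nonneg.2 (pow_le_one₀ h0 h1)

theorem one_sub_pos {x : ℝ} (h0 : 0 ≤ x) (h1 : x < 1) : 0 < 1 - x ^ 46 :=
  sub_pos.2 (pow_lt_one₀ h0 h1 (by norm_num))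

theorem Y_pow {x : ℝ} (h0 : 0 ≤ x) (h1 : x ≤ 1) : Y x ^ 46 = 1 - x ^ 46 :=
  Real.rpow_inv_natCast_pow (one_sub_nonneg h0 h1) (by norm_num)

theorem Y_nonneg {x : ℝ} (h0 : 0 ≤ x) (h1 : x ≤ 1) : 0 ≤ Y x :=
  Real.rpow_nonneg (one_sub_nonneg h0 h1) _

theorem Y_pos {x : ℝ} (h0 : 0 ≤ x) (h1 : x < 1) : 0 < Y x :=
  Real.rpow_pos_of_pos (one_sub_pos h0 h1) _

theorem Y_cont : Continuous Y :=
  (Real.continuous_rpow_const (by positivity)).comp (by fun_prop)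

theorem Y_deriv {x : ℝ} (h0 : 0 ≤ x) (h1 : x < 1) : HasDerivAt Y (-(x ^ 45 / Y x ^ 45)) x := by
  have hp := one_sub_pos h0 h1
  have h2 : HasDerivAt (fun x : ℝ => 1 - x ^ 46) (-(46 * x ^ 45)) x := by
    simpa using (hasDerivAt_pow 46 x).const_sub 1
  have h3 := h2.rpow_const (p := ((46 : ℕ) : ℝ)⁻¹) (Or.inl hp.ne')
  refine HasDerivAt.congr_deriv h3 ?_
  rw [Real.rpow_sub_one hp.ne']
  change _ * (Y x / _) = _
  rw [← Y_pow h0 h1.le]
  have := (Y_pos h0 h1).ne'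
  field_simp
  push_cast
  ring

/-- the trinomial part -/
noncomputable def h (x y : ℝ) : ℝ := x ^ 2 * y ^ 8 + x ^ 8 * y ^ 2 - 3169 / 2000 * (x ^ 6 * y ^ 6)

/-- restriction to the curve -/
noncomputable def φ (x : ℝ) : ℝ := h x (Y x)

/-- derivative of the restriction -/
noncomputable def φ' (x : ℝ) : ℝ :=
  (2 * x * Y x ^ 8 + 8 * x ^ 7 * Y x ^ 2 - 3169 / 2000 * (6 * x ^ 5 * Y x ^ 6)) -
    x ^ 45 / Y x ^ 45 * (8 * x ^ 2 * Y x ^ 7 + 2 * x ^ 8 * Y x - 3169 / 2000 * (6 * x ^ 6 * Y x ^ 5))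

theorem φ_cont : Continuous φ := by
  have := Y_cont
  unfold φ h
  fun_prop

theorem φ_deriv {x : ℝ} (h0 : 0 ≤ x) (h1 : x < 1) : HasDerivAt φ (φ' x) x := by
  have hy := Y_deriv h0 h1
  have := (((hasDerivAt_pow 2 x).mul (hy.pow 8)).add ((hasDerivAt_pow 8 x).mul (hy.pow 2))).sub
    (((hasDerivAt_pow 6 x).mul (hy.pow 6)).const_mul (3169 / 2000 : ℝ))
  refine HasDerivAt.congr_deriv this ?_
  simp only [φ', Pi.pow_apply]
  norm_num
  ring

theorem bounds (x a b : ℝ) (h0 : 0 ≤ x) (h1 : x ≤ 1) (ha : 0 ≤ a) (hb : 0 ≤ b)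
    (ha' : a ^ 46 ≤ 1 - x ^ 46) (hb' : 1 - x ^ 46 ≤ b ^ 46) :
    x ^ 2 * a ^ 8 + x ^ 8 * a ^ 2 - 3169 / 2000 * (x ^ 6 * b ^ 6) ≤ φ x ∧
    φ x ≤ x ^ 2 * b ^ 8 + x ^ 8 * b ^ 2 - 3169 / 2000 * (x ^ 6 * a ^ 6) := by
  rw [← Y_pow h0 h1] at ha' hb'
  have hy := Y_nonneg h0 h1
  have l1 : a ≤ Y x := (pow_le_pow_iff_left₀ ha hy (by norm_num)).1 ha'
  have l2 : Y x ≤ b := (pow_le_pow_iff_left₀ hy hb (by norm_num)).1 hb'
  unfold φ h
  constructor <;> gcongr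

theorem v0 : φ 0 < 0.39785 := by simp [φ, h]; norm_num

theorem v8 : φ 1 < 0.39785 := by simp [φ, h, Y]; norm_num

theorem v1 : 0.39786 < φ 0.8865 :=
  lt_of_lt_of_le (by norm_num) (bounds _ 0.99991463 0.99991464 (by norm_num) (by norm_num)
    (by norm_num) (by norm_num) (by norm_num) (by norm_num)).1

theorem v2 : φ 0.9397 < 0.39785 :=
  lt_of_le_of_lt (bounds _ 0.99872003 0.99872004 (by norm_num) (by norm_num)
    (by norm_num) (by norm_num) (by norm_num) (by norm_num)).2 (by norm_num)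

theorem v3 : 0.39786 < φ 0.9653 :=
  lt_of_lt_of_le (by norm_num) (bounds _ 0.99524178 0.99524179 (by norm_num) (by norm_num)
    (by norm_num) (by norm_num) (by norm_num) (by norm_num)).1

theorem v4 : φ 0.985 < 0.39785 :=
  lt_of_le_of_lt (bounds _ 0.98508899 0.98508900 (by norm_num) (by norm_num)
    (by norm_num) (by norm_num) (by norm_num) (by norm_num)).2 (by norm_num)

theorem v5 : 0.39786 < φ 0.995242 :=
  lt_of_lt_of_le (by norm_num) (bounds _ 0.96529913 0.96529914 (by norm_num) (by norm_num)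
    (by norm_num) (by norm_num) (by norm_num) (by norm_num)).1

theorem v6 : φ 0.99872 < 0.39785 :=
  lt_of_le_of_lt (bounds _ 0.93970049 0.93970050 (by norm_num) (by norm_num)
    (by norm_num) (by norm_num) (by norm_num) (by norm_num)).2 (by norm_num)

theorem v7 : 0.39786 < φ 0.999915 :=
  lt_of_lt_of_le (by norm_num) (bounds _ 0.88641677 0.88641678 (by norm_num) (by norm_num)
    (by norm_num) (by norm_num) (by norm_num) (by norm_num)).1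

/-- eight simple roots -/
theorem roots : ∃ δ : ℝ, 0 < δ ∧ ∃ r : Fin 8 → ℝ, StrictMono r ∧
    ∀ i, 0 < r i ∧ r i < 1 ∧ φ (r i) = δ ∧ φ' (r i) ≠ 0 := by
  obtain ⟨δ, ⟨d1, d2⟩, hδ⟩ := Pool.Agent.H80.Sard1.exists_regular_value φ φ' (Set.Ioo 0 1)
    (fun x hx => φ_deriv hx.1.le hx.2) 0.39785 0.39786 (by norm_num)
  have up : ∀ a b : ℝ, a ≤ b → φ a < 0.39785 → 0.39786 < φ b → ∃ x, a < x ∧ x < b ∧ φ x = δ := by
    intro a b hab ha hb
    obtain ⟨x, hx, e⟩ := intermediate_value_Ioo hab φ_cont.continuousOn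
      (⟨ha.trans d1, d2.trans hb⟩ : δ ∈ Set.Ioo (φ a) (φ b))
    exact ⟨x, hx.1, hx.2, e⟩
  have down : ∀ a b : ℝ, a ≤ b → 0.39786 < φ a → φ b < 0.39785 → ∃ x, a < x ∧ x < b ∧ φ x = δ := by
    intro a b hab ha hb
    obtain ⟨x, hx, e⟩ := intermediate_value_Ioo' hab φ_cont.continuousOn
      (⟨hb.trans d1, d2.trans ha⟩ : δ ∈ Set.Ioo (φ b) (φ a))
    exact ⟨x, hx.1, hx.2, e⟩
  obtain ⟨r0, a0, b0, e0⟩ := up _ _ (by norm_num) v0 v1
  obtain ⟨r1, a1, b1, e1⟩ := down _ _ (by norm_num) v1 v2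
  obtain ⟨r2, a2, b2, e2⟩ := up _ _ (by norm_num) v2 v3
  obtain ⟨r3, a3, b3, e3⟩ := down _ _ (by norm_num) v3 v4
  obtain ⟨r4, a4, b4, e4⟩ := up _ _ (by norm_num) v4 v5
  obtain ⟨r5, a5, b5, e5⟩ := down _ _ (by norm_num) v5 v6
  obtain ⟨r6, a6, b6, e6⟩ := up _ _ (by norm_num) v6 v7
  obtain ⟨r7, a7, b7, e7⟩ := down _ _ (by norm_num) v7 v8
  have key : ∀ x, 0 < x → x < 1 → φ x = δ → 0 < x ∧ x < 1 ∧ φ x = δ ∧ φ' x ≠ 0 :=
    fun x h0 h1 e => ⟨h0, h1, e, hδ x ⟨h0, h1⟩ e⟩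
  refine ⟨δ, by linarith, ![r0, r1, r2, r3, r4, r5, r6, r7], ?_, ?_⟩
  · rw [Fin.strictMono_iff_lt_succ]
    intro i
    fin_cases i <;> simp <;> linarith
  · intro i
    fin_cases i
    · exact key r0 (by linarith) (by linarith) e0
    · exact key r1 (by linarith) (by linarith) e1
    · exact key r2 (by linarith) (by linarith) e2
    · exact key r3 (by linarith) (by linarith) e3
    · exact key r4 (by linarith) (by linarith) e4
    · exact key r5 (by linarith) (by linarith) e5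
    · exact key r6 (by linarith) (by linarith) e6
    · exact key r7 (by linarith) (by linarith) e7

/-- simple solution of the system x^46+y^46-1 = xy(h-δ) = 0 -/
def Sol (δ x y : ℝ) : Prop :=
  x ^ 46 + y ^ 46 - 1 = 0 ∧
  x ^ 3 * y ^ 9 + x ^ 9 * y ^ 3 - 3169 / 2000 * (x ^ 7 * y ^ 7) - δ * (x * y) = 0 ∧
  46 * x ^ 45 * (9 * x ^ 3 * y ^ 8 + 3 * x ^ 9 * y ^ 2 - 3169 / 2000 * (7 * x ^ 7 * y ^ 6) - δ * x) -
    46 * y ^ 45 * (3 * x ^ 2 * y ^ 9 + 9 * x ^ 8 * y ^ 3 - 3169 / 2000 * (7 * x ^ 6 * y ^ 7) - δ * y)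
    ≠ 0

theorem Sol.negx {δ x y : ℝ} (h : Sol δ x y) : Sol δ (-x) y := by
  obtain ⟨h1, h2, h3⟩ := h
  refine ⟨by linear_combination h1, by linear_combination -h2, fun e => h3 ?_⟩
  linear_combination e

theorem Sol.negy {δ x y : ℝ} (h : Sol δ x y) : Sol δ x (-y) := by
  obtain ⟨h1, h2, h3⟩ := h
  refine ⟨by linear_combination h1, by linear_combination -h2, fun e => h3 ?_⟩
  linear_combination e

theorem sol_root {δ x : ℝ} (h0 : 0 < x) (h1 : x < 1) (e : φ x = δ) (e' : φ' x ≠ 0) :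
    Sol δ x (Y x) := by
  have hy := Y_pos h0.le h1
  have hp := Y_pow h0.le h1.le
  unfold φ h at e
  refine ⟨by linear_combination hp, by linear_combination (x * Y x) * e, fun hJ => e' ?_⟩
  have : 46 * x * Y x ^ 46 * φ' x = 0 := by
    have hy' := hy.ne'
    rw [← e] at hJ
    rw [← neg_eq_zero, ← hJ]
    unfold φ'
    field_simp
    ring
  have h46 : (46 * x * Y x ^ 46) ≠ 0 := by positivity
  exact (mul_eq_zero.1 this).resolve_left h46

theorem sol_axis_x {δ : ℝ} (h : 0 < δ) : Sol δ 1 0 := by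
  refine ⟨by norm_num, by norm_num, ?_⟩
  norm_num
  exact h.ne'

theorem sol_axis_y {δ : ℝ} (h : 0 < δ) : Sol δ 0 1 := by
  refine ⟨by norm_num, by norm_num, ?_⟩
  norm_num
  exact h.ne'

end Pool.Agent.H80.Fewnomial
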