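import Mathlib

namespace Pool.Agent.H80.Flag

open CategoryTheory

/-- A multi-flag: a set of subspaces containing `0` and `V`, closed under intersection. -/
def IsMultiFlag {k V : Type} [Field k] [AddCommGroup V] [Module k V]
    (S : Set (Submodule k V)) : Prop :=
  ⊥ ∈ S ∧ ⊤ ∈ S ∧ ∀ A ∈ S, ∀ B ∈ S, A ⊓ B ∈ S

/-- The multi-flag generated by `T`: the smallest multi-flag containing `T`. -/
def gen {k V : Type} [Field k] [AddCommGroup V] [Module k V]
    (T : Set (Submodule k V)) : Set (Submodule k V) :=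
  ⋂₀ {S | IsMultiFlag S ∧ T ⊆ S}

variable {k : Type} [Field k] {C : Type} [PartialOrder C]

/-- The structure map `M(x) → M(y)` for `x ≤ y`. -/
def phi (M : C ⥤ ModuleCat k) {x y : C} (h : x ≤ y) : M.obj x →ₗ[k] M.obj y :=
  (M.map (homOfLE h)).hom

/-- The multi-flag `F_0(M)(x)`, generated by kernels and images. -/
def F0 (M : C ⥤ ModuleCat k) (x : C) : Set (Submodule k (M.obj x)) :=
  gen ({W | ∃ (y : C) (h : x ≤ y), W = LinearMap.ker (phi M h)} ∪
    {W | ∃ (z : C) (h : z ≤ x), W = LinearMap.range (phi M h)})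

/-- One step of the recursion: preimages and images of the subspaces of the previous stage. -/
def step (M : C ⥤ ModuleCat k) (G : ∀ x, Set (Submodule k (M.obj x))) (x : C) :
    Set (Submodule k (M.obj x)) :=
  gen ({W | ∃ (y : C) (h : x ≤ y), ∃ U ∈ G y, W = U.comap (phi M h)} ∪
    {W | ∃ (z : C) (h : z ≤ x), ∃ U ∈ G z, W = U.map (phi M h)})

/-- The stages `F_n(M)`. -/
def Fn (M : C ⥤ ModuleCat k) : ℕ → ∀ x, Set (Submodule k (M.obj x))
  | 0 => F0 M
  | n + 1 => step M (Fn M n)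

/-- The relative stages `F^F_n(M)`. -/
def FFn (M : C ⥤ ModuleCat k) (F : ∀ x, Set (Submodule k (M.obj x))) :
    ℕ → ∀ x, Set (Submodule k (M.obj x))
  | 0 => fun x => gen (F0 M x ∪ F x)
  | n + 1 => step M (FFn M F n)

/-- Stable local structure. -/
def Stable (M : C ⥤ ModuleCat k) : Prop :=
  ∀ x, ∃ N, ∀ n ≥ N, Fn M n x = Fn M (n + 1) x

/-- Strongly stable local structure. -/
def StronglyStable (M : C ⥤ ModuleCat k) : Prop :=
  ∀ F : ∀ x, Set (Submodule k (M.obj x)), (∀ x, IsMultiFlag (F x) ∧ (F x).Finite) →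
    ∃ N, ∀ x, (⋃ n, FFn M F n x) = FFn M F N x

end Pool.Agent.H80.Flag
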