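import Mathlib
import Pool.Agent.H80.FlagDefs

namespace Pool.Agent.H80.Flag

open CategoryTheory

section
variable {k V : Type} [Field k] [AddCommGroup V] [Module k V]

lemma subset_gen (T : Set (Submodule k V)) : T ⊆ gen T := fun _ hW _ hS => hS.2 hW

lemma gen_subset {T S : Set (Submodule k V)} (hS : IsMultiFlag S) (h : T ⊆ S) : gen T ⊆ S :=
  fun _ hW => hW S ⟨hS, h⟩

lemma gen_flag (T : Set (Submodule k V)) : IsMultiFlag (gen T) :=
  ⟨fun _ hS => hS.1.1, fun _ hS => hS.1.2.1,
    fun A hA B hB S hS => hS.1.2.2 A (hA S hS) B (hB S hS)⟩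

lemma gen_finite {T : Set (Submodule k V)} (hT : T.Finite) : (gen T).Finite := by
  have hfin : (insert ⊥ (sInf '' (𝒫 T))).Finite := (hT.powerset.image _).insert _
  refine hfin.subset (gen_subset ⟨Or.inl rfl, Or.inr ⟨∅, by simp, by simp⟩, ?_⟩ ?_)
  · rintro A (rfl | ⟨a, ha, rfl⟩) B hB
    · left; simp
    · rcases hB with rfl | ⟨b, hb, rfl⟩
      · left; simp
      · right; exact ⟨a ∪ b, Set.union_subset ha hb, sInf_union⟩
  · intro W hW
    right; exact ⟨{W}, by simpa using hW, by simp⟩

lemma two_flag : IsMultiFlag ({⊥, ⊤} : Set (Submodule k V)) := by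
  refine ⟨by simp, by simp, ?_⟩
  rintro A (rfl | rfl) B (rfl | rfl) <;> simp

lemma three_flag (U : Submodule k V) : IsMultiFlag ({⊥, ⊤, U} : Set (Submodule k V)) ∧
    ({⊥, ⊤, U} : Set (Submodule k V)).Finite := by
  refine ⟨⟨by simp, by simp, ?_⟩, Set.toFinite _⟩
  rintro A (rfl | rfl | rfl) B (rfl | rfl | rfl) <;> simp
end

section
variable {k : Type} [Field k] {C : Type} [PartialOrder C]

lemma step_finite [Finite C] (M : C ⥤ ModuleCat k) (G : ∀ x, Set (Submodule k (M.obj x)))
    (hG : ∀ x, (G x).Finite) (x : C) : (step M G x).Finite := by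
  refine gen_finite (Set.Finite.union ?_ ?_)
  · have : {W | ∃ (y : C) (h : x ≤ y), ∃ U ∈ G y, W = U.comap (phi M h)} =
        ⋃ (y : C) (h : x ≤ y), (fun U => U.comap (phi M h)) '' G y := by
      ext W; simp [eq_comm]
    rw [this]
    exact Set.finite_iUnion fun y => Set.finite_iUnion fun h => (hG y).image _
  · have : {W | ∃ (z : C) (h : z ≤ x), ∃ U ∈ G z, W = U.map (phi M h)} =
        ⋃ (z : C) (h : z ≤ x), (fun U => U.map (phi M h)) '' G z := by
      ext W; simp [eq_comm]
    rw [this]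
    exact Set.finite_iUnion fun y => Set.finite_iUnion fun h => (hG y).image _
end

/-- The crown poset: `0, 1 < 2, 3`. -/
def Crown := Fin 4

instance : Fintype Crown := inferInstanceAs (Fintype (Fin 4))
instance : DecidableEq Crown := inferInstanceAs (DecidableEq (Fin 4))
instance (n : ℕ) : OfNat Crown n := inferInstanceAs (OfNat (Fin 4) n)

def cle (x y : Fin 4) : Prop := x = y ∨ (x.val < 2 ∧ 2 ≤ y.val)

instance : DecidableRel cle := fun x y => by unfold cle; infer_instance

instance : PartialOrder Crown where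
  le := cle
  le_refl x := Or.inl rfl
  le_trans := by show ∀ x y z : Fin 4, cle x y → cle y z → cle x z; decide
  le_antisymm := by show ∀ x y : Fin 4, cle x y → cle y x → x = y; decide

abbrev V := ℚ × ℚ

def T : V ≃ₗ[ℚ] V where
  toFun p := (p.1 + p.2, p.2)
  invFun p := (p.1 - p.2, p.2)
  map_add' p q := by ext <;> simp; ring
  map_smul' c p := by ext <;> simp; ring
  left_inv p := by simp
  right_inv p := by simp

def e (x y : Crown) : V ≃ₗ[ℚ] V := if x = 1 ∧ y = 3 then T else LinearEquiv.refl ℚ V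

lemma e_self (x : Crown) : e x x = LinearEquiv.refl ℚ V := by
  unfold e
  rw [if_neg]
  rintro ⟨h1, h2⟩
  exact absurd (h1.symm.trans h2) (by decide)

lemma chain (x y z : Crown) (h1 : x ≤ y) (h2 : y ≤ z) : x = y ∨ y = z := by
  revert x y z
  show ∀ x y z : Fin 4, cle x y → cle y z → x = y ∨ y = z
  decide

def M : Crown ⥤ ModuleCat ℚ where
  obj _ := ModuleCat.of ℚ V
  map {x y} _ := ModuleCat.ofHom (e x y).toLinearMap
  map_id x := by rw [e_self]; rfl
  map_comp {x y z} f g := by
    rcases chain x y z f.le g.le with rfl | rfl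
    · rw [e_self]; rfl
    · rw [e_self]; rfl

lemma phi_eq {x y : Crown} (h : x ≤ y) : phi M h = (e x y).toLinearMap := rfl

lemma F0_sub (x : Crown) : F0 M x ⊆ {⊥, ⊤} := by
  refine gen_subset two_flag ?_
  rintro W (⟨y, h, rfl⟩ | ⟨z, h, rfl⟩)
  · left; exact (e x y).ker
  · right; exact (e z x).range

lemma Fn_sub (n : ℕ) : ∀ x, Fn M n x ⊆ {⊥, ⊤} := by
  induction n with
  | zero => exact F0_sub
  | succ n ih =>
    intro x
    refine gen_subset two_flag ?_
    rintro W (⟨y, h, U, hU, rfl⟩ | ⟨z, h, U, hU, rfl⟩)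
    · rcases ih y hU with rfl | rfl
      · left; exact (e x y).ker
      · right; exact Submodule.comap_top _
    · rcases ih z hU with rfl | rfl
      · left; exact Submodule.map_bot _
      · right; rw [Submodule.map_top]; exact (e z x).range

lemma Fn_flag (n : ℕ) (x : Crown) : IsMultiFlag (Fn M n x) := by
  cases n <;> exact gen_flag _

lemma Fn_eq (n : ℕ) (x : Crown) : Fn M n x = {⊥, ⊤} := by
  refine (Fn_sub n x).antisymm ?_
  rintro W (rfl | rfl)
  · exact (Fn_flag n x).1
  · exact (Fn_flag n x).2.1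

lemma stable : Stable M := fun x => ⟨0, fun n _ => by rw [Fn_eq, Fn_eq]⟩

def L (j : ℚ) : Submodule ℚ V := LinearMap.ker (LinearMap.fst ℚ ℚ ℚ - j • LinearMap.snd ℚ ℚ ℚ)

lemma mem_L (j : ℚ) (p : V) : p ∈ L j ↔ p.1 = j * p.2 := by
  simp [L, sub_eq_zero]

lemma L_inj : Function.Injective L := by
  intro i j h
  have : ((i, 1) : V) ∈ L j := h ▸ (mem_L i (i, 1)).2 (by simp)
  simpa [mem_L] using this

lemma map_T (j : ℚ) : (L j).map T.toLinearMap = L (j + 1) := by
  ext p
  rw [Submodule.mem_map_equiv, mem_L, mem_L]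
  show p.1 - p.2 = j * p.2 ↔ _
  constructor <;> intro h <;> linarith

def F (x : Crown) : Set (Submodule ℚ (M.obj x)) := {⊥, ⊤, L 0}

lemma F_flag (x : Crown) : IsMultiFlag (F x) ∧ (F x).Finite := by
  exact three_flag (L 0)

lemma FFn_finite (n : ℕ) : ∀ x, (FFn M F n x).Finite := by
  induction n with
  | zero => exact fun x => gen_finite (((Set.toFinite _).subset (F0_sub x)).union (F_flag x).2)
  | succ n ih => exact step_finite M _ ih

lemma up {G : ∀ x, Set (Submodule ℚ (M.obj x))} {z x : Crown} (h : z ≤ x) {U : Submodule ℚ V}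
    (hU : U ∈ G z) : U.map (e z x).toLinearMap ∈ step M G x :=
  subset_gen _ (Or.inr ⟨z, h, U, hU, rfl⟩)

lemma down {G : ∀ x, Set (Submodule ℚ (M.obj x))} {x y : Crown} (h : x ≤ y) {U : Submodule ℚ V}
    (hU : U ∈ G y) : U.comap (e x y).toLinearMap ∈ step M G x :=
  subset_gen _ (Or.inl ⟨y, h, U, hU, rfl⟩)

lemma L_mem (j : ℕ) : L j ∈ FFn M F (4 * j) 0 := by
  induction j with
  | zero => exact subset_gen _ (Or.inr (Or.inr (Or.inr (by rw [Nat.cast_zero]; rfl))))
  | succ j ih =>
    have h02 : (0 : Crown) ≤ 2 := by show cle 0 2; decide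
    have h12 : (1 : Crown) ≤ 2 := by show cle 1 2; decide
    have h13 : (1 : Crown) ≤ 3 := by show cle 1 3; decide
    have h03 : (0 : Crown) ≤ 3 := by show cle 0 3; decide
    have e02 : e 0 2 = LinearEquiv.refl ℚ V := if_neg (by decide)
    have e12 : e 1 2 = LinearEquiv.refl ℚ V := if_neg (by decide)
    have e03 : e 0 3 = LinearEquiv.refl ℚ V := if_neg (by decide)
    have e13 : e 1 3 = T := if_pos ⟨rfl, rfl⟩
    have := down h03 (up h13 (down h12 (up h02 ih)))
    rw [e02, e12, e03, e13] at this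
    simp only [LinearEquiv.refl_toLinearMap, Submodule.map_id, Submodule.comap_id, map_T] at this
    push_cast
    exact this

lemma not_strong : ¬ StronglyStable M := by
  intro h
  obtain ⟨N, hN⟩ := h F F_flag
  have hfin := FFn_finite N 0
  rw [← hN 0] at hfin
  refine Set.infinite_range_of_injective (f := fun j : ℕ => L j)
    (fun i j h => by exact_mod_cast L_inj h) (hfin.subset ?_)
  rintro _ ⟨j, rfl⟩
  exact Set.mem_iUnion.2 ⟨4 * j, L_mem j⟩

lemma conn : IsConnected Crown := by
  have h02 : (0 : Crown) ≤ 2 := by show cle 0 2; decide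
  have h12 : (1 : Crown) ≤ 2 := by show cle 1 2; decide
  have h03 : (0 : Crown) ≤ 3 := by show cle 0 3; decide
  have : Nonempty Crown := ⟨0⟩
  have key : ∀ x : Crown, Zigzag (0 : Crown) x := by
    intro x
    have : x = 0 ∨ x = 1 ∨ x = 2 ∨ x = 3 := by revert x; decide
    rcases this with rfl | rfl | rfl | rfl
    · exact Zigzag.refl _
    · exact (Zigzag.of_hom (homOfLE h02)).trans (Zigzag.of_inv (homOfLE h12))
    · exact Zigzag.of_hom (homOfLE h02)
    · exact Zigzag.of_hom (homOfLE h03)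
  exact zigzag_isConnected fun a b => (key a).symm.trans (key b)

end Pool.Agent.H80.Flag
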