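import Mathlib

namespace Pool.Agent.H80.Fpt

/-- The `R`-linear map `R → R^{1/p^e}`, `1 ↦ d^{1/p^e}` splits: there is an additive
`p^{-e}`-linear map `φ : R → R` (an `R`-linear map `R^{1/p^e} → R`) with `φ d = 1`. -/
def Splits (p : ℕ) {R : Type} [CommRing R] (e : ℕ) (d : R) : Prop :=
  ∃ φ : R →+ R, (∀ r x : R, φ (r ^ p ^ e * x) = r * φ x) ∧ φ d = 1

/-- The pair `(R, a^t)` is F-pure (for a local ring `R`). -/
def FPurePair (p : ℕ) {R : Type} [CommRing R] (a : Ideal R) (t : ℝ) : Prop :=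
  ∀ᶠ e : ℕ in Filter.atTop, ∃ d ∈ a ^ ⌈t * ((p : ℝ) ^ e - 1)⌉₊, Splits p e d

/-- The F-pure threshold, in `[0, ∞]`. -/
noncomputable def fpt (p : ℕ) {R : Type} [CommRing R] (a : Ideal R) : ENNReal :=
  ⨆ (t : ℝ) (_ : 0 ≤ t) (_ : FPurePair p a t), ENNReal.ofReal t

end Pool.Agent.H80.Fpt
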