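import Mathlib
import Pool.Agent.H80.FptDefs

namespace Pool.Agent.H80.Fpt

open MvPowerSeries

section General

variable {σ : Type} {K : Type} [CommRing K]

/-- extraction of coefficients `q • α + c`. -/
noncomputable def ext' (q : ℕ) (c : σ →₀ ℕ) : MvPowerSeries σ K →+ MvPowerSeries σ K where
  toFun f := fun α => coeff (q • α + c) f
  map_zero' := by ext α; rfl
  map_add' f g := by ext α; exact map_add (coeff (q • α + c)) f g

theorem coeff_ext' (q : ℕ) (c : σ →₀ ℕ) (f : MvPowerSeries σ K) (α : σ →₀ ℕ) :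
    coeff α (ext' q c f) = coeff (q • α + c) f := rfl

theorem ext'_expand_mul (q : ℕ) (hq : q ≠ 0) (c : σ →₀ ℕ) (hc : ∀ i, c i < q)
    (r f : MvPowerSeries σ K) : ext' q c (expand q hq r * f) = r * ext' q c f := by
  classical
  ext α
  rw [coeff_ext', coeff_mul, coeff_mul]
  symm
  refine Finset.sum_of_injOn (fun x : (σ →₀ ℕ) × (σ →₀ ℕ) => (q • x.1, q • x.2 + c)) ?_ ?_ ?_ ?_
  · intro x _ y _ h
    simp only [Prod.mk.injEq, add_left_inj] at h
    have hq' : 0 < q := Nat.pos_of_ne_zero hq
    ext i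
    · have := DFunLike.congr_fun h.1 i
      simp only [Finsupp.smul_apply, smul_eq_mul] at this
      exact Nat.eq_of_mul_eq_mul_left hq' this
    · have := DFunLike.congr_fun h.2 i
      simp only [Finsupp.smul_apply, smul_eq_mul] at this
      exact Nat.eq_of_mul_eq_mul_left hq' this
  · intro x hx
    have hx' : x.1 + x.2 = α := Finset.HasAntidiagonal.mem_antidiagonal.mp (Finset.mem_coe.mp hx)
    refine Finset.mem_coe.mpr (Finset.HasAntidiagonal.mem_antidiagonal.mpr ?_)
    show q • x.1 + (q • x.2 + c) = _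
    rw [← hx', smul_add, add_assoc]
  · intro y hy hny
    by_cases hd : ∀ i, q ∣ y.1 i
    · exfalso
      apply hny
      replace hy : y.1 + y.2 = q • α + c := Finset.HasAntidiagonal.mem_antidiagonal.mp hy
      have hq' : 0 < q := Nat.pos_of_ne_zero hq
      let β : σ →₀ ℕ := y.1.mapRange (fun n => n / q) (by simp)
      have hβ : q • β = y.1 := by
        ext i
        simp only [β, Finsupp.smul_apply, Finsupp.mapRange_apply, smul_eq_mul]
        exact Nat.mul_div_cancel' (hd i)
      have hle : β ≤ α := by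
        intro i
        have h1 := DFunLike.congr_fun hy i
        have h2 := DFunLike.congr_fun hβ i
        simp only [Finsupp.add_apply, Finsupp.smul_apply, smul_eq_mul] at h1 h2
        have h3 := hc i
        by_contra hlt
        push Not at hlt
        have : q * (α i + 1) ≤ q * β i := Nat.mul_le_mul_left q hlt
        nlinarith
      refine ⟨(β, α - β), ?_, ?_⟩
      · exact Finset.mem_coe.mpr (Finset.HasAntidiagonal.mem_antidiagonal.mpr (add_tsub_cancel_of_le hle))
      · ext i
        · simp only [hβ]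
        · have h1 := DFunLike.congr_fun hy i
          have h2 := DFunLike.congr_fun hβ i
          simp only [Finsupp.add_apply, Finsupp.smul_apply, smul_eq_mul, Finsupp.tsub_apply]
            at h1 h2 ⊢
          have h4 : β i ≤ α i := hle i
          obtain ⟨k, hk⟩ := Nat.exists_eq_add_of_le h4
          rw [hk] at h1 ⊢
          simp only [add_tsub_cancel_left]
          rw [← h2] at h1
          nlinarith
    · push Not at hd
      obtain ⟨i, hi⟩ := hd
      rw [coeff_expand_of_not_dvd q hq r hi, zero_mul]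
  · intro x _
    simp only [coeff_expand_smul, coeff_ext']

theorem X_prime' [IsDomain K] (s : σ) : Prime (X s : MvPowerSeries σ K) := by
  classical
  let w : σ → ℕ := Pi.single s 1
  have hw : ∀ d : σ →₀ ℕ, Finsupp.weight w d = d s := by
    intro d
    rw [Finsupp.weight_apply, Finsupp.sum]
    rw [Finset.sum_eq_single s]
    · simp [w]
    · intro b _ hb; simp [w, hb]
    · intro h; simp [Finsupp.notMem_support_iff.mp h]
  have key : ∀ f : MvPowerSeries σ K, X s ∣ f ↔ 1 ≤ f.weightedOrder w := by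
    intro f
    rw [X_dvd_iff]
    constructor
    · intro h
      apply le_weightedOrder
      intro d hd
      apply h
      rw [hw] at hd
      have : d s < 1 := by exact_mod_cast hd
      omega
    · intro h d hd
      apply coeff_eq_zero_of_lt_weightedOrder w
      rw [hw, hd]
      exact lt_of_lt_of_le (by simp) h
  refine ⟨?_, ?_, ?_⟩
  · intro h
    have := congrArg (coeff (Finsupp.single s 1)) h
    simp at this
  · intro h
    have := h.map (constantCoeff (σ := σ) (R := K))
    simp at this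
  · intro a b h
    rw [key, weightedOrder_mul] at h
    rw [key, key]
    by_contra hn
    push Not at hn
    have h1 : a.weightedOrder w = 0 := by simpa using hn.1
    have h2 : b.weightedOrder w = 0 := by simpa using hn.2
    simp [h1, h2] at h

theorem not_X_dvd_X [Nontrivial K] {s t : σ} (h : s ≠ t) : ¬ (X s : MvPowerSeries σ K) ∣ X t := by
  classical
  rw [X_dvd_iff]
  intro H
  have := H (Finsupp.single t 1) (by simp [Finsupp.single_apply, h.symm])
  simp at this

theorem finite_of_gen {A B ι : Type} [CommRing A] [CommRing B] [Fintype ι] (f : A →+* B)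
    (s : ι → B) (h : ∀ x, ∃ b : ι → A, x = ∑ i, f (b i) * s i) : f.Finite := by
  classical
  let _ : Algebra A B := f.toAlgebra
  refine ⟨⟨Finset.univ.image s, ?_⟩⟩
  rw [eq_top_iff]
  rintro x -
  obtain ⟨b, rfl⟩ := h x
  refine Submodule.sum_mem _ fun c _ => ?_
  refine Submodule.smul_mem _ (b c) (Submodule.subset_span ?_)
  simp only [Finset.coe_image, Finset.coe_univ, Set.image_univ]
  exact ⟨c, rfl⟩

end General

variable (p : ℕ) [hp : Fact p.Prime]

instance : CharP (MvPowerSeries (Fin 3) (ZMod p)) p :=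
  charP_of_injective_algebraMap (R := ZMod p) (RingHom.injective _) p

theorem pow_eq_expand (e : ℕ) (r : MvPowerSeries (Fin 3) (ZMod p)) :
    r ^ p ^ e = expand (p ^ e) (pow_ne_zero e hp.out.ne_zero) r := by
  rw [← map_iterateFrobenius_expand p hp.out.ne_zero r e]
  have : iterateFrobenius (ZMod p) p e = RingHom.id _ := by
    ext x
    simp [iterateFrobenius_def, ZMod.pow_card_pow]
  rw [this, map_id]
  rfl

theorem ext'_pow_mul (e : ℕ) (c : Fin 3 →₀ ℕ) (hc : ∀ i, c i < p ^ e)
    (r f : MvPowerSeries (Fin 3) (ZMod p)) : ext' (p ^ e) c (r ^ p ^ e * f) = r * ext' (p ^ e) c f := by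
  rw [pow_eq_expand, ext'_expand_mul _ _ c hc]

/-- the ring `F_p[[x,y,z]]/(xy)`. -/
abbrev S := MvPowerSeries (Fin 3) (ZMod p)
noncomputable abbrev J : Ideal (S p) := Ideal.span {X 0 * X 1}
abbrev R := S p ⧸ J p
noncomputable abbrev π : S p →+* R p := Ideal.Quotient.mk (J p)

theorem mem_J (f : S p) : f ∈ J p ↔ X 0 ∣ f ∧ X 1 ∣ f := by
  rw [Ideal.mem_span_singleton]
  constructor
  · intro h
    exact ⟨(dvd_mul_right _ _).trans h, (dvd_mul_left _ _).trans h⟩
  · rintro ⟨⟨g, rfl⟩, h1⟩
    rcases (X_prime' (K := ZMod p) (1 : Fin 3)).dvd_or_dvd h1 with h | h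
    · exact absurd h (not_X_dvd_X (by decide))
    · exact mul_dvd_mul_left _ h

theorem J_ne_top : J p ≠ ⊤ := by
  intro h
  have : (1 : S p) ∈ J p := h ▸ Submodule.mem_top
  rw [mem_J] at this
  exact (X_prime' (K := ZMod p) (0 : Fin 3)).not_dvd_one this.1

instance : Nontrivial (R p) := Ideal.Quotient.nontrivial_iff.mpr (J_ne_top p)

instance : IsLocalRing (R p) := IsLocalRing.of_surjective' (π p) Ideal.Quotient.mk_surjective

instance : CharP (R p) p :=
  charP_of_injective_algebraMap (R := ZMod p) (RingHom.injective _) p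

/-- decomposition of a power series over `p`-th powers. -/
theorem decomp (f : S p) :
    f = ∑ c : Fin 3 → Fin p, (ext' p (Finsupp.equivFunOnFinite.symm fun i => (c i : ℕ)) f) ^ p *
      monomial (Finsupp.equivFunOnFinite.symm fun i => (c i : ℕ)) 1 := by
  classical
  have hp0 : 0 < p := hp.out.pos
  ext α
  rw [map_sum]
  let c0 : Fin 3 → Fin p := fun i => ⟨α i % p, Nat.mod_lt _ hp0⟩
  let β : Fin 3 →₀ ℕ := Finsupp.equivFunOnFinite.symm fun i => α i / p
  have hα : α = p • β + (Finsupp.equivFunOnFinite.symm fun i => (c0 i : ℕ)) := by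
    ext i
    simp [β, c0, Nat.div_add_mod]
  have hpow : ∀ g : S p, g ^ p = expand p hp.out.ne_zero g := by
    intro g
    have := pow_eq_expand p 1 g
    simp only [pow_one] at this
    exact this
  rw [Finset.sum_eq_single c0]
  · conv_rhs => rw [hα]
    rw [coeff_add_mul_monomial, mul_one, hpow, coeff_expand_smul, coeff_ext', ← hα]
  · intro c _ hc
    rw [coeff_mul_monomial]
    split_ifs with hle
    · rw [mul_one, hpow]
      obtain ⟨i, hi⟩ : ∃ i, c i ≠ c0 i := by
        by_contra h
        push Not at h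
        exact hc (funext h)
      apply coeff_expand_of_not_dvd p _ _ (i := i)
      intro hd
      apply hi
      have h1 : (c i : ℕ) ≤ α i := by simpa using hle i
      simp only [Finsupp.tsub_apply, Finsupp.equivFunOnFinite_symm_apply_apply] at hd
      ext
      show (c i : ℕ) = α i % p
      have h2 : (c i : ℕ) ≡ α i [MOD p] := (Nat.modEq_iff_dvd' h1).mpr hd
      rw [← h2, Nat.mod_eq_of_lt (c i).2]
    · rfl
  · intro h; exact absurd (Finset.mem_univ _) h

theorem fFinite : (frobenius (R p) p).Finite := by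
  classical
  apply finite_of_gen (frobenius (R p) p) (fun c : Fin 3 → Fin p =>
    π p (monomial (Finsupp.equivFunOnFinite.symm fun i => (c i : ℕ)) 1))
  intro x
  obtain ⟨f, rfl⟩ := Ideal.Quotient.mk_surjective x
  refine ⟨fun c => π p (ext' p (Finsupp.equivFunOnFinite.symm fun i => (c i : ℕ)) f), ?_⟩
  conv_lhs => rw [decomp p f, map_sum]
  refine Finset.sum_congr rfl fun c _ => ?_
  rw [map_mul, map_pow, frobenius_def]

/-- `z^k` splits at level `e` when `k < p^e`. -/
theorem splits_z (e k : ℕ) (hk : k < p ^ e) : Splits p e (π p (X 2 ^ k)) := by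
  classical
  have hq : 0 < p ^ e := pow_pos hp.out.pos e
  let c : Fin 3 →₀ ℕ := Finsupp.single 2 k
  have hc : ∀ i, c i < p ^ e := by
    intro i
    simp only [c, Finsupp.single_apply]
    split_ifs <;> omega
  let ψ : S p →+ R p := (π p).toAddMonoidHom.comp (ext' (p ^ e) c)
  have hψ : ∀ f ∈ (J p).toAddSubgroup, ψ f = 0 := by
    intro f hf
    have hf' : f ∈ J p := hf
    show π p (ext' (p ^ e) c f) = 0
    rw [Ideal.Quotient.eq_zero_iff_mem, mem_J] 
    rw [mem_J] at hf'
    rw [X_dvd_iff, X_dvd_iff] at hf' ⊢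
    constructor
    · intro m hm
      rw [coeff_ext']
      apply hf'.1
      simp [hm, c]
    · intro m hm
      rw [coeff_ext']
      apply hf'.2
      simp [hm, c]
  refine ⟨QuotientAddGroup.lift (J p).toAddSubgroup ψ hψ, ?_, ?_⟩
  · intro r x
    obtain ⟨r, rfl⟩ := Ideal.Quotient.mk_surjective r
    obtain ⟨x, rfl⟩ := Ideal.Quotient.mk_surjective x
    rw [← map_pow, ← map_mul]
    show π p (ext' (p ^ e) c (r ^ p ^ e * x)) = π p r * π p (ext' (p ^ e) c x)
    rw [ext'_pow_mul p e c hc, map_mul]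
  · show π p (ext' (p ^ e) c (X 2 ^ k)) = 1
    have : ext' (p ^ e) c (X 2 ^ k : S p) = 1 := by
      ext α
      rw [coeff_ext', X_pow_eq, coeff_monomial, coeff_one]
      have : (p ^ e • α + c = Finsupp.single 2 k) ↔ α = 0 := by
        constructor
        · intro h
          have h' : p ^ e • α = 0 := by simpa [c] using h
          exact (smul_eq_zero.mp h').resolve_left hq.ne'
        · rintro rfl; simp [c]
      simp only [this]
    rw [this, map_one]

/-- the ideal `(x, y)`. -/
noncomputable def N : Ideal (R p) := Ideal.span {π p (X 0), π p (X 1)}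

theorem N_ne_top : N p ≠ ⊤ := by
  intro h
  have : (1 : R p) ∈ N p := h ▸ Submodule.mem_top
  rw [N, Ideal.mem_span_pair] at this
  obtain ⟨a, b, hab⟩ := this
  obtain ⟨a, rfl⟩ := Ideal.Quotient.mk_surjective a
  obtain ⟨b, rfl⟩ := Ideal.Quotient.mk_surjective b
  have : a * X 0 + b * X 1 - 1 ∈ J p := by
    rw [← Ideal.Quotient.eq_zero_iff_mem]
    simp only [map_sub, map_add, map_mul, map_one, hab, sub_self]
  rw [mem_J, X_dvd_iff] at this
  have h0 := this.1 0 rfl
  simp at h0

theorem not_splits_of_mem_N (e : ℕ) (d : R p) (hd : d ∈ N p) : ¬ Splits p e d := by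
  rintro ⟨φ, hφ, h1⟩
  apply N_ne_top p
  rw [Ideal.eq_top_iff_one, ← h1]
  rw [N, Ideal.mem_span_pair] at hd
  obtain ⟨a, b, rfl⟩ := hd
  have hq : p ^ e ≠ 0 := pow_ne_zero e hp.out.ne_zero
  have hxy : π p (X 0) * π p (X 1) = 0 := by
    rw [← map_mul, Ideal.Quotient.eq_zero_iff_mem]
    exact Ideal.subset_span rfl
  rw [map_add]
  refine Ideal.add_mem _ ?_ ?_
  · have h : π p (X 1) * φ (a * π p (X 0)) = 0 := by
      rw [← hφ]
      obtain ⟨k, hk⟩ := Nat.exists_eq_succ_of_ne_zero hq
      rw [hk, pow_succ]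
      have : π p (X 1) ^ k * π p (X 1) * (a * π p (X 0)) =
          π p (X 1) ^ k * a * (π p (X 0) * π p (X 1)) := by ring
      rw [this, hxy, mul_zero, map_zero]
    obtain ⟨g, hg⟩ := Ideal.Quotient.mk_surjective (φ (a * π p (X 0)))
    rw [← hg] at h ⊢
    rw [← map_mul, Ideal.Quotient.eq_zero_iff_mem, mem_J] at h
    rcases (X_prime' (K := ZMod p) (0 : Fin 3)).dvd_or_dvd h.1 with h | ⟨g', rfl⟩
    · exact absurd h (not_X_dvd_X (by decide))
    · rw [map_mul]
      exact Ideal.mul_mem_right _ _ (Ideal.subset_span (by simp))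
  · have h : π p (X 0) * φ (b * π p (X 1)) = 0 := by
      rw [← hφ]
      obtain ⟨k, hk⟩ := Nat.exists_eq_succ_of_ne_zero hq
      rw [hk, pow_succ]
      have : π p (X 0) ^ k * π p (X 0) * (b * π p (X 1)) =
          π p (X 0) ^ k * b * (π p (X 0) * π p (X 1)) := by ring
      rw [this, hxy, mul_zero, map_zero]
    obtain ⟨g, hg⟩ := Ideal.Quotient.mk_surjective (φ (b * π p (X 1)))
    rw [← hg] at h ⊢
    rw [← map_mul, Ideal.Quotient.eq_zero_iff_mem, mem_J] at h
    rcases (X_prime' (K := ZMod p) (1 : Fin 3)).dvd_or_dvd h.2 with h | ⟨g', rfl⟩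
    · exact absurd h (not_X_dvd_X (by decide))
    · rw [map_mul]
      exact Ideal.mul_mem_right _ _ (Ideal.subset_span (by simp))

/-- the graded sequence. -/
noncomputable def I (m : ℕ) : Ideal (R p) :=
  Ideal.span {π p (X 2 ^ m)} * (if Even m then ⊤ else N p)

theorem I_mul (m n : ℕ) : I p m * I p n ≤ I p (m + n) := by
  unfold I
  have key : ∀ A B C D : Ideal (R p), A * B * (C * D) = A * C * (B * D) := by
    intro A B C D; ring
  rw [key, Ideal.span_singleton_mul_span_singleton, ← map_mul, ← pow_add]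
  refine Ideal.mul_mono_right ?_
  by_cases hm : Even m <;> by_cases hn : Even n <;>
    simp [hm, hn, Nat.even_add]

theorem I_ne_top (m : ℕ) (hm : 1 ≤ m) : I p m ≠ ⊤ := by
  intro h
  have h1 : I p m ≤ Ideal.span {π p (X 2 ^ m)} := Ideal.mul_le_left
  rw [h, top_le_iff, Ideal.span_singleton_eq_top] at h1
  obtain ⟨b, hb⟩ := h1.exists_right_inv
  obtain ⟨b, rfl⟩ := Ideal.Quotient.mk_surjective b
  have : X 2 ^ m * b - 1 ∈ J p := by
    rw [← Ideal.Quotient.eq_zero_iff_mem]
    simp only [map_sub, map_mul, map_one, hb, sub_self]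
  rw [mem_J, X_dvd_iff] at this
  have h0 := this.1 0 rfl
  have hm' : m ≠ 0 := by omega
  simp [hm'] at h0

theorem I_meets (m : ℕ) : ∃ x ∈ I p m, ∀ P ∈ minimalPrimes (R p), x ∉ P := by
  refine ⟨π p (X 2 ^ m) * π p (X 0 + X 1), ?_, ?_⟩
  · refine Ideal.mul_mem_mul (Ideal.subset_span rfl) ?_
    split_ifs
    · trivial
    · rw [map_add]
      exact Ideal.add_mem _ (Ideal.subset_span (by simp)) (Ideal.subset_span (by simp))
  · intro P hP hx
    apply notMem_nonZeroDivisors_of_mem_mem_minimalPrimes hx hP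
    rw [mem_nonZeroDivisors_iff_right]
    intro g hg
    obtain ⟨g, rfl⟩ := Ideal.Quotient.mk_surjective g
    rw [← map_mul, ← map_mul, Ideal.Quotient.eq_zero_iff_mem, mem_J] at hg
    rw [Ideal.Quotient.eq_zero_iff_mem, mem_J]
    have P0 := X_prime' (K := ZMod p) (0 : Fin 3)
    have P1 := X_prime' (K := ZMod p) (1 : Fin 3)
    constructor
    · rcases P0.dvd_or_dvd hg.1 with h | h
      · exact h
      · rcases P0.dvd_or_dvd h with h | h
        · exact absurd (P0.dvd_of_dvd_pow h) (not_X_dvd_X (by decide))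
        · exact absurd ((dvd_add_right (dvd_refl _)).mp h) (not_X_dvd_X (by decide))
    · rcases P1.dvd_or_dvd hg.2 with h | h
      · exact h
      · rcases P1.dvd_or_dvd h with h | h
        · exact absurd (P1.dvd_of_dvd_pow h) (not_X_dvd_X (by decide))
        · exact absurd ((dvd_add_left (dvd_refl _)).mp h) (not_X_dvd_X (by decide))

theorem tendsto_pow_sub : Filter.Tendsto (fun e : ℕ => (p : ℝ) ^ e - 1) Filter.atTop Filter.atTop := by
  apply Filter.tendsto_atTop_add_const_right
  exact tendsto_pow_atTop_atTop_of_one_lt (by exact_mod_cast hp.out.one_lt)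

theorem fpt_odd (m : ℕ) (hm : ¬ Even m) : fpt p (I p m) = 0 := by
  unfold fpt
  simp only [ENNReal.iSup_eq_zero, ENNReal.ofReal_eq_zero]
  intro t ht h
  by_contra hlt
  push Not at hlt
  have h2 := (tendsto_pow_sub p).eventually_gt_atTop 0
  obtain ⟨e, ⟨d, hd, hs⟩, he⟩ := (h.and h2).exists
  apply not_splits_of_mem_N p e d _ hs
  have hk : ⌈t * ((p : ℝ) ^ e - 1)⌉₊ ≠ 0 := (Nat.ceil_pos.mpr (mul_pos hlt he)).ne'
  have h3 : I p m ≤ N p := by
    unfold I
    rw [if_neg hm]
    exact Ideal.mul_le_right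
  exact h3 (Ideal.pow_le_self hk hd)

theorem fpure_even (m : ℕ) (hm : Even m) (t : ℝ) (ht0 : 0 ≤ t) (ht : t * m < 1) :
    FPurePair p (I p m) t := by
  have h2 := ((tendsto_pow_sub p).const_mul_atTop (sub_pos.mpr ht)).eventually_ge_atTop (m : ℝ)
  filter_upwards [h2] with e he
  set k := ⌈t * ((p : ℝ) ^ e - 1)⌉₊ with hk
  refine ⟨π p (X 2 ^ (m * k)), ?_, splits_z p e _ ?_⟩
  · rw [pow_mul, map_pow]
    apply Ideal.pow_mem_pow
    unfold I
    rw [if_pos hm, Ideal.mul_top]
    exact Ideal.subset_span rfl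
  · have hq : (1 : ℝ) ≤ (p : ℝ) ^ e := one_le_pow₀ (by exact_mod_cast hp.out.one_lt.le)
    have h3 : (k : ℝ) < t * ((p : ℝ) ^ e - 1) + 1 := Nat.ceil_lt_add_one (mul_nonneg ht0 (by linarith))
    have h4 : ((m * k : ℕ) : ℝ) < ((p ^ e : ℕ) : ℝ) := by
      push_cast
      have hm0 : (0 : ℝ) ≤ m := Nat.cast_nonneg m
      nlinarith [mul_le_mul_of_nonneg_left h3.le hm0]
    exact_mod_cast h4

theorem fpt_even (m : ℕ) (hm : Even m) (hm0 : m ≠ 0) : 1 / 2 ≤ (m : ENNReal) * fpt p (I p m) := by
  have hm' : (0 : ℝ) < m := by positivity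
  have h := fpure_even p m hm (1 / (2 * m)) (by positivity) (by field_simp; norm_num)
  have h1 : ENNReal.ofReal (1 / (2 * m)) ≤ fpt p (I p m) := by
    unfold fpt
    exact le_iSup₂_of_le (1 / (2 * (m : ℝ))) (by positivity) (le_iSup_of_le h le_rfl)
  refine le_trans (le_of_eq ?_) (mul_le_mul_right h1 _)
  rw [← ENNReal.ofReal_natCast, ← ENNReal.ofReal_mul hm'.le]
  have : (m : ℝ) * (1 / (2 * m)) = 1 / 2 := by field_simp
  rw [this, ENNReal.ofReal_div_of_pos (by norm_num)]
  simp

theorem not_tendsto : ¬ ∃ L : ENNReal,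
    Filter.Tendsto (fun m : ℕ => (m : ENNReal) * fpt p (I p m)) Filter.atTop (nhds L) := by
  rintro ⟨L, hL⟩
  have h1 : Filter.Tendsto (fun k : ℕ => 2 * k + 1) Filter.atTop Filter.atTop :=
    Filter.tendsto_atTop_mono (fun k => by simp only [id]; omega) Filter.tendsto_id
  have h2 : Filter.Tendsto (fun k : ℕ => 2 * k + 2) Filter.atTop Filter.atTop :=
    Filter.tendsto_atTop_mono (fun k => by simp only [id]; omega) Filter.tendsto_id
  have a1 := hL.comp h1
  have a2 := hL.comp h2
  have e1 : ((fun m : ℕ => (m : ENNReal) * fpt p (I p m)) ∘ fun k : ℕ => 2 * k + 1) = fun _ => 0 := by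
    funext k
    simp only [Function.comp]
    rw [fpt_odd p _ (by simp), mul_zero]
  rw [e1] at a1
  have hL0 : L = 0 := tendsto_nhds_unique a1 tendsto_const_nhds
  have : 1 / 2 ≤ L := ge_of_tendsto' a2 fun k => fpt_even p (2 * k + 2) ⟨k + 1, by ring⟩ (by omega)
  rw [hL0] at this
  simp at this

end Pool.Agent.H80.Fpt
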