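import Mathlib

namespace Pool.Agent.H80.Gauss

open Matrix

variable {g : ℕ}

/-- `B` is complex symmetric with positive definite real part. -/
def InH (B : Matrix (Fin g) (Fin g) ℂ) : Prop := B.IsSymm ∧ (B.map Complex.re).PosDef

/-- The weight `exp (2 π (nᵗ u - nᵗ B n / 2))`. -/
noncomputable def wt (u : Fin g → ℂ) (B : Matrix (Fin g) (Fin g) ℂ) (n : Fin g → ℤ) : ℂ :=
  Complex.exp (2 * Real.pi * ((fun i => (n i : ℂ)) ⬝ᵥ u -
    1 / 2 * ((fun i => (n i : ℂ)) ⬝ᵥ B *ᵥ (fun i => (n i : ℂ)))))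

/-- The theta function. -/
noncomputable def theta (u : Fin g → ℂ) (B : Matrix (Fin g) (Fin g) ℂ) : ℂ := ∑' n, wt u B n

/-- The discrete Gaussian with parameters `(u, B)`. -/
noncomputable def dg (u : Fin g → ℂ) (B : Matrix (Fin g) (Fin g) ℂ) (n : Fin g → ℤ) : ℂ :=
  wt u B n / theta u B

/-- The moment of multi-index `α`. -/
noncomputable def moment (α : Fin g → ℕ) (u : Fin g → ℂ) (B : Matrix (Fin g) (Fin g) ℂ) : ℂ :=
  ∑' n : Fin g → ℤ, (∏ i, (n i : ℂ) ^ α i) * dg u B n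

/-- Moments up to order `d` determine discrete Gaussians in dimension `g`. -/
def Determines (g d : ℕ) : Prop :=
  ∀ (u u' : Fin g → ℂ) (B B' : Matrix (Fin g) (Fin g) ℂ), InH B → InH B' →
    theta u B ≠ 0 → theta u' B' ≠ 0 →
    (∀ α : Fin g → ℕ, ∑ i, α i ≤ d → moment α u B = moment α u' B') → dg u B = dg u' B'

end Pool.Agent.H80.Gauss
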