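import Mathlib
import Pool.Agent.H80.GaussDefs

namespace Pool.Agent.H80.Gauss

open Matrix Complex

noncomputable def M (k : ℕ) (q : ℂ) : ℂ := ∑' n : ℤ, (n : ℂ) ^ k * q ^ (n.natAbs ^ 2)

noncomputable def S (k : ℕ) (q : ℂ) : ℂ := ∑' n : ℕ, ((n + 4 : ℕ) : ℂ) ^ k * q ^ ((n + 4) ^ 2)

lemma sq_le (n : ℕ) : (n + 4) ^ 2 ≤ 2 ^ (n + 4) := by
  induction n with
  | zero => norm_num
  | succ n ih =>
    have : 2 ^ (n + 1 + 4) = 2 * 2 ^ (n + 4) := by ring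
    rw [this]; nlinarith [Nat.zero_le n, Nat.zero_le (n ^ 2)]

lemma term_le {k : ℕ} (hk : k ≤ 2) {q : ℂ} (hq : ‖q‖ ≤ 0.62) (n : ℕ) :
    ‖((n + 4 : ℕ) : ℂ) ^ k * q ^ ((n + 4) ^ 2)‖ ≤ 0.0081 * 0.3 ^ n := by
  rw [norm_mul, norm_pow, norm_pow, Complex.norm_natCast]
  have h1 : ((n + 4 : ℕ) : ℝ) ^ k ≤ 2 ^ (n + 4) := by
    have : (n + 4) ^ k ≤ 2 ^ (n + 4) := (Nat.pow_le_pow_right (by omega) hk).trans (sq_le n)
    exact_mod_cast this
  have h2 : ‖q‖ ^ ((n + 4) ^ 2) ≤ 0.15 ^ (n + 4) := by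
    calc ‖q‖ ^ ((n + 4) ^ 2) ≤ 0.62 ^ ((n + 4) ^ 2) := pow_le_pow_left₀ (norm_nonneg _) hq _
      _ ≤ 0.62 ^ (4 * (n + 4)) := pow_le_pow_of_le_one (by norm_num) (by norm_num) (by nlinarith)
      _ = (0.62 ^ 4) ^ (n + 4) := by rw [pow_mul]
      _ ≤ 0.15 ^ (n + 4) := pow_le_pow_left₀ (by norm_num) (by norm_num) _
  calc _ ≤ (2 : ℝ) ^ (n + 4) * 0.15 ^ (n + 4) := mul_le_mul h1 h2 (by positivity) (by positivity)
    _ = 0.3 ^ (n + 4) := by rw [← mul_pow]; norm_num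
    _ = _ := by rw [pow_add]; norm_num; ring

lemma geo : HasSum (fun n : ℕ => (0.0081 : ℝ) * 0.3 ^ n) (0.0081 * (1 - 0.3)⁻¹) :=
  (hasSum_geometric_of_lt_one (by norm_num) (by norm_num)).mul_left _

lemma S_norm {k : ℕ} (hk : k ≤ 2) {q : ℂ} (hq : ‖q‖ ≤ 0.62) : ‖S k q‖ ≤ 0.012 :=
  (tsum_of_norm_bounded geo (term_le hk hq)).trans (by norm_num)

lemma S_cont {k : ℕ} (hk : k ≤ 2) : ContinuousOn (S k) {q | ‖q‖ ≤ 0.62} :=
  continuousOn_tsum (fun n => by fun_prop) geo.summable (fun n q hq => term_le hk hq n)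

lemma M_even {k : ℕ} (hk : k ≤ 2) (he : Even k) {q : ℂ} (hq : ‖q‖ ≤ 0.62) :
    M k q = 0 ^ k + 2 * (q + 2 ^ k * q ^ 4 + 3 ^ k * q ^ 9 + S k q) := by
  have h0 : Summable (fun n : ℕ => ((n + 4 : ℕ) : ℂ) ^ k * q ^ ((n + 4) ^ 2)) :=
    Summable.of_norm_bounded geo.summable (term_le hk hq)
  have h1 : HasSum (fun n : ℕ => ((n : ℕ) : ℂ) ^ k * q ^ (n ^ 2))
      (S k q + ∑ n ∈ Finset.range 4, ((n : ℕ) : ℂ) ^ k * q ^ (n ^ 2)) :=
    (hasSum_nat_add_iff 4).1 h0.hasSum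
  have h2 : HasSum (fun n : ℕ => ((n + 1 : ℕ) : ℂ) ^ k * q ^ ((n + 1) ^ 2))
      (S k q + ∑ n ∈ Finset.range 3, ((n + 1 : ℕ) : ℂ) ^ k * q ^ ((n + 1) ^ 2)) :=
    (hasSum_nat_add_iff 3).1 h0.hasSum
  have h3 : HasSum (fun n : ℤ => (n : ℂ) ^ k * q ^ (n.natAbs ^ 2)) _ :=
    HasSum.of_nat_of_neg_add_one (f := fun n : ℤ => (n : ℂ) ^ k * q ^ (n.natAbs ^ 2))
      (by simpa using h1) (by
        convert h2 using 2 with n
        have : (-((n : ℤ) + 1)).natAbs = n + 1 := by omega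
        rw [this]
        push_cast
        rw [he.neg_pow])
  rw [M, h3.tsum_eq]
  simp [Finset.sum_range_succ]
  ring

lemma M_odd {k : ℕ} (ho : Odd k) (q : ℂ) : M k q = 0 := by
  have h := (Equiv.neg ℤ).tsum_eq (fun n : ℤ => (n : ℂ) ^ k * q ^ (n.natAbs ^ 2))
  simp only [Equiv.neg_apply, Int.cast_neg, Int.natAbs_neg, ho.neg_pow, neg_mul, tsum_neg] at h
  unfold M
  linear_combination (-1 / 2 : ℂ) * h

lemma M_conj (k : ℕ) (q : ℂ) : M k (starRingEnd ℂ q) = starRingEnd ℂ (M k q) := by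
  unfold M
  rw [Complex.conj_tsum]
  simp

noncomputable def qq (s : ℝ) : ℂ := s * (1 + 4 * I)

lemma qq_norm {s : ℝ} (hs : s ∈ Set.Icc (0.05 : ℝ) 0.15) : ‖qq s‖ ≤ 0.62 := by
  have h : ‖qq s‖ ^ 2 ≤ 0.62 ^ 2 := by
    rw [Complex.sq_norm, Complex.normSq_apply]
    simp [qq]
    nlinarith [hs.1, hs.2]
  exact (pow_le_pow_iff_left₀ (norm_nonneg _) (by norm_num) (by norm_num)).1 h

noncomputable def F (s : ℝ) : ℝ := (M 2 (qq s) * starRingEnd ℂ (M 0 (qq s))).im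

lemma F_cont : ContinuousOn F (Set.Icc (0.05 : ℝ) 0.15) := by
  have hq : Continuous qq := by unfold qq; fun_prop
  have h0 := (S_cont (k := 0) (by norm_num)).comp hq.continuousOn (fun s hs => qq_norm hs)
  have h2 := (S_cont (k := 2) (by norm_num)).comp hq.continuousOn (fun s hs => qq_norm hs)
  have h : ContinuousOn (fun s => ((0 ^ 2 + 2 * (qq s + 2 ^ 2 * qq s ^ 4 + 3 ^ 2 * qq s ^ 9 + (S 2 ∘ qq) s)) *
      starRingEnd ℂ (0 ^ 0 + 2 * (qq s + 2 ^ 0 * qq s ^ 4 + 3 ^ 0 * qq s ^ 9 + (S 0 ∘ qq) s))).im)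
      (Set.Icc (0.05 : ℝ) 0.15) := by
    refine Complex.continuous_im.comp_continuousOn (ContinuousOn.mul ?_ ?_)
    · fun_prop
    · exact Complex.continuous_conj.comp_continuousOn (by fun_prop)
  refine h.congr fun s hs => ?_
  simp only [F, Function.comp]
  rw [M_even (by norm_num) (by norm_num) (qq_norm hs), M_even (by norm_num) (by norm_num) (qq_norm hs)]

lemma pow4 : (1 + 4 * I : ℂ) ^ 4 = 161 - 240 * I := by
  have : I ^ 2 = -1 := I_sq
  linear_combination (256 * I ^ 2 + 256 * I - 160) * this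

lemma pow9 : (1 + 4 * I : ℂ) ^ 9 = 277441 - 203996 * I := by
  have h : (1 + 4 * I : ℂ) ^ 9 = ((1 + 4 * I : ℂ) ^ 4) ^ 2 * (1 + 4 * I) := by ring
  rw [h, pow4]
  have : I ^ 2 = -1 := I_sq
  linear_combination (230400 * I - 251520) * this

lemma F_eq {s : ℝ} (hs : s ∈ Set.Icc (0.05 : ℝ) 0.15) : ∃ a b c d : ℝ, |a| ≤ 0.012 ∧ |b| ≤ 0.012 ∧
    |c| ≤ 0.012 ∧ |d| ≤ 0.012 ∧
    (M 0 (qq s)).re = 1 + 2 * (s + 161 * s ^ 4 + 277441 * s ^ 9 + a) ∧
    F s = 2 * (4 * s - 960 * s ^ 4 - 9 * 203996 * s ^ 9 + d) *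
      (1 + 2 * (s + 161 * s ^ 4 + 277441 * s ^ 9 + a)) -
      2 * (s + 644 * s ^ 4 + 9 * 277441 * s ^ 9 + c) *
        (2 * (4 * s - 240 * s ^ 4 - 203996 * s ^ 9 + b)) := by
  have h0 := S_norm (k := 0) (by norm_num) (qq_norm hs)
  have h2 := S_norm (k := 2) (by norm_num) (qq_norm hs)
  refine ⟨(S 0 (qq s)).re, (S 0 (qq s)).im, (S 2 (qq s)).re, (S 2 (qq s)).im,
    (abs_re_le_norm _).trans h0, (abs_im_le_norm _).trans h0, (abs_re_le_norm _).trans h2,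
    (abs_im_le_norm _).trans h2, ?_, ?_⟩
  · rw [M_even (by norm_num) (by norm_num) (qq_norm hs)]
    generalize S 0 (qq s) = z
    simp only [qq, mul_pow, pow4, pow9, ← Complex.ofReal_pow]
    generalize s ^ 4 = s4
    generalize s ^ 9 = s9
    simp
    ring
  · rw [F, M_even (by norm_num) (by norm_num) (qq_norm hs), M_even (by norm_num) (by norm_num) (qq_norm hs)]
    generalize S 0 (qq s) = z
    generalize S 2 (qq s) = y
    simp only [qq, mul_pow, pow4, pow9, ← Complex.ofReal_pow]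
    generalize s ^ 4 = s4
    generalize s ^ 9 = s9
    norm_num
    ring

lemma exists_root : ∃ s ∈ Set.Icc (0.05 : ℝ) 0.15, F s = 0 := by
  have h1 : F 0.15 ≤ 0 := by
    obtain ⟨a, b, c, d, ha, hb, hc, hd, -, h⟩ := F_eq (s := 0.15) ⟨by norm_num, by norm_num⟩
    rw [h, abs_le] at *
    nlinarith
  have h2 : 0 ≤ F 0.05 := by
    obtain ⟨a, b, c, d, ha, hb, hc, hd, -, h⟩ := F_eq (s := 0.05) ⟨by norm_num, by norm_num⟩
    rw [h, abs_le] at *
    nlinarith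
  exact intermediate_value_Icc' (by norm_num) F_cont ⟨h1, h2⟩

lemma M0_ne {s : ℝ} (hs : s ∈ Set.Icc (0.05 : ℝ) 0.15) : M 0 (qq s) ≠ 0 := by
  obtain ⟨a, b, c, d, ha, -, -, -, h, -⟩ := F_eq hs
  intro h0
  rw [h0] at h
  rw [abs_le] at ha
  have : 0 ≤ s := by linarith [hs.1]
  have h4 : 0 ≤ s ^ 4 := by positivity
  have h9 : 0 ≤ s ^ 9 := by positivity
  rw [Complex.zero_re] at h
  linarith

noncomputable def Bq (q : ℂ) : Matrix (Fin 1) (Fin 1) ℂ := fun _ _ => -Complex.log q / Real.pi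

lemma wt_eq {q : ℂ} (hq : q ≠ 0) (n : Fin 1 → ℤ) : wt 0 (Bq q) n = q ^ ((n 0).natAbs ^ 2) := by
  have hπ : (Real.pi : ℂ) ≠ 0 := by exact_mod_cast Real.pi_ne_zero
  unfold wt
  conv_rhs => rw [← Complex.exp_log hq, ← Complex.exp_nat_mul]
  congr 1
  have : (((n 0).natAbs ^ 2 : ℕ) : ℂ) = (n 0 : ℂ) ^ 2 := by
    have : (((n 0).natAbs ^ 2 : ℕ) : ℤ) = n 0 ^ 2 := by push_cast; exact sq_abs _
    have h2 := congrArg (Int.cast : ℤ → ℂ) this
    rw [Int.cast_natCast, Int.cast_pow] at h2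
    exact h2
  rw [this]
  simp [dotProduct, mulVec, Bq]
  field_simp

lemma theta_eq {q : ℂ} (hq : q ≠ 0) : theta 0 (Bq q) = M 0 q := by
  unfold theta M
  rw [← (Equiv.funUnique (Fin 1) ℤ).tsum_eq]
  simp [wt_eq hq]

lemma moment_eq {q : ℂ} (hq : q ≠ 0) (α : Fin 1 → ℕ) : moment α 0 (Bq q) = M (α 0) q / M 0 q := by
  unfold moment dg
  rw [theta_eq hq]
  generalize M 0 q = t
  rw [M, ← tsum_div_const, ← (Equiv.funUnique (Fin 1) ℤ).tsum_eq]
  simp [wt_eq hq, mul_div_assoc]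

lemma inH {q : ℂ} (hq : q ≠ 0) (h1 : ‖q‖ < 1) : InH (Bq q) := by
  refine ⟨by ext i j; rfl, ?_⟩
  have : (Bq q).map Complex.re = Matrix.diagonal (fun _ => -Real.log ‖q‖ / Real.pi) := by
    ext i j
    have : i = j := Subsingleton.elim _ _
    subst this
    simp [Bq, Complex.div_ofReal_re, Complex.log_re]
  rw [this]
  refine Matrix.PosDef.diagonal fun _ => div_pos ?_ Real.pi_pos
  exact neg_pos.2 (Real.log_neg (norm_pos_iff.2 hq) h1)

theorem main : ¬ Determines 1 3 := by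
  obtain ⟨s, hs, hF⟩ := exists_root
  have him : (qq s).im = 4 * s := by simp [qq]; ring
  have hs0 : 0 < s := by linarith [hs.1]
  have hq : qq s ≠ 0 := fun h => by rw [h] at him; simp at him; linarith
  have hq' : starRingEnd ℂ (qq s) ≠ 0 := by simpa using hq
  have hn : ‖qq s‖ < 1 := (qq_norm hs).trans_lt (by norm_num)
  have h0 := M0_ne hs
  have h0' : starRingEnd ℂ (M 0 (qq s)) ≠ 0 := by simpa using h0
  intro h
  have := h 0 0 (Bq (qq s)) (Bq (starRingEnd ℂ (qq s))) (inH hq hn) (inH hq' (by simpa using hn))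
    (by rw [theta_eq hq]; exact h0) (by rw [theta_eq hq', M_conj]; exact h0') (by
      intro α hα
      rw [moment_eq hq, moment_eq hq', M_conj, M_conj]
      have : α 0 ≤ 3 := by simpa using hα
      generalize α 0 = k at *
      interval_cases k
      · rw [div_self h0, div_self h0']
      · simp [M_odd (k := 1) (by norm_num)]
      · rw [div_eq_div_iff h0 h0']
        have := Complex.conj_eq_iff_im.2 hF
        rw [← this]; simp
      · simp [M_odd (k := 3) (by norm_num)])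
  have e0 := congrFun this (fun _ => 0)
  have e1 := congrFun this (fun _ => 1)
  simp only [dg, wt_eq hq, wt_eq hq', theta_eq hq, theta_eq hq', M_conj] at e0 e1
  simp only [Int.natAbs_zero, Int.natAbs_one, one_pow, pow_one, ne_eq, OfNat.ofNat_ne_zero,
    not_false_eq_true, zero_pow, pow_zero] at e0 e1
  have e2 : M 0 (qq s) = starRingEnd ℂ (M 0 (qq s)) := by
    field_simp at e0; exact e0.symm
  rw [← e2, div_left_inj' h0] at e1
  have := Complex.conj_eq_iff_im.1 e1.symm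
  linarith

end Pool.Agent.H80.Gauss
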