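import Mathlib

namespace Pool.Agent.H80.Genus

/-- The differentials of the function field `K / k` that are regular at every place, i.e. that
lie in `O · dO` for every valuation ring `O` of `K` containing `k`. -/
def regDiff (k K : Type) [Field k] [Field K] [Algebra k K] : Submodule k (KaehlerDifferential k K) where
  carrier := {ω | ∀ O : ValuationSubring K, (∀ c, algebraMap k K c ∈ O) →
    ω ∈ AddSubmonoid.closure {η | ∃ a ∈ O, ∃ b ∈ O, η = a • KaehlerDifferential.D k K b}}
  add_mem' := fun ha hb O hO => AddSubmonoid.add_mem _ (ha O hO) (hb O hO)
  zero_mem' := fun _ _ => AddSubmonoid.zero_mem _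
  smul_mem' := fun c ω hω O hO => by
    have h := hω O hO
    clear hω
    induction h using AddSubmonoid.closure_induction with
    | mem η hη =>
      obtain ⟨a, ha, b, hb, rfl⟩ := hη
      exact AddSubmonoid.subset_closure ⟨algebraMap k K c * a, O.mul_mem _ _ (hO c) ha, b, hb, by
        rw [mul_smul, algebraMap_smul]⟩
    | zero => simp
    | add x y _ _ hx hy => rw [smul_add]; exact AddSubmonoid.add_mem _ hx hy

/-- The genus of the non-singular projective curve with function field `K`: the dimension of the
space of regular differentials. -/
noncomputable def genus (k K : Type) [Field k] [Field K] [Algebra k K] : Cardinal :=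
  Module.rank k (regDiff k K)

end Pool.Agent.H80.Genus
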