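import Mathlib
import Pool.Agent.H80.GenusDefs

namespace Pool.Agent.H80.Genus
open Polynomial

variable {K : Type} [Field K] [Algebra ℂ K]

lemma exists_point {R : Type} [CommRing R] [Algebra ℂ R] [Algebra.FiniteType ℂ R] (m : Ideal R)
    [m.IsMaximal] : ∃ φ : R →ₐ[ℂ] ℂ, m = RingHom.ker φ := by
  let := Ideal.Quotient.field m
  have : Module.Finite ℂ (R ⧸ m) := finite_of_finite_type_of_isJacobsonRing _ _
  let e := AlgEquiv.ofBijective (Algebra.ofId ℂ (R ⧸ m))
    (IsAlgClosed.algebraMap_bijective_of_isIntegral (k := ℂ) (K := R ⧸ m))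
  refine ⟨e.symm.toAlgHom.comp (Ideal.Quotient.mkₐ ℂ m), ?_⟩
  ext x
  simp [RingHom.mem_ker, Ideal.Quotient.eq_zero_iff_mem]

structure Chart (K : Type) [Field K] [Algebra ℂ K] where
  s : K
  y : K
  f : ℂ[X]
  T : Finset K
  hy : y ^ 2 = aeval s f
  hsep : ∀ a, f.eval a = 0 → f.derivative.eval a ≠ 0
  hT : ∀ t ∈ T, t * s = 1
  hs : ∀ c, s ≠ algebraMap ℂ K c
  y0 : y ≠ 0
  hfr : ∀ x : K, ∃ a ∈ Algebra.adjoin ℂ (insert s (insert y (T : Set K))),
    ∃ b ∈ Algebra.adjoin ℂ (insert s (insert y (T : Set K))), b ≠ 0 ∧ x * b = a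

namespace Chart
variable (c : Chart K)

abbrev R : Subalgebra ℂ K := Algebra.adjoin ℂ (insert c.s (insert c.y (c.T : Set K)))

def sR : c.R := ⟨c.s, Algebra.subset_adjoin (by simp)⟩
def yR : c.R := ⟨c.y, Algebra.subset_adjoin (by simp)⟩

lemma fg : c.R.FG := by
  classical
  exact ⟨insert c.s (insert c.y c.T), by simp⟩

instance : Algebra.FiniteType ℂ c.R := (Subalgebra.fg_iff_finiteType _).1 c.fg

instance : IsNoetherianRing c.R := Algebra.FiniteType.isNoetherianRing ℂ _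

lemma hyR : c.yR ^ 2 = aeval c.sR c.f := Subtype.ext (by
  have := aeval_algHom_apply c.R.val c.sR c.f
  exact c.hy.trans this)

lemma sub_mem (φ : c.R →ₐ[ℂ] ℂ) (r : c.R) : r - algebraMap ℂ _ (φ r) ∈
    Ideal.span {c.sR - algebraMap ℂ _ (φ c.sR), c.yR - algebraMap ℂ _ (φ c.yR)} := by
  obtain ⟨r, hr⟩ := r
  induction hr using Algebra.adjoin_induction with
  | mem x hx =>
    rcases hx with rfl | rfl | hx
    · exact Ideal.subset_span (Or.inl rfl)
    · exact Ideal.subset_span (Or.inr rfl)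
    · set t : c.R := ⟨x, Algebra.subset_adjoin (Or.inr (Or.inr hx))⟩
      have h1 : t * c.sR = 1 := Subtype.ext (c.hT x hx)
      have h2 : algebraMap ℂ c.R (φ t) * algebraMap ℂ c.R (φ c.sR) = 1 := by
        rw [← map_mul, ← map_mul, h1, map_one, map_one]
      have := Ideal.mul_mem_left _ (-t * algebraMap ℂ c.R (φ t)) (Ideal.subset_span (s :=
        {c.sR - algebraMap ℂ _ (φ c.sR), c.yR - algebraMap ℂ _ (φ c.yR)}) (Or.inl rfl))
      convert this using 1
      linear_combination (-t) * h2 + algebraMap ℂ c.R (φ t) * h1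
  | algebraMap a =>
    change algebraMap ℂ c.R a - algebraMap ℂ c.R (φ (algebraMap ℂ c.R a)) ∈ _
    simp
  | add a b ha hb iha ihb =>
    have := Ideal.add_mem _ iha ihb
    change (⟨a, ha⟩ + ⟨b, hb⟩ : c.R) - algebraMap ℂ c.R (φ (⟨a, ha⟩ + ⟨b, hb⟩)) ∈ _
    convert this using 1
    simp only [map_add]; ring
  | mul a b ha hb iha ihb =>
    have := Ideal.add_mem _ (Ideal.mul_mem_right ⟨b, hb⟩ _ iha)
      (Ideal.mul_mem_left _ (algebraMap ℂ c.R (φ ⟨a, ha⟩)) ihb)
    change (⟨a, ha⟩ * ⟨b, hb⟩ : c.R) - algebraMap ℂ c.R (φ (⟨a, ha⟩ * ⟨b, hb⟩)) ∈ _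
    convert this using 1
    simp only [map_mul]; ring

lemma uniformizer (φ : c.R →ₐ[ℂ] ℂ) : ∃ π : c.R, φ π = 0 ∧
    ∀ r : c.R, φ r = 0 → ∃ a b : c.R, φ b ≠ 0 ∧ r * b = π * a := by
  obtain ⟨g, hg⟩ : X - C (φ c.sR) ∣ c.f - C (c.f.eval (φ c.sR)) := dvd_iff_isRoot.2 (by simp)
  have hg' : g.eval (φ c.sR) = c.f.derivative.eval (φ c.sR) := by
    have := congrArg (fun p => (derivative p).eval (φ c.sR)) hg
    simpa using this.symm
  have hf : c.f.eval (φ c.sR) = φ c.yR ^ 2 := by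
    rw [← map_pow, hyR, ← aeval_algHom_apply, coe_aeval_eq_eval]
  have hφg : φ (aeval c.sR g) = g.eval (φ c.sR) := by
    rw [← aeval_algHom_apply, coe_aeval_eq_eval]
  have key : c.yR ^ 2 - algebraMap ℂ _ (φ c.yR) ^ 2 =
      (c.sR - algebraMap ℂ _ (φ c.sR)) * aeval c.sR g := by
    have := congrArg (aeval c.sR) hg
    simpa [hf, ← hyR] using this
  by_cases h0 : φ c.yR = 0
  · refine ⟨c.yR, h0, fun r hr => ?_⟩
    have := c.sub_mem φ r
    rw [hr, h0, map_zero, sub_zero, sub_zero, Ideal.mem_span_pair] at this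
    obtain ⟨p, q, rfl⟩ := this
    refine ⟨p * c.yR + q * aeval c.sR g, aeval c.sR g, ?_, ?_⟩
    · rw [hφg, hg']; exact c.hsep _ (by rw [hf, h0]; simp)
    · rw [h0, map_zero] at key
      linear_combination (-p) * key
  · refine ⟨c.sR - algebraMap ℂ _ (φ c.sR), by simp, fun r hr => ?_⟩
    have := c.sub_mem φ r
    rw [hr, map_zero, sub_zero, Ideal.mem_span_pair] at this
    obtain ⟨p, q, rfl⟩ := this
    refine ⟨p * (c.yR + algebraMap ℂ _ (φ c.yR)) + q * aeval c.sR g,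
      c.yR + algebraMap ℂ _ (φ c.yR), ?_, ?_⟩
    · simpa [← two_mul] using h0
    · linear_combination q * key

lemma dvr (m : Ideal c.R) [hm : m.IsMaximal] :
    IsDiscreteValuationRing (Localization.AtPrime m) := by
  obtain ⟨φ, hφ⟩ := exists_point m
  obtain ⟨π, hπ, h⟩ := c.uniformizer φ
  have hmem : ∀ r, r ∈ m ↔ φ r = 0 := fun r => by rw [hφ]; rfl
  have hnf : ¬ IsField (Localization.AtPrime m) := by
    rw [IsLocalRing.isField_iff_maximalIdeal_eq, ← Localization.AtPrime.map_eq_maximalIdeal]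
    intro hb
    have h1 := Ideal.mem_map_of_mem (algebraMap c.R (Localization.AtPrime m))
      ((hmem (c.sR - algebraMap ℂ _ (φ c.sR))).2 (by simp))
    rw [hb, Ideal.mem_bot, map_eq_zero_iff _ (IsLocalization.injective _
      m.primeCompl_le_nonZeroDivisors), sub_eq_zero] at h1
    exact c.hs _ (congrArg Subtype.val h1)
  refine ((IsDiscreteValuationRing.TFAE _ hnf).out 0 4).2
    (Submodule.IsPrincipal.mk ⟨algebraMap c.R _ π, ?_⟩)
  rw [← Localization.AtPrime.map_eq_maximalIdeal]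
  apply le_antisymm
  · rw [Ideal.map_le_iff_le_comap]
    intro r hr
    obtain ⟨a, b, hb, hab⟩ := h r ((hmem r).1 hr)
    have hu : IsUnit (algebraMap c.R (Localization.AtPrime m) b) :=
      IsLocalization.map_units (M := m.primeCompl) _ ⟨b, fun hb' => hb ((hmem b).1 hb')⟩
    rw [Ideal.mem_comap, Ideal.submodule_span_eq, ← Ideal.mul_unit_mem_iff_mem _ hu, ← map_mul, hab,
      map_mul]
    exact Ideal.mul_mem_right _ _ (Ideal.mem_span_singleton_self _)
  · rw [Ideal.submodule_span_eq, Ideal.span_singleton_le_iff_mem]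
    exact Ideal.mem_map_of_mem _ ((hmem π).2 hπ)

def O (φ : c.R →ₐ[ℂ] ℂ) : ValuationSubring K where
  carrier := {x | ∃ a b : c.R, φ b ≠ 0 ∧ x * b = a}
  mul_mem' := by
    rintro x x' ⟨a, b, hb, h⟩ ⟨a', b', hb', h'⟩
    exact ⟨a * a', b * b', by simp [hb, hb'], by push_cast; rw [← h, ← h']; ring⟩
  one_mem' := ⟨1, 1, by simp, by simp⟩
  add_mem' := by
    rintro x x' ⟨a, b, hb, h⟩ ⟨a', b', hb', h'⟩
    exact ⟨a * b' + a' * b, b * b', by simp [hb, hb'], by push_cast; rw [← h, ← h']; ring⟩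
  zero_mem' := ⟨0, 1, by simp, by simp⟩
  neg_mem' := by
    rintro x ⟨a, b, hb, h⟩
    exact ⟨-a, b, hb, by push_cast; rw [← h]; ring⟩
  mem_or_inv_mem' := fun x => by
    have hm : (RingHom.ker φ).IsMaximal :=
      RingHom.ker_isMaximal_of_surjective _ fun a => ⟨algebraMap ℂ _ a, by simp⟩
    have := c.dvr (RingHom.ker φ)
    obtain ⟨a, ha, b, hb, hb0, hx⟩ := c.hfr x
    obtain ⟨z, hz⟩ := ValuationRing.cond
      (algebraMap c.R (Localization.AtPrime (RingHom.ker φ)) ⟨a, ha⟩) (algebraMap c.R _ ⟨b, hb⟩)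
    obtain ⟨⟨p, q⟩, hpq⟩ := IsLocalization.surj (RingHom.ker φ).primeCompl z
    have inj := IsLocalization.injective (Localization.AtPrime (RingHom.ker φ))
      (RingHom.ker φ).primeCompl_le_nonZeroDivisors
    rcases hz with hz | hz
    · right
      have : (⟨a, ha⟩ : c.R) * p = ⟨b, hb⟩ * q := inj (by
        rw [map_mul, map_mul, ← hpq, ← hz, mul_assoc])
      have h2 : a * p = b * (q : c.R) := congrArg Subtype.val this
      by_cases hx0 : x = 0
      · exact ⟨0, 1, by simp, by simp [hx0]⟩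
      refine ⟨p, q, q.2, ?_⟩
      rw [← hx] at h2
      field_simp
      exact mul_left_cancel₀ hb0 (by rw [← h2]; ring)
    · left
      have : (⟨b, hb⟩ : c.R) * p = ⟨a, ha⟩ * q := inj (by
        rw [map_mul, map_mul, ← hpq, ← hz, mul_assoc])
      have h2 : b * p = a * (q : c.R) := congrArg Subtype.val this
      refine ⟨p, q, q.2, ?_⟩
      rw [← hx] at h2
      exact mul_left_cancel₀ hb0 (by rw [h2]; ring)

noncomputable def w : KaehlerDifferential ℂ K := c.y⁻¹ • KaehlerDifferential.D ℂ K c.s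

lemma dR {r : K} (hr : r ∈ c.R) : ∃ e ∈ c.R, KaehlerDifferential.D ℂ K r = e • c.w := by
  have hs : KaehlerDifferential.D ℂ K c.s = c.y • c.w := by
    rw [w, smul_smul, mul_inv_cancel₀ c.y0, one_smul]
  induction hr using Algebra.adjoin_induction with
  | mem x hx =>
    rcases hx with rfl | rfl | hx
    · exact ⟨c.y, c.yR.2, hs⟩
    · refine ⟨aeval c.s (C (2⁻¹ : ℂ) * c.f.derivative), ?_, ?_⟩
      · exact Algebra.adjoin_mono (by simp) (aeval_mem_adjoin_singleton ℂ c.s)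
      · have := congrArg (KaehlerDifferential.D ℂ K) c.hy
        rw [Derivation.map_aeval, Derivation.leibniz_pow, hs] at this
        have h2 : (2 : K) ≠ 0 := by
          have := (algebraMap ℂ K).injective.ne (two_ne_zero (α := ℂ))
          rwa [map_ofNat, map_zero] at this
        apply smul_right_injective _ (mul_ne_zero h2 c.y0)
        simp only [Nat.add_one_sub_one, pow_one, smul_smul] at this ⊢
        rw [mul_smul, two_smul, ← two_nsmul, this, map_mul, aeval_C, map_inv₀, map_ofNat]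
        congr 1
        field_simp
    · refine ⟨-x ^ 2 * c.y, c.R.mul_mem (c.R.neg_mem (c.R.pow_mem
        (Algebra.subset_adjoin (Or.inr (Or.inr hx))) 2)) c.yR.2, ?_⟩
      have h1 := c.hT x hx
      have := congrArg (KaehlerDifferential.D ℂ K) h1
      rw [Derivation.leibniz, Derivation.map_one_eq_zero, hs, add_eq_zero_iff_eq_neg'] at this
      have h2 := congrArg (fun z => x • z) this
      simp only [smul_smul, h1, one_smul, smul_neg] at h2
      rw [h2, ← neg_smul]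
      congr 1
      ring
  | algebraMap a => exact ⟨0, c.R.zero_mem, by simp⟩
  | add a b _ _ iha ihb =>
    obtain ⟨e, he, h⟩ := iha
    obtain ⟨e', he', h'⟩ := ihb
    exact ⟨e + e', c.R.add_mem he he', by rw [map_add, h, h', add_smul]⟩
  | mul a b ha hb iha ihb =>
    obtain ⟨e, he, h⟩ := iha
    obtain ⟨e', he', h'⟩ := ihb
    exact ⟨a * e' + b * e, c.R.add_mem (c.R.mul_mem ha he') (c.R.mul_mem hb he), by
      rw [Derivation.leibniz, h, h', add_smul, smul_smul, smul_smul]⟩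

lemma mem_O (φ : c.R →ₐ[ℂ] ℂ) {r : K} (hr : r ∈ c.R) : r ∈ c.O φ :=
  ⟨⟨r, hr⟩, 1, by simp, by simp⟩

lemma dO (φ : c.R →ₐ[ℂ] ℂ) {x : K} (hx : x ∈ c.O φ) :
    ∃ e ∈ c.O φ, KaehlerDifferential.D ℂ K x = e • c.w := by
  obtain ⟨a, b, hb, h⟩ := id hx
  obtain ⟨ea, hea, ha⟩ := c.dR a.2
  obtain ⟨eb, heb, hb'⟩ := c.dR b.2
  have hb0 : (b : K) ≠ 0 := fun h0 => hb (by rw [show b = 0 from Subtype.ext h0, map_zero])
  have hbi : (b : K)⁻¹ ∈ c.O φ := ⟨1, b, hb, by simp [hb0]⟩
  refine ⟨(b : K)⁻¹ * (ea - x * eb), mul_mem hbi (_root_.sub_mem (c.mem_O φ hea)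
    (mul_mem hx (c.mem_O φ heb))), ?_⟩
  have := congrArg (KaehlerDifferential.D ℂ K) h
  rw [Derivation.leibniz, ha, hb', ← eq_sub_iff_add_eq'] at this
  rw [mul_smul, sub_smul, mul_smul, ← this, smul_smul, inv_mul_cancel₀ hb0, one_smul]

lemma reg {ω : KaehlerDifferential ℂ K} (hω : ω ∈ regDiff ℂ K) : ∃ h ∈ c.R, ω = h • c.w := by
  have h1 : ∀ φ : c.R →ₐ[ℂ] ℂ, ∃ h ∈ c.O φ, ω = h • c.w := fun φ => by
    have := hω (c.O φ) fun a => c.mem_O φ (c.R.algebraMap_mem a)
    clear hω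
    induction this using AddSubmonoid.closure_induction with
    | mem η hη =>
      obtain ⟨a, ha, b, hb, rfl⟩ := hη
      obtain ⟨e, he, h⟩ := c.dO φ hb
      exact ⟨a * e, mul_mem ha he, by rw [h, smul_smul]⟩
    | zero => exact ⟨0, zero_mem _, by simp⟩
    | add x y _ _ hx hy =>
      obtain ⟨e, he, rfl⟩ := hx
      obtain ⟨e', he', rfl⟩ := hy
      exact ⟨e + e', add_mem he he', by rw [add_smul]⟩
  obtain ⟨m0, hm0⟩ := Ideal.exists_maximal c.R
  obtain ⟨φ0, -⟩ := exists_point m0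
  obtain ⟨h, -, rfl⟩ := h1 φ0
  by_cases hw : c.w = 0
  · exact ⟨0, zero_mem _, by simp [hw]⟩
  refine ⟨h, ?_, rfl⟩
  let J : Ideal c.R :=
    { carrier := {b | h * b ∈ c.R}
      add_mem' := fun {a b} ha hb => by
        change h * (a + b) ∈ c.R
        rw [mul_add]; exact add_mem ha hb
      zero_mem' := by simp
      smul_mem' := fun a b hb => by
        change h * (a * b) ∈ c.R
        rw [mul_left_comm]; exact mul_mem a.2 hb }
  have : J = ⊤ := by
    by_contra hJ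
    obtain ⟨m, hm, hJm⟩ := Ideal.exists_le_maximal J hJ
    obtain ⟨φ, rfl⟩ := exists_point m
    obtain ⟨h', ⟨a, b, hb, hab⟩, he⟩ := h1 φ
    obtain rfl := smul_left_injective K hw he
    exact hb (hJm (show h * b ∈ c.R from hab ▸ a.2))
  have h2 : (1 : c.R) ∈ J := this ▸ Submodule.mem_top
  simpa using (show h * ((1 : c.R) : K) ∈ c.R from h2)

lemma repr (hT : c.T = ∅) {r : K} (hr : r ∈ c.R) :
    ∃ A B : ℂ[X], r = aeval c.s A + aeval c.s B * c.y := by
  induction hr using Algebra.adjoin_induction with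
  | mem x hx =>
    rcases hx with rfl | rfl | hx
    · exact ⟨X, 0, by simp⟩
    · exact ⟨0, 1, by simp⟩
    · simp [hT] at hx
  | algebraMap a => exact ⟨C a, 0, by simp⟩
  | add a b _ _ iha ihb =>
    obtain ⟨A, B, rfl⟩ := iha
    obtain ⟨A', B', rfl⟩ := ihb
    exact ⟨A + A', B + B', by simp only [map_add]; ring⟩
  | mul a b _ _ iha ihb =>
    obtain ⟨A, B, rfl⟩ := iha
    obtain ⟨A', B', rfl⟩ := ihb
    exact ⟨A * A' + B * B' * c.f, A * B' + B * A', by
      simp only [map_add, map_mul, ← c.hy]; ring⟩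

end Chart
end Pool.Agent.H80.Genus
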