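import Mathlib
import Pool.Agent.H80.Genus1

namespace Pool.Agent.H80.Genus
open Polynomial WithZero
open scoped Classical

noncomputable def f1 : ℂ[X] := C 2 * X ^ 5 + 1
noncomputable def f2 : ℂ[X] := X ^ 6 + C 2 * X
noncomputable def gg : RatFunc ℂ := algebraMap ℂ[X] _ f1

lemma f1_deg : f1.natDegree = 5 := by unfold f1; compute_degree!

lemma not_sq (b : RatFunc ℂ) : b ^ 2 ≠ gg := fun h => by
  have h1 : f1 ≠ 0 := fun h => by simpa [h] using f1_deg
  have hb : b ≠ 0 := by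
    rintro rfl
    exact h1 (RatFunc.algebraMap_injective ℂ (by simpa [gg] using h.symm))
  have := congrArg RatFunc.intDegree h
  rw [pow_two, RatFunc.intDegree_mul hb hb, gg, RatFunc.intDegree_polynomial, f1_deg] at this
  omega

instance : Fact (Irreducible (X ^ 2 - C gg)) :=
  ⟨X_pow_sub_C_irreducible_of_prime Nat.prime_two not_sq⟩

def KK : Type := AdjoinRoot (X ^ 2 - C gg)

noncomputable instance : Field KK := AdjoinRoot.instField (f := X ^ 2 - C gg)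
noncomputable instance : Algebra (RatFunc ℂ) KK :=
  inferInstanceAs (Algebra (RatFunc ℂ) (AdjoinRoot (X ^ 2 - C gg)))
noncomputable instance : Algebra ℂ KK := inferInstanceAs (Algebra ℂ (AdjoinRoot (X ^ 2 - C gg)))
instance : IsScalarTower ℂ (RatFunc ℂ) KK :=
  inferInstanceAs (IsScalarTower ℂ (RatFunc ℂ) (AdjoinRoot (X ^ 2 - C gg)))

noncomputable def ι : RatFunc ℂ →ₐ[ℂ] KK := IsScalarTower.toAlgHom ℂ (RatFunc ℂ) KK
noncomputable def ss : KK := ι RatFunc.X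
noncomputable def yy : KK := AdjoinRoot.root _

lemma ι_poly (p : ℂ[X]) : ι (algebraMap ℂ[X] _ p) = aeval ss p := by
  rw [ss, aeval_algHom_apply, RatFunc.aeval_X_left_eq_algebraMap]

lemma yy_sq' : yy ^ 2 = ι gg := by
  have := AdjoinRoot.eval₂_root (X ^ 2 - C gg)
  rw [eval₂_sub, eval₂_X_pow, eval₂_C, sub_eq_zero] at this
  exact this

lemma yy_sq : yy ^ 2 = aeval ss f1 := yy_sq'.trans (ι_poly f1)

lemma indep {a b : RatFunc ℂ} (h : ι a + ι b * yy = 0) : a = 0 ∧ b = 0 := by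
  have hb : b = 0 := by
    by_contra hb
    have hb' : ι b ≠ 0 := (map_ne_zero ι).2 hb
    apply not_sq (-a / b)
    apply ι.toRingHom.injective
    change ι _ = ι _
    rw [← yy_sq', map_pow, map_div₀, map_neg]
    congr 1
    field_simp
    linear_combination -h
  exact ⟨by simpa [hb] using h, hb⟩

lemma decomp (x : KK) : ∃ a b, x = ι a + ι b * yy := by
  have hx : x ∈ Algebra.adjoin (RatFunc ℂ) {yy} := by
    have := AdjoinRoot.adjoinRoot_eq_top (f := X ^ 2 - C gg)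
    exact this.ge trivial
  induction hx using Algebra.adjoin_induction with
  | mem x hx => exact ⟨0, 1, by simpa using hx⟩
  | algebraMap a => exact ⟨a, 0, by simp [ι]⟩
  | add a b _ _ iha ihb =>
    obtain ⟨A, B, rfl⟩ := iha
    obtain ⟨A', B', rfl⟩ := ihb
    exact ⟨A + A', B + B', by simp only [map_add]; ring⟩
  | mul a b _ _ iha ihb =>
    obtain ⟨A, B, rfl⟩ := iha
    obtain ⟨A', B', rfl⟩ := ihb
    exact ⟨A * A' + B * B' * gg, A * B' + B * A', by
      simp only [map_add, map_mul, ← yy_sq']; ring⟩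

lemma ss_ne : ss ≠ 0 := (map_ne_zero ι).2 RatFunc.X_ne_zero

lemma yy_ne : yy ≠ 0 := fun h => one_ne_zero (indep (a := 0) (b := 1) (by simp [h])).2

lemma ss_const (c : ℂ) : ss ≠ algebraMap ℂ KK c := fun h => by
  have h1 : (RatFunc.X : RatFunc ℂ) = algebraMap ℂ _ c :=
    ι.toRingHom.injective (h.trans (ι.commutes c).symm)
  have := congrArg RatFunc.intDegree h1
  rw [RatFunc.intDegree_X, RatFunc.algebraMap_eq_C, RatFunc.intDegree_C] at this
  exact one_ne_zero this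

def Fr (R : Subalgebra ℂ KK) : Subalgebra ℂ KK where
  carrier := {x | ∃ a ∈ R, ∃ b ∈ R, b ≠ 0 ∧ x * b = a}
  mul_mem' := by
    rintro x x' ⟨a, ha, b, hb, h0, h⟩ ⟨a', ha', b', hb', h0', h'⟩
    exact ⟨a * a', mul_mem ha ha', b * b', mul_mem hb hb', mul_ne_zero h0 h0', by
      rw [← h, ← h']; ring⟩
  add_mem' := by
    rintro x x' ⟨a, ha, b, hb, h0, h⟩ ⟨a', ha', b', hb', h0', h'⟩
    exact ⟨a * b' + a' * b, add_mem (mul_mem ha hb') (mul_mem ha' hb), b * b', mul_mem hb hb',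
      mul_ne_zero h0 h0', by rw [← h, ← h']; ring⟩
  algebraMap_mem' := fun c => ⟨_, R.algebraMap_mem c, 1, one_mem _, one_ne_zero, mul_one _⟩

lemma fr_all (R : Subalgebra ℂ KK) (hs : ss ∈ Fr R) (hy : yy ∈ Fr R) (x : KK) : x ∈ Fr R := by
  have h1 : ∀ p : ℂ[X], aeval ss p ∈ Fr R := fun p =>
    Algebra.adjoin_le (by simpa using hs) (aeval_mem_adjoin_singleton ℂ ss)
  have h2 : ∀ z ∈ Fr R, z⁻¹ ∈ Fr R := by
    rintro z ⟨a, ha, b, hb, h0, h⟩
    by_cases hz : z = 0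
    · rw [hz, inv_zero]; exact zero_mem _
    · exact ⟨b, hb, a, ha, h ▸ mul_ne_zero hz h0, by rw [← h]; field_simp⟩
  have h3 : ∀ a, ι a ∈ Fr R := fun a => by
    rw [← RatFunc.num_div_denom a, map_div₀, ι_poly, ι_poly, div_eq_mul_inv]
    exact mul_mem (h1 _) (h2 _ (h1 _))
  obtain ⟨a, b, rfl⟩ := decomp x
  exact add_mem (h3 a) (mul_mem (h3 b) hy)

lemma mem_Fr {R : Subalgebra ℂ KK} {x : KK} (h : x ∈ R) : x ∈ Fr R :=
  ⟨x, h, 1, one_mem _, one_ne_zero, mul_one _⟩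

lemma sep1 (a : ℂ) (h : f1.eval a = 0) : f1.derivative.eval a ≠ 0 := by
  simp [f1] at h ⊢
  refine ⟨by norm_num, ?_⟩
  rintro rfl
  simp at h

lemma sep2 (a : ℂ) (h : f2.eval a = 0) : f2.derivative.eval a ≠ 0 := by
  simp [f2] at h ⊢
  intro h'
  have h1 : a * 10 = 0 := by linear_combination 6 * h - a * h'
  have : a = 0 := by simpa using h1
  simp [this] at h'

noncomputable def c1 (T : Finset KK) (hT : ∀ t ∈ T, t * ss = 1) : Chart KK where
  s := ss
  y := yy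
  f := f1
  T := T
  hy := yy_sq
  hsep := sep1
  hT := hT
  hs := ss_const
  y0 := yy_ne
  hfr := fr_all _ (mem_Fr (Algebra.subset_adjoin (by simp))) (mem_Fr (Algebra.subset_adjoin (by simp)))

noncomputable def c2 : Chart KK where
  s := ss⁻¹
  y := yy * ss⁻¹ ^ 3
  f := f2
  T := ∅
  hy := by
    have := ss_ne
    rw [mul_pow, yy_sq]
    simp only [f1, f2, map_add, map_mul, aeval_C, map_pow, aeval_X, map_one]
    field_simp
    ring
  hsep := sep2
  hT := by simp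
  hs := fun c h => ss_const c⁻¹ (by rw [map_inv₀, ← h, inv_inv])
  y0 := mul_ne_zero yy_ne (pow_ne_zero _ (inv_ne_zero ss_ne))
  hfr := fr_all _ ⟨1, one_mem _, ss⁻¹, Algebra.subset_adjoin (by simp), inv_ne_zero ss_ne,
      mul_inv_cancel₀ ss_ne⟩
    ⟨_, Algebra.subset_adjoin (Or.inr (Or.inl rfl)), ss⁻¹ ^ 3,
      pow_mem (Algebra.subset_adjoin (by simp)) 3, pow_ne_zero _ (inv_ne_zero ss_ne), rfl⟩

lemma val_le (q : ℂ[X]) : RatFunc.inftyValuation ℂ (aeval (RatFunc.X : RatFunc ℂ)⁻¹ q) ≤ 1 := by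
  induction q using Polynomial.induction_on with
  | C a =>
    rw [aeval_C, RatFunc.algebraMap_eq_C]
    by_cases h : a = 0
    · simp [h]
    · exact (RatFunc.inftyValuation.C ℂ h).le
  | add p q hp hq => rw [map_add]; exact Valuation.map_add_le _ hp hq
  | monomial n a h =>
    rw [pow_succ, ← mul_assoc, map_mul, map_mul, aeval_X]
    refine mul_le_one' h ?_
    rw [map_inv₀, RatFunc.inftyValuation.X, ← exp_neg, ← exp_zero, exp_le_exp]
    norm_num

lemma deg_le {p q : ℂ[X]} {m : ℤ} (hp : p ≠ 0) (h : algebraMap ℂ[X] (RatFunc ℂ) p =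
    -(RatFunc.X ^ m * aeval (RatFunc.X : RatFunc ℂ)⁻¹ q)) : (p.natDegree : ℤ) ≤ m := by
  have h1 := congrArg (RatFunc.inftyValuation ℂ) h
  rw [RatFunc.inftyValuation_apply, RatFunc.inftyValuation.polynomial ℂ hp, Valuation.map_neg,
    map_mul, RatFunc.inftyValuation.X_zpow] at h1
  rw [← exp_le_exp, h1]
  exact mul_le_of_le_one_right' (val_le q)

lemma key {A B A' B' : ℂ[X]} (e3 : aeval ss A + aeval ss B * yy =
    (aeval ss⁻¹ A' + aeval ss⁻¹ B' * (yy * ss⁻¹ ^ 3)) * -ss) : B = 0 ∧ A.natDegree ≤ 1 := by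
  have hi : ∀ q : ℂ[X], aeval ss⁻¹ q = ι (aeval (RatFunc.X : RatFunc ℂ)⁻¹ q) := fun q => by
    rw [← aeval_algHom_apply, map_inv₀]; rfl
  obtain ⟨eA, eB⟩ := indep
    (a := algebraMap _ _ A + RatFunc.X ^ (1 : ℤ) * aeval (RatFunc.X : RatFunc ℂ)⁻¹ A')
    (b := algebraMap _ _ B + RatFunc.X ^ (-2 : ℤ) * aeval (RatFunc.X : RatFunc ℂ)⁻¹ B') (by
      simp only [map_add, map_mul, ι_poly, map_zpow₀, ← hi]
      change _ + ss ^ (1 : ℤ) * _ + (_ + ss ^ (-2 : ℤ) * _) * _ = 0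
      have := ss_ne
      rw [zpow_one, zpow_neg, zpow_ofNat]
      generalize aeval ss A = a at *
      generalize aeval ss B = b at *
      generalize aeval ss⁻¹ A' = a' at *
      generalize aeval ss⁻¹ B' = b' at *
      have h1 : ss * ss⁻¹ = 1 := mul_inv_cancel₀ this
      rw [← inv_pow]
      linear_combination e3 - b' * yy * ss⁻¹ ^ 2 * h1)
  refine ⟨?_, ?_⟩
  · by_contra hB
    have := deg_le hB (eq_neg_of_add_eq_zero_left eB)
    omega
  · by_cases hA : A = 0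
    · simp [hA]
    · exact_mod_cast deg_le hA (eq_neg_of_add_eq_zero_left eA)

noncomputable def c0 : Chart KK := c1 ∅ (by simp)

lemma hw : c2.w = -ss • c0.w := by
  have := ss_ne
  have := yy_ne
  simp only [Chart.w, c0, c1, c2, Derivation.leibniz_inv, smul_smul]
  congr 1
  field_simp

lemma repr0 {h : KK} (hh : h ∈ c0.R) : ∃ A B : ℂ[X], h = aeval ss A + aeval ss B * yy :=
  c0.repr rfl hh

lemma repr2 {h : KK} (hh : h ∈ c2.R) :
    ∃ A B : ℂ[X], h = aeval ss⁻¹ A + aeval ss⁻¹ B * (yy * ss⁻¹ ^ 3) :=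
  c2.repr rfl hh

lemma span_mem {K : Type} [Field K] [Algebra ℂ K] (s : K) (w : KaehlerDifferential ℂ K) {A : ℂ[X]}
    (hd : A.natDegree ≤ 1) : aeval s A • w ∈ Submodule.span ℂ (Set.range ![w, s • w]) := by
  rw [eq_X_add_C_of_natDegree_le_one hd]
  simp only [map_add, map_mul, aeval_C, aeval_X, add_smul, mul_smul, algebraMap_smul]
  exact add_mem (Submodule.smul_mem _ _ (Submodule.subset_span ⟨1, rfl⟩))
    (Submodule.smul_mem _ _ (Submodule.subset_span ⟨0, rfl⟩))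

lemma hle0 (w : KaehlerDifferential ℂ KK) {h h' : KK} (hh : h ∈ c0.R) (hh' : h' ∈ c2.R)
    (e2 : h • w = (h' * -ss) • w) : h • w ∈ Submodule.span ℂ (Set.range ![w, ss • w]) := by
  by_cases h0 : w = 0
  · rw [h0, smul_zero]; exact zero_mem _
  have e3 : h = h' * -ss := smul_left_injective KK h0 e2
  obtain ⟨A, B, hA⟩ := repr0 hh
  obtain ⟨A', B', hA'⟩ := repr2 hh'
  obtain ⟨hB, hd⟩ := key (hA.symm.trans (e3.trans (congrArg (· * -ss) hA')))
  rw [hB, map_zero, zero_mul, add_zero] at hA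
  rw [hA]
  exact span_mem ss w hd

lemma hle : regDiff ℂ KK ≤ Submodule.span ℂ (Set.range ![c0.w, ss • c0.w]) := fun ω hω => by
  obtain ⟨h, hh, e1⟩ := c0.reg hω
  obtain ⟨h', hh', e2⟩ := c2.reg hω
  rw [hw, smul_smul, e1] at e2
  rw [e1]
  exact hle0 _ hh hh' e2

theorem genus_le : genus ℂ KK ≤ 2 := by
  refine (Submodule.rank_mono hle).trans ((rank_span_le _).trans ?_)
  simpa using Cardinal.mk_range_le (f := ![c0.w, ss • c0.w])

theorem main : ∃ n : ℕ, 4 < n ∧ ∃ (K : Type) (_ : Field K) (_ : Algebra ℂ K) (A : Subalgebra ℂ K),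
    A.FG ∧ IsFractionRing A K ∧
    (∀ (m : Ideal A) [m.IsMaximal], IsDiscreteValuationRing (Localization.AtPrime m)) ∧
    genus ℂ K < ((n - 1) * (n - 2) / 2 : ℕ) ∧
    ∃ P : A[X], (∀ φ : A →ₐ[ℂ] ℂ, ∃ l : Fin n → ℂ, P.map φ.toRingHom = ∏ i, (X - C (l i)) ∧ ∑ i, l i = 0 ∧
        ∏ i, ∏ j ∈ Finset.Ioi i, (l i - l j) ^ 2 = 1) ∧
      ∃ φ ψ : A →ₐ[ℂ] ℂ, P.map φ.toRingHom ≠ P.map ψ.toRingHom := by
  let c := c1 {ss⁻¹} (by simpa using inv_mul_cancel₀ ss_ne)
  let t : c.R := ⟨ss⁻¹, Algebra.subset_adjoin (by simp [c, c1])⟩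
  have hts : t * c.sR = 1 := Subtype.ext (inv_mul_cancel₀ ss_ne)
  let b : c.R := algebraMap ℂ _ (1 / 4) * t ^ 2
  refine ⟨5, by norm_num, KK, inferInstance, inferInstance, c.R, c.fg, ?_, fun m _ => c.dvr m,
    genus_le.trans_lt (by norm_num), X ^ 5 + C (c.yR * t) * X ^ 3 + C b * X, fun φ => ?_, ?_⟩
  · refine IsFractionRing.of_field _ _ fun x => ?_
    obtain ⟨a, ha, b, hb, h0, h⟩ := c.hfr x
    exact ⟨⟨a, ha⟩, ⟨b, hb⟩, by
      change x = a / b
      rw [← h]; field_simp⟩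
  · have h1 : φ t * φ c.sR = 1 := by rw [← map_mul, hts, map_one]
    have h2 : φ c.yR ^ 2 = 2 * φ c.sR ^ 5 + 1 := by
      rw [← map_pow, c.hyR, ← aeval_algHom_apply]
      simp [c, c1, f1]
    obtain ⟨δ, hδ⟩ := IsAlgClosed.exists_pow_nat_eq (2 * φ c.sR ^ 3) two_pos
    obtain ⟨α, hα⟩ := IsAlgClosed.exists_pow_nat_eq ((-(φ c.yR * φ t) + δ) / 2) two_pos
    obtain ⟨β, hβ⟩ := IsAlgClosed.exists_pow_nat_eq ((-(φ c.yR * φ t) - δ) / 2) two_pos
    have hb : φ b = 1 / 4 * φ t ^ 2 := by simp [b]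
    generalize φ c.sR = s at *
    have ha : φ c.yR * φ t = -(α ^ 2 + β ^ 2) := by linear_combination hα + hβ
    have hd : δ = α ^ 2 - β ^ 2 := by linear_combination hβ - hα
    have hab : 1 / 4 * φ t ^ 2 = α ^ 2 * β ^ 2 := by
      rw [hα, hβ]
      linear_combination (1 / 4 : ℂ) * hδ - (1 / 4 : ℂ) * φ t ^ 2 * h2 -
        (1 / 2 : ℂ) * s ^ 3 * (φ t * s + 1) * h1
    refine ⟨![0, α, -α, β, -β], ?_, by simp [Fin.sum_univ_five], ?_⟩
    · simp only [Polynomial.map_add, Polynomial.map_mul, Polynomial.map_pow, map_X, map_C,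
        AlgHom.toRingHom_eq_coe, RingHom.coe_coe, map_mul φ, hb, ha, hab, Fin.prod_univ_five]
      simp
      ring
    · have e : ∏ i, ∏ j ∈ Finset.Ioi i, (![0, α, -α, β, -β] i - ![0, α, -α, β, -β] j) ^ 2 =
          16 * (α ^ 2 * β ^ 2) ^ 3 * ((α ^ 2 - β ^ 2) ^ 2) ^ 2 := by
        simp [Fin.prod_univ_succ, Fin.prod_Ioi_succ]
        ring
      rw [e, ← hab, ← hd, hδ]
      have : (φ t * s) ^ 6 = 1 := by rw [h1, one_pow]
      linear_combination this
  · obtain ⟨m0, hm0⟩ := Ideal.exists_maximal c.R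
    obtain ⟨φ, -⟩ := exists_point m0
    have hne : b - algebraMap ℂ _ (φ b) ≠ 0 := fun h => by
      have h1 : algebraMap ℂ KK (1 / 4) * ss⁻¹ ^ 2 = algebraMap ℂ KK (φ b) :=
        congrArg Subtype.val (sub_eq_zero.1 h)
      obtain ⟨δ, hδ⟩ := IsAlgClosed.exists_pow_nat_eq (4 * φ b) two_pos
      have h2 : ss⁻¹ ^ 2 = algebraMap ℂ KK δ ^ 2 := by
        rw [← map_pow, hδ, map_mul, ← h1, ← mul_assoc, ← map_mul]; simp
      rcases sq_eq_sq_iff_eq_or_eq_neg.1 h2 with h3 | h3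
      · exact c2.hs δ h3
      · exact c2.hs (-δ) (by rw [map_neg]; exact h3)
    have hj : IsJacobsonRing c.R := isJacobsonRing_of_finiteType (A := ℂ)
    have h0 : b - algebraMap ℂ _ (φ b) ∉ Ideal.jacobson (⊥ : Ideal c.R) := by
      rwa [IsJacobsonRing.out hj Ideal.isPrime_bot.isRadical, Ideal.mem_bot]
    rw [Ideal.jacobson, Submodule.mem_sInf] at h0
    push Not at h0
    obtain ⟨m, ⟨-, hm⟩, hb⟩ := h0
    obtain ⟨ψ, rfl⟩ := exists_point m
    refine ⟨φ, ψ, fun h => hb ?_⟩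
    have := congrArg (fun p => p.coeff 1) h
    simp only [coeff_map, coeff_add, coeff_X_pow, coeff_C_mul, coeff_X_one] at this
    norm_num at this
    simp [RingHom.mem_ker, this]

end Pool.Agent.H80.Genus
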