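import Mathlib

namespace Pool.Agent.H80.Geproci

open MvPolynomial

variable {k : Type} [Field k] {n : ℕ}

/-- The homogeneous vanishing ideal of the projective points with representatives in `Z`:
polynomials vanishing on all scalar multiples of these vectors. -/
def idealOf (Z : Set (Fin n → k)) : Ideal (MvPolynomial (Fin n) k) where
  carrier := {f | ∀ (c : k), ∀ z ∈ Z, eval (c • z) f = 0}
  add_mem' := fun hf hg c z hz => by rw [map_add, hf c z hz, hg c z hz, add_zero]
  zero_mem' := fun c z _ => map_zero _
  smul_mem' := fun g f hf c z hz => by rw [smul_eq_mul, map_mul, hf c z hz, mul_zero]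

/-- The dimension of the degree `d` part `[I]_d` of an ideal. -/
noncomputable def dimPart (I : Ideal (MvPolynomial (Fin n) k)) (d : ℕ) : ℕ :=
  Module.finrank k ↥(I.restrictScalars k ⊓ homogeneousSubmodule (Fin n) k d)

/-- A property holds for a general point of `ℙ³`: off the zero set of a nonzero polynomial. -/
def General (p : (Fin 4 → k) → Prop) : Prop :=
  ∃ D : MvPolynomial (Fin 4) k, D ≠ 0 ∧ ∀ P, P ≠ 0 → eval P D ≠ 0 → p P

/-- The set of points `Y` of the plane is a complete intersection of two curves of degrees `a`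
and `b` without common component. -/
def IsCI (a b : ℕ) (Y : Set (Fin 3 → k)) : Prop :=
  ∃ F G : MvPolynomial (Fin 3) k, F.IsHomogeneous a ∧ G.IsHomogeneous b ∧ IsRelPrime F G ∧
    idealOf Y = Ideal.span {F, G}

/-- `Z` is `(a, b)`-geproci: its projection from a general point is a complete intersection. -/
def IsGeproci (a b : ℕ) (Z : Set (Fin 4 → k)) : Prop :=
  General fun P => ∃ π : (Fin 4 → k) →ₗ[k] (Fin 3 → k), Function.Surjective π ∧ π P = 0 ∧
    IsCI a b (π '' Z)

/-- Condition `C(d)`: an unexpected cone of degree `d`. -/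
def CondC (d : ℕ) (Z : Set (Fin 4 → k)) : Prop :=
  General fun P => max 0 ((dimPart (idealOf Z) d : ℤ) - ((d + 2).choose 3 : ℕ)) <
    (dimPart (idealOf Z ⊓ idealOf {P} ^ d) d : ℤ)

end Pool.Agent.H80.Geproci
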