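import Mathlib
import Pool.Agent.H80.GeprociDefs

namespace Pool.Agent.H80.Geproci

open MvPolynomial

variable {k : Type} [Field k]

lemma mem_idealOf {n : ℕ} {Z : Set (Fin n → k)} {f : MvPolynomial (Fin n) k} :
    f ∈ idealOf Z ↔ ∀ (c : k), ∀ z ∈ Z, eval (c • z) f = 0 := Iff.rfl

lemma eval_smul {σ : Type} {F : MvPolynomial σ k} {d : ℕ} (h : F.IsHomogeneous d) (c : k)
    (x : σ → k) : eval (c • x) F = c ^ d * eval x F := by
  rw [eval_eq, eval_eq, Finset.mul_sum]
  refine Finset.sum_congr rfl fun u hu => ?_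
  have := h (mem_support_iff.1 hu)
  rw [← this]
  simp [mul_pow, Finset.prod_mul_distrib, Finset.prod_pow_eq_pow_sum, Finsupp.weight_apply,
    Finsupp.sum]
  ring

lemma finrank_hom (n d : ℕ) :
    Module.finrank k (homogeneousSubmodule (Fin n) k d) = (n + d - 1).choose d := by
  classical
  have h : homogeneousSubmodule (Fin n) k d =
      restrictSupport k ((Finset.univ : Finset (Fin n)).finsuppAntidiag d : Set (Fin n →₀ ℕ)) := by
    rw [homogeneousSubmodule_eq_finsupp_supported]
    unfold restrictSupport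
    congr 1
    ext u
    simp [Finset.mem_finsuppAntidiag, Finsupp.degree_eq_sum]
  rw [h, Module.finrank_eq_card_basis (basisRestrictSupport k _)]
  simp [Finset.card_finsuppAntidiag_nat_eq_choose]

instance fd (n d : ℕ) : FiniteDimensional k (homogeneousSubmodule (Fin n) k d) :=
  Submodule.finiteDimensional_of_le (S₂ := restrictTotalDegree (Fin n) k d) fun F hF =>
    (mem_restrictTotalDegree _ _ _).2 (IsHomogeneous.totalDegree_le hF)

noncomputable def pull {m n : ℕ} (π : (Fin m → k) →ₗ[k] (Fin n → k)) :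
    MvPolynomial (Fin n) k →ₐ[k] MvPolynomial (Fin m) k :=
  aeval fun i => ∑ j, C (π (Pi.single j 1) i) * X j

lemma eval_pull {m n : ℕ} (π : (Fin m → k) →ₗ[k] (Fin n → k)) (z : Fin m → k)
    (f : MvPolynomial (Fin n) k) : eval z (pull π f) = eval (π z) f := by
  rw [pull, aeval_eq_bind₁, eval, eval₂Hom_bind₁]
  congr 2
  funext i
  rw [LinearMap.pi_apply_eq_sum_univ π z]
  simp only [map_sum, map_mul, eval₂Hom_C, RingHom.id_apply, eval₂Hom_X', Finset.sum_apply,
    Pi.smul_apply, smul_eq_mul]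
  refine Finset.sum_congr rfl fun j _ => ?_
  rw [mul_comm]
  have : (Pi.single j 1 : Fin m → k) = fun l => if j = l then 1 else 0 := by
    funext l; simp [Pi.single_apply, eq_comm]
  rw [this]

lemma pull_hom {m n : ℕ} (π : (Fin m → k) →ₗ[k] (Fin n → k)) {f : MvPolynomial (Fin n) k} {d : ℕ}
    (h : f.IsHomogeneous d) : (pull π f).IsHomogeneous d := by
  have := h.aeval (fun i => ∑ j, C (π (Pi.single j 1) i) * X j : Fin n → MvPolynomial (Fin m) k)
    (n := 1) (fun i => IsHomogeneous.sum _ _ _ fun j _ => (isHomogeneous_X k j).C_mul _)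
  simpa [pull] using this

variable [Infinite k]

lemma IsCI.image {a b : ℕ} {Y : Set (Fin 3 → k)} (h : IsCI a b Y) (A : (Fin 3 → k) ≃ₗ[k] (Fin 3 → k)) :
    IsCI a b (A '' Y) := by
  obtain ⟨F, G, hF, hG, hr, hI⟩ := h
  have e1 : ∀ f, pull A.toLinearMap (pull A.symm.toLinearMap f) = f := fun f =>
    MvPolynomial.funext fun z => by simp [eval_pull]
  have e2 : ∀ f, pull A.symm.toLinearMap (pull A.toLinearMap f) = f := fun f =>
    MvPolynomial.funext fun z => by simp [eval_pull]
  refine ⟨pull A.symm.toLinearMap F, pull A.symm.toLinearMap G, pull_hom _ hF, pull_hom _ hG, ?_, ?_⟩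
  · intro d h1 h2
    have h3 := map_dvd (pull A.toLinearMap) h1
    have h4 := map_dvd (pull A.toLinearMap) h2
    rw [e1] at h3 h4
    rw [← e2 d]
    exact (hr h3 h4).map _
  · ext f
    have : f ∈ idealOf (A '' Y) ↔ pull A.toLinearMap f ∈ idealOf Y := by
      simp [mem_idealOf, eval_pull]
    rw [this, hI, Ideal.mem_span_pair, Ideal.mem_span_pair]
    constructor
    · rintro ⟨u, v, h⟩
      exact ⟨pull A.symm.toLinearMap u, pull A.symm.toLinearMap v, by
        rw [← map_mul, ← map_mul, ← map_add, h, e2]⟩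
    · rintro ⟨u, v, rfl⟩
      exact ⟨pull A.toLinearMap u, pull A.toLinearMap v, by simp [e1]⟩

abbrev S (k : Type) [Field k] := MvPolynomial (Fin 3) k

lemma syz {u v : S k} {p q : S k} (hp : IsRelPrime p q) (h : u * q = v * p) :
    ∃ r, u = r * p ∧ (p ≠ 0 → v = r * q) := by
  obtain ⟨r, hr⟩ : p ∣ u := hp.dvd_of_dvd_mul_right ⟨v, by rw [h, mul_comm]⟩
  refine ⟨r, by rw [hr, mul_comm], fun h0 => mul_right_cancel₀ h0 ?_⟩
  rw [← h, hr]; ring

lemma rel12 : IsRelPrime (X 1 : S k) (X 2) :=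
  (X_prime.irreducible.isRelPrime_iff_not_dvd).2 (by simp)

def e0 : Fin 3 → k := ![1, 0, 0]

lemma CB {a b t : ℕ} {F G f1 f2 g1 g2 h : S k} (hF : F.IsHomogeneous a) (hG : G.IsHomogeneous b)
    (hr : IsRelPrime F G) (hG0 : G ≠ 0) (ef : F = f1 * X 1 + f2 * X 2) (eg : G = g1 * X 1 + g2 * X 2)
    (hh : h.IsHomogeneous t) (ht : t < (a - 1) + (b - 1)) (h1 : h * X 1 ∈ Ideal.span {F, G})
    (h2 : h * X 2 ∈ Ideal.span {F, G}) : eval e0 h = 0 := by
  obtain ⟨a1, b1, e1⟩ := Ideal.mem_span_pair.1 h1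
  obtain ⟨a2, b2, e2⟩ := Ideal.mem_span_pair.1 h2
  obtain ⟨c, c1, c2⟩ := syz (u := a1 * X 2 - a2 * X 1) (v := b2 * X 1 - b1 * X 2) hr.symm
    (by linear_combination X 2 * e1 - X 1 * e2)
  replace c2 := c2 hG0
  obtain ⟨r, r1, -⟩ := syz (u := a1 - c * g2) (v := a2 + c * g1) rel12 (by linear_combination c1 + c * eg)
  obtain ⟨r', r2, -⟩ := syz (u := b1 + c * f2) (v := b2 - c * f1) rel12 (by linear_combination -c2 - c * ef)
  have key : h = c * (f1 * g2 - f2 * g1) + r * F + r' * G := by
    apply mul_right_cancel₀ (X_ne_zero (1 : Fin 3))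
    linear_combination -e1 + F * r1 + G * r2 + c * g2 * ef - c * f2 * eg
  have d1 : ∀ {H u v : S k} {m : ℕ}, H.IsHomogeneous m → H = u * X 1 + v * X 2 → ∀ τ : k,
      eval (τ • e0) u = τ ^ (m - 1) * eval e0 (pderiv 1 H) ∧
      eval (τ • e0) v = τ ^ (m - 1) * eval e0 (pderiv 2 H) ∧ eval (τ • e0) H = 0 := by
    intro H u v m hH e τ
    rw [← eval_smul hH.pderiv, ← eval_smul hH.pderiv, e]
    simp [e0, pderiv_X]
  let J := eval e0 (pderiv 1 F) * eval e0 (pderiv 2 G) - eval e0 (pderiv 2 F) * eval e0 (pderiv 1 G)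
  have hp : Polynomial.C (eval e0 h) * Polynomial.X ^ t = Polynomial.X ^ ((a - 1) + (b - 1)) *
      (Polynomial.C J * aeval (fun i => Polynomial.C (e0 i) * Polynomial.X) c) := by
    apply Polynomial.funext
    intro τ
    have h3 : ∀ c : S k, Polynomial.eval τ (aeval (fun i => Polynomial.C (e0 i) * Polynomial.X) c) =
        eval (τ • e0) c := by
      intro c
      induction c using MvPolynomial.induction_on with
      | C c => simp
      | add p q hp hq => simp only [map_add, Polynomial.eval_add, hp, hq]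
      | mul_X p i hp => simp only [map_mul, Polynomial.eval_mul, hp, aeval_X, eval_X, Polynomial.eval_C, Polynomial.eval_X,
          Pi.smul_apply, smul_eq_mul, mul_comm τ]
    have h4 := congrArg (eval (τ • e0)) key
    obtain ⟨p1, p2, p3⟩ := d1 hF ef τ
    obtain ⟨p4, p5, p6⟩ := d1 hG eg τ
    simp only [map_add, map_mul, map_sub, p1, p2, p3, p4, p5, p6, eval_smul hh] at h4
    simp only [Polynomial.eval_mul, Polynomial.eval_C, Polynomial.eval_pow, Polynomial.eval_X, h3, J]
    linear_combination h4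
  have := congrArg (fun p => Polynomial.coeff p t) hp
  simpa [Polynomial.coeff_X_pow_mul', ht.not_ge] using this

noncomputable def q1 : S k := X 0 * (X 1 - X 2)
noncomputable def q2 : S k := X 1 * (X 0 - X 2)

lemma q1_hom : (q1 : S k).IsHomogeneous 2 :=
  (isHomogeneous_X k 0).mul ((isHomogeneous_X k 1).sub (isHomogeneous_X k 2))
lemma q2_hom : (q2 : S k).IsHomogeneous 2 :=
  (isHomogeneous_X k 1).mul ((isHomogeneous_X k 0).sub (isHomogeneous_X k 2))

lemma rel_q : IsRelPrime (q1 : S k) q2 := by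
  have nd : ∀ (p q : S k) (z : Fin 3 → k), eval z p = 0 → eval z q ≠ 0 → ¬ p ∣ q := by
    rintro p q z h1 h2 ⟨c, rfl⟩
    simp [h1] at h2
  have i1 : Irreducible (X 1 - X 2 : S k) := by
    have := (X_prime (R := k) (σ := Fin 3) (i := 1)).irreducible
    let A : (Fin 3 → k) ≃ₗ[k] (Fin 3 → k) :=
      { toFun := fun z => ![z 0, z 1 - z 2, z 2]
        invFun := fun z => ![z 0, z 1 + z 2, z 2]
        map_add' := fun x y => by funext i; fin_cases i <;> simp; ring
        map_smul' := fun c y => by funext i; fin_cases i <;> simp; ring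
        left_inv := fun x => by funext i; fin_cases i <;> simp
        right_inv := fun x => by funext i; fin_cases i <;> simp }
    let σ : S k ≃ₐ[k] S k := AlgEquiv.ofAlgHom (pull A.toLinearMap) (pull A.symm.toLinearMap)
      (AlgHom.ext fun f => MvPolynomial.funext fun z => by simp [eval_pull])
      (AlgHom.ext fun f => MvPolynomial.funext fun z => by simp [eval_pull])
    have h2 : σ (X 1) = X 1 - X 2 := MvPolynomial.funext fun z => by simp [σ, eval_pull, A]
    rw [← h2]
    exact this.map σ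
  refine IsRelPrime.mul_left ?_ ?_
  · exact X_prime.irreducible.isRelPrime_iff_not_dvd.2 (nd _ _ ![0, 1, 1] (by simp) (by simp [q2]))
  · exact i1.isRelPrime_iff_not_dvd.2 (nd _ _ ![0, 1, 1] (by simp) (by simp [q2]))

lemma comp_mul {f q : S k} {m : ℕ} (hq : q.IsHomogeneous m) (n : ℕ) :
    homogeneousComponent (n + m) (f * q) = homogeneousComponent n f * q := by
  conv_lhs => rw [← sum_homogeneousComponent f, Finset.sum_mul, map_sum]
  rw [Finset.sum_eq_single n]
  · rw [homogeneousComponent_of_mem ((homogeneousComponent_isHomogeneous n f).mul hq), if_pos rfl]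
  · intro i _ hi
    rw [homogeneousComponent_of_mem ((homogeneousComponent_isHomogeneous i f).mul hq), if_neg (by omega)]
  · intro h
    rw [homogeneousComponent_eq_zero n f (by simpa using h)]; simp

lemma quad_rel {A : Type} [CommRing A] {x y z : A} (h1 : x * y = x * z) (h2 : x * y = y * z)
    (a b c : ℕ) : x * y * (x ^ a * y ^ b * z ^ c) = x * y * x ^ (a + b + c) := by
  have e1 : x * y * y = x * y * x := by linear_combination (y - x) * h1 + x * h1 + x * h1 - x * h1 - x * h2 + x * h2 - x * h2 + x * h1 - x * h1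
  have e2 : x * y * z = x * y * x := by linear_combination -x * h2
  induction c with
  | zero =>
    induction b with
    | zero => simp
    | succ b ih => rw [← add_assoc] at *; simp only [add_zero, pow_zero, mul_one] at *
                   linear_combination (x ^ a * y ^ b) * e1 + x * ih
  | succ c ih => rw [← add_assoc]; linear_combination (x ^ a * y ^ b * z ^ c) * e2 + x * ih

lemma four {d : ℕ} {F : S k} (hF : F.IsHomogeneous (d + 2)) (h0 : eval ![1, 0, 0] F = 0)
    (h1 : eval ![0, 1, 0] F = 0) (h2 : eval ![0, 0, 1] F = 0) (h3 : eval ![1, 1, 1] F = 0) :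
    ∃ f1 f2 : S k, f1.IsHomogeneous d ∧ f2.IsHomogeneous d ∧ F = f1 * q1 + f2 * q2 := by
  let J : Ideal (S k) := Ideal.span {q1, q2}
  let N : Submodule k (S k) := Submodule.span k
    {X 0 ^ (d + 2), X 1 ^ (d + 2), X 2 ^ (d + 2), X 0 * X 1 * X 0 ^ d} ⊔ J.restrictScalars k
  have r1 : Ideal.Quotient.mk J (X 0) * Ideal.Quotient.mk J (X 1) =
      Ideal.Quotient.mk J (X 0) * Ideal.Quotient.mk J (X 2) := by
    rw [← map_mul, ← map_mul, Ideal.Quotient.eq, ← mul_sub]
    exact Ideal.subset_span (Or.inl rfl)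
  have r2 : Ideal.Quotient.mk J (X 0) * Ideal.Quotient.mk J (X 1) =
      Ideal.Quotient.mk J (X 1) * Ideal.Quotient.mk J (X 2) := by
    rw [← map_mul, ← map_mul, Ideal.Quotient.eq, mul_comm (X 0), ← mul_sub]
    exact Ideal.subset_span (Or.inr rfl)
  have mixed : ∀ (a b c : ℕ) (m : S k), a + b + c = d → Ideal.Quotient.mk J m =
      Ideal.Quotient.mk J (X 0) * Ideal.Quotient.mk J (X 1) → m * (X 0 ^ a * X 1 ^ b * X 2 ^ c) ∈ N := by
    intro a b c m h hm
    have : m * (X 0 ^ a * X 1 ^ b * X 2 ^ c) - X 0 * X 1 * X 0 ^ d ∈ J := by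
      rw [← Ideal.Quotient.eq]
      simp only [map_mul, map_pow, hm, quad_rel r1 r2, h]
    rw [← sub_add_cancel (m * _) (X 0 * X 1 * X 0 ^ d)]
    exact add_mem (Submodule.mem_sup_right this) (Submodule.mem_sup_left (Submodule.subset_span (by simp)))
  have mon : ∀ a b c : ℕ, a + b + c = d + 2 → (X 0 ^ a * X 1 ^ b * X 2 ^ c : S k) ∈ N := by
    intro a b c h
    rcases a with _ | a <;> rcases b with _ | b <;> rcases c with _ | c
    · omega
    · exact Submodule.mem_sup_left (Submodule.subset_span (by simp [← h]))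
    · exact Submodule.mem_sup_left (Submodule.subset_span (by simp [← h]))
    · convert mixed 0 b c (X 1 * X 2) (by omega) (by rw [map_mul, r2]) using 1; ring
    · exact Submodule.mem_sup_left (Submodule.subset_span (by simp [← h]))
    · convert mixed a 0 c (X 0 * X 2) (by omega) (by rw [map_mul, r1]) using 1; ring
    · convert mixed a b 0 (X 0 * X 1) (by omega) (by rw [map_mul]) using 1; ring
    · convert mixed a b (c + 1) (X 0 * X 1) (by omega) (by rw [map_mul]) using 1; ring
  have hN : F ∈ N := by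
    rw [F.as_sum]
    refine sum_mem fun u hu => ?_
    have h := hF (mem_support_iff.1 hu)
    rw [monomial_eq, Finsupp.prod_fintype _ _ (by simp), Fin.prod_univ_three, ← smul_eq_C_mul]
    refine N.smul_mem _ (mon _ _ _ ?_)
    rw [← h, Finsupp.weight_apply, Finsupp.sum_fintype _ _ (by simp), Fin.sum_univ_three]; simp
  obtain ⟨y, hy, j, hj, e⟩ := Submodule.mem_sup.1 hN
  obtain ⟨u, v, rfl⟩ := Ideal.mem_span_pair.1 hj
  simp only [Submodule.mem_span_insert, Submodule.mem_span_singleton] at hy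
  obtain ⟨α, _, ⟨β, _, ⟨γ, _, ⟨δ, rfl⟩, rfl⟩, rfl⟩, rfl⟩ := hy
  rw [← e] at h0 h1 h2 h3
  simp [q1, q2, smul_eval] at h0 h1 h2 h3
  simp only [h0, h1, h2, zero_add] at h3
  simp only [h0, h1, h2, h3, zero_smul, zero_add] at e
  refine ⟨homogeneousComponent d u, homogeneousComponent d v, homogeneousComponent_isHomogeneous _ _,
    homogeneousComponent_isHomogeneous _ _, ?_⟩
  rw [← comp_mul q1_hom, ← comp_mul q2_hom, ← map_add, e, homogeneousComponent_of_mem hF, if_pos rfl]

lemma det_ne {F G f1 f2 g1 g2 H : S k} (ef : F = f1 * q1 + f2 * q2) (eg : G = g1 * q1 + g2 * q2)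
    (h1 : H * q1 ∈ Ideal.span {F, G}) (h2 : H * q2 ∈ Ideal.span {F, G}) (hH : eval e0 H ≠ 0) :
    eval e0 (f1 * g2 - f2 * g1) ≠ 0 := by
  obtain ⟨a1, b1, e1⟩ := Ideal.mem_span_pair.1 h1
  obtain ⟨a2, b2, e2⟩ := Ideal.mem_span_pair.1 h2
  have q0 : (q1 : S k) ≠ 0 := fun h => by simpa [q1] using congrArg (eval ![1, 1, 0]) h
  obtain ⟨r, r1, r2⟩ := syz (u := a1 * f2 + b1 * g2) (v := H - (a1 * f1 + b1 * g1)) rel_q
    (by linear_combination e1 - a1 * ef - b1 * eg)
  obtain ⟨s, s1, s2⟩ := syz (u := a2 * f2 + b2 * g2 - H) (v := -(a2 * f1 + b2 * g1)) rel_q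
    (by linear_combination e2 - a2 * ef - b2 * eg)
  have p1 := congrArg (eval e0) r1
  have p2 := congrArg (eval e0) (r2 q0)
  have p3 := congrArg (eval e0) s1
  have p4 := congrArg (eval e0) (s2 q0)
  have z1 : eval e0 (q1 : S k) = 0 := by simp [q1, e0]
  have z2 : eval e0 (q2 : S k) = 0 := by simp [q2, e0]
  simp only [map_add, map_mul, map_sub, map_neg, z1, z2, mul_zero] at p1 p2 p3 p4 ⊢
  intro h0
  apply pow_ne_zero 2 hH
  linear_combination (eval e0 a1 * eval e0 b2 - eval e0 a2 * eval e0 b1) * h0 +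
    (eval e0 a2 * eval e0 f2 + eval e0 b2 * eval e0 g2) * p2 - eval e0 H * p3 -
    (eval e0 a1 * eval e0 f2 + eval e0 b1 * eval e0 g2) * p4
    - 0 * p1

end Pool.Agent.H80.Geproci
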