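import Mathlib
import Pool.Agent.H80.GeprociDefs
import Pool.Agent.H80.Geproci1

namespace Pool.Agent.H80.Geproci

open MvPolynomial

variable {k : Type} [Field k]

noncomputable def ev {n : ℕ} {ι : Type} (p : ι → Fin n → k) : MvPolynomial (Fin n) k →ₐ[k] (ι → k) :=
  Pi.algHom k _ fun i => aeval (p i)

lemma ev_apply {n : ℕ} {ι : Type} (p : ι → Fin n → k) (f : MvPolynomial (Fin n) k) (i : ι) :
    ev p f i = eval (p i) f := by simp [ev, aeval_eq_eval₂Hom]

noncomputable def W {n : ℕ} {ι : Type} (p : ι → Fin n → k) (d : ℕ) : Submodule k (ι → k) :=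
  (homogeneousSubmodule (Fin n) k d).map (ev p).toLinearMap

lemma W_pow {n : ℕ} {ι : Type} (p : ι → Fin n → k) (d : ℕ) : W p d = W p 1 ^ d := by
  rw [W, ← homogeneousSubmodule_one_pow, Submodule.map_pow]; rfl

lemma persist {A : Type} [CommRing A] [Algebra k A] {U V : Submodule k A} (h : U ≤ V) {d : ℕ}
    (hd : 1 ≤ d) (e : V ^ d ≤ U ^ d) (j : ℕ) : V ^ (d + j) ≤ U ^ (d + j) := by
  have hp : ∀ m, U ^ m ≤ V ^ m := fun m => by
    induction m with
    | zero => simp
    | succ m ih => rw [pow_succ, pow_succ]; exact mul_le_mul' ih h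
  induction j with
  | zero => exact e
  | succ j ih =>
    obtain ⟨m, hm⟩ : ∃ m, d + j = m + 1 := ⟨d + j - 1, by omega⟩
    rw [hm] at ih
    rw [← add_assoc, hm]
    calc V ^ (m + 1 + 1) = V ^ (m + 1) * V := pow_succ _ _
      _ ≤ U ^ (m + 1) * V := mul_le_mul' ih le_rfl
      _ = U * (U ^ m * V) := by rw [pow_succ', mul_assoc]
      _ ≤ U * (V ^ m * V) := mul_le_mul' le_rfl (mul_le_mul' (hp m) le_rfl)
      _ = U * V ^ (m + 1) := by rw [pow_succ]
      _ ≤ U * U ^ (m + 1) := mul_le_mul' le_rfl ih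
      _ = _ := (pow_succ' _ _).symm

lemma rank_null {n : ℕ} {ι : Type} (p : ι → Fin n → k) (d : ℕ) :
    Module.finrank k (W p d) + dimPart (idealOf (Set.range p)) d = (n + d - 1).choose d := by
  have h := ((ev p).toLinearMap.domRestrict (homogeneousSubmodule (Fin n) k d)).finrank_range_add_finrank_ker
  rw [finrank_hom, LinearMap.range_domRestrict] at h
  rw [← h, dimPart]
  congr 1
  rw [← Submodule.finrank_map_subtype_eq]
  refine congrArg (fun N : Submodule k (MvPolynomial (Fin n) k) => Module.finrank k N) ?_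
  ext f
  simp only [Submodule.mem_inf, Submodule.restrictScalars_mem, Submodule.mem_map, LinearMap.mem_ker,
    LinearMap.domRestrict_apply, Submodule.subtype_apply, Subtype.exists, exists_and_left, exists_prop,
    AlgHom.toLinearMap_apply]
  constructor
  · rintro ⟨h1, h2⟩
    exact ⟨f, funext fun i => by simpa [ev_apply] using h1 1 _ ⟨i, rfl⟩, h2, rfl⟩
  · rintro ⟨g, h1, h2, rfl⟩
    refine ⟨?_, h2⟩
    rintro c _ ⟨i, rfl⟩
    rw [eval_smul h2, ← ev_apply, h1]; simp

variable [Infinite k]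

lemma pull_le {ι : Type} (p : ι → Fin 4 → k) (π : (Fin 4 → k) →ₗ[k] (Fin 3 → k))
    (hπ : Function.Surjective π) {P : Fin 4 → k} (hP : π P = 0) (d : ℕ) :
    dimPart (idealOf (Set.range (π ∘ p))) d ≤ dimPart (idealOf (Set.range p) ⊓ idealOf {P} ^ d) d := by
  have hinj : Function.Injective (pull π).toLinearMap := by
    intro f g h
    refine MvPolynomial.funext fun y => ?_
    obtain ⟨z, rfl⟩ := hπ y
    rw [← eval_pull, ← eval_pull]; exact congrArg _ h
  have h1 : (homogeneousSubmodule (Fin 3) k 1).map (pull π).toLinearMap ≤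
      (idealOf {P}).restrictScalars k := by
    rintro _ ⟨f, hf, rfl⟩ c _ rfl
    have : IsHomogeneous f 1 := hf
    have h0 := eval_smul this 0 0
    simp only [AlgHom.toLinearMap_apply, eval_pull, map_smul, hP, smul_zero]
    simpa using h0
  have h2 : ∀ d, ((homogeneousSubmodule (Fin 3) k 1).map (pull π).toLinearMap) ^ d ≤
      (idealOf {P} ^ d).restrictScalars k := by
    intro d
    induction d with
    | zero => intro f _; simp
    | succ d ih =>
      rw [pow_succ, pow_succ, Submodule.mul_le]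
      exact fun a ha b hb => Ideal.mul_mem_mul (ih ha) (h1 hb)
  rw [dimPart, dimPart, ← LinearEquiv.finrank_eq (Submodule.equivMapOfInjective _ hinj _).symm]
  have : FiniteDimensional k ↥((idealOf (Set.range p) ⊓ idealOf {P} ^ d).restrictScalars k ⊓
      homogeneousSubmodule (Fin 4) k d) :=
    @Submodule.finiteDimensional_of_le _ _ _ _ _ _ (homogeneousSubmodule (Fin 4) k d) (fd _ _) inf_le_right
  refine Submodule.finrank_mono ?_
  rintro _ ⟨f, ⟨hf1, hf2⟩, rfl⟩
  refine ⟨⟨?_, h2 d ?_⟩, pull_hom π hf2⟩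
  · rintro c _ ⟨i, rfl⟩
    simp only [AlgHom.toLinearMap_apply, eval_pull, map_smul]
    exact hf1 c _ ⟨i, rfl⟩
  · rw [← Submodule.map_pow, homogeneousSubmodule_one_pow]
    exact ⟨f, hf2, rfl⟩

lemma W_le {ι : Type} (p : ι → Fin 4 → k) (π : (Fin 4 → k) →ₗ[k] (Fin 3 → k)) (d : ℕ) :
    W (π ∘ p) d ≤ W p d := by
  rintro _ ⟨f, hf, rfl⟩
  exact ⟨pull π f, pull_hom π hf, funext fun i => by simp [ev_apply, eval_pull]⟩

def std : Fin 4 → Fin 3 → k := ![![1, 0, 0], ![0, 1, 0], ![0, 0, 1], ![1, 1, 1]]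

lemma q_zero {y : Fin 3 → k} (h1 : eval y (q1 : S k) = 0) (h2 : eval y (q2 : S k) = 0) :
    ∃ (j : Fin 4) (c : k), y = c • std j := by
  simp only [q1, q2, map_mul, map_sub, eval_X, mul_eq_zero, sub_eq_zero] at h1 h2
  rcases h1 with h1 | h1 <;> rcases h2 with h2 | h2
  · exact ⟨2, y 2, by funext i; fin_cases i <;> simp [std, h1, h2]⟩
  · exact ⟨1, y 1, by funext i; fin_cases i <;> simp [std, h1, ← h2]⟩
  · exact ⟨0, y 0, by funext i; fin_cases i <;> simp [std, ← h1, h2]⟩
  · exact ⟨3, y 2, by funext i; fin_cases i <;> simp [std, h1, h2]⟩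

lemma core {ι : Type} [Fintype ι] {a b : ℕ} (ha : 3 ≤ a) (hb : 3 ≤ b) (y : ι → Fin 3 → k)
    (t : Fin 4 → ι) (c : Fin 4 → k) (hc : ∀ j, c j ≠ 0) (ht : ∀ j, y (t j) = c j • std j)
    (hd : ∀ i j (s : k), y i = s • std j → i = t j) (hci : IsCI a b (Set.range y))
    (w : ι → k) (hw0 : w (t 0) ≠ 0) (hw : ∀ j, j ≠ 0 → w (t j) = 0) :
    ∃ v ∈ W y (a + b - 4), w * v ∉ W y (a + b - 3) := by
  classical
  obtain ⟨F, G, hF, hG, hr, hI⟩ := hci
  obtain ⟨a, rfl⟩ : ∃ m, a = m + 2 := ⟨a - 2, by omega⟩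
  obtain ⟨b, rfl⟩ : ∃ m, b = m + 2 := ⟨b - 2, by omega⟩
  have hFI : F ∈ idealOf (Set.range y) := hI ▸ Ideal.subset_span (by simp)
  have hGI : G ∈ idealOf (Set.range y) := hI ▸ Ideal.subset_span (by simp)
  have hv : ∀ f ∈ idealOf (Set.range y), ∀ j, eval (std j) f = 0 := fun f hf j => by
    have := hf (c j)⁻¹ _ ⟨t j, rfl⟩
    rwa [ht, inv_smul_smul₀ (hc j)] at this
  obtain ⟨f1, f2, hf1, hf2, ef⟩ := four hF (hv F hFI 0) (hv F hFI 1) (hv F hFI 2) (hv F hFI 3)
  obtain ⟨g1, g2, hg1, hg2, eg⟩ := four hG (hv G hGI 0) (hv G hGI 1) (hv G hGI 2) (hv G hGI 3)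
  have hG0 : G ≠ 0 := by
    rintro rfl
    have := (hr dvd_rfl (dvd_zero F)).map (eval (0 : Fin 3 → k))
    have h0 := eval_smul hF 0 0
    simp only [smul_zero, ne_eq, Nat.add_eq_zero_iff, OfNat.ofNat_ne_zero, and_false, not_false_eq_true,
      zero_pow, zero_mul] at h0
    exact not_isUnit_zero (h0 ▸ this)
  have hlin : ∀ i, ∃ l : S k, i ≠ t 0 → eval e0 l ≠ 0 ∧ ∀ s : k, eval (s • y i) l = 0 := by
    intro i
    by_cases h1 : y i 1 = 0
    · by_cases h2 : y i 2 = 0
      · exact ⟨0, fun h => absurd (hd i 0 (y i 0) (by funext l; fin_cases l <;> simp [std, h1, h2])) h⟩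
      · exact ⟨C (y i 2) * X 0 - C (y i 0) * X 2, fun _ => ⟨by simpa [e0] using h2, fun s => by
          simp; ring⟩⟩
    · exact ⟨C (y i 1) * X 0 - C (y i 0) * X 1, fun _ => ⟨by simpa [e0] using h1, fun s => by
        simp; ring⟩⟩
  choose l hl using hlin
  have hH : ∀ q : S k, (∀ s : k, eval (s • e0) q = 0) →
      (∏ i ∈ Finset.univ.erase (t 0), l i) * q ∈ Ideal.span {F, G} := by
    intro q hq
    rw [← hI]
    rintro s _ ⟨i, rfl⟩
    rw [map_mul, map_prod]
    by_cases hi : i = t 0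
    · rw [hi, ht, smul_smul]; exact mul_eq_zero_of_right _ (hq _)
    · exact mul_eq_zero_of_left (Finset.prod_eq_zero (i := i) (by simpa using hi) ((hl i hi).2 s)) _
  have hΔ := det_ne ef eg (hH q1 (by simp [q1, e0])) (hH q2 (by simp [q2, e0])) (by
    rw [map_prod]
    exact Finset.prod_ne_zero_iff.2 fun i hi => (hl i (by simpa using hi)).1)
  set Δ := f1 * g2 - f2 * g1 with hΔd
  have hΔh : Δ.IsHomogeneous (a + b) := (hf1.mul hg2).sub (hf2.mul hg1)
  refine ⟨ev y Δ, ⟨Δ, by rw [show a + 2 + (b + 2) - 4 = a + b by omega]; exact hΔh, rfl⟩, ?_⟩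
  rintro ⟨h, hh, e⟩
  have hh : h.IsHomogeneous (a + 2 + (b + 2) - 3) := hh
  have e' : ∀ i, eval (y i) h = w i * eval (y i) Δ := fun i => by
    simpa [ev_apply] using congrFun e i
  have hz : ∀ i, i ≠ t 0 → eval (y i) h = 0 := by
    intro i hi
    rw [e']
    by_cases h0 : eval (y i) Δ = 0
    · rw [h0, mul_zero]
    have p1 := hFI 1 _ ⟨i, rfl⟩
    have p2 := hGI 1 _ ⟨i, rfl⟩
    rw [one_smul] at p1 p2
    rw [ef] at p1
    rw [eg] at p2
    simp only [map_add, map_mul, hΔd, map_sub] at p1 p2 h0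
    obtain ⟨j, s, hj⟩ := q_zero (y := y i)
      (mul_left_cancel₀ h0 (by linear_combination eval (y i) g2 * p1 - eval (y i) f2 * p2))
      (mul_left_cancel₀ h0 (by linear_combination eval (y i) f1 * p2 - eval (y i) g1 * p1))
    have := hd i j s hj
    rw [this, hw j (by rintro rfl; exact hi this), zero_mul]
  have hm : ∀ q : S k, (∀ s : k, eval (s • e0) q = 0) → h * q ∈ Ideal.span {F, G} := by
    intro q hq
    rw [← hI]
    rintro s _ ⟨i, rfl⟩
    rw [map_mul]
    by_cases hi : i = t 0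
    · rw [hi, ht, smul_smul]; exact mul_eq_zero_of_right _ (hq _)
    · rw [eval_smul hh, hz i hi]; simp
  have := CB (f1 := f1 * X 0 + f2 * (X 0 - X 2)) (f2 := -(f1 * X 0)) (g1 := g1 * X 0 + g2 * (X 0 - X 2))
    (g2 := -(g1 * X 0)) hF hG hr hG0 (by rw [ef, q1, q2]; ring) (by rw [eg, q1, q2]; ring) hh (by omega)
    (hm _ (by simp [e0])) (hm _ (by simp [e0]))
  have h2 := e' (t 0)
  rw [ht, eval_smul hh, eval_smul hΔh, show (std 0 : Fin 3 → k) = e0 from rfl, this, mul_zero] at h2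
  exact mul_ne_zero hw0 (mul_ne_zero (pow_ne_zero _ (hc 0)) hΔ) h2.symm

lemma avoid (Z : Finset (Fin 4 → k)) : ∃ D : MvPolynomial (Fin 4) k, D ≠ 0 ∧ ∀ P, eval P D ≠ 0 →
    ∀ x ∈ Z, ∀ y ∈ Z, ∀ z ∈ Z, P ∉ Submodule.span k {x, y, z} := by
  classical
  have h : ∀ T : (Fin 4 → k) × (Fin 4 → k) × (Fin 4 → k), ∃ l : MvPolynomial (Fin 4) k, l ≠ 0 ∧
      ∀ P ∈ Submodule.span k {T.1, T.2.1, T.2.2}, eval P l = 0 := by
    rintro ⟨x, y, z⟩
    have : Submodule.span k {x, y, z} < ⊤ := by
      refine Submodule.lt_top_of_finrank_lt_finrank ?_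
      have := finrank_span_finset_le_card (R := k) ({x, y, z} : Finset (Fin 4 → k))
      have h3 : ({x, y, z} : Finset (Fin 4 → k)).card ≤ 3 := Finset.card_le_three
      rw [Finset.coe_insert, Finset.coe_insert, Finset.coe_singleton] at this
      simp only [Module.finrank_fintype_fun_eq_card, Fintype.card_fin]
      exact (this.trans h3).trans_lt (by norm_num)
    obtain ⟨f, hf0, hf⟩ := Submodule.exists_dual_map_eq_bot_of_lt_top this inferInstance
    have he : ∀ P, eval P (pull (LinearMap.pi fun _ : Fin 1 => f) (X 0)) = f P := fun P => by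
      simp [eval_pull]
    refine ⟨pull (LinearMap.pi fun _ : Fin 1 => f) (X 0), fun h0 => hf0 (LinearMap.ext fun P => ?_),
      fun P hP => ?_⟩
    · rw [← he, h0]; simp
    · rw [he]
      have : f P ∈ Submodule.map f _ := ⟨P, hP, rfl⟩
      rwa [hf] at this
  choose l hl using h
  refine ⟨∏ T ∈ Z ×ˢ Z ×ˢ Z, l T, Finset.prod_ne_zero_iff.2 fun T _ => (hl T).1,
    fun P hP x hx y hy z hz h => hP ?_⟩
  rw [map_prod]
  exact Finset.prod_eq_zero (i := (x, y, z)) (by simp [hx, hy, hz]) ((hl _).2 P h)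

theorem main {a b : ℕ} (ha : 3 ≤ a) (hab : a ≤ b) (Z : Finset (Fin 4 → k))
    (hZ : ∀ z ∈ Z, ∀ z' ∈ Z, ∀ c : k, z = c • z' → z = z')
    (hs : Submodule.span k (Z : Set (Fin 4 → k)) = ⊤) (hg : IsGeproci a b (Z : Set (Fin 4 → k)))
    {d : ℕ} (hd : d = a ∨ d = b) : CondC d (Z : Set (Fin 4 → k)) := by
  classical
  obtain ⟨D, hD, hg⟩ := hg
  obtain ⟨D', hD', hav⟩ := avoid Z
  refine ⟨D * D', mul_ne_zero hD hD', fun P hP0 hP => ?_⟩
  rw [map_mul] at hP
  obtain ⟨π, hπ, hπP, hci⟩ := hg P hP0 (left_ne_zero_of_mul hP)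
  replace hav := hav P (right_ne_zero_of_mul hP)
  have hker : LinearMap.ker π = Submodule.span k {P} := by
    symm
    apply Submodule.eq_of_le_of_finrank_eq (by simpa using hπP)
    have := π.finrank_range_add_finrank_ker
    rw [LinearMap.range_eq_top.2 hπ] at this
    simp only [finrank_top, Module.finrank_fintype_fun_eq_card, Fintype.card_fin] at this
    rw [finrank_span_singleton hP0]; omega
  have hk : ∀ x ∈ Z, ∀ y ∈ Z, ∀ z ∈ Z, ∀ v ∈ Submodule.span k {x, y, z}, π v = 0 → v = 0 := by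
    intro x hx y hy z hz v hv h0
    obtain ⟨c, rfl⟩ := Submodule.mem_span_singleton.1 (hker ▸ (show v ∈ LinearMap.ker π from h0))
    by_contra hn
    have hc : c ≠ 0 := by rintro rfl; simp at hn
    exact hav x hx y hy z hz (by simpa [hc] using Submodule.smul_mem _ c⁻¹ hv)
  obtain ⟨T, hT, hT1, hT2⟩ := exists_linearIndependent k (Z : Set (Fin 4 → k))
  let B0 := Module.Basis.mk hT2 (by rw [Subtype.range_coe, hT1, hs])
  have : Fintype T := (Z.finite_toSet.subset hT).fintype
  let B := B0.reindex (Fintype.equivFinOfCardEq (by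
    rw [← Module.finrank_eq_card_basis B0]; simp) : T ≃ Fin 4)
  have hB : ∀ j, B j ∈ Z := fun j => by simp only [B, B0, Module.Basis.reindex_apply, Module.Basis.mk_apply]; exact hT (Subtype.prop _)
  have hind := Fintype.linearIndependent_iff.1 B.linearIndependent
  have hrel : ∀ g : Fin 4 → k, ∑ j, g j • π (B j) = 0 → (∃ j, g j = 0) → ∀ j, g j = 0 := by
    rintro g h ⟨j, hj⟩
    refine hind g (hk _ (hB (j + 1)) _ (hB (j + 2)) _ (hB (j + 3)) _ ?_ (by simpa using h))
    refine sum_mem fun i _ => ?_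
    by_cases hi : i = j
    · simp [hi, hj]
    · refine Submodule.smul_mem _ _ (Submodule.subset_span ?_)
      have : ∀ i j : Fin 4, i ≠ j → i = j + 1 ∨ i = j + 2 ∨ i = j + 3 := by decide
      rcases this i j hi with rfl | rfl | rfl <;> simp
  obtain ⟨g, hg1, j0, hg2⟩ := Fintype.not_linearIndependent_iff.1 (show ¬ LinearIndependent k
    (fun j => π (B j)) from fun h => by simpa using h.fintype_card_le_finrank)
  have hg0 : ∀ j, g j ≠ 0 := fun j h => hg2 (hrel g hg1 ⟨j, h⟩ j0)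
  have hli : LinearIndependent k (fun i : Fin 3 => g i.castSucc • π (B i.castSucc)) := by
    rw [Fintype.linearIndependent_iff]
    intro s hs i
    have := hrel (Fin.snoc (α := fun _ => k) (fun i => s i * g i.castSucc) 0) (by
      rw [Fin.sum_univ_castSucc]
      simpa only [Fin.snoc_castSucc, Fin.snoc_last, zero_smul, add_zero, mul_smul] using hs)
      ⟨Fin.last 3, Fin.snoc_last _ _⟩ i.castSucc
    simpa [hg0] using this
  let E := basisOfLinearIndependentOfCardEqFinrank hli (by simp)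
  let A := E.equivFun
  have hA : ∀ i : Fin 3, g i.castSucc • A (π (B i.castSucc)) = Pi.single i 1 := fun i => by
    rw [← map_smul]
    have : g i.castSucc • π (B i.castSucc) = E i := by simp [E]
    rw [this]; funext l; simp [A, Pi.single_apply, Finsupp.single_apply, eq_comm]
  let π' := A.toLinearMap ∘ₗ π
  let c : Fin 4 → k := ![(g 0)⁻¹, (g 1)⁻¹, (g 2)⁻¹, -(g 3)⁻¹]
  have hc : ∀ j, c j ≠ 0 := fun j => by fin_cases j <;> simp [c, hg0]
  have ht : ∀ j, π' (B j) = c j • std j := by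
    have a0 : g 0 • π' (B 0) = std 0 := (hA 0).trans (by funext l; fin_cases l <;> simp [std])
    have a1 : g 1 • π' (B 1) = std 1 := (hA 1).trans (by funext l; fin_cases l <;> simp [std])
    have a2 : g 2 • π' (B 2) = std 2 := (hA 2).trans (by funext l; fin_cases l <;> simp [std])
    have a3 : g 3 • π' (B 3) = -std 3 := by
      have := congrArg A hg1
      simp only [Fin.sum_univ_four, map_add, map_smul, map_zero] at this
      have h3 : (std 3 : Fin 3 → k) = std 0 + std 1 + std 2 := by funext l; fin_cases l <;> simp [std]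
      rw [h3, ← a0, ← a1, ← a2, eq_neg_iff_add_eq_zero, add_comm]
      exact this
    intro j
    fin_cases j
    · simp [c, ← a0, hg0]
    · simp [c, ← a1, hg0]
    · simp [c, ← a2, hg0]
    · show π' (B 3) = -(g 3)⁻¹ • std 3
      rw [neg_smul, ← smul_neg, ← a3, inv_smul_smul₀ (hg0 3)]
  let p : Z → Fin 4 → k := Subtype.val
  have hp : Set.range p = Z := Subtype.range_coe
  have hci' : IsCI a b (Set.range (π' ∘ p)) := by
    have := hci.image A
    rwa [Set.range_comp, hp, show (π' : _ → _) = A ∘ π from rfl, Set.image_comp]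
  have hw : ev p (pull (LinearMap.pi fun _ : Fin 1 => B.coord 0) (X 0)) ∈ W p 1 :=
    ⟨_, pull_hom _ (isHomogeneous_X k 0), rfl⟩
  obtain ⟨v, hv1, hv2⟩ := core ha (ha.trans hab) (π' ∘ p) (fun j => ⟨B j, hB j⟩) c hc ht (by
      intro i j s h
      apply Subtype.ext
      refine hZ _ i.2 _ (hB j) (s * (c j)⁻¹) (sub_eq_zero.1 (hk _ i.2 _ (hB j) _ (hB j) _ ?_ ?_))
      · exact sub_mem (Submodule.subset_span (by simp)) (Submodule.smul_mem _ _ (Submodule.subset_span (by simp)))
      · apply A.injective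
        have h1 : A (π i.1) = s • std j := h
        have h2 : A (π (B j)) = c j • std j := ht j
        rw [map_sub, map_smul, map_sub, map_smul, h1, h2, smul_smul, map_zero]
        simp [hc j]) hci' (ev p (pull (LinearMap.pi fun _ : Fin 1 => B.coord 0) (X 0)))
      (by simp [ev_apply, eval_pull, p]) (fun j hj => by simp [ev_apply, eval_pull, p, Finsupp.single_apply, hj])
  have hlt : W (π' ∘ p) d < W p d := by
    refine lt_of_le_of_ne (W_le p π' d) fun he => hv2 ?_
    obtain ⟨j, hj⟩ : ∃ j, a + b - 3 = d + j := ⟨a + b - 3 - d, by omega⟩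
    have := persist (W_le p π' 1) (d := d) (by omega) (by rw [← W_pow, ← W_pow, he]) j
    rw [← hj] at this
    rw [W_pow]
    apply this
    rw [show a + b - 3 = a + b - 4 + 1 by omega, pow_succ']
    exact Submodule.mul_mem_mul hw (by rw [← W_pow]; exact W_le p π' _ hv1)
  have h1 := Submodule.finrank_lt_finrank_of_lt hlt
  have h2 := rank_null p d
  have h3 := rank_null (π' ∘ p) d
  have h4 := pull_le p π' (A.surjective.comp hπ) (P := P) (by simp [π', hπP]) d
  have h5 : 0 < dimPart (idealOf (Set.range (π' ∘ p))) d := by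
    obtain ⟨F, G, hF, hG, hr, hI⟩ := hci'
    have nz : ∀ {F G : S k} {m : ℕ}, G.IsHomogeneous m → 3 ≤ m → IsRelPrime F G → F ≠ 0 := by
      rintro F G m hG hm hr rfl
      have := (hr (dvd_zero G) dvd_rfl).map (eval (0 : Fin 3 → k))
      have h0 := eval_smul hG 0 0
      rw [smul_zero, zero_pow (by omega), zero_mul] at h0
      exact not_isUnit_zero (h0 ▸ this)
    have : FiniteDimensional k ↥((idealOf (Set.range (π' ∘ p))).restrictScalars k ⊓
        homogeneousSubmodule (Fin 3) k d) :=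
      @Submodule.finiteDimensional_of_le _ _ _ _ _ _ (homogeneousSubmodule (Fin 3) k d) (fd _ _) inf_le_right
    refine Module.finrank_pos_iff_exists_ne_zero.2 ?_
    rcases hd with rfl | rfl
    · exact ⟨⟨F, by rw [hI]; exact Ideal.subset_span (by simp), hF⟩,
        fun h => nz hG (ha.trans hab) hr (congrArg Subtype.val h)⟩
    · exact ⟨⟨G, by rw [hI]; exact Ideal.subset_span (by simp), hG⟩,
        fun h => nz hF ha hr.symm (congrArg Subtype.val h)⟩
  rw [hp] at h2 h4
  have h6 : (4 + d - 1).choose d = (3 + d - 1).choose d + (d + 2).choose 3 := by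
    rw [show 4 + d - 1 = d + 3 by omega, show 3 + d - 1 = d + 2 by omega, Nat.choose_symm_add,
      Nat.choose_symm_add]
    exact Nat.choose_succ_succ' (d + 2) 2
  rw [max_lt_iff]
  omega

end Pool.Agent.H80.Geproci
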