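import Mathlib

namespace Pool.Agent.H80.Gq

open MeasureTheory ProbabilityTheory Finset
open scoped Nat

lemma int_pow (k : ℕ) : Integrable (fun x : ℝ => x ^ k) (gaussianReal 0 1) := by
  rcases k.eq_zero_or_pos with rfl | hk
  · simp
  have := (memLp_id_gaussianReal' (μ := 0) (v := 1) k (ENNReal.natCast_ne_top k)).integrable_norm_pow
    hk.ne'
  exact Integrable.mono' this (by fun_prop) (ae_of_all _ fun x => by simp)

lemma der (k : ℕ) (t : ℝ) : iteratedDeriv (k + 2) (fun t : ℝ => Real.exp (t ^ 2 / 2)) t =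
    t * iteratedDeriv (k + 1) (fun t : ℝ => Real.exp (t ^ 2 / 2)) t +
      (k + 1) * iteratedDeriv k (fun t : ℝ => Real.exp (t ^ 2 / 2)) t := by
  have hc : ContDiff ℝ ⊤ (fun t : ℝ => Real.exp (t ^ 2 / 2)) := by fun_prop
  have hd : ∀ j (t : ℝ), HasDerivAt (iteratedDeriv j (fun t : ℝ => Real.exp (t ^ 2 / 2)))
      (iteratedDeriv (j + 1) (fun t : ℝ => Real.exp (t ^ 2 / 2)) t) t := fun j t => by
    rw [iteratedDeriv_succ]
    exact ((hc.differentiable_iteratedDeriv j (by simp)) t).hasDerivAt
  induction k generalizing t with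
  | zero =>
    have h1 : iteratedDeriv 1 (fun t : ℝ => Real.exp (t ^ 2 / 2)) =
        fun t => t * iteratedDeriv 0 (fun t : ℝ => Real.exp (t ^ 2 / 2)) t := by
      ext t
      rw [iteratedDeriv_one, (((hasDerivAt_pow 2 t).div_const 2).exp).deriv]; simp; ring
    have h2 := (hasDerivAt_id' t).mul (hd 0 t)
    have h3 := hd 1 t
    rw [h1] at h3
    rw [h3.unique h2]; simp; ring
  | succ k ih =>
    have h2 := ((hasDerivAt_id' t).mul (hd (k + 1) t)).add ((hd k t).const_mul ((k : ℝ) + 1))
    have h3 := hd (k + 2) t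
    rw [funext ih] at h3
    rw [h3.unique h2]; push_cast; ring

lemma mom (k : ℕ) : ∫ x, x ^ (k + 2) ∂gaussianReal 0 1 = (k + 1) * ∫ x, x ^ k ∂gaussianReal 0 1 := by
  have h : ∀ j, ∫ x, x ^ j ∂gaussianReal 0 1 =
      iteratedDeriv j (fun t : ℝ => Real.exp (t ^ 2 / 2)) 0 := fun j => by
    have := iteratedDeriv_mgf_zero (X := id) (μ := gaussianReal 0 1) (by simp) j
    rw [mgf_id_gaussianReal] at this
    simpa using this.symm
  rw [h, h, der]; simp

lemma int_poly (Q : Polynomial ℝ) : Integrable (fun x : ℝ => Q.eval (x ^ 2)) (gaussianReal 0 1) := by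
  induction Q using Polynomial.induction_on' with
  | add p q hp hq => simp only [Polynomial.eval_add]; exact hp.add hq
  | monomial n a => simpa [← pow_mul] using (int_pow (2 * n)).const_mul a

lemma stein (Q : Polynomial ℝ) : ∫ x, (Polynomial.X * Q).eval (x ^ 2) ∂gaussianReal 0 1 =
    ∫ x, (Q + 2 * Polynomial.X * Q.derivative).eval (x ^ 2) ∂gaussianReal 0 1 := by
  induction Q using Polynomial.induction_on' with
  | add p q hp hq =>
    have e : p + q + 2 * Polynomial.X * (p + q).derivative = (p + 2 * Polynomial.X * p.derivative) +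
      (q + 2 * Polynomial.X * q.derivative) := by rw [map_add]; ring
    rw [e, mul_add]
    simp only [Polynomial.eval_add (p := Polynomial.X * p),
      Polynomial.eval_add (p := p + 2 * Polynomial.X * p.derivative)]
    rw [integral_add (int_poly _) (int_poly _), integral_add (int_poly _) (int_poly _), hp, hq]
  | monomial n a =>
    have e1 : ∀ x : ℝ, (Polynomial.X * Polynomial.monomial n a).eval (x ^ 2) = a * x ^ (2 * n + 2) :=
      fun x => by rw [Polynomial.eval_mul, Polynomial.eval_X, Polynomial.eval_monomial]; ring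
    have e2 : ∀ x : ℝ, (Polynomial.monomial n a + 2 * Polynomial.X *
        (Polynomial.monomial n a).derivative).eval (x ^ 2) = (a * (2 * n + 1)) * x ^ (2 * n) := fun x => by
      rcases n with _ | n
      · simp
      · simp [Polynomial.derivative_monomial]; ring
    simp only [e1, e2, integral_const_mul, mom]; push_cast; ring

noncomputable def m (k : ℕ) : ℝ := ∫ x, (x ^ 2 - 1) ^ k ∂gaussianReal 0 1

lemma int_m (k : ℕ) : Integrable (fun x : ℝ => (x ^ 2 - 1) ^ k) (gaussianReal 0 1) := by
  have := int_poly ((Polynomial.X - 1) ^ k)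
  simpa only [Polynomial.eval_pow, Polynomial.eval_sub, Polynomial.eval_X, Polynomial.eval_one] using this

lemma m_rec (k : ℕ) : m (k + 1) = 2 * k * (m k + m (k - 1)) := by
  have h := stein ((Polynomial.X - 1) ^ k)
  have e1 : ∀ x : ℝ, (Polynomial.X * (Polynomial.X - 1) ^ k : Polynomial ℝ).eval (x ^ 2) =
      (x ^ 2 - 1) ^ (k + 1) + (x ^ 2 - 1) ^ k := fun x => by simp; ring
  have e2 : ∀ x : ℝ, ((Polynomial.X - 1) ^ k + 2 * Polynomial.X *
      Polynomial.derivative ((Polynomial.X - 1) ^ k) : Polynomial ℝ).eval (x ^ 2) =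
      (x ^ 2 - 1) ^ k + 2 * k * ((x ^ 2 - 1) ^ k + (x ^ 2 - 1) ^ (k - 1)) := fun x => by
    rcases k with _ | k
    · simp
    · simp [Polynomial.derivative_pow]; ring
  simp only [e1, e2] at h
  have i2 : Integrable (fun x : ℝ => 2 * (k : ℝ) * ((x ^ 2 - 1) ^ k + (x ^ 2 - 1) ^ (k - 1)))
    (gaussianReal 0 1) := ((int_m _).add (int_m _)).const_mul _
  rw [integral_add (int_m _) (int_m _), integral_add (int_m _) i2,
    integral_const_mul, integral_add (int_m _) (int_m _)] at h
  simp only [m]; linarith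

end Pool.Agent.H80.Gq
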