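import Pool.Agent.H80.Gq1

namespace Pool.Agent.H80.Gq

open MeasureTheory ProbabilityTheory Finset PowerSeries
open scoped Nat

noncomputable def Ph : ℝ⟦X⟧ := mk fun k => m k / k !
noncomputable def L : ℝ⟦X⟧ := mk fun r => if r = 0 then 0 else 2 ^ r

lemma m_zero : m 0 = 1 := by simp [m]

lemma phi_ode : d⁄dX ℝ Ph = Ph * L := by
  have h0 : (1 - C 2 * X : ℝ⟦X⟧) ≠ 0 := fun h => by
    have := congrArg (coeff 0) h
    simp at this
  have h1 : (1 - C 2 * X : ℝ⟦X⟧) * L = C 2 * X := by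
    ext k
    rw [sub_mul, one_mul, mul_assoc, map_sub, coeff_C_mul, coeff_C_mul]
    rcases k with _ | _ | k
    · simp [L]
    · simp [L, coeff_succ_X_mul]
    · simp [L, coeff_succ_X_mul, coeff_X]; ring
  have h2 : (1 - C 2 * X : ℝ⟦X⟧) * d⁄dX ℝ Ph = C 2 * X * Ph := by
    ext k
    rw [sub_mul, one_mul, mul_assoc, mul_assoc, map_sub, coeff_C_mul, coeff_C_mul]
    rcases k with _ | k
    · have := m_rec 0
      simp [coeff_derivative, Ph] at this ⊢
      exact this
    · have := m_rec (k + 1)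
      simp only [coeff_succ_X_mul, coeff_derivative, Ph, coeff_mk, Nat.factorial_succ, this,
        Nat.add_sub_cancel]
      have : ((k ! : ℕ) : ℝ) ≠ 0 := by positivity
      push_cast; field_simp; ring
  refine mul_left_cancel₀ h0 ?_
  rw [h2, mul_left_comm, h1, mul_comm]

lemma resc_ode (a : ℝ) : d⁄dX ℝ (rescale a Ph) = rescale a Ph * (C a * rescale a L) := by
  rw [mul_left_comm, ← map_mul, ← phi_ode]
  ext k
  rw [coeff_C_mul, coeff_derivative, coeff_rescale, coeff_rescale, coeff_derivative]; ring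

lemma prod_ode {ι : Type} [DecidableEq ι] (a : ι → ℝ) (s : Finset ι) :
    d⁄dX ℝ (∏ i ∈ s, rescale (a i) Ph) =
      (∏ i ∈ s, rescale (a i) Ph) * ∑ i ∈ s, C (a i) * rescale (a i) L := by
  induction s using Finset.induction_on with
  | empty => simp
  | insert j s hj ih =>
    rw [prod_insert hj, sum_insert hj, Derivation.leibniz, ih, resc_ode, smul_eq_mul, smul_eq_mul]; ring

lemma cmp {ψ K : ℝ⟦X⟧} (h : d⁄dX ℝ ψ = ψ * K) (h0 : coeff 0 ψ = 1)
    (hK : ∀ r, |coeff r K| ≤ coeff r L) (k : ℕ) : |coeff k ψ| ≤ coeff k Ph := by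
  induction k using Nat.strong_induction_on with
  | _ k ih =>
    rcases k with _ | k
    · rw [h0]; simp [Ph, m_zero]
    have e1 := congrArg (coeff k) h
    have e2 := congrArg (coeff k) phi_ode
    rw [coeff_derivative, coeff_mul] at e1 e2
    have k0 : (0 : ℝ) < k + 1 := by positivity
    refine le_of_mul_le_mul_right ?_ k0
    rw [e2, ← abs_of_pos k0, ← abs_mul, e1]
    refine (abs_sum_le_sum_abs _ _).trans (sum_le_sum fun p hp => ?_)
    have := ih p.1 (by have := mem_antidiagonal.1 hp; omega)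
    rw [abs_mul]
    exact mul_le_mul this (hK _) (abs_nonneg _) ((abs_nonneg _).trans this)

lemma coef_le {n : ℕ} (a : Fin n → ℝ) (ha : ∑ i, a i ^ 2 = 1) (k : ℕ) :
    |coeff k (∏ i, rescale (a i) Ph)| ≤ coeff k Ph := by
  refine cmp (prod_ode a univ) ?_ (fun r => ?_) k
  · rw [coeff_zero_eq_constantCoeff, map_prod]
    refine prod_eq_one fun i _ => ?_
    rw [← coeff_zero_eq_constantCoeff, coeff_rescale]; simp [Ph, m_zero]
  · simp only [map_sum, coeff_C_mul, coeff_rescale, L, coeff_mk]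
    rcases r with _ | r
    · simp
    simp only [Nat.succ_ne_zero, if_false]
    refine (abs_sum_le_sum_abs _ _).trans ?_
    calc _ ≤ ∑ i, a i ^ 2 * 2 ^ (r + 1) := sum_le_sum fun i _ => by
          have h1 : a i ^ 2 ≤ 1 := ha ▸ single_le_sum (f := fun i => a i ^ 2)
            (fun i _ => sq_nonneg _) (mem_univ i)
          have h2 : |a i| ^ r ≤ 1 := pow_le_one₀ (abs_nonneg _) ((sq_le_one_iff_abs_le_one _).1 h1)
          have : |a i * (a i ^ (r + 1) * 2 ^ (r + 1))| = a i ^ 2 * 2 ^ (r + 1) * |a i| ^ r := by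
            rw [abs_mul, abs_mul, abs_pow, abs_pow, abs_two, ← sq_abs (a i)]; ring
          rw [this]; exact mul_le_of_le_one_right (by positivity) h2
      _ = _ := by rw [← sum_mul, ha, one_mul]

lemma moments {n : ℕ} (a : Fin n → ℝ) (s : Finset (Fin n)) : ∀ k : ℕ,
    Integrable (fun x : Fin n → ℝ => (∑ i ∈ s, a i * (x i ^ 2 - 1)) ^ k)
      (Measure.pi fun _ => gaussianReal 0 1) ∧
    ∫ x : Fin n → ℝ, (∑ i ∈ s, a i * (x i ^ 2 - 1)) ^ k ∂(Measure.pi fun _ => gaussianReal 0 1) =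
      k ! * coeff k (∏ i ∈ s, rescale (a i) Ph) := by
  induction s using Finset.induction_on with
  | empty => intro k; rcases k with _ | k <;> simp [coeff_one]
  | insert j s hj ih =>
    intro k
    have hI : iIndepFun (fun (i : Fin n) (ω : Fin n → ℝ) => (fun y : ℝ => a i * (y ^ 2 - 1)) (ω i))
      (Measure.pi fun _ => gaussianReal 0 1) :=
      iIndepFun_pi (X := fun (i : Fin n) (y : ℝ) => a i * (y ^ 2 - 1))
        (μ := fun _ => gaussianReal 0 1) fun i => by fun_prop
    have h1 := (hI.indepFun_finsetSum_of_notMem (fun i => by fun_prop) hj).symm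
    have h2 : ∀ u v : ℕ, IndepFun (fun x : Fin n → ℝ => (a j * (x j ^ 2 - 1)) ^ u)
        (fun x => (∑ i ∈ s, a i * (x i ^ 2 - 1)) ^ v) (Measure.pi fun _ => gaussianReal 0 1) :=
      fun u v => by
        have := h1.comp (measurable_id.pow_const u) (measurable_id.pow_const v)
        convert this using 2 with x <;> simp
    have i0 : ∀ u : ℕ, Integrable (fun y : ℝ => (a j * (y ^ 2 - 1)) ^ u) (gaussianReal 0 1) := fun u => by
      simp only [mul_pow]; exact (int_m u).const_mul _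
    have i1 : ∀ u : ℕ, Integrable (fun x : Fin n → ℝ => (a j * (x j ^ 2 - 1)) ^ u)
      (Measure.pi fun _ => gaussianReal 0 1) := fun u =>
        integrable_comp_eval (μ := fun _ : Fin n => gaussianReal 0 1) (i := j) (i0 u)
    have e1 : ∀ u : ℕ, ∫ x : Fin n → ℝ, (a j * (x j ^ 2 - 1)) ^ u ∂(Measure.pi fun _ => gaussianReal 0 1) =
        a j ^ u * m u := fun u => by
      rw [integral_comp_eval (μ := fun _ : Fin n => gaussianReal 0 1) (i := j) (i0 u).1]
      simp only [mul_pow, integral_const_mul, m]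
    have i2 : ∀ p : ℕ × ℕ, Integrable (fun x : Fin n → ℝ => (k.choose p.1 : ℝ) *
        ((a j * (x j ^ 2 - 1)) ^ p.1 * (∑ i ∈ s, a i * (x i ^ 2 - 1)) ^ p.2))
        (Measure.pi fun _ => gaussianReal 0 1) := fun p =>
      ((h2 p.1 p.2).integrable_mul (i1 _) (ih _).1).const_mul _
    have ap : ∀ x y : ℝ, (x + y) ^ k = ∑ p ∈ antidiagonal k, (k.choose p.1 : ℝ) * (x ^ p.1 * y ^ p.2) :=
      fun x y => by simp only [(Commute.all x y).add_pow', nsmul_eq_mul]
    simp only [sum_insert hj, prod_insert hj, ap]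
    refine ⟨integrable_finset_sum _ fun p _ => i2 p, ?_⟩
    rw [integral_finset_sum _ fun p _ => i2 p, coeff_mul, mul_sum]
    refine sum_congr rfl fun p hp => ?_
    rw [integral_const_mul, (h2 p.1 p.2).integral_fun_mul_eq_mul_integral (i1 _).1 (ih _).1.1, e1,
      (ih _).2, coeff_rescale, ← mem_antidiagonal.1 hp, Nat.cast_add_choose]
    simp only [Ph, coeff_mk]
    have : ((p.1 ! : ℕ) : ℝ) ≠ 0 := by positivity
    have : ((p.2 ! : ℕ) : ℝ) ≠ 0 := by positivity
    field_simp

theorem main {n : ℕ} (a : Fin n → ℝ) (ha : ∑ i, a i ^ 2 = 1) (k : ℕ) :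
    |∫ x : Fin n → ℝ, (∑ i, a i * (x i ^ 2 - 1)) ^ k ∂(Measure.pi fun _ => gaussianReal 0 1)| ≤ m k := by
  rw [(moments a univ k).2, abs_mul, abs_of_nonneg (by positivity)]
  refine (mul_le_mul_of_nonneg_left (coef_le a ha k) (by positivity)).trans (le_of_eq ?_)
  simp only [Ph, coeff_mk]
  have : ((k ! : ℕ) : ℝ) ≠ 0 := by positivity
  field_simp

end Pool.Agent.H80.Gq
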