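import Mathlib

namespace Pool.Agent.H80.Grid

open MvPolynomial

/-- Polynomials in `y` (outer variables) with coefficients polynomials in `x`. -/
abbrev Bi (s : ℕ) := MvPolynomial (Fin s) (MvPolynomial (Fin s) ℂ)

variable {s : ℕ}

/-- The value `F(u, v)`. -/
noncomputable def ev (F : Bi s) (u v : Fin s → ℂ) : ℂ := eval v (map (eval u) F)

/-- `H` is an irreducible affine hypersurface: the zero set of a nonconstant polynomial, whose
vanishing ideal is prime. -/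
def IrredHyp (H : Set ((Fin s → ℂ) × (Fin s → ℂ))) : Prop :=
  (∃ G : Bi s, (∀ c : ℂ, G ≠ C (C c)) ∧ H = {p | ev G p.1 p.2 = 0}) ∧ H.Nonempty ∧
    ∀ A B : Bi s, (∀ p ∈ H, ev (A * B) p.1 p.2 = 0) →
      (∀ p ∈ H, ev A p.1 p.2 = 0) ∨ ∀ p ∈ H, ev B p.1 p.2 = 0

/-- `V` contains no `(a, b)`-grid. -/
def GridFree {α β : Type} (a b : ℕ) (V : Set (α × β)) : Prop :=
  ¬ ∃ (S : Finset α) (T : Finset β), S.card = a ∧ T.card = b ∧ ∀ u ∈ S, ∀ v ∈ T, (u, v) ∈ V

/-- The polynomial map of `ℂ^s` with components `σ i`. -/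
noncomputable def pmap (σ : Fin s → MvPolynomial (Fin s) ℂ) (v : Fin s → ℂ) : Fin s → ℂ :=
  fun i => eval v (σ i)

/-- `σ` is a polynomial automorphism: a polynomial map with a polynomial inverse. -/
def IsAut (σ : Fin s → MvPolynomial (Fin s) ℂ) : Prop :=
  ∃ τ : Fin s → MvPolynomial (Fin s) ℂ, (∀ v, pmap σ (pmap τ v) = v) ∧ ∀ v, pmap τ (pmap σ v) = v

end Pool.Agent.H80.Grid
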