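import Mathlib
import Pool.Agent.H80.GridDefs

namespace Pool.Agent.H80.Grid

open MvPolynomial

lemma ev_mul {s : ℕ} (A B : Bi s) (u v : Fin s → ℂ) : ev (A * B) u v = ev A u v * ev B u v := by
  simp [ev]

lemma ev_add {s : ℕ} (A B : Bi s) (u v : Fin s → ℂ) : ev (A + B) u v = ev A u v + ev B u v := by
  simp [ev]

noncomputable def G (k : ℕ) : Bi 2 := C (X 0) * X 0 + C (X 1) * X 0 ^ k * X 1 + 1

lemma ev_G (k : ℕ) (u v : Fin 2 → ℂ) : ev (G k) u v = u 0 * v 0 + u 1 * v 0 ^ k * v 1 + 1 := by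
  simp [ev, G]

def H (k : ℕ) : Set ((Fin 2 → ℂ) × (Fin 2 → ℂ)) := {p | ev (G k) p.1 p.2 = 0}

lemma ne_zero {k : ℕ} (hk : k ≠ 0) {u v : Fin 2 → ℂ} (h : (u, v) ∈ H k) : v 0 ≠ 0 := by
  intro h0
  have : ev (G k) u v = 0 := h
  rw [ev_G, h0] at this
  simp [hk] at this

noncomputable def pu (k : ℕ) (w : Fin 3 → ℂ) : Fin 2 → ℂ := ![-(1 + w 0 * w 1 ^ k * w 2) / w 1, w 0]
def pv (w : Fin 3 → ℂ) : Fin 2 → ℂ := ![w 1, w 2]

def Clear (f : (Fin 3 → ℂ) → ℂ) : Prop :=
  ∃ (N : ℕ) (P : MvPolynomial (Fin 3) ℂ), ∀ w, w 1 ≠ 0 → eval w P = w 1 ^ N * f w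

lemma Clear.add {f g : (Fin 3 → ℂ) → ℂ} (hf : Clear f) (hg : Clear g) : Clear fun w => f w + g w := by
  obtain ⟨N, P, h1⟩ := hf
  obtain ⟨M, Q, h2⟩ := hg
  exact ⟨N + M, X 1 ^ M * P + X 1 ^ N * Q, fun w hw => by simp [h1 w hw, h2 w hw]; ring⟩

lemma Clear.mul {f g : (Fin 3 → ℂ) → ℂ} (hf : Clear f) (hg : Clear g) : Clear fun w => f w * g w := by
  obtain ⟨N, P, h1⟩ := hf
  obtain ⟨M, Q, h2⟩ := hg
  exact ⟨N + M, P * Q, fun w hw => by simp [h1 w hw, h2 w hw]; ring⟩

lemma clear_C (k : ℕ) (a : MvPolynomial (Fin 2) ℂ) : Clear fun w => eval (pu k w) a := by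
  induction a using MvPolynomial.induction_on with
  | C c => exact ⟨0, C c, fun w _ => by simp⟩
  | add p q hp hq => simpa using hp.add hq
  | mul_X p i hp =>
    have : Clear fun w => pu k w i := by
      fin_cases i
      · exact ⟨1, -(1 + X 0 * X 1 ^ k * X 2), fun w hw => by simp [pu]; field_simp⟩
      · exact ⟨0, X 0, fun w hw => by simp [pu]⟩
    simpa using hp.mul this

lemma clear (k : ℕ) (A : Bi 2) : Clear fun w => ev A (pu k w) (pv w) := by
  induction A using MvPolynomial.induction_on with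
  | C c => simpa [ev] using clear_C k c
  | add p q hp hq => simpa [ev_add] using hp.add hq
  | mul_X p i hp =>
    have : Clear fun w => pv w i := by
      fin_cases i
      · exact ⟨0, X 1, fun w hw => by simp [pv]⟩
      · exact ⟨0, X 2, fun w hw => by simp [pv]⟩
    simpa [ev] using hp.mul this

lemma param_mem (k : ℕ) {w : Fin 3 → ℂ} (hw : w 1 ≠ 0) : (pu k w, pv w) ∈ H k := by
  show ev (G k) _ _ = 0
  rw [ev_G]; simp [pu, pv]; field_simp; ring

lemma param_surj {k : ℕ} (hk : k ≠ 0) {p : (Fin 2 → ℂ) × (Fin 2 → ℂ)} (h : p ∈ H k) :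
    ∃ w : Fin 3 → ℂ, w 1 ≠ 0 ∧ pu k w = p.1 ∧ pv w = p.2 := by
  have h0 := ne_zero hk (u := p.1) (v := p.2) h
  have : ev (G k) p.1 p.2 = 0 := h
  rw [ev_G] at this
  refine ⟨![p.1 1, p.2 0, p.2 1], h0, ?_, ?_⟩
  · funext i; fin_cases i <;> simp [pu]
    field_simp; linear_combination -this
  · funext i; fin_cases i <;> simp [pv]

lemma irred {k : ℕ} (hk : k ≠ 0) : IrredHyp (H k) := by
  refine ⟨⟨G k, fun c hc => ?_, rfl⟩, ⟨_, param_mem k (w := fun _ => 1) one_ne_zero⟩, fun A B h => ?_⟩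
  · have h1 := ev_G k ![0, 0] ![1, 1]
    have h2 := ev_G k ![1, 0] ![1, 1]
    rw [hc] at h1 h2
    simp [ev] at h1 h2
    rw [h1] at h2; simp at h2
  · obtain ⟨N, P, h1⟩ := clear k A
    obtain ⟨M, Q, h2⟩ := clear k B
    have h3 : (X 1 : MvPolynomial (Fin 3) ℂ) * (P * Q) = 0 := by
      apply MvPolynomial.funext
      intro w
      by_cases hw : w 1 = 0
      · simp [hw]
      · have := h _ (param_mem k hw)
        rw [ev_mul] at this
        simp only [map_mul, h1 w hw, h2 w hw, map_zero, eval_X]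
        linear_combination (w 1 * w 1 ^ N * w 1 ^ M) * this
    rcases mul_eq_zero.1 ((mul_eq_zero.1 h3).resolve_left (X_ne_zero _)) with h4 | h4
    · left
      intro p hp
      obtain ⟨w, hw, e1, e2⟩ := param_surj hk hp
      have := h1 w hw
      simp only [h4, e1, e2, map_zero] at this
      exact (mul_eq_zero.1 this.symm).resolve_left (pow_ne_zero _ hw)
    · right
      intro p hp
      obtain ⟨w, hw, e1, e2⟩ := param_surj hk hp
      have := h2 w hw
      simp only [h4, e1, e2, map_zero] at this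
      exact (mul_eq_zero.1 this.symm).resolve_left (pow_ne_zero _ hw)

lemma gridFree {k : ℕ} (hk : k ≠ 0) : GridFree 2 2 (H k) := by
  classical
  rintro ⟨S, T, hS, hT, h⟩
  obtain ⟨u, u', hu, rfl⟩ := Finset.card_eq_two.1 hS
  obtain ⟨v, v', hv, rfl⟩ := Finset.card_eq_two.1 hT
  have m1 := h u (by simp) v (by simp)
  have m2 := h u (by simp) v' (by simp)
  have m3 := h u' (by simp) v (by simp)
  have m4 := h u' (by simp) v' (by simp)
  have n1 := ne_zero hk m1
  have e1 : ev (G k) u v = 0 := m1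
  have e2 : ev (G k) u v' = 0 := m2
  have e3 : ev (G k) u' v = 0 := m3
  have e4 : ev (G k) u' v' = 0 := m4
  rw [ev_G] at e1 e2 e3 e4
  set a := v 0
  set a' := v' 0
  set b := a ^ k * v 1 with hb
  set b' := a' ^ k * v' 1 with hb'
  rw [mul_assoc, ← hb] at e1 e3
  rw [mul_assoc, ← hb'] at e2 e4
  by_cases hd : a * b' - a' * b = 0
  · have ha : a = a' := by linear_combination a * e2 - a' * e1 - u 1 * hd
    have hbb : b = b' := by linear_combination b * e2 - b' * e1 + u 0 * hd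
    apply hv
    funext i; fin_cases i
    · exact ha
    · rw [hb, hb', ← ha] at hbb
      exact mul_left_cancel₀ (pow_ne_zero k n1) hbb
  · apply hu
    funext i; fin_cases i
    · apply mul_right_cancel₀ hd
      show u 0 * _ = u' 0 * _
      linear_combination b' * e1 - b * e2 - b' * e3 + b * e4
    · apply mul_right_cancel₀ hd
      show u 1 * _ = u' 1 * _
      linear_combination a * e2 - a' * e1 - a * e4 + a' * e3

noncomputable def g (k : ℕ) : MvPolynomial (Fin 2) ℂ := X 0 ^ k * X 1 + 1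

lemma red (k : ℕ) (f : MvPolynomial (Fin 2) ℂ) : ∃ (N : ℕ) (p : Polynomial ℂ),
    g k ∣ X 0 ^ N * f - Polynomial.aeval (X 0) p := by
  induction f using MvPolynomial.induction_on with
  | C c => exact ⟨0, Polynomial.C c, by simp⟩
  | add p q hp hq =>
    obtain ⟨N, a, ha⟩ := hp
    obtain ⟨M, b, hb⟩ := hq
    refine ⟨N + M, Polynomial.X ^ M * a + Polynomial.X ^ N * b, ?_⟩
    convert (ha.mul_left (X 0 ^ M)).add (hb.mul_left (X 0 ^ N)) using 1
    simp; ring
  | mul_X p i hp =>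
    obtain ⟨N, a, ha⟩ := hp
    fin_cases i
    · refine ⟨N, a * Polynomial.X, ?_⟩
      convert ha.mul_right (X 0) using 1
      simp; ring
    · refine ⟨N + k, -a, ?_⟩
      convert ((dvd_refl (g k)).mul_left (X 0 ^ N * p)).sub ha using 1
      simp [g]; ring

lemma g_dvd {k : ℕ} (hk : k ≠ 0) (f : MvPolynomial (Fin 2) ℂ) (h : ∀ v, eval v (g k) = 0 → eval v f = 0) :
    g k ∣ f := by
  obtain ⟨N, p, hp⟩ := red k f
  have h0 : p = 0 := by
    apply Polynomial.eq_zero_of_infinite_isRoot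
    refine (Set.Finite.infinite_compl (Set.finite_singleton (0 : ℂ))).mono fun t ht => ?_
    have ht : t ≠ 0 := ht
    have h1 : eval ![t, -(t ^ k)⁻¹] (g k) = 0 := by simp [g, ht]
    obtain ⟨c, hc⟩ := hp
    have h2 := congrArg (eval ![t, -(t ^ k)⁻¹]) hc
    rw [map_mul, h1, map_sub, map_mul, h _ h1, Polynomial.aeval_def, Polynomial.hom_eval₂] at h2
    have h3 : (eval ![t, -(t ^ k)⁻¹]).comp (algebraMap ℂ (MvPolynomial (Fin 2) ℂ)) = RingHom.id ℂ := by
      ext; simp
    rw [h3] at h2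
    simpa using h2
  rw [h0, map_zero, sub_zero] at hp
  have hc : IsCoprime (g k) (X 0 : MvPolynomial (Fin 2) ℂ) :=
    ⟨1, -(X 0 ^ (k - 1) * X 1), by
      obtain ⟨j, rfl⟩ : ∃ j, k = j + 1 := ⟨k - 1, by omega⟩
      simp [g]; ring⟩
  exact hc.pow_right.dvd_of_dvd_mul_left hp

lemma eval_bind (σ : Fin 2 → MvPolynomial (Fin 2) ℂ) (f : MvPolynomial (Fin 2) ℂ) (v : Fin 2 → ℂ) :
    eval v (aeval σ f) = eval (pmap σ v) f := by
  induction f using MvPolynomial.induction_on with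
  | C c => simp
  | add p q hp hq => simp only [map_add, hp, hq]
  | mul_X p i hp => simp only [map_mul, hp, aeval_X, eval_X]; rfl

lemma deg_ge {k : ℕ} (hk : k ≠ 0) {σ : Fin 2 → MvPolynomial (Fin 2) ℂ} (hσ : IsAut σ) {F : Bi 2}
    (h : H k = {p | ev F p.1 (pmap σ p.2) = 0}) : k ≤ F.totalDegree := by
  obtain ⟨τ, h1, h2⟩ := hσ
  obtain ⟨f, hf⟩ : ∃ f, f = map (eval ![(0 : ℂ), 1]) F := ⟨_, rfl⟩
  have hz : ∀ v, eval v (g k) = 0 ↔ eval (pmap σ v) f = 0 := by
    intro v
    have := Set.ext_iff.1 h (![0, 1], v)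
    simp only [H, Set.mem_setOf_eq, ev_G] at this
    simpa [g, ev, hf] using this
  have hd := g_dvd hk (aeval σ f) fun v hv => by rw [eval_bind]; exact (hz v).1 hv
  have hd2 := map_dvd (aeval τ) hd
  have he : aeval τ (aeval σ f) = f := MvPolynomial.funext fun v => by
    rw [eval_bind, eval_bind, h1]
  rw [he] at hd2
  have hf0 : f ≠ 0 := fun h0 => by
    have := (hz 0).2 (by simp [h0])
    simp [g, hk] at this
  have h3 := totalDegree_le_of_dvd_of_isDomain hd2 hf0
  have h4 : f.totalDegree ≤ F.totalDegree := by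
    rw [hf]; exact Finset.sup_mono (support_map_subset _ _)
  have ha : 1 ≤ (τ 0).totalDegree := by
    by_contra hn
    have h5 := (totalDegree_eq_zero_iff_eq_C).1 (show (τ 0).totalDegree = 0 by omega)
    have e1 : eval (pmap σ 0) (τ 0) = 0 := congrFun (h2 0) 0
    have e2 : eval (pmap σ 1) (τ 0) = 1 := congrFun (h2 1) 0
    rw [h5, eval_C] at e1 e2
    exact zero_ne_one (e1.symm.trans e2)
  have ha0 : τ 0 ≠ 0 := fun h0 => by simp [h0] at ha
  have hb0 : τ 1 ≠ 0 := fun h0 => by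
    have e2 : eval (pmap σ 1) (τ 1) = 1 := congrFun (h2 1) 1
    simp [h0] at e2
  have h6 : k ≤ (τ 0 ^ k * τ 1).totalDegree := by
    rw [totalDegree_mul_of_isDomain (pow_ne_zero _ ha0) hb0]
    have : ∀ j : ℕ, j ≤ (τ 0 ^ j).totalDegree := by
      intro j
      induction j with
      | zero => simp
      | succ j ih => rw [pow_succ, totalDegree_mul_of_isDomain (pow_ne_zero _ ha0) ha0]; omega
    exact le_add_right (this k)
  have h7 : aeval τ (g k) = τ 0 ^ k * τ 1 + 1 := by simp [g]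
  rw [h7, totalDegree_add_eq_left_of_totalDegree_lt (by simp; omega)] at h3
  omega

end Pool.Agent.H80.Grid
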