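import Mathlib

set_option autoImplicit false

namespace Pool.Agent.H80.Grw

open Finset Classical

abbrev Lb := ℕ × Bool

structure Game where
  dbl : ℕ → Prop
  N : ℕ
  Bot : Finset Lb → ℝ → Prop
  Top : Finset Lb → ℝ → Prop
  hB : ∀ c v, Bot c v → 0 ≤ v
  hT : ∀ c v, Top c v → 0 ≤ v
  mB : ∀ c v w, Bot c v → v ≤ w → Bot c w
  mT : ∀ c v w, Top c v → v ≤ w → Top c w

def dv (dbl : ℕ → Prop) (z : ℕ) : Prop := dbl (z - 1) ∧ dbl z

noncomputable def sd (dbl : ℕ → Prop) (τ : Bool) (z : ℕ) : Bool := τ && decide (dv dbl z)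

noncomputable def Inc (dbl : ℕ → Prop) (z : ℕ) (σ : Bool) : Finset Lb :=
  (({z, z - 1} : Finset ℕ) ×ˢ (univ : Finset Bool)).filter
    fun e => (e.2 = true → dbl e.1) ∧ (dv dbl z → e.2 = σ)

lemma mem_Inc {dbl : ℕ → Prop} {z : ℕ} {σ : Bool} {e : Lb} :
    e ∈ Inc dbl z σ ↔ (e.1 = z ∨ e.1 = z - 1) ∧ (e.2 = true → dbl e.1) ∧ (dv dbl z → e.2 = σ) := by
  simp [Inc, mem_product]

noncomputable def chL (dbl : ℕ → Prop) (c : Finset Lb) (z : ℕ) (σ : Bool) : Finset Lb :=
  if (Inc dbl z σ \ c).Nonempty then Inc dbl z σ \ c else Inc dbl z σ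

def nh (z : ℕ) (e : Lb) : ℕ := if e.1 = z then z + 1 else z - 1

abbrev Fam := Finset Lb → ℕ → Bool → ℝ → Prop

namespace Game
variable (G : Game)

def At (S : Fam) (c : Finset Lb) (h : ℕ) (e : Lb) (v : ℝ) : Prop :=
  if h = 0 then G.Bot c v else if h = G.N then G.Top c v else S (insert e c) h (sd G.dbl e.2 h) v

def T (S : Fam) : Fam := fun c z σ v =>
  0 ≤ v ∧ ∃ f : Lb → ℝ, ∑ e ∈ chL G.dbl c z σ, f e ≤ (chL G.dbl c z σ).card * v ∧
    ∀ e ∈ chL G.dbl c z σ, G.At S c (nh z e) e (f e)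

def Ok : Fam := fun c z σ v => ∃ S : Fam, (∀ c z σ v, S c z σ v → G.T S c z σ v) ∧ S c z σ v

variable {G}

lemma At_mono {S S' : Fam} (h : ∀ c z σ v, S c z σ v → S' c z σ v) {c h' e v} :
    G.At S c h' e v → G.At S' c h' e v := by
  unfold At; split_ifs
  · exact id
  · exact id
  · exact h _ _ _ _

lemma T_mono {S S' : Fam} (h : ∀ c z σ v, S c z σ v → S' c z σ v) {c z σ v} :
    G.T S c z σ v → G.T S' c z σ v := by
  rintro ⟨h0, f, h1, h2⟩
  exact ⟨h0, f, h1, fun e he => At_mono h (h2 e he)⟩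

lemma ok_unfold {c z σ v} (h : G.Ok c z σ v) : G.T G.Ok c z σ v := by
  obtain ⟨S, hS, h⟩ := h
  exact T_mono (fun c z σ v h => ⟨S, hS, h⟩) (hS _ _ _ _ h)

lemma ok_coind (S : Fam)
    (hS : ∀ c z σ v, S c z σ v → G.T (fun c z σ v => S c z σ v ∨ G.Ok c z σ v) c z σ v)
    {c z σ v} (h : S c z σ v) : G.Ok c z σ v := by
  refine ⟨fun c z σ v => S c z σ v ∨ G.Ok c z σ v, ?_, Or.inl h⟩
  rintro c z σ v (h | h)
  · exact hS _ _ _ _ h
  · exact T_mono (fun _ _ _ _ h => Or.inr h) (ok_unfold h)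

lemma ok_fold {c z σ v} (h : G.T G.Ok c z σ v) : G.Ok c z σ v :=
  ok_coind (G.T G.Ok) (fun _ _ _ _ h => T_mono (fun _ _ _ _ h => Or.inr h) h) h

lemma ok_nonneg {c z σ v} (h : G.Ok c z σ v) : 0 ≤ v := (ok_unfold h).1

lemma ok_mono {c z σ v w} (h : G.Ok c z σ v) (hw : v ≤ w) : G.Ok c z σ w := by
  obtain ⟨h0, f, h1, h2⟩ := ok_unfold h
  exact ok_fold ⟨h0.trans hw, f, h1.trans (by gcongr), h2⟩

lemma at_nonneg {c h e v} (H : G.At G.Ok c h e v) : 0 ≤ v := by
  unfold At at H; split_ifs at H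
  · exact G.hB _ _ H
  · exact G.hT _ _ H
  · exact ok_nonneg H

lemma at_le {c h e v w} (H : G.At G.Ok c h e v) (hw : v ≤ w) : G.At G.Ok c h e w := by
  unfold At at H ⊢; split_ifs at H ⊢
  · exact G.mB _ _ _ H hw
  · exact G.mT _ _ _ H hw
  · exact ok_mono H hw

lemma at_mid {S : Fam} {c h e v} (h0 : h ≠ 0) (hN : h ≠ G.N) :
    G.At S c h e v ↔ S (insert e c) h (sd G.dbl e.2 h) v := by
  simp [At, h0, hN]

lemma chL_eq {c : Finset Lb} {z σ} (s : Finset Lb) (hs : s.Nonempty)
    (h : ∀ e, e ∈ s ↔ e ∈ Inc G.dbl z σ ∧ e ∉ c) : chL G.dbl c z σ = s := by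
  have : Inc G.dbl z σ \ c = s := by ext e; simp [h]
  simp [chL, this, hs]

lemma ok_one {c z σ v} (e : Lb) (h : ∀ e', e' = e ↔ e' ∈ Inc G.dbl z σ ∧ e' ∉ c)
    (H : G.At G.Ok c (nh z e) e v) : G.Ok c z σ v := by
  have hc := chL_eq (G := G) (c := c) (z := z) (σ := σ) {e} (by simp) (by simpa using h)
  refine ok_fold ⟨at_nonneg H, fun _ => v, by simp [hc], ?_⟩
  rw [hc]; simpa using H

lemma ok_two {c z σ v1 v2} (e1 e2 : Lb) (hne : e1 ≠ e2)
    (h : ∀ e', (e' = e1 ∨ e' = e2) ↔ e' ∈ Inc G.dbl z σ ∧ e' ∉ c)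
    (H1 : G.At G.Ok c (nh z e1) e1 v1) (H2 : G.At G.Ok c (nh z e2) e2 v2) :
    G.Ok c z σ ((v1 + v2) / 2) := by
  have hc := chL_eq (G := G) (c := c) (z := z) (σ := σ) {e1, e2} (by simp) (by simpa using h)
  have a1 := at_nonneg H1
  have a2 := at_nonneg H2
  refine ok_fold ⟨by positivity, fun e => if e = e1 then v1 else v2, ?_, ?_⟩
  · rw [hc, sum_pair hne, card_pair hne]; simp [hne.symm]; linarith
  · rw [hc]; intro e he
    simp only [mem_insert, mem_singleton] at he
    rcases he with rfl | rfl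
    · simpa using H1
    · simpa [hne.symm] using H2

lemma run_up (α β : ℕ) (τ : Bool) (D : Prop) (hD : ∀ z, α ≤ z → z < β → (G.dbl z ↔ D))
    (hτ : τ = true → D) (hβ : β < G.N) (v : ℝ) :
    ∀ d z c, z + d = β → α < z → (z - 1, τ) ∈ c → (∀ y, z ≤ y → y < β → (y, τ) ∉ c) →
      (∀ c' : Finset Lb, (∀ e, e ∈ c' ↔ e ∈ c ∨ (z ≤ e.1 ∧ e.1 < β ∧ e.2 = τ)) →
        G.Ok c' β (sd G.dbl τ β) v) → G.Ok c z (sd G.dbl τ z) v := by
  intro d
  induction d with
  | zero =>
    intro z c hz _ _ _ H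
    obtain rfl : z = β := by omega
    exact H c (fun e => ⟨Or.inl, fun h => h.elim id (fun h => by omega)⟩)
  | succ d ih =>
    intro z c hz ha h1 h2 H
    have d1 := hD z (by omega) (by omega)
    have d2 := hD (z - 1) (by omega) (by omega)
    refine ok_one (z, τ) ?_ ?_
    · rintro ⟨y, t⟩
      have := h2 z le_rfl (by omega)
      simp only [mem_Inc, dv, sd, Prod.mk.injEq]
      constructor
      · rintro ⟨rfl, rfl⟩
        refine ⟨⟨Or.inl rfl, fun h => d1.2 (hτ h), fun h => by simp [h]⟩, this⟩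
      · rintro ⟨⟨hy, h3, h4⟩, h5⟩
        have ht : t = τ := by
          by_cases hd : D
          · simpa [d1.2 hd, d2.2 hd] using h4
          · have : τ = false := by simpa using fun h => hd (hτ h)
            have : t = false := by
              rcases hy with rfl | rfl
              · simpa using fun h => hd (d1.1 (h3 h))
              · simpa using fun h => hd (d2.1 (h3 h))
            simp [*]
        subst ht
        rcases hy with rfl | rfl
        · simp
        · exact absurd h1 h5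
    · rw [show nh z (z, τ) = z + 1 by simp [nh], at_mid (by omega) (by omega)]
      refine ih (z + 1) _ (by omega) (by omega) (by simp) ?_ ?_
      · intro y hy hy'
        simp only [mem_insert, Prod.mk.injEq, not_or]
        exact ⟨fun h => by omega, h2 y (by omega) hy'⟩
      · intro c' hc'
        refine H c' fun e => (hc' e).trans ?_
        obtain ⟨y, t⟩ := e
        simp only [mem_insert, Prod.mk.injEq]
        constructor
        · rintro ((⟨rfl, rfl⟩ | h) | h)
          · exact Or.inr ⟨le_rfl, by omega, rfl⟩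
          · exact Or.inl h
          · exact Or.inr ⟨by omega, h.2⟩
        · rintro (h | ⟨h, h', rfl⟩)
          · exact Or.inl (Or.inr h)
          · by_cases hy : y = z
            · exact Or.inl (Or.inl ⟨hy, rfl⟩)
            · exact Or.inr ⟨by omega, h', rfl⟩

lemma run_down (α β : ℕ) (τ : Bool) (D : Prop) (hD : ∀ z, α ≤ z → z < β → (G.dbl z ↔ D))
    (hτ : τ = true → D) (hα : 1 ≤ α) (hβ : β ≤ G.N) (v : ℝ) :
    ∀ d z c, α + d = z → z < β → (z, τ) ∈ c → (∀ y, α ≤ y → y < z → (y, τ) ∉ c) →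
      (∀ c' : Finset Lb, (∀ e, e ∈ c' ↔ e ∈ c ∨ (α ≤ e.1 ∧ e.1 < z ∧ e.2 = τ)) →
        G.Ok c' α (sd G.dbl τ α) v) → G.Ok c z (sd G.dbl τ z) v := by
  intro d
  induction d with
  | zero =>
    intro z c hz _ _ _ H
    obtain rfl : α = z := by omega
    exact H c (fun e => ⟨Or.inl, fun h => h.elim id (fun h => by omega)⟩)
  | succ d ih =>
    intro z c hz ha h1 h2 H
    have d1 := hD z (by omega) (by omega)
    have d2 := hD (z - 1) (by omega) (by omega)
    refine ok_one (z - 1, τ) ?_ ?_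
    · rintro ⟨y, t⟩
      have := h2 (z - 1) (by omega) (by omega)
      simp only [mem_Inc, dv, sd, Prod.mk.injEq]
      constructor
      · rintro ⟨rfl, rfl⟩
        refine ⟨⟨Or.inr rfl, fun h => d2.2 (hτ h), fun h => by simp [h]⟩, this⟩
      · rintro ⟨⟨hy, h3, h4⟩, h5⟩
        have ht : t = τ := by
          by_cases hd : D
          · simpa [d1.2 hd, d2.2 hd] using h4
          · have : τ = false := by simpa using fun h => hd (hτ h)
            have : t = false := by
              rcases hy with rfl | rfl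
              · simpa using fun h => hd (d1.1 (h3 h))
              · simpa using fun h => hd (d2.1 (h3 h))
            simp [*]
        subst ht
        rcases hy with rfl | rfl
        · exact absurd h1 h5
        · simp
    · rw [show nh z (z - 1, τ) = z - 1 by simp [nh]; omega, at_mid (by omega) (by omega)]
      refine ih (z - 1) _ (by omega) (by omega) (by simp) ?_ ?_
      · intro y hy hy'
        simp only [mem_insert, Prod.mk.injEq, not_or]
        exact ⟨fun h => by omega, h2 y hy (by omega)⟩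
      · intro c' hc'
        refine H c' fun e => (hc' e).trans ?_
        obtain ⟨y, t⟩ := e
        simp only [mem_insert, Prod.mk.injEq]
        constructor
        · rintro ((⟨rfl, rfl⟩ | h) | h)
          · exact Or.inr ⟨by omega, by omega, rfl⟩
          · exact Or.inl h
          · exact Or.inr ⟨h.1, by omega, h.2.2⟩
        · rintro (h | ⟨h, h', rfl⟩)
          · exact Or.inl (Or.inr h)
          · by_cases hy : y = z - 1
            · exact Or.inl (Or.inl ⟨hy, rfl⟩)
            · exact Or.inr ⟨h, by omega, rfl⟩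

end Game
end Pool.Agent.H80.Grw
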