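import Pool.Agent.H80.Grw9

set_option autoImplicit false

namespace Pool.Agent.H80.Grw

open Finset Classical MeasureTheory

def LL (j : ℕ) : ℕ := 4 * (2 * j + 1) * (3 * (2 * j + 1) ^ 3)

def st : ℕ → ℕ × ℕ
  | 0 => (0, 0)
  | n + 1 => if (st n).2 + 1 < LL (st n).1 then ((st n).1, (st n).2 + 1) else ((st n).1 + 1, 0)

def tt (j : ℕ) : ℕ := ∑ i ∈ range j, LL i

lemma LL_pos (j : ℕ) : 0 < LL j := by unfold LL; positivity
lemma tt_succ (j : ℕ) : tt (j + 1) = tt j + LL j := sum_range_succ _ _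
lemma tt_mono {i j : ℕ} (h : i ≤ j) : tt i ≤ tt j := sum_le_sum_of_subset (range_mono h)
lemma tt_ge (j : ℕ) : j ≤ tt j := by
  induction j with
  | zero => simp
  | succ j ih => have := LL_pos j; rw [tt_succ]; omega
lemma tt_le (j : ℕ) : tt j ≤ j * LL j := by
  have := sum_le_card_nsmul (range j) LL (LL j) fun i hi => by
    have := (mem_range.1 hi).le
    unfold LL; gcongr
  simpa [tt] using this

lemma st_inv (n : ℕ) : (st n).2 < LL (st n).1 ∧ n = tt (st n).1 + (st n).2 := by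
  induction n with
  | zero => exact ⟨LL_pos 0, by simp [st, tt]⟩
  | succ n ih =>
    rw [st]; split_ifs with h
    · exact ⟨h, by simp only; omega⟩
    · exact ⟨LL_pos _, by simp only [tt_succ]; omega⟩

lemma st_surj {j u : ℕ} (hu : u < LL j) : st (tt j + u) = (j, u) := by
  obtain ⟨a, b⟩ := st_inv (tt j + u)
  have : (st (tt j + u)).1 = j := by
    rcases lt_trichotomy (st (tt j + u)).1 j with h | h | h
    · have := tt_mono (show _ + 1 ≤ j from h); rw [tt_succ] at this; omega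
    · exact h
    · have := tt_mono (show j + 1 ≤ _ from h); rw [tt_succ] at this; omega
  exact Prod.ext this (by rw [this] at b; simp only; omega)

def dg (j i : ℕ) (l : Fin 3) : ℤ := (i / 3 / (2 * j + 1) ^ (l : ℕ) % (2 * j + 1) : ℕ) - (j : ℤ)

def xx (j i : ℕ) (l : Fin 3) : ℤ :=
  if (l : ℕ) = i % 3 then (if 0 ≤ dg j i l then j else -j) else dg j i l

def cf (j i r : ℕ) (l : Fin 3) : ℤ :=
  min j (max (xx j i l) (j - if (l : ℕ) = i % 3 then (r : ℤ) else r - (2 * j + 1)))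

def pos (j u : ℕ) : Fin 3 → ℤ :=
  cf j (u / (4 * (2 * j + 1))) (min (u % (4 * (2 * j + 1))) (4 * (2 * j + 1) - u % (4 * (2 * j + 1))))

def ww (n : ℕ) : Fin 3 → ℤ := pos (st n).1 (st n).2

lemma xx_bd (j i : ℕ) (l : Fin 3) : -(j : ℤ) ≤ xx j i l ∧ xx j i l ≤ j := by
  have := Nat.mod_lt (i / 3 / (2 * j + 1) ^ (l : ℕ)) (show 0 < 2 * j + 1 by omega)
  unfold xx dg; split_ifs <;> omega

lemma cf_bd (j i r : ℕ) (l : Fin 3) : -(j : ℤ) ≤ cf j i r l ∧ cf j i r l ≤ j ∧ j - r ≤ cf j i r l := by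
  have := xx_bd j i l
  unfold cf; split_ifs <;> omega

lemma cf_shell (j i r : ℕ) : ∃ l, cf j i r l = j ∨ cf j i r l = -j := by
  by_cases h : r ≤ 2 * j + 1
  · refine ⟨⟨(i + 1) % 3, by omega⟩, Or.inl ?_⟩
    unfold cf; rw [if_neg (by simp only; omega)]; omega
  · refine ⟨⟨i % 3, by omega⟩, ?_⟩
    unfold cf xx; simp only [if_true]; split_ifs <;> omega

lemma ww_step (n : ℕ) (l : Fin 3) : (ww n l - ww (n + 1) l).natAbs ≤ 2 := by
  obtain ⟨a, -⟩ := st_inv n
  unfold ww pos; rw [st]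
  generalize st n = q at *
  obtain ⟨j, u⟩ := q
  simp only at a ⊢
  have m0 : 0 < 4 * (2 * j + 1) := by omega
  have d := Nat.mod_add_div u (4 * (2 * j + 1))
  have r0 := Nat.mod_lt u m0
  have last : u % (4 * (2 * j + 1)) + 1 < 4 * (2 * j + 1) →
      (u + 1) / (4 * (2 * j + 1)) = u / (4 * (2 * j + 1)) ∧
      (u + 1) % (4 * (2 * j + 1)) = u % (4 * (2 * j + 1)) + 1 := fun h =>
    (Nat.div_mod_unique m0).2 ⟨by omega, h⟩
  have b1 := cf_bd j (u / (4 * (2 * j + 1))) (min (u % (4 * (2 * j + 1)))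
    (4 * (2 * j + 1) - u % (4 * (2 * j + 1)))) l
  split_ifs with h
  · simp only
    by_cases h' : u % (4 * (2 * j + 1)) + 1 < 4 * (2 * j + 1)
    · rw [(last h').1, (last h').2]
      unfold cf; split_ifs <;> omega
    · have : (u + 1) % (4 * (2 * j + 1)) = 0 := by
        rw [show u + 1 = 4 * (2 * j + 1) * (u / (4 * (2 * j + 1)) + 1) by rw [mul_add]; omega]
        simp
      have b2 := cf_bd j ((u + 1) / (4 * (2 * j + 1))) 0 l
      rw [this, Nat.zero_min]; omega
  · have : ¬ u % (4 * (2 * j + 1)) + 1 < 4 * (2 * j + 1) := fun h' => by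
      have := (last h').2
      rw [show u + 1 = LL j by omega, LL, Nat.mul_mod_right] at this; omega
    have b2 := cf_bd (j + 1) 0 0 l
    simp only [Nat.zero_div, Nat.zero_mod, Nat.zero_min]
    omega

lemma ww_surj (p : Fin 3 → ℤ) : ∃ n, ww n = p := by
  obtain ⟨k, -, hk⟩ := exists_max_image univ (fun l => (p l).natAbs) univ_nonempty
  set j := (p k).natAbs with hj
  have hb : ∀ l, (p l + j).toNat < 2 * j + 1 := fun l => by have := hk l (mem_univ _); omega
  set Q := 2 * j + 1 with hQ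
  have Q0 : 0 < Q := by omega
  set d := (p 0 + j).toNat + Q * ((p 1 + j).toNat + Q * (p 2 + j).toNat) with hd
  have d1 : d < Q ^ 3 := by
    have := hb 0; have := hb 1; have := hb 2
    have : (p 1 + j).toNat + Q * (p 2 + j).toNat + 1 ≤ Q * Q := by nlinarith
    nlinarith
  have hu : 2 * Q + 4 * Q * (k + 3 * d) < LL j := by
    have := k.2
    have : 4 * Q * (k + 3 * d + 1) ≤ 4 * Q * (3 * Q ^ 3) := Nat.mul_le_mul_left _ (by omega)
    unfold LL; rw [← hQ]; nlinarith
  refine ⟨tt j + (2 * Q + 4 * Q * (k + 3 * d)), ?_⟩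
  have dm := (Nat.div_mod_unique (show 0 < 4 * Q by omega)).2
    ⟨(rfl : 2 * Q + 4 * Q * (k + 3 * d) = _), by omega⟩
  rw [ww, st_surj hu, pos, ← hQ, dm.1, dm.2]
  have e1 : (k + 3 * d) % 3 = k := by have := k.2; omega
  have e2 : (k + 3 * d) / 3 = d := by have := k.2; omega
  have e3 : ∀ l, dg j (k + 3 * d) l = p l := by
    intro l
    have : d / Q ^ (l : ℕ) % Q = (p l + j).toNat := by
      have a := Nat.div_mod_unique Q0 |>.2 ⟨hd.symm, hb 0⟩
      have b := Nat.div_mod_unique Q0 |>.2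
        ⟨(rfl : (p 1 + j).toNat + Q * (p 2 + j).toNat = _), hb 1⟩
      fin_cases l
      · simpa using a.2
      · simpa [a.1] using b.2
      · simp only [pow_two, ← Nat.div_div_eq_div_mul, a.1, b.1]
        exact Nat.mod_eq_of_lt (hb 2)
    have := hk l (mem_univ _)
    unfold dg; rw [e2, ← hQ, ‹d / _ % Q = _›]; omega
  funext l
  have := hk l (mem_univ _)
  unfold cf xx; rw [e1, e3]
  split_ifs with h1 h2
  · obtain rfl : l = k := Fin.ext h1
    omega
  · obtain rfl : l = k := Fin.ext h1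
    omega
  · omega

def dz (p q : Fin 3 → ℤ) : ℕ := ∑ i, (p i - q i).natAbs

lemma l1_eq (p q : Fin 3 → ℤ) : l1 p q = dz p q := by
  simp [l1, dz, Nat.cast_natAbs]

lemma nb_bd {m n : ℕ} (h : dz (ww m) (ww n) ≤ 1) : n + 1 ≤ 15000 * (m + 1) ^ 5 := by
  obtain ⟨a, b⟩ := st_inv n
  obtain ⟨-, c⟩ := st_inv m
  have j1 : (st n).1 ≤ (st m).1 + 1 := by
    obtain ⟨l, hl⟩ : ∃ l, ww n l = (st n).1 ∨ ww n l = -(st n).1 := cf_shell _ _ _
    have : -((st m).1 : ℤ) ≤ ww m l ∧ ww m l ≤ (st m).1 ∧ _ := cf_bd _ _ _ _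
    have := single_le_sum (f := fun i => (ww m i - ww n i).natAbs) (fun _ _ => Nat.zero_le _)
      (mem_univ l)
    unfold dz at h; omega
  have j2 := tt_ge (st m).1
  have j3 := tt_mono (show (st n).1 + 1 ≤ m + 2 by omega)
  rw [tt_succ] at j3
  have j4 := tt_le (m + 2)
  have : (m + 2) * LL (m + 2) ≤ (2 * (m + 1)) * (4 * (5 * (m + 1)) * (3 * (5 * (m + 1)) ^ 3)) := by
    unfold LL; gcongr <;> omega
  have e : (2 * (m + 1)) * (4 * (5 * (m + 1)) * (3 * (5 * (m + 1)) ^ 3)) = 15000 * (m + 1) ^ 5 := by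
    ring
  omega

lemma dz_comm (p q : Fin 3 → ℤ) : dz p q = dz q p := by
  simp only [dz, Fin.sum_univ_three]; omega
lemma dz_tri (p q r : Fin 3 → ℤ) : dz p r ≤ dz p q + dz q r := by
  simp only [dz, Fin.sum_univ_three]; omega

lemma hJ1 (m : ℕ) : 15000 * (m + 1) ^ 5 + 1 ≤ 15001 * (m + 1) ^ 5 := by
  have : 1 ≤ (m + 1) ^ 5 := Nat.one_le_pow _ _ (by omega)
  omega

noncomputable def P1 : Par where
  E := (exists_E (fun m => 15000 * (m + 1) ^ 5) 15001 5 hJ1).choose
  Sh m n := m ≠ n ∧ dz (ww m) (ww n) ≤ 1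
  J m := 15000 * (m + 1) ^ 5
  symm _ _ h := ⟨h.1.symm, dz_comm _ _ ▸ h.2⟩
  irr _ _ h := h.1
  bd _ _ h := by have := nb_bd h.2; omega
  hE := (exists_E (fun m => 15000 * (m + 1) ^ 5) 15001 5 hJ1).choose_spec

lemma adj_dz {u v : Vx P1} (h : (GG P1).Adj u v) : dz (ww u.n) (ww v.n) ≤ 6 := by
  have nn : ∀ n g z τ, (node P1 n g z τ).n = n ∨ (node P1 n g z τ).n = n + 1 := fun n g z τ => by
    unfold node; split_ifs <;> simp
  have s1 : ∀ n, dz (ww n) (ww (n + 1)) ≤ 6 := fun n => by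
    have := ww_step n 0; have := ww_step n 1; have := ww_step n 2
    simp only [dz, Fin.sum_univ_three]; omega
  have s2 : ∀ n a b, (a = n ∨ a = n + 1) → (b = n ∨ b = n + 1) → dz (ww a) (ww b) ≤ 6 := by
    rintro n a b (rfl | rfl) (rfl | rfl)
    · simp [dz]
    · exact s1 _
    · exact dz_comm _ _ ▸ s1 _
    · simp [dz]
  rcases ((SimpleGraph.fromEdgeSet_adj _).1 h).1 with ⟨n, g, l, -, -, he⟩ | ⟨i, j, hs, he⟩
  · rcases Sym2.eq_iff.1 he with ⟨rfl, rfl⟩ | ⟨rfl, rfl⟩ <;> exact s2 n _ _ (nn ..) (nn ..)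
  · have := hs.2
    rcases Sym2.eq_iff.1 he with ⟨rfl, rfl⟩ | ⟨rfl, rfl⟩
    · simp only [hub_n]; omega
    · simp only [hub_n]; rw [dz_comm]; omega

lemma hub_dist : ∀ k m n, dz (ww m) (ww n) = k → (GG P1).dist (hub P1 m) (hub P1 n) ≤ k + 1 := by
  have one : ∀ m n, dz (ww m) (ww n) ≤ 1 → (GG P1).dist (hub P1 m) (hub P1 n) ≤ 1 := by
    intro m n h
    by_cases e : m = n
    · simp [e]
    · exact (SimpleGraph.dist_eq_one_iff_adj.2 (adj_sh (P := P1) ⟨e, h⟩)).le
  intro k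
  induction k with
  | zero => intro m n h; exact one m n (by omega)
  | succ k ih =>
    intro m n h
    obtain ⟨q, q1, q2⟩ : ∃ q, dz (ww m) q = k ∧ dz q (ww n) ≤ 1 := by
      generalize ww m = a at *
      generalize ww n = b at *
      simp only [dz, Fin.sum_univ_three] at h ⊢
      by_cases h0 : a 0 = b 0
      · by_cases h1 : a 1 = b 1
        · exact ⟨![b 0, b 1, if a 2 < b 2 then b 2 - 1 else b 2 + 1], by
            simp; split_ifs <;> omega, by simp; split_ifs <;> omega⟩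
        · exact ⟨![b 0, if a 1 < b 1 then b 1 - 1 else b 1 + 1, b 2], by
            simp; split_ifs <;> omega, by simp; split_ifs <;> omega⟩
      · exact ⟨![if a 0 < b 0 then b 0 - 1 else b 0 + 1, b 1, b 2], by
            simp; split_ifs <;> omega, by simp; split_ifs <;> omega⟩
    obtain ⟨i, rfl⟩ := ww_surj q
    have := ih m i q1
    have := one i n q2
    have := (conn (P := P1)).dist_triangle (u := hub P1 m) (v := hub P1 i) (w := hub P1 n)
    omega

lemma rough : RoughZ3 (GG P1) := by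
  refine ⟨fun X => ww X.n, 6, 2 * NN + 1, 0, by norm_num, by positivity, le_rfl,
    fun x y => ⟨?_, ?_⟩, fun p => ?_⟩
  · have a : ∀ v : Vx P1, (GG P1).dist v (hub P1 v.n) ≤ NN := fun v => by
      obtain ⟨p, hp⟩ := reach_dist v v.n v.z rfl (Or.inl le_rfl)
      have := SimpleGraph.dist_le p
      have := v.hz
      omega
    have b := hub_dist _ x.n y.n rfl
    have t1 := (conn (P := P1)).dist_triangle (u := x) (v := hub P1 x.n) (w := y)
    have t2 := (conn (P := P1)).dist_triangle (u := hub P1 x.n) (v := hub P1 y.n) (w := y)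
    have := a x
    have := a y
    rw [SimpleGraph.dist_comm] at this
    have : (GG P1).dist x y ≤ dz (ww x.n) (ww y.n) + (2 * NN + 1) := by omega
    have : ((GG P1).dist x y : ℝ) ≤ dz (ww x.n) (ww y.n) + (2 * NN + 1) := by exact_mod_cast this
    have : (0 : ℝ) ≤ (GG P1).dist x y := by positivity
    rw [l1_eq]; linarith
  · obtain ⟨p, hp⟩ := (conn (P := P1)).exists_walk_length_eq_dist x y
    have : dz (ww x.n) (ww y.n) ≤ 6 * p.length := by
      clear hp
      induction p with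
      | nil => simp [dz]
      | @cons u v w h p ih =>
        have := adj_dz h
        have := dz_tri (ww u.n) (ww v.n) (ww w.n)
        simp only [SimpleGraph.Walk.length_cons]; omega
    rw [hp] at this
    have : (dz (ww x.n) (ww y.n) : ℝ) ≤ 6 * (GG P1).dist x y := by exact_mod_cast this
    have : (0 : ℝ) ≤ NN := by positivity
    rw [l1_eq]; linarith
  · obtain ⟨n, rfl⟩ := ww_surj p
    exact ⟨hub P1 n, by simp [l1]⟩

end Pool.Agent.H80.Grw
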