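import Pool.Agent.H80.Grw1

set_option autoImplicit false

namespace Pool.Agent.H80.Grw

open Finset Classical

noncomputable def drop (dbl : ℕ → Prop) (z : ℕ) : ℝ := if dbl z then 1 / 2 else 1

noncomputable def phi (dbl : ℕ → Prop) (z : ℕ) : ℝ := ∑ y ∈ range z, drop dbl y

noncomputable def uu (dbl : ℕ → Prop) (c : Finset Lb) (z : ℕ) : ℝ :=
  (if (z, false) ∈ c then 0 else drop dbl z) + (if dbl z ∧ (z, true) ∉ c then drop dbl z else 0)

noncomputable def U (dbl : ℕ → Prop) (lo hi : ℕ) (c : Finset Lb) : ℝ := ∑ z ∈ Ico lo hi, uu dbl c z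

variable {dbl : ℕ → Prop}

lemma drop_pos (z : ℕ) : 1 / 2 ≤ drop dbl z ∧ drop dbl z ≤ 1 := by
  unfold drop; split_ifs <;> norm_num

lemma phi_succ (z : ℕ) : phi dbl (z + 1) = phi dbl z + drop dbl z := by simp [phi, sum_range_succ]

lemma phi_bd (a d : ℕ) : (d : ℝ) / 2 ≤ phi dbl (a + d) - phi dbl a ∧ phi dbl (a + d) - phi dbl a ≤ d := by
  induction d with
  | zero => simp
  | succ d ih =>
    have := drop_pos (dbl := dbl) (a + d)
    rw [← add_assoc, phi_succ]; push_cast; constructor <;> linarith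

lemma phi_zero : phi dbl 0 = 0 := by simp [phi]

lemma phi_mono {a b : ℕ} (h : a ≤ b) : phi dbl a ≤ phi dbl b := by
  obtain ⟨d, rfl⟩ := Nat.exists_eq_add_of_le h
  have := (phi_bd (dbl := dbl) a d).1
  have : (0 : ℝ) ≤ d := by positivity
  linarith

lemma uu_bd (c : Finset Lb) (z : ℕ) : 0 ≤ uu dbl c z ∧ uu dbl c z ≤ 1 := by
  unfold uu drop; by_cases h : dbl z <;> simp [h] <;> split_ifs <;> norm_num

lemma uu_mono {c c' : Finset Lb} (h : ∀ e ∈ c, e ∈ c') (z : ℕ) : uu dbl c' z ≤ uu dbl c z := by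
  have h1 := h (z, false)
  have h2 := h (z, true)
  have := drop_pos (dbl := dbl) z
  unfold uu
  by_cases a1 : (z, false) ∈ c <;> by_cases a2 : (z, true) ∈ c <;> by_cases a3 : dbl z <;>
    by_cases a4 : (z, false) ∈ c' <;> by_cases a5 : (z, true) ∈ c' <;> simp_all <;> linarith

lemma U_nonneg (lo hi : ℕ) (c : Finset Lb) : 0 ≤ U dbl lo hi c :=
  sum_nonneg fun z _ => (uu_bd c z).1

lemma U_mono (lo hi : ℕ) {c c' : Finset Lb} (h : ∀ e ∈ c, e ∈ c') : U dbl lo hi c' ≤ U dbl lo hi c :=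
  sum_le_sum fun z _ => uu_mono h z

lemma U_add {lo mid hi : ℕ} (h1 : lo ≤ mid) (h2 : mid ≤ hi) (c : Finset Lb) :
    U dbl lo hi c = U dbl lo mid c + U dbl mid hi c := (sum_Ico_consecutive _ h1 h2).symm

lemma U_le (lo hi : ℕ) (c : Finset Lb) (q : ℝ) (h : ∀ z, lo ≤ z → z < hi → uu dbl c z ≤ q) :
    U dbl lo hi c ≤ (hi - lo : ℕ) * q := by
  have := sum_le_card_nsmul (Ico lo hi) (uu dbl c) q
    (fun z hz => h z (mem_Ico.1 hz).1 (mem_Ico.1 hz).2)
  simpa [U] using this

lemma U_le_one (lo hi : ℕ) (c : Finset Lb) : U dbl lo hi c ≤ (hi - lo : ℕ) := by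
  simpa using U_le (dbl := dbl) lo hi c 1 fun z _ _ => (uu_bd c z).2

lemma U_zero (lo hi : ℕ) (c : Finset Lb)
    (h : ∀ z, lo ≤ z → z < hi → (z, false) ∈ c ∧ (dbl z → (z, true) ∈ c)) : U dbl lo hi c ≤ 0 := by
  simpa using U_le (dbl := dbl) lo hi c 0 fun z a b => by
    have := h z a b
    unfold uu; by_cases hd : dbl z <;> simp_all

lemma U_half (lo hi : ℕ) (c : Finset Lb) (τ : Bool)
    (h : ∀ z, lo ≤ z → z < hi → dbl z ∧ (z, τ) ∈ c) : U dbl lo hi c ≤ (hi - lo : ℕ) * (1 / 2) :=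
  U_le lo hi c _ fun z a b => by
    have := h z a b
    unfold uu drop; cases τ <;> simp_all <;> split_ifs <;> norm_num

lemma U_insert {lo hi : ℕ} {c : Finset Lb} {e : Lb} (h1 : lo ≤ e.1) (h2 : e.1 < hi)
    (h3 : e.2 = true → dbl e.1) (h4 : e ∉ c) :
    U dbl lo hi (insert e c) ≤ U dbl lo hi c - drop dbl e.1 := by
  have : ∀ z ∈ Ico lo hi, uu dbl (insert e c) z ≤
      uu dbl c z - if z = e.1 then drop dbl e.1 else 0 := by
    intro z _
    split_ifs with hz
    · subst hz
      obtain ⟨y, t⟩ := e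
      unfold uu
      cases t <;> simp_all
    · simpa using uu_mono (fun e he => mem_insert_of_mem he) z
  have := sum_le_sum this
  rw [sum_sub_distrib, sum_ite_eq'] at this
  simpa [h1, h2, U] using this

lemma harm (z : ℕ) (hz : 1 ≤ z) (σ : Bool) :
    ∑ e ∈ Inc dbl z σ, (phi dbl (nh z e) - phi dbl z) = 0 := by
  obtain ⟨y, rfl⟩ : ∃ y, z = y + 1 := ⟨z - 1, by omega⟩
  unfold Inc
  rw [sum_filter, sum_product, sum_pair (by omega)]
  simp only [Fintype.sum_bool, nh, dv, Nat.add_sub_cancel, if_true,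
    show ¬ y = y + 1 by omega, if_false, phi_succ]
  unfold drop
  by_cases h1 : dbl y <;> by_cases h2 : dbl (y + 1) <;> cases σ <;> simp [h1, h2] <;> norm_num

namespace Game
variable {G : Game}

lemma robust (lo hi : ℕ) (hlo : 1 ≤ lo) (hhi : hi < G.N) (P : Finset Lb → Prop) (c0 θ μ : ℝ)
    (h0 : 0 ≤ θ) (hμ : θ ≤ μ) (d1 : ¬ G.dbl (lo - 1)) (d2 : ¬ G.dbl hi)
    (hc : 0 ≤ c0 + θ * phi G.dbl lo)
    (hP : ∀ c e, P c → lo ≤ e.1 → e.1 < hi → P (insert e c))
    (bl : ∀ c, P c → G.At G.Ok c (lo - 1) (lo - 1, false)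
      (c0 + θ * phi G.dbl lo + μ * U G.dbl lo hi c - if (lo - 1, false) ∈ c then θ else 0))
    (bh : ∀ c, P c → G.At G.Ok c (hi + 1) (hi, false)
      (c0 + θ * phi G.dbl hi + μ * U G.dbl lo hi c + if (hi, false) ∈ c then θ else 0))
    {c z σ v} (hPc : P c) (hz : lo ≤ z) (hz' : z ≤ hi)
    (hv : c0 + θ * phi G.dbl z + μ * U G.dbl lo hi c ≤ v) : G.Ok c z σ v := by
  refine ok_coind (fun c z _ v => P c ∧ lo ≤ z ∧ z ≤ hi ∧
    c0 + θ * phi G.dbl z + μ * U G.dbl lo hi c ≤ v) ?_ ⟨hPc, hz, hz', hv⟩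
  clear hPc hz hz' hv c z σ v
  rintro c z σ v ⟨hPc, hz, hz', hv⟩
  have hU := U_nonneg (dbl := G.dbl) lo hi c
  have hm := phi_mono (dbl := G.dbl) hz
  refine ⟨by nlinarith, ?_⟩
  have key : ∀ e ∈ Inc G.dbl z σ, G.At (fun c z σ v => (P c ∧ lo ≤ z ∧ z ≤ hi ∧
      c0 + θ * phi G.dbl z + μ * U G.dbl lo hi c ≤ v) ∨ G.Ok c z σ v) c (nh z e) e
      (v + if e ∈ c then θ * (phi G.dbl (nh z e) - phi G.dbl z) else 0) := by
    rintro ⟨y, t⟩ he
    obtain ⟨hy, h3, -⟩ := mem_Inc.1 he
    simp only at hy h3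
    by_cases hin : lo ≤ y ∧ y < hi
    · have hn : lo ≤ nh z (y, t) ∧ nh z (y, t) ≤ hi := by
        unfold nh; simp only; split_ifs <;> omega
      rw [at_mid (by omega) (by omega)]
      refine Or.inl ⟨hP _ _ hPc hin.1 hin.2, hn.1, hn.2, ?_⟩
      split_ifs with hm
      · rw [insert_eq_of_mem hm]; linarith
      · have a1 := U_insert (dbl := G.dbl) (e := (y, t)) hin.1 hin.2 h3 hm
        have a2 : phi G.dbl (nh z (y, t)) ≤ phi G.dbl z + drop G.dbl y := by
          unfold nh; simp only; split_ifs with h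
          · rw [h, phi_succ]
          · have := phi_mono (dbl := G.dbl) (show z - 1 ≤ z by omega)
            have := (drop_pos (dbl := G.dbl) y).1
            linarith
        have := (drop_pos (dbl := G.dbl) y).1
        simp only at a1
        nlinarith
    · refine At_mono (S := G.Ok) (fun _ _ _ _ h => Or.inr h) ?_
      by_cases hup : y = z
      · obtain rfl : z = hi := by omega
        subst hup
        obtain rfl : t = false := by simpa using fun h => d2 (h3 h)
        rw [show nh y (y, false) = y + 1 by simp [nh]]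
        refine at_le (bh c hPc) ?_
        rw [phi_succ]; unfold drop; rw [if_neg d2]
        split_ifs <;> linarith
      · obtain rfl : z = lo := by omega
        obtain rfl : y = z - 1 := by omega
        obtain rfl : t = false := by simpa using fun h => d1 (h3 h)
        rw [show nh z (z - 1, false) = z - 1 by simp [nh, hup]]
        refine at_le (bl c hPc) ?_
        have := phi_succ (dbl := G.dbl) (z - 1)
        rw [show z - 1 + 1 = z by omega] at this
        rw [this] at hv ⊢; unfold drop at hv ⊢; rw [if_neg d1] at hv ⊢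
        split_ifs <;> linarith
  by_cases hn : (Inc G.dbl z σ \ c).Nonempty
  · refine ⟨fun _ => v, by simp, ?_⟩
    simp only [chL, hn, if_true]
    intro e he
    simpa [(mem_sdiff.1 he).2] using key e (mem_sdiff.1 he).1
  · refine ⟨fun e => v + θ * (phi G.dbl (nh z e) - phi G.dbl z), ?_, ?_⟩
    · simp only [chL, hn, if_false]
      rw [sum_add_distrib, ← mul_sum, harm z (by omega)]; simp
    · simp only [chL, hn, if_false]
      intro e he
      have : e ∈ c := by
        by_contra h; exact hn ⟨e, mem_sdiff.2 ⟨he, h⟩⟩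
      simpa [this] using key e he

lemma stage_up (x y : ℕ) (hx : 1 ≤ x) (hxy : x + 1 < y) (hy : y < G.N) (d1 : ¬ G.dbl (x - 1))
    (d2 : ¬ G.dbl y) (hd : ∀ z, x ≤ z → z < y → G.dbl z) (c : Finset Lb) (v1 v2 : ℝ)
    (c1 : (x - 1, false) ∈ c) (c2 : ∀ z τ, x ≤ z → z < y → (z, τ) ∉ c) (c3 : (y, false) ∉ c)
    (H1 : ∀ τ (c' : Finset Lb), (∀ e, e ∈ c' ↔ e ∈ c ∨ (x ≤ e.1 ∧ e.1 < y ∧ e.2 = τ)) →
      G.At G.Ok c' (y + 1) (y, false) v1)
    (H2 : ∀ c' : Finset Lb, (∀ e, e ∈ c' ↔ e ∈ c ∨ (x ≤ e.1 ∧ e.1 < y)) → G.Ok c' x false v2) :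
    G.Ok c x false ((v1 + v2) / 2) := by
  have hD : ∀ z, x ≤ z → z < y → (G.dbl z ↔ True) := fun z a b => by simp [hd z a b]
  have sx : ∀ τ, sd G.dbl τ x = false := fun τ => by simp [sd, dv, d1]
  have sy : ∀ τ, sd G.dbl τ y = false := fun τ => by simp [sd, dv, d2]
  have key : ∀ τ, G.At G.Ok c (nh x (x, τ)) (x, τ) ((v1 + v2) / 2) := by
    intro τ
    rw [show nh x (x, τ) = x + 1 by simp [nh], at_mid (by omega) (by omega)]
    refine run_up x y τ True hD (fun _ => trivial) hy _ (y - (x + 1)) (x + 1) _ (by omega)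
      (by omega) (by simp) ?_ ?_
    · intro z a b
      simp only [mem_insert, Prod.mk.injEq, not_or]
      exact ⟨fun h => by omega, c2 z τ (by omega) b⟩
    intro c' hc'
    have hc2 : ∀ e, e ∈ c' ↔ e ∈ c ∨ (x ≤ e.1 ∧ e.1 < y ∧ e.2 = τ) := by
      rintro ⟨z, t⟩
      rw [hc']; simp only [mem_insert, Prod.mk.injEq]
      constructor
      · rintro ((⟨rfl, rfl⟩ | h) | h)
        · exact Or.inr ⟨le_rfl, by omega, rfl⟩
        · exact Or.inl h
        · exact Or.inr ⟨by omega, h.2⟩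
      · rintro (h | ⟨h, h', rfl⟩)
        · exact Or.inl (Or.inr h)
        · by_cases hy : z = x
          · exact Or.inl (Or.inl ⟨hy, rfl⟩)
          · exact Or.inr ⟨by omega, h', rfl⟩
    rw [sy]
    refine ok_two (y, false) (y - 1, !τ) (by simp; omega) ?_ ?_ ?_
    · rintro ⟨z, t⟩
      have := hd (y - 1) (by omega) (by omega)
      have := c2 (y - 1) t (by omega) (by omega)
      simp only [mem_Inc, hc2, dv, Prod.mk.injEq]
      constructor
      · rintro (⟨rfl, rfl⟩ | ⟨rfl, rfl⟩) <;> simp_all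
      · rintro ⟨⟨rfl | rfl, h3, -⟩, h5⟩
        · left; simpa using fun h => d2 (h3 h)
        · right; refine ⟨rfl, ?_⟩
          have : t ≠ τ := fun h => h5 (Or.inr ⟨by omega, by omega, h⟩)
          cases t <;> cases τ <;> simp_all
    · rw [show nh y (y, false) = y + 1 by simp [nh]]
      exact H1 τ c' hc2
    · rw [show nh y (y - 1, !τ) = y - 1 by simp [nh]; omega, at_mid (by omega) (by omega)]
      refine run_down x y (!τ) True hD (fun _ => trivial) hx hy.le _ (y - 1 - x) (y - 1) _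
        (by omega) (by omega) (by simp) ?_ ?_
      · intro z a b
        simp only [mem_insert, Prod.mk.injEq, not_or, hc2]
        exact ⟨fun h => by omega, c2 z _ a (by omega), by simp⟩
      · intro c'' h''
        rw [sx]
        refine H2 c'' ?_
        rintro ⟨z, t⟩
        rw [h'']; simp only [mem_insert, Prod.mk.injEq, hc2]
        constructor
        · rintro ((⟨rfl, rfl⟩ | h | h) | h)
          · exact Or.inr ⟨by omega, by omega⟩
          · exact Or.inl h
          · exact Or.inr ⟨h.1, h.2.1⟩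
          · exact Or.inr ⟨h.1, by omega⟩
        · rintro (h | ⟨h, h'⟩)
          · exact Or.inl (Or.inr (Or.inl h))
          · by_cases ht : t = τ
            · exact Or.inl (Or.inr (Or.inr ⟨h, h', ht⟩))
            · have ht' : t = !τ := by cases t <;> cases τ <;> simp_all
              by_cases hy : z = y - 1
              · exact Or.inl (Or.inl ⟨hy, ht'⟩)
              · exact Or.inr ⟨h, by omega, ht'⟩
  have := ok_two (G := G) (c := c) (z := x) (σ := false) (x, false) (x, true) (by simp) ?_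
    (key false) (key true)
  · simpa using this
  · rintro ⟨z, t⟩
    have := hd x le_rfl (by omega)
    have := c2 x t le_rfl (by omega)
    simp only [mem_Inc, dv, Prod.mk.injEq]
    constructor
    · rintro (⟨rfl, rfl⟩ | ⟨rfl, rfl⟩) <;> simp_all
    · rintro ⟨⟨rfl | rfl, h3, -⟩, h5⟩
      · cases t <;> simp
      · obtain rfl : t = false := by simpa using fun h => d1 (h3 h)
        exact absurd c1 h5

lemma stage_down (x y : ℕ) (hx : 1 ≤ x) (hxy : x + 1 < y) (hy : y < G.N) (d1 : ¬ G.dbl (x - 1))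
    (d2 : ¬ G.dbl y) (hd : ∀ z, x ≤ z → z < y → G.dbl z) (c : Finset Lb) (v1 v2 : ℝ)
    (c1 : (x - 1, false) ∉ c) (c2 : ∀ z τ, x ≤ z → z < y → (z, τ) ∉ c) (c3 : (y, false) ∈ c)
    (H1 : ∀ τ (c' : Finset Lb), (∀ e, e ∈ c' ↔ e ∈ c ∨ (x ≤ e.1 ∧ e.1 < y ∧ e.2 = τ)) →
      G.At G.Ok c' (x - 1) (x - 1, false) v1)
    (H2 : ∀ c' : Finset Lb, (∀ e, e ∈ c' ↔ e ∈ c ∨ (x ≤ e.1 ∧ e.1 < y)) → G.Ok c' y false v2) :
    G.Ok c y false ((v1 + v2) / 2) := by
  have hD : ∀ z, x ≤ z → z < y → (G.dbl z ↔ True) := fun z a b => by simp [hd z a b]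
  have sx : ∀ τ, sd G.dbl τ x = false := fun τ => by simp [sd, dv, d1]
  have sy : ∀ τ, sd G.dbl τ y = false := fun τ => by simp [sd, dv, d2]
  have key : ∀ τ, G.At G.Ok c (nh y (y - 1, τ)) (y - 1, τ) ((v1 + v2) / 2) := by
    intro τ
    rw [show nh y (y - 1, τ) = y - 1 by simp [nh]; omega, at_mid (by omega) (by omega)]
    refine run_down x y τ True hD (fun _ => trivial) hx hy.le _ (y - 1 - x) (y - 1) _ (by omega)
      (by omega) (by simp) ?_ ?_
    · intro z a b
      simp only [mem_insert, Prod.mk.injEq, not_or]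
      exact ⟨fun h => by omega, c2 z τ a (by omega)⟩
    intro c' hc'
    have hc2 : ∀ e, e ∈ c' ↔ e ∈ c ∨ (x ≤ e.1 ∧ e.1 < y ∧ e.2 = τ) := by
      rintro ⟨z, t⟩
      rw [hc']; simp only [mem_insert, Prod.mk.injEq]
      constructor
      · rintro ((⟨rfl, rfl⟩ | h) | h)
        · exact Or.inr ⟨by omega, by omega, rfl⟩
        · exact Or.inl h
        · exact Or.inr ⟨h.1, by omega, h.2.2⟩
      · rintro (h | ⟨h, h', rfl⟩)
        · exact Or.inl (Or.inr h)
        · by_cases hy : z = y - 1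
          · exact Or.inl (Or.inl ⟨hy, rfl⟩)
          · exact Or.inr ⟨h, by omega, rfl⟩
    rw [sx]
    refine ok_two (x - 1, false) (x, !τ) (by simp; omega) ?_ ?_ ?_
    · rintro ⟨z, t⟩
      have := hd x (by omega) (by omega)
      have := c2 x t (by omega) (by omega)
      simp only [mem_Inc, hc2, dv, Prod.mk.injEq]
      constructor
      · rintro (⟨rfl, rfl⟩ | ⟨rfl, rfl⟩) <;> simp_all
        omega
      · rintro ⟨⟨rfl | rfl, h3, -⟩, h5⟩
        · right; refine ⟨rfl, ?_⟩
          have : t ≠ τ := fun h => h5 (Or.inr ⟨by omega, by omega, h⟩)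
          cases t <;> cases τ <;> simp_all
        · left; simpa using fun h => d1 (h3 h)
    · rw [show nh x (x - 1, false) = x - 1 by simp [nh]; omega]
      exact H1 τ c' hc2
    · rw [show nh x (x, !τ) = x + 1 by simp [nh], at_mid (by omega) (by omega)]
      refine run_up x y (!τ) True hD (fun _ => trivial) hy _ (y - (x + 1)) (x + 1) _
        (by omega) (by omega) (by simp) ?_ ?_
      · intro z a b
        simp only [mem_insert, Prod.mk.injEq, not_or, hc2]
        exact ⟨fun h => by omega, c2 z _ (by omega) b, by simp⟩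
      · intro c'' h''
        rw [sy]
        refine H2 c'' ?_
        rintro ⟨z, t⟩
        rw [h'']; simp only [mem_insert, Prod.mk.injEq, hc2]
        constructor
        · rintro ((⟨rfl, rfl⟩ | h | h) | h)
          · exact Or.inr ⟨by omega, by omega⟩
          · exact Or.inl h
          · exact Or.inr ⟨h.1, h.2.1⟩
          · exact Or.inr ⟨by omega, h.2.1⟩
        · rintro (h | ⟨h, h'⟩)
          · exact Or.inl (Or.inr (Or.inl h))
          · by_cases ht : t = τ
            · exact Or.inl (Or.inr (Or.inr ⟨h, h', ht⟩))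
            · have ht' : t = !τ := by cases t <;> cases τ <;> simp_all
              by_cases hy : z = x
              · exact Or.inl (Or.inl ⟨hy, ht'⟩)
              · exact Or.inr ⟨by omega, h', ht'⟩
  have := ok_two (G := G) (c := c) (z := y) (σ := false) (y - 1, false) (y - 1, true) (by simp) ?_
    (key false) (key true)
  · simpa using this
  · rintro ⟨z, t⟩
    have := hd (y - 1) (by omega) (by omega)
    have := c2 (y - 1) t (by omega) (by omega)
    simp only [mem_Inc, dv, Prod.mk.injEq]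
    constructor
    · rintro (⟨rfl, rfl⟩ | ⟨rfl, rfl⟩) <;> simp_all
    · rintro ⟨⟨rfl | rfl, h3, -⟩, h5⟩
      · obtain rfl : t = false := by simpa using fun h => d2 (h3 h)
        exact absurd c3 h5
      · cases t <;> simp

end Game
end Pool.Agent.H80.Grw
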