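import Pool.Agent.H80.Grw2

set_option autoImplicit false

namespace Pool.Agent.H80.Grw

open Finset Classical Game

irreducible_def pw (j : ℕ) : ℕ := 16384 ^ j
irreducible_def sN : ℕ := 2048 * pw 10
irreducible_def BB : ℕ := 2 * sN + 1
irreducible_def TT : ℕ := BB + pw 10 - 1
irreducible_def NN : ℕ := 16384 * sN

lemma pw_succ (j : ℕ) : pw (j + 1) = 16384 * pw j := by simp [pw_def, pow_succ, mul_comm]
lemma pw_pos (j : ℕ) : 1 ≤ pw j := by rw [pw_def]; exact Nat.one_le_pow _ _ (by norm_num)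
lemma pw_zero : pw 0 = 1 := by simp [pw_def]
lemma pw_mono {i j : ℕ} (h : i ≤ j) : pw i ≤ pw j := by
  rw [pw_def, pw_def]; exact Nat.pow_le_pow_right (by norm_num) h
lemma nums : sN = 2048 * pw 10 ∧ BB = 2 * sN + 1 ∧ TT + 1 = BB + pw 10 ∧ NN = 16384 * sN ∧
    2 ≤ pw 10 := by
  have : 2 ≤ pw 10 := by have h : pw 10 = 16384 * pw 9 := pw_succ 9; have := pw_pos 9; omega
  refine ⟨sN_def, BB_def, by rw [TT_def]; omega, NN_def, this⟩

irreducible_def dB (z : ℕ) : Prop :=
  (1 ≤ z ∧ z < BB) ∨ ∃ j < 10, BB + pw j ≤ z ∧ z + 1 < BB + pw (j + 1)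

lemma dB_big {z : ℕ} (h1 : 1 ≤ z) (h2 : z < BB) : dB z := by rw [dB_def]; exact Or.inl ⟨h1, h2⟩
lemma dB_fil {j z : ℕ} (hj : j < 10) (h1 : BB + pw j ≤ z) (h2 : z + 1 < BB + pw (j + 1)) : dB z := by
  rw [dB_def]; exact Or.inr ⟨j, hj, h1, h2⟩
lemma dB_zero : ¬ dB 0 := by
  rw [dB_def]; rintro (h | ⟨j, -, h, -⟩)
  · omega
  · have := pw_pos j; omega
lemma dB_link {j z : ℕ} (h : z + 1 = BB + pw j) : ¬ dB z := by
  rw [dB_def]; rintro (h' | ⟨i, -, h1, h2⟩)
  · have := pw_pos j; omega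
  · rcases le_or_gt j i with a | a
    · have := pw_mono a; omega
    · have := pw_mono (show i + 1 ≤ j from a); omega
lemma dB_top {z : ℕ} (h : TT ≤ z) : ¬ dB z := by
  have := nums
  rw [dB_def]; rintro (h' | ⟨i, hi, h1, h2⟩)
  · omega
  · have := pw_mono (show i + 1 ≤ 10 from hi); omega
lemma dB_B : ¬ dB BB := dB_link (j := 0) (by rw [pw_zero])
lemma dB_nb {z : ℕ} (h : dB z) : dB (z - 1) ∨ dB (z + 1) := by
  have := nums
  rw [dB_def] at h; rcases h with h | ⟨j, hj, h1, h2⟩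
  · by_cases h3 : z = 1
    · exact Or.inr (dB_big (by omega) (by omega))
    · exact Or.inl (dB_big (by omega) (by omega))
  · have := pw_succ j
    have := pw_pos j
    by_cases h3 : z = BB + pw j
    · exact Or.inr (dB_fil hj (by omega) (by omega))
    · exact Or.inl (dB_fil hj (by omega) (by omega))

noncomputable def s : ℝ := sN
noncomputable def RR : ℝ := phi dB NN
def ea : Lb := (0, false)
noncomputable def eb : Lb := (NN - 1, false)

lemma numR : (pw 10 : ℝ) * 2048 = s ∧ 2 ≤ (pw 10 : ℝ) ∧ (BB : ℝ) = 2 * s + 1 ∧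
    (TT : ℝ) + 1 = BB + pw 10 ∧ (NN : ℝ) = 16384 * s := by
  obtain ⟨a, b, c, d, e⟩ := nums
  unfold s
  refine ⟨by rw [a]; push_cast; ring, by exact_mod_cast e, by exact_mod_cast b,
    by exact_mod_cast c, by exact_mod_cast d⟩

lemma phi_one : phi dB 1 = 1 := by simp [phi, drop, dB_zero]
lemma phi_le (z : ℕ) : phi dB z ≤ z := by
  have := (phi_bd (dbl := dB) 0 z).2; simpa [phi_zero] using this
lemma phi_ge (z : ℕ) : (z : ℝ) / 2 ≤ phi dB z := by
  have := (phi_bd (dbl := dB) 0 z).1; simpa [phi_zero] using this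
lemma phi_N : phi dB (NN - 1) + 1 = RR := by
  have := nums
  have h := phi_succ (dbl := dB) (NN - 1)
  rw [show NN - 1 + 1 = NN by omega] at h
  rw [RR, h, drop, if_neg (dB_top (by omega))]
lemma RR_bd : 8192 * s ≤ RR ∧ RR ≤ 16384 * s := by
  have := phi_le NN; have := phi_ge NN; have := numR
  unfold RR; constructor <;> linarith

def Armed (c : Finset Lb) : Prop :=
  ea ∈ c ∧ (∀ z τ, 1 ≤ z → z < BB → (z, τ) ∈ c) ∧ ∀ z, TT ≤ z → (z, false) ∉ c
def Opn (c : Finset Lb) : Prop := ∀ z, TT ≤ z → z < NN → (z, false) ∈ c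
noncomputable def U0 (c : Finset Lb) : ℝ := U dB 1 TT c
noncomputable def ra (c : Finset Lb) : ℝ := if ea ∈ c then 0 else s / 32 + 1

def Out (p : Prop) (c : Finset Lb) (r : ℝ) : Prop :=
  (p → eb ∈ c ∧ U dB 1 (NN - 1) c + ra c ≤ r) ∧
  (¬ p → (c = ∅ ∧ 0 ≤ r) ∨ (Armed c ∧ U0 c ≤ r) ∨ (Opn c ∧ U0 c + ra c ≤ r))

noncomputable def tp (p : Prop) : ℝ := if p then RR else 7 * s / 8

lemma s_big : 2048 ≤ s := by have := numR; linarith
lemma ra_nonneg (c : Finset Lb) : 0 ≤ ra c := by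
  have := s_big; unfold ra; split_ifs <;> linarith
lemma tp_bd (p : Prop) : 7 * s / 8 ≤ tp p ∧ tp p ≤ RR := by
  have := s_big; have := RR_bd; unfold tp; split_ifs <;> constructor <;> linarith

lemma out_nonneg {p c r} (h : Out p c r) : 0 ≤ r := by
  have := ra_nonneg c
  have := U_nonneg (dbl := dB) 1 (NN - 1) c
  have := U_nonneg (dbl := dB) 1 TT c
  by_cases hp : p
  · have := (h.1 hp).2; linarith
  · unfold Out U0 at h
    rcases h.2 hp with h | h | h <;> linarith [h.2]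

noncomputable def gm (p : Prop) : Game where
  dbl := dB
  N := NN
  Bot c v := ∃ r, Out p (insert ea c) r ∧ r + (if ea ∈ c then 0 else s / 32) ≤ v
  Top c v := ∃ r, Out p (insert eb c) r ∧ tp p + r + (if eb ∈ c then 0 else s / 32) ≤ v
  hB := by
    rintro c v ⟨r, h1, h2⟩
    have := out_nonneg h1; have := s_big
    split_ifs at h2 <;> linarith
  hT := by
    rintro c v ⟨r, h1, h2⟩
    have := out_nonneg h1; have := s_big; have := (tp_bd p).1
    split_ifs at h2 <;> linarith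
  mB := fun c v w ⟨r, h1, h2⟩ h => ⟨r, h1, h2.trans h⟩
  mT := fun c v w ⟨r, h1, h2⟩ h => ⟨r, h1, h2.trans h⟩

@[simp] lemma gm_dbl (p : Prop) : (gm p).dbl = dB := rfl
@[simp] lemma gm_N (p : Prop) : (gm p).N = NN := rfl

lemma at_bot {p : Prop} {S c e v} (r : ℝ) (h1 : Out p (insert ea c) r)
    (h2 : r + (if ea ∈ c then 0 else s / 32) ≤ v) : (gm p).At S c 0 e v := by
  simp only [At, if_true]; exact ⟨r, h1, h2⟩

lemma at_top {p : Prop} {S c e v} (r : ℝ) (h1 : Out p (insert eb c) r)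
    (h2 : tp p + r + (if eb ∈ c then 0 else s / 32) ≤ v) : (gm p).At S c (NN - 1 + 1) e v := by
  have := nums
  rw [show NN - 1 + 1 = NN by omega]
  simp only [At, gm_N, if_true, show NN ≠ 0 by omega, if_false]; exact ⟨r, h1, h2⟩

lemma ea_ne {e : Lb} (h : 1 ≤ e.1) : ea ≠ e := by rintro rfl; simp [ea] at h

lemma ra_insert {e : Lb} (h : 1 ≤ e.1) (c : Finset Lb) : ra (insert e c) = ra c := by
  simp [ra, ea_ne h]

lemma U_ins (lo hi : ℕ) (e : Lb) (c : Finset Lb) : U dB lo hi (insert e c) ≤ U dB lo hi c :=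
  U_mono _ _ fun _ h => mem_insert_of_mem h

lemma post_ok {p : Prop} (hp : p) {c z σ v} (hb : eb ∈ c) (h1 : 1 ≤ z) (h2 : z ≤ NN - 1)
    (hv : ra c + phi dB z + U dB 1 (NN - 1) c ≤ v) : (gm p).Ok c z σ v := by
  have := nums
  have := s_big
  refine robust (G := gm p) 1 (NN - 1) le_rfl (by simp; omega)
    (fun c' => eb ∈ c' ∧ ra c' = ra c) (ra c) 1 1 (by norm_num) le_rfl dB_zero
    (dB_top (by omega)) (by simp [phi_one]; linarith [ra_nonneg c]) ?_ ?_ ?_ ⟨hb, rfl⟩ h1 h2
    (by simpa using hv)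
  · rintro c' e ⟨a, b⟩ h _
    exact ⟨mem_insert_of_mem a, by rw [ra_insert h, b]⟩
  · rintro c' ⟨a, b⟩
    refine at_bot (U dB 1 (NN - 1) c') ⟨fun _ => ⟨mem_insert_of_mem a, ?_⟩, fun h => absurd hp h⟩ ?_
    · simpa [ra] using U_ins _ _ _ _
    · rw [← b]
      simp only [gm_dbl, phi_one, ra, show (1 - 1, false) = ea from rfl]
      split_ifs <;> linarith
  · rintro c' ⟨a, b⟩
    refine at_top (U dB 1 (NN - 1) c' + ra c') ⟨fun _ => ⟨by simp, ?_⟩, fun h => absurd hp h⟩ ?_
    · rw [insert_eq_of_mem a]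
    · simp only [gm_dbl, show (NN - 1, false) = eb from rfl, a, if_true, tp, hp, b]
      linarith [phi_N]

lemma U_opn {c : Finset Lb} (h : Opn c) {lo : ℕ} (hl : lo ≤ TT) :
    U dB lo (NN - 1) c = U dB lo TT c := by
  have := nums
  have a := U_zero (dbl := dB) TT (NN - 1) c fun z a b =>
    ⟨h z a (by omega), fun h => absurd h (dB_top a)⟩
  have b := U_nonneg (dbl := dB) TT (NN - 1) c
  rw [U_add hl (show TT ≤ NN - 1 by omega)]; linarith

lemma opn_b {c : Finset Lb} (h : Opn c) : eb ∈ c := by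
  have := nums
  exact h _ (by omega) (by omega)

lemma opn_mono {c c' : Finset Lb} (h : Opn c) (h' : ∀ e ∈ c, e ∈ c') : Opn c' :=
  fun z a b => h' _ (h z a b)

variable {p : Prop} (hp : ¬ p)
include hp

lemma out_opn {c r} (h : Opn c) (hr : U0 c + ra c ≤ r) : Out p c r :=
  ⟨fun h => absurd h hp, fun _ => Or.inr (Or.inr ⟨h, hr⟩)⟩

lemma o2_ok {c z σ v} (ho : Opn c) (h1 : 1 ≤ z) (h2 : z ≤ NN - 1)
    (hv : ra c + 1 / 1000 * phi dB z + U0 c ≤ v) : (gm p).Ok c z σ v := by
  have := nums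
  have := s_big
  have := RR_bd
  refine robust (G := gm p) 1 (NN - 1) le_rfl (by simp; omega)
    (fun c' => Opn c' ∧ ra c' = ra c) (ra c) (1 / 1000) 1 (by norm_num) (by norm_num) dB_zero
    (dB_top (by omega)) (by simp [phi_one]; linarith [ra_nonneg c]) ?_ ?_ ?_ ⟨ho, rfl⟩ h1 h2
    (by simpa [U_opn ho (show 1 ≤ TT by omega), U0] using hv)
  · rintro c' e ⟨a, b⟩ h _
    exact ⟨opn_mono a fun _ => mem_insert_of_mem, by rw [ra_insert h, b]⟩
  · rintro c' ⟨a, b⟩
    refine at_bot (U0 c') (out_opn hp (opn_mono a fun _ => mem_insert_of_mem) ?_) ?_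
    · simpa [ra, U0] using U_ins _ _ _ _
    · rw [← b]
      simp only [gm_dbl, phi_one, ra, show (1 - 1, false) = ea from rfl,
        U_opn a (show 1 ≤ TT by omega), U0]
      split_ifs <;> linarith
  · rintro c' ⟨a, b⟩
    refine at_top (U0 c' + ra c') ?_ ?_
    · rw [insert_eq_of_mem (opn_b a)]; exact out_opn hp a le_rfl
    · simp only [gm_dbl, show (NN - 1, false) = eb from rfl, opn_b a, if_true, tp, hp, b,
        U_opn a (show 1 ≤ TT by omega), U0, if_false]
      linarith [phi_N]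

lemma o3_ok {c z σ v} (ho : Opn c) (ha : ea ∉ c) (hu : ∀ z τ, 1 ≤ z → z ≤ BB → (z, τ) ∉ c)
    (h1 : BB + 1 ≤ z) (h2 : z ≤ NN - 1)
    (hv : s / 2 + s / 32 + 1 + 1 / 1000 * phi dB z + U dB (BB + 1) TT c ≤ v) :
    (gm p).Ok c z σ v := by
  have := nums
  have := s_big
  have := RR_bd
  have := numR
  have := phi_ge (BB + 1)
  refine robust (G := gm p) (BB + 1) (NN - 1) (by omega) (by simp; omega)
    (fun c => Opn c ∧ ea ∉ c ∧ ∀ z τ, 1 ≤ z → z ≤ BB → (z, τ) ∉ c) (s / 2 + s / 32 + 1)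
    (1 / 1000) 1 (by norm_num) (by norm_num) dB_B
    (dB_top (by omega)) (by simp only [gm_dbl]; push_cast at *; linarith) ?_ ?_ ?_ ⟨ho, ha, hu⟩ h1 h2
    (by simpa [U_opn ho (show BB + 1 ≤ TT by omega)] using hv)
  · rintro c' e ⟨a, b, d⟩ h _
    refine ⟨opn_mono a fun _ => mem_insert_of_mem, by simp [b, ea_ne (show 1 ≤ e.1 by omega)], ?_⟩
    intro z τ x y
    simp only [mem_insert, not_or]
    exact ⟨fun h' => by rw [← h'] at h; simp at h; omega, d z τ x y⟩
  · rintro c' ⟨a, b, d⟩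
    rw [Nat.add_sub_cancel, at_mid (by omega) (by simp; omega), if_neg (d _ _ (by omega) le_rfl),
      show sd (gm p).dbl (BB, false).2 BB = false by simp [sd]]
    have hU := U_nonneg (dbl := dB) (BB + 1) TT c'
    refine ok_mono (stage_down (G := gm p) 1 BB le_rfl (by omega) (by simp; omega) dB_zero dB_B
      (fun z => dB_big) _ (s + s / 32 + U dB (BB + 1) TT c')
      (s / 32 + 1 + 1 / 1000 * phi dB BB + U dB (BB + 1) TT c') ?_ ?_ (by simp) ?_ ?_) ?_
    · simp only [mem_insert, not_or]; exact ⟨by simp; omega, b⟩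
    · intro z τ x y
      simp only [mem_insert, not_or]; exact ⟨by simp; omega, d z τ x y.le⟩
    · intro τ c'' h''
      have m : ∀ e ∈ c', e ∈ insert ea c'' := fun e he =>
        mem_insert_of_mem ((h'' e).2 (Or.inl (mem_insert_of_mem he)))
      refine at_bot (s + U dB (BB + 1) TT c') (out_opn hp (opn_mono a m) ?_)
        (by split_ifs <;> linarith)
      have u1 := U_half (dbl := dB) 1 BB (insert ea c'') τ fun z x y =>
        ⟨dB_big x y, mem_insert_of_mem ((h'' _).2 (Or.inr ⟨x, y, rfl⟩))⟩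
      have u2 := U_zero (dbl := dB) BB (BB + 1) (insert ea c'') fun z x y => by
        obtain rfl : z = BB := by omega
        exact ⟨mem_insert_of_mem ((h'' _).2 (Or.inl (by simp))), fun h => absurd h dB_B⟩
      have u3 := U_mono (dbl := dB) (BB + 1) TT m
      rw [show BB - 1 = 2 * sN by omega] at u1
      rw [U0, U_add (show 1 ≤ BB by omega) (show BB ≤ TT by omega),
        U_add (show BB ≤ BB + 1 by omega) (show BB + 1 ≤ TT by omega)]
      simp only [ra, mem_insert, true_or, if_true]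
      push_cast at u1; unfold s; linarith
    · intro c'' h''
      have m : ∀ e ∈ c', e ∈ c'' := fun e he => (h'' e).2 (Or.inl (mem_insert_of_mem he))
      refine o2_ok hp (opn_mono a m) (by omega) (by omega) ?_
      have u2 := U_zero (dbl := dB) 1 (BB + 1) c'' fun z x y => by
        by_cases hz : z = BB
        · subst hz
          exact ⟨(h'' _).2 (Or.inl (by simp)), fun h => absurd h dB_B⟩
        · exact ⟨(h'' _).2 (Or.inr ⟨x, by simp; omega⟩), fun _ => (h'' _).2 (Or.inr ⟨x, by simp; omega⟩)⟩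
      have u3 := U_mono (dbl := dB) (BB + 1) TT m
      rw [U0, U_add (show 1 ≤ BB + 1 by omega) (show BB + 1 ≤ TT by omega)]
      have : ra c'' ≤ s / 32 + 1 := by unfold ra; split_ifs <;> linarith
      linarith
    · have := phi_mono (dbl := dB) (show BB ≤ BB + 1 by omega)
      have := phi_ge BB
      simp only [gm_dbl, U_opn a (show BB + 1 ≤ TT by omega)]
      linarith
  · rintro c' ⟨a, b, d⟩
    refine at_top (U0 c' + ra c') ?_ ?_
    · rw [insert_eq_of_mem (opn_b a)]; exact out_opn hp a le_rfl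
    · have u := U_le_one (dbl := dB) 1 (BB + 1) c'
      simp only [gm_dbl, show (NN - 1, false) = eb from rfl, opn_b a, if_true, tp, hp, b, ra,
        U_opn a (show BB + 1 ≤ TT by omega), U0, if_false,
        U_add (show 1 ≤ BB + 1 by omega) (show BB + 1 ≤ TT by omega)]
      simp only [Nat.add_sub_cancel] at u
      linarith [phi_N]

lemma c6_ok {c v} (ha : ea ∈ c) (h1 : (TT, false) ∈ c) (h2 : ∀ z, TT < z → (z, false) ∉ c)
    (hv : 7 * s / 8 + s / 32 + U0 c ≤ v) : (gm p).Ok c (TT + 1) false v := by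
  have := nums
  have := run_up (G := gm p) TT (NN - 1) false False (fun z a _ => by simp [dB_top a]) (by simp)
    (by simp; omega) v (NN - 1 - (TT + 1)) (TT + 1) c (by omega) (by omega) (by simpa using h1)
    (fun y a _ => h2 y a) ?_
  · simpa [sd] using this
  intro c' h'
  have m : ∀ e ∈ c, e ∈ insert eb c' := fun e he => mem_insert_of_mem ((h' e).2 (Or.inl he))
  have nb : eb ∉ c' := by
    rw [h']; simp only [eb, not_or]; exact ⟨h2 _ (by omega), by omega⟩
  refine ok_one eb ?_ ?_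
  · rintro ⟨z, t⟩
    have d1 := dB_top (z := NN - 1) (by omega)
    have d2 := dB_top (z := NN - 1 - 1) (by omega)
    simp only [mem_Inc, gm_dbl, dv, eb, Prod.mk.injEq]
    constructor
    · rintro ⟨rfl, rfl⟩; exact ⟨⟨Or.inl rfl, by simp, by simp [sd]⟩, nb⟩
    · rintro ⟨⟨rfl | rfl, h3, -⟩, h5⟩
      · simpa using fun h => d1 (h3 h)
      · obtain rfl : t = false := by simpa using fun h => d2 (h3 h)
        refine absurd ((h' _).2 ?_) h5
        exact Or.inr ⟨by simp; omega, by simp; omega, rfl⟩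
  · rw [show nh (NN - 1) eb = NN - 1 + 1 by simp [nh, eb]]
    refine at_top (U0 c) (out_opn hp ?_ ?_) (by simp [tp, hp, nb]; linarith)
    · intro z a b
      by_cases hz : z = NN - 1
      · simp [hz, eb]
      · by_cases hz' : z = TT
        · exact hz' ▸ m _ h1
        · exact mem_insert_of_mem ((h' _).2 (Or.inr ⟨by simp; omega, by simp; omega, rfl⟩))
    · simpa [ra, m _ ha, U0] using U_mono 1 TT m

lemma c5_ok {c z σ v} (ha : Armed c) (h1 : 1 ≤ z) (h2 : z ≤ TT) (hv : phi dB z + U0 c ≤ v) :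
    (gm p).Ok c z σ v := by
  have := nums
  have := s_big
  have := numR
  refine robust (G := gm p) 1 TT le_rfl (by simp; omega) Armed 0 1 1 (by norm_num) le_rfl dB_zero
    (dB_top le_rfl) (by simp [phi_one]) ?_ ?_ ?_ ha h1 h2 (by simpa [U0] using hv)
  · rintro c' e ⟨a, b, d⟩ h h'
    refine ⟨mem_insert_of_mem a, fun z τ x y => mem_insert_of_mem (b z τ x y), fun z x => ?_⟩
    simp only [mem_insert, not_or]
    exact ⟨fun h' => by subst h'; simp at h'; omega, d z x⟩
  · rintro c' a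
    refine at_bot (U0 c') ?_ ?_
    · rw [insert_eq_of_mem a.1]; exact ⟨fun h => absurd h hp, fun _ => Or.inr (Or.inl ⟨a, le_rfl⟩)⟩
    · simp [show (1 - 1, false) = ea from rfl, show (0, false) = ea from rfl, a.1, phi_one, U0]
  · rintro c' ⟨a, b, d⟩
    rw [at_mid (by omega) (by simp; omega), if_neg (d _ le_rfl),
      show sd (gm p).dbl (TT, false).2 (TT + 1) = false by simp [sd]]
    refine c6_ok hp (mem_insert_of_mem a) (by simp) (fun z x => ?_) ?_
    · simp only [mem_insert, not_or]; exact ⟨by simp; omega, d z x.le⟩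
    · have := U_ins 1 TT (TT, false) c'
      have := phi_ge TT
      simp only [gm_dbl, U0]; linarith

end Pool.Agent.H80.Grw
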