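import Pool.Agent.H80.Grw3

set_option autoImplicit false

namespace Pool.Agent.H80.Grw

open Finset Classical Game

def Pend (σ : Bool) (c : Finset Lb) : Prop :=
  ea ∈ c ∧ (∀ z, 1 ≤ z → z < BB → (z, σ) ∈ c ∧ (z, !σ) ∉ c) ∧ (BB, false) ∈ c

lemma pend_mono {σ c c'} (h : Pend σ c) (h1 : ∀ e ∈ c, e ∈ c') (h2 : ∀ e ∈ c', e.1 < BB → e ∈ c) :
    Pend σ c' :=
  ⟨h1 _ h.1, fun z a b => ⟨h1 _ (h.2.1 z a b).1, fun h' => (h.2.1 z a b).2 (h2 _ h' b)⟩,
    h1 _ h.2.2⟩

lemma U0_le (c : Finset Lb) : U0 c ≤ U dB 1 BB c + s / 2048 - 1 := by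
  have := nums
  have := numR
  have u := U_le_one (dbl := dB) BB TT c
  rw [Nat.cast_sub (by omega)] at u
  rw [U0, U_add (show 1 ≤ BB by omega) (show BB ≤ TT by omega)]; linarith

lemma armed_U {c} (h : Armed c) : U0 c ≤ s / 2048 - 1 := by
  have := U_zero (dbl := dB) 1 BB c fun z a b => ⟨h.2.1 z _ a b, fun _ => h.2.1 z _ a b⟩
  linarith [U0_le c]

variable {p : Prop} (hp : ¬ p)
include hp

lemma desc_ok {σ c} (h : Pend σ c) (ht : ∀ z, TT ≤ z → (z, false) ∉ c) :
    (gm p).Ok c BB false (s / 2048) := by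
  have := nums
  refine ok_one (BB - 1, !σ) ?_ ?_
  · rintro ⟨z, t⟩
    have a1 := h.2.1 (BB - 1) (by omega) (by omega)
    have a2 := dB_big (z := BB - 1) (by omega) (by omega)
    have a3 := dB_B
    simp only [mem_Inc, gm_dbl, dv, Prod.mk.injEq]
    constructor
    · rintro ⟨rfl, rfl⟩; exact ⟨⟨Or.inr rfl, fun _ => a2, fun h => absurd h.2 a3⟩, a1.2⟩
    · rintro ⟨⟨rfl | rfl, h3, -⟩, h5⟩
      · obtain rfl : t = false := by simpa using fun h => a3 (h3 h)
        exact absurd h.2.2 h5
      · refine ⟨rfl, ?_⟩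
        have : t ≠ σ := fun h => h5 (h ▸ a1.1)
        cases t <;> cases σ <;> simp_all
  · rw [show nh BB (BB - 1, !σ) = BB - 1 by simp [nh]; omega, at_mid (by omega) (by simp; omega)]
    refine run_down (G := gm p) 1 BB (!σ) True (fun z a b => by simp [dB_big a b])
      (fun _ => trivial) le_rfl (by simp; omega) _ (BB - 1 - 1) (BB - 1) _ (by omega) (by omega)
      (by simp) ?_ ?_
    · intro y a b
      simp only [mem_insert, not_or]
      exact ⟨by simp; omega, (h.2.1 y a (by omega)).2⟩
    · intro c' h'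
      have ar : Armed c' := by
        refine ⟨(h' _).2 (Or.inl (mem_insert_of_mem h.1)), fun z τ a b => (h' _).2 ?_,
          fun z a hz => ?_⟩
        · by_cases ht : τ = σ
          · exact Or.inl (mem_insert_of_mem (ht ▸ (h.2.1 z a b).1))
          · have : τ = !σ := by cases τ <;> cases σ <;> simp_all
            by_cases hz : z = BB - 1
            · exact Or.inl (by simp [hz, this])
            · exact Or.inr ⟨a, by simp; omega, this⟩
        · rcases (h' _).1 hz with h'' | h''
          · rcases mem_insert.1 h'' with h'' | h''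
            · simp at h''; omega
            · exact ht z a h''
          · simp at h''; omega
      exact c5_ok hp ar le_rfl (by omega) (by rw [phi_one]; linarith [armed_U ar])

lemma fil_ok (σ : Bool) : ∀ d j (c : Finset Lb), j + d = 10 → Pend σ c →
    (BB + pw j - 1, false) ∈ c → (∀ z τ, BB + pw j ≤ z → (z, τ) ∉ c) →
    (gm p).Ok c (BB + pw j) false (s / 2048 + 2 * s * ((1 / 2) ^ d + 1 / 1024)) := by
  have := nums
  have := numR
  have := s_big
  intro d
  induction d with
  | zero =>
    intro j c hj h h1 h2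
    obtain rfl : j = 10 := by omega
    rw [show BB + pw 10 = TT + 1 by omega] at *
    refine c6_ok hp h.1 (by simpa using h1) (fun z a => h2 z _ a) ?_
    have u1 := U_half (dbl := dB) 1 BB c σ fun z x y => ⟨dB_big x y, (h.2.1 z x y).1⟩
    rw [show BB - 1 = 2 * sN by omega] at u1
    have := U0_le c
    push_cast at u1; unfold s at *; norm_num; linarith
  | succ d ih =>
    intro j c hj h h1 h2
    have p1 := pw_succ j
    have p2 := pw_pos j
    have p3 := pw_mono (show j + 1 ≤ 10 by omega)
    set x := BB + pw j with hx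
    set y := BB + pw (j + 1) - 1 with hy
    have hy1 : y + 1 = BB + pw (j + 1) := by omega
    have nxt : ∀ c', Pend σ c' → (∀ z τ, y ≤ z → (z, τ) ∉ c') → (gm p).At (gm p).Ok c' (y + 1)
        (y, false) (s / 2048 + 2 * s * ((1 / 2) ^ d + 1 / 1024)) := by
      intro c' a b
      rw [at_mid (by omega) (by simp; omega), show sd (gm p).dbl (y, false).2 (y + 1) = false by
        simp [sd], hy1]
      refine ih (j + 1) _ (by omega) (pend_mono a (fun _ => mem_insert_of_mem) ?_)
        (mem_insert_self _ _) ?_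
      · intro e he hl
        rcases mem_insert.1 he with rfl | he
        · simp at hl; omega
        · exact he
      · intro z τ hz
        simp only [mem_insert, not_or]
        exact ⟨by simp; omega, b z τ (by omega)⟩
    have pc : ∀ c' : Finset Lb, (∀ e ∈ c, e ∈ c') → (∀ e ∈ c', e ∈ c ∨ (x ≤ e.1 ∧ e.1 < y)) →
        Pend σ c' ∧ ∀ z τ, y ≤ z → (z, τ) ∉ c' := by
      intro c' a b
      refine ⟨pend_mono h a fun e he hl => (b e he).resolve_right (by omega), fun z τ hz he => ?_⟩
      rcases b _ he with h' | h'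
      · exact h2 z τ (by omega) h'
      · simp at h'; omega
    refine ok_mono (stage_up (G := gm p) x y (by omega) (by omega) (by simp; omega)
      (dB_link (j := j) (by omega)) (dB_link hy1) (fun z a b => dB_fil (j := j) (by omega) a
        (by omega)) c (s / 2048 + 2 * s * ((1 / 2) ^ d + 1 / 1024)) (s / 2048 + 2 * s * (1 / 1024))
        h1 (fun z τ a _ => h2 z τ a) (h2 _ _ (by omega)) ?_ ?_) (by rw [pow_succ]; linarith)
    · intro τ c' h'
      have := pc c' (fun e he => (h' e).2 (Or.inl he))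
        (fun e he => ((h' e).1 he).imp id fun h => ⟨h.1, h.2.1⟩)
      exact nxt c' this.1 this.2
    · intro c' h'
      have q := pc c' (fun e he => (h' e).2 (Or.inl he)) (fun e he => (h' e).1 he)
      have hw : (1 : ℝ) ≤ pw j := by exact_mod_cast p2
      set θ : ℝ := 8 * s / (16383 * pw j) with hθ
      have θ0 : 0 ≤ θ := by positivity
      have θ1 : θ * (16383 * pw j) = 8 * s := by rw [hθ]; field_simp
      have f1 : phi dB (BB + 1) = phi dB BB + 1 := by rw [phi_succ, drop, if_neg dB_B]
      refine robust (G := gm p) (BB + 1) y (by omega) (by simp; omega)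
        (fun c => Pend σ c ∧ ∀ z τ, y ≤ z → (z, τ) ∉ c) (s / 2048 - θ * phi dB BB) θ θ θ0 le_rfl
        dB_B (dB_link hy1) (by simp only [gm_dbl, f1]; linarith) ?_ ?_ ?_ q (by omega) (by omega) ?_
      · rintro c'' e ⟨a, b⟩ l1 l2
        refine ⟨pend_mono a (fun _ => mem_insert_of_mem) fun e' he hl => ?_, fun z τ hz => ?_⟩
        · rcases mem_insert.1 he with rfl | he
          · omega
          · exact he
        · simp only [mem_insert, not_or]
          exact ⟨fun h => by rw [← h] at l2; simp at l2; omega, b z τ hz⟩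
      · rintro c'' ⟨a, b⟩
        rw [Nat.add_sub_cancel, at_mid (by omega) (by simp; omega), if_pos a.2.2,
          insert_eq_of_mem a.2.2, show sd (gm p).dbl (BB, false).2 BB = false by simp [sd]]
        refine ok_mono (desc_ok hp a fun z hz => b z _ (by omega)) ?_
        have := mul_nonneg θ0 (U_nonneg (dbl := dB) (BB + 1) y c'')
        simp only [gm_dbl, f1]; linarith
      · rintro c'' ⟨a, b⟩
        refine at_le (nxt c'' a b) ?_
        have := mul_nonneg θ0 (U_nonneg (dbl := dB) (BB + 1) y c'')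
        have f2 := (phi_bd (dbl := dB) BB (y - BB)).1
        rw [show BB + (y - BB) = y by omega] at f2
        have f3 : (16383 * pw j : ℝ) ≤ (y - BB : ℕ) := by
          exact_mod_cast (show 16383 * pw j ≤ y - BB by omega)
        have f4 : (1 / 2 : ℝ) ^ d ≤ 1 := pow_le_one₀ (by norm_num) (by norm_num)
        rw [if_neg (b _ _ le_rfl)]
        simp only [gm_dbl]
        nlinarith
      · have f2 := (phi_bd (dbl := dB) BB (pw j)).2
        have u1 := U_le_one (dbl := dB) (BB + 1) x c'
        have u2 := U_zero (dbl := dB) x y c' fun z a b =>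
          ⟨(h' _).2 (Or.inr ⟨a, b⟩), fun _ => (h' _).2 (Or.inr ⟨a, b⟩)⟩
        have f3 : ((x - (BB + 1) : ℕ) : ℝ) ≤ pw j := by
          exact_mod_cast (show x - (BB + 1) ≤ pw j by omega)
        simp only [gm_dbl]
        rw [U_add (show BB + 1 ≤ x by omega) (show x ≤ y by omega)]
        rw [← hx] at f2
        nlinarith

lemma fresh_up : (gm p).Ok (insert ea ∅) 1 false (s / 400) := by
  have := nums
  have := s_big
  refine ok_mono (stage_up (G := gm p) 1 BB le_rfl (by omega) (by simp; omega) dB_zero dB_B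
    (fun z => dB_big) _ (s / 2048 + 2 * s * ((1 / 2) ^ 10 + 1 / 1024)) (s / 2048) (by simp [ea])
    (fun z τ a _ => by simp [ea]; omega) (by simp [ea]; omega) ?_ ?_) (by norm_num; linarith)
  · intro τ c h
    rw [at_mid (by omega) (by simp; omega), show sd (gm p).dbl (BB, false).2 (BB + 1) = false by
        simp [sd]]
    have := fil_ok hp τ 10 0 (insert (BB, false) c) rfl ⟨?_, ?_, by simp⟩ (by simp [pw_zero]) ?_
    · rwa [pw_zero] at this
    · exact mem_insert_of_mem ((h _).2 (by simp))
    · intro z a b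
      simp [h, ea, a, b]; omega
    · intro z t a
      rw [pw_zero] at a
      simp [h, ea]; omega
  · intro c h
    have ar : Armed c := ⟨(h _).2 (by simp), fun z τ a b => (h _).2 (Or.inr ⟨a, b⟩), fun z a => by
      simp [h, ea]; omega⟩
    exact c5_ok hp ar le_rfl (by omega) (by rw [phi_one]; linarith [armed_U ar])

lemma top_down {c : Finset Lb} {v : ℝ} (h : ∀ z, TT ≤ z → (z, false) ∉ c)
    (H : ∀ c' : Finset Lb, (∀ e, e ∈ c' ↔ e ∈ c ∨ (TT ≤ e.1 ∧ e.1 < NN ∧ e.2 = false)) →
      (gm p).Ok c' TT false v) : (gm p).Ok (insert eb c) (NN - 1) false v := by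
  have := nums
  have := run_down (G := gm p) TT NN false False (fun z a _ => by simp [dB_top a]) (by simp)
    (by omega) le_rfl v (NN - 1 - TT) (NN - 1) (insert eb c) (by omega) (by omega)
    (mem_insert_self _ _) (fun y a b => by simp [eb, h y a]; omega) ?_
  · simpa [sd] using this
  · intro c' h'
    have := H c' fun e => (h' e).trans ?_
    · simpa [sd] using this
    obtain ⟨z, t⟩ := e
    simp only [mem_insert, eb, Prod.mk.injEq]
    constructor
    · rintro ((⟨rfl, rfl⟩ | h) | h)
      · exact Or.inr ⟨by omega, by omega, rfl⟩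
      · exact Or.inl h
      · exact Or.inr ⟨h.1, by omega, h.2.2⟩
    · rintro (h | ⟨h, h', rfl⟩)
      · exact Or.inl (Or.inr h)
      · by_cases hy : z = NN - 1
        · exact Or.inl (Or.inl ⟨hy, rfl⟩)
        · exact Or.inr ⟨h, by omega, rfl⟩

omit hp

/-- entering from below -/
lemma E_up {p : Prop} {c r} (h : Out p c r) :
    (gm p).Ok (insert ea c) 1 false (r + if ea ∈ c then 1 else s / 400) := by
  have := nums
  have := s_big
  have hr : ra (insert ea c) = 0 := by simp [ra]
  have hq : 1 ≤ ra c + if ea ∈ c then 1 else s / 400 := by unfold ra; split_ifs <;> linarith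
  by_cases hp : p
  · refine post_ok hp (mem_insert_of_mem (h.1 hp).1) le_rfl (by omega) ?_
    have := U_ins 1 (NN - 1) ea c
    rw [hr, phi_one]; linarith [(h.1 hp).2]
  · rcases h.2 hp with ⟨rfl, h2⟩ | ⟨h1, h2⟩ | ⟨h1, h2⟩
    · exact ok_mono (fresh_up hp) (by simpa using h2)
    · rw [insert_eq_of_mem h1.1, if_pos h1.1]
      exact c5_ok hp h1 le_rfl (by omega) (by rw [phi_one]; linarith)
    · refine o2_ok hp (opn_mono h1 fun _ => mem_insert_of_mem) le_rfl (by omega) ?_
      have := U_ins 1 TT ea c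
      rw [hr, phi_one]; unfold U0 at *; linarith

/-- entering from above -/
lemma E_down {p : Prop} {c r} (h : Out p c r) (hb : ¬ p → eb ∉ c) :
    (gm p).Ok (insert eb c) (NN - 1) false (tp p + r - if p then 1 else s / 3) := by
  have := nums
  have := numR
  have := s_big
  have := phi_le TT
  by_cases hp : p
  · rw [insert_eq_of_mem (h.1 hp).1]
    refine post_ok hp (h.1 hp).1 (by omega) le_rfl ?_
    simp only [tp, hp, if_true]; linarith [phi_N, (h.1 hp).2]
  · rw [tp, if_neg hp, if_neg hp]
    rcases h.2 hp with ⟨rfl, h2⟩ | ⟨h1, h2⟩ | ⟨h1, h2⟩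
    · refine top_down hp (by simp) fun c' h' => o3_ok hp (fun z a b => (h' _).2 (by simp [a, b]))
        (by simp [h', ea]; omega) (fun z τ a b => by simp [h']; omega) (by omega) (by omega) ?_
      have u := U_le_one (dbl := dB) (BB + 1) TT c'
      rw [Nat.cast_sub (by omega)] at u
      push_cast at u
      linarith
    · refine top_down hp h1.2.2 fun c' h' => o2_ok hp (fun z a b => (h' _).2 (by simp [a, b]))
        (by omega) (by omega) ?_
      have m : ∀ e ∈ c, e ∈ c' := fun e he => (h' e).2 (Or.inl he)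
      have := U_mono (dbl := dB) 1 TT m
      simp only [ra, m _ h1.1, if_true, U0] at *
      linarith
    · exact absurd (opn_b h1) (hb hp)

lemma E_switch {p q : Prop} (hq : q) {c r} (h : Out p c r) (hb : eb ∈ c) : Out q c r := by
  have := nums
  refine ⟨fun _ => ?_, fun h => absurd hq h⟩
  by_cases hp : p
  · exact h.1 hp
  · rcases h.2 hp with ⟨rfl, h2⟩ | ⟨h1, h2⟩ | ⟨h1, h2⟩
    · simp at hb
    · exact absurd hb (h1.2.2 _ (by omega))
    · exact ⟨hb, by rwa [U_opn h1 (by omega)]⟩

lemma E_in {q : Prop} (hq : q) {c z σ} (hb : eb ∈ c) (h1 : 1 ≤ z) (h2 : z < NN) :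
    (gm q).Ok c z σ (3 * NN) := by
  have := nums
  have := numR
  have := s_big
  refine post_ok hq hb h1 (by omega) ?_
  have a := phi_le z
  have b := U_le_one (dbl := dB) 1 (NN - 1) c
  have d : ra c ≤ s / 32 + 1 := by unfold ra; split_ifs <;> linarith
  have e1 : (z : ℝ) ≤ NN := by exact_mod_cast h2.le
  have e2 : ((NN - 1 - 1 : ℕ) : ℝ) ≤ NN := by exact_mod_cast (by omega : NN - 1 - 1 ≤ NN)
  linarith

lemma out_empty {p : Prop} (hp : ¬ p) : Out p ∅ 0 :=
  ⟨fun h => absurd h hp, fun _ => Or.inl ⟨rfl, le_rfl⟩⟩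

end Pool.Agent.H80.Grw
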