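import Pool.Agent.H80.GrwDefs

set_option autoImplicit false

namespace Pool.Agent.H80.Grw

open MeasureTheory ProbabilityTheory Classical Finset Preorder
open scoped ENNReal

variable {V : Type} {G : SimpleGraph V}

lemma moves_sub {H v w} (h : w ∈ moves G H v) : G.Adj v w := by
  unfold moves at h; split_ifs at h
  · exact h.1
  · exact h

variable (hf : ∀ v, {w | G.Adj v w}.Finite) (hn : ∀ v, ∃ w, G.Adj v w)

noncomputable def mv (H : Set (Sym2 V)) (v : V) : Finset V :=
  ((hf v).subset fun _ h => moves_sub (H := H) h).toFinset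

lemma mem_mv {H v w} : w ∈ mv hf H v ↔ w ∈ moves G H v := by simp [mv]

lemma mv_card (H v) : (moves G H v).ncard = (mv hf H v).card := Set.ncard_eq_toFinset_card _ _

include hn in
lemma mv_ne (H v) : (mv hf H v).Nonempty := by
  by_cases h : ∃ w, G.Adj v w ∧ s(v, w) ∉ H
  · obtain ⟨w, hw⟩ := id h
    exact ⟨w, by rw [mem_mv]; simpa [moves, h] using hw⟩
  · obtain ⟨w, hw⟩ := hn v
    exact ⟨w, by rw [mem_mv]; simp only [moves, h]; simpa using hw⟩

include hn in
lemma exists_psi (o : V) (d : V → ℕ) (hd : ∀ v, v ≠ o → ∃ w, G.Adj v w ∧ d w < d v)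
    (A : Set V) (hA : A.Finite) : ∃ (Ψ : Set (Sym2 V) → V → ℝ) (c : ℝ), 0 < c ∧
      (∀ H v, 0 ≤ Ψ H v) ∧ ∀ H, ∀ v ∈ A, v ≠ o →
        ∑ w ∈ mv hf H v, Ψ (insert s(v, w) H) w ≤ (mv hf H v).card * (Ψ H v - c) := by
  obtain ⟨D, hD⟩ := (hA.image d).bddAbove
  obtain ⟨K, hK⟩ := (hA.image fun v => (hf v).toFinset.card).bddAbove
  set E : Finset (Sym2 V) := hA.toFinset.biUnion fun v => (hf v).toFinset.image fun w => s(v, w)
  set ρ : ℝ := 1 / (2 * (K + 1)) with hρ
  have r0 : 0 < ρ := by positivity
  have r1 : ρ ≤ 1 := by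
    rw [hρ, div_le_one (by positivity)]; have : (0 : ℝ) ≤ K := by positivity
    linarith
  have r2 : ∀ k, ρ ^ k ≤ 1 := fun k => pow_le_one₀ r0.le r1
  let k : Set (Sym2 V) → ℕ := fun H => (E.filter (· ∉ H)).card
  refine ⟨fun H v => 1 - ρ ^ d v + 2 * k H, ρ ^ D, by positivity,
    fun H v => by have := r2 (d v); positivity, fun H v hv ho => ?_⟩
  have r3 : ρ ^ D ≤ ρ ^ d v := pow_le_pow_of_le_one r0.le r1 (hD ⟨v, hv, rfl⟩)
  by_cases h : ∃ w, G.Adj v w ∧ s(v, w) ∉ H
  · rw [← nsmul_eq_mul]
    refine sum_le_card_nsmul _ _ _ fun w hw => ?_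
    rw [mem_mv] at hw; simp only [moves, h, if_true, Set.mem_setOf_eq] at hw
    have : k (insert s(v, w) H) < k H := by
      refine card_lt_card ⟨fun e he => ?_, fun h' => ?_⟩
      · simp only [mem_filter, Set.mem_insert_iff, not_or] at he ⊢; exact ⟨he.1, he.2.2⟩
      · have : s(v, w) ∈ E.filter (· ∉ H) := by
          refine mem_filter.2 ⟨mem_biUnion.2 ⟨v, by simpa using hv, mem_image.2
            ⟨w, by simpa using hw.1, rfl⟩⟩, hw.2⟩
        have := h' this
        simp at this
    have : (k (insert s(v, w) H) : ℝ) + 1 ≤ k H := by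
      exact_mod_cast this
    have := r2 (d v); have := r2 D; have : 0 < ρ ^ d w := by positivity
    simp only; linarith
  · obtain ⟨u, hu, hu'⟩ := hd v ho
    have hm : ∀ w, w ∈ mv hf H v ↔ G.Adj v w := fun w => by
      rw [mem_mv]; simp only [moves, h]; simp
    have hc : ((mv hf H v).card : ℝ) ≤ K := by
      have := hK ⟨v, hv, rfl⟩
      exact_mod_cast (card_le_card fun w hw => by simpa using (hm w).1 hw).trans this
    have e1 : ∀ w ∈ mv hf H v, insert s(v, w) H = H := fun w hw =>
      Set.insert_eq_of_mem (by by_contra h'; exact h ⟨w, (hm w).1 hw, h'⟩)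
    rw [sum_congr rfl fun w hw => by rw [e1 w hw]]
    simp only [sum_add_distrib, sum_sub_distrib, sum_const, nsmul_eq_mul]
    have s1 : ρ ^ d u ≤ ∑ w ∈ mv hf H v, ρ ^ d w :=
      single_le_sum (f := fun w => ρ ^ d w) (fun _ _ => by positivity) ((hm u).2 hu)
    have s2 : ρ ^ d v ≤ ρ ^ d u * ρ := by
      rw [← pow_succ]; exact pow_le_pow_of_le_one r0.le r1 hu'
    have s3 : ρ * (2 * (K + 1)) = 1 := by rw [hρ]; field_simp
    have s4 : 0 < ρ ^ d v := by positivity
    have s5 : (0 : ℝ) ≤ (mv hf H v).card := by positivity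
    have s6 : ρ ^ d v * (2 * (K + 1)) ≤ ρ ^ d u := by
      calc _ ≤ ρ ^ d u * ρ * (2 * (K + 1)) := by gcongr
        _ = _ := by rw [mul_assoc, s3, mul_one]
    nlinarith

def cyl (t : ℕ) (y : ℕ → V) : Set (ℕ → V) := {x | ∀ i ≤ t, x i = y i}

lemma cyl_upd (t : ℕ) (y : ℕ → V) (w : V) : cyl t (Function.update y (t + 1) w) = cyl t y := by
  ext x; simp only [cyl, Set.mem_setOf_eq]
  exact forall₂_congr fun i hi => by rw [Function.update_of_ne (by omega)]

lemma crossed_upd (t : ℕ) (y : ℕ → V) (w : V) :
    crossed (Function.update y (t + 1) w) t = crossed y t := by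
  ext e; simp only [crossed, Set.mem_setOf_eq]
  exact exists_congr fun i => and_congr_right fun hi => by
    rw [Function.update_of_ne (by omega), Function.update_of_ne (by omega)]

lemma crossed_succ (t : ℕ) (y : ℕ → V) :
    crossed y (t + 1) = insert s(y t, y (t + 1)) (crossed y t) := by
  ext e; simp only [crossed, Set.mem_setOf_eq, Set.mem_insert_iff]
  constructor
  · rintro ⟨i, hi, rfl⟩
    rcases Nat.lt_succ_iff_lt_or_eq.1 hi with h | rfl
    · exact Or.inr ⟨i, h, rfl⟩
    · exact Or.inl rfl
  · rintro (rfl | ⟨i, hi, rfl⟩)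
    · exact ⟨t, by omega, rfl⟩
    · exact ⟨i, by omega, rfl⟩

variable [MeasurableSpace V] [MeasurableSingletonClass V] [Countable V]

include hn in
theorem recurrent (o : V) (d lev : V → ℕ) (hd : ∀ v, v ≠ o → ∃ w, G.Adj v w ∧ d w < d v)
    (hl : ∀ N, {v | lev v < N}.Finite) (Good : ℕ → Set (Sym2 V) → V → ℝ → Prop) (γ : ℕ → ℝ)
    (hγ : Filter.Tendsto γ Filter.atTop Filter.atTop)
    (g0 : ∀ N H v a, Good N H v a → 0 ≤ a) (gm : ∀ N H v a b, Good N H v a → a ≤ b → Good N H v b)
    (gN : ∀ N M H v a, Good N H v a → M ≤ N → Good M H v a)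
    (g1 : ∀ N H v a, Good N H v a → v ≠ o → lev v < N → ∃ f : V → ℝ,
      ∑ w ∈ mv hf H v, f w ≤ (mv hf H v).card * a ∧
        ∀ w ∈ mv hf H v, Good N (insert s(v, w) H) w (f w))
    (g2 : ∀ N H v a, Good N H v a → N ≤ lev v → γ N ≤ a)
    (g3 : ∀ N, Good N ∅ o 0)
    (g4 : ∃ C, ∀ N H a, Good N H o a → lev o < N → ∀ w ∈ mv hf H o,
      Good N (insert s(o, w) H) w (a + C))
    (μ : Measure (ℕ → V)) (hμ : IsGRW G o μ) : ∀ᵐ x ∂μ, {t | x t = o}.Infinite := by
  obtain ⟨hP, h0, hs⟩ := hμ
  have hs' : ∀ y t, μ (cyl (t + 1) y) = μ (cyl t y) *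
      if y (t + 1) ∈ mv hf (crossed y t) (y t) then ((mv hf (crossed y t) (y t)).card : ℝ≥0∞)⁻¹
      else 0 := fun y t => by simpa only [mem_mv, ← mv_card, cyl] using hs y t
  have reach : ∀ t y, μ (cyl t y) ≠ 0 → ∃ a, ∀ N, Good N (crossed y t) (y t) a := by
    intro t
    induction t with
    | zero =>
      intro y hy
      have : y 0 = o := by
        by_contra h
        refine hy (measure_mono_null (fun x hx => ?_) (show μ {x | x 0 = o}ᶜ = 0 from ?_))
        · exact fun h' => h ((hx 0 le_rfl).symm.trans h')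
        · exact (prob_compl_eq_zero_iff (s := {x : ℕ → V | x 0 = o})
            (show MeasurableSet ((fun x : ℕ → V => x 0) ⁻¹' {o}) from
              measurable_pi_apply 0 (measurableSet_singleton o))).2 h0
      exact ⟨0, fun N => by simpa [crossed, this] using g3 N⟩
    | succ t ih =>
      intro y hy
      rw [hs'] at hy
      obtain ⟨a, ha⟩ := ih y (left_ne_zero_of_mul hy)
      have hm : y (t + 1) ∈ mv hf (crossed y t) (y t) := by
        by_contra h; simp [h] at hy
      rw [crossed_succ]
      by_cases ho : y t = o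
      · obtain ⟨C, hC⟩ := g4
        rw [← ho] at hC
        exact ⟨a + C, fun N => gN _ _ _ _ _ (hC (N + lev (y t) + 1) _ _ (ha _) (by omega) _ hm)
          (by omega)⟩
      · refine ⟨(mv hf (crossed y t) (y t)).card * a, fun N => ?_⟩
        obtain ⟨f, f1, f2⟩ := g1 (N + lev (y t) + 1) _ _ _ (ha _) ho (by omega)
        refine gN _ _ _ _ _ (gm _ _ _ _ _ (f2 _ hm) (le_trans ?_ f1)) (by omega)
        exact single_le_sum (fun w hw => g0 _ _ _ _ (f2 w hw)) hm
  let av : ℕ → ℕ → Set (ℕ → V) := fun t n => {x | ∀ i, t < i → i ≤ t + n → x i ≠ o}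
  have step : ∀ n t y, μ.real (cyl t y ∩ av t (n + 1)) ≤
      ∑ w ∈ (mv hf (crossed y t) (y t)).erase o,
        μ.real (cyl (t + 1) (Function.update y (t + 1) w) ∩ av (t + 1) n) := by
    intro n t y
    refine le_trans ?_ (measureReal_biUnion_finset_le _ _)
    have nul : μ (⋃ w : {w // w ∉ mv hf (crossed y t) (y t)},
        cyl (t + 1) (Function.update y (t + 1) w)) = 0 :=
      measure_iUnion_null fun w => by
        rw [hs', crossed_upd, Function.update_self, Function.update_of_ne (by omega), if_neg w.2,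
          mul_zero]
    refine ENNReal.toReal_mono (measure_ne_top _ _) (measure_mono_ae ?_)
    filter_upwards [measure_eq_zero_iff_ae_notMem.1 nul] with x hx hx'
    have c1 : x ∈ cyl (t + 1) (Function.update y (t + 1) (x (t + 1))) := by
      intro i hi
      rcases Nat.lt_succ_iff_lt_or_eq.1 (Nat.lt_succ_of_le hi) with h | rfl
      · rw [Function.update_of_ne (by omega)]; exact hx'.1 i (by omega)
      · simp
    refine Set.mem_biUnion (x := x (t + 1)) ?_ ⟨c1, fun i a b => hx'.2 i (by omega) (by omega)⟩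
    refine mem_coe.2 (mem_erase.2 ⟨hx'.2 _ (by omega) (by omega), ?_⟩)
    by_contra h
    exact hx (Set.mem_iUnion.2 ⟨⟨_, h⟩, c1⟩)
  have main : ∀ t y, y t ≠ o → μ (cyl t y ∩ {x | ∀ i, t < i → x i ≠ o}) = 0 := by
    intro t0 y0 hy0
    by_cases hz : μ (cyl t0 y0) = 0
    · exact measure_mono_null Set.inter_subset_left hz
    obtain ⟨a0, ha0⟩ := reach t0 y0 hz
    have key : ∀ N, 0 < γ N → μ.real (cyl t0 y0 ∩ {x | ∀ i, t0 < i → x i ≠ o}) ≤ a0 / γ N := by
      intro N hN
      obtain ⟨Ψ, c, c0, p0, p1⟩ := exists_psi hf hn o d hd _ (hl N)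
      have cl : ∀ n : ℕ, ∀ t y a, Good N (crossed y t) (y t) a → y t ≠ o →
          n * c * (μ.real (cyl t y ∩ av t n) - μ.real (cyl t y) * (a / γ N)) ≤
            μ.real (cyl t y) * Ψ (crossed y t) (y t) := by
        intro n
        induction n with
        | zero => intro t y a _ _; have := p0 (crossed y t) (y t); simp; positivity
        | succ n ih =>
          intro t y a hg ho
          have m0 : 0 ≤ μ.real (cyl t y) := measureReal_nonneg
          have m1 : μ.real (cyl t y ∩ av t (n + 1)) ≤ μ.real (cyl t y) :=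
            measureReal_mono Set.inter_subset_left
          have q0 := p0 (crossed y t) (y t)
          have a0 := div_nonneg (g0 _ _ _ _ hg) hN.le
          by_cases hv : N ≤ lev (y t)
          · have : 1 ≤ a / γ N := (one_le_div hN).2 (g2 _ _ _ _ hg hv)
            refine le_trans (mul_nonpos_of_nonneg_of_nonpos (by positivity) (by nlinarith))
              (by positivity)
          obtain ⟨f, f1, f2⟩ := g1 _ _ _ _ hg ho (by omega)
          have p2 := p1 (crossed y t) (y t) (by simpa using hv) ho
          set M := mv hf (crossed y t) (y t) with hM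
          have k0 : (0 : ℝ) < M.card := by exact_mod_cast (mv_ne hf hn _ _).card_pos
          set m := μ.real (cyl t y) / M.card with hm
          have mm : 0 ≤ m := by positivity
          have b1 : ∀ w ∈ M.erase o, n * c * μ.real (cyl (t + 1) (Function.update y (t + 1) w) ∩
              av (t + 1) n) ≤ m * (Ψ (insert s(y t, w) (crossed y t)) w + n * c * (f w / γ N)) := by
            intro w hw
            obtain ⟨w1, w2⟩ := mem_erase.1 hw
            have e1 : crossed (Function.update y (t + 1) w) (t + 1) =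
                insert s(y t, w) (crossed y t) := by
              rw [crossed_succ, crossed_upd, Function.update_self, Function.update_of_ne (by omega)]
            have e2 : μ.real (cyl (t + 1) (Function.update y (t + 1) w)) = m := by
              rw [Measure.real, hs', crossed_upd, Function.update_self,
                Function.update_of_ne (by omega), if_pos w2, cyl_upd, hm]
              simp [Measure.real, div_eq_mul_inv, hM]
            have := ih (t + 1) (Function.update y (t + 1) w) (f w)
              (by rw [e1, Function.update_self]; exact f2 w w2) (by simpa using w1)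
            rw [e1, e2, Function.update_self] at this
            linarith
          have b2 := sum_le_sum b1
          have b3 : ∑ w ∈ M.erase o, m * (Ψ (insert s(y t, w) (crossed y t)) w +
              n * c * (f w / γ N)) ≤ ∑ w ∈ M, m * (Ψ (insert s(y t, w) (crossed y t)) w +
              n * c * (f w / γ N)) :=
            sum_le_sum_of_subset_of_nonneg (erase_subset _ _) fun w hw _ => by
              have := p0 (insert s(y t, w) (crossed y t)) w
              have := g0 _ _ _ _ (f2 w hw)
              positivity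
          rw [← mul_sum] at b2
          rw [← mul_sum M, sum_add_distrib, ← mul_sum M, ← sum_div] at b3
          have b4 := step n t y
          have b5 : (∑ w ∈ M, f w) / γ N ≤ M.card * (a / γ N) := by
            rw [← mul_div_assoc]; gcongr
          have b6 : m * M.card = μ.real (cyl t y) := by rw [hm]; field_simp
          have b7 : m * (∑ w ∈ M, Ψ (insert s(y t, w) (crossed y t)) w +
              n * c * ((∑ w ∈ M, f w) / γ N)) ≤ m * (M.card * (Ψ (crossed y t) (y t) - c) +
              n * c * (M.card * (a / γ N))) := by gcongr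
          have b8 : n * c * μ.real (cyl t y ∩ av t (n + 1)) ≤ _ :=
            (mul_le_mul_of_nonneg_left b4 (by positivity)).trans (b2.trans (b3.trans b7))
          have b9 : m * (M.card * (Ψ (crossed y t) (y t) - c) + n * c * (M.card * (a / γ N))) =
              μ.real (cyl t y) * (Ψ (crossed y t) (y t) - c + n * c * (a / γ N)) := by
            rw [← b6]; ring
          rw [b9] at b8
          have := mul_nonneg m0 a0
          push_cast; nlinarith
      by_contra hc
      push Not at hc
      set η := μ.real (cyl t0 y0 ∩ {x | ∀ i, t0 < i → x i ≠ o}) - a0 / γ N with hη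
      have η0 : 0 < η := by linarith
      obtain ⟨n, hn'⟩ := exists_nat_gt (Ψ (crossed y0 t0) (y0 t0) / (c * η))
      rw [div_lt_iff₀ (by positivity)] at hn'
      have := cl n t0 y0 a0 (ha0 N) hy0
      have m1 : μ.real (cyl t0 y0) ≤ 1 := measureReal_le_one
      have m2 : μ.real (cyl t0 y0 ∩ {x | ∀ i, t0 < i → x i ≠ o}) ≤ μ.real (cyl t0 y0 ∩ av t0 n) :=
        measureReal_mono (Set.inter_subset_inter_right _ fun x hx i a _ => hx i a)
      have a1 := div_nonneg (g0 _ _ _ _ (ha0 N)) hN.le
      have q0 := p0 (crossed y0 t0) (y0 t0)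
      have m3 : η ≤ μ.real (cyl t0 y0 ∩ av t0 n) - μ.real (cyl t0 y0) * (a0 / γ N) := by nlinarith
      have : n * c * η ≤ μ.real (cyl t0 y0) * Ψ (crossed y0 t0) (y0 t0) :=
        le_trans (by gcongr) this
      nlinarith
    have := ge_of_tendsto (hγ.const_div_atTop a0)
      ((hγ.eventually_gt_atTop 0).mono fun N hN => key N hN)
    exact (measureReal_eq_zero_iff (measure_ne_top _ _)).1 (le_antisymm this measureReal_nonneg)
  have nul : μ (⋃ q : {q : Σ t : ℕ, Fin (t + 1) → V // q.2 (Fin.last _) ≠ o},
      cyl q.1.1 (fun i => if h : i < q.1.1 + 1 then q.1.2 ⟨i, h⟩ else o) ∩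
        {x | ∀ i, q.1.1 < i → x i ≠ o}) = 0 :=
    measure_iUnion_null fun q => main _ _ (by simpa [Fin.last] using q.2)
  filter_upwards [measure_eq_zero_iff_ae_notMem.1 nul] with x hx hfin
  obtain ⟨T, hT⟩ := hfin.bddAbove
  have : ∀ i, T < i → x i ≠ o := fun i hi h => absurd (hT h) (by omega)
  refine hx (Set.mem_iUnion.2 ⟨⟨⟨T + 1, fun i => x i⟩, this _ (by simp)⟩, fun i hi => ?_,
    fun i hi => this i (by simp at hi; omega)⟩)
  simp only at hi
  simp [Nat.lt_succ_of_le hi]

include hf hn in
theorem exists_grw [DiscreteMeasurableSpace V] (o : V) : ∃ μ, IsGRW G o μ := by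
  let ex : ∀ n : ℕ, (Π _ : Iic n, V) → ℕ → V := fun n x i =>
    if h : i ≤ n then x ⟨i, mem_Iic.2 h⟩ else o
  let κ : ∀ n : ℕ, Kernel (Π _ : Iic n, V) V := fun n => Kernel.ofFunOfCountable fun x =>
    (PMF.uniformOfFinset _ (mv_ne hf hn (crossed (ex n x) n) (ex n x n))).toMeasure
  haveI : ∀ n, IsMarkovKernel (κ n) := fun n => ⟨fun x => by
    simp only [κ, Kernel.ofFunOfCountable, Kernel.coe_mk]; infer_instance⟩
  have ce : ∀ n (y : ℕ → V), {x : ℕ → V | ∀ i ≤ n, x i = y i} =
      frestrictLe (π := fun _ => V) n ⁻¹' {frestrictLe n y} := by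
    intro n y; ext x
    simp only [Set.mem_setOf_eq, Set.mem_preimage, Set.mem_singleton_iff, funext_iff,
      frestrictLe_apply]
    exact ⟨fun h i => h i (mem_Iic.1 i.2), fun h i hi => h ⟨i, mem_Iic.2 hi⟩⟩
  refine ⟨Kernel.trajMeasure (X := fun _ => V) (Measure.dirac o) κ, inferInstance, ?_, ?_⟩
  · have : {x : ℕ → V | x 0 = o} = {x | ∀ i ≤ 0, x i = (fun _ => o) i} := by ext x; simp
    rw [this, ce, ← Measure.map_apply (measurable_frestrictLe 0) (measurableSet_singleton _),
      Kernel.trajMeasure, Measure.map_comp _ _ (by fun_prop),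
      Kernel.traj_map_frestrictLe, Kernel.partialTraj_self, Measure.id_comp,
      Measure.map_dirac' (by fun_prop), Measure.dirac_apply' _ (measurableSet_singleton _)]
    refine Set.indicator_of_mem ?_ _
    rfl
  · intro y n
    have e : {x : ℕ → V | ∀ i ≤ n + 1, x i = y i} =
        (fun x : ℕ → V => (frestrictLe (π := fun _ => V) n x, x (n + 1))) ⁻¹'
        ({frestrictLe n y} ×ˢ {y (n + 1)}) := by
      ext x
      have := Set.ext_iff.1 (ce n y) x
      simp only [Set.mem_preimage, Set.mem_singleton_iff] at this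
      simp only [Set.mem_preimage, Set.mem_prod, Set.mem_singleton_iff, ← this, Set.mem_setOf_eq]
      constructor
      · intro h
        exact ⟨fun i hi => h i (by omega), h _ le_rfl⟩
      · rintro ⟨h1, h2⟩ i hi
        rcases Nat.lt_or_eq_of_le hi with h | rfl
        · exact h1 i (by omega)
        · exact h2
    have e1 : ex n (frestrictLe n y) n = y n := by simp [ex]
    have e2 : crossed (ex n (frestrictLe n y)) n = crossed y n := by
      ext e; simp only [crossed, Set.mem_setOf_eq]
      exact exists_congr fun i => and_congr_right fun hi => by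
        simp [ex, hi.le, Nat.succ_le_of_lt hi]
    rw [e, ← Measure.map_apply (by fun_prop)
      ((measurableSet_singleton _).prod (measurableSet_singleton _)),
      ← Kernel.map_frestrictLe_trajMeasure_compProd_eq_map_trajMeasure,
      Measure.compProd_apply_prod (measurableSet_singleton _) (measurableSet_singleton _),
      lintegral_singleton' (Kernel.measurable_coe _ (measurableSet_singleton _)),
      Measure.map_apply (measurable_frestrictLe n) (measurableSet_singleton _), ← ce, mul_comm]
    congr 1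
    simp only [κ, Kernel.ofFunOfCountable, Kernel.coe_mk]
    rw [PMF.toMeasure_apply_singleton _ _ (measurableSet_singleton _), PMF.uniformOfFinset_apply,
      e1, e2, mv_card hf]
    simp only [mem_mv]

end Pool.Agent.H80.Grw
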