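import Pool.Agent.H80.Grw4
import Pool.Agent.H80.Grw5

set_option autoImplicit false

namespace Pool.Agent.H80.Grw

open Finset Classical

structure Par where
  E : ℕ
  Sh : ℕ → ℕ → Prop
  J : ℕ → ℕ
  symm : ∀ m n, Sh m n → Sh n m
  irr : ∀ m n, Sh m n → m ≠ n
  bd : ∀ m n, Sh m n → n ≤ J m
  hE : ∀ m, 2 * NN * (J m + 1) ^ 2 * (m + 1) ^ 2 ≤ E * 2 ^ m

variable {P : Par}

def Par.e (P : Par) (n : ℕ) : ℕ := P.E * 2 ^ n

lemma NN_big : 5 ≤ NN := by have := nums; omega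

lemma e_pos (n : ℕ) : 0 < P.e n :=
  lt_of_lt_of_le (by have := NN_big; positivity) (P.hE n)

lemma e_succ (n : ℕ) : P.e (n + 1) = 2 * P.e n := by simp [Par.e, pow_succ]; ring

@[ext] structure Vx (P : Par) where
  n : ℕ
  g : ℕ
  z : ℕ
  σ : Bool
  hz : z < NN
  hg : g < P.e n
  h0 : z = 0 → g = 0
  hσ : σ = true → dv dB z

instance : Countable (Vx P) :=
  Function.Injective.countable (f := fun v : Vx P => (v.n, v.g, v.z, v.σ)) fun a b h => by
    simp only [Prod.mk.injEq] at h; exact Vx.ext h.1 h.2.1 h.2.2.1 h.2.2.2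

def hub (P : Par) (n : ℕ) : Vx P :=
  ⟨n, 0, 0, false, by have := NN_big; omega, e_pos n, fun _ => rfl, by simp⟩

noncomputable def node (P : Par) (n g z : ℕ) (τ : Bool) : Vx P :=
  if h : g < P.e n ∧ 0 < z ∧ z < NN then
    ⟨n, g, z, sd dB τ z, h.2.2, h.1, fun h' => by omega, fun h' => by simp [sd] at h'; exact h'.2⟩
  else if z = 0 then hub P n else hub P (n + 1)

lemma node_zero (n g : ℕ) (τ : Bool) : node P n g 0 τ = hub P n := by simp [node]
lemma node_N (n g : ℕ) (τ : Bool) : node P n g NN τ = hub P (n + 1) := by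
  have := NN_big; simp [node]; omega
lemma node_mid {n g z : ℕ} (τ : Bool) (hg : g < P.e n) (h0 : 0 < z) (h1 : z < NN) :
    (node P n g z τ).n = n ∧ (node P n g z τ).g = g ∧ (node P n g z τ).z = z ∧
      (node P n g z τ).σ = sd dB τ z := by simp [node, hg, h0, h1]
@[simp] lemma hub_n (n : ℕ) : (hub P n).n = n := rfl
@[simp] lemma hub_z (n : ℕ) : (hub P n).z = 0 := rfl
lemma eq_hub (X : Vx P) (h : X.z = 0) : X = hub P X.n := by
  refine Vx.ext rfl (X.h0 h) h ?_
  have := X.hσ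
  rw [h] at this
  simpa [hub] using fun h' => dB_zero (this h').2

def ht (v : Vx P) : ℕ := v.n * NN + v.z

lemma ht_node {n g z : ℕ} (τ : Bool) (hg : g < P.e n) (h1 : z ≤ NN) :
    ht (node P n g z τ) = n * NN + z := by
  rcases Nat.eq_zero_or_pos z with rfl | h0
  · simp [node_zero, ht]
  · rcases h1.eq_or_lt with rfl | h1
    · simp [node_N, ht, add_mul]
    · obtain ⟨a, -, b, -⟩ := node_mid (P := P) τ hg h0 h1
      rw [ht, a, b]

noncomputable def edge (P : Par) (n g : ℕ) (l : Lb) : Sym2 (Vx P) :=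
  s(node P n g l.1 l.2, node P n g (l.1 + 1) l.2)

def Valid (l : Lb) : Prop := l.1 < NN ∧ (l.2 = true → dB l.1)

noncomputable def GG (P : Par) : SimpleGraph (Vx P) :=
  SimpleGraph.fromEdgeSet ({x | ∃ n g l, g < P.e n ∧ Valid l ∧ x = edge P n g l} ∪
    {x | ∃ m n, P.Sh m n ∧ x = s(hub P m, hub P n)})

lemma valid_a : Valid ea := ⟨by have := NN_big; simp [ea]; omega, by simp [ea]⟩
lemma valid_b : Valid eb := ⟨by have := NN_big; simp [eb]; omega, by simp [eb]⟩

lemma edge_inj {n g n' g' : ℕ} {l l' : Lb} (hg : g < P.e n) (hg' : g' < P.e n') (hl : Valid l)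
    (hl' : Valid l') (h : edge P n g l = edge P n' g' l') : n = n' ∧ g = g' ∧ l = l' := by
  obtain ⟨z, τ⟩ := l
  obtain ⟨z', τ'⟩ := l'
  obtain ⟨a1, a2⟩ := hl
  obtain ⟨b1, b2⟩ := hl'
  simp only at a1 a2 b1 b2
  have := nums
  rcases Sym2.eq_iff.1 h with ⟨h1, h2⟩ | ⟨h1, h2⟩
  · have k := congrArg ht h1
    rw [ht_node _ hg a1.le, ht_node _ hg' b1.le] at k
    simp only at k h1 h2
    obtain rfl : n = n' := by
      rcases lt_trichotomy n n' with h | h | h
      · have := Nat.mul_le_mul_right NN (show n + 1 ≤ n' from h); rw [add_mul] at this; omega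
      · exact h
      · have := Nat.mul_le_mul_right NN (show n' + 1 ≤ n from h); rw [add_mul] at this; omega
    obtain rfl : z = z' := by omega
    have m : ∀ y, 0 < y → y < NN → node P n g y τ = node P n g' y τ' →
        g = g' ∧ sd dB τ y = sd dB τ' y := fun y y0 y1 hy => by
      obtain ⟨-, c1, -, c2⟩ := node_mid (P := P) τ hg y0 y1
      obtain ⟨-, d1, -, d2⟩ := node_mid (P := P) τ' hg' y0 y1
      rw [← c1, ← c2, hy, d1, d2]; simp
    refine ⟨rfl, ?_, ?_⟩
    · by_cases hz : z = 0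
      · exact (m _ (by omega) (by omega) h2).1
      · exact (m _ (by omega) a1 h1).1
    · by_cases hd : dB z
      · rcases dB_nb hd with h' | h'
        · have := (m z (Nat.pos_of_ne_zero fun h => dB_zero (h ▸ hd)) a1 h1).2
          simpa [sd, dv, hd, h'] using this
        · have := (m (z + 1) (by omega) (by
            by_contra hh; exact dB_top (by omega) h') h2).2
          simpa [sd, dv, hd, h'] using this
      · have : τ = false := by simpa using fun h => hd (a2 h)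
        have : τ' = false := by simpa using fun h => hd (b2 h)
        simp [*]
  · have k1 := congrArg ht h1
    have k2 := congrArg ht h2
    rw [ht_node _ hg a1.le, ht_node _ hg' b1] at k1
    rw [ht_node _ hg a1, ht_node _ hg' b1.le] at k2
    omega

lemma edge_ne_sh {n g : ℕ} {l : Lb} (hg : g < P.e n) (hl : Valid l) (i j : ℕ) :
    edge P n g l ≠ s(hub P i, hub P j) := by
  intro h
  have := NN_big
  have : (node P n g l.1 l.2).z = 0 ∧ (node P n g (l.1 + 1) l.2).z = 0 := by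
    rcases Sym2.eq_iff.1 h with ⟨h1, h2⟩ | ⟨h1, h2⟩ <;> simp [h1, h2]
  by_cases hz : l.1 = 0
  · have := (node_mid (P := P) l.2 hg (show 0 < l.1 + 1 by omega) (by omega)).2.2.1; omega
  · have := (node_mid (P := P) l.2 hg (show 0 < l.1 by omega) hl.1).2.2.1; omega

lemma adj_edge {n g : ℕ} {l : Lb} (hg : g < P.e n) (hl : Valid l) {u v : Vx P}
    (h : s(u, v) = edge P n g l) : (GG P).Adj u v := by
  refine (SimpleGraph.fromEdgeSet_adj _).2 ⟨Or.inl ⟨n, g, l, hg, hl, h⟩, ?_⟩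
  rintro rfl
  have a := ht_node (P := P) l.2 hg hl.1.le
  have b := ht_node (P := P) (z := l.1 + 1) l.2 hg hl.1
  rcases Sym2.eq_iff.1 h with ⟨h1, h2⟩ | ⟨h1, h2⟩ <;>
    have := congrArg ht (h1.symm.trans h2) <;> omega

lemma adj_sh {i j : ℕ} (h : P.Sh i j) : (GG P).Adj (hub P i) (hub P j) :=
  (SimpleGraph.fromEdgeSet_adj _).2 ⟨Or.inr ⟨i, j, h, rfl⟩,
    fun h' => P.irr _ _ h (congrArg Vx.n h')⟩

noncomputable def tgt (X : Vx P) (l : Lb) : Vx P := node P X.n X.g (nh X.z l) l.2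

lemma node_self (X : Vx P) (h : X.z ≠ 0) {τ : Bool} (ht : dv dB X.z → τ = X.σ) :
    node P X.n X.g X.z τ = X := by
  obtain ⟨a, b, c, d⟩ := node_mid (P := P) τ X.hg (Nat.pos_of_ne_zero h) X.hz
  refine Vx.ext a b c (d.trans ?_)
  by_cases hd : dv dB X.z
  · simp [sd, hd, ht hd]
  · have : X.σ = false := by simpa using fun h => hd (X.hσ h)
    simp [sd, hd, this]

lemma inc_edge (X : Vx P) (h : X.z ≠ 0) {l : Lb} (hl : l ∈ Inc dB X.z X.σ) :
    Valid l ∧ s(X, tgt X l) = edge P X.n X.g l := by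
  obtain ⟨a, b, c⟩ := mem_Inc.1 hl
  have := X.hz
  refine ⟨⟨by omega, b⟩, ?_⟩
  unfold tgt edge nh
  split_ifs with hz
  · rw [hz, node_self X h c]
  · rw [show l.1 + 1 = X.z by omega, node_self X h c, show l.1 = X.z - 1 by omega, Sym2.eq_swap]

lemma adj_mid (X : Vx P) (h : X.z ≠ 0) {w : Vx P} :
    (GG P).Adj X w ↔ ∃ l ∈ Inc dB X.z X.σ, w = tgt X l := by
  constructor
  · intro ha
    rcases ((SimpleGraph.fromEdgeSet_adj _).1 ha).1 with ⟨n, g, l, hg, hl, he⟩ | ⟨i, j, -, he⟩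
    · have key : ∀ y, y ≤ NN → X = node P n g y l.2 → X.n = n ∧ X.g = g ∧ X.z = y ∧
          (dv dB X.z → l.2 = X.σ) := by
        intro y hy hX
        have y0 : y ≠ 0 := by rintro rfl; rw [node_zero] at hX; simp [hX] at h
        have y1 : y ≠ NN := by rintro rfl; rw [node_N] at hX; simp [hX] at h
        obtain ⟨a, b, c, d⟩ := node_mid (P := P) l.2 hg (Nat.pos_of_ne_zero y0) (by omega)
        rw [← hX] at a b c d
        exact ⟨a, b, c, fun hd => by rw [d, ← c]; simp [sd, hd]⟩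
      have : X.n = n ∧ X.g = g ∧ l ∈ Inc dB X.z X.σ := by
        rcases Sym2.eq_iff.1 he with ⟨h1, -⟩ | ⟨h1, -⟩
        · obtain ⟨a, b, c, d⟩ := key _ hl.1.le h1
          exact ⟨a, b, mem_Inc.2 ⟨Or.inl c.symm, hl.2, d⟩⟩
        · obtain ⟨a, b, c, d⟩ := key _ hl.1 h1
          exact ⟨a, b, mem_Inc.2 ⟨Or.inr (by omega), hl.2, d⟩⟩
      obtain ⟨rfl, rfl, hi⟩ := this
      exact ⟨l, hi, Sym2.congr_right.1 (he.trans (inc_edge X h hi).2.symm)⟩
    · rcases Sym2.eq_iff.1 he with ⟨h1, -⟩ | ⟨h1, -⟩ <;> simp [h1] at h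
  · rintro ⟨l, hl, rfl⟩
    exact adj_edge X.hg (inc_edge X h hl).1 (inc_edge X h hl).2

lemma edge_a (m g : ℕ) : s(hub P m, node P m g 1 false) = edge P m g ea := by
  simp [edge, ea, node_zero]
lemma edge_b (n g : ℕ) : s(hub P (n + 1), node P n g (NN - 1) false) = edge P n g eb := by
  have := NN_big
  simp only [edge, eb, show NN - 1 + 1 = NN by omega, node_N]; exact Sym2.eq_swap

lemma adj_hub {m : ℕ} {w : Vx P} : (GG P).Adj (hub P m) w ↔ (∃ g < P.e m, w = node P m g 1 false) ∨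
    (∃ n g, m = n + 1 ∧ g < P.e n ∧ w = node P n g (NN - 1) false) ∨ ∃ j, P.Sh m j ∧ w = hub P j := by
  have := nums
  constructor
  · intro ha
    rcases ((SimpleGraph.fromEdgeSet_adj _).1 ha).1 with ⟨n, g, ⟨z, τ⟩, hg, hl, he⟩ | ⟨i, j, hs, he⟩
    · have hl1 : z < NN := hl.1
      have hl2 : τ = true → dB z := hl.2
      rcases Sym2.eq_iff.1 he with ⟨h1, h2⟩ | ⟨h1, h2⟩
      · simp only at h1 h2
        obtain rfl : z = 0 := by
          by_contra hz
          have := (node_mid (P := P) τ hg (Nat.pos_of_ne_zero hz) hl1).2.2.1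
          rw [← h1] at this; simp at this; omega
        obtain rfl : τ = false := by simpa using fun h => dB_zero (hl2 h)
        rw [node_zero] at h1
        obtain rfl : m = n := congrArg Vx.n h1
        exact Or.inl ⟨g, hg, h2⟩
      · simp only at h1 h2
        have hz : z + 1 = NN := by
          by_contra hz
          have := (node_mid (P := P) τ hg (show 0 < z + 1 by omega) (by omega)).2.2.1
          rw [← h1] at this; simp at this
        obtain rfl : τ = false := by simpa using fun h => dB_top (by omega) (hl2 h)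
        rw [hz, node_N] at h1
        exact Or.inr (Or.inl ⟨n, g, congrArg Vx.n h1, hg, by rw [h2]; congr 1; omega⟩)
    · rcases Sym2.eq_iff.1 he with ⟨h1, h2⟩ | ⟨h1, h2⟩
      · obtain rfl : m = i := congrArg Vx.n h1
        exact Or.inr (Or.inr ⟨j, hs, h2⟩)
      · obtain rfl : m = j := congrArg Vx.n h1
        exact Or.inr (Or.inr ⟨i, P.symm _ _ hs, h2⟩)
  · rintro (⟨g, hg, rfl⟩ | ⟨n, g, rfl, hg, rfl⟩ | ⟨j, hj, rfl⟩)
    · exact adj_edge hg valid_a (edge_a _ _)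
    · exact adj_edge hg valid_b (edge_b _ _)
    · exact adj_sh hj

lemma fin_nb (v : Vx P) : {w | (GG P).Adj v w}.Finite := by
  by_cases h : v.z = 0
  · rw [eq_hub v h]
    refine ((((Set.finite_Iio (P.e v.n)).image fun g => node P v.n g 1 false).union
      ((Set.finite_Iio (P.e (v.n - 1))).image fun g => node P (v.n - 1) g (NN - 1) false)).union
      ((Set.finite_Iic (P.J v.n)).image (hub P))).subset fun w hw => ?_
    rcases adj_hub.1 hw with ⟨g, hg, rfl⟩ | ⟨n, g, h', hg, rfl⟩ | ⟨j, hj, rfl⟩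
    · exact Or.inl (Or.inl ⟨g, hg, rfl⟩)
    · exact Or.inl (Or.inr ⟨g, by simpa [h'] using hg, by simp [h']⟩)
    · exact Or.inr ⟨j, P.bd _ _ hj, rfl⟩
  · refine ((Inc dB v.z v.σ).finite_toSet.image (tgt v)).subset fun w hw => ?_
    obtain ⟨l, hl, rfl⟩ := (adj_mid v h).1 hw
    exact ⟨l, hl, rfl⟩

lemma desc (v : Vx P) (h : v ≠ hub P 0) : ∃ w, (GG P).Adj v w ∧ ht w + 1 = ht v := by
  have := NN_big
  by_cases hz : v.z = 0
  · rw [eq_hub v hz] at h ⊢
    obtain ⟨n, hn⟩ : ∃ n, v.n = n + 1 := ⟨v.n - 1, by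
      have : v.n ≠ 0 := fun h' => h (by rw [h']); omega⟩
    refine ⟨_, adj_hub.2 (Or.inr (Or.inl ⟨n, 0, hn, e_pos n, rfl⟩)), ?_⟩
    rw [ht_node _ (e_pos n) (by omega)]; simp [ht, hn, add_mul]; omega
  · have := v.hz
    refine ⟨tgt v (v.z - 1, v.σ), (adj_mid v hz).2 ⟨_, mem_Inc.2 ⟨Or.inr rfl,
      fun h => (v.hσ h).1, fun _ => rfl⟩, rfl⟩, ?_⟩
    rw [tgt, show nh v.z (v.z - 1, v.σ) = v.z - 1 by simp [nh]; omega,
      ht_node _ v.hg (by omega), ht]; omega

lemma has_nb (v : Vx P) : ∃ w, (GG P).Adj v w := by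
  by_cases h : v = hub P 0
  · exact ⟨_, h ▸ adj_hub.2 (Or.inl ⟨0, e_pos 0, rfl⟩)⟩
  · exact (desc v h).imp fun _ h => h.1

lemma fin_lev (N : ℕ) : {v : Vx P | v.n < N}.Finite := by
  refine Set.Finite.of_finite_image (f := fun v : Vx P => (v.n, v.g, v.z, v.σ))
    (((Set.finite_Iio N).prod ((Set.finite_Iio (P.e N)).prod ((Set.finite_Iio NN).prod
      (Set.finite_univ (α := Bool))))).subset ?_) fun a _ b _ h => ?_
  · rintro _ ⟨v, hv, rfl⟩
    refine ⟨hv, lt_of_lt_of_le v.hg ?_, v.hz, trivial⟩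
    exact Nat.mul_le_mul_left _ (Nat.pow_le_pow_right (by norm_num) (le_of_lt hv))
  · simp only [Prod.mk.injEq] at h; exact Vx.ext h.1 h.2.1 h.2.2.1 h.2.2.2

noncomputable def loc (H : Set (Sym2 (Vx P))) (n g : ℕ) : Finset Lb :=
  (range NN ×ˢ univ).filter fun l => Valid l ∧ edge P n g l ∈ H

lemma mem_loc {H : Set (Sym2 (Vx P))} {n g l} : l ∈ loc H n g ↔ Valid l ∧ edge P n g l ∈ H := by
  simp only [loc, mem_filter, mem_product, mem_range, mem_univ, and_true]
  exact ⟨fun h => h.2, fun h => ⟨h.1.1, h⟩⟩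

lemma loc_same (H : Set (Sym2 (Vx P))) {n g l} (hg : g < P.e n) (hl : Valid l) :
    loc (insert (edge P n g l) H) n g = insert l (loc H n g) := by
  ext l'
  simp only [mem_loc, mem_insert, Set.mem_insert_iff]
  constructor
  · rintro ⟨a, b | b⟩
    · exact Or.inl (edge_inj hg hg a hl b).2.2
    · exact Or.inr ⟨a, b⟩
  · rintro (rfl | ⟨a, b⟩)
    · exact ⟨hl, Or.inl rfl⟩
    · exact ⟨a, Or.inr b⟩

lemma loc_ne (H : Set (Sym2 (Vx P))) {n g l n' g'} (hg : g < P.e n) (hl : Valid l)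
    (hg' : g' < P.e n') (h : ¬ (n' = n ∧ g' = g)) :
    loc (insert (edge P n g l) H) n' g' = loc H n' g' := by
  ext l'
  simp only [mem_loc, Set.mem_insert_iff]
  refine and_congr_right fun a => or_iff_right fun b => ?_
  have := edge_inj hg' hg a hl b
  exact h ⟨this.1, this.2.1⟩

lemma loc_sh (H : Set (Sym2 (Vx P))) (i j : ℕ) {n g} (hg : g < P.e n) :
    loc (insert s(hub P i, hub P j) H) n g = loc H n g := by
  ext l'
  simp only [mem_loc, Set.mem_insert_iff]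
  exact and_congr_right fun a => or_iff_right (edge_ne_sh hg a i j)

lemma tgt_inj (X : Vx P) (h : X.z ≠ 0) {l l'} (hl : l ∈ Inc dB X.z X.σ) (hl' : l' ∈ Inc dB X.z X.σ)
    (e : tgt X l = tgt X l') : l = l' := by
  have a := inc_edge X h hl
  have b := inc_edge X h hl'
  exact (edge_inj X.hg X.hg a.1 b.1 (by rw [← a.2, ← b.2, e])).2.2

lemma chL_sub {c z σ l} (h : l ∈ chL dB c z σ) : l ∈ Inc dB z σ := by
  unfold chL at h; split_ifs at h
  · exact (mem_sdiff.1 h).1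
  · exact h

lemma mv_mid (H : Set (Sym2 (Vx P))) (X : Vx P) (h : X.z ≠ 0) :
    mv fin_nb H X = (chL dB (loc H X.n X.g) X.z X.σ).image (tgt X) := by
  have k : ∀ w, ((GG P).Adj X w ∧ s(X, w) ∉ H) ↔
      ∃ l ∈ Inc dB X.z X.σ \ loc H X.n X.g, tgt X l = w := by
    intro w
    simp only [adj_mid X h, mem_sdiff, mem_loc]
    constructor
    · rintro ⟨⟨l, hl, rfl⟩, h2⟩
      exact ⟨l, ⟨hl, fun h' => h2 ((inc_edge X h hl).2 ▸ h'.2)⟩, rfl⟩
    · rintro ⟨l, ⟨hl, h2⟩, rfl⟩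
      exact ⟨⟨l, hl, rfl⟩, fun h' => h2 ⟨(inc_edge X h hl).1, (inc_edge X h hl).2 ▸ h'⟩⟩
  ext w
  rw [mem_mv, mem_image, moves, chL]
  by_cases hn : (Inc dB X.z X.σ \ loc H X.n X.g).Nonempty
  · obtain ⟨l, hl⟩ := id hn
    rw [if_pos hn, if_pos ⟨_, (k _).2 ⟨l, hl, rfl⟩⟩]
    exact k w
  · rw [if_neg hn, if_neg fun ⟨w, hw⟩ => hn (((k w).1 hw).imp fun _ h => h.1)]
    simp only [Set.mem_setOf_eq, adj_mid X h, eq_comm]

end Pool.Agent.H80.Grw
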