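import Pool.Agent.H80.Grw6

set_option autoImplicit false

namespace Pool.Agent.H80.Grw

open Finset Classical Game

variable {P : Par}

abbrev HS (P : Par) := Set (Sym2 (Vx P))

def full (H : HS P) (m : ℕ) : Prop := ∀ w, (GG P).Adj (hub P m) w → s(hub P m, w) ∈ H
noncomputable def cE (l : Lb) (H : HS P) (n : ℕ) : ℕ :=
  ((range (P.e n)).filter fun g => l ∈ loc H n g).card
noncomputable def cS (H : HS P) (m : ℕ) : ℕ :=
  ((range (P.J m + 1)).filter fun j => s(hub P m, hub P j) ∈ H).card
noncomputable def QQ (P : Par) (m : ℕ) : ℝ := (P.J m + 1) * NN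
noncomputable def kap (P : Par) (n c z : ℕ) : ℝ :=
  min (s / 32 * c) ((s / 32 + s / 400) * P.e n / 2 - s / 400 * c - QQ P (n + 1) * z)
noncomputable def cc (H : HS P) (n : ℕ) : ℕ := cE eb H n + cE ea H (n + 1)
noncomputable def KK (H : HS P) (n : ℕ) : ℝ := kap P n (cc H n) (cS H (n + 1))
noncomputable def rr (P : Par) (i : ℕ) : ℝ := (1 + 1 / (i + 1)) / P.e i
noncomputable def WW (H : HS P) (n : ℕ) : ℝ := rr P (Nat.findGreatest (full H) n)
def Ins (X : Vx P) (n g : ℕ) : Prop := X.n = n ∧ X.g = g ∧ X.z ≠ 0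
def Cert (p : Prop) (H : HS P) (X : Vx P) (n g : ℕ) (v : ℝ) : Prop :=
  (Ins X n g → (gm p).Ok (loc H n g) X.z X.σ v) ∧ (¬ Ins X n g → Out p (loc H n g) v)
noncomputable def bs (p : Prop) (X : Vx P) (n : ℕ) : ℝ := if n < X.n then tp p else 0
noncomputable def Lev (p : Prop) (H : HS P) (X : Vx P) (val : ℕ → ℝ) (n : ℕ) : ℝ :=
  ∑ g ∈ range (P.e n), val g + bs p X n + KK H n - if p then (4 * NN : ℝ) else 0
def GV (N : ℕ) (H0 H : HS P) (X : Vx P) (val : ℕ → ℕ → ℝ) (v : ℝ) : Prop :=
  (∀ n < N, ∀ g < P.e n, Cert (full H0 (n + 1)) H X n g (val n g)) ∧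
    ∑ n ∈ range N, WW H0 n * Lev (full H0 (n + 1)) H X (val n) n ≤ v
def Good (N : ℕ) (H : HS P) (X : Vx P) (v : ℝ) : Prop := ∃ val, GV N H H X val v

lemma eR (n : ℕ) : (0 : ℝ) < P.e n := by exact_mod_cast e_pos n
lemma eR_succ (n : ℕ) : (P.e (n + 1) : ℝ) = 2 * P.e n := by exact_mod_cast e_succ n
lemma NR : (5 : ℝ) ≤ NN := by exact_mod_cast NN_big
lemma RR_le : RR ≤ NN := phi_le _
lemma QQ_pos (m : ℕ) : 0 ≤ QQ P m := by unfold QQ; positivity
lemma hER (m : ℕ) : 2 * (QQ P m * (P.J m + 1)) * (m + 1) ^ 2 ≤ P.e m := by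
  have : ((2 * NN * (P.J m + 1) ^ 2 * (m + 1) ^ 2 : ℕ) : ℝ) ≤ P.e m := by exact_mod_cast P.hE m
  push_cast at this; unfold QQ; nlinarith
lemma hER2 (n : ℕ) : 4 * (QQ P (n + 1) * (P.J (n + 1) + 1)) ≤ P.e n ∧ 4 * (NN : ℝ) ≤ P.e n := by
  have a := hER (P := P) (n + 1)
  rw [eR_succ] at a
  have b : (NN : ℝ) ≤ QQ P (n + 1) * (P.J (n + 1) + 1) := by
    have := NR; have : (0 : ℝ) ≤ P.J (n + 1) := by positivity
    unfold QQ; nlinarith [mul_nonneg this this]
  have c : (4 : ℝ) ≤ (((n + 1 : ℕ) : ℝ) + 1) ^ 2 := by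
    push_cast; have : (0 : ℝ) ≤ n := by positivity
    nlinarith
  have := NR
  constructor <;> nlinarith

lemma rr_pos (i : ℕ) : 0 < rr P i := by have := eR (P := P) i; unfold rr; positivity
lemma rr_anti : Antitone (rr P) := antitone_nat_of_succ_le fun i => by
  have := eR (P := P) i
  unfold rr; rw [eR_succ]; push_cast
  gcongr
  · linarith
  · linarith
lemma rr_e (i : ℕ) : rr P i * P.e i = 1 + 1 / (i + 1) := by
  have := eR (P := P) i; unfold rr; field_simp
lemma WW_pos (H : HS P) (n : ℕ) : 0 < WW H n := rr_pos _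
lemma WW_anti (H : HS P) {m n : ℕ} (h : m ≤ n) : WW H n ≤ WW H m :=
  rr_anti (Nat.findGreatest_mono_right _ h)
lemma WW_ge (H : HS P) (n : ℕ) : rr P n ≤ WW H n := rr_anti (Nat.findGreatest_le n)
lemma WW_full {H : HS P} {n : ℕ} (h : full H n) : WW H n = rr P n := by
  rw [WW, Nat.findGreatest_eq h]
lemma WW_not {H : HS P} {n : ℕ} (h : ¬ full H (n + 1)) : WW H (n + 1) = WW H n := by
  rw [WW, Nat.findGreatest_of_not h, WW]
lemma full_mono {H H' : HS P} (h : H ⊆ H') (n : ℕ) (hf : full H n) : full H' n :=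
  fun w hw => h (hf w hw)
lemma WW_mono {H H' : HS P} (h : H ⊆ H') (n : ℕ) : WW H' n ≤ WW H n :=
  rr_anti (Nat.findGreatest_mono_left (full_mono h) n)

lemma cE_le (l : Lb) (H : HS P) (n : ℕ) : cE l H n ≤ P.e n := by
  simpa [cE] using card_filter_le (range (P.e n)) _
lemma cS_le (H : HS P) (n : ℕ) : cS H n ≤ P.J n + 1 := by
  simpa [cS] using card_filter_le (range (P.J n + 1)) _
lemma full_a {H : HS P} {m g : ℕ} (h : full H m) (hg : g < P.e m) : ea ∈ loc H m g :=
  mem_loc.2 ⟨valid_a, edge_a (P := P) m g ▸ h _ (adj_hub.2 (Or.inl ⟨g, hg, rfl⟩))⟩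
lemma full_b {H : HS P} {n g : ℕ} (h : full H (n + 1)) (hg : g < P.e n) : eb ∈ loc H n g :=
  mem_loc.2 ⟨valid_b, edge_b (P := P) n g ▸ h _ (adj_hub.2 (Or.inr (Or.inl ⟨n, g, rfl, hg, rfl⟩)))⟩

lemma KK_bd (H : HS P) (n : ℕ) :
    0 ≤ KK H n ∧ (full H (n + 1) → 4 * NN + s / 200 * P.e n ≤ KK H n) := by
  have a : (cc H n : ℝ) ≤ 3 * P.e n := by
    have := cE_le eb H n; have := cE_le ea H (n + 1); have := e_succ (P := P) n
    exact_mod_cast (show cc H n ≤ 3 * P.e n by unfold cc; omega)
  have b : (cS H (n + 1) : ℝ) ≤ P.J (n + 1) + 1 := by exact_mod_cast cS_le H (n + 1)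
  have c := mul_le_mul_of_nonneg_left b (QQ_pos (P := P) (n + 1))
  obtain ⟨d1, d2⟩ := hER2 (P := P) n
  have := s_big; have := eR (P := P) n; have := NR
  have k : 4 * NN + s / 200 * P.e n ≤ (s / 32 + s / 400) * P.e n / 2 - s / 400 * cc H n -
      QQ P (n + 1) * cS H (n + 1) := by nlinarith
  refine ⟨le_min (by positivity) (le_trans (by positivity) k), fun hf => le_min ?_ k⟩
  have : (P.e n : ℝ) ≤ cc H n := by
    have : cE eb H n = P.e n := by
      rw [cE, filter_true_of_mem fun g hg => full_b hf (mem_range.1 hg), card_range]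
    exact_mod_cast (show P.e n ≤ cc H n by unfold cc; omega)
  nlinarith

lemma cert_nonneg {p} {H : HS P} {X n g v} (h : Cert p H X n g v) : 0 ≤ v := by
  by_cases hi : Ins X n g
  · exact ok_nonneg (h.1 hi)
  · exact out_nonneg (h.2 hi)

lemma lev_lb {H : HS P} {X val n} (h : ∀ g < P.e n, Cert (full H (n + 1)) H X n g (val g)) :
    (if n < X.n then if full H (n + 1) then s / 200 * P.e n else 7 * s / 8 else 0) ≤
      Lev (full H (n + 1)) H X val n := by
  have a : 0 ≤ ∑ g ∈ range (P.e n), val g := sum_nonneg fun g hg => cert_nonneg (h g (mem_range.1 hg))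
  obtain ⟨b, c⟩ := KK_bd H n
  have := tp_bd (full H (n + 1)); have := s_big; have := eR (P := P) n
  have : 0 ≤ s / 200 * P.e n := by positivity
  unfold Lev bs
  split_ifs with h1 h2 h2 <;> first | linarith [c h2] | linarith

lemma lev_nonneg {H : HS P} {X val n} (h : ∀ g < P.e n, Cert (full H (n + 1)) H X n g (val g)) :
    0 ≤ Lev (full H (n + 1)) H X val n := by
  refine le_trans ?_ (lev_lb h)
  have := s_big
  split_ifs <;> positivity

lemma normalize {N} {H0 H : HS P} {X val v} (hs : H0 ⊆ H) (h : GV N H0 H X val v) :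
    Good N H X v := by
  have : ∀ n, ∃ val' : ℕ → ℝ, n < N → (∀ g < P.e n, Cert (full H (n + 1)) H X n g (val' g)) ∧
      Lev (full H (n + 1)) H X val' n ≤ Lev (full H0 (n + 1)) H X (val n) n := by
    intro n
    by_cases hf : full H (n + 1) ↔ full H0 (n + 1)
    · exact ⟨val n, fun hn => by rw [propext hf]; exact ⟨h.1 n hn, le_rfl⟩⟩
    have h1 : ¬ full H0 (n + 1) := fun h' => hf ⟨fun _ => h', fun _ => full_mono hs _ h'⟩
    have h2 : full H (n + 1) := by tauto
    refine ⟨fun g => if Ins X n g then 3 * NN else val n g, fun hn => ⟨fun g hg => ⟨fun hi => ?_,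
      fun hi => ?_⟩, ?_⟩⟩
    · simp only [hi, if_true]
      exact E_in h2 (full_b h2 hg) (Nat.pos_of_ne_zero hi.2.2) X.hz
    · simp only [hi, if_false]
      exact E_switch h2 ((h.1 n hn g hg).2 hi) (full_b h2 hg)
    · have a : ∑ g ∈ range (P.e n), (if Ins X n g then (3 * NN : ℝ) else val n g) ≤
          ∑ g ∈ range (P.e n), (val n g + if g = X.g then (3 * NN : ℝ) else 0) :=
        sum_le_sum fun g hg => by
          have := cert_nonneg (h.1 n hn g (mem_range.1 hg))
          have := NR
          by_cases hi : Ins X n g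
          · rw [if_pos hi, if_pos hi.2.1.symm]; linarith
          · simp only [hi, if_false]; split_ifs <;> linarith
      rw [sum_add_distrib, sum_ite_eq'] at a
      have := tp_bd (full H (n + 1)); have := tp_bd (full H0 (n + 1))
      have := RR_le; have := s_big; have := NR
      unfold Lev bs
      rw [if_pos h2, if_neg h1]
      beta_reduce
      split_ifs at a ⊢ <;> linarith
  choose val' hv using this
  refine ⟨val', fun n hn => (hv n hn).1, le_trans (sum_le_sum fun n hn => ?_) h.2⟩
  have := hv n (mem_range.1 hn)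
  exact mul_le_mul (WW_mono hs n) this.2 (lev_nonneg this.1) (WW_pos _ _).le

lemma sum_two (f : ℕ → ℝ) {N n : ℕ} (hn : n < N) (h : ∀ k, k ≠ n → k + 1 ≠ n → f k ≤ 0) :
    ∑ k ∈ range N, f k ≤ f n + if n = 0 then 0 else f (n - 1) := by
  have : ∑ k ∈ range N, f k ≤ ∑ k ∈ range N, ((if k = n then f n else 0) +
      if k = n - 1 then (if n = 0 then 0 else f (n - 1)) else 0) := sum_le_sum fun k _ => by
    by_cases h1 : k = n
    · subst h1
      by_cases h2 : k = 0
      · simp [h2]
      · simp [show ¬ k = k - 1 by omega]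
    · by_cases h2 : k + 1 = n
      · subst h2; simp
      · have := h k h1 h2
        simp only [h1, if_false, zero_add]
        split_ifs <;> first | linarith | omega
  rw [sum_add_distrib, sum_ite_eq', sum_ite_eq'] at this
  simpa [hn, show n - 1 < N by omega] using this

noncomputable def dK (H : HS P) (n : ℕ) : ℝ := kap P n (cc H n + 1) (cS H (n + 1)) - KK H n

lemma dK_le (H : HS P) (n : ℕ) : dK H n ≤ s / 32 ∧ (P.e n ≤ 2 * cc H n → dK H n ≤ -(s / 400)) := by
  have := s_big
  have := mul_nonneg (QQ_pos (P := P) (n + 1)) (Nat.cast_nonneg (α := ℝ) (cS H (n + 1)))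
  unfold dK KK kap; push_cast
  refine ⟨?_, fun h => ?_⟩
  · rw [sub_le_iff_le_add', ← min_add_add_right]
    exact min_le_min (by linarith) (by linarith)
  · have : (P.e n : ℝ) ≤ 2 * cc H n := by exact_mod_cast h
    rw [min_eq_right (a := s / 32 * cc H n) (by nlinarith), sub_le_iff_le_add']
    exact (min_le_right _ _).trans (by linarith)

lemma cE_edge (l0 : Lb) (H : HS P) {n g l} (hg : g < P.e n) (hl : Valid l) (k : ℕ) :
    cE l0 (insert (edge P n g l) H) k =
      cE l0 H k + if k = n ∧ l = l0 ∧ l0 ∉ loc H n g then 1 else 0 := by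
  unfold cE
  split_ifs with h
  · obtain ⟨rfl, rfl, h⟩ := h
    rw [← card_insert_of_notMem (s := (range (P.e k)).filter fun g => l ∈ loc H k g) (a := g)
      (by simp [h])]
    congr 1; ext g'
    simp only [mem_filter, mem_insert, mem_range]
    by_cases hg' : g' = g
    · simp [hg', hg, loc_same H hg hl]
    · simp only [hg', false_or]
      exact and_congr_right fun a => by rw [loc_ne H hg hl a (by simp [hg'])]
  · rw [add_zero]
    refine congrArg card (filter_congr fun g' hg' => ?_)
    by_cases h' : k = n ∧ g' = g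
    · obtain ⟨rfl, rfl⟩ := h'
      rw [loc_same H hg hl, mem_insert]
      constructor
      · rintro (rfl | h'')
        · simpa using h
        · exact h''
      · exact Or.inr
    · rw [loc_ne H hg hl (mem_range.1 hg') h']

lemma KK_edge (H : HS P) {n g l} (hg : g < P.e n) (hl : Valid l) (k : ℕ) :
    KK (insert (edge P n g l) H) k = KK H k + if (k = n ∧ l = eb ∧ eb ∉ loc H n g) ∨
      (k + 1 = n ∧ l = ea ∧ ea ∉ loc H n g) then dK H k else 0 := by
  have a : cS (insert (edge P n g l) H) (k + 1) = cS H (k + 1) := by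
    unfold cS; congr 1
    ext j; simp [(edge_ne_sh hg hl _ _).symm]
  unfold dK
  rw [KK, a, cc, cE_edge _ _ hg hl, cE_edge _ _ hg hl]
  by_cases h1 : k = n ∧ l = eb ∧ eb ∉ loc H n g <;>
    by_cases h2 : k + 1 = n ∧ l = ea ∧ ea ∉ loc H n g
  · omega
  · simp only [h1, h2, if_false]; simp [cc, h1]; congr 1; omega
  · rw [if_neg h1, if_pos h2, if_pos (Or.inr h2)]; simp [cc, add_assoc]
  · rw [if_neg h1, if_neg h2, if_neg (by tauto)]; simp [KK, cc]

lemma move {N} {H : HS P} {X val v} (h : GV N H H X val v) (X' : Vx P) {n g l} (u D : ℝ)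
    (hn : n < N) (hg : g < P.e n) (hl : Valid l)
    (hc : Cert (full H (n + 1)) (insert (edge P n g l) H) X' n g u)
    (hX : ∀ k g', ¬ (k = n ∧ g' = g) → ¬ Ins X k g' ∧ ¬ Ins X' k g')
    (hb : ∀ k, k ≠ n → (k < X'.n ↔ k < X.n))
    (hD : WW H n * (u - val n g + bs (full H (n + 1)) X' n - bs (full H (n + 1)) X n +
      if l = eb ∧ eb ∉ loc H n g then dK H n else 0) +
      (if n ≠ 0 ∧ l = ea ∧ ea ∉ loc H n g then WW H (n - 1) * dK H (n - 1) else 0) ≤ D) :
    Good N (insert (edge P n g l) H) X' (v + D) := by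
  refine normalize (val := fun k g' => if k = n ∧ g' = g then u else val k g')
    (Set.subset_insert _ _) ⟨fun k hk g' hg' => ?_, ?_⟩
  · by_cases h' : k = n ∧ g' = g
    · obtain ⟨rfl, rfl⟩ := h'
      simpa using hc
    · simp only [h', if_false]
      refine ⟨fun hi => absurd hi (hX k g' h').2, fun _ => ?_⟩
      rw [loc_ne H hg hl hg' h']
      exact (h.1 k hk g' hg').2 (hX k g' h').1
  · have e1 : ∀ k, Lev (full H (k + 1)) (insert (edge P n g l) H) X'
        (fun g' => if k = n ∧ g' = g then u else val k g') k = Lev (full H (k + 1)) H X (val k) k +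
        ((if k = n then u - val n g else 0) + bs (full H (k + 1)) X' k - bs (full H (k + 1)) X k +
        if (k = n ∧ l = eb ∧ eb ∉ loc H n g) ∨
          (k + 1 = n ∧ l = ea ∧ ea ∉ loc H n g) then dK H k else 0) := by
      intro k
      have : ∑ g' ∈ range (P.e k), (if k = n ∧ g' = g then u else val k g') =
          ∑ g' ∈ range (P.e k), val k g' + if k = n then u - val n g else 0 := by
        split_ifs with hk
        · subst hk
          have : ∀ g' ∈ range (P.e k), (if k = k ∧ g' = g then u else val k g') =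
              val k g' + if g' = g then u - val k g else 0 := fun g' _ => by
            by_cases hh : g' = g <;> simp [hh]
          rw [sum_congr rfl this, sum_add_distrib, sum_ite_eq']; simp [hg]
        · simp [hk]
      unfold Lev; rw [this, KK_edge H hg hl]; ring
    simp only [e1, mul_add (WW H _) (Lev _ _ _ _ _), sum_add_distrib]
    refine add_le_add h.2 (le_trans (sum_two _ hn fun k a b => ?_) (le_trans (le_of_eq ?_) hD))
    · simp [a, b, bs, hb k a]
    · congr 1
      · simp
      · by_cases h0 : n = 0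
        · simp [h0]
        · have : n - 1 ≠ n := by omega
          have : n - 1 + 1 = n := by omega
          simp [*, bs]

lemma move_sh {N} {H : HS P} {m val v} (h : GV N H H (hub P m) val v) {j} (hj : P.Sh m j) (D : ℝ)
    (hn : m < N) (hD : WW H m * QQ P m + (if m ≠ 0 ∧ s(hub P m, hub P j) ∉ H ∧
      P.e (m - 1) ≤ 2 * cc H (m - 1) then -(WW H (m - 1) * QQ P m) else 0) ≤ D) :
    Good N (insert s(hub P m, hub P j) H) (hub P j) (v + D) := by
  set H' := insert s(hub P m, hub P j) H with hH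
  have c1 : ∀ k, cc H' k = cc H k := fun k => by
    unfold cc cE
    congr 2 <;> exact filter_congr fun g hg => by rw [loc_sh H _ _ (mem_range.1 hg)]
  have c2 : ∀ k, cS H k ≤ cS H' k := fun k => card_le_card fun i hi => by
    simp only [mem_filter] at hi ⊢; exact ⟨hi.1, Set.mem_insert_of_mem _ hi.2⟩
  have c3 : ∀ k, KK H' k ≤ KK H k + if k = m - 1 then (if m ≠ 0 ∧ s(hub P m, hub P j) ∉ H ∧
      P.e (m - 1) ≤ 2 * cc H (m - 1) then -QQ P m else 0) else 0 := by
    intro k
    have q := QQ_pos (P := P) (k + 1)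
    have a : KK H' k ≤ KK H k := by
      have : (cS H (k + 1) : ℝ) ≤ cS H' (k + 1) := by exact_mod_cast c2 (k + 1)
      unfold KK kap; rw [c1]
      exact min_le_min le_rfl (by nlinarith)
    split_ifs with h1 h2
    · obtain rfl : m = k + 1 := by omega
      have : cS H (k + 1) < cS H' (k + 1) := by
        refine card_lt_card ⟨fun i hi => ?_, fun hh => h2.2.1 ?_⟩
        · simp only [mem_filter] at hi ⊢; exact ⟨hi.1, Set.mem_insert_of_mem _ hi.2⟩
        · have := hh (x := j) (by
            simp only [mem_filter, mem_range]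
            exact ⟨Nat.lt_succ_of_le (P.bd _ _ hj), Set.mem_insert _ _⟩)
          exact (mem_filter.1 this).2
      have : (cS H (k + 1) : ℝ) + 1 ≤ cS H' (k + 1) := by exact_mod_cast this
      have h3 : (P.e k : ℝ) ≤ 2 * cc H k := by exact_mod_cast h2.2.2
      have := mul_nonneg q (Nat.cast_nonneg (α := ℝ) (cS H (k + 1)))
      have := s_big
      unfold KK kap; rw [c1, min_eq_right (a := s / 32 * cc H k) (b := _ - _ * (cS H (k + 1) : ℝ))
        (by nlinarith)]
      exact (min_le_right _ _).trans (by nlinarith)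
    · linarith
    · linarith
  refine normalize (val := val) (Set.subset_insert _ _) ⟨fun k hk g hg => ?_, ?_⟩
  · refine ⟨fun hi => absurd rfl hi.2.2, fun _ => ?_⟩
    rw [loc_sh H _ _ hg]
    exact (h.1 k hk g hg).2 fun hi => absurd rfl hi.2.2
  · have e1 : ∀ k ∈ range N, WW H k * Lev (full H (k + 1)) H' (hub P j) (val k) k ≤
        WW H k * Lev (full H (k + 1)) H (hub P m) (val k) k +
        ((if k ∈ Ico m j then WW H m * NN else 0) + if k = m - 1 then (if m ≠ 0 ∧
          s(hub P m, hub P j) ∉ H ∧ P.e (m - 1) ≤ 2 * cc H (m - 1) then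
          -(WW H (m - 1) * QQ P m) else 0) else 0) := by
      intro k _
      have a := c3 k
      have w := WW_pos H k
      have b : WW H k * (bs (full H (k + 1)) (hub P j) k - bs (full H (k + 1)) (hub P m) k) ≤
          if k ∈ Ico m j then WW H m * NN else 0 := by
        have := tp_bd (full H (k + 1)); have := s_big; have := RR_le
        simp only [bs, hub_n, mem_Ico]
        split_ifs with h1 h2 h3 h3 h2 h3 h3 <;> try omega
        · simp
        · exact mul_le_mul (WW_anti H h3.1) (by linarith) (by linarith) (WW_pos _ _).le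
        · nlinarith
        · simp
      have a' := mul_le_mul_of_nonneg_left a w.le
      unfold Lev
      by_cases hk : k = m - 1
      · rw [if_pos hk] at a' ⊢; rw [← hk] at a' ⊢
        split_ifs at a' b ⊢ <;> nlinarith
      · rw [if_neg hk] at a' ⊢; nlinarith
    refine (sum_le_sum e1).trans ?_
    rw [sum_add_distrib, sum_add_distrib, sum_ite_eq', if_pos (by simp; omega)]
    refine add_le_add h.2 (le_trans (add_le_add ?_ le_rfl) hD)
    rw [← sum_filter, sum_const, nsmul_eq_mul]
    have : ((range N).filter (· ∈ Ico m j)).card ≤ P.J m + 1 := by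
      have := P.bd _ _ hj
      refine (card_le_card fun k hk => (mem_filter.1 hk).2).trans (by simp; omega)
    have : (((range N).filter (· ∈ Ico m j)).card : ℝ) ≤ P.J m + 1 := by exact_mod_cast this
    have w := WW_pos H m; have := NR
    unfold QQ; nlinarith [mul_pos w (show (0 : ℝ) < NN by linarith)]

end Pool.Agent.H80.Grw
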