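import Pool.Agent.H80.Grw7

set_option autoImplicit false

namespace Pool.Agent.H80.Grw

open Finset Classical Game MeasureTheory

variable {P : Par}

lemma good_nonneg {N} {H : HS P} {X a} (h : Good N H X a) : 0 ≤ a := by
  obtain ⟨val, h1, h2⟩ := h
  exact le_trans (sum_nonneg fun n hn =>
    mul_nonneg (WW_pos _ _).le (lev_nonneg (h1 n (mem_range.1 hn)))) h2

lemma good_mono {N} {H : HS P} {X a b} (h : Good N H X a) (hb : a ≤ b) : Good N H X b :=
  h.imp fun _ h => ⟨h.1, h.2.trans hb⟩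

lemma good_N {N M} {H : HS P} {X a} (h : Good N H X a) (hM : M ≤ N) : Good M H X a := by
  obtain ⟨val, h1, h2⟩ := h
  refine ⟨val, fun n hn => h1 n (by omega), le_trans (sum_le_sum_of_subset_of_nonneg
    (range_mono hM) fun n hn _ => ?_) h2⟩
  exact mul_nonneg (WW_pos _ _).le (lev_nonneg (h1 n (mem_range.1 hn)))

lemma not_full_a {H : HS P} {m g} (hg : g < P.e m) (h : ea ∉ loc H m g) : ¬ full H m :=
  fun hf => h (full_a hf hg)

lemma good_zero (N : ℕ) : Good N (∅ : HS P) (hub P 0) 0 := by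
  have l : ∀ n g, loc (∅ : HS P) n g = ∅ := fun n g => by ext l; simp [mem_loc]
  have f : ∀ n, ¬ full (∅ : HS P) n := fun n => not_full_a (e_pos n) (by simp [l])
  refine ⟨fun _ _ => 0, fun n _ g _ => ⟨fun hi => absurd rfl hi.2.2, fun _ => ?_⟩, ?_⟩
  · rw [l]; exact out_empty (f _)
  · refine sum_nonpos fun n _ => mul_nonpos_of_nonneg_of_nonpos (WW_pos _ _).le ?_
    simp [Lev, bs, f, KK, kap, cc, cE, l]

lemma ea_ne_eb : ea ≠ eb := ea_ne (by have := NN_big; simp [eb]; omega)

lemma step_mid {N} {H : HS P} {X val v} (h : GV N H H X val v) (hz : X.z ≠ 0) (hN : X.n < N)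
    {l f} (hl : l ∈ Inc dB X.z X.σ)
    (hA : (gm (full H (X.n + 1))).At (gm (full H (X.n + 1))).Ok (loc H X.n X.g) (nh X.z l) l f) :
    Good N (insert s(X, tgt X l) H) (tgt X l) (v + WW H X.n * (f - val X.n X.g)) := by
  obtain ⟨hv, he⟩ := inc_edge X hz hl
  obtain ⟨i1, i2, -⟩ := mem_Inc.1 hl
  have := nums
  have zz := X.hz
  have w := WW_pos H X.n
  rw [he]
  unfold At at hA
  split_ifs at hA with h0 h1
  · have : l.1 = 0 := by unfold nh at h0; split_ifs at h0; omega
    obtain rfl : l = ea := Prod.ext this (by simpa [ea] using fun h => dB_zero (this ▸ i2 h))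
    obtain ⟨r, r1, r2⟩ := hA
    rw [tgt, h0, node_zero]
    refine move h _ r _ hN X.hg hv ⟨fun hi => absurd rfl hi.2.2, fun _ => ?_⟩
      (fun k g' hk => ⟨fun hi => hk ⟨hi.1.symm, hi.2.1.symm⟩, fun hi => absurd rfl hi.2.2⟩)
      (fun k _ => Iff.rfl) ?_
    · rwa [loc_same H X.hg hv]
    · simp only [bs, hub_n, lt_irrefl, if_false, ea_ne_eb, false_and, true_and]
      by_cases b : X.n ≠ 0 ∧ ea ∉ loc H X.n X.g
      · rw [if_pos b]; rw [if_neg b.2] at r2
        obtain ⟨k, hk⟩ : ∃ k, X.n = k + 1 := ⟨X.n - 1, by have := b.1; omega⟩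
        have := WW_not (n := k) (hk ▸ not_full_a X.hg b.2)
        rw [← hk] at this
        rw [show X.n - 1 = k by omega, ← this]
        nlinarith [(dK_le H k).1]
      · rw [if_neg b]
        split_ifs at r2 <;> nlinarith [s_big]
  · simp only [gm_N] at h1
    have : l.1 = NN - 1 := by unfold nh at h1; split_ifs at h1 <;> omega
    obtain rfl : l = eb := Prod.ext this
      (by simpa [eb] using fun h => dB_top (z := l.1) (by omega) (i2 h))
    obtain ⟨r, r1, r2⟩ := hA
    rw [tgt, h1, node_N]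
    refine move h _ r _ hN X.hg hv ⟨fun hi => absurd rfl hi.2.2, fun _ => ?_⟩
      (fun k g' hk => ⟨fun hi => hk ⟨hi.1.symm, hi.2.1.symm⟩, fun hi => absurd rfl hi.2.2⟩)
      (fun k _ => by simp only [hub_n]; omega) ?_
    · rwa [loc_same H X.hg hv]
    · simp only [bs, hub_n, lt_irrefl, if_false, ea_ne_eb.symm, false_and, true_and, and_false,
        Nat.lt_succ_self, if_true]
      split_ifs at r2 ⊢ with a
      · nlinarith
      · nlinarith [(dK_le H X.n).1]
  · simp only [gm_N] at h1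
    have hh : nh X.z l < NN := by unfold nh at h1 ⊢; split_ifs at h1 ⊢ <;> omega
    obtain ⟨a, b, c, d⟩ := node_mid (P := P) l.2 X.hg (Nat.pos_of_ne_zero h0) hh
    have la : l ≠ ea := by rintro rfl; unfold nh at h0; simp only [ea] at h0 i1; split_ifs at h0 <;> omega
    have lb : l ≠ eb := by rintro rfl; unfold nh at h1; simp only [eb] at h1 i1; split_ifs at h1 <;> omega
    rw [← tgt] at a b c d
    refine move h _ f _ hN X.hg hv ⟨fun _ => ?_, fun hi => absurd ⟨a, b, c ▸ h0⟩ hi⟩
      (fun k g' hk => ⟨fun hi => hk ⟨hi.1.symm, hi.2.1.symm⟩,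
        fun hi => hk ⟨hi.1.symm.trans a, hi.2.1.symm.trans b⟩⟩) (fun k _ => by rw [a]) ?_
    · rw [loc_same H X.hg hv, c, d]; exact hA
    · simp [bs, a, la, lb]

lemma step_up {N} {H : HS P} {m val v g} (h : GV N H H (hub P m) val v) (hN : m < N)
    (hg : g < P.e m) (D : ℝ) (hD : WW H m * (if ea ∈ loc H m g then 1 else s / 400) +
      (if m ≠ 0 ∧ ea ∉ loc H m g then WW H (m - 1) * dK H (m - 1) else 0) ≤ D) :
    Good N (insert s(hub P m, node P m g 1 false) H) (node P m g 1 false) (v + D) := by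
  have := NN_big
  obtain ⟨a, b, c, d⟩ := node_mid (P := P) false hg (show 0 < 1 by omega) (by omega)
  rw [edge_a]
  refine move h _ (val m g + if ea ∈ loc H m g then 1 else s / 400) _ hN hg valid_a
    ⟨fun _ => ?_, fun hi => absurd ⟨a, b, by omega⟩ hi⟩
    (fun k g' hk => ⟨fun hi => absurd rfl hi.2.2,
      fun hi => hk ⟨hi.1.symm.trans a, hi.2.1.symm.trans b⟩⟩) (fun k _ => by rw [a]; rfl) ?_
  · rw [loc_same H hg valid_a, c, d]
    exact E_up ((h.1 m hN g hg).2 fun hi => absurd rfl hi.2.2)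
  · simpa [bs, a, ea_ne_eb] using hD

lemma step_down {N} {H : HS P} {n val v g} (h : GV N H H (hub P (n + 1)) val v) (hN : n < N)
    (hg : g < P.e n) (hb : ¬ full H (n + 1) → eb ∉ loc H n g) (D : ℝ)
    (hD : WW H n * (-(if full H (n + 1) then 1 else s / 3) +
      if eb ∉ loc H n g then dK H n else 0) ≤ D) :
    Good N (insert s(hub P (n + 1), node P n g (NN - 1) false) H) (node P n g (NN - 1) false)
      (v + D) := by
  have := NN_big
  obtain ⟨a, b, c, d⟩ := node_mid (P := P) false hg (show 0 < NN - 1 by omega) (by omega)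
  rw [edge_b]
  refine move h _ (tp (full H (n + 1)) + val n g - if full H (n + 1) then 1 else s / 3) _ hN hg
    valid_b ⟨fun _ => ?_, fun hi => absurd ⟨a, b, by omega⟩ hi⟩
    (fun k g' hk => ⟨fun hi => absurd rfl hi.2.2,
      fun hi => hk ⟨hi.1.symm.trans a, hi.2.1.symm.trans b⟩⟩)
    (fun k _ => by rw [a, hub_n]; omega) ?_
  · rw [loc_same H hg valid_b, c, d]
    exact E_down ((h.1 n hN g hg).2 fun hi => absurd rfl hi.2.2) hb
  · refine le_trans (le_of_eq ?_) hD
    simp only [bs, a, hub_n, ea_ne_eb.symm, lt_irrefl, Nat.lt_succ_self, if_true, if_false,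
      false_and, and_false, true_and]
    ring

lemma hub_sum (m : ℕ) (M : Finset (Vx P)) (hM : ∀ w ∈ M, (GG P).Adj (hub P m) w) (cs cu cd d : ℝ)
    (h1 : 0 ≤ cs) (h2 : 0 ≤ cu) (h3 : cd ≤ 0) (hd : d ≤ (M.filter fun w => w.z = NN - 1).card) :
    ∑ w ∈ M, (if w.z = 0 then cs else if w.z = 1 then cu else cd) ≤
      (P.J m + 1) * cs + P.e m * cu + d * cd := by
  have := NN_big
  have k : ∀ w ∈ M, (if w.z = 0 then cs else if w.z = 1 then cu else cd) ≤
      (if w.z = 0 then cs else 0) + (if w.z = 1 then cu else 0) +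
        if w.z = NN - 1 then cd else 0 := fun w _ => by
    split_ifs <;> first | omega | linarith
  refine (sum_le_sum k).trans ?_
  rw [sum_add_distrib, sum_add_distrib, ← sum_filter, ← sum_filter, ← sum_filter]
  simp only [sum_const, nsmul_eq_mul]
  have z1 : ∀ {n g}, g < P.e n → (node P n g 1 false).z = 1 := fun hg =>
    (node_mid false hg (by omega) (by omega)).2.2.1
  have z2 : ∀ {n g}, g < P.e n → (node P n g (NN - 1) false).z = NN - 1 := fun hg =>
    (node_mid false hg (by omega) (by omega)).2.2.1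
  have a : (M.filter fun w => w.z = 0).card ≤ P.J m + 1 := by
    refine (card_le_card (t := (range (P.J m + 1)).image (hub P)) fun w hw => ?_).trans
      (card_image_le.trans (by simp))
    obtain ⟨w1, w2⟩ := mem_filter.1 hw
    rcases adj_hub.1 (hM w w1) with ⟨g, hg, rfl⟩ | ⟨n, g, -, hg, rfl⟩ | ⟨j, hj, rfl⟩
    · have := z1 hg; omega
    · have := z2 hg; omega
    · exact mem_image.2 ⟨j, mem_range.2 (Nat.lt_succ_of_le (P.bd _ _ hj)), rfl⟩
  have b : (M.filter fun w => w.z = 1).card ≤ P.e m := by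
    refine (card_le_card (t := (range (P.e m)).image fun g => node P m g 1 false)
      fun w hw => ?_).trans (card_image_le.trans (by simp))
    obtain ⟨w1, w2⟩ := mem_filter.1 hw
    rcases adj_hub.1 (hM w w1) with ⟨g, hg, rfl⟩ | ⟨n, g, -, hg, rfl⟩ | ⟨j, hj, rfl⟩
    · exact mem_image.2 ⟨g, mem_range.2 hg, rfl⟩
    · have := z2 hg; omega
    · simp at w2
  have a' : ((M.filter fun w => w.z = 0).card : ℝ) ≤ P.J m + 1 := by exact_mod_cast a
  have b' : ((M.filter fun w => w.z = 1).card : ℝ) ≤ P.e m := by exact_mod_cast b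
  nlinarith

lemma down_card (n : ℕ) (M : Finset (Vx P)) (s : Finset ℕ)
    (h : ∀ g ∈ s, g < P.e n ∧ node P n g (NN - 1) false ∈ M) :
    s.card ≤ (M.filter fun w => w.z = NN - 1).card := by
  have := NN_big
  refine card_le_card_of_injOn (fun g => node P n g (NN - 1) false) (fun g hg => ?_)
    fun g hg g' hg' e => ?_
  · exact mem_coe.2 (mem_filter.2 ⟨(h g hg).2,
      (node_mid false (h g hg).1 (by omega) (by omega)).2.2.1⟩)
  · have a := (node_mid (P := P) false (h g hg).1 (show 0 < NN - 1 by omega) (by omega)).2.1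
    have b := (node_mid (P := P) false (h g' hg').1 (show 0 < NN - 1 by omega) (by omega)).2.1
    simp only at e
    rw [← a, e, b]

lemma step_hub {N} {H : HS P} {n val v} (h : GV N H H (hub P (n + 1)) val v) (hN : n + 1 < N) :
    ∃ f : Vx P → ℝ, ∑ w ∈ mv fin_nb H (hub P (n + 1)), f w ≤
      (mv fin_nb H (hub P (n + 1))).card * v ∧ ∀ w ∈ mv fin_nb H (hub P (n + 1)),
        Good N (insert s(hub P (n + 1), w) H) w (f w) := by
  set M := mv fin_nb H (hub P (n + 1)) with hM
  have := NN_big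
  have z1 : ∀ {n g}, g < P.e n → (node P n g 1 false).z = 1 := fun hg =>
    (node_mid false hg (by omega) (by omega)).2.2.1
  have z2 : ∀ {n g}, g < P.e n → (node P n g (NN - 1) false).z = NN - 1 := fun hg =>
    (node_mid false hg (by omega) (by omega)).2.2.1
  have hA : ∀ w ∈ M, (GG P).Adj (hub P (n + 1)) w := fun w hw => moves_sub ((mem_mv _).1 hw)
  suffices ∃ cs cu cd d : ℝ, 0 ≤ cs ∧ 0 ≤ cu ∧ cd ≤ 0 ∧
      d ≤ (M.filter fun w => w.z = NN - 1).card ∧
      (P.J (n + 1) + 1) * cs + P.e (n + 1) * cu + d * cd ≤ 0 ∧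
      (∀ j, P.Sh (n + 1) j → hub P j ∈ M → Good N (insert s(_, hub P j) H) _ (v + cs)) ∧
      (∀ g < P.e (n + 1), node P (n + 1) g 1 false ∈ M →
        Good N (insert s(hub P (n + 1), node P (n + 1) g 1 false) H) _ (v + cu)) ∧
      (∀ g < P.e n, node P n g (NN - 1) false ∈ M →
        Good N (insert s(hub P (n + 1), node P n g (NN - 1) false) H) _ (v + cd)) by
    obtain ⟨cs, cu, cd, d, a1, a2, a3, a4, a5, b1, b2, b3⟩ := this
    refine ⟨fun w => v + if w.z = 0 then cs else if w.z = 1 then cu else cd, ?_, fun w hw => ?_⟩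
    · have := hub_sum _ M hA cs cu cd d a1 a2 a3 a4
      rw [sum_add_distrib, sum_const, nsmul_eq_mul]; linarith
    · rcases adj_hub.1 (hA w hw) with ⟨g, hg, rfl⟩ | ⟨k, g, hk, hg, rfl⟩ | ⟨j, hj, rfl⟩
      · simpa [z1 hg] using b2 g hg hw
      · obtain rfl : n = k := by omega
        simpa [z2 hg, show NN - 1 ≠ 0 by omega, show NN - 1 ≠ 1 by omega] using b3 g hg hw
      · simpa using b1 j hj hw
  have w0 := WW_pos H n
  have q0 := QQ_pos (P := P) (n + 1)
  have e0 := eR (P := P) n
  have := s_big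
  by_cases hf : full H (n + 1)
  · have hm : ∀ w, (GG P).Adj (hub P (n + 1)) w → w ∈ M := fun w hw => by
      rw [hM, mem_mv, moves, if_neg fun ⟨w, hw⟩ => hw.2 (hf w hw.1)]; exact hw
    have r0 := rr_pos (P := P) (n + 1)
    refine ⟨rr P (n + 1) * QQ P (n + 1), rr P (n + 1), -WW H n, P.e n, by positivity, r0.le,
      by linarith, ?_, ?_, fun j hj _ => move_sh h hj _ hN ?_, fun g hg _ => step_up h hN hg _ ?_,
      fun g hg _ => step_down h (by omega) hg (fun h => absurd hf h) _ ?_⟩
    · have := down_card n M (range (P.e n)) fun g hg => ⟨mem_range.1 hg,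
        hm _ (adj_hub.2 (Or.inr (Or.inl ⟨n, g, rfl, mem_range.1 hg, rfl⟩)))⟩
      exact_mod_cast (by simpa using this)
    · have a := rr_e (P := P) n
      have b := rr_e (P := P) (n + 1)
      have c := mul_le_mul_of_nonneg_left (WW_ge H n) e0.le
      have d := mul_le_mul_of_nonneg_left (hER (P := P) (n + 1)) r0.le
      push_cast at b d
      have n0 : (0 : ℝ) ≤ n := by positivity
      have f1 : 1 / ((n : ℝ) + 1) - 1 / (n + 1 + 1) ≥ 1 / (n + 1 + 1) ^ 2 := by
        rw [div_sub_div _ _ (by positivity) (by positivity), ge_iff_le,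
          div_le_div_iff₀ (by positivity) (by positivity)]; nlinarith
      have f2 : 1 / ((n : ℝ) + 1 + 1) ≤ 1 := by rw [div_le_one (by positivity)]; linarith
      have f3 : rr P (n + 1) * (QQ P (n + 1) * (P.J (n + 1) + 1)) ≤ 1 / (n + 1 + 1) ^ 2 := by
        rw [le_div_iff₀ (by positivity)]; nlinarith
      nlinarith
    · rw [WW_full hf, if_neg fun h => h.2.1 (hf _ (adj_sh hj))]; simp
    · simp [WW_full hf, full_a hf hg]
    · simp [hf, full_b hf hg]
  · have hx : ∃ w, (GG P).Adj (hub P (n + 1)) w ∧ s(hub P (n + 1), w) ∉ H := by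
      unfold full at hf; push Not at hf; exact hf
    have hm : ∀ w, w ∈ M ↔ (GG P).Adj (hub P (n + 1)) w ∧ s(hub P (n + 1), w) ∉ H := fun w => by
      rw [hM, mem_mv, moves, if_pos hx]; rfl
    have ma : ∀ g, node P (n + 1) g 1 false ∈ M → ea ∉ loc H (n + 1) g := fun g hg h =>
      ((hm _).1 hg).2 (edge_a (P := P) _ g ▸ (mem_loc.1 h).2)
    have mb : ∀ g, node P n g (NN - 1) false ∈ M → eb ∉ loc H n g := fun g hg h =>
      ((hm _).1 hg).2 (edge_b (P := P) _ g ▸ (mem_loc.1 h).2)
    obtain ⟨k1, k2⟩ := dK_le H n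
    by_cases hc : P.e n ≤ 2 * cc H n
    · have k3 := k2 hc
      refine ⟨0, 0, 0, 0, le_rfl, le_rfl, le_rfl, by positivity, by simp,
        fun j hj hw => move_sh h hj _ hN ?_, fun g hg hw => step_up h hN hg _ ?_,
        fun g hg hw => step_down h (by omega) hg (fun _ => mb g hw) _ ?_⟩
      · simp [WW_not hf, ((hm _).1 hw).2, hc]
      · simp only [WW_not hf, ma g hw, if_false, Nat.add_sub_cancel]
        rw [if_pos ⟨by omega, by simp⟩]; nlinarith
      · simp only [hf, mb g hw, if_false, not_false_eq_true, if_true]; nlinarith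
    · refine ⟨WW H n * QQ P (n + 1), WW H n * (s / 400 + s / 32), WW H n * (-(s / 3) + s / 32),
        P.e n / 2, by positivity, by positivity, by nlinarith, ?_, ?_,
        fun j hj hw => move_sh h hj _ hN ?_, fun g hg hw => step_up h hN hg _ ?_,
        fun g hg hw => step_down h (by omega) hg (fun _ => mb g hw) _ ?_⟩
      · have a := down_card n M ((range (P.e n)).filter fun g => eb ∉ loc H n g) fun g hg => by
          obtain ⟨g1, g2⟩ := mem_filter.1 hg
          refine ⟨mem_range.1 g1, (hm _).2 ⟨adj_hub.2 (Or.inr (Or.inl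
            ⟨n, g, rfl, mem_range.1 g1, rfl⟩)), fun h => g2 (mem_loc.2 ⟨valid_b, ?_⟩)⟩⟩
          rwa [← edge_b]
        have b := card_filter_add_card_filter_not (s := range (P.e n)) fun g => eb ∈ loc H n g
        rw [card_range] at b
        have : P.e n ≤ 2 * (M.filter fun w => w.z = NN - 1).card := by
          unfold cc cE at hc; omega
        have : (P.e n : ℝ) ≤ 2 * (M.filter fun w => w.z = NN - 1).card := by exact_mod_cast this
        linarith
      · have a := (hER2 (P := P) n).1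
        rw [eR_succ]
        have : (P.J (n + 1) + 1) * QQ P (n + 1) + 2 * P.e n * (s / 400 + s / 32) +
          P.e n / 2 * (-(s / 3) + s / 32) ≤ 0 := by nlinarith
        nlinarith
      · simp [WW_not hf, hc]
      · simp only [WW_not hf, ma g hw, if_false, Nat.add_sub_cancel]
        rw [if_pos ⟨by omega, by simp⟩]; nlinarith
      · simp only [hf, mb g hw, if_false, not_false_eq_true, if_true]; nlinarith

lemma good_step {N} {H : HS P} {X a} (h : Good N H X a) (ho : X ≠ hub P 0) (hN : X.n < N) :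
    ∃ f : Vx P → ℝ, ∑ w ∈ mv fin_nb H X, f w ≤ (mv fin_nb H X).card * a ∧
      ∀ w ∈ mv fin_nb H X, Good N (insert s(X, w) H) w (f w) := by
  obtain ⟨val, h⟩ := h
  by_cases hz : X.z = 0
  · obtain ⟨n, hn⟩ : ∃ n, X.n = n + 1 := ⟨X.n - 1, by
      have : X.n ≠ 0 := fun h' => ho (by rw [eq_hub X hz, h']); omega⟩
    rw [eq_hub X hz, hn] at h ⊢
    exact step_hub h (hn ▸ hN)
  obtain ⟨-, f, f1, f2⟩ := ok_unfold ((h.1 _ hN _ X.hg).1 ⟨rfl, rfl, hz⟩)
  simp only [gm_dbl] at f1 f2
  set C := chL dB (loc H X.n X.g) X.z X.σ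
  have inj : Set.InjOn (tgt X) C := fun l hl l' hl' e => tgt_inj X hz (chL_sub hl) (chL_sub hl') e
  have li := inj.leftInvOn_invFunOn
  refine ⟨fun w => a + WW H X.n * (f (Function.invFunOn (tgt X) C w) - val X.n X.g), ?_, ?_⟩
  · rw [mv_mid H X hz, sum_image inj, card_image_of_injOn inj,
      sum_congr rfl fun l hl => by rw [li hl]]
    rw [sum_add_distrib, ← mul_sum, sum_sub_distrib]
    simp only [sum_const, nsmul_eq_mul]
    nlinarith [WW_pos H X.n]
  · rw [mv_mid H X hz]
    intro w hw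
    obtain ⟨l, hl, rfl⟩ := mem_image.1 hw
    simp only [li hl]
    exact step_mid h hz hN (chL_sub hl) (f2 l hl)

lemma good_o : ∃ C, ∀ N (H : HS P) a, Good N H (hub P 0) a → (hub P 0).n < N →
    ∀ w ∈ mv fin_nb H (hub P 0), Good N (insert s(hub P 0, w) H) w (a + C) := by
  refine ⟨rr P 0 * (QQ P 0 + s), fun N H a ⟨val, h⟩ hN w hw => ?_⟩
  have r0 := rr_pos (P := P) 0
  have q0 := QQ_pos (P := P) 0
  have := s_big
  have w0 : WW H 0 = rr P 0 := by simp [WW]
  rcases adj_hub.1 (moves_sub ((mem_mv _).1 hw)) with ⟨g, hg, rfl⟩ | ⟨k, g, hk, -⟩ | ⟨j, hj, rfl⟩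
  · refine step_up h hN hg _ ?_
    rw [w0, if_neg (c := (0 : ℕ) ≠ 0 ∧ _) (by simp)]
    split_ifs <;> nlinarith
  · omega
  · refine move_sh h hj _ hN ?_
    rw [w0, if_neg (by simp)]; nlinarith

lemma good_far {N} {H : HS P} {X a} (h : Good N H X a) (hN : N ≤ X.n) :
    (Nat.findGreatest (full H) N : ℝ) + (N - Nat.findGreatest (full H) N : ℝ) *
      rr P (Nat.findGreatest (full H) N) ≤ a := by
  obtain ⟨val, h1, h2⟩ := h
  refine le_trans ?_ h2
  clear h2
  induction N with
  | zero => simp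
  | succ N ih =>
    have a := ih (by omega) fun n hn => h1 n (by omega)
    have b := lev_lb (h1 N (by omega))
    rw [if_pos (by omega)] at b
    have b' := mul_le_mul_of_nonneg_left b (WW_pos H N).le
    have := s_big
    rw [sum_range_succ]
    set i := Nat.findGreatest (full H) N with hi
    have i1 : i ≤ N := Nat.findGreatest_le N
    have r0 := rr_pos (P := P) i
    have i2 : (i : ℝ) ≤ N := by exact_mod_cast i1
    have w : WW H N = rr P i := rfl
    by_cases hf : full H (N + 1)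
    · rw [Nat.findGreatest_eq hf]
      rw [if_pos hf, w] at b'
      have e1 : (P.e N : ℝ) = P.e i * 2 ^ (N - i) := by
        rw [Par.e, Par.e]; push_cast
        rw [mul_assoc, ← pow_add, Nat.add_sub_cancel' i1]
      have e2 : ((N - i : ℕ) : ℝ) + 1 ≤ 2 ^ (N - i) := by
        exact_mod_cast (Nat.lt_two_pow_self (n := N - i))
      rw [Nat.cast_sub i1] at e2
      have e3 : 1 ≤ rr P i * P.e i := by
        rw [rr_e]; have : (0 : ℝ) ≤ 1 / (i + 1) := by positivity
        linarith
      have e4 : (N : ℝ) - i + 1 ≤ rr P i * P.e N := by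
        rw [e1, ← mul_assoc]; nlinarith
      have := mul_nonneg (sub_nonneg.2 i2) r0.le
      have e5 : rr P i * P.e N ≤ rr P i * (s / 200 * P.e N) := by
        have := eR (P := P) N
        gcongr; nlinarith
      rw [w]; push_cast; linarith
    · rw [Nat.findGreatest_of_not hf, ← hi]
      rw [if_neg hf, w] at b'
      rw [w]; push_cast; nlinarith

theorem grw_rec [MeasurableSpace (Vx P)] [MeasurableSingletonClass (Vx P)]
    (μ : Measure (ℕ → Vx P)) (hμ : IsGRW (GG P) (hub P 0) μ) :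
    ∀ᵐ x ∂μ, {t | x t = hub P 0}.Infinite := by
  let γ : ℕ → ℝ := fun N => (range (N + 1)).inf' (by simp) fun i => i + (N - i : ℝ) * rr P i
  refine recurrent fin_nb has_nb (hub P 0) ht Vx.n
    (fun v hv => (desc v hv).imp fun w h => ⟨h.1, by omega⟩) fin_lev Good γ ?_
    (fun _ _ _ _ => good_nonneg) (fun _ _ _ _ _ => good_mono) (fun _ _ _ _ _ => good_N)
    (fun _ _ _ _ => good_step) (fun N H v a h hN => le_trans (inf'_le _ ?_) (good_far h hN))
    good_zero good_o μ hμ
  · refine Filter.tendsto_atTop_atTop.2 fun b => ?_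
    obtain ⟨M, hM⟩ := exists_nat_ge b
    obtain ⟨K, hK⟩ := exists_nat_ge (M / rr P M)
    have r0 := rr_pos (P := P) M
    rw [div_le_iff₀ r0] at hK
    refine ⟨M + K, fun N hN => (le_inf'_iff _ _).2 fun i hi => hM.trans ?_⟩
    have i1 : (i : ℝ) ≤ N := by exact_mod_cast Nat.lt_succ_iff.1 (mem_range.1 hi)
    have r1 := rr_pos (P := P) i
    rcases le_total M i with h | h
    · have : (M : ℝ) ≤ i := by exact_mod_cast h
      nlinarith
    · have a := rr_anti (P := P) h
      have : (i : ℝ) ≤ M := by exact_mod_cast h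
      have : (M : ℝ) + K ≤ N := by exact_mod_cast hN
      have : (K : ℝ) * rr P M ≤ (N - i) * rr P i := by gcongr; linarith
      have : (0 : ℝ) ≤ i := by positivity
      linarith
  · exact mem_range.2 (Nat.lt_succ_of_le (Nat.findGreatest_le N))

end Pool.Agent.H80.Grw
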