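import Pool.Agent.H80.Grw8

set_option autoImplicit false

namespace Pool.Agent.H80.Grw

open Finset Classical MeasureTheory

variable {P : Par}

lemma reach_dist (v : Vx P) (n : ℕ) : ∀ k, n * NN + k = ht v → (k ≤ v.z ∨ n = 0) →
    ∃ p : (GG P).Walk v (hub P n), p.length = k := by
  intro k
  induction k generalizing v with
  | zero =>
    intro h1 h2
    have hz := v.hz
    have : v.n = n := by
      unfold ht at h1
      rcases lt_trichotomy v.n n with h | h | h
      · have := Nat.mul_le_mul_right NN (show v.n + 1 ≤ n from h); rw [add_mul] at this; omega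
      · exact h
      · have := Nat.mul_le_mul_right NN (show n + 1 ≤ v.n from h); rw [add_mul] at this; omega
    have : v = hub P n := by
      rw [← this]; exact eq_hub v (by unfold ht at h1; rw [this] at h1; omega)
    subst this
    exact ⟨.nil, rfl⟩
  | succ k ih =>
    intro h1 h2
    by_cases h3 : n = 0
    · obtain ⟨w, hw, hw'⟩ := desc v (by rintro rfl; simp [ht] at h1)
      obtain ⟨p, hp⟩ := ih w (by omega) (Or.inr h3)
      exact ⟨.cons hw p, by simp [hp]⟩
    · have hz : v.z ≠ 0 := by omega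
      have := v.hz
      have ha : (GG P).Adj v (tgt v (v.z - 1, v.σ)) := (adj_mid v hz).2 ⟨_, mem_Inc.2 ⟨Or.inr rfl,
        fun h => (v.hσ h).1, fun _ => rfl⟩, rfl⟩
      have e : tgt v (v.z - 1, v.σ) = node P v.n v.g (v.z - 1) v.σ := by
        rw [tgt, show nh v.z (v.z - 1, v.σ) = v.z - 1 by simp [nh]; omega]
      have hk : k ≤ (tgt v (v.z - 1, v.σ)).z := by
        rw [e]
        by_cases h4 : v.z = 1
        · omega
        · rw [(node_mid v.σ v.hg (by omega) (by omega)).2.2.1]; omega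
      obtain ⟨p, hp⟩ := ih (tgt v (v.z - 1, v.σ))
        (by rw [e, ht_node _ v.hg (by omega)]; unfold ht at h1; omega) (Or.inl hk)
      exact ⟨.cons ha p, by simp [hp]⟩

lemma conn : (GG P).Connected := by
  have h : ∀ v, (GG P).Reachable v (hub P 0) := fun v => by
    obtain ⟨p, -⟩ := reach_dist v 0 (ht v) (by simp) (Or.inr rfl)
    exact ⟨p⟩
  have : Nonempty (Vx P) := ⟨hub P 0⟩
  exact ⟨fun u v => (h u).trans (h v).symm⟩

instance : Infinite (Vx P) := Infinite.of_injective (hub P) fun _ _ h => congrArg Vx.n h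

lemma sum_e (n : ℕ) : ∑ i ∈ range (n + 1), P.e i ≤ 2 * P.e n := by
  induction n with
  | zero => simp; omega
  | succ n ih => rw [sum_range_succ, e_succ]; omega

lemma nonam : NonAmenable (GG P) := by
  have := NN_big
  refine ⟨1 / (6 * NN), by positivity, fun S _ => ?_⟩
  set Bd := {e ∈ (GG P).edgeSet | ∃ u v, e = s(u, v) ∧ u ∈ S ∧ v ∉ S} with hB
  have fB : Bd.Finite := by
    refine (S.finite_toSet.biUnion fun u _ => (fin_nb u).image fun w => s(u, w)).subset ?_
    rintro _ ⟨h, u, v, rfl, hu, -⟩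
    exact Set.mem_biUnion hu ⟨v, h, rfl⟩
  let sp : ℕ × ℕ → Prop := fun q => q.2 < P.e q.1 ∧ ∃ l, Valid l ∧ edge P q.1 q.2 l ∈ Bd
  have cT : ∀ T : Finset (ℕ × ℕ), (∀ q ∈ T, sp q) → T.card ≤ Bd.ncard := by
    intro T hT
    rw [Set.ncard_eq_toFinset_card _ fB]
    refine card_le_card_of_forall_subsingleton
      (fun q e => ∃ l, Valid l ∧ e = edge P q.1 q.2 l) (fun q hq => ?_) ?_
    · obtain ⟨-, l, a, b⟩ := hT q hq
      exact ⟨_, by simpa using b, l, a, rfl⟩
    · rintro e - q ⟨hq, l, a, rfl⟩ q' ⟨hq', l', a', b⟩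
      have := edge_inj (hT q hq).1 (hT q' hq').1 a a' b
      exact Prod.ext this.1 this.2.1
  have ns : ∀ n g, g < P.e n → ¬ sp (n, g) → ∀ τ, ∀ z ≤ NN,
      (node P n g z τ ∈ S ↔ hub P n ∈ S) := by
    intro n g hg h τ z
    induction z with
    | zero => simp [node_zero]
    | succ z ih =>
      intro hz
      rw [← ih (by omega)]
      have v : Valid (z, τ && decide (dB z)) := ⟨hz, by simp⟩
      have e : s(node P n g z τ, node P n g (z + 1) τ) = edge P n g (z, τ && decide (dB z)) := by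
        unfold edge node sd dv
        by_cases hd : dB z <;> simp [hd]
      have a := adj_edge hg v e
      by_contra hc
      refine h ⟨hg, _, v, e ▸ ⟨a, ?_⟩⟩
      by_cases h1 : node P n g z τ ∈ S
      · exact ⟨_, _, rfl, h1, by tauto⟩
      · exact ⟨_, _, Sym2.eq_swap, by tauto, h1⟩
  set A := S.image fun X => (X.n, X.g)
  have c1 : S.card ≤ 2 * NN * A.card := by
    refine card_le_mul_card_image _ _ fun q _ => ?_
    refine (card_le_card_of_injOn (t := range NN ×ˢ (univ : Finset Bool)) (fun X => (X.z, X.σ))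
      (fun X _ => by simp [X.hz]) fun X hX Y hY e => ?_).trans (by simp [mul_comm])
    have a := (mem_filter.1 hX).2
    have b := (mem_filter.1 hY).2
    rw [← b] at a
    simp only [Prod.mk.injEq] at a e
    exact Vx.ext a.1 a.2 e.1 e.2
  have c2 : (A.filter sp).card ≤ Bd.ncard := cT _ fun q hq => (mem_filter.1 hq).2
  have hub_in : ∀ q ∈ A.filter (¬ sp ·), hub P q.1 ∈ S ∧ q.2 < P.e q.1 := by
    intro q hq
    obtain ⟨a, b⟩ := mem_filter.1 hq
    obtain ⟨X, hX, rfl⟩ := mem_image.1 a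
    refine ⟨?_, X.hg⟩
    by_cases hz : X.z = 0
    · rwa [eq_hub X hz] at hX
    · exact (ns _ _ X.hg b X.σ X.z X.hz.le).1 (by rwa [node_self X hz fun _ => rfl])
  have c3 : (A.filter (¬ sp ·)).card ≤ 2 * Bd.ncard := by
    rcases (S.filter fun X => X.z = 0).eq_empty_or_nonempty with h | h
    · rw [card_eq_zero.2]; · omega
      refine eq_empty_of_forall_notMem fun q hq => ?_
      have : hub P q.1 ∈ S.filter fun X => X.z = 0 := mem_filter.2 ⟨(hub_in q hq).1, rfl⟩
      simp [h] at this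
    · obtain ⟨X, hX, hm⟩ := exists_max_image _ Vx.n h
      have x1 : hub P X.n ∈ S := by rw [← eq_hub X (mem_filter.1 hX).2]; exact (mem_filter.1 hX).1
      have x2 : hub P (X.n + 1) ∉ S := fun h => by
        have := hm _ (mem_filter.2 ⟨h, rfl⟩); simp at this
      have a := cT ({X.n} ×ˢ range (P.e X.n)) fun q hq => by
        obtain ⟨n, g⟩ := q
        simp only [mem_product, mem_singleton, mem_range] at hq
        obtain ⟨rfl, hg⟩ := hq
        by_contra hc
        exact x2 (by rw [← node_N X.n g false]; exact (ns _ _ hg hc _ _ le_rfl).2 x1)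
      have b : (A.filter (¬ sp ·)).card ≤ ∑ i ∈ range (X.n + 1), P.e i := by
        refine (card_le_card (t := (range (X.n + 1)).biUnion fun i => {i} ×ˢ range (P.e i))
          fun q hq => ?_).trans (card_biUnion_le.trans (by simp))
        have := hub_in q hq
        have := hm _ (mem_filter.2 ⟨this.1, rfl⟩)
        simp only [mem_biUnion, mem_range, mem_product, mem_singleton]
        exact ⟨q.1, by simp at this; omega, rfl, by tauto⟩
      have := sum_e (P := P) X.n
      simp at a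
      omega
  have c4 := card_filter_add_card_filter_not (s := A) sp
  have : S.card ≤ 6 * NN * Bd.ncard := by nlinarith
  have : (S.card : ℝ) ≤ 6 * NN * Bd.ncard := by exact_mod_cast this
  rw [one_div, inv_mul_le_iff₀ (by positivity)]; exact this

lemma exists_E (J : ℕ → ℕ) (C k : ℕ) (hJ : ∀ m, J m + 1 ≤ C * (m + 1) ^ k) :
    ∃ E, ∀ m, 2 * NN * (J m + 1) ^ 2 * (m + 1) ^ 2 ≤ E * 2 ^ m := by
  obtain ⟨B, hB⟩ := (tendsto_pow_const_div_const_pow_of_one_lt (2 * k + 2)
    (show (1 : ℝ) < 2 by norm_num)).bddAbove_range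
  obtain ⟨D, hD⟩ := exists_nat_ge B
  refine ⟨2 * NN * C ^ 2 * (D * 2), fun m => ?_⟩
  have a : ((m + 1 : ℕ) : ℝ) ^ (2 * k + 2) / 2 ^ (m + 1) ≤ D := (hB ⟨m + 1, rfl⟩).trans hD
  rw [div_le_iff₀ (by positivity)] at a
  have a' : (m + 1) ^ (2 * k + 2) ≤ D * 2 ^ (m + 1) := by exact_mod_cast a
  calc _ ≤ 2 * NN * (C * (m + 1) ^ k) ^ 2 * (m + 1) ^ 2 := by gcongr; exact hJ m
    _ = 2 * NN * C ^ 2 * (m + 1) ^ (2 * k + 2) := by ring
    _ ≤ 2 * NN * C ^ 2 * (D * 2 ^ (m + 1)) := by gcongr
    _ = _ := by ring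

theorem pack (P : Par) : ∃ (_ : MeasurableSpace (Vx P)) (_ : DiscreteMeasurableSpace (Vx P)),
    (∃ μ, IsGRW (GG P) (hub P 0) μ) ∧
    ∀ μ, IsGRW (GG P) (hub P 0) μ → ∀ᵐ x ∂μ, {t | x t = hub P 0}.Infinite := by
  letI : MeasurableSpace (Vx P) := ⊤
  have : DiscreteMeasurableSpace (Vx P) := ⟨fun _ => trivial⟩
  exact ⟨⊤, this, exists_grw fin_nb has_nb _, grw_rec⟩

noncomputable def P0 : Par where
  E := (exists_E (fun _ => 0) 1 0 (by simp)).choose
  Sh _ _ := False
  J _ := 0
  symm _ _ := id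
  irr _ _ := False.elim
  bd _ _ := False.elim
  hE := (exists_E (fun _ => 0) 1 0 (by simp)).choose_spec

end Pool.Agent.H80.Grw
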