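import Mathlib

set_option autoImplicit false

namespace Pool.Agent.H80.Grw

open MeasureTheory Classical
open scoped ENNReal

variable {V : Type} (G : SimpleGraph V)

/-- edges crossed by the path `x` up to time `t` -/
def crossed (x : ℕ → V) (t : ℕ) : Set (Sym2 V) := {e | ∃ i < t, e = s(x i, x (i + 1))}

/-- the set from which the next vertex is drawn uniformly: ends of uncrossed edges at `v` if there
are any, all neighbours of `v` otherwise -/
def moves (H : Set (Sym2 V)) (v : V) : Set V :=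
  if ∃ w, G.Adj v w ∧ s(v, w) ∉ H then {w | G.Adj v w ∧ s(v, w) ∉ H} else {w | G.Adj v w}

/-- `μ` is the law of the greedy random walk with the uniform rule started at `v0` -/
def IsGRW [MeasurableSpace V] (v0 : V) (μ : Measure (ℕ → V)) : Prop :=
  IsProbabilityMeasure μ ∧ μ {x | x 0 = v0} = 1 ∧ ∀ (y : ℕ → V) (t : ℕ),
    μ {x | ∀ i ≤ t + 1, x i = y i} = μ {x | ∀ i ≤ t, x i = y i} *
      if y (t + 1) ∈ moves G (crossed y t) (y t) then
        ((moves G (crossed y t) (y t)).ncard : ℝ≥0∞)⁻¹ else 0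

/-- positive edge-isoperimetric constant -/
def NonAmenable : Prop :=
  ∃ c : ℝ, 0 < c ∧ ∀ S : Finset V, S.Nonempty →
    c * S.card ≤ ({e ∈ G.edgeSet | ∃ u v, e = s(u, v) ∧ u ∈ S ∧ v ∉ S}.ncard : ℝ)

/-- graph metric of the cubic lattice -/
def l1 (p q : Fin 3 → ℤ) : ℝ := ∑ i, |(p i : ℝ) - q i|

/-- rough isometry to the cubic lattice -/
def RoughZ3 : Prop :=
  ∃ (φ : V → Fin 3 → ℤ) (a b c : ℝ), 1 ≤ a ∧ 0 ≤ b ∧ 0 ≤ c ∧
    (∀ x y, a⁻¹ * G.dist x y - b ≤ l1 (φ x) (φ y) ∧ l1 (φ x) (φ y) ≤ a * G.dist x y + b) ∧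
    ∀ p, ∃ x, l1 p (φ x) ≤ c

end Pool.Agent.H80.Grw
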