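import Mathlib
import Pool.Agent.H26.PL

namespace Pool.Agent.H80.Gs

open Set MeasureTheory ProbabilityTheory Real Pool.Agent.H26.PL
open scoped ENNReal NNReal InnerProductSpace

variable {E : Type*} [NormedAddCommGroup E] [InnerProductSpace ℝ E] [FiniteDimensional ℝ E]
  [MeasurableSpace E] [BorelSpace E]

noncomputable def dens (d : ℕ) (s : ℝ) : ℝ := (2 * π) ^ (-(d : ℝ) / 2) * exp (-s ^ 2 / 2)

lemma dens_pos (d : ℕ) (s : ℝ) : 0 < dens d s := by unfold dens; positivity

lemma int_exp : Integrable (fun v : E => exp (-(1 / 2 : ℝ) * ‖v‖ ^ 2)) := by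
  apply Integrable.of_integral_ne_zero
  rw [GaussianFourier.integral_rexp_neg_mul_sq_norm (by norm_num)]
  positivity

lemma int_dens : Integrable (fun v : E => dens (Module.finrank ℝ E) ‖v‖) := by
  unfold dens
  refine ((int_exp (E := E)).const_mul ((2 * π) ^ (-(Module.finrank ℝ E : ℝ) / 2))).congr
    (ae_of_all _ fun v => ?_)
  simp only; congr 2; ring

lemma meas_dens (d : ℕ) : Measurable (fun v : E => dens d ‖v‖) := by
  unfold dens; fun_prop

lemma std_eq : stdGaussian E =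
    volume.withDensity (fun v : E => ENNReal.ofReal (dens (Module.finrank ℝ E) ‖v‖)) := by
  have := isFiniteMeasure_withDensity_ofReal (μ := (volume : Measure E))
    (int_dens (E := E)).hasFiniteIntegral
  apply Measure.ext_of_charFun
  ext t
  rw [charFun_stdGaussian, charFun_apply, integral_withDensity_eq_integral_toReal_smul
    ((meas_dens _).ennreal_ofReal) (ae_of_all _ fun _ => ENNReal.ofReal_lt_top)]
  have h := GaussianFourier.integral_cexp_neg_mul_sq_norm_add (V := E) (b := 1 / 2)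
    (by norm_num) Complex.I t
  have e : ∀ x : E, (ENNReal.ofReal (dens (Module.finrank ℝ E) ‖x‖)).toReal •
      Complex.exp (⟪x, t⟫_ℝ * Complex.I) = (((2 * π) ^ (-(Module.finrank ℝ E : ℝ) / 2) : ℝ) : ℂ) *
      Complex.exp (-(1 / 2) * ‖x‖ ^ 2 + Complex.I * ⟪t, x⟫_ℝ) := by
    intro x
    rw [ENNReal.toReal_ofReal (dens_pos _ _).le, dens, Complex.real_smul, Complex.exp_add,
      real_inner_comm]
    push_cast
    rw [mul_assoc]
    congr 3 <;> ring
  simp_rw [e]
  rw [integral_const_mul, h, ← mul_assoc]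
  have e2 : (((2 * π) ^ (-(Module.finrank ℝ E : ℝ) / 2) : ℝ) : ℂ) *
      ((π : ℂ) / (1 / 2)) ^ ((Module.finrank ℝ E : ℂ) / 2) = 1 := by
    have : ((π : ℂ) / (1 / 2)) ^ ((Module.finrank ℝ E : ℂ) / 2) =
        (((2 * π) ^ ((Module.finrank ℝ E : ℝ) / 2) : ℝ) : ℂ) := by
      rw [Complex.ofReal_cpow (by positivity)]
      push_cast
      congr 1; ring
    rw [this, ← Complex.ofReal_mul, ← Real.rpow_add (by positivity)]
    have : -(Module.finrank ℝ E : ℝ) / 2 + (Module.finrank ℝ E : ℝ) / 2 = 0 := by ring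
    rw [this]; simp
  rw [e2, one_mul]
  congr 1
  rw [Complex.I_sq]; ring

lemma dens_geom (d : ℕ) {a b : ℝ} (hab : a + b = 1) (s t : ℝ) :
    dens d s ^ a * dens d t ^ b = (2 * π) ^ (-(d : ℝ) / 2) * exp (-(a * s ^ 2 + b * t ^ 2) / 2) := by
  unfold dens
  have hc : (0 : ℝ) < (2 * π) ^ (-(d : ℝ) / 2) := by positivity
  rw [mul_rpow hc.le (exp_pos _).le, mul_rpow hc.le (exp_pos _).le, ← exp_mul, ← exp_mul,
    mul_mul_mul_comm, ← rpow_add hc, hab, rpow_one, ← exp_add]
  congr 2; ring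

lemma norm_comb {a b : ℝ} (hab : a + b = 1) (x y : E) :
    a * ‖x‖ ^ 2 + b * ‖y‖ ^ 2 = ‖a • x + b • y‖ ^ 2 + a * b * ‖x - y‖ ^ 2 := by
  rw [norm_add_sq_real, norm_sub_sq_real, norm_smul, norm_smul, inner_smul_left, inner_smul_right,
    mul_pow, mul_pow, Real.norm_eq_abs, Real.norm_eq_abs, sq_abs, sq_abs]
  have : b = 1 - a := by linarith
  subst this
  simp; ring

/-- strong Prekopa type inequality for the Gaussian measure -/
lemma pl_strong {a b : ℝ} (ha : 0 < a) (hb : 0 < b) (hab : a + b = 1) (f g h : E → ℝ≥0∞)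
    (hf : Measurable f) (hg : Measurable g) (hh : Measurable h)
    (H : ∀ x y, f x ^ a * g y ^ b * ENNReal.ofReal (exp (-(a * b * ‖x - y‖ ^ 2) / 2)) ≤
      h (a • x + b • y)) :
    (∫⁻ x, f x ∂stdGaussian E) ^ a * (∫⁻ x, g x ∂stdGaussian E) ^ b ≤ ∫⁻ x, h x ∂stdGaussian E := by
  have hm := (meas_dens (E := E) (Module.finrank ℝ E)).ennreal_ofReal
  rw [std_eq, lintegral_withDensity_eq_lintegral_mul _ hm hf,
    lintegral_withDensity_eq_lintegral_mul _ hm hg, lintegral_withDensity_eq_lintegral_mul _ hm hh]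
  refine hasPL_volume ha hb hab E _ _ _ (hm.mul hf) (hm.mul hg) (hm.mul hh) fun x y => ?_
  simp only [Pi.mul_apply]
  rw [ENNReal.mul_rpow_of_nonneg _ _ ha.le, ENNReal.mul_rpow_of_nonneg _ _ hb.le, mul_mul_mul_comm,
    ENNReal.ofReal_rpow_of_pos (dens_pos _ _), ENNReal.ofReal_rpow_of_pos (dens_pos _ _),
    ← ENNReal.ofReal_mul (rpow_nonneg (dens_pos _ _).le _), dens_geom _ hab, norm_comb hab]
  have : (2 * π) ^ (-(Module.finrank ℝ E : ℝ) / 2) *
      exp (-(‖a • x + b • y‖ ^ 2 + a * b * ‖x - y‖ ^ 2) / 2) =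
      dens (Module.finrank ℝ E) ‖a • x + b • y‖ * exp (-(a * b * ‖x - y‖ ^ 2) / 2) := by
    rw [dens, mul_assoc ((2 * π) ^ (-(Module.finrank ℝ E : ℝ) / 2)), ← exp_add]; congr 2; ring
  rw [this, ENNReal.ofReal_mul (dens_pos _ _).le, mul_assoc]
  gcongr
  rw [mul_comm]; exact H x y

lemma pl_sets {a b : ℝ} (ha : 0 < a) (hb : 0 < b) (hab : a + b = 1) {A B C : Set E}
    (hA : MeasurableSet A) (hB : MeasurableSet B) (hC : MeasurableSet C)
    (H : ∀ x ∈ A, ∀ y ∈ B, a • x + b • y ∈ C) :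
    stdGaussian E A ^ a * stdGaussian E B ^ b ≤ stdGaussian E C := by
  rw [← lintegral_indicator_one hA, ← lintegral_indicator_one hB, ← lintegral_indicator_one hC]
  refine pl_strong ha hb hab _ _ _ (measurable_one.indicator hA) (measurable_one.indicator hB)
    (measurable_one.indicator hC) fun x y => ?_
  by_cases hx : x ∈ A
  · by_cases hy : y ∈ B
    · simp only [hx, hy, H x hx y hy, indicator_of_mem, Pi.one_apply, ENNReal.one_rpow, one_mul]
      rw [ENNReal.ofReal_le_one, exp_le_one_iff]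
      have : 0 ≤ a * b * ‖x - y‖ ^ 2 := by positivity
      linarith
    · simp [hy, hb]
  · simp [hx, ha]

lemma pl_real {a b : ℝ} (ha : 0 < a) (hb : 0 < b) (hab : a + b = 1) {A B C : Set E}
    (hA : MeasurableSet A) (hB : MeasurableSet B) (hC : MeasurableSet C)
    (H : ∀ x ∈ A, ∀ y ∈ B, a • x + b • y ∈ C) :
    (stdGaussian E).real A ^ a * (stdGaussian E).real B ^ b ≤ (stdGaussian E).real C := by
  have := ENNReal.toReal_mono (measure_ne_top _ _) (pl_sets ha hb hab hA hB hC H)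
  rwa [ENNReal.toReal_mul, ← ENNReal.toReal_rpow, ← ENNReal.toReal_rpow] at this

lemma conc {A B : Set E} (hA : MeasurableSet A) (hB : MeasurableSet B) {t : ℝ} (ht : 0 ≤ t)
    (H : ∀ x ∈ A, ∀ y ∈ B, t ≤ ‖x - y‖) :
    (stdGaussian E).real A * (stdGaussian E).real B ≤ exp (-t ^ 2 / 4) := by
  have h := pl_strong (E := E) (a := 1 / 2) (b := 1 / 2) (by norm_num) (by norm_num) (by norm_num)
    (A.indicator 1) (B.indicator 1) (fun _ => ENNReal.ofReal (exp (-t ^ 2 / 8)))
    (measurable_one.indicator hA) (measurable_one.indicator hB) measurable_const (fun x y => by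
      by_cases hx : x ∈ A
      · by_cases hy : y ∈ B
        · simp only [hx, hy, indicator_of_mem, Pi.one_apply, ENNReal.one_rpow, one_mul]
          apply ENNReal.ofReal_le_ofReal
          rw [exp_le_exp]
          have := pow_le_pow_left₀ ht (H x hx y hy) 2
          linarith
        · simp [hy]
      · simp [hx])
  rw [lintegral_indicator_one hA, lintegral_indicator_one hB, lintegral_const, measure_univ,
    mul_one] at h
  have h2 := ENNReal.toReal_mono ENNReal.ofReal_ne_top h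
  rw [ENNReal.toReal_mul, ← ENNReal.toReal_rpow, ← ENNReal.toReal_rpow,
    ENNReal.toReal_ofReal (exp_pos _).le, ← mul_rpow ENNReal.toReal_nonneg ENNReal.toReal_nonneg,
    ← sqrt_eq_rpow, sqrt_le_left (exp_pos _).le, sq, ← exp_add] at h2
  have e3 : -t ^ 2 / 8 + -t ^ 2 / 8 = -t ^ 2 / 4 := by ring
  rw [e3] at h2
  exact h2

lemma std_real : stdGaussian ℝ = gaussianReal 0 1 := by
  apply Measure.ext_of_charFun
  ext t
  rw [charFun_stdGaussian, charFun_gaussianReal]
  simp only [Real.norm_eq_abs]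
  congr 1
  rw [← Complex.ofReal_pow, sq_abs]; push_cast; simp; ring

lemma map_inner {e : E} (he : ‖e‖ = 1) :
    (stdGaussian E).map (fun x => ⟪x, e⟫_ℝ) = gaussianReal 0 1 := by
  apply Measure.ext_of_charFun
  ext t
  rw [charFun_apply, integral_map (by fun_prop) (by fun_prop), charFun_gaussianReal]
  have := charFun_stdGaussian (E := E) (t • e)
  rw [charFun_apply] at this
  simp only [inner_smul_right, norm_smul, he, mul_one, Real.norm_eq_abs] at this
  have e1 : ∀ x : E, ⟪⟪x, e⟫_ℝ, t⟫_ℝ = t * ⟪x, e⟫_ℝ := fun x => by simp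
  simp_rw [e1]
  rw [this]
  congr 1
  rw [← Complex.ofReal_pow, sq_abs]; push_cast; simp; ring

lemma prod_map {e : E} (he : ‖e‖ = 1) :
    ((stdGaussian (ℝ ∙ e)ᗮ).prod (gaussianReal 0 1)).map
      (fun p : (ℝ ∙ e)ᗮ × ℝ => (p.1 : E) + p.2 • e) = stdGaussian E := by
  apply Measure.ext_of_charFun
  ext t
  rw [charFun_apply, integral_map (by fun_prop) (by fun_prop), charFun_stdGaussian]
  set w : (ℝ ∙ e)ᗮ := ⟨t - ⟪t, e⟫_ℝ • e, by
    rw [Submodule.mem_orthogonal_singleton_iff_inner_right, inner_sub_right, inner_smul_right,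
      real_inner_self_eq_norm_sq, he, real_inner_comm]; ring⟩ with hw
  have e1 : ∀ p : (ℝ ∙ e)ᗮ × ℝ, Complex.exp (⟪(p.1 : E) + p.2 • e, t⟫_ℝ * Complex.I) =
      Complex.exp (⟪p.1, w⟫_ℝ * Complex.I) * Complex.exp (⟪p.2, ⟪t, e⟫_ℝ⟫_ℝ * Complex.I) := by
    intro p
    have h0 : ⟪(p.1 : E), e⟫_ℝ = 0 := Submodule.mem_orthogonal_singleton_iff_inner_left.1 p.1.2
    rw [← Complex.exp_add, ← add_mul, ← Complex.ofReal_add, Submodule.coe_inner, hw]
    simp only [inner_add_left, inner_sub_right, inner_smul_right, inner_smul_left, h0]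
    rw [real_inner_comm t e]
    simp [mul_comm]
  simp_rw [e1]
  rw [integral_prod_mul (fun y : (ℝ ∙ e)ᗮ => Complex.exp (⟪y, w⟫_ℝ * Complex.I))
    (fun s : ℝ => Complex.exp (⟪s, ⟪t, e⟫_ℝ⟫_ℝ * Complex.I)), ← charFun_apply, ← charFun_apply,
    charFun_stdGaussian, charFun_gaussianReal, ← Complex.exp_add]
  congr 1
  have : ‖w‖ ^ 2 = ‖t‖ ^ 2 - ⟪t, e⟫_ℝ ^ 2 := by
    change ‖t - ⟪t, e⟫_ℝ • e‖ ^ 2 = _
    rw [norm_sub_sq_real, inner_smul_right, norm_smul, he, Real.norm_eq_abs, mul_one, sq_abs]; ring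
  rw [← Complex.ofReal_pow, this]; push_cast; simp; ring

end Pool.Agent.H80.Gs
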