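import Pool.Agent.H80.Gs1

namespace Pool.Agent.H80.Gs

open Set MeasureTheory ProbabilityTheory Real
open scoped ENNReal NNReal InnerProductSpace

noncomputable abbrev g1 : Measure ℝ := gaussianReal 0 1

lemma pdf_le (x : ℝ) : gaussianPDFReal 0 1 x ≤ 1 := by
  unfold gaussianPDFReal
  have h1 : (√(2 * π * ((1 : ℝ≥0) : ℝ)))⁻¹ ≤ 1 := by
    apply inv_le_one_of_one_le₀
    rw [one_le_sqrt]
    have := pi_gt_three
    simp; linarith
  have h2 : exp (-(x - 0) ^ 2 / (2 * ((1 : ℝ≥0) : ℝ))) ≤ 1 := by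
    rw [exp_le_one_iff]
    have := sq_nonneg (x - 0)
    simp only [NNReal.coe_one]; linarith
  exact mul_le_one₀ h1 (exp_pos _).le h2

lemma pdf_mono {x R : ℝ} (h : |x| ≤ R) : gaussianPDFReal 0 1 R ≤ gaussianPDFReal 0 1 x := by
  unfold gaussianPDFReal
  gcongr ?_ * exp ?_
  have : x ^ 2 ≤ R ^ 2 := by
    rw [← sq_abs x]; exact pow_le_pow_left₀ (abs_nonneg _) h 2
  simp only [NNReal.coe_one, sub_zero]; linarith

lemma g_le_vol (A : Set ℝ) : g1 A ≤ volume A := by
  rw [gaussianReal_apply _ one_ne_zero]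
  calc ∫⁻ x in A, gaussianPDF 0 1 x ≤ ∫⁻ _ in A, 1 :=
        lintegral_mono fun x => ENNReal.ofReal_le_one.2 (pdf_le x)
    _ = volume A := by simp

lemma g_Icc_le (s d : ℝ) (hd : 0 ≤ d) : g1.real (Icc s (s + d)) ≤ d := by
  have := g_le_vol (Icc s (s + d))
  rw [Real.volume_Icc, add_sub_cancel_left] at this
  exact ENNReal.toReal_le_of_le_ofReal hd this

lemma g_Ioo_ge {s d R : ℝ} (hd : 0 ≤ d) (h : ∀ x ∈ Ioo s (s + d), |x| ≤ R) :
    gaussianPDFReal 0 1 R * d ≤ g1.real (Ioo s (s + d)) := by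
  have : ENNReal.ofReal (gaussianPDFReal 0 1 R * d) ≤ g1 (Ioo s (s + d)) := by
    rw [gaussianReal_apply _ one_ne_zero]
    calc ENNReal.ofReal (gaussianPDFReal 0 1 R * d)
        = ∫⁻ _ in Ioo s (s + d), ENNReal.ofReal (gaussianPDFReal 0 1 R) := by
          rw [setLIntegral_const, Real.volume_Ioo, add_sub_cancel_left,
            ENNReal.ofReal_mul (gaussianPDFReal_nonneg _ _ _)]
      _ ≤ _ := setLIntegral_mono' measurableSet_Ioo fun x hx =>
          ENNReal.ofReal_le_ofReal (pdf_mono (h x hx))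
  exact (ENNReal.ofReal_le_iff_le_toReal (measure_ne_top _ _)).1 this

lemma tail {T : ℝ} (hT : 0 ≤ T) : g1.real {t | T < |t|} ≤ 2 * exp (-T ^ 2 / 2) := by
  have h1 := measure_ge_le_exp_mul_mgf (μ := g1) (X := fun x => x) T hT
    (integrable_exp_mul_gaussianReal T)
  have h2 := measure_le_le_exp_mul_mgf (μ := g1) (X := fun x => x) (-T) (neg_nonpos.2 hT)
    (integrable_exp_mul_gaussianReal (-T))
  rw [mgf_fun_id_gaussianReal, ← exp_add] at h1 h2
  have e1 : -T * T + (0 * T + ((1 : ℝ≥0) : ℝ) * T ^ 2 / 2) = -T ^ 2 / 2 := by simp; ring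
  have e2 : - -T * -T + (0 * -T + ((1 : ℝ≥0) : ℝ) * (-T) ^ 2 / 2) = -T ^ 2 / 2 := by simp; ring
  rw [e1] at h1; rw [e2] at h2
  calc g1.real {t | T < |t|} ≤ g1.real ({t | T ≤ t} ∪ {t | t ≤ -T}) := by
        refine measureReal_mono (fun t ht => ?_) (measure_ne_top _ _)
        simp only [mem_setOf_eq, mem_union] at ht ⊢
        rcases lt_abs.1 ht with h | h
        · left; linarith
        · right; linarith
    _ ≤ _ := measureReal_union_le _ _
    _ ≤ _ := by linarith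

lemma exists_small {I : Set ℝ} {T : ℝ} (h : g1.real {t | T < |t|} < g1.real I) :
    ∃ z ∈ I, |z| ≤ T := by
  by_contra hn
  push Not at hn
  exact absurd (measureReal_mono (μ := g1) (fun t ht => hn t ht) (measure_ne_top _ _)) (not_le.2 h)

lemma stab {C J : Set ℝ} (hC : C.OrdConnected) {R δ : ℝ} (hδ : 0 ≤ δ)
    (H : ∀ s ∈ J, |s| ≤ R → ∃ c ∈ C, |c - s| ≤ δ) :
    g1.real J ≤ g1.real C + 2 * δ + g1.real {t | R < |t|} := by
  set J' := J ∩ {s | |s| ≤ R} with hJ'
  have hb : BddBelow J' := ⟨-R, fun s hs => (abs_le.1 hs.2).1⟩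
  have ha : BddAbove J' := ⟨R, fun s hs => (abs_le.1 hs.2).2⟩
  have hsub : J ⊆ ((C ∪ Icc (sInf J') (sInf J' + δ)) ∪ Icc (sSup J' - δ) (sSup J' - δ + δ)) ∪
      {t | R < |t|} := by
    intro t ht
    by_cases hR : |t| ≤ R
    · left
      have ht' : t ∈ J' := ⟨ht, hR⟩
      by_cases h1 : t ≤ sInf J' + δ
      · left; right; exact ⟨csInf_le hb ht', h1⟩
      by_cases h2 : sSup J' - δ ≤ t
      · right; exact ⟨h2, by have := le_csSup ha ht'; linarith⟩
      left; left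
      obtain ⟨s1, hs1, h3⟩ := exists_lt_of_csInf_lt ⟨t, ht'⟩ (show sInf J' < t - δ by linarith)
      obtain ⟨s2, hs2, h4⟩ := exists_lt_of_lt_csSup ⟨t, ht'⟩ (show t + δ < sSup J' by linarith)
      obtain ⟨c1, hc1, h5⟩ := H s1 hs1.1 hs1.2
      obtain ⟨c2, hc2, h6⟩ := H s2 hs2.1 hs2.2
      exact hC.out hc1 hc2 ⟨by linarith [(abs_le.1 h5).2], by linarith [(abs_le.1 h6).1]⟩
    · right; exact not_le.1 hR
  have h1 := g_Icc_le (sInf J') δ hδ
  have h2 := g_Icc_le (sSup J' - δ) δ hδ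
  have h3 := measureReal_mono (μ := g1) hsub (measure_ne_top _ _)
  have h4 := measureReal_union_le (μ := g1) ((C ∪ Icc (sInf J') (sInf J' + δ)) ∪
    Icc (sSup J' - δ) (sSup J' - δ + δ)) {t | R < |t|}
  have h5 := measureReal_union_le (μ := g1) (C ∪ Icc (sInf J') (sInf J' + δ))
    (Icc (sSup J' - δ) (sSup J' - δ + δ))
  have h6 := measureReal_union_le (μ := g1) C (Icc (sInf J') (sInf J' + δ))
  linarith

lemma gain {I D : Set ℝ} (hI : I.OrdConnected) {R r : ℝ} (hr : 0 ≤ r) (hr1 : r ≤ 1)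
    (h1 : g1.real {t | R < |t|} < g1.real I) (h2 : g1.real I + g1.real {t | R < |t|} < 1)
    (hD : ∀ s ∈ I, ∀ t, |t - s| ≤ r → t ∈ D) :
    g1.real I + gaussianPDFReal 0 1 (R + 1) * r ≤ g1.real D := by
  obtain ⟨t0, ht0, ht0R⟩ := exists_small h1
  have hIm : MeasurableSet I := hI.measurableSet
  have h3 : g1.real {t | R < |t|} < g1.real Iᶜ := by
    rw [probReal_compl_eq_one_sub hIm]; linarith
  obtain ⟨t1, ht1, ht1R⟩ := exists_small h3
  have key : ∀ s, (∀ x ∈ Ioo s (s + r), |x| ≤ R + 1 ∧ x ∉ I ∧ x ∈ D) →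
      g1.real I + gaussianPDFReal 0 1 (R + 1) * r ≤ g1.real D := by
    intro s hs
    have h4 := g_Ioo_ge hr fun x hx => (hs x hx).1
    have h5 : g1.real (I ∪ Ioo s (s + r)) = g1.real I + g1.real (Ioo s (s + r)) :=
      measureReal_union (disjoint_right.2 fun x hx => (hs x hx).2.1) measurableSet_Ioo
    have h6 : g1.real (I ∪ Ioo s (s + r)) ≤ g1.real D :=
      measureReal_mono (union_subset (fun x hx => hD x hx x (by simpa using hr))
        fun x hx => (hs x hx).2.2) (measure_ne_top _ _)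
    linarith
  rw [abs_le] at ht0R ht1R
  rcases lt_trichotomy t0 t1 with h | h | h
  · have hub : ∀ s ∈ I, s ≤ t1 := fun s hs => by
      by_contra hn
      exact ht1 (hI.out ht0 hs ⟨h.le, (not_le.1 hn).le⟩)
    have ha : BddAbove I := ⟨t1, hub⟩
    have h7 : sSup I ≤ t1 := csSup_le ⟨t0, ht0⟩ hub
    have h8 : t0 ≤ sSup I := le_csSup ha ht0
    refine key (sSup I) fun x hx => ⟨abs_le.2 ⟨by linarith [hx.1], by linarith [hx.2]⟩,
      fun hxI => absurd (le_csSup ha hxI) (not_le.2 hx.1), ?_⟩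
    obtain ⟨s, hs, h9⟩ := exists_lt_of_lt_csSup ⟨t0, ht0⟩ (show x - r < sSup I by linarith [hx.2])
    exact hD s hs x (abs_le.2 ⟨by linarith [le_csSup ha hs, hx.1], by linarith⟩)
  · exact absurd (h ▸ ht0) ht1
  · have hlb : ∀ s ∈ I, t1 ≤ s := fun s hs => by
      by_contra hn
      exact ht1 (hI.out hs ht0 ⟨(not_le.1 hn).le, h.le⟩)
    have hb : BddBelow I := ⟨t1, hlb⟩
    have h7 : t1 ≤ sInf I := le_csInf ⟨t0, ht0⟩ hlb
    have h8 : sInf I ≤ t0 := csInf_le hb ht0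
    refine key (sInf I - r) fun x hx => ⟨abs_le.2 ⟨by linarith [hx.1], by linarith [hx.2]⟩,
      fun hxI => absurd (csInf_le hb hxI) (not_le.2 (by linarith [hx.2])), ?_⟩
    obtain ⟨s, hs, h9⟩ := exists_lt_of_csInf_lt ⟨t0, ht0⟩ (show sInf I < x + r by linarith [hx.1])
    exact hD s hs x (abs_le.2 ⟨by linarith, by linarith [csInf_le hb hs, hx.2]⟩)

/-- three level sets -/
lemma three {x y z w β l n : ℝ} (hβ : 0 < β) (hw : β ≤ w) (hwx : w ≤ x) (hwy : w ≤ y) (hwz : w ≤ z)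
    (hx : x ≤ 1) (hl : 0 ≤ l) (hn : 0 < n) (h1 : x ^ (1 - l) * w ^ l ≤ y)
    (h2 : x ^ n * w ^ (1 - n) ≤ z) : x - y ≤ l / n * ((z - w) / β) := by
  have w0 : 0 < w := by linarith
  have x0 : 0 < x := by linarith
  have y0 : 0 < y := by linarith
  have z0 : 0 < z := by linarith
  have l1 := log_le_log (by positivity) h1
  have l2 := log_le_log (by positivity) h2
  rw [log_mul (by positivity) (by positivity), log_rpow x0, log_rpow w0] at l1 l2
  have D0 : 0 ≤ log x - log w := sub_nonneg.2 (log_le_log w0 hwx)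
  have a1 := log_le_sub_one_of_pos (div_pos y0 x0)
  have a2 := log_le_sub_one_of_pos (div_pos z0 w0)
  rw [log_div y0.ne' x0.ne'] at a1
  rw [log_div z0.ne' w0.ne'] at a2
  have b1 : x - y ≤ x * (l * (log x - log w)) := by
    have : x - y = x * (1 - y / x) := by field_simp
    rw [this]; gcongr; linarith
  have b2 : x * (l * (log x - log w)) ≤ l * (log x - log w) :=
    mul_le_of_le_one_left (by positivity) hx
  have b3 : n * (log x - log w) ≤ (z - w) / β := by
    have : z / w - 1 = (z - w) / w := by field_simp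
    have h3 : (z - w) / w ≤ (z - w) / β := by gcongr
    linarith
  have b4 : l * (log x - log w) = l / n * (n * (log x - log w)) := by field_simp
  calc x - y ≤ l / n * (n * (log x - log w)) := by linarith
    _ ≤ _ := by gcongr

end Pool.Agent.H80.Gs
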