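import Pool.Agent.H80.Gs2

namespace Pool.Agent.H80.Gs

open Set MeasureTheory ProbabilityTheory Real
open scoped ENNReal NNReal InnerProductSpace

variable {W : Type*} [NormedAddCommGroup W] [InnerProductSpace ℝ W] [FiniteDimensional ℝ W]
  [MeasurableSpace W] [BorelSpace W]

noncomputable def fH (K : Set (W × ℝ)) (y : W) : ℝ := g1.real (Prod.mk y ⁻¹' K)

noncomputable def psi (K : Set (W × ℝ)) (t : ℝ) : ℝ := (stdGaussian W).real {y | t ≤ fH K y}

lemma fH_meas {K : Set (W × ℝ)} (hm : MeasurableSet K) : Measurable (fH K) :=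
  (measurable_measure_prodMk_left hm).ennreal_toReal

lemma lev_meas {K : Set (W × ℝ)} (hm : MeasurableSet K) (t : ℝ) : MeasurableSet {y | t ≤ fH K y} :=
  measurableSet_le measurable_const (fH_meas hm)

lemma psi_anti (K : Set (W × ℝ)) {s t : ℝ} (h : s ≤ t) : psi K t ≤ psi K s :=
  measureReal_mono (fun _ hy => h.trans hy) (measure_ne_top _ _)

lemma fib_oc {K : Set (W × ℝ)} (hc : Convex ℝ K) (y : W) : (Prod.mk y ⁻¹' K).OrdConnected := by
  apply Convex.ordConnected
  intro s hs t ht a b ha hb hab
  have := hc hs ht ha hb hab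
  simp only [Prod.smul_mk, Prod.mk_add_mk, ← add_smul, hab, one_smul] at this
  exact this

lemma fH_lc {K : Set (W × ℝ)} (hm : MeasurableSet K) (hc : Convex ℝ K) {a b : ℝ} (ha : 0 < a)
    (hb : 0 < b) (hab : a + b = 1) (y y' : W) :
    fH K y ^ a * fH K y' ^ b ≤ fH K (a • y + b • y') := by
  have := pl_real (E := ℝ) ha hb hab (measurable_prodMk_left hm : MeasurableSet (Prod.mk y ⁻¹' K))
    (measurable_prodMk_left hm : MeasurableSet (Prod.mk y' ⁻¹' K))
    (measurable_prodMk_left hm : MeasurableSet (Prod.mk (a • y + b • y') ⁻¹' K))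
    (fun s hs t ht => hc hs ht ha.le hb.le hab)
  rwa [std_real] at this

lemma level {K : Set (W × ℝ)} (hm : MeasurableSet K) (hc : Convex ℝ K) {P R ε p q : ℝ}
    (hP : 0 < P) (hP1 : P ≤ 1) (hR1 : 1 ≤ R) (hR : g1.real {t | R < |t|} ≤ P / 16)
    (hb : P / 2 ≤ psi K (P / 2)) (hq : 0 < q) (hqp : q < p) (hp : p < P / 4) (hε : 0 < ε)
    (L1 : 16 / ε ^ 2 ≤ log (P / 2 / p)) (L2 : log (8 / P) ≤ log (P / 2 / p))
    (L3 : 2 * R / ε ≤ log (P / 2 / p)) :
    psi K q - psi K p ≤
      log (p / q) * (ε / (P / 32)) * ((psi K (P / 4) - psi K (P / 2)) / (P / 2)) := by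
  have p0 : 0 < p := hq.trans hqp
  set L := log (P / 2 / p) with hL
  set m := log (p / q) with hm'
  have m0 : 0 < m := log_pos (by rw [one_lt_div hq]; exact hqp)
  have L0 : 0 < L := lt_of_lt_of_le (by positivity) L1
  have eL : L = log (P / 2) - log p := log_div (by positivity) p0.ne'
  have em : m = log p - log q := log_div p0.ne' hq.ne'
  set M := L + m with hM
  have M0 : 0 < M := by positivity
  set T := ε * M / 2 with hT
  have T0 : 0 < T := by positivity
  have hRT : R ≤ T := by
    rw [div_le_iff₀ hε] at L3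
    have : ε * L ≤ ε * M := by gcongr; linarith
    linarith
  have hTq : g1.real {t | T < |t|} < q := by
    refine (tail T0.le).trans_lt ?_
    have h1 : 2 * M ≤ T ^ 2 / 2 := by
      rw [div_le_iff₀ (by positivity)] at L1
      have : L * ε ^ 2 ≤ M * ε ^ 2 := by gcongr; linarith
      have h2 : T ^ 2 / 2 = M * (M * ε ^ 2) / 8 := by rw [hT]; ring
      have : M * 16 ≤ M * (M * ε ^ 2) := by gcongr; linarith
      linarith
    have h2 : -T ^ 2 / 2 ≤ log (q / 4) := by
      rw [log_div (by positivity) hP.ne'] at L2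
      rw [log_div hq.ne' (by norm_num)]
      rw [log_div hP.ne' (by norm_num)] at eL
      have : log 8 = log 4 + log 2 := by rw [← log_mul (by norm_num) (by norm_num)]; norm_num
      linarith
    have := exp_le_exp.2 h2
    rw [exp_log (by positivity)] at this
    linarith
  set l := m / M with hl
  have l0 : 0 < l := by positivity
  have l1 : l < 1 := by rw [hl, div_lt_one M0]; linarith
  set n := P / 32 / (T + R) with hn
  have n0 : 0 < n := by positivity
  have n1 : n < 1 := by rw [hn, div_lt_one (by positivity)]; linarith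
  have h1 : psi K q ^ (1 - l) * psi K (P / 2) ^ l ≤ psi K p := by
    refine pl_real (by linarith) l0 (by ring) (lev_meas hm _) (lev_meas hm _) (lev_meas hm _)
      fun y hy y' hy' => le_trans ?_ (fH_lc hm hc (by linarith) l0 (by ring) y y')
    have e : p = q ^ (1 - l) * (P / 2) ^ l := by
      rw [rpow_def_of_pos hq, rpow_def_of_pos (by positivity), ← exp_add, ← exp_log p0]
      congr 1
      have : l * M = m := by rw [hl]; field_simp
      have h3 : log (P / 2) - log q = M := by linarith
      have : log q * (1 - l) + log (P / 2) * l = log q + l * (log (P / 2) - log q) := by ring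
      rw [this, h3]; linarith
    rw [e]
    have hy1 : q ≤ fH K y := hy
    have hy2 : P / 2 ≤ fH K y' := hy'
    gcongr
    first | exact rpow_nonneg (hq.le.trans hy1) _ | linarith
  have h2 : psi K q ^ n * psi K (P / 2) ^ (1 - n) ≤ psi K (P / 4) := by
    refine pl_real n0 (by linarith) (by ring) (lev_meas hm _) (lev_meas hm _) (lev_meas hm _)
      fun y hy y' hy' => ?_
    have hy1 : q ≤ fH K y := hy
    have hy2 : P / 2 ≤ fH K y' := hy'
    obtain ⟨z, hz, hzT⟩ := exists_small (hTq.trans_le hy1)
    have := stab (fib_oc hc (n • y + (1 - n) • y')) (J := Prod.mk y' ⁻¹' K) (R := R) (δ := P / 32)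
      (by positivity) fun s hs hsR => ⟨n • z + (1 - n) • s,
        hc hz hs n0.le (by linarith) (by ring), by
          have : n • z + (1 - n) • s - s = n * (z - s) := by simp only [smul_eq_mul]; ring
          rw [this, abs_mul, abs_of_pos n0]
          have h3 : |z - s| ≤ T + R := (abs_sub _ _).trans (by linarith)
          calc n * |z - s| ≤ n * (T + R) := by gcongr
            _ = P / 32 := by rw [hn]; field_simp⟩
    change P / 4 ≤ fH K _
    unfold fH at *
    linarith
  have h3 := three (half_pos hP) hb (psi_anti K (by linarith)) (psi_anti K (by linarith))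
    (psi_anti K (by linarith)) measureReal_le_one l0.le n0 h1 h2
  refine h3.trans ?_
  have h4 : 0 ≤ psi K (P / 4) - psi K (P / 2) := sub_nonneg.2 (psi_anti K (by linarith))
  gcongr
  have : l / n = m * ((T + R) / M / (P / 32)) := by rw [hl, hn]; field_simp
  rw [this]
  gcongr
  rw [div_le_iff₀ M0]; linarith

lemma lev_diff {K : Set (W × ℝ)} (hm : MeasurableSet K) {s t : ℝ} (h : s ≤ t) :
    stdGaussian W ({y | s ≤ fH K y} \ {y | t ≤ fH K y}) = ENNReal.ofReal (psi K s - psi K t) := by
  have hs : {y | t ≤ fH K y} ⊆ {y | s ≤ fH K y} := fun _ hy => h.trans hy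
  rw [psi, psi, ← measureReal_diff hs (lev_meas hm t), ofReal_measureReal (measure_ne_top _ _)]

lemma loss {K : Set (W × ℝ)} (hm : MeasurableSet K) {p κ : ℝ} (hp : 0 < p) (hκ : 0 ≤ κ)
    (H : ∀ q, 0 < q → q < p → psi K q - psi K p ≤ log (p / q) * κ) :
    ∫⁻ y, {y | p ≤ fH K y}ᶜ.indicator (fun y => ENNReal.ofReal (fH K y)) y ∂stdGaussian W ≤
      ENNReal.ofReal (4 * p * κ) := by
  set A : ℕ → Set W := fun k => {y | p / 2 ^ (k + 1) ≤ fH K y} \ {y | p ≤ fH K y} with hA
  have hAm : ∀ k, MeasurableSet (A k) := fun k => (lev_meas hm _).diff (lev_meas hm _)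
  have hq : ∀ k : ℕ, p / 2 ^ (k + 1) < p := fun k =>
    div_lt_self hp (one_lt_pow₀ (by norm_num) (by omega))
  have hpt : ∀ y, {y | p ≤ fH K y}ᶜ.indicator (fun y => ENNReal.ofReal (fH K y)) y ≤
      ∑' k, (A k).indicator (fun _ => ENNReal.ofReal (p / 2 ^ k)) y := by
    intro y
    by_cases hy : p ≤ fH K y
    · rw [indicator_of_notMem (by simpa using hy)]; exact zero_le
    rw [indicator_of_mem (by simpa using hy)]
    rcases le_or_gt (fH K y) 0 with h0 | h0
    · rw [ENNReal.ofReal_of_nonpos h0]; exact zero_le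
    have h1 : 1 ≤ p / fH K y := by rw [one_le_div h0]; exact (not_le.1 hy).le
    obtain ⟨k, hk1, hk2⟩ := exists_nat_pow_near h1 (one_lt_two (α := ℝ))
    refine le_trans ?_ (ENNReal.le_tsum k)
    have hyA : y ∈ A k := ⟨by
      change p / 2 ^ (k + 1) ≤ fH K y
      rw [div_lt_iff₀ h0] at hk2
      rw [div_le_iff₀ (by positivity)]; linarith, hy⟩
    rw [indicator_of_mem hyA]
    apply ENNReal.ofReal_le_ofReal
    rw [le_div_iff₀ h0] at hk1
    rw [le_div_iff₀ (by positivity)]; linarith
  have hs : HasSum (fun k : ℕ => p * κ * ((k : ℝ) * (1 / 2) ^ k + (1 / 2) ^ k)) (p * κ * (2 + 2)) := by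
    refine HasSum.mul_left _ (HasSum.add ?_ hasSum_geometric_two)
    have := hasSum_coe_mul_geometric_of_norm_lt_one (𝕜 := ℝ) (r := 1 / 2) (by norm_num)
    have e : (1 / 2 / (1 - 1 / 2) ^ 2 : ℝ) = 2 := by norm_num
    rw [e] at this
    exact this
  calc _ ≤ ∫⁻ y, ∑' k, (A k).indicator (fun _ => ENNReal.ofReal (p / 2 ^ k)) y ∂stdGaussian W :=
        lintegral_mono hpt
    _ = ∑' k, ENNReal.ofReal (p / 2 ^ k) * stdGaussian W (A k) := by
        rw [lintegral_tsum fun k => (measurable_const.indicator (hAm k)).aemeasurable]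
        simp_rw [lintegral_indicator_const (hAm _)]
    _ ≤ ∑' k : ℕ, ENNReal.ofReal (p * κ * ((k : ℝ) * (1 / 2) ^ k + (1 / 2) ^ k)) := by
        refine ENNReal.tsum_le_tsum fun k => ?_
        rw [hA, lev_diff hm (hq k).le, ← ENNReal.ofReal_mul (by positivity)]
        apply ENNReal.ofReal_le_ofReal
        have h1 := H _ (by positivity) (hq k)
        have h2 : log (p / (p / 2 ^ (k + 1))) ≤ k + 1 := by
          have : p / (p / 2 ^ (k + 1)) = 2 ^ (k + 1) := by field_simp
          rw [this, log_pow]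
          have := log_two_lt_d9
          push_cast
          exact mul_le_of_le_one_right (by positivity) (by linarith)
        calc p / 2 ^ k * (psi K (p / 2 ^ (k + 1)) - psi K p) ≤ p / 2 ^ k * ((k + 1) * κ) := by
              gcongr; exact h1.trans (by gcongr)
          _ = _ := by rw [one_div, inv_pow]; field_simp
    _ = ENNReal.ofReal (4 * p * κ) := by
        rw [← ENNReal.ofReal_tsum_of_nonneg (fun k => by positivity) hs.summable, hs.tsum_eq]
        congr 1; ring

lemma exists_R {P : ℝ} (hP : 0 < P) : ∃ R : ℝ, 1 ≤ R ∧ g1.real {t | R < |t|} ≤ P / 16 := by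
  refine ⟨1 + 32 / P * 2, by have : 0 < 32 / P * 2 := by positivity
                             linarith, (tail (by positivity)).trans ?_⟩
  set x := 32 / P with hx
  have x0 : 0 < x := by positivity
  have h1 : exp (-(1 + x * 2) ^ 2 / 2) ≤ exp (-x) := by
    rw [exp_le_exp]; nlinarith
  have h2 : exp (-x) ≤ x⁻¹ := by
    rw [exp_neg]; exact inv_anti₀ x0 (by linarith [add_one_le_exp x])
  have h3 : x⁻¹ = P / 32 := by rw [hx, inv_div]
  linarith

theorem core {P : ℝ} (hP : 0 < P) (hP1 : P ≤ 1) : ∃ r0 : ℝ, 0 < r0 ∧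
    ∀ (W : Type) [NormedAddCommGroup W] [InnerProductSpace ℝ W] [FiniteDimensional ℝ W]
      [MeasurableSpace W] [BorelSpace W] (K S : Set (W × ℝ)), MeasurableSet K → Convex ℝ K →
      MeasurableSet S → P ≤ ((stdGaussian W).prod g1).real K → ∀ r p : ℝ, 0 ≤ r → r ≤ r0 → 0 < p →
      p ≤ 3 * r → (∀ y, p ≤ fH K y → ∀ s, (y, s) ∈ K → ∀ t, |t - s| ≤ r → (y, t) ∈ S) →
      ((stdGaussian W).prod g1) K ≤ ((stdGaussian W).prod g1) S := by
  obtain ⟨R, hR1, hR⟩ := exists_R hP
  set c := gaussianPDFReal 0 1 (R + 1) with hc'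
  have c0 : 0 < c := gaussianPDFReal_pos _ _ _ one_ne_zero
  set ε := c * (P / 32) * (P / 2) / 12 with hε'
  have hε : 0 < ε := by positivity
  set M0 := 16 / ε ^ 2 + 8 / P + 2 * R / ε with hM0
  have h8 : log (8 / P) ≤ 8 / P := (log_le_sub_one_of_pos (by positivity)).trans (by linarith)
  have a1 : 0 < 16 / ε ^ 2 := by positivity
  have a2 : 0 < 8 / P := by positivity
  have a3 : 0 < 2 * R / ε := by positivity
  have a4 : 8 ≤ 8 / P := by rw [le_div_iff₀ hP]; linarith
  have hexp : exp (-M0) ≤ 1 / 4 := by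
    rw [exp_neg, one_div]; exact inv_anti₀ (by norm_num) (by linarith [add_one_le_exp M0])
  refine ⟨P / 2 * exp (-M0) / 3, by positivity, ?_⟩
  intro W _ _ _ _ _ K S hm hc hS hK r p hr hr0 hp hpr H
  have hp2 : p ≤ P / 2 * exp (-M0) := by linarith
  have hp3 : p ≤ P / 8 := hp2.trans (by nlinarith)
  have hr1 : r ≤ 1 := hr0.trans (by nlinarith)
  have hL : M0 ≤ log (P / 2 / p) := by
    rw [le_log_iff_exp_le (by positivity), le_div_iff₀ hp]
    calc exp M0 * p ≤ exp M0 * (P / 2 * exp (-M0)) := by gcongr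
      _ = P / 2 := by rw [exp_neg]; field_simp
  have eK : ((stdGaussian W).prod g1) K = ∫⁻ y, ENNReal.ofReal (fH K y) ∂stdGaussian W := by
    rw [Measure.prod_apply hm]
    simp only [fH, ofReal_measureReal (measure_ne_top _ _)]
  have eS : ((stdGaussian W).prod g1) S = ∫⁻ y, ENNReal.ofReal (fH S y) ∂stdGaussian W := by
    rw [Measure.prod_apply hS]
    simp only [fH, ofReal_measureReal (measure_ne_top _ _)]
  have hb : P / 2 ≤ psi K (P / 2) := by
    have h1 : ((stdGaussian W).prod g1) K ≤ ENNReal.ofReal (P / 2) +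
        stdGaussian W {y | P / 2 ≤ fH K y} := by
      rw [eK]
      calc _ ≤ ∫⁻ y, (ENNReal.ofReal (P / 2) + {y | P / 2 ≤ fH K y}.indicator 1 y) ∂stdGaussian W := by
            refine lintegral_mono fun y => ?_
            by_cases hy : P / 2 ≤ fH K y
            · rw [indicator_of_mem (by simpa using hy)]
              exact le_add_left (ENNReal.ofReal_le_one.2 measureReal_le_one)
            · exact le_add_right (ENNReal.ofReal_le_ofReal (not_le.1 hy).le)
        _ = _ := by
            rw [lintegral_add_left measurable_const, lintegral_indicator_one (lev_meas hm _)]; simp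
    have h2 := ENNReal.toReal_mono (by finiteness) h1
    rw [ENNReal.toReal_add (by finiteness) (by finiteness), ENNReal.toReal_ofReal (by positivity)] at h2
    change ((stdGaussian W).prod g1).real K ≤ P / 2 + psi K (P / 2) at h2
    linarith
  set d := psi K (P / 4) - psi K (P / 2) with hd
  have d0 : 0 ≤ d := sub_nonneg.2 (psi_anti K (by linarith))
  have hloss := loss hm hp (κ := ε / (P / 32) * (d / (P / 2))) (by positivity) fun q hq hqp => by
    have := level hm hc hP hP1 hR1 hR hb hq hqp (by linarith) hε (by linarith) (by linarith)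
      (by linarith)
    rwa [mul_assoc] at this
  set G := {y | P / 4 ≤ fH K y} \ {y | P / 2 ≤ fH K y} with hG
  have hGm : MeasurableSet G := (lev_meas hm _).diff (lev_meas hm _)
  have hpt : ∀ y, ENNReal.ofReal (fH K y) + G.indicator (fun _ => ENNReal.ofReal (c * r)) y ≤
      ENNReal.ofReal (fH S y) +
        {y | p ≤ fH K y}ᶜ.indicator (fun y => ENNReal.ofReal (fH K y)) y := by
    intro y
    by_cases hy : p ≤ fH K y
    · refine le_add_right ?_
      by_cases hyG : y ∈ G
      · rw [indicator_of_mem hyG, ← ENNReal.ofReal_add (show 0 ≤ fH K y from measureReal_nonneg)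
          (by positivity)]
        apply ENNReal.ofReal_le_ofReal
        have g1' : P / 4 ≤ fH K y := hyG.1
        have g2' : fH K y < P / 2 := not_le.1 hyG.2
        unfold fH at g1' g2'
        exact gain (fib_oc hc y) hr hr1 (by linarith) (by linarith) (H y hy)
      · rw [indicator_of_notMem hyG, add_zero]
        exact ENNReal.ofReal_le_ofReal (measureReal_mono
          (fun s hs => H y hy s hs s (by simpa using hr)) (measure_ne_top _ _))
    · have hyG : y ∉ G := fun h => hy (le_trans (by linarith) (show P / 4 ≤ fH K y from h.1))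
      rw [indicator_of_notMem hyG, add_zero, indicator_of_mem (by simpa using hy)]
      exact le_add_self
  have hint := lintegral_mono (μ := stdGaussian W) hpt
  rw [lintegral_add_left (fH_meas hm).ennreal_ofReal, lintegral_add_left (fH_meas hS).ennreal_ofReal,
    ← eK, ← eS, lintegral_indicator_const hGm, hG, lev_diff hm (by linarith),
    ← ENNReal.ofReal_mul (by positivity), ← hd] at hint
  have hfin : 4 * p * (ε / (P / 32) * (d / (P / 2))) ≤ c * r * d := by
    have : ε / (P / 32) * (d / (P / 2)) = c * d / 12 := by rw [hε']; field_simp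
    rw [this]
    have : p * (c * d) ≤ 3 * r * (c * d) := by gcongr
    linarith
  exact (ENNReal.add_le_add_iff_right ENNReal.ofReal_ne_top).1
    (hint.trans (add_le_add le_rfl (hloss.trans (ENNReal.ofReal_le_ofReal hfin))))

end Pool.Agent.H80.Gs
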