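import Pool.Agent.H80.Gs3

namespace Pool.Agent.H80.Gs

open Set MeasureTheory ProbabilityTheory Real
open scoped ENNReal NNReal InnerProductSpace Pointwise

theorem stepS {P : ℝ} (hP : 0 < P) (hP1 : P ≤ 1) : ∃ r0 : ℝ, 0 < r0 ∧
    ∀ (E : Type) [NormedAddCommGroup E] [InnerProductSpace ℝ E] [FiniteDimensional ℝ E]
      [MeasurableSpace E] [BorelSpace E] (K : Set E), IsClosed K → Convex ℝ K →
      P ≤ (stdGaussian E).real K → ∀ (u : E) (p : ℝ), u ≠ 0 → ‖u‖ ≤ r0 → 0 < p → p ≤ 3 * ‖u‖ →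
      ∃ S : Set E, Convex ℝ S ∧ stdGaussian E K ≤ stdGaussian E S ∧ ∀ x ∈ S,
        x ∈ K + segment ℝ (-u) u ∧ ∃ (y : E) (t : ℝ), ⟪y, u⟫_ℝ = 0 ∧ x = y + t • (‖u‖⁻¹ • u) ∧
          p ≤ g1.real {s : ℝ | y + s • (‖u‖⁻¹ • u) ∈ K} := by
  obtain ⟨r0, h0, H⟩ := core hP hP1
  refine ⟨r0, h0, ?_⟩
  intro E _ _ _ _ _ K hK hc hPK u p hu hur hp hpr
  have u0 : 0 < ‖u‖ := norm_pos_iff.2 hu
  set e := ‖u‖⁻¹ • u with he'
  have he : ‖e‖ = 1 := by rw [he', norm_smul, norm_inv, norm_norm, inv_mul_cancel₀ u0.ne']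
  let Φ : ((ℝ ∙ e)ᗮ × ℝ) →ₗ[ℝ] E := ((ℝ ∙ e)ᗮ).subtype.coprod (LinearMap.toSpanSingleton ℝ E e)
  have hΦ : ∀ w : (ℝ ∙ e)ᗮ × ℝ, Φ w = (w.1 : E) + w.2 • e := fun w => rfl
  have hΦc : Continuous Φ := Φ.continuous_of_finiteDimensional
  have hmap : ((stdGaussian (ℝ ∙ e)ᗮ).prod g1).map Φ = stdGaussian E := prod_map he
  have hcl : IsClosed (K + segment ℝ (-u) u) := hK.add_right_of_isCompact (by
    rw [segment_eq_image]; exact isCompact_Icc.image (by fun_prop))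
  have hK' : MeasurableSet (Φ ⁻¹' K) := hΦc.measurable hK.measurableSet
  have hc' : Convex ℝ (Φ ⁻¹' K) := hc.linear_preimage Φ
  set S : Set ((ℝ ∙ e)ᗮ × ℝ) := Prod.fst ⁻¹' {y | p ≤ fH (Φ ⁻¹' K) y} ∩
    Φ ⁻¹' (K + segment ℝ (-u) u) with hS
  have hSm : MeasurableSet S :=
    (measurable_fst (lev_meas hK' p)).inter (hΦc.measurable hcl.measurableSet)
  have hZ : Convex ℝ {y | p ≤ fH (Φ ⁻¹' K) y} := by
    refine convex_iff_forall_pos.2 fun y hy y' hy' a b ha hb hab => ?_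
    refine le_trans ?_ (fH_lc hK' hc' ha hb hab y y')
    have hy1 : p ≤ fH (Φ ⁻¹' K) y := hy
    have hy2 : p ≤ fH (Φ ⁻¹' K) y' := hy'
    calc p = p ^ a * p ^ b := by rw [← rpow_add hp, hab, rpow_one]
      _ ≤ _ := by gcongr; exact rpow_nonneg (hp.le.trans hy1) _
  have hSc : Convex ℝ S := (hZ.linear_preimage (LinearMap.fst ℝ _ _)).inter
    ((hc.add (convex_segment _ _)).linear_preimage Φ)
  have eK : stdGaussian E K = ((stdGaussian (ℝ ∙ e)ᗮ).prod g1) (Φ ⁻¹' K) := by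
    rw [← hmap, Measure.map_apply hΦc.measurable hK.measurableSet]
  refine ⟨Φ '' S, hSc.linear_image Φ, ?_, ?_⟩
  · have h1 := H _ (Φ ⁻¹' K) S hK' hc' hSm (by rw [Measure.real, ← eK]; exact hPK) ‖u‖ p u0.le hur
      hp hpr fun y hy s hs t ht => ⟨hy, Φ (y, s), hs, (t - s) • e, ?_, ?_⟩
    · rw [eK]
      refine h1.trans ((measure_mono (subset_preimage_image Φ S)).trans ?_)
      rw [← hmap]
      exact Measure.le_map_apply hΦc.measurable.aemeasurable _
    · rw [abs_le] at ht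
      have h2 : -1 ≤ (t - s) / ‖u‖ := by rw [le_div_iff₀ u0]; linarith
      have h3 : (t - s) / ‖u‖ ≤ 1 := by rw [div_le_iff₀ u0]; linarith
      refine ⟨(1 - (t - s) / ‖u‖) / 2, (1 + (t - s) / ‖u‖) / 2, by linarith, by linarith,
        by ring, ?_⟩
      rw [he', smul_smul, smul_neg, ← neg_smul, ← add_smul]
      congr 1; ring
    · simp only [hΦ, sub_smul]; abel
  · rintro _ ⟨w, hw, rfl⟩
    refine ⟨hw.2, w.1, w.2, ?_, hΦ w, hw.1⟩
    have h1 : ⟪(w.1 : E), e⟫_ℝ = 0 := Submodule.mem_orthogonal_singleton_iff_inner_left.1 w.1.2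
    have h2 : ⟪(w.1 : E), ‖u‖⁻¹ • u⟫_ℝ = 0 := h1
    rw [inner_smul_right] at h2
    exact (mul_eq_zero.1 h2).resolve_left (inv_ne_zero u0.ne')

/-- one step of vector balancing -/
theorem stepB {P : ℝ} (hP : 0 < P) (hP1 : P ≤ 1) : ∃ r0 : ℝ, 0 < r0 ∧
    ∀ (E : Type) [NormedAddCommGroup E] [InnerProductSpace ℝ E] [FiniteDimensional ℝ E]
      [MeasurableSpace E] [BorelSpace E] (K : Set E), IsClosed K → Convex ℝ K →
      P ≤ (stdGaussian E).real K → ∀ u : E, ‖u‖ ≤ r0 →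
      ∃ S : Set E, IsClosed S ∧ Convex ℝ S ∧ P ≤ (stdGaussian E).real S ∧
        ∀ x ∈ S, x + u ∈ K ∨ x - u ∈ K := by
  obtain ⟨r0, h0, H⟩ := stepS hP hP1
  refine ⟨r0, h0, ?_⟩
  intro E _ _ _ _ _ K hK hc hPK u hur
  by_cases hu : u = 0
  · exact ⟨K, hK, hc, hPK, fun x hx => Or.inl (by simpa [hu] using hx)⟩
  have u0 : 0 < ‖u‖ := norm_pos_iff.2 hu
  obtain ⟨S, hS, h1, h2⟩ := H E K hK hc hPK u (3 * ‖u‖) hu hur (by positivity) le_rfl
  refine ⟨closure S, isClosed_closure, hS.closure, hPK.trans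
    (ENNReal.toReal_mono (measure_ne_top _ _) (h1.trans (measure_mono subset_closure))), ?_⟩
  have hcl : IsClosed ({x | x + u ∈ K} ∪ {x | x - u ∈ K}) :=
    (hK.preimage (by fun_prop)).union (hK.preimage (by fun_prop))
  refine fun x hx => (closure_minimal (fun x hx => ?_) hcl) hx
  obtain ⟨⟨k, hk, v, ⟨a, b, ha, hb, hab, rfl⟩, hx1⟩, y, t, -, hx2, hp⟩ := h2 x hx
  set e := ‖u‖⁻¹ • u with he'
  have hue : u = ‖u‖ • e := by rw [he', smul_smul, mul_inv_cancel₀ u0.ne', one_smul]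
  set I := {s : ℝ | y + s • e ∈ K} with hI
  have hIc : I.OrdConnected := by
    apply Convex.ordConnected
    intro s hs s' hs' a b ha hb hab
    have := hc hs hs' ha hb hab
    change y + (a • s + b • s') • e ∈ K
    convert this using 1
    rw [smul_add, smul_add, add_add_add_comm, ← add_smul, hab, one_smul, add_smul, smul_assoc,
      smul_assoc]
  have hs0 : t - (b - a) * ‖u‖ ∈ I := by
    change y + (t - (b - a) * ‖u‖) • e ∈ K
    have : y + (t - (b - a) * ‖u‖) • e = k := by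
      rw [sub_smul, mul_smul, ← hue, ← add_sub_assoc, ← hx2, ← hx1]
      simp only [smul_neg, sub_smul]; abel
    rw [this]; exact hk
  by_contra hn
  simp only [mem_union, mem_setOf_eq, not_or] at hn
  have n1 : t + ‖u‖ ∉ I := fun h => hn.1 (by
    have h' : y + (t + ‖u‖) • e ∈ K := h
    rwa [add_smul, ← hue, ← add_assoc, ← hx2] at h')
  have n2 : t - ‖u‖ ∉ I := fun h => hn.2 (by
    have h' : y + (t - ‖u‖) • e ∈ K := h
    rwa [sub_smul, ← hue, ← add_sub_assoc, ← hx2] at h')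
  have b1 : t - ‖u‖ ≤ t - (b - a) * ‖u‖ := by nlinarith
  have b2 : t - (b - a) * ‖u‖ ≤ t + ‖u‖ := by nlinarith
  have hsub : I ⊆ Icc (t - ‖u‖) (t - ‖u‖ + 2 * ‖u‖) := fun s hs => by
    constructor
    · by_contra h; exact n2 (hIc.out hs hs0 ⟨(not_le.1 h).le, b1⟩)
    · by_contra h; exact n1 (hIc.out hs0 hs ⟨b2, by linarith [not_le.1 h]⟩)
  have := (measureReal_mono (μ := g1) hsub (measure_ne_top _ _)).trans (g_Icc_le _ _ (by positivity))
  linarith

theorem balance : ∃ r0 : ℝ, 0 < r0 ∧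
    ∀ (E : Type) [NormedAddCommGroup E] [InnerProductSpace ℝ E] [FiniteDimensional ℝ E]
      [MeasurableSpace E] [BorelSpace E] (m : ℕ) (u : Fin m → E), (∀ i, ‖u i‖ ≤ r0) →
      ∀ K : Set E, IsClosed K → Convex ℝ K → 3 / 4 ≤ (stdGaussian E).real K →
      ∃ ε : Fin m → ℝ, (∀ i, ε i = 1 ∨ ε i = -1) ∧ ∑ i, ε i • u i ∈ K := by
  obtain ⟨r0, h0, H⟩ := stepB (P := 3 / 4) (by norm_num) (by norm_num)
  refine ⟨r0, h0, ?_⟩
  intro E _ _ _ _ _ m
  induction m with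
  | zero =>
    intro u _ K hK hc hP
    refine ⟨fun _ => 1, fun _ => Or.inl rfl, ?_⟩
    rw [Finset.univ_eq_empty, Finset.sum_empty]
    have hmap := stdGaussian_map (LinearIsometryEquiv.neg ℝ (E := E))
    have hcn : Continuous fun x : E => -x := continuous_neg
    have h1 : (stdGaussian E).real ((fun x => -x) ⁻¹' K) = (stdGaussian E).real K := by
      conv_rhs => rw [← hmap]
      rw [Measure.real, Measure.real, Measure.map_apply (by fun_prop) hK.measurableSet]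
      rfl
    by_contra hn
    have hd : Disjoint K ((fun x => -x) ⁻¹' K) := by
      refine disjoint_left.2 fun x hx hx' => hn ?_
      have := hc hx hx' (a := 1 / 2) (b := 1 / 2) (by norm_num) (by norm_num) (by norm_num)
      simpa using this
    have h2 := measureReal_union (μ := stdGaussian E) hd (hcn.measurable hK.measurableSet)
    have h3 : (stdGaussian E).real (K ∪ (fun x => -x) ⁻¹' K) ≤ 1 := measureReal_le_one
    linarith
  | succ m ih =>
    intro u hu K hK hc hP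
    obtain ⟨S, h1, h2, h3, h4⟩ := H E K hK hc hP (u 0) (hu 0)
    obtain ⟨ε, hε, hs⟩ := ih (fun i => u i.succ) (fun i => hu _) S h1 h2 h3
    rcases h4 _ hs with h | h
    · refine ⟨Fin.cons 1 ε, fun i => Fin.cases (Or.inl rfl) (fun j => hε j) i, ?_⟩
      rw [Fin.sum_univ_succ]
      simpa [add_comm] using h
    · refine ⟨Fin.cons (-1) ε, fun i => Fin.cases (Or.inr rfl) (fun j => hε j) i, ?_⟩
      rw [Fin.sum_univ_succ]
      simpa [add_comm, sub_eq_add_neg] using h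

end Pool.Agent.H80.Gs
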