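import Mathlib

namespace Pool.Agent.H80.GsD

open Set MeasureTheory ProbabilityTheory
open scoped InnerProductSpace Pointwise Classical

/-- the set `Z_K(u)` -/
def Zset {n : ℕ} (K : Set (EuclideanSpace ℝ (Fin n))) (u : EuclideanSpace ℝ (Fin n)) :
    Set (EuclideanSpace ℝ (Fin n)) :=
  {y | ⟪y, u⟫_ℝ = 0 ∧
    gaussianReal 0 1 (Icc (-‖u‖) ‖u‖) ≤ gaussianReal 0 1 {s : ℝ | y + s • (‖u‖⁻¹ • u) ∈ K}}

/-- the transform `K ∘ u` -/
def circ {n : ℕ} (K : Set (EuclideanSpace ℝ (Fin n))) (u : EuclideanSpace ℝ (Fin n)) :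
    Set (EuclideanSpace ℝ (Fin n)) :=
  if u = 0 then K else
    (K + segment ℝ (-u) u) ∩ (Zset K u + (Submodule.span ℝ {u} : Set (EuclideanSpace ℝ (Fin n))))

/-- the vector balancing constant of the unit ball and `V` -/
noncomputable def beta {n : ℕ} (V : Set (EuclideanSpace ℝ (Fin n))) : EReal :=
  ⨆ u : {u : Fin n → EuclideanSpace ℝ (Fin n) // ∀ i, ‖u i‖ ≤ 1},
    ⨅ ε : {ε : Fin n → ℝ // ∀ i, ε i = 1 ∨ ε i = -1}, ((gauge V (∑ i, ε.1 i • u.1 i) : ℝ) : EReal)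

end Pool.Agent.H80.GsD
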