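import Pool.Agent.H80.Gs4
import Pool.Agent.H80.GsDefs

namespace Pool.Agent.H80.Gs

open Set MeasureTheory ProbabilityTheory Real Pool.Agent.H80.GsD
open scoped ENNReal NNReal InnerProductSpace Pointwise

def Good (P ρ : ℝ) : Prop :=
  ∀ (n : ℕ) (K : Set (EuclideanSpace ℝ (Fin n))), IsClosed K → Convex ℝ K →
    P ≤ (stdGaussian (EuclideanSpace ℝ (Fin n))).real K → ∀ u : EuclideanSpace ℝ (Fin n), ‖u‖ ≤ ρ →
    stdGaussian (EuclideanSpace ℝ (Fin n)) K ≤ stdGaussian (EuclideanSpace ℝ (Fin n)) (circ K u)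

lemma good_ex {P : ℝ} (hP : 0 < P) (hP1 : P ≤ 1) : ∃ N : ℕ, Good P (1 / ((N : ℝ) + 1)) := by
  obtain ⟨r0, h0, H⟩ := stepS hP hP1
  obtain ⟨N, hN⟩ := exists_nat_one_div_lt h0
  refine ⟨N, fun n K hK hc hPK u hur => ?_⟩
  unfold circ
  split_ifs with hu
  · exact le_rfl
  have u0 : 0 < ‖u‖ := norm_pos_iff.2 hu
  have hp1 : g1.real (Icc (-‖u‖) ‖u‖) ≤ 3 * ‖u‖ := by
    have := g_Icc_le (-‖u‖) (2 * ‖u‖) (by positivity)
    rw [show -‖u‖ + 2 * ‖u‖ = ‖u‖ by ring] at this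
    linarith
  have hp0 : 0 < g1.real (Icc (-‖u‖) ‖u‖) := by
    have h1 := g_Ioo_ge (s := 0) (d := ‖u‖) (R := ‖u‖) u0.le fun x hx => by
      rw [zero_add] at hx; rw [abs_of_pos hx.1]; exact hx.2.le
    have h2 : g1.real (Ioo 0 (0 + ‖u‖)) ≤ g1.real (Icc (-‖u‖) ‖u‖) :=
      measureReal_mono (fun x hx => ⟨by linarith [hx.1], by linarith [hx.2]⟩) (measure_ne_top _ _)
    have h3 : 0 < gaussianPDFReal 0 1 ‖u‖ := gaussianPDFReal_pos _ _ _ one_ne_zero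
    exact lt_of_lt_of_le (by positivity) (h1.trans h2)
  obtain ⟨S, -, h1, h2⟩ := H _ K hK hc hPK u _ hu (hur.trans hN.le) hp0 hp1
  refine h1.trans (measure_mono fun x hx => ?_)
  obtain ⟨h3, y, t, h4, h5, h6⟩ := h2 x hx
  refine ⟨h3, y, ⟨h4, (ENNReal.toReal_le_toReal (measure_ne_top _ _) (measure_ne_top _ _)).1 h6⟩,
    t • (‖u‖⁻¹ • u), ?_, h5.symm⟩
  exact Submodule.smul_mem _ _ (Submodule.smul_mem _ _ (Submodule.mem_span_singleton_self u))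

theorem main1 : ∃ r : ℝ → ℝ, StrictMonoOn r (Ioo 0 1) ∧ (∀ p ∈ Ioo (0 : ℝ) 1, 0 < r p) ∧
    ∀ (n : ℕ) (K : Set (EuclideanSpace ℝ (Fin n))), IsClosed K → Convex ℝ K →
      (stdGaussian (EuclideanSpace ℝ (Fin n))).real K ∈ Ioo (0 : ℝ) 1 →
      ∀ u : EuclideanSpace ℝ (Fin n), ‖u‖ ≤ r ((stdGaussian (EuclideanSpace ℝ (Fin n))).real K) →
      stdGaussian (EuclideanSpace ℝ (Fin n)) K ≤
        stdGaussian (EuclideanSpace ℝ (Fin n)) (circ K u) := by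
  let N : ℝ → ℕ := fun P => sInf {N : ℕ | Good P (1 / ((N : ℝ) + 1))}
  have hN : ∀ P ∈ Ioo (0 : ℝ) 1, Good P (1 / ((N P : ℝ) + 1)) := fun P hP =>
    Nat.sInf_mem (s := {N : ℕ | Good P (1 / ((N : ℝ) + 1))}) (good_ex hP.1 hP.2.le)
  refine ⟨fun P => P * (1 / ((N P : ℝ) + 1)), fun P hP Q hQ hPQ => ?_,
    fun P hP => mul_pos hP.1 (by positivity), fun n K hK hc hP u hu => ?_⟩
  · have h1 : N Q ≤ N P := Nat.sInf_le fun n K hK hc hQK => hN P hP n K hK hc (hPQ.le.trans hQK)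
    have h2 : (1 : ℝ) / ((N P : ℝ) + 1) ≤ 1 / ((N Q : ℝ) + 1) := by gcongr
    exact mul_lt_mul hPQ h2 (by positivity) hQ.1.le
  · exact hN _ hP n K hK hc le_rfl u (hu.trans (mul_le_of_le_one_left (by positivity) hP.2.le))

end Pool.Agent.H80.Gs
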