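import Pool.Agent.H80.Gs4
import Pool.Agent.H80.GsDefs

namespace Pool.Agent.H80.Gs

open Set MeasureTheory ProbabilityTheory Real Pool.Agent.H80.GsD Metric
open scoped ENNReal NNReal InnerProductSpace Pointwise

section
variable {E : Type*} [NormedAddCommGroup E] [InnerProductSpace ℝ E] [FiniteDimensional ℝ E]
  [MeasurableSpace E] [BorelSpace E]

lemma ball_sub {V : Set E} (hV : IsClosed V) (hc : Convex ℝ V) (hb : ∫ x in V, x ∂stdGaussian E = 0)
    {p : ℝ} (hp : 0 < p) (hpV : p ≤ (stdGaussian E).real V) : closedBall 0 (p ^ 2 / 8) ⊆ V := by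
  intro x hx
  by_contra hn
  obtain ⟨f, c, h1, h2⟩ := geometric_hahn_banach_closed_point hc hV hn
  set w := (InnerProductSpace.toDual ℝ E).symm f with hw
  have hf : ∀ a, f a = ⟪a, w⟫_ℝ := fun a => by
    rw [real_inner_comm, hw, InnerProductSpace.toDual_symm_apply]
  have hne : V.Nonempty := by
    rcases V.eq_empty_or_nonempty with rfl | h
    · simp at hpV; linarith
    · exact h
  have w0 : w ≠ 0 := by
    intro h
    obtain ⟨a, ha⟩ := hne
    have := h1 a ha
    rw [hf, h, inner_zero_right] at this h2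
    linarith
  have n0 : 0 < ‖w‖ := norm_pos_iff.2 w0
  set e := ‖w‖⁻¹ • w with he'
  have he : ‖e‖ = 1 := by rw [he', norm_smul, norm_inv, norm_norm, inv_mul_cancel₀ n0.ne']
  set ρ := p ^ 2 / 8 with hρ
  have hl : ∀ a ∈ V, ⟪a, e⟫_ℝ ≤ ρ := fun a ha => by
    have h3 : ⟪a, e⟫_ℝ ≤ ⟪x, e⟫_ℝ := by
      rw [he', inner_smul_right, inner_smul_right, ← hf, ← hf]
      have := (h1 a ha).trans h2
      gcongr
    have h4 := real_inner_le_norm x e
    rw [he, mul_one] at h4
    linarith [mem_closedBall_zero_iff.1 hx]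
  have hi : Integrable (fun a : E => a) ((stdGaussian E).restrict V) :=
    (IsGaussian.integrable_id (μ := stdGaussian E)).restrict
  have hi2 : Integrable (fun a : E => ⟪a, e⟫_ℝ) ((stdGaussian E).restrict V) := hi.inner_const e
  have hz : ∫ a in V, ⟪a, e⟫_ℝ ∂stdGaussian E = 0 := by
    simp_rw [real_inner_comm e]
    rw [integral_inner hi, hb, inner_zero_right]
  have hM := mul_meas_ge_le_integral_of_nonneg (μ := (stdGaussian E).restrict V)
    (f := fun a => ρ - ⟪a, e⟫_ℝ)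
    ((ae_restrict_iff' hV.measurableSet).2 (ae_of_all _ fun a ha => sub_nonneg.2 (hl a ha)))
    ((integrable_const _).sub hi2) (p / 2)
  rw [integral_sub (integrable_const _) hi2, hz, sub_zero, setIntegral_const,
    measureReal_restrict_apply' hV.measurableSet, smul_eq_mul] at hM
  have h5 : (stdGaussian E).real ((fun a => ⟪a, e⟫_ℝ) ⁻¹' Icc (ρ - p / 2) (ρ - p / 2 + p / 2)) ≤
      p / 2 := by
    rw [← map_measureReal_apply (by fun_prop) measurableSet_Icc, map_inner he]
    exact g_Icc_le _ _ (by positivity)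
  have h6 : V ⊆ ({a | p / 2 ≤ ρ - ⟪a, e⟫_ℝ} ∩ V) ∪
      (fun a => ⟪a, e⟫_ℝ) ⁻¹' Icc (ρ - p / 2) (ρ - p / 2 + p / 2) := fun a ha => by
    by_cases h : p / 2 ≤ ρ - ⟪a, e⟫_ℝ
    · exact Or.inl ⟨h, ha⟩
    · exact Or.inr ⟨by linarith [not_le.1 h], by linarith [hl a ha]⟩
  have h7 := (measureReal_mono (μ := stdGaussian E) h6 (measure_ne_top _ _)).trans
    (measureReal_union_le _ _)
  have h8 : (stdGaussian E).real V ≤ 1 := measureReal_le_one
  have h9 : (stdGaussian E).real V * ρ ≤ ρ := mul_le_of_le_one_left (by positivity) h8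
  have h10 : p / 2 * (p / 2) ≤ p / 2 * (stdGaussian E).real ({a | p / 2 ≤ ρ - ⟪a, e⟫_ℝ} ∩ V) := by
    gcongr; linarith
  nlinarith

lemma dil {V : Set E} (hV : IsClosed V) (hc : Convex ℝ V) {p ρ : ℝ} (hp : 0 < p) (hρ : 0 < ρ)
    (hpV : p ≤ (stdGaussian E).real V) (hB : closedBall 0 ρ ⊆ V) :
    3 / 4 ≤ (stdGaussian E).real ((1 + 4 / p / ρ) • V) := by
  set t := 4 / p with ht
  have t0 : 0 < t := by positivity
  have p1 : p ≤ 1 := hpV.trans measureReal_le_one
  have l0 : 0 < 1 + t / ρ := by positivity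
  have hm : MeasurableSet ((1 + t / ρ) • V) := (hV.smul_of_ne_zero l0.ne').measurableSet
  have h := conc hV.measurableSet hm.compl t0.le fun x hx y hy => by
    by_contra hn
    apply hy
    have h1 : (ρ / t) • (y - x) ∈ V := hB (by
      rw [mem_closedBall_zero_iff, norm_smul, norm_sub_rev, Real.norm_of_nonneg (by positivity)]
      calc ρ / t * ‖x - y‖ ≤ ρ / t * t := by gcongr; exact (not_le.1 hn).le
        _ = ρ := by field_simp)
    refine ⟨_, hc hx h1 (a := 1 / (1 + t / ρ)) (b := t / ρ / (1 + t / ρ)) (by positivity)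
      (by positivity) (by field_simp), ?_⟩
    simp only [smul_add, smul_smul]
    have e1 : (1 + t / ρ) * (1 / (1 + t / ρ)) = 1 := by field_simp
    have e2 : (1 + t / ρ) * (t / ρ / (1 + t / ρ) * (ρ / t)) = 1 := by field_simp
    rw [e1, e2]; simp
  have t4 : 4 ≤ t := by rw [ht, le_div_iff₀ hp]; linarith
  have h1 : exp (-t ^ 2 / 4) ≤ exp (-t) := by rw [exp_le_exp]; nlinarith
  have h2 : exp (-t) ≤ t⁻¹ := by
    rw [exp_neg]; exact inv_anti₀ t0 (by linarith [add_one_le_exp t])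
  have h3 : t⁻¹ = p / 4 := by rw [ht, inv_div]
  rw [probReal_compl_eq_one_sub hm] at h
  by_contra hn
  have h4 : p * (1 / 4) < (stdGaussian E).real V * (1 - (stdGaussian E).real ((1 + t / ρ) • V)) :=
    mul_lt_mul' hpV (by linarith [not_le.1 hn]) (by norm_num) (by linarith)
  linarith

lemma pos_of_int {V : Set E} (h : (interior V).Nonempty) : 0 < (stdGaussian E).real V := by
  refine ENNReal.toReal_pos (fun h0 => ?_) (measure_ne_top _ _)
  rw [std_eq] at h0
  have := withDensity_absolutelyContinuous' (μ := (volume : Measure E))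
    (meas_dens (E := E) (Module.finrank ℝ E)).ennreal_ofReal.aemeasurable
    (ae_of_all _ fun x => (ENNReal.ofReal_pos.2 (dens_pos _ _)).ne') h0
  exact (Measure.measure_pos_of_nonempty_interior _ h).ne' this
end

theorem main2 : ∃ g : ℝ → ℝ, AntitoneOn g (Ioc 0 1) ∧ (∀ p ∈ Ioc (0 : ℝ) 1, 0 ≤ g p) ∧
    ∀ (n : ℕ) (V : Set (EuclideanSpace ℝ (Fin n))), IsClosed V → Convex ℝ V → (interior V).Nonempty →
      ∫ x in V, x ∂stdGaussian (EuclideanSpace ℝ (Fin n)) = 0 →
      beta V ≤ ((g ((stdGaussian (EuclideanSpace ℝ (Fin n))).real V) : ℝ) : EReal) := by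
  obtain ⟨r0, h0, H⟩ := balance
  refine ⟨fun p => (1 + 4 / p / (p ^ 2 / 8)) / r0, fun p hp q hq hpq => ?_,
    fun p hp => by have := hp.1; positivity, fun n V hV hc hi hb => ?_⟩
  · have := hp.1
    have := hq.1
    simp only
    gcongr
  set p := (stdGaussian (EuclideanSpace ℝ (Fin n))).real V with hp
  have p0 : 0 < p := pos_of_int hi
  have h1 := dil hV hc p0 (by positivity) le_rfl (ball_sub hV hc hb p0 le_rfl)
  set l := 1 + 4 / p / (p ^ 2 / 8) with hl
  have l0 : 0 < l := by positivity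
  refine iSup_le fun u => ?_
  obtain ⟨ε, hε, hs⟩ := H _ n (fun i => r0 • u.1 i) (fun i => by
    rw [norm_smul, Real.norm_of_nonneg h0.le]; exact mul_le_of_le_one_right h0.le (u.2 i))
    (l • V) (hV.smul_of_ne_zero l0.ne') (hc.smul l) h1
  refine iInf_le_of_le ⟨ε, hε⟩ (EReal.coe_le_coe_iff.2 (gauge_le_of_mem (by positivity) ?_))
  obtain ⟨v, hv, e⟩ := hs
  refine ⟨v, hv, ?_⟩
  have e2 : ∑ i, ε i • r0 • u.1 i = r0 • ∑ i, ε i • u.1 i := by
    rw [Finset.smul_sum]; exact Finset.sum_congr rfl fun i _ => smul_comm _ _ _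
  simp only at e ⊢
  rw [e2] at e
  rw [div_eq_inv_mul, mul_smul, e, smul_smul, inv_mul_cancel₀ h0.ne', one_smul]

end Pool.Agent.H80.Gs
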