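import Pool.Agent.H80.Gs6

namespace Pool.Agent.H80.Gs

open Set MeasureTheory ProbabilityTheory Real Pool.Agent.H80.GsD Metric
open scoped ENNReal NNReal InnerProductSpace Pointwise

section
variable {E : Type*} [NormedAddCommGroup E] [InnerProductSpace ℝ E] [FiniteDimensional ℝ E]
  [MeasurableSpace E] [BorelSpace E]

lemma sep {V : Set E} (hV : IsClosed V) (hc : Convex ℝ V) (hne : V.Nonempty) {x : E} (hn : x ∉ V) :
    ∃ e : E, ‖e‖ = 1 ∧ ∀ a ∈ V, ⟪a, e⟫_ℝ ≤ ‖x‖ := by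
  obtain ⟨f, c, h1, h2⟩ := geometric_hahn_banach_closed_point hc hV hn
  set w := (InnerProductSpace.toDual ℝ E).symm f with hw
  have hf : ∀ a, f a = ⟪a, w⟫_ℝ := fun a => by
    rw [real_inner_comm, hw, InnerProductSpace.toDual_symm_apply]
  have w0 : w ≠ 0 := by
    intro h
    obtain ⟨a, ha⟩ := hne
    have := h1 a ha
    rw [hf, h, inner_zero_right] at this h2
    linarith
  have n0 : 0 < ‖w‖ := norm_pos_iff.2 w0
  set e := ‖w‖⁻¹ • w with he'
  have he : ‖e‖ = 1 := by rw [he', norm_smul, norm_inv, norm_norm, inv_mul_cancel₀ n0.ne']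
  refine ⟨e, he, fun a ha => ?_⟩
  have h3 : ⟪a, e⟫_ℝ ≤ ⟪x, e⟫_ℝ := by
    rw [he', inner_smul_right, inner_smul_right, ← hf, ← hf]
    have := (h1 a ha).trans h2
    gcongr
  have h4 := real_inner_le_norm x e
  rw [he, mul_one] at h4
  linarith

lemma mom {V : Set E} (hV : MeasurableSet V) {e : E} (he : ‖e‖ = 1) {ρ p : ℝ} (hρ : 0 ≤ ρ)
    (hp : 0 < p) (hpV : p ≤ (stdGaussian E).real V) (hl : ∀ a ∈ V, ⟪a, e⟫_ℝ ≤ ρ) :
    p ^ 2 / 4 ≤ ρ - ∫ a in V, ⟪a, e⟫_ℝ ∂stdGaussian E := by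
  have hi : Integrable (fun a : E => a) ((stdGaussian E).restrict V) :=
    (IsGaussian.integrable_id (μ := stdGaussian E)).restrict
  have hi2 : Integrable (fun a : E => ⟪a, e⟫_ℝ) ((stdGaussian E).restrict V) := hi.inner_const e
  have hM := mul_meas_ge_le_integral_of_nonneg (μ := (stdGaussian E).restrict V)
    (f := fun a => ρ - ⟪a, e⟫_ℝ)
    ((ae_restrict_iff' hV).2 (ae_of_all _ fun a ha => sub_nonneg.2 (hl a ha)))
    ((integrable_const _).sub hi2) (p / 2)
  rw [integral_sub (integrable_const _) hi2, setIntegral_const,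
    measureReal_restrict_apply' hV, smul_eq_mul] at hM
  have h5 : (stdGaussian E).real ((fun a => ⟪a, e⟫_ℝ) ⁻¹' Icc (ρ - p / 2) (ρ - p / 2 + p / 2)) ≤
      p / 2 := by
    rw [← map_measureReal_apply (by fun_prop) measurableSet_Icc, map_inner he]
    exact g_Icc_le _ _ (by positivity)
  have h6 : V ⊆ ({a | p / 2 ≤ ρ - ⟪a, e⟫_ℝ} ∩ V) ∪
      (fun a => ⟪a, e⟫_ℝ) ⁻¹' Icc (ρ - p / 2) (ρ - p / 2 + p / 2) := fun a ha => by
    by_cases h : p / 2 ≤ ρ - ⟪a, e⟫_ℝ
    · exact Or.inl ⟨h, ha⟩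
    · exact Or.inr ⟨by linarith [not_le.1 h], by linarith [hl a ha]⟩
  have h7 := (measureReal_mono (μ := stdGaussian E) h6 (measure_ne_top _ _)).trans
    (measureReal_union_le _ _)
  have h8 : (stdGaussian E).real V ≤ 1 := measureReal_le_one
  have h9 : (stdGaussian E).real V * ρ ≤ ρ := mul_le_of_le_one_left hρ h8
  have h10 : p / 2 * (p / 2) ≤ p / 2 * (stdGaussian E).real ({a | p / 2 ≤ ρ - ⟪a, e⟫_ℝ} ∩ V) := by
    gcongr; linarith
  nlinarith

lemma set_int {A : Set E} (hA : MeasurableSet A) (G : E → ℝ) :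
    ∫ a in A, G a ∂stdGaussian E = ∫ a in A, dens (Module.finrank ℝ E) ‖a‖ * G a := by
  rw [std_eq, setIntegral_withDensity_eq_setIntegral_toReal_smul (meas_dens _).ennreal_ofReal
    (ae_of_all _ fun _ => ENNReal.ofReal_lt_top) _ hA]
  simp only [ENNReal.toReal_ofReal (dens_pos _ _).le, smul_eq_mul]

lemma shift {W : Set E} (hW : IsCompact W) (v : E) :
    (stdGaussian E).real W - ∫ a in W, ⟪a, v⟫_ℝ ∂stdGaussian E - ‖v‖ ^ 2 / 2 ≤
      (stdGaussian E).real (W + {v}) := by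
  have hm := hW.measurableSet
  have hi : Integrable (fun a : E => a) ((stdGaussian E).restrict W) :=
    (IsGaussian.integrable_id (μ := stdGaussian E)).restrict
  have hi2 : Integrable (fun a : E => ⟪a, v⟫_ℝ) ((stdGaussian E).restrict W) := hi.inner_const v
  have hcd : Continuous fun a : E => dens (Module.finrank ℝ E) ‖a‖ := by unfold dens; fun_prop
  have e1 : (stdGaussian E).real (W + {v}) = ∫ a in W, dens (Module.finrank ℝ E) ‖a + v‖ := by
    have h1 : (stdGaussian E).real (W + {v}) = ∫ _ in W + {v}, (1 : ℝ) ∂stdGaussian E := by simp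
    rw [h1, set_int (hW.add isCompact_singleton).measurableSet, add_singleton,
      (measurePreserving_add_right volume v).setIntegral_image_emb (measurableEmbedding_addRight v)]
    simp
  have e2 : ∫ a in W, (1 - ‖v‖ ^ 2 / 2 - ⟪a, v⟫_ℝ) ∂stdGaussian E =
      (stdGaussian E).real W * (1 - ‖v‖ ^ 2 / 2) - ∫ a in W, ⟪a, v⟫_ℝ ∂stdGaussian E := by
    rw [integral_sub (integrable_const _) hi2, setIntegral_const, smul_eq_mul]
  have h3 : ∫ a in W, (1 - ‖v‖ ^ 2 / 2 - ⟪a, v⟫_ℝ) ∂stdGaussian E ≤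
      ∫ a in W, dens (Module.finrank ℝ E) ‖a + v‖ := by
    rw [set_int hm]
    refine setIntegral_mono_on (ContinuousOn.integrableOn_compact hW (by fun_prop))
      (ContinuousOn.integrableOn_compact hW
        (hcd.comp (continuous_add_right v)).continuousOn) hm fun a _ => ?_
    have : dens (Module.finrank ℝ E) ‖a + v‖ =
        dens (Module.finrank ℝ E) ‖a‖ * exp (-‖v‖ ^ 2 / 2 - ⟪a, v⟫_ℝ) := by
      rw [dens, dens, mul_assoc, ← exp_add, norm_add_sq_real]; congr 2; ring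
    rw [this]
    have h4 := add_one_le_exp (-‖v‖ ^ 2 / 2 - ⟪a, v⟫_ℝ)
    have := (dens_pos (Module.finrank ℝ E) ‖a‖).le
    gcongr; linarith
  have h8 : (stdGaussian E).real W ≤ 1 := measureReal_le_one
  have h9 : (stdGaussian E).real W * (‖v‖ ^ 2 / 2) ≤ ‖v‖ ^ 2 / 2 :=
    mul_le_of_le_one_left (by positivity) h8
  rw [e1]; nlinarith

lemma good_shift {V : Set E} (hV : IsCompact V) (hc : Convex ℝ V) {p : ℝ} (hp : 0 < p) (y : E)
    (hy : p ≤ (stdGaussian E).real (V + {y})) :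
    ∃ x : E, p ≤ (stdGaussian E).real (V + {x}) ∧ closedBall 0 (p ^ 2 / 8) ⊆ V + {x} := by
  set F : E → ℝ := fun x => (stdGaussian E).real (V + {x}) with hF
  have hb : BddAbove (range F) := ⟨1, by rintro _ ⟨x, rfl⟩; exact measureReal_le_one⟩
  have η0 : 0 < p ^ 4 / 128 := by positivity
  obtain ⟨x, hx1, hx2⟩ : ∃ x, p ≤ F x ∧ (⨆ z, F z) - p ^ 4 / 128 < F x := by
    obtain ⟨z, hz⟩ := exists_lt_of_lt_ciSup (show (⨆ z, F z) - p ^ 4 / 128 < ⨆ z, F z by linarith)
    rcases le_total (F y) (F z) with h | h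
    · exact ⟨z, hy.trans h, hz⟩
    · exact ⟨y, hy, hz.trans_le h⟩
  refine ⟨x, hx1, fun q hq => ?_⟩
  by_contra hn
  have hW : IsCompact (V + {x}) := hV.add isCompact_singleton
  have hne : (V + {x}).Nonempty := by
    rcases (V + {x}).eq_empty_or_nonempty with h | h
    · simp only [hF, h, measureReal_empty] at hx1; linarith
    · exact h
  obtain ⟨e, he, hl⟩ := sep hW.isClosed (hc.add (convex_singleton x)) hne hn
  have h1 := mom hW.measurableSet he (ρ := p ^ 2 / 8) (by positivity) hp hx1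
    fun a ha => (hl a ha).trans (mem_closedBall_zero_iff.1 hq)
  have h2 := shift hW ((p ^ 2 / 8) • e)
  simp only [inner_smul_right, integral_const_mul, norm_smul, he, mul_one, Real.norm_eq_abs,
    sq_abs] at h2
  rw [add_assoc, singleton_add_singleton] at h2
  have h3 : F (x + (p ^ 2 / 8) • e) ≤ ⨆ z, F z := le_ciSup hb _
  simp only [hF] at h3 hx2
  have h4 : p ^ 2 / 8 * (p ^ 2 / 8) ≤
      p ^ 2 / 8 * (-∫ a in V + {x}, ⟪a, e⟫_ℝ ∂stdGaussian E) := by gcongr; linarith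
  nlinarith
end

theorem main3 : ∃ f : ℝ → ℝ, AntitoneOn f (Ioo 0 1) ∧ (∀ p ∈ Ioo (0 : ℝ) 1, 0 < f p) ∧
    ∀ (n : ℕ) (V : Set (EuclideanSpace ℝ (Fin n))), IsCompact V → Convex ℝ V →
      (interior V).Nonempty → ∀ y, ∃ x, 0 ∈ interior (V + {x}) ∧
      beta (V + {x}) ≤ ((f ((stdGaussian (EuclideanSpace ℝ (Fin n))).real (V + {y})) : ℝ) : EReal) := by
  obtain ⟨r0, h0, H⟩ := balance
  refine ⟨fun p => (1 + 4 / p / (p ^ 2 / 8)) / r0, fun p hp q hq hpq => ?_,
    fun p hp => by have := hp.1; positivity, fun n V hV hc hi y => ?_⟩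
  · have := hp.1
    have := hq.1
    simp only
    gcongr
  set p := (stdGaussian (EuclideanSpace ℝ (Fin n))).real (V + {y}) with hp
  have p0 : 0 < p := pos_of_int (by
    obtain ⟨z, hz⟩ := hi
    exact ⟨z + y, subset_interior_add_left (add_mem_add hz (mem_singleton y))⟩)
  obtain ⟨x, hx, hB⟩ := good_shift hV hc p0 y le_rfl
  have hW : IsClosed (V + {x}) := (hV.add isCompact_singleton).isClosed
  have hcW : Convex ℝ (V + {x}) := hc.add (convex_singleton x)
  refine ⟨x, mem_interior_iff_mem_nhds.2 (Filter.mem_of_superset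
    (closedBall_mem_nhds _ (by positivity)) hB), ?_⟩
  have h1 := dil hW hcW p0 (by positivity) hx hB
  set l := 1 + 4 / p / (p ^ 2 / 8) with hl
  have l0 : 0 < l := by positivity
  refine iSup_le fun u => ?_
  obtain ⟨ε, hε, hs⟩ := H _ n (fun i => r0 • u.1 i) (fun i => by
    rw [norm_smul, Real.norm_of_nonneg h0.le]; exact mul_le_of_le_one_right h0.le (u.2 i))
    (l • (V + {x})) (hW.smul_of_ne_zero l0.ne') (hcW.smul l) h1
  refine iInf_le_of_le ⟨ε, hε⟩ (EReal.coe_le_coe_iff.2 (gauge_le_of_mem (by positivity) ?_))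
  obtain ⟨v, hv, e⟩ := hs
  refine ⟨v, hv, ?_⟩
  have e2 : ∑ i, ε i • r0 • u.1 i = r0 • ∑ i, ε i • u.1 i := by
    rw [Finset.smul_sum]; exact Finset.sum_congr rfl fun i _ => smul_comm _ _ _
  simp only at e ⊢
  rw [e2] at e
  rw [div_eq_inv_mul, mul_smul, e, smul_smul, inv_mul_cancel₀ h0.ne', one_smul]

end Pool.Agent.H80.Gs
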