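import Mathlib

namespace Pool.Agent.H80.Hilb
open MvPolynomial

variable {k : Type} [Field k]

/-- independence modulo an ideal -/
def Indep {R : Type} [CommRing R] [Algebra k R] {ι : Type} (q : Ideal R) (a : ι → R) : Prop :=
  ∀ F : MvPolynomial ι k, aeval a F ∈ q → F = 0

lemma indep_iff {R : Type} [CommRing R] [Algebra k R] {ι : Type} (q : Ideal R) (a : ι → R) :
    Indep (k := k) q a ↔ AlgebraicIndependent k (fun i => Ideal.Quotient.mk q (a i)) := by
  rw [algebraicIndependent_iff]
  refine forall_congr' fun F => ?_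
  have : aeval (fun i => Ideal.Quotient.mk q (a i)) F = Ideal.Quotient.mk q (aeval a F) := by
    have := (comp_aeval (R := k) a (Ideal.Quotient.mkₐ k q))
    exact (congrArg (fun φ => φ F) this).symm
  rw [this, Ideal.Quotient.eq_zero_iff_mem]

lemma Indep.mono {R : Type} [CommRing R] [Algebra k R] {ι : Type} {q q' : Ideal R} {a : ι → R}
    (h : Indep (k := k) q a) (hq : q' ≤ q) : Indep (k := k) q' a := fun F hF => h F (hq hF)

lemma Indep.step {R : Type} [CommRing R] [Algebra k R] {ι : Type} {q q' : Ideal R} [q'.IsPrime]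
    {a : ι → R} (h : Indep (k := k) q a) (hq : q' ≤ q) {b : R} (hb : b ∈ q) (hb' : b ∉ q') :
    Indep (k := k) q' (fun o : Option ι => o.elim b a) := by
  have h' := (indep_iff q' a).1 (h.mono hq)
  rw [indep_iff]
  have e : (fun o : Option ι => Ideal.Quotient.mk q' (o.elim b a)) =
      fun o : Option ι => o.elim (Ideal.Quotient.mk q' b) (fun i => Ideal.Quotient.mk q' (a i)) := by
    funext o; cases o <;> rfl
  rw [e, h'.option_iff_transcendental]
  intro halg
  have hb0 : Ideal.Quotient.mk q' b ≠ 0 := by rwa [Ne, Ideal.Quotient.eq_zero_iff_mem]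
  obtain ⟨⟨r, hr⟩, hr0, c, hc⟩ := halg.exists_nonzero_dvd (mem_nonZeroDivisors_of_ne_zero hb0)
  rw [Algebra.adjoin_range_eq_range_aeval] at hr
  obtain ⟨F, rfl⟩ := hr
  obtain ⟨c, rfl⟩ := Ideal.Quotient.mk_surjective c
  have e2 : aeval (fun i => Ideal.Quotient.mk q' (a i)) F = Ideal.Quotient.mk q' (aeval a F) := by
    have := (comp_aeval (R := k) a (Ideal.Quotient.mkₐ k q'))
    exact (congrArg (fun φ => φ F) this).symm
  have hc' : Ideal.Quotient.mk q' (aeval a F) = Ideal.Quotient.mk q' (b * c) := by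
    rw [← e2, map_mul]; exact hc
  have : aeval a F ∈ q := by
    have h1 := hq (Ideal.Quotient.eq.1 hc')
    have h2 : b * c ∈ q := q.mul_mem_right _ hb
    simpa using q.add_mem h1 h2
  have hF := h F this
  subst hF
  apply hr0
  ext
  simp

lemma chain_indep {R : Type} [CommRing R] [Algebra k R] :
    ∀ (n : ℕ) (q : Fin (n + 1) → Ideal R), (∀ i, (q i).IsPrime) → StrictMono q →
      ∃ a : Fin n → R, Indep (k := k) (q 0) a := by
  intro n
  induction n with
  | zero =>
    intro q hq _
    refine ⟨Fin.elim0, fun F hF => ?_⟩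
    obtain ⟨c, rfl⟩ := C_surjective (Fin 0) F
    by_contra hc
    have hc' : c ≠ 0 := fun h => hc (by simp [h])
    apply (hq 0).ne_top
    refine Ideal.eq_top_of_isUnit_mem _ hF ?_
    simpa using (IsUnit.mk0 c hc').map (algebraMap k R)
  | succ n ih =>
    intro q hq hm
    obtain ⟨a, ha⟩ := ih (fun i => q i.succ) (fun i => hq _) (hm.comp Fin.strictMono_succ)
    have hlt : q 0 < q (Fin.succ 0) := hm (Fin.succ_pos _)
    obtain ⟨b, hb, hb'⟩ := SetLike.exists_of_lt hlt
    have := hq 0
    have := ha.step hlt.le hb hb'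
    refine ⟨(fun o : Option (Fin n) => o.elim b a) ∘ finSuccEquiv n, ?_⟩
    rw [indep_iff] at this ⊢
    exact this.comp _ (finSuccEquiv n).injective

lemma trdeg_le_of_tangent {A : Type} [CommRing A] [IsDomain A] [Algebra k A]
    [Algebra.FiniteType k A] (m : Ideal A) [hm : m.IsMaximal] {t : ℕ} (y : Fin t → A)
    (hy : ∀ j, y j ∈ m) (h : m ≤ Ideal.span (Set.range y) ⊔ m • m) :
    Algebra.trdeg k A ≤ t := by
  have : IsNoetherianRing A := Algebra.FiniteType.isNoetherianRing k A
  obtain ⟨r, hr1, hr⟩ := Submodule.exists_sub_one_mem_and_smul_le_of_fg_of_le_sup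
    (IsNoetherian.noetherian m) le_rfl h
  have hrm : r ∉ m := fun h' => hm.ne_top ((Ideal.eq_top_iff_one _).2 (by
    simpa using m.sub_mem h' hr1))
  set S := Algebra.adjoin k (Set.range y)
  have : Algebra.FiniteType S A := Algebra.FiniteType.of_restrictScalars_finiteType k S A
  let q : PrimeSpectrum A := ⟨m, hm.isPrime⟩
  have hqf : Algebra.QuasiFiniteAt S q.asIdeal := by
    apply Algebra.QuasiFiniteAt.of_isOpen_singleton_fiber
    rw [isOpen_induced_iff]
    refine ⟨PrimeSpectrum.basicOpen r, (PrimeSpectrum.basicOpen r).isOpen, ?_⟩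
    ext ⟨p, hp⟩
    simp only [Set.mem_preimage, SetLike.mem_coe, PrimeSpectrum.mem_basicOpen,
      Set.mem_singleton_iff, Subtype.mk.injEq]
    constructor
    · intro hrp
      have hyp : Ideal.span (Set.range y) ≤ p.asIdeal := by
        rw [Ideal.span_le]
        rintro _ ⟨j, rfl⟩
        have h1 : (⟨y j, Algebra.subset_adjoin ⟨j, rfl⟩⟩ : S) ∈
            (q.comap (algebraMap S A)).asIdeal := hy j
        have h2 : p.comap (algebraMap S A) = q.comap (algebraMap S A) := hp
        rw [← h2] at h1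
        exact h1
      have : m ≤ p.asIdeal := fun x hx => by
        have : r * x ∈ p.asIdeal := hyp (hr (Submodule.smul_mem_pointwise_smul x r m hx))
        exact (p.isPrime.mem_or_mem this).resolve_left hrp
      exact PrimeSpectrum.ext (hm.eq_of_le p.isPrime.ne_top this).symm
    · rintro rfl
      exact hrm
  have hz := Algebra.ZariskisMainProperty.of_finiteType (R := S) q.asIdeal
  obtain ⟨s, hs, hsi, H⟩ := Algebra.zariskisMainProperty_iff.1 hz
  have hs0 : s ≠ 0 := fun h => hs (h ▸ m.zero_mem)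
  have : Algebra.IsAlgebraic S A := ⟨fun x => by
    obtain ⟨n, hn⟩ := H x
    exact IsAlgebraic.of_mul (mem_nonZeroDivisors_of_ne_zero (pow_ne_zero n hs0))
      (hsi.pow n).isAlgebraic hn.isAlgebraic⟩
  refine (Algebra.IsAlgebraic.trdeg_le_cardinalMk k (Set.range y)).trans ?_
  simpa using Cardinal.mk_range_le (f := y)

lemma le_of_indep_frac {A K : Type} [CommRing A] [IsDomain A] [Algebra k A] [Field K] [Algebra A K]
    [IsFractionRing A K] [Algebra k K] [IsScalarTower k A K] {t n : ℕ}
    (h : Algebra.trdeg k A ≤ t) (z : Fin n → K) (hz : AlgebraicIndependent k z) : n ≤ t := by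
  have : Algebra.IsAlgebraic A K := IsLocalization.isAlgebraic K (nonZeroDivisors A)
  have h1 := trdeg_add_eq (R := k) (S := A) (A := K)
  rw [trdeg_eq_zero (R := A) (A := K), add_zero] at h1
  have h2 := hz.cardinalMk_le_trdeg
  rw [← h1] at h2
  have := h2.trans h
  simpa using this

end Pool.Agent.H80.Hilb
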