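import Mathlib

namespace Pool.Agent.H80.Hilb

/-- The `k`-points of the Hilbert scheme of `d` points of `Spec O`: ideals of colength `d`. -/
def Pts (k O : Type) [Field k] [CommRing O] [Algebra k O] (d : ℕ) : Type :=
  {I : Ideal O // Module.Finite k (O ⧸ I) ∧ Module.finrank k (O ⧸ I) = d}

/-- `c` lists the coordinates of every `f` modulo `I` in the family `β`.  Such `c` exists exactly
when `β` induces a basis of `O ⧸ I` (the standard affine chart of `β`), and then it is unique. -/
def IsCoord {k O : Type} [Field k] [CommRing O] [Algebra k O] {d : ℕ} (β : Fin d → O)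
    (I : Ideal O) (c : O × Fin d → k) : Prop :=
  ∀ f : O, f - ∑ i, c (f, i) • β i ∈ I

/-- The Zariski topology: generated by the principal open sets of the standard affine charts. -/
instance zariski (k O : Type) [Field k] [CommRing O] [Algebra k O] (d : ℕ) :
    TopologicalSpace (Pts k O d) :=
  TopologicalSpace.generateFrom
    {W | ∃ (β : Fin d → O) (P : MvPolynomial (O × Fin d) k),
      W = {I | ∃ c, IsCoord β I.1 c ∧ MvPolynomial.eval c P ≠ 0}}

end Pool.Agent.H80.Hilb
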