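import Mathlib
import Pool.Agent.H80.HilbDefs
import Pool.Agent.H80.HilbAlg

namespace Pool.Agent.H80.Hilb
open MvPolynomial Matrix

variable {k O : Type} [Field k] [CommRing O] [Algebra k O] {d : ℕ}

def D (β : Fin d → O) (P : MvPolynomial (O × Fin d) k) : Set (Pts k O d) :=
  {I | ∃ c, IsCoord β I.1 c ∧ eval c P ≠ 0}

lemma isOpen_D (β : Fin d → O) (P : MvPolynomial (O × Fin d) k) : IsOpen (D β P) :=
  TopologicalSpace.isOpen_generateFrom_of_mem ⟨β, P, rfl⟩

def van (β : Fin d → O) (S : Set (Pts k O d)) : Ideal (MvPolynomial (O × Fin d) k) where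
  carrier := {P | ∀ I ∈ S, ∀ c, IsCoord β I.1 c → eval c P = 0}
  add_mem' := fun ha hb I hI c hc => by simp [ha I hI c hc, hb I hI c hc]
  zero_mem' := fun I hI c hc => by simp
  smul_mem' := fun a P hP I hI c hc => by simp [hP I hI c hc]

lemma IsCoord.mk_eq {β : Fin d → O} {I : Ideal O} {c : O × Fin d → k} (h : IsCoord β I c) (f : O) :
    Ideal.Quotient.mkₐ k I f = ∑ i, c (f, i) • Ideal.Quotient.mkₐ k I (β i) := by
  have := Ideal.Quotient.eq.2 (h f)
  simp only [← map_smul, ← map_sum]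
  exact this

lemma isCoord_of {β : Fin d → O} {I : Ideal O} {c : O × Fin d → k}
    (h : ∀ f, Ideal.Quotient.mkₐ k I f = ∑ i, c (f, i) • Ideal.Quotient.mkₐ k I (β i)) :
    IsCoord β I c := fun f => by
  have := h f
  simp only [← map_smul, ← map_sum] at this
  exact Ideal.Quotient.eq.1 this

lemma IsCoord.li {β : Fin d → O} {I : Pts k O d} {c : O × Fin d → k} (h : IsCoord β I.1 c) :
    LinearIndependent k (fun i => Ideal.Quotient.mkₐ k I.1 (β i)) := by
  apply linearIndependent_of_top_le_span_of_card_eq_finrank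
  · intro z _
    obtain ⟨f, rfl⟩ := Ideal.Quotient.mkₐ_surjective k I.1 z
    rw [h.mk_eq f]
    exact Submodule.sum_mem _ fun i _ => Submodule.smul_mem _ _ (Submodule.subset_span ⟨i, rfl⟩)
  · simp [I.2.2]

lemma IsCoord.ext {β : Fin d → O} {I : Pts k O d} {c : O × Fin d → k} (h : IsCoord β I.1 c)
    {a b : Fin d → k} (hab : ∑ i, a i • Ideal.Quotient.mkₐ k I.1 (β i) =
      ∑ i, b i • Ideal.Quotient.mkₐ k I.1 (β i)) : a = b := by
  funext i
  exact Fintype.linearIndependent_iffₛ.1 h.li a b hab i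

lemma IsCoord.unique {β : Fin d → O} {I : Pts k O d} {c c' : O × Fin d → k} (h : IsCoord β I.1 c)
    (h' : IsCoord β I.1 c') : c = c' := by
  funext ⟨f, i⟩
  exact congrFun (h.ext (a := fun i => c (f, i)) (b := fun i => c' (f, i))
    ((h.mk_eq f).symm.trans (h'.mk_eq f))) i

lemma exists_chart (I : Pts k O d) : ∃ (β : Fin d → O) (c : O × Fin d → k), IsCoord β I.1 c := by
  have := I.2.1
  let b := Module.finBasisOfFinrankEq k (O ⧸ I.1) I.2.2
  choose β hβ using fun i => Ideal.Quotient.mkₐ_surjective k I.1 (b i)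
  refine ⟨β, fun p => b.repr (Ideal.Quotient.mkₐ k I.1 p.1) p.2, isCoord_of fun f => ?_⟩
  simp only [hβ]
  exact (b.sum_repr _).symm

noncomputable def Mx (k : Type) [Field k] (β' : Fin d → O) :
    Matrix (Fin d) (Fin d) (MvPolynomial (O × Fin d) k) := Matrix.of fun i j => X (β' j, i)

def Mc (c : O × Fin d → k) (β' : Fin d → O) : Matrix (Fin d) (Fin d) k :=
  Matrix.of fun i j => c (β' j, i)

lemma eval_Mx (c : O × Fin d → k) (β' : Fin d → O) : (eval c).mapMatrix (Mx k β') = Mc c β' := by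
  ext i j; simp [Mx, Mc]

lemma eval_det (c : O × Fin d → k) (β' : Fin d → O) : eval c (Mx k β').det = (Mc c β').det := by
  rw [RingHom.map_det, eval_Mx]

lemma sum_Mc {β β' : Fin d → O} {I : Ideal O} {c : O × Fin d → k} (h : IsCoord β I c)
    (a : Fin d → k) : ∑ j, a j • Ideal.Quotient.mkₐ k I (β' j) =
      ∑ i, (Mc c β' *ᵥ a) i • Ideal.Quotient.mkₐ k I (β i) := by
  simp only [fun j => h.mk_eq (β' j), Finset.smul_sum, smul_smul, mulVec, dotProduct, Mc,
    Matrix.of_apply, Finset.sum_smul]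
  rw [Finset.sum_comm]
  simp only [mul_comm]

lemma Mc_mulVec {β β' : Fin d → O} {I : Pts k O d} {c c' : O × Fin d → k} (h : IsCoord β I.1 c)
    (h' : IsCoord β' I.1 c') (f : O) :
    Mc c β' *ᵥ (fun j => c' (f, j)) = fun i => c (f, i) :=
  h.ext (by rw [← sum_Mc h, ← h'.mk_eq, ← h.mk_eq])

lemma det_ne {β β' : Fin d → O} {I : Pts k O d} {c c' : O × Fin d → k} (h : IsCoord β I.1 c)
    (h' : IsCoord β' I.1 c') : (Mc c β').det ≠ 0 := by
  intro h0
  obtain ⟨v, hv, hv0⟩ := Matrix.exists_mulVec_eq_zero_iff.2 h0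
  apply hv
  refine h'.ext (b := 0) ?_
  rw [sum_Mc h, hv0]
  simp

lemma exists_coord {β β' : Fin d → O} {I : Ideal O} {c : O × Fin d → k} (h : IsCoord β I c)
    (hd : (Mc c β').det ≠ 0) : ∃ c' : O × Fin d → k, IsCoord β' I c' := by
  refine ⟨fun p => ((Mc c β')⁻¹ *ᵥ fun i => c (p.1, i)) p.2, isCoord_of fun f => ?_⟩
  refine Eq.trans ?_ (sum_Mc h ((Mc c β')⁻¹ *ᵥ fun i => c (f, i))).symm
  rw [mulVec_mulVec, mul_nonsing_inv _ (IsUnit.mk0 _ hd), one_mulVec]
  exact h.mk_eq f

noncomputable def psi0 (k : Type) [Field k] (β' : Fin d → O) :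
    MvPolynomial (O × Fin d) k →ₐ[k] Localization.Away (Mx k β').det :=
  aeval fun p => algebraMap (MvPolynomial (O × Fin d) k) _
    (((Mx k β').adjugate *ᵥ fun i => X (p.1, i)) p.2) * IsLocalization.Away.invSelf (Mx k β').det

lemma transition (β β' : Fin d → O) (Q : MvPolynomial (O × Fin d) k) :
    ∃ (N : ℕ) (Q'' : MvPolynomial (O × Fin d) k),
      psi0 k β' Q * algebraMap (MvPolynomial (O × Fin d) k) _ (Mx k β').det ^ N =
        algebraMap _ _ Q'' ∧
      ∀ (I : Pts k O d) c c', IsCoord β I.1 c → IsCoord β' I.1 c' →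
        eval c Q'' = (Mc c β').det ^ N * eval c' Q := by
  obtain ⟨N, Q'', h⟩ := IsLocalization.Away.surj (Mx k β').det (psi0 k β' Q)
  refine ⟨N, Q'', h, fun I c c' hc hc' => ?_⟩
  have hd := det_ne hc hc'
  have hu : IsUnit (eval c (Mx k β').det) := by rw [eval_det]; exact IsUnit.mk0 _ hd
  let L : Localization.Away (Mx k β').det →+* k := IsLocalization.Away.lift _ hu
  have hL : ∀ P, L (algebraMap _ _ P) = eval c P := fun P => IsLocalization.Away.lift_eq _ hu P
  have hinv : L (IsLocalization.Away.invSelf (Mx k β').det) = ((Mc c β').det)⁻¹ := by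
    have := congrArg L (IsLocalization.Away.mul_invSelf (S := Localization.Away (Mx k β').det)
      (Mx k β').det)
    rw [map_mul, hL, eval_det, map_one] at this
    exact eq_inv_of_mul_eq_one_right this
  have key : L.comp (psi0 k β').toRingHom = eval c' := by
    apply MvPolynomial.ringHom_ext
    · intro a
      have : psi0 k β' (C a) = algebraMap (MvPolynomial (O × Fin d) k) _ (C a) := by
        rw [← algebraMap_eq, AlgHom.commutes, ← IsScalarTower.algebraMap_apply]
      simp only [RingHom.comp_apply, AlgHom.toRingHom_eq_coe, RingHom.coe_coe, this, hL, eval_C]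
    · rintro ⟨f, j⟩
      simp only [RingHom.comp_apply, AlgHom.toRingHom_eq_coe, RingHom.coe_coe, psi0, aeval_X,
        map_mul, hL, hinv, eval_X]
      have e1 : eval c (((Mx k β').adjugate *ᵥ fun i => X (f, i)) j) =
          ((Mc c β').adjugate *ᵥ fun i => c (f, i)) j := by
        rw [← eval_Mx, ← RingHom.map_adjugate]
        simp [mulVec, dotProduct]
      rw [e1, ← Mc_mulVec hc hc' f, mulVec_mulVec, adjugate_mul]
      simp only [smul_mulVec, one_mulVec, Pi.smul_apply, smul_eq_mul]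
      field_simp
  have h2 := congrArg L h
  rw [map_mul, map_pow, hL, hL, eval_det] at h2
  have h3 : L (psi0 k β' Q) = eval c' Q := congrArg (fun φ => φ Q) key
  rw [← h2, h3, mul_comm]

lemma basis_lemma (β : Fin d → O) {W : Set (Pts k O d)} (hW : IsOpen W) :
    ∀ z ∈ W, ∀ c, IsCoord β z.1 c → ∃ P, eval c P ≠ 0 ∧ D β P ⊆ W := by
  have hW' : TopologicalSpace.GenerateOpen _ W := hW
  clear hW
  induction hW' with
  | basic W hW =>
    obtain ⟨β', Q, rfl⟩ := hW
    rintro z ⟨c', hc', hQ⟩ c hc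
    obtain ⟨N, Q'', -, h⟩ := transition β β' Q
    refine ⟨(Mx k β').det * Q'', ?_, ?_⟩
    · rw [map_mul, eval_det, h z c c' hc hc']
      have := det_ne hc hc'
      exact mul_ne_zero this (mul_ne_zero (pow_ne_zero _ this) hQ)
    · rintro w ⟨e, he, hne⟩
      rw [map_mul, eval_det] at hne
      obtain ⟨e', he'⟩ := exists_coord he (left_ne_zero_of_mul hne)
      refine ⟨e', he', ?_⟩
      have := right_ne_zero_of_mul hne
      rw [h w e e' he he'] at this
      exact right_ne_zero_of_mul this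
  | univ => exact fun z _ c _ => ⟨1, by simp, Set.subset_univ _⟩
  | inter W W' _ _ ih ih' =>
    intro z hz c hc
    obtain ⟨P, hP, hPW⟩ := ih z hz.1 c hc
    obtain ⟨P', hP', hPW'⟩ := ih' z hz.2 c hc
    refine ⟨P * P', by simp [hP, hP'], ?_⟩
    rintro w ⟨e, he, hne⟩
    rw [map_mul] at hne
    exact ⟨hPW ⟨e, he, left_ne_zero_of_mul hne⟩, hPW' ⟨e, he, right_ne_zero_of_mul hne⟩⟩
  | sUnion S _ ih =>
    rintro z ⟨W, hW, hz⟩ c hc
    obtain ⟨P, hP, hPW⟩ := ih W hW z hz c hc
    exact ⟨P, hP, hPW.trans (Set.subset_sUnion_of_mem hW)⟩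

lemma not_mem_van {β : Fin d → O} {S : Set (Pts k O d)} {P : MvPolynomial (O × Fin d) k} :
    P ∉ van β S ↔ (S ∩ D β P).Nonempty := by
  constructor
  · intro h
    by_contra h'
    exact h fun I hI c hc => by_contra fun hne => h' ⟨I, hI, c, hc, hne⟩
  · rintro ⟨I, hI, c, hc, hne⟩ h
    exact hne (h I hI c hc)

lemma van_prime {β : Fin d → O} {S : Set (Pts k O d)} (hS : IsPreirreducible S) {z : Pts k O d}
    (hz : z ∈ S) {c : O × Fin d → k} (hc : IsCoord β z.1 c) : (van β S).IsPrime := by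
  constructor
  · rw [Ideal.ne_top_iff_one]
    exact not_mem_van.2 ⟨z, hz, c, hc, by simp⟩
  · intro P Q hPQ
    by_contra! h
    obtain ⟨w, hw, ⟨e, he, hP⟩, ⟨e', he', hQ⟩⟩ := hS _ _ (isOpen_D β P) (isOpen_D β Q)
      (not_mem_van.1 h.1) (not_mem_van.1 h.2)
    obtain rfl := he.unique he'
    have := hPQ w hw e he
    rw [map_mul] at this
    exact mul_ne_zero hP hQ this

lemma van_anti (β : Fin d → O) {S T : Set (Pts k O d)} (h : S ⊆ T) : van β T ≤ van β S :=
  fun _ hP I hI => hP I (h hI)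

lemma van_lt {β : Fin d → O} {S T : Set (Pts k O d)} (hS : IsClosed S) (hT : IsPreirreducible T)
    (h : S ⊂ T) {z : Pts k O d} (hz : z ∈ S) {c : O × Fin d → k} (hc : IsCoord β z.1 c) :
    van β T < van β S := by
  refine lt_of_le_of_ne (van_anti β h.1) fun he => ?_
  obtain ⟨w, hwT, hwS⟩ := Set.exists_of_ssubset h
  obtain ⟨v, hvT, hvS, e, he', -⟩ := hT _ _ hS.isOpen_compl (isOpen_D β 1) ⟨w, hwT, hwS⟩
    ⟨z, h.1 hz, c, hc, by simp⟩
  obtain ⟨P, hP, hPS⟩ := basis_lemma β hS.isOpen_compl v hvS e he'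
  have h1 : P ∈ van β S := by
    by_contra h'
    obtain ⟨u, hu, hu'⟩ := not_mem_van.1 h'
    exact hPS hu' hu
  rw [← he] at h1
  exact hP (h1 v hvT e he')

/-- independent functions in one chart give independent rational functions in another one -/
lemma indep_le {β β' : Fin d → O} {Z : Set (Pts k O d)} (hZ : IsPreirreducible Z)
    {x y : Pts k O d} (hx : x ∈ Z) (hy : y ∈ Z) {c c' : O × Fin d → k} (hc : IsCoord β x.1 c)
    (hc' : IsCoord β' y.1 c') {t n : ℕ}
    (ht : Algebra.trdeg k (MvPolynomial (O × Fin d) k ⧸ van β Z) ≤ t)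
    {a : Fin n → MvPolynomial (O × Fin d) k} (ha : Indep (k := k) (van β' Z) a) : n ≤ t := by
  have hp := van_prime hZ hx hc
  let A := MvPolynomial (O × Fin d) k ⧸ van β Z
  let K := FractionRing A
  let g : MvPolynomial (O × Fin d) k →ₐ[k] K :=
    (IsScalarTower.toAlgHom k A K).comp (Ideal.Quotient.mkₐ k _)
  have hg : ∀ P, g P = 0 → P ∈ van β Z := fun P hP => by
    have : Ideal.Quotient.mk (van β Z) P = 0 := IsFractionRing.injective A K (by
      rw [map_zero]; exact hP)
    exact Ideal.Quotient.eq_zero_iff_mem.1 this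
  have hs : (Mx k β').det ∉ van β Z := by
    obtain ⟨w, hw, ⟨e, he, -⟩, ⟨e', he', -⟩⟩ := hZ _ _ (isOpen_D β 1) (isOpen_D β' 1)
      ⟨x, hx, c, hc, by simp⟩ ⟨y, hy, c', hc', by simp⟩
    exact not_mem_van.2 ⟨w, hw, e, he, by rw [eval_det]; exact det_ne he he'⟩
  have hu : IsUnit (g (Mx k β').det) := IsUnit.mk0 _ fun h => hs (hg _ h)
  let L : Localization.Away (Mx k β').det →ₐ[k] K := IsLocalization.Away.liftAlgHom _ hu
  have hL : ∀ P, L (algebraMap _ _ P) = g P := fun P => IsLocalization.Away.lift_eq _ hu P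
  let ψ := L.comp (psi0 k β')
  have hψ : ∀ Q, ψ Q = 0 → Q ∈ van β' Z := fun Q hQ => by
    obtain ⟨N, Q'', h1, h2⟩ := transition β β' Q
    have h3 := congrArg L h1
    rw [map_mul, hL] at h3
    have h4 : L (psi0 k β' Q) = 0 := hQ
    rw [h4, zero_mul] at h3
    have h5 := hg _ h3.symm
    by_contra hQ'
    obtain ⟨w, hw, ⟨e, he, -⟩, ⟨e', he', hne⟩⟩ := hZ _ _ (isOpen_D β 1) (isOpen_D β' Q)
      ⟨x, hx, c, hc, by simp⟩ (not_mem_van.1 hQ')
    have h6 := h5 w hw e he
    rw [h2 w e e' he he'] at h6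
    exact mul_ne_zero (pow_ne_zero _ (det_ne he he')) hne h6
  refine le_of_indep_frac (A := A) (K := K) ht (fun i => ψ (a i)) ?_
  rw [algebraicIndependent_iff]
  intro F hF
  refine ha F (hψ _ ?_)
  rw [← hF]
  exact congrArg (fun φ => φ F) (comp_aeval (R := k) a ψ)

lemma dim_le {β : Fin d → O} {Z : Set (Pts k O d)} (hZ : IsPreirreducible Z) (hZc : IsClosed Z)
    {x : Pts k O d} (hx : x ∈ Z) {c : O × Fin d → k} (hc : IsCoord β x.1 c) {t : ℕ}
    (ht : Algebra.trdeg k (MvPolynomial (O × Fin d) k ⧸ van β Z) ≤ t) :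
    topologicalKrullDim Z ≤ t := by
  unfold topologicalKrullDim Order.krullDim
  refine iSup_le fun s => ?_
  let G : Fin (s.length + 1) → Set (Pts k O d) := fun i => Subtype.val '' (s i : Set Z)
  have hGi : ∀ i, IsIrreducible (G i) := fun i =>
    (s i).isIrreducible.image _ continuous_subtype_val.continuousOn
  have hGc : ∀ i, IsClosed (G i) := fun i => hZc.isClosedMap_subtype_val _ (s i).isClosed
  have hGm : StrictMono G := fun i j hij => by
    have : (s i : Set Z) ⊂ s j := s.strictMono hij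
    exact Subtype.val_injective.image_strictMono this
  have hGZ : ∀ i, G i ⊆ Z := fun i => Subtype.coe_image_subset _ _
  obtain ⟨y, hy⟩ := (hGi 0).nonempty
  obtain ⟨β', c', hc'⟩ := exists_chart y
  have hyi : ∀ i, y ∈ G i := fun i => hGm.monotone (Fin.zero_le i) hy
  obtain ⟨a, ha⟩ := chain_indep (k := k) s.length (fun i => van β' (G i.rev))
    (fun i => van_prime (hGi _).2 (hyi _) hc')
    (fun i j hij => van_lt (hGc _) (hGi _).2 (hGm (Fin.rev_lt_rev.2 hij)) (hyi _) hc')
  have := indep_le hZ hx (hGZ 0 hy) hc hc' ht (ha.mono (van_anti β' (hGZ _)))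
  exact_mod_cast this

end Pool.Agent.H80.Hilb
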