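import Mathlib
import Pool.Agent.H80.HilbDefs

namespace Pool.Agent.H80.Hilb

/-- The locus of `d` distinct points of affine `n`-space. -/
def Red (k : Type) [Field k] (n d : ℕ) : Set (Pts k (MvPolynomial (Fin n) k) d) :=
  {I | ∃ p : Fin d → Fin n → k, Function.Injective p ∧
    ∀ f, f ∈ I.1 ↔ ∀ i, MvPolynomial.eval (p i) f = 0}

/-- The smoothable component: the closure of the locus of `d` distinct points. -/
def Smoothable (k : Type) [Field k] (n d : ℕ) : Set (Pts k (MvPolynomial (Fin n) k) d) :=
  closure (Red k n d)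

/-- The very compressed locus: for the integer `s` with `C(n+s-1,n) < d ≤ C(n+s,n)`, the ideals
of colength `d` between the powers `s + 1` and `s` of the maximal ideal of some point `v`. -/
def VC (k : Type) [Field k] (n d : ℕ) : Set (Pts k (MvPolynomial (Fin n) k) d) :=
  {I | ∃ (s : ℕ) (v : Fin n → k), (n + s - 1).choose n < d ∧ d ≤ (n + s).choose n ∧
    RingHom.ker (MvPolynomial.eval v) ^ (s + 1) ≤ I.1 ∧ I.1 ≤ RingHom.ker (MvPolynomial.eval v) ^ s}

end Pool.Agent.H80.Hilb
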