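import Mathlib
import Pool.Agent.H80.HilbChart

namespace Pool.Agent.H80.Hilb
open MvPolynomial Matrix

variable {k O : Type} [Field k] [CommRing O] [Algebra k O] {d : ℕ}

section pointwise
variable {β : Fin d → O} {I : Pts k O d} {c : O × Fin d → k} (h : IsCoord β I.1 c)
include h

lemma IsCoord.add (f g : O) (i : Fin d) : c (f + g, i) = c (f, i) + c (g, i) :=
  congrFun (h.ext (a := fun i => c (f + g, i)) (b := fun i => c (f, i) + c (g, i)) (by
    simp only [add_smul, Finset.sum_add_distrib]
    rw [← h.mk_eq, ← h.mk_eq, ← h.mk_eq, map_add])) i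

lemma IsCoord.smul (a : k) (f : O) (i : Fin d) : c (a • f, i) = a * c (f, i) :=
  congrFun (h.ext (a := fun i => c (a • f, i)) (b := fun i => a * c (f, i)) (by
    simp only [mul_smul, ← Finset.smul_sum]
    rw [← h.mk_eq, ← h.mk_eq, map_smul])) i

lemma IsCoord.self (j i : Fin d) : c (β j, i) = if i = j then 1 else 0 :=
  congrFun (h.ext (a := fun i => c (β j, i)) (b := fun i => if i = j then 1 else 0) (by
    rw [← h.mk_eq]; simp)) i

lemma IsCoord.of_mem {f : O} (hf : f ∈ I.1) (i : Fin d) : c (f, i) = 0 :=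
  congrFun (h.ext (a := fun i => c (f, i)) (b := fun _ => 0) (by
    rw [← h.mk_eq]; simpa using Ideal.Quotient.eq_zero_iff_mem.2 hf)) i

lemma IsCoord.mul (f g : O) (l : Fin d) : c (f * g, l) = ∑ i, c (f, i) * c (β i * g, l) :=
  congrFun (h.ext (a := fun l => c (f * g, l)) (b := fun l => ∑ i, c (f, i) * c (β i * g, l)) (by
    rw [← h.mk_eq, map_mul, h.mk_eq f]
    simp only [Finset.sum_smul, Finset.sum_mul, mul_smul]
    rw [Finset.sum_comm]
    refine Finset.sum_congr rfl fun i _ => ?_
    rw [← Finset.smul_sum, ← h.mk_eq, map_mul, smul_mul_assoc])) l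

end pointwise

noncomputable def cA (β : Fin d → O) (Z : Set (Pts k O d)) (f : O) (i : Fin d) :
    MvPolynomial (O × Fin d) k ⧸ van β Z := Ideal.Quotient.mkₐ k _ (X (f, i))

lemma mk_eq_of {β : Fin d → O} {Z : Set (Pts k O d)} {P Q : MvPolynomial (O × Fin d) k}
    (h : ∀ (I : Pts k O d) c, IsCoord β I.1 c → eval c P = eval c Q) :
    Ideal.Quotient.mkₐ k (van β Z) P = Ideal.Quotient.mkₐ k (van β Z) Q :=
  Ideal.Quotient.eq.2 fun I _ c hc => by rw [map_sub, h I c hc, sub_self]

variable (β : Fin d → O) (Z : Set (Pts k O d))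

lemma cA_add (f g : O) (i : Fin d) : cA β Z (f + g) i = cA β Z f i + cA β Z g i := by
  unfold cA; rw [← map_add]; exact mk_eq_of fun I c hc => by simp [hc.add]

lemma cA_smul (a : k) (f : O) (i : Fin d) : cA β Z (a • f) i = a • cA β Z f i := by
  unfold cA; rw [← map_smul]; exact mk_eq_of fun I c hc => by simp [hc.smul]

lemma cA_self (j i : Fin d) : cA β Z (β j) i = algebraMap k _ (if i = j then 1 else 0) := by
  unfold cA; rw [← (Ideal.Quotient.mkₐ k (van β Z)).commutes]
  exact mk_eq_of fun I c hc => by rw [eval_X, hc.self, algebraMap_eq, eval_C]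

lemma cA_mul (f g : O) (l : Fin d) :
    cA β Z (f * g) l = ∑ i, cA β Z f i * cA β Z (β i * g) l := by
  unfold cA; simp only [← map_mul, ← map_sum]
  exact mk_eq_of fun I c hc => by simp [hc.mul f g l]

lemma finiteType_chart [hO : Algebra.FiniteType k O] :
    Algebra.FiniteType k (MvPolynomial (O × Fin d) k ⧸ van β Z) := by
  classical
  obtain ⟨G, hG⟩ := hO.out
  let s : Finset (MvPolynomial (O × Fin d) k ⧸ van β Z) :=
    (Finset.univ.image fun l => cA β Z 1 l) ∪
      ((G ×ˢ (Finset.univ : Finset (Fin d × Fin d))).image fun p => cA β Z (β p.2.1 * p.1) p.2.2)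
  let T := Algebra.adjoin k (s : Set (MvPolynomial (O × Fin d) k ⧸ van β Z))
  have h1 : ∀ a : O, ∀ f, (∀ l, cA β Z f l ∈ T) → ∀ l, cA β Z (f * a) l ∈ T := by
    intro a
    have ha : a ∈ Algebra.adjoin k (G : Set O) := hG ▸ Algebra.mem_top
    induction ha using Algebra.adjoin_induction with
    | mem g hg =>
      intro f hf l
      rw [cA_mul]
      refine T.sum_mem fun i _ => T.mul_mem (hf i) (Algebra.subset_adjoin ?_)
      simp only [s, Finset.coe_union, Finset.coe_image]
      exact Or.inr ⟨(g, i, l), by simpa using hg, rfl⟩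
    | algebraMap r =>
      intro f hf l
      rw [mul_comm, ← Algebra.smul_def, cA_smul]
      exact T.smul_mem (hf l) r
    | add a b _ _ iha ihb =>
      intro f hf l
      rw [mul_add, cA_add]
      exact T.add_mem (iha f hf l) (ihb f hf l)
    | mul a b _ _ iha ihb =>
      intro f hf l
      rw [← mul_assoc]
      exact ihb _ (iha f hf) l
  have h2 : ∀ f l, cA β Z f l ∈ T := fun f l => by
    have := h1 f 1 (fun l => Algebra.subset_adjoin (by
      simp only [s, Finset.coe_union, Finset.coe_image]
      exact Or.inl ⟨l, by simp, rfl⟩)) l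
    rwa [one_mul] at this
  refine ⟨s, eq_top_iff.2 fun z _ => ?_⟩
  obtain ⟨P, rfl⟩ := Ideal.Quotient.mkₐ_surjective k _ z
  induction P using MvPolynomial.induction_on with
  | C a => rw [← algebraMap_eq, AlgHom.commutes]; exact T.algebraMap_mem a
  | add P Q hP hQ => rw [map_add]; exact T.add_mem (hP trivial) (hQ trivial)
  | mul_X P v hP => rw [map_mul]; exact T.mul_mem (hP trivial) (h2 v.1 v.2)

variable {β Z}

lemma trdeg_chart [Algebra.FiniteType k O] (hZ : IsPreirreducible Z) {x : Pts k O d} (hx : x ∈ Z)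
    {c : O × Fin d → k} (hc : IsCoord β x.1 c) {t : ℕ} (y : Fin t → O × Fin d)
    (hy : ∀ j, (y j).1 ∈ x.1)
    (H : ∀ (B : Type) [AddCommGroup B] [Module k B] (u : O →ₗ[k] (Fin d → B)),
      (∀ j, u (β j) = 0) → (∀ f ∈ x.1, ∀ g l, u (f * g) l = ∑ i, c (β i * g, l) • u f i) →
      (∀ j, u (y j).1 (y j).2 = 0) → u = 0) :
    Algebra.trdeg k (MvPolynomial (O × Fin d) k ⧸ van β Z) ≤ t := by
  have hp := van_prime hZ hx hc
  have := finiteType_chart β Z
  let A := MvPolynomial (O × Fin d) k ⧸ van β Z
  let ev : A →ₐ[k] k := Ideal.Quotient.liftₐ (van β Z) (aeval c) fun P hP => by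
    rw [aeval_eq_eval]; exact hP x hx c hc
  have hev : ∀ f i, ev (cA β Z f i) = c (f, i) := fun f i => by
    change aeval c (X (f, i) : MvPolynomial (O × Fin d) k) = _
    simp
  let m : Ideal A := RingHom.ker ev
  have hm : m.IsMaximal := RingHom.ker_isMaximal_of_surjective _ fun a => ⟨algebraMap k A a, by simp⟩
  have hδ : ∀ f i, cA β Z f i - algebraMap k A (c (f, i)) ∈ m := fun f i => by
    change ev _ = 0
    rw [map_sub, hev, AlgHom.commutes]; simp
  let yA : Fin t → A := fun j => cA β Z (y j).1 (y j).2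
  let J : Ideal A := Ideal.span (Set.range yA) ⊔ m • m
  let π := Ideal.Quotient.mkₐ k J
  let u : O →ₗ[k] (Fin d → A ⧸ J) :=
    { toFun := fun f i => π (cA β Z f i - algebraMap k A (c (f, i)))
      map_add' := fun f g => by
        funext i
        simp only [cA_add, hc.add, map_add, Pi.add_apply, map_sub]
        ring
      map_smul' := fun a f => by
        funext i
        simp only [cA_smul, hc.smul, Pi.smul_apply, RingHom.id_apply, ← map_smul π, smul_sub]
        rw [map_mul, ← Algebra.smul_def] }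
  have hu : u = 0 := by
    refine H _ u (fun j => ?_) (fun f hf g l => ?_) (fun j => ?_)
    · funext i
      change π _ = 0
      rw [cA_self, hc.self, sub_self, map_zero]
    · change π _ = ∑ i, c (β i * g, l) • π _
      simp only [hc.of_mem hf, hc.of_mem (x.1.mul_mem_right g hf), map_zero, sub_zero,
        ← map_smul π, ← map_sum]
      refine Ideal.Quotient.eq.2 ?_
      rw [cA_mul, ← Finset.sum_sub_distrib]
      refine J.sum_mem fun i _ => Ideal.mem_sup_right ?_
      have h1 := hδ f i
      rw [hc.of_mem hf, map_zero, sub_zero] at h1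
      have := Submodule.smul_mem_smul h1 (hδ (β i * g) l)
      convert this using 1
      rw [smul_eq_mul, Algebra.smul_def (A := A)]
      ring
    · change π _ = 0
      rw [hc.of_mem (hy j), map_zero, sub_zero]
      exact Ideal.Quotient.eq_zero_iff_mem.2 (Ideal.mem_sup_left (Ideal.subset_span ⟨j, rfl⟩))
  have hJ : ∀ f i, cA β Z f i - algebraMap k A (c (f, i)) ∈ J := fun f i =>
    Ideal.Quotient.eq_zero_iff_mem.1 (congrFun (congrArg (fun φ => φ f) hu) i)
  have hall : ∀ z : A, z - algebraMap k A (ev z) ∈ J := fun z => by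
    obtain ⟨P, rfl⟩ := Ideal.Quotient.mkₐ_surjective k _ z
    induction P using MvPolynomial.induction_on with
    | C a =>
      rw [← algebraMap_eq, AlgHom.commutes, AlgHom.commutes]
      change algebraMap k A a - algebraMap k A a ∈ J
      rw [sub_self]; exact J.zero_mem
    | add P Q hP hQ =>
      have := J.add_mem hP hQ
      convert this using 1
      simp only [map_add]; ring
    | mul_X P v hP =>
      have := J.add_mem (J.mul_mem_right (cA β Z v.1 v.2) hP)
        (J.mul_mem_left (algebraMap k A (ev (Ideal.Quotient.mkₐ k _ P))) (hJ v.1 v.2))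
      convert this using 1
      rw [map_mul, map_mul, map_mul, ← hev]
      change _ * cA β Z v.1 v.2 - _ * algebraMap k A (ev (cA β Z v.1 v.2)) = _
      ring
  refine trdeg_le_of_tangent m yA (fun j => ?_) fun z hz => ?_
  · have := hδ (y j).1 (y j).2
    rwa [hc.of_mem (hy j), map_zero, sub_zero] at this
  · have := hall z
    rwa [(RingHom.mem_ker.1 hz : ev z = 0), map_zero, sub_zero] at this

end Pool.Agent.H80.Hilb
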