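import Mathlib
import Pool.Agent.H80.HilbTan

namespace Pool.Agent.H80.Hilb
open Polynomial

def Hs (n : ℕ) : Prop :=
  n = 0 ∨ n = 13 ∨ (15 ≤ n ∧ n ≤ 20) ∨ n = 23 ∨ n = 24 ∨ n = 26 ∨ 28 ≤ n

def Es (n : ℕ) : Prop := n = 13 ∨ n = 15 ∨ n = 18 ∨ n = 19 ∨ n = 26 ∨ (28 ≤ n ∧ n ≠ 40)

instance : DecidablePred Hs := fun n => by unfold Hs; infer_instance
instance : DecidablePred Es := fun n => by unfold Es; infer_instance

def ee : Fin 7 → ℕ := ![0, 16, 17, 20, 23, 24, 40]

lemma Hs.add {a b : ℕ} (ha : Hs a) (hb : Hs b) : Hs (a + b) := by unfold Hs at *; omega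
lemma Es.add {a b : ℕ} (ha : Hs a) (hb : Es b) : Es (a + b) := by unfold Hs Es at *; omega
lemma Es.hs {a : ℕ} (ha : Es a) : Hs a := by unfold Hs Es at *; omega
lemma ee_inj : Function.Injective ee := by decide
lemma ee_hs : ∀ i, Hs (ee i) := by decide
lemma ee_es : ∀ i, ¬ Es (ee i) := by decide
lemma es_or {n : ℕ} (h : Hs n) : Es n ∨ ∃ i, ee i = n := by
  by_cases h' : 41 ≤ n
  · left; unfold Es; omega
  · have key : ∀ n < 41, Hs n → Es n ∨ ∃ i, ee i = n := by decide
    exact key n (by omega) h
lemma es_gen {n : ℕ} (h : Es n) : ∃ g, (g = 13 ∨ g = 15 ∨ g = 18 ∨ g = 19) ∧ ∃ h, Hs h ∧ n = g + h := by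
  by_cases h' : 41 ≤ n
  · exact ⟨13, by simp, n - 13, by unfold Hs; omega, by omega⟩
  · have key : ∀ n < 41, Es n → ∃ g ∈ [13, 15, 18, 19], g ≤ n ∧ Hs (n - g) := by decide
    obtain ⟨g, hg, hgn, hh⟩ := key n (by omega) h
    exact ⟨g, by simpa using hg, n - g, hh, by omega⟩

variable (k : Type) [Field k]

lemma coeff_mul_ne {f g : k[X]} {n : ℕ} (h : (f * g).coeff n ≠ 0) :
    ∃ a b, f.coeff a ≠ 0 ∧ g.coeff b ≠ 0 ∧ n = a + b := by
  rw [coeff_mul] at h
  obtain ⟨⟨a, b⟩, hab, hne⟩ := Finset.exists_ne_zero_of_sum_ne_zero h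
  exact ⟨a, b, left_ne_zero_of_mul hne, right_ne_zero_of_mul hne,
    (by simpa using hab : a + b = n).symm⟩

def OO : Subalgebra k k[X] where
  carrier := {f | ∀ n, f.coeff n ≠ 0 → Hs n}
  mul_mem' := fun {f g} hf hg n hn => by
    obtain ⟨a, b, ha, hb, rfl⟩ := coeff_mul_ne k hn
    exact (hf a ha).add (hg b hb)
  add_mem' := fun {f g} hf hg n hn => by
    by_cases h : f.coeff n = 0
    · exact hg n (by simpa [h] using hn)
    · exact hf n h
  algebraMap_mem' := fun r n hn => by
    left
    by_contra h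
    exact hn (by simp [coeff_C, h])

noncomputable def mon (n : ℕ) : OO k := ⟨if Hs n then X ^ n else 0, fun m hm => by
  split_ifs at hm with h
  · rw [coeff_X_pow] at hm
    have : m = n := by by_contra h'; simp [h'] at hm
    rwa [this]
  · simp at hm⟩

variable {k}

lemma mon_val {n : ℕ} (h : Hs n) : (mon k n : k[X]) = X ^ n := by simp [mon, h]

lemma mon_mul {a b : ℕ} (ha : Hs a) (hb : Hs b) : mon k a * mon k b = mon k (a + b) :=
  Subtype.ext (by simp [mon_val, ha, hb, ha.add hb, pow_add])

lemma mem_of_mon (p : Submodule k (OO k)) (h : ∀ n, Hs n → mon k n ∈ p) (f : OO k) : f ∈ p := by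
  have : f = ∑ n ∈ f.1.support, f.1.coeff n • mon k n := by
    apply Subtype.ext
    conv_lhs => rw [f.1.as_sum_support_C_mul_X_pow]
    rw [AddSubmonoidClass.coe_finset_sum]
    refine Finset.sum_congr rfl fun n hn => ?_
    rw [Subalgebra.coe_smul, mon_val (f.2 n (mem_support_iff.1 hn)), smul_eq_C_mul]
  rw [this]
  exact p.sum_mem fun n hn => p.smul_mem _ (h n (f.2 n (mem_support_iff.1 hn)))

instance : Algebra.FiniteType k (OO k) := by
  classical
  refine ⟨(Finset.range 41).image (mon k), eq_top_iff.2 fun f _ => ?_⟩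
  refine mem_of_mon (Subalgebra.toSubmodule (Algebra.adjoin k
    (((Finset.range 41).image (mon k) : Finset (OO k)) : Set (OO k)))) (fun n => ?_) f
  induction n using Nat.strong_induction_on with
  | _ n ih =>
    intro hn
    by_cases h : n < 41
    · exact Algebra.subset_adjoin (by simpa using ⟨n, h, rfl⟩)
    · have h1 : Hs (n - 13) := by unfold Hs; omega
      have : mon k n = mon k 13 * mon k (n - 13) := by
        rw [mon_mul (by decide) h1]; congr 1; omega
      rw [this]
      exact Subalgebra.mul_mem _ (ih 13 (by omega) (by decide)) (ih _ (by omega) h1)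

def I0 (k : Type) [Field k] : Ideal (OO k) where
  carrier := {f | ∀ n, f.1.coeff n ≠ 0 → Es n}
  add_mem' := fun {f g} hf hg n hn => by
    by_cases h : f.1.coeff n = 0
    · exact hg n (by simpa [h] using hn)
    · exact hf n h
  zero_mem' := fun n hn => by simp at hn
  smul_mem' := fun f g hg n hn => by
    obtain ⟨a, b, ha, hb, rfl⟩ := coeff_mul_ne k hn
    exact Es.add (f.2 a ha) (hg b hb)

lemma mon_mem {n : ℕ} (h : Es n) : mon k n ∈ I0 k := fun m hm => by
  rw [mon_val h.hs, coeff_X_pow] at hm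
  have : m = n := by by_contra h'; simp [h'] at hm
  rwa [this]

noncomputable def bb (k : Type) [Field k] : Fin 7 → OO k := fun i => mon k (ee i)

noncomputable def cc (k : Type) [Field k] : OO k × Fin 7 → k := fun p => p.1.1.coeff (ee p.2)

lemma coeff_sum_bb (a : Fin 7 → k) (n : ℕ) :
    (∑ i, a i • bb k i : OO k).1.coeff n = ∑ i, if n = ee i then a i else 0 := by
  rw [AddSubmonoidClass.coe_finset_sum, finset_sum_coeff]
  refine Finset.sum_congr rfl fun i _ => ?_
  simp [bb, mon_val (ee_hs i), coeff_X_pow]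

lemma coeff_sum_bb' (a : Fin 7 → k) (j : Fin 7) :
    (∑ i, a i • bb k i : OO k).1.coeff (ee j) = a j := by
  rw [coeff_sum_bb]
  simp [ee_inj.eq_iff]

lemma coord0 : IsCoord (bb k) (I0 k) (cc k) := fun f n hn => by
  rw [AddSubgroupClass.coe_sub, coeff_sub] at hn
  by_cases h : ∃ j, ee j = n
  · obtain ⟨j, rfl⟩ := h
    rw [coeff_sum_bb'] at hn
    exact absurd (sub_self _) hn
  · rw [coeff_sum_bb, Finset.sum_eq_zero (fun i _ => if_neg fun h' => h ⟨i, h'.symm⟩),
      sub_zero] at hn
    exact (es_or (f.2 n hn)).resolve_right h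

noncomputable def basis0 : Module.Basis (Fin 7) k (OO k ⧸ I0 k) :=
  Module.Basis.mk (v := fun i => Ideal.Quotient.mkₐ k (I0 k) (bb k i))
    (Fintype.linearIndependent_iff.2 fun a ha j => by
      simp only [← map_smul, ← map_sum] at ha
      have h1 : ∑ i, a i • bb k i ∈ I0 k := Ideal.Quotient.eq_zero_iff_mem.1 ha
      by_contra hne
      exact ee_es j (h1 _ (by rwa [coeff_sum_bb'])))
    (fun z _ => by
      obtain ⟨f, rfl⟩ := Ideal.Quotient.mkₐ_surjective k (I0 k) z
      rw [coord0.mk_eq f]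
      exact Submodule.sum_mem _ fun i _ => Submodule.smul_mem _ _ (Submodule.subset_span ⟨i, rfl⟩))

noncomputable def x0 (k : Type) [Field k] : Pts k (OO k) 7 :=
  ⟨I0 k, Module.Finite.of_basis basis0, by simpa using Module.finrank_eq_card_basis basis0⟩

noncomputable def yy (k : Type) [Field k] : Fin 6 → OO k × Fin 7 :=
  ![(mon k 13, 5), (mon k 13, 6), (mon k 15, 3), (mon k 15, 6), (mon k 18, 6), (mon k 19, 6)]

lemma comb {B : Type} [AddCommGroup B] (U : ℕ → Fin 7 → B)
    (rel : ∀ g h g' h' l, Es g → Hs h → Es g' → Hs h' → g + h = g' + h' →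
      (∑ i, if ee l = ee i + h then U g i else 0) = ∑ i, if ee l = ee i + h' then U g' i else 0)
    (u13_5 : U 13 5 = 0) (u13_6 : U 13 6 = 0) (u15_3 : U 15 3 = 0) (u15_6 : U 15 6 = 0)
    (u18_6 : U 18 6 = 0) (u19_6 : U 19 6 = 0) :
    ∀ g, (g = 13 ∨ g = 15 ∨ g = 18 ∨ g = 19) → ∀ i, U g i = 0 := by
  have u13_0 : U 13 0 = 0 := by simpa [Fin.sum_univ_seven, ee] using rel 13 17 15 15 2 (by decide) (by decide) (by decide) (by decide) rfl
  have u13_1 : U 13 1 = 0 := by simpa [Fin.sum_univ_seven, ee] using rel 13 24 18 19 6 (by decide) (by decide) (by decide) (by decide) rfl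
  have u13_2 : U 13 2 = 0 := by simpa [Fin.sum_univ_seven, ee] using rel 13 23 18 18 6 (by decide) (by decide) (by decide) (by decide) rfl
  have u13_3 : U 13 3 = 0 := by simpa [Fin.sum_univ_seven, ee] using rel 13 20 15 18 6 (by decide) (by decide) (by decide) (by decide) rfl
  have u13_4 : U 13 4 = 0 := by simpa [Fin.sum_univ_seven, ee] using rel 13 17 15 15 6 (by decide) (by decide) (by decide) (by decide) rfl
  have u15_0 : U 15 0 = 0 := by simpa [Fin.sum_univ_seven, ee] using rel 15 16 13 18 1 (by decide) (by decide) (by decide) (by decide) rfl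
  have u15_1 : U 15 1 = 0 := by simpa [Fin.sum_univ_seven, ee] using rel 15 24 13 26 6 (by decide) (by decide) (by decide) (by decide) rfl
  have u15_2 : U 15 2 = 0 := by simpa [Fin.sum_univ_seven, ee] using rel 15 23 19 19 6 (by decide) (by decide) (by decide) (by decide) rfl
  have u15_4 : U 15 4 = 0 := by simpa [Fin.sum_univ_seven, ee] using rel 15 17 13 19 6 (by decide) (by decide) (by decide) (by decide) rfl
  have u15_5 : U 15 5 = 0 := by simpa [Fin.sum_univ_seven, ee] using rel 15 16 13 18 6 (by decide) (by decide) (by decide) (by decide) rfl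
  have u18_0 : U 18 0 = 0 := by simpa [Fin.sum_univ_seven, ee] using rel 18 16 15 19 1 (by decide) (by decide) (by decide) (by decide) rfl
  have u18_1 : U 18 1 = 0 := by simpa [Fin.sum_univ_seven, ee] using rel 18 24 13 29 6 (by decide) (by decide) (by decide) (by decide) rfl
  have u18_2 : U 18 2 = 0 := by simpa [Fin.sum_univ_seven, ee] using rel 18 23 13 28 6 (by decide) (by decide) (by decide) (by decide) rfl
  have u18_3 : U 18 3 = 0 := by simpa [Fin.sum_univ_seven, ee, u15_2] using rel 18 20 15 23 6 (by decide) (by decide) (by decide) (by decide) rfl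
  have u18_4 : U 18 4 = 0 := by simpa [Fin.sum_univ_seven, ee, u15_3] using rel 18 17 15 20 6 (by decide) (by decide) (by decide) (by decide) rfl
  have u18_5 : U 18 5 = 0 := by simpa [Fin.sum_univ_seven, ee] using rel 18 16 15 19 6 (by decide) (by decide) (by decide) (by decide) rfl
  have u19_0 : U 19 0 = 0 := by simpa [Fin.sum_univ_seven, ee] using rel 19 16 15 20 1 (by decide) (by decide) (by decide) (by decide) rfl
  have u19_1 : U 19 1 = 0 := by simpa [Fin.sum_univ_seven, ee] using rel 19 24 13 30 6 (by decide) (by decide) (by decide) (by decide) rfl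
  have u19_2 : U 19 2 = 0 := by simpa [Fin.sum_univ_seven, ee] using rel 19 23 13 29 6 (by decide) (by decide) (by decide) (by decide) rfl
  have u19_3 : U 19 3 = 0 := by simpa [Fin.sum_univ_seven, ee] using rel 19 20 13 26 6 (by decide) (by decide) (by decide) (by decide) rfl
  have u19_4 : U 19 4 = 0 := by simpa [Fin.sum_univ_seven, ee, u13_2] using rel 19 17 13 23 6 (by decide) (by decide) (by decide) (by decide) rfl
  have u19_5 : U 19 5 = 0 := by simpa [Fin.sum_univ_seven, ee, u15_3] using rel 19 16 15 20 6 (by decide) (by decide) (by decide) (by decide) rfl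
  rintro g (rfl | rfl | rfl | rfl) i <;> fin_cases i <;> assumption

lemma tangent (B : Type) [AddCommGroup B] [Module k B] (u : OO k →ₗ[k] (Fin 7 → B))
    (h1 : ∀ j, u (bb k j) = 0)
    (h2 : ∀ f ∈ I0 k, ∀ g l, u (f * g) l = ∑ i, cc k (bb k i * g, l) • u f i)
    (h3 : ∀ j, u (yy k j).1 (yy k j).2 = 0) : u = 0 := by
  let U : ℕ → Fin 7 → B := fun n => u (mon k n)
  have r0 : ∀ g h l, Es g → Hs h → U (g + h) l = ∑ i, if ee l = ee i + h then U g i else 0 := by
    intro g h l hg hh
    have := h2 _ (mon_mem hg) (mon k h) l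
    rw [mon_mul hg.hs hh] at this
    refine this.trans (Finset.sum_congr rfl fun i _ => ?_)
    simp only [cc, bb, mon_mul (ee_hs i) hh, mon_val ((ee_hs i).add hh), coeff_X_pow]
    split_ifs <;> simp [U]
  have rel : ∀ g h g' h' l, Es g → Hs h → Es g' → Hs h' → g + h = g' + h' →
      (∑ i, if ee l = ee i + h then U g i else 0) = ∑ i, if ee l = ee i + h' then U g' i else 0 := by
    intro g h g' h' l a b c d e
    rw [← r0 g h l a b, ← r0 g' h' l c d, e]
  have gen := comb U rel (h3 0) (h3 1) (h3 2) (h3 3) (h3 4) (h3 5)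
  refine LinearMap.ext fun f => mem_of_mon (LinearMap.ker u) (fun n hn => ?_) f
  rcases es_or hn with hn | ⟨j, rfl⟩
  · obtain ⟨g, hg, h, hh, rfl⟩ := es_gen hn
    funext l
    have := r0 g h l (by rcases hg with rfl | rfl | rfl | rfl <;> decide) hh
    simpa [gen g hg] using this
  · exact h1 j

lemma dim_OO : ringKrullDim (OO k) = 1 := by
  apply le_antisymm
  · unfold ringKrullDim Order.krullDim
    refine iSup_le fun s => ?_
    obtain ⟨a, ha⟩ := chain_indep (k := k) s.length (fun i => (s i).asIdeal)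
      (fun i => (s i).isPrime) (fun i j hij => s.strictMono hij)
    have hi : AlgebraicIndependent k (fun i => (a i : k[X])) := by
      refine AlgebraicIndependent.map' (f := (OO k).val) ?_ Subtype.val_injective
      rw [algebraicIndependent_iff]
      exact fun F hF => ha F (hF ▸ Ideal.zero_mem _)
    have := hi.cardinalMk_le_trdeg
    rw [Polynomial.trdeg_of_isDomain] at this
    have h : s.length ≤ 1 := by simpa using this
    exact_mod_cast h
  · let ev : OO k →ₐ[k] k := (aeval (0 : k)).comp (OO k).val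
    let p : PrimeSpectrum (OO k) := ⟨RingHom.ker ev, RingHom.ker_isPrime _⟩
    have hlt : (⊥ : PrimeSpectrum (OO k)) < p := by
      refine bot_lt_iff_ne_bot.2 fun h => ?_
      have h1 : mon k 13 ∈ p.asIdeal := by
        change aeval (0 : k) (mon k 13 : k[X]) = 0
        rw [mon_val (by decide)]; simp
      rw [h] at h1
      have h2 : mon k 13 = 0 := h1
      have := congrArg Subtype.val h2
      rw [mon_val (by decide)] at this
      simp at this
    exact Order.one_le_krullDim_iff.2 ⟨_, _, hlt⟩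

theorem main (k : Type) [Field k] :
    ∃ O : Subalgebra k k[X], O.FG ∧ ringKrullDim O = 1 ∧ ∃ d : ℕ, 1 ≤ d ∧
      ∃ Z ∈ irreducibleComponents (Pts k O d), topologicalKrullDim Z < d := by
  refine ⟨OO k, (Subalgebra.fg_iff_finiteType _).2 inferInstance, dim_OO, 7, by norm_num,
    irreducibleComponent (x0 k), irreducibleComponent_mem_irreducibleComponents _, ?_⟩
  have hZ : IsPreirreducible (irreducibleComponent (x0 k)) := isIrreducible_irreducibleComponent.2
  have hx : x0 k ∈ irreducibleComponent (x0 k) := mem_irreducibleComponent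
  have := dim_le hZ isClosed_irreducibleComponent hx (β := bb k) coord0
    (trdeg_chart hZ hx coord0 (yy k) (fun j => by
      fin_cases j <;> exact mon_mem (by decide)) tangent)
  exact this.trans_lt (by norm_cast)

end Pool.Agent.H80.Hilb
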