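import Mathlib
import Pool.Agent.H80.HilbDefs2
import Pool.Agent.H80.HilbTan

namespace Pool.Agent.H80.Hilb
open MvPolynomial

variable {k : Type} [Field k]

lemma finrank_quot_le {S V : Type} [CommRing S] [Algebra k S] [AddCommGroup V] [Module k V]
    [Module.Finite k V] (φ : S →ₗ[k] V) (I : Ideal S) (h : ∀ f, φ f = 0 → f ∈ I) :
    Module.Finite k (S ⧸ I) ∧ Module.finrank k (S ⧸ I) ≤ Module.finrank k V := by
  let ψ : LinearMap.range φ →ₗ[k] S ⧸ I :=
    ((LinearMap.ker φ).liftQ (Ideal.Quotient.mkₐ k I).toLinearMap fun f hf =>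
      Ideal.Quotient.eq_zero_iff_mem.2 (h f hf)).comp φ.quotKerEquivRange.symm.toLinearMap
  have hψ : Function.Surjective ψ := fun z => by
    obtain ⟨f, rfl⟩ := Ideal.Quotient.mk_surjective z
    refine ⟨φ.quotKerEquivRange (Submodule.Quotient.mk f), ?_⟩
    simp [ψ]
  exact ⟨Module.Finite.of_surjective ψ hψ,
    (LinearMap.finrank_le_finrank_of_surjective hψ).trans (Submodule.finrank_le _)⟩

lemma finrank_quot_pow (n j : ℕ) :
    Module.Finite k (MvPolynomial (Fin n) k ⧸ idealOfVars (Fin n) k ^ j) ∧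
    Module.finrank k (MvPolynomial (Fin n) k ⧸ idealOfVars (Fin n) k ^ j) =
      ∑ i ∈ Finset.range j, (n + i - 1).choose i := by
  classical
  let T : Finset (Fin n →₀ ℕ) := (Finset.range j).biUnion fun i => Finset.univ.finsuppAntidiag i
  have hT : ∀ u, u ∈ T ↔ u.degree < j := fun u => by
    simp [T, Finset.mem_finsuppAntidiag, Finsupp.degree_eq_sum]
  have hc : T.card = ∑ i ∈ Finset.range j, (n + i - 1).choose i := by
    rw [Finset.card_biUnion]
    · simp [Finset.card_finsuppAntidiag_nat_eq_choose]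
    · intro a _ b _ hab
      refine Finset.disjoint_left.2 fun u ha hb => hab ?_
      simp only [Finset.mem_finsuppAntidiag] at ha hb
      rw [← ha.1, ← hb.1]
  let φ : MvPolynomial (Fin n) k →ₗ[k] (T → k) := LinearMap.pi fun u => lcoeff k u.1
  have hφ : Function.Surjective φ := fun a => by
    refine ⟨∑ u : T, monomial u.1 (a u), funext fun u => ?_⟩
    simp only [φ, LinearMap.pi_apply, lcoeff_apply, coeff_sum, coeff_monomial]
    rw [Finset.sum_eq_single u]
    · simp
    · intro b _ hb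
      exact if_neg fun h => hb (Subtype.ext h)
    · simp
  have hk : LinearMap.ker φ = (idealOfVars (Fin n) k ^ j).restrictScalars k := by
    ext f
    simp only [LinearMap.mem_ker, Submodule.restrictScalars_mem, mem_pow_idealOfVars_iff', φ,
      funext_iff, LinearMap.pi_apply, lcoeff_apply, Pi.zero_apply, Subtype.forall, hT]
  let e : (MvPolynomial (Fin n) k ⧸ idealOfVars (Fin n) k ^ j) ≃ₗ[k] (T → k) :=
    (Submodule.Quotient.restrictScalarsEquiv k _).symm.trans
      ((Submodule.quotEquivOfEq _ _ hk.symm).trans (φ.quotKerEquivOfSurjective hφ))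
  exact ⟨Module.Finite.equiv e.symm, by rw [e.finrank_eq]; simp [hc]⟩

lemma exists_rel {ι σ : Type} [Fintype ι] [Fintype σ] (h : Fintype.card σ < Fintype.card ι)
    (z : ι → MvPolynomial σ k) : ∃ F : MvPolynomial ι k, F ≠ 0 ∧ aeval z F = 0 := by
  by_contra! hh
  have hi : AlgebraicIndependent k z := algebraicIndependent_iff.2 fun F hF => by
    by_contra h0; exact hh F h0 hF
  have := hi.cardinalMk_le_trdeg
  rw [MvPolynomial.trdeg_of_isDomain] at this
  simp at this
  omega

/-- a functional read in a chart at a reduced point is a combination of evaluations -/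
lemma comb_eval {n d : ℕ} {β : Fin d → MvPolynomial (Fin n) k}
    {I : Pts k (MvPolynomial (Fin n) k) d} {c : MvPolynomial (Fin n) k × Fin d → k}
    (hc : IsCoord β I.1 c) {p : Fin d → Fin n → k} (hp : ∀ f, f ∈ I.1 ↔ ∀ i, eval (p i) f = 0)
    (μ : Fin d → k) : ∃ l : Fin d → k, ∀ f, ∑ i, μ i * c (f, i) = ∑ i, l i * eval (p i) f := by
  let L : MvPolynomial (Fin n) k →ₗ[k] k :=
    { toFun := fun f => ∑ i, μ i * c (f, i)
      map_add' := fun f g => by simp [hc.add, mul_add, Finset.sum_add_distrib]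
      map_smul' := fun a f => by simp [hc.smul, Finset.mul_sum, mul_left_comm] }
  have := mem_span_of_iInf_ker_le_ker (L := fun i => (aeval (p i)).toLinearMap) (K := L)
    (fun f hf => by
      simp only [Submodule.mem_iInf, LinearMap.mem_ker] at hf ⊢
      have : f ∈ I.1 := (hp f).2 fun i => by rw [← aeval_eq_eval]; exact hf i
      simp [L, hc.of_mem this])
  obtain ⟨l, hl⟩ := (Submodule.mem_span_range_iff_exists_fun k).1 this
  refine ⟨l, fun f => ?_⟩
  have := congrArg (fun φ => φ f) hl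
  simp only [LinearMap.coe_sum, Finset.sum_apply, LinearMap.smul_apply, AlgHom.toLinearMap_apply,
    smul_eq_mul, aeval_eq_eval] at this
  exact this.symm

theorem defect [Infinite k] (C0 : ℕ) : ∃ (n e : ℕ) (I : Pts k (MvPolynomial (Fin n) k) e),
    ∀ (d : ℕ) (I' : Pts k (MvPolynomial (Fin n) k) d), I' ∈ Smoothable k n d → I'.1 ≤ I.1 →
      C0 * e < d := by
  classical
  obtain ⟨m, hm⟩ : ∃ m, m = 12 * C0 + 1 := ⟨_, rfl⟩
  let D0 := C0 * (1 + 3 * m)
  have hF : ∀ d : Fin (D0 + 1), ∃ F : MvPolynomial (Fin m × Fin m × Fin m) k, F ≠ 0 ∧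
      ∀ (l p q : Fin d → Fin m → k),
        eval (fun t => ∑ i, l i t.1 * (p i t.2.1 * q i t.2.2)) F = 0 := fun d => by
    obtain ⟨F, hF0, hF⟩ := exists_rel (k := k) (ι := Fin m × Fin m × Fin m)
      (σ := Fin d × Fin 3 × Fin m) (by
        have := d.2
        simp only [Fintype.card_prod, Fintype.card_fin]
        have h1 : (d : ℕ) * (3 * m) ≤ D0 * (3 * m) := Nat.mul_le_mul_right _ (by omega)
        refine h1.trans_lt ?_
        simp only [D0]
        subst hm
        nlinarith [Nat.zero_le C0, Nat.zero_le (C0 * C0), Nat.zero_le (C0 * C0 * C0)])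
      (fun t => ∑ i, X (i, 0, t.1) * (X (i, 1, t.2.1) * X (i, 2, t.2.2)))
    refine ⟨F, hF0, fun l p q => ?_⟩
    have := congrArg (aeval (fun s : Fin d × Fin 3 × Fin m => ![l, p, q] s.2.1 s.1 s.2.2)) hF
    rw [map_zero, ← AlgHom.comp_apply, comp_aeval] at this
    rw [← aeval_eq_eval, ← this]
    simp
  choose F hF0 hF using hF
  obtain ⟨w, hw⟩ : ∃ w, eval w (∏ d, F d) ≠ 0 := by
    by_contra! h
    exact Finset.prod_ne_zero_iff.2 (fun d _ => hF0 d) (MvPolynomial.funext fun x => by
      rw [h x, map_zero])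
  rw [map_prod, Finset.prod_ne_zero_iff] at hw
  let u : Fin m → Fin m → (Fin (m + m) →₀ ℕ) := fun a b =>
    Finsupp.single (Fin.castAdd m a) 1 + Finsupp.single (Fin.natAdd m b) 1
  have hu : ∀ a b a' b', u a b = u a' b' → a = a' ∧ b = b' := fun a b a' b' h => by
    have h1 := DFunLike.congr_fun h (Fin.castAdd m a)
    have h2 := DFunLike.congr_fun h (Fin.natAdd m b)
    have n1 : ∀ a b : Fin m, Fin.natAdd m b ≠ Fin.castAdd m a := fun a b h => by
      have := congrArg Fin.val h
      simp at this; omega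
    simp only [u, Finsupp.add_apply, Finsupp.single_apply, n1, (n1 _ _).symm, if_true, if_false,
      Fin.castAdd_inj, Fin.natAdd_inj] at h1 h2
    constructor
    · by_contra h'; rw [if_neg (Ne.symm h')] at h1; omega
    · by_contra h'; rw [if_neg (Ne.symm h')] at h2; omega
  let W : Fin m → (MvPolynomial (Fin (m + m)) k) →ₗ[k] k := fun j => ∑ a, ∑ b, w (j, a, b) • lcoeff k (u a b)
  have hW : ∀ j a b, W j (monomial (u a b) 1) = w (j, a, b) := fun j a b => by
    simp only [W, LinearMap.coe_sum, Finset.sum_apply, LinearMap.smul_apply, lcoeff_apply,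
      coeff_monomial, smul_eq_mul]
    rw [Finset.sum_eq_single a, Finset.sum_eq_single b]
    · simp
    · intro b' _ hb; rw [if_neg fun h => hb (hu _ _ _ _ h).2.symm, mul_zero]
    · simp
    · intro a' _ ha
      exact Finset.sum_eq_zero fun b' _ => by
        rw [if_neg fun h => ha (hu _ _ _ _ h).1.symm, mul_zero]
    · simp
  have hW3 : ∀ j, ∀ f ∈ idealOfVars (Fin (m + m)) k ^ 3, W j f = 0 := fun j f hf => by
    simp only [W, LinearMap.coe_sum, Finset.sum_apply, LinearMap.smul_apply, lcoeff_apply]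
    refine Finset.sum_eq_zero fun a _ => Finset.sum_eq_zero fun b _ => ?_
    rw [(mem_pow_idealOfVars_iff' 3 f).1 hf _ (by simp [u]), smul_zero]
  let I : Ideal (MvPolynomial (Fin (m + m)) k) :=
    { carrier := {f | f ∈ idealOfVars (Fin (m + m)) k ^ 2 ∧ ∀ j, W j f = 0}
      add_mem' := fun hf hg => ⟨Ideal.add_mem _ hf.1 hg.1, fun j => by simp [hf.2 j, hg.2 j]⟩
      zero_mem' := ⟨Ideal.zero_mem _, fun j => by simp⟩
      smul_mem' := fun g f hf => ⟨Ideal.mul_mem_left _ _ hf.1, fun j => by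
        have h1 : g - C (coeff 0 g) ∈ idealOfVars (Fin (m + m)) k ^ 1 :=
          (mem_pow_idealOfVars_iff' 1 _).2 fun x hx => by
            have : x = 0 := (Finsupp.degree_eq_zero_iff x).1 (by omega)
            simp [this]
        have h2 := Ideal.mul_mem_mul h1 hf.1
        rw [← pow_add] at h2
        have h3 := hW3 j _ h2
        rw [sub_mul, map_sub, C_mul', map_smul, hf.2 j, smul_zero, sub_zero] at h3
        exact h3⟩ }
  obtain ⟨hfin, hrk⟩ := finrank_quot_pow (k := k) (m + m) 2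
  obtain ⟨hI, hIe⟩ := finrank_quot_le (k := k)
    ((Ideal.Quotient.mkₐ k (idealOfVars (Fin (m + m)) k ^ 2)).toLinearMap.prod (LinearMap.pi W)) I
    fun f hf => by
      exact ⟨Ideal.Quotient.eq_zero_iff_mem.1 (congrArg Prod.fst hf),
        fun j => congrFun (congrArg Prod.snd hf) j⟩
  rw [Module.finrank_prod, hrk] at hIe
  simp only [Finset.sum_range_succ, Finset.range_zero, Finset.sum_empty, Nat.choose_zero_right,
    Nat.add_sub_cancel, Nat.choose_one_right, Module.finrank_fin_fun] at hIe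
  refine ⟨m + m, _, ⟨I, hI, rfl⟩, fun d I' hI' hle => ?_⟩
  by_contra! hd
  have hd' : d < D0 + 1 := by
    have : C0 * Module.finrank k ((MvPolynomial (Fin (m + m)) k) ⧸ I) ≤ D0 := Nat.mul_le_mul_left _ (by omega)
    omega
  obtain ⟨β, c', hc'⟩ := exists_chart I'
  let P : MvPolynomial ((MvPolynomial (Fin (m + m)) k) × Fin d) k := aeval (fun t : Fin m × Fin m × Fin m =>
    ∑ i, C (W t.1 (β i)) * X (monomial (u t.2.1 t.2.2) 1, i)) (F ⟨d, hd'⟩)
  have hP : ∀ c : (MvPolynomial (Fin (m + m)) k) × Fin d → k, eval c P = eval (fun t : Fin m × Fin m × Fin m =>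
      ∑ i, W t.1 (β i) * c (monomial (u t.2.1 t.2.2) 1, i)) (F ⟨d, hd'⟩) := fun c => by
    rw [← aeval_eq_eval, ← aeval_eq_eval, ← AlgHom.comp_apply, comp_aeval]
    simp
  have h1 : I' ∈ D β P := by
    refine ⟨c', hc', ?_⟩
    rw [hP]
    convert hw ⟨d, hd'⟩ (Finset.mem_univ _) with t
    have := (hle (hc' (monomial (u t.2.1 t.2.2) 1))).2 t.1
    rw [map_sub, hW, map_sum, sub_eq_zero] at this
    rw [show w t = w (t.1, t.2.1, t.2.2) from rfl, this]
    simp [mul_comm]
  obtain ⟨J, ⟨c, hc, hne⟩, p, -, hp⟩ := mem_closure_iff.1 hI' _ (isOpen_D β P) h1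
  choose l hl using fun j => comb_eval hc hp fun i => W j (β i)
  apply hne
  rw [hP, ← hF ⟨d, hd'⟩ (fun i j => l j i) (fun i a => p i (Fin.castAdd m a))
    (fun i b => p i (Fin.natAdd m b))]
  congr 2
  funext t
  rw [hl]
  simp [u, monomial_add_single, eval_monomial]

end Pool.Agent.H80.Hilb
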