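import Mathlib
import Pool.Agent.H80.HilbSm

namespace Pool.Agent.H80.Hilb
open MvPolynomial Matrix

variable {k S : Type} [Field k] [CommRing S] [Algebra k S] {d : ℕ}

lemma finrank_ker_factor {J I : Ideal S} (h : J ≤ I) [Module.Finite k (S ⧸ J)] :
    Module.finrank k (S ⧸ I) +
      Module.finrank k (LinearMap.ker (Ideal.Quotient.factorₐ k h).toLinearMap) =
      Module.finrank k (S ⧸ J) := by
  rw [← LinearMap.finrank_range_add_finrank_ker (Ideal.Quotient.factorₐ k h).toLinearMap,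
    LinearMap.range_eq_top.2, finrank_top]
  intro z
  obtain ⟨f, rfl⟩ := Ideal.Quotient.mk_surjective z
  exact ⟨Ideal.Quotient.mk _ f, rfl⟩

lemma mem_ker_factor {J I : Ideal S} (h : J ≤ I) (f : S) :
    Ideal.Quotient.mk J f ∈ LinearMap.ker (Ideal.Quotient.factorₐ k h).toLinearMap ↔ f ∈ I :=
  Ideal.Quotient.eq_zero_iff_mem (I := I) (a := f)

lemma mkPt {β : Fin d → S} {J : Ideal S} {c : S × Fin d → k} (hc : IsCoord β J c)
    (h : ∀ a : Fin d → k, ∑ i, a i • β i ∈ J → a = 0) :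
    Module.Finite k (S ⧸ J) ∧ Module.finrank k (S ⧸ J) = d := by
  let b : Module.Basis (Fin d) k (S ⧸ J) :=
    Module.Basis.mk (v := fun i => Ideal.Quotient.mkₐ k J (β i))
    (Fintype.linearIndependent_iff.2 fun a ha j => by
      simp only [← map_smul, ← map_sum] at ha
      exact congrFun (h a (Ideal.Quotient.eq_zero_iff_mem.1 ha)) j)
    (fun z _ => by
      obtain ⟨f, rfl⟩ := Ideal.Quotient.mkₐ_surjective k J z
      rw [hc.mk_eq f]
      exact Submodule.sum_mem _ fun i _ => Submodule.smul_mem _ _ (Submodule.subset_span ⟨i, rfl⟩))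
  exact ⟨Module.Finite.of_basis b, by simpa using Module.finrank_eq_card_basis b⟩

lemma exists_phi {n : ℕ} {m I : Ideal S} (y : Fin n → S) (hy : m = Ideal.span (Set.range y))
    [Module.Finite k (S ⧸ m ^ 3)] [Module.Finite k (S ⧸ m ^ 4)] (h3 : m ^ 3 ≤ I)
    (hn : n * Module.finrank k (S ⧸ m ^ 3) + Module.finrank k (S ⧸ m ^ 3) <
      n * Module.finrank k (S ⧸ I) + Module.finrank k (S ⧸ m ^ 4)) :
    ∃ φ : S →ₗ[k] k, (∀ z ∈ m, ∀ f ∈ I, φ (z * f) = 0) ∧ (∀ f ∈ m ^ 4, φ f = 0) ∧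
      ∃ w ∈ m ^ 3, φ w ≠ 0 := by
  have hym : ∀ a, y a ∈ m := fun a => hy ▸ Ideal.subset_span ⟨a, rfl⟩
  have h43 : m ^ 4 ≤ m ^ 3 := Ideal.pow_le_pow_right (by norm_num)
  let L : Fin n → (S ⧸ m ^ 3) →ₗ[k] (S ⧸ m ^ 4) := fun a =>
    (Submodule.mapQ (m ^ 3) (m ^ 4) (LinearMap.mul S S (y a)) fun f hf => by
      change y a * f ∈ m ^ 4
      rw [pow_succ' m 3]
      exact Ideal.mul_mem_mul (hym a) hf).restrictScalars k
  have hL : ∀ a f, L a (Ideal.Quotient.mk _ f) = Ideal.Quotient.mk _ (y a * f) := fun a f => rfl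
  let Ib := LinearMap.ker (Ideal.Quotient.factorₐ k h3).toLinearMap
  let Θ : (Fin n → Ib) →ₗ[k] (S ⧸ m ^ 4) :=
    ∑ a, (L a).comp (Ib.subtype.comp (LinearMap.proj a))
  have e1 := finrank_ker_factor (k := k) h3
  have e2 := finrank_ker_factor (k := k) h43
  have e3 : Module.finrank k (LinearMap.range Θ) ≤ n * Module.finrank k Ib := by
    refine (LinearMap.finrank_range_le Θ).trans ?_
    simp [Module.finrank_pi_fintype]
  have : ¬ LinearMap.ker (Ideal.Quotient.factorₐ k h43).toLinearMap ≤ LinearMap.range Θ := by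
    intro h
    have := Submodule.finrank_mono h
    have e4 : n * Module.finrank k (S ⧸ m ^ 3) =
        n * Module.finrank k (S ⧸ I) + n * Module.finrank k Ib := by rw [← e1, mul_add]
    omega
  obtain ⟨w, hw, hw'⟩ := Set.not_subset.1 this
  obtain ⟨w, rfl⟩ := Ideal.Quotient.mk_surjective w
  obtain ⟨φ, hφ, hφ'⟩ := Submodule.exists_le_ker_of_notMem hw'
  refine ⟨φ.comp (Ideal.Quotient.mkₐ k _).toLinearMap, fun z hz f hf => ?_, fun f hf => ?_,
    w, (mem_ker_factor h43 w).1 hw, hφ⟩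
  · rw [hy] at hz
    obtain ⟨s, rfl⟩ := (Submodule.mem_span_range_iff_exists_fun S).1 hz
    refine hφ' ⟨fun a => ⟨Ideal.Quotient.mk _ (s a * f),
      (mem_ker_factor h3 _).2 (I.mul_mem_left _ hf)⟩, ?_⟩
    simp only [Θ, LinearMap.coe_sum, Finset.sum_apply, LinearMap.comp_apply, LinearMap.proj_apply,
      Submodule.subtype_apply, hL, AlgHom.toLinearMap_apply, Ideal.Quotient.mkₐ_eq_mk, ← map_sum,
      Finset.sum_mul, smul_eq_mul]
    congr 1
    exact Finset.sum_congr rfl fun a _ => by ring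
  · change φ (Ideal.Quotient.mk _ f) = 0
    rw [Ideal.Quotient.eq_zero_iff_mem.2 hf, map_zero]

lemma family {n : ℕ} {m : Ideal S} (y : Fin n → S) (hy : m = Ideal.span (Set.range y))
    (ev : S → k) (hev : ∀ f, f - ev f • 1 ∈ m)
    [Module.Finite k (S ⧸ m ^ 2)] [Module.Finite k (S ⧸ m ^ 3)] [Module.Finite k (S ⧸ m ^ 4)]
    (x : Pts k S d) (h3 : m ^ 3 ≤ x.1) (h2 : x.1 ≤ m ^ 2)
    (hn : n * Module.finrank k (S ⧸ m ^ 3) + Module.finrank k (S ⧸ m ^ 3) <
      n * d + Module.finrank k (S ⧸ m ^ 4))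
    (hd : Module.finrank k (S ⧸ m ^ 2) + n < d) {β : Fin d → S} {c : S × Fin d → k}
    (hc : IsCoord β x.1 c) :
    ∃ e : S × Fin d → k, ∀ t : k, ∃ z : Pts k S d, IsCoord β z.1 (fun p => c p + t * e p) ∧
      m ^ 4 ≤ z.1 ∧ (t ≠ 0 → ¬ m ^ 3 ≤ z.1) := by
  have hym : ∀ a, y a ∈ m := fun a => hy ▸ Ideal.subset_span ⟨a, rfl⟩
  have h43 : m ^ 4 ≤ m ^ 3 := Ideal.pow_le_pow_right (by norm_num)
  have m12 : ∀ z ∈ m, ∀ f ∈ m ^ 2, z * f ∈ m ^ 3 := fun z hz f hf => by
    rw [pow_succ' m 2]; exact Ideal.mul_mem_mul hz hf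
  have m13 : ∀ z ∈ m, ∀ f ∈ m ^ 3, z * f ∈ m ^ 4 := fun z hz f hf => by
    rw [pow_succ' m 3]; exact Ideal.mul_mem_mul hz hf
  obtain ⟨φ0, p1, p2, w, hw, hw0⟩ := exists_phi (k := k) y hy h3 (by rwa [x.2.2])
  obtain ⟨g0, hg, hgI⟩ : ∃ g0, ((Ideal.Quotient.mkₐ k (m ^ 2)).toLinearMap.prod
      (LinearMap.pi fun a => φ0.comp (LinearMap.mul k S (y a)))) g0 = 0 ∧ g0 ∉ x.1 := by
    by_contra! h
    have := (finrank_quot_le _ x.1 h).2
    rw [x.2.2, Module.finrank_prod, Module.finrank_fin_fun] at this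
    omega
  have hg2 : g0 ∈ m ^ 2 := Ideal.Quotient.eq_zero_iff_mem.1 (congrArg Prod.fst hg)
  have hga : ∀ a, φ0 (y a * g0) = 0 := fun a => congrFun (congrArg Prod.snd hg) a
  have hgm : ∀ z ∈ m, φ0 (z * g0) = 0 := fun z hz => by
    rw [hy] at hz
    obtain ⟨s, rfl⟩ := (Submodule.mem_span_range_iff_exists_fun S).1 hz
    rw [Finset.sum_mul, map_sum]
    refine Finset.sum_eq_zero fun a _ => ?_
    have := p2 _ (m13 _ (hev (s a)) _ (m12 _ (hym a) _ hg2))
    rw [sub_mul, map_sub, smul_mul_assoc, one_mul, map_smul, hga, smul_zero, sub_zero] at this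
    rwa [smul_eq_mul, mul_assoc]
  let ρ : S →ₗ[k] S :=
    { toFun := fun f => f - ∑ i, c (f, i) • β i
      map_add' := fun f g => by simp only [hc.add, add_smul, Finset.sum_add_distrib]; ring
      map_smul' := fun a f => by
        simp only [hc.smul, mul_smul, ← Finset.smul_sum, RingHom.id_apply, smul_sub] }
  have ρI : ∀ f, ρ f ∈ x.1 := hc
  have ρid : ∀ f ∈ x.1, ρ f = f := fun f hf => by simp [ρ, hc.of_mem hf]
  have ρβ : ∀ a : Fin d → k, ρ (∑ i, a i • β i) = 0 := fun a => by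
    rw [map_sum]
    refine Finset.sum_eq_zero fun j _ => ?_
    rw [map_smul]
    simp [ρ, hc.self]
  let φ := φ0.comp ρ
  have φI : ∀ f ∈ x.1, φ f = φ0 f := fun f hf => by simp [φ, ρid f hf]
  have φβ : ∀ a : Fin d → k, φ (∑ i, a i • β i) = 0 := fun a => by
    change φ0 (ρ _) = 0
    rw [ρβ, map_zero]
  let g := ∑ i, c (g0, i) • β i
  have gg : g = g0 - ρ g0 := by simp [g, ρ]
  have g2 : g ∈ m ^ 2 := gg ▸ (m ^ 2).sub_mem hg2 (h2 (ρI g0))
  have gI : g ∉ x.1 := fun h => hgI (by simpa [gg] using x.1.add_mem h (ρI g0))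
  have φg : φ g = 0 := φβ _
  have φzg : ∀ z ∈ m, φ (z * g) = 0 := fun z hz => by
    rw [φI _ (h3 (m12 z hz g g2)), gg, mul_sub, map_sub, hgm z hz, p1 z hz _ (ρI g0), sub_zero]
  refine ⟨fun p => φ p.1 * c (g0, p.2), fun t => ?_⟩
  let J : Ideal S :=
    { carrier := {f | f + (t * φ f) • g ∈ x.1}
      add_mem' := fun {a b} ha hb => by
        have := x.1.add_mem ha hb
        change _ + _ ∈ x.1
        convert this using 1
        rw [map_add, mul_add, add_smul]; ring
      zero_mem' := by simp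
      smul_mem' := fun s f hf => by
        have hz := hev s
        set z := s - ev s • 1
        have e1 : s • f = ev s • f + z * f := by simp [z, sub_mul]
        have e2 : z * f = z * (f + (t * φ f) • g) - (t * φ f) • (z * g) := by
          rw [mul_add, mul_smul_comm]; ring
        have h1 : z * (f + (t * φ f) • g) ∈ x.1 := x.1.mul_mem_left z hf
        have h2 : z * f ∈ x.1 :=
          e2 ▸ x.1.sub_mem h1 (Submodule.smul_of_tower_mem _ _ (h3 (m12 z hz g g2)))
        have h4 : φ (z * f) = 0 := by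
          rw [e2, map_sub, map_smul, φzg z hz, φI _ h1, p1 z hz _ hf]; simp
        have h5 := x.1.add_mem (Submodule.smul_of_tower_mem _ (ev s) hf) h2
        change _ + _ ∈ x.1
        convert h5 using 1
        rw [e1, map_add, h4, map_smul, add_zero, smul_add, smul_smul, smul_eq_mul]
        rw [mul_left_comm]; ring }
  have hJ : IsCoord β J (fun p => c p + t * (φ p.1 * c (g0, p.2))) := fun f => by
    change _ + _ ∈ x.1
    rw [map_sub, φβ, sub_zero]
    convert ρI f using 1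
    simp only [ρ, g, LinearMap.coe_mk, AddHom.coe_mk, add_smul, Finset.sum_add_distrib,
      Finset.smul_sum, smul_smul, mul_assoc]
    ring
  refine ⟨⟨J, mkPt hJ fun a ha => ?_⟩, hJ, fun f hf => ?_, fun ht h => ?_⟩
  · have ha' : _ + _ ∈ x.1 := ha
    rw [φβ, mul_zero, zero_smul, add_zero] at ha'
    refine hc.ext (b := 0) ?_
    simp only [← map_smul, ← map_sum, Pi.zero_apply, zero_smul, Finset.sum_const_zero, map_zero]
    exact Ideal.Quotient.eq_zero_iff_mem.2 ha'
  · change _ + _ ∈ x.1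
    rw [φI f (h3 (h43 hf)), p2 f hf, mul_zero, zero_smul, add_zero]
    exact h3 (h43 hf)
  · have h1 : w + (t * φ w) • g ∈ x.1 := h hw
    have h4 := Submodule.smul_of_tower_mem _ (t * φ w)⁻¹ (x.1.sub_mem h1 (h3 hw))
    rw [add_sub_cancel_left, smul_smul, inv_mul_cancel₀, one_smul] at h4
    · exact gI h4
    · rw [φI w (h3 hw)]; exact mul_ne_zero ht hw0

def Mul {β : Fin d → S} {x : Pts k S d} {c : S × Fin d → k} (hc : IsCoord β x.1 c) :
    S →ₐ[k] Matrix (Fin d) (Fin d) k where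
  toFun f := Matrix.of fun i j => c (f * β j, i)
  map_one' := by ext i j; simp [hc.self, one_apply]
  map_mul' f g := by
    ext l j
    simp only [of_apply, mul_apply]
    rw [show f * g * β j = g * β j * f by ring, hc.mul]
    exact Finset.sum_congr rfl fun i _ => by rw [mul_comm (β i) f, mul_comm]
  map_zero' := by ext i j; simp [hc.of_mem x.1.zero_mem]
  map_add' f g := by ext i j; simp [add_mul, hc.add]
  commutes' a := by
    ext i j
    simp [← Algebra.smul_def, hc.smul, hc.self, algebraMap_matrix_apply]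

lemma Mul_eq_zero {β : Fin d → S} {x : Pts k S d} {c : S × Fin d → k} (hc : IsCoord β x.1 c)
    (f : S) : Mul hc f = 0 ↔ f ∈ x.1 := by
  constructor
  · intro h
    have h1 : ∀ j, f * β j ∈ x.1 := fun j => by
      have := hc (f * β j)
      have h2 : ∀ i, c (f * β j, i) = 0 := fun i => congrFun (congrFun h i) j
      simpa [h2] using this
    have h3 := x.1.add_mem (x.1.mul_mem_left f (hc 1))
      (x.1.sum_mem fun j (_ : j ∈ Finset.univ) => Submodule.smul_of_tower_mem _ (c (1, j)) (h1 j))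
    simpa [mul_sub, Finset.mul_sum] using h3
  · intro h
    ext i j
    exact hc.of_mem (x.1.mul_mem_right _ h) i

noncomputable def NX (k : Type) [Field k] (β : Fin d → S) (f : S) :
    Matrix (Fin d) (Fin d) (MvPolynomial (S × Fin d) k) :=
  (d : MvPolynomial (S × Fin d) k) • (Matrix.of fun i j => X (f * β j, i)) -
    (∑ i, X (f * β i, i) : MvPolynomial (S × Fin d) k) • 1

lemma eval_NX {β : Fin d → S} {x : Pts k S d} {c : S × Fin d → k} (hc : IsCoord β x.1 c)
    {f : S} {a : k} {j : ℕ} (h : (f - a • 1) ^ j ∈ x.1) :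
    (eval c).mapMatrix (NX k β f) = (d : k) • Mul hc (f - a • 1) := by
  have h1 : IsNilpotent (Mul hc (f - a • 1)) := ⟨j, by rw [← map_pow, Mul_eq_zero]; exact h⟩
  have h2 := (Matrix.isNilpotent_trace_of_isNilpotent h1).eq_zero
  rw [map_sub, map_smul, map_one, trace_sub, trace_smul, trace_one, sub_eq_zero] at h2
  have h3 : ∑ i, c (f * β i, i) = a * d := by
    rw [Fintype.card_fin, smul_eq_mul] at h2; exact h2
  rw [map_sub (Mul hc), map_smul, map_one]
  ext i l
  simp only [NX, RingHom.mapMatrix_apply, map_apply, Matrix.sub_apply, Matrix.smul_apply, of_apply,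
    smul_eq_mul,
    map_sub, map_mul, map_natCast, eval_X, map_sum, h3, one_apply]
  split_ifs <;> simp [Mul] <;> ring

lemma noetherian_chart [Algebra.FiniteType k S] (β : Fin d → S) :
    TopologicalSpace.NoetherianSpace (D (k := k) β 1) := by
  have := finiteType_chart (k := k) β Set.univ
  have : IsNoetherianRing (MvPolynomial (S × Fin d) k ⧸ van β Set.univ) :=
    Algebra.FiniteType.isNoetherianRing k _
  let F : TopologicalSpace.Opens (D (k := k) β 1) →
      Ideal (MvPolynomial (S × Fin d) k ⧸ van β Set.univ) := fun W =>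
    (van β (Subtype.val '' (W : Set (D (k := k) β 1))ᶜ)).map (Ideal.Quotient.mk _)
  refine StrictMono.wellFoundedGT (f := F) fun W W' h => ?_
  have hle : van β (Subtype.val '' (W : Set (D (k := k) β 1))ᶜ) ≤
      van β (Subtype.val '' (W' : Set (D (k := k) β 1))ᶜ) :=
    van_anti β (Set.image_mono (Set.compl_subset_compl.2 h.le))
  refine lt_of_le_of_ne (Ideal.map_mono hle) fun he => ?_
  obtain ⟨z, hz', hz⟩ := SetLike.exists_of_lt h
  obtain ⟨V, hV, hVW⟩ := isOpen_induced_iff.1 W'.isOpen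
  obtain ⟨c, hc, -⟩ := z.2
  obtain ⟨P, hP, hPV⟩ := basis_lemma β hV z.1 (by
    change z ∈ Subtype.val ⁻¹' V
    rw [hVW]; exact hz') c hc
  have h1 : P ∈ van β (Subtype.val '' (W' : Set (D (k := k) β 1))ᶜ) := by
    by_contra h'
    obtain ⟨_, ⟨u, hu, rfl⟩, hu'⟩ := not_mem_van.1 h'
    have : u ∈ Subtype.val ⁻¹' V := hPV hu'
    rw [hVW] at this
    exact hu this
  have h2 := Ideal.mem_map_of_mem (Ideal.Quotient.mk (van β Set.univ)) h1
  change _ ∈ F W' at h2
  rw [← he, Ideal.mem_quotient_iff_mem (van_anti β (Set.subset_univ _))] at h2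
  exact hP (h2 z.1 ⟨z, hz, rfl⟩ c hc)

lemma exists_open_subset [Algebra.FiniteType k S] {Z : Set (Pts k S d)}
    (hZ : Z ∈ irreducibleComponents (Pts k S d)) : ∃ V, IsOpen V ∧ V.Nonempty ∧ V ⊆ Z := by
  obtain ⟨x, hx⟩ := hZ.1.nonempty
  obtain ⟨β, c, hc⟩ := exists_chart x
  have := noetherian_chart (k := k) β
  have he := (isOpen_D (k := k) β 1).isOpenEmbedding_subtypeVal
  obtain ⟨o, ho, hne, hs⟩ :=
    TopologicalSpace.NoetherianSpace.exists_isOpen_nonempty_subset_irreducibleComponent _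
      (preimage_mem_irreducibleComponents hZ he ⟨x, hx, ⟨x, c, hc, by simp⟩, rfl⟩)
  exact ⟨_, he.isOpenMap o ho, hne.image _, Set.image_subset_iff.2 hs⟩

end Pool.Agent.H80.Hilb
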