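import Mathlib
import Pool.Agent.H80.HilbVC1

namespace Pool.Agent.H80.Hilb
open MvPolynomial Matrix

variable {k : Type} [Field k] {n d : ℕ}

lemma sub_eval_mem (v : Fin n → k) (f : MvPolynomial (Fin n) k) :
    f - eval v f • 1 ∈ Ideal.span (Set.range fun a => (X a - C (v a) : MvPolynomial (Fin n) k)) := by
  induction f using MvPolynomial.induction_on with
  | C a => simp [smul_eq_C_mul]
  | add P Q hP hQ =>
    convert Ideal.add_mem _ hP hQ using 1
    rw [map_add, add_smul]; ring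
  | mul_X P a hP =>
    convert Ideal.add_mem _ (Ideal.mul_mem_right (X a) _ hP)
      (Ideal.mul_mem_left _ (C (eval v P)) (Ideal.subset_span ⟨a, rfl⟩)) using 1
    simp only [map_mul, eval_X, smul_eq_C_mul]; ring

lemma ker_eval_eq (v : Fin n → k) : RingHom.ker (eval v) =
    Ideal.span (Set.range fun a => (X a - C (v a) : MvPolynomial (Fin n) k)) := by
  apply le_antisymm
  · intro f hf
    have := sub_eval_mem v f
    rwa [RingHom.mem_ker.1 hf, zero_smul, sub_zero] at this
  · rw [Ideal.span_le]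
    rintro _ ⟨a, rfl⟩
    simp [RingHom.mem_ker]

lemma finrank_ker_pow (v : Fin n → k) (j : ℕ) :
    Module.Finite k (MvPolynomial (Fin n) k ⧸ RingHom.ker (eval v) ^ j) ∧
    Module.finrank k (MvPolynomial (Fin n) k ⧸ RingHom.ker (eval v) ^ j) =
      ∑ i ∈ Finset.range j, (n + i - 1).choose i := by
  let τ : MvPolynomial (Fin n) k ≃ₐ[k] MvPolynomial (Fin n) k :=
    AlgEquiv.ofAlgHom (aeval fun a => X a - C (v a)) (aeval fun a => X a + C (v a))
      (by ext a : 1; simp) (by ext a : 1; simp)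
  have h : RingHom.ker (eval v) ^ j = (idealOfVars (Fin n) k ^ j).map
      (τ : MvPolynomial (Fin n) k →+* MvPolynomial (Fin n) k) := by
    rw [Ideal.map_pow, ker_eval_eq, idealOfVars, Ideal.map_span, ← Set.range_comp]
    congr 3
    funext a
    simp [τ]
  let e := (Ideal.quotientEquivAlg _ _ τ h).toLinearEquiv
  obtain ⟨h1, h2⟩ := finrank_quot_pow (k := k) n j
  exact ⟨Module.Finite.equiv e, by rw [← e.finrank_eq, h2]⟩

theorem not_component [Infinite k] (hd : (d : k) ≠ 0)
    (hs : ∀ s, (n + s - 1).choose n < d → d ≤ (n + s).choose n → s = 2)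
    (hn : (n + 1) * ∑ i ∈ Finset.range 3, (n + i - 1).choose i <
      n * d + ∑ i ∈ Finset.range 4, (n + i - 1).choose i) (hd2 : 2 * n + 1 < d) :
    closure (VC k n d) ∉ irreducibleComponents (Pts k (MvPolynomial (Fin n) k) d) := by
  intro hZ
  obtain ⟨V, hV, ⟨x0, hx0⟩, hVZ⟩ := exists_open_subset hZ
  obtain ⟨x, hxV, s, v, s1, s2, h3, h2⟩ := mem_closure_iff.1 (hVZ hx0) V hV hx0
  obtain rfl := hs s s1 s2
  obtain ⟨β, c, hc⟩ := exists_chart x
  obtain ⟨P, hP, hPV⟩ := basis_lemma β hV x hxV c hc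
  obtain ⟨f2, r2⟩ := finrank_ker_pow v 2
  obtain ⟨f3, r3⟩ := finrank_ker_pow v 3
  obtain ⟨f4, r4⟩ := finrank_ker_pow v 4
  have hev : ∀ (w : Fin n → k) (f : MvPolynomial (Fin n) k),
      f - eval w f • 1 ∈ RingHom.ker (eval w) := fun w f => ker_eval_eq w ▸ sub_eval_mem w f
  obtain ⟨e, he⟩ := family _ (ker_eval_eq v) (eval v) (hev v) x h3 h2
    (by rw [r3, r4, ← add_one_mul]; exact hn)
    (by rw [r2]; simp [Finset.sum_range_succ]; omega) hc
  let p : Polynomial k := aeval (fun u => Polynomial.C (c u) + Polynomial.X * Polynomial.C (e u)) P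
  have hp : ∀ t, p.eval t = eval (fun u => c u + t * e u) P := fun t => by
    rw [← Polynomial.coe_aeval_eq_eval, ← AlgHom.comp_apply, comp_aeval, aeval_eq_eval]
    simp only [map_add, map_mul, Polynomial.aeval_C, Polynomial.aeval_X, Algebra.algebraMap_self,
      RingHom.id_apply]
  have hp0 : p * Polynomial.X ≠ 0 := mul_ne_zero (fun h => hP (by
    have := hp 0
    simpa [h] using this.symm)) Polynomial.X_ne_zero
  obtain ⟨t, ht⟩ : ∃ t, (p * Polynomial.X).eval t ≠ 0 := by
    by_contra! h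
    exact hp0 (Polynomial.funext fun t => by rw [h t, Polynomial.eval_zero])
  rw [Polynomial.eval_mul, Polynomial.eval_X, hp] at ht
  obtain ⟨z, hz, z4, z3⟩ := he t
  have hzZ := hVZ (hPV ⟨_, hz, left_ne_zero_of_mul ht⟩)
  obtain ⟨g1, h1, g2, h2, g3, h3, hg⟩ : ∃ g1 ∈ RingHom.ker (eval v), ∃ g2 ∈ RingHom.ker (eval v),
      ∃ g3 ∈ RingHom.ker (eval v), g1 * g2 * g3 ∉ z.1 := by
    by_contra! h
    apply z3 (right_ne_zero_of_mul ht)
    rw [pow_succ, pow_two]
    refine Ideal.mul_le.2 fun r hr s hs => ?_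
    refine Submodule.mul_induction_on hr (fun a ha b hb => h a ha b hb s hs) fun a b ha hb => ?_
    rw [add_mul]; exact z.1.add_mem ha hb
  have key : ∀ (y : Pts k (MvPolynomial (Fin n) k) d) (c : _ → k) (hc : IsCoord β y.1 c)
      (w : Fin n → k) (j : ℕ), RingHom.ker (eval w) ^ j ≤ y.1 →
      (eval c).mapMatrix (NX k β g1 * NX k β g2 * NX k β g3) = (d : k) ^ 3 •
        Mul hc ((g1 - eval w g1 • 1) * (g2 - eval w g2 • 1) * (g3 - eval w g3 • 1)) := by
    intro y c hc w j hj
    have := fun g => eval_NX hc (hj (Ideal.pow_mem_pow (hev w g) j))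
    simp only [map_mul, this, smul_mul_smul_comm]
    congr 1; ring
  have k1 := key z _ hz v 4 z4
  rw [RingHom.mem_ker.1 h1, RingHom.mem_ker.1 h2, RingHom.mem_ker.1 h3] at k1
  simp only [zero_smul, sub_zero] at k1
  have k2 := smul_ne_zero (pow_ne_zero 3 hd) (mt (Mul_eq_zero hz _).1 hg)
  rw [← k1] at k2
  obtain ⟨i, j, hij⟩ : ∃ i j, eval (fun u => c u + t * e u)
      ((NX k β g1 * NX k β g2 * NX k β g3) i j) ≠ 0 := by
    by_contra! h
    exact k2 (Matrix.ext fun i j => h i j)
  obtain ⟨y, ⟨c', hc', hne⟩, s, w, s1, s2, y3, -⟩ :=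
    mem_closure_iff.1 hzZ _ (isOpen_D β _) ⟨_, hz, hij⟩
  obtain rfl := hs s s1 s2
  have k3 := key y c' hc' w 3 y3
  rw [(Mul_eq_zero hc' _).2 (y3 (by
    rw [pow_succ, pow_two]
    exact Ideal.mul_mem_mul (Ideal.mul_mem_mul (hev w _) (hev w _)) (hev w _))), smul_zero] at k3
  exact hne (congrFun (congrFun k3 i) j)

theorem not_smoothable [Infinite k] {r : ℕ} (hd : d = 1 + n + r) (hr : r ≤ (n + 1).choose 2)
    (hn : d * (r + n) < r * (n + 1).choose 2) :
    ∃ x : Pts k (MvPolynomial (Fin n) k) d, idealOfVars (Fin n) k ^ 3 ≤ x.1 ∧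
      x.1 ≤ idealOfVars (Fin n) k ^ 2 ∧ x ∉ Smoothable k n d := by
  classical
  let T : Finset (Fin n →₀ ℕ) := Finset.univ.finsuppAntidiag 2
  have hT : ∀ u ∈ T, u.degree = 2 := fun u hu => by
    simpa [T, Finset.mem_finsuppAntidiag, Finsupp.degree_eq_sum] using hu
  have hTc : Fintype.card T = (n + 1).choose 2 := by
    simp [T, Finset.card_finsuppAntidiag_nat_eq_choose]
  obtain ⟨ι⟩ : Nonempty (Fin r ↪ T) := Function.Embedding.nonempty_of_card_le (by simpa [hTc])
  obtain ⟨F, hF0, hF⟩ := exists_rel (k := k) (ι := Fin r × T) (σ := Fin d × (Fin r ⊕ Fin n))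
    (by simpa [hTc] using hn)
    (fun t => ∑ i, X (i, Sum.inl t.1) * rename (fun a => (i, Sum.inr a)) (monomial t.2.1 1))
  have hF' : ∀ (l : Fin d → Fin r → k) (p : Fin d → Fin n → k),
      eval (fun t : Fin r × T => ∑ i, l i t.1 * eval (p i) (monomial t.2.1 1)) F = 0 := by
    intro l p
    have := congrArg (aeval (fun s : Fin d × (Fin r ⊕ Fin n) => Sum.elim (l s.1) (p s.1) s.2)) hF
    rw [map_zero, ← AlgHom.comp_apply, comp_aeval] at this
    rw [← aeval_eq_eval, ← this]
    congr 2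
    funext t
    simp only [map_sum, map_mul, aeval_X, Sum.elim_inl, aeval_rename, aeval_eq_eval]
    rfl
  let MX : Matrix (Fin r) (Fin r) (MvPolynomial (Fin r × T) k) := Matrix.of fun j i => X (j, ι i)
  have hM : ∀ w : Fin r × T → k, eval w MX.det = (Matrix.of fun j i => w (j, ι i)).det := fun w => by
    rw [RingHom.map_det]; congr 1; ext j i; simp [MX]
  have hM0 : MX.det ≠ 0 := fun h => by
    have := hM fun t => if ι t.1 = t.2 then 1 else 0
    rw [h, map_zero, show (Matrix.of fun j i => if ι j = ι i then (1 : k) else 0) = 1 by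
      ext j i; simp [one_apply], det_one] at this
    exact zero_ne_one this
  obtain ⟨w, hw⟩ : ∃ w, eval w (F * MX.det) ≠ 0 := by
    by_contra! h
    exact mul_ne_zero hF0 hM0 (MvPolynomial.funext fun x => by rw [h x, map_zero])
  rw [map_mul, hM] at hw
  let W : Fin r → MvPolynomial (Fin n) k →ₗ[k] k := fun j => ∑ u : T, w (j, u) • lcoeff k u.1
  have hW : ∀ j (u : T), W j (monomial u.1 1) = w (j, u) := fun j u => by
    simp only [W, LinearMap.coe_sum, Finset.sum_apply, LinearMap.smul_apply, lcoeff_apply,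
      coeff_monomial, smul_eq_mul]
    rw [Finset.sum_eq_single u]
    · simp
    · intro b' _ hb; rw [if_neg fun h => hb (Subtype.ext h).symm, mul_zero]
    · simp
  have hW3 : ∀ j, ∀ f ∈ idealOfVars (Fin n) k ^ 3, W j f = 0 := fun j f hf => by
    simp only [W, LinearMap.coe_sum, Finset.sum_apply, LinearMap.smul_apply, lcoeff_apply]
    refine Finset.sum_eq_zero fun u _ => ?_
    rw [(mem_pow_idealOfVars_iff' 3 f).1 hf _ (by rw [hT u.1 u.2]; norm_num), smul_zero]
  let I : Ideal (MvPolynomial (Fin n) k) :=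
    { carrier := {f | f ∈ idealOfVars (Fin n) k ^ 2 ∧ ∀ j, W j f = 0}
      add_mem' := fun hf hg => ⟨Ideal.add_mem _ hf.1 hg.1, fun j => by simp [hf.2 j, hg.2 j]⟩
      zero_mem' := ⟨Ideal.zero_mem _, fun j => by simp⟩
      smul_mem' := fun g f hf => ⟨Ideal.mul_mem_left _ _ hf.1, fun j => by
        have h1 : g - C (coeff 0 g) ∈ idealOfVars (Fin n) k ^ 1 :=
          (mem_pow_idealOfVars_iff' 1 _).2 fun x hx => by
            have : x = 0 := (Finsupp.degree_eq_zero_iff x).1 (by omega)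
            simp [this]
        have h2 := Ideal.mul_mem_mul h1 hf.1
        rw [← pow_add] at h2
        have h3 := hW3 j _ h2
        rw [sub_mul, map_sub, C_mul', map_smul, hf.2 j, smul_zero, sub_zero] at h3
        exact h3⟩ }
  obtain ⟨hfin, hrk⟩ := finrank_quot_pow (k := k) n 2
  let Φ := (Ideal.Quotient.mkₐ k (idealOfVars (Fin n) k ^ 2)).toLinearMap.prod (LinearMap.pi W)
  have hΦ : Function.Surjective Φ := by
    rintro ⟨z, a⟩
    obtain ⟨f, rfl⟩ := Ideal.Quotient.mk_surjective z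
    let b := (Matrix.of fun j i => w (j, ι i))⁻¹ *ᵥ (a - fun j => W j f)
    refine ⟨f + ∑ i, b i • monomial (ι i).1 1, Prod.ext ?_ (funext fun j => ?_)⟩
    · refine Ideal.Quotient.eq.2 ?_
      rw [add_sub_cancel_left]
      exact Ideal.sum_mem _ fun i _ => Submodule.smul_of_tower_mem _ _
        ((monomial_mem_pow_idealOfVars_iff 2 _ one_ne_zero).2 (hT _ (ι i).2).ge)
    · change W j _ = a j
      have : ((Matrix.of fun j i => w (j, ι i)) *ᵥ b) j = a j - W j f := by
        rw [mulVec_mulVec, mul_nonsing_inv _ (IsUnit.mk0 _ (right_ne_zero_of_mul hw)), one_mulVec]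
        rfl
      simp only [map_add, map_sum, map_smul, hW, smul_eq_mul]
      simp only [mulVec, dotProduct, of_apply, mul_comm (w _)] at this
      rw [this]; ring
  have hk : LinearMap.ker Φ = I.restrictScalars k := by
    ext f
    exact ⟨fun hf => ⟨Ideal.Quotient.eq_zero_iff_mem.1 (congrArg Prod.fst hf),
      fun j => congrFun (congrArg Prod.snd hf) j⟩,
      fun hf => Prod.ext (Ideal.Quotient.eq_zero_iff_mem.2 hf.1) (funext hf.2)⟩
  let e := (Submodule.Quotient.restrictScalarsEquiv k I).symm.trans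
      ((Submodule.quotEquivOfEq _ _ hk.symm).trans (Φ.quotKerEquivOfSurjective hΦ))
  let x : Pts k (MvPolynomial (Fin n) k) d := ⟨I, Module.Finite.equiv e.symm, by
    rw [e.finrank_eq, Module.finrank_prod, hrk, hd]; simp [Finset.sum_range_succ]⟩
  refine ⟨x, fun f hf => ⟨Ideal.pow_le_pow_right (by norm_num) hf, fun j => hW3 j f hf⟩,
    fun f hf => hf.1, fun hx => ?_⟩
  obtain ⟨β, c', hc'⟩ := exists_chart x
  let P : MvPolynomial (MvPolynomial (Fin n) k × Fin d) k := aeval (fun t : Fin r × T =>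
    ∑ i, C (W t.1 (β i)) * X (monomial t.2.1 1, i)) F
  have hP : ∀ c : MvPolynomial (Fin n) k × Fin d → k, eval c P = eval (fun t : Fin r × T =>
      ∑ i, W t.1 (β i) * c (monomial t.2.1 1, i)) F := fun c => by
    rw [← aeval_eq_eval, ← aeval_eq_eval, ← AlgHom.comp_apply, comp_aeval]
    simp
  have h1 : x ∈ D β P := by
    refine ⟨c', hc', ?_⟩
    rw [hP]
    convert left_ne_zero_of_mul hw with t
    have := (hc' (monomial t.2.1 1)).2 t.1
    rw [map_sub, hW, map_sum, sub_eq_zero] at this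
    rw [show w t = w (t.1, t.2) from rfl, this]
    simp [mul_comm]
  obtain ⟨J, ⟨c, hc, hne⟩, p, -, hp⟩ := mem_closure_iff.1 hx _ (isOpen_D β P) h1
  choose l hl using fun j => comb_eval hc hp fun i => W j (β i)
  apply hne
  rw [hP, ← hF' (fun i j => l j i) p]
  congr 2
  funext t
  rw [hl]

theorem vc_main (k : Type) [Field k] [Infinite k] : ∃ n d : ℕ, 1 ≤ n ∧ 1 ≤ d ∧
    ¬ VC k n d ⊆ Smoothable k n d ∧
    closure (VC k n d) ∉ irreducibleComponents (Pts k (MvPolynomial (Fin n) k) d) := by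
  obtain ⟨r, hr, hd⟩ : ∃ r, (r = 48 ∨ r = 49) ∧ ((1 + 12 + r : ℕ) : k) ≠ 0 := by
    by_contra! h
    have h1 := h 48 (Or.inl rfl)
    have h2 := h 49 (Or.inr rfl)
    rw [show 1 + 12 + 49 = 1 + 12 + 48 + 1 from rfl, Nat.cast_succ, h1] at h2
    simp at h2
  refine ⟨12, 1 + 12 + r, by norm_num, by omega, fun h => ?_, not_component hd ?_ ?_ (by omega)⟩
  · obtain ⟨x, h3, h2, hx⟩ := not_smoothable (k := k) (n := 12) (r := r) rfl
      (by rcases hr with rfl | rfl <;> decide) (by rcases hr with rfl | rfl <;> decide)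
    have : idealOfVars (Fin 12) k = RingHom.ker (eval 0) := by
      rw [ker_eval_eq]; simp [idealOfVars]
    exact hx (h ⟨2, 0, by rcases hr with rfl | rfl <;> decide,
      by rcases hr with rfl | rfl <;> decide, this ▸ h3, this ▸ h2⟩)
  · intro s s1 s2
    by_contra hs
    rcases lt_or_gt_of_ne hs with h | h
    · have := Nat.choose_le_choose 12 (show 12 + s ≤ 13 by omega)
      have e : Nat.choose 13 12 = 13 := by decide
      omega
    · have := Nat.choose_le_choose 12 (show 14 ≤ 12 + s - 1 by omega)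
      have e : Nat.choose 14 12 = 91 := by decide
      omega
  · rcases hr with rfl | rfl <;> decide

end Pool.Agent.H80.Hilb
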