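import Mathlib
import Pool.Agent.H80.HilbVC2

namespace Pool.Agent.H80.Hilb
open MvPolynomial

lemma ch2 (n : ℕ) : 2 * (n + 1).choose 2 = (n + 1) * n := by
  induction n with
  | zero => rfl
  | succ n ih => rw [Nat.choose_succ_succ' (n + 1) 1, Nat.choose_one_right]; nlinarith

lemma ch3 (n : ℕ) : 6 * (n + 2).choose 3 = (n + 2) * (n + 1) * n := by
  induction n with
  | zero => rfl
  | succ n ih =>
    have := ch2 (n + 1)
    rw [show n + 1 + 2 = (n + 2) + 1 from rfl, Nat.choose_succ_succ' (n + 2) 2]
    rw [show n + 1 + 1 = n + 2 from rfl] at this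
    nlinarith

theorem upper_range (k : Type) [Field k] [Infinite k] (n r : ℕ) (hd : ((1 + n + r : ℕ) : k) ≠ 0)
    (hn : 4 ≤ n) (h1 : n ^ 2 < 3 * r + 1) (h2 : r ≤ (n + 1).choose 2) :
    closure (VC k n (1 + n + r)) ∉
      irreducibleComponents (Pts k (MvPolynomial (Fin n) k) (1 + n + r)) ∧
    ((1 + n + r) * (r + n) < r * (n + 1).choose 2 →
      ¬ VC k n (1 + n + r) ⊆ Smoothable k n (1 + n + r)) := by
  have c1 : (n + 1).choose n = n + 1 := Nat.choose_succ_self_right n
  have c2 : (n + 2).choose n = 1 + n + (n + 1).choose 2 := by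
    rw [Nat.choose_symm_add, Nat.choose_succ_succ' (n + 1) 1, Nat.choose_one_right]; ring
  have hr : n < r := by nlinarith
  refine ⟨not_component hd (fun s s1 s2 => ?_) ?_ (by omega), fun h hs => ?_⟩
  · by_contra hs
    rcases lt_or_gt_of_ne hs with h | h
    · have := Nat.choose_le_choose n (show n + s ≤ n + 1 by omega)
      omega
    · have := Nat.choose_le_choose n (show n + 2 ≤ n + s - 1 by omega)
      omega
  · simp only [Finset.sum_range_succ, Finset.range_zero, Finset.sum_empty, Nat.choose_zero_right,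
      Nat.add_sub_cancel, Nat.choose_one_right, show n + 2 - 1 = n + 1 from rfl,
      show n + 3 - 1 = n + 2 from rfl]
    have e2 := ch2 n
    have e3 := ch3 n
    generalize (n + 1).choose 2 = a at *
    generalize (n + 2).choose 3 = b at *
    have : n * n ^ 2 < n * (3 * r + 1) := Nat.mul_lt_mul_of_pos_left h1 (by omega)
    have e4 : n * (2 * a) = n * ((n + 1) * n) := by rw [e2]
    nlinarith
  · obtain ⟨x, h3, h2', hx⟩ := not_smoothable (k := k) (n := n) (r := r) rfl h2 h
    have : idealOfVars (Fin n) k = RingHom.ker (eval 0) := by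
      rw [ker_eval_eq]; simp [idealOfVars]
    exact hx (hs ⟨2, 0, by rw [show n + 2 - 1 = n + 1 from rfl]; omega, by omega,
      this ▸ h3, this ▸ h2'⟩)

end Pool.Agent.H80.Hilb
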