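import Pool.Agent.H80.IbDefs

set_option autoImplicit false

namespace Pool.Agent.H80.Ib

open MeasureTheory Metric Set Filter Topology
open scoped RealInnerProductSpace ENNReal NNReal

lemma haar_equiv {U V : Type} [NormedAddCommGroup U] [NormedSpace ℝ U] [FiniteDimensional ℝ U]
    [MeasurableSpace U] [BorelSpace U] [NormedAddCommGroup V] [NormedSpace ℝ V]
    [FiniteDimensional ℝ V] [MeasurableSpace V] [BorelSpace V]
    (μ : Measure U) (ν : Measure V) [μ.IsAddHaarMeasure] [ν.IsAddHaarMeasure] (e : U ≃L[ℝ] V) :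
    ∃ c : ℝ, 0 < c ∧ (∀ f : V → ℝ, ∫ x, f (e x) ∂μ = c * ∫ y, f y ∂ν) ∧
      ∀ f : V → ℝ, Integrable (fun x => f (e x)) μ ↔ Integrable f ν := by
  have hs := Measure.isAddLeftInvariant_eq_smul (Measure.map e μ) ν
  have hp := Measure.addHaarScalarFactor_pos_of_isAddHaarMeasure (Measure.map e μ) ν
  set c := Measure.addHaarScalarFactor (Measure.map e μ) ν
  refine ⟨c, by exact_mod_cast hp, fun f => ?_, fun f => ?_⟩
  · have := integral_map_equiv (μ := μ) e.toHomeomorph.toMeasurableEquiv f
    change ∫ y, f y ∂(Measure.map e μ) = ∫ x, f (e x) ∂μ at this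
    rw [← this, hs, integral_smul_nnreal_measure]
    rfl
  · have := integrable_map_equiv (μ := μ) e.toHomeomorph.toMeasurableEquiv f
    change Integrable f (Measure.map e μ) ↔ Integrable (fun x => f (e x)) μ at this
    rw [← this, hs]
    exact integrable_smul_measure (c := (c : ℝ≥0∞)) (by exact_mod_cast hp.ne') ENNReal.coe_ne_top

variable {E : Type} [NormedAddCommGroup E] [InnerProductSpace ℝ E] [FiniteDimensional ℝ E]
  [MeasurableSpace E] [BorelSpace E]

lemma polar_int [Nontrivial E] {g : E → ℝ} (hg : Integrable g) :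
    ∫ x, g x = sphInt (fun u : E => ∫ r in Ioi (0:ℝ), r ^ (Module.finrank ℝ E - 1) * g (r • u)) := by
  have mp := (volume : Measure E).measurePreserving_homeomorphUnitSphereProd
  have me := (homeomorphUnitSphereProd E).measurableEmbedding
  let G : sphere (0:E) 1 × Ioi (0:ℝ) → ℝ := fun p => g ((p.2 : ℝ) • (p.1 : E))
  have hG : ∀ x : ({0}ᶜ : Set E), G (homeomorphUnitSphereProd E x) = g x := by
    intro x
    have hx : (x : E) ≠ 0 := x.2
    simp only [G, homeomorphUnitSphereProd_apply_snd_coe, homeomorphUnitSphereProd_apply_fst_coe]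
    rw [smul_smul, mul_inv_cancel₀ (norm_ne_zero_iff.2 hx), one_smul]
  have e1 : ∫ x, g x = ∫ x : ({0}ᶜ : Set E), g x ∂(Measure.comap Subtype.val (volume : Measure E)) := by
    rw [integral_subtype_comap (measurableSet_singleton _).compl g, restrict_compl_singleton]
  have i1 : Integrable G ((volume : Measure E).toSphere.prod
      (Measure.volumeIoiPow (Module.finrank ℝ E - 1))) := by
    rw [← mp.integrable_comp_emb me]
    have : G ∘ homeomorphUnitSphereProd E = g ∘ (↑) := funext hG
    rw [this, ← integrableOn_iff_comap_subtypeVal (measurableSet_singleton _).compl]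
    exact hg.integrableOn
  rw [e1]
  simp_rw [← hG]
  rw [mp.integral_comp me G, integral_prod _ i1, sphInt]
  congr 1
  ext u
  simp only [Measure.volumeIoiPow, ENNReal.ofReal, G]
  rw [integral_withDensity_eq_integral_smul,
    integral_subtype_comap measurableSet_Ioi
      fun a => Real.toNNReal (a ^ (Module.finrank ℝ E - 1)) • g (a • (u : E)),
    setIntegral_congr_fun measurableSet_Ioi fun x hx => ?_]
  · rw [NNReal.smul_def, Real.coe_toNNReal _ (pow_nonneg hx.out.le _), smul_eq_mul]
  · exact (measurable_subtype_coe.pow_const _).real_toNNReal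

/-- autocorrelation -/
noncomputable def AC (B : E → ℝ) (x : E) : ℝ := ∫ s, B (x + s) * B s

structure Cc (B : E → ℝ) (M : ℝ) : Prop where
  cont : Continuous B
  zero : ∀ x, M < ‖x‖ → B x = 0

lemma Cc.hcs {B : E → ℝ} {M : ℝ} (h : Cc B M) : HasCompactSupport B :=
  HasCompactSupport.intro (isCompact_closedBall 0 M) fun x hx => h.zero x (by simpa using hx)

lemma Cc.int {B : E → ℝ} {M : ℝ} (h : Cc B M) : Integrable B :=
  h.cont.integrable_of_hasCompactSupport h.hcs

lemma Cc.ac {B : E → ℝ} {M : ℝ} (h : Cc B M) : Cc (AC B) (2 * M) := by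
  constructor
  · have e : AC B = fun x => ∫ s in closedBall 0 M, B (x + s) * B s := by
      ext x
      rw [AC, setIntegral_eq_integral_of_forall_compl_eq_zero]
      intro s hs
      rw [h.zero s (by simpa using hs), mul_zero]
    rw [e]
    have := h.cont
    exact continuous_parametric_integral_of_continuous (by fun_prop) (isCompact_closedBall 0 M)
  · intro x hx
    have : ∀ s, B (x + s) * B s = 0 := by
      intro s
      by_cases hs : M < ‖s‖
      · rw [h.zero s hs, mul_zero]
      · rw [h.zero (x + s), zero_mul]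
        have := norm_sub_le (x + s) s
        rw [add_sub_cancel_right] at this
        linarith
    simp [AC, this]

lemma AC_neg (B : E → ℝ) (x : E) : AC B (-x) = AC B x := by
  unfold AC
  rw [← integral_add_left_eq_self (fun s => B (-x + s) * B s) x]
  simp [mul_comm]

lemma hyp_pos {B : E → ℝ} {M : ℝ} (h : Cc B M) {v : E} (hv : ‖v‖ = 1) :
    0 ≤ ∫ w : ((ℝ ∙ v)ᗮ : Submodule ℝ E), AC B w := by
  set W : Submodule ℝ E := (ℝ ∙ v)ᗮ with hW
  have hc := h.cont
  have i1 : Integrable (Function.uncurry fun (w : W) (s : E) => B (w + s) * B s)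
      ((volume : Measure W).prod (volume : Measure E)) := by
    apply Continuous.integrable_of_hasCompactSupport (by unfold Function.uncurry; fun_prop)
    refine HasCompactSupport.intro ((isCompact_closedBall (0:W) (2 * M)).prod
      (isCompact_closedBall (0:E) M)) ?_
    rintro ⟨w, s⟩ hp
    simp only [Function.uncurry]
    by_cases hs : M < ‖s‖
    · rw [h.zero s hs, mul_zero]
    · rw [h.zero (w + s), zero_mul]
      have h1 := norm_sub_le ((w : E) + s) s
      rw [add_sub_cancel_right] at h1
      have h2 : 2 * M < ‖w‖ := by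
        by_contra h3
        exact hp ⟨by simpa using h3, by simpa using hs⟩
      have : ‖w‖ = ‖(w : E)‖ := rfl
      linarith
  unfold AC
  rw [integral_integral_swap i1]
  have i2 := i1.integral_prod_right
  simp only [Function.uncurry] at i2
  let T0 : (ℝ × W) →ₗ[ℝ] E := (LinearMap.toSpanSingleton ℝ E v).coprod W.subtype
  have hT0 : ∀ p : ℝ × W, T0 p = p.1 • v + p.2 := fun p => rfl
  have vv : ⟪v, v⟫ = 1 := by rw [real_inner_self_eq_norm_sq, hv]; norm_num
  have hb : Function.Bijective T0 := by
    constructor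
    · rw [← LinearMap.ker_eq_bot, LinearMap.ker_eq_bot']
      rintro ⟨t, w⟩ hp
      rw [hT0] at hp
      have h1 : ⟪v, (w : E)⟫ = 0 := Submodule.mem_orthogonal_singleton_iff_inner_right.1 w.2
      have h2 := congrArg (fun x => ⟪v, x⟫) hp
      simp only [inner_add_right, real_inner_smul_right, vv, h1, inner_zero_right] at h2
      have ht : t = 0 := by linarith
      subst ht
      simp only [zero_smul, zero_add] at hp
      simp [Subtype.ext_iff, hp]
    · intro x
      refine ⟨(⟪v, x⟫, ⟨x - ⟪v, x⟫ • v, ?_⟩), by simp [hT0]⟩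
      rw [hW, Submodule.mem_orthogonal_singleton_iff_inner_right, inner_sub_right,
        real_inner_smul_right, vv]; ring
  let T : (ℝ × W) ≃L[ℝ] E := (LinearEquiv.ofBijective T0 hb).toContinuousLinearEquiv
  have hT : ∀ p : ℝ × W, T p = p.1 • v + p.2 := fun p => rfl
  obtain ⟨c, c0, k1, k2⟩ := haar_equiv ((volume : Measure ℝ).prod (volume : Measure W))
    (volume : Measure E) T
  have i3 := (k2 _).2 i2
  have k3 := k1 fun s => ∫ w : W, B (w + s) * B s
  rw [integral_prod _ i3] at k3
  apply nonneg_of_mul_nonneg_right _ c0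
  rw [← k3]
  apply integral_nonneg
  intro t
  have : ∀ w' : W, ∫ w : W, B (w + T (t, w')) * B (T (t, w')) =
      (∫ w : W, B (t • v + w)) * B (t • v + w') := by
    intro w'
    rw [integral_mul_const, hT]
    congr 1
    rw [← integral_add_right_eq_self (fun w : W => B (t • v + w)) w']
    congr 1; ext w; congr 1
    simp only [Submodule.coe_add]; abel
  simp only [this, integral_const_mul]
  exact mul_self_nonneg _

/-- positive definiteness of `1 / N` -/
lemma ib_pos (hn : 2 ≤ Module.finrank ℝ E) {K : Set E} (hK : IsIntersectionBody K) {N : E → ℝ}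
    (hN : ∀ u, ‖u‖ = 1 → radial K u = (N u)⁻¹) (hh : ∀ t : ℝ, 0 < t → ∀ x, N (t • x) = t * N x)
    {B : E → ℝ} {M : ℝ} (h : Cc B M) (hi : Integrable fun x => AC B x * (N x)⁻¹) :
    0 ≤ ∫ x, AC B x * (N x)⁻¹ := by
  obtain ⟨μ, -, -, hμ⟩ := hK
  have : Nontrivial E := Module.nontrivial_of_finrank_pos (R := ℝ) (by omega)
  set f : E → ℝ := fun u => ∫ r in Ioi (0:ℝ), r ^ (Module.finrank ℝ E - 2) * AC B (r • u) with hf
  have hA := h.ac
  have c1 : ContinuousOn f (sphere 0 1) := by
    have hc := hA.cont
    have c2 : Continuous fun u : E => ∫ r in Icc (0:ℝ) (2 * M),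
        r ^ (Module.finrank ℝ E - 2) * AC B (r • u) :=
      continuous_parametric_integral_of_continuous (by fun_prop) isCompact_Icc
    refine c2.continuousOn.congr fun u hu => ?_
    have hu' : ‖u‖ = 1 := by simpa using hu
    simp only [hf]
    rw [integral_Icc_eq_integral_Ioc, eq_comm]
    refine (setIntegral_eq_of_subset_of_forall_diff_eq_zero measurableSet_Ioi Ioc_subset_Ioi_self
      ?_).symm
    rintro r ⟨h1, h2⟩
    have h3 : 2 * M < r := by
      by_contra h4; exact h2 ⟨h1, not_lt.1 h4⟩
    rw [hA.zero, mul_zero]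
    rwa [norm_smul, hu', mul_one, Real.norm_eq_abs, abs_of_pos h1]
  have k := hμ f c1 (fun u _ => by simp only [hf, smul_neg, AC_neg])
  have e1 : ∫ x, AC B x * (N x)⁻¹ = sphInt (fun u => radial K u * f u) := by
    rw [polar_int hi]
    unfold sphInt
    congr 1; ext u
    simp only
    rw [hN u (by simp), hf, ← integral_const_mul]
    refine setIntegral_congr_fun measurableSet_Ioi fun r hr => ?_
    have hr' : (0:ℝ) < r := hr
    rw [hh r hr', show Module.finrank ℝ E - 1 = Module.finrank ℝ E - 2 + 1 by omega, pow_succ,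
      mul_inv]
    field_simp
  rw [e1, k]
  apply integral_nonneg
  intro v
  have hv : ‖(v : E)‖ = 1 := by simp
  have hv0 : (v : E) ≠ 0 := by intro h0; rw [h0] at hv; simp at hv
  have fr : Module.finrank ℝ ((ℝ ∙ (v : E))ᗮ : Submodule ℝ E) = Module.finrank ℝ E - 1 := by
    have := (ℝ ∙ (v : E)).finrank_add_finrank_orthogonal
    rw [finrank_span_singleton hv0] at this
    omega
  have : Nontrivial ((ℝ ∙ (v : E))ᗮ : Submodule ℝ E) :=
    Module.nontrivial_of_finrank_pos (R := ℝ) (by omega)
  have hW : Cc (fun w : ((ℝ ∙ (v : E))ᗮ : Submodule ℝ E) => AC B w) (2 * M) :=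
    ⟨hA.cont.comp continuous_subtype_val, fun w hw => hA.zero _ hw⟩
  have := hyp_pos h hv
  rw [polar_int hW.int, fr, show Module.finrank ℝ E - 1 - 1 = Module.finrank ℝ E - 2 by omega]
    at this
  exact this

end Pool.Agent.H80.Ib
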