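import Mathlib

set_option autoImplicit false

namespace Pool.Agent.H80.Ib

open Metric Set Filter Topology Classical
open scoped RealInnerProductSpace

variable {E : Type} [NormedAddCommGroup E] [InnerProductSpace ℝ E]

noncomputable def hN (A : Finset E) (x : E) : ℝ := sSup ((fun a => ⟪a, x⟫) '' (A : Set E))

noncomputable def face (A : Finset E) (x : E) : Finset E := A.filter fun a => ⟪a, x⟫ = hN A x

noncomputable def wd (e : E) (A : Finset E) : ℝ := hN A e + hN A (-e)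

lemma hN_greatest {A : Finset E} (hA : A.Nonempty) (x : E) :
    IsGreatest ((fun a => ⟪a, x⟫) '' (A : Set E)) (hN A x) :=
  ((A.finite_toSet.image _).isCompact).isGreatest_sSup (hA.to_set.image _)

lemma le_hN {A : Finset E} {a : E} (ha : a ∈ A) (x : E) : ⟪a, x⟫ ≤ hN A x :=
  (hN_greatest ⟨a, ha⟩ x).2 ⟨a, ha, rfl⟩

lemma ex_hN {A : Finset E} (hA : A.Nonempty) (x : E) : ∃ a ∈ A, ⟪a, x⟫ = hN A x :=
  (hN_greatest hA x).1

lemma hN_eq {A : Finset E} {a x : E} (ha : a ∈ A) (h : ∀ b ∈ A, ⟪b, x⟫ ≤ ⟪a, x⟫) :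
    hN A x = ⟪a, x⟫ := by
  obtain ⟨b, hb, e⟩ := ex_hN ⟨a, ha⟩ x
  exact le_antisymm (e ▸ h b hb) (le_hN ha x)

lemma mem_face {A : Finset E} {a x : E} : a ∈ face A x ↔ a ∈ A ∧ ⟪a, x⟫ = hN A x :=
  Finset.mem_filter

lemma face_ne {A : Finset E} (hA : A.Nonempty) (x : E) : (face A x).Nonempty := by
  obtain ⟨a, ha, e⟩ := ex_hN hA x
  exact ⟨a, mem_face.2 ⟨ha, e⟩⟩

lemma face_sub (A : Finset E) (x : E) : face A x ⊆ A := Finset.filter_subset _ _

lemma hN_smul {A : Finset E} (hA : A.Nonempty) {t : ℝ} (ht : 0 ≤ t) (x : E) :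
    hN A (t • x) = t * hN A x := by
  obtain ⟨a, ha, e⟩ := ex_hN hA x
  rw [hN_eq ha, real_inner_smul_right, e]
  intro b hb
  rw [real_inner_smul_right, real_inner_smul_right, e]
  exact mul_le_mul_of_nonneg_left (le_hN hb x) ht

lemma face_smul {A : Finset E} (hA : A.Nonempty) {t : ℝ} (ht : 0 < t) (x : E) :
    face A (t • x) = face A x := by
  ext a
  rw [mem_face, mem_face, hN_smul hA ht.le, real_inner_smul_right, mul_right_inj' ht.ne']

lemma hN_lip {A : Finset E} (hA : A.Nonempty) {C : ℝ} (hC : ∀ a ∈ A, ‖a‖ ≤ C) (x y : E) :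
    |hN A x - hN A y| ≤ C * ‖x - y‖ := by
  have k : ∀ x y : E, hN A x - hN A y ≤ C * ‖x - y‖ := by
    intro x y
    obtain ⟨a, ha, e⟩ := ex_hN hA x
    have h1 := le_hN ha y
    have h2 : ⟪a, x - y⟫ ≤ C * ‖x - y‖ :=
      (real_inner_le_norm _ _).trans (mul_le_mul_of_nonneg_right (hC a ha) (norm_nonneg _))
    rw [inner_sub_right] at h2
    linarith
  have h1 := k x y
  have h2 := k y x
  rw [norm_sub_rev] at h2
  exact abs_le.2 ⟨by linarith, h1⟩

lemma ex_bound (A : Finset E) : ∃ C, 0 ≤ C ∧ ∀ a ∈ A, ‖a‖ ≤ C :=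
  ⟨∑ a ∈ A, ‖a‖, Finset.sum_nonneg fun _ _ => norm_nonneg _,
    fun a ha => Finset.single_le_sum (f := fun a => ‖a‖) (fun _ _ => norm_nonneg _) ha⟩

lemma hN_cont {A : Finset E} (hA : A.Nonempty) : Continuous (hN A) := by
  obtain ⟨C, h0, hC⟩ := ex_bound A
  refine (LipschitzWith.of_dist_le_mul (K := ⟨C, h0⟩) fun x y => ?_).continuous
  rw [Real.dist_eq, dist_eq_norm]
  exact hN_lip hA hC x y

lemma local_face {A : Finset E} (hA : A.Nonempty) (x : E) :
    ∀ᶠ h in 𝓝 (0 : E), hN A (x + h) = hN A x + hN (face A x) h ∧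
      face A (x + h) = face (face A x) h := by
  have ev : ∀ᶠ h in 𝓝 (0 : E), ∀ a ∈ A, ∀ b ∈ face A x, a ∉ face A x →
      ⟪a, x + h⟫ < ⟪b, x + h⟫ := by
    rw [eventually_all_finset]
    intro a ha
    rw [eventually_all_finset]
    intro b hb
    by_cases h1 : a ∈ face A x
    · exact Eventually.of_forall fun h h2 => absurd h1 h2
    · have h2 : ⟪a, x + 0⟫ < ⟪b, x + 0⟫ := by
        rw [add_zero, (mem_face.1 hb).2]
        exact lt_of_le_of_ne (le_hN ha x) fun h3 => h1 (mem_face.2 ⟨ha, h3⟩)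
      have := ContinuousAt.eventually_lt (f := fun h => ⟪a, x + h⟫) (g := fun h => ⟪b, x + h⟫)
        (x₀ := 0) (by fun_prop) (by fun_prop) h2
      exact this.mono fun h h3 _ => h3
  filter_upwards [ev] with h hh
  obtain ⟨b, hb, e⟩ := ex_hN (face_ne hA x) h
  have hb' := mem_face.1 hb
  have e1 : hN A (x + h) = hN A x + hN (face A x) h := by
    rw [hN_eq hb'.1, inner_add_right, hb'.2, e]
    intro a ha
    by_cases h1 : a ∈ face A x
    · rw [inner_add_right, inner_add_right, hb'.2, (mem_face.1 h1).2, e]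
      linarith [le_hN h1 h]
    · exact (hh a ha b hb h1).le
  refine ⟨e1, ?_⟩
  ext a
  rw [mem_face, mem_face (A := face A x), e1]
  constructor
  · rintro ⟨ha, h2⟩
    by_cases h1 : a ∈ face A x
    · refine ⟨h1, ?_⟩
      rw [inner_add_right, (mem_face.1 h1).2] at h2
      linarith
    · have := hh a ha b hb h1
      rw [h2, inner_add_right, hb'.2, e] at this
      exact absurd this (lt_irrefl _)
  · rintro ⟨h1, h2⟩
    exact ⟨(mem_face.1 h1).1, by rw [inner_add_right, (mem_face.1 h1).2, h2]⟩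

lemma ray_face {A : Finset E} (hA : A.Nonempty) (x v : E) :
    ∀ᶠ t in 𝓝[>] (0 : ℝ), face A (x + t • v) = face (face A x) v := by
  have h1 : Tendsto (fun t : ℝ => t • v) (𝓝[>] 0) (𝓝 0) := by
    apply Tendsto.mono_left _ nhdsWithin_le_nhds
    have : Continuous fun t : ℝ => t • v := by fun_prop
    simpa using this.tendsto 0
  filter_upwards [h1.eventually (local_face hA x), self_mem_nhdsWithin] with t ht h0
  rw [ht.2, face_smul (face_ne hA x) h0]

def Ng (S S' : Finset E) : Prop := ∀ a, a ∈ S' ↔ -a ∈ S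

lemma Ng.h {S S' : Finset E} (h : Ng S S') (x : E) : hN S' x = hN S (-x) := by
  unfold hN
  congr 1
  ext r
  constructor
  · rintro ⟨a, ha, rfl⟩
    exact ⟨-a, (h a).1 ha, by simp⟩
  · rintro ⟨a, ha, rfl⟩
    exact ⟨-a, (h _).2 (by simpa using ha), by simp⟩

lemma Ng.face {S S' : Finset E} (h : Ng S S') (x : E) : Ng (face S (-x)) (face S' x) := by
  intro a
  rw [mem_face, mem_face, h a, h.h]
  simp

lemma Ng.wd {S S' : Finset E} (h : Ng S S') (e : E) : wd e S' = wd e S := by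
  unfold Ib.wd
  rw [h.h, h.h, neg_neg, add_comm]

lemma face_of_orth {S : Finset E} {h : E} (hh : ∀ a ∈ S, ∀ b ∈ S, ⟪a - b, h⟫ = 0) :
    face S h = S := by
  ext a
  rw [mem_face]
  refine ⟨fun h1 => h1.1, fun ha => ⟨ha, (hN_eq ha fun b hb => ?_).symm⟩⟩
  have := hh a ha b hb
  rw [inner_sub_left] at this
  linarith

lemma face_congr {S : Finset E} {v w : E} (hh : ∀ a ∈ S, ∀ b ∈ S, ⟪a - b, v⟫ = ⟪a - b, w⟫) :
    face S v = face S w := by
  have k : ∀ v w : E, (∀ a ∈ S, ∀ b ∈ S, ⟪a - b, v⟫ = ⟪a - b, w⟫) → face S v ⊆ face S w := by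
    intro v w hh a ha
    obtain ⟨h1, h2⟩ := mem_face.1 ha
    refine mem_face.2 ⟨h1, (hN_eq h1 fun b hb => ?_).symm⟩
    have h3 := hh a h1 b hb
    have h4 := le_hN hb v
    rw [inner_sub_left, inner_sub_left] at h3
    linarith
  exact Finset.Subset.antisymm (k v w hh) (k w v fun a ha b hb => (hh a ha b hb).symm)

lemma exists_generic (W : Submodule ℝ E) (G : Finset E) :
    ∃ w ∈ W, ∀ g ∈ G, (∃ w' ∈ W, ⟪g, w'⟫ ≠ 0) → ⟪g, w⟫ ≠ 0 := by
  induction G using Finset.induction_on with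
  | empty => exact ⟨0, W.zero_mem, by simp⟩
  | insert g G hg ih =>
    obtain ⟨w, hw, h⟩ := ih
    by_cases h1 : ∃ w' ∈ W, ⟪g, w'⟫ ≠ 0
    · obtain ⟨w', hw', h2⟩ := h1
      obtain ⟨t, ht⟩ := Infinite.exists_notMem_finset
        (insert (-⟪g, w⟫ / ⟪g, w'⟫) (insert 0 (G.image fun k => -⟪k, w⟫ / ⟪k, w'⟫)))
      simp only [Finset.mem_insert, Finset.mem_image, not_or, not_exists, not_and] at ht
      refine ⟨w + t • w', W.add_mem hw (W.smul_mem _ hw'), fun k hk hk' => ?_⟩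
      rw [inner_add_right, real_inner_smul_right]
      intro h3
      rcases Finset.mem_insert.1 hk with rfl | hk
      · apply ht.1; field_simp; linarith
      · by_cases h4 : ⟪k, w'⟫ = 0
        · rw [h4, mul_zero, add_zero] at h3
          exact h k hk hk' h3
        · apply ht.2.2 k hk; field_simp; linarith
    · refine ⟨w, hw, fun k hk hk' => ?_⟩
      rcases Finset.mem_insert.1 hk with rfl | hk
      · exact absurd hk' h1
      · exact h k hk hk'

lemma ev_generic (G : Finset E) (y w : E) (h : ∀ g ∈ G, ⟪g, w⟫ ≠ 0) :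
    ∀ᶠ t in 𝓝[≠] (0 : ℝ), ∀ g ∈ G, ⟪g, y + t • w⟫ ≠ 0 := by
  rw [eventually_all_finset]
  intro g hg
  by_cases h1 : ⟪g, y⟫ = 0
  · filter_upwards [self_mem_nhdsWithin] with t ht
    rw [inner_add_right, real_inner_smul_right, h1, zero_add]
    exact mul_ne_zero ht (h g hg)
  · apply Eventually.filter_mono nhdsWithin_le_nhds
    have : ContinuousAt (fun t : ℝ => ⟪g, y + t • w⟫) 0 := by fun_prop
    exact this.eventually_ne (by simpa using h1)

/-- constancy across simple walls of a hyperplane arrangement inside `W` -/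
lemma generic_const {α : Type} (W : Submodule ℝ E) (D : Finset E) (f : E → α)
    (ha : ∀ x ∈ W, (∀ d ∈ D, ⟪d, x⟫ ≠ 0) → ∀ᶠ h in 𝓝 (0 : E), h ∈ W → f (x + h) = f x)
    (hb : ∀ x ∈ W, ∀ d0 ∈ D, ⟪d0, x⟫ = 0 →
      (∀ d ∈ D, ⟪d, x⟫ = 0 → ∃ c : ℝ, ∀ w ∈ W, ⟪d, w⟫ = c * ⟪d0, w⟫) →
      ∀ v ∈ W, ⟪d0, v⟫ ≠ 0 → ∃ val, ∀ᶠ t in 𝓝[≠] (0 : ℝ), f (x + t • v) = val)
    {x y : E} (hx : x ∈ W) (hy : y ∈ W) (gx : ∀ d ∈ D, ⟪d, x⟫ ≠ 0) (gy : ∀ d ∈ D, ⟪d, y⟫ ≠ 0) :
    f x = f y := by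
  set G : Finset E := ((D ×ˢ D).image fun p => ⟪p.2, x⟫ • p.1 - ⟪p.1, x⟫ • p.2).filter
    fun g => ∃ w' ∈ W, ⟪g, w'⟫ ≠ 0 with hG
  obtain ⟨w0, hw0, h0⟩ := exists_generic W G
  have tz : ∀ v : E, Tendsto (fun t : ℝ => t • v) (𝓝 0) (𝓝 0) := fun v => by
    have : Continuous fun t : ℝ => t • v := by fun_prop
    simpa using this.tendsto 0
  have e1 := ev_generic G y w0 fun g hg => h0 g hg (Finset.mem_filter.1 hg).2
  have e2 : ∀ᶠ t in 𝓝[≠] (0 : ℝ), f (y + t • w0) = f y :=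
    (((tz w0).eventually (ha y hy gy)).mono fun t ht => ht (W.smul_mem _ hw0)).filter_mono
      nhdsWithin_le_nhds
  have e3 : ∀ᶠ t in 𝓝[≠] (0 : ℝ), ∀ d ∈ D, ⟪d, y + t • w0⟫ ≠ 0 := by
    apply Eventually.filter_mono nhdsWithin_le_nhds
    rw [eventually_all_finset]
    intro d hd
    have : ContinuousAt (fun t : ℝ => ⟪d, y + t • w0⟫) 0 := by fun_prop
    exact this.eventually_ne (by simpa using gy d hd)
  obtain ⟨t0, k1, k2, k3⟩ := (e1.and (e2.and e3)).exists
  set y' := y + t0 • w0 with hy'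
  have hy'W : y' ∈ W := W.add_mem hy (W.smul_mem _ hw0)
  set v := y' - x with hv
  have hvW : v ∈ W := W.sub_mem hy'W hx
  have hW : ∀ s : ℝ, x + s • v ∈ W := fun s => W.add_mem hx (W.smul_mem _ hvW)
  have gen : ∀ s : ℝ, (∀ d ∈ D, ⟪d, x + s • v⟫ ≠ 0) →
      ∀ᶠ t in 𝓝[≠] (0 : ℝ), f (x + s • v + t • v) = f (x + s • v) := fun s hs =>
    (((tz v).eventually (ha _ (hW s) hs)).mono fun t ht => ht (W.smul_mem _ hvW)).filter_mono
      nhdsWithin_le_nhds
  have ex : ∀ s : ℝ, ∃ val, ∀ᶠ t in 𝓝[≠] (0 : ℝ), f (x + s • v + t • v) = val := by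
    intro s
    by_cases hs : ∀ d ∈ D, ⟪d, x + s • v⟫ ≠ 0
    · exact ⟨_, gen s hs⟩
    · push Not at hs
      obtain ⟨d0, hd0, h1⟩ := hs
      have g0 := gx d0 hd0
      have h2 := h1
      rw [inner_add_right, real_inner_smul_right] at h2
      have hv0 : ⟪d0, v⟫ ≠ 0 := by
        intro h3; rw [h3] at h2; apply g0; linarith
      have hs0 : s ≠ 0 := by
        intro h3; rw [h3] at h2; apply g0; linarith
      refine hb _ (hW s) d0 hd0 h1 (fun d hd h3 => ?_) v hvW hv0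
      by_contra h4
      have h5 : ⟪d0, x⟫ • d - ⟪d, x⟫ • d0 ∈ G := by
        refine Finset.mem_filter.2 ⟨Finset.mem_image.2 ⟨(d, d0), Finset.mem_product.2 ⟨hd, hd0⟩, rfl⟩, ?_⟩
        by_contra h6
        push Not at h6
        refine h4 ⟨⟪d, x⟫ / ⟪d0, x⟫, fun w hw => ?_⟩
        have := h6 w hw
        rw [inner_sub_left, real_inner_smul_left, real_inner_smul_left] at this
        field_simp; linarith
      apply k1 _ h5
      rw [inner_add_right, real_inner_smul_right] at h3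
      have e4 : y' = x + v := by rw [hv]; abel
      rw [e4, inner_sub_left, real_inner_smul_left, real_inner_smul_left, inner_add_right,
        inner_add_right]
      apply mul_left_cancel₀ hs0
      linear_combination ⟪d0, x⟫ * h3 - ⟪d, x⟫ * h2
  choose val hval using ex
  have uq : ∀ s a, (∀ᶠ t in 𝓝[≠] (0 : ℝ), f (x + s • v + t • v) = a) → val s = a := by
    intro s a h1
    obtain ⟨t, h2, h3⟩ := ((hval s).and h1).exists
    rw [← h2, h3]
  have lc : IsLocallyConstant val := by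
    rw [IsLocallyConstant.iff_eventually_eq]
    intro s
    have h1 := hval s
    rw [eventually_nhdsWithin_iff, Metric.eventually_nhds_iff] at h1
    obtain ⟨r, r0, h1⟩ := h1
    filter_upwards [Metric.ball_mem_nhds s r0] with s' hs'
    rcases eq_or_ne s' s with rfl | hne
    · rfl
    · apply uq
      apply Eventually.filter_mono nhdsWithin_le_nhds
      have c1 : ContinuousAt (fun t : ℝ => s' - s + t) 0 := by fun_prop
      have c2 : ContinuousAt (fun t : ℝ => dist (s' - s + t) 0) 0 := by fun_prop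
      have h2 := c1.eventually_ne (y := 0) (by simpa [sub_eq_zero] using hne)
      have h3 := c2.eventually_lt continuousAt_const (g := fun _ => r)
        (by simpa [Real.dist_eq] using hs')
      filter_upwards [h2, h3] with t h4 h5
      rw [← h1 h5 h4]
      congr 1
      module
  have f0 : val 0 = f x := uq 0 _ (by simpa using gen 0 (by simpa using gx))
  have e5 : x + (1:ℝ) • v = y' := by rw [hv]; module
  have f1 : val 1 = f y := by
    rw [← k2]
    apply uq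
    have := gen 1 (by rw [e5]; exact k3)
    rw [e5] at this ⊢
    exact this
  rw [← f0, ← f1]
  exact lc.apply_eq_of_preconnectedSpace 0 1

end Pool.Agent.H80.Ib
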