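import Pool.Agent.H80.Ib1
import Pool.Agent.H80.Ib2

set_option autoImplicit false

namespace Pool.Agent.H80.Ib

open MeasureTheory Metric Set Filter Topology Classical
open scoped RealInnerProductSpace ENNReal NNReal

variable {E : Type} [NormedAddCommGroup E] [InnerProductSpace ℝ E] [FiniteDimensional ℝ E]
  [MeasurableSpace E] [BorelSpace E]

noncomputable def bump (x : E) : ℝ := max (1 - ‖x‖) 0

noncomputable def kap : E → ℝ := AC bump

lemma bump_cc : Cc (bump : E → ℝ) 1 :=
  ⟨by unfold bump; fun_prop, fun x hx => max_eq_right (by linarith)⟩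

lemma kap_cc : Cc (kap : E → ℝ) 2 := by
  have := (bump_cc (E := E)).ac
  rw [mul_one] at this
  exact this

lemma kap_nonneg (x : E) : 0 ≤ kap x :=
  integral_nonneg fun s => mul_nonneg (le_max_right _ _) (le_max_right _ _)

lemma kap_iso (θ : E ≃ₗᵢ[ℝ] E) (x : E) : kap (θ x) = kap x := by
  unfold kap AC
  rw [← θ.measurePreserving.integral_comp θ.toHomeomorph.measurableEmbedding]
  congr 1; ext s
  simp only [bump, ← map_add, LinearIsometryEquiv.norm_map]

lemma kap_zero : 0 < kap (0 : E) := by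
  unfold kap AC
  have hc := (bump_cc (E := E)).cont
  refine Continuous.integral_pos_of_hasCompactSupport_nonneg_nonzero (x := 0) (by fun_prop)
    ((bump_cc (E := E)).hcs.mul_left) (fun s => mul_nonneg (le_max_right _ _) (le_max_right _ _)) ?_
  simp [bump]

lemma hyper_null {l : E} (hl : l ≠ 0) (c : ℝ) : ∀ᵐ x : E, ⟪l, x⟫ ≠ c := by
  have h1 : volume ((ℝ ∙ l)ᗮ : Set E) = 0 := by
    apply Measure.addHaar_submodule
    intro h
    have : l ∈ (ℝ ∙ l)ᗮ := by rw [h]; trivial
    rw [Submodule.mem_orthogonal_singleton_iff_inner_right, inner_self_eq_zero] at this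
    exact hl this
  rw [ae_iff]
  have ll : ⟪l, l⟫ ≠ 0 := by rwa [Ne, inner_self_eq_zero]
  have e : {x : E | ¬⟪l, x⟫ ≠ c} = (fun x => -((c / ⟪l, l⟫) • l) + x) ⁻¹' ((ℝ ∙ l)ᗮ : Set E) := by
    ext x
    simp only [mem_setOf_eq, not_not, mem_preimage, SetLike.mem_coe,
      Submodule.mem_orthogonal_singleton_iff_inner_right, inner_add_right, inner_neg_right,
      real_inner_smul_right, div_mul_cancel₀ _ ll]
    constructor <;> intro h <;> linarith
  rw [e, measure_preimage_add, h1]

lemma proj_ne (L : Submodule ℝ E) (hL : 3 ≤ Module.finrank ℝ L) {σ : ℝ} (hσ : σ ≠ 0) (u : E) :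
    ∀ᵐ x : E, σ • L.starProjection x + u ≠ 0 := by
  have : Nontrivial L := Module.nontrivial_of_finrank_pos (R := ℝ) (by omega)
  obtain ⟨l, hl⟩ := exists_ne (0 : L)
  filter_upwards [hyper_null (l := (l : E)) (by simpa using hl) (-⟪(l : E), u⟫ / σ)] with x hx h
  apply hx
  have h1 := congrArg (fun y => ⟪(l : E), y⟫) h
  simp only [inner_add_right, real_inner_smul_right, inner_zero_right] at h1
  have h2 : ⟪(l : E), L.starProjection x⟫ = ⟪(l : E), x⟫ :=
    L.inner_orthogonalProjectionOnto_eq_of_mem_left l x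
  rw [h2] at h1
  field_simp; linarith

lemma loc_int (L : Submodule ℝ E) (hL : 3 ≤ Module.finrank ℝ L) {σ : ℝ} (hσ : σ ≠ 0) {u : E}
    (hu : u ∈ L) : Integrable fun x : E => kap x * (‖σ • L.starProjection x + u‖ ^ 2)⁻¹ := by
  set R := |σ| * 2 + ‖u‖ + 1
  have i1 : IntegrableOn (fun l : L => (‖l‖ ^ 2)⁻¹) (ball 0 R) := by
    refine integrableOn_ball_of_norm_le_rpow (C := 1) (α := 2) (by omega)
      (by exact_mod_cast (by omega : 2 < Module.finrank ℝ L)) (Eventually.of_forall fun l => ?_)
      (by fun_prop : Measurable fun l : L => (‖l‖ ^ 2)⁻¹).aestronglyMeasurable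
    rw [Real.rpow_neg (norm_nonneg _), one_mul, Real.norm_eq_abs, abs_of_nonneg (by positivity)]
    simp
  rw [← integrable_indicator_iff measurableSet_ball] at i1
  have i2 := (i1.comp_add_right ⟨u, hu⟩).comp_smul hσ
  have i3 : Integrable ((closedBall (0 : Lᗮ) 2).indicator fun _ => (1:ℝ)) := by
    rw [integrable_indicator_iff measurableSet_closedBall]
    exact integrableOn_const measure_closedBall_lt_top.ne
  have i4 := i2.mul_prod i3
  let T0 : E →ₗ[ℝ] L × Lᗮ :=
    (L.orthogonalProjectionOnto.prod Lᗮ.orthogonalProjectionOnto).toLinearMap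
  have hT0 : ∀ x, T0 x = (L.orthogonalProjectionOnto x, Lᗮ.orthogonalProjectionOnto x) :=
    fun x => rfl
  have hb : Function.Bijective T0 := by
    constructor
    · rw [← LinearMap.ker_eq_bot, LinearMap.ker_eq_bot']
      intro x hx
      rw [hT0] at hx
      obtain ⟨h1, h2⟩ := Prod.mk.inj hx
      rw [← L.starProjection_add_starProjection_orthogonal x, Submodule.starProjection_apply,
        Submodule.starProjection_apply, h1, h2]
      simp
    · rintro ⟨l, k⟩
      refine ⟨l + k, ?_⟩
      rw [hT0, map_add, map_add, Submodule.orthogonalProjectionOnto_mem_subspace_eq_self,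
        Submodule.orthogonalProjectionOnto_mem_subspace_eq_self,
        Submodule.orthogonalProjectionOnto_apply_of_mem_orthogonal k.2,
        Submodule.orthogonalProjectionOnto_orthogonal_apply_eq_zero l.2]
      simp
  let T : E ≃L[ℝ] (L × Lᗮ) := (LinearEquiv.ofBijective T0 hb).toContinuousLinearEquiv
  have hT : ∀ x, T x = (L.orthogonalProjectionOnto x, Lᗮ.orthogonalProjectionOnto x) :=
    fun x => rfl
  obtain ⟨c, -, -, k2⟩ := haar_equiv (volume : Measure E)
    ((volume : Measure L).prod (volume : Measure Lᗮ)) T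
  have i5 := (k2 _).2 i4
  obtain ⟨Mk, hMk⟩ := (kap_cc (E := E)).cont.bounded_above_of_compact_support kap_cc.hcs
  have hc := (kap_cc (E := E)).cont
  refine (i5.const_mul Mk).mono' (Measurable.aestronglyMeasurable (by fun_prop))
    (Eventually.of_forall fun x => ?_)
  have M0 : 0 ≤ Mk := (norm_nonneg _).trans (hMk 0)
  by_cases hx : 2 < ‖x‖
  · rw [kap_cc.zero x hx, zero_mul, norm_zero]
    refine mul_nonneg M0 (mul_nonneg ?_ ?_)
    · exact indicator_nonneg (fun _ _ => by positivity) _
    · exact indicator_nonneg (fun _ _ => by positivity) _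
  · have h1 : ‖L.orthogonalProjectionOnto x‖ ≤ 2 :=
      (L.norm_orthogonalProjectionOnto_apply_le x).trans (not_lt.1 hx)
    have h2 : ‖Lᗮ.orthogonalProjectionOnto x‖ ≤ 2 :=
      (Lᗮ.norm_orthogonalProjectionOnto_apply_le x).trans (not_lt.1 hx)
    have h3 : σ • L.orthogonalProjectionOnto x + ⟨u, hu⟩ ∈ ball (0 : L) R := by
      rw [mem_ball_zero_iff]
      refine (norm_add_le _ _).trans_lt ?_
      rw [norm_smul, Real.norm_eq_abs]
      have : ‖(⟨u, hu⟩ : L)‖ = ‖u‖ := rfl
      have := mul_le_mul_of_nonneg_left h1 (abs_nonneg σ)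
      simp only [R]; linarith
    simp only [hT]
    rw [indicator_of_mem h3, indicator_of_mem (mem_closedBall_zero_iff.2 h2), mul_one, norm_mul,
      Real.norm_eq_abs ((_ : ℝ)⁻¹), abs_of_nonneg (by positivity)]
    exact mul_le_mul_of_nonneg_right (hMk x) (by positivity)

lemma meas_face {A : Finset E} (hA : A.Nonempty) (φ : Finset E → ℝ) :
    Measurable fun w => φ (face A w) := by
  have hc := hN_cont hA
  have m1 : Measurable fun (w : E) (a : A) => ⟪(a : E), w⟫ = hN A w := by
    refine measurable_pi_lambda _ fun a => measurableSet_setOf.1 ?_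
    exact (isClosed_eq (by fun_prop) hc).measurableSet
  have m2 : Measurable fun q : A → Prop => φ (A.filter fun a => ∃ h : a ∈ A, q ⟨a, h⟩) :=
    measurable_of_finite _
  convert m2.comp m1 using 2 with w
  simp only [Function.comp, face]
  congr 1
  ext a
  simp only [Finset.mem_filter]
  exact ⟨fun h => ⟨h.1, h.1, h.2⟩, fun h => ⟨h.1, h.2.2⟩⟩

def PD (f : E → ℝ) : Prop :=
  ∀ (ι : Type) [Fintype ι] (c : ι → ℝ) (y : ι → E), 0 ≤ ∑ i, ∑ j, c i * c j * f (y i - y j)

lemma PD.diff {f : E → ℝ} (h : PD f) (v : E) : PD fun y => 2 * f y - f (y + v) - f (y - v) := by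
  intro ι _ c y
  have := h (ι × Bool) (fun p => if p.2 then c p.1 else -c p.1)
    (fun p => if p.2 then y p.1 else y p.1 + v)
  simp only [Fintype.sum_prod_type, Fintype.sum_bool, if_true, Bool.false_eq_true, if_false,
    ← Finset.sum_add_distrib] at this
  refine this.trans_eq (Finset.sum_congr rfl fun i _ => Finset.sum_congr rfl fun j _ => ?_)
  rw [show y i - (y j + v) = y i - y j - v by abel, show y i + v - y j = y i - y j + v by abel,
    show y i + v - (y j + v) = y i - y j by abel]
  ring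

lemma PD.three {f : E → ℝ} (h : PD f) (he : ∀ y, f (-y) = f y) (y z : E) (α β : ℝ) :
    0 ≤ (α ^ 2 + 2 * β ^ 2) * f 0 - 2 * β ^ 2 * f (y - z) - 2 * α * β * f y + 2 * α * β * f z := by
  have := h (Fin 3) ![α, -β, β] ![0, y, z]
  simp only [Fin.sum_univ_three, Matrix.cons_val_zero, Matrix.cons_val_one, Matrix.cons_val,
    sub_self, zero_sub, sub_zero, he] at this
  rw [← neg_sub y z, he] at this
  linarith

lemma pd_of {N : E → ℝ} (hpos : ∀ (B : E → ℝ) (M : ℝ), Cc B M →
      Integrable (fun x => AC B x * (N x)⁻¹) → 0 ≤ ∫ x, AC B x * (N x)⁻¹)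
    (D : E ≃L[ℝ] E) (hint : ∀ y, Integrable fun x => kap x * (N (D x + y))⁻¹) :
    PD fun y => ∫ x, kap x * (N (D x + y))⁻¹ := by
  intro ι _ c y
  obtain ⟨k, k0, k1, k2⟩ := haar_equiv (volume : Measure E) (volume : Measure E) D.symm
  have hbc := (bump_cc (E := E)).cont
  have cc : ∀ i, Cc (fun s => bump (D.symm (s - y i))) (‖(D : E →L[ℝ] E)‖ + ∑ j, ‖y j‖) := by
    intro i
    refine ⟨by fun_prop, fun s hs => bump_cc.zero _ ?_⟩
    by_contra h1
    have h2 := (D : E →L[ℝ] E).le_opNorm (D.symm (s - y i))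
    simp only [ContinuousLinearEquiv.coe_coe, ContinuousLinearEquiv.apply_symm_apply] at h2
    have h3 := mul_le_mul_of_nonneg_left (not_lt.1 h1) (norm_nonneg (D : E →L[ℝ] E))
    have h4 : ‖y i‖ ≤ ∑ j, ‖y j‖ :=
      Finset.single_le_sum (f := fun j => ‖y j‖) (fun _ _ => norm_nonneg _) (Finset.mem_univ i)
    have h5 := norm_add_le (s - y i) (y i)
    rw [sub_add_cancel] at h5
    linarith
  set B : E → ℝ := fun s => ∑ i, c i * bump (D.symm (s - y i)) with hB
  have cB : Cc B (‖(D : E →L[ℝ] E)‖ + ∑ j, ‖y j‖) :=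
    ⟨by simp only [hB]; fun_prop,
      fun s hs => Finset.sum_eq_zero fun i _ => by rw [(cc i).zero s hs, mul_zero]⟩
  have e1 : ∀ x, AC B x = ∑ i, ∑ j, c i * c j * (k * kap (D.symm (x - (y i - y j)))) := by
    intro x
    have e2 : ∀ s, B (x + s) * B s = ∑ i, ∑ j, c i * c j *
        (bump (D.symm (x + s - y i)) * bump (D.symm (s - y j))) := by
      intro s
      simp only [hB, Finset.sum_mul_sum]
      exact Finset.sum_congr rfl fun i _ => Finset.sum_congr rfl fun j _ => by ring
    have it : ∀ i j, Integrable fun s => c i * c j *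
        (bump (D.symm (x + s - y i)) * bump (D.symm (s - y j))) := fun i j =>
      (Continuous.integrable_of_hasCompactSupport (by fun_prop) (cc j).hcs.mul_left).const_mul _
    simp only [AC, e2]
    rw [integral_finset_sum _ fun i _ => integrable_finset_sum _ fun j _ => it i j]
    refine Finset.sum_congr rfl fun i _ => ?_
    rw [integral_finset_sum _ fun j _ => it i j]
    refine Finset.sum_congr rfl fun j _ => ?_
    rw [integral_const_mul, kap, AC, ← k1,
      ← integral_add_right_eq_self (fun s => bump (D.symm (x + s - y i)) *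
        bump (D.symm (s - y j))) (y j)]
    congr 2; ext s
    rw [← map_add, add_sub_cancel_right]
    congr 3; abel
  have it2 : ∀ w, Integrable fun x => kap (D.symm (x - w)) * (N x)⁻¹ := by
    intro w
    have := ((k2 _).2 (hint w)).comp_sub_right w
    simpa using this
  have iv2 : ∀ w, ∫ x, kap (D.symm (x - w)) * (N x)⁻¹ = k * ∫ x, kap x * (N (D x + w))⁻¹ := by
    intro w
    rw [← k1, ← integral_add_right_eq_self (fun x => kap (D.symm (x - w)) * (N x)⁻¹) w]
    simp
  have e3 : ∀ x, AC B x * (N x)⁻¹ = ∑ i, ∑ j, c i * c j * k *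
      (kap (D.symm (x - (y i - y j))) * (N x)⁻¹) := by
    intro x
    rw [e1, Finset.sum_mul]
    refine Finset.sum_congr rfl fun i _ => ?_
    rw [Finset.sum_mul]
    exact Finset.sum_congr rfl fun j _ => by ring
  have h := hpos B _ cB (by
    simp only [e3]
    exact integrable_finset_sum _ fun i _ => integrable_finset_sum _ fun j _ =>
      (it2 _).const_mul _)
  simp only [e3] at h
  rw [integral_finset_sum _ fun i _ => integrable_finset_sum _ fun j _ => (it2 _).const_mul _] at h
  have e4 : ∀ i, ∫ x, ∑ j, c i * c j * k * (kap (D.symm (x - (y i - y j))) * (N x)⁻¹) =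
      k * k * ∑ j, c i * c j * ∫ x, kap x * (N (D x + (y i - y j)))⁻¹ := by
    intro i
    rw [integral_finset_sum _ fun j _ => (it2 _).const_mul _, Finset.mul_sum]
    refine Finset.sum_congr rfl fun j _ => ?_
    rw [integral_const_mul, iv2]; ring
  simp only [e4, ← Finset.mul_sum] at h
  exact nonneg_of_mul_nonneg_right h (by positivity)

end Pool.Agent.H80.Ib
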