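import Pool.Agent.H80.Ib3

set_option autoImplicit false

namespace Pool.Agent.H80.Ib

open MeasureTheory Metric Set Filter Topology Classical
open scoped RealInnerProductSpace ENNReal NNReal

variable {E : Type} [NormedAddCommGroup E] [InnerProductSpace ℝ E] [FiniteDimensional ℝ E]
  [MeasurableSpace E] [BorelSpace E]

structure Nrm (A : Finset E) (c0 C : ℝ) : Prop where
  ne : A.Nonempty
  sym : Ng A A
  cp : 0 < c0
  low : ∀ x, c0 * ‖x‖ ≤ hN A x
  bd : ∀ a ∈ A, ‖a‖ ≤ C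
  pos : ∀ (B : E → ℝ) (M : ℝ), Cc B M →
      Integrable (fun x => AC B x * (hN A x)⁻¹) → 0 ≤ ∫ x, AC B x * (hN A x)⁻¹

structure Frm (e e2 : E) (L : Submodule ℝ E) : Prop where
  n1 : ‖e‖ = 1
  n2 : ‖e2‖ = 1
  orth : ⟪e, e2⟫ = 0
  mem : ∀ x, x ∈ L ↔ ⟪e, x⟫ = 0 ∧ ⟪e2, x⟫ = 0
  dim : 3 ≤ Module.finrank ℝ L

noncomputable def Dx (e e2 : E) (L : Submodule ℝ E) (σ ε δ : ℝ) (x : E) : E :=
  σ • L.starProjection x + (δ * ⟪e2, x⟫) • e2 + (ε ^ 2 * ⟪e, x⟫) • e

noncomputable def fE (A : Finset E) (e e2 : E) (L : Submodule ℝ E) (σ ε δ : ℝ) (y : E) : ℝ :=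
  ∫ x, kap x * (hN A (Dx e e2 L σ ε δ x + y))⁻¹

noncomputable def FF (A : Finset E) (e w : E) : ℝ := wd e (face A w) / hN A w ^ 2

noncomputable def Fv (A : Finset E) (e v u : E) : ℝ := wd e (face (face A u) v) / hN A u ^ 2

noncomputable def Pd (A : Finset E) (e e2 : E) (L : Submodule ℝ E) (σ δ : ℝ) (y : E) : ℝ :=
  ∫ x, kap x * FF A e (σ • L.starProjection x + (δ * ⟪e2, x⟫) • e2 + y)

variable {A : Finset E} {c0 C : ℝ} {e e2 : E} {L : Submodule ℝ E}

lemma Frm.p1 (h : Frm e e2 L) : L.starProjection e = 0 := by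
  rw [Submodule.starProjection_apply, Submodule.orthogonalProjectionOnto_apply_of_mem_orthogonal]
  · rfl
  · intro u hu; rw [real_inner_comm]; exact ((h.mem u).1 hu).1

lemma Frm.p2 (h : Frm e e2 L) : L.starProjection e2 = 0 := by
  rw [Submodule.starProjection_apply, Submodule.orthogonalProjectionOnto_apply_of_mem_orthogonal]
  · rfl
  · intro u hu; rw [real_inner_comm]; exact ((h.mem u).1 hu).2

lemma pp (L : Submodule ℝ E) (x : E) : L.starProjection (L.starProjection x) = L.starProjection x :=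
  Submodule.starProjection_eq_self_iff.2 (L.starProjection_apply_mem x)

lemma Nrm.C0 (h : Nrm A c0 C) : 0 ≤ C := by
  obtain ⟨a, ha⟩ := h.ne
  exact (norm_nonneg _).trans (h.bd a ha)

lemma Nrm.low' (h : Nrm A c0 C) (L : Submodule ℝ E) (w : E) :
    c0 * ‖L.starProjection w‖ ≤ hN A w :=
  (mul_le_mul_of_nonneg_left (L.norm_starProjection_apply_le w) h.cp.le).trans (h.low w)

lemma Nrm.neg (h : Nrm A c0 C) (w : E) : hN A (-w) = hN A w := (h.sym.h w).symm

lemma Nrm.inv_diff (h : Nrm A c0 C) {p q : E} {r : ℝ} (hr : 0 < r) (hp : c0 * r ≤ hN A p)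
    (hq : c0 * r ≤ hN A q) :
    |(hN A p)⁻¹ - (hN A q)⁻¹| ≤ C * ‖p - q‖ / c0 ^ 2 * (r ^ 2)⁻¹ := by
  have h0 := h.cp
  have h1 : 0 < c0 * r := by positivity
  have h2 : 0 < hN A p := h1.trans_le hp
  have h3 : 0 < hN A q := h1.trans_le hq
  have h4 := hN_lip h.ne h.bd p q
  rw [inv_sub_inv h2.ne' h3.ne', abs_div, abs_sub_comm, abs_of_pos (mul_pos h2 h3),
    show C * ‖p - q‖ / c0 ^ 2 * (r ^ 2)⁻¹ = C * ‖p - q‖ / ((c0 * r) * (c0 * r)) by field_simp]
  exact div_le_div₀ (mul_nonneg h.C0 (norm_nonneg _)) h4 (by positivity)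
    (mul_le_mul hp hq h1.le h2.le)

lemma wd_bd (h : Nrm A c0 C) (he : ‖e‖ = 1) {S : Finset E} (hS : S.Nonempty) (hs : S ⊆ A) :
    |wd e S| ≤ 2 * C := by
  have k : ∀ v : E, ‖v‖ = 1 → |hN S v| ≤ C := by
    intro v hv
    obtain ⟨a, ha, e1⟩ := ex_hN hS v
    rw [← e1]
    refine (abs_real_inner_le_norm _ _).trans ?_
    rw [hv, mul_one]; exact h.bd a (hs ha)
  have h1 := k e he
  have h2 := k (-e) (by rwa [norm_neg])
  unfold wd
  exact (abs_add_le _ _).trans (by linarith)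

lemma quo_bd (h : Nrm A c0 C) (he : ‖e‖ = 1) {S : Finset E} (hS : S.Nonempty) (hs : S ⊆ A)
    {w : E} {r : ℝ} (hr : 0 < r) (hw : c0 * r ≤ hN A w) :
    |wd e S / hN A w ^ 2| ≤ 2 * C / c0 ^ 2 * (r ^ 2)⁻¹ := by
  have h0 := h.cp
  have h1 : 0 < c0 * r := by positivity
  have hC := h.C0
  rw [abs_div, abs_of_nonneg (sq_nonneg (hN A w)),
    show 2 * C / c0 ^ 2 * (r ^ 2)⁻¹ = 2 * C / (c0 * r) ^ 2 by field_simp]
  exact div_le_div₀ (by positivity) (wd_bd h he hS hs) (by positivity)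
    (pow_le_pow_left₀ h1.le hw 2)

lemma int_fE (h : Nrm A c0 C) (g : Frm e e2 L) {σ : ℝ} (hσ : σ ≠ 0) (ε δ : ℝ) (y : E) :
    Integrable fun x => kap x * (hN A (Dx e e2 L σ ε δ x + y))⁻¹ := by
  have i1 := loc_int L g.dim hσ (L.starProjection_apply_mem y)
  have hc := (kap_cc (E := E)).cont
  have hn := hN_cont h.ne
  have h0 := h.cp
  refine (((kap_cc (E := E)).int.add i1).const_mul c0⁻¹).mono'
    (Measurable.aestronglyMeasurable (by unfold Dx; fun_prop)) ?_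
  filter_upwards [proj_ne L g.dim hσ (L.starProjection y)] with x hx
  have h1 := h.low' L (Dx e e2 L σ ε δ x + y)
  simp only [Dx, map_add, map_smul, g.p1, g.p2, smul_zero, add_zero, pp] at h1
  have h2 : 0 < ‖σ • L.starProjection x + L.starProjection y‖ := norm_pos_iff.2 hx
  have h3 := kap_nonneg x
  simp only [Dx, Pi.add_apply]
  generalize ‖σ • L.starProjection x + L.starProjection y‖ = r at *
  generalize hN A _ = n at *
  have h4 : 0 < c0 * r := by positivity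
  have h5 : n⁻¹ ≤ (c0 * r)⁻¹ := inv_anti₀ h4 h1
  have h6 : r⁻¹ ≤ 1 + (r ^ 2)⁻¹ := by
    rw [← inv_pow]; nlinarith [sq_nonneg (r⁻¹ - 1), inv_pos.2 h2]
  rw [Real.norm_eq_abs, abs_of_nonneg (mul_nonneg h3 (inv_nonneg.2 (h4.le.trans h1)))]
  calc kap x * n⁻¹ ≤ kap x * (c0⁻¹ * (1 + (r ^ 2)⁻¹)) := by
        refine mul_le_mul_of_nonneg_left (h5.trans ?_) h3
        rw [mul_inv]; exact mul_le_mul_of_nonneg_left h6 (by positivity)
    _ = _ := by ring

lemma pd_fE (h : Nrm A c0 C) (g : Frm e e2 L) {σ ε δ : ℝ} (hσ : σ ≠ 0) (hε : ε ≠ 0) (hδ : δ ≠ 0) :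
    PD (fE A e e2 L σ ε δ) := by
  let D0 : E →ₗ[ℝ] E :=
    { toFun := Dx e e2 L σ ε δ
      map_add' := fun x y => by
        simp only [Dx, map_add, inner_add_right]; module
      map_smul' := fun c x => by
        simp only [Dx, map_smul, real_inner_smul_right, RingHom.id_apply]; module }
  have hi : Function.Injective D0 := by
    rw [← LinearMap.ker_eq_bot, LinearMap.ker_eq_bot']
    intro x hx
    have hx' : Dx e e2 L σ ε δ x = 0 := hx
    have m := (g.mem _).1 (L.starProjection_apply_mem x)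
    have o2 : ⟪e2, e⟫ = 0 := by rw [real_inner_comm]; exact g.orth
    have h1 := congrArg (fun y => ⟪e, y⟫) hx'
    have h2 := congrArg (fun y => ⟪e2, y⟫) hx'
    simp only [Dx, inner_add_right, real_inner_smul_right, m.1, m.2, g.orth, o2,
      real_inner_self_eq_norm_sq, g.n1, g.n2, inner_zero_right] at h1 h2
    have h3 : ⟪e, x⟫ = 0 := by simpa [hε] using h1
    have h4 : ⟪e2, x⟫ = 0 := by simpa [hδ] using h2
    have h5 := Submodule.starProjection_eq_self_iff.2 ((g.mem x).2 ⟨h3, h4⟩)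
    simpa [Dx, h3, h4, h5, hσ] using hx'
  exact pd_of h.pos (LinearEquiv.ofInjectiveEndo D0 hi).toContinuousLinearEquiv
    (int_fE h g hσ ε δ)

lemma fE_neg (h : Nrm A c0 C) (σ ε δ : ℝ) (y : E) :
    fE A e e2 L σ ε δ (-y) = fE A e e2 L σ ε δ y := by
  unfold fE
  rw [← integral_neg_eq_self]
  congr 1; ext x
  have : Dx e e2 L σ ε δ (-x) + -y = -(Dx e e2 L σ ε δ x + y) := by
    simp only [Dx, map_neg, inner_neg_right]; module
  rw [this, h.neg, kap, AC_neg]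

lemma pt1 (hA : A.Nonempty) {w : E} (hw : 0 < hN A w) (τ : ℝ) :
    Tendsto (fun ε : ℝ => ε⁻¹ * (2 * (hN A (w + (ε ^ 2 * τ) • e))⁻¹ -
      (hN A (w + (ε ^ 2 * τ) • e + ε • e))⁻¹ - (hN A (w + (ε ^ 2 * τ) • e - ε • e))⁻¹))
      (𝓝[>] 0) (𝓝 (FF A e w)) := by
  set n := hN A w
  set k := hN (face A w) (τ • e)
  set p := hN (face A w) e
  set m := hN (face A w) (-e)
  have hF := face_ne hA w
  have c1 : ContinuousAt (fun ε : ℝ => -2 * ε * k / (n * (n + ε ^ 2 * k)) +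
      (1 + ε * τ) * p / (n * (n + ε * (1 + ε * τ) * p)) +
      (1 - ε * τ) * m / (n * (n + ε * (1 - ε * τ) * m))) 0 := by
    refine ContinuousAt.add (ContinuousAt.add ?_ ?_) ?_ <;>
      exact ContinuousAt.div (by fun_prop) (by fun_prop) (by simpa using hw.ne')
  have c2 := c1.tendsto.mono_left (nhdsWithin_le_nhds (s := Ioi 0))
  have e0 : -2 * 0 * k / (n * (n + 0 ^ 2 * k)) + (1 + 0 * τ) * p / (n * (n + 0 * (1 + 0 * τ) * p)) +
      (1 - 0 * τ) * m / (n * (n + 0 * (1 - 0 * τ) * m)) = FF A e w := by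
    change _ = (p + m) / n ^ 2
    simp only [mul_zero, zero_mul, add_zero, sub_zero, zero_div, zero_add, one_mul, ne_eq,
      OfNat.ofNat_ne_zero, not_false_eq_true, zero_pow]
    ring
  rw [e0] at c2
  refine c2.congr' ?_
  have lf := local_face hA w
  have tz : ∀ φ : ℝ → E, Continuous φ → φ 0 = 0 →
      ∀ᶠ ε in 𝓝[>] (0:ℝ), hN A (w + φ ε) = n + hN (face A w) (φ ε) := fun φ hφ h0 =>
    (((hφ.tendsto' 0 0 h0).eventually lf).mono fun ε hε => hε.1).filter_mono nhdsWithin_le_nhds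
  have pz : ∀ φ : ℝ → ℝ, Continuous φ → 0 < φ 0 → ∀ᶠ ε in 𝓝[>] (0:ℝ), 0 < φ ε := fun φ hφ h0 =>
    (continuousAt_const.eventually_lt hφ.continuousAt h0).filter_mono nhdsWithin_le_nhds
  filter_upwards [tz (fun ε => ε ^ 2 • (τ • e)) (by fun_prop) (by simp),
    tz (fun ε => (ε * (1 + ε * τ)) • e) (by fun_prop) (by simp),
    tz (fun ε => (ε * (1 - ε * τ)) • (-e)) (by fun_prop) (by simp),
    pz (fun ε => 1 + ε * τ) (by fun_prop) (by simp), pz (fun ε => 1 - ε * τ) (by fun_prop) (by simp),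
    pz (fun ε => n + ε ^ 2 * k) (by fun_prop) (by simpa using hw),
    pz (fun ε => n + ε * (1 + ε * τ) * p) (by fun_prop) (by simpa using hw),
    pz (fun ε => n + ε * (1 - ε * τ) * m) (by fun_prop) (by simpa using hw),
    self_mem_nhdsWithin] with ε h1 h2 h3 h4 h5 h6 h7 h8 h9
  have h9' : 0 < ε := h9
  rw [hN_smul hF (by positivity)] at h1 h2 h3
  rw [show w + (ε ^ 2 * τ) • e + ε • e = w + (ε * (1 + ε * τ)) • e by module,
    show w + (ε ^ 2 * τ) • e - ε • e = w + (ε * (1 - ε * τ)) • (-e) by module,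
    show w + (ε ^ 2 * τ) • e = w + ε ^ 2 • (τ • e) by module, h1, h2, h3]
  have q : ∀ a : ℝ, 0 < n + a → (n + a)⁻¹ = n⁻¹ - a / (n * (n + a)) := fun a ha => by
    field_simp; ring
  change _ = ε⁻¹ * (2 * (n + ε ^ 2 * k)⁻¹ - (n + ε * (1 + ε * τ) * p)⁻¹ -
    (n + ε * (1 - ε * τ) * m)⁻¹)
  rw [q _ h6, q _ h7, q _ h8]
  generalize n * (n + ε ^ 2 * k) = d1
  generalize n * (n + ε * (1 + ε * τ) * p) = d2
  generalize n * (n + ε * (1 - ε * τ) * m) = d3
  have h10 : ε⁻¹ * ε = 1 := inv_mul_cancel₀ h9'.ne'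
  linear_combination (2 * ε * k / d1 - (1 + ε * τ) * p / d2 - (1 - ε * τ) * m / d3) * h10

lemma lim1 (h : Nrm A c0 C) (g : Frm e e2 L) {σ : ℝ} (hσ : σ ≠ 0) (δ : ℝ) (y : E) :
    Tendsto (fun ε : ℝ => ε⁻¹ * (2 * fE A e e2 L σ ε δ y - fE A e e2 L σ ε δ (y + ε • e) -
      fE A e e2 L σ ε δ (y - ε • e))) (𝓝[>] 0) (𝓝 (Pd A e e2 L σ δ y)) := by
  have i1 := loc_int L g.dim hσ (L.starProjection_apply_mem y)
  have hc := (kap_cc (E := E)).cont
  have hn := hN_cont h.ne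
  have h0 := h.cp
  have e1 : ∀ ε : ℝ, ε⁻¹ * (2 * fE A e e2 L σ ε δ y - fE A e e2 L σ ε δ (y + ε • e) -
      fE A e e2 L σ ε δ (y - ε • e)) = ∫ x, kap x * (ε⁻¹ * (2 * (hN A (Dx e e2 L σ ε δ x + y))⁻¹ -
      (hN A (Dx e e2 L σ ε δ x + (y + ε • e)))⁻¹ - (hN A (Dx e e2 L σ ε δ x + (y - ε • e)))⁻¹)) := by
    intro ε
    unfold fE
    have j : Integrable fun x => 2 * (kap x * (hN A (Dx e e2 L σ ε δ x + y))⁻¹) -
        kap x * (hN A (Dx e e2 L σ ε δ x + (y + ε • e)))⁻¹ :=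
      ((int_fE h g hσ ε δ _).const_mul 2).sub (int_fE h g hσ ε δ _)
    rw [← integral_const_mul, ← integral_sub ((int_fE h g hσ ε δ _).const_mul 2) (int_fE h g hσ ε δ _),
      ← integral_sub j (int_fE h g hσ ε δ _), ← integral_const_mul]
    congr 1; ext x; ring
  simp only [e1]
  refine tendsto_integral_filter_of_dominated_convergence _ (Eventually.of_forall fun ε =>
    Measurable.aestronglyMeasurable (by unfold Dx; fun_prop)) ?_ (i1.const_mul (2 * C / c0 ^ 2)) ?_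
  · filter_upwards [self_mem_nhdsWithin] with ε hε
    have hε' : 0 < ε := hε
    filter_upwards [proj_ne L g.dim hσ (L.starProjection y)] with x hx
    have h2 : 0 < ‖σ • L.starProjection x + L.starProjection y‖ := norm_pos_iff.2 hx
    have l1 := h.low' L (Dx e e2 L σ ε δ x + y)
    have l2 := h.low' L (Dx e e2 L σ ε δ x + (y + ε • e))
    have l3 := h.low' L (Dx e e2 L σ ε δ x + (y - ε • e))
    have pD : L.starProjection (Dx e e2 L σ ε δ x) = σ • L.starProjection x := by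
      simp only [Dx, map_add, map_smul, g.p1, g.p2, smul_zero, add_zero, pp]
    simp only [map_add, map_sub, map_smul, g.p1, smul_zero, add_zero, sub_zero, pD] at l1 l2 l3
    have d1 := h.inv_diff h2 l1 l2
    have d2 := h.inv_diff h2 l1 l3
    rw [show Dx e e2 L σ ε δ x + y - (Dx e e2 L σ ε δ x + (y + ε • e)) = -(ε • e) by module,
      norm_neg, norm_smul, g.n1, Real.norm_eq_abs, abs_of_pos hε'] at d1
    rw [show Dx e e2 L σ ε δ x + y - (Dx e e2 L σ ε δ x + (y - ε • e)) = ε • e by module,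
      norm_smul, g.n1, Real.norm_eq_abs, abs_of_pos hε'] at d2
    have h3 := kap_nonneg x
    rw [Real.norm_eq_abs, abs_mul, abs_mul, abs_of_nonneg h3, abs_of_pos (inv_pos.2 hε'),
      mul_left_comm (2 * C / c0 ^ 2)]
    refine mul_le_mul_of_nonneg_left ?_ h3
    rw [inv_mul_le_iff₀ hε']
    generalize (hN A (Dx e e2 L σ ε δ x + y))⁻¹ = a at *
    generalize (hN A (Dx e e2 L σ ε δ x + (y + ε • e)))⁻¹ = b at *
    generalize (hN A (Dx e e2 L σ ε δ x + (y - ε • e)))⁻¹ = c at *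
    calc |2 * a - b - c| = |(a - b) + (a - c)| := by congr 1; ring
      _ ≤ |a - b| + |a - c| := abs_add_le _ _
      _ ≤ _ := (add_le_add d1 d2).trans_eq (by ring)
  · filter_upwards [proj_ne L g.dim hσ (L.starProjection y)] with x hx
    have h2 : 0 < ‖σ • L.starProjection x + L.starProjection y‖ := norm_pos_iff.2 hx
    have l1 := h.low' L (σ • L.starProjection x + (δ * ⟪e2, x⟫) • e2 + y)
    simp only [map_add, map_smul, g.p2, smul_zero, add_zero, pp] at l1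
    have := (pt1 (e := e) h.ne ((mul_pos h0 h2).trans_le l1) ⟪e, x⟫).const_mul (kap x)
    refine this.congr fun ε => ?_
    have q1 : Dx e e2 L σ ε δ x + y = σ • L.starProjection x + (δ * ⟪e2, x⟫) • e2 + y +
        (ε ^ 2 * ⟪e, x⟫) • e := by simp only [Dx]; module
    rw [← q1, add_assoc, add_sub_assoc]

lemma three_Pd (h : Nrm A c0 C) (g : Frm e e2 L) {σ δ : ℝ} (hσ : σ ≠ 0) (hδ : δ ≠ 0) (y z : E)
    (α β : ℝ) : 0 ≤ (α ^ 2 + 2 * β ^ 2) * Pd A e e2 L σ δ 0 - 2 * β ^ 2 * Pd A e e2 L σ δ (y - z) -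
      2 * α * β * Pd A e e2 L σ δ y + 2 * α * β * Pd A e e2 L σ δ z := by
  have t := fun w => lim1 h g hσ δ w
  refine ge_of_tendsto (((((t 0).const_mul (α ^ 2 + 2 * β ^ 2)).sub
    ((t (y - z)).const_mul (2 * β ^ 2))).sub ((t y).const_mul (2 * α * β))).add
    ((t z).const_mul (2 * α * β))) ?_
  filter_upwards [self_mem_nhdsWithin] with ε hε
  have hε' : 0 < ε := hε
  have := ((pd_fE h g hσ hε'.ne' hδ).diff (ε • e)).three (fun w => by
    rw [show -w + ε • e = -(w - ε • e) by module, show -w - ε • e = -(w + ε • e) by module,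
      fE_neg h, fE_neg h, fE_neg h]; ring) y z α β
  have h2 := mul_nonneg (inv_pos.2 hε').le this
  refine h2.trans_eq (by ring)

end Pool.Agent.H80.Ib
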