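import Pool.Agent.H80.Ib4

set_option autoImplicit false

namespace Pool.Agent.H80.Ib

open MeasureTheory Metric Set Filter Topology Classical
open scoped RealInnerProductSpace ENNReal NNReal

variable {E : Type} [NormedAddCommGroup E] [InnerProductSpace ℝ E] [FiniteDimensional ℝ E]
  [MeasurableSpace E] [BorelSpace E]

variable {A : Finset E} {c0 C : ℝ} {e e2 : E} {L : Submodule ℝ E}

noncomputable def Fs (A : Finset E) (e e2 : E) (t : ℝ) (u : E) : ℝ :=
  if 0 < t then Fv A e e2 u else Fv A e (-e2) u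

noncomputable def II (A : Finset E) (e e2 : E) (L : Submodule ℝ E) (σ : ℝ) (u : E) (a : ℝ) : ℝ :=
  ∫ x, kap x * Fs A e e2 (⟪e2, x⟫ + a) (σ • L.starProjection x + u)

lemma meas_FF (hA : A.Nonempty) : Measurable (FF A e) := by
  have h1 := meas_face hA (wd e)
  have h2 := (hN_cont hA).measurable
  exact h1.div (h2.pow_const 2)

lemma meas_Fv (hA : A.Nonempty) (v : E) : Measurable (Fv A e v) := by
  have h1 := meas_face hA (fun S => wd e (face S v))
  have h2 := (hN_cont hA).measurable
  exact h1.div (h2.pow_const 2)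

lemma pt2 (hA : A.Nonempty) {u : E} (hu : 0 < hN A u) (v : E) :
    Tendsto (fun δ : ℝ => FF A e (u + δ • v)) (𝓝[>] 0) (𝓝 (Fv A e v u)) := by
  have hc := hN_cont hA
  have c1 : ContinuousAt (fun δ : ℝ => wd e (face (face A u) v) / hN A (u + δ • v) ^ 2) 0 :=
    ContinuousAt.div continuousAt_const (by fun_prop) (by simpa using hu.ne')
  have c2 := c1.tendsto.mono_left (nhdsWithin_le_nhds (s := Ioi 0))
  simp only [zero_smul, add_zero] at c2
  refine c2.congr' ?_
  filter_upwards [ray_face hA u v] with δ hδ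
  rw [FF, hδ]

lemma Fv_sign (hA : A.Nonempty) {t : ℝ} (ht : t ≠ 0) (u : E) :
    Fv A e (t • e2) u = Fs A e e2 t u := by
  unfold Fs Fv
  split_ifs with h
  · rw [face_smul (face_ne hA u) h]
  · have h1 : 0 < -t := by
      rcases lt_or_gt_of_ne ht with h2 | h2
      · linarith
      · exact absurd h2 h
    rw [show t • e2 = (-t) • (-e2) by module, face_smul (face_ne hA u) h1]

lemma lim2 (h : Nrm A c0 C) (g : Frm e e2 L) {σ : ℝ} (hσ : σ ≠ 0) {u : E} (hu : u ∈ L) (a : ℝ) :
    Tendsto (fun δ : ℝ => Pd A e e2 L σ δ (u + (δ * a) • e2)) (𝓝[>] 0)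
      (𝓝 (II A e e2 L σ u a)) := by
  have i1 := loc_int L g.dim hσ hu
  have hc := (kap_cc (E := E)).cont
  have hm := meas_FF (e := e) h.ne
  have h0 := h.cp
  have pu : L.starProjection u = u := Submodule.starProjection_eq_self_iff.2 hu
  have e20 : e2 ≠ 0 := by intro h1; have := g.n2; rw [h1] at this; simp at this
  refine tendsto_integral_filter_of_dominated_convergence _ (Eventually.of_forall fun δ =>
    Measurable.aestronglyMeasurable (by fun_prop)) ?_ (i1.const_mul (2 * C / c0 ^ 2)) ?_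
  · refine Eventually.of_forall fun δ => ?_
    filter_upwards [proj_ne L g.dim hσ u] with x hx
    have h2 : 0 < ‖σ • L.starProjection x + u‖ := norm_pos_iff.2 hx
    have l1 := h.low' L (σ • L.starProjection x + (δ * ⟪e2, x⟫) • e2 + (u + (δ * a) • e2))
    simp only [map_add, map_smul, g.p2, smul_zero, add_zero, pp, pu] at l1
    have h3 := kap_nonneg x
    rw [Real.norm_eq_abs, abs_mul, abs_of_nonneg h3, mul_left_comm (2 * C / c0 ^ 2)]
    exact mul_le_mul_of_nonneg_left (quo_bd h g.n1 (face_ne h.ne _) (face_sub _ _) h2 l1) h3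
  · filter_upwards [proj_ne L g.dim hσ u, hyper_null e20 (-a)] with x hx hx2
    have h2 : 0 < ‖σ • L.starProjection x + u‖ := norm_pos_iff.2 hx
    have := (pt2 (e := e) h.ne ((mul_pos h0 h2).trans_le (h.low _))
      ((⟪e2, x⟫ + a) • e2)).const_mul (kap x)
    rw [Fv_sign h.ne (fun h3 => hx2 (by linarith))] at this
    refine this.congr fun δ => ?_
    congr 2
    module

lemma int_Fv (h : Nrm A c0 C) (g : Frm e e2 L) {σ : ℝ} (hσ : σ ≠ 0) {u : E} (hu : u ∈ L)
    (a : ℝ) : Integrable fun x => kap x * Fs A e e2 (⟪e2, x⟫ + a) (σ • L.starProjection x + u) := by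
  have i1 := loc_int L g.dim hσ hu
  have hc := (kap_cc (E := E)).cont
  have hm1 := meas_Fv (e := e) h.ne e2
  have hm2 := meas_Fv (e := e) h.ne (-e2)
  refine (i1.const_mul (2 * C / c0 ^ 2)).mono' (Measurable.aestronglyMeasurable ?_) ?_
  · refine hc.measurable.mul (Measurable.ite ?_ (by fun_prop) (by fun_prop))
    exact measurableSet_lt measurable_const (by fun_prop)
  · filter_upwards [proj_ne L g.dim hσ u] with x hx
    have h2 : 0 < ‖σ • L.starProjection x + u‖ := norm_pos_iff.2 hx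
    have h3 := kap_nonneg x
    rw [Real.norm_eq_abs, abs_mul, abs_of_nonneg h3, mul_left_comm (2 * C / c0 ^ 2)]
    refine mul_le_mul_of_nonneg_left ?_ h3
    unfold Fs
    split_ifs <;> exact quo_bd h g.n1 (face_ne (face_ne h.ne _) _)
      ((face_sub _ _).trans (face_sub _ _)) h2 (h.low _)

lemma Fv_neg (h : Nrm A c0 C) (v u : E) : Fv A e v (-u) = Fv A e (-v) u := by
  unfold Fv
  have h1 := h.sym.face (-u)
  rw [neg_neg] at h1
  rw [(h1.face v).wd, h.neg]

lemma kap_abs (g : Frm e e2 L) {x : E} (hx : kap x ≠ 0) : |⟪e2, x⟫| ≤ 2 ∧ ‖x‖ ≤ 2 := by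
  have h1 : ‖x‖ ≤ 2 := not_lt.1 fun h2 => hx (kap_cc.zero x h2)
  refine ⟨(abs_real_inner_le_norm _ _).trans ?_, h1⟩
  rwa [g.n2, one_mul]

lemma II_sym (h : Nrm A c0 C) (g : Frm e e2 L) {σ : ℝ} (hσ : σ ≠ 0) :
    II A e e2 L σ 0 0 = II A e e2 L σ 0 6 := by
  have e20 : e2 ≠ 0 := by intro h1; have := g.n2; rw [h1] at this; simp at this
  let θ := (ℝ ∙ e2).reflection
  have hθ : ∀ x, θ x = (2 * ⟪e2, x⟫) • e2 - x := by
    intro x
    simp only [θ, Submodule.reflection_singleton_apply, g.n2]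
    simp [two_smul, two_mul, add_smul]
  set G : E → ℝ := fun x => kap x * Fs A e e2 (⟪e2, x⟫ + 0) (σ • L.starProjection x + 0) -
    kap x * Fs A e e2 (⟪e2, x⟫ + 6) (σ • L.starProjection x + 0) with hG
  have h1 : ∫ x, G (θ x) = ∫ x, G x :=
    θ.measurePreserving.integral_comp θ.toHomeomorph.measurableEmbedding G
  have h2 : ∀ x, G (θ x) = -G x := by
    intro x
    have e1 : ⟪e2, θ x⟫ = ⟪e2, x⟫ := by
      rw [hθ, inner_sub_right, real_inner_smul_right, real_inner_self_eq_norm_sq, g.n2]; ring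
    have e3 : σ • L.starProjection (θ x) = -(σ • L.starProjection x) := by
      rw [hθ, map_sub, map_smul, g.p2]; module
    simp only [hG, kap_iso, e1, e3, add_zero]
    by_cases hk : kap x = 0
    · simp [hk]
    · have h3 := abs_le.1 (kap_abs g hk).1
      have h4 : 0 < ⟪e2, x⟫ + 6 := by linarith
      simp only [Fs, if_pos h4, Fv_neg h, neg_neg]
      split_ifs <;> ring
  simp only [h2, integral_neg] at h1
  have h3 : ∫ x, G x = 0 := by linarith
  rw [hG, integral_sub (int_Fv h g hσ L.zero_mem 0) (int_Fv h g hσ L.zero_mem 6)] at h3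
  unfold II
  linarith

lemma II_eq (h : Nrm A c0 C) (g : Frm e e2 L) {σ : ℝ} (hσ : σ ≠ 0) {u : E} (hu : u ∈ L) :
    II A e e2 L σ u 3 = II A e e2 L σ u (-3) := by
  have k : ∀ β : ℝ, 0 ≤ II A e e2 L σ 0 0 - 2 * β * (II A e e2 L σ u 3 - II A e e2 L σ u (-3)) := by
    intro β
    have t0 := lim2 h g hσ L.zero_mem 0
    have t6 := lim2 h g hσ L.zero_mem 6
    have t1 := lim2 h g hσ hu 3
    have t2 := lim2 h g hσ hu (-3)
    have := ge_of_tendsto ((((t0.const_mul (1 ^ 2 + 2 * β ^ 2)).sub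
      (t6.const_mul (2 * β ^ 2))).sub (t1.const_mul (2 * 1 * β))).add (t2.const_mul (2 * 1 * β)))
      (b := 0) (by
        filter_upwards [self_mem_nhdsWithin] with δ hδ
        have hδ' : 0 < δ := hδ
        have := three_Pd h g hσ hδ'.ne' (u + (δ * 3) • e2) (u + (δ * -3) • e2) 1 β
        rw [show u + (δ * 3) • e2 - (u + (δ * -3) • e2) = 0 + (δ * 6) • e2 by module] at this
        rw [show (0 : E) + (δ * 0) • e2 = 0 by simp]
        exact this)
    rw [← II_sym h g hσ] at this
    linarith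
  by_contra hne
  have hd : II A e e2 L σ u 3 - II A e e2 L σ u (-3) ≠ 0 := sub_ne_zero.2 hne
  have := k ((II A e e2 L σ 0 0 + 1) / (2 * (II A e e2 L σ u 3 - II A e e2 L σ u (-3))))
  rw [show 2 * ((II A e e2 L σ 0 0 + 1) / (2 * (II A e e2 L σ u 3 - II A e e2 L σ u (-3)))) *
    (II A e e2 L σ u 3 - II A e e2 L σ u (-3)) = II A e e2 L σ 0 0 + 1 by field_simp] at this
  linarith

/-- opposite edges of a two-dimensional face have equal length -/
theorem edge_eq (h : Nrm A c0 C) (g : Frm e e2 L) {u : E} (hu : u ∈ L)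
    (hg : ∀ a ∈ face A u, ∀ b ∈ face A u, ∀ w ∈ L, ⟪a - b, w⟫ = 0) :
    wd e (face (face A u) e2) = wd e (face (face A u) (-e2)) := by
  obtain ⟨r, r0, hr⟩ := Metric.eventually_nhds_iff.1 (local_face h.ne u)
  have hσ : r / 4 ≠ 0 := by positivity
  have key : ∀ x, kap x ≠ 0 → face A ((r / 4) • L.starProjection x + u) = face A u := by
    intro x hx
    have h1 := (kap_abs g hx).2
    have h2 : dist ((r / 4) • L.starProjection x) 0 < r := by
      rw [dist_zero_right, norm_smul, Real.norm_eq_abs, abs_of_pos (by positivity)]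
      have := (L.norm_starProjection_apply_le x).trans h1
      nlinarith
    rw [add_comm, (hr h2).2]
    exact face_of_orth fun a ha b hb =>
      hg a ha b hb _ (L.smul_mem _ (L.starProjection_apply_mem x))
  have k := II_eq h g hσ hu
  have e1 : II A e e2 L (r / 4) u 3 = wd e (face (face A u) e2) *
      ∫ x, kap x * (hN A ((r / 4) • L.starProjection x + u) ^ 2)⁻¹ := by
    rw [II, ← integral_const_mul]
    congr 1; ext x
    by_cases hk : kap x = 0
    · simp [hk]
    · have h3 := abs_le.1 (kap_abs g hk).1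
      rw [Fs, if_pos (by linarith), Fv, key x hk]; ring
  have e2' : II A e e2 L (r / 4) u (-3) = wd e (face (face A u) (-e2)) *
      ∫ x, kap x * (hN A ((r / 4) • L.starProjection x + u) ^ 2)⁻¹ := by
    rw [II, ← integral_const_mul]
    congr 1; ext x
    by_cases hk : kap x = 0
    · simp [hk]
    · have h3 := abs_le.1 (kap_abs g hk).1
      rw [Fs, if_neg (by linarith), Fv, key x hk]; ring
  rw [e1, e2'] at k
  refine mul_right_cancel₀ (ne_of_gt ?_) k
  have i1 := loc_int L g.dim hσ hu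
  have hc := (kap_cc (E := E)).cont
  have hn := hN_cont h.ne
  have h0 := h.cp
  have i2 : Integrable fun x => kap x * (hN A ((r / 4) • L.starProjection x + u) ^ 2)⁻¹ := by
    refine (i1.const_mul (c0 ^ 2)⁻¹).mono' (Measurable.aestronglyMeasurable (by fun_prop)) ?_
    filter_upwards [proj_ne L g.dim hσ u] with x hx
    have h2 : 0 < ‖(r / 4) • L.starProjection x + u‖ := norm_pos_iff.2 hx
    have h3 := kap_nonneg x
    rw [Real.norm_eq_abs, abs_of_nonneg (by positivity), mul_left_comm, ← mul_inv, ← mul_pow]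
    exact mul_le_mul_of_nonneg_left (inv_anti₀ (by positivity)
      (pow_le_pow_left₀ (by positivity) (h.low _) 2)) h3
  rw [integral_pos_iff_support_of_nonneg (fun x => mul_nonneg (kap_nonneg x) (by positivity)) i2]
  have o1 : 0 < volume (Function.support (kap : E → ℝ)) :=
    hc.isOpen_support.measure_pos _ ⟨0, kap_zero.ne'⟩
  refine o1.trans_le (measure_mono_ae ?_)
  filter_upwards [proj_ne L g.dim hσ u] with x hx hk
  have h2 : 0 < ‖(r / 4) • L.starProjection x + u‖ := norm_pos_iff.2 hx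
  have h3 := (mul_pos h0 h2).trans_le (h.low _)
  exact mul_ne_zero hk (by positivity)

end Pool.Agent.H80.Ib
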