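import Pool.Agent.H80.Ib5

set_option autoImplicit false

namespace Pool.Agent.H80.Ib

open MeasureTheory Metric Set Filter Topology Classical
open scoped RealInnerProductSpace ENNReal NNReal

variable {E : Type} [NormedAddCommGroup E] [InnerProductSpace ℝ E] [FiniteDimensional ℝ E]
  [MeasurableSpace E] [BorelSpace E]

variable {A : Finset E} {c0 C : ℝ}

lemma exists_reps (D : Finset E) : ∃ R : Finset E, (∀ e ∈ R, ‖e‖ = 1) ∧
    (∀ d ∈ D, d = 0 ∨ ∃ e ∈ R, ∃ c : ℝ, d = c • e) ∧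
    ∀ e ∈ R, ∀ e' ∈ R, ∀ c : ℝ, e' = c • e → e' = e := by
  induction D using Finset.induction_on with
  | empty => exact ⟨∅, by simp, by simp, by simp⟩
  | insert d D hd ih =>
    obtain ⟨R, h1, h2, h3⟩ := ih
    by_cases h : d = 0 ∨ ∃ e ∈ R, ∃ c : ℝ, d = c • e
    · refine ⟨R, h1, fun d' hd' => ?_, h3⟩
      rcases Finset.mem_insert.1 hd' with rfl | hd'
      · exact h
      · exact h2 d' hd'
    · push Not at h
      have hp : 0 < ‖d‖ := norm_pos_iff.2 h.1
      have e1 : d = ‖d‖ • ‖d‖⁻¹ • d := by rw [smul_smul, mul_inv_cancel₀ hp.ne', one_smul]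
      refine ⟨insert (‖d‖⁻¹ • d) R, fun e he => ?_, fun d' hd' => ?_, fun e he e' he' c hc => ?_⟩
      · rcases Finset.mem_insert.1 he with rfl | he
        · rw [norm_smul, norm_inv, norm_norm, inv_mul_cancel₀ hp.ne']
        · exact h1 e he
      · rcases Finset.mem_insert.1 hd' with rfl | hd'
        · exact Or.inr ⟨_, Finset.mem_insert_self _ _, _, e1⟩
        · rcases h2 d' hd' with h4 | ⟨e, he, h4⟩
          · exact Or.inl h4
          · exact Or.inr ⟨e, Finset.mem_insert_of_mem he, h4⟩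
      · rcases Finset.mem_insert.1 he with rfl | he <;>
          rcases Finset.mem_insert.1 he' with rfl | he'
        · rfl
        · exfalso
          have c0 : c ≠ 0 := by
            rintro rfl
            have := h1 e' he'
            rw [hc] at this; simp at this
          refine h.2 e' he' (‖d‖ * c⁻¹) ?_
          rw [hc, smul_smul, mul_assoc, inv_mul_cancel₀ c0, mul_one]
          exact e1
        · exfalso
          refine h.2 e he (‖d‖ * c) ?_
          rw [mul_smul, ← hc]; exact e1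
        · exact h3 e he e' he' c hc

lemma ray_two {p : ℝ → Prop} (h1 : ∀ᶠ t in 𝓝[>] (0:ℝ), p t) (h2 : ∀ᶠ t in 𝓝[>] (0:ℝ), p (-t)) :
    ∀ᶠ t in 𝓝[≠] (0:ℝ), p t := by
  rw [← nhdsLT_sup_nhdsGT, eventually_sup]
  refine ⟨?_, h1⟩
  have := tendsto_neg_nhdsLT (a := (0:ℝ))
  rw [neg_zero] at this
  simpa using this.eventually h2

lemma face_in {x a b : E} (ha : a ∈ face A x) (hb : b ∈ face A x) : ⟪a - b, x⟫ = 0 := by
  rw [inner_sub_left, (mem_face.1 ha).2, (mem_face.1 hb).2, sub_self]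

lemma face_dir {S : Finset E} (hS : S.Nonempty) {e v : E} (he : ‖e‖ = 1)
    (h : ∀ a ∈ S, ∀ b ∈ S, ⟪a - b, v⟫ = ⟪a - b, e⟫ * ⟪e, v⟫) :
    (0 < ⟪e, v⟫ → face S v = face S e) ∧ (⟪e, v⟫ < 0 → face S v = face S (-e)) := by
  have e1 : face S v = face S (⟪e, v⟫ • e) :=
    face_congr fun a ha b hb => by rw [h a ha b hb, real_inner_smul_right, mul_comm]
  refine ⟨fun h1 => by rw [e1, face_smul hS h1], fun h1 => ?_⟩
  rw [e1, show ⟪e, v⟫ • e = (-⟪e, v⟫) • (-e) by module, face_smul hS (by linarith)]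

structure Rep (A R : Finset E) : Prop where
  n : ∀ e ∈ R, ‖e‖ = 1
  d : ∀ a ∈ A, ∀ b ∈ A, a - b = 0 ∨ ∃ e ∈ R, ∃ c : ℝ, a - b = c • e
  u : ∀ e ∈ R, ∀ e' ∈ R, ∀ c : ℝ, e' = c • e → e' = e

lemma wall_const (hn : 5 ≤ Module.finrank ℝ E) (h : Nrm A c0 C) {R : Finset E} (hR : Rep A R)
    {e : E} (he : e ∈ R) {x y : E} (hx : ⟪e, x⟫ = 0) (hy : ⟪e, y⟫ = 0)
    (gx : ∀ d ∈ R.erase e, ⟪d, x⟫ ≠ 0) (gy : ∀ d ∈ R.erase e, ⟪d, y⟫ ≠ 0) :
    wd e (face A x) = wd e (face A y) := by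
  have mW : ∀ w, w ∈ (ℝ ∙ e)ᗮ ↔ ⟪e, w⟫ = 0 := fun w =>
    Submodule.mem_orthogonal_singleton_iff_inner_right
  have n1 := hR.n e he
  have ee : ⟪e, e⟫ = 1 := by rw [real_inner_self_eq_norm_sq, n1]; norm_num
  refine generic_const (ℝ ∙ e)ᗮ (R.erase e) (fun w => wd e (face A w)) ?_ ?_ ((mW x).2 hx)
    ((mW y).2 hy) gx gy
  · intro x hx gx
    filter_upwards [local_face h.ne x] with k hk hkW
    rw [hk.2, face_of_orth]
    intro a ha b hb
    rcases hR.d a (face_sub _ _ ha) b (face_sub _ _ hb) with h1 | ⟨d, hd, c, h1⟩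
    · simp [h1]
    · have h2 := face_in ha hb
      rw [h1, real_inner_smul_left] at h2 ⊢
      by_cases h3 : d = e
      · rw [h3, (mW k).1 hkW, mul_zero]
      · rw [(mul_eq_zero.1 h2).resolve_right (gx d (Finset.mem_erase.2 ⟨h3, hd⟩)), zero_mul]
  · intro x hx d0 hd0 h0 hp v hv hv0
    set p := d0 - ⟪e, d0⟫ • e with hpd
    have pw : ∀ w ∈ (ℝ ∙ e)ᗮ, ⟪p, w⟫ = ⟪d0, w⟫ := fun w hw => by
      rw [hpd, inner_sub_left, real_inner_smul_left, (mW w).1 hw]; ring
    have p0 : 0 < ‖p‖ := by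
      rw [norm_pos_iff]; intro h1
      have := pw v hv
      rw [h1, inner_zero_left] at this
      exact hv0 this.symm
    set e2 := ‖p‖⁻¹ • p with he2
    have n2 : ‖e2‖ = 1 := by rw [he2, norm_smul, norm_inv, norm_norm, inv_mul_cancel₀ p0.ne']
    have o : ⟪e, e2⟫ = 0 := by
      rw [he2, real_inner_smul_right, hpd, inner_sub_right, real_inner_smul_right, ee]; ring
    have dw : ∀ w ∈ (ℝ ∙ e)ᗮ, ⟪d0, w⟫ = ‖p‖ * ⟪e2, w⟫ := fun w hw => by
      rw [he2, real_inner_smul_left, pw w hw]; field_simp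
    have e22 : ⟪e2, e2⟫ = 1 := by rw [real_inner_self_eq_norm_sq, n2]; norm_num
    have g : Frm e e2 ((ℝ ∙ e)ᗮ ⊓ (ℝ ∙ e2)ᗮ) := by
      refine ⟨n1, n2, o, fun w => ?_, ?_⟩
      · rw [Submodule.mem_inf, mW, Submodule.mem_orthogonal_singleton_iff_inner_right]
      · have f1 := (ℝ ∙ e).finrank_add_finrank_orthogonal
        have f2 := (ℝ ∙ e2).finrank_add_finrank_orthogonal
        rw [finrank_span_singleton (by rintro rfl; simp at n1)] at f1
        rw [finrank_span_singleton (by intro h1; rw [h1] at n2; simp at n2)] at f2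
        have f3 := Submodule.finrank_sup_add_finrank_inf_eq (ℝ ∙ e)ᗮ (ℝ ∙ e2)ᗮ
        have f4 := Submodule.finrank_le ((ℝ ∙ e)ᗮ ⊔ (ℝ ∙ e2)ᗮ)
        omega
    have key : ∀ a ∈ face A x, ∀ b ∈ face A x, ∃ k : ℝ, ∀ w ∈ (ℝ ∙ e)ᗮ,
        ⟪a - b, w⟫ = k * ⟪e2, w⟫ := by
      intro a ha b hb
      rcases hR.d a (face_sub _ _ ha) b (face_sub _ _ hb) with h1 | ⟨d, hd, c, h1⟩
      · exact ⟨0, fun w _ => by simp [h1]⟩
      · have h2 := face_in ha hb
        rw [h1, real_inner_smul_left] at h2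
        by_cases h3 : d = e
        · exact ⟨0, fun w hw => by rw [h1, real_inner_smul_left, h3, (mW w).1 hw]; ring⟩
        · rcases mul_eq_zero.1 h2 with h4 | h4
          · exact ⟨0, fun w _ => by simp [h1, h4]⟩
          · obtain ⟨k, hk⟩ := hp d (Finset.mem_erase.2 ⟨h3, hd⟩) h4
            exact ⟨c * k * ‖p‖, fun w hw => by
              rw [h1, real_inner_smul_left, hk w hw, dw w hw]; ring⟩
    have xL : x ∈ (ℝ ∙ e)ᗮ ⊓ (ℝ ∙ e2)ᗮ := by
      refine (g.mem x).2 ⟨(mW x).1 hx, ?_⟩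
      have := dw x hx
      rw [h0] at this
      exact (mul_eq_zero.1 this.symm).resolve_left p0.ne'
    have ed := edge_eq h g xL fun a ha b hb w hw => by
      obtain ⟨k, hk⟩ := key a ha b hb
      rw [hk w hw.1, ((g.mem w).1 hw).2, mul_zero]
    have side : ∀ v ∈ (ℝ ∙ e)ᗮ, ⟪d0, v⟫ ≠ 0 →
        ∀ᶠ t in 𝓝[>] (0:ℝ), wd e (face A (x + t • v)) = wd e (face (face A x) e2) := by
      intro v hv hv0
      have fd := face_dir (face_ne h.ne x) (v := v) n2 fun a ha b hb => by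
        obtain ⟨k, hk⟩ := key a ha b hb
        rw [hk v hv, hk e2 ((mW e2).2 o), e22, mul_one]
      have h1 : ⟪e2, v⟫ ≠ 0 := by
        intro h1; apply hv0; rw [dw v hv, h1, mul_zero]
      filter_upwards [ray_face h.ne x v] with t ht
      rw [ht]
      rcases lt_or_gt_of_ne h1 with h2 | h2
      · rw [fd.2 h2, ed]
      · rw [fd.1 h2]
    refine ⟨_, ray_two (side v hv hv0) ?_⟩
    have := side (-v) (Submodule.neg_mem _ hv) (by rwa [inner_neg_right, neg_ne_zero])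
    simpa using this

noncomputable def sg (t : ℝ) : ℝ := if 0 < t then 1 else -1

lemma sg_ev {x v d : E} (h : ⟪d, x⟫ ≠ 0) : ∀ᶠ k in 𝓝 (0 : E), sg ⟪d, x + k⟫ = sg ⟪d, x⟫ := by
  have c : ContinuousAt (fun k => ⟪d, x + k⟫) 0 := by fun_prop
  rcases lt_or_gt_of_ne h with h1 | h1
  · filter_upwards [c.eventually_lt continuousAt_const (g := fun _ => 0) (by simpa using h1)]
      with k hk
    rw [sg, sg, if_neg (not_lt.2 hk.le), if_neg (not_lt.2 h1.le)]
  · filter_upwards [continuousAt_const.eventually_lt c (f := fun _ => 0) (by simpa using h1)]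
      with k hk
    rw [sg, sg, if_pos hk, if_pos h1]

theorem sum_abs (hn : 5 ≤ Module.finrank ℝ E) (h : Nrm A c0 C) :
    ∃ (R : Finset E) (c : E → ℝ), (∀ e, 0 ≤ c e) ∧ ∀ x, hN A x = ∑ e ∈ R, c e * |⟪e, x⟫| := by
  obtain ⟨R, r1, r2, r3⟩ := exists_reps ((A ×ˢ A).image fun p => p.1 - p.2)
  have hR : Rep A R := ⟨r1, fun a ha b hb =>
    r2 _ (Finset.mem_image.2 ⟨(a, b), Finset.mem_product.2 ⟨ha, hb⟩, rfl⟩), r3⟩
  have ex : ∀ e, ∃ c : ℝ, 0 ≤ c ∧ (e ∈ R → ∀ x, ⟪e, x⟫ = 0 → (∀ d ∈ R.erase e, ⟪d, x⟫ ≠ 0) →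
      wd e (face A x) = 2 * c) := by
    intro e
    by_cases h1 : ∃ y, ⟪e, y⟫ = 0 ∧ ∀ d ∈ R.erase e, ⟪d, y⟫ ≠ 0
    · obtain ⟨y, hy, gy⟩ := h1
      refine ⟨wd e (face A y) / 2, ?_, fun he x hx gx => ?_⟩
      · obtain ⟨a, ha⟩ := face_ne h.ne y
        have h1 := le_hN ha e
        have h2 := le_hN ha (-e)
        rw [inner_neg_right] at h2
        unfold wd; linarith
      · rw [wall_const hn h hR he hx hy gx gy]; ring
    · exact ⟨0, le_rfl, fun _ x hx gx => absurd ⟨x, hx, gx⟩ h1⟩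
  choose c c0' hc using ex
  refine ⟨R, c, c0', ?_⟩
  let f : E → E := fun x => (face_ne h.ne x).choose - ∑ e ∈ R, (c e * sg ⟪e, x⟫) • e
  have ch : ∀ x, (face_ne h.ne x).choose ∈ face A x := fun x => (face_ne h.ne x).choose_spec
  have sing : ∀ x, (∀ d ∈ R, ⟪d, x⟫ ≠ 0) → ∀ a ∈ face A x, ∀ b ∈ face A x, a = b := by
    intro x gx a ha b hb
    rcases hR.d a (face_sub _ _ ha) b (face_sub _ _ hb) with h1 | ⟨d, hd, k, h1⟩
    · exact sub_eq_zero.1 h1
    · have h2 := face_in ha hb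
      rw [h1, real_inner_smul_left] at h2
      rw [(mul_eq_zero.1 h2).resolve_right (gx d hd), zero_smul] at h1
      exact sub_eq_zero.1 h1
  have gc : ∀ x y, (∀ d ∈ R, ⟪d, x⟫ ≠ 0) → (∀ d ∈ R, ⟪d, y⟫ ≠ 0) → f x = f y := by
    intro x y gx gy
    refine generic_const ⊤ R f ?_ ?_ trivial trivial gx gy
    · intro x _ gx
      have e1 : ∀ᶠ k in 𝓝 (0 : E), ∀ d ∈ R, sg ⟪d, x + k⟫ = sg ⟪d, x⟫ :=
        (eventually_all_finset R).2 fun d hd => sg_ev (v := 0) (gx d hd)
      filter_upwards [local_face h.ne x, e1] with k hk h1 _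
      have h2 : face A (x + k) ⊆ face A x := by rw [hk.2]; exact face_sub _ _
      simp only [f]
      rw [sing x gx _ (h2 (ch (x + k))) _ (ch x)]
      congr 1
      exact Finset.sum_congr rfl fun d hd => by rw [h1 d hd]
    · intro x _ d0 hd0 h0 hp v _ hv0
      have n1 := hR.n d0 hd0
      have dd : ⟪d0, d0⟫ = 1 := by rw [real_inner_self_eq_norm_sq, n1]; norm_num
      have gx : ∀ d ∈ R.erase d0, ⟪d, x⟫ ≠ 0 := by
        intro d hd h1
        obtain ⟨h2, h3⟩ := Finset.mem_erase.1 hd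
        obtain ⟨k, hk⟩ := hp d h3 h1
        refine h2 (hR.u d0 hd0 d h3 k (ext_inner_right ℝ fun w => ?_))
        rw [hk w trivial, real_inner_smul_left]
      have key : ∀ a ∈ face A x, ∀ b ∈ face A x, a - b = ⟪a - b, d0⟫ • d0 := by
        intro a ha b hb
        rcases hR.d a (face_sub _ _ ha) b (face_sub _ _ hb) with h1 | ⟨d, hd, k, h1⟩
        · simp [h1]
        · have h2 := face_in ha hb
          rw [h1, real_inner_smul_left] at h2
          by_cases h3 : d = d0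
          · rw [h1, h3, real_inner_smul_left, dd, mul_one]
          · rw [h1, (mul_eq_zero.1 h2).resolve_right (gx d (Finset.mem_erase.2 ⟨h3, hd⟩))]; simp
      obtain ⟨a1, ha1⟩ := face_ne (face_ne h.ne x) d0
      have w1 := hc d0 hd0 x h0 gx
      have side : ∀ v, ⟪d0, v⟫ ≠ 0 → ∀ᶠ t in 𝓝[>] (0:ℝ), f (x + t • v) =
          a1 - (c d0 • d0 + ∑ e ∈ R.erase d0, (c e * sg ⟪e, x⟫) • e) := by
        intro v hv0
        have fd := face_dir (face_ne h.ne x) (v := v) n1 fun a ha b hb => by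
          conv_lhs => rw [key a ha b hb, real_inner_smul_left]
        have tz : Tendsto (fun t : ℝ => t • v) (𝓝[>] 0) (𝓝 0) := by
          apply Tendsto.mono_left _ nhdsWithin_le_nhds
          have : Continuous fun t : ℝ => t • v := by fun_prop
          simpa using this.tendsto 0
        have e1 : ∀ᶠ k in 𝓝 (0 : E), ∀ d ∈ R.erase d0, sg ⟪d, x + k⟫ = sg ⟪d, x⟫ :=
          (eventually_all_finset _).2 fun d hd => sg_ev (v := 0) (gx d hd)
        filter_upwards [ray_face h.ne x v, tz.eventually e1, self_mem_nhdsWithin] with t ht h1 h2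
        have h2' : 0 < t := h2
        have h3 := ch (x + t • v)
        simp only [f]
        generalize (face_ne h.ne (x + t • v)).choose = a at h3 ⊢
        rw [ht] at h3
        rw [← Finset.add_sum_erase R _ hd0,
          Finset.sum_congr rfl fun d hd => by rw [h1 d hd], inner_add_right, h0, zero_add,
          real_inner_smul_right]
        have h4 := key a (face_sub _ _ h3) a1 (face_sub _ _ ha1)
        rw [inner_sub_left, (mem_face.1 ha1).2] at h4
        rcases lt_or_gt_of_ne hv0 with h5 | h5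
        · rw [fd.2 h5] at h3
          have h6 := (mem_face.1 h3).2
          rw [inner_neg_right] at h6
          have h7 : ⟪a, d0⟫ - hN (face A x) d0 = -(2 * c d0) := by
            rw [← w1, wd]; linarith
          rw [h7] at h4
          rw [sg, if_neg (not_lt.2 (mul_neg_of_pos_of_neg h2' h5).le), eq_add_of_sub_eq h4]
          module
        · rw [fd.1 h5] at h3
          rw [(mem_face.1 h3).2, sub_self, zero_smul, sub_eq_zero] at h4
          rw [sg, if_pos (mul_pos h2' h5), h4, mul_one]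
      refine ⟨_, ray_two (side v hv0) ?_⟩
      have := side (-v) (by rwa [inner_neg_right, neg_ne_zero])
      simpa using this
  have gen : ∀ x, (∀ d ∈ R, ⟪d, x⟫ ≠ 0) → hN A x = ∑ e ∈ R, c e * |⟪e, x⟫| := by
    intro x gx
    have gx' : ∀ d ∈ R, ⟪d, -x⟫ ≠ 0 := fun d hd => by
      rw [inner_neg_right, neg_ne_zero]; exact gx d hd
    have h1 := gc x (-x) gx gx'
    have h2 : (face_ne h.ne (-x)).choose = -(face_ne h.ne x).choose :=
      sing (-x) gx' _ (ch _) _ (((h.sym.face x) _).1 (ch x))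
    have h3 : ∑ e ∈ R, (c e * sg ⟪e, -x⟫) • e = -∑ e ∈ R, (c e * sg ⟪e, x⟫) • e := by
      rw [← Finset.sum_neg_distrib]
      refine Finset.sum_congr rfl fun d hd => ?_
      rw [inner_neg_right]
      rcases lt_or_gt_of_ne (gx d hd) with h4 | h4
      · rw [sg, sg, if_pos (by linarith), if_neg (by linarith)]; module
      · rw [sg, sg, if_neg (by linarith), if_pos h4]; module
    simp only [f] at h1
    rw [h2, h3] at h1
    have h4 : (face_ne h.ne x).choose = ∑ e ∈ R, (c e * sg ⟪e, x⟫) • e := by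
      have : (2:ℝ) • ((face_ne h.ne x).choose - ∑ e ∈ R, (c e * sg ⟪e, x⟫) • e) = 0 := by
        rw [two_smul]; nth_rewrite 1 [h1]; abel
      exact sub_eq_zero.1 ((smul_eq_zero.1 this).resolve_left two_ne_zero)
    rw [← (mem_face.1 (ch x)).2, h4, sum_inner]
    refine Finset.sum_congr rfl fun d hd => ?_
    rw [real_inner_smul_left]
    rcases lt_or_gt_of_ne (gx d hd) with h4 | h4
    · rw [sg, if_neg (by linarith), abs_of_neg h4]; ring
    · rw [sg, if_pos h4, abs_of_pos h4]; ring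
  intro x
  obtain ⟨w, -, hw⟩ := exists_generic ⊤ R
  have e1 := ev_generic R x w fun g hg => hw g hg ⟨g, trivial, by
    rw [real_inner_self_eq_norm_sq, hR.n g hg]; norm_num⟩
  have hc1 := hN_cont h.ne
  have t1 : Tendsto (fun t : ℝ => hN A (x + t • w)) (𝓝[≠] 0) (𝓝 (hN A x)) :=
    ((by fun_prop : Continuous fun t : ℝ => hN A (x + t • w)).tendsto' 0 _ (by simp)).mono_left
      nhdsWithin_le_nhds
  have t2 : Tendsto (fun t : ℝ => ∑ e ∈ R, c e * |⟪e, x + t • w⟫|) (𝓝[≠] 0)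
      (𝓝 (∑ e ∈ R, c e * |⟪e, x⟫|)) :=
    ((by fun_prop : Continuous fun t : ℝ => ∑ e ∈ R, c e * |⟪e, x + t • w⟫|).tendsto' 0 _
      (by simp)).mono_left nhdsWithin_le_nhds
  exact tendsto_nhds_unique_of_eventuallyEq t1 t2 (e1.mono fun t ht => gen _ ht)

end Pool.Agent.H80.Ib
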