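import Pool.Agent.H80.Ib6

set_option autoImplicit false

namespace Pool.Agent.H80.Ib

open MeasureTheory Metric Set Filter Topology Classical
open scoped RealInnerProductSpace ENNReal NNReal Pointwise

variable {E : Type} [NormedAddCommGroup E] [InnerProductSpace ℝ E] [FiniteDimensional ℝ E]

lemma ext_finite (S : Finset E) :
    (({a : E | ∀ p ∈ S, ⟪p, a⟫ ≤ 1}).extremePoints ℝ).Finite := by
  refine Set.Finite.of_finite_image (f := fun a => S.filter fun p => ⟪p, a⟫ = 1)
    ((S.powerset.finite_toSet).subset ?_) ?_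
  · rintro _ ⟨a, -, rfl⟩
    exact Finset.mem_coe.2 (Finset.mem_powerset.2 (Finset.filter_subset _ _))
  · intro a ha a' ha' e
    have e' : ∀ p ∈ S, ⟪p, a⟫ = 1 → ⟪p, a'⟫ = 1 := by
      intro p hp h1
      have : p ∈ S.filter fun p => ⟪p, a⟫ = 1 := Finset.mem_filter.2 ⟨hp, h1⟩
      simp only at e
      rw [e] at this
      exact (Finset.mem_filter.1 this).2
    have ev : ∀ᶠ t in 𝓝[>] (0:ℝ), ∀ p ∈ S, ⟪p, a + t • (a - a')⟫ ≤ 1 := by
      rw [eventually_all_finset]
      intro p hp
      by_cases h1 : ⟪p, a⟫ = 1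
      · refine Eventually.of_forall fun t => ?_
        rw [inner_add_right, real_inner_smul_right, inner_sub_right, h1, e' p hp h1]; simp
      · have h2 : ⟪p, a⟫ < 1 := lt_of_le_of_ne (ha.1 p hp) h1
        have c : ContinuousAt (fun t : ℝ => ⟪p, a + t • (a - a')⟫) 0 := by fun_prop
        exact ((c.eventually_lt continuousAt_const (g := fun _ => 1) (by simpa using h2)).mono
          fun t ht => ht.le).filter_mono nhdsWithin_le_nhds
    obtain ⟨t, ht, t0⟩ := (ev.and self_mem_nhdsWithin).exists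
    have t0' : 0 < t := t0
    refine ((mem_extremePoints.1 ha).2 a' ha'.1 _ ht ⟨t / (1 + t), 1 / (1 + t), by positivity,
      by positivity, by field_simp; ring, ?_⟩).1.symm
    have : (1 + t) ≠ 0 := by positivity
    match_scalars <;> field_simp <;> ring

lemma poly_rep (S : Finset E) (hs : convexHull ℝ (S : Set E) = -convexHull ℝ (S : Set E))
    (hi : (interior (convexHull ℝ (S : Set E))).Nonempty) :
    ∃ (A : Finset E) (c0 : ℝ), A.Nonempty ∧ Ng A A ∧ 0 < c0 ∧ (∀ x, c0 * ‖x‖ ≤ hN A x) ∧
      ∀ x, x ∈ convexHull ℝ (S : Set E) ↔ hN A x ≤ 1 := by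
  set K := convexHull ℝ (S : Set E) with hK
  have cK : IsCompact K := S.finite_toSet.isCompact_convexHull ℝ
  have vK : Convex ℝ K := convex_convexHull ℝ _
  have nK : ∀ x ∈ K, -x ∈ K := fun x hx => by rw [hs]; simpa using hx
  obtain ⟨x0, hx0⟩ := hi
  obtain ⟨r, r0, hr⟩ := Metric.isOpen_iff.1 isOpen_interior x0 hx0
  have bK : ∀ y : E, ‖y‖ < r → y ∈ K := by
    intro y hy
    have h1 : x0 + y ∈ K := interior_subset (hr (by simpa using hy))
    have h2 : x0 - y ∈ K := interior_subset (hr (by simpa using hy))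
    have := vK h1 (nK _ h2) (a := 1 / 2) (b := 1 / 2) (by norm_num) (by norm_num) (by norm_num)
    convert this using 1
    module
  set P := {a : E | ∀ p ∈ S, ⟪p, a⟫ ≤ 1} with hP
  have PK : ∀ a ∈ P, ∀ x ∈ K, ⟪x, a⟫ ≤ 1 := by
    intro a ha
    refine convexHull_min (t := {x | ⟪x, a⟫ ≤ 1}) ha ?_
    exact convex_halfSpace_le ⟨fun x y => inner_add_left _ _ _, fun c x => real_inner_smul_left _ _ _⟩ 1
  have KP : ∀ a, (∀ x ∈ K, ⟪x, a⟫ ≤ 1) → a ∈ P := fun a ha p hp =>
    ha p (subset_convexHull ℝ _ hp)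
  have vP : Convex ℝ P := by
    intro a ha b hb s t hs ht hst p hp
    rw [inner_add_right, real_inner_smul_right, real_inner_smul_right]
    have := ha p hp
    have := hb p hp
    nlinarith
  have cP : IsCompact P := by
    apply Metric.isCompact_of_isClosed_isBounded
    · have : P = ⋂ p ∈ S, {a | ⟪p, a⟫ ≤ 1} := by ext a; simp [hP]
      rw [this]
      exact isClosed_biInter fun p _ => isClosed_le (by fun_prop) continuous_const
    · rw [isBounded_iff_forall_norm_le]
      refine ⟨2 / r, fun a ha => ?_⟩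
      rcases eq_or_ne a 0 with rfl | h0
      · simp; positivity
      · have hp : 0 < ‖a‖ := norm_pos_iff.2 h0
        have h1 := PK a ha ((r / 2 / ‖a‖) • a) (bK _ (by
          rw [norm_smul, Real.norm_eq_abs, abs_of_pos (by positivity), div_mul_cancel₀ _ hp.ne']
          linarith))
        rw [real_inner_smul_left, real_inner_self_eq_norm_sq] at h1
        rw [le_div_iff₀ r0]
        have : r / 2 / ‖a‖ * ‖a‖ ^ 2 = ‖a‖ * r / 2 := by field_simp
        linarith
  set A0 := (ext_finite S).toFinset with hA0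
  have mA0 : ∀ a, a ∈ A0 ↔ a ∈ P.extremePoints ℝ := fun a => Set.Finite.mem_toFinset _
  set A := A0 ∪ A0.image (fun a => -a) with hA
  have AP : ∀ a ∈ A, a ∈ P := by
    intro a ha
    rcases Finset.mem_union.1 ha with h1 | h1
    · exact ((mA0 a).1 h1).1
    · obtain ⟨b, hb, rfl⟩ := Finset.mem_image.1 h1
      refine KP _ fun x hx => ?_
      have := PK b ((mA0 b).1 hb).1 _ (nK x hx)
      rwa [inner_neg_left, ← inner_neg_right] at this
  have nA : A.Nonempty := by
    obtain ⟨a, ha⟩ := cP.extremePoints_nonempty ⟨0, fun p _ => by simp⟩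
    exact ⟨a, Finset.mem_union_left _ ((mA0 a).2 ha)⟩
  have mem : ∀ x, x ∈ K ↔ hN A x ≤ 1 := by
    intro x
    constructor
    · intro hx
      obtain ⟨a, ha, e⟩ := ex_hN nA x
      rw [← e, real_inner_comm]
      exact PK a (AP a ha) x hx
    · intro hx
      by_contra h1
      obtain ⟨f, u, h2, h3⟩ := geometric_hahn_banach_closed_point vK cK.isClosed h1
      have u0 : 0 < u := by simpa using h2 0 (bK 0 (by simpa using r0))
      set a := u⁻¹ • (InnerProductSpace.toDual ℝ E).symm f with ha
      have fa : ∀ y, ⟪a, y⟫ = u⁻¹ * f y := fun y => by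
        rw [ha, real_inner_smul_left, InnerProductSpace.toDual_symm_apply]
      have aP : a ∈ P := KP a fun y hy => by
        rw [real_inner_comm, fa, inv_mul_le_iff₀ u0, mul_one]; exact (h2 y hy).le
      rw [← closure_convexHull_extremePoints cP vP] at aP
      have h4 : closure (convexHull ℝ (P.extremePoints ℝ)) ⊆ {b | ⟪b, x⟫ ≤ 1} := by
        refine closure_minimal (convexHull_min (fun b hb => ?_) ?_)
          (isClosed_le (by fun_prop) continuous_const)
        · exact (le_hN (Finset.mem_union_left _ ((mA0 b).2 hb)) x).trans hx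
        · exact convex_halfSpace_le
            ⟨fun x y => inner_add_left _ _ _, fun c x => real_inner_smul_left _ _ _⟩ 1
      have h5 : ⟪a, x⟫ ≤ 1 := h4 aP
      rw [fa, inv_mul_le_iff₀ u0] at h5
      linarith
  obtain ⟨M, M0, hM⟩ := cK.isBounded.exists_pos_norm_le
  refine ⟨A, (M + 1)⁻¹, nA, fun a => ?_, by positivity, fun x => ?_, mem⟩
  · simp only [hA, Finset.mem_union, Finset.mem_image]
    constructor
    · rintro (h1 | ⟨b, hb, rfl⟩)
      · exact Or.inr ⟨a, h1, rfl⟩
      · exact Or.inl (by simpa using hb)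
    · rintro (h1 | ⟨b, hb, h1⟩)
      · exact Or.inr ⟨-a, h1, neg_neg a⟩
      · exact Or.inl (by rw [← neg_inj.1 h1]; exact hb)
  · rcases eq_or_ne x 0 with rfl | h0
    · have := hN_smul nA le_rfl (0 : E)
      rw [zero_smul, zero_mul] at this
      simp [this]
    · have hp : 0 < ‖x‖ := norm_pos_iff.2 h0
      have h1 : ((M + 1) / ‖x‖) • x ∉ K := fun h2 => by
        have := hM _ h2
        rw [norm_smul, Real.norm_eq_abs, abs_of_pos (by positivity), div_mul_cancel₀ _ hp.ne']
          at this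
        linarith
      rw [mem, hN_smul nA (by positivity), not_le, div_mul_eq_mul_div, lt_div_iff₀ hp] at h1
      rw [inv_mul_le_iff₀ (by positivity)]
      linarith

variable [MeasurableSpace E] [BorelSpace E]

theorem main (hn : 5 ≤ Module.finrank ℝ E) (S : Finset E)
    (hs : convexHull ℝ (S : Set E) = -convexHull ℝ (S : Set E))
    (hi : (interior (convexHull ℝ (S : Set E))).Nonempty)
    (hK : IsIntersectionBody (convexHull ℝ (S : Set E))) :
    ∃ (m : ℕ) (v : Fin m → E), Submodule.span ℝ (Set.range v) = ⊤ ∧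
      convexHull ℝ (S : Set E) = polar (zonotope v) := by
  obtain ⟨A, c0, nA, sA, cp, low, mem⟩ := poly_rep S hs hi
  obtain ⟨C, -, hC⟩ := ex_bound A
  have hr : ∀ u : E, ‖u‖ = 1 → radial (convexHull ℝ (S : Set E)) u = (hN A u)⁻¹ := by
    intro u hu
    have hp : 0 < hN A u := by
      have := low u
      rw [hu, mul_one] at this
      exact cp.trans_le this
    have : {t : ℝ | 0 ≤ t ∧ t • u ∈ convexHull ℝ (S : Set E)} = Icc 0 (hN A u)⁻¹ := by
      ext t
      simp only [mem_setOf_eq, mem_Icc, mem]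
      refine and_congr_right fun ht => ?_
      rw [hN_smul nA ht, ← one_div, le_div_iff₀ hp]
    rw [radial, this, csSup_Icc (inv_pos.2 hp).le]
  have h : Nrm A c0 C := ⟨nA, sA, cp, low, hC, fun B M hB hi =>
    ib_pos (by omega) hK hr (fun t ht x => hN_smul nA ht.le x) hB hi⟩
  obtain ⟨R, c, c0', hsum⟩ := sum_abs hn h
  let v : Fin R.card → E := fun i => c (R.equivFin.symm i) • (R.equivFin.symm i : E)
  have hv : ∀ x, hN A x = ∑ i, |⟪v i, x⟫| := by
    intro x
    rw [hsum, ← Finset.sum_coe_sort R, ← R.equivFin.symm.sum_comp]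
    refine Finset.sum_congr rfl fun i _ => ?_
    simp only [v]
    rw [real_inner_smul_left, abs_mul, abs_of_nonneg (c0' _)]
  clear_value v
  refine ⟨R.card, v, ?_, ?_⟩
  · rw [← Submodule.orthogonal_eq_bot_iff, Submodule.eq_bot_iff]
    intro x hx
    have h1 : ∀ i, ⟪v i, x⟫ = 0 := fun i => hx _ (Submodule.subset_span ⟨i, rfl⟩)
    have h2 := low x
    rw [hv] at h2
    simp only [h1, abs_zero, Finset.sum_const_zero] at h2
    have h3 : ‖x‖ ≤ 0 := by
      by_contra h4
      have := mul_pos cp (not_le.1 h4)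
      linarith
    exact norm_le_zero_iff.1 h3
  · ext y
    rw [mem, hv]
    constructor
    · rintro h1 _ ⟨t, ht, rfl⟩
      rw [sum_inner]
      refine (Finset.sum_le_sum fun i _ => ?_).trans h1
      rw [real_inner_smul_left]
      refine (le_abs_self _).trans ?_
      rw [abs_mul]
      exact mul_le_of_le_one_left (abs_nonneg _) (abs_le.2 (ht i))
    · intro h1
      have := h1 _ ⟨fun i => sg ⟪v i, y⟫, fun i => by
        simp only [sg]; split_ifs <;> norm_num, rfl⟩
      rw [sum_inner] at this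
      refine le_of_eq_of_le (Finset.sum_congr rfl fun i _ => ?_) this
      change |⟪v i, y⟫| = ⟪sg ⟪v i, y⟫ • v i, y⟫
      rw [real_inner_smul_left, sg]
      split_ifs with h2
      · rw [abs_of_pos h2, one_mul]
      · rw [abs_of_nonpos (not_lt.1 h2), neg_one_mul]

end Pool.Agent.H80.Ib
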