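import Mathlib

set_option autoImplicit false

namespace Pool.Agent.H80.Ib

open MeasureTheory Metric
open scoped RealInnerProductSpace

variable {E : Type} [NormedAddCommGroup E] [InnerProductSpace ℝ E] [FiniteDimensional ℝ E]
  [MeasurableSpace E] [BorelSpace E]

/-- radial function -/
noncomputable def radial (K : Set E) (u : E) : ℝ := sSup {t : ℝ | 0 ≤ t ∧ t • u ∈ K}

/-- integral over the unit sphere of `E` against its spherical Lebesgue measure -/
noncomputable def sphInt (f : E → ℝ) : ℝ :=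
  ∫ u : sphere (0 : E) 1, f u ∂(volume : Measure E).toSphere

/-- spherical Radon transform: integral over the unit sphere of the hyperplane orthogonal to `v` -/
noncomputable def radon (f : E → ℝ) (v : E) : ℝ :=
  sphInt (fun w : ((ℝ ∙ v)ᗮ : Submodule ℝ E) => f w)

/-- `ρ_K = R μ` for a finite even Borel measure `μ` on the unit sphere -/
def IsIntersectionBody (K : Set E) : Prop :=
  ∃ μ : Measure (sphere (0 : E) 1), IsFiniteMeasure μ ∧ μ.map (fun u => -u) = μ ∧
    ∀ f : E → ℝ, ContinuousOn f (sphere 0 1) → (∀ u ∈ sphere (0 : E) 1, f (-u) = f u) →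
      sphInt (fun u => radial K u * f u) = ∫ v, radon f v ∂μ

/-- the zonotope `∑ i, [-v i, v i]` -/
def zonotope {m : ℕ} (v : Fin m → E) : Set E :=
  {x | ∃ t : Fin m → ℝ, (∀ i, -1 ≤ t i ∧ t i ≤ 1) ∧ x = ∑ i, t i • v i}

/-- polar body -/
def polar (K : Set E) : Set E := {y | ∀ x ∈ K, ⟪x, y⟫ ≤ 1}

end Pool.Agent.H80.Ib
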