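import Pool.Agent.H80.JetDefs

namespace Pool.Agent.H80.Jet

open MvPolynomial

variable {k : Type} [Field k] {n : ℕ}

lemma jet_le_ker {s : ℕ} (C : Set (Finset (Fin n))) {A : Type} [CommRing A] (φ : JR k n s →+* A)
    (h : ∀ e ∈ C, Polynomial.X ^ (s + 1) ∣ ∏ i ∈ e, (arc k s i).map φ) :
    jetIdeal k s (edgeIdeal k C) ≤ RingHom.ker φ := by
  rw [jetIdeal, Ideal.span_le]
  rintro _ ⟨f, hf, j, hj, rfl⟩
  have : edgeIdeal k C ≤ (Ideal.span {Polynomial.X ^ (s + 1)}).comap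
      ((Polynomial.mapRingHom φ).comp (aeval (arc k s)).toRingHom) := by
    rw [edgeIdeal, Ideal.span_le]
    rintro _ ⟨e, he, rfl⟩
    simpa [Ideal.mem_span_singleton, Polynomial.map_prod] using h e he
  have h2 := Polynomial.X_pow_dvd_iff.1 (Ideal.mem_span_singleton.1 (this hf)) j (by omega)
  simpa using h2

lemma embedded_of {σ : Type} [Finite σ] [DecidableEq σ] (J : Ideal (MvPolynomial σ k))
    (τ : Set σ) [DecidablePred (· ∈ τ)] (v : σ) (hv : v ∉ τ)
    (hJ : J ≤ RingHom.ker (aeval fun i => if i ∈ τ then 0 else X i :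
      MvPolynomial σ k →ₐ[k] MvPolynomial σ k).toRingHom)
    (f : MvPolynomial σ k) (hf : f ∉ J) (h1 : ∀ i ∈ τ, X i * f ∈ J) (h2 : X v * f ∈ J) :
    HasEmbedded J := by
  set φ : MvPolynomial σ k →ₐ[k] MvPolynomial σ k := aeval fun i => if i ∈ τ then 0 else X i
  obtain ⟨P, hP, hle⟩ := exists_le_isAssociatedPrime_of_isNoetherianRing (MvPolynomial σ k)
    (Ideal.Quotient.mk J f) (by rwa [Ne, Ideal.Quotient.eq_zero_iff_mem])
  have hm : ∀ g, g * f ∈ J → g ∈ P := fun g hg => hle (by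
    rw [Submodule.mem_colon_singleton, Submodule.mem_bot]
    exact Ideal.Quotient.eq_zero_iff_mem.2 hg)
  refine ⟨P, hP, fun hmin => ?_⟩
  have h3 : ∀ g, g - φ g ∈ P := by
    intro g
    induction g using MvPolynomial.induction_on with
    | C a => simp [φ]
    | add p q hp hq =>
      rw [map_add, add_sub_add_comm]
      exact add_mem hp hq
    | mul_X p i hp =>
      rw [map_mul]
      by_cases hi : i ∈ τ
      · simpa [φ, hi] using P.mul_mem_left p (hm _ (h1 i hi))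
      · have : φ (X i) = X i := by simp [φ, hi]
        rw [this, ← sub_mul]
        exact P.mul_mem_right _ hp
  have h4 : RingHom.ker φ.toRingHom ≤ P := fun g hg => by
    have h5 : φ g = 0 := hg
    simpa [h5] using h3 g
  have h6 : φ (X v) = 0 := hmin.2 ⟨RingHom.ker_isPrime _, hJ⟩ h4 (hm _ h2)
  simp [φ, hv] at h6

/-- The triangle. -/
def tri : Set (Finset (Fin 3)) := {{0, 1}, {1, 2}, {0, 2}}

lemma tri_clutter : IsClutter tri := by
  constructor
  · rintro e (rfl | rfl | rfl) <;> decide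
  · rintro e (rfl | rfl | rfl) e' (rfl | rfl | rfl) <;> decide

lemma gen_mem (s : ℕ) (a b : Fin 3) (hab : a ≠ b) (h : {a, b} ∈ tri) (j : ℕ) (hj : j ≤ s) :
    (arc k s a * arc k s b).coeff j ∈ jetIdeal k s (edgeIdeal k tri) :=
  Ideal.subset_span ⟨_, Ideal.subset_span ⟨_, h, rfl⟩, j, hj, by
    rw [Finset.prod_pair hab]; simp⟩

lemma tri_dvd {s : ℕ} {A : Type} [CommRing A] (φ : JR k 3 s →+* A)
    (h1 : Polynomial.X ^ (s + 1) ∣ (arc k s 0).map φ * (arc k s 1).map φ)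
    (h2 : Polynomial.X ^ (s + 1) ∣ (arc k s 1).map φ * (arc k s 2).map φ)
    (h3 : Polynomial.X ^ (s + 1) ∣ (arc k s 0).map φ * (arc k s 2).map φ) :
    jetIdeal k s (edgeIdeal k tri) ≤ RingHom.ker φ := by
  refine jet_le_ker tri φ ?_
  rintro e (rfl | rfl | rfl) <;> rwa [Finset.prod_pair (by decide)]

lemma arc1 (i : Fin 3) : arc k 1 i =
    Polynomial.C (X (i, 0)) + Polynomial.C (X (i, 1)) * Polynomial.X := by
  simp [arc, Fin.sum_univ_succ, ← Polynomial.C_mul_X_pow_eq_monomial]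

lemma arc2 (i : Fin 3) : arc k 2 i = Polynomial.C (X (i, 0)) +
    Polynomial.C (X (i, 1)) * Polynomial.X + Polynomial.C (X (i, 2)) * Polynomial.X ^ 2 := by
  simp [arc, Fin.sum_univ_succ, ← Polynomial.C_mul_X_pow_eq_monomial, add_assoc]

lemma g1 (a b : Fin 3) (hab : a ≠ b) (h : {a, b} ∈ tri) :
    X (a, 0) * X (b, 0) ∈ jetIdeal k 1 (edgeIdeal k tri) ∧
    X (a, 0) * X (b, 1) + X (a, 1) * X (b, 0) ∈ jetIdeal k 1 (edgeIdeal k tri) := by
  have h0 := gen_mem (k := k) 1 a b hab h 0 (by omega)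
  have h1 := gen_mem (k := k) 1 a b hab h 1 (by omega)
  rw [arc1, arc1] at h0 h1
  simp only [Polynomial.coeff_mul, Finset.Nat.antidiagonal_succ, Finset.Nat.antidiagonal_zero] at h0 h1
  simp [Polynomial.coeff_C, Polynomial.coeff_X] at h0 h1
  exact ⟨h0, h1⟩

lemma g2 (a b : Fin 3) (hab : a ≠ b) (h : {a, b} ∈ tri) :
    X (a, 0) * X (b, 0) ∈ jetIdeal k 2 (edgeIdeal k tri) ∧
    X (a, 0) * X (b, 1) + X (a, 1) * X (b, 0) ∈ jetIdeal k 2 (edgeIdeal k tri) ∧
    X (a, 0) * X (b, 2) + (X (a, 1) * X (b, 1) + X (a, 2) * X (b, 0)) ∈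
      jetIdeal k 2 (edgeIdeal k tri) := by
  have h0 := gen_mem (k := k) 2 a b hab h 0 (by omega)
  have h1 := gen_mem (k := k) 2 a b hab h 1 (by omega)
  have h2 := gen_mem (k := k) 2 a b hab h 2 (by omega)
  rw [arc2, arc2, Polynomial.coeff_mul] at h0 h1 h2
  rw [show (2 : ℕ) = 1 + 1 from rfl] at h2
  simp only [Finset.Nat.antidiagonal_succ, Finset.Nat.antidiagonal_zero] at h0 h1 h2
  simp [Polynomial.coeff_C, Polynomial.coeff_X] at h0 h1 h2
  exact ⟨h0, h1, h2⟩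

lemma unit_mem {R : Type} [CommRing R] [Algebra k R] (J : Ideal R) (c : k) (hc : c ≠ 0) (g : R)
    (h : algebraMap k R c * g ∈ J) : g ∈ J :=
  (J.unit_mul_mem_iff_mem ((IsUnit.mk0 c hc).map _)).1 h

lemma root_pow (m : ℕ) : (AdjoinRoot.root (Polynomial.X ^ (m + 1) : Polynomial k)) ^ m ≠ 0 ∧
    (AdjoinRoot.root (Polynomial.X ^ (m + 1) : Polynomial k)) ^ (m + 1) = 0 := by
  rw [← AdjoinRoot.mk_X, ← map_pow, ← map_pow, Ne, AdjoinRoot.mk_eq_zero, AdjoinRoot.mk_eq_zero]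
  refine ⟨fun h => ?_, dvd_rfl⟩
  have := Polynomial.X_pow_dvd_iff.1 h m (by omega)
  simp at this

theorem emb1 (h2 : (2 : k) ≠ 0) : HasEmbedded (jetIdeal k 1 (edgeIdeal k tri)) := by
  obtain ⟨a0, a1⟩ := g1 (k := k) 0 1 (by decide) (by simp [tri])
  obtain ⟨b0, b1⟩ := g1 (k := k) 1 2 (by decide) (by simp [tri])
  obtain ⟨c0, c1⟩ := g1 (k := k) 0 2 (by decide) (by simp [tri])
  refine embedded_of _ {x | x.2 = 0} (0, 1) (by decide) (tri_dvd _ ?_ ?_ ?_)
    (X (1, 0) * X (2, 1)) (fun h => ?_) ?_ ?_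
  iterate 3
    simp only [arc1, Polynomial.map_add, Polynomial.map_mul, Polynomial.map_C, Polynomial.map_X]
    simp
    rw [mul_mul_mul_comm, ← sq]
    exact dvd_mul_left _ _
  · obtain ⟨r1, r2⟩ := root_pow (k := k) 1
    set a := AdjoinRoot.root (Polynomial.X ^ (1 + 1) : Polynomial k)
    have := tri_dvd (aeval fun x : Fin 3 × Fin 2 => !![0, 0; a, -1; a, 1] x.1 x.2).toRingHom
      (by simp [arc1]) (by
        simp [arc1]
        refine ⟨-1, ?_⟩
        have := congrArg Polynomial.C r2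
        rw [map_pow, map_zero] at this
        linear_combination this) (by simp [arc1]) h
    simp at this
    exact r1 (by simpa using this)
  · rintro ⟨i, j⟩ (rfl : j = 0)
    fin_cases i
    · convert Ideal.mul_mem_left _ (X (2, 1)) a0 using 1
      simp; ring
    · convert sub_mem (Ideal.mul_mem_left _ (X (1, 0)) b1) (Ideal.mul_mem_left _ (X (1, 1)) b0)
        using 1
      simp; ring
    · convert Ideal.mul_mem_left _ (X (2, 1)) b0 using 1
      simp; ring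
  · refine unit_mem _ 2 h2 _ ?_
    convert sub_mem (add_mem (Ideal.mul_mem_left _ (X (2, 1)) a1)
      (Ideal.mul_mem_left _ (X (0, 1)) b1)) (Ideal.mul_mem_left _ (X (1, 1)) c1) using 1
    rw [map_ofNat]; ring

theorem emb2 (h3 : (3 : k) ≠ 0) : HasEmbedded (jetIdeal k 2 (edgeIdeal k tri)) := by
  obtain ⟨a0, a1, a2⟩ := g2 (k := k) 0 1 (by decide) (by simp [tri])
  obtain ⟨b0, b1, b2⟩ := g2 (k := k) 1 2 (by decide) (by simp [tri])
  obtain ⟨c0, c1, c2⟩ := g2 (k := k) 0 2 (by decide) (by simp [tri])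
  have lc : ∀ g : JR k 3 2, ∀ u : Fin 9 → JR k 3 2, g = u 0 * _ + u 1 * _ + u 2 * _ + u 3 * _ +
      u 4 * _ + u 5 * _ + u 6 * _ + u 7 * _ + u 8 * _ → g ∈ jetIdeal k 2 (edgeIdeal k tri) :=
    fun g u h => h ▸ add_mem (add_mem (add_mem (add_mem (add_mem (add_mem (add_mem (add_mem
      (Ideal.mul_mem_left _ _ a0) (Ideal.mul_mem_left _ _ a1)) (Ideal.mul_mem_left _ _ a2))
      (Ideal.mul_mem_left _ _ b0)) (Ideal.mul_mem_left _ _ b1)) (Ideal.mul_mem_left _ _ b2))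
      (Ideal.mul_mem_left _ _ c0)) (Ideal.mul_mem_left _ _ c1)) (Ideal.mul_mem_left _ _ c2)
  refine embedded_of _ {(0, 0), (0, 1), (1, 0), (1, 1), (2, 0)} (0, 2) (by decide)
    (tri_dvd _ ?_ ?_ ?_) (X (1, 0) * X (2, 1) * X (2, 1)) (fun h => ?_) ?_ ?_
  · simp [arc2]
    exact ⟨Polynomial.C (X (0, 2)) * Polynomial.C (X (1, 2)) * Polynomial.X, by ring⟩
  · simp [arc2]
    exact ⟨Polynomial.C (X (1, 2)) * (Polynomial.C (X (2, 1)) + Polynomial.C (X (2, 2)) *
      Polynomial.X), by ring⟩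
  · simp [arc2]
    exact ⟨Polynomial.C (X (0, 2)) * (Polynomial.C (X (2, 1)) + Polynomial.C (X (2, 2)) *
      Polynomial.X), by ring⟩
  · obtain ⟨r1, r2⟩ := root_pow (k := k) 2
    set a := AdjoinRoot.root (Polynomial.X ^ (2 + 1) : Polynomial k)
    have := tri_dvd (aeval fun x : Fin 3 × Fin 3 =>
      !![0, 0, 0; a ^ 2, -a, 1; a, 1, 0] x.1 x.2).toRingHom
      (by simp [arc2]) (by
        simp [arc2]
        refine ⟨1, ?_⟩
        have := congrArg Polynomial.C r2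
        rw [map_pow, map_zero] at this
        linear_combination this) (by simp [arc2]) h
    simp at this
    exact r1 (by simpa using this)
  · rintro _ (rfl | rfl | rfl | rfl | rfl)
    · exact lc _ ![X (2, 1) * X (2, 1), 0, 0, 0, 0, 0, 0, 0, 0] (by simp; ring)
    · exact lc _ ![X (2, 1) * X (2, 2), X (2, 1) * X (2, 1), 0, 0, 0, -(X (0, 0) * X (2, 1)),
        X (1, 2) * X (2, 1), 0, 0] (by simp; ring)
    · exact lc _ ![0, 0, 0, -(X (1, 1) * X (2, 1)), X (1, 0) * X (2, 1), 0, 0, 0, 0]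
        (by simp; ring)
    · exact lc _ ![0, 0, 0, X (1, 1) * X (2, 2) - X (1, 2) * X (2, 1), -(X (1, 0) * X (2, 2)),
        X (1, 0) * X (2, 1), 0, 0, 0] (by simp; ring)
    · exact lc _ ![0, 0, 0, X (2, 1) * X (2, 1), 0, 0, 0, 0, 0] (by simp; ring)
  · refine unit_mem _ 3 h3 _ ?_
    rw [map_ofNat]
    exact lc _ ![-(3 * X (2, 2) * X (2, 2)), -(X (2, 1) * X (2, 2)), X (2, 1) * X (2, 1), 0,
      2 * X (0, 2) * X (2, 1), X (0, 1) * X (2, 1) + 3 * X (0, 0) * X (2, 2),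
      -(3 * X (1, 2) * X (2, 2)), -(X (1, 2) * X (2, 1)), -(2 * X (1, 1) * X (2, 1))]
      (by simp; ring)

theorem emb (k : Type) [Field k] : ∃ s, HasEmbedded (jetIdeal k s (edgeIdeal k tri)) := by
  by_cases h : (2 : k) = 0
  · refine ⟨2, emb2 fun h3 => one_ne_zero (α := k) ?_⟩
    linear_combination h3 - h
  · exact ⟨1, emb1 h⟩

end Pool.Agent.H80.Jet
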