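import Mathlib

/-! Jet ideals of edge ideals of clutters. -/

namespace Pool.Agent.H80.Jet

open MvPolynomial

variable (k : Type) [Field k] {n : ℕ}

/-- A clutter: nonempty edges, none containing another. -/
def IsClutter (C : Set (Finset (Fin n))) : Prop :=
  (∀ e ∈ C, e.Nonempty) ∧ ∀ e ∈ C, ∀ e' ∈ C, e ⊆ e' → e = e'

/-- The edge ideal. -/
noncomputable def edgeIdeal (C : Set (Finset (Fin n))) : Ideal (MvPolynomial (Fin n) k) :=
  Ideal.span {p | ∃ e ∈ C, p = ∏ i ∈ e, X i}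

/-- The ring `S_s = k[x_(i,j) : 0 ≤ j ≤ s]`. -/
abbrev JR (n s : ℕ) : Type := MvPolynomial (Fin n × Fin (s + 1)) k

/-- The series `∑_j x_(i,j) t^j`. -/
noncomputable def arc (s : ℕ) (i : Fin n) : Polynomial (JR k n s) :=
  ∑ j : Fin (s + 1), Polynomial.monomial j (X (i, j))

/-- The `s`-jet ideal: generated by the coefficients `f^(j)`, `f ∈ I`, `0 ≤ j ≤ s`. -/
noncomputable def jetIdeal (s : ℕ) (I : Ideal (MvPolynomial (Fin n) k)) : Ideal (JR k n s) :=
  Ideal.span {g | ∃ f ∈ I, ∃ j ≤ s, g = (aeval (arc k s) f).coeff j}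

/-- `J` has an associated prime that is not minimal over it. -/
def HasEmbedded {R : Type} [CommRing R] (J : Ideal R) : Prop :=
  ∃ P ∈ associatedPrimes R (R ⧸ J), P ∉ J.minimalPrimes

end Pool.Agent.H80.Jet
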