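import Mathlib

set_option autoImplicit false

namespace Pool.Agent.H80.KL

open scoped MonomialOrder

/-- Positions `(i, j)` (row, column) of the indeterminates of `Z^{(u)}`: `i > u(j)` and
`j < u⁻¹(i)`. -/
abbrev Pos {n : ℕ} (u : Equiv.Perm (Fin n)) : Type :=
  {p : Fin n × Fin n // u p.2 < p.1 ∧ p.2 < u.symm p.1}

/-- The matrix `Z^{(u)}` over the polynomial ring `k[x^{(u)}]`. -/
noncomputable def Z (k : Type) [Field k] {n : ℕ} (u : Equiv.Perm (Fin n)) :
    Matrix (Fin n) (Fin n) (MvPolynomial (Pos u) k) := fun i j =>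
  if u j = i then 1
  else if h : u j < i ∧ j < u.symm i then MvPolynomial.X ⟨(i, j), h⟩ else 0

/-- The southwest rank `r^v_{pq} = #{j ≤ q : v(j) ≥ p}`. -/
def rk {n : ℕ} (v : Equiv.Perm (Fin n)) (p q : Fin n) : ℕ :=
  (Finset.univ.filter fun j => j ≤ q ∧ p ≤ v j).card

/-- Bruhat order, by the rank criterion. -/
def BruhatLE {n : ℕ} (u v : Equiv.Perm (Fin n)) : Prop := ∀ p q, rk u p q ≤ rk v p q

/-- The defining determinants of `I_{u,v}`: minors of size `r^v_{pq} + 1` of the submatrix of
`Z^{(u)}` in rows `p, …, n` and columns `1, …, q`. -/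
def defDets (k : Type) [Field k] {n : ℕ} (u v : Equiv.Perm (Fin n)) :
    Set (MvPolynomial (Pos u) k) :=
  {d | ∃ (p q : Fin n) (m : ℕ) (r c : Fin m → Fin n), m = rk v p q + 1 ∧ StrictMono r ∧
    StrictMono c ∧ (∀ a, p ≤ r a) ∧ (∀ a, c a ≤ q) ∧ d = ((Z k u).submatrix r c).det}

/-- A term order refining total degree. -/
def IsGraded {σ : Type} (ord : MonomialOrder.{0, 0} σ) : Prop :=
  ∀ a b : σ →₀ ℕ, a.degree < b.degree → a ≺[ord] b

/-- A diagonal term order: the leading term of every minor of the generic matrix is the product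
of its diagonal entries. -/
def IsDiagonal (k : Type) [Field k] {n : ℕ} (ord : MonomialOrder.{0, 0} (Fin n × Fin n)) : Prop :=
  ∀ (m : ℕ) (r c : Fin m → Fin n), StrictMono r → StrictMono c →
    ord.leadingTerm (Matrix.of fun a b =>
      (MvPolynomial.X (r a, c b) : MvPolynomial (Fin n × Fin n) k)).det =
      ∏ a, MvPolynomial.X (r a, c a)

/-- `G` is a Groebner basis of the ideal it generates in `k[x^{(u)}]`, for the restriction of
`ord`: the leading monomial of every nonzero element of the ideal is divisible by the leading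
monomial of a nonzero element of `G`. -/
def IsGroebner (k : Type) [Field k] {n : ℕ} (ord : MonomialOrder.{0, 0} (Fin n × Fin n))
    (u : Equiv.Perm (Fin n)) (G : Set (MvPolynomial (Pos u) k)) : Prop :=
  ∀ g ∈ Ideal.span G, g ≠ 0 → ∃ d ∈ G, d ≠ 0 ∧
    ord.degree (MvPolynomial.rename Subtype.val d) ≤ ord.degree (MvPolynomial.rename Subtype.val g)

end Pool.Agent.H80.KL
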