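import Mathlib

set_option autoImplicit false

namespace Pool.Agent.H80.WeightOrder

open scoped MonomialOrder

/-- type synonym carrying the refined weight order -/
def WSyn {σ : Type} (_w : σ → ℕ) (_m : MonomialOrder.{0, 0} σ) : Type := σ →₀ ℕ

noncomputable instance {σ : Type} (w : σ → ℕ) (m : MonomialOrder.{0, 0} σ) :
    AddCommMonoid (WSyn w m) := inferInstanceAs (AddCommMonoid (σ →₀ ℕ))

/-- comparison key -/
noncomputable def key {σ : Type} (w : σ → ℕ) (m : MonomialOrder.{0, 0} σ) (a : WSyn w m) :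
    Lex (ℕ × m.syn) :=
  toLex (Finsupp.weight w (show σ →₀ ℕ from a), m.toSyn (show σ →₀ ℕ from a))

theorem key_inj {σ : Type} (w : σ → ℕ) (m : MonomialOrder.{0, 0} σ) :
    Function.Injective (key w m) := fun _ _ h =>
  m.toSyn.injective (congrArg (fun p => (ofLex p).2) h)

noncomputable instance {σ : Type} (w : σ → ℕ) (m : MonomialOrder.{0, 0} σ) :
    LinearOrder (WSyn w m) := LinearOrder.lift' (key w m) (key_inj w m)

theorem le_iff {σ : Type} (w : σ → ℕ) (m : MonomialOrder.{0, 0} σ) (a b : σ →₀ ℕ) :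
    (show WSyn w m from a) ≤ (show WSyn w m from b) ↔ Finsupp.weight w a < Finsupp.weight w b ∨
      (Finsupp.weight w a = Finsupp.weight w b ∧ m.toSyn a ≤ m.toSyn b) :=
  Prod.Lex.toLex_le_toLex

theorem lt_iff {σ : Type} (w : σ → ℕ) (m : MonomialOrder.{0, 0} σ) (a b : σ →₀ ℕ) :
    (show WSyn w m from a) < (show WSyn w m from b) ↔ Finsupp.weight w a < Finsupp.weight w b ∨
      (Finsupp.weight w a = Finsupp.weight w b ∧ m.toSyn a < m.toSyn b) :=
  Prod.Lex.toLex_lt_toLex

instance {σ : Type} (w : σ → ℕ) (m : MonomialOrder.{0, 0} σ) : IsOrderedAddMonoid (WSyn w m) where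
  add_le_add_left a b h c := by
    have h' := (le_iff w m a b).1 h
    refine (le_iff w m ((show σ →₀ ℕ from a) + (show σ →₀ ℕ from c))
      ((show σ →₀ ℕ from b) + (show σ →₀ ℕ from c))).2 ?_
    simp only [map_add]
    rcases h' with h' | ⟨h1, h2⟩
    · exact Or.inl (Nat.add_lt_add_right h' _)
    · exact Or.inr ⟨by rw [h1], add_le_add_left h2 _⟩

instance {σ : Type} (w : σ → ℕ) (m : MonomialOrder.{0, 0} σ) : WellFoundedLT (WSyn w m) :=
  ⟨InvImage.wf (key w m) wellFounded_lt⟩

/-- The monomial order comparing first the weight `w`, then the order `m`. -/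
noncomputable def weightOrder {σ : Type} (w : σ → ℕ) (m : MonomialOrder.{0, 0} σ) :
    MonomialOrder.{0, 0} σ where
  syn := WSyn w m
  toSyn := AddEquiv.refl _
  toSyn_monotone a b h := by
    refine (le_iff w m a b).2 ?_
    obtain ⟨c, rfl⟩ := exists_add_of_le h
    rw [map_add]
    rcases Nat.eq_zero_or_pos (Finsupp.weight w c) with h0 | h0
    · exact Or.inr ⟨by rw [h0, add_zero], m.toSyn_monotone h⟩
    · exact Or.inl (by omega)

theorem weightOrder_lt {σ : Type} (w : σ → ℕ) (m : MonomialOrder.{0, 0} σ) (a b : σ →₀ ℕ) :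
    a ≺[weightOrder w m] b ↔ Finsupp.weight w a < Finsupp.weight w b ∨
      (Finsupp.weight w a = Finsupp.weight w b ∧ a ≺[m] b) := lt_iff w m a b

theorem weightOrder_le {σ : Type} (w : σ → ℕ) (m : MonomialOrder.{0, 0} σ) (a b : σ →₀ ℕ) :
    a ≼[weightOrder w m] b ↔ Finsupp.weight w a < Finsupp.weight w b ∨
      (Finsupp.weight w a = Finsupp.weight w b ∧ a ≼[m] b) := le_iff w m a b

/-- degree of a polynomial with a dominant monomial in its support -/
theorem degree_eq_of {σ R : Type} [CommSemiring R] (m : MonomialOrder.{0, 0} σ)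
    (f : MvPolynomial σ R) (d : σ →₀ ℕ) (hd : d ∈ f.support)
    (h : ∀ c ∈ f.support, c ≼[m] d) : m.degree f = d :=
  m.toSyn.injective (le_antisymm (MonomialOrder.degree_le_iff.2 h) (m.le_degree hd))

end Pool.Agent.H80.WeightOrder
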