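import Mathlib
import Pool.Agent.H80.KLDefs
import Pool.Agent.H80.WeightOrder

set_option autoImplicit false

namespace Pool.Agent.H80.KL

open MvPolynomial Pool.Agent.H80.WeightOrder
open scoped MonomialOrder

/-- supermodular weights -/
def wt (p : Fin 5 × Fin 5) : ℕ := p.1 * (p.2 + 5)

/-- the term order -/
noncomputable def ord : MonomialOrder.{0, 0} (Fin 5 × Fin 5) :=
  weightOrder (fun _ => 1) (weightOrder wt (MonomialOrder.lex : MonomialOrder (Lex (Fin 5 × Fin 5))))

theorem ord_graded : IsGraded ord := by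
  intro a b h
  refine (weightOrder_lt _ _ _ _).2 (Or.inl ?_)
  rw [Finsupp.degree_eq_weight_one] at h
  exact h

theorem ord_lt (a b : Fin 5 × Fin 5 →₀ ℕ)
    (h1 : Finsupp.weight (fun _ => 1) a = Finsupp.weight (fun _ => 1) b)
    (h2 : Finsupp.weight wt a < Finsupp.weight wt b) : a ≺[ord] b :=
  (weightOrder_lt _ _ _ _).2 (Or.inr ⟨h1, (weightOrder_lt _ _ _ _).2 (Or.inl h2)⟩)

theorem lead_of_lt {σ k : Type} [Field k] (m : MonomialOrder.{0, 0} σ) (d : σ →₀ ℕ) (e : k)
    (he : e ≠ 0) (g : MvPolynomial σ k) (h : ∀ c ∈ g.support, c ≺[m] d) :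
    m.degree (monomial d e + g) = d ∧ m.leadingTerm (monomial d e + g) = monomial d e := by
  classical
  have h0 : coeff d g = 0 := by
    by_contra h0
    exact lt_irrefl _ (h d (mem_support_iff.2 h0))
  have h1 : coeff d (monomial d e + g) = e := by simp [h0]
  have h2 : m.degree (monomial d e + g) = d := by
    refine degree_eq_of m _ d (mem_support_iff.2 (by rw [h1]; exact he)) fun c hc => ?_
    rcases Finset.mem_union.1 (support_add hc) with h3 | h3
    · rw [Finset.mem_singleton.1 (support_monomial_subset h3)]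
    · exact (h c h3).le
  refine ⟨h2, ?_⟩
  rw [MonomialOrder.leadingTerm, MonomialOrder.leadingCoeff, h2, h1]

theorem ord_diagonal (k : Type) [Field k] : IsDiagonal k ord := by
  classical
  intro m r c hr hc
  have hX : ∀ s : Fin m → Fin 5, (∏ a, X (s a, c a) : MvPolynomial (Fin 5 × Fin 5) k) =
      monomial (∑ a, Finsupp.single (s a, c a) 1) 1 := by
    intro s; rw [monomial_sum_one]; rfl
  rw [Matrix.det_apply', ← Finset.add_sum_erase _ _ (Finset.mem_univ (1 : Equiv.Perm (Fin m)))]
  simp only [Matrix.of_apply, Equiv.Perm.sign_one, Units.val_one, Int.cast_one, one_mul,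
    Equiv.Perm.coe_one, id]
  rw [hX r]
  refine (lead_of_lt ord _ 1 one_ne_zero _ fun e he => ?_).2
  obtain ⟨σ, hσ, he⟩ := Finset.mem_biUnion.1 (support_sum he)
  rw [hX (fun a => r (σ a)), ← map_intCast (C : k →+* MvPolynomial (Fin 5 × Fin 5) k),
    C_mul_monomial] at he
  rw [Finset.mem_singleton.1 (support_monomial_subset he)]
  apply ord_lt
  · simp only [map_sum, Finsupp.weight_single]
  · simp only [map_sum, Finsupp.weight_single, wt, one_smul]
    have hm : Monovary (fun a => (r a : ℕ)) (fun a => (c a : ℕ) + 5) := by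
      intro a b hab
      have : c a < c b := by simpa using hab
      exact hr.monotone (hc.lt_iff_lt.1 this).le
    refine (hm.sum_comp_perm_mul_lt_sum_mul_iff (σ := σ)).2 fun h => ?_
    apply (Finset.mem_erase.1 hσ).1
    rw [← Equiv.Perm.monotone_iff]
    intro a b hab
    rcases hab.eq_or_lt with rfl | hab
    · exact le_rfl
    · have := h (i := a) (j := b) (by simpa using hc hab)
      exact hr.le_iff_le.1 this

/-- u = 14325 -/
def u : Equiv.Perm (Fin 5) := Equiv.swap 1 3

/-- v = 53412 -/
def v : Equiv.Perm (Fin 5) := ⟨![4, 2, 3, 0, 1], ![3, 4, 1, 2, 0], by decide, by decide⟩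

theorem bruhat : BruhatLE u v := by unfold BruhatLE; decide

theorem ren1 (k : Type) [Field k] :
    rename Subtype.val ((Z k u).submatrix ![1, 2, 3, 4] ![0, 1, 2, 3]).det =
      - X (3, 0) * X (4, 1) - X (1, 0) * X (4, 3) - X (2, 0) * X (4, 2) + X (4, 0) := by
  rw [AlgHom.map_det]
  have : (rename Subtype.val : MvPolynomial (Pos u) k →ₐ[k] _).mapMatrix
      ((Z k u).submatrix ![1, 2, 3, 4] ![0, 1, 2, 3]) =
      !![X (1, 0), 0, 0, 1; X (2, 0), 0, 1, 0; X (3, 0), 1, 0, 0;
        X (4, 0), X (4, 1), X (4, 2), X (4, 3)] := by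
    ext1 a b
    fin_cases a <;> fin_cases b <;> simp +decide [Z]
  rw [this, Matrix.det_succ_row_zero]
  simp [Fin.sum_univ_succ, Matrix.det_fin_three, Fin.succAbove]
  ring

theorem ren2 (k : Type) [Field k] :
    rename Subtype.val ((Z k u).submatrix ![3, 4] ![0, 1]).det =
      X (3, 0) * X (4, 1) - X (4, 0) := by
  rw [AlgHom.map_det]
  have : (rename Subtype.val : MvPolynomial (Pos u) k →ₐ[k] _).mapMatrix
      ((Z k u).submatrix ![3, 4] ![0, 1]) = !![X (3, 0), 1; X (4, 0), X (4, 1)] := by
    ext1 a b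
    fin_cases a <;> fin_cases b <;> simp +decide [Z]
  rw [this, Matrix.det_fin_two]
  simp

theorem dets (k : Type) [Field k] (d : MvPolynomial (Pos u) k) (hd : d ∈ defDets k u v) :
    d = ((Z k u).submatrix ![1, 2, 3, 4] ![0, 1, 2, 3]).det ∨
      d = ((Z k u).submatrix ![3, 4] ![0, 1]).det := by
  obtain ⟨p, q, m, r, c, hm, hr, hc, hp, hq, rfl⟩ := hd
  have h1 : m ≤ (Finset.Ici p).card := by
    simpa using Finset.card_le_card_of_injOn (s := Finset.univ) (t := Finset.Ici p) r
      (fun a _ => by simpa using hp a) hr.injective.injOn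
  have h2 : m ≤ (Finset.Iic q).card := by
    simpa using Finset.card_le_card_of_injOn (s := Finset.univ) (t := Finset.Iic q) c
      (fun a _ => by simpa using hq a) hc.injective.injOn
  have key : ∀ p q : Fin 5, rk v p q + 1 ≤ (Finset.Ici p).card → rk v p q + 1 ≤ (Finset.Iic q).card →
      (p = 1 ∧ q = 3 ∧ rk v p q + 1 = 4) ∨ (p = 3 ∧ q = 1 ∧ rk v p q + 1 = 2) := by decide
  rcases key p q (hm ▸ h1) (hm ▸ h2) with ⟨rfl, rfl, h⟩ | ⟨rfl, rfl, h⟩
  · left
    rw [h] at hm
    subst hm
    have e1 : r = ![1, 2, 3, 4] := by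
      have a0 := hp 0
      have a1 := hr (show (0 : Fin 4) < 1 by decide)
      have a2 := hr (show (1 : Fin 4) < 2 by decide)
      have a3 := hr (show (2 : Fin 4) < 3 by decide)
      funext a; fin_cases a <;> simp <;> omega
    have e2 : c = ![0, 1, 2, 3] := by
      have a0 := hq 3
      have a1 := hc (show (0 : Fin 4) < 1 by decide)
      have a2 := hc (show (1 : Fin 4) < 2 by decide)
      have a3 := hc (show (2 : Fin 4) < 3 by decide)
      funext a; fin_cases a <;> simp <;> omega
    rw [e1, e2]
  · right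
    rw [h] at hm
    subst hm
    have e1 : r = ![3, 4] := by
      have a0 := hp 0
      have a1 := hr (show (0 : Fin 2) < 1 by decide)
      funext a; fin_cases a <;> simp <;> omega
    have e2 : c = ![0, 1] := by
      have a0 := hq 1
      have a1 := hc (show (0 : Fin 2) < 1 by decide)
      funext a; fin_cases a <;> simp <;> omega
    rw [e1, e2]

theorem XX {k : Type} [Field k] (a b : Fin 5 × Fin 5) : (X a * X b : MvPolynomial _ k) =
    monomial (Finsupp.single a 1 + Finsupp.single b 1) 1 := by
  rw [X, X, monomial_mul, one_mul]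

theorem not_groebner (k : Type) [Field k] : ¬ IsGroebner k ord u (defDets k u v) := by
  classical
  intro H
  have m1 : ((Z k u).submatrix ![1, 2, 3, 4] ![0, 1, 2, 3]).det ∈ defDets k u v :=
    ⟨1, 3, 4, _, _, by decide, by decide, by decide, by decide, by decide, rfl⟩
  have m2 : ((Z k u).submatrix ![3, 4] ![0, 1]).det ∈ defDets k u v :=
    ⟨3, 1, 2, _, _, by decide, by decide, by decide, by decide, by decide, rfl⟩
  have hg : rename Subtype.val (((Z k u).submatrix ![1, 2, 3, 4] ![0, 1, 2, 3]).det +
      ((Z k u).submatrix ![3, 4] ![0, 1]).det) =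
      monomial (Finsupp.single (2, 0) 1 + Finsupp.single (4, 2) 1) (-1) +
        monomial (Finsupp.single (1, 0) 1 + Finsupp.single (4, 3) 1) (-1) := by
    rw [map_add, ren1, ren2, map_neg, map_neg, ← XX, ← XX]; ring
  have hdeg := (lead_of_lt ord (Finsupp.single (2, 0) 1 + Finsupp.single (4, 2) 1) (-1 : k)
    (by simp) (monomial (Finsupp.single (1, 0) 1 + Finsupp.single (4, 3) 1) (-1)) (by
      intro c hc
      rw [Finset.mem_singleton.1 (support_monomial_subset hc)]
      apply ord_lt <;> simp [Finsupp.weight_single, wt])).1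
  obtain ⟨d, hd, -, hle⟩ := H _ (Ideal.add_mem _ (Ideal.subset_span m1) (Ideal.subset_span m2)) (by
    intro h0
    rw [h0, map_zero] at hg
    rw [← hg, MonomialOrder.degree_zero] at hdeg
    have := DFunLike.congr_fun hdeg (2, 0)
    simp at this)
  rw [hg, hdeg] at hle
  have hd' : ord.degree (rename Subtype.val d) =
      Finsupp.single (3, 0) 1 + Finsupp.single (4, 1) 1 := by
    rcases dets k d hd with rfl | rfl
    · have : (- X (3, 0) * X (4, 1) - X (1, 0) * X (4, 3) - X (2, 0) * X (4, 2) + X (4, 0) :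
          MvPolynomial (Fin 5 × Fin 5) k) =
          monomial (Finsupp.single (3, 0) 1 + Finsupp.single (4, 1) 1) (-1) +
          (monomial (Finsupp.single (2, 0) 1 + Finsupp.single (4, 2) 1) (-1) +
          monomial (Finsupp.single (1, 0) 1 + Finsupp.single (4, 3) 1) (-1) +
          monomial (Finsupp.single (4, 0) 1) 1) := by
        rw [map_neg, map_neg, map_neg, ← XX, ← XX, ← XX]
        change _ = _ + (_ + X (4, 0))
        ring
      rw [ren1, this]
      refine (lead_of_lt ord _ (-1 : k) (by simp) _ fun c hc => ?_).1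
      rcases Finset.mem_union.1 (support_add hc) with h3 | h3
      · rcases Finset.mem_union.1 (support_add h3) with h4 | h4 <;>
          rw [Finset.mem_singleton.1 (support_monomial_subset h4)] <;>
          apply ord_lt <;> simp [Finsupp.weight_single, wt]
      · rw [Finset.mem_singleton.1 (support_monomial_subset h3)]
        apply ord_graded
        simp
    · have : (X (3, 0) * X (4, 1) - X (4, 0) : MvPolynomial (Fin 5 × Fin 5) k) =
          monomial (Finsupp.single (3, 0) 1 + Finsupp.single (4, 1) 1) 1 +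
          monomial (Finsupp.single (4, 0) 1) (-1) := by
        rw [map_neg, ← XX]
        change _ = _ + - X (4, 0)
        ring
      rw [ren2, this]
      refine (lead_of_lt ord _ (1 : k) (by simp) _ fun c hc => ?_).1
      rw [Finset.mem_singleton.1 (support_monomial_subset hc)]
      apply ord_graded
      simp
  rw [hd'] at hle
  have := hle (3, 0)
  simp at this

end Pool.Agent.H80.KL
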