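import Pool.Agent.H80.ST3

/-! Ranks, Poincaré polynomials and the counterexample. -/

namespace Pool.Agent.H80.ST

open MvPolynomial Module

def cr {R : Type} [CommRing R] (a b : Fin 3 → R) : Fin 3 → R :=
  ![a 1 * b 2 - a 2 * b 1, a 2 * b 0 - a 0 * b 2, a 0 * b 1 - a 1 * b 0]

def dt {R : Type} [CommRing R] (a b c : Fin 3 → R) : R :=
  c 0 * cr a b 0 + c 1 * cr a b 1 + c 2 * cr a b 2

lemma cramer {a b c w : Fin 3 → ℂ} (h : dt a b c ≠ 0) (ha : w ∈ hyp a) (hb : w ∈ hyp b)
    (hc : w ∈ hyp c) : w = 0 := by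
  simp only [mem_hyp, Fin.sum_univ_three] at ha hb hc
  have key : ∀ i, dt a b c * w i = cr b c i * (a 0 * w 0 + a 1 * w 1 + a 2 * w 2) +
      cr c a i * (b 0 * w 0 + b 1 * w 1 + b 2 * w 2) +
      cr a b i * (c 0 * w 0 + c 1 * w 1 + c 2 * w 2) := by
    intro i
    fin_cases i <;> simp [dt, cr] <;> ring
  ext i
  apply mul_left_cancel₀ h
  rw [key, ha, hb, hc]
  simp

lemma line {a b w : Fin 3 → ℂ} (h : cr a b ≠ 0) (ha : w ∈ hyp a) (hb : w ∈ hyp b) :
    w ∈ Submodule.span ℂ {cr a b} := by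
  obtain ⟨t, ht⟩ := Function.ne_iff.1 h
  have ht' : cr a b t ≠ 0 := ht
  have h1 : dt a b (Pi.single t 1) ≠ 0 := by
    fin_cases t <;> simpa [dt] using ht'
  have h2 : w - (w t / cr a b t) • cr a b = 0 := by
    refine cramer h1 (Submodule.sub_mem _ ha (Submodule.smul_mem _ _ ?_))
      (Submodule.sub_mem _ hb (Submodule.smul_mem _ _ ?_)) ?_
    · simp [mem_hyp, Fin.sum_univ_three, cr]
      ring
    · simp [mem_hyp, Fin.sum_univ_three, cr]
      ring
    · simp [mem_hyp, Pi.single_apply, ht']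
  exact Submodule.mem_span_singleton.2 ⟨_, (sub_eq_zero.1 h2).symm⟩

def rk (B : Finset (Fin 6)) : ℕ :=
  if B = ∅ then 0 else if B.card = 1 then 1 else
    if ∀ i ∈ B, ∀ j ∈ B, ∀ k ∈ B, dt (av i) (av j) (av k) = 0 then 2 else 3

lemma dt_ac (i j k : Fin 6) : dt (ac i) (ac j) (ac k) = (dt (av i) (av j) (av k) : ℤ) := by
  simp [dt, cr, ac]

lemma cr_ne {i j : Fin 6} (h : i ≠ j) : cr (ac i) (ac j) ≠ 0 := by
  have : ∀ i j, i ≠ j → ∃ t, cr (av i) (av j) t ≠ 0 := by decide
  obtain ⟨t, ht⟩ := this i j h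
  intro h0
  apply ht
  have h1 := congrFun h0 t
  have h2 : cr (ac i) (ac j) t = (cr (av i) (av j) t : ℤ) := by
    fin_cases t <;> simp [cr, ac]
  rw [h2, Pi.zero_apply] at h1
  exact_mod_cast h1

lemma rk_eq (B : Finset (Fin 6)) : 3 - finrank ℂ ↥(B.inf fun i => hyp (ac i)) = rk B := by
  unfold rk
  split_ifs with h0 h1 h2
  · subst h0
    rw [Finset.inf_empty, finrank_top, finrank_fin_fun]
  · obtain ⟨i, rfl⟩ := Finset.card_eq_one.1 h1
    have := finrank_hyp (ac_ne i)
    rw [Finset.inf_singleton]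
    omega
  · obtain ⟨i, hi, j, hj, hij⟩ := Finset.one_lt_card.1
      (show 1 < B.card by have := Finset.card_ne_zero.2 (Finset.nonempty_iff_ne_empty.2 h0); omega)
    have : (B.inf fun i => hyp (ac i)) = Submodule.span ℂ {cr (ac i) (ac j)} := by
      apply le_antisymm
      · intro w hw
        exact line (cr_ne hij) (Finset.inf_le (f := fun i => hyp (ac i)) hi hw)
          (Finset.inf_le (f := fun i => hyp (ac i)) hj hw)
      · rw [Submodule.span_singleton_le_iff_mem, Submodule.mem_finsetInf]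
        intro k hk
        have := dt_ac i j k
        rw [h2 i hi j hj k hk] at this
        simpa [mem_hyp, Fin.sum_univ_three, dt] using this
    rw [this, finrank_span_singleton (cr_ne hij)]
  · push Not at h2
    obtain ⟨i, hi, j, hj, k, hk, h⟩ := h2
    have : (B.inf fun i => hyp (ac i)) = ⊥ := by
      rw [eq_bot_iff]
      intro w hw
      exact cramer (by rw [dt_ac i j k]; exact_mod_cast h)
        (Finset.inf_le (f := fun i => hyp (ac i)) hi hw)
        (Finset.inf_le (f := fun i => hyp (ac i)) hj hw)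
        (Finset.inf_le (f := fun i => hyp (ac i)) hk hw)
    rw [this, finrank_bot]

lemma inj6 : Function.Injective fun i => hyp (ac i) := by
  intro i j h
  by_contra hij
  obtain ⟨c, hc⟩ := exists_smul_of_hyp_eq (ac_ne j) h
  apply cr_ne hij
  rw [hc]
  ext t
  fin_cases t <;> simp [cr] <;> ring

lemma inj2 : Function.Injective fun i => hyp (bc i) := by
  intro i j h
  by_contra hij
  obtain ⟨c, hc⟩ := exists_smul_of_hyp_eq (bc_ne j) h
  simpa [bc, hij] using congrFun hc i

lemma rk2 (B : Finset (Fin 2)) : 2 - finrank ℂ ↥(B.inf fun i => hyp (bc i)) = B.card := by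
  have h : ∀ B : Finset (Fin 2), B = ∅ ∨ (∃ i, B = {i}) ∨ B = {0, 1} := by decide
  rcases h B with rfl | ⟨i, rfl⟩ | rfl
  · rw [Finset.inf_empty, finrank_top, finrank_fin_fun]
    rfl
  · have := finrank_hyp (bc_ne i)
    rw [Finset.inf_singleton, Finset.card_singleton]
    omega
  · have : (({0, 1} : Finset (Fin 2)).inf fun i => hyp (bc i)) = ⊥ := by
      rw [eq_bot_iff]
      intro w hw
      simp [mem_hyp, bc] at hw
      ext i
      fin_cases i <;> simp [hw]
    rw [this, finrank_bot]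
    rfl

noncomputable def M : Matrix (Fin 3) (Fin 2) ℂ := !![0, 0; 1, 0; 0, 1]

lemma param : IsParam M (hyp (ac 0)) := by
  constructor
  · intro v w h
    have h1 := congrFun h 1
    have h2 := congrFun h 2
    simp [M, Matrix.mulVec, dotProduct] at h1 h2
    ext i
    fin_cases i <;> simp [h1, h2]
  · ext v
    simp only [LinearMap.mem_range, mem_hyp]
    constructor
    · rintro ⟨w, rfl⟩
      simp [ac, av, M, Fin.sum_univ_three, Matrix.mulVec, dotProduct]
    · intro h
      refine ⟨![v 1, v 2], ?_⟩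
      simp [ac, av, Fin.sum_univ_three] at h
      ext i
      fin_cases i <;> simp [M, Matrix.mulVec, dotProduct, h]

lemma res_arr : resArr A6 (hyp (ac 0)) M = A2 := by
  classical
  have e : ∀ i : Fin 5, (hyp (ac i.succ)).comap M.mulVecLin = hyp (bc (![0, 0, 0, 1, 1] i)) := by
    intro i
    ext v
    fin_cases i <;>
      simp [mem_hyp, ac, av, bc, M, Fin.sum_univ_three, Matrix.mulVec, dotProduct]
  ext L
  simp only [resArr, A6, A2, Finset.mem_image, Finset.mem_erase, Finset.mem_univ, true_and]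
  constructor
  · rintro ⟨_, ⟨h, i, rfl⟩, rfl⟩
    rcases Fin.eq_zero_or_eq_succ i with rfl | ⟨j, rfl⟩
    · exact absurd rfl h
    · exact ⟨_, (e j).symm⟩
  · rintro ⟨i, rfl⟩
    fin_cases i
    · exact ⟨_, ⟨fun h => Fin.succ_ne_zero _ (inj6 h), _, rfl⟩, e 0⟩
    · exact ⟨_, ⟨fun h => Fin.succ_ne_zero _ (inj6 h), _, rfl⟩, e 3⟩

lemma res_poly : resPoly eta M = X 0 ^ 2 + X 1 ^ 2 := by
  simp [resPoly, eta, lin, M]

lemma inU2 : InU2 A6 eta := by
  classical
  refine ⟨hom_eta, fun Y hY p hp h => ?_⟩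
  obtain ⟨B, hB, rfl⟩ := Finset.mem_image.1 hY
  have h1 := h (fun i => starRingEnd ℂ (p i)) (by
    rw [Submodule.mem_finsetInf] at hp ⊢
    intro L hL
    obtain ⟨i, -, rfl⟩ := Finset.mem_image.1 (Finset.mem_powerset.1 hB hL)
    have := congrArg (starRingEnd ℂ) (mem_hyp.1 (hp _ hL))
    exact mem_hyp.2 (by simpa [ac] using this))
  have h2 : Complex.normSq (p 0) + Complex.normSq (p 1) + Complex.normSq (p 2) = 0 := by
    simp [eta, Fin.sum_univ_three, Pi.single_apply] at h1
    have : ((Complex.normSq (p 0) + Complex.normSq (p 1) + Complex.normSq (p 2) : ℝ) : ℂ) = 0 := by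
      push_cast
      simp only [Complex.normSq_eq_conj_mul_self]
      linear_combination h1 / 2
    exact_mod_cast this
  have n0 := Complex.normSq_nonneg (p 0)
  have n1 := Complex.normSq_nonneg (p 1)
  have n2 := Complex.normSq_nonneg (p 2)
  have z0 : p 0 = 0 := Complex.normSq_eq_zero.1 (by linarith)
  have z1 : p 1 = 0 := Complex.normSq_eq_zero.1 (by linarith)
  have z2 : p 2 = 0 := Complex.normSq_eq_zero.1 (by linarith)
  ext i
  fin_cases i <;> assumption

theorem main : ∃ (A : Finset (Sub ℂ 3)) (H : Sub ℂ 3) (η : MvPolynomial (Fin 3) ℂ)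
    (M : Matrix (Fin 3) (Fin 2) ℂ) (hA hH πA πH : Polynomial ℚ),
    IsArr A ∧ H ∈ A ∧ InU2 A η ∧ IsParam M H ∧ IsHilb (stIdeal A η) hA ∧
      IsHilb (stIdeal (resArr A H M) (resPoly η M)) hH ∧ IsPoin A πA ∧
      IsPoin (resArr A H M) πH ∧ hH ∣ hA ∧ ¬ πH ∣ πA := by
  classical
  refine ⟨A6, hyp (ac 0), eta, M, hA, hH, _, _, ?_, Finset.mem_image_of_mem _ (Finset.mem_univ _),
    inU2, param, isHilb_of (st6 ▸ HS_J), ?_, whitney' ac ac_ne inj6 rk rk_eq,
    by rw [res_arr]; exact whitney' bc bc_ne inj2 _ rk2, ?_, ?_⟩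
  · intro H hH
    obtain ⟨i, -, rfl⟩ := Finset.mem_image.1 hH
    exact ⟨_, ac_ne i, rfl⟩
  · rw [res_arr, res_poly, st2]
    exact isHilb_of HS_J2
  · exact ⟨(1 + .X + .X ^ 2) * (1 + .X ^ 2), by simp only [hA, hH]; ring⟩
  · rintro ⟨q, hq⟩
    have h2 : ∑ B : Finset (Fin 2), Polynomial.C ((-1 : ℚ) ^ B.card) * (-Polynomial.X) ^ B.card =
        (1 + Polynomial.X) ^ 2 := by
      have : (Finset.univ : Finset (Finset (Fin 2))) = {∅, {0}, {1}, {0, 1}} := by decide
      rw [this, Finset.sum_insert (by decide), Finset.sum_insert (by decide),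
        Finset.sum_insert (by decide)]
      simp
      ring
    rw [h2] at hq
    have h3 := congrArg (fun p => Polynomial.eval (-1) (Polynomial.derivative p)) hq
    simp [Polynomial.eval_finset_sum, Polynomial.derivative_pow] at h3
    have h4 : ∑ B : Finset (Fin 6), (-1 : ℤ) ^ B.card * rk B ≠ 0 := by decide +kernel
    apply h4
    exact_mod_cast h3

end Pool.Agent.H80.ST
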