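import Pool.Agent.H80.ST1

/-! Whitney's formula and basic facts on hyperplanes. -/

namespace Pool.Agent.H80.ST

open MvPolynomial Module

variable {K : Type} [Field K] {l : ℕ}

lemma mem_hyp {a v : Fin l → K} : v ∈ hyp a ↔ ∑ i, a i * v i = 0 := by
  simp [hyp, Fintype.linearCombination_apply, mul_comm]

lemma hyp_ne_top {a : Fin l → K} (ha : a ≠ 0) : hyp a ≠ ⊤ := by
  intro h
  apply ha
  ext i
  have : (Pi.single i 1 : Fin l → K) ∈ hyp a := h ▸ Submodule.mem_top
  simpa [mem_hyp, Pi.single_apply] using this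

lemma finrank_hyp {a : Fin l → K} (ha : a ≠ 0) : finrank K (hyp a) + 1 = l := by
  have h := LinearMap.finrank_range_add_finrank_ker (Fintype.linearCombination K a)
  have h1 : LinearMap.range (Fintype.linearCombination K a) = ⊤ := by
    obtain ⟨i, hi⟩ := Function.ne_iff.1 ha
    rw [eq_top_iff]
    intro c _
    refine ⟨Pi.single i (c / a i), ?_⟩
    have hi' : a i ≠ 0 := hi
    simp [Fintype.linearCombination_apply, Pi.single_apply, hi']
  rw [h1, finrank_top, finrank_self, finrank_fin_fun] at h
  unfold hyp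
  omega

lemma exists_smul_of_hyp_eq {a b : Fin l → K} (hb : b ≠ 0) (h : hyp a = hyp b) :
    ∃ c : K, a = c • b := by
  obtain ⟨i, hi⟩ := Function.ne_iff.1 hb
  have hi' : b i ≠ 0 := hi
  refine ⟨a i / b i, funext fun j => ?_⟩
  have h1 : (Pi.single j (b i) - Pi.single i (b j) : Fin l → K) ∈ hyp b := by
    simp [mem_hyp, mul_sub, Finset.sum_sub_distrib, Pi.single_apply, mul_comm]
  rw [← h] at h1
  simp [mem_hyp, mul_sub, Finset.sum_sub_distrib, Pi.single_apply] at h1
  simp only [Pi.smul_apply, smul_eq_mul]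
  field_simp
  linear_combination h1

lemma lin_smul (c : K) (b : Fin l → K) : lin (c • b) = C c * lin b := by
  simp [lin, Finset.mul_sum, mul_assoc]

open Classical in
lemma isLog_iff {ι : Type} [Fintype ι] (a : ι → Fin l → K) (ha : ∀ i, a i ≠ 0)
    (θ : Derivation K (PS K l) (PS K l)) :
    IsLog (Finset.univ.image fun i => hyp (a i)) θ ↔ ∀ i, lin (a i) ∣ θ (lin (a i)) := by
  constructor
  · intro h i
    exact h _ (Finset.mem_image_of_mem _ (Finset.mem_univ i))
  · intro h b hb
    obtain ⟨i, -, hi⟩ := Finset.mem_image.1 hb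
    obtain ⟨c, rfl⟩ := exists_smul_of_hyp_eq (ha i) hi.symm
    rw [lin_smul, Derivation.leibniz, derivation_C, smul_zero, add_zero, smul_eq_mul]
    exact mul_dvd_mul_left _ (h i)

open Classical in
lemma whitney (A : Finset (Sub K l)) (hA : ⊤ ∉ A) :
    IsPoin A (∑ B ∈ A.powerset, Polynomial.C ((-1) ^ B.card) *
      (-Polynomial.X) ^ (l - finrank K ↥(B.inf id))) := by
  refine ⟨fun X => ∑ B ∈ A.powerset.filter (fun B => B.inf id = X), (-1) ^ B.card, ⟨?_, ?_⟩, ?_⟩
  · have : A.powerset.filter (fun B => B.inf id = ⊤) = {∅} := by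
      ext B
      simp only [Finset.mem_filter, Finset.mem_powerset, Finset.mem_singleton,
        Finset.inf_eq_top_iff, id]
      constructor
      · rintro ⟨h1, h2⟩
        exact Finset.eq_empty_of_forall_notMem fun x hx => hA (h2 x hx ▸ h1 hx)
      · rintro rfl
        simp
    simp only [this]
    simp
  · intro X hX hX'
    have h1 : ∑ Y ∈ (lat A).filter (X ≤ ·),
        ∑ B ∈ A.powerset.filter (fun B => B.inf id = Y), ((-1) ^ B.card : ℚ) =
        ∑ B ∈ (A.filter (X ≤ ·)).powerset, (-1) ^ B.card := by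
      rw [← Finset.sum_fiberwise_of_maps_to (s := (A.filter (X ≤ ·)).powerset)
        (t := (lat A).filter (X ≤ ·)) (g := fun B => B.inf id)]
      · refine Finset.sum_congr rfl fun Y hY => Finset.sum_congr ?_ fun _ _ => rfl
        ext B
        simp only [Finset.mem_filter, Finset.mem_powerset] at hY ⊢
        refine and_congr_left fun hB => ⟨fun h x hx => Finset.mem_filter.2 ⟨h hx, ?_⟩,
          fun h => h.trans (Finset.filter_subset _ _)⟩
        exact hY.2.trans (hB ▸ Finset.inf_le (f := id) hx)
      · intro B hB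
        rw [Finset.mem_powerset] at hB
        refine Finset.mem_filter.2 ⟨Finset.mem_image_of_mem _
          (Finset.mem_powerset.2 (hB.trans (Finset.filter_subset _ _))), ?_⟩
        exact Finset.le_inf fun x hx => (Finset.mem_filter.1 (hB hx)).2
    rw [h1]
    obtain ⟨B, hB, rfl⟩ := Finset.mem_image.1 hX
    have h2 : (A.filter (B.inf id ≤ ·)).Nonempty := by
      rcases B.eq_empty_or_nonempty with rfl | ⟨x, hx⟩
      · simp at hX'
      · exact ⟨x, Finset.mem_filter.2 ⟨Finset.mem_powerset.1 hB hx, Finset.inf_le (f := id) hx⟩⟩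
    have h3 := Finset.sum_powerset_neg_one_pow_card_of_nonempty h2
    exact_mod_cast congrArg (fun z : ℤ => (z : ℚ)) h3
  · rw [← Finset.sum_fiberwise_of_maps_to (s := A.powerset) (t := lat A) (g := fun B => B.inf id)
      (fun B hB => Finset.mem_image_of_mem _ hB)]
    refine Finset.sum_congr rfl fun X _ => ?_
    rw [map_sum, Finset.sum_mul]
    refine Finset.sum_congr rfl fun B hB => ?_
    rw [(Finset.mem_filter.1 hB).2]

open Classical in
lemma whitney' {ι : Type} [Fintype ι] [DecidableEq ι] (a : ι → Fin l → K) (ha : ∀ i, a i ≠ 0)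
    (hi : Function.Injective fun i => hyp (a i)) (r : Finset ι → ℕ)
    (hr : ∀ B : Finset ι, l - finrank K ↥(B.inf fun i => hyp (a i)) = r B) :
    IsPoin (Finset.univ.image fun i => hyp (a i))
      (∑ B : Finset ι, Polynomial.C ((-1) ^ B.card) * (-Polynomial.X) ^ r B) := by
  have h := whitney (Finset.univ.image fun i => hyp (a i)) (by
    intro h
    obtain ⟨i, -, hi⟩ := Finset.mem_image.1 h
    exact hyp_ne_top (ha i) hi)
  rw [Finset.powerset_image, Finset.sum_image
    (fun _ _ _ _ h => Finset.image_injective hi h), Finset.powerset_univ] at h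
  convert h using 2 with B
  rw [Finset.card_image_of_injective _ hi, Finset.inf_image, ← hr]
  rfl

end Pool.Agent.H80.ST
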