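import Pool.Agent.H80.SpogDefs
import Pool.Agent.H80.ST2

/-! Lemmas on linear forms and homogeneous polynomials. -/

namespace Pool.Agent.H80.Spog

open MvPolynomial Pool.Agent.H80.ST

variable {K : Type} [Field K] {l n : ℕ}

lemma hom_lin (a : Fin l → K) : (lin a).IsHomogeneous 1 :=
  IsHomogeneous.sum _ _ _ fun i _ => isHomogeneous_C_mul_X _ _

lemma eval_lin (a v : Fin l → K) : eval v (lin a) = ∑ i, a i * v i := by simp [lin]

lemma lin_ne {a : Fin l → K} (ha : a ≠ 0) : lin a ≠ 0 := by
  intro h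
  apply hyp_ne_top ha
  rw [eq_top_iff]
  intro v _
  rw [mem_hyp, ← eval_lin, h, map_zero]

lemma exists_lin {α : S K l} (h : α.IsHomogeneous 1) : ∃ a, α = lin a := by
  have h1 : α ∈ homogeneousSubmodule (Fin l) K 1 := h
  rw [homogeneousSubmodule_one_eq_span_X, Submodule.mem_span_range_iff_exists_fun] at h1
  obtain ⟨c, hc⟩ := h1
  exact ⟨c, by simp [← hc, lin, smul_eq_C_mul]⟩

lemma exists_ret {α : S K l} (h : α.IsHomogeneous 1) (h0 : α ≠ 0) :
    ∃ σ : S K l →ₐ[K] S K l, σ α = 0 ∧ (∀ p, α ∣ p - σ p) ∧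
      ∀ p e, p.IsHomogeneous e → (σ p).IsHomogeneous e := by
  obtain ⟨a, rfl⟩ := exists_lin h
  obtain ⟨i, hi⟩ : ∃ i, a i ≠ 0 := by
    by_contra! h1
    exact h0 (by simp [lin, h1])
  refine ⟨aeval fun j => X j - C (Pi.single (M := fun _ => K) i (a i)⁻¹ j) * lin a, ?_,
    fun p => ?_, fun p e hp => ?_⟩
  · have e : ∑ j, (C (a j) : S K l) * C (Pi.single (M := fun _ => K) i (a i)⁻¹ j) = 1 := by
      simp only [← map_mul, ← map_sum]
      simp [Pi.single_apply, hi]
    conv_lhs => enter [2]; rw [lin]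
    simp only [map_sum, map_mul, aeval_X, aeval_C, algebraMap_eq, mul_sub,
      Finset.sum_sub_distrib, ← mul_assoc, ← Finset.sum_mul, e]
    simp [lin]
  · rw [← Ideal.mem_span_singleton]
    refine sub_aeval_mem _ _ (fun j => ?_) p
    rw [sub_sub_cancel]
    exact Ideal.mul_mem_left _ _ (Ideal.mem_span_singleton_self _)
  · simpa using hp.aeval _ fun j => (isHomogeneous_X K j).sub (h.C_mul _)

lemma cc_pos {p : S K l} (h : Pos p) : constantCoeff p = 0 := by
  obtain ⟨e, he, h⟩ := h
  rw [constantCoeff_eq]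
  exact h.coeff_eq_zero (by simpa using he.ne)

lemma prime_lin {α : S K l} (h : α.IsHomogeneous 1) (h0 : α ≠ 0) : Prime α := by
  obtain ⟨σ, h1, h2, -⟩ := exists_ret h h0
  have k : ∀ p, α ∣ p ↔ σ p = 0 := fun p =>
    ⟨by rintro ⟨q, rfl⟩; simp [h1], fun hp => by simpa [hp] using h2 p⟩
  refine ⟨h0, fun hu => ?_, fun p q => by simp [k]⟩
  simpa [cc_pos ⟨1, one_pos, h⟩] using hu.map constantCoeff

lemma hom_of_mul {p q : S K l} {m e : ℕ} (h : (p * q).IsHomogeneous m) (hq : q.IsHomogeneous e)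
    (h0 : q ≠ 0) : p = 0 ∨ ∃ k, k + e = m ∧ p.IsHomogeneous k := by
  have k : ∀ t, t + e ≠ m → homogeneousComponent t p = 0 := by
    intro t ht
    have := hc_mul p q e t hq
    rw [homogeneousComponent_of_mem h, if_neg ht] at this
    exact (mul_eq_zero.1 this.symm).resolve_right h0
  by_cases hm : e ≤ m
  · refine Or.inr ⟨m - e, by omega, ?_⟩
    rw [← sum_homogeneousComponent p]
    refine IsHomogeneous.sum _ _ _ fun t _ => ?_
    by_cases ht : t = m - e
    · exact ht ▸ homogeneousComponent_isHomogeneous _ _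
    · rw [k t (by omega)]
      exact isHomogeneous_zero _ _ _
  · left
    rw [← sum_homogeneousComponent p]
    exact Finset.sum_eq_zero fun t _ => k t (by omega)

lemma top_ne {p : S K l} (h : p ≠ 0) : homogeneousComponent p.totalDegree p ≠ 0 := by
  obtain ⟨d, hd, h1⟩ := Finset.exists_mem_eq_sup p.support (support_nonempty.2 h)
    fun s => s.sum fun _ e => e
  intro h2
  have := congrArg (coeff d) h2
  rw [coeff_homogeneousComponent, if_pos (by rw [totalDegree, h1]; rfl)] at this
  exact mem_support_iff.1 hd this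

lemma top_mul (p q : S K l) : homogeneousComponent (p.totalDegree + q.totalDegree) (p * q) =
    homogeneousComponent p.totalDegree p * homogeneousComponent q.totalDegree q := by
  conv_lhs => enter [2]; rw [← sum_homogeneousComponent q, Finset.mul_sum]
  rw [map_sum, Finset.sum_range_succ, Finset.sum_eq_zero, zero_add,
    hc_mul _ _ _ _ (homogeneousComponent_isHomogeneous _ _)]
  intro j hj
  rw [Finset.mem_range] at hj
  rw [show p.totalDegree + q.totalDegree = (p.totalDegree + q.totalDegree - j) + j by omega,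
    hc_mul _ _ _ _ (homogeneousComponent_isHomogeneous _ _),
    homogeneousComponent_eq_zero _ _ (by omega), zero_mul]

lemma top_dvd {p f : S K l} {e : ℕ} (hf : f.IsHomogeneous e) (hp : p ≠ 0) (h : p ∣ f) :
    homogeneousComponent p.totalDegree p ∣ f := by
  obtain ⟨q, rfl⟩ := h
  by_cases hq : q = 0
  · simp [hq]
  have := top_mul p q
  rw [homogeneousComponent_of_mem hf] at this
  split_ifs at this
  · exact ⟨_, this⟩
  · exact absurd this.symm (mul_ne_zero (top_ne hp) (top_ne hq))

lemma dvd_of_forall {R ι : Type} [CommRing R] [IsDomain R] [UniqueFactorizationMonoid R]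
    (b : ι → R) (hb : ∀ p, Prime p → ∃ j, ¬ p ∣ b j) (a : R) (ha : a ≠ 0) :
    ∀ c, (∀ j, a ∣ c * b j) → a ∣ c := by
  induction a using UniqueFactorizationMonoid.induction_on_prime with
  | h₁ => exact absurd rfl ha
  | h₂ x hx => exact fun c _ => hx.dvd
  | h₃ a p ha' hp ih =>
    intro c hc
    obtain ⟨j, hj⟩ := hb p hp
    obtain ⟨c, rfl⟩ := (hp.dvd_or_dvd ((dvd_mul_right p a).trans (hc j))).resolve_right hj
    refine mul_dvd_mul_left p (ih ha' c fun j => ?_)
    have := hc j
    rwa [mul_assoc, mul_dvd_mul_iff_left hp.ne_zero] at this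

lemma app_sum {ι : Type} [Fintype ι] (a : Fin l → K) (s : ι → S K l) (θ : ι → Fin l → S K l) :
    app a (∑ i, s i • θ i) = ∑ i, s i * app a (θ i) := by
  simp only [app, Finset.sum_apply, Pi.smul_apply, smul_eq_mul, Finset.mul_sum]
  rw [Finset.sum_comm]
  exact Finset.sum_congr rfl fun _ _ => Finset.sum_congr rfl fun _ _ => by ring

lemma app_smul (a : Fin l → K) (s : S K l) (θ : Fin l → S K l) :
    app a (s • θ) = s * app a θ := by
  simp only [app, Pi.smul_apply, smul_eq_mul, Finset.mul_sum]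
  exact Finset.sum_congr rfl fun _ _ => by ring

lemma sum_mem_D {ι : Type} [Fintype ι] {a : Fin n → Fin l → K} (s : ι → S K l)
    {θ : ι → Fin l → S K l} (h : ∀ i, θ i ∈ D a) : ∑ i, s i • θ i ∈ D a := fun k => by
  rw [app_sum]
  exact Finset.dvd_sum fun i _ => (h i k).mul_left _

lemma Q_dvd {a : Fin n → Fin l → K} (ha : ∀ h, a h ≠ 0)
    (hi : Function.Injective fun h => hyp (a h)) (N : Matrix (Fin l) (Fin l) (S K l))
    (hN : ∀ i, N i ∈ D a) : ∏ h, lin (a h) ∣ N.det := by
  refine Finset.prod_dvd_of_isRelPrime (fun h _ k _ hk => ?_) fun h _ => ?_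
  · have p1 := prime_lin (hom_lin (a h)) (lin_ne (ha h))
    refine (p1.irreducible.isRelPrime_iff_not_dvd).2 ?_
    rintro ⟨q, hq⟩
    apply hk
    apply hi
    refine Submodule.eq_of_le_of_finrank_eq (fun v hv => ?_) ?_
    · rw [mem_hyp, ← eval_lin] at hv ⊢
      rw [show lin (a k) = _ from hq, map_mul, hv, zero_mul]
    · have := finrank_hyp (ha h)
      have := finrank_hyp (ha k)
      simp only
      omega
  · obtain ⟨j, hj⟩ := Function.ne_iff.1 (ha h)
    have hj' : a h j ≠ 0 := hj
    have h1 := congrFun (Matrix.mulVec_mulVec (fun j => (C (a h j) : S K l)) N.adjugate N) j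
    rw [Matrix.adjugate_mul, Matrix.smul_mulVec, Matrix.one_mulVec] at h1
    have h2 : lin (a h) ∣ N.det * C (a h j) := by
      rw [show N.det * C (a h j) = _ from h1.symm]
      have e : ∀ i, (N.mulVec fun j => (C (a h j) : S K l)) i = app (a h) (N i) := by
        simp [app, Matrix.mulVec, dotProduct, mul_comm]
      rw [Matrix.mulVec, dotProduct]
      exact Finset.dvd_sum fun i _ => Dvd.dvd.mul_left (e i ▸ hN i h) _
    exact (IsUnit.dvd_mul_right ((Ne.isUnit hj').map C)).1 h2

end Pool.Agent.H80.Spog
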