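import Pool.Agent.H80.LTDefs

namespace Pool.Agent.H80.LT

open Module Matrix

variable {K : Type} [Field K]

lemma exists_basis {n : ℕ} (P Q : Matrix (Fin n) (Fin n) K) (h : Q * P = 1) :
    ∃ b : Basis (Fin n) K (Fin n → K), ∀ M : Matrix (Fin n) (Fin n) K,
      LinearMap.toMatrix b b (Matrix.toLin' M) = Q * M * P := by
  have h' : P * Q = 1 := mul_eq_one_comm.1 h
  let e : (Fin n → K) ≃ₗ[K] (Fin n → K) := Matrix.toLin'OfInv h' h
  refine ⟨(Pi.basisFun K (Fin n)).map e.symm, fun M => ?_⟩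
  ext i j
  simp [LinearMap.toMatrix_apply, e, Matrix.toLin'OfInv, Matrix.mul_apply, Matrix.mulVec,
    dotProduct, Finset.mul_sum, Finset.sum_mul, mul_assoc]

lemma diagTri_of {n : ℕ} (P Q X Y : Matrix (Fin n) (Fin n) K) (h : Q * P = 1)
    (h1 : (Q * X * P).IsDiag) (h2 : IrrTri (Q * Y * P)) :
    DiagTri (Matrix.toLin' X) (Matrix.toLin' Y) := by
  obtain ⟨b, hb⟩ := exists_basis P Q h
  exact ⟨n, b, by rw [hb]; exact h1, by rw [hb]; exact h2⟩

lemma diagTri2_of {n : ℕ} (P Q X Y Z : Matrix (Fin n) (Fin n) K) (h : Q * P = 1)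
    (h1 : (Q * X * P).IsDiag) (h2 : IrrTri (Q * Y * P)) (h3 : IrrTri (Q * Z * P)) :
    DiagTri2 (Matrix.toLin' X) (Matrix.toLin' Y) (Matrix.toLin' Z) := by
  obtain ⟨b, hb⟩ := exists_basis P Q h
  exact ⟨n, b, by rw [hb]; exact h1, by rw [hb]; exact h2, by rw [hb]; exact h3⟩

/-- If `diag θ` has distinct entries, a common tridiagonal basis forces a common zero. -/
lemma common_zero (θ : Fin 3 → K) (hθ : Function.Injective θ) (M N : Matrix (Fin 3) (Fin 3) K)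
    (h : DiagTri2 (Matrix.toLin' (Matrix.diagonal θ)) (Matrix.toLin' M) (Matrix.toLin' N)) :
    ∃ i j, i ≠ j ∧ M i j = 0 ∧ N i j = 0 := by
  obtain ⟨n, b, hd, hM, hN⟩ := h
  have hn : n = 3 := by
    have := Module.finrank_eq_card_basis b
    simpa using this.symm
  subst hn
  have key : ∀ (L : (Fin 3 → K) →ₗ[K] (Fin 3 → K)) (j : Fin 3),
      L (b j) = ∑ k, LinearMap.toMatrix b b L k j • b k := by
    intro L j
    conv_lhs => rw [← b.sum_repr (L (b j))]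
    simp [LinearMap.toMatrix_apply]
  have h1 : ∀ j, ∃ s, b j s ≠ 0 ∧ ∀ t, t ≠ s → b j t = 0 := by
    intro j
    obtain ⟨s, hs⟩ := Function.ne_iff.1 (b.ne_zero j)
    refine ⟨s, hs, fun t ht => ?_⟩
    have e := key (Matrix.toLin' (Matrix.diagonal θ)) j
    rw [Finset.sum_eq_single j (fun k _ hk => by rw [hd hk, zero_smul]) (by simp)] at e
    set c := LinearMap.toMatrix b b (Matrix.toLin' (Matrix.diagonal θ)) j j
    have e1 := congrFun e s
    have e2 := congrFun e t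
    simp only [Matrix.toLin'_apply, Matrix.mulVec_diagonal, Pi.smul_apply, smul_eq_mul] at e1 e2
    have hc : θ s = c := mul_right_cancel₀ hs e1
    by_contra hne
    exact ht (hθ ((mul_right_cancel₀ hne e2).trans hc.symm))
  choose σ hσ hσ' using h1
  have hinj : ∀ j k, j ≠ k → σ j ≠ σ k := by
    intro j k hjk he
    have h1 : b k (σ k) • b j = b j (σ j) • b k := by
      funext t
      by_cases ht : t = σ j
      · subst ht
        simp [← he, mul_comm]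
      · simp [hσ' j t ht, hσ' k t (he ▸ ht)]
    have h2 := congrArg (fun v => b.repr v j) h1
    simp [Finsupp.single_eq_of_ne hjk] at h2
    exact hσ k h2
  have fin : ∀ L : Matrix (Fin 3) (Fin 3) K, IrrTri (LinearMap.toMatrix b b (Matrix.toLin' L)) →
      L (σ 0) (σ 2) = 0 := by
    intro L hL
    have e := congrFun (key (Matrix.toLin' L) 2) (σ 0)
    have z := (hL 0 2).1 (by simp)
    simp only [Matrix.toLin'_apply, Fin.sum_univ_three, z, zero_smul, Pi.add_apply,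
      Pi.smul_apply, smul_eq_mul, hσ' 1 (σ 0) (hinj 0 1 (by decide)),
      hσ' 2 (σ 0) (hinj 0 2 (by decide)), mul_zero, add_zero, Pi.zero_apply] at e
    rw [Matrix.mulVec, dotProduct, Finset.sum_eq_single (σ 2)
      (fun t _ ht => by rw [hσ' 2 t ht, mul_zero]) (by simp)] at e
    exact (mul_eq_zero.1 e).resolve_right (hσ 2)
  exact ⟨σ 0, σ 2, hinj 0 2 (by decide), fin M hM, fin N hN⟩

/-- First map. -/
def pA : Matrix (Fin 3) (Fin 3) ℚ := !![0, 0, 0; 0, 3, 0; 0, 0, 1]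
/-- Second map. -/
def pB : Matrix (Fin 3) (Fin 3) ℚ := !![8, -2, -6; -2, -1, 0; 6, 0, -3]
/-- Third map. -/
def pC : Matrix (Fin 3) (Fin 3) ℚ := !![4, 4, 0; 4, 1, -3; 0, 3, 3]

theorem pairwise_not_triple :
    LeonardPair (Matrix.toLin' pA) (Matrix.toLin' pB) ∧
    LeonardPair (Matrix.toLin' pA) (Matrix.toLin' pC) ∧
    LeonardPair (Matrix.toLin' pB) (Matrix.toLin' pC) ∧
    ¬ LeonardTriple (Matrix.toLin' pA) (Matrix.toLin' pB) (Matrix.toLin' pC) := by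
  refine ⟨⟨diagTri_of !![0, 1, 0; 1, 0, 0; 0, 0, 1] !![0, 1, 0; 1, 0, 0; 0, 0, 1] _ _ ?_ ?_ ?_,
    diagTri_of !![2, 1, 2; -2, -2, -1; 3, 2, 2] !![-2, 2, 3; 1, -2, -2; 2, -1, -2] _ _ ?_ ?_ ?_⟩,
    ⟨diagTri_of !![1, 0, 0; 0, 1, 0; 0, 0, 1] !![1, 0, 0; 0, 1, 0; 0, 0, 1] _ _ ?_ ?_ ?_,
    diagTri_of !![1, 2, 2; -1, 1, -1; 1, 1, 3]
      !![1, -1, -1; 1/2, 1/4, -1/4; -1/2, 1/4, 3/4] _ _ ?_ ?_ ?_⟩,
    ⟨diagTri_of !![1, 2, 2; -2, -1, -2; 2, 2, 3] !![1, -2, -2; 2, -1, -2; -2, 2, 3] _ _ ?_ ?_ ?_,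
    diagTri_of !![1, 2, 2; -1, 1, -1; 1, 1, 3]
      !![1, -1, -1; 1/2, 1/4, -1/4; -1/2, 1/4, 3/4] _ _ ?_ ?_ ?_⟩, ?_⟩
  rotate_right
  · intro h
    have hA : pA = Matrix.diagonal ![0, 3, 1] := by
      ext i j; fin_cases i <;> fin_cases j <;> simp [pA]
    have h1 := h.1
    rw [hA] at h1
    obtain ⟨i, j, hij, h2, h3⟩ := common_zero _ (by
      intro a c; fin_cases a <;> fin_cases c <;> simp) _ _ h1
    fin_cases i <;> fin_cases j <;> simp_all [pB, pC]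
  all_goals first
    | (unfold IrrTri; decide +kernel)
    | (unfold Matrix.IsDiag Pairwise; decide +kernel)
    | decide +kernel

/-- `H` on the three-dimensional `sl₂`-module. -/
def sX : Matrix (Fin 3) (Fin 3) ℚ := !![2, 0, 0; 0, 0, 0; 0, 0, -2]
/-- `E + F`. -/
def sY : Matrix (Fin 3) (Fin 3) ℚ := !![0, 2, 0; 1, 0, 1; 0, 2, 0]
/-- `H + E + 8 F`. -/
def sZ : Matrix (Fin 3) (Fin 3) ℚ := !![2, 2, 0; 8, 0, 1; 0, 16, -2]

theorem s_triple : LeonardTriple (Matrix.toLin' sX) (Matrix.toLin' sY) (Matrix.toLin' sZ) := by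
  refine ⟨diagTri2_of !![1, 0, 0; 0, 1, 0; 0, 0, 1] !![1, 0, 0; 0, 1, 0; 0, 0, 1] _ _ _ ?_ ?_ ?_ ?_,
    diagTri2_of !![1, 1, 1; 1, 0, -1; 1, -1, 1]
      !![1/4, 1/2, 1/4; 1/2, 0, -1/2; 1/4, -1/2, 1/4] _ _ _ ?_ ?_ ?_ ?_,
    diagTri2_of !![1, 1, 1; 2, -1, -4; 4, -8, 16]
      !![4/9, 2/9, 1/36; 4/9, -1/9, -1/18; 1/9, -1/9, 1/36] _ _ _ ?_ ?_ ?_ ?_⟩
  all_goals first
    | (unfold IrrTri; decide +kernel)
    | (unfold Matrix.IsDiag Pairwise; decide +kernel)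
    | decide +kernel

theorem no_anti (x y z : End ℚ (Fin 3 → ℚ)) (hx : x = Matrix.toLin' sX)
    (hy : y = Matrix.toLin' sY) (hz : z = Matrix.toLin' sZ)
    (σ : End ℚ (Fin 3 → ℚ) ≃ₗ[ℚ] End ℚ (Fin 3 → ℚ)) (hσ : ∀ X Y, σ (X * Y) = σ Y * σ X)
    (c : ℚ) : σ (x * y - y * x) ≠ c • (x * z - z * x) := by
  intro h
  have hP : x * y - y * x = Matrix.toLin' !![0, 4, 0; -2, 0, 2; 0, -4, 0] := by
    rw [hx, hy, End.mul_eq_comp, End.mul_eq_comp, ← Matrix.toLin'_mul, ← Matrix.toLin'_mul,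
      ← map_sub]
    congr 1
    decide +kernel
  have hQ : x * z - z * x = Matrix.toLin' !![0, 4, 0; -16, 0, 2; 0, -32, 0] := by
    rw [hx, hz, End.mul_eq_comp, End.mul_eq_comp, ← Matrix.toLin'_mul, ← Matrix.toLin'_mul,
      ← map_sub]
    congr 1
    decide +kernel
  have cube : ∀ (M : Matrix (Fin 3) (Fin 3) ℚ) (a : ℚ), M * M * M = a • M →
      (Matrix.toLin' M : End ℚ (Fin 3 → ℚ)) * Matrix.toLin' M * Matrix.toLin' M =
        a • Matrix.toLin' M := by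
    intro M a hM
    rw [End.mul_eq_comp, End.mul_eq_comp, ← Matrix.toLin'_mul, ← Matrix.toLin'_mul, hM, map_smul]
  have nz : ∀ (M : Matrix (Fin 3) (Fin 3) ℚ), M 0 1 ≠ 0 →
      (Matrix.toLin' M : End ℚ (Fin 3 → ℚ)) ≠ 0 := by
    intro M hM h0
    have : M = 0 := Matrix.toLin'.injective (by rw [h0, map_zero])
    simp [this] at hM
  have P3 := cube !![0, 4, 0; -2, 0, 2; 0, -4, 0] (-16) (by
    decide +kernel)
  have Q3 := cube !![0, 4, 0; -16, 0, 2; 0, -32, 0] (-128) (by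
    decide +kernel)
  have P0 := nz !![0, 4, 0; -2, 0, 2; 0, -4, 0] (by norm_num)
  have Q0 := nz !![0, 4, 0; -16, 0, 2; 0, -32, 0] (by norm_num)
  rw [← hP] at P3 P0
  rw [← hQ] at Q3 Q0
  generalize x * y - y * x = P at *
  generalize x * z - z * x = Q at *
  have e := congrArg σ P3
  rw [hσ, hσ, map_smul, h, smul_mul_smul_comm, smul_mul_smul_comm, ← mul_assoc Q, Q3, smul_smul,
    smul_smul, ← sub_eq_zero, ← sub_smul] at e
  have e2 := (smul_eq_zero.1 e).resolve_right Q0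
  have hc : c ≠ 0 := by
    rintro rfl
    exact P0 (σ.injective (by rw [h, zero_smul, map_zero]))
  have e3 : (4 * c) * (4 * c) = 2 := by
    apply mul_left_cancel₀ hc
    linear_combination (-1 / 8 : ℚ) * e2
  have hsq : IsSquare ((2 : ℕ) : ℚ) := ⟨4 * c, by rw [e3]; norm_num⟩
  rw [Rat.isSquare_natCast_iff] at hsq
  exact Nat.prime_two.prime.not_isSquare hsq

end Pool.Agent.H80.LT
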