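import Mathlib

/-! Leonard pairs and Leonard triples. -/

namespace Pool.Agent.H80.LT

open Module

variable {K : Type} [Field K] {V : Type} [AddCommGroup V] [Module K V]

/-- Irreducible tridiagonal matrix: zero for `|i - j| > 1`, nonzero for `|i - j| = 1`. -/
def IrrTri {n : ℕ} (M : Matrix (Fin n) (Fin n) K) : Prop :=
  ∀ i j : Fin n, ((i : ℕ) + 1 < j ∨ (j : ℕ) + 1 < i → M i j = 0) ∧
    ((i : ℕ) + 1 = j ∨ (j : ℕ) + 1 = i → M i j ≠ 0)

/-- Some basis makes `X` diagonal and `Y` irreducible tridiagonal. -/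
def DiagTri (X Y : End K V) : Prop :=
  ∃ (n : ℕ) (b : Basis (Fin n) K V),
    (LinearMap.toMatrix b b X).IsDiag ∧ IrrTri (LinearMap.toMatrix b b Y)

/-- Leonard pair. -/
def LeonardPair (A B : End K V) : Prop := DiagTri A B ∧ DiagTri B A

/-- One basis makes `X` diagonal and both `Y`, `Z` irreducible tridiagonal. -/
def DiagTri2 (X Y Z : End K V) : Prop :=
  ∃ (n : ℕ) (b : Basis (Fin n) K V), (LinearMap.toMatrix b b X).IsDiag ∧
    IrrTri (LinearMap.toMatrix b b Y) ∧ IrrTri (LinearMap.toMatrix b b Z)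

/-- Leonard triple. -/
def LeonardTriple (A B C : End K V) : Prop :=
  DiagTri2 A B C ∧ DiagTri2 B A C ∧ DiagTri2 C A B

end Pool.Agent.H80.LT
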