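import Pool.Agent.H80.LTDefs

/-! Antiautomorphisms of `End V` and commutators. -/

namespace Pool.Agent.H80.LT

open Module

variable {K : Type} [Field K] {V : Type} [AddCommGroup V] [Module K V]

/-- The commutator `[r, s] = r s - s r`. -/
def comm (r s : End K V) : End K V := r * s - s * r

/-- A linear bijection of `End V` reversing products. -/
def IsAnti (σ : End K V ≃ₗ[K] End K V) : Prop := ∀ X Y, σ (X * Y) = σ Y * σ X

/-- Some antiautomorphism sends `P` to a scalar multiple of `Q`. -/
def AntiSends (P Q : End K V) : Prop :=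
  ∃ (σ : End K V ≃ₗ[K] End K V) (c : K), IsAnti σ ∧ σ P = c • Q

end Pool.Agent.H80.LT
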