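import Mathlib
import Pool.Agent.H26.PL

namespace Pool.Agent.H80.Lk

open Set MeasureTheory Function Pool.Agent.H26.PL
open scoped ENNReal

def QC (h : ℝ → ℝ≥0∞) : Prop := ∀ x y z, x ≤ y → y ≤ z → min (h x) (h z) ≤ h y

lemma QC.meas {h : ℝ → ℝ≥0∞} (H : QC h) : Measurable h := by
  refine measurable_of_Ioi fun a => Set.OrdConnected.measurableSet ⟨fun x hx z hz y hy => ?_⟩
  exact lt_of_lt_of_le (lt_min hx hz) (H x y z hy.1 hy.2)

lemma plm {J : Type*} (s : Finset J) (hs : s.Nonempty) (f : J → ℝ → ℝ≥0∞)
    (hf : ∀ j, Measurable (f j)) : ∀ (c : J → ℝ) (C : ℝ≥0∞) (h : ℝ → ℝ≥0∞), (∀ j, 0 < c j) →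
    ∑ j ∈ s, c j = 1 → QC h → (∀ t : J → ℝ, C * ∏ j ∈ s, f j (t j) ^ c j ≤ h (∑ j ∈ s, c j * t j)) →
    C * ∏ j ∈ s, (∫⁻ t, f j t) ^ c j ≤ ∫⁻ t, h t := by
  classical
  induction hs using Finset.Nonempty.cons_induction with
  | singleton j =>
    intro c C h hc h1 hq H
    simp only [Finset.sum_singleton, Finset.prod_singleton] at *
    rw [h1, ENNReal.rpow_one, ← lintegral_const_mul _ (hf j)]
    exact lintegral_mono fun t => by simpa [h1] using H fun _ => t
  | cons j s hj hs ih =>
    intro c C h hc h1 hq H
    simp only [Finset.sum_cons, Finset.prod_cons] at *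
    set a := c j with ha
    set b := ∑ i ∈ s, c i with hb
    have a0 : 0 < a := hc j
    have b0 : 0 < b := Finset.sum_pos (fun i _ => hc i) hs
    set F : ℝ → ℝ≥0∞ := fun z => sSup {u | ∀ x, C * f j x ^ a * u ^ b ≤ h (a * x + b * z)} with hF
    have p1 : ∀ x z, C * f j x ^ a * F z ^ b ≤ h (a * x + b * z) := by
      intro x z
      have : F z ^ b = ⨆ u : {u | ∀ x, C * f j x ^ a * u ^ b ≤ h (a * x + b * z)}, u.1 ^ b := by
        rw [hF]; simp only; rw [sSup_eq_iSup']
        exact (ENNReal.orderIsoRpow b b0).map_iSup _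
      rw [this, ENNReal.mul_iSup]
      exact iSup_le fun u => u.2 x
    have hFq : QC F := fun x y z hxy hyz => le_sSup fun w => by
      refine le_trans (le_min ?_ ?_) (hq (a * w + b * x) _ (a * w + b * z) (by gcongr) (by gcongr))
      · exact le_trans (by gcongr; exact min_le_left _ _) (p1 w x)
      · exact le_trans (by gcongr; exact min_le_right _ _) (p1 w z)
    have e : ∀ v : J → ℝ≥0∞, (∏ i ∈ s, v i ^ (c i / b)) ^ b = ∏ i ∈ s, v i ^ c i := fun v => by
      rw [← ENNReal.prod_rpow_of_nonneg b0.le]
      exact Finset.prod_congr rfl fun i _ => by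
        rw [← ENNReal.rpow_mul, div_mul_cancel₀ _ b0.ne']
    have i1 := ih (fun i => c i / b) 1 F (fun i => div_pos (hc i) b0)
      (by rw [← Finset.sum_div, div_self b0.ne']) hFq fun t => le_sSup fun x => by
        have := H (update t j x)
        rw [update_self] at this
        rw [one_mul, e, mul_assoc, Finset.mul_sum]
        convert this using 3
        · exact Finset.prod_congr rfl fun i hi => by
            rw [update_of_ne (show i ≠ j from fun h => hj (h ▸ hi))]
        · exact Finset.sum_congr rfl fun i hi => by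
            rw [update_of_ne (show i ≠ j from fun h => hj (h ▸ hi))]; field_simp
    have e2 : ∀ v : ℝ≥0∞, (C ^ a⁻¹ * v) ^ a = C * v ^ a := fun v => by
      rw [ENNReal.mul_rpow_of_nonneg _ _ a0.le, ENNReal.rpow_inv_rpow a0.ne']
    have i2 := pl_one a0 b0 h1 (f := fun x => C ^ a⁻¹ * f j x) ((hf j).const_mul _) hFq.meas hq.meas
      fun x z => by rw [e2]; exact p1 x z
    rw [lintegral_const_mul _ (hf j), e2] at i2
    rw [one_mul] at i1
    refine le_trans ?_ i2
    rw [← e, mul_assoc]
    gcongr

variable {ι : Type} [Fintype ι] [DecidableEq ι]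

def LC {X : Type*} [Add X] [SMul ℝ X] (g : X → ℝ≥0∞) : Prop :=
  ∀ a b : ℝ, 0 < a → 0 < b → a + b = 1 → ∀ x y, g x ^ a * g y ^ b ≤ g (a • x + b • y)

lemma upd_comb (a b : ℝ) (x y : ι → ℝ) (i : ι) (s t : ℝ) :
    a • update x i s + b • update y i t = update (a • x + b • y) i (a * s + b * t) := by
  ext k; by_cases h : k = i
  · subst h; simp
  · simp [update_of_ne h]

lemma lc_marg {g : (ι → ℝ) → ℝ≥0∞} (hm : Measurable g) (hg : LC g) (σ : Finset ι) :
    LC (lmarginal (fun _ => volume) σ g) := by
  induction σ using Finset.induction_on with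
  | empty => simpa using hg
  | insert i σ hi ih =>
    intro a b ha hb hab x y
    simp only [lmarginal_insert _ hm hi]
    have hM : Measurable (lmarginal (fun _ : ι => (volume : Measure ℝ)) σ g) := hm.lmarginal _
    refine pl_one ha hb hab (hM.comp (measurable_update _)) (hM.comp (measurable_update _))
      (hM.comp (measurable_update _)) fun s t => ?_
    rw [← upd_comb]; exact ih a b ha hb hab _ _

lemma LC.min_le {X : Type*} [Add X] [SMul ℝ X] {g : X → ℝ≥0∞} (hg : LC g) {a b : ℝ} (ha : 0 < a)
    (hb : 0 < b) (hab : a + b = 1) (x y : X) : min (g x) (g y) ≤ g (a • x + b • y) := by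
  refine le_trans ?_ (hg a b ha hb hab x y)
  calc min (g x) (g y) = min (g x) (g y) ^ a * min (g x) (g y) ^ b := by
        rw [← ENNReal.rpow_add_of_nonneg _ _ ha.le hb.le, hab, ENNReal.rpow_one]
    _ ≤ _ := by gcongr; exacts [min_le_left _ _, min_le_right _ _]

lemma LC.qc {g : (ι → ℝ) → ℝ≥0∞} (hg : LC g) (x : ι → ℝ) (i : ι) : QC fun t => g (update x i t) := by
  intro s t u hst htu
  rcases hst.eq_or_lt with rfl | hst
  · exact min_le_left _ _
  rcases htu.eq_or_lt with rfl | htu
  · exact min_le_right _ _
  have h0 : 0 < u - s := by linarith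
  have := hg.min_le (a := (u - t) / (u - s)) (b := (t - s) / (u - s)) (div_pos (by linarith) h0)
    (div_pos (by linarith) h0) (by field_simp; ring) (update x i s) (update x i u)
  rw [upd_comb, ← add_smul] at this
  have e1 : (u - t) / (u - s) + (t - s) / (u - s) = 1 := by field_simp; ring
  have e2 : (u - t) / (u - s) * s + (t - s) / (u - s) * u = t := by field_simp; ring
  rwa [e1, e2, one_smul] at this

lemma rbl {J : Type} [Fintype J] {g : (ι → ℝ) → ℝ≥0∞} (hm : Measurable g) (hg : LC g) {r : ℕ}
    (hr : 0 < r) (H : ∀ x : J → ι → ℝ, ∏ j, g (x j) ^ (r : ℝ)⁻¹ ≤ g (∑ j, (r : ℝ)⁻¹ • x j))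
    (σ : Finset ι) : ∀ (τ : J → Finset ι) (x : J → ι → ℝ), (∀ j, τ j ⊆ σ) →
      (∀ i ∈ σ, (Finset.univ.filter fun j => i ∈ τ j).card = r) →
      (∀ j, ∀ i ∈ σ, i ∉ τ j → x j i = 0) →
      ∏ j, lmarginal (fun _ => volume) (τ j) g (x j) ^ (r : ℝ)⁻¹ ≤
        lmarginal (fun _ => volume) σ g (∑ j, (r : ℝ)⁻¹ • x j) := by
  classical
  induction σ using Finset.induction_on with
  | empty =>
    intro τ x h1 _ _
    have : ∀ j, τ j = ∅ := fun j => Finset.subset_empty.1 (h1 j)
    simpa [this] using H x
  | insert i σ hi ih =>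
    intro τ x h1 h2 h3
    have r0 : (0 : ℝ) < r := by exact_mod_cast hr
    set s := Finset.univ.filter fun j => i ∈ τ j with hs
    have hc : s.card = r := h2 i (Finset.mem_insert_self _ _)
    have hM : ∀ ρ, Measurable (lmarginal (fun _ : ι => (volume : Measure ℝ)) ρ g) :=
      fun ρ => hm.lmarginal _
    have key := plm s (Finset.card_pos.1 (hc ▸ hr))
      (fun j t => lmarginal (fun _ => volume) ((τ j).erase i) g (update (x j) i t))
      (fun j => (hM _).comp (measurable_update _)) (fun _ => (r : ℝ)⁻¹)
      (∏ j ∈ sᶜ, lmarginal (fun _ => volume) (τ j) g (x j) ^ (r : ℝ)⁻¹)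
      (fun t => lmarginal (fun _ => volume) σ g (update (∑ j, (r : ℝ)⁻¹ • x j) i t))
      (fun _ => by positivity) (by rw [Finset.sum_const, hc]; simp [r0.ne'])
      ((lc_marg hm hg σ).qc _ _) fun t => by
        have := ih (fun j => (τ j).erase i) (fun j => if i ∈ τ j then update (x j) i (t j) else x j)
          (fun j => Finset.subset_insert_iff.1 (h1 j))
          (fun k hk => by
            rw [← h2 k (Finset.mem_insert_of_mem hk)]
            congr 1; ext j
            have : k ≠ i := fun h => hi (h ▸ hk)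
            simp [this])
          (fun j k hk hkj => by
            have hki : k ≠ i := fun h => hi (h ▸ hk)
            have : x j k = 0 := h3 j k (Finset.mem_insert_of_mem hk) (by simpa [hki] using hkj)
            split_ifs <;> simp [update_of_ne hki, this])
        rw [← Finset.prod_mul_prod_compl s, mul_comm] at this
        convert this using 2
        · exact Finset.prod_congr rfl fun j hj => by
            have hj' : i ∉ τ j := by simpa [hs] using hj
            rw [if_neg hj', Finset.erase_eq_of_notMem hj']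
        · exact Finset.prod_congr rfl fun j hj => by
            have hj' : i ∈ τ j := by simpa [hs] using hj
            rw [if_pos hj']
        · ext k
          by_cases hk : k = i
          · subst hk
            rw [update_self, Finset.sum_apply, hs, Finset.sum_filter]
            refine Finset.sum_congr rfl fun j _ => ?_
            split_ifs with h
            · simp
            · simp [h3 j k (Finset.mem_insert_self _ _) h]
          · rw [update_of_ne hk, Finset.sum_apply, Finset.sum_apply]
            refine Finset.sum_congr rfl fun j _ => ?_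
            split_ifs <;> simp [update_of_ne hk]
    rw [lmarginal_insert _ hm hi, ← Finset.prod_mul_prod_compl s, mul_comm]
    convert key using 2
    exact Finset.prod_congr rfl fun j hj => by
      have hj' : i ∈ τ j := by simpa [hs] using hj
      rw [lmarginal_erase _ hm hj']

end Pool.Agent.H80.Lk
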