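import Pool.Agent.H80.Lk1

namespace Pool.Agent.H80.Lk

open Set MeasureTheory Function Pool.Agent.H26.PL
open scoped ENNReal

lemma qpl1 {a b : ℝ} (ha : 0 < a) (hb : 0 < b) {f g h : ℝ → ℝ≥0∞}
    (hf : Measurable f) (hg : Measurable g) (hh : Measurable h) (f1 : ⨆ x, f x = 1)
    (g1 : ⨆ x, g x = 1) (H : ∀ x y, min (f x) (g y) ≤ h (a * x + b * y)) :
    ENNReal.ofReal a * (∫⁻ x, f x) + ENNReal.ofReal b * (∫⁻ x, g x) ≤ ∫⁻ x, h x := by
  have f2 : ∀ x, f x ≤ 1 := fun x => f1 ▸ le_iSup f x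
  have g2 : ∀ x, g x ≤ 1 := fun x => g1 ▸ le_iSup g x
  refine (le_trans ?_ (lintegral_mono (f := fun x => min (h x) 1) fun x => min_le_left _ _))
  rw [layer hf f2, layer hg g2, layer (hh.min measurable_const) (fun x => min_le_right _ _),
    ← lintegral_const_mul _ meas_level, ← lintegral_const_mul _ meas_level,
    ← lintegral_add_left (meas_level.const_mul _)]
  apply setLIntegral_mono' measurableSet_Ioo
  intro t ht
  have t1 : ENNReal.ofReal t < 1 := by simpa using ht.2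
  refine bm_one ha hb (measurableSet_lt measurable_const hf) (measurableSet_lt measurable_const hg)
    (lt_iSup_iff.1 (show ENNReal.ofReal t < ⨆ x, f x from f1 ▸ t1))
    (lt_iSup_iff.1 (show ENNReal.ofReal t < ⨆ x, g x from g1 ▸ t1)) ?_
  intro x hx y hy
  exact lt_min (lt_of_lt_of_le (lt_min hx hy) (H x y)) t1

lemma qpl {a b : ℝ} (ha : 0 < a) (hb : 0 < b) {f g h : ℝ → ℝ≥0∞} {S : ℝ≥0∞} (S0 : S ≠ 0)
    (S1 : S ≠ ⊤) (hf : Measurable f) (hg : Measurable g) (hh : Measurable h) (f1 : ⨆ x, f x = S)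
    (g1 : ⨆ x, g x = S) (H : ∀ x y, min (f x) (g y) ≤ h (a * x + b * y)) :
    ENNReal.ofReal a * (∫⁻ x, f x) + ENNReal.ofReal b * (∫⁻ x, g x) ≤ ∫⁻ x, h x := by
  have := qpl1 ha hb (hf.const_mul S⁻¹) (hg.const_mul S⁻¹) (hh.const_mul S⁻¹)
    (by rw [← ENNReal.mul_iSup, f1, ENNReal.inv_mul_cancel S0 S1])
    (by rw [← ENNReal.mul_iSup, g1, ENNReal.inv_mul_cancel S0 S1])
    fun x y => by rw [← mul_min]; gcongr; exact H x y
  rw [lintegral_const_mul _ hf, lintegral_const_mul _ hg, lintegral_const_mul _ hh,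
    mul_left_comm, mul_left_comm (ENNReal.ofReal b), ← mul_add] at this
  exact (ENNReal.mul_le_mul_iff_right (ENNReal.inv_ne_zero.2 S1) (ENNReal.inv_ne_top.2 S0)).1 this

noncomputable def w (p : ℕ) (u : ℝ) : ℝ≥0∞ := ENNReal.ofReal (p * u⁻¹ ^ (p + 1))

lemma w_meas (p : ℕ) : Measurable (w p) := by unfold w; fun_prop

lemma w_mul (p : ℕ) {c : ℝ} (hc : 0 < c) (v : ℝ) :
    w p (c * v) = ENNReal.ofReal (c⁻¹ ^ (p + 1)) * w p v := by
  rw [w, w, ← ENNReal.ofReal_mul (by positivity), mul_inv, mul_pow]; congr 1; ring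

lemma w_tail {p : ℕ} (hp : 0 < p) {a : ℝ} (ha : 0 < a) :
    ∫⁻ u in Ici a, w p u = ENNReal.ofReal (a⁻¹ ^ p) := by
  have p0 : (0 : ℝ) < p := by exact_mod_cast hp
  have hl : -((p : ℝ) + 1) < -1 := by linarith
  rw [← restrict_Ioi_eq_restrict_Ici, setLIntegral_congr_fun measurableSet_Ioi
    (g := fun u => ENNReal.ofReal (p * u ^ (-((p : ℝ) + 1)))) fun u hu => by
      simp only [w]
      rw [Real.rpow_neg (ha.trans hu).le, inv_pow, ← Real.rpow_natCast]; push_cast; rfl,
    ← ofReal_integral_eq_lintegral_ofReal ((integrableOn_Ioi_rpow_of_lt hl ha).const_mul _)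
      ((ae_restrict_iff' measurableSet_Ioi).2 (ae_of_all _ fun u hu => by
        have := (ha.trans hu).le; positivity)),
    integral_const_mul, integral_Ioi_rpow_of_lt hl ha]
  congr 1
  rw [show -((p : ℝ) + 1) + 1 = -p by ring, Real.rpow_neg ha.le, Real.rpow_natCast, inv_pow]
  field_simp

section
variable {Y : Type*} [NormedAddCommGroup Y] [NormedSpace ℝ Y] [FiniteDimensional ℝ Y]
  [MeasurableSpace Y] [BorelSpace Y]

lemma scale (μ : Measure Y) [μ.IsAddHaarMeasure] {F : Y → ℝ≥0∞} (hF : Measurable F) {c : ℝ}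
    (hc : 0 < c) :
    ∫⁻ y, F y ∂μ = ENNReal.ofReal (c ^ Module.finrank ℝ Y) * ∫⁻ y, F (c • y) ∂μ := by
  rw [← lintegral_map hF (measurable_const_smul c), Measure.map_addHaar_smul μ hc.ne',
    lintegral_smul_measure, smul_eq_mul, ← mul_assoc, ← ENNReal.ofReal_mul (by positivity),
    abs_of_pos (by positivity), mul_inv_cancel₀ (by positivity)]
  simp

noncomputable def FF (p : ℕ) (A : Y → ℝ≥0∞) (y : Y) (u : ℝ) : ℝ≥0∞ :=
  (Ioi (0 : ℝ)).indicator (fun u => A (u⁻¹ • y) * w p u) u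

noncomputable def R (p : ℕ) (A : Y → ℝ≥0∞) (y : Y) : ℝ≥0∞ := ∫⁻ u, FF p A y u

lemma FF_meas (p : ℕ) {A : Y → ℝ≥0∞} (hA : Measurable A) :
    Measurable fun q : Y × ℝ => FF p A q.1 q.2 := by
  have : (fun q : Y × ℝ => FF p A q.1 q.2) =
      (Prod.snd ⁻¹' Ioi (0 : ℝ)).indicator fun q => A (q.2⁻¹ • q.1) * w p q.2 := by
    ext q; by_cases h : 0 < q.2 <;> simp [FF, h]
  rw [this]
  exact ((hA.comp (by fun_prop)).mul ((w_meas p).comp measurable_snd)).indicator
    (measurable_snd measurableSet_Ioi)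

lemma FF_meas1 (p : ℕ) {A : Y → ℝ≥0∞} (hA : Measurable A) (y : Y) : Measurable (FF p A y) :=
  (FF_meas p hA).comp measurable_prodMk_left

lemma R_meas (p : ℕ) {A : Y → ℝ≥0∞} (hA : Measurable A) : Measurable (R p A) :=
  (FF_meas p hA).lintegral_prod_right'

lemma FF_smul (p : ℕ) (A : Y → ℝ≥0∞) (y : Y) {c : ℝ} (hc : 0 < c) (v : ℝ) :
    FF p A (c • y) (c * v) = ENNReal.ofReal (c⁻¹ ^ (p + 1)) * FF p A y v := by
  by_cases h : 0 < v
  · have : 0 < c * v := by positivity
    simp only [FF, mem_Ioi, h, this, indicator_of_mem]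
    rw [w_mul p hc, smul_smul, show (c * v)⁻¹ * c = v⁻¹ by field_simp, mul_left_comm]
  · have : ¬ 0 < c * v := fun h' => h ((mul_pos_iff_of_pos_left hc).1 h')
    simp [FF, h, this]

lemma R_smul (p : ℕ) {A : Y → ℝ≥0∞} (hA : Measurable A) (y : Y) {c : ℝ} (hc : 0 < c) :
    R p A (c • y) = ENNReal.ofReal (c⁻¹ ^ p) * R p A y := by
  rw [R, scale volume (FF_meas1 p hA _) hc]
  simp only [smul_eq_mul, FF_smul p A y hc]
  rw [lintegral_const_mul _ (FF_meas1 p hA _), ← mul_assoc, ← ENNReal.ofReal_mul (by positivity), R]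
  congr 2
  simp only [Module.finrank_self]; rw [pow_succ c⁻¹]; field_simp

lemma radial1 (μ : Measure Y) [μ.IsAddHaarMeasure] [Nontrivial Y] {A : Y → ℝ≥0∞}
    (hA : Measurable A) : ∫⁻ y, (Iic (1 : ℝ)).indicator ENNReal.ofReal ‖y‖ *
      R (Module.finrank ℝ Y) A y ∂μ = (Module.finrank ℝ Y : ℝ≥0∞) * ∫⁻ y, A y ∂μ := by
  set k := Module.finrank ℝ Y with hk
  set φ : ℝ → ℝ≥0∞ := (Iic (1 : ℝ)).indicator ENNReal.ofReal with hφ
  have hφm : Measurable φ := ENNReal.measurable_ofReal.indicator measurableSet_Iic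
  have m1 : Measurable fun q : Y × ℝ => φ ‖q.1‖ * FF k A q.1 q.2 :=
    (hφm.comp (by fun_prop)).mul (FF_meas k hA)
  set ψ : Y × ℝ → ℝ≥0∞ := fun q => A q.1 * (Ioc 0 ‖q.1‖⁻¹).indicator
    (fun _ => ENNReal.ofReal (k * ‖q.1‖)) q.2 with hψ
  have m2 : Measurable ψ := by
    refine (hA.comp measurable_fst).mul ?_
    have : (fun q : Y × ℝ => (Ioc 0 ‖q.1‖⁻¹).indicator (fun _ => ENNReal.ofReal (k * ‖q.1‖)) q.2) =
        {q : Y × ℝ | 0 < q.2 ∧ q.2 ≤ ‖q.1‖⁻¹}.indicator fun q => ENNReal.ofReal (k * ‖q.1‖) := by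
      ext q; simp [indicator]
    rw [this]
    exact Measurable.indicator (by fun_prop) ((measurableSet_lt measurable_const measurable_snd).inter
      (measurableSet_le measurable_snd (by fun_prop)))
  have e1 : ∀ u : ℝ, ∫⁻ y, φ ‖y‖ * FF k A y u ∂μ = ∫⁻ z, ψ (z, u) ∂μ := by
    intro u
    by_cases hu : 0 < u
    · rw [scale μ (F := fun y => φ ‖y‖ * FF k A y u) (m1.comp measurable_prodMk_right) hu,
        ← lintegral_const_mul' _ _ ENNReal.ofReal_ne_top]
      refine lintegral_congr fun z => ?_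
      simp only [comp, FF, mem_Ioi, hu, indicator_of_mem, hψ, hφ, smul_smul, inv_mul_cancel₀ hu.ne',
        one_smul, norm_smul, Real.norm_of_nonneg hu.le, w]
      rcases (norm_nonneg z).eq_or_lt with h0 | h0
      · simp [← h0]
      by_cases h1 : u * ‖z‖ ≤ 1
      · rw [indicator_of_mem (show u * ‖z‖ ∈ Iic 1 from h1), indicator_of_mem
          (show u ∈ Ioc 0 ‖z‖⁻¹ from ⟨hu, by rwa [← one_div, le_div_iff₀ h0]⟩), mul_left_comm (ENNReal.ofReal (u * ‖z‖)),
          mul_left_comm, ← ENNReal.ofReal_mul (by positivity), ← ENNReal.ofReal_mul (by positivity)]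
        congr 2; rw [← hk, inv_pow, pow_succ]; field_simp
      · rw [indicator_of_notMem (show u * ‖z‖ ∉ Iic 1 from h1), indicator_of_notMem
          (show u ∉ Ioc 0 ‖z‖⁻¹ from fun h => h1 (by
            have := h.2; rwa [← one_div, le_div_iff₀ h0] at this))]
        simp
    · simp [FF, hψ, hu]
  calc ∫⁻ y, φ ‖y‖ * R k A y ∂μ = ∫⁻ y, ∫⁻ u, φ ‖y‖ * FF k A y u ∂volume ∂μ :=
        lintegral_congr fun y => (lintegral_const_mul _ (FF_meas1 k hA y)).symm
    _ = ∫⁻ u, ∫⁻ y, φ ‖y‖ * FF k A y u ∂μ := lintegral_lintegral_swap m1.aemeasurable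
    _ = ∫⁻ u, ∫⁻ z, ψ (z, u) ∂μ := lintegral_congr e1
    _ = ∫⁻ z, ∫⁻ u, ψ (z, u) ∂volume ∂μ := (lintegral_lintegral_swap m2.aemeasurable).symm
    _ = ∫⁻ z, k * A z ∂μ := by
        refine lintegral_congr_ae ?_
        filter_upwards [Measure.ae_ne μ 0] with z hz
        have h0 : 0 < ‖z‖ := norm_pos_iff.2 hz
        simp only [hψ]
        rw [lintegral_const_mul _ (measurable_const.indicator measurableSet_Ioc),
          lintegral_indicator_const measurableSet_Ioc, Real.volume_Ioc,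
          ← ENNReal.ofReal_mul (by positivity), sub_zero, mul_assoc, mul_inv_cancel₀ h0.ne', mul_one,
          ENNReal.ofReal_natCast, mul_comm]
    _ = _ := lintegral_const_mul _ hA

lemma radial (μ : Measure Y) [μ.IsAddHaarMeasure] [Nontrivial Y] {A B : Y → ℝ≥0∞}
    (hA : Measurable A) (hB : Measurable B)
    (h : ∀ y, R (Module.finrank ℝ Y) A y = R (Module.finrank ℝ Y) B y) :
    ∫⁻ y, A y ∂μ = ∫⁻ y, B y ∂μ := by
  have h1 := radial1 μ hA
  simp only [h] at h1
  rw [radial1 μ hB] at h1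
  exact ((ENNReal.mul_right_inj (by simpa using Module.finrank_pos.ne')
    (ENNReal.natCast_ne_top _)).1 h1).symm

lemma R_ind {p : ℕ} (hp : 0 < p) {f : Y → ℝ≥0∞} (hf : Measurable f) (y : Y) :
    R p ({x | 1 ≤ R p f x}.indicator 1) y = R p f y := by
  have key : ∀ a : ℝ, 0 < a → ∀ u, (ENNReal.ofReal (a⁻¹ ^ p) ≤ R p f y → (Ici a).indicator (w p) u ≤
      FF p ({x | 1 ≤ R p f x}.indicator 1) y u) ∧ (R p f y < ENNReal.ofReal (a⁻¹ ^ p) →
      FF p ({x | 1 ≤ R p f x}.indicator 1) y u ≤ (Ici a).indicator (w p) u) := by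
    intro a ha u
    by_cases hu : 0 < u
    · have e : R p f (u⁻¹ • y) = ENNReal.ofReal (u ^ p) * R p f y := by
        rw [R_smul p hf y (inv_pos.2 hu), inv_inv]
      have e2 : ENNReal.ofReal (a ^ p) * ENNReal.ofReal (a⁻¹ ^ p) = 1 := by
        rw [← ENNReal.ofReal_mul (by positivity), ← mul_pow, mul_inv_cancel₀ ha.ne']; simp
      simp only [FF, mem_Ioi, hu, indicator_of_mem]
      by_cases hau : a ≤ u
      · rw [indicator_of_mem (show u ∈ Ici a from hau)]
        refine ⟨fun h => ?_, fun _ => mul_le_of_le_one_left' (indicator_le_self' (by simp) _)⟩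
        rw [indicator_of_mem (show u⁻¹ • y ∈ {x | 1 ≤ R p f x} from
          show 1 ≤ R p f (u⁻¹ • y) by rw [e, ← e2]; gcongr)]; simp
      · rw [indicator_of_notMem (show u ∉ Ici a from hau)]
        refine ⟨fun _ => zero_le, fun h => ?_⟩
        rw [indicator_of_notMem, zero_mul]
        change ¬ 1 ≤ R p f (u⁻¹ • y)
        rw [e, not_le, ← e2]
        refine lt_of_le_of_lt (b := ENNReal.ofReal (a ^ p) * R p f y)
          (by gcongr; exact (not_le.1 hau).le) ?_
        exact ENNReal.mul_lt_mul_right (by simp; positivity) ENNReal.ofReal_ne_top h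
    · have : u ∉ Ici a := fun h => hu (ha.trans_le h)
      simp [FF, hu, this]
  have root : ∀ t : ℝ, 0 < t → ∃ a : ℝ, 0 < a ∧ a⁻¹ ^ p = t := fun t ht =>
    ⟨(t ^ (p : ℝ)⁻¹)⁻¹, by positivity, by rw [inv_inv, Real.rpow_inv_natCast_pow ht.le hp.ne']⟩
  apply le_antisymm
  · refine le_of_forall_gt_imp_ge_of_dense fun c hc => ?_
    rcases eq_or_ne c ⊤ with rfl | hc'
    · exact le_top
    obtain ⟨a, ha, e⟩ := root c.toReal (ENNReal.toReal_pos (ne_bot_of_gt hc) hc')
    have e' : ENNReal.ofReal (a⁻¹ ^ p) = c := by rw [e, ENNReal.ofReal_toReal hc']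
    rw [← e', ← w_tail hp ha, ← lintegral_indicator measurableSet_Ici]
    exact lintegral_mono fun u => (key a ha u).2 (e' ▸ hc)
  · refine le_of_forall_lt_imp_le_of_dense fun c hc => ?_
    rcases eq_or_ne c 0 with rfl | hc'
    · exact zero_le
    obtain ⟨a, ha, e⟩ := root c.toReal (ENNReal.toReal_pos hc' hc.ne_top)
    have e' : ENNReal.ofReal (a⁻¹ ^ p) = c := by rw [e, ENNReal.ofReal_toReal hc.ne_top]
    rw [← e', ← w_tail hp ha, ← lintegral_indicator measurableSet_Ici]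
    exact lintegral_mono fun u => (key a ha u).1 (e' ▸ hc.le)

lemma R_mono {k d : ℕ} (hk : 0 < k) (hkd : k ≤ d) {f : Y → ℝ≥0∞} (hf : Measurable f)
    (f1 : ∀ x, f x ≤ 1) {y : Y} (h : 1 ≤ R k f y) : 1 ≤ R d f y := by
  have k0 : (0 : ℝ) < k := by exact_mod_cast hk
  set ρ := ENNReal.ofReal (d / k) with hρ
  have e : ∀ u, 0 < u → w d u = ENNReal.ofReal (u⁻¹ ^ (d - k)) * (ρ * w k u) := fun u hu => by
    rw [w, w, hρ, ← ENNReal.ofReal_mul (by positivity), ← ENNReal.ofReal_mul (by positivity)]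
    congr 1
    have : u⁻¹ ^ (d + 1) = u⁻¹ ^ (d - k) * u⁻¹ ^ (k + 1) := by rw [← pow_add]; congr 1; omega
    rw [this]; field_simp
  have pt : ∀ u, (Ici (1 : ℝ)).indicator (w d) u + ρ * FF k f y u ≤
      FF d f y u + ρ * (Ici (1 : ℝ)).indicator (w k) u := by
    intro u
    by_cases hu : 0 < u
    · simp only [FF, mem_Ioi, hu, indicator_of_mem]
      by_cases h1 : 1 ≤ u
      · rw [indicator_of_mem (show u ∈ Ici 1 from h1), indicator_of_mem (show u ∈ Ici 1 from h1)]
        obtain ⟨c, hc⟩ := exists_add_of_le (f1 (u⁻¹ • y))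
        have h2 : w d u ≤ ρ * w k u := by
          rw [e u hu]
          exact mul_le_of_le_one_left' (ENNReal.ofReal_le_one.2
            (pow_le_one₀ (by positivity) (inv_le_one_of_one_le₀ h1)))
        calc w d u + ρ * (f (u⁻¹ • y) * w k u)
            = f (u⁻¹ • y) * w d u + (f (u⁻¹ • y) * (ρ * w k u) + c * w d u) := by
              conv_lhs => rw [← one_mul (w d u), hc]
              ring
          _ ≤ f (u⁻¹ • y) * w d u + (f (u⁻¹ • y) * (ρ * w k u) + c * (ρ * w k u)) := by gcongr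
          _ = _ := by rw [← add_mul, ← hc, one_mul]
      · rw [indicator_of_notMem (show u ∉ Ici 1 from h1),
          indicator_of_notMem (show u ∉ Ici 1 from h1), zero_add, mul_zero, add_zero, mul_left_comm]
        gcongr
        rw [e u hu]
        exact le_mul_of_one_le_left' (ENNReal.one_le_ofReal.2
          (one_le_pow₀ ((one_le_inv₀ hu).2 (not_le.1 h1).le)))
    · have : u ∉ Ici (1 : ℝ) := fun h => hu (one_pos.trans_le h)
      simp [FF, hu, this]
  have := lintegral_mono (μ := volume) pt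
  rw [lintegral_add_left ((w_meas d).indicator measurableSet_Ici), lintegral_add_left (FF_meas1 d hf y),
    lintegral_const_mul _ (FF_meas1 k hf y), lintegral_const_mul _
    ((w_meas k).indicator measurableSet_Ici), lintegral_indicator measurableSet_Ici,
    lintegral_indicator measurableSet_Ici, w_tail hk one_pos, w_tail (hk.trans_le hkd) one_pos] at this
  simp only [inv_one, one_pow, ENNReal.ofReal_one, mul_one] at this
  have h2 : 1 + ρ ≤ R d f y + ρ := le_trans (by gcongr; exact le_mul_of_one_le_right' h) this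
  exact (ENNReal.add_le_add_iff_right ENNReal.ofReal_ne_top).1 h2

lemma FF_min (p : ℕ) {f : Y → ℝ≥0∞} (hl : LC f) {a b : ℝ} (ha : 0 < a) (hb : 0 < b) (hab : a + b = 1)
    (x y : Y) (u v : ℝ) : min (FF p f x u) (FF p f y v) ≤ FF p f (a • x + b • y) (a * u + b * v) := by
  by_cases hu : 0 < u
  swap; · simp [FF, hu]
  by_cases hv : 0 < v
  swap; · simp [FF, hv]
  set t := a * u + b * v with ht
  have t0 : 0 < t := by positivity
  have α0 : 0 < a * u / t := by positivity
  have β0 : 0 < b * v / t := by positivity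
  have hs : a * u / t + b * v / t = 1 := by field_simp; rfl
  simp only [FF, mem_Ioi, hu, hv, t0, indicator_of_mem]
  have h1 := hl _ _ α0 β0 hs (u⁻¹ • x) (v⁻¹ • y)
  have e : (a * u / t) • u⁻¹ • x + (b * v / t) • v⁻¹ • y = t⁻¹ • (a • x + b • y) := by
    rw [smul_add, smul_smul, smul_smul, smul_smul, smul_smul]
    congr 2 <;> field_simp
  rw [e] at h1
  have h2 : w p u ^ (a * u / t) * w p v ^ (b * v / t) ≤ w p t := by
    rw [w, w, w, ENNReal.ofReal_rpow_of_nonneg (by positivity) α0.le,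
      ENNReal.ofReal_rpow_of_nonneg (by positivity) β0.le, ← ENNReal.ofReal_mul (by positivity)]
    apply ENNReal.ofReal_le_ofReal
    have h3 := Real.geom_mean_le_arith_mean2_weighted α0.le β0.le (inv_pos.2 hu).le
      (inv_pos.2 hv).le hs
    have h4 : a * u / t * u⁻¹ + b * v / t * v⁻¹ = t⁻¹ := by field_simp; exact hab
    rw [h4] at h3
    rw [Real.mul_rpow (by positivity) (by positivity), Real.mul_rpow (by positivity) (by positivity),
      mul_mul_mul_comm, ← Real.rpow_add' (by positivity) (by rw [hs]; norm_num), hs, Real.rpow_one,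
      ← Real.rpow_pow_comm (by positivity), ← Real.rpow_pow_comm (by positivity), ← mul_pow]
    gcongr
  calc _ = min (f (u⁻¹ • x) * w p u) (f (v⁻¹ • y) * w p v) ^ (a * u / t) *
        min (f (u⁻¹ • x) * w p u) (f (v⁻¹ • y) * w p v) ^ (b * v / t) := by
        rw [← ENNReal.rpow_add_of_nonneg _ _ α0.le β0.le, hs, ENNReal.rpow_one]
    _ ≤ (f (u⁻¹ • x) * w p u) ^ (a * u / t) * (f (v⁻¹ • y) * w p v) ^ (b * v / t) := by
        gcongr; exacts [min_le_left _ _, min_le_right _ _]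
    _ ≤ _ := by
        rw [ENNReal.mul_rpow_of_nonneg _ _ α0.le, ENNReal.mul_rpow_of_nonneg _ _ β0.le,
          mul_mul_mul_comm]
        gcongr

lemma ball_conv (p : ℕ) {f : Y → ℝ≥0∞} (hf : Measurable f) (hl : LC f)
    (hb : ∀ x, (∀ y (c : ℝ), f (y + c • x) = f y) ∨ ⨆ u, FF p f x u ≠ ⊤) :
    Convex ℝ {x | 1 ≤ R p f x} := by
  have inv : ∀ x y (a b : ℝ), 0 < b → b ≤ 1 → (∀ y (c : ℝ), f (y + c • x) = f y) → 1 ≤ R p f y →
      1 ≤ R p f (a • x + b • y) := by
    intro x y a b hb hb1 hx hy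
    have : R p f (a • x + b • y) = R p f (b • y) := by
      simp only [R, FF, smul_add, smul_smul _ a, add_comm (_ • x), hx]
    rw [this, R_smul p hf y hb]
    exact one_le_mul (ENNReal.one_le_ofReal.2 (one_le_pow₀ ((one_le_inv₀ hb).2 hb1))) hy
  refine convex_iff_forall_pos.2 fun x hx y hy a b ha hb' hab => ?_
  rcases hb x with h1 | h1
  · exact inv x y a b hb' (by linarith) h1 hy
  rcases hb y with h2 | h2
  · rw [add_comm]; exact inv y x b a ha (by linarith) h2 hx
  have pos : ∀ x, 1 ≤ R p f x → ⨆ u, FF p f x u ≠ 0 := fun x hx h => by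
    have : ∀ u, FF p f x u = 0 := ENNReal.iSup_eq_zero.1 h
    simp [R, this] at hx
  set S := ⨆ u, FF p f x u with hS
  set T := ⨆ u, FF p f y u with hT
  have S0 : 0 < S.toReal := ENNReal.toReal_pos (pos x hx) h1
  have T0 : 0 < T.toReal := ENNReal.toReal_pos (pos y hy) h2
  set c := ((T.toReal / S.toReal) ^ (((p + 1 : ℕ) : ℝ))⁻¹)⁻¹ with hc
  have c0 : 0 < c := by positivity
  have hc' : c⁻¹ ^ (p + 1) = T.toReal / S.toReal := by
    rw [hc, inv_inv, Real.rpow_inv_natCast_pow (by positivity) (by omega)]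
  have hsup : ⨆ u, FF p f (c • x) u = T := by
    rw [← (mul_left_surjective₀ c0.ne').iSup_comp]
    simp only [FF_smul p f x c0]
    rw [← ENNReal.mul_iSup, ← hS, hc', ← ENNReal.ofReal_toReal h1, ENNReal.toReal_ofReal S0.le,
      ← ENNReal.ofReal_mul (by positivity), div_mul_cancel₀ _ S0.ne', ENNReal.ofReal_toReal h2]
  set m := a / c + b with hm
  have m0 : 0 < m := by positivity
  have l0 : 0 < a / c / m := by positivity
  have l1 : 0 < b / m := by positivity
  have ls : a / c / m + b / m = 1 := by rw [← add_div, div_self m0.ne']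
  have h3 := qpl l0 l1 (pos y hy) h2 (FF_meas1 p hf _) (FF_meas1 p hf _) (FF_meas1 p hf _) hsup rfl
    (FF_min p hl l0 l1 ls (c • x) y)
  have e : a • x + b • y = m • ((a / c / m) • c • x + (b / m) • y) := by
    rw [smul_add, smul_smul, smul_smul, smul_smul]
    congr 2 <;> field_simp
  change 1 ≤ R p f _
  rw [e, R_smul p hf _ m0]
  change _ * R p f (c • x) + _ * R p f y ≤ R p f _ at h3
  rw [R_smul p hf _ c0] at h3
  have hx' : 1 ≤ R p f x := hx
  have hy' : 1 ≤ R p f y := hy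
  have h4 := (convexOn_zpow (𝕜 := ℝ) (-(p : ℤ))).2 (mem_Ioi.2 c0) (mem_Ioi.2 one_pos) l0.le l1.le ls
  simp only [smul_eq_mul, zpow_neg, zpow_natCast, one_pow, inv_one, mul_one] at h4
  have e2 : a / c / m * c + b / m = m⁻¹ := by field_simp; exact hab
  rw [e2, ← inv_pow, ← inv_pow, inv_inv] at h4
  calc (1 : ℝ≥0∞) = ENNReal.ofReal (m⁻¹ ^ p) * ENNReal.ofReal (m ^ p) := by
        rw [← ENNReal.ofReal_mul (by positivity), ← mul_pow, inv_mul_cancel₀ m0.ne']; simp
    _ ≤ ENNReal.ofReal (m⁻¹ ^ p) * (ENNReal.ofReal (a / c / m) * (ENNReal.ofReal (c⁻¹ ^ p) * 1) +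
          ENNReal.ofReal (b / m) * 1) := by
        gcongr
        rw [mul_one, mul_one, ← ENNReal.ofReal_mul l0.le, ← ENNReal.ofReal_add (by positivity) l1.le]
        exact ENNReal.ofReal_le_ofReal h4
    _ ≤ _ := by
        gcongr
        exact le_trans (by gcongr) h3
end

end Pool.Agent.H80.Lk
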