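import Pool.Agent.H80.Lk2

namespace Pool.Agent.H80.Lk

open Set MeasureTheory Function Pool.Agent.H26.PL
open scoped ENNReal Nat

lemma exp_tail (a : ℝ) : ∫⁻ t in Ici a, ENNReal.ofReal (Real.exp (-t)) = ENNReal.ofReal (Real.exp (-a)) := by
  rw [← restrict_Ioi_eq_restrict_Ici, ← ofReal_integral_eq_lintegral_ofReal (integrableOn_exp_neg_Ioi a)
    (ae_of_all _ fun _ => (Real.exp_pos _).le), integral_exp_neg_Ioi]

lemma gam (k : ℕ) : ∫⁻ t in Ioi (0 : ℝ), ENNReal.ofReal (Real.exp (-t) * t ^ k) = k ! := by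
  have h0 : (0 : ℝ) < k + 1 := by positivity
  have h1 := Real.GammaIntegral_convergent h0
  have h2 := Real.Gamma_eq_integral h0
  simp only [add_sub_cancel_right, Real.rpow_natCast] at h1 h2
  rw [← ofReal_integral_eq_lintegral_ofReal h1 ((ae_restrict_iff' measurableSet_Ioi).2
    (ae_of_all _ fun u hu => by have := le_of_lt (mem_Ioi.1 hu); positivity)), ← h2,
    Real.Gamma_nat_eq_factorial, ENNReal.ofReal_natCast]

variable {ι : Type} [Fintype ι] [DecidableEq ι]

def TT (B : Set (ι → ℝ)) (x : ι → ℝ) : Set ℝ := {t | 0 < t ∧ t⁻¹ • x ∈ B}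

noncomputable def gg (B : Set (ι → ℝ)) (x : ι → ℝ) : ℝ≥0∞ :=
  ∫⁻ t, (TT B x).indicator (fun t => ENNReal.ofReal (Real.exp (-t))) t

lemma gg_meas2 {B : Set (ι → ℝ)} (hB : MeasurableSet B) : Measurable fun q : (ι → ℝ) × ℝ =>
    (TT B q.1).indicator (fun t => ENNReal.ofReal (Real.exp (-t))) q.2 := by
  have : (fun q : (ι → ℝ) × ℝ => (TT B q.1).indicator (fun t => ENNReal.ofReal (Real.exp (-t))) q.2) =
      {q : (ι → ℝ) × ℝ | 0 < q.2 ∧ q.2⁻¹ • q.1 ∈ B}.indicator
        fun q => ENNReal.ofReal (Real.exp (-q.2)) := by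
    ext q; simp [indicator, TT]
  rw [this]
  exact Measurable.indicator (by fun_prop) ((measurableSet_lt measurable_const measurable_snd).inter
    ((by fun_prop : Measurable fun q : (ι → ℝ) × ℝ => q.2⁻¹ • q.1) hB))

lemma gg_meas {B : Set (ι → ℝ)} (hB : MeasurableSet B) : Measurable (gg B) :=
  (gg_meas2 hB).lintegral_prod_right'

lemma gg_sup {B : Set (ι → ℝ)} (hs : ∀ x ∈ B, ∀ c : ℝ, 0 < c → c ≤ 1 → c • x ∈ B) (x : ι → ℝ) :
    gg B x = ⨆ t : TT B x, ENNReal.ofReal (Real.exp (-t.1)) := by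
  apply le_antisymm
  · set S := ⨆ t : TT B x, ENNReal.ofReal (Real.exp (-t.1)) with hS
    have h1 : ∀ t ∈ TT B x, ENNReal.ofReal (Real.exp (-t)) ≤ S := fun t ht =>
      le_iSup (fun t : TT B x => ENNReal.ofReal (Real.exp (-t.1))) ⟨t, ht⟩
    rcases eq_or_ne S ⊤ with h | h
    · rw [h]; exact le_top
    rcases (TT B x).eq_empty_or_nonempty with h0 | ⟨t0, ht0⟩
    · simp [gg, h0]
    have S0 : 0 < S.toReal := ENNReal.toReal_pos
      (ne_bot_of_gt ((ENNReal.ofReal_pos.2 (Real.exp_pos _)).trans_le (h1 t0 ht0))) h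
    have := exp_tail (-Real.log S.toReal)
    rw [neg_neg, Real.exp_log S0, ENNReal.ofReal_toReal h,
      ← lintegral_indicator measurableSet_Ici] at this
    rw [← this]
    refine lintegral_mono (indicator_le_indicator_of_subset (fun t ht => ?_) (fun _ => zero_le))
    have h2 := (ENNReal.ofReal_le_iff_le_toReal h).1 (h1 t ht)
    have := (Real.le_log_iff_exp_le S0).2 h2
    change _ ≤ t; linarith
  · refine iSup_le fun t => ?_
    rw [← exp_tail, ← lintegral_indicator measurableSet_Ici]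
    refine lintegral_mono (indicator_le_indicator_of_subset (fun s (hst : t.1 ≤ s) => ?_)
      (fun _ => zero_le))
    have t0 := t.2.1
    have s0 : 0 < s := t0.trans_le hst
    refine ⟨s0, ?_⟩
    have := hs _ t.2.2 (t / s) (by positivity) ((div_le_one s0).2 hst)
    rwa [smul_smul, show t.1 / s * t.1⁻¹ = s⁻¹ by field_simp] at this

lemma gg_add {B : Set (ι → ℝ)} (hs : ∀ x ∈ B, ∀ c : ℝ, 0 < c → c ≤ 1 → c • x ∈ B) (hc : Convex ℝ B)
    (x y : ι → ℝ) : gg B x * gg B y ≤ gg B (x + y) := by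
  rw [gg_sup hs, gg_sup hs, gg_sup hs, ENNReal.iSup_mul]
  refine iSup_le fun s => ?_
  rw [ENNReal.mul_iSup]
  refine iSup_le fun t => ?_
  have s0 := s.2.1
  have t0 := t.2.1
  refine le_iSup_of_le ⟨s + t, by positivity, ?_⟩ ?_
  · have := hc s.2.2 t.2.2 (a := s / (s + t)) (b := t / (s + t)) (by positivity) (by positivity)
      (by field_simp)
    rwa [smul_smul, smul_smul, show s.1 / (s + t) * s.1⁻¹ = (s.1 + t)⁻¹ by field_simp,
      show t.1 / (s + t) * t.1⁻¹ = (s.1 + t)⁻¹ by field_simp, ← smul_add] at this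
  · rw [← ENNReal.ofReal_mul (Real.exp_pos _).le, ← Real.exp_add, neg_add]

lemma gg_pow {B : Set (ι → ℝ)} (hs : ∀ x ∈ B, ∀ c : ℝ, 0 < c → c ≤ 1 → c • x ∈ B) {c : ℝ}
    (c0 : 0 < c) (x : ι → ℝ) : gg B x ^ c ≤ gg B (c • x) := by
  rw [gg_sup hs, gg_sup hs]
  refine ((ENNReal.orderIsoRpow c c0).map_iSup _).trans_le (iSup_le fun t => ?_)
  have t0 := t.2.1
  refine le_iSup_of_le ⟨c * t, by positivity, ?_⟩ ?_
  · rw [smul_smul, show (c * t.1)⁻¹ * c = t.1⁻¹ by field_simp]; exact t.2.2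
  · change ENNReal.ofReal _ ^ c ≤ _
    rw [ENNReal.ofReal_rpow_of_pos (Real.exp_pos _), ← Real.exp_mul]
    apply le_of_eq; congr 2; ring

lemma L_smul (τ : Finset ι) (c : ℝ) (z : τ → ℝ) :
    updateFinset (0 : ι → ℝ) τ (c • z) = c • updateFinset (0 : ι → ℝ) τ z := by
  ext i; by_cases h : i ∈ τ <;> simp [updateFinset, h]

lemma gg_marg {B : Set (ι → ℝ)} (hB : MeasurableSet B) (τ : Finset ι) :
    lmarginal (fun _ => volume) τ (gg B) 0 =
      τ.card ! * lmarginal (fun _ => volume) τ (B.indicator 1) 0 := by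
  have hL : Measurable fun z : τ → ℝ => updateFinset (0 : ι → ℝ) τ z := measurable_updateFinset
  have hI : Measurable fun z : τ → ℝ => B.indicator (1 : (ι → ℝ) → ℝ≥0∞) (updateFinset 0 τ z) :=
    (measurable_one.indicator hB).comp hL
  change ∫⁻ z : τ → ℝ, gg B (updateFinset 0 τ z) = _ * ∫⁻ z : τ → ℝ, B.indicator 1 (updateFinset 0 τ z)
  unfold gg
  rw [lintegral_lintegral_swap (f := fun (z : τ → ℝ) (t : ℝ) => (TT B (updateFinset 0 τ z)).indicator
    (fun t => ENNReal.ofReal (Real.exp (-t))) t)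
    ((gg_meas2 hB).comp (hL.prodMap measurable_id)).aemeasurable, ← gam,
    ← lintegral_mul_const _ (by fun_prop), ← lintegral_indicator measurableSet_Ioi]
  refine lintegral_congr fun t => ?_
  by_cases ht : 0 < t
  · rw [indicator_of_mem (show t ∈ Ioi 0 from ht), scale volume (F := fun z : τ → ℝ =>
      (TT B (updateFinset 0 τ z)).indicator (fun t => ENNReal.ofReal (Real.exp (-t))) t)
      ((gg_meas2 hB).comp (hL.prodMk measurable_const)) ht, ENNReal.ofReal_mul (Real.exp_pos _).le,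
      mul_comm (ENNReal.ofReal (Real.exp _)), mul_assoc, ← lintegral_const_mul _ hI]
    congr 1
    · simp
    · refine lintegral_congr fun z => ?_
      have e : t⁻¹ • updateFinset (0 : ι → ℝ) τ (t • z) = updateFinset (0 : ι → ℝ) τ z := by
        rw [L_smul, smul_smul, inv_mul_cancel₀ ht.ne', one_smul]
      have e2 : t ∈ TT B (updateFinset 0 τ (t • z)) ↔ updateFinset (0 : ι → ℝ) τ z ∈ B := by
        rw [← e]; exact ⟨fun h => h.2, fun h => ⟨ht, h⟩⟩
      by_cases hz : updateFinset (0 : ι → ℝ) τ z ∈ B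
      · rw [indicator_of_mem (e2.2 hz), indicator_of_mem hz, Pi.one_apply, mul_one]
      · rw [indicator_of_notMem (fun h => hz (e2.1 h)), indicator_of_notMem hz, mul_zero]
  · simp [TT, ht]

lemma vol_eq {f : (ι → ℝ) → ℝ≥0∞} (hf : Measurable f) (τ : Finset ι) (hτ : τ.Nonempty) :
    lmarginal (fun _ => volume) τ ({x | 1 ≤ R τ.card f x}.indicator 1) 0 =
      lmarginal (fun _ => volume) τ f 0 := by
  have hL : Measurable fun z : τ → ℝ => updateFinset (0 : ι → ℝ) τ z := measurable_updateFinset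
  have := hτ.to_subtype
  have hB : MeasurableSet {x | 1 ≤ R τ.card f x} := measurableSet_le measurable_const (R_meas _ hf)
  refine radial (Y := τ → ℝ) volume ((measurable_one.indicator hB).comp hL) (hf.comp hL) fun y => ?_
  have e : ∀ (p : ℕ) (A : (ι → ℝ) → ℝ≥0∞), R p (fun z : τ → ℝ => A (updateFinset (0 : ι → ℝ) τ z)) y =
      R p A (updateFinset 0 τ y) := fun p A => by simp only [R, FF, L_smul]
  rw [e, e, show Module.finrank ℝ (τ → ℝ) = τ.card by simp]
  exact R_ind (Finset.card_pos.2 hτ) hf _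

theorem main_f {f : (ι → ℝ) → ℝ≥0∞} (hf : Measurable f) (hl : LC f) (f1 : ∀ x, f x ≤ 1)
    (σ : Finset ι) (hσ : σ.Nonempty)
    (hb : ∀ x, (∀ y (c : ℝ), f (y + c • x) = f y) ∨ ⨆ u, FF σ.card f x u ≠ ⊤)
    {J : Type} [Fintype J] [Nonempty J] {r : ℕ} (hr : 0 < r) (τ : J → Finset ι) (h1 : ∀ j, τ j ⊆ σ)
    (h2 : ∀ i ∈ σ, (Finset.univ.filter fun j => i ∈ τ j).card = r) :
    ∏ j, ((τ j).card ! * lmarginal (fun _ => volume) (τ j) f 0) ≤
      (σ.card ! * lmarginal (fun _ => volume) σ f 0) ^ r := by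
  classical
  have r0 : (0 : ℝ) < r := by exact_mod_cast hr
  have d0 := Finset.card_pos.2 hσ
  set B := {x | 1 ≤ R σ.card f x} with hB'
  have hB : MeasurableSet B := measurableSet_le measurable_const (R_meas _ hf)
  have hc : Convex ℝ B := ball_conv _ hf hl hb
  have hs : ∀ x ∈ B, ∀ c : ℝ, 0 < c → c ≤ 1 → c • x ∈ B := fun x hx c c0 c1 => by
    change 1 ≤ R _ f _
    rw [R_smul _ hf x c0]
    exact one_le_mul (ENNReal.one_le_ofReal.2 (one_le_pow₀ ((one_le_inv₀ c0).2 c1))) hx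
  have hLC : LC (gg B) := fun a b ha hb _ x y =>
    le_trans (mul_le_mul' (gg_pow hs ha x) (gg_pow hs hb y)) (gg_add hs hc _ _)
  have hH : ∀ x : J → ι → ℝ, ∏ j, gg B (x j) ^ (r : ℝ)⁻¹ ≤ gg B (∑ j, (r : ℝ)⁻¹ • x j) := fun x => by
    have : ∀ s : Finset J, s.Nonempty →
        ∏ j ∈ s, gg B (x j) ^ (r : ℝ)⁻¹ ≤ gg B (∑ j ∈ s, (r : ℝ)⁻¹ • x j) := by
      intro s hs'
      induction hs' using Finset.Nonempty.cons_induction with
      | singleton j => simpa using gg_pow hs (inv_pos.2 r0) (x j)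
      | cons j s hj _ ih =>
        rw [Finset.prod_cons, Finset.sum_cons]
        exact le_trans (mul_le_mul' (gg_pow hs (inv_pos.2 r0) _) ih) (gg_add hs hc _ _)
    exact this _ Finset.univ_nonempty
  have key := rbl (gg_meas hB) hLC hr hH σ τ (fun _ => 0) h1 h2 (fun _ _ _ _ => rfl)
  simp only [smul_zero, Finset.sum_const_zero, gg_marg hB] at key
  rw [hB', vol_eq hf σ hσ, ← hB', ENNReal.prod_rpow_of_nonneg (by positivity),
    ENNReal.rpow_inv_le_iff r0, ENNReal.rpow_natCast] at key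
  refine le_trans (Finset.prod_le_prod' fun j _ => ?_) key
  refine mul_le_mul' le_rfl ?_
  rcases (τ j).eq_empty_or_nonempty with h | h
  · simp only [h, lmarginal_empty]
    rcases eq_or_ne (f 0) 0 with h0 | h0
    · simp [h0]
    have ft : f 0 ≠ ⊤ := ((f1 0).trans_lt ENNReal.one_lt_top).ne
    have a0 : 0 < (f 0).toReal := ENNReal.toReal_pos h0 ft
    have a1 : (f 0).toReal ≤ 1 := ENNReal.toReal_le_of_le_ofReal zero_le_one (by simpa using f1 0)
    have : (0 : ι → ℝ) ∈ B := by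
      change 1 ≤ R _ f 0
      calc (1 : ℝ≥0∞) = f 0 * ENNReal.ofReal (f 0).toReal⁻¹ := by
            rw [ENNReal.ofReal_inv_of_pos a0, ENNReal.ofReal_toReal ft, ENNReal.mul_inv_cancel h0 ft]
        _ ≤ f 0 * ENNReal.ofReal ((f 0).toReal⁻¹ ^ σ.card) := by
            gcongr; exact le_self_pow₀ ((one_le_inv₀ a0).2 a1) d0.ne'
        _ ≤ _ := by
            rw [← w_tail d0 a0, ← lintegral_const_mul _ (w_meas _),
              ← lintegral_indicator measurableSet_Ici]
            refine lintegral_mono fun u => ?_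
            simp only [FF, smul_zero]
            exact indicator_le_indicator_of_subset (fun u hu => a0.trans_le hu) (fun _ => zero_le) u
    simp [this, f1 0]
  · rw [← vol_eq hf _ h]
    exact lmarginal_mono (indicator_le_indicator_of_subset
      (fun x hx => R_mono (Finset.card_pos.2 h) (Finset.card_le_card (h1 j)) hf f1 hx)
      (fun _ => zero_le)) 0

end Pool.Agent.H80.Lk
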