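import Mathlib

namespace Pool.Agent.H80.LkD

open MeasureTheory

/-- volume of the section of `K` by the flat through `x` on which the coordinates in `σ` are fixed -/
noncomputable def secVol {n : ℕ} (K : Set (Fin n → ℝ)) (σ : Finset (Fin n)) (x : Fin n → ℝ) :
    ENNReal :=
  volume {z : ↥(σᶜ) → ℝ | Function.updateFinset x σᶜ z ∈ K}

end Pool.Agent.H80.LkD
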