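import Pool.Agent.H80.Lk3
import Pool.Agent.H80.LkDefs

namespace Pool.Agent.H80.Lk

open Set MeasureTheory Function Pool.Agent.H26.PL Pool.Agent.H80.LkD
open scoped ENNReal Nat

lemma sec_eq {n : ℕ} {K : Set (Fin n → ℝ)} (hK : MeasurableSet K) (σ : Finset (Fin n))
    (x : Fin n → ℝ) : secVol K σ x = lmarginal (fun _ => volume) σᶜ (K.indicator 1) x := by
  have : MeasurableSet {z : ↥(σᶜ) → ℝ | updateFinset x σᶜ z ∈ K} := measurable_updateFinset hK
  rw [secVol, ← lintegral_indicator_one this]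
  rfl

theorem main {n : ℕ} (K : Set (Fin n → ℝ)) (hK : IsCompact K) (hc : Convex ℝ K)
    (hi : (interior K).Nonempty) (σ : Finset (Fin n)) (m s : ℕ) (hm : 1 ≤ m) (hs : 1 ≤ s)
    (hsm : s ≤ m) (ρ : Fin m → Finset (Fin n)) (h1 : ∀ j, ρ j ⊆ σ)
    (h2 : ∀ i ∈ σ, (Finset.univ.filter fun j => i ∈ ρ j).card = s) :
    (∏ j, (((σ.card - (ρ j).card)! : ℕ) : ℝ≥0∞)) / ((σ.card ! : ℕ) : ℝ≥0∞) ^ (m - s) *
        ∏ j, secVol K (ρ j) 0 ≤ volume K ^ (m - s) * (⨆ x, secVol K σ x) ^ s := by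
  have hKm := hK.measurableSet
  have hI : Measurable (K.indicator (1 : (Fin n → ℝ) → ℝ≥0∞)) := measurable_one.indicator hKm
  set F := lmarginal (fun _ => volume) σᶜ (K.indicator (1 : (Fin n → ℝ) → ℝ≥0∞)) with hF
  have hFm : Measurable F := hI.lmarginal _
  have eM : ⨆ x, secVol K σ x = ⨆ x, F x := by simp only [sec_eq hKm, hF]
  rw [eM]
  set M := ⨆ x, F x with hM
  have FM : ∀ x, F x ≤ M := fun x => le_iSup F x
  have e1 : ∀ τ, τ ⊆ σ → secVol K τ 0 = lmarginal (fun _ => volume) (σ \ τ) F 0 := fun τ hτ => by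
    rw [sec_eq hKm, hF, ← lmarginal_union _ _ hI (Finset.disjoint_left.2 fun i hi hi' => by
      simp at hi hi'; exact hi' hi.1)]
    congr 1; ext i; have := @hτ i; simp; tauto
  have eV : volume K = lmarginal (fun _ => volume) σ F 0 := by
    rw [hF, ← lmarginal_union _ _ hI disjoint_compl_right, Finset.union_compl, lmarginal_univ,
      ← volume_pi, lintegral_indicator_one hKm]
  have V0 : volume K ≠ 0 := (Measure.measure_pos_of_nonempty_interior _ hi).ne'
  rcases σ.eq_empty_or_nonempty with h0 | hσ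
  · have : ∀ j, ρ j = ∅ := fun j => Finset.subset_empty.1 (h0 ▸ h1 j)
    have e3 : ∀ x, F x = volume K := fun x => by
      rw [hF, h0, Finset.compl_empty, lmarginal_univ, ← volume_pi, lintegral_indicator_one hKm]
    have e4 : M = volume K := by simp [hM, e3]
    have e7 : secVol K ∅ 0 = volume K := by rw [← h0, sec_eq hKm]; exact e3 0
    simp only [this, h0, e4, e7]
    simp [← pow_add, hsm]
  rcases hsm.eq_or_lt with rfl | hsm'
  · have : ∀ j, ρ j = σ := fun j => (h1 j).antisymm fun i hi => by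
      have h3 := Finset.eq_univ_of_card _ ((h2 i hi).trans (Fintype.card_fin s).symm)
      have : j ∈ Finset.univ.filter fun j => i ∈ ρ j := by rw [h3]; exact Finset.mem_univ j
      simpa using this
    have e7 : secVol K σ 0 = F 0 := sec_eq hKm σ 0
    simp only [this, e7]
    simpa using pow_le_pow_left' (FM 0) s
  rcases eq_or_ne M ⊤ with hT | hT
  · rw [hT, ENNReal.top_pow (by omega), ENNReal.mul_top (pow_ne_zero _ V0)]; exact le_top
  have M0 : M ≠ 0 := fun h => V0 (by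
    have : F = 0 := funext fun x => le_antisymm ((FM x).trans h.le) zero_le
    rw [eV, this]; simp [lmarginal])
  set f : (Fin n → ℝ) → ℝ≥0∞ := fun x => M⁻¹ * F x with hf
  have f1 : ∀ x, f x ≤ 1 := fun x => by
    rw [← ENNReal.inv_mul_cancel M0 hT]; exact mul_le_mul' le_rfl (FM x)
  have hl0 : LC (K.indicator (1 : (Fin n → ℝ) → ℝ≥0∞)) := fun a b ha hb hab x y => by
    by_cases hx : x ∈ K
    · by_cases hy : y ∈ K
      · simp [hx, hy, hc hx hy ha.le hb.le hab]
      · simp [hy, hb]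
    · simp [hx, ha]
  have hl : LC f := fun a b ha hb hab x y => by
    simp only [hf]
    rw [ENNReal.mul_rpow_of_nonneg _ _ ha.le, ENNReal.mul_rpow_of_nonneg _ _ hb.le, mul_mul_mul_comm,
      ← ENNReal.rpow_add_of_nonneg _ _ ha.le hb.le, hab, ENNReal.rpow_one]
    exact mul_le_mul' le_rfl (lc_marg hI hl0 σᶜ a b ha hb hab x y)
  obtain ⟨C, C0, hC⟩ := hK.isBounded.exists_pos_norm_le
  have hb : ∀ x, (∀ y (c : ℝ), f (y + c • x) = f y) ∨ ⨆ u, FF σ.card f x u ≠ ⊤ := fun x => by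
    by_cases hx : ∀ i ∈ σ, x i = 0
    · left; intro y c
      simp only [hf, hF]
      rw [lmarginal_congr _ _ (y := y) fun i hi => by simp [hx i (by simpa using hi)]]
    right
    push Not at hx
    obtain ⟨i, hi, hx⟩ := hx
    have x0 : 0 < |x i| := abs_pos.2 hx
    refine ne_top_of_le_ne_top (b := w σ.card (|x i| / C)) ENNReal.ofReal_ne_top (iSup_le fun u => ?_)
    by_cases hu : 0 < u
    swap; · simp [FF, hu]
    simp only [FF, mem_Ioi, hu, indicator_of_mem]
    by_cases h3 : |x i| / C ≤ u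
    · refine (mul_le_of_le_one_left' (f1 _)).trans (ENNReal.ofReal_le_ofReal ?_)
      gcongr
    · have : F (u⁻¹ • x) = 0 := by
        simp only [hF, lmarginal]
        refine (lintegral_congr fun z => indicator_of_notMem (fun hz => h3 ?_) _).trans lintegral_zero
        have h4 := (norm_le_pi_norm _ i).trans (hC _ hz)
        simp only [updateFinset, Finset.mem_compl, hi, not_true, dite_false, Pi.smul_apply,
          smul_eq_mul, Real.norm_eq_abs, abs_mul, abs_inv, abs_of_pos hu] at h4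
        rw [div_le_iff₀ C0]
        rwa [inv_mul_le_iff₀ hu] at h4
      simp [hf, this]
  have : Nonempty (Fin m) := ⟨⟨0, hm⟩⟩
  have key := main_f (hFm.const_mul _) hl f1 σ hσ hb (r := m - s) (by omega) (fun j => σ \ ρ j)
    (fun j => Finset.sdiff_subset) fun i hi => by
      have := Finset.card_filter_add_card_filter_not (s := Finset.univ) fun j => i ∈ ρ j
      rw [h2 i hi, Finset.card_univ, Fintype.card_fin] at this
      simp only [Finset.mem_sdiff, hi, true_and]; omega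
  have e2 : ∀ τ, lmarginal (fun _ => volume) τ (fun x => M⁻¹ * F x) 0 =
      M⁻¹ * lmarginal (fun _ => volume) τ F 0 := fun τ =>
    lintegral_const_mul _ (hFm.comp measurable_updateFinset)
  simp only [e2, Finset.card_sdiff_of_subset (h1 _), ← e1 _ (h1 _), ← eV, Finset.prod_mul_distrib,
    Finset.prod_const, Finset.card_univ, Fintype.card_fin, mul_pow] at key
  have D0 : ((σ.card ! : ℕ) : ℝ≥0∞) ^ (m - s) ≠ 0 := pow_ne_zero _ (by simp [Nat.factorial_ne_zero])
  have D1 : ((σ.card ! : ℕ) : ℝ≥0∞) ^ (m - s) ≠ ⊤ := ENNReal.pow_ne_top (ENNReal.natCast_ne_top _)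
  rw [div_eq_mul_inv, mul_right_comm, ← div_eq_mul_inv, ENNReal.div_le_iff D0 D1]
  have k2 := mul_le_mul' key (le_refl (M ^ m))
  have e5 : M⁻¹ ^ m * M ^ m = 1 := by rw [← mul_pow, ENNReal.inv_mul_cancel M0 hT, one_pow]
  have e6 : M⁻¹ ^ (m - s) * M ^ m = M ^ s := by
    conv_lhs => rw [show M ^ m = M ^ (m - s) * M ^ s by rw [← pow_add]; congr 1; omega]
    rw [← mul_assoc, ← mul_pow, ENNReal.inv_mul_cancel M0 hT, one_pow, one_mul]
  calc _ = _ * (M⁻¹ ^ m * M ^ m) := by rw [e5, mul_one]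
    _ = _ := by ring
    _ ≤ _ := k2
    _ = volume K ^ (m - s) * (M⁻¹ ^ (m - s) * M ^ m) * ((σ.card ! : ℕ) : ℝ≥0∞) ^ (m - s) := by ring
    _ = _ := by rw [e6]

theorem main' {n : ℕ} (K : Set (Fin n → ℝ)) (hK : IsCompact K) (hc : Convex ℝ K)
    (hi : (interior K).Nonempty) (σ : Finset (Fin n)) (m s : ℕ) (hm : 1 ≤ m) (hs : 1 ≤ s)
    (ρ : Fin m → Finset (Fin n)) (h1 : ∀ j, ρ j ⊆ σ)
    (h2 : ∀ i ∈ σ, (Finset.univ.filter fun j => i ∈ ρ j).card = s) :
    (∏ j, (((σ.card - (ρ j).card)! : ℕ) : ℝ≥0∞)) / ((σ.card ! : ℕ) : ℝ≥0∞) ^ ((m : ℤ) - s) *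
        ∏ j, secVol K (ρ j) 0 ≤ volume K ^ ((m : ℤ) - s) * (⨆ x, secVol K σ x) ^ s := by
  by_cases hsm : s ≤ m
  · rw [← Nat.cast_sub hsm, zpow_natCast, zpow_natCast]
    exact main K hK hc hi σ m s hm hs hsm ρ h1 h2
  have h0 : σ = ∅ := Finset.eq_empty_of_forall_notMem fun i hi => hsm (by
    rw [← h2 i hi]; exact (Finset.card_filter_le _ _).trans (by simp))
  have hKm := hK.measurableSet
  have hI : Measurable (K.indicator (1 : (Fin n → ℝ) → ℝ≥0∞)) := measurable_one.indicator hKm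
  have V0 : volume K ≠ 0 := (Measure.measure_pos_of_nonempty_interior _ hi).ne'
  have V1 : volume K ≠ ⊤ := hK.measure_lt_top.ne
  have : ∀ j, ρ j = ∅ := fun j => Finset.subset_empty.1 (h0 ▸ h1 j)
  have e3 : ∀ x, secVol K ∅ x = volume K := fun x => by
    rw [sec_eq hKm, Finset.compl_empty, lmarginal_univ, ← volume_pi, lintegral_indicator_one hKm]
  simp only [this, h0, e3, iSup_const]
  rw [← zpow_natCast _ s, ← ENNReal.zpow_add V0 V1, sub_add_cancel, zpow_natCast]
  have e1 : (1 : ℝ≥0∞) ^ ((m : ℤ) - s) = 1 := by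
    rw [← ENNReal.rpow_intCast, ENNReal.one_rpow]
  simp [e1]

end Pool.Agent.H80.Lk
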