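import Mathlib

set_option autoImplicit false

namespace Pool.Agent.H80.MixedDet

/-- The mixed determinant `η(A_1, …, A_m)`: an ordered tuple of pairwise disjoint sets covering the
index set is encoded by the function `s` sending an index to the number of the set containing it;
`S_j = {i | s i = j}`, and the product runs over the principal minors `det A_j[S_j]`. -/
noncomputable def eta {R : Type} [CommRing R] {n m : ℕ} (A : Fin m → Matrix (Fin n) (Fin n) R) : R :=
  ∑ s : Fin n → Fin m, ∏ j : Fin m,
    ((A j).submatrix (fun i : {i : Fin n // s i = j} => i.1)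
      (fun i : {i : Fin n // s i = j} => i.1)).det

/-- The pencil `∑_k A_k z_k` as a matrix of polynomials. -/
noncomputable def pencil {n l : ℕ} (A : Fin l → Matrix (Fin n) (Fin n) ℂ) :
    Matrix (Fin n) (Fin n) (MvPolynomial (Fin l) ℂ) :=
  fun a b => ∑ k, MvPolynomial.C (A k a b) * MvPolynomial.X k

/-- Real stable polynomials. -/
def RealStable {l : ℕ} (f : MvPolynomial (Fin l) ℝ) : Prop :=
  f ≠ 0 ∧ ∀ z : Fin l → ℂ, (∀ k, 0 < (z k).im) → MvPolynomial.aeval z f ≠ 0

end Pool.Agent.H80.MixedDet
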