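import Mathlib
import Pool.Agent.H80.MixedDetDefs

set_option autoImplicit false

namespace Pool.Agent.H80.MixedDet

open MvPolynomial Finset
open scoped ComplexOrder

theorem eta_two {R : Type} [CommRing R] {m : ℕ} (A : Fin m → Matrix (Fin 2) (Fin 2) R) :
    eta A = (∑ j, A j 0 0) * (∑ j, A j 1 1) - ∑ j, A j 0 1 * A j 1 0 := by
  have h1 : ∀ s : Fin 2 → Fin m, (∏ j : Fin m,
      ((A j).submatrix (fun i : {i : Fin 2 // s i = j} => i.1)
        (fun i : {i : Fin 2 // s i = j} => i.1)).det) =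
      A (s 0) 0 0 * A (s 1) 1 1 - if s 0 = s 1 then A (s 0) 0 1 * A (s 0) 1 0 else 0 := by
    intro s
    let B : Matrix (Fin 2) (Fin 2) R := fun i i' => if s i = s i' then A (s i) i i' else 0
    have hB : B.BlockTriangular s := fun i i' h => if_neg (ne_of_gt h)
    have h2 := hB.det_fintype
    have h3 : ∀ j, B.toSquareBlock s j = (A j).submatrix (fun i : {i : Fin 2 // s i = j} => i.1)
        (fun i : {i : Fin 2 // s i = j} => i.1) := by
      intro j
      ext ⟨i, hi⟩ ⟨i', hi'⟩
      change B i i' = A j i i'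
      simp [B, hi, hi']
    simp only [h3] at h2
    rw [← h2, Matrix.det_fin_two]
    by_cases h : s 0 = s 1
    · simp [B, h]
    · simp [B, h]
  unfold eta
  simp only [h1]
  rw [← (piFinTwoEquiv fun _ => Fin m).symm.sum_comp, Fintype.sum_prod_type]
  simp [sum_sub_distrib, sum_mul_sum]

/-- coefficient matrix -/
def G (k l : Fin 13) : ℝ := if k = l then 0 else ((k : ℝ) - (l : ℝ)) ^ 2 + 1

/-- the quadratic form -/
noncomputable def f : MvPolynomial (Fin 13) ℝ := ∑ k, ∑ l, C (G k l) * X k * X l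

theorem G_nonneg (k l : Fin 13) : 0 ≤ G k l := by unfold G; split_ifs <;> positivity

theorem G_symm (k l : Fin 13) : G k l = G l k := by
  unfold G; by_cases h : k = l
  · simp [h]
  · rw [if_neg h, if_neg (Ne.symm h)]; ring

theorem G_eq (k l : Fin 13) :
    G k l = ((k : ℝ) - (l : ℝ)) ^ 2 + 1 - if k = l then 1 else 0 := by
  unfold G; by_cases h : k = l <;> simp [h]

theorem f_homog : f.IsHomogeneous 2 := by
  refine IsHomogeneous.sum _ _ _ fun k _ => IsHomogeneous.sum _ _ _ fun l _ => ?_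
  exact ((isHomogeneous_C _ _).mul (isHomogeneous_X _ _)).mul (isHomogeneous_X _ _)

theorem f_coeff_nonneg (d : Fin 13 →₀ ℕ) : 0 ≤ coeff d f := by
  simp only [f, coeff_sum]
  refine sum_nonneg fun k _ => sum_nonneg fun l _ => ?_
  rw [mul_assoc, coeff_C_mul, X, X, monomial_mul, coeff_monomial]
  split_ifs
  · simpa using G_nonneg k l
  · simp

/-- the bilinear form on an injective family of indices -/
theorem bilin {ι : Type} [Fintype ι] [DecidableEq ι] (e : ι → Fin 13) (he : Function.Injective e)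
    (u v : ι → ℝ) : ∑ i, ∑ j, G (e i) (e j) * u i * v j =
      (∑ i, (e i : ℝ) ^ 2 * u i) * (∑ i, v i) + (∑ i, u i) * (∑ i, (e i : ℝ) ^ 2 * v i) -
        2 * ((∑ i, (e i : ℝ) * u i) * (∑ i, (e i : ℝ) * v i)) + (∑ i, u i) * (∑ i, v i) -
        ∑ i, u i * v i := by
  have : ∀ i, u i * v i = ∑ j, (if i = j then 1 else 0) * u i * v j := by
    intro i; simp
  simp only [sum_mul_sum]
  simp only [mul_sum, ← sum_add_distrib, ← sum_sub_distrib]
  refine sum_congr rfl fun i _ => ?_
  rw [this i, ← sum_sub_distrib]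
  refine sum_congr rfl fun j _ => ?_
  rw [G_eq]
  simp only [he.eq_iff]
  ring

theorem neg_of_sum_zero {ι : Type} [Fintype ι] [DecidableEq ι] (e : ι → Fin 13)
    (he : Function.Injective e) (v : ι → ℝ) (hv : ∑ i, v i = 0) :
    ∑ i, ∑ j, G (e i) (e j) * v i * v j ≤ - ∑ i, v i * v i := by
  rw [bilin e he, hv]
  nlinarith [mul_self_nonneg (∑ i, (e i : ℝ) * v i)]

theorem bil_expand {ι : Type} [Fintype ι] (M : ι → ι → ℝ) (hM : ∀ i j, M i j = M j i)
    (x y : ι → ℝ) (c : ℝ) : ∑ i, ∑ j, M i j * (x i - c * y i) * (x j - c * y j) =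
      ∑ i, ∑ j, M i j * x i * x j - 2 * c * (∑ i, ∑ j, M i j * y i * x j) +
        c ^ 2 * ∑ i, ∑ j, M i j * y i * y j := by
  have h : ∑ i, ∑ j, M i j * x i * y j = ∑ i, ∑ j, M i j * y i * x j := by
    rw [sum_comm]
    exact sum_congr rfl fun i _ => sum_congr rfl fun j _ => by rw [hM]; ring
  have h2 : ∑ i, ∑ j, M i j * (x i - c * y i) * (x j - c * y j) =
      ∑ i, ∑ j, M i j * x i * x j - c * (∑ i, ∑ j, M i j * x i * y j) -
        c * (∑ i, ∑ j, M i j * y i * x j) + c ^ 2 * ∑ i, ∑ j, M i j * y i * y j := by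
    simp only [mul_sum, ← sum_add_distrib, ← sum_sub_distrib]
    exact sum_congr rfl fun i _ => sum_congr rfl fun j _ => by ring
  rw [h2, h]; ring

theorem pos_of_pos (y : Fin 13 → ℝ) (hy : ∀ k, 0 < y k) : 0 < ∑ i, ∑ j, G i j * y i * y j := by
  refine sum_pos' (fun i _ => sum_nonneg fun j _ => ?_) ⟨0, mem_univ _, ?_⟩
  · exact mul_nonneg (mul_nonneg (G_nonneg _ _) (hy _).le) (hy _).le
  · refine sum_pos' (fun j _ => ?_) ⟨1, mem_univ _, ?_⟩
    · exact mul_nonneg (mul_nonneg (G_nonneg _ _) (hy _).le) (hy _).le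
    · refine mul_pos (mul_pos ?_ (hy _)) (hy _)
      simp [G]

theorem f_stable : RealStable f := by
  have key : ∀ z : Fin 13 → ℂ, (∀ k, 0 < (z k).im) → aeval z f ≠ 0 := by
    intro z hz h
    simp only [f, map_sum, map_mul, aeval_C, aeval_X, Complex.coe_algebraMap] at h
    have hre := congrArg Complex.re h
    have him := congrArg Complex.im h
    simp only [Complex.re_sum, Complex.im_sum, Complex.mul_re, Complex.mul_im, Complex.ofReal_re,
      Complex.ofReal_im, zero_mul, sub_zero, add_zero, Complex.zero_re, Complex.zero_im] at hre him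
    have hpos := pos_of_pos (fun k => (z k).im) hz
    have hs : 0 < ∑ k, (z k).im := sum_pos (fun k _ => hz k) univ_nonempty
    set c := (∑ k, (z k).re) / (∑ k, (z k).im) with hc
    have h1 := neg_of_sum_zero id Function.injective_id (fun k => (z k).re - c * (z k).im) (by
      rw [sum_sub_distrib, ← mul_sum, hc]; field_simp; ring)
    simp only [id] at h1
    rw [bil_expand G G_symm] at h1
    have h2 : 0 ≤ ∑ k, ((z k).re - c * (z k).im) * ((z k).re - c * (z k).im) :=
      sum_nonneg fun k _ => mul_self_nonneg _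
    have h3 : ∑ i, ∑ j, G i j * (z i).re * (z j).im = ∑ i, ∑ j, G i j * (z i).im * (z j).re := by
      rw [sum_comm]
      exact sum_congr rfl fun i _ => sum_congr rfl fun j _ => by rw [G_symm]; ring
    simp only [sum_add_distrib, sum_sub_distrib] at hre him
    have h4 : ∑ i, ∑ j, G i j * (z i).im * (z j).re = 0 := by linarith
    rw [h4] at h1
    nlinarith [sq_nonneg c]
  refine ⟨fun h => key (fun _ => Complex.I) (fun _ => by simp) (by rw [h, map_zero]), key⟩

theorem no_five (e : Fin 5 → Fin 13) (he : Function.Injective e) (a d x y : Fin 5 → ℝ)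
    (h : ∀ i j, 2 * G (e i) (e j) = a i * d j + a j * d i - 2 * (x i * x j + y i * y j)) :
    False := by
  have hdep : ¬ LinearIndependent ℝ (fun i : Fin 5 => (![a i, d i, x i, y i] : Fin 4 → ℝ)) := by
    intro hli
    have := hli.fintype_card_le_finrank
    simp at this
  obtain ⟨w, hw, i0, hi0⟩ := Fintype.not_linearIndependent_iff.1 hdep
  have w0 : ∑ i, w i * a i = 0 := by simpa using congrFun hw 0
  have w1 : ∑ i, w i * d i = 0 := by simpa using congrFun hw 1
  have w2 : ∑ i, w i * x i = 0 := by simpa using congrFun hw 2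
  have w3 : ∑ i, w i * y i = 0 := by simpa using congrFun hw 3
  have hker : ∀ v : Fin 5 → ℝ, ∑ i, ∑ j, G (e i) (e j) * w i * v j = 0 := by
    intro v
    rw [sum_comm]
    refine sum_eq_zero fun j _ => ?_
    have : ∑ i, G (e i) (e j) * w i * v j = ((∑ i, w i * a i) * d j + a j * (∑ i, w i * d i) -
        2 * ((∑ i, w i * x i) * x j + (∑ i, w i * y i) * y j)) * (v j / 2) := by
      simp only [sum_mul, mul_sum, ← sum_add_distrib, ← sum_sub_distrib]
      exact sum_congr rfl fun i _ => by linear_combination (w i * v j / 2) * h i j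
    rw [this, w0, w1, w2, w3]; ring
  by_cases hs : ∑ i, w i = 0
  · have h1 := neg_of_sum_zero e he w hs
    rw [hker] at h1
    have h2 : 0 < ∑ i, w i * w i :=
      sum_pos' (fun i _ => mul_self_nonneg _) ⟨i0, mem_univ _, mul_self_pos.2 hi0⟩
    linarith
  · have h1 := neg_of_sum_zero e he (fun i => 1 - 5 / (∑ i, w i) * w i) (by
      rw [sum_sub_distrib, ← mul_sum]; field_simp; simp)
    rw [bil_expand (fun i j => G (e i) (e j)) (fun i j => G_symm _ _) (fun _ => 1) w, hker,
      hker] at h1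
    have h2 : 0 ≤ ∑ i, (1 - 5 / (∑ i, w i) * w i) * (1 - 5 / (∑ i, w i) * w i) :=
      sum_nonneg fun k _ => mul_self_nonneg _
    have h3 : 0 < ∑ i, ∑ j, G (e i) (e j) * 1 * 1 := by
      refine sum_pos' (fun i _ => sum_nonneg fun j _ => by simpa using G_nonneg _ _)
        ⟨0, mem_univ _, ?_⟩
      refine sum_pos' (fun j _ => by simpa using G_nonneg _ _) ⟨1, mem_univ _, ?_⟩
      have : e 0 ≠ e 1 := fun h => absurd (he h) (by decide)
      simp only [G, this, if_false, mul_one]
      positivity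
    linarith

theorem no_four (k1 k2 k3 k4 : Fin 13) (h12 : k1 < k2) (h23 : k2 < k3) (h34 : k3 < k4)
    (a d : Fin 13 → ℝ) (ha : ∀ k, 0 ≤ a k) (hd : ∀ k, 0 ≤ d k)
    (e12 : 2 * G k1 k2 = a k1 * d k2 + a k2 * d k1) (e13 : 2 * G k1 k3 = a k1 * d k3 + a k3 * d k1)
    (e14 : 2 * G k1 k4 = a k1 * d k4 + a k4 * d k1) (e23 : 2 * G k2 k3 = a k2 * d k3 + a k3 * d k2)
    (e24 : 2 * G k2 k4 = a k2 * d k4 + a k4 * d k2)
    (e34 : 2 * G k3 k4 = a k3 * d k4 + a k4 * d k3) :
    False := by
  have h0 : (2 * G k1 k4) * (2 * G k2 k3) + (2 * G k1 k2) * (2 * G k3 k4) -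
      (2 * G k1 k3) * (2 * G k2 k4) =
      2 * (a k1 * a k3 * d k2 * d k4) + 2 * (a k2 * a k4 * d k1 * d k3) := by
    rw [e12, e13, e14, e23, e24, e34]; ring
  have h1 : G k1 k4 * G k2 k3 + G k1 k2 * G k3 k4 - G k1 k3 * G k2 k4 =
      (1 / 2) * (a k1 * a k3 * d k2 * d k4) + (1 / 2) * (a k2 * a k4 * d k1 * d k3) := by
    linear_combination (1 / 4) * h0
  have h2 : 0 ≤ a k1 * a k3 * d k2 * d k4 :=
    mul_nonneg (mul_nonneg (mul_nonneg (ha _) (ha _)) (hd _)) (hd _)
  have h3 : 0 ≤ a k2 * a k4 * d k1 * d k3 :=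
    mul_nonneg (mul_nonneg (mul_nonneg (ha _) (ha _)) (hd _)) (hd _)
  simp only [G, h12.ne, h23.ne, h34.ne, (h12.trans h23).ne, (h23.trans h34).ne,
    ((h12.trans h23).trans h34).ne, if_false] at h1
  have g1 : ((k1 : ℕ) : ℝ) + 1 ≤ (k2 : ℕ) := by exact_mod_cast h12
  have g2 : ((k2 : ℕ) : ℝ) + 1 ≤ (k3 : ℕ) := by exact_mod_cast h23
  have g3 : ((k3 : ℕ) : ℝ) + 1 ≤ (k4 : ℕ) := by exact_mod_cast h34
  obtain ⟨p, hp⟩ : ∃ p : ℝ, p = (k2 : ℕ) - (k1 : ℕ) := ⟨_, rfl⟩
  obtain ⟨q, hq⟩ : ∃ q : ℝ, q = (k3 : ℕ) - (k2 : ℕ) := ⟨_, rfl⟩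
  obtain ⟨r, hr⟩ : ∃ r : ℝ, r = (k4 : ℕ) - (k3 : ℕ) := ⟨_, rfl⟩
  have p1 : 1 ≤ p := by linarith
  have q1 : 1 ≤ q := by linarith
  have r1 : 1 ≤ r := by linarith
  have h4 : (p + r) ^ 2 + 1 - 2 * (p * r * q * (p + q + r)) =
      (1 / 2) * (a k1 * a k3 * d k2 * d k4) + (1 / 2) * (a k2 * a k4 * d k1 * d k3) := by
    rw [← h1, hp, hq, hr]; ring
  have h5 : p + r ≤ 2 * (p * r) := by nlinarith
  have h6 : p + r + 1 ≤ q * (p + q + r) := by nlinarith
  have h7 : (p + r) * (p + r + 1) ≤ 2 * (p * r) * (q * (p + q + r)) :=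
    mul_le_mul h5 h6 (by linarith) (by positivity)
  have h8 : (p + r) ^ 2 + 1 - 2 * (p * r * q * (p + q + r)) =
      (p + r) * (p + r + 1) - 2 * (p * r) * (q * (p + q + r)) + (1 - (p + r)) := by ring
  linarith

theorem not_eta (m : ℕ) (A : Fin m → Fin 13 → Matrix (Fin 2) (Fin 2) ℂ)
    (hA : ∀ j k, (A j k).PosSemidef) :
    map (algebraMap ℝ ℂ) f ≠ eta (fun j => pencil (A j)) := by
  classical
  intro h
  rw [eta_two] at h
  let a : Fin m → Fin 13 → ℝ := fun j k => (A j k 0 0).re
  let d : Fin m → Fin 13 → ℝ := fun j k => (A j k 1 1).re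
  let x : Fin m → Fin 13 → ℝ := fun j k => (A j k 0 1).re
  let y : Fin m → Fin 13 → ℝ := fun j k => (A j k 0 1).im
  have h00 : ∀ j k, 0 ≤ a j k ∧ (A j k 0 0).im = 0 := fun j k => by
    have := Complex.nonneg_iff.1 ((hA j k).diag_nonneg (i := 0))
    exact ⟨this.1, this.2.symm⟩
  have h11 : ∀ j k, 0 ≤ d j k ∧ (A j k 1 1).im = 0 := fun j k => by
    have := Complex.nonneg_iff.1 ((hA j k).diag_nonneg (i := 1))
    exact ⟨this.1, this.2.symm⟩
  have h10 : ∀ j k, (A j k 1 0).re = x j k ∧ (A j k 1 0).im = - y j k := fun j k => by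
    have := (hA j k).isHermitian.apply 1 0
    rw [← this]
    simp [x, y]
  have hdet : ∀ j k, x j k * x j k + y j k * y j k ≤ a j k * d j k := fun j k => by
    have := Complex.nonneg_iff.1 (hA j k).det_nonneg
    rw [Matrix.det_fin_two] at this
    have h1 := this.1
    simp only [Complex.sub_re, Complex.mul_re, (h00 j k).2, (h11 j k).2, (h10 j k).1,
      (h10 j k).2] at h1
    simp only [a, d, x, y] at h1 ⊢
    linarith
  have hev : ∀ u : Fin 13 → ℝ, ∑ k, ∑ l, G k l * u k * u l =
      (∑ j, ∑ k, a j k * u k) * (∑ j, ∑ k, d j k * u k) -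
        ∑ j, ((∑ k, x j k * u k) * (∑ k, x j k * u k) + (∑ k, y j k * u k) * (∑ k, y j k * u k)) := by
    intro u
    have h1 := congrArg (fun p => (eval (fun k => (u k : ℂ)) p).re) h
    simp only [f, pencil, map_sum, map_mul, map_sub, map_C, map_X, eval_C, eval_X,
      Complex.coe_algebraMap, Complex.re_sum, Complex.im_sum, Complex.sub_re, Complex.mul_re,
      Complex.mul_im, Complex.ofReal_re, Complex.ofReal_im, mul_zero, zero_mul, sub_zero, add_zero,
      zero_add, (h00 _ _).2, (h11 _ _).2, (h10 _ _).1, (h10 _ _).2, sum_const_zero, neg_mul,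
      sum_neg_distrib, mul_neg, sub_neg_eq_add] at h1
    exact h1
  clear_value a d x y
  have hdiag : ∀ k, (∑ j, a j k) * (∑ j, d j k) = ∑ j, (x j k * x j k + y j k * y j k) := by
    intro k
    have := hev (Pi.single k 1)
    simp [Pi.single_apply, G] at this
    linarith
  have hG : ∀ k l, 2 * G k l = (∑ j, a j k) * (∑ j, d j l) + (∑ j, a j l) * (∑ j, d j k) -
      2 * ∑ j, (x j k * x j l + y j k * y j l) := by
    intro k l
    have h1 := hev (Pi.single k 1 + Pi.single l 1)
    simp only [Pi.add_apply, mul_add, add_mul, sum_add_distrib, Pi.single_apply, mul_ite, mul_one,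
      mul_zero, ite_mul, zero_mul, sum_ite_eq', mem_univ, if_true, sum_ite_irrel,
      sum_const_zero] at h1
    have h2 := hdiag k
    have h3 := hdiag l
    have h4 : G k k = 0 := by simp [G]
    have h5 : G l l = 0 := by simp [G]
    have h6 := G_symm k l
    have h7 : ∑ j, x j l * x j k = ∑ j, x j k * x j l := sum_congr rfl fun j _ => mul_comm _ _
    have h8 : ∑ j, y j l * y j k = ∑ j, y j k * y j l := sum_congr rfl fun j _ => mul_comm _ _
    simp only [sum_add_distrib] at h2 h3 ⊢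
    linarith
  -- at most one pencil has a nonzero off-diagonal coefficient at each variable
  have huniq : ∀ k, ∃ β : Option (Fin m), ∀ j, some j ≠ β → x j k = 0 ∧ y j k = 0 := by
    intro k
    by_cases hex : ∃ j, ¬ (x j k = 0 ∧ y j k = 0)
    · obtain ⟨j0, hj0⟩ := hex
      refine ⟨some j0, fun j hj => ?_⟩
      by_contra hj1
      have hne : j ≠ j0 := fun e => hj (by rw [e])
      have pos : ∀ i, ¬ (x i k = 0 ∧ y i k = 0) → 0 < a i k * d i k := by
        intro i hi
        refine lt_of_lt_of_le ?_ (hdet i k)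
        by_cases hx : x i k = 0
        · have hy : y i k ≠ 0 := fun hy => hi ⟨hx, hy⟩
          nlinarith [mul_self_pos.2 hy, mul_self_nonneg (x i k)]
        · nlinarith [mul_self_pos.2 hx, mul_self_nonneg (y i k)]
      have pa : 0 < a j k := lt_of_le_of_ne (h00 j k).1 (fun e => by
        have := pos j hj1; rw [← e] at this; simp at this)
      have pd : 0 < d j0 k := lt_of_le_of_ne (h11 j0 k).1 (fun e => by
        have := pos j0 hj0; rw [← e] at this; simp at this)
      have hlt : ∑ i, a i k * d i k < (∑ i, a i k) * (∑ i, d i k) := by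
        rw [sum_mul]
        refine sum_lt_sum (fun i _ => mul_le_mul_of_nonneg_left
          (single_le_sum (fun i _ => (h11 i k).1) (mem_univ i)) (h00 i k).1) ⟨j, mem_univ _, ?_⟩
        refine mul_lt_mul_of_pos_left ?_ pa
        exact single_lt_sum hne.symm (mem_univ _) (mem_univ _) pd (fun i _ _ => (h11 i k).1)
      have hle : ∑ i, (x i k * x i k + y i k * y i k) ≤ ∑ i, a i k * d i k :=
        sum_le_sum fun i _ => hdet i k
      rw [hdiag k] at hlt
      linarith
    · push Not at hex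
      exact ⟨none, fun j _ => hex j⟩
  choose β hβ using huniq
  by_cases hcard : (univ.image β).card ≤ 3
  · obtain ⟨b, -, hb⟩ := exists_lt_card_fiber_of_mul_lt_card_of_maps_to
      (s := (univ : Finset (Fin 13))) (t := univ.image β) (f := β) (n := 4)
      (fun k _ => mem_image_of_mem _ (mem_univ k)) (by simp; omega)
    obtain ⟨T, hT, hT5⟩ := exists_subset_card_eq (show 5 ≤ _ from hb)
    let e := T.orderEmbOfFin hT5
    have he : ∀ i, β (e i) = b := fun i => (mem_filter.1 (hT (T.orderEmbOfFin_mem hT5 i))).2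
    cases b with
    | none =>
      refine no_five e e.injective (fun i => ∑ j, a j (e i)) (fun i => ∑ j, d j (e i))
        (fun _ => 0) (fun _ => 0) (fun i i' => ?_)
      have : ∑ j, (x j (e i) * x j (e i') + y j (e i) * y j (e i')) = 0 := by
        refine sum_eq_zero (fun j _ => ?_)
        obtain ⟨h1, h2⟩ := hβ (e i) j (by rw [he]; simp)
        rw [h1, h2]; ring
      rw [hG, this]; ring
    | some j0 =>
      refine no_five e e.injective (fun i => ∑ j, a j (e i)) (fun i => ∑ j, d j (e i))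
        (fun i => x j0 (e i)) (fun i => y j0 (e i)) (fun i i' => ?_)
      have : ∑ j, (x j (e i) * x j (e i') + y j (e i) * y j (e i')) =
          x j0 (e i) * x j0 (e i') + y j0 (e i) * y j0 (e i') := by
        refine sum_eq_single j0 (fun j _ hj => ?_) (by simp)
        obtain ⟨h1, h2⟩ := hβ (e i) j (by rw [he]; simpa using hj)
        rw [h1, h2]; ring
      rw [hG, this]
  · obtain ⟨T0, hT0, hinj, him⟩ := exists_subset_injOn_image_eq_of_surjOn
      (Set.univ : Set (Fin 13)) (univ.image β) (f := β) (by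
        intro b hb
        simpa using hb)
    have hc : 4 ≤ T0.card := by
      have := card_image_le (s := T0) (f := β)
      rw [him] at this
      omega
    obtain ⟨T, hT, hT4⟩ := exists_subset_card_eq hc
    let e := T.orderEmbOfFin hT4
    have hcross : ∀ i i' : Fin 4, i ≠ i' → 2 * G (e i) (e i') =
        (∑ j, a j (e i)) * (∑ j, d j (e i')) + (∑ j, a j (e i')) * (∑ j, d j (e i)) := by
      intro i i' hii
      have hne : β (e i) ≠ β (e i') := fun hh => hii (e.injective
        (hinj (hT (T.orderEmbOfFin_mem hT4 i)) (hT (T.orderEmbOfFin_mem hT4 i')) hh))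
      have : ∑ j, (x j (e i) * x j (e i') + y j (e i) * y j (e i')) = 0 := by
        refine sum_eq_zero (fun j _ => ?_)
        by_cases hj : some j = β (e i)
        · obtain ⟨h1, h2⟩ := hβ (e i') j (fun hh => hne (hj.symm.trans hh))
          rw [h1, h2]; ring
        · obtain ⟨h1, h2⟩ := hβ (e i) j hj
          rw [h1, h2]; ring
      rw [hG, this]; ring
    exact no_four (e 0) (e 1) (e 2) (e 3) (e.strictMono (by decide)) (e.strictMono (by decide))
      (e.strictMono (by decide)) (fun k => ∑ j, a j k) (fun k => ∑ j, d j k)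
      (fun k => sum_nonneg fun j _ => (h00 j k).1) (fun k => sum_nonneg fun j _ => (h11 j k).1)
      (hcross 0 1 (by decide)) (hcross 0 2 (by decide)) (hcross 0 3 (by decide))
      (hcross 1 2 (by decide)) (hcross 1 3 (by decide)) (hcross 2 3 (by decide))

end Pool.Agent.H80.MixedDet
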