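import Pool.Agent.H80.PCFDefs

namespace Pool.Agent.H80.PCF

open Finset

def E5 : Fin 5 → Fin 5 × Fin 5 := ![(0, 1), (0, 3), (1, 2), (1, 4), (3, 4)]

def grow (o : Finset (Fin 5)) (S : Finset (Fin 5)) : Finset (Fin 5) :=
  univ.filter fun w => w ∈ S ∨ ∃ e ∈ o, ((E5 e).1 ∈ S ∧ (E5 e).2 = w) ∨ ((E5 e).2 ∈ S ∧ (E5 e).1 = w)

def enc (S : Finset (Fin 5)) : ℕ := ∑ i ∈ S, 2 ^ (i : ℕ)

def dec (k : ℕ) : Finset (Fin 5) := univ.filter fun i => k.testBit i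

def CL : List (List ℕ) := [
  [1, 2, 4, 8, 16],
  [3, 3, 4, 8, 16],
  [9, 2, 4, 9, 16],
  [11, 11, 4, 11, 16],
  [1, 6, 6, 8, 16],
  [7, 7, 7, 8, 16],
  [9, 6, 6, 9, 16],
  [15, 15, 15, 15, 16],
  [1, 18, 4, 8, 18],
  [19, 19, 4, 8, 19],
  [9, 18, 4, 9, 18],
  [27, 27, 4, 27, 27],
  [1, 22, 22, 8, 22],
  [23, 23, 23, 8, 23],
  [9, 22, 22, 9, 22],
  [31, 31, 31, 31, 31],
  [1, 2, 4, 24, 24],
  [3, 3, 4, 24, 24],
  [25, 2, 4, 25, 25],
  [27, 27, 4, 27, 27],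
  [1, 6, 6, 24, 24],
  [7, 7, 7, 24, 24],
  [25, 6, 6, 25, 25],
  [31, 31, 31, 31, 31],
  [1, 26, 4, 26, 26],
  [27, 27, 4, 27, 27],
  [27, 27, 4, 27, 27],
  [27, 27, 4, 27, 27],
  [1, 30, 30, 30, 30],
  [31, 31, 31, 31, 31],
  [31, 31, 31, 31, 31],
  [31, 31, 31, 31, 31]]

def cl (o : Finset (Fin 5)) (v : Fin 5) : Finset (Fin 5) := dec ((CL.getD (enc o) []).getD v 0)

lemma cl_spec : ∀ o v, v ∈ cl o v ∧ grow o (cl o v) ⊆ cl o v ∧
    cl o v ⊆ grow o (grow o (grow o (grow o {v}))) := by decide +kernel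

lemma grow_sub {o S : Finset (Fin 5)} {v : Fin 5} (h : S ⊆ cluster E5 o v) :
    grow o S ⊆ cluster E5 o v := by
  intro w hw
  simp only [grow, mem_filter, mem_univ, true_and] at hw
  rcases hw with hw | ⟨e, he, ⟨h1, h2⟩ | ⟨h1, h2⟩⟩
  · exact h hw
  · have := h h1
    simp only [cluster, mem_filter, mem_univ, true_and] at this ⊢
    exact this.tail ⟨e, he, Or.inl (by rw [← h2])⟩
  · have := h h1
    simp only [cluster, mem_filter, mem_univ, true_and] at this ⊢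
    exact this.tail ⟨e, he, Or.inr (by rw [← h2])⟩

lemma cluster_eq (o : Finset (Fin 5)) : cluster E5 o = cl o := by
  funext v
  obtain ⟨h1, h2, h3⟩ := cl_spec o v
  apply Finset.Subset.antisymm
  · intro w hw
    simp only [cluster, mem_filter, mem_univ, true_and] at hw
    induction hw with
    | refl => exact h1
    | tail _ hs ih =>
      apply h2
      obtain ⟨e, he, h | h⟩ := hs
      · simp only [grow, mem_filter, mem_univ, true_and]
        exact Or.inr ⟨e, he, Or.inl (by rw [h]; exact ⟨ih, rfl⟩)⟩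
      · simp only [grow, mem_filter, mem_univ, true_and]
        exact Or.inr ⟨e, he, Or.inr (by rw [h]; exact ⟨ih, rfl⟩)⟩
  · refine h3.trans (grow_sub (grow_sub (grow_sub (grow_sub ?_))))
    intro w hw
    rw [mem_singleton] at hw
    subst hw
    simp only [cluster, mem_filter, mem_univ, true_and]
    exact Relation.ReflTransGen.refl

def fz (f o : Finset (Fin 5)) : Finset (Finset (Fin 5)) :=
  (univ.image (cl o)).filter fun C => ¬ C ⊆ f

lemma freezable_eq (f o : Finset (Fin 5)) : freezable E5 f o = fz f o := by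
  unfold freezable fz
  rw [cluster_eq]

def DD : ℤ := 367958052

def TA : List (List ℤ) := [
  [356725040, 334507320, 357845040, 334507320, 356725040, 334507320, 357845040, 334507320, 0, 0, 0, 0, 0, 0, 0, 0, 334507320, 0, 334507320, 0, 334507320, 0, 334507320, 0, 0, 0, 0, 0, 0, 0, 0, 0],
  [355493040, 334507320, 357845040, 334507320, 355493040, 334507320, 357845040, 334507320, 0, 0, 0, 0, 0, 0, 0, 0, 334507320, 0, 334507320, 0, 334507320, 0, 334507320, 0, 0, 0, 0, 0, 0, 0, 0, 0],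
  [DD, DD, DD, DD, DD, DD, DD, DD, DD, DD, DD, DD, DD, DD, DD, DD, DD, DD, DD, DD, DD, DD, DD, DD, DD, DD, DD, DD, DD, DD, DD, DD],
  [DD, DD, DD, DD, DD, DD, DD, DD, DD, DD, DD, DD, DD, DD, DD, DD, DD, DD, DD, DD, DD, DD, DD, DD, DD, DD, DD, DD, DD, DD, DD, DD],
  [356725040, 334507320, 357845040, 334507320, 356725040, 334507320, 357845040, 334507320, 0, 0, 0, 0, 0, 0, 0, 0, 334507320, 0, 334507320, 0, 334507320, 0, 334507320, 0, 0, 0, 0, 0, 0, 0, 0, 0],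
  [355493040, 334507320, 357845040, 334507320, 355493040, 334507320, 357845040, 334507320, 0, 0, 0, 0, 0, 0, 0, 0, 334507320, 0, 334507320, 0, 334507320, 0, 334507320, 0, 0, 0, 0, 0, 0, 0, 0, 0],
  [DD, DD, DD, DD, DD, DD, DD, DD, DD, DD, DD, DD, DD, DD, DD, DD, DD, DD, DD, DD, DD, DD, DD, DD, DD, DD, DD, DD, DD, DD, DD, DD],
  [DD, DD, DD, DD, DD, DD, DD, DD, DD, DD, DD, DD, DD, DD, DD, DD, DD, DD, DD, DD, DD, DD, DD, DD, DD, DD, DD, DD, DD, DD, DD, DD],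
  [355493040, 334507320, 357845040, 334507320, 355493040, 334507320, 357845040, 334507320, 0, 0, 0, 0, 0, 0, 0, 0, 334507320, 0, 334507320, 0, 334507320, 0, 334507320, 0, 0, 0, 0, 0, 0, 0, 0, 0],
  [350436240, 334507320, 350436240, 334507320, 350436240, 334507320, 350436240, 334507320, 0, 0, 0, 0, 0, 0, 0, 0, 334507320, 0, 334507320, 0, 334507320, 0, 334507320, 0, 0, 0, 0, 0, 0, 0, 0, 0],
  [DD, DD, DD, DD, DD, DD, DD, DD, DD, DD, DD, DD, DD, DD, DD, DD, DD, DD, DD, DD, DD, DD, DD, DD, DD, DD, DD, DD, DD, DD, DD, DD],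
  [DD, DD, DD, DD, DD, DD, DD, DD, DD, DD, DD, DD, DD, DD, DD, DD, DD, DD, DD, DD, DD, DD, DD, DD, DD, DD, DD, DD, DD, DD, DD, DD],
  [355493040, 334507320, 357845040, 334507320, 355493040, 334507320, 357845040, 334507320, 0, 0, 0, 0, 0, 0, 0, 0, 334507320, 0, 334507320, 0, 334507320, 0, 334507320, 0, 0, 0, 0, 0, 0, 0, 0, 0],
  [350436240, 334507320, 350436240, 334507320, 350436240, 334507320, 350436240, 334507320, 0, 0, 0, 0, 0, 0, 0, 0, 334507320, 0, 334507320, 0, 334507320, 0, 334507320, 0, 0, 0, 0, 0, 0, 0, 0, 0],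
  [DD, DD, DD, DD, DD, DD, DD, DD, DD, DD, DD, DD, DD, DD, DD, DD, DD, DD, DD, DD, DD, DD, DD, DD, DD, DD, DD, DD, DD, DD, DD, DD],
  [DD, DD, DD, DD, DD, DD, DD, DD, DD, DD, DD, DD, DD, DD, DD, DD, DD, DD, DD, DD, DD, DD, DD, DD, DD, DD, DD, DD, DD, DD, DD, DD],
  [DD, DD, DD, DD, DD, DD, DD, DD, DD, DD, DD, DD, DD, DD, DD, DD, DD, DD, DD, DD, DD, DD, DD, DD, DD, DD, DD, DD, DD, DD, DD, DD],
  [DD, DD, DD, DD, DD, DD, DD, DD, DD, DD, DD, DD, DD, DD, DD, DD, DD, DD, DD, DD, DD, DD, DD, DD, DD, DD, DD, DD, DD, DD, DD, DD],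
  [DD, DD, DD, DD, DD, DD, DD, DD, DD, DD, DD, DD, DD, DD, DD, DD, DD, DD, DD, DD, DD, DD, DD, DD, DD, DD, DD, DD, DD, DD, DD, DD],
  [DD, DD, DD, DD, DD, DD, DD, DD, DD, DD, DD, DD, DD, DD, DD, DD, DD, DD, DD, DD, DD, DD, DD, DD, DD, DD, DD, DD, DD, DD, DD, DD],
  [DD, DD, DD, DD, DD, DD, DD, DD, DD, DD, DD, DD, DD, DD, DD, DD, DD, DD, DD, DD, DD, DD, DD, DD, DD, DD, DD, DD, DD, DD, DD, DD],
  [DD, DD, DD, DD, DD, DD, DD, DD, DD, DD, DD, DD, DD, DD, DD, DD, DD, DD, DD, DD, DD, DD, DD, DD, DD, DD, DD, DD, DD, DD, DD, DD],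
  [DD, DD, DD, DD, DD, DD, DD, DD, DD, DD, DD, DD, DD, DD, DD, DD, DD, DD, DD, DD, DD, DD, DD, DD, DD, DD, DD, DD, DD, DD, DD, DD],
  [DD, DD, DD, DD, DD, DD, DD, DD, DD, DD, DD, DD, DD, DD, DD, DD, DD, DD, DD, DD, DD, DD, DD, DD, DD, DD, DD, DD, DD, DD, DD, DD],
  [DD, DD, DD, DD, DD, DD, DD, DD, DD, DD, DD, DD, DD, DD, DD, DD, DD, DD, DD, DD, DD, DD, DD, DD, DD, DD, DD, DD, DD, DD, DD, DD],
  [DD, DD, DD, DD, DD, DD, DD, DD, DD, DD, DD, DD, DD, DD, DD, DD, DD, DD, DD, DD, DD, DD, DD, DD, DD, DD, DD, DD, DD, DD, DD, DD],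
  [DD, DD, DD, DD, DD, DD, DD, DD, DD, DD, DD, DD, DD, DD, DD, DD, DD, DD, DD, DD, DD, DD, DD, DD, DD, DD, DD, DD, DD, DD, DD, DD],
  [DD, DD, DD, DD, DD, DD, DD, DD, DD, DD, DD, DD, DD, DD, DD, DD, DD, DD, DD, DD, DD, DD, DD, DD, DD, DD, DD, DD, DD, DD, DD, DD],
  [DD, DD, DD, DD, DD, DD, DD, DD, DD, DD, DD, DD, DD, DD, DD, DD, DD, DD, DD, DD, DD, DD, DD, DD, DD, DD, DD, DD, DD, DD, DD, DD],
  [DD, DD, DD, DD, DD, DD, DD, DD, DD, DD, DD, DD, DD, DD, DD, DD, DD, DD, DD, DD, DD, DD, DD, DD, DD, DD, DD, DD, DD, DD, DD, DD],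
  [DD, DD, DD, DD, DD, DD, DD, DD, DD, DD, DD, DD, DD, DD, DD, DD, DD, DD, DD, DD, DD, DD, DD, DD, DD, DD, DD, DD, DD, DD, DD, DD],
  [DD, DD, DD, DD, DD, DD, DD, DD, DD, DD, DD, DD, DD, DD, DD, DD, DD, DD, DD, DD, DD, DD, DD, DD, DD, DD, DD, DD, DD, DD, DD, DD]]

def TB : List (List ℤ) := [
  [361674660, 357845040, 0, 0, 356725040, 334507320, 0, 0, 361734660, 357845040, 0, 0, 357845040, 334507320, 0, 0, 357845040, 334507320, 0, 0, 334507320, 0, 0, 0, 357845040, 334507320, 0, 0, 334507320, 0, 0, 0],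
  [DD, DD, DD, DD, DD, DD, DD, DD, DD, DD, DD, DD, DD, DD, DD, DD, DD, DD, DD, DD, DD, DD, DD, DD, DD, DD, DD, DD, DD, DD, DD, DD],
  [361605160, 357845040, 0, 0, 355493040, 334507320, 0, 0, 361734660, 357845040, 0, 0, 357845040, 334507320, 0, 0, 357845040, 334507320, 0, 0, 334507320, 0, 0, 0, 357845040, 334507320, 0, 0, 334507320, 0, 0, 0],
  [DD, DD, DD, DD, DD, DD, DD, DD, DD, DD, DD, DD, DD, DD, DD, DD, DD, DD, DD, DD, DD, DD, DD, DD, DD, DD, DD, DD, DD, DD, DD, DD],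
  [DD, DD, DD, DD, DD, DD, DD, DD, DD, DD, DD, DD, DD, DD, DD, DD, DD, DD, DD, DD, DD, DD, DD, DD, DD, DD, DD, DD, DD, DD, DD, DD],
  [DD, DD, DD, DD, DD, DD, DD, DD, DD, DD, DD, DD, DD, DD, DD, DD, DD, DD, DD, DD, DD, DD, DD, DD, DD, DD, DD, DD, DD, DD, DD, DD],
  [DD, DD, DD, DD, DD, DD, DD, DD, DD, DD, DD, DD, DD, DD, DD, DD, DD, DD, DD, DD, DD, DD, DD, DD, DD, DD, DD, DD, DD, DD, DD, DD],
  [DD, DD, DD, DD, DD, DD, DD, DD, DD, DD, DD, DD, DD, DD, DD, DD, DD, DD, DD, DD, DD, DD, DD, DD, DD, DD, DD, DD, DD, DD, DD, DD],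
  [DD, DD, DD, DD, DD, DD, DD, DD, DD, DD, DD, DD, DD, DD, DD, DD, DD, DD, DD, DD, DD, DD, DD, DD, DD, DD, DD, DD, DD, DD, DD, DD],
  [DD, DD, DD, DD, DD, DD, DD, DD, DD, DD, DD, DD, DD, DD, DD, DD, DD, DD, DD, DD, DD, DD, DD, DD, DD, DD, DD, DD, DD, DD, DD, DD],
  [DD, DD, DD, DD, DD, DD, DD, DD, DD, DD, DD, DD, DD, DD, DD, DD, DD, DD, DD, DD, DD, DD, DD, DD, DD, DD, DD, DD, DD, DD, DD, DD],
  [DD, DD, DD, DD, DD, DD, DD, DD, DD, DD, DD, DD, DD, DD, DD, DD, DD, DD, DD, DD, DD, DD, DD, DD, DD, DD, DD, DD, DD, DD, DD, DD],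
  [DD, DD, DD, DD, DD, DD, DD, DD, DD, DD, DD, DD, DD, DD, DD, DD, DD, DD, DD, DD, DD, DD, DD, DD, DD, DD, DD, DD, DD, DD, DD, DD],
  [DD, DD, DD, DD, DD, DD, DD, DD, DD, DD, DD, DD, DD, DD, DD, DD, DD, DD, DD, DD, DD, DD, DD, DD, DD, DD, DD, DD, DD, DD, DD, DD],
  [DD, DD, DD, DD, DD, DD, DD, DD, DD, DD, DD, DD, DD, DD, DD, DD, DD, DD, DD, DD, DD, DD, DD, DD, DD, DD, DD, DD, DD, DD, DD, DD],
  [DD, DD, DD, DD, DD, DD, DD, DD, DD, DD, DD, DD, DD, DD, DD, DD, DD, DD, DD, DD, DD, DD, DD, DD, DD, DD, DD, DD, DD, DD, DD, DD],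
  [361605160, 357845040, 0, 0, 355493040, 334507320, 0, 0, 361734660, 357845040, 0, 0, 357845040, 334507320, 0, 0, 357845040, 334507320, 0, 0, 334507320, 0, 0, 0, 357845040, 334507320, 0, 0, 334507320, 0, 0, 0],
  [DD, DD, DD, DD, DD, DD, DD, DD, DD, DD, DD, DD, DD, DD, DD, DD, DD, DD, DD, DD, DD, DD, DD, DD, DD, DD, DD, DD, DD, DD, DD, DD],
  [361308360, 357845040, 0, 0, 350436240, 334507320, 0, 0, 361308360, 357845040, 0, 0, 350436240, 334507320, 0, 0, 357845040, 334507320, 0, 0, 334507320, 0, 0, 0, 357845040, 334507320, 0, 0, 334507320, 0, 0, 0],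
  [DD, DD, DD, DD, DD, DD, DD, DD, DD, DD, DD, DD, DD, DD, DD, DD, DD, DD, DD, DD, DD, DD, DD, DD, DD, DD, DD, DD, DD, DD, DD, DD],
  [DD, DD, DD, DD, DD, DD, DD, DD, DD, DD, DD, DD, DD, DD, DD, DD, DD, DD, DD, DD, DD, DD, DD, DD, DD, DD, DD, DD, DD, DD, DD, DD],
  [DD, DD, DD, DD, DD, DD, DD, DD, DD, DD, DD, DD, DD, DD, DD, DD, DD, DD, DD, DD, DD, DD, DD, DD, DD, DD, DD, DD, DD, DD, DD, DD],
  [DD, DD, DD, DD, DD, DD, DD, DD, DD, DD, DD, DD, DD, DD, DD, DD, DD, DD, DD, DD, DD, DD, DD, DD, DD, DD, DD, DD, DD, DD, DD, DD],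
  [DD, DD, DD, DD, DD, DD, DD, DD, DD, DD, DD, DD, DD, DD, DD, DD, DD, DD, DD, DD, DD, DD, DD, DD, DD, DD, DD, DD, DD, DD, DD, DD],
  [DD, DD, DD, DD, DD, DD, DD, DD, DD, DD, DD, DD, DD, DD, DD, DD, DD, DD, DD, DD, DD, DD, DD, DD, DD, DD, DD, DD, DD, DD, DD, DD],
  [DD, DD, DD, DD, DD, DD, DD, DD, DD, DD, DD, DD, DD, DD, DD, DD, DD, DD, DD, DD, DD, DD, DD, DD, DD, DD, DD, DD, DD, DD, DD, DD],
  [DD, DD, DD, DD, DD, DD, DD, DD, DD, DD, DD, DD, DD, DD, DD, DD, DD, DD, DD, DD, DD, DD, DD, DD, DD, DD, DD, DD, DD, DD, DD, DD],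
  [DD, DD, DD, DD, DD, DD, DD, DD, DD, DD, DD, DD, DD, DD, DD, DD, DD, DD, DD, DD, DD, DD, DD, DD, DD, DD, DD, DD, DD, DD, DD, DD],
  [DD, DD, DD, DD, DD, DD, DD, DD, DD, DD, DD, DD, DD, DD, DD, DD, DD, DD, DD, DD, DD, DD, DD, DD, DD, DD, DD, DD, DD, DD, DD, DD],
  [DD, DD, DD, DD, DD, DD, DD, DD, DD, DD, DD, DD, DD, DD, DD, DD, DD, DD, DD, DD, DD, DD, DD, DD, DD, DD, DD, DD, DD, DD, DD, DD],
  [DD, DD, DD, DD, DD, DD, DD, DD, DD, DD, DD, DD, DD, DD, DD, DD, DD, DD, DD, DD, DD, DD, DD, DD, DD, DD, DD, DD, DD, DD, DD, DD],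
  [DD, DD, DD, DD, DD, DD, DD, DD, DD, DD, DD, DD, DD, DD, DD, DD, DD, DD, DD, DD, DD, DD, DD, DD, DD, DD, DD, DD, DD, DD, DD, DD]]

def TC : List (List ℤ) := [
  [350627750, 325755675, 0, 0, 345973600, 311169600, 0, 0, 0, 0, 0, 0, 0, 0, 0, 0, 325755675, 0, 0, 0, 311169600, 0, 0, 0, 0, 0, 0, 0, 0, 0, 0, 0],
  [355493040, 334507320, 357845040, 334507320, 355493040, 334507320, 357845040, 334507320, 0, 0, 0, 0, 0, 0, 0, 0, 334507320, 0, 334507320, 0, 334507320, 0, 334507320, 0, 0, 0, 0, 0, 0, 0, 0, 0],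
  [361605160, 357845040, 0, 0, 355493040, 334507320, 0, 0, 361734660, 357845040, 0, 0, 357845040, 334507320, 0, 0, 357845040, 334507320, 0, 0, 334507320, 0, 0, 0, 357845040, 334507320, 0, 0, 334507320, 0, 0, 0],
  [DD, DD, DD, DD, DD, DD, DD, DD, DD, DD, DD, DD, DD, DD, DD, DD, DD, DD, DD, DD, DD, DD, DD, DD, DD, DD, DD, DD, DD, DD, DD, DD],
  [356725040, 334507320, 357845040, 334507320, 356725040, 334507320, 357845040, 334507320, 0, 0, 0, 0, 0, 0, 0, 0, 334507320, 0, 334507320, 0, 334507320, 0, 334507320, 0, 0, 0, 0, 0, 0, 0, 0, 0],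
  [355493040, 334507320, 357845040, 334507320, 355493040, 334507320, 357845040, 334507320, 0, 0, 0, 0, 0, 0, 0, 0, 334507320, 0, 334507320, 0, 334507320, 0, 334507320, 0, 0, 0, 0, 0, 0, 0, 0, 0],
  [DD, DD, DD, DD, DD, DD, DD, DD, DD, DD, DD, DD, DD, DD, DD, DD, DD, DD, DD, DD, DD, DD, DD, DD, DD, DD, DD, DD, DD, DD, DD, DD],
  [DD, DD, DD, DD, DD, DD, DD, DD, DD, DD, DD, DD, DD, DD, DD, DD, DD, DD, DD, DD, DD, DD, DD, DD, DD, DD, DD, DD, DD, DD, DD, DD],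
  [355493040, 334507320, 357845040, 334507320, 355493040, 334507320, 357845040, 334507320, 0, 0, 0, 0, 0, 0, 0, 0, 334507320, 0, 334507320, 0, 334507320, 0, 334507320, 0, 0, 0, 0, 0, 0, 0, 0, 0],
  [350436240, 334507320, 350436240, 334507320, 350436240, 334507320, 350436240, 334507320, 0, 0, 0, 0, 0, 0, 0, 0, 334507320, 0, 334507320, 0, 334507320, 0, 334507320, 0, 0, 0, 0, 0, 0, 0, 0, 0],
  [DD, DD, DD, DD, DD, DD, DD, DD, DD, DD, DD, DD, DD, DD, DD, DD, DD, DD, DD, DD, DD, DD, DD, DD, DD, DD, DD, DD, DD, DD, DD, DD],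
  [DD, DD, DD, DD, DD, DD, DD, DD, DD, DD, DD, DD, DD, DD, DD, DD, DD, DD, DD, DD, DD, DD, DD, DD, DD, DD, DD, DD, DD, DD, DD, DD],
  [355493040, 334507320, 357845040, 334507320, 355493040, 334507320, 357845040, 334507320, 0, 0, 0, 0, 0, 0, 0, 0, 334507320, 0, 334507320, 0, 334507320, 0, 334507320, 0, 0, 0, 0, 0, 0, 0, 0, 0],
  [350436240, 334507320, 350436240, 334507320, 350436240, 334507320, 350436240, 334507320, 0, 0, 0, 0, 0, 0, 0, 0, 334507320, 0, 334507320, 0, 334507320, 0, 334507320, 0, 0, 0, 0, 0, 0, 0, 0, 0],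
  [DD, DD, DD, DD, DD, DD, DD, DD, DD, DD, DD, DD, DD, DD, DD, DD, DD, DD, DD, DD, DD, DD, DD, DD, DD, DD, DD, DD, DD, DD, DD, DD],
  [DD, DD, DD, DD, DD, DD, DD, DD, DD, DD, DD, DD, DD, DD, DD, DD, DD, DD, DD, DD, DD, DD, DD, DD, DD, DD, DD, DD, DD, DD, DD, DD],
  [361605160, 357845040, 0, 0, 355493040, 334507320, 0, 0, 361734660, 357845040, 0, 0, 357845040, 334507320, 0, 0, 357845040, 334507320, 0, 0, 334507320, 0, 0, 0, 357845040, 334507320, 0, 0, 334507320, 0, 0, 0],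
  [DD, DD, DD, DD, DD, DD, DD, DD, DD, DD, DD, DD, DD, DD, DD, DD, DD, DD, DD, DD, DD, DD, DD, DD, DD, DD, DD, DD, DD, DD, DD, DD],
  [361308360, 357845040, 0, 0, 350436240, 334507320, 0, 0, 361308360, 357845040, 0, 0, 350436240, 334507320, 0, 0, 357845040, 334507320, 0, 0, 334507320, 0, 0, 0, 357845040, 334507320, 0, 0, 334507320, 0, 0, 0],
  [DD, DD, DD, DD, DD, DD, DD, DD, DD, DD, DD, DD, DD, DD, DD, DD, DD, DD, DD, DD, DD, DD, DD, DD, DD, DD, DD, DD, DD, DD, DD, DD],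
  [DD, DD, DD, DD, DD, DD, DD, DD, DD, DD, DD, DD, DD, DD, DD, DD, DD, DD, DD, DD, DD, DD, DD, DD, DD, DD, DD, DD, DD, DD, DD, DD],
  [DD, DD, DD, DD, DD, DD, DD, DD, DD, DD, DD, DD, DD, DD, DD, DD, DD, DD, DD, DD, DD, DD, DD, DD, DD, DD, DD, DD, DD, DD, DD, DD],
  [DD, DD, DD, DD, DD, DD, DD, DD, DD, DD, DD, DD, DD, DD, DD, DD, DD, DD, DD, DD, DD, DD, DD, DD, DD, DD, DD, DD, DD, DD, DD, DD],
  [DD, DD, DD, DD, DD, DD, DD, DD, DD, DD, DD, DD, DD, DD, DD, DD, DD, DD, DD, DD, DD, DD, DD, DD, DD, DD, DD, DD, DD, DD, DD, DD],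
  [DD, DD, DD, DD, DD, DD, DD, DD, DD, DD, DD, DD, DD, DD, DD, DD, DD, DD, DD, DD, DD, DD, DD, DD, DD, DD, DD, DD, DD, DD, DD, DD],
  [DD, DD, DD, DD, DD, DD, DD, DD, DD, DD, DD, DD, DD, DD, DD, DD, DD, DD, DD, DD, DD, DD, DD, DD, DD, DD, DD, DD, DD, DD, DD, DD],
  [DD, DD, DD, DD, DD, DD, DD, DD, DD, DD, DD, DD, DD, DD, DD, DD, DD, DD, DD, DD, DD, DD, DD, DD, DD, DD, DD, DD, DD, DD, DD, DD],
  [DD, DD, DD, DD, DD, DD, DD, DD, DD, DD, DD, DD, DD, DD, DD, DD, DD, DD, DD, DD, DD, DD, DD, DD, DD, DD, DD, DD, DD, DD, DD, DD],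
  [DD, DD, DD, DD, DD, DD, DD, DD, DD, DD, DD, DD, DD, DD, DD, DD, DD, DD, DD, DD, DD, DD, DD, DD, DD, DD, DD, DD, DD, DD, DD, DD],
  [DD, DD, DD, DD, DD, DD, DD, DD, DD, DD, DD, DD, DD, DD, DD, DD, DD, DD, DD, DD, DD, DD, DD, DD, DD, DD, DD, DD, DD, DD, DD, DD],
  [DD, DD, DD, DD, DD, DD, DD, DD, DD, DD, DD, DD, DD, DD, DD, DD, DD, DD, DD, DD, DD, DD, DD, DD, DD, DD, DD, DD, DD, DD, DD, DD],
  [DD, DD, DD, DD, DD, DD, DD, DD, DD, DD, DD, DD, DD, DD, DD, DD, DD, DD, DD, DD, DD, DD, DD, DD, DD, DD, DD, DD, DD, DD, DD, DD]]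

def look (T : List (List ℤ)) (f o : Finset (Fin 5)) : ℤ := (T.getD (enc o) []).getD (enc f) 0

def OK (T : List (List ℤ)) (A : Finset (Finset (Fin 5))) : Prop :=
  ∀ f o : Finset (Fin 5), if openable E5 f o = ∅ ∧ fz f o = ∅ then
      look T f o = if o ∈ A then DD else 0
    else look T f o * (20 * (openable E5 f o).card + (fz f o).card)
      = 20 * ∑ e ∈ openable E5 f o, look T f (insert e o) + ∑ C ∈ fz f o, look T (f ∪ C) o

instance (T : List (List ℤ)) (A : Finset (Finset (Fin 5))) : Decidable (OK T A) := by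
  unfold OK; infer_instance

def evA : Finset (Finset (Fin 5)) := univ.filter fun o => 1 ∈ o ∨ 4 ∈ o
def evB : Finset (Finset (Fin 5)) := univ.filter fun o => 0 ∈ o ∨ 2 ∈ o ∨ 3 ∈ o

lemma okA : OK TA evA := by decide +kernel
lemma okB : OK TB evB := by decide +kernel
lemma okC : OK TC (evA ∩ evB) := by decide +kernel

lemma law_eq {T : List (List ℤ)} {A : Finset (Finset (Fin 5))} (h : OK T A) (k : ℕ) :
    ∀ f o : Finset (Fin 5), 10 ≤ k + f.card + o.card →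
      (DD : ℝ) * ∑ ω ∈ A, law E5 (1 / 20) k f o ω = look T f o := by
  have base : ∀ f o : Finset (Fin 5), openable E5 f o = ∅ ∧ fz f o = ∅ →
      (DD : ℝ) * ∑ ω ∈ A, (if o = ω then (1 : ℝ) else 0) = look T f o := by
    intro f o h0
    have := h f o
    rw [if_pos h0] at this
    rw [this, Finset.sum_ite_eq]
    split_ifs <;> simp
  induction k with
  | zero =>
    intro f o hk
    have h1 := card_le_univ f
    have h2 := card_le_univ o
    simp only [Fintype.card_fin] at h1 h2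
    have hf : f = univ := eq_univ_of_card _ (by simp; omega)
    have ho : o = univ := eq_univ_of_card _ (by simp; omega)
    simp only [law]
    apply base
    subst hf ho
    constructor
    · simp [openable]
    · simp [fz]
  | succ k ih =>
    intro f o hk
    simp only [law, freezable_eq]
    by_cases h0 : openable E5 f o = ∅ ∧ fz f o = ∅
    · simp only [if_pos h0]
      exact base f o h0
    · simp only [if_neg h0]
      have h1 := h f o
      rw [if_neg h0] at h1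
      have h2 : (look T f o : ℝ) * (20 * (openable E5 f o).card + (fz f o).card)
          = 20 * ∑ e ∈ openable E5 f o, (look T f (insert e o) : ℝ)
            + ∑ C ∈ fz f o, (look T (f ∪ C) o : ℝ) := by exact_mod_cast h1
      have e1 : ∑ e ∈ openable E5 f o, (look T f (insert e o) : ℝ)
          = DD * ∑ e ∈ openable E5 f o, ∑ ω ∈ A, law E5 (1 / 20) k f (insert e o) ω := by
        rw [mul_sum]
        refine sum_congr rfl fun e he => (ih _ _ ?_).symm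
        have : e ∉ o := by
          simp only [openable, mem_filter] at he; exact he.2.1
        rw [card_insert_of_notMem this]; omega
      have e2 : ∑ C ∈ fz f o, (look T (f ∪ C) o : ℝ)
          = DD * ∑ C ∈ fz f o, ∑ ω ∈ A, law E5 (1 / 20) k (f ∪ C) o ω := by
        rw [mul_sum]
        refine sum_congr rfl fun C hC => (ih _ _ ?_).symm
        have h3 : ¬ C ⊆ f := by
          simp only [fz, mem_filter] at hC; exact hC.2
        have : f ⊂ f ∪ C := ⟨subset_union_left, fun h4 => h3 (subset_union_right.trans h4)⟩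
        have := card_lt_card this
        omega
      have hpos : (0 : ℝ) < (openable E5 f o).card + 1 / 20 * (fz f o).card := by
        have : 0 < (openable E5 f o).card + (fz f o).card := by
          by_contra hn
          apply h0
          constructor <;> apply card_eq_zero.mp <;> omega
        rcases Nat.add_pos_iff_pos_or_pos.mp this with h5 | h5
        · have : (0 : ℝ) < (openable E5 f o).card := by exact_mod_cast h5
          positivity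
        · have : (0 : ℝ) < (fz f o).card := by exact_mod_cast h5
          positivity
      rw [← sum_div, sum_add_distrib, ← mul_sum, sum_comm, sum_comm (s := A), ← mul_div_assoc,
        div_eq_iff hpos.ne']
      rw [e1, e2] at h2
      linarith

theorem main : ∃ (n m : ℕ) (ends : Fin m → Fin n × Fin n) (α : ℝ),
    (∀ e, (ends e).1 ≠ (ends e).2) ∧ Function.Injective (fun e => s((ends e).1, (ends e).2)) ∧
    0 < α ∧ ∃ A B : Finset (Finset (Fin m)), IsUpperSet (A : Set (Finset (Fin m))) ∧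
      IsUpperSet (B : Set (Finset (Fin m))) ∧
      ∑ ω ∈ A ∩ B, mu ends α ω < (∑ ω ∈ A, mu ends α ω) * ∑ ω ∈ B, mu ends α ω := by
  refine ⟨5, 5, E5, 1 / 20, by decide, by decide, by norm_num, evA, evB, ?_, ?_, ?_⟩
  · intro a b hab ha
    simp only [evA, coe_filter, mem_univ, true_and, Set.mem_setOf_eq] at ha ⊢
    exact ha.imp (fun h => hab h) fun h => hab h
  · intro a b hab ha
    simp only [evB, coe_filter, mem_univ, true_and, Set.mem_setOf_eq] at ha ⊢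
    exact ha.imp (fun h => hab h) fun h => h.imp (fun h => hab h) fun h => hab h
  · have a := law_eq okA 10 ∅ ∅ (by simp)
    have b := law_eq okB 10 ∅ ∅ (by simp)
    have c := law_eq okC 10 ∅ ∅ (by simp)
    have a1 : look TA ∅ ∅ = 356725040 := by decide +kernel
    have b1 : look TB ∅ ∅ = 361674660 := by decide +kernel
    have c1 : look TC ∅ ∅ = 350627750 := by decide +kernel
    rw [a1] at a; rw [b1] at b; rw [c1] at c
    simp only [DD] at a b c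
    simp only [mu, show 5 + 5 = 10 from rfl]
    push_cast at a b c
    generalize ∑ ω ∈ evA, law E5 (1 / 20) 10 ∅ ∅ ω = x at a
    generalize ∑ ω ∈ evB, law E5 (1 / 20) 10 ∅ ∅ ω = y at b
    generalize ∑ ω ∈ evA ∩ evB, law E5 (1 / 20) 10 ∅ ∅ ω = z at c
    have hx : x = 356725040 / 367958052 := by linarith
    have hy : y = 361674660 / 367958052 := by linarith
    have hz : z = 350627750 / 367958052 := by linarith
    rw [hx, hy, hz]; norm_num

end Pool.Agent.H80.PCF
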