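import Mathlib

namespace Pool.Agent.H80.PCF

open Finset Classical

variable {n m : ℕ}

noncomputable def cluster (ends : Fin m → Fin n × Fin n) (o : Finset (Fin m)) (v : Fin n) :
    Finset (Fin n) :=
  univ.filter fun w =>
    Relation.ReflTransGen (fun a b => ∃ e ∈ o, ends e = (a, b) ∨ ends e = (b, a)) v w

def openable (ends : Fin m → Fin n × Fin n) (f : Finset (Fin n)) (o : Finset (Fin m)) :
    Finset (Fin m) :=
  univ.filter fun e => e ∉ o ∧ (ends e).1 ∉ f ∧ (ends e).2 ∉ f

noncomputable def freezable (ends : Fin m → Fin n × Fin n) (f : Finset (Fin n))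
    (o : Finset (Fin m)) : Finset (Finset (Fin n)) :=
  (univ.image (cluster ends o)).filter fun C => ¬ C ⊆ f

noncomputable def law (ends : Fin m → Fin n × Fin n) (α : ℝ) :
    ℕ → Finset (Fin n) → Finset (Fin m) → Finset (Fin m) → ℝ
  | 0, _, o, ω => if o = ω then 1 else 0
  | k + 1, f, o, ω =>
    if openable ends f o = ∅ ∧ freezable ends f o = ∅ then (if o = ω then 1 else 0) else
      (∑ e ∈ openable ends f o, law ends α k f (insert e o) ω
        + α * ∑ C ∈ freezable ends f o, law ends α k (f ∪ C) o ω)
      / ((openable ends f o).card + α * (freezable ends f o).card)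

noncomputable def mu (ends : Fin m → Fin n × Fin n) (α : ℝ) (ω : Finset (Fin m)) : ℝ :=
  law ends α (n + m) ∅ ∅ ω

end Pool.Agent.H80.PCF
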