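import Pool.Agent.H80.SR2

namespace Pool.Agent.H80.PD

open Polynomial Pool.Agent.H80.SR

noncomputable def toP : List ℤ → ℝ[X]
  | [] => 0
  | c :: L => C (c : ℝ) + X * toP L

def add : List ℤ → List ℤ → List ℤ
  | [], M => M
  | a :: L, [] => a :: L
  | a :: L, b :: M => (a + b) :: add L M

lemma toP_add (L M : List ℤ) : toP (add L M) = toP L + toP M := by
  induction L generalizing M with
  | nil => simp [add, toP]
  | cons a L ih =>
    cases M with
    | nil => simp [add, toP]
    | cons b M => simp only [add, toP, ih, Int.cast_add, C_add]; ring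

lemma toP_smul (a : ℤ) (L : List ℤ) : toP (L.map (a * ·)) = C (a : ℝ) * toP L := by
  induction L with
  | nil => simp [toP]
  | cons c L ih => simp only [List.map_cons, toP, ih, Int.cast_mul, C_mul]; ring

def mulLin (a : ℤ) (L : List ℤ) : List ℤ := add (0 :: L) (L.map (a * ·))

lemma toP_mulLin (a : ℤ) (L : List ℤ) : toP (mulLin a L) = (X + C (a : ℝ)) * toP L := by
  simp only [mulLin, toP_add, toP_smul, toP, Int.cast_zero, C_0]; ring

def shift (a : ℤ) : List ℤ → List ℤ
  | [] => []
  | c :: L => fL (shift a L) fun R => add [c] (mulLin a R)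

lemma toP_shift (a : ℤ) (L : List ℤ) : toP (shift a L) = (toP L).comp (X + C (a : ℝ)) := by
  induction L with
  | nil => simp [shift, toP]
  | cons c L ih => simp [shift, fL_eq, toP_add, toP_mulLin, toP, ih]

def derA : ℤ → List ℤ → List ℤ
  | _, [] => []
  | k, c :: L => (k * c) :: derA (k + 1) L

lemma toP_derA (k : ℤ) (L : List ℤ) :
    toP (derA k L) = C (k : ℝ) * toP L + X * derivative (toP L) := by
  induction L generalizing k with
  | nil => simp [derA, toP]
  | cons c L ih =>
    simp only [derA, toP, ih, Int.cast_mul, Int.cast_add, Int.cast_one, C_mul, C_add, C_1,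
      derivative_add, derivative_C, derivative_mul, derivative_X]
    ring

def der : List ℤ → List ℤ
  | [] => []
  | _ :: L => derA 1 L

lemma toP_der (L : List ℤ) : toP (der L) = derivative (toP L) := by
  cases L with
  | nil => simp [der, toP]
  | cons c L => simp [der, toP, toP_derA]

def absum (h : ℤ) : List ℤ → ℤ
  | [] => 0
  | c :: L => |c| + h * absum h L

lemma abs_le_absum {h : ℤ} {t : ℝ} (ht : |t| ≤ h) (L : List ℤ) :
    |eval t (toP L)| ≤ absum h L := by
  induction L with
  | nil => simp [toP, absum]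
  | cons c L ih =>
    simp only [toP, absum, eval_add, eval_C, eval_mul, eval_X, Int.cast_add, Int.cast_mul,
      Int.cast_abs]
    refine (abs_add_le _ _).trans ?_
    rw [abs_mul]
    have := mul_le_mul ht ih (abs_nonneg _) ((abs_nonneg t).trans ht)
    linarith

def evI (x : ℤ) : List ℤ → ℤ
  | [] => 0
  | c :: L => c + x * evI x L

lemma evI_eq (x : ℤ) (L : List ℤ) : (evI x L : ℝ) = eval (x : ℝ) (toP L) := by
  induction L with
  | nil => simp [toP, evI]
  | cons c L ih => simp [toP, evI, ih]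

def loop (S h : ℤ) : ℕ → List ℤ → List ℤ → Bool
  | 0, _, _ => true
  | n + 1, D, E => decide (absum h D ≤ evI S E) &&
      fL (der D) fun D' => fL (der E) fun E' => loop S h n D' E'

lemma loop_sound {S h : ℤ} {t : ℝ} (ht : |t| ≤ h) (n : ℕ) (D E : List ℤ)
    (H : loop S h n D E = true) (k : ℕ) (hk : k < n) :
    |eval t (derivative^[k] (toP D))| ≤ eval (S : ℝ) (derivative^[k] (toP E)) := by
  induction n generalizing D E k with
  | zero => omega
  | succ n ih =>
    simp only [loop, fL_eq, Bool.and_eq_true, decide_eq_true_eq] at H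
    cases k with
    | zero =>
      have h1 : (absum h D : ℝ) ≤ evI S E := by exact_mod_cast H.1
      rw [evI_eq] at h1
      exact (abs_le_absum ht D).trans h1
    | succ k =>
      rw [Function.iterate_succ_apply, Function.iterate_succ_apply, ← toP_der, ← toP_der]
      exact ih _ _ H.2 k (by omega)

lemma iter_comp (p : ℝ[X]) (a : ℝ) (k : ℕ) :
    derivative^[k] (p.comp (X + C a)) = (derivative^[k] p).comp (X + C a) := by
  induction k generalizing p with
  | zero => rfl
  | succ k ih =>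
    rw [Function.iterate_succ_apply, Function.iterate_succ_apply, ← ih, derivative_comp]
    simp

def cover (S : ℤ) (n : ℕ) (L : List ℤ) : ℤ → List (ℤ × ℤ) → Bool
  | lo, [] => decide (S ≤ lo)
  | lo, p :: r => decide (p.1 - p.2 ≤ lo) && (fL (shift p.1 L) fun D => loop S p.2 n D L) &&
      cover S n L (p.1 + p.2) r

lemma cover_sound {S : ℤ} {n : ℕ} {L : List ℤ} (lo : ℤ) (r : List (ℤ × ℤ))
    (H : cover S n L lo r = true) (t : ℝ) (h1 : (lo : ℝ) ≤ t) (h2 : t < S) (k : ℕ) (hk : k < n) :
    |eval t (derivative^[k] (toP L))| ≤ eval (S : ℝ) (derivative^[k] (toP L)) := by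
  induction r generalizing lo with
  | nil =>
    simp only [cover, decide_eq_true_eq] at H
    have : (S : ℝ) ≤ lo := by exact_mod_cast H
    linarith
  | cons p r ih =>
    simp only [cover, fL_eq, Bool.and_eq_true, decide_eq_true_eq] at H
    by_cases ht : ((p.1 + p.2 : ℤ) : ℝ) ≤ t
    · exact ih _ H.2 ht
    · have a1 : ((p.1 - p.2 : ℤ) : ℝ) ≤ lo := by exact_mod_cast H.1.1
      push_cast at ht a1
      have a2 : |t - p.1| ≤ (p.2 : ℤ) := by rw [abs_le]; constructor <;> linarith
      have := loop_sound a2 n _ _ H.1.2 k hk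
      rw [toP_shift, iter_comp, eval_comp] at this
      simpa using this

def prodL : List ℤ → List ℤ
  | [] => [1]
  | z :: Z => fL (prodL Z) fun R => mulLin (-z) R

lemma toP_prodL (Z : List ℤ) : toP (prodL Z) = (Z.map fun z : ℤ => X - C (z : ℝ)).prod := by
  induction Z with
  | nil => simp [prodL, toP]
  | cons z Z ih => simp [prodL, fL_eq, toP_mulLin, ih, sub_eq_add_neg]

lemma iter_scale (p : ℝ[X]) (c s : ℝ) (k : ℕ) :
    derivative^[k] (C c * p.comp (C s * X)) = C (c * s ^ k) * (derivative^[k] p).comp (C s * X) := by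
  induction k with
  | zero => simp
  | succ k ih =>
    rw [Function.iterate_succ_apply', Function.iterate_succ_apply', ih, derivative_mul,
      derivative_comp]
    simp only [derivative_C, zero_mul, zero_add, derivative_mul, derivative_X, mul_one, pow_succ,
      C_mul]
    ring

lemma prod_scale (Z : List ℤ) (s : ℝ) (hs : s ≠ 0) :
    (Z.map fun z : ℤ => X - C ((z : ℝ) / s)).prod
      = C ((1 / s) ^ Z.length) * (toP (prodL Z)).comp (C s * X) := by
  rw [toP_prodL]
  induction Z with
  | nil => simp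
  | cons z Z ih =>
    simp only [List.map_cons, List.prod_cons, ih, List.length_cons, mul_comp, sub_comp, X_comp,
      C_comp, pow_succ, C_mul]
    have : (X - C ((z : ℝ) / s) : ℝ[X]) = C (1 / s) * (C s * X - C (z : ℝ)) := by
      rw [mul_sub, ← mul_assoc, ← C_mul, ← C_mul, one_div_mul_cancel hs, C_1, one_mul]
      congr 2; ring
    rw [this]; ring

def Z0 : List ℤ := [-8005, -7995, -7985, -7975, -7965, -7955, -7945, -7935, -7925, -7915, -7905,
  -7895, -7885, -7875, -7865, -2367, -762, 762, 2367, 7865, 7875, 7885, 7895, 7905, 7915, 7925,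
  7935, 7945, 7955, 7965, 7975, 7985, 7995, 8005]

def cv : List (ℤ × ℤ) := [(-8005, 1995), (-5266, 1321), (-3708, 237), (-3317, 154), (-3019, 144),
  (-2506, 369), (-1950, 187), (-1694, 69), (-1591, 34), (-1523, 34), (-1441, 48), (-1280, 113),
  (-748, 419), (-229, 100), (-86, 43), (0, 43), (86, 43), (229, 100), (748, 419), (1280, 113),
  (1441, 48), (1523, 34), (1591, 34), (1694, 69), (1950, 187), (2506, 369), (3019, 144),
  (3317, 154), (3708, 237), (5266, 1321), (8005, 1995)]

lemma cert : (fL (prodL Z0) fun L => cover 10000 35 L (-10000) cv) = true := by decide +kernel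

def zz (j : Fin 34) : ℤ := Z0.getD j 0

noncomputable def xx (j : Fin 34) : ℝ := (zz j : ℝ) / 10000

lemma prod_xx {M : Type} [CommMonoid M] (f : ℤ → M) : ∏ j, f (zz j) = (Z0.map f).prod := by
  simp [Fin.prod_univ_succ, zz, Z0]

lemma condA (k : ℕ) (hk : k ≤ 34) (t : ℝ) (ht : t ∈ Set.Ioo (-1 : ℝ) 1) :
    |eval t (derivative^[k] (∏ j, (X - C (xx j))))|
      ≤ eval 1 (derivative^[k] (∏ j, (X - C (xx j)))) := by
  have e : ∏ j, (X - C (xx j)) = C ((1 / 10000 : ℝ) ^ Z0.length) *
      (toP (prodL Z0)).comp (C 10000 * X) := by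
    rw [← prod_scale Z0 10000 (by norm_num)]
    exact prod_xx fun z : ℤ => X - C ((z : ℝ) / 10000)
  have hc := cert
  rw [fL_eq] at hc
  have := cover_sound _ _ hc (10000 * t) (by push_cast; linarith [ht.1])
    (by push_cast; linarith [ht.2]) k (by omega)
  rw [e, iter_scale]
  simp only [eval_mul, eval_C, eval_comp, eval_X, mul_one, abs_mul]
  have h0 : (0 : ℝ) ≤ (1 / 10000) ^ Z0.length * 10000 ^ k := by positivity
  rw [← abs_mul, abs_of_nonneg h0]
  refine mul_le_mul_of_nonneg_left ?_ h0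
  simpa using this

lemma norm_sq (a y : ℝ) : ‖aeval ((a : ℂ) + y * Complex.I) (∏ j, (X - C (xx j)))‖ ^ 2
    = ∏ j, ((a - xx j) ^ 2 + y ^ 2) := by
  rw [map_prod, norm_prod, ← Finset.prod_pow]
  refine Finset.prod_congr rfl fun j _ => ?_
  rw [← Complex.normSq_eq_norm_sq, Complex.normSq_apply]
  simp; ring

lemma notD : ‖aeval (((1 : ℝ) : ℂ) + (1 / 20 : ℝ) * Complex.I) (∏ j, (X - C (xx j)))‖
    < ‖aeval (((0 : ℝ) : ℂ) + (1 / 20 : ℝ) * Complex.I) (∏ j, (X - C (xx j)))‖ := by
  apply lt_of_pow_lt_pow_left₀ 2 (norm_nonneg _)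
  rw [norm_sq, norm_sq]
  have e1 := prod_xx fun z : ℤ => ((1 : ℝ) - z / 10000) ^ 2 + (1 / 20) ^ 2
  have e2 := prod_xx fun z : ℤ => ((0 : ℝ) - z / 10000) ^ 2 + (1 / 20) ^ 2
  simp only [xx]
  rw [e1, e2]
  simp only [Z0, List.map_cons, List.map_nil, List.prod_cons, List.prod_nil]
  norm_num

theorem main : ∃ (n : ℕ) (x : Fin n → ℝ), 1 ≤ n ∧ StrictMono x ∧ (∀ j, x j ∈ Set.Icc (-1 : ℝ) 1) ∧
    (∀ j, x j = -x (Fin.rev j)) ∧
    (∀ k ≤ n, ∀ t ∈ Set.Ioo (-1 : ℝ) 1, |eval t (derivative^[k] (∏ j, (X - C (x j))))|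
      ≤ eval 1 (derivative^[k] (∏ j, (X - C (x j))))) ∧
    ∃ a ∈ Set.Icc (-1 : ℝ) 1, ∃ y : ℝ,
      ‖aeval ((1 : ℂ) + y * Complex.I) (∏ j, (X - C (x j)))‖
        < ‖aeval ((a : ℂ) + y * Complex.I) (∏ j, (X - C (x j)))‖ := by
  refine ⟨34, xx, by norm_num, ?_, ?_, ?_, condA, 0, by norm_num, 1 / 20, by simpa using notD⟩
  · have : ∀ i j : Fin 34, i < j → zz i < zz j := by decide +kernel
    intro i j h
    have h1 : (zz i : ℝ) < zz j := by exact_mod_cast this i j h
    simp only [xx]; linarith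
  · have : ∀ i : Fin 34, -10000 ≤ zz i ∧ zz i ≤ 10000 := by decide +kernel
    intro j
    have h1 : (-10000 : ℝ) ≤ zz j := by exact_mod_cast (this j).1
    have h2 : (zz j : ℝ) ≤ 10000 := by exact_mod_cast (this j).2
    simp only [xx]; constructor <;> linarith
  · have : ∀ i : Fin 34, zz i = -zz (Fin.rev i) := by decide +kernel
    intro j
    have h1 : (zz j : ℝ) = -zz (Fin.rev j) := by exact_mod_cast this j
    simp only [xx]; rw [h1]; ring

end Pool.Agent.H80.PD
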