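import Mathlib

namespace Pool.Agent.H80.PermId

/-- The ideal generated by the permanents of all `t × t` submatrices of `X`. -/
def permIdeal {R : Type} [CommRing R] {m n : ℕ} (t : ℕ) (X : Matrix (Fin m) (Fin n) R) : Ideal R :=
  Ideal.span {p | ∃ (f : Fin t ↪o Fin m) (g : Fin t ↪o Fin n), p = (X.submatrix f g).permanent}

/-- The generic `m × n` matrix of indeterminates. -/
noncomputable def generic (k : Type) [Field k] (m n : ℕ) :
    Matrix (Fin m) (Fin n) (MvPolynomial (Fin m × Fin n) k) := fun i j => MvPolynomial.X (i, j)

/-- The generic symmetric `n × n` matrix of indeterminates. -/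
noncomputable def symmetric (k : Type) [Field k] (n : ℕ) :
    Matrix (Fin n) (Fin n) (MvPolynomial (Sym2 (Fin n)) k) := fun i j => MvPolynomial.X s(i, j)

end Pool.Agent.H80.PermId
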