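import Mathlib
import Pool.Agent.H80.PermIdDefs

namespace Pool.Agent.H80.PermId
open Matrix Equiv Finset

section
variable {R : Type} [CommRing R]

lemma perm_update {n : Type} [Fintype n] [DecidableEq n] (W : Matrix n n R) (i : n) (v : n → R) :
    (W.updateCol i v).permanent = ∑ σ : Perm n, v (σ i) * ∏ j ∈ univ.erase i, W (σ j) j := by
  refine sum_congr rfl fun σ _ => ?_
  rw [← mul_prod_erase _ _ (mem_univ i), updateCol_self]
  congr 1
  exact prod_congr rfl fun j hj => by rw [updateCol_ne (ne_of_mem_erase hj)]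

lemma perm_lin {n : Type} [Fintype n] [DecidableEq n] (W : Matrix n n R) (i : n) (v : n → R) :
    (W.updateCol i v).permanent = ∑ k, (W.updateCol i (Pi.single k 1)).permanent * v k := by
  simp only [perm_update, sum_mul]
  rw [sum_comm]
  refine sum_congr rfl fun σ _ => ?_
  rw [sum_eq_single (σ i)]
  · simp [mul_comm]
  · intro k _ hk
    simp [Pi.single_eq_of_ne hk.symm]
  · simp

lemma perm_map {S : Type} [CommRing S] {n : Type} [Fintype n] [DecidableEq n] (φ : R →+* S)
    (W : Matrix n n R) : φ W.permanent = (W.map φ).permanent := by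
  simp [permanent]

/-- the arrowhead matrix -/
def arrow (R : Type) [CommRing R] (s : ℕ) : Matrix (Fin (s + 1)) (Fin (s + 1)) R := fun i j =>
  if i = 0 then (if j = 0 then -(s : R) else 1) else if j = 0 ∨ i = j then 1 else 0

lemma arrow_symm (s : ℕ) (i j) : arrow R s i j = arrow R s j i := by
  unfold arrow
  by_cases hi : i = 0 <;> by_cases hj : j = 0 <;> simp [hi, hj, eq_comm]

/-- permanent of a matrix whose columns outside `{a, b}` are those of the identity -/
lemma perm_two {n : Type} [Fintype n] [DecidableEq n] (M : Matrix n n R) {a b : n} (hab : a ≠ b)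
    (h : ∀ j, j ≠ a → j ≠ b → ∀ i, M i j = if i = j then 1 else 0) :
    M.permanent = M a a * M b b + M b a * M a b := by
  have key : ∀ σ : Perm n, (∀ j, j ≠ a → j ≠ b → σ j = j) →
      ∏ j, M (σ j) j = M (σ a) a * M (σ b) b := fun σ hσ => by
    rw [← prod_subset (subset_univ {a, b}), prod_pair hab]
    intro j _ hj
    simp only [mem_insert, mem_singleton, not_or] at hj
    rw [h j hj.1 hj.2, if_pos (hσ j hj.1 hj.2)]
  rw [permanent, sum_eq_add_of_mem (1 : Perm n) (swap a b) (mem_univ _) (mem_univ _)
    (by simpa [eq_comm] using hab)]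
  · rw [key 1 (by simp), key (swap a b) fun j => swap_apply_of_ne_of_ne]
    simp
  · intro σ _ hσ
    by_contra h0
    have h1 : ∀ j, j ≠ a → j ≠ b → σ j = j := fun j h1 h2 => by
      by_contra h3
      exact h0 (prod_eq_zero (mem_univ j) (by rw [h j h1 h2, if_neg h3]))
    have h2 : ∀ c, σ c = a ∨ σ c = b ∨ σ c = c := fun c => by
      by_cases h3 : σ c = a
      · exact Or.inl h3
      by_cases h4 : σ c = b
      · exact Or.inr (Or.inl h4)
      · exact Or.inr (Or.inr (σ.injective (h1 _ h3 h4)))
    have h5 : σ a ≠ σ b := σ.injective.ne hab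
    by_cases h3 : σ a = a
    · refine hσ.1 (Equiv.ext fun j => ?_)
      by_cases hj : j = a
      · rw [hj, h3]; rfl
      by_cases hj' : j = b
      · rcases h2 b with h | h | h
        · exact absurd (h3.trans h.symm) h5
        · rw [hj', h]; rfl
        · rw [hj', h]; rfl
      · exact h1 j hj hj'
    · have h4 : σ a = b := by rcases h2 a with h | h | h <;> simp_all
      refine hσ.2 (Equiv.ext fun j => ?_)
      by_cases hj : j = a
      · rw [hj, h4, swap_apply_left]
      by_cases hj' : j = b
      · rcases h2 b with h | h | h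
        · rw [hj', h, swap_apply_right]
        · exact absurd (h4.trans h.symm) h5
        · exact absurd (h4.trans h.symm) h5
      · rw [h1 j hj hj', swap_apply_of_ne_of_ne hj hj']

lemma perm_two' {n : Type} [Fintype n] [DecidableEq n] (M : Matrix n n R) {a b : n} (hab : a ≠ b)
    (h : ∀ j, j ≠ a → j ≠ b → ∀ i, M j i = if i = j then 1 else 0) :
    M.permanent = M a a * M b b + M a b * M b a := by
  rw [← permanent_transpose, perm_two Mᵀ hab h]; rfl

lemma perm_col {n : Type} [Fintype n] [DecidableEq n] (M : Matrix n n R) (c k : n) :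
    (M.updateCol c (Pi.single k 1)).permanent = (M.updateRow k (Pi.single c 1)).permanent := by
  refine sum_congr rfl fun σ _ => ?_
  by_cases h : σ c = k
  · refine prod_congr rfl fun j _ => ?_
    by_cases hj : j = c
    · rw [hj, h]; simp
    · rw [updateCol_ne hj, updateRow_ne (h ▸ σ.injective.ne hj)]
  · rw [prod_eq_zero (mem_univ c) (by simp [Pi.single_eq_of_ne h]),
      prod_eq_zero (mem_univ (σ.symm k))]
    have : σ.symm k ≠ c := fun h' => h (by rw [← h', apply_symm_apply])
    simp [Pi.single_eq_of_ne this]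

lemma arrow_zero (s : ℕ) (u : Fin (s + 2) → R) :
    ((arrow R (s + 1)).updateRow 0 u).permanent = ∑ k, u k := by
  rw [← updateCol_eq_self (updateRow _ _ _) 0, perm_lin]
  refine sum_congr rfl fun k _ => ?_
  by_cases hk : k = 0
  · rw [perm_two' _ (a := 0) (b := 1) (by simp)]
    · simp [hk, arrow]
    · intro j h0 h1 i
      by_cases hi : i = 0 <;> simp [hi, hk, arrow, h0, updateCol_apply, eq_comm]
  · rw [perm_two' _ (a := 0) (b := k) (Ne.symm hk)]
    · simp [hk, arrow, updateCol_apply, Ne.symm hk]
    · intro j h0 h1 i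
      by_cases hi : i = 0 <;> simp [hi, arrow, h0, h1, updateCol_apply, eq_comm]

lemma arrow_succ (s : ℕ) (u : Fin (s + 1) → R) {i : Fin (s + 1)} (hi : i ≠ 0) :
    ((arrow R s).updateRow i u).permanent = ∑ k, u k - 2 * u i := by
  rw [← updateCol_eq_self (updateRow _ _ _) 0, perm_lin]
  have : ∀ k, (((arrow R s).updateRow i u).updateCol 0 (Pi.single k 1)).permanent *
      (arrow R s).updateRow i u k 0 = u k + u i + (if k = 0 then -(s + 1 : R) * u i else 0) +
        (if k = 0 then -u 0 else 0) + (if k = i then u 0 - 2 * u i else 0) := fun k => by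
    by_cases hk : k = 0
    · rw [perm_two' _ (a := 0) (b := i) hi.symm]
      · simp [hk, arrow, hi, hi.symm, updateCol_apply]
        ring
      · intro j h0 h1 l
        by_cases hl : l = 0 <;> simp [hl, hk, arrow, h0, h1, updateCol_apply, eq_comm]
    by_cases hk' : k = i
    · rw [perm_two' _ (a := 0) (b := i) hi.symm]
      · simp [hk', arrow, hi, hi.symm, updateCol_apply]
        ring
      · intro j h0 h1 l
        by_cases hl : l = 0 <;> simp [hl, hk', arrow, h0, h1, updateCol_apply, eq_comm]
    · have e : ((arrow R s).updateRow i u).updateCol 0 (Pi.single k 1) =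
          (((arrow R s).updateRow i u).updateCol 0 (Pi.single k 1)).updateCol 0 (Pi.single k 1) := by
        rw [updateCol_idem]
      rw [e, perm_col, ← permanent_permute_rows (swap 0 k), perm_two' _ (a := 0) (b := i) hi.symm]
      · simp [hk, hk', Ne.symm hk, Ne.symm hk', arrow, hi, hi.symm, updateCol_apply,
          swap_apply_of_ne_of_ne hi (Ne.symm hk')]
        ring
      · intro j h0 h1 l
        by_cases hj : j = k
        · simp [hj, Pi.single_apply, swap_apply_eq_iff]
        · by_cases hl : l = k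
          · simp [hl, hj, Ne.symm hj]
          by_cases hl0 : l = 0
          · simp [hl0, hj, h1, h0, hk, Ne.symm h0, arrow]
          · simp [swap_apply_of_ne_of_ne hl0 hl, hj, h1, h0, hl0, arrow, eq_comm]
  simp only [updateCol_idem, this, sum_add_distrib]
  simp
  ring

lemma arrow_perm (s : ℕ) : (arrow R (s + 1)).permanent = 0 := by
  rw [← updateRow_eq_self (arrow R (s + 1)) 0, arrow_zero, Fin.sum_univ_succ]
  simp [arrow]

end

lemma core {R k : Type} [CommRing R] [Field k] (h2 : (2 : k) ≠ 0) (P : Ideal R) [P.IsPrime]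
    (φ : R →+* k) (hφ : ∀ p ∈ P, φ p = 0) {s : ℕ} (W : Matrix (Fin (s + 2)) (Fin (s + 2)) R)
    (hW : W.map φ = arrow k (s + 1)) (v : Fin (s + 2) → R)
    (hv : ∀ i, (W.updateCol i v).permanent ∈ P) : v 0 ∈ P := by
  let M : Matrix (Fin (s + 2)) (Fin (s + 2)) R := fun i l => (W.updateCol i (Pi.single l 1)).permanent
  have h1 : M.det * v 0 ∈ P := by
    have := congrFun (congrArg (· *ᵥ v) (adjugate_mul M)) 0
    simp only [← mulVec_mulVec, smul_mulVec, one_mulVec, Pi.smul_apply, smul_eq_mul] at this
    rw [← this]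
    change ∑ i, M.adjugate 0 i * (M *ᵥ v) i ∈ P
    refine P.sum_mem fun i _ => P.mul_mem_left _ ?_
    have := hv i
    rw [perm_lin] at this
    exact this
  refine (Ideal.IsPrime.mem_or_mem inferInstance h1).resolve_left fun h => ?_
  have h3 := hφ _ h
  rw [RingHom.map_det] at h3
  obtain ⟨u, hu0, hu⟩ := exists_mulVec_eq_zero_iff.2 h3
  have h4 : ∀ i, ((arrow k (s + 1)).updateRow i u).permanent = 0 := fun i => by
    have e : (arrow k (s + 1))ᵀ = arrow k (s + 1) := by ext a b; exact arrow_symm _ _ _
    rw [← permanent_transpose, ← updateCol_transpose, e, perm_lin]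
    refine Eq.trans (sum_congr rfl fun l _ => ?_) (congrFun hu i)
    congr 1
    simp only [M, RingHom.mapMatrix_apply, map_apply, perm_map, map_updateCol, hW]
    congr 2
    ext a
    by_cases ha : a = l <;> simp [ha]
  have h5 := h4 0
  rw [arrow_zero] at h5
  have h6 : ∀ i, i ≠ 0 → u i = 0 := fun i hi => by
    have := h4 i
    rw [arrow_succ _ _ hi, h5, zero_sub, neg_eq_zero] at this
    exact (mul_eq_zero.1 this).resolve_left h2
  refine hu0 (funext fun i => ?_)
  by_cases hi : i = 0
  · rwa [sum_eq_single 0 (fun j _ => h6 j) (by simp), ← hi] at h5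
  · exact h6 i hi

lemma perm_mem {R : Type} [CommRing R] {m n t : ℕ} (X : Matrix (Fin m) (Fin n) R)
    {f : Fin t → Fin m} {g : Fin t → Fin n} (hf : Function.Injective f)
    (hg : Function.Injective g) : (X.submatrix f g).permanent ∈ permIdeal t X := by
  have key : ∀ {m : ℕ} {f : Fin t → Fin m}, Function.Injective f →
      ∃ (f' : Fin t ↪o Fin m) (σ : Perm (Fin t)), f = f' ∘ σ := fun {m f} hf =>
    ⟨OrderEmbedding.ofStrictMono _ ((Tuple.monotone_sort f).strictMono_of_injective
      (hf.comp (Tuple.sort f).injective)), (Tuple.sort f).symm, by ext; simp⟩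
  obtain ⟨f, σ, rfl⟩ := key hf
  obtain ⟨g, τ, rfl⟩ := key hg
  have : X.submatrix (f ∘ σ) (g ∘ τ) = ((X.submatrix f g).submatrix σ id).submatrix id τ := rfl
  rw [this, permanent_permute_rows, permanent_permute_cols]
  exact Ideal.subset_span ⟨f, g, rfl⟩

/-- the arrowhead matrix padded with zeros -/
def pad (k : Type) [Field k] (s : ℕ) (a b : ℕ) : k :=
  if h : a < s + 1 ∧ b < s + 1 then arrow k s ⟨a, h.1⟩ ⟨b, h.2⟩ else 0

lemma pad_symm (k : Type) [Field k] (s a b : ℕ) : pad k s a b = pad k s b a := by
  unfold pad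
  by_cases h : a < s + 1 ∧ b < s + 1
  · rw [dif_pos h, dif_pos h.symm, arrow_symm]
  · rw [dif_neg h, dif_neg (fun h' => h h'.symm)]

lemma pad_perm (k : Type) [Field k] (s : ℕ) (f g : Fin (s + 2) → ℕ) (hf : Function.Injective f)
    (hg : Function.Injective g) : permanent (fun i j => pad k (s + 1) (f i) (g j)) = 0 := by
  by_cases h1 : ∀ i, f i < s + 2
  · by_cases h2 : ∀ i, g i < s + 2
    · let σ := Equiv.ofBijective (fun i => (⟨f i, h1 i⟩ : Fin (s + 2)))
        (Finite.injective_iff_bijective.1 fun a b h => hf (congrArg Fin.val h))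
      let τ := Equiv.ofBijective (fun i => (⟨g i, h2 i⟩ : Fin (s + 2)))
        (Finite.injective_iff_bijective.1 fun a b h => hg (congrArg Fin.val h))
      rw [← arrow_perm (R := k) s, ← permanent_permute_cols σ (arrow k (s + 1)),
        ← permanent_permute_rows τ ((arrow k (s + 1)).submatrix σ id)]
      congr 1
      ext i j
      exact dif_pos (And.intro (h1 i) (h2 j))
    · obtain ⟨j, hj⟩ := not_forall.1 h2
      exact sum_eq_zero fun σ _ => prod_eq_zero (mem_univ j) (dif_neg fun h => hj h.2)
  · obtain ⟨i, hi⟩ := not_forall.1 h1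
    exact sum_eq_zero fun σ _ => prod_eq_zero (mem_univ (σ.symm i))
      (dif_neg fun h => hi (by simpa only [apply_symm_apply] using h.1))

lemma not_prime {k σ : Type} [Field k] (h2 : (2 : k) ≠ 0) {m n t : ℕ} (ht : 2 ≤ t) (hm : t ≤ m)
    (hn : t < n) (ι : Fin m → Fin n → σ) (z : ℕ → σ → k)
    (hz : ∀ s a b, z s (ι a b) = pad k s a b) :
    ¬ (permIdeal t (fun a b => (MvPolynomial.X (ι a b) : MvPolynomial σ k))).IsPrime := fun hP => by
  obtain ⟨s, rfl⟩ : ∃ s, t = s + 2 := ⟨t - 2, by omega⟩
  set X : Matrix (Fin m) (Fin n) (MvPolynomial σ k) := fun a b => MvPolynomial.X (ι a b)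
  have h1 := core h2 (permIdeal (s + 2) X) (MvPolynomial.eval (z (s + 1))) (fun p hp => by
      refine (Ideal.span_le (I := RingHom.ker (MvPolynomial.eval (z (s + 1))))).2 ?_ hp
      rintro _ ⟨f, g, rfl⟩
      rw [SetLike.mem_coe, RingHom.mem_ker, perm_map, ← pad_perm k s (fun i => f i) (fun i => g i)
        (Fin.val_injective.comp f.injective) (Fin.val_injective.comp g.injective)]
      congr 1
      ext i j
      simp [X, hz])
    (X.submatrix (Fin.castLE hm) (Fin.castLE hn.le)) (by
      ext i j
      simp only [X, map_apply, submatrix_apply, MvPolynomial.eval_X, hz]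
      exact dif_pos (And.intro i.2 j.2))
    (fun i => X (Fin.castLE hm i) ⟨s + 2, hn⟩) fun i => by
      have : Function.Injective (Function.update (Fin.castLE hn.le) i ⟨s + 2, hn⟩) := by
        intro a b hab
        have ha := a.2
        have hb := b.2
        by_cases h1 : a = i <;> by_cases h2 : b = i <;> simp [h1, h2, Fin.ext_iff] at hab ⊢ <;>
          omega
      convert perm_mem X (Fin.castLE_injective hm) this using 2
      ext a b : 2
      by_cases hb : b = i <;> simp [hb]
  let ψ : MvPolynomial σ k →ₐ[k] DualNumber k := MvPolynomial.aeval fun _ => DualNumber.eps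
  have h3 : permIdeal (s + 2) X ≤ RingHom.ker ψ := by
    refine Ideal.span_le.2 ?_
    rintro _ ⟨f, g, rfl⟩
    simp [RingHom.mem_ker, permanent, X, ψ, pow_succ, mul_assoc]
  have := congrArg TrivSqZeroExt.snd (h3 h1)
  simp [X, ψ] at this

lemma permIdeal_transpose {R : Type} [CommRing R] {m n : ℕ} (t : ℕ) (X : Matrix (Fin m) (Fin n) R) :
    permIdeal t Xᵀ = permIdeal t X := by
  unfold permIdeal
  congr 1
  ext p
  constructor <;> rintro ⟨f, g, rfl⟩ <;> exact ⟨g, f, (permanent_transpose _).symm⟩

theorem main (k : Type) [Field k] (h2 : (2 : k) ≠ 0) :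
    (∀ m n t : ℕ, 2 ≤ t → t ≤ m → t ≤ n → (permIdeal t (generic k m n)).IsPrime → t = m ∧ t = n) ∧
    (∀ n t : ℕ, 2 ≤ t → t ≤ n → (permIdeal t (symmetric k n)).IsPrime → t = n) := by
  refine ⟨fun m n t ht hm hn hP => ⟨?_, ?_⟩, fun n t ht hn hP => ?_⟩
  · by_contra h
    exact not_prime h2 ht hn (lt_of_le_of_ne hm h) (fun a b => (b, a))
      (fun s p => pad k s p.2 p.1) (fun _ _ _ => rfl) (by rwa [← permIdeal_transpose] at hP)
  · by_contra h
    exact not_prime h2 ht hm (lt_of_le_of_ne hn h) (fun a b => (a, b))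
      (fun s p => pad k s p.1 p.2) (fun _ _ _ => rfl) hP
  · by_contra h
    exact not_prime h2 ht hn (lt_of_le_of_ne hn h) (fun a b => s(a, b))
      (fun s => Sym2.lift ⟨fun a b => pad k s a b, fun _ _ => pad_symm _ _ _ _⟩)
      (fun _ _ _ => rfl) hP

end Pool.Agent.H80.PermId
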