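import Mathlib

set_option autoImplicit false

namespace Pool.Agent.H80.Proj

open MeasureTheory Set
open scoped Pointwise ENNReal

def seg : Set (ℝ × ℝ) := {p | p.1 = 0 ∧ 0 ≤ p.2 ∧ p.2 ≤ 1}

def T0 : Set (ℝ × ℝ) := {p | 0 ≤ p.1 ∧ 0 ≤ p.2 ∧ p.1 + p.2 ≤ 1}

lemma seg_compact : IsCompact seg := by
  have : seg = ({0} : Set ℝ) ×ˢ Icc (0:ℝ) 1 := by
    ext p; simp [seg]
  rw [this]; exact isCompact_singleton.prod isCompact_Icc

lemma T0_compact : IsCompact T0 := by
  have h1 : IsCompact (Icc (0:ℝ) 1 ×ˢ Icc (0:ℝ) 1) := isCompact_Icc.prod isCompact_Icc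
  refine h1.of_isClosed_subset ?_ ?_
  · exact (isClosed_le continuous_const continuous_fst).inter
      ((isClosed_le continuous_const continuous_snd).inter
        (isClosed_le (continuous_fst.add continuous_snd) continuous_const))
  · rintro p ⟨h1, h2, h3⟩
    exact ⟨⟨h1, by linarith⟩, ⟨h2, by linarith⟩⟩

lemma T0_convex : Convex ℝ T0 := by
  rintro p ⟨h1, h2, h3⟩ q ⟨g1, g2, g3⟩ a b ha hb hab
  refine ⟨?_, ?_, ?_⟩
  · simp only [Prod.fst_add, Prod.smul_fst, smul_eq_mul]; positivity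
  · simp only [Prod.snd_add, Prod.smul_snd, smul_eq_mul]; positivity
  · simp only [Prod.fst_add, Prod.smul_fst, Prod.snd_add, Prod.smul_snd, smul_eq_mul]
    nlinarith

lemma slice_Icc {s : Set ℝ} (hc : IsCompact s) (hv : Convex ℝ s) (hn : s.Nonempty) :
    ∃ l r, l ≤ r ∧ s = Icc l r := by
  have := eq_Icc_of_connected_compact ⟨hn, hv.isPreconnected⟩ hc
  refine ⟨sInf s, sSup s, ?_, this⟩
  obtain ⟨x, hx⟩ := hn
  rw [this] at hx
  exact hx.1.trans hx.2

lemma vslice_compact {A : Set (ℝ × ℝ)} (hc : IsCompact A) (x : ℝ) :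
    IsCompact (Prod.mk x ⁻¹' A) := by
  have h1 : IsCompact (Prod.snd '' A) := hc.image continuous_snd
  refine h1.of_isClosed_subset (hc.isClosed.preimage (by fun_prop)) ?_
  intro y hy; exact ⟨(x, y), hy, rfl⟩

lemma vslice_convex {A : Set (ℝ × ℝ)} (hv : Convex ℝ A) (x : ℝ) :
    Convex ℝ (Prod.mk x ⁻¹' A) := by
  intro y hy z hz a b ha hb hab
  have := hv hy hz ha hb hab
  simp only [mem_preimage]
  convert this using 1
  ext
  · simp only [Prod.fst_add, Prod.smul_fst, smul_eq_mul]; rw [← add_mul, hab, one_mul]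
  · simp

/-- adding a vertical unit segment -/
lemma vol_add_seg {A : Set (ℝ × ℝ)} (hc : IsCompact A) (hv : Convex ℝ A) {x0 x1 : ℝ}
    (h0 : IsLeast (Prod.fst '' A) x0) (h1 : IsGreatest (Prod.fst '' A) x1) :
    volume (A + seg) = volume A + ENNReal.ofReal (x1 - x0) := by
  have hm1 : MeasurableSet (A + seg) := (hc.add seg_compact).isClosed.measurableSet
  have hm2 : MeasurableSet A := hc.isClosed.measurableSet
  rw [Measure.volume_eq_prod, Measure.prod_apply hm1, Measure.prod_apply hm2]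
  have hI : Prod.fst '' A = Icc x0 x1 := by
    have hv' : Convex ℝ (Prod.fst '' A) := hv.is_linear_image (LinearMap.fst ℝ ℝ ℝ).isLinear
    apply Subset.antisymm
    · intro x hx; exact ⟨h0.2 hx, h1.2 hx⟩
    · exact hv'.ordConnected.out h0.1 h1.1
  have key : ∀ x, volume (Prod.mk x ⁻¹' (A + seg)) =
      volume (Prod.mk x ⁻¹' A) + (Icc x0 x1).indicator (fun _ => (1:ℝ≥0∞)) x := by
    intro x
    have hs : ∀ y, y ∈ Prod.mk x ⁻¹' (A + seg) ↔ ∃ b, 0 ≤ b ∧ b ≤ 1 ∧ y - b ∈ Prod.mk x ⁻¹' A := by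
      intro y
      constructor
      · rintro ⟨p, hp, q, ⟨q1, q2, q3⟩, hpq⟩
        refine ⟨q.2, q2, q3, ?_⟩
        have e1 : p.1 + q.1 = x := congrArg Prod.fst hpq
        have e2 : p.2 + q.2 = y := congrArg Prod.snd hpq
        have : (x, y - q.2) = p := by
          ext
          · simp only; linarith
          · simp only; linarith
        simp only [mem_preimage, this]; exact hp
      · rintro ⟨b, b0, b1, hb⟩
        refine ⟨(x, y - b), hb, (0, b), ⟨rfl, b0, b1⟩, ?_⟩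
        ext <;> simp
    by_cases hx : x ∈ Icc x0 x1
    · have hn : (Prod.mk x ⁻¹' A).Nonempty := by
        rw [← hI] at hx
        obtain ⟨p, hp, rfl⟩ := hx
        exact ⟨p.2, hp⟩
      obtain ⟨l, r, hlr, hE⟩ := slice_Icc (vslice_compact hc x) (vslice_convex hv x) hn
      have h2 : Prod.mk x ⁻¹' (A + seg) = Icc l (r + 1) := by
        ext y
        rw [hs, hE]
        constructor
        · rintro ⟨b, b0, b1, h3, h4⟩; exact ⟨by linarith, by linarith⟩
        · rintro ⟨h3, h4⟩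
          by_cases h5 : y ≤ r
          · exact ⟨0, le_rfl, zero_le_one, by simpa using h3, by simpa using h5⟩
          · exact ⟨y - r, by linarith, by linarith, by simpa using hlr, by simp⟩
      rw [h2, hE, indicator_of_mem hx, Real.volume_Icc, Real.volume_Icc,
        ← ENNReal.ofReal_one, ← ENNReal.ofReal_add (by linarith) zero_le_one]
      congr 1; ring
    · have hn : Prod.mk x ⁻¹' A = ∅ := by
        apply eq_empty_of_forall_notMem
        intro y hy
        apply hx; rw [← hI]; exact ⟨(x, y), hy, rfl⟩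
      have h2 : Prod.mk x ⁻¹' (A + seg) = ∅ := by
        apply eq_empty_of_forall_notMem
        intro y hy
        obtain ⟨b, -, -, hb⟩ := (hs y).1 hy
        rw [hn] at hb; exact hb
      rw [h2, hn, indicator_of_notMem hx]; simp
  simp_rw [key]
  rw [lintegral_add_right _ (measurable_const.indicator measurableSet_Icc),
    lintegral_indicator measurableSet_Icc]
  simp [Real.volume_Icc]

def Lf (N : ℝ) (A : Set (ℝ × ℝ)) : Set (ℝ × ℝ) := {p | p.1 ≤ N ∧ ∃ x, x ≤ p.1 ∧ (x, p.2) ∈ A}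

lemma Lf_compact {A : Set (ℝ × ℝ)} (hc : IsCompact A) (N : ℝ) : IsCompact (Lf N A) := by
  obtain ⟨D, hD⟩ := (hc.image continuous_fst).bddBelow
  have h1 : IsCompact (A + (Icc (0:ℝ) (N - D) ×ˢ ({0} : Set ℝ))) :=
    hc.add (isCompact_Icc.prod isCompact_singleton)
  have : Lf N A = (A + (Icc (0:ℝ) (N - D) ×ˢ ({0} : Set ℝ))) ∩ {p | p.1 ≤ N} := by
    ext p
    constructor
    · rintro ⟨h2, x, h3, h4⟩
      refine ⟨⟨(x, p.2), h4, (p.1 - x, 0), ⟨⟨by simp only; linarith, ?_⟩, rfl⟩, ?_⟩, h2⟩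
      · have : D ≤ x := hD ⟨(x, p.2), h4, rfl⟩
        simp only; linarith
      · ext <;> simp
    · rintro ⟨⟨q, hq, w, ⟨⟨w1, w2⟩, w3⟩, hqw⟩, h2⟩
      have e1 : q.1 + w.1 = p.1 := congrArg Prod.fst hqw
      have e2 : q.2 + w.2 = p.2 := congrArg Prod.snd hqw
      have w3' : w.2 = 0 := w3
      refine ⟨h2, q.1, by linarith, ?_⟩
      have : (q.1, p.2) = q := by ext <;> simp only; linarith
      rw [this]; exact hq
  rw [this]
  exact h1.inter_right (isClosed_le continuous_fst continuous_const)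

lemma Lf_convex {A : Set (ℝ × ℝ)} (hv : Convex ℝ A) (N : ℝ) : Convex ℝ (Lf N A) := by
  rintro p ⟨h1, x, h2, h3⟩ q ⟨g1, y, g2, g3⟩ a b ha hb hab
  refine ⟨?_, a * x + b * y, ?_, ?_⟩
  · simp only [Prod.fst_add, Prod.smul_fst, smul_eq_mul]
    calc a * p.1 + b * q.1 ≤ a * N + b * N := by gcongr
      _ = N := by rw [← add_mul, hab, one_mul]
  · simp only [Prod.fst_add, Prod.smul_fst, smul_eq_mul]; gcongr
  · have := hv h3 g3 ha hb hab
    convert this using 1
    ext <;> simp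

lemma vol_Lf_add {P M : Set (ℝ × ℝ)} (hc : IsCompact M) (hv : Convex ℝ M) {c N x0 : ℝ}
    (hP1 : ∀ p ∈ P, c ≤ p.1 ∧ 0 ≤ p.2 ∧ p.2 ≤ 1) (hP2 : ∀ b, 0 ≤ b → b ≤ 1 → (c, b) ∈ P)
    (h0 : IsLeast (Prod.fst '' M) x0) (hN : x0 ≤ N - c) :
    volume (Lf N (P + M)) = volume (Lf (N - c) M) + ENNReal.ofReal (N - c - x0) := by
  have e : Lf N (P + M) = (fun p => ((-c, 0) : ℝ × ℝ) + p) ⁻¹' (Lf (N - c) M + seg) := by
    ext p
    constructor
    · rintro ⟨h1, x, h2, q, hq, m, hm, hqm⟩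
      have e1 : q.1 + m.1 = x := congrArg Prod.fst hqm
      have e2 : q.2 + m.2 = p.2 := congrArg Prod.snd hqm
      obtain ⟨k1, k2, k3⟩ := hP1 q hq
      refine ⟨(p.1 - c, m.2), ⟨by simp only; linarith, m.1, by simp only; linarith, hm⟩,
        (0, q.2), ⟨rfl, k2, k3⟩, ?_⟩
      ext
      · simp; ring
      · simp; linarith
    · rintro ⟨q, ⟨h1, x, h2, h3⟩, w, ⟨w1, w2, w3⟩, hqw⟩
      have e1 : q.1 + w.1 = -c + p.1 := congrArg Prod.fst hqw
      have e2 : q.2 + w.2 = 0 + p.2 := congrArg Prod.snd hqw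
      refine ⟨by linarith, c + x, by linarith, (c, w.2), hP2 _ w2 w3, (x, q.2), h3, ?_⟩
      ext
      · simp
      · simp; linarith
  rw [e, measure_preimage_add]
  apply vol_add_seg (Lf_compact hc _) (Lf_convex hv _)
  · obtain ⟨⟨m, hm, rfl⟩, h2⟩ := h0
    refine ⟨⟨m, ⟨hN, m.1, le_rfl, hm⟩, rfl⟩, ?_⟩
    rintro _ ⟨p, ⟨h3, x, h4, h5⟩, rfl⟩
    exact (h2 ⟨(x, p.2), h5, rfl⟩).trans h4
  · obtain ⟨⟨m, hm, rfl⟩, h2⟩ := h0
    refine ⟨⟨(N - c, m.2), ⟨le_rfl, m.1, hN, hm⟩, rfl⟩, ?_⟩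
    rintro _ ⟨p, ⟨h3, -⟩, rfl⟩
    exact h3

def sh (p : ℝ × ℝ) : ℝ × ℝ := (-(p.1 + p.2), p.2)

lemma sh_sh (p : ℝ × ℝ) : sh (sh p) = p := by
  ext <;> simp [sh]

lemma sh_mp : MeasurePreserving sh (volume : Measure (ℝ × ℝ)) volume := by
  have h1 := measurePreserving_add_prod (volume : Measure ℝ) (volume : Measure ℝ)
  have h2 := (Measure.measurePreserving_neg (volume : Measure ℝ)).prod
    (MeasurePreserving.id (volume : Measure ℝ))
  exact h2.comp h1

lemma sh_cont : Continuous sh := by unfold sh; fun_prop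

lemma sh_pre (A : Set (ℝ × ℝ)) : sh ⁻¹' A = sh '' A := by
  ext p
  constructor
  · intro h; exact ⟨sh p, h, sh_sh p⟩
  · rintro ⟨q, hq, rfl⟩; simp only [mem_preimage, sh_sh]; exact hq

lemma sh_compact {A : Set (ℝ × ℝ)} (hc : IsCompact A) : IsCompact (sh ⁻¹' A) := by
  rw [sh_pre]; exact hc.image sh_cont

lemma sh_convex {A : Set (ℝ × ℝ)} (hv : Convex ℝ A) : Convex ℝ (sh ⁻¹' A) := by
  intro p hp q hq a b ha hb hab
  have := hv hp hq ha hb hab
  simp only [mem_preimage]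
  convert this using 1
  ext
  · simp [sh]; ring
  · simp [sh]

lemma sh_add (A B : Set (ℝ × ℝ)) : sh ⁻¹' (A + B) = sh ⁻¹' A + sh ⁻¹' B := by
  ext p
  constructor
  · rintro ⟨a, ha, b, hb, hab⟩
    refine ⟨sh a, by simp only [mem_preimage, sh_sh]; exact ha, sh b,
      by simp only [mem_preimage, sh_sh]; exact hb, ?_⟩
    have e1 : a.1 + b.1 = -(p.1 + p.2) := congrArg Prod.fst hab
    have e2 : a.2 + b.2 = p.2 := congrArg Prod.snd hab
    ext
    · simp [sh]; linarith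
    · simp [sh]; linarith
  · rintro ⟨a, ha, b, hb, rfl⟩
    refine ⟨sh a, ha, sh b, hb, ?_⟩
    ext
    · simp [sh]; ring
    · simp [sh]

def Trap (N N' y0 y1 : ℝ) : Set (ℝ × ℝ) :=
  {p | (y0 ≤ p.2 ∧ p.2 ≤ y1) ∧ p.1 ≤ N ∧ -(p.1 + p.2) ≤ N'}

lemma vol_Trap {N N' y0 y1 : ℝ} (h : y0 ≤ y1) (h0 : 0 ≤ N + N' + y0) :
    volume (Trap N N' y0 y1) =
      ENNReal.ofReal ((N + N') * (y1 - y0) + (y1 ^ 2 - y0 ^ 2) / 2) := by
  have hm : MeasurableSet (Trap N N' y0 y1) := by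
    unfold Trap; measurability
  rw [Measure.volume_eq_prod, Measure.prod_apply_symm hm]
  have key : ∀ y, volume ((fun x => (x, y)) ⁻¹' Trap N N' y0 y1) =
      (Icc y0 y1).indicator (fun y => ENNReal.ofReal (N + N' + y)) y := by
    intro y
    by_cases hy : y ∈ Icc y0 y1
    · have : (fun x => (x, y)) ⁻¹' Trap N N' y0 y1 = Icc (-N' - y) N := by
        ext x
        simp only [Trap, mem_preimage, mem_setOf_eq, mem_Icc]
        constructor
        · rintro ⟨-, h2, h3⟩; exact ⟨by linarith, h2⟩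
        · rintro ⟨h2, h3⟩; exact ⟨hy, h3, by linarith⟩
      rw [this, indicator_of_mem hy, Real.volume_Icc]; congr 1; ring
    · have : (fun x => (x, y)) ⁻¹' Trap N N' y0 y1 = ∅ := by
        apply eq_empty_of_forall_notMem
        rintro x ⟨h1, -⟩; exact hy h1
      rw [this, indicator_of_notMem hy]; simp
  simp_rw [key]
  rw [lintegral_indicator measurableSet_Icc, ← ofReal_integral_eq_lintegral_ofReal]
  · congr 1
    rw [integral_Icc_eq_integral_Ioc, ← intervalIntegral.integral_of_le h,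
      intervalIntegral.integral_add (by simp) (by simp)]
    simp [integral_id]; ring
  · exact (by fun_prop : Continuous fun y : ℝ => N + N' + y).integrableOn_Icc
  · filter_upwards [ae_restrict_mem measurableSet_Icc] with y hy
    have := hy.1
    simp only [Pi.zero_apply]; linarith

lemma vol_incl {A : Set (ℝ × ℝ)} (hc : IsCompact A) (hv : Convex ℝ A) {N N' y0 y1 : ℝ}
    (h0 : IsLeast (Prod.snd '' A) y0) (h1 : IsGreatest (Prod.snd '' A) y1)
    (hN : ∀ p ∈ A, p.1 ≤ N ∧ -(p.1 + p.2) ≤ N') :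
    volume (Lf N A) + volume (Lf N' (sh ⁻¹' A)) = volume (Trap N N' y0 y1) + volume A := by
  have hm : MeasurableSet (Lf N' (sh ⁻¹' A)) :=
    (Lf_compact (sh_compact hc) N').isClosed.measurableSet
  rw [← sh_mp.measure_preimage hm.nullMeasurableSet,
    ← measure_union_add_inter _ (sh_cont.measurable hm)]
  have hI : Prod.snd '' A = Icc y0 y1 := by
    have hv' : Convex ℝ (Prod.snd '' A) := hv.is_linear_image (LinearMap.snd ℝ ℝ ℝ).isLinear
    apply Subset.antisymm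
    · intro x hx; exact ⟨h0.2 hx, h1.2 hx⟩
    · exact hv'.ordConnected.out h0.1 h1.1
  congr 2
  · ext p
    constructor
    · rintro (⟨g1, x, g2, g3⟩ | ⟨g1, x, g2, g3⟩)
      · have := hN _ g3
        have h5 : p.2 ∈ Icc y0 y1 := hI ▸ ⟨_, g3, rfl⟩
        exact ⟨h5, g1, by simp only at this; linarith [this.2]⟩
      · have := hN _ g3
        have h5 : p.2 ∈ Icc y0 y1 := hI ▸ ⟨_, g3, rfl⟩
        simp only [sh] at this g1 g2
        exact ⟨h5, by linarith [this.1], g1⟩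
    · rintro ⟨g1, g2, g3⟩
      have h5 : p.2 ∈ Prod.snd '' A := hI ▸ g1
      obtain ⟨q, hq, hq2⟩ := h5
      by_cases h6 : q.1 ≤ p.1
      · left; exact ⟨g2, q.1, h6, by rw [← hq2]; exact hq⟩
      · right
        refine ⟨g3, -(q.1 + p.2), by simp only [sh]; linarith, ?_⟩
        simp only [mem_preimage, sh]
        have : (-(-(q.1 + p.2) + p.2), p.2) = q := by
          ext
          · simp
          · simp [hq2]
        rw [this]; exact hq
  · ext p
    constructor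
    · rintro ⟨⟨g1, x, g2, g3⟩, ⟨k1, x', k2, k3⟩⟩
      simp only [mem_preimage, sh] at k1 k2 k3
      have hs : Convex ℝ ((fun x => (x, p.2)) ⁻¹' A) := by
        intro y hy z hz a b ha hb hab
        have := hv hy hz ha hb hab
        simp only [mem_preimage]
        convert this using 1
        ext
        · simp
        · simp only [Prod.snd_add, Prod.smul_snd, smul_eq_mul]; rw [← add_mul, hab, one_mul]
      exact hs.ordConnected.out g3 k3 ⟨g2, by linarith⟩
    · intro hp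
      refine ⟨⟨(hN p hp).1, p.1, le_rfl, hp⟩, (hN p hp).2, -(p.1 + p.2), le_rfl, ?_⟩
      show sh (sh p) ∈ A
      rw [sh_sh]; exact hp

/-- area of triangle plus convex set -/
lemma vol_T0_add {M : Set (ℝ × ℝ)} (hc : IsCompact M) (hv : Convex ℝ M) {x0 y0 s1 : ℝ}
    (hx : IsLeast (Prod.fst '' M) x0) (hy : IsLeast (Prod.snd '' M) y0)
    (hs : IsGreatest ((fun p => p.1 + p.2) '' M) s1) :
    (volume (T0 + M)).toReal = (volume M).toReal + 1 / 2 - x0 - y0 + s1 := by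
  have hne : M.Nonempty := by obtain ⟨p, hp, -⟩ := hx.1; exact ⟨p, hp⟩
  obtain ⟨y1, hy1⟩ := (hc.image continuous_snd).exists_isGreatest (hne.image _)
  obtain ⟨R, hR⟩ := hc.isBounded.exists_norm_le
  have hb : ∀ p ∈ M, |p.1| ≤ R ∧ |p.2| ≤ R := fun p hp =>
    ⟨(norm_fst_le p).trans (hR p hp), (norm_snd_le p).trans (hR p hp)⟩
  obtain ⟨m0, hm0⟩ := hne
  have hR0 : 0 ≤ R := (abs_nonneg _).trans (hb _ hm0).1
  set N := 2 * R + 1 with hNdef
  have hx0 : |x0| ≤ R := by obtain ⟨p, hp, rfl⟩ := hx.1; exact (hb p hp).1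
  have hy0 : |y0| ≤ R := by obtain ⟨p, hp, rfl⟩ := hy.1; exact (hb p hp).2
  have hs1 : -(2 * R) ≤ s1 := by
    obtain ⟨p, hp, rfl⟩ := hs.1
    have := hb p hp
    have := abs_le.1 this.1; have := abs_le.1 (hb p hp).2
    simp only; linarith
  have hy01 : y0 ≤ y1 := hy.2 hy1.1
  have hx0' := abs_le.1 hx0
  have hy0' := abs_le.1 hy0
  have i1 := vol_incl hc hv (N := N) (N' := N + 1) hy hy1 (fun p hp => by
    have := abs_le.1 (hb p hp).1; have := abs_le.1 (hb p hp).2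
    constructor <;> linarith)
  have hcT : IsCompact (T0 + M) := T0_compact.add hc
  have i2 := vol_incl hcT (T0_convex.add hv) (N := N) (N' := N) (y0 := y0) (y1 := y1 + 1)
    (by
      obtain ⟨⟨p, hp, rfl⟩, h2⟩ := hy
      refine ⟨⟨0 + p, ⟨0, ⟨le_rfl, le_rfl, by simp⟩, p, hp, rfl⟩, by simp⟩, ?_⟩
      rintro _ ⟨_, ⟨t, ht, m, hm, rfl⟩, rfl⟩
      have := h2 ⟨m, hm, rfl⟩
      have := ht.2.1
      simp only [Prod.snd_add]; linarith)
    (by
      obtain ⟨⟨p, hp, rfl⟩, h2⟩ := hy1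
      refine ⟨⟨(0, 1) + p, ⟨(0, 1), ⟨le_rfl, zero_le_one, by simp⟩, p, hp, rfl⟩, by simp; ring⟩, ?_⟩
      rintro _ ⟨_, ⟨t, ht, m, hm, rfl⟩, rfl⟩
      have := h2 ⟨m, hm, rfl⟩
      have := ht.1; have := ht.2.2
      simp only [Prod.snd_add]; linarith)
    (by
      rintro _ ⟨t, ht, m, hm, rfl⟩
      have := abs_le.1 (hb m hm).1; have := abs_le.1 (hb m hm).2
      have := ht.1; have := ht.2.1; have := ht.2.2
      simp only [Prod.fst_add, Prod.snd_add]
      constructor <;> linarith)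
  have j1 := vol_Lf_add (P := T0) hc hv (c := 0) (N := N)
    (fun p hp => ⟨hp.1, hp.2.1, by linarith [hp.1, hp.2.2]⟩)
    (fun b b0 b1 => ⟨le_rfl, b0, by simpa using b1⟩) hx (by linarith)
  have j2 := vol_Lf_add (P := sh ⁻¹' T0) (sh_compact hc) (sh_convex hv) (c := -1) (N := N)
    (x0 := -s1)
    (fun p hp => by
      obtain ⟨h1, h2, h3⟩ := hp
      simp only [sh] at h1 h2 h3
      exact ⟨by linarith, h2, by linarith⟩)
    (fun b b0 b1 => ⟨by simp only [sh]; linarith, b0, by simp [sh]⟩)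
    (by
      obtain ⟨⟨p, hp, rfl⟩, h2⟩ := hs
      refine ⟨⟨sh p, by simp only [mem_preimage, sh_sh]; exact hp, rfl⟩, ?_⟩
      rintro _ ⟨q, hq, rfl⟩
      have := h2 ⟨_, hq, rfl⟩
      simp only [sh] at this; linarith)
    (by linarith)
  rw [← sh_add] at j2
  rw [vol_Trap hy01 (by linarith)] at i1
  rw [vol_Trap (by linarith) (by linarith), j1, j2] at i2
  have f1 : volume (Lf N M) ≠ ⊤ := (Lf_compact hc N).measure_lt_top.ne
  have f2 : volume (Lf (N + 1) (sh ⁻¹' M)) ≠ ⊤ := (Lf_compact (sh_compact hc) _).measure_lt_top.ne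
  have f3 : volume M ≠ ⊤ := hc.measure_lt_top.ne
  have f4 : volume (T0 + M) ≠ ⊤ := hcT.measure_lt_top.ne
  rw [sub_zero, show N - -1 = N + 1 by ring] at i2
  have i1' := congrArg ENNReal.toReal i1
  have i2' := congrArg ENNReal.toReal i2
  rw [ENNReal.toReal_add f1 f2, ENNReal.toReal_add ENNReal.ofReal_ne_top f3,
    ENNReal.toReal_ofReal (by nlinarith)] at i1'
  rw [ENNReal.toReal_add (ENNReal.add_ne_top.2 ⟨f1, ENNReal.ofReal_ne_top⟩)
    (ENNReal.add_ne_top.2 ⟨f2, ENNReal.ofReal_ne_top⟩), ENNReal.toReal_add f1 ENNReal.ofReal_ne_top,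
    ENNReal.toReal_add f2 ENNReal.ofReal_ne_top, ENNReal.toReal_add ENNReal.ofReal_ne_top f4,
    ENNReal.toReal_ofReal (by linarith), ENNReal.toReal_ofReal (by linarith),
    ENNReal.toReal_ofReal (by nlinarith)] at i2'
  linarith

lemma vol_negT0_add {M : Set (ℝ × ℝ)} (hc : IsCompact M) (hv : Convex ℝ M) {x1 y1 s0 : ℝ}
    (hx : IsGreatest (Prod.fst '' M) x1) (hy : IsGreatest (Prod.snd '' M) y1)
    (hs : IsLeast ((fun p => p.1 + p.2) '' M) s0) :
    (volume (-T0 + M)).toReal = (volume M).toReal + 1 / 2 + x1 + y1 - s0 := by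
  have e : -T0 + M = -(T0 + -M) := by rw [neg_add, neg_neg]
  rw [e, Measure.measure_neg, vol_T0_add hc.neg hv.neg (x0 := -x1) (y0 := -y1) (s1 := -s0),
    Measure.measure_neg]
  · ring
  · obtain ⟨⟨p, hp, rfl⟩, h2⟩ := hx
    refine ⟨⟨-p, by simpa using hp, rfl⟩, ?_⟩
    rintro _ ⟨q, hq, rfl⟩
    have := h2 ⟨-q, hq, rfl⟩
    simp only [Prod.fst_neg] at this; linarith
  · obtain ⟨⟨p, hp, rfl⟩, h2⟩ := hy
    refine ⟨⟨-p, by simpa using hp, rfl⟩, ?_⟩
    rintro _ ⟨q, hq, rfl⟩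
    have := h2 ⟨-q, hq, rfl⟩
    simp only [Prod.snd_neg] at this; linarith
  · obtain ⟨⟨p, hp, rfl⟩, h2⟩ := hs
    refine ⟨⟨-p, by simpa using hp, by simp; ring⟩, ?_⟩
    rintro _ ⟨q, hq, rfl⟩
    have := h2 ⟨-q, hq, rfl⟩
    simp only [Prod.fst_neg, Prod.snd_neg] at this; simp only; linarith

end Pool.Agent.H80.Proj
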