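import Pool.Agent.H80.Proj1

set_option autoImplicit false

namespace Pool.Agent.H80.Proj

open MeasureTheory Set Filter Topology
open scoped Pointwise ENNReal

/-- sup of a linear form on the slice at height `z` -/
noncomputable def top (L : Set (ℝ × ℝ × ℝ)) (n1 n2 z : ℝ) : ℝ :=
  sSup ((fun p : ℝ × ℝ => n1 * p.1 + n2 * p.2) '' (Prod.mk z ⁻¹' L))

def T3 : Set (ℝ × ℝ × ℝ) := {p | p.1 = 0 ∧ p.2 ∈ T0}

lemma T3_compact : IsCompact T3 := by
  have : T3 = ({0} : Set ℝ) ×ˢ T0 := by ext p; simp [T3]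
  rw [this]; exact isCompact_singleton.prod T0_compact

lemma slice3_compact {L : Set (ℝ × ℝ × ℝ)} (hc : IsCompact L) (z : ℝ) :
    IsCompact (Prod.mk z ⁻¹' L) := by
  have h1 : IsCompact (Prod.snd '' L) := hc.image continuous_snd
  refine h1.of_isClosed_subset (hc.isClosed.preimage (by fun_prop)) ?_
  intro y hy; exact ⟨(z, y), hy, rfl⟩

lemma slice3_convex {L : Set (ℝ × ℝ × ℝ)} (hv : Convex ℝ L) (x : ℝ) :
    Convex ℝ (Prod.mk x ⁻¹' L) := by
  intro y hy z hz a b ha hb hab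
  have := hv hy hz ha hb hab
  simp only [mem_preimage]
  convert this using 1
  ext
  · simp only [Prod.fst_add, Prod.smul_fst, smul_eq_mul]; rw [← add_mul, hab, one_mul]
  · simp
  · simp

lemma top_isGreatest {L : Set (ℝ × ℝ × ℝ)} (hc : IsCompact L) {z : ℝ}
    (hn : (Prod.mk z ⁻¹' L).Nonempty) (n1 n2 : ℝ) :
    IsGreatest ((fun p : ℝ × ℝ => n1 * p.1 + n2 * p.2) '' (Prod.mk z ⁻¹' L)) (top L n1 n2 z) :=
  ((slice3_compact hc z).image (by fun_prop)).isGreatest_sSup (hn.image _)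

lemma slice_add (P : Set (ℝ × ℝ)) (L : Set (ℝ × ℝ × ℝ)) (z : ℝ) :
    Prod.mk z ⁻¹' ({p : ℝ × ℝ × ℝ | p.1 = 0 ∧ p.2 ∈ P} + L) = P + Prod.mk z ⁻¹' L := by
  ext y
  constructor
  · rintro ⟨t, ⟨t1, t2⟩, l, hl, htl⟩
    have e1 : t.1 + l.1 = z := congrArg Prod.fst htl
    have e2 : t.2 + l.2 = y := congrArg Prod.snd htl
    refine ⟨t.2, t2, l.2, ?_, e2⟩
    have : (z, l.2) = l := by
      ext1
      · simp only; linarith
      · rfl
    simp only [mem_preimage, this]; exact hl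
  · rintro ⟨t, ht, l, hl, rfl⟩
    exact ⟨(0, t), ⟨rfl, ht⟩, (z, l), hl, by simp⟩

lemma slice_diff {L : Set (ℝ × ℝ × ℝ)} (hc : IsCompact L) (hv : Convex ℝ L) {z : ℝ}
    (hn : (Prod.mk z ⁻¹' L).Nonempty) :
    (volume (T0 + Prod.mk z ⁻¹' L)).toReal - (volume (-T0 + Prod.mk z ⁻¹' L)).toReal =
      (top L 1 1 z - top L (-1) (-1) z) - (top L 1 0 z - top L (-1) 0 z)
        - (top L 0 1 z - top L 0 (-1) z) := by
  have g := top_isGreatest hc hn
  rw [vol_T0_add (slice3_compact hc z) (slice3_convex hv z) (x0 := -top L (-1) 0 z)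
      (y0 := -top L 0 (-1) z) (s1 := top L 1 1 z),
    vol_negT0_add (slice3_compact hc z) (slice3_convex hv z) (x1 := top L 1 0 z)
      (y1 := top L 0 1 z) (s0 := -top L (-1) (-1) z)]
  · ring
  · simpa using g 1 0
  · simpa using g 0 1
  · obtain ⟨⟨p, hp, e⟩, h2⟩ := g (-1) (-1)
    refine ⟨⟨p, hp, by simp only at e ⊢; linarith⟩, ?_⟩
    rintro _ ⟨q, hq, rfl⟩
    have := h2 ⟨q, hq, rfl⟩
    simp only at this ⊢; linarith
  · obtain ⟨⟨p, hp, e⟩, h2⟩ := g (-1) 0
    refine ⟨⟨p, hp, by simp only at e ⊢; linarith⟩, ?_⟩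
    rintro _ ⟨q, hq, rfl⟩
    have := h2 ⟨q, hq, rfl⟩
    simp only at this ⊢; linarith
  · obtain ⟨⟨p, hp, e⟩, h2⟩ := g 0 (-1)
    refine ⟨⟨p, hp, by simp only at e ⊢; linarith⟩, ?_⟩
    rintro _ ⟨q, hq, rfl⟩
    have := h2 ⟨q, hq, rfl⟩
    simp only at this ⊢; linarith
  · simpa using g 1 1

lemma vol3_eq {L : Set (ℝ × ℝ × ℝ)} (hc : IsCompact L) (hv : Convex ℝ L) {z0 z1 : ℝ}
    (h01 : z0 ≤ z1) (hout : ∀ p ∈ L, z0 ≤ p.1 ∧ p.1 ≤ z1)
    (hin : ∀ z, z0 < z → z < z1 → (Prod.mk z ⁻¹' L).Nonempty)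
    (hint : ∫ z in z0..z1, ((top L 1 1 z - top L (-1) (-1) z) - (top L 1 0 z - top L (-1) 0 z)
        - (top L 0 1 z - top L 0 (-1) z)) = 0) :
    volume (T3 + L) = volume (-T3 + L) := by
  have c1 : IsCompact (T3 + L) := T3_compact.add hc
  have c2 : IsCompact (-T3 + L) := T3_compact.neg.add hc
  have m1 := c1.isClosed.measurableSet
  have m2 := c2.isClosed.measurableSet
  have f1 := c1.measure_lt_top (μ := volume)
  have f2 := c2.measure_lt_top (μ := volume)
  rw [← ENNReal.toReal_eq_toReal_iff' f1.ne f2.ne]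
  rw [Measure.volume_eq_prod, Measure.prod_apply m1] at f1 ⊢
  rw [Measure.volume_eq_prod, Measure.prod_apply m2] at f2
  rw [Measure.prod_apply m2]
  have a1 := (measurable_measure_prodMk_left (ν := (volume : Measure (ℝ × ℝ))) m1).aemeasurable
    (μ := volume)
  have a2 := (measurable_measure_prodMk_left (ν := (volume : Measure (ℝ × ℝ))) m2).aemeasurable
    (μ := volume)
  rw [← integral_toReal a1 (ae_lt_top' a1 f1.ne), ← integral_toReal a2 (ae_lt_top' a2 f2.ne),
    ← sub_eq_zero, ← integral_sub (integrable_toReal_of_lintegral_ne_top a1 f1.ne)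
      (integrable_toReal_of_lintegral_ne_top a2 f2.ne), ← hint,
    intervalIntegral.integral_of_le h01, integral_Ioc_eq_integral_Ioo,
    ← integral_indicator measurableSet_Ioo]
  apply integral_congr_ae
  have e1 : ∀ z, Prod.mk z ⁻¹' (T3 + L) = T0 + Prod.mk z ⁻¹' L := fun z => slice_add T0 L z
  have e2 : ∀ z, Prod.mk z ⁻¹' (-T3 + L) = -T0 + Prod.mk z ⁻¹' L := fun z => by
    have : -T3 = {p : ℝ × ℝ × ℝ | p.1 = 0 ∧ p.2 ∈ -T0} := by
      ext p; simp [T3]
    rw [this]; exact slice_add _ L z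
  have n0 : ∀ᵐ z : ℝ, z ≠ z0 := Measure.ae_ne volume z0
  have n1 : ∀ᵐ z : ℝ, z ≠ z1 := Measure.ae_ne volume z1
  filter_upwards [n0, n1] with z hz0 hz1
  rw [e1, e2]
  by_cases hz : z ∈ Ioo z0 z1
  · rw [indicator_of_mem hz]
    exact slice_diff hc hv (hin z hz.1 hz.2)
  · rw [indicator_of_notMem hz]
    have : Prod.mk z ⁻¹' L = ∅ := by
      apply eq_empty_of_forall_notMem
      intro y hy
      have := hout _ hy
      exact hz ⟨lt_of_le_of_ne this.1 (Ne.symm hz0), lt_of_le_of_ne this.2 hz1⟩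
    simp [this]

/-- change of variables through the Legendre transform -/
lemma legendre {M : Set (ℝ × ℝ)} {Y z0 z1 : ℝ} {H H1 H2 f : ℝ → ℝ}
    (hY : ∀ p ∈ M, |p.1| ≤ Y)
    (hle : ∀ b, ∀ p ∈ M, p.1 + b * p.2 ≤ H b) (hex : ∀ b, ∃ p ∈ M, p.1 + b * p.2 = H b)
    (d1 : ∀ b, HasDerivAt H (H1 b) b) (d2 : ∀ b, HasDerivAt H1 (H2 b) b) (c2 : Continuous H2)
    (l1 : Tendsto (fun b => H b / b) atTop (𝓝 z1)) (l0 : Tendsto (fun b => H b / b) atBot (𝓝 z0))
    (hf : ∀ z y, IsGreatest {y | (y, z) ∈ M} y → f z = y) :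
    z0 ≤ z1 ∧ IntervalIntegrable f volume z0 z1 ∧
      Integrable (fun b => (H b - b * H1 b) * H2 b) ∧
      ∫ z in z0..z1, f z = ∫ b, (H b - b * H1 b) * H2 b ∧
      Tendsto H1 atTop (𝓝 z1) ∧ Tendsto H1 atBot (𝓝 z0) ∧
      (∀ z, z0 < z → z < z1 → ∃ y, (y, z) ∈ M) := by
  have k1 : ∀ b, (H b - b * H1 b, H1 b) ∈ M := by
    intro b
    obtain ⟨p, hp, e⟩ := hex b
    have hmin : IsLocalMin (fun c => H c - (p.1 + c * p.2)) b :=
      Filter.Eventually.of_forall fun c => by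
        have := hle c p hp
        simp only; linarith
    have hd : HasDerivAt (fun c => H c - (p.1 + c * p.2)) (H1 b - p.2) b := by
      have := (d1 b).sub (((hasDerivAt_id b).mul_const p.2).const_add p.1)
      rw [one_mul] at this
      exact this
    have h0 := hmin.hasDerivAt_eq_zero hd
    have : (H b - b * H1 b, H1 b) = p := by
      ext
      · simp only; rw [show H1 b = p.2 by linarith]; linarith
      · simp only; linarith
    rw [this]; exact hp
  have mono : Monotone H1 := by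
    intro b c hbc
    rcases hbc.eq_or_lt with rfl | hlt
    · exact le_rfl
    have h1 := hle b _ (k1 c)
    have h2 := hle c _ (k1 b)
    simp only at h1 h2
    nlinarith
  have hb : ∀ b, |H b - b * H1 b| ≤ Y := fun b => hY _ (k1 b)
  have lim : ∀ (F : Filter ℝ) (z : ℝ), Tendsto (fun b => H b / b) F (𝓝 z) →
      Tendsto (fun b : ℝ => b⁻¹) F (𝓝 0) → (∀ᶠ b in F, b ≠ 0) → Tendsto H1 F (𝓝 z) := by
    intro F z h1 h2 h3
    have h4 : Tendsto (fun b => (H b - b * H1 b) * b⁻¹) F (𝓝 0) := by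
      apply bdd_le_mul_tendsto_zero' (C := Y) (Eventually.of_forall hb) h2
    have h5 := h1.sub h4
    rw [sub_zero] at h5
    refine h5.congr' ?_
    filter_upwards [h3] with b hb0
    field_simp; ring
  have t1 := lim atTop z1 l1 tendsto_inv_atTop_zero (eventually_ne_atTop 0)
  have t0 := lim atBot z0 l0 tendsto_inv_atBot_zero (eventually_ne_atBot 0)
  have u1 : ∀ b, H1 b ≤ z1 := fun b => mono.ge_of_tendsto t1 b
  have u0 : ∀ b, z0 ≤ H1 b := fun b => mono.le_of_tendsto t0 b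
  have h01 : z0 ≤ z1 := (u0 0).trans (u1 0)
  have cH1 : Continuous H1 := continuous_iff_continuousAt.2 fun b => (d2 b).continuousAt
  have cH : Continuous H := continuous_iff_continuousAt.2 fun b => (d1 b).continuousAt
  have hr : ∀ z, z0 < z → z < z1 → ∃ b, H1 b = z := by
    intro z hz0 hz1
    obtain ⟨a, ha⟩ := (t0.eventually (gt_mem_nhds hz0)).exists
    obtain ⟨c, hc⟩ := (t1.eventually (lt_mem_nhds hz1)).exists
    exact intermediate_value_univ a c cH1 ⟨ha.le, hc.le⟩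
  have pos : ∀ b, 0 ≤ H2 b := fun b => (d2 b).nonneg_of_monotone mono
  have iH2 : Integrable H2 := by
    have i1 : IntegrableOn H2 (Ioi 0) :=
      integrableOn_Ioi_deriv_of_nonneg' (fun x _ => d2 x) (fun x _ => pos x) t1
    have i2 : IntegrableOn (fun x => H2 (-x)) (Ioi 0) := by
      refine integrableOn_Ioi_deriv_of_nonneg' (g := fun x => -H1 (-x)) (l := -z0)
        (fun x _ => ?_) (fun x _ => pos _) (t0.comp tendsto_neg_atTop_atBot).neg
      have := ((d2 (-x)).comp x (hasDerivAt_neg x)).neg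
      rw [mul_neg, neg_neg, mul_one] at this
      exact this
    have i3 : IntegrableOn H2 (Iic 0) := by
      rw [integrableOn_Iic_iff_integrableOn_Iio]
      have := (Measure.measurePreserving_neg (volume : Measure ℝ)).integrableOn_comp_preimage
        (Homeomorph.neg ℝ).measurableEmbedding (f := H2) (s := Iio 0)
      rw [← this]
      simpa [Function.comp_def] using i2
    rw [← integrableOn_univ, ← Iic_union_Ioi (a := (0:ℝ))]
    exact i3.union i1
  have iP : Integrable (fun b => (H b - b * H1 b) * H2 b) :=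
    iH2.bdd_mul (c := Y) (by fun_prop : Continuous fun b => H b - b * H1 b).aestronglyMeasurable
      (Eventually.of_forall hb)
  have hfv : ∀ b, f (H1 b) = H b - b * H1 b := by
    intro b
    refine hf _ _ ⟨k1 b, fun y hy => ?_⟩
    have := hle b _ hy
    simp only at this; linarith
  have hae : (H1 '' univ : Set ℝ) =ᵐ[volume] Ioc z0 z1 := by
    have n0 : ∀ᵐ z : ℝ, z ≠ z0 := Measure.ae_ne volume z0
    have n1 : ∀ᵐ z : ℝ, z ≠ z1 := Measure.ae_ne volume z1
    filter_upwards [n0, n1] with z hz0 hz1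
    apply propext
    constructor
    · rintro ⟨b, -, rfl⟩
      exact ⟨lt_of_le_of_ne (u0 b) (Ne.symm hz0), u1 b⟩
    · rintro ⟨h1, h2⟩
      obtain ⟨b, hb⟩ := hr z h1 (lt_of_le_of_ne h2 hz1)
      exact ⟨b, trivial, hb⟩
  have hd : ∀ x ∈ (univ : Set ℝ), HasDerivWithinAt H1 (H2 x) univ x :=
    fun x _ => (d2 x).hasDerivWithinAt
  have e1 := integrableOn_image_iff_integrableOn_deriv_smul_of_monotoneOn MeasurableSet.univ hd
    (mono.monotoneOn _) f
  have e2 := integral_image_eq_integral_deriv_smul_of_monotoneOn MeasurableSet.univ hd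
    (mono.monotoneOn _) f
  simp only [hfv, smul_eq_mul, integrableOn_univ, Measure.restrict_univ] at e1 e2
  refine ⟨h01, ?_, iP, ?_, t1, t0, fun z h1 h2 => ?_⟩
  · rw [intervalIntegrable_iff_integrableOn_Ioc_of_le h01, ← integrableOn_congr_set_ae hae, e1]
    simpa [mul_comm] using iP
  · rw [intervalIntegral.integral_of_le h01, ← setIntegral_congr_set hae, e2]
    simp [mul_comm]
  · obtain ⟨b, rfl⟩ := hr z h1 h2
    exact ⟨_, k1 b⟩

end Pool.Agent.H80.Proj
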