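import Pool.Agent.H80.Proj2

set_option autoImplicit false

namespace Pool.Agent.H80.Proj

open MeasureTheory Set Filter Topology

noncomputable def rho (a b : ℝ) : ℝ := Real.sqrt (a + b ^ 2)

noncomputable def gl (t s A B b : ℝ) : ℝ :=
  (A * (-s ^ 3 + 3 * s * b ^ 2) - B * (3 * s ^ 2 * b - b ^ 3)) *
    ((3 * rho (t ^ 2 + s ^ 2) b + t) / (rho (t ^ 2 + s ^ 2) b + t) ^ 3)

lemma rho_pos {a : ℝ} (ha : 0 < a) (b : ℝ) : 0 < rho a b :=
  Real.sqrt_pos.2 (by positivity)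

lemma rho_sq {a : ℝ} (ha : 0 < a) (b : ℝ) : rho a b ^ 2 = a + b ^ 2 :=
  Real.sq_sqrt (by positivity)

lemma rho_deriv {a : ℝ} (ha : 0 < a) (b : ℝ) : HasDerivAt (rho a) (b / rho a b) b := by
  have h1 : HasDerivAt (fun b : ℝ => a + b ^ 2) (2 * b) b := by
    simpa using (hasDerivAt_pow 2 b).const_add a
  have h2 := h1.sqrt (by positivity)
  refine HasDerivAt.congr_deriv h2 ?_
  have := rho_pos ha b
  unfold rho at this ⊢
  field_simp

lemma sig_deriv {a : ℝ} (ha : 0 < a) (b : ℝ) :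
    HasDerivAt (fun b => b / rho a b) (a / rho a b ^ 3) b := by
  have h0 := rho_pos ha b
  have h1 := (hasDerivAt_id' b).fun_div (rho_deriv ha b) h0.ne'
  refine HasDerivAt.congr_deriv h1 ?_
  have h2 : a = rho a b ^ 2 - b ^ 2 := by rw [rho_sq ha]; ring
  generalize rho a b = r at *
  subst h2
  field_simp

lemma rho_contDiff {a : ℝ} (ha : 0 < a) : ContDiff ℝ 2 (rho a) := by
  unfold rho
  exact ContDiff.sqrt (by fun_prop) (fun b => by positivity)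

lemma gl_contDiff {t : ℝ} (ht : 0 < t) (s A B : ℝ) : ContDiff ℝ 2 (gl t s A B) := by
  have ha : 0 < t ^ 2 + s ^ 2 := by positivity
  have h1 := rho_contDiff ha
  unfold gl
  refine ContDiff.mul (by fun_prop) (ContDiff.div (by fun_prop) (by fun_prop) fun b => ?_)
  have := rho_pos ha b
  positivity

lemma eta_lim {a : ℝ} (ha : 0 < a) {F : Filter ℝ} (hF : Tendsto (fun b : ℝ => b ^ 2) F atTop) :
    Tendsto (fun b => (rho a b)⁻¹) F (𝓝 0) :=
  tendsto_inv_atTop_zero.comp (Real.tendsto_sqrt_atTop.comp (tendsto_atTop_add_const_left _ _ hF))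

lemma sq_top : Tendsto (fun b : ℝ => b ^ 2) atTop atTop := tendsto_pow_atTop two_ne_zero

lemma sq_bot : Tendsto (fun b : ℝ => b ^ 2) atBot atTop := by
  have := sq_top.comp tendsto_neg_atBot_atTop
  refine this.congr fun b => ?_
  simp

lemma sig_abs {a : ℝ} (ha : 0 < a) (b : ℝ) :
    |b / rho a b| = Real.sqrt (1 - a * ((rho a b)⁻¹) ^ 2) := by
  rw [← Real.sqrt_sq_eq_abs]
  congr 1
  have h0 := rho_pos ha b
  have h2 : a = rho a b ^ 2 - b ^ 2 := by rw [rho_sq ha]; ring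
  generalize rho a b = r at *
  subst h2
  field_simp; ring

lemma sig_lim_abs {a : ℝ} (ha : 0 < a) {F : Filter ℝ}
    (hF : Tendsto (fun b : ℝ => b ^ 2) F atTop) :
    Tendsto (fun b => |b / rho a b|) F (𝓝 1) := by
  simp_rw [sig_abs ha]
  have h1 : Continuous fun e : ℝ => Real.sqrt (1 - a * e ^ 2) := by fun_prop
  have := (h1.tendsto 0).comp (eta_lim ha hF)
  simpa [Function.comp_def] using this

lemma sig_top {a : ℝ} (ha : 0 < a) : Tendsto (fun b => b / rho a b) atTop (𝓝 1) := by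
  refine (sig_lim_abs ha sq_top).congr' ?_
  filter_upwards [eventually_ge_atTop 0] with b hb
  exact abs_of_nonneg (div_nonneg hb (rho_pos ha b).le)

lemma sig_bot {a : ℝ} (ha : 0 < a) : Tendsto (fun b => b / rho a b) atBot (𝓝 (-1)) := by
  refine (sig_lim_abs ha sq_bot).neg.congr' ?_
  filter_upwards [eventually_le_atBot 0] with b hb
  rw [abs_of_nonpos (div_nonpos_of_nonpos_of_nonneg hb (rho_pos ha b).le), neg_neg]

lemma H_lim {t : ℝ} (ht : 0 < t) (s A B c d k : ℝ) {F : Filter ℝ} {e : ℝ} (he : e ^ 2 = 1)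
    (h1 : Tendsto (fun b => b / rho (t ^ 2 + s ^ 2) b) F (𝓝 e))
    (h2 : Tendsto (fun b => (rho (t ^ 2 + s ^ 2) b)⁻¹) F (𝓝 0)) (h3 : ∀ᶠ b in F, b ≠ 0) :
    Tendsto (fun b => (c * rho (t ^ 2 + s ^ 2) b + d + k * gl t s A B b) / b) F
      (𝓝 (c * e + k * (3 * B))) := by
  have ha : 0 < t ^ 2 + s ^ 2 := by positivity
  have he0 : e ≠ 0 := by rintro rfl; simp at he
  have hc : ContinuousAt (fun p : ℝ × ℝ => (c + d * p.2 + k * ((A * (-s ^ 3 * p.2 ^ 3 +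
      3 * s * p.2 * p.1 ^ 2) - B * (3 * s ^ 2 * p.2 ^ 2 * p.1 - p.1 ^ 3)) *
      ((3 + t * p.2) / (1 + t * p.2) ^ 3))) / p.1) (e, 0) := by
    refine ContinuousAt.div ?_ (by fun_prop) he0
    refine ContinuousAt.add (by fun_prop) (ContinuousAt.mul (by fun_prop)
      (ContinuousAt.mul (by fun_prop) (ContinuousAt.div (by fun_prop) (by fun_prop) (by simp))))
  have h4 := hc.tendsto.comp (h1.prodMk_nhds h2)
  have h5 : (c + d * (0:ℝ) + k * ((A * (-s ^ 3 * (0:ℝ) ^ 3 +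
      3 * s * 0 * e ^ 2) - B * (3 * s ^ 2 * (0:ℝ) ^ 2 * e - e ^ 3)) *
      ((3 + t * 0) / (1 + t * 0) ^ 3))) / e = c * e + k * (3 * B) := by
    field_simp
    linear_combination (-c + 3 * k * B * e) * he
  simp only at h4
  rw [h5] at h4
  refine h4.congr' ?_
  filter_upwards [h3] with b hb
  have h0 := rho_pos ha b
  simp only [Function.comp, gl]
  generalize rho (t ^ 2 + s ^ 2) b = r at *
  field_simp

noncomputable def Fe (t s b : ℝ) : ℝ :=
  b * (rho (t ^ 2 + s ^ 2) b ^ 2 + 2 * t * rho (t ^ 2 + s ^ 2) b - 3 * (t ^ 2 + s ^ 2) - s ^ 2) /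
    (rho (t ^ 2 + s ^ 2) b * (rho (t ^ 2 + s ^ 2) b + t) ^ 2)

noncomputable def Fo (t s b : ℝ) : ℝ :=
  (t ^ 2 + s ^ 2) * (3 * rho (t ^ 2 + s ^ 2) b ^ 2 + 2 * t * rho (t ^ 2 + s ^ 2) b - 3 * s ^ 2 -
    (t ^ 2 + s ^ 2)) / (rho (t ^ 2 + s ^ 2) b * (rho (t ^ 2 + s ^ 2) b + t) ^ 2)

lemma Fe_deriv {t : ℝ} (ht : 0 < t) (s b : ℝ) :
    HasDerivAt (Fe t s) ((3 * b ^ 2 - s ^ 2) * ((3 * rho (t ^ 2 + s ^ 2) b + t) /
      (rho (t ^ 2 + s ^ 2) b + t) ^ 3) * ((t ^ 2 + s ^ 2) / rho (t ^ 2 + s ^ 2) b ^ 3)) b := by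
  have ha : 0 < t ^ 2 + s ^ 2 := by positivity
  have h0 := rho_pos ha b
  have r := rho_deriv ha b
  have h1 := ((hasDerivAt_id' b).fun_mul ((((r.fun_pow 2).fun_add (r.const_mul (2 * t))).sub_const
    (3 * (t ^ 2 + s ^ 2))).sub_const (s ^ 2))).fun_div (r.fun_mul ((r.add_const t).fun_pow 2))
    (by positivity)
  refine HasDerivAt.congr_deriv h1 ?_
  have h2 : s ^ 2 = rho (t ^ 2 + s ^ 2) b ^ 2 - b ^ 2 - t ^ 2 := by rw [rho_sq ha]; ring
  generalize rho (t ^ 2 + s ^ 2) b = r at *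
  rw [h2]
  simp only [Nat.cast_ofNat, Nat.add_one_sub_one, pow_one]
  field_simp; ring

lemma Fo_deriv {t : ℝ} (ht : 0 < t) (s b : ℝ) :
    HasDerivAt (Fo t s) ((3 * s ^ 2 * b - b ^ 3) * ((3 * rho (t ^ 2 + s ^ 2) b + t) /
      (rho (t ^ 2 + s ^ 2) b + t) ^ 3) * ((t ^ 2 + s ^ 2) / rho (t ^ 2 + s ^ 2) b ^ 3)) b := by
  have ha : 0 < t ^ 2 + s ^ 2 := by positivity
  have h0 := rho_pos ha b
  have r := rho_deriv ha b
  have h1 := ((((((r.fun_pow 2).const_mul 3).fun_add (r.const_mul (2 * t))).sub_const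
    (3 * s ^ 2)).sub_const (t ^ 2 + s ^ 2)).const_mul (t ^ 2 + s ^ 2)).fun_div
    (r.fun_mul ((r.add_const t).fun_pow 2)) (by positivity)
  refine HasDerivAt.congr_deriv h1 ?_
  have h2 : s ^ 2 = rho (t ^ 2 + s ^ 2) b ^ 2 - b ^ 2 - t ^ 2 := by rw [rho_sq ha]; ring
  generalize rho (t ^ 2 + s ^ 2) b = r at *
  rw [h2]
  simp only [Nat.cast_ofNat, Nat.add_one_sub_one, pow_one]
  field_simp; ring

lemma W_lim {t : ℝ} (ht : 0 < t) (s A B c d : ℝ) {F : Filter ℝ} {e γ : ℝ} {g1 : ℝ → ℝ}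
    (h1 : Tendsto (fun b => b / rho (t ^ 2 + s ^ 2) b) F (𝓝 e))
    (h2 : Tendsto (fun b => (rho (t ^ 2 + s ^ 2) b)⁻¹) F (𝓝 0)) (h3 : Tendsto g1 F (𝓝 γ)) :
    Tendsto (fun b => 2 * ((c * (t ^ 2 + s ^ 2) * (rho (t ^ 2 + s ^ 2) b)⁻¹ + d) * g1 b) +
      2 * c * (A * s * Fe t s b - B * Fo t s b)) F (𝓝 (2 * (d * γ) + 2 * c * (A * s * e))) := by
  have ha : 0 < t ^ 2 + s ^ 2 := by positivity
  have hc1 : ContinuousAt (fun p : ℝ × ℝ => p.1 * (1 + 2 * t * p.2 -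
      (3 * (t ^ 2 + s ^ 2) + s ^ 2) * p.2 ^ 2) / (1 + t * p.2) ^ 2) (e, 0) :=
    ContinuousAt.div (by fun_prop) (by fun_prop) (by simp)
  have hc2 : ContinuousAt (fun x : ℝ => (t ^ 2 + s ^ 2) * x * (3 + 2 * t * x -
      (3 * s ^ 2 + (t ^ 2 + s ^ 2)) * x ^ 2) / (1 + t * x) ^ 2) 0 :=
    ContinuousAt.div (by fun_prop) (by fun_prop) (by simp)
  have k1 : Tendsto (Fe t s) F (𝓝 e) := by
    have h4 := hc1.tendsto.comp (h1.prodMk_nhds h2)
    simp only [mul_zero, add_zero, ne_eq, OfNat.ofNat_ne_zero, not_false_eq_true, zero_pow,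
      sub_zero, mul_one, one_pow, div_one] at h4
    refine h4.congr fun b => ?_
    have h0 := rho_pos ha b
    simp only [Function.comp, Fe]
    generalize rho (t ^ 2 + s ^ 2) b = r at *
    field_simp; ring
  have k2 : Tendsto (Fo t s) F (𝓝 0) := by
    have h4 := hc2.tendsto.comp h2
    simp only [mul_zero, zero_mul, zero_div] at h4
    refine h4.congr fun b => ?_
    have h0 := rho_pos ha b
    simp only [Function.comp, Fo]
    generalize rho (t ^ 2 + s ^ 2) b = r at *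
    field_simp; ring
  have := ((((h2.const_mul (c * (t ^ 2 + s ^ 2))).add_const d).mul h3).const_mul 2).add
    (((k1.const_mul (A * s)).sub (k2.const_mul B)).const_mul (2 * c))
  simpa using this

lemma pair {t : ℝ} (ht : 0 < t) (s A B c d : ℝ) {M1 M2 : Set (ℝ × ℝ)} {Y : ℝ} {f1 f2 : ℝ → ℝ}
    (hY1 : ∀ p ∈ M1, |p.1| ≤ Y) (hY2 : ∀ p ∈ M2, |p.1| ≤ Y)
    (hle1 : ∀ b, ∀ p ∈ M1, p.1 + b * p.2 ≤ c * rho (t ^ 2 + s ^ 2) b + d + 1 * gl t s A B b)
    (hex1 : ∀ b, ∃ p ∈ M1, p.1 + b * p.2 = c * rho (t ^ 2 + s ^ 2) b + d + 1 * gl t s A B b)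
    (hle2 : ∀ b, ∀ p ∈ M2, p.1 + b * p.2 ≤ c * rho (t ^ 2 + s ^ 2) b + d + (-1) * gl t s A B b)
    (hex2 : ∀ b, ∃ p ∈ M2, p.1 + b * p.2 = c * rho (t ^ 2 + s ^ 2) b + d + (-1) * gl t s A B b)
    (hf1 : ∀ z y, IsGreatest {y | (y, z) ∈ M1} y → f1 z = y)
    (hf2 : ∀ z y, IsGreatest {y | (y, z) ∈ M2} y → f2 (-z) = y) :
    -c + 3 * B ≤ c + 3 * B ∧
      IntervalIntegrable (fun z => f1 z - f2 z) volume (-c + 3 * B) (c + 3 * B) ∧
      ∫ z in (-c + 3 * B)..(c + 3 * B), (f1 z - f2 z) = 4 * c * A * s ∧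
      ∀ z, -c + 3 * B < z → z < c + 3 * B → ∃ y, (y, z) ∈ M1 := by
  have ha : 0 < t ^ 2 + s ^ 2 := by positivity
  have hg := gl_contDiff ht s A B
  have hg1 : ContDiff ℝ 1 (deriv (gl t s A B)) := by
    have : ContDiff ℝ (1 + 1) (gl t s A B) := by simpa [one_add_one_eq_two] using hg
    exact this.deriv'
  set g1 := deriv (gl t s A B) with hg1def
  set g2 := deriv g1 with hg2def
  have dg : ∀ b, HasDerivAt (gl t s A B) (g1 b) b := fun b =>
    (hg.differentiable (by norm_num) b).hasDerivAt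
  have dg1 : ∀ b, HasDerivAt g1 (g2 b) b := fun b =>
    (hg1.differentiable (by norm_num) b).hasDerivAt
  have cg2 : Continuous g2 := hg1.continuous_deriv le_rfl
  have cr : Continuous (rho (t ^ 2 + s ^ 2)) := (rho_contDiff ha).continuous
  have cE : Continuous fun b => (t ^ 2 + s ^ 2) / rho (t ^ 2 + s ^ 2) b ^ 3 :=
    continuous_const.div (cr.pow 3) fun b => (pow_pos (rho_pos ha b) 3).ne'
  have D1 : ∀ k b : ℝ, HasDerivAt (fun b => c * rho (t ^ 2 + s ^ 2) b + d + k * gl t s A B b)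
      (c * (b / rho (t ^ 2 + s ^ 2) b) + k * g1 b) b := fun k b =>
    (((rho_deriv ha b).const_mul c).add_const d).fun_add ((dg b).const_mul k)
  have D2 : ∀ k b : ℝ, HasDerivAt (fun b => c * (b / rho (t ^ 2 + s ^ 2) b) + k * g1 b)
      (c * ((t ^ 2 + s ^ 2) / rho (t ^ 2 + s ^ 2) b ^ 3) + k * g2 b) b := fun k b =>
    ((sig_deriv ha b).const_mul c).fun_add ((dg1 b).const_mul k)
  have C2 : ∀ k : ℝ, Continuous fun b => c * ((t ^ 2 + s ^ 2) / rho (t ^ 2 + s ^ 2) b ^ 3) +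
      k * g2 b := fun k => (continuous_const.mul cE).add (continuous_const.mul cg2)
  have Lt := fun k => H_lim ht s A B c d k (e := 1) (by norm_num) (sig_top ha) (eta_lim ha sq_top)
    (eventually_ne_atTop 0)
  have Lb := fun k => H_lim ht s A B c d k (e := -1) (by norm_num) (sig_bot ha)
    (eta_lim ha sq_bot) (eventually_ne_atBot 0)
  obtain ⟨a1, a2, a3, a4, a5, a6, a7⟩ := legendre hY1 hle1 hex1 (D1 1) (D2 1) (C2 1) (Lt 1) (Lb 1) hf1
  obtain ⟨b1, b2, b3, b4, -, -, -⟩ := legendre (f := fun z => f2 (-z)) hY2 hle2 hex2 (D1 (-1))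
    (D2 (-1)) (C2 (-1)) (Lt (-1)) (Lb (-1)) hf2
  have e1 : c * 1 + 1 * (3 * B) = c + 3 * B := by ring
  have e2 : c * -1 + 1 * (3 * B) = -c + 3 * B := by ring
  have e3 : c * 1 + -1 * (3 * B) = -(-c + 3 * B) := by ring
  have e4 : c * -1 + -1 * (3 * B) = -(c + 3 * B) := by ring
  rw [e1] at a1 a2 a4 a5 a7
  rw [e2] at a1 a2 a4 a6 a7
  rw [e3, e4] at b2 b4
  rw [intervalIntegral.integral_comp_neg, neg_neg, neg_neg] at b4
  have b2' : IntervalIntegrable f2 volume (-c + 3 * B) (c + 3 * B) := by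
    have := (IntervalIntegrable.iff_comp_neg (f := f2) (a := c + 3 * B) (b := -c + 3 * B)).2 b2
    exact this.symm
  refine ⟨a1, a2.sub b2', ?_, a7⟩
  rw [intervalIntegral.integral_sub a2 b2', a4, b4, ← integral_sub a3 b3]
  have g1t : Tendsto g1 atTop (𝓝 (3 * B)) := by
    have := a5.sub ((sig_top ha).const_mul c)
    simpa using this
  have g1b : Tendsto g1 atBot (𝓝 (3 * B)) := by
    have := a6.sub ((sig_bot ha).const_mul c)
    simpa using this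
  have Wt := W_lim ht s A B c d (sig_top ha) (eta_lim ha sq_top) g1t
  have Wb := W_lim ht s A B c d (sig_bot ha) (eta_lim ha sq_bot) g1b
  refine (integral_of_hasDerivAt_of_tendsto (fun b => ?_) (a3.sub b3) Wb Wt).trans (by ring)
  · have h0 := rho_pos ha b
    have h1 := ((((((rho_deriv ha b).fun_inv h0.ne').const_mul (c * (t ^ 2 + s ^ 2))).add_const
      d).fun_mul (dg1 b)).const_mul 2).fun_add ((((Fe_deriv ht s b).const_mul (A * s)).fun_sub
      ((Fo_deriv ht s b).const_mul B)).const_mul (2 * c))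
    refine HasDerivAt.congr_deriv h1 ?_
    have h2 : rho (t ^ 2 + s ^ 2) b - b * (b / rho (t ^ 2 + s ^ 2) b) =
        (t ^ 2 + s ^ 2) * (rho (t ^ 2 + s ^ 2) b)⁻¹ := by
      have := rho_sq ha b
      field_simp; linarith
    have h3 : -(b / rho (t ^ 2 + s ^ 2) b) / rho (t ^ 2 + s ^ 2) b ^ 2 * (t ^ 2 + s ^ 2) =
        -b * ((t ^ 2 + s ^ 2) / rho (t ^ 2 + s ^ 2) b ^ 3) := by
      field_simp
    simp only [Pi.sub_apply, gl]
    linear_combination (2 * c * g1 b) * h3 - (2 * c * g2 b) * h2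

end Pool.Agent.H80.Proj
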