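import Mathlib

set_option autoImplicit false

namespace Pool.Agent.H80.Proj

open Set Filter Topology
open scoped RealInnerProductSpace

lemma hom_support {E : Type} [NormedAddCommGroup E] [InnerProductSpace ℝ E]
    [FiniteDimensional ℝ E] (e : E →L[ℝ] ℝ) (G : E → ℝ)
    (hG : ∀ w, 0 ≤ e w → w ≠ 0 → ContDiffAt ℝ 2 G w)
    (hh : ∀ l : ℝ, 0 < l → ∀ w, G (l • w) = l * G w) (h0 : G 0 = 0) :
    ∃ C B : ℝ, 0 ≤ C ∧ 0 ≤ B ∧ ∀ w, 0 ≤ e w → ‖w‖ = 1 → ∃ φ : E →L[ℝ] ℝ, ‖φ‖ ≤ B ∧ φ w = G w ∧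
      ∀ w', 0 ≤ e w' → C * ⟪w, w'⟫ + φ w' ≤ C * ‖w'‖ + G w' := by
  set K : Set E := {w | 0 ≤ e w ∧ 1 / 2 ≤ ‖w‖ ∧ ‖w‖ ≤ 1} with hK
  have cK : IsCompact K := by
    refine (isCompact_closedBall (0 : E) 1).of_isClosed_subset ?_ ?_
    · exact (isClosed_le continuous_const e.continuous).inter
        ((isClosed_le continuous_const continuous_norm).inter
          (isClosed_le continuous_norm continuous_const))
    · intro w hw; simpa using hw.2.2
  have k2 : ∀ w ∈ K, ContDiffAt ℝ 2 G w := fun w hw => hG w hw.1 (by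
    rintro rfl
    have := hw.2.1
    simp at this; linarith)
  have k1 : ∀ w ∈ K, ContDiffAt ℝ 1 (fderiv ℝ G) w := fun w hw =>
    (k2 w hw).fderiv_right (by norm_num)
  have k0 : ∀ w ∈ K, ContDiffAt ℝ 0 (fderiv ℝ (fderiv ℝ G)) w := fun w hw =>
    (k1 w hw).fderiv_right (by norm_num)
  obtain ⟨B0, hB0⟩ := cK.exists_bound_of_continuousOn (f := G)
    fun w hw => (k2 w hw).continuousAt.continuousWithinAt
  obtain ⟨B1, hB1⟩ := cK.exists_bound_of_continuousOn (f := fderiv ℝ G)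
    fun w hw => (k1 w hw).continuousAt.continuousWithinAt
  obtain ⟨B2, hB2⟩ := cK.exists_bound_of_continuousOn (f := fderiv ℝ (fderiv ℝ G))
    fun w hw => (k0 w hw).continuousAt.continuousWithinAt
  refine ⟨2 * (|B0| + |B1| + |B2|), |B1|, by positivity, abs_nonneg _, fun w hw hn => ?_⟩
  have wK : w ∈ K := ⟨hw, by rw [hn]; norm_num, hn.le⟩
  have euler : fderiv ℝ G w w = G w := by
    have d1 : HasFDerivAt G (fderiv ℝ G w) ((1:ℝ) • w) := by
      rw [one_smul]; exact ((k2 w wK).differentiableAt (by norm_num)).hasFDerivAt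
    have d2 : HasDerivAt (fun l : ℝ => l • w) w 1 := by
      simpa using (hasDerivAt_id (1:ℝ)).smul_const w
    have d3 : HasDerivAt (fun l : ℝ => G (l • w)) (fderiv ℝ G w w) 1 := d1.comp_hasDerivAt 1 d2
    have d4 : HasDerivAt (fun l : ℝ => G (l • w)) (G w) 1 := by
      have : HasDerivAt (fun l : ℝ => l * G w) (G w) 1 := by
        simpa using (hasDerivAt_id (1:ℝ)).mul_const (G w)
      refine this.congr_of_eventuallyEq ?_
      filter_upwards [lt_mem_nhds (zero_lt_one' ℝ)] with l hl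
      exact hh l hl w
    exact d3.unique d4
  have unit : ∀ w', 0 ≤ e w' → ‖w'‖ = 1 → 2 * (|B0| + |B1| + |B2|) * ⟪w, w'⟫ + fderiv ℝ G w w' ≤
      2 * (|B0| + |B1| + |B2|) + G w' := by
    intro w' hw' hn'
    have w'K : w' ∈ K := ⟨hw', by rw [hn']; norm_num, hn'.le⟩
    have hd : ‖w' - w‖ ^ 2 = 2 - 2 * ⟪w, w'⟫ := by
      rw [norm_sub_sq_real, hn, hn', real_inner_comm]; ring
    have a0 := abs_nonneg B0
    have a1 := abs_nonneg B1
    have a2 := abs_nonneg B2
    by_cases hfar : 1 ≤ ‖w' - w‖ ^ 2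
    · have g0 : |G w'| ≤ |B0| := (hB0 w' w'K).trans (le_abs_self _)
      have g1 : |fderiv ℝ G w w'| ≤ |B1| := by
        have := (fderiv ℝ G w).le_opNorm w'
        rw [hn', mul_one] at this
        exact this.trans ((hB1 w wK).trans (le_abs_self _))
      have := abs_le.1 g0
      have := abs_le.1 g1
      nlinarith
    · have hs : segment ℝ w w' ⊆ K := by
        rintro _ ⟨a, b, ha, hb, hab, rfl⟩
        have n2 : ‖a • w + b • w'‖ ^ 2 = 1 - a * b * ‖w' - w‖ ^ 2 := by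
          rw [norm_add_sq_real, norm_smul, norm_smul, hn, hn', hd, real_inner_smul_left,
            real_inner_smul_right, Real.norm_eq_abs, Real.norm_eq_abs, mul_one, mul_one, sq_abs,
            sq_abs]
          have : a = 1 - b := by linarith
          subst this; ring
        have hab' : a * b ≤ 1 / 4 := by nlinarith [sq_nonneg (a - b)]
        have hab0 : 0 ≤ a * b := mul_nonneg ha hb
        have hq := sq_nonneg ‖w' - w‖
        refine ⟨by simp only [map_add, map_smul, smul_eq_mul]; positivity, ?_, ?_⟩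
        · apply (sq_le_sq₀ (by norm_num) (norm_nonneg _)).1
          nlinarith
        · apply (sq_le_sq₀ (norm_nonneg _) zero_le_one).1
          nlinarith
      have cs := convex_segment (𝕜 := ℝ) w w'
      have lip : ∀ x ∈ segment ℝ w w', ‖fderiv ℝ G x - fderiv ℝ G w‖ ≤ |B2| * ‖w' - w‖ := by
        intro x hx
        have := cs.norm_image_sub_le_of_norm_fderiv_le (𝕜 := ℝ) (f := fderiv ℝ G) (C := |B2|)
          (fun y hy => (k1 y (hs hy)).differentiableAt (by norm_num))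
          (fun y hy => (hB2 y (hs hy)).trans (le_abs_self _)) (left_mem_segment _ _ _) hx
        refine this.trans (mul_le_mul_of_nonneg_left ?_ a2)
        obtain ⟨a, b, ha, hb, hab, rfl⟩ := hx
        have : a • w + b • w' - w = b • (w' - w) := by
          have : a = 1 - b := by linarith
          subst this; module
        rw [this, norm_smul, Real.norm_eq_abs, abs_of_nonneg hb]
        exact mul_le_of_le_one_left (norm_nonneg _) (by linarith)
      have tay := cs.norm_image_sub_le_of_norm_fderiv_le' (𝕜 := ℝ) (f := G) (φ := fderiv ℝ G w)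
        (fun y hy => (k2 y (hs hy)).differentiableAt (by norm_num)) lip
        (left_mem_segment _ _ _) (right_mem_segment _ _ _)
      rw [map_sub, euler, Real.norm_eq_abs, mul_assoc, ← sq] at tay
      have := (abs_le.1 tay).1
      have hq := sq_nonneg ‖w' - w‖
      nlinarith
  refine ⟨fderiv ℝ G w, (hB1 w wK).trans (le_abs_self _), euler, fun w' hw' => ?_⟩
  rcases eq_or_ne w' 0 with rfl | hne
  · simp [h0]
  · have hp : 0 < ‖w'‖ := norm_pos_iff.2 hne
    have h1 := unit (‖w'‖⁻¹ • w') (by simp only [map_smul, smul_eq_mul]; positivity)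
      (by rw [norm_smul, norm_inv, norm_norm, inv_mul_cancel₀ hp.ne'])
    rw [hh _ (inv_pos.2 hp), map_smul, real_inner_smul_right, smul_eq_mul] at h1
    have h2 := mul_le_mul_of_nonneg_left h1 hp.le
    have h3 : ‖w'‖ * ‖w'‖⁻¹ = 1 := mul_inv_cancel₀ hp.ne'
    generalize ‖w'‖⁻¹ = i at *
    linear_combination h2 + (2 * (|B0| + |B1| + |B2|) * ⟪w, w'⟫ + fderiv ℝ G w w' - G w') * (-h3)

noncomputable def Gf (t z1 z2 : ℝ) : ℝ :=
  (z1 ^ 3 - 3 * z1 * z2 ^ 2) * ((3 * Real.sqrt (t ^ 2 + z1 ^ 2 + z2 ^ 2) + t) /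
    (Real.sqrt (t ^ 2 + z1 ^ 2 + z2 ^ 2) + t) ^ 3)

lemma Gf_hom {l : ℝ} (hl : 0 < l) (t z1 z2 : ℝ) : Gf (l * t) (l * z1) (l * z2) = l * Gf t z1 z2 := by
  unfold Gf
  have : Real.sqrt ((l * t) ^ 2 + (l * z1) ^ 2 + (l * z2) ^ 2) =
      l * Real.sqrt (t ^ 2 + z1 ^ 2 + z2 ^ 2) := by
    rw [show (l * t) ^ 2 + (l * z1) ^ 2 + (l * z2) ^ 2 = l ^ 2 * (t ^ 2 + z1 ^ 2 + z2 ^ 2) by ring,
      Real.sqrt_mul (sq_nonneg l), Real.sqrt_sq hl.le]
  rw [this, ← mul_add, mul_pow]
  generalize Real.sqrt (t ^ 2 + z1 ^ 2 + z2 ^ 2) = r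
  by_cases h : r + t = 0
  · simp [h]
  · field_simp

lemma Gf_neg (t z1 z2 : ℝ) : Gf t (-z1) (-z2) = -Gf t z1 z2 := by
  unfold Gf
  rw [neg_sq, neg_sq]; ring

lemma norm3 (w : EuclideanSpace ℝ (Fin 3)) : ‖w‖ = Real.sqrt (w 0 ^ 2 + w 1 ^ 2 + w 2 ^ 2) := by
  rw [EuclideanSpace.norm_eq]; simp [Fin.sum_univ_three]

lemma Gf_support : ∃ C C' : ℝ, 0 ≤ C ∧ ∀ t z1 z2 : ℝ, 0 ≤ t → t ^ 2 + z1 ^ 2 + z2 ^ 2 = 1 →
    ∃ α β1 β2 : ℝ, |α| ≤ C' ∧ α * t + β1 * z1 + β2 * z2 = Gf t z1 z2 ∧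
      ∀ t' z1' z2' : ℝ, 0 ≤ t' → C * (t * t' + z1 * z1' + z2 * z2') +
        (α * t' + β1 * z1' + β2 * z2') ≤
        C * Real.sqrt (t' ^ 2 + z1' ^ 2 + z2' ^ 2) + Gf t' z1' z2' := by
  obtain ⟨C, B, hC, hB, h⟩ := hom_support (E := EuclideanSpace ℝ (Fin 3)) (EuclideanSpace.proj 0)
    (fun w => Gf (w 0) (w 1) (w 2)) (fun w hw hne => by
      have hn : ContDiffAt ℝ 2 (fun w : EuclideanSpace ℝ (Fin 3) => ‖w‖) w := contDiffAt_norm ℝ hne
      have hc : ∀ i, ContDiffAt ℝ 2 (fun w : EuclideanSpace ℝ (Fin 3) => w i) w := fun i =>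
        (EuclideanSpace.proj i : EuclideanSpace ℝ (Fin 3) →L[ℝ] ℝ).contDiff.contDiffAt
      have hp : 0 < ‖w‖ := norm_pos_iff.2 hne
      have hw' : 0 ≤ w 0 := hw
      simp only [Gf, ← norm3]
      exact (((hc 1).pow 3).sub ((contDiffAt_const.mul (hc 1)).mul ((hc 2).pow 2))).mul
        (((contDiffAt_const.mul hn).add (hc 0)).div ((hn.add (hc 0)).pow 3) (by positivity)))
    (fun l hl w => by simpa using Gf_hom hl _ _ _) (by simp [Gf])
  refine ⟨C, B, hC, fun t z1 z2 ht h1 => ?_⟩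
  obtain ⟨φ, h2, h3, h4⟩ := h !₂[t, z1, z2] (by simpa using ht) (by rw [norm3]; simp [h1])
  have dec : ∀ a b c : ℝ, φ !₂[a, b, c] = φ (EuclideanSpace.single 0 1) * a +
      φ (EuclideanSpace.single 1 1) * b + φ (EuclideanSpace.single 2 1) * c := by
    intro a b c
    have : (!₂[a, b, c] : EuclideanSpace ℝ (Fin 3)) = a • EuclideanSpace.single 0 1 +
        b • EuclideanSpace.single 1 1 + c • EuclideanSpace.single 2 1 := by
      ext i; fin_cases i <;> simp
    rw [this]; simp only [map_add, map_smul, smul_eq_mul]; ring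
  refine ⟨φ (EuclideanSpace.single 0 1), φ (EuclideanSpace.single 1 1),
    φ (EuclideanSpace.single 2 1), ?_, ?_, fun t' z1' z2' ht' => ?_⟩
  · have := φ.le_opNorm (EuclideanSpace.single 0 1)
    simp only [EuclideanSpace.norm_single, norm_one, mul_one] at this
    exact this.trans h2
  · rw [← dec, h3]; simp
  · have := h4 !₂[t', z1', z2'] (by simpa using ht')
    rw [dec, norm3] at this
    simp only [PiLp.inner_apply, Fin.sum_univ_three] at this
    simpa [mul_comm] using this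

abbrev E4 := EuclideanSpace ℝ (Fin 4)

noncomputable def xn (v : E4) : ℝ := Real.sqrt (v 0 ^ 2 + v 1 ^ 2)

noncomputable def hQ (C C' : ℝ) (v : E4) : ℝ := C * ‖v‖ + C' * xn v + Gf (xn v) (v 2) (v 3)

lemma inner4 (v p : E4) : ⟪v, p⟫ = v 0 * p 0 + v 1 * p 1 + v 2 * p 2 + v 3 * p 3 := by
  simp only [PiLp.inner_apply, Fin.sum_univ_four]; simp [mul_comm]

lemma xn_sq (v : E4) : xn v ^ 2 = v 0 ^ 2 + v 1 ^ 2 := Real.sq_sqrt (by positivity)

lemma norm4 (v : E4) : ‖v‖ = Real.sqrt (xn v ^ 2 + v 2 ^ 2 + v 3 ^ 2) := by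
  rw [EuclideanSpace.norm_eq, xn_sq]; simp [Fin.sum_univ_four]

lemma exists_Q : ∃ (C C' : ℝ) (Q : Set E4), 0 ≤ C ∧ IsCompact Q ∧ Convex ℝ Q ∧
    (∀ p ∈ Q, ∀ v, ⟪v, p⟫ ≤ hQ C C' v) ∧ ∀ v, 0 < xn v → ∃ p ∈ Q, ⟪v, p⟫ = hQ C C' v := by
  obtain ⟨C, C', hC, h⟩ := Gf_support
  refine ⟨C, C', {p | ∀ v, ⟪v, p⟫ ≤ hQ C C' v}, hC, ?_, ?_, fun p hp => hp, fun v hv => ?_⟩
  · apply Metric.isCompact_of_isClosed_isBounded
    · rw [setOf_forall]
      exact isClosed_iInter fun v => isClosed_le (by fun_prop) continuous_const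
    · rw [isBounded_iff_forall_norm_le]
      set b : Fin 4 → ℝ := fun i => |hQ C C' (EuclideanSpace.single i 1)| +
        |hQ C C' (-EuclideanSpace.single i 1)|
      refine ⟨Real.sqrt (∑ i, b i ^ 2), fun p hp => ?_⟩
      rw [EuclideanSpace.norm_eq]
      apply Real.sqrt_le_sqrt
      apply Finset.sum_le_sum
      intro i _
      have h1 := hp (EuclideanSpace.single i 1)
      have h2 := hp (-EuclideanSpace.single i 1)
      rw [inner_neg_left] at h2
      rw [EuclideanSpace.inner_single_left] at h1 h2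
      simp only [conj_trivial, one_mul] at h1 h2
      rw [Real.norm_eq_abs, sq_abs]
      apply sq_le_sq'
      · have := le_abs_self (hQ C C' (-EuclideanSpace.single i 1))
        have := abs_nonneg (hQ C C' (EuclideanSpace.single i 1))
        simp only [b]; linarith
      · have := le_abs_self (hQ C C' (EuclideanSpace.single i 1))
        have := abs_nonneg (hQ C C' (-EuclideanSpace.single i 1))
        simp only [b]; linarith
  · intro p hp q hq a b ha hb hab v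
    rw [inner_add_right, real_inner_smul_right, real_inner_smul_right]
    have := hp v
    have := hq v
    calc a * ⟪v, p⟫ + b * ⟪v, q⟫ ≤ a * hQ C C' v + b * hQ C C' v := by gcongr
      _ = hQ C C' v := by rw [← add_mul, hab, one_mul]
  · have hR2 : ‖v‖ ^ 2 = xn v ^ 2 + v 2 ^ 2 + v 3 ^ 2 := by
      rw [norm4, Real.sq_sqrt (by positivity)]
    have hR : 0 < ‖v‖ := by
      rw [norm4]; exact Real.sqrt_pos.2 (by positivity)
    obtain ⟨α, β1, β2, h1, h2, h3⟩ := h (xn v / ‖v‖) (v 2 / ‖v‖) (v 3 / ‖v‖) (by positivity)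
      (by field_simp; linarith)
    set κ := C * (xn v / ‖v‖) + C' + α with hκ
    have hκ0 : 0 ≤ κ := by
      have := (abs_le.1 h1).1
      have : 0 ≤ C * (xn v / ‖v‖) := by positivity
      linarith
    refine ⟨!₂[κ * (v 0 / xn v), κ * (v 1 / xn v), C * (v 2 / ‖v‖) + β1, C * (v 3 / ‖v‖) + β2],
      fun w => ?_, ?_⟩
    · have h4 := h3 (xn w) (w 2) (w 3) (Real.sqrt_nonneg _)
      rw [← norm4] at h4
      have h5 : w 0 * (v 0 / xn v) + w 1 * (v 1 / xn v) ≤ xn w := by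
        apply Real.le_sqrt_of_sq_le
        have e1 : (v 0 / xn v) ^ 2 + (v 1 / xn v) ^ 2 = 1 := by
          have := xn_sq v
          field_simp; linarith
        nlinarith [sq_nonneg (w 0 * (v 1 / xn v) - w 1 * (v 0 / xn v))]
      have h6 := mul_le_mul_of_nonneg_left h5 hκ0
      rw [inner4]
      simp only [hQ, Matrix.cons_val_zero, Matrix.cons_val_one, Matrix.cons_val]
      rw [hκ] at h6 ⊢
      linarith
    · have h4 := Gf_hom hR (xn v / ‖v‖) (v 2 / ‖v‖) (v 3 / ‖v‖)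
      rw [mul_div_cancel₀ _ hR.ne', mul_div_cancel₀ _ hR.ne', mul_div_cancel₀ _ hR.ne'] at h4
      rw [inner4]
      simp only [hQ, Matrix.cons_val_zero, Matrix.cons_val_one, Matrix.cons_val]
      rw [h4, ← h2, hκ]
      have e1 := xn_sq v
      field_simp
      linear_combination (-(C * xn v + C' * ‖v‖ + α * ‖v‖)) * e1 - C * xn v * hR2

end Pool.Agent.H80.Proj
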