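import Mathlib

set_option autoImplicit false

namespace Pool.Agent.H80.Proj

open MeasureTheory

/-- volume of the unit ball of `m`-dimensional Euclidean space -/
noncomputable def kappa (m : ℕ) : ℝ :=
  (volume (Metric.closedBall (0 : EuclideanSpace ℝ (Fin m)) 1)).toReal

variable {W : Type} [NormedAddCommGroup W] [InnerProductSpace ℝ W] [FiniteDimensional ℝ W]
  [MeasurableSpace W] [BorelSpace W]

/-- volume of the parallel set of `K` at distance `r` (Lebesgue measure of the space `W`) -/
noncomputable def parVol (K : Set W) (r : ℝ) : ℝ :=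
  (volume (Metric.cthickening r K)).toReal

/-- the `i`-th intrinsic volume of `K` computed in `W` from the Steiner formula
`parVol K r = ∑ j ≤ d, kappa (d - j) * V j * r ^ (d - j)`, `d = dim W`, `r ≥ 0` -/
noncomputable def intrinsicVol (i : ℕ) (K : Set W) : ℝ :=
  iteratedDerivWithin (Module.finrank ℝ W - i) (parVol K) (Set.Ici 0) 0 /
    (((Module.finrank ℝ W - i).factorial : ℝ) * kappa (Module.finrank ℝ W - i))

/-- orthogonal projection of `K` onto the subspace `S`, as a subset of `S` -/
def proj {n : ℕ} (S : Submodule ℝ (EuclideanSpace ℝ (Fin n)))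
    (K : Set (EuclideanSpace ℝ (Fin n))) : Set S :=
  (fun x => S.orthogonalProjectionOnto x) '' K

/-- parallel volume of `K|S`, computed in `S` -/
noncomputable def projPar {n : ℕ} (S : Submodule ℝ (EuclideanSpace ℝ (Fin n)))
    (K : Set (EuclideanSpace ℝ (Fin n))) (r : ℝ) : ℝ :=
  parVol (proj S K) r

/-- `V_i (K|S)`, computed in `S` -/
noncomputable def projIV {n : ℕ} (i : ℕ) (S : Submodule ℝ (EuclideanSpace ℝ (Fin n)))
    (K : Set (EuclideanSpace ℝ (Fin n))) : ℝ :=
  intrinsicVol i (proj S K)

/-- the hyperplane orthogonal to `u` -/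
noncomputable def perp {n : ℕ} (u : EuclideanSpace ℝ (Fin n)) : Submodule ℝ (EuclideanSpace ℝ (Fin n)) :=
  (ℝ ∙ u)ᗮ

/-- nonempty compact convex sets -/
def IsBody {n : ℕ} (K : Set (EuclideanSpace ℝ (Fin n))) : Prop :=
  K.Nonempty ∧ IsCompact K ∧ Convex ℝ K

end Pool.Agent.H80.Proj
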