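import Pool.Agent.H80.Proj3
import Pool.Agent.H80.Proj4
import Pool.Agent.H80.ProjDefs

set_option autoImplicit false

namespace Pool.Agent.H80.Proj

open MeasureTheory Set Filter Topology Metric
open scoped RealInnerProductSpace Pointwise ENNReal

def T4 : Set E4 := {v | (v 0, v 1) ∈ T0 ∧ v 2 = 0 ∧ v 3 = 0}

lemma T4_eq : T4 = (fun p : ℝ × ℝ => (!₂[p.1, p.2, 0, 0] : E4)) '' T0 := by
  ext v
  constructor
  · rintro ⟨h1, h2, h3⟩
    refine ⟨_, h1, ?_⟩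
    ext i; fin_cases i <;> simp [h2, h3]
  · rintro ⟨p, hp, rfl⟩
    exact ⟨by simpa using hp, by simp, by simp⟩

lemma T4_compact : IsCompact T4 := by
  rw [T4_eq]
  exact T0_compact.image (by fun_prop)

lemma T4_convex : Convex ℝ T4 := by
  rintro p ⟨h1, h2, h3⟩ q ⟨g1, g2, g3⟩ a b ha hb hab
  refine ⟨?_, by simp [h2, g2], by simp [h3, g3]⟩
  have := T0_convex h1 g1 ha hb hab
  convert this using 1
  ext <;> simp

noncomputable def Lam (w a b : E4) : E4 →L[ℝ] ℝ × ℝ × ℝ :=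
  (innerSL ℝ w).prod ((innerSL ℝ a).prod (innerSL ℝ b))

lemma Lam_apply (w a b v : E4) : Lam w a b v = (⟪w, v⟫, ⟪a, v⟫, ⟪b, v⟫) := rfl

def om (y1 y2 : ℝ) : E4 := !₂[0, 0, -y2, y1]

def nu (y1 y2 n1 n2 s : ℝ) : E4 := !₂[n1, n2, -s * y1, -s * y2]

lemma Lam_T4 (y1 y2 sa sb : ℝ) :
    Lam (om y1 y2) (nu y1 y2 1 0 sa) (nu y1 y2 0 1 sb) '' T4 = T3 := by
  ext p
  constructor
  · rintro ⟨v, ⟨h1, h2, h3⟩, rfl⟩
    simp only [Lam_apply, inner4, T3, om, nu]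
    simpa [h2, h3] using h1
  · rintro ⟨h1, h2⟩
    refine ⟨!₂[p.2.1, p.2.2, 0, 0], ⟨by simpa using h2, by simp, by simp⟩, ?_⟩
    simp only [Lam_apply, inner4, om, nu]
    ext <;> simp [h1]

structure Sup (C C' : ℝ) (K : Set E4) : Prop where
  cpt : IsCompact K
  cvx : Convex ℝ K
  le : ∀ p ∈ K, ∀ v, ⟪v, p⟫ ≤ hQ C C' v
  ex : ∀ v, 0 < xn v → ∃ p ∈ K, ⟪v, p⟫ = hQ C C' v

lemma Sup.thick {C C' : ℝ} {K : Set E4} (h : Sup C C' K) {r : ℝ} (hr : 0 ≤ r) :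
    Sup (C + r) C' (K + closedBall 0 r) := by
  refine ⟨h.cpt.add (isCompact_closedBall _ _), h.cvx.add (convex_closedBall _ _), ?_, ?_⟩
  · rintro _ ⟨p, hp, q, hq, rfl⟩ v
    have h1 := h.le p hp v
    have h2 : ⟪v, q⟫ ≤ ‖v‖ * r := (real_inner_le_norm v q).trans
      (mul_le_mul_of_nonneg_left (by simpa using hq) (norm_nonneg _))
    simp only [inner_add_right, hQ] at h1 ⊢
    linarith
  · intro v hv
    obtain ⟨p, hp, e⟩ := h.ex v hv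
    have hR : 0 < ‖v‖ := by
      rw [norm4]; exact Real.sqrt_pos.2 (by positivity)
    refine ⟨p + (r / ‖v‖) • v, ⟨p, hp, (r / ‖v‖) • v, ?_, rfl⟩, ?_⟩
    · rw [mem_closedBall_zero_iff, norm_smul, Real.norm_eq_abs, abs_of_nonneg (by positivity),
        div_mul_cancel₀ _ hR.ne']
    · rw [inner_add_right, e, real_inner_smul_right, real_inner_self_eq_norm_sq]
      simp only [hQ]
      field_simp; ring

lemma xn_neg (v : E4) : xn (-v) = xn v := by simp [xn]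

lemma hQ_line (C C' : ℝ) {y1 y2 : ℝ} (hy : y1 ^ 2 + y2 ^ 2 = 1) (n1 n2 s b : ℝ) :
    hQ C C' (nu y1 y2 n1 n2 s + b • om y1 y2) =
      C * rho (Real.sqrt (n1 ^ 2 + n2 ^ 2) ^ 2 + s ^ 2) b + C' * Real.sqrt (n1 ^ 2 + n2 ^ 2) +
        1 * gl (Real.sqrt (n1 ^ 2 + n2 ^ 2)) s (y1 ^ 3 - 3 * y1 * y2 ^ 2)
          (3 * y1 ^ 2 * y2 - y2 ^ 3) b ∧
    hQ C C' (-(nu y1 y2 n1 n2 s + b • om y1 y2)) =
      C * rho (Real.sqrt (n1 ^ 2 + n2 ^ 2) ^ 2 + s ^ 2) b + C' * Real.sqrt (n1 ^ 2 + n2 ^ 2) +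
        (-1) * gl (Real.sqrt (n1 ^ 2 + n2 ^ 2)) s (y1 ^ 3 - 3 * y1 * y2 ^ 2)
          (3 * y1 ^ 2 * y2 - y2 ^ 3) b ∧
    xn (nu y1 y2 n1 n2 s + b • om y1 y2) = Real.sqrt (n1 ^ 2 + n2 ^ 2) := by
  set v := nu y1 y2 n1 n2 s + b • om y1 y2 with hv
  have e0 : xn v = Real.sqrt (n1 ^ 2 + n2 ^ 2) := by simp [xn, hv, nu, om]
  have e2 : v 2 = -s * y1 - b * y2 := by simp [hv, nu, om]; ring
  have e3 : v 3 = -s * y2 + b * y1 := by simp [hv, nu, om]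
  set t := Real.sqrt (n1 ^ 2 + n2 ^ 2)
  have e4 : Real.sqrt (t ^ 2 + (-s * y1 - b * y2) ^ 2 + (-s * y2 + b * y1) ^ 2) =
      rho (t ^ 2 + s ^ 2) b := by
    unfold rho; congr 1
    linear_combination (s ^ 2 + b ^ 2) * hy
  have e5 : Gf t (-s * y1 - b * y2) (-s * y2 + b * y1) =
      gl t s (y1 ^ 3 - 3 * y1 * y2 ^ 2) (3 * y1 ^ 2 * y2 - y2 ^ 3) b := by
    unfold Gf gl
    rw [e4]; congr 1; ring
  have e6 : ‖v‖ = rho (t ^ 2 + s ^ 2) b := by rw [norm4, e0, e2, e3, e4]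
  refine ⟨?_, ?_, e0⟩
  · unfold hQ; rw [e6, e0, e2, e3, e5, one_mul]
  · unfold hQ
    rw [norm_neg, xn_neg, PiLp.neg_apply, PiLp.neg_apply, Gf_neg, e6, e0, e2, e3, e5, neg_one_mul]

lemma hQ_om (C C' : ℝ) {y1 y2 : ℝ} (hy : y1 ^ 2 + y2 ^ 2 = 1) :
    hQ C C' (om y1 y2) = C + 3 * (3 * y1 ^ 2 * y2 - y2 ^ 3) ∧
      hQ C C' (-om y1 y2) = C - 3 * (3 * y1 ^ 2 * y2 - y2 ^ 3) := by
  have e0 : xn (om y1 y2) = 0 := by simp [xn, om]
  have e2 : om y1 y2 2 = -y2 := by simp [om]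
  have e3 : om y1 y2 3 = y1 := by simp [om]
  have e4 : Real.sqrt ((0:ℝ) ^ 2 + (-y2) ^ 2 + y1 ^ 2) = 1 := by
    rw [show (0:ℝ) ^ 2 + (-y2) ^ 2 + y1 ^ 2 = 1 by linarith]; simp
  have e5 : Gf 0 (-y2) y1 = 3 * (3 * y1 ^ 2 * y2 - y2 ^ 3) := by
    unfold Gf; rw [e4]; ring
  have e6 : ‖om y1 y2‖ = 1 := by rw [norm4, e0, e2, e3, e4]
  constructor
  · unfold hQ; rw [e6, e0, e2, e3, e5]; ring
  · unfold hQ
    rw [norm_neg, xn_neg, PiLp.neg_apply, PiLp.neg_apply, Gf_neg, e6, e0, e2, e3, e5]; ring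

lemma line {C C' : ℝ} {K : Set E4} (h : Sup C C' K) {y1 y2 : ℝ} (hy : y1 ^ 2 + y2 ^ 2 = 1)
    (sa sb n1 n2 : ℝ) (hn : 0 < n1 ^ 2 + n2 ^ 2) {L : Set (ℝ × ℝ × ℝ)}
    (hL : L = Lam (om y1 y2) (nu y1 y2 1 0 sa) (nu y1 y2 0 1 sb) '' K) {B : ℝ}
    (hB : B = 3 * y1 ^ 2 * y2 - y2 ^ 3) :
    -C + 3 * B ≤ C + 3 * B ∧
      IntervalIntegrable (fun z => top L n1 n2 z - top L (-n1) (-n2) z) volume
        (-C + 3 * B) (C + 3 * B) ∧
      ∫ z in (-C + 3 * B)..(C + 3 * B), (top L n1 n2 z - top L (-n1) (-n2) z) =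
        4 * C * (y1 ^ 3 - 3 * y1 * y2 ^ 2) * (n1 * sa + n2 * sb) ∧
      ∀ z, -C + 3 * B < z → z < C + 3 * B → (Prod.mk z ⁻¹' L).Nonempty := by
  have ht : 0 < Real.sqrt (n1 ^ 2 + n2 ^ 2) := Real.sqrt_pos.2 hn
  set s := n1 * sa + n2 * sb with hs
  set v := nu y1 y2 n1 n2 s with hv
  have hvi : ∀ p, ⟪v, p⟫ = n1 * ⟪nu y1 y2 1 0 sa, p⟫ + n2 * ⟪nu y1 y2 0 1 sb, p⟫ := by
    intro p
    simp only [inner4, hv, nu, hs]
    simp; ring
  obtain ⟨Y, hY⟩ := (h.cpt.image (f := fun p => ⟪v, p⟫) (by fun_prop)).isBounded.exists_norm_le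
  have hl := hQ_line C C' hy n1 n2 s
  rw [← hB] at hl
  obtain ⟨k1, k2, k3, k4⟩ := pair ht s (y1 ^ 3 - 3 * y1 * y2 ^ 2) B C
    (C' * Real.sqrt (n1 ^ 2 + n2 ^ 2))
    (M1 := (fun p => (⟪v, p⟫, ⟪om y1 y2, p⟫)) '' K)
    (M2 := (fun p => (-⟪v, p⟫, -⟪om y1 y2, p⟫)) '' K) (Y := Y)
    (f1 := top L n1 n2) (f2 := top L (-n1) (-n2))
    (by rintro _ ⟨p, hp, rfl⟩; exact hY _ ⟨p, hp, rfl⟩)
    (by rintro _ ⟨p, hp, rfl⟩; simp only [abs_neg]; exact hY _ ⟨p, hp, rfl⟩)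
    (by
      rintro b _ ⟨p, hp, rfl⟩
      have := h.le p hp (v + b • om y1 y2)
      rw [(hl b).1, inner_add_left, real_inner_smul_left] at this
      exact this)
    (by
      intro b
      obtain ⟨p, hp, e⟩ := h.ex (v + b • om y1 y2) (by rw [(hl b).2.2]; exact ht)
      rw [(hl b).1, inner_add_left, real_inner_smul_left] at e
      exact ⟨_, ⟨p, hp, rfl⟩, e⟩)
    (by
      rintro b _ ⟨p, hp, rfl⟩
      have := h.le p hp (-(v + b • om y1 y2))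
      rw [(hl b).2.1, inner_neg_left, inner_add_left, real_inner_smul_left] at this
      simp only; linarith)
    (by
      intro b
      obtain ⟨p, hp, e⟩ := h.ex (-(v + b • om y1 y2)) (by rw [xn_neg, (hl b).2.2]; exact ht)
      rw [(hl b).2.1, inner_neg_left, inner_add_left, real_inner_smul_left] at e
      exact ⟨_, ⟨p, hp, rfl⟩, by simp only; linarith⟩)
    (by
      intro z y hzy
      rw [← hzy.csSup_eq, top]
      congr 1
      ext x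
      subst hL
      constructor
      · rintro ⟨q, ⟨p, hp, e⟩, rfl⟩
        rw [Lam_apply] at e
        obtain ⟨e1, rfl⟩ := Prod.mk.inj e
        exact ⟨p, hp, by simp only [hvi, e1]⟩
      · rintro ⟨p, hp, e⟩
        obtain ⟨e1, e2⟩ := Prod.mk.inj e
        exact ⟨(⟪nu y1 y2 1 0 sa, p⟫, ⟪nu y1 y2 0 1 sb, p⟫), ⟨p, hp, by rw [Lam_apply, e2]⟩,
          by rw [← e1, hvi]⟩)
    (by
      intro z y hzy
      rw [← hzy.csSup_eq, top]
      congr 1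
      ext x
      subst hL
      constructor
      · rintro ⟨q, ⟨p, hp, e⟩, rfl⟩
        rw [Lam_apply] at e
        obtain ⟨e1, rfl⟩ := Prod.mk.inj e
        refine ⟨p, hp, ?_⟩
        simp only [hvi, e1, neg_neg]
        congr 1; ring
      · rintro ⟨p, hp, e⟩
        obtain ⟨e1, e2⟩ := Prod.mk.inj e
        refine ⟨(⟪nu y1 y2 1 0 sa, p⟫, ⟪nu y1 y2 0 1 sb, p⟫),
          ⟨p, hp, by rw [Lam_apply, ← e2, neg_neg]⟩, ?_⟩
        rw [← e1, hvi]; simp only; ring)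
  refine ⟨k1, k2, k3, fun z h1 h2 => ?_⟩
  obtain ⟨y, p, hp, e⟩ := k4 z h1 h2
  obtain ⟨e1, e2⟩ := Prod.mk.inj e
  subst hL
  exact ⟨_, p, hp, by rw [Lam_apply, e2]⟩

lemma core {C C' : ℝ} {K : Set E4} (h : Sup C C' K) {y1 y2 : ℝ} (hy : y1 ^ 2 + y2 ^ 2 = 1)
    (sa sb : ℝ) :
    volume (Lam (om y1 y2) (nu y1 y2 1 0 sa) (nu y1 y2 0 1 sb) '' (T4 + K)) =
      volume (Lam (om y1 y2) (nu y1 y2 1 0 sa) (nu y1 y2 0 1 sb) '' (-T4 + K)) := by
  rw [image_add, image_add, image_neg, Lam_T4]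
  set L := Lam (om y1 y2) (nu y1 y2 1 0 sa) (nu y1 y2 0 1 sb) '' K with hL
  obtain ⟨a1, a2, a3, a4⟩ := line h hy sa sb 1 1 (by norm_num) hL rfl
  obtain ⟨-, b2, b3, -⟩ := line h hy sa sb 1 0 (by norm_num) hL rfl
  obtain ⟨-, c2, c3, -⟩ := line h hy sa sb 0 1 (by norm_num) hL rfl
  rw [neg_zero] at b2 b3 c2 c3
  refine vol3_eq (h.cpt.image (Lam _ _ _).continuous)
    (h.cvx.is_linear_image (Lam _ _ _).toLinearMap.isLinear) a1 ?_ a4 ?_
  · rintro _ ⟨p, hp, rfl⟩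
    have h1 := h.le p hp (om y1 y2)
    have h2 := h.le p hp (-om y1 y2)
    rw [(hQ_om C C' hy).1] at h1
    rw [(hQ_om C C' hy).2, inner_neg_left] at h2
    rw [Lam_apply]
    constructor <;> simp only <;> linarith
  · rw [intervalIntegral.integral_sub (a2.sub b2) c2, intervalIntegral.integral_sub a2 b2,
      a3, b3, c3]
    ring

lemma inner_proj {S : Submodule ℝ E4} {a : E4} (ha : a ∈ S) (v : E4) :
    ⟪a, (S.orthogonalProjectionOnto v : E4)⟫ = ⟪a, v⟫ :=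
  S.inner_orthogonalProjectionOnto_eq_of_mem_left ⟨a, ha⟩ v

lemma transfer {V : Type} [NormedAddCommGroup V] [NormedSpace ℝ V] [FiniteDimensional ℝ V]
    [MeasurableSpace V] [BorelSpace V] (μ : Measure V) [μ.IsAddHaarMeasure]
    (S : Submodule ℝ E4) (Λ : E4 →L[ℝ] V)
    (h1 : ∀ v, Λ (S.orthogonalProjectionOnto v : E4) = Λ v) (h2 : ∀ w ∈ S, Λ w = 0 → w = 0)
    (h3 : Function.Surjective Λ) :
    Module.finrank ℝ S = Module.finrank ℝ V ∧ ∃ c : ℝ≥0∞, c ≠ 0 ∧ c ≠ ⊤ ∧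
      ∀ K : Set E4, IsCompact K → volume (proj S K) = c * μ (Λ '' K) := by
  let f : S →ₗ[ℝ] V := Λ.toLinearMap ∘ₗ S.subtype
  have hb : Function.Bijective f := by
    constructor
    · rw [← LinearMap.ker_eq_bot, LinearMap.ker_eq_bot']
      intro w hw
      exact Subtype.ext (h2 w w.2 hw)
    · intro x
      obtain ⟨v, rfl⟩ := h3 x
      exact ⟨S.orthogonalProjectionOnto v, h1 v⟩
  let e : S ≃L[ℝ] V := (LinearEquiv.ofBijective f hb).toContinuousLinearEquiv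
  have he : ∀ w : S, e w = Λ w := fun w => rfl
  refine ⟨(LinearEquiv.ofBijective f hb).finrank_eq, ?_⟩
  have hs := Measure.isAddLeftInvariant_eq_smul (Measure.map e (volume : Measure S)) μ
  have hp := Measure.addHaarScalarFactor_pos_of_isAddHaarMeasure
    (Measure.map e (volume : Measure S)) μ
  refine ⟨Measure.addHaarScalarFactor (Measure.map e (volume : Measure S)) μ,
    by exact_mod_cast hp.ne', ENNReal.coe_ne_top, fun K hK => ?_⟩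
  have hm : MeasurableSet (Λ '' K) := (hK.image Λ.continuous).isClosed.measurableSet
  have e1 : proj S K = e ⁻¹' (Λ '' K) := by
    ext w
    constructor
    · rintro ⟨v, hv, rfl⟩
      exact ⟨v, hv, by rw [he, h1]⟩
    · rintro ⟨v, hv, e2⟩
      refine ⟨v, hv, e.injective ?_⟩
      rw [← e2, he, h1]
  rw [e1, ← Measure.map_apply e.continuous.measurable hm]
  conv_lhs => rw [hs]
  rfl

lemma cth_proj (S : Submodule ℝ E4) {K : Set E4} (hK : IsCompact K) {r : ℝ} (hr : 0 ≤ r) :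
    cthickening r (proj S K) = proj S (K + closedBall 0 r) := by
  have hc : IsCompact (proj S K) := hK.image S.orthogonalProjectionOnto.continuous
  rw [← hc.add_closedBall_zero hr]
  ext w
  constructor
  · rintro ⟨_, ⟨v, hv, rfl⟩, q, hq, rfl⟩
    refine ⟨v + q, ⟨v, hv, q, by simpa using hq, rfl⟩, ?_⟩
    simp only [map_add, Submodule.orthogonalProjectionOnto_mem_subspace_eq_self]
  · rintro ⟨_, ⟨v, hv, q, hq, rfl⟩, rfl⟩
    refine ⟨_, ⟨v, hv, rfl⟩, S.orthogonalProjectionOnto q, ?_, by simp only [map_add]⟩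
    rw [mem_closedBall_zero_iff] at hq ⊢
    exact (S.norm_orthogonalProjectionOnto_apply_le q).trans hq

end Pool.Agent.H80.Proj
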