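import Pool.Agent.H80.Proj5

set_option autoImplicit false

namespace Pool.Agent.H80.Proj

open MeasureTheory Set Filter Topology Metric
open scoped RealInnerProductSpace Pointwise ENNReal

lemma hyper_gen {C C' : ℝ} {K : Set E4} (h : Sup C C' K) (u : E4) (hu : 0 < u 2 ^ 2 + u 3 ^ 2) :
    volume (proj (ℝ ∙ u)ᗮ (T4 + K)) = volume (proj (ℝ ∙ u)ᗮ (-T4 + K)) := by
  set n := Real.sqrt (u 2 ^ 2 + u 3 ^ 2) with hn
  have n0 : 0 < n := Real.sqrt_pos.2 hu
  have n2 : n ^ 2 = u 2 ^ 2 + u 3 ^ 2 := Real.sq_sqrt hu.le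
  have hy : (u 2 / n) ^ 2 + (u 3 / n) ^ 2 = 1 := by field_simp; linarith
  have m1 : om (u 2 / n) (u 3 / n) ∈ (ℝ ∙ u)ᗮ := by
    rw [Submodule.mem_orthogonal_singleton_iff_inner_right, inner4]
    simp [om]; ring
  have m2 : nu (u 2 / n) (u 3 / n) 1 0 (u 0 / n) ∈ (ℝ ∙ u)ᗮ := by
    rw [Submodule.mem_orthogonal_singleton_iff_inner_right, inner4]
    simp [nu]; field_simp; linear_combination (u 0) * n2
  have m3 : nu (u 2 / n) (u 3 / n) 0 1 (u 1 / n) ∈ (ℝ ∙ u)ᗮ := by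
    rw [Submodule.mem_orthogonal_singleton_iff_inner_right, inner4]
    simp [nu]; field_simp; linear_combination (u 1) * n2
  have : (volume : Measure (ℝ × ℝ × ℝ)).IsAddHaarMeasure :=
    Measure.prod.instIsAddHaarMeasure (volume : Measure ℝ) (volume : Measure (ℝ × ℝ))
  obtain ⟨-, c, -, -, hc⟩ := transfer (volume : Measure (ℝ × ℝ × ℝ)) (ℝ ∙ u)ᗮ
    (Lam (om (u 2 / n) (u 3 / n)) (nu (u 2 / n) (u 3 / n) 1 0 (u 0 / n))
      (nu (u 2 / n) (u 3 / n) 0 1 (u 1 / n)))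
    (fun v => by rw [Lam_apply, Lam_apply, inner_proj m1, inner_proj m2, inner_proj m3])
    (fun w hw e => by
      rw [Submodule.mem_orthogonal_singleton_iff_inner_right, inner4] at hw
      rw [Lam_apply] at e
      obtain ⟨e1, e2⟩ := Prod.mk.inj e
      obtain ⟨e2, e3⟩ := Prod.mk.inj e2
      rw [inner4] at e1 e2 e3
      simp [om, nu] at e1 e2 e3
      field_simp at e1 e2 e3
      have hm : (u 2 * w 2 + u 3 * w 3) * (u 0 ^ 2 + u 1 ^ 2 + n ^ 2) = 0 := by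
        linear_combination n ^ 2 * hw - u 0 * e2 - u 1 * e3
      have hm0 : u 2 * w 2 + u 3 * w 3 = 0 :=
        (mul_eq_zero.1 hm).resolve_right (by positivity)
      have w0 : w 0 * n ^ 2 = 0 := by linear_combination e2 + u 0 * hm0
      have w1 : w 1 * n ^ 2 = 0 := by linear_combination e3 + u 1 * hm0
      have w2 : w 2 * n ^ 2 = 0 := by linear_combination u 2 * hm0 - u 3 * e1 + w 2 * n2
      have w3 : w 3 * n ^ 2 = 0 := by linear_combination u 3 * hm0 + u 2 * e1 + w 3 * n2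
      have hn2 : n ^ 2 ≠ 0 := by positivity
      ext i
      fin_cases i
      · exact (mul_eq_zero.1 w0).resolve_right hn2
      · exact (mul_eq_zero.1 w1).resolve_right hn2
      · exact (mul_eq_zero.1 w2).resolve_right hn2
      · exact (mul_eq_zero.1 w3).resolve_right hn2)
    (fun x => ⟨!₂[x.2.1, x.2.2, -x.1 * (u 3 / n), x.1 * (u 2 / n)], by
      rw [Lam_apply, inner4, inner4, inner4]
      ext
      · simp [om]; linear_combination x.1 * hy
      · simp [nu]; ring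
      · simp [nu]; ring⟩)
  rw [hc _ (T4_compact.add h.cpt), hc _ (T4_compact.neg.add h.cpt), core h hy]

lemma hyper_deg (K : Set E4) (u : E4) (h1 : u 0 ^ 2 + u 1 ^ 2 = 1) (h2 : u 2 = 0) (h3 : u 3 = 0) :
    volume (proj (ℝ ∙ u)ᗮ (T4 + K)) = volume (proj (ℝ ∙ u)ᗮ (-T4 + K)) := by
  set π := (ℝ ∙ u)ᗮ.orthogonalProjectionOnto with hπ
  set m : E4 := !₂[u 1, -u 0, 0, 0] with hm
  have pu : π u = 0 := Submodule.orthogonalProjectionOnto_orthogonalComplement_singleton_eq_zero u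
  have pT : ∀ v ∈ T4, π v = (v 0 * u 1 - v 1 * u 0) • π m := by
    rintro v ⟨-, g2, g3⟩
    have : v = (v 0 * u 1 - v 1 * u 0) • m + (v 0 * u 0 + v 1 * u 1) • u := by
      ext i
      fin_cases i
      · simp [hm]; linear_combination (-v 0) * h1
      · simp [hm]; linear_combination (-v 1) * h1
      · simp [hm, g2, h2]
      · simp [hm, g3, h3]
    conv_lhs => rw [this]
    rw [map_add, map_smul, map_smul, pu, smul_zero, add_zero]
  have cJ : IsCompact ((fun v : E4 => v 0 * u 1 - v 1 * u 0) '' T4) :=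
    T4_compact.image (by fun_prop)
  have z4 : (0 : E4) ∈ T4 := ⟨by simp [T0], rfl, rfl⟩
  obtain ⟨lo, hi, hlh, hJ⟩ := slice_Icc cJ (T4_convex.is_linear_image
    ⟨fun a b => by simp; ring, fun c a => by simp; ring⟩) ⟨_, 0, z4, rfl⟩
  have refl : ∀ v ∈ T4, ∃ v' ∈ T4, π v' = (lo + hi) • π m + -π v := by
    intro v hv
    have g1 : v 0 * u 1 - v 1 * u 0 ∈ Icc lo hi := hJ ▸ ⟨v, hv, rfl⟩
    have g2 : lo + hi - (v 0 * u 1 - v 1 * u 0) ∈ Icc lo hi :=
      ⟨by linarith [g1.2], by linarith [g1.1]⟩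
    rw [← hJ] at g2
    obtain ⟨v', hv', e⟩ := g2
    refine ⟨v', hv', ?_⟩
    simp only at e
    rw [pT v hv, pT v' hv', e]; module
  have e : proj (ℝ ∙ u)ᗮ (-T4 + K) =
      (fun w => (lo + hi) • π m + w) ⁻¹' proj (ℝ ∙ u)ᗮ (T4 + K) := by
    ext w
    constructor
    · rintro ⟨_, ⟨v, hv, k, hk, rfl⟩, rfl⟩
      obtain ⟨v', hv', e⟩ := refl (-v) hv
      refine ⟨v' + k, ⟨v', hv', k, hk, rfl⟩, ?_⟩
      simp only [← hπ, map_add, e, map_neg, neg_neg, add_assoc]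
    · rintro ⟨_, ⟨v, hv, k, hk, rfl⟩, e1⟩
      obtain ⟨v', hv', e⟩ := refl v hv
      refine ⟨-v' + k, ⟨-v', by simpa using hv', k, hk, rfl⟩, ?_⟩
      simp only [← hπ, map_add, map_neg] at e1 ⊢
      rw [e, ← add_left_cancel_iff (a := (lo + hi) • π m), ← e1]; abel
  rw [e, measure_preimage_add]

lemma hyper {C C' : ℝ} {K : Set E4} (h : Sup C C' K) (u : E4) (hu : ‖u‖ = 1) :
    volume (proj (ℝ ∙ u)ᗮ (T4 + K)) = volume (proj (ℝ ∙ u)ᗮ (-T4 + K)) := by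
  by_cases h0 : 0 < u 2 ^ 2 + u 3 ^ 2
  · exact hyper_gen h u h0
  · have h2 : u 2 = 0 := by nlinarith [sq_nonneg (u 2), sq_nonneg (u 3)]
    have h3 : u 3 = 0 := by nlinarith [sq_nonneg (u 2), sq_nonneg (u 3)]
    have h4 := real_inner_self_eq_norm_sq u
    rw [inner4, hu, h2, h3] at h4
    exact hyper_deg K u (by linarith) h2 h3

def pa : E4 := !₂[1, 0, 1, 1]
def pb : E4 := !₂[0, 1, 1, -1]

lemma Sup.greatest {C C' : ℝ} {K : Set E4} (h : Sup C C' K) {v : E4} (hv : 0 < xn v) :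
    IsGreatest ((fun p => ⟪v, p⟫) '' K) (hQ C C' v) ∧
      IsLeast ((fun p => ⟪v, p⟫) '' K) (-hQ C C' (-v)) := by
  constructor
  · obtain ⟨p, hp, e⟩ := h.ex v hv
    exact ⟨⟨p, hp, e⟩, by rintro _ ⟨q, hq, rfl⟩; exact h.le q hq v⟩
  · obtain ⟨p, hp, e⟩ := h.ex (-v) (by rwa [xn_neg])
    rw [inner_neg_left] at e
    refine ⟨⟨p, hp, by simp only; linarith⟩, ?_⟩
    rintro _ ⟨q, hq, rfl⟩
    have := h.le q hq (-v)
    rw [inner_neg_left] at this
    simp only; linarith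

lemma hQ_diff (C C' : ℝ) (v : E4) : hQ C C' v - hQ C C' (-v) = 2 * Gf (xn v) (v 2) (v 3) := by
  unfold hQ
  rw [norm_neg, xn_neg, PiLp.neg_apply, PiLp.neg_apply, Gf_neg]; ring

lemma Gf_fac {t : ℝ} (ht : 0 < t) (z1 z2 : ℝ) :
    ∃ k, 0 < k ∧ Gf t z1 z2 = (z1 ^ 3 - 3 * z1 * z2 ^ 2) * k :=
  ⟨_, by positivity, rfl⟩

lemma plane {C C' : ℝ} {K : Set E4} (h : Sup C C' K) :
    Module.finrank ℝ (Submodule.span ℝ {pa, pb}) = 2 ∧
      volume (proj (Submodule.span ℝ {pa, pb}) (T4 + K)) ≠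
        volume (proj (Submodule.span ℝ {pa, pb}) (-T4 + K)) := by
  have m1 : pa ∈ Submodule.span ℝ {pa, pb} := Submodule.subset_span (by simp)
  have m2 : pb ∈ Submodule.span ℝ {pa, pb} := Submodule.subset_span (by simp)
  set Λ : E4 →L[ℝ] ℝ × ℝ := (innerSL ℝ pa).prod (innerSL ℝ pb) with hΛ
  have ap : ∀ v, Λ v = (⟪pa, v⟫, ⟪pb, v⟫) := fun v => rfl
  obtain ⟨hf, c, c0, c1, hc⟩ := transfer (volume : Measure (ℝ × ℝ)) (Submodule.span ℝ {pa, pb}) Λ
    (fun v => by rw [ap, ap, inner_proj m1, inner_proj m2])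
    (fun w hw e => by
      obtain ⟨a, b, rfl⟩ := Submodule.mem_span_pair.1 hw
      rw [ap] at e
      obtain ⟨e1, e2⟩ := Prod.mk.inj e
      rw [inner4] at e1 e2
      simp [pa, pb] at e1 e2
      have ha : a = 0 := by linarith
      have hb : b = 0 := by linarith
      simp [ha, hb])
    (fun x => ⟨!₂[x.1, x.2, 0, 0], by rw [ap, inner4, inner4]; simp [pa, pb]⟩)
  refine ⟨by rw [hf]; simp, ?_⟩
  have hT : Λ '' T4 = T0 := by
    ext p
    constructor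
    · rintro ⟨v, ⟨h1, h2, h3⟩, rfl⟩
      rw [ap, inner4, inner4]
      simpa [pa, pb, h2, h3] using h1
    · intro hp
      refine ⟨!₂[p.1, p.2, 0, 0], ⟨by simpa using hp, by simp, by simp⟩, ?_⟩
      rw [ap, inner4, inner4]; simp [pa, pb]
  rw [hc _ (T4_compact.add h.cpt), hc _ (T4_compact.neg.add h.cpt), image_add, image_add,
    image_neg, hT]
  intro e
  rw [ENNReal.mul_right_inj c0 c1] at e
  have cM : IsCompact (Λ '' K) := h.cpt.image Λ.continuous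
  have vM : Convex ℝ (Λ '' K) := h.cvx.is_linear_image Λ.toLinearMap.isLinear
  have x1 : 0 < xn pa := by simp [xn, pa]
  have x2 : 0 < xn pb := by simp [xn, pb]
  have x3 : 0 < xn (pa + pb) := by simp [xn, pa, pb]
  have g1 := h.greatest x1
  have g2 := h.greatest x2
  have g3 := h.greatest x3
  have i1 : Prod.fst '' (Λ '' K) = (fun p => ⟪pa, p⟫) '' K := by rw [image_image]; rfl
  have i2 : Prod.snd '' (Λ '' K) = (fun p => ⟪pb, p⟫) '' K := by rw [image_image]; rfl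
  have i3 : (fun p : ℝ × ℝ => p.1 + p.2) '' (Λ '' K) = (fun p => ⟪pa + pb, p⟫) '' K := by
    rw [image_image]; simp only [ap, inner_add_left]
  have v1 := vol_T0_add cM vM (i1 ▸ g1.2) (i2 ▸ g2.2) (i3 ▸ g3.1)
  have v2 := vol_negT0_add cM vM (i1 ▸ g1.1) (i2 ▸ g2.1) (i3 ▸ g3.2)
  rw [e, v2] at v1
  have d1 := hQ_diff C C' pa
  have d2 := hQ_diff C C' pb
  have d3 := hQ_diff C C' (pa + pb)
  obtain ⟨k1, p1, q1⟩ := Gf_fac x1 (pa 2) (pa 3)
  obtain ⟨k2, p2, q2⟩ := Gf_fac x2 (pb 2) (pb 3)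
  obtain ⟨k3, p3, q3⟩ := Gf_fac x3 ((pa + pb) 2) ((pa + pb) 3)
  rw [q1] at d1
  rw [q2] at d2
  rw [q3] at d3
  have r1 : pa 2 ^ 3 - 3 * pa 2 * pa 3 ^ 2 = -2 := by simp [pa]; norm_num
  have r2 : pb 2 ^ 3 - 3 * pb 2 * pb 3 ^ 2 = -2 := by simp [pb]; norm_num
  have r3 : (pa + pb) 2 ^ 3 - 3 * (pa + pb) 2 * (pa + pb) 3 ^ 2 = 8 := by simp [pa, pb]; norm_num
  rw [r1] at d1
  rw [r2] at d2
  rw [r3] at d3
  linarith

lemma iv_congr {W : Type} [NormedAddCommGroup W] [InnerProductSpace ℝ W] [FiniteDimensional ℝ W]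
    [MeasurableSpace W] [BorelSpace W] {A B : Set W}
    (h : ∀ r, 0 ≤ r → parVol A r = parVol B r) (i : ℕ) : intrinsicVol i A = intrinsicVol i B := by
  unfold intrinsicVol
  rw [iteratedDerivWithin_congr (s := Ici 0) (fun r hr => h r hr) (mem_Ici.2 le_rfl)]

lemma iv_top {W : Type} [NormedAddCommGroup W] [InnerProductSpace ℝ W] [FiniteDimensional ℝ W]
    [MeasurableSpace W] [BorelSpace W] {A : Set W} (hA : IsCompact A) :
    intrinsicVol (Module.finrank ℝ W) A = (volume A).toReal / kappa 0 := by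
  unfold intrinsicVol parVol
  simp [hA.isClosed.closure_eq]

lemma kappa_pos (m : ℕ) : 0 < kappa m :=
  ENNReal.toReal_pos (measure_closedBall_pos _ _ zero_lt_one).ne' measure_closedBall_lt_top.ne

theorem main : ∃ K₁ K₂ : Set E4, K₁.Nonempty ∧ IsCompact K₁ ∧ Convex ℝ K₁ ∧
    K₂.Nonempty ∧ IsCompact K₂ ∧ Convex ℝ K₂ ∧
    (∀ u : E4, ‖u‖ = 1 → (∀ r, 0 ≤ r → parVol (proj (ℝ ∙ u)ᗮ K₁) r = parVol (proj (ℝ ∙ u)ᗮ K₂) r) ∧
      ∀ i, intrinsicVol i (proj (ℝ ∙ u)ᗮ K₁) = intrinsicVol i (proj (ℝ ∙ u)ᗮ K₂)) ∧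
    ∃ S : Submodule ℝ E4, Module.finrank ℝ S = 2 ∧
      volume (proj S K₁) ≠ volume (proj S K₂) ∧
      intrinsicVol 2 (proj S K₁) ≠ intrinsicVol 2 (proj S K₂) := by
  obtain ⟨C, C', Q, -, h1, h2, h3, h4⟩ := exists_Q
  have h : Sup C C' Q := ⟨h1, h2, h3, h4⟩
  have nQ : Q.Nonempty := by
    obtain ⟨p, hp, -⟩ := h4 pa (by simp [xn, pa])
    exact ⟨p, hp⟩
  have nT : T4.Nonempty := ⟨0, by simp [T0], rfl, rfl⟩
  have c1 := T4_compact.add h1
  have c2 := T4_compact.neg.add h1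
  refine ⟨T4 + Q, -T4 + Q, nT.add nQ, c1, T4_convex.add h2, nT.neg.add nQ, c2,
    T4_convex.neg.add h2, fun u hu => ?_, ?_⟩
  · have k : ∀ r, 0 ≤ r → parVol (proj (ℝ ∙ u)ᗮ (T4 + Q)) r =
        parVol (proj (ℝ ∙ u)ᗮ (-T4 + Q)) r := by
      intro r hr
      unfold parVol
      rw [cth_proj _ c1 hr, cth_proj _ c2 hr, add_assoc, add_assoc, hyper (h.thick hr) u hu]
    exact ⟨k, iv_congr k⟩
  · obtain ⟨f, g⟩ := plane h
    refine ⟨_, f, g, ?_⟩
    have p1 : IsCompact (proj (Submodule.span ℝ {pa, pb}) (T4 + Q)) :=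
      c1.image (Submodule.orthogonalProjectionOnto _).continuous
    have p2 : IsCompact (proj (Submodule.span ℝ {pa, pb}) (-T4 + Q)) :=
      c2.image (Submodule.orthogonalProjectionOnto _).continuous
    have t1 := iv_top p1
    have t2 := iv_top p2
    rw [f] at t1 t2
    rw [t1, t2]
    intro e
    rw [div_left_inj' (kappa_pos 0).ne',
      ENNReal.toReal_eq_toReal_iff' p1.measure_lt_top.ne p2.measure_lt_top.ne] at e
    exact g e

end Pool.Agent.H80.Proj
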