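import Pool.Agent.H58.Stein1

set_option autoImplicit false

namespace Pool.Agent.H80.Pv

open MeasureTheory Set Filter Topology Pointwise Module Metric Polynomial
open scoped RealInnerProductSpace ENNReal

variable {E : Type} [NormedAddCommGroup E] [InnerProductSpace ℝ E] [FiniteDimensional ℝ E]
  [MeasurableSpace E] [BorelSpace E] (μ : Measure E) [μ.IsAddHaarMeasure]

lemma net {A : Set E} (hA : IsCompact A) {δ : ℝ} (hδ : 0 < δ) :
    ∃ V : Finset E, (V : Set E) ⊆ A ∧ ∀ a ∈ A, ∃ v ∈ V, dist a v < δ := by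
  obtain ⟨t, h1, h2, h3⟩ := finite_cover_balls_of_compact hA hδ
  refine ⟨h2.toFinset, by simpa using h1, fun a ha => ?_⟩
  have := h3 ha
  simp only [mem_iUnion, mem_ball] at this
  obtain ⟨v, hv, h⟩ := this
  exact ⟨v, by simpa using hv, h⟩

lemma approx {A : Set E} (hA : IsCompact A) (hc : Convex ℝ A) :
    ∃ V : ℕ → Finset E, ∀ t : ℝ, 0 < t →
      Tendsto (fun n => μ.real (convexHull ℝ (V n : Set E) + closedBall 0 t)) atTop
        (𝓝 (μ.real (A + closedBall 0 t))) := by
  choose V h1 h2 using fun n : ℕ => net hA (δ := 1 / ((n : ℝ) + 1)) (by positivity)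
  refine ⟨V, fun t ht => ?_⟩
  have cB : IsCompact (A + closedBall (0 : E) t) := hA.add (isCompact_closedBall _ _)
  have sub : ∀ n, convexHull ℝ (V n : Set E) + closedBall 0 t ⊆ A + closedBall 0 t := fun n =>
    add_subset_add_right (convexHull_min (h1 n) hc)
  have key := tendsto_measure_of_ae_tendsto_indicator (μ := μ) atTop
    (As := fun n => convexHull ℝ (V n : Set E) + closedBall 0 t) (A := A + closedBall 0 t)
    cB.isClosed.measurableSet
    (fun n => (((V n).finite_toSet.isCompact_convexHull ℝ).add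
      (isCompact_closedBall _ _)).isClosed.measurableSet)
    cB.isClosed.measurableSet cB.measure_lt_top.ne (Eventually.of_forall sub) ?_
  · exact (ENNReal.tendsto_toReal cB.measure_lt_top.ne).comp key
  · have h0 : μ (frontier (thickening t A)) = 0 := (hc.thickening t).addHaar_frontier μ
    filter_upwards [measure_eq_zero_iff_ae_notMem.1 h0] with x hx
    by_cases hx1 : x ∈ A + closedBall (0 : E) t
    · have hx2 : x ∈ thickening t A := by
        rw [hA.add_closedBall_zero ht.le, ← closure_thickening ht,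
          closure_eq_self_union_frontier] at hx1
        exact hx1.resolve_right hx
      obtain ⟨a, ha, hd⟩ := mem_thickening_iff.1 hx2
      have : ∀ᶠ n : ℕ in atTop, 1 / ((n : ℝ) + 1) < t - dist x a :=
        tendsto_one_div_add_atTop_nhds_zero_nat.eventually (gt_mem_nhds (by linarith))
      filter_upwards [this] with n hn
      refine ⟨fun _ => hx1, fun _ => ?_⟩
      obtain ⟨v, hv, hv2⟩ := h2 n a ha
      refine ⟨v, subset_convexHull ℝ _ hv, x - v, ?_, by simp⟩
      rw [mem_closedBall_zero_iff, ← dist_eq_norm]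
      linarith [dist_triangle x a v]
    · exact Eventually.of_forall fun n => ⟨fun h => (hx1 (sub n h)).elim, fun h => (hx1 h).elim⟩

theorem steiner {A : Set E} (hA : IsCompact A) (hc : Convex ℝ A) :
    ∃ p : ℝ[X], ∀ t : ℝ, 0 ≤ t → p.eval t = (μ (A + closedBall 0 t)).toReal := by
  classical
  obtain ⟨V, hV⟩ := approx μ hA hc
  choose c hc using fun n => Pool.Agent.H58.Stein.steiner μ (V n)
  set s := Finset.range (finrank ℝ E + 1) with hs
  set v : ℕ → ℝ := fun i => (i : ℝ) + 1 with hv
  have hi : InjOn v s := fun a _ b _ h => by simpa [hv] using h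
  set P : ℕ → ℝ[X] := fun n => ∑ m ∈ s, monomial m (c n m) with hP
  have Pe : ∀ n t, 0 < t → (P n).eval t = μ.real (convexHull ℝ (V n : Set E) + closedBall 0 t) := by
    intro n t ht
    rw [hc n t ht, hP]
    simp [eval_finset_sum]
  have Pd : ∀ n, (P n).degree < s.card := by
    intro n
    rw [hs, Finset.card_range]
    refine (degree_sum_le _ _).trans_lt ?_
    rw [Finset.sup_lt_iff (by exact WithBot.bot_lt_coe _)]
    intro m hm
    exact (degree_monomial_le _ _).trans_lt (by exact_mod_cast Finset.mem_range.1 hm)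
  set p := Lagrange.interpolate s v (fun i => μ.real (A + closedBall 0 (v i))) with hp
  have pos : ∀ t, 0 < t → p.eval t = μ.real (A + closedBall 0 t) := by
    intro t ht
    have l1 : Tendsto (fun n => (P n).eval t) atTop (𝓝 (p.eval t)) := by
      have e : ∀ n, (P n).eval t = ∑ i ∈ s, (P n).eval (v i) * (Lagrange.basis s v i).eval t := by
        intro n
        conv_lhs => rw [Lagrange.eq_interpolate hi (Pd n)]
        simp [Lagrange.interpolate_apply, eval_finset_sum]
      have e2 : p.eval t = ∑ i ∈ s, μ.real (A + closedBall 0 (v i)) *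
          (Lagrange.basis s v i).eval t := by
        simp [hp, Lagrange.interpolate_apply, eval_finset_sum]
      simp only [e, e2]
      refine tendsto_finset_sum _ fun i _ => Tendsto.mul_const _ ?_
      have vp : 0 < v i := by simp only [hv]; positivity
      simp only [Pe _ _ vp]
      exact hV _ vp
    simp only [Pe _ _ ht] at l1
    exact tendsto_nhds_unique l1 (hV t ht)
  refine ⟨p, fun t ht => ?_⟩
  rcases ht.eq_or_lt with rfl | ht
  · have l1 : Tendsto (fun t => p.eval t) (𝓝[>] 0) (𝓝 (p.eval 0)) :=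
      (p.continuous.tendsto 0).mono_left nhdsWithin_le_nhds
    have l2 : Tendsto (fun r => (μ (cthickening r A)).toReal) (𝓝[>] 0) (𝓝 (μ A).toReal) :=
      ((ENNReal.tendsto_toReal hA.measure_lt_top.ne).comp
        (tendsto_measure_cthickening_of_isCompact hA)).mono_left nhdsWithin_le_nhds
    have l3 : Tendsto (fun t => p.eval t) (𝓝[>] 0) (𝓝 (μ A).toReal) := by
      refine l2.congr' ?_
      filter_upwards [self_mem_nhdsWithin] with r hr
      rw [pos r hr, hA.add_closedBall_zero (le_of_lt hr)]
      rfl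
    rw [tendsto_nhds_unique l1 l3]
    simp
  · exact pos t ht

lemma coeff_lim (k : ℕ) : ∀ (p : ℝ[X]) (L : ℝ),
    Tendsto (fun t => p.eval t / t ^ k) (𝓝[>] 0) (𝓝 L) → p.coeff k = L := by
  induction k with
  | zero =>
    intro p L h
    have l1 : Tendsto (fun t => p.eval t) (𝓝[>] 0) (𝓝 (p.eval 0)) :=
      (p.continuous.tendsto 0).mono_left nhdsWithin_le_nhds
    simp only [pow_zero, div_one] at h
    rw [coeff_zero_eq_eval_zero]
    exact tendsto_nhds_unique l1 h
  | succ k ih =>
    intro p L h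
    have l1 : Tendsto (fun t => p.eval t) (𝓝[>] 0) (𝓝 (p.eval 0)) :=
      (p.continuous.tendsto 0).mono_left nhdsWithin_le_nhds
    have l2 : Tendsto (fun t : ℝ => t ^ (k + 1)) (𝓝[>] 0) (𝓝 0) := by
      have : Tendsto (fun t : ℝ => t ^ (k + 1)) (𝓝 0) (𝓝 (0 ^ (k + 1))) :=
        (continuous_pow (k + 1)).tendsto 0
      simpa using this.mono_left nhdsWithin_le_nhds
    have l3 : Tendsto (fun t => p.eval t) (𝓝[>] 0) (𝓝 0) := by
      have := h.mul l2
      rw [mul_zero] at this
      refine this.congr' ?_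
      filter_upwards [self_mem_nhdsWithin] with r hr
      have : (0 : ℝ) < r := hr
      field_simp
    have z : p.coeff 0 = 0 := by
      rw [coeff_zero_eq_eval_zero]; exact tendsto_nhds_unique l1 l3
    rw [← coeff_divX]
    refine ih _ _ (h.congr' ?_)
    filter_upwards [self_mem_nhdsWithin] with r hr
    have : (0 : ℝ) < r := hr
    conv_lhs => rw [← divX_mul_X_add p, z]
    simp only [map_zero, add_zero, eval_mul, eval_X]
    field_simp
    ring

lemma slice_set (S : Submodule ℝ E) {K : Set E} (hK : IsCompact K) {ε : ℝ} (y : Sᗮ) :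
    {a : S | (a : E) + y ∈ S.starProjection '' K + closedBall 0 ε} =
      if ‖y‖ ≤ ε then cthickening (Real.sqrt (ε ^ 2 - ‖y‖ ^ 2))
        ((fun x => S.orthogonalProjectionOnto x) '' K) else ∅ := by
  have hc : IsCompact ((fun x => S.orthogonalProjectionOnto x) '' K) :=
    hK.image S.orthogonalProjectionOnto.continuous
  have py : ∀ b : S, ‖(b : E) + y‖ ^ 2 = ‖b‖ ^ 2 + ‖y‖ ^ 2 := by
    intro b
    rw [norm_add_sq_real, Submodule.inner_right_of_mem_orthogonal b.2 y.2]
    simp
  have key : ∀ a : S, (a : E) + y ∈ S.starProjection '' K + closedBall 0 ε ↔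
      ∃ k ∈ K, ‖((a - S.orthogonalProjectionOnto k : S) : E) + y‖ ≤ ε := by
    intro a
    constructor
    · rintro ⟨_, ⟨k, hk, rfl⟩, q, hq, e⟩
      refine ⟨k, hk, ?_⟩
      have : ((a - S.orthogonalProjectionOnto k : S) : E) + y = q := by
        simp only at e
        rw [Submodule.coe_sub, sub_add_eq_add_sub, ← e, Submodule.starProjection_apply]
        simp
      rw [this]; simpa using hq
    · rintro ⟨k, hk, h⟩
      refine ⟨_, ⟨k, hk, rfl⟩, _, mem_closedBall_zero_iff.2 h, ?_⟩
      simp only [Submodule.coe_sub, Submodule.starProjection_apply]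
      abel
  ext a
  simp only [mem_setOf_eq, key]
  split_ifs with h
  · rw [← hc.add_closedBall_zero (Real.sqrt_nonneg _)]
    have h0 : 0 ≤ ε := (norm_nonneg _).trans h
    have h1 : 0 ≤ ε ^ 2 - ‖y‖ ^ 2 := by nlinarith [norm_nonneg y]
    constructor
    · rintro ⟨k, hk, hh⟩
      refine ⟨_, ⟨k, hk, rfl⟩, a - S.orthogonalProjectionOnto k, ?_, by simp⟩
      rw [mem_closedBall_zero_iff]
      apply Real.le_sqrt_of_sq_le
      have := py (a - S.orthogonalProjectionOnto k)
      nlinarith [norm_nonneg (((a - S.orthogonalProjectionOnto k : S) : E) + y)]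
    · rintro ⟨_, ⟨k, hk, rfl⟩, q, hq, rfl⟩
      refine ⟨k, hk, ?_⟩
      rw [mem_closedBall_zero_iff] at hq
      simp only [add_sub_cancel_left]
      have h2 := py q
      have h3 : ‖q‖ ^ 2 ≤ ε ^ 2 - ‖y‖ ^ 2 := by
        rw [← Real.sq_sqrt h1]; exact pow_le_pow_left₀ (norm_nonneg _) hq 2
      exact le_of_sq_le_sq (by linarith) h0 
  · simp only [mem_empty_iff_false, iff_false, not_exists, not_and, not_le]
    intro k _
    have h2 := py (a - S.orthogonalProjectionOnto k)
    have h3 : ‖y‖ ≤ ‖((a - S.orthogonalProjectionOnto k : S) : E) + y‖ :=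
      le_of_sq_le_sq (by nlinarith) (norm_nonneg _)
    linarith [not_le.1 h]

lemma slice (S : Submodule ℝ E) : ∃ c : ℝ≥0∞, c ≠ 0 ∧ c ≠ ⊤ ∧ ∀ A : Set E, MeasurableSet A →
    c * μ A = ∫⁻ y : Sᗮ, volume {a : S | (a : E) + y ∈ A} := by
  let e : (S × Sᗮ) ≃L[ℝ] E :=
    (S.prodEquivOfIsCompl Sᗮ S.isCompl_orthogonal_of_hasOrthogonalProjection).toContinuousLinearEquiv
  have he : ∀ w : S × Sᗮ, e w = (w.1 : E) + w.2 := fun w => rfl
  set ν : Measure (S × Sᗮ) := (volume : Measure S).prod (volume : Measure Sᗮ) with hν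
  have hs := Measure.isAddLeftInvariant_eq_smul (Measure.map e ν) μ
  have hp := Measure.addHaarScalarFactor_pos_of_isAddHaarMeasure (Measure.map e ν) μ
  refine ⟨Measure.addHaarScalarFactor (Measure.map e ν) μ,
    by exact_mod_cast hp.ne', ENNReal.coe_ne_top, fun A hA => ?_⟩
  have h1 : Measure.map e ν A = ν (e ⁻¹' A) := Measure.map_apply e.continuous.measurable hA
  rw [hν, Measure.prod_apply_symm (e.continuous.measurable hA)] at h1
  rw [← hν] at h1
  conv_lhs at h1 => rw [hs]
  exact h1

end Pool.Agent.H80.Pv
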