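import Pool.Agent.H80.Pv1
import Pool.Agent.H80.Proj6

set_option autoImplicit false

namespace Pool.Agent.H80.Pv

open MeasureTheory Set Filter Topology Pointwise Module Metric Polynomial
open scoped RealInnerProductSpace ENNReal
open Pool.Agent.H80.Proj

lemma amb_eq (S : Submodule ℝ E4) {K L : Set E4} (hK : IsCompact K) (hL : IsCompact L)
    (h : ∀ r, 0 ≤ r → volume (cthickening r (proj S K)) = volume (cthickening r (proj S L)))
    (ε : ℝ) : volume (S.starProjection '' K + closedBall 0 ε) =
      volume (S.starProjection '' L + closedBall 0 ε) := by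
  obtain ⟨c, c0, c1, hc⟩ := slice (volume : Measure E4) S
  have m : ∀ {M : Set E4}, IsCompact M → MeasurableSet (S.starProjection '' M + closedBall 0 ε) :=
    fun hM => ((hM.image S.starProjection.continuous).add
      (isCompact_closedBall _ _)).isClosed.measurableSet
  rw [← ENNReal.mul_right_inj c0 c1, hc _ (m hK), hc _ (m hL)]
  refine lintegral_congr fun y => ?_
  rw [slice_set S hK, slice_set S hL]
  split_ifs
  · exact h _ (Real.sqrt_nonneg _)
  · rfl

lemma amb_lim (S : Submodule ℝ E4) : ∃ c : ℝ, 0 < c ∧ ∀ K : Set E4, IsCompact K →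
    Tendsto (fun ε => (volume (S.starProjection '' K + closedBall 0 ε)).toReal /
      ε ^ finrank ℝ Sᗮ) (𝓝[>] 0) (𝓝 (c * (volume (proj S K)).toReal)) := by
  obtain ⟨c, c0, c1, hc⟩ := slice (volume : Measure E4) S
  set b := (volume (closedBall (0 : Sᗮ) 1)).toReal with hb
  have b0 : 0 < b :=
    ENNReal.toReal_pos (measure_closedBall_pos _ _ zero_lt_one).ne' measure_closedBall_lt_top.ne
  have cp : 0 < c.toReal := ENNReal.toReal_pos c0 c1
  refine ⟨b / c.toReal, by positivity, fun K hK => ?_⟩
  have hP : IsCompact (proj S K) := hK.image S.orthogonalProjectionOnto.continuous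
  have l2 : Tendsto (fun r => b / c.toReal * (volume (cthickening r (proj S K))).toReal) (𝓝[>] 0)
      (𝓝 (b / c.toReal * (volume (proj S K)).toReal)) :=
    (((ENNReal.tendsto_toReal hP.measure_lt_top.ne).comp
      (tendsto_measure_cthickening_of_isCompact hP)).mono_left nhdsWithin_le_nhds).const_mul _
  have key : ∀ ε : ℝ, 0 < ε →
      b / c.toReal * (volume (proj S K)).toReal ≤
        (volume (S.starProjection '' K + closedBall 0 ε)).toReal / ε ^ finrank ℝ Sᗮ ∧
      (volume (S.starProjection '' K + closedBall 0 ε)).toReal / ε ^ finrank ℝ Sᗮ ≤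
        b / c.toReal * (volume (cthickening ε (proj S K))).toReal := by
    intro ε hε
    have cA : IsCompact (S.starProjection '' K + closedBall 0 ε) :=
      (hK.image S.starProjection.continuous).add (isCompact_closedBall _ _)
    have e := hc _ cA.isClosed.measurableSet
    have vb : volume (closedBall (0 : Sᗮ) ε) =
        ENNReal.ofReal (ε ^ finrank ℝ Sᗮ) * volume (closedBall (0 : Sᗮ) 1) :=
      Measure.addHaar_closedBall' _ _ hε.le
    have cT : IsCompact (cthickening ε (proj S K)) := hP.cthickening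
    have lo : volume (proj S K) * volume (closedBall (0 : Sᗮ) ε) ≤
        c * volume (S.starProjection '' K + closedBall 0 ε) := by
      rw [e, ← lintegral_indicator_const measurableSet_closedBall]
      refine lintegral_mono fun y => ?_
      simp only [slice_set S hK, indicator, mem_closedBall_zero_iff]
      split_ifs
      · exact measure_mono (self_subset_cthickening _)
      · exact zero_le
    have hi : c * volume (S.starProjection '' K + closedBall 0 ε) ≤
        volume (cthickening ε (proj S K)) * volume (closedBall (0 : Sᗮ) ε) := by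
      rw [e, ← lintegral_indicator_const measurableSet_closedBall]
      refine lintegral_mono fun y => ?_
      simp only [slice_set S hK, indicator, mem_closedBall_zero_iff]
      split_ifs
      · refine measure_mono (cthickening_mono ?_ _)
        rw [Real.sqrt_le_iff]
        exact ⟨hε.le, by nlinarith [sq_nonneg ‖y‖]⟩
      · simp
    have ep : 0 < ε ^ finrank ℝ Sᗮ := by positivity
    have lo' := ENNReal.toReal_mono (ENNReal.mul_ne_top c1 cA.measure_lt_top.ne) lo
    have hi' := ENNReal.toReal_mono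
      (ENNReal.mul_ne_top cT.measure_lt_top.ne measure_closedBall_lt_top.ne) hi
    rw [vb] at lo' hi'
    simp only [ENNReal.toReal_mul, ENNReal.toReal_ofReal ep.le, ← hb] at lo' hi'
    constructor
    · rw [le_div_iff₀ ep, div_mul_eq_mul_div, div_mul_eq_mul_div, div_le_iff₀ cp]
      linarith
    · rw [div_le_iff₀ ep, div_mul_eq_mul_div, div_mul_eq_mul_div, le_div_iff₀ cp]
      linarith
  refine tendsto_of_tendsto_of_tendsto_of_le_of_le' tendsto_const_nhds l2 ?_ ?_
  · filter_upwards [self_mem_nhdsWithin] with r hr using (key r hr).1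
  · filter_upwards [self_mem_nhdsWithin] with r hr using (key r hr).2

theorem main : ∃ K₁ K₂ : Set E4, IsCompact K₁ ∧ Convex ℝ K₁ ∧ IsCompact K₂ ∧ Convex ℝ K₂ ∧
    (∀ u : E4, ‖u‖ = 1 → ∃ p : ℝ[X], (∀ ε : ℝ, 0 ≤ ε → p.eval ε =
      (volume ((ℝ ∙ u)ᗮ.starProjection '' K₁ + closedBall 0 ε)).toReal) ∧
      ∀ ε : ℝ, 0 ≤ ε → p.eval ε =
      (volume ((ℝ ∙ u)ᗮ.starProjection '' K₂ + closedBall 0 ε)).toReal) ∧
    ∃ S : Submodule ℝ E4, Module.finrank ℝ S = 2 ∧ ∀ p q : ℝ[X],
      (∀ ε : ℝ, 0 ≤ ε → p.eval ε =
        (volume (S.starProjection '' K₁ + closedBall 0 ε)).toReal) →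
      (∀ ε : ℝ, 0 ≤ ε → q.eval ε =
        (volume (S.starProjection '' K₂ + closedBall 0 ε)).toReal) → p.coeff 2 ≠ q.coeff 2 := by
  obtain ⟨C, C', Q, -, h1, h2, h3, h4⟩ := exists_Q
  have h : Sup C C' Q := ⟨h1, h2, h3, h4⟩
  have c1 := T4_compact.add h1
  have c2 := T4_compact.neg.add h1
  have v1 := T4_convex.add h2
  refine ⟨T4 + Q, -T4 + Q, c1, v1, c2, T4_convex.neg.add h2, fun u _hu => ?_, ?_⟩
  · obtain ⟨p, hp⟩ := steiner (volume : Measure E4) (c1.image (ℝ ∙ u)ᗮ.starProjection.continuous)
      (v1.is_linear_image (ℝ ∙ u)ᗮ.starProjection.toLinearMap.isLinear)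
    refine ⟨p, hp, fun ε hε => ?_⟩
    rw [hp ε hε, amb_eq _ c1 c2]
    intro r hr
    rw [cth_proj _ c1 hr, cth_proj _ c2 hr, add_assoc, add_assoc, hyper (h.thick hr) u _hu]
  · obtain ⟨f, g⟩ := plane h
    refine ⟨_, f, fun p q hp hq e => g ?_⟩
    set S := Submodule.span ℝ {pa, pb}
    obtain ⟨c, c0, hc⟩ := amb_lim S
    have d : finrank ℝ Sᗮ = 2 := by
      have := S.finrank_add_finrank_orthogonal
      rw [f, finrank_euclideanSpace_fin] at this
      omega
    rw [d] at hc
    have a1 := coeff_lim 2 p _ ((hc _ c1).congr' (by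
      filter_upwards [self_mem_nhdsWithin] with r hr
      rw [hp r (le_of_lt hr)]))
    have a2 := coeff_lim 2 q _ ((hc _ c2).congr' (by
      filter_upwards [self_mem_nhdsWithin] with r hr
      rw [hq r (le_of_lt hr)]))
    rw [a1, a2, mul_right_inj' c0.ne'] at e
    have p1 : IsCompact (proj S (T4 + Q)) := c1.image (Submodule.orthogonalProjectionOnto _).continuous
    have p2 : IsCompact (proj S (-T4 + Q)) :=
      c2.image (Submodule.orthogonalProjectionOnto _).continuous
    exact (ENNReal.toReal_eq_toReal_iff' p1.measure_lt_top.ne p2.measure_lt_top.ne).1 e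

end Pool.Agent.H80.Pv
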