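import Mathlib

set_option autoImplicit false

namespace Pool.Agent.H80.Pz

open MeasureTheory Set Filter Topology Metric Asymptotics
open scoped Real Convolution

/-- smoothness of parametric integrals -/
lemma param_int {V P : Type} [NormedAddCommGroup V] [NormedSpace ℝ V] [FiniteDimensional ℝ V]
    [MeasurableSpace V] [BorelSpace V] [NormedAddCommGroup P] [NormedSpace ℝ P]
    (μ : Measure V) [μ.IsAddHaarMeasure] {f : V → ℝ} (hf : LocallyIntegrable f μ) {n : ℕ}
    {g : P → V → ℝ} {s : Set P} {k : Set V} (hs : IsOpen s) (hk : IsCompact k)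
    (hgs : ∀ p, ∀ x, p ∈ s → x ∉ k → g p x = 0)
    (hg : ContDiffOn ℝ n (fun q : P × V => g q.1 q.2) (s ×ˢ univ)) :
    ContDiffOn ℝ n (fun p => ∫ x, f x * g p x ∂μ) s := by
  have h1 := contDiffOn_convolution_right_with_param (μ := μ) (n := n) (f := f)
    (ContinuousLinearMap.mul ℝ ℝ) (g := fun p x => g p (-x)) hs hk.neg
    (fun p x hp hx => hgs p _ hp (by simpa using hx)) hf
    (hg.comp (f := fun q : P × V => (q.1, -q.2)) (by fun_prop) (fun q hq => ⟨hq.1, trivial⟩))
  have h2 := h1.comp (f := fun p : P => (p, (0 : V))) (s := s) (by fun_prop)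
    (fun p hp => ⟨hp, trivial⟩)
  refine h2.congr fun p _ => ?_
  simp [convolution_def]

/-- fourth difference -/
def d4 (f : ℝ → ℝ) (t : ℝ) : ℝ := f (2 * t) + f (-(2 * t)) + 6 * f 0 - 4 * (f t + f (-t))

lemma d4_lim {f : ℝ → ℝ} {a : ℝ} (ha : 0 < a) (hf : ContDiffOn ℝ 3 f (Ioo (-a) a)) :
    Tendsto (fun t => d4 f t / t ^ 3) (𝓝[>] 0) (𝓝 0) := by
  have m : (0 : ℝ) ∈ Ioo (-a) a := ⟨by linarith, ha⟩
  have h := taylor_isLittleO (n := 3) (convex_Ioo (-a) a) m hf
  rw [isOpen_Ioo.nhdsWithin_eq m] at h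
  simp only [taylor_within_apply, Finset.sum_range_succ, Finset.range_zero, Finset.sum_empty,
    sub_zero, smul_eq_mul, iteratedDerivWithin_zero] at h
  set a1 := iteratedDerivWithin 1 f (Ioo (-a) a) 0
  set a2 := iteratedDerivWithin 2 f (Ioo (-a) a) 0
  set a3 := iteratedDerivWithin 3 f (Ioo (-a) a) 0
  set r : ℝ → ℝ := fun x => f x - (0 + ((Nat.factorial 0 : ℝ))⁻¹ * x ^ 0 * f 0 +
    ((Nat.factorial 1 : ℝ))⁻¹ * x ^ 1 * a1 + ((Nat.factorial 2 : ℝ))⁻¹ * x ^ 2 * a2 +
    ((Nat.factorial 3 : ℝ))⁻¹ * x ^ 3 * a3) with hr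
  have k : ∀ c : ℝ, (fun x => r (c * x)) =o[𝓝 0] fun x => x ^ 3 := by
    intro c
    have t : Tendsto (fun x : ℝ => c * x) (𝓝 0) (𝓝 0) := by
      have : Continuous fun x : ℝ => c * x := by fun_prop
      simpa using this.tendsto 0
    refine (h.comp_tendsto t).trans_isBigO ?_
    refine IsBigO.of_bound (|c| ^ 3) (Eventually.of_forall fun x => ?_)
    simp [abs_mul, mul_pow]
  have k2 := ((k 2).add (k (-2))).sub (((k 1).add (k (-1))).const_mul_left 4)
  have k3 := (k2.tendsto_div_nhds_zero).mono_left (nhdsWithin_le_nhds (s := Ioi 0))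
  refine k3.congr fun x => ?_
  congr 1
  simp only [hr, d4, Nat.factorial, one_mul, neg_mul]
  push_cast
  ring

lemma absint (b : ℝ) : ∫ t in (0:ℝ)..b, |t| = b * |b| / 2 := by
  rcases le_total 0 b with h | h
  · rw [intervalIntegral.integral_congr (g := fun t => t), integral_id, abs_of_nonneg h]
    · ring
    · intro t ht
      rw [uIcc_of_le h] at ht
      exact abs_of_nonneg ht.1
  · rw [intervalIntegral.integral_congr (g := fun t => -t), intervalIntegral.integral_neg,
      integral_id, abs_of_nonpos h]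
    · ring
    · intro t ht
      rw [uIcc_of_ge h] at ht
      exact abs_of_nonpos ht.2

lemma absint2 (a c : ℝ) : ∫ t in (-a)..a, |t + c| =
    (a + c) * |a + c| / 2 - (-a + c) * |-a + c| / 2 := by
  rw [intervalIntegral.integral_comp_add_right (fun t => |t|), ← absint, ← absint,
    intervalIntegral.integral_interval_sub_left] <;>
  exact continuous_abs.intervalIntegrable _ _

/-- the kernel -/
def Fk (z t : ℝ) : ℝ := d4 (fun s => |t + s * z|) 1

lemma Fk_cont : Continuous fun p : ℝ × ℝ => Fk p.1 p.2 := by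
  unfold Fk d4; fun_prop

lemma Fk_abs (z t : ℝ) : Fk z t = Fk |z| t := by
  rcases abs_choice z with h | h <;> rw [h]
  simp only [Fk, d4]
  ring_nf

lemma Fk_int (z : ℝ) {a : ℝ} (ha : 0 ≤ a) : ∫ t in (-a)..a, Fk z t ≤ 0 := by
  simp_rw [Fk_abs z]
  have hz := abs_nonneg z
  generalize |z| = y at hz
  have i : ∀ c : ℝ, IntervalIntegrable (fun t => |t + c|) volume (-a) a := fun c =>
    Continuous.intervalIntegrable (by fun_prop) _ _
  simp only [Fk, d4]
  rw [intervalIntegral.integral_sub (((i _).add (i _)).add ((i _).const_mul 6))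
    (((i _).add (i _)).const_mul 4), intervalIntegral.integral_add ((i _).add (i _))
    ((i _).const_mul 6), intervalIntegral.integral_add (i _) (i _),
    intervalIntegral.integral_const_mul, intervalIntegral.integral_const_mul,
    intervalIntegral.integral_add (i _) (i _)]
  simp only [absint2]
  have e1 : |a + 2 * 1 * y| = a + 2 * y := by rw [abs_of_nonneg] <;> linarith
  have e2 : |-a + -(2 * 1) * y| = a + 2 * y := by rw [abs_of_nonpos] <;> linarith
  have e3 : |a + 0 * y| = a := by rw [abs_of_nonneg] <;> linarith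
  have e4 : |-a + 0 * y| = a := by rw [abs_of_nonpos] <;> linarith
  have e5 : |a + 1 * y| = a + y := by rw [abs_of_nonneg] <;> linarith
  have e6 : |-a + -1 * y| = a + y := by rw [abs_of_nonpos] <;> linarith
  have e7 : |-a + 2 * 1 * y| = |a - 2 * y| := by rw [← abs_neg]; congr 1; ring
  have e8 : |a + -(2 * 1) * y| = |a - 2 * y| := by congr 1; ring
  have e9 : |-a + 1 * y| = |a - y| := by rw [← abs_neg]; congr 1; ring
  have e10 : |a + -1 * y| = |a - y| := by congr 1; ring
  rw [e1, e2, e3, e4, e5, e6, e7, e8, e9, e10]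
  rcases le_total a y with h | h
  · rw [abs_of_nonpos (a := a - 2 * y) (by linarith), abs_of_nonpos (a := a - y) (by linarith)]
    nlinarith
  · rcases le_total a (2 * y) with h' | h'
    · rw [abs_of_nonpos (a := a - 2 * y) (by linarith), abs_of_nonneg (a := a - y) (by linarith)]
      nlinarith [sq_nonneg (a - 2 * y)]
    · rw [abs_of_nonneg (a := a - 2 * y) (by linarith), abs_of_nonneg (a := a - y) (by linarith)]
      nlinarith

lemma Fk_int2 (z : ℝ) {a r : ℝ} (ha : 0 ≤ a) (hr : 0 ≤ r) :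
    ∫ t in (-a)..a, Fk z (r * t) ≤ 0 := by
  rcases hr.eq_or_lt with rfl | hr
  · simp only [zero_mul, intervalIntegral.integral_const, smul_eq_mul]
    refine mul_nonpos_of_nonneg_of_nonpos (by linarith) ?_
    simp only [Fk, d4, abs_mul, abs_neg, zero_add, abs_zero]
    norm_num
    linarith [abs_nonneg z]
  · rw [intervalIntegral.integral_comp_mul_left (fun t => Fk z t) hr.ne', smul_eq_mul, mul_neg]
    exact mul_nonpos_of_nonneg_of_nonpos (by positivity) (Fk_int z (by positivity))

def dom (R : ℝ) : Set (ℝ × ℝ) := Ioo 0 R ×ˢ Ioo (-π) π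

lemma kern (R e1 e2 z : ℝ) :
    ∫ p in dom R, p.1 * Fk z (p.1 * (Real.cos p.2 * e1 + Real.sin p.2 * e2)) ≤ 0 := by
  set η : ℂ := ⟨e1, e2⟩ with hη
  set f : ℂ → ℝ := (ball (0 : ℂ) R).indicator fun w => Fk z (w.re * e1 + w.im * e2) with hf
  have s1 : ∫ p in dom R, p.1 * Fk z (p.1 * (Real.cos p.2 * e1 + Real.sin p.2 * e2)) =
      ∫ w, f w := by
    rw [← Complex.integral_comp_polarCoord_symm, polarCoord_target]
    have : dom R = (Ioi 0 ×ˢ Ioo (-π) π) ∩ (Iio R ×ˢ univ) := by
      ext p; simp [dom]; tauto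
    rw [this, ← setIntegral_indicator (measurableSet_Iio.prod MeasurableSet.univ)]
    refine setIntegral_congr_fun (measurableSet_Ioi.prod measurableSet_Ioo) fun p hp => ?_
    have hp1 : 0 < p.1 := hp.1
    have hn : ‖Complex.polarCoord.symm p‖ = p.1 := by
      rw [Complex.norm_polarCoord_symm, abs_of_pos hp1]
    simp only [hf, indicator, mem_ball_zero_iff, hn, mem_prod, mem_Iio, mem_univ, and_true,
      smul_eq_mul]
    split_ifs
    · congr 2
      simp [Complex.polarCoord_symm_apply, Complex.cos_ofReal_re, Complex.sin_ofReal_re]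
      ring
    · simp
  rw [s1]
  set a : Circle := Circle.exp (Complex.arg η) with ha
  have ea : η = (‖η‖ : ℂ) * a := by
    rw [ha, Circle.coe_exp, Complex.norm_mul_exp_arg_mul_I]
  have r1 : e1 = ‖η‖ * (a : ℂ).re := by
    have := congrArg Complex.re ea
    simpa [hη] using this
  have r2 : e2 = ‖η‖ * (a : ℂ).im := by
    have := congrArg Complex.im ea
    simpa [hη] using this
  have r3 : (a : ℂ).re ^ 2 + (a : ℂ).im ^ 2 = 1 := by
    have := Circle.normSq_coe a
    rw [Complex.normSq_apply] at this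
    linarith
  set r := ‖η‖ with hr
  have r0 : 0 ≤ r := norm_nonneg _
  rw [← (rotation a).measurePreserving.integral_comp
    (rotation a).toHomeomorph.measurableEmbedding,
    ← (Complex.volume_preserving_equiv_real_prod.symm).integral_comp
    Complex.measurableEquivRealProd.symm.measurableEmbedding]
  set g : ℝ × ℝ → ℝ := {p : ℝ × ℝ | p.1 ^ 2 + p.2 ^ 2 < (max R 0) ^ 2}.indicator
    fun p => Fk z (r * p.1) with hg
  have e : ∀ p : ℝ × ℝ, f (rotation a (Complex.measurableEquivRealProd.symm p)) = g p := by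
    intro p
    have h1 : (Complex.measurableEquivRealProd.symm p) = ⟨p.1, p.2⟩ := rfl
    have h2 : ‖(⟨p.1, p.2⟩ : ℂ)‖ < R ↔ p.1 ^ 2 + p.2 ^ 2 < (max R 0) ^ 2 := by
      rw [Complex.norm_eq_sqrt_sq_add_sq]
      rcases le_total R 0 with h | h
      · rw [max_eq_right h]
        constructor
        · intro h'; linarith [Real.sqrt_nonneg (p.1 ^ 2 + p.2 ^ 2)]
        · intro h'; nlinarith
      · rw [max_eq_left h, Real.sqrt_lt (by positivity) h]
    simp only [hf, hg, indicator, mem_ball_zero_iff, LinearIsometryEquiv.norm_map, h1, h2,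
      mem_setOf_eq]
    split_ifs
    · congr 1
      simp only [rotation_apply, Complex.mul_re, Complex.mul_im]
      rw [r1, r2]
      linear_combination (r * p.1) * r3
    · rfl
  simp_rw [e]
  have mS : MeasurableSet {p : ℝ × ℝ | p.1 ^ 2 + p.2 ^ 2 < (max R 0) ^ 2} :=
    (isOpen_lt (by fun_prop) continuous_const).measurableSet
  have ig : Integrable g (volume.prod volume) := by
    rw [hg, integrable_indicator_iff mS]
    refine IntegrableOn.mono_set (t := closedBall 0 (max R 0)) ?_ ?_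
    · exact ContinuousOn.integrableOn_compact (isCompact_closedBall _ _)
        (Fk_cont.comp (f := fun p : ℝ × ℝ => (z, r * p.1)) (by fun_prop)).continuousOn
    · intro p hp
      have hp' : p.1 ^ 2 + p.2 ^ 2 < (max R 0) ^ 2 := hp
      have m0 : 0 ≤ max R 0 := le_max_right _ _
      rw [mem_closedBall_zero_iff, Prod.norm_def]
      refine max_le ?_ ?_ <;> rw [Real.norm_eq_abs] <;> apply abs_le_of_sq_le_sq _ m0 <;> nlinarith
  rw [show (volume : Measure (ℝ × ℝ)) = volume.prod volume from rfl, integral_prod_symm _ ig]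
  refine integral_nonpos fun b => ?_
  set q := Real.sqrt ((max R 0) ^ 2 - b ^ 2) with hq
  have q0 : 0 ≤ q := Real.sqrt_nonneg _
  have : (fun x => g (x, b)) = (Ioo (-q) q).indicator fun x => Fk z (r * x) := by
    ext x
    have : x ^ 2 + b ^ 2 < (max R 0) ^ 2 ↔ x ∈ Ioo (-q) q := by
      rw [mem_Ioo, ← abs_lt, hq, Real.lt_sqrt (abs_nonneg _), sq_abs]
      constructor <;> intro <;> linarith
    simp only [hg, indicator, mem_setOf_eq, this]
  simp only [this, Pi.zero_apply]
  rw [integral_indicator measurableSet_Ioo, ← integral_Ioc_eq_integral_Ioo,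
    ← intervalIntegral.integral_of_le (by linarith)]
  exact Fk_int2 z q0 r0

lemma logdiv {d : ℝ → ℝ} (hd : ∀ R, IntegrableOn d (Ioo 0 R)) {c R0 : ℝ} (hc : 0 < c) (h0 : 0 < R0)
    (h : ∀ ρ, R0 ≤ ρ → c / ρ ≤ d ρ) : ∃ R, 0 < ∫ ρ in Ioo 0 R, d ρ := by
  set A := ∫ ρ in Ioo 0 R0, d ρ with hA
  set R := R0 * Real.exp ((|A| + 1) / c) with hR
  have e1 : 1 ≤ Real.exp ((|A| + 1) / c) := Real.one_le_exp (by positivity)
  have hRR : R0 ≤ R := le_mul_of_one_le_right h0.le e1
  refine ⟨R, ?_⟩
  have u : Ioo 0 R = Ioo 0 R0 ∪ Ico R0 R := (Ioo_union_Ico_eq_Ioo h0 hRR).symm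
  have i2 : IntegrableOn d (Ico R0 R) := (hd R).mono_set (by rw [u]; exact subset_union_right)
  rw [u, setIntegral_union (by
    rw [Set.disjoint_left]; intro x h1 h2; exact absurd h1.2 (not_lt.2 h2.1))
    measurableSet_Ico (hd R0) i2]
  have i3 : IntervalIntegrable (fun ρ : ℝ => c / ρ) volume R0 R := by
    apply ContinuousOn.intervalIntegrable
    rw [uIcc_of_le hRR]
    exact continuousOn_const.div continuousOn_id fun x hx => by linarith [hx.1]
  have l : ∫ ρ in Ico R0 R, c / ρ ≤ ∫ ρ in Ico R0 R, d ρ :=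
    setIntegral_mono_on ((intervalIntegrable_iff_integrableOn_Ico_of_le hRR).1 i3) i2
      measurableSet_Ico fun x hx => h x hx.1
  have v : ∫ ρ in Ico R0 R, c / ρ = |A| + 1 := by
    rw [integral_Ico_eq_integral_Ioc, ← intervalIntegral.integral_of_le hRR]
    simp_rw [div_eq_mul_one_div c]
    rw [intervalIntegral.integral_const_mul, integral_one_div_of_pos h0 (by linarith), hR,
      mul_div_cancel_left₀ _ h0.ne', Real.log_exp]
    field_simp
  linarith [neg_abs_le A]

end Pool.Agent.H80.Pz
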