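import Mathlib

set_option autoImplicit false

namespace Pool.Agent.H80.Pz

open MeasureTheory Set Filter Topology Metric Pointwise
open scoped RealInnerProductSpace ENNReal

variable {E : Type} [NormedAddCommGroup E] [InnerProductSpace ℝ E] [FiniteDimensional ℝ E]

structure Nice (P : E → ℝ) : Prop where
  cvx : ConvexOn ℝ univ P
  hom : ∀ (l : ℝ) y, P (l • y) = l ^ 2 * P y
  sm : ∀ y, y ≠ 0 → ∀ k : ℕ, ContDiffAt ℝ k P y
  nn : ∀ y, 0 ≤ P y

lemma approx {K : Set E} (hK : IsCompact K) (hc : Convex ℝ K) (h0 : (0 : E) ∈ K)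
    (hs : ∀ x ∈ K, -x ∈ K) {δ : ℝ} (hδ : 0 < δ) : ∃ P : E → ℝ, Nice P ∧ ∃ θ < 1,
      (∀ y ∈ K, P y ≤ θ) ∧ ∀ y, P y ≤ 1 → infDist y K ≤ 2 * δ := by
  classical
  obtain ⟨R, R0, hR⟩ := hK.isBounded.exists_pos_norm_le
  have ne : K.Nonempty := ⟨0, h0⟩
  set S := {y : E | infDist y K = 2 * δ} with hS
  have cS : IsCompact S := by
    refine (isCompact_closedBall (0 : E) (R + 2 * δ)).of_isClosed_subset
      (isClosed_eq (continuous_infDist_pt K) continuous_const) fun y hy => ?_
    obtain ⟨k, hk, e⟩ := hK.exists_infDist_eq_dist ne y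
    have h1 : dist y k = 2 * δ := e ▸ hy
    rw [mem_closedBall_zero_iff]
    rw [dist_eq_norm] at h1
    have := norm_add_le (y - k) k
    rw [sub_add_cancel] at this
    linarith [hR k hk]
  have cD : IsCompact (K + closedBall (0 : E) δ) := hK.add (isCompact_closedBall _ _)
  have sep : ∀ y : S, ∃ f : E →L[ℝ] ℝ, (∀ a ∈ K + closedBall (0 : E) δ, |f a| ≤ 1) ∧ 1 < f y := by
    intro y
    obtain ⟨f, u, h1, h2⟩ := geometric_hahn_banach_closed_point
      (hc.add (convex_closedBall 0 δ)) cD.isClosed (x := (y : E)) (by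
        rintro ⟨k, hk, q, hq, e⟩
        have h3 := infDist_le_dist_of_mem (x := (y : E)) hk
        have h4 : infDist (y : E) K = 2 * δ := y.2
        rw [dist_eq_norm, ← e] at h3
        simp only [add_sub_cancel_left] at h3
        rw [mem_closedBall_zero_iff] at hq
        simp only at e
        rw [e] at h3
        linarith)
    have u0 : 0 < u := by simpa using h1 0 ⟨0, h0, 0, by simp [hδ.le], by simp⟩
    refine ⟨u⁻¹ • f, ?_, ?_⟩
    · rintro _ ⟨k, hk, q, hq, rfl⟩
      have a1 := h1 _ ⟨k, hk, q, hq, rfl⟩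
      have a2 := h1 _ ⟨-k, hs k hk, -q, by simpa using hq, rfl⟩
      simp only [map_add, map_neg] at a1 a2
      simp only [ContinuousLinearMap.smul_apply, smul_eq_mul, map_add, ← mul_add, abs_mul,
        abs_of_pos (inv_pos.2 u0)]
      rw [inv_mul_le_iff₀ u0, mul_one, abs_le]
      constructor <;> linarith
    · simp only [ContinuousLinearMap.smul_apply, smul_eq_mul]
      rw [lt_inv_mul_iff₀ u0]; linarith
  choose f f1 f2 using sep
  obtain ⟨t, ht⟩ := cS.elim_finite_subcover (fun y : S => {x | 1 < f y x})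
    (fun y => isOpen_lt continuous_const (f y).continuous)
    (fun y hy => mem_iUnion.2 ⟨⟨y, hy⟩, f2 ⟨y, hy⟩⟩)
  have inside : ∀ y : E, (∀ i ∈ t, |f i y| ≤ 1) → infDist y K ≤ 2 * δ := by
    intro y hy
    by_contra hh
    have c : ContinuousOn (fun a : ℝ => infDist (a • y) K) (Icc 0 1) :=
      ((continuous_infDist_pt K).comp (by fun_prop)).continuousOn
    obtain ⟨a, ha, e⟩ := intermediate_value_Icc zero_le_one c (a := 0) (b := 1)
      (show 2 * δ ∈ Icc _ _ from ⟨by simp [infDist_zero_of_mem h0, hδ.le], by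
        simpa using (not_le.1 hh).le⟩)
    have := ht (show a • y ∈ S from e)
    simp only [mem_iUnion, mem_setOf_eq, map_smul, smul_eq_mul] at this
    obtain ⟨i, hi, h⟩ := this
    have := (abs_le.1 (hy i hi)).2
    nlinarith [ha.1, ha.2]
  set θ := R / (R + δ) with hθ
  have θ0 : 0 ≤ θ := by positivity
  have θ1 : θ < 1 := by rw [hθ, div_lt_one (by positivity)]; linarith
  have small : ∀ y ∈ K, ∀ i, |f i y| ≤ θ := by
    intro y hy i
    have := f1 i _ ⟨y, hy, (δ / R) • y, by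
      rw [mem_closedBall_zero_iff, norm_smul, Real.norm_eq_abs, abs_of_pos (by positivity),
        div_mul_eq_mul_div, div_le_iff₀ R0]
      exact mul_le_mul_of_nonneg_left (hR y hy) hδ.le, rfl⟩
    simp only [map_add, map_smul, smul_eq_mul] at this
    have e : f i y + δ / R * f i y = (R + δ) / R * f i y := by field_simp
    rw [e, abs_mul, abs_of_pos (by positivity), div_mul_eq_mul_div, div_le_one R0] at this
    rw [hθ, le_div_iff₀ (by positivity)]; linarith
  obtain ⟨m, hm⟩ : ∃ m : ℕ, (t.card : ℝ) * θ ^ (2 * (m + 1)) < 1 := by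
    have := (tendsto_pow_atTop_nhds_zero_of_lt_one θ0 θ1).const_mul (t.card : ℝ)
    rw [mul_zero] at this
    obtain ⟨m, hm⟩ := (this.eventually (gt_mem_nhds zero_lt_one)).exists_forall_of_atTop
    exact ⟨m, hm _ (by omega)⟩
  set N := 2 * (m + 1) with hN
  have N0 : (0 : ℝ) < N := by positivity
  have ev : Even N := ⟨m + 1, by omega⟩
  haveI : Fact (1 ≤ (N : ℝ≥0∞)) := ⟨by exact_mod_cast (by omega : 1 ≤ N)⟩
  let L : E →ₗ[ℝ] PiLp (N : ℝ≥0∞) (fun _ : t => ℝ) :=
    (WithLp.linearEquiv (N : ℝ≥0∞) ℝ (t → ℝ)).symm.toLinearMap ∘ₗ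
      LinearMap.pi fun i : t => (f i).toLinearMap
  have hL : ∀ y, ‖L y‖ = (∑ i : t, f i y ^ N) ^ (1 / (N : ℝ)) := by
    intro y
    rw [PiLp.norm_eq_of_nat N rfl]
    congr 2
    ext i
    rw [Real.norm_eq_abs, ev.pow_abs]
    rfl
  have le : ∀ y, ∀ i ∈ t, |f i y| ≤ ‖L y‖ := fun y i hi => PiLp.norm_apply_le (L y) ⟨i, hi⟩
  refine ⟨fun y => ‖L y‖ ^ 2, ⟨?_, ?_, ?_, fun y => sq_nonneg _⟩,
    (((t.card : ℝ) * θ ^ N) ^ (1 / (N : ℝ))) ^ 2, ?_, ?_, ?_⟩
  · exact (convexOn_univ_norm.comp_linearMap L).pow (fun _ _ => norm_nonneg _) 2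
  · intro l y
    rw [map_smul, norm_smul, mul_pow, Real.norm_eq_abs, sq_abs]
  · intro y hy k
    simp only [hL]
    refine ContDiffAt.pow (ContDiffAt.rpow_const_of_ne (by fun_prop) ?_) 2
    intro h
    rw [Finset.sum_eq_zero_iff_of_nonneg fun i _ => ev.pow_nonneg _] at h
    have hn := norm_pos_iff.2 hy
    have := inside (((R + 2 * δ + 1) / ‖y‖) • y) fun i hi => by
      have := pow_eq_zero_iff (by omega : N ≠ 0) |>.1 (h ⟨i, hi⟩ (Finset.mem_univ _))
      simp only at this
      simp [this]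
    obtain ⟨k, hk, e⟩ := hK.exists_infDist_eq_dist ne (((R + 2 * δ + 1) / ‖y‖) • y)
    rw [e, dist_eq_norm] at this
    have h2 := norm_sub_norm_le (((R + 2 * δ + 1) / ‖y‖) • y) k
    rw [norm_smul, Real.norm_eq_abs, abs_of_pos (by positivity), div_mul_cancel₀ _ hn.ne'] at h2
    linarith [hR k hk]
  · refine pow_lt_one₀ (by positivity) (Real.rpow_lt_one (by positivity) hm (by positivity))
      two_ne_zero
  · intro y hy
    simp only [hL]
    refine pow_le_pow_left₀ (Real.rpow_nonneg (Finset.sum_nonneg fun i _ => ev.pow_nonneg _) _)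
      (Real.rpow_le_rpow (Finset.sum_nonneg fun i _ => ev.pow_nonneg _) ?_ (by positivity)) 2
    refine (Finset.sum_le_card_nsmul _ _ (θ ^ N) fun i _ => ?_).trans (by simp)
    rw [← ev.pow_abs]
    exact pow_le_pow_left₀ (abs_nonneg _) (small y hy i) N
  · intro y hy
    refine inside y fun i hi => (le y i hi).trans ?_
    nlinarith [norm_nonneg (L y)]

lemma conv {P f : E → ℝ} (hP : Nice P) {η : ℝ}
    (hom : ∀ l : ℝ, 0 < l → ∀ y, f (l • y) = l ^ 2 * f y) (f0 : f 0 = 0)
    (sm : ∀ y, y ≠ 0 → ContDiffAt ℝ 2 f y)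
    (b2 : ∀ p, ‖p‖ = 1 → ‖fderiv ℝ (fderiv ℝ f) p‖ ≤ 2 * η) :
    Convex ℝ {y | P y + η * ‖y‖ ^ 2 + f y ≤ 1} := by
  have d1 : ∀ l : ℝ, 0 < l → ∀ y, fderiv ℝ f (l • y) = l • fderiv ℝ f y := by
    intro l hl y
    have h := fderiv_comp_smul (𝕜 := ℝ) (f := f) (x := y) l
    have e : (fun x => f (l • x)) = (l ^ 2) • f := funext fun x => hom l hl x
    rw [e, fderiv_const_smul_field, Pi.smul_apply, sq, mul_smul] at h
    exact (smul_right_injective _ hl.ne' h).symm
  have d2 : ∀ l : ℝ, 0 < l → ∀ y,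
      fderiv ℝ (fderiv ℝ f) (l • y) = fderiv ℝ (fderiv ℝ f) y := by
    intro l hl y
    have h := fderiv_comp_smul (𝕜 := ℝ) (f := fderiv ℝ f) (x := y) l
    have e : (fun x => fderiv ℝ f (l • x)) = l • fderiv ℝ f := funext fun x => d1 l hl x
    have e2 := congrFun (fderiv_const_smul_field (𝕜 := ℝ) (f := fderiv ℝ f) l) y
    rw [e, e2, Pi.smul_apply] at h
    exact (smul_right_injective _ hl.ne' h).symm
  have b3 : ∀ p, p ≠ 0 → ‖fderiv ℝ (fderiv ℝ f) p‖ ≤ 2 * η := by
    intro p hp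
    have hn := norm_pos_iff.2 hp
    rw [← d2 _ (inv_pos.2 hn)]
    exact b2 _ (by rw [norm_smul, norm_inv, norm_norm, inv_mul_cancel₀ hn.ne'])
  have star : ∀ y, P y + η * ‖y‖ ^ 2 + f y ≤ 1 → ∀ l : ℝ, 0 ≤ l → l ≤ 1 →
      P (l • y) + η * ‖l • y‖ ^ 2 + f (l • y) ≤ 1 := by
    intro y hy l h0 h1
    rcases h0.eq_or_lt with rfl | h0
    · have := hP.hom 0 0
      simp at this
      simp [this, f0]
    · rw [hP.hom, hom l h0, norm_smul, mul_pow, Real.norm_eq_abs, sq_abs]
      have : l ^ 2 ≤ 1 := pow_le_one₀ h0.le h1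
      nlinarith [sq_nonneg l]
  intro x hx y hy a b ha hb hab
  simp only [mem_setOf_eq] at hx hy ⊢
  obtain rfl : a = 1 - b := by linarith
  have b1 : b ≤ 1 := by linarith
  by_cases hz : ∃ s ∈ Icc (0 : ℝ) 1, x + s • (y - x) = 0
  · obtain ⟨s, hs, e⟩ := hz
    rcases le_or_gt s b with h | h
    · rcases hs.2.eq_or_lt with rfl | h1
      · obtain rfl : b = 1 := le_antisymm b1 h
        simpa using hy
      · have : (1 - b) • x + b • y = ((b - s) / (1 - s)) • y := by
          have h2 : (1 - s) ≠ 0 := by linarith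
          apply smul_right_injective _ h2
          simp only [smul_smul, mul_div_cancel₀ _ h2]
          linear_combination (norm := module) (1 - b) • e
        rw [this]
        exact star y hy _ (div_nonneg (by linarith) (by linarith))
          (by rw [div_le_one (by linarith)]; linarith)
    · have s0 : 0 < s := by linarith
      have : (1 - b) • x + b • y = ((s - b) / s) • x := by
        apply smul_right_injective _ s0.ne'
        simp only [smul_smul, mul_div_cancel₀ _ s0.ne']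
        linear_combination (norm := module) b • e
      rw [this]
      exact star x hx _ (div_nonneg (by linarith) s0.le) (by rw [div_le_one s0]; linarith)
  · push Not at hz
    set z := y - x with hzd
    have ln : ∀ s : ℝ, HasDerivAt (fun s : ℝ => x + s • z) z s := fun s => by
      simpa using ((hasDerivAt_id s).smul_const z).const_add x
    have nsq : ∀ s : ℝ, ‖x + s • z‖ ^ 2 = ‖x‖ ^ 2 + 2 * s * ⟪x, z⟫ + s ^ 2 * ‖z‖ ^ 2 := by
      intro s
      rw [norm_add_sq_real, real_inner_smul_right, norm_smul, mul_pow, Real.norm_eq_abs, sq_abs]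
      ring
    have h1 : ∀ s ∈ Icc (0 : ℝ) 1, HasDerivAt (fun s : ℝ => η * ‖x + s • z‖ ^ 2 + f (x + s • z))
        (η * (2 * ⟪x, z⟫ + 2 * s * ‖z‖ ^ 2) + fderiv ℝ f (x + s • z) z) s := by
      intro s hs
      simp only [nsq]
      refine HasDerivAt.add (HasDerivAt.const_mul η ?_)
        (((sm _ (hz s hs)).differentiableAt (by norm_num)).hasFDerivAt.comp_hasDerivAt s (ln s))
      have := (((hasDerivAt_id s).const_mul 2).mul_const ⟪x, z⟫).const_add (‖x‖ ^ 2) |>.add
        (((hasDerivAt_id s).pow 2).mul_const (‖z‖ ^ 2))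
      refine this.congr_deriv ?_
      simp
    have h2 : ∀ s ∈ Icc (0 : ℝ) 1, HasDerivAt
        (fun s : ℝ => η * (2 * ⟪x, z⟫ + 2 * s * ‖z‖ ^ 2) + fderiv ℝ f (x + s • z) z)
        (η * (2 * ‖z‖ ^ 2) + fderiv ℝ (fderiv ℝ f) (x + s • z) z z) s := by
      intro s hs
      refine HasDerivAt.add (HasDerivAt.const_mul η ?_) ?_
      · simpa using (((hasDerivAt_id s).const_mul 2).mul_const (‖z‖ ^ 2)).const_add (2 * ⟪x, z⟫)
      · have k : DifferentiableAt ℝ (fderiv ℝ f) (x + s • z) :=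
          ((sm _ (hz s hs)).fderiv_right (m := 1) (by norm_num)).differentiableAt (by norm_num)
        simpa using (k.hasFDerivAt.comp_hasDerivAt s (ln s)).clm_apply (hasDerivAt_const s z)
    have cv := convexOn_of_hasDerivWithinAt2_nonneg (convex_Icc (0 : ℝ) 1)
      (fun s hs => (h1 s hs).continuousAt.continuousWithinAt)
      (fun s hs => (h1 s (interior_subset hs)).hasDerivWithinAt)
      (fun s hs => (h2 s (interior_subset hs)).hasDerivWithinAt)
      (fun s hs => by
        have k1 := b3 _ (hz s (interior_subset hs))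
        have k2 := (fderiv ℝ (fderiv ℝ f) (x + s • z)).le_opNorm₂ z z
        have k3 := mul_le_mul_of_nonneg_right k1 (mul_self_nonneg ‖z‖)
        have k4 := (abs_le.1 k2).1
        nlinarith)
    have c1 := cv.2 (left_mem_Icc.2 zero_le_one) (right_mem_Icc.2 zero_le_one) ha hb hab
    have c2 := hP.cvx.2 (mem_univ x) (mem_univ y) ha hb hab
    have e : (1 - b) • x + b • y = x + b • z := by rw [hzd]; module
    simp only [smul_eq_mul, mul_zero, mul_one, zero_add, zero_smul, add_zero, one_smul] at c1 c2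
    rw [show x + z = y by rw [hzd]; abel] at c1
    rw [e] at c2 ⊢
    nlinarith

end Pool.Agent.H80.Pz
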