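import Pool.Agent.H80.Pz2

set_option autoImplicit false

namespace Pool.Agent.H80.Pz

open MeasureTheory Set Filter Topology Metric Pointwise
open scoped RealInnerProductSpace ENNReal

variable {E : Type} [NormedAddCommGroup E] [InnerProductSpace ℝ E] [FiniteDimensional ℝ E]

noncomputable def F0 (P : E → ℝ) (η d : ℝ) (y : E) : ℝ := (P y + η * ‖y‖ ^ 2) ^ (-d / 2)

lemma base_pos {P : E → ℝ} (hP : Nice P) {η : ℝ} (hη : 0 < η) {y : E} (hy : y ≠ 0) :
    0 < P y + η * ‖y‖ ^ 2 := by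
  have := hP.nn y
  have := norm_pos_iff.2 hy
  positivity

lemma F0_pos {P : E → ℝ} (hP : Nice P) {η : ℝ} (hη : 0 < η) (d : ℝ) {y : E} (hy : y ≠ 0) :
    0 < F0 P η d y := Real.rpow_pos_of_pos (base_pos hP hη hy) _

lemma base_sm {P : E → ℝ} (hP : Nice P) (η : ℝ) {y : E} (hy : y ≠ 0) (k : ℕ) :
    ContDiffAt ℝ k (fun y => P y + η * ‖y‖ ^ 2) y :=
  (hP.sm y hy k).add (contDiffAt_const.mul (contDiff_norm_sq ℝ).contDiffAt)

lemma F0_sm {P : E → ℝ} (hP : Nice P) {η : ℝ} (hη : 0 < η) (d : ℝ) {y : E} (hy : y ≠ 0) (k : ℕ) :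
    ContDiffAt ℝ k (F0 P η d) y :=
  (base_sm hP η hy k).rpow_const_of_ne (base_pos hP hη hy).ne'

lemma F0_hom {P : E → ℝ} (hP : Nice P) {η : ℝ} (hη : 0 < η) (d : ℝ) {l : ℝ} (hl : 0 < l) (y : E) :
    F0 P η d (l • y) = l ^ (-d) * F0 P η d y := by
  have := hP.nn y
  unfold F0
  rw [hP.hom, norm_smul, mul_pow, Real.norm_eq_abs, sq_abs,
    show l ^ 2 * P y + η * (l ^ 2 * ‖y‖ ^ 2) = l ^ 2 * (P y + η * ‖y‖ ^ 2) by ring,
    Real.mul_rpow (by positivity) (by positivity), ← Real.rpow_natCast, ← Real.rpow_mul hl.le]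
  congr 2
  push_cast; ring

lemma P_zero {P : E → ℝ} (hP : Nice P) : P 0 = 0 := by simpa using hP.hom 0 0

lemma small {C : Type} [NormedAddCommGroup C] [NormedSpace ℝ C] {P : E → ℝ} (hP : Nice P)
    {η : ℝ} (hη : 0 < η) {d : ℝ} (hd : 0 < d) (q : C → E → ℝ) (q0 : ∀ y, q 0 y = 0)
    (q1 : ∀ c, q c 0 = 0) (qh : ∀ c (l : ℝ), 0 < l → ∀ y, q c (l • y) = l ^ (-d) * q c y)
    (qs : ∀ c y, y ≠ 0 → ContDiffAt ℝ 2 (fun z : C × E => q z.1 z.2) (c, y)) :
    ∀ᶠ c in 𝓝 (0 : C), (∀ y, y ≠ 0 → 0 < F0 P η d y - q c y) ∧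
      Convex ℝ {y | y = 0 ∨ 1 ≤ F0 P η d y - q c y} ∧
      (∀ y, P y + 2 * η * ‖y‖ ^ 2 ≤ 1 → y = 0 ∨ 1 ≤ F0 P η d y - q c y) ∧
      ∀ y, (y = 0 ∨ 1 ≤ F0 P η d y - q c y) → P y ≤ 1 := by
  set Φ : C → E → ℝ := fun c y => (F0 P η d y - q c y) ^ (-2 / d) - (P y + η * ‖y‖ ^ 2) with hΦ
  have Xs : ∀ c y, y ≠ 0 → ContDiffAt ℝ 2 (fun z : C × E => F0 P η d z.2 - q z.1 z.2) (c, y) :=
    fun c y hy => by
      have a : ContDiffAt ℝ 2 (F0 P η d ∘ Prod.snd) (c, y) :=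
        ContDiffAt.comp (c, y) (F0_sm hP hη d hy 2) contDiffAt_snd
      exact a.sub (qs c y hy)
  have Φs : ∀ c y, y ≠ 0 → 0 < F0 P η d y - q c y →
      ContDiffAt ℝ 2 (fun z : C × E => Φ z.1 z.2) (c, y) := fun c y hy h =>
    ((Xs c y hy).rpow_const_of_ne h.ne').sub ((base_sm hP η hy 2).comp (c, y) contDiffAt_snd)
  have Φ0 : Φ 0 = fun _ => 0 := by
    ext y
    have := hP.nn y
    simp only [hΦ, q0, sub_zero, F0]
    rw [← Real.rpow_mul (by positivity), show -d / 2 * (-2 / d) = 1 by field_simp, Real.rpow_one,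
      sub_self]
  have key := (isCompact_sphere (0 : E) 1).eventually_forall_of_forall_eventually (x₀ := (0 : C))
    (P := fun c p => 0 < F0 P η d p - q c p ∧ |Φ c p| ≤ η ∧
      ‖fderiv ℝ (fderiv ℝ (Φ c)) p‖ ≤ 2 * η) (fun p hp => by
      have hp0 : p ≠ 0 := by rintro rfl; simp at hp
      have x0 : 0 < F0 P η d p - q 0 p := by rw [q0, sub_zero]; exact F0_pos hP hη d hp0
      have s0 := Φs 0 p hp0 x0
      have pr : ContDiffAt ℝ 2 (fun w : (C × E) × E => (w.1.1, w.2)) ((0, p), p) := by fun_prop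
      have s1 : ContDiffAt ℝ 1 (fun z : C × E => fderiv ℝ (Φ z.1) z.2) (0, p) :=
        ContDiffAt.fderiv (f := fun (z : C × E) y => Φ z.1 y) (g := Prod.snd) (n := 2)
          (ContDiffAt.comp (g := fun z : C × E => Φ z.1 z.2) ((0, p), p) s0 pr) contDiffAt_snd
          (by norm_num)
      have s2 : ContDiffAt ℝ 0 (fun z : C × E => fderiv ℝ (fderiv ℝ (Φ z.1)) z.2) (0, p) :=
        ContDiffAt.fderiv (f := fun (z : C × E) y => fderiv ℝ (Φ z.1) y) (g := Prod.snd) (n := 1)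
          (ContDiffAt.comp (g := fun z : C × E => fderiv ℝ (Φ z.1) z.2) ((0, p), p) s1
            (pr.of_le (by norm_num))) contDiffAt_snd (by norm_num)
      have s3 : ContinuousAt (fun z : C × E => ‖fderiv ℝ (fderiv ℝ (Φ z.1)) z.2‖) (0, p) :=
        ContinuousAt.norm (E := E →L[ℝ] E →L[ℝ] ℝ) s2.continuousAt
      refine ((Xs 0 p hp0).continuousAt.eventually (lt_mem_nhds x0)).and
        ((s0.continuousAt.abs.eventually (ge_mem_nhds ?_)).and
          (s3.eventually (ge_mem_nhds ?_)))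
      · simp [Φ0, hη]
      · simp only [Φ0]
        have z0 : ‖(0 : E →L[ℝ] E →L[ℝ] ℝ)‖ = 0 := norm_zero (E := E →L[ℝ] E →L[ℝ] ℝ)
        simp [hη, z0])
  filter_upwards [key] with c hc
  have un : ∀ y : E, y ≠ 0 → ∃ p : E, p ∈ sphere (0 : E) 1 ∧ y = ‖y‖ • p := by
    intro y hy
    have hn := norm_pos_iff.2 hy
    refine ⟨‖y‖⁻¹ • y, by simp [norm_smul, hn.ne'], ?_⟩
    rw [smul_smul, mul_inv_cancel₀ hn.ne', one_smul]
  have Xh : ∀ l : ℝ, 0 < l → ∀ y, F0 P η d (l • y) - q c (l • y) =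
      l ^ (-d) * (F0 P η d y - q c y) := fun l hl y => by rw [F0_hom hP hη d hl, qh c l hl]; ring
  have X0 : F0 P η d 0 - q c 0 = 0 := by
    simp only [F0, P_zero hP, q1, norm_zero]
    rw [show (0 : ℝ) + η * 0 ^ 2 = 0 by ring, Real.zero_rpow (by linarith), sub_zero]
  have pos : ∀ y, y ≠ 0 → 0 < F0 P η d y - q c y := by
    intro y hy
    obtain ⟨p, hp, e⟩ := un y hy
    have hn := norm_pos_iff.2 hy
    rw [e, Xh _ hn]
    exact mul_pos (Real.rpow_pos_of_pos hn _) (hc p hp).1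
  have Xn : ∀ y, 0 ≤ F0 P η d y - q c y := fun y => by
    rcases eq_or_ne y 0 with rfl | hy
    · exact X0.ge
    · exact (pos y hy).le
  have Φh : ∀ l : ℝ, 0 < l → ∀ y, Φ c (l • y) = l ^ 2 * Φ c y := by
    intro l hl y
    simp only [hΦ]
    rw [Xh l hl, Real.mul_rpow (by positivity) (Xn y), ← Real.rpow_mul hl.le,
      show -d * (-2 / d) = ((2 : ℕ) : ℝ) by push_cast; field_simp, Real.rpow_natCast, hP.hom,
      norm_smul, mul_pow, Real.norm_eq_abs, sq_abs]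
    ring
  have ex : -2 / d < 0 := div_neg_of_neg_of_pos (by norm_num) hd
  have Φz : Φ c 0 = 0 := by
    simp only [hΦ]
    rw [X0, Real.zero_rpow ex.ne, P_zero hP]; simp
  have iff : ∀ y, (y = 0 ∨ 1 ≤ F0 P η d y - q c y) ↔ P y + η * ‖y‖ ^ 2 + Φ c y ≤ 1 := by
    intro y
    rcases eq_or_ne y 0 with rfl | hy
    · simp [Φz, P_zero hP]
    · simp only [hΦ, add_sub_cancel, hy, false_or, Real.rpow_le_one_iff_of_pos (pos y hy)]
      constructor
      · exact fun h => Or.inl ⟨h, ex.le⟩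
      · rintro (h | h)
        · exact h.1
        · linarith [h.2]
  have bd : ∀ y, |Φ c y| ≤ η * ‖y‖ ^ 2 := by
    intro y
    rcases eq_or_ne y 0 with rfl | hy
    · simp [Φz]
    · obtain ⟨p, hp, e⟩ := un y hy
      have hn := norm_pos_iff.2 hy
      conv_lhs => rw [e, Φh _ hn, abs_mul, abs_of_pos (by positivity)]
      rw [mul_comm]
      exact mul_le_mul_of_nonneg_right (hc p hp).2.1 (by positivity)
  refine ⟨pos, ?_, fun y hy => (iff y).2 ?_, fun y hy => ?_⟩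
  · simp only [iff]
    exact conv hP Φh Φz (fun y hy => (Φs c y hy (pos y hy)).comp y
      (f := fun y : E => (c, y)) (by fun_prop)) fun p hp => (hc p (by simpa using hp)).2.2
  · linarith [(abs_le.1 (bd y)).2]
  · linarith [(abs_le.1 (bd y)).1, (iff y).1 hy]

lemma sandwich {K L : Set E} (hK : IsCompact K) (cK : Convex ℝ K) (nK : K.Nonempty)
    (hL : IsCompact L) (cL : Convex ℝ L) {r κ : ℝ} (hr : 0 < r) (hb : closedBall 0 r ⊆ L)
    (k0 : 0 < κ) (k1 : κ < 1) (h : hausdorffDist K L < κ * r) :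
    K ⊆ (1 + κ) • L ∧ (1 - κ) • L ⊆ K := by
  have nL : L.Nonempty := ⟨0, hb (by simp [hr.le])⟩
  have fin := hausdorffEDist_ne_top_of_nonempty_of_bounded nK nL hK.isBounded hL.isBounded
  have sc : ∀ w : E, ‖w‖ < κ * r → κ⁻¹ • w ∈ L := fun w hw => hb (by
    rw [mem_closedBall_zero_iff, norm_smul, norm_inv, Real.norm_eq_abs, abs_of_pos k0,
      inv_mul_le_iff₀ k0]; exact hw.le)
  constructor
  · intro x hx
    obtain ⟨y, hy, hd⟩ := exists_dist_lt_of_hausdorffDist_lt hx h fin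
    rw [cL.add_smul zero_le_one k0.le]
    refine ⟨y, by simpa using hy, κ • κ⁻¹ • (x - y),
      smul_mem_smul_set (sc _ (by rwa [← dist_eq_norm])), ?_⟩
    simp [smul_smul, k0.ne']
  · rintro _ ⟨y, hy, rfl⟩
    by_contra hn
    obtain ⟨f, u, h1, h2⟩ := geometric_hahn_banach_closed_point cK hK.isClosed hn
    obtain ⟨w, hw, hm⟩ := hL.exists_isMaxOn nL f.continuous.continuousOn
    obtain ⟨x, hx, hd⟩ := exists_dist_lt_of_hausdorffDist_lt' hw h fin
    have a1 := h1 x hx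
    have a2 : f (κ⁻¹ • (w - x)) ≤ f w := hm (sc _ (by rwa [← dist_eq_norm, dist_comm]))
    have a3 : f y ≤ f w := hm hy
    simp only [map_smul, map_sub, smul_eq_mul] at a2 h2
    rw [inv_mul_le_iff₀ k0] at a2
    nlinarith

end Pool.Agent.H80.Pz
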