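import Pool.Agent.H80.Ib1

set_option autoImplicit false

namespace Pool.Agent.H80.Pz

open MeasureTheory Set Filter Topology Metric Pointwise Module
open scoped RealInnerProductSpace ENNReal
open Pool.Agent.H80.Ib

noncomputable def chi (a : ℝ) : ℝ := expNegInvGlue (a - 1) * expNegInvGlue (4 - a)

lemma chi_sm (k : ℕ) : ContDiff ℝ k chi :=
  (expNegInvGlue.contDiff.comp (by fun_prop)).mul (expNegInvGlue.contDiff.comp (by fun_prop))

lemma chi_nn (a : ℝ) : 0 ≤ chi a := mul_nonneg (expNegInvGlue.nonneg _) (expNegInvGlue.nonneg _)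

lemma chi_lo {a : ℝ} (h : a ≤ 1) : chi a = 0 := by
  rw [chi, expNegInvGlue.zero_of_nonpos (by linarith), zero_mul]

lemma chi_hi {a : ℝ} (h : 4 ≤ a) : chi a = 0 := by
  rw [chi, expNegInvGlue.zero_of_nonpos (x := 4 - a) (by linarith), mul_zero]

lemma chi_pos {a : ℝ} (h : 1 < a) (h' : a < 4) : 0 < chi a :=
  mul_pos (expNegInvGlue.pos_of_pos (by linarith)) (expNegInvGlue.pos_of_pos (by linarith))

noncomputable def om (e a : ℝ) : ℝ := a ^ e * chi a

lemma om_cont (e : ℝ) : Continuous (om e) := by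
  rw [continuous_iff_continuousAt]
  intro a
  rcases lt_or_ge a 1 with h | h
  · refine (continuousAt_const (y := (0 : ℝ))).congr ?_
    filter_upwards [gt_mem_nhds h] with b hb
    rw [om, chi_lo hb.le, mul_zero]
  · exact (Real.continuousAt_rpow_const _ _ (Or.inl (by linarith))).mul
      (chi_sm 0).continuous.continuousAt

lemma om_lo (e : ℝ) {a : ℝ} (h : a ≤ 1) : om e a = 0 := by rw [om, chi_lo h, mul_zero]
lemma om_hi (e : ℝ) {a : ℝ} (h : 4 ≤ a) : om e a = 0 := by rw [om, chi_hi h, mul_zero]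
lemma om_pos (e : ℝ) {a : ℝ} (h : 1 < a) (h' : a < 4) : 0 < om e a :=
  mul_pos (Real.rpow_pos_of_pos (by linarith) _) (chi_pos h h')
lemma om_nn (e a : ℝ) : 0 ≤ om e a := by
  rcases le_or_gt a 1 with h | h
  · exact (om_lo e h).ge
  · exact mul_nonneg (Real.rpow_nonneg (by linarith) _) (chi_nn a)

lemma om_bd (e : ℝ) : ∃ M, 0 ≤ M ∧ ∀ a, om e a ≤ M := by
  obtain ⟨M, hM⟩ := (isCompact_Icc (a := (1:ℝ)) (b := 4)).exists_bound_of_continuousOn
    (om_cont e).continuousOn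
  refine ⟨|M|, abs_nonneg _, fun a => ?_⟩
  rcases le_or_gt a 1 with h | h
  · rw [om_lo e h]; exact abs_nonneg _
  rcases le_or_gt 4 a with h' | h'
  · rw [om_hi e h']; exact abs_nonneg _
  exact (le_abs_self _).trans ((hM a ⟨h.le, h'.le⟩).trans (le_abs_self _))

lemma volF (V : Type) [NormedAddCommGroup V] [InnerProductSpace ℝ V] [FiniteDimensional ℝ V]
    [MeasurableSpace V] [BorelSpace V] [Nontrivial V] : ∃ c : ℝ, 0 < c ∧ ∀ X : V → ℝ,
    (∀ l : ℝ, 0 < l → ∀ z, X (l • z) = l ^ (-(finrank ℝ V : ℝ)) * X z) →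
    (∀ z, z ≠ 0 → 0 < X z) → IsCompact {z | z = 0 ∨ 1 ≤ X z} →
    Integrable (fun z => X z * chi (‖z‖ ^ 2)) →
    (volume {z | z = 0 ∨ 1 ≤ X z}).toReal = c * ∫ z, X z * chi (‖z‖ ^ 2) := by
  obtain ⟨D, hD⟩ : ∃ D, finrank ℝ V = D + 1 :=
    Nat.exists_eq_succ_of_ne_zero (finrank_pos (R := ℝ) (M := V)).ne'
  set e : ℝ := (-(finrank ℝ V : ℝ)) / 2 with he
  set k : ℝ → ℝ := fun r => r ^ D * om e (r ^ 2) with hk
  have kc : Continuous k := (continuous_pow D).mul ((om_cont e).comp (continuous_pow 2))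
  have ki : IntegrableOn k (Ioi 0) := by
    refine (kc.integrable_of_hasCompactSupport
      (HasCompactSupport.intro (isCompact_Icc (a := -2) (b := 2)) fun r hr => ?_)).integrableOn
    have : 4 ≤ r ^ 2 := by
      simp only [mem_Icc, not_and_or, not_le] at hr
      rcases hr with h | h <;> nlinarith
    simp [hk, om_hi e this]
  have kp : 0 < ∫ r in Ioi 0, k r := by
    rw [setIntegral_pos_iff_support_of_nonneg_ae _ ki]
    · refine lt_of_lt_of_le (isOpen_Ioo.measure_pos volume (nonempty_Ioo.2 one_lt_two))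
        (measure_mono fun r hr => ⟨?_, lt_trans zero_lt_one hr.1⟩)
      have h1 : 1 < r := hr.1
      have h2 : r < 2 := hr.2
      exact (mul_pos (by positivity) (om_pos e (by nlinarith) (by nlinarith))).ne'
    · filter_upwards [self_mem_ae_restrict measurableSet_Ioi] with r hr
      exact mul_nonneg (pow_nonneg (le_of_lt hr) _) (om_nn _ _)
  refine ⟨((D + 1 : ℝ) * ∫ r in Ioi 0, k r)⁻¹, by positivity, fun X hh hp hc hi => ?_⟩
  have i1 : Integrable ({z | z = 0 ∨ 1 ≤ X z}.indicator fun _ => (1 : ℝ)) :=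
    (integrable_indicator_iff hc.isClosed.measurableSet).2
      (integrableOn_const hc.measure_lt_top.ne)
  have e1 := polar_int i1
  have e2 := polar_int hi
  rw [integral_indicator hc.isClosed.measurableSet, setIntegral_const, smul_eq_mul, mul_one] at e1
  rw [← Measure.real, e1, e2]
  unfold sphInt
  rw [← integral_const_mul]
  refine integral_congr_ae (Eventually.of_forall fun u => ?_)
  have hu : ‖(u : V)‖ = 1 := by simp
  have hu0 : (u : V) ≠ 0 := by rintro h; simp [h] at hu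
  have x0 := hp _ hu0
  have D0 : (0 : ℝ) < (D + 1 : ℕ) := by positivity
  simp only [hD, Nat.add_sub_cancel]
  set ρ := X u ^ ((D + 1 : ℕ) : ℝ)⁻¹ with hρ
  have ρ0 : 0 < ρ := Real.rpow_pos_of_pos x0 _
  have a1 : ∫ r in Ioi (0 : ℝ), r ^ D * {z : V | z = 0 ∨ 1 ≤ X z}.indicator (fun _ => (1 : ℝ))
      (r • (u : V)) = X u / (D + 1) := by
    rw [setIntegral_congr_fun measurableSet_Ioi (g := (Iic ρ).indicator fun r => r ^ D),
      setIntegral_indicator measurableSet_Iic, Ioi_inter_Iic,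
      ← intervalIntegral.integral_of_le ρ0.le, integral_pow, hρ, ← Real.rpow_natCast,
      ← Real.rpow_mul x0.le, inv_mul_cancel₀ D0.ne', Real.rpow_one]
    · simp
    · intro r hr
      have r0 : 0 < r := hr
      have : (r • (u : V) = 0 ∨ 1 ≤ X (r • (u : V))) ↔ r ≤ ρ := by
        rw [hh r r0, hD, hρ, Real.le_rpow_inv_iff_of_pos r0.le x0.le D0, Real.rpow_neg r0.le,
          le_inv_mul_iff₀ (Real.rpow_pos_of_pos r0 _), mul_one]
        simp [r0.ne', hu0]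
      simp only [indicator, mem_setOf_eq, this, mem_Iic]
      split_ifs <;> simp
  have a2 : ∫ r in Ioi (0 : ℝ), r ^ D * (X (r • (u : V)) * chi (‖r • (u : V)‖ ^ 2)) =
      X u * ∫ r in Ioi 0, k r := by
    rw [← integral_const_mul]
    refine setIntegral_congr_fun measurableSet_Ioi fun r hr => ?_
    have r0 : 0 < r := hr
    simp only [hk, om]
    rw [hh r r0, norm_smul, hu, mul_one, Real.norm_eq_abs, sq_abs, ← Real.rpow_natCast r 2,
      ← Real.rpow_mul r0.le, show ((2 : ℕ) : ℝ) * e = -(finrank ℝ V : ℝ) by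
        rw [he]; push_cast; ring]
    ring
  rw [a1, a2]
  field_simp

variable {W : Type} [NormedAddCommGroup W] [InnerProductSpace ℝ W] [FiniteDimensional ℝ W]
  [MeasurableSpace W] [BorelSpace W]

lemma scale (f : ℝ × W → ℝ) {l : ℝ} (hl : l ≠ 0) :
    ∫ p : ℝ × W, f p = |l| * ∫ p : ℝ × W, f (l * p.1, p.2) := by
  have me : MeasurableEmbedding (Prod.map (fun a : ℝ => l * a) (id : W → W)) :=
    ((Homeomorph.mulLeft₀ l hl).prodCongr (Homeomorph.refl W)).measurableEmbedding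
  have h := me.integral_map (μ := (volume : Measure ℝ).prod (volume : Measure W)) f
  rw [← Measure.map_prod_map _ _ (by fun_prop) measurable_id, Real.map_volume_mul_left hl,
    Measure.map_id, Measure.prod_smul_left, integral_smul_measure,
    ENNReal.toReal_ofReal (abs_nonneg _), smul_eq_mul, abs_inv] at h
  have h0 : |l| ≠ 0 := abs_ne_zero.2 hl
  change _ = |l| * ∫ p : ℝ × W, f (Prod.map (fun a : ℝ => l * a) id p) ∂(volume.prod volume)
  rw [← h, mul_inv_cancel_left₀ h0]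
  rfl

lemma cs_om (e : ℝ) (k : ℝ × W → ℝ) :
    HasCompactSupport fun p : ℝ × W => k p * om e (p.1 ^ 2 + ‖p.2‖ ^ 2) := by
  refine HasCompactSupport.intro (isCompact_closedBall 0 2) fun p hp => ?_
  rw [mem_closedBall_zero_iff, not_le, Prod.norm_def, lt_max_iff, Real.norm_eq_abs] at hp
  rw [om_hi, mul_zero]
  rcases hp with h | h
  · nlinarith [sq_abs p.1, sq_nonneg ‖p.2‖]
  · nlinarith [sq_nonneg p.1]

lemma intw (e : ℝ) {k : ℝ × W → ℝ} (hm : Measurable k) {M : ℝ}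
    (hk : ∀ p, |k p| ≤ M * (p.1 ^ 2 + ‖p.2‖ ^ 2)) :
    Integrable fun p : ℝ × W => k p * om e (p.1 ^ 2 + ‖p.2‖ ^ 2) := by
  have c := om_cont e
  refine Integrable.mono' (Continuous.integrable_of_hasCompactSupport (by fun_prop)
    (cs_om e fun p => M * (p.1 ^ 2 + ‖p.2‖ ^ 2)))
    (hm.mul (by fun_prop)).aestronglyMeasurable (Eventually.of_forall fun p => ?_)
  rw [norm_mul, Real.norm_eq_abs, Real.norm_eq_abs, abs_of_nonneg (om_nn _ _)]
  exact mul_le_mul_of_nonneg_right (hk p) (om_nn _ _)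

noncomputable def S1 (e : ℝ) (j : W →L[ℝ] ℝ) (l : ℝ) : ℝ :=
  ∫ p : ℝ × W, j p.2 ^ 4 / (p.1 ^ 2 + j p.2 ^ 2) * om e ((l * p.1) ^ 2 + ‖p.2‖ ^ 2)

lemma S_eq (e : ℝ) (j : W →L[ℝ] ℝ) (l : ℝ) :
    ∫ p : ℝ × W, (l * j p.2) ^ 4 / (p.1 ^ 2 + (l * j p.2) ^ 2) * om e (p.1 ^ 2 + ‖p.2‖ ^ 2) =
      |l| ^ 3 * S1 e j l := by
  rcases eq_or_ne l 0 with rfl | hl
  · simp
  · rw [scale _ hl, S1, pow_succ' |l| 2, mul_assoc, sq_abs, ← integral_const_mul (l ^ 2)]
    congr 2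
    ext p
    rw [← mul_assoc]
    congr 1
    rw [show (l * p.1) ^ 2 + (l * j p.2) ^ 2 = l ^ 2 * (p.1 ^ 2 + j p.2 ^ 2) by ring]
    rcases eq_or_ne (p.1 ^ 2 + j p.2 ^ 2) 0 with h | h
    · simp [h]
    · field_simp

lemma S1_dom (e : ℝ) {j : W →L[ℝ] ℝ} (hj : ∀ w, |j w| ≤ ‖w‖) : ∃ b : ℝ × W → ℝ, Integrable b ∧
    ∀ l p, ‖j p.2 ^ 4 / (p.1 ^ 2 + j p.2 ^ 2) * om e ((l * p.1) ^ 2 + ‖p.2‖ ^ 2)‖ ≤ b p := by
  obtain ⟨M, M0, hM⟩ := om_bd e
  refine ⟨fun p => (1 + p.1 ^ 2)⁻¹ * (closedBall (0 : W) 2).indicator (fun _ => 16 * M) p.2,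
    integrable_inv_one_add_sq.mul_prod ((integrable_indicator_iff measurableSet_closedBall).2
      (integrableOn_const measure_closedBall_lt_top.ne)), fun l p => ?_⟩
  simp only [indicator, mem_closedBall_zero_iff]
  split_ifs with h
  · rw [Real.norm_eq_abs, abs_of_nonneg (mul_nonneg (by positivity) (om_nn _ _))]
    have h1 : j p.2 ^ 2 ≤ 4 := by nlinarith [sq_abs (j p.2), hj p.2, abs_nonneg (j p.2)]
    have h2 : j p.2 ^ 4 / (p.1 ^ 2 + j p.2 ^ 2) ≤ (1 + p.1 ^ 2)⁻¹ * 16 := by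
      refine div_le_of_le_mul₀ (by positivity) (by positivity) ?_
      rw [mul_assoc, le_inv_mul_iff₀ (by positivity)]
      have := sq_nonneg (j p.2)
      have := sq_nonneg p.1
      have h3 : j p.2 ^ 4 ≤ 4 * j p.2 ^ 2 := by nlinarith
      have h4 : j p.2 ^ 4 ≤ 16 := by nlinarith
      nlinarith
    rw [← mul_assoc]
    exact mul_le_mul h2 (hM _) (om_nn _ _) (by positivity)
  · rw [om_hi]
    · simp
    · nlinarith [sq_nonneg (l * p.1), not_le.1 h]

lemma S1_meas (e : ℝ) (j : W →L[ℝ] ℝ) (l : ℝ) : Measurable fun p : ℝ × W =>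
    j p.2 ^ 4 / (p.1 ^ 2 + j p.2 ^ 2) * om e ((l * p.1) ^ 2 + ‖p.2‖ ^ 2) := by
  have c := (om_cont e).measurable
  have := j.continuous.measurable
  fun_prop

lemma S1_cont (e : ℝ) {j : W →L[ℝ] ℝ} (hj : ∀ w, |j w| ≤ ‖w‖) : Continuous (S1 e j) := by
  obtain ⟨b, hb, h⟩ := S1_dom e hj
  have c := om_cont e
  exact continuous_of_dominated (fun l => (S1_meas e j l).aestronglyMeasurable)
    (fun l => Eventually.of_forall (h l)) hb (Eventually.of_forall fun p => by fun_prop)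

lemma S1_pos (e : ℝ) {j : W →L[ℝ] ℝ} (hj : ∀ w, |j w| ≤ ‖w‖) {w : W} (hw : ‖w‖ = 1)
    (hw' : j w ≠ 0) : 0 < S1 e j 0 := by
  obtain ⟨b, hb, h⟩ := S1_dom e hj
  rw [S1, integral_pos_iff_support_of_nonneg
    (fun p => mul_nonneg (by positivity) (om_nn _ _))
    (hb.mono' (S1_meas e j 0).aestronglyMeasurable (Eventually.of_forall (h 0)))]
  have o : IsOpen {p : ℝ × W | j p.2 ≠ 0 ∧ 1 < ‖p.2‖ ^ 2 ∧ ‖p.2‖ ^ 2 < 4} :=
    (isOpen_ne_fun (by fun_prop) continuous_const).inter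
      ((isOpen_lt (g := fun p : ℝ × W => ‖p.2‖ ^ 2) continuous_const (by fun_prop)).inter
        (isOpen_lt (f := fun p : ℝ × W => ‖p.2‖ ^ 2) (by fun_prop) continuous_const))
  refine lt_of_lt_of_le (o.measure_pos volume ⟨(0, (3 / 2 : ℝ) • w), ?_⟩)
    (measure_mono fun p hp => ?_)
  · simp only [mem_setOf_eq, map_smul, norm_smul, hw, smul_eq_mul]
    norm_num [hw']
  · have := hp.1
    exact (mul_pos (by positivity) (om_pos e (by simpa using hp.2.1) (by simpa using hp.2.2))).ne'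

lemma G0_pos (e : ℝ) : 0 < ∫ p : ℝ × W, p.1 ^ 2 * om e (p.1 ^ 2 + ‖p.2‖ ^ 2) := by
  have c := om_cont e
  refine Continuous.integral_pos_of_hasCompactSupport_nonneg_nonzero (x := (3 / 2, 0))
    (by fun_prop) (cs_om e _) (fun p => mul_nonneg (sq_nonneg _) (om_nn _ _)) ?_
  exact (mul_pos (by norm_num) (om_pos e (by norm_num) (by norm_num))).ne'

lemma G_eq (e : ℝ) {j : W →L[ℝ] ℝ} (hj : ∀ w, |j w| ≤ ‖w‖) : ∃ g0 g1 : ℝ, 0 < g0 ∧
    ∀ l c s : ℝ, |l| ≤ 1 → ∫ p : ℝ × W, (c * (p.1 ^ 2 - 7 * (l * j p.2) ^ 2 +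
      8 * ((l * j p.2) ^ 4 / (p.1 ^ 2 + (l * j p.2) ^ 2))) +
      s * (p.1 * (l * j p.2) * ((l * j p.2) ^ 2 - p.1 ^ 2) / (p.1 ^ 2 + (l * j p.2) ^ 2))) *
      om e (p.1 ^ 2 + ‖p.2‖ ^ 2) = c * (g0 - 7 * l ^ 2 * g1 + 8 * (|l| ^ 3 * S1 e j l)) := by
  refine ⟨_, ∫ p : ℝ × W, j p.2 ^ 2 * om e (p.1 ^ 2 + ‖p.2‖ ^ 2), G0_pos (W := W) e,
    fun l c s hl => ?_⟩
  have mj := j.continuous.measurable
  have j2 : ∀ w, j w ^ 2 ≤ ‖w‖ ^ 2 := fun w => by
    nlinarith [sq_abs (j w), hj w, abs_nonneg (j w)]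
  have j3 : ∀ w, (l * j w) ^ 2 ≤ ‖w‖ ^ 2 := fun w => by
    have : l ^ 2 ≤ 1 := by nlinarith [sq_abs l, abs_nonneg l]
    nlinarith [j2 w, sq_nonneg (j w)]
  have i1 := intw (W := W) e (k := fun p => p.1 ^ 2) (by fun_prop) (M := 1) fun p => by
    rw [abs_of_nonneg (sq_nonneg _)]; nlinarith [sq_nonneg ‖p.2‖]
  have i2 := intw (W := W) e (k := fun p => j p.2 ^ 2) (by fun_prop) (M := 1) fun p => by
    rw [abs_of_nonneg (sq_nonneg _)]; nlinarith [sq_nonneg p.1, j2 p.2]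
  have i3 := intw (W := W) e (k := fun p => (l * j p.2) ^ 4 / (p.1 ^ 2 + (l * j p.2) ^ 2))
    (by fun_prop) (M := 1) fun p => by
    rw [abs_of_nonneg (by positivity)]
    refine div_le_of_le_mul₀ (by positivity) (by positivity) ?_
    have := j3 p.2
    generalize l * j p.2 = b at *
    nlinarith [sq_nonneg p.1, sq_nonneg b, mul_nonneg (sq_nonneg p.1) (sq_nonneg p.1),
      mul_nonneg (sq_nonneg p.1) (sq_nonneg b), mul_nonneg (sq_nonneg p.1) (sq_nonneg ‖p.2‖)]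
  have i4 := intw (W := W) e (k := fun p =>
    p.1 * (l * j p.2) * ((l * j p.2) ^ 2 - p.1 ^ 2) / (p.1 ^ 2 + (l * j p.2) ^ 2))
    (by fun_prop) (M := 1) fun p => by
    rw [abs_div, abs_of_nonneg (a := p.1 ^ 2 + _) (by positivity)]
    refine div_le_of_le_mul₀ (by positivity) (by positivity) ?_
    have := j3 p.2
    generalize l * j p.2 = b at *
    rw [abs_mul, one_mul]
    refine mul_le_mul ?_ ?_ (abs_nonneg _) (by positivity) <;> rw [abs_le] <;> constructor <;>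
      nlinarith [sq_nonneg (p.1 + b), sq_nonneg (p.1 - b), sq_nonneg p.1, sq_nonneg b]
  have z4 : ∫ p : ℝ × W, p.1 * (l * j p.2) * ((l * j p.2) ^ 2 - p.1 ^ 2) /
      (p.1 ^ 2 + (l * j p.2) ^ 2) * om e (p.1 ^ 2 + ‖p.2‖ ^ 2) = 0 := by
    have := scale (W := W) (fun p => p.1 * (l * j p.2) * ((l * j p.2) ^ 2 - p.1 ^ 2) /
      (p.1 ^ 2 + (l * j p.2) ^ 2) * om e (p.1 ^ 2 + ‖p.2‖ ^ 2)) (l := -1) (by norm_num)
    simp only [abs_neg, abs_one, one_mul, neg_mul, neg_sq, neg_div, integral_neg] at this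
    linarith
  have h1 := integral_add (((i1.sub (i2.const_mul (7 * l ^ 2))).add (i3.const_mul 8)).const_mul c)
    (i4.const_mul s)
  have h2 := integral_add (i1.sub (i2.const_mul (7 * l ^ 2))) (i3.const_mul 8)
  have h3 := integral_sub i1 (i2.const_mul (7 * l ^ 2))
  simp only [Pi.add_apply, Pi.sub_apply, integral_const_mul] at h1 h2 h3
  rw [h2, h3, z4, S_eq, mul_zero, add_zero] at h1
  rw [← h1]
  congr 1
  ext p
  ring

end Pool.Agent.H80.Pz
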