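import Pool.Agent.H80.Pz3
import Pool.Agent.H80.Pz4

set_option autoImplicit false

namespace Pool.Agent.H80.Pz

open MeasureTheory Set Filter Topology Metric Pointwise Module
open scoped RealInnerProductSpace ENNReal
open Pool.Agent.H80.Ib Real

abbrev En (k : ℕ) := EuclideanSpace ℝ (Fin k)

noncomputable def kap (t : ℝ) : ℝ := (√(1 + t ^ 2))⁻¹
noncomputable def lam (t : ℝ) : ℝ := t * kap t

lemma kap_pos (t : ℝ) : 0 < kap t := by unfold kap; positivity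

lemma kap_sq (t : ℝ) : kap t ^ 2 = (1 + t ^ 2)⁻¹ := by
  rw [kap, inv_pow, sq_sqrt (by positivity)]

lemma kl (t : ℝ) : kap t ^ 2 + lam t ^ 2 = 1 := by
  rw [lam, mul_pow, kap_sq]; field_simp

lemma kap_sm (k : ℕ) : ContDiff ℝ k kap :=
  (ContDiff.sqrt (by fun_prop) fun t => by positivity).inv fun t => by positivity

lemma lam_sm (k : ℕ) : ContDiff ℝ k lam := contDiff_id.mul (kap_sm k)

lemma lam_abs (t : ℝ) : |lam t| ≤ 1 := by
  have := kl t
  nlinarith [sq_abs (lam t), abs_nonneg (lam t), sq_nonneg (kap t)]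

variable {m : ℕ}

noncomputable def io (θ t : ℝ) (z : En (m + 2)) : En (m + 3) :=
  WithLp.toLp 2 (Fin.cons (-sin θ * z 0 - lam t * cos θ * z 1)
    (Fin.cons (cos θ * z 0 - lam t * sin θ * z 1)
      (Fin.cons (kap t * z 1) fun i : Fin m => z i.succ.succ)))

noncomputable def un (m : ℕ) (θ t : ℝ) : En (m + 3) :=
  WithLp.toLp 2 (Fin.cons (kap t * cos θ) (Fin.cons (kap t * sin θ) (Fin.cons (lam t) 0)))

lemma cases3 {p : Fin (m + 3) → Prop} (h0 : p 0) (h1 : p 1) (h2 : p 2)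
    (h : ∀ i : Fin m, p i.succ.succ.succ) (i : Fin (m + 3)) : p i :=
  Fin.cases h0 (fun i => Fin.cases h1 (fun i => Fin.cases h2 h i) i) i

lemma io0 (θ t : ℝ) (z : En (m + 2)) : io θ t z 0 = -sin θ * z 0 - lam t * cos θ * z 1 := rfl
lemma io1 (θ t : ℝ) (z : En (m + 2)) : io θ t z 1 = cos θ * z 0 - lam t * sin θ * z 1 := rfl
lemma io2 (θ t : ℝ) (z : En (m + 2)) : io θ t z 2 = kap t * z 1 := rfl
lemma io3 (θ t : ℝ) (z : En (m + 2)) (i : Fin m) : io θ t z i.succ.succ.succ = z i.succ.succ := rfl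

lemma sum3 (f : Fin (m + 3) → ℝ) : ∑ i, f i = f 0 + f 1 + f 2 + ∑ i : Fin m, f i.succ.succ.succ := by
  rw [Fin.sum_univ_succ, Fin.sum_univ_succ, Fin.sum_univ_succ, ← add_assoc, ← add_assoc]; rfl

lemma sum2 (f : Fin (m + 2) → ℝ) : ∑ i, f i = f 0 + f 1 + ∑ i : Fin m, f i.succ.succ := by
  rw [Fin.sum_univ_succ, Fin.sum_univ_succ, ← add_assoc]; rfl

lemma io_norm (θ t : ℝ) (z : En (m + 2)) : ‖io θ t z‖ = ‖z‖ := by
  rw [← sq_eq_sq₀ (norm_nonneg _) (norm_nonneg _), EuclideanSpace.real_norm_sq_eq,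
    EuclideanSpace.real_norm_sq_eq, sum3, sum2]
  simp only [io0, io1, io2, io3]
  have := kl t
  have := sin_sq_add_cos_sq θ
  linear_combination (z 0 ^ 2 + lam t ^ 2 * z 1 ^ 2) * (sin_sq_add_cos_sq θ) + z 1 ^ 2 * kl t

lemma io_lin (θ t a b : ℝ) (z w : En (m + 2)) :
    io θ t (a • z + b • w) = a • io θ t z + b • io θ t w := by
  ext i
  refine cases3 (p := fun i => io θ t (a • z + b • w) i = (a • io θ t z + b • io θ t w) i)
    ?_ ?_ ?_ (fun i => ?_) i <;>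
  simp only [io0, io1, io2, io3, PiLp.add_apply, PiLp.smul_apply, smul_eq_mul] <;> ring

lemma io_smul (θ t a : ℝ) (z : En (m + 2)) : io θ t (a • z) = a • io θ t z := by
  simpa using io_lin θ t a 0 z z

lemma io_iso (θ t : ℝ) : Isometry (io (m := m) θ t) := by
  refine Isometry.of_dist_eq fun z w => ?_
  have := io_lin θ t 1 (-1) z w
  simp only [one_smul, neg_smul, ← sub_eq_add_neg] at this
  rw [dist_eq_norm, dist_eq_norm, ← this, io_norm]

lemma io_eq_zero (θ t : ℝ) (z : En (m + 2)) : io θ t z = 0 ↔ z = 0 := by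
  rw [← norm_eq_zero, io_norm, norm_eq_zero]

lemma un_inner (θ t : ℝ) (y : En (m + 3)) :
    ⟪un m θ t, y⟫ = kap t * (cos θ * y 0 + sin θ * y 1 + t * y 2) := by
  rw [PiLp.inner_apply, sum3]
  have h0 : un m θ t 0 = kap t * cos θ := rfl
  have h1 : un m θ t 1 = kap t * sin θ := rfl
  have h2 : un m θ t 2 = lam t := rfl
  have h3 : ∀ i : Fin m, un m θ t i.succ.succ.succ = 0 := fun i => rfl
  simp only [h0, h1, h2, h3, lam, Finset.sum_const_zero, RCLike.inner_apply,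
    conj_trivial, mul_zero]
  ring

lemma un_norm (θ t : ℝ) : ‖un m θ t‖ = 1 := by
  rw [← sq_eq_sq₀ (norm_nonneg _) zero_le_one, ← real_inner_self_eq_norm_sq, un_inner]
  have h0 : un m θ t 0 = kap t * cos θ := rfl
  have h1 : un m θ t 1 = kap t * sin θ := rfl
  have h2 : un m θ t 2 = lam t := rfl
  have h3 := kl t
  rw [h0, h1, h2]
  simp only [lam] at h3 ⊢
  linear_combination kap t ^ 2 * (sin_sq_add_cos_sq θ) + h3

lemma io_range (θ t : ℝ) (K : Set (En (m + 3))) :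
    K ∩ {x | ⟪un m θ t, x⟫ = 0} = io θ t '' (io θ t ⁻¹' K) := by
  rw [image_preimage_eq_inter_range]
  congr 1
  ext y
  simp only [mem_setOf_eq, un_inner, mem_range]
  have k := kl t
  have sc := sin_sq_add_cos_sq θ
  constructor
  · intro h
    have h' : cos θ * y 0 + sin θ * y 1 + t * y 2 = 0 :=
      (mul_eq_zero.1 h).resolve_left (kap_pos t).ne'
    refine ⟨WithLp.toLp 2 (Fin.cons (-sin θ * y 0 + cos θ * y 1)
      (Fin.cons (kap t * y 2 - lam t * (cos θ * y 0 + sin θ * y 1))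
        fun i : Fin m => y i.succ.succ.succ)), ?_⟩
    ext i
    refine cases3 (p := fun i => io θ t _ i = y i) ?_ ?_ ?_ (fun i => rfl) i
    · change -sin θ * (-sin θ * y 0 + cos θ * y 1) - lam t * cos θ *
        (kap t * y 2 - lam t * (cos θ * y 0 + sin θ * y 1)) = y 0
      simp only [lam] at k ⊢
      linear_combination y 0 * sc + cos θ * (cos θ * y 0 + sin θ * y 1) * k -
        cos θ * kap t ^ 2 * h'
    · change cos θ * (-sin θ * y 0 + cos θ * y 1) - lam t * sin θ *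
        (kap t * y 2 - lam t * (cos θ * y 0 + sin θ * y 1)) = y 1
      simp only [lam] at k ⊢
      linear_combination y 1 * sc + sin θ * (cos θ * y 0 + sin θ * y 1) * k -
        sin θ * kap t ^ 2 * h'
    · change kap t * (kap t * y 2 - lam t * (cos θ * y 0 + sin θ * y 1)) = y 2
      simp only [lam] at k ⊢
      linear_combination y 2 * k - t * kap t ^ 2 * h'
  · rintro ⟨z, rfl⟩
    simp only [io0, io1, io2, lam]
    linear_combination (-kap t ^ 2 * t * z 1) * sc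

lemma haus (m : ℕ) : ∃ c : ℝ, 0 < c ∧ ∀ (θ t : ℝ) (K : Set (En (m + 3))),
    (Measure.hausdorffMeasure (((m + 3 : ℕ) : ℝ) - 1) (K ∩ {x | ⟪un m θ t, x⟫ = 0})).toReal =
      c * (volume (io θ t ⁻¹' K)).toReal := by
  have e : ((m + 3 : ℕ) : ℝ) - 1 = (finrank ℝ (En (m + 2)) : ℕ) := by
    rw [finrank_euclideanSpace_fin]; push_cast; ring
  have hs := Measure.isAddLeftInvariant_eq_smul
    (Measure.hausdorffMeasure (finrank ℝ (En (m + 2)) : ℕ) : Measure (En (m + 2))) volume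
  have hp := Measure.addHaarScalarFactor_pos_of_isAddHaarMeasure
    (Measure.hausdorffMeasure (finrank ℝ (En (m + 2)) : ℕ) : Measure (En (m + 2))) volume
  refine ⟨_, NNReal.coe_pos.2 hp, fun θ t K => ?_⟩
  rw [io_range, e, (io_iso θ t).hausdorffMeasure_image (Or.inl (by positivity))]
  conv_lhs => rw [hs]
  simp

lemma io_sm (k : ℕ) : ContDiff ℝ k fun q : (ℝ × ℝ) × En (m + 2) => io q.1.1 q.1.2 q.2 := by
  rw [contDiff_euclidean]
  have h1 := kap_sm k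
  have h2 := lam_sm k
  refine cases3 ?_ ?_ ?_ fun i => ?_ <;> simp only [io0, io1, io2, io3] <;> fun_prop

noncomputable def ph (y : En (m + 3)) : ℝ :=
  (2 * (y 0 ^ 2 - y 1 ^ 2) ^ 2 - (y 0 ^ 2 + y 1 ^ 2) ^ 2) / (y 0 ^ 2 + y 1 ^ 2)

noncomputable def ex (m : ℕ) : ℝ := -((m + 2 : ℕ) + 2 : ℝ) / 2

noncomputable def Xe (P : En (m + 3) → ℝ) (η e : ℝ) (y : En (m + 3)) : ℝ :=
  F0 P η (m + 2 : ℕ) y - e * (ph y * (‖y‖ ^ 2) ^ ex m)

lemma wt_hom {l : ℝ} (hl : 0 < l) (y : En (m + 3)) :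
    l ^ 2 * (‖l • y‖ ^ 2) ^ ex m = l ^ (-((m + 2 : ℕ) : ℝ)) * (‖y‖ ^ 2) ^ ex m := by
  rw [norm_smul, mul_pow, Real.norm_eq_abs, sq_abs, mul_rpow (by positivity) (by positivity),
    ← mul_assoc, ← rpow_natCast l 2, ← rpow_mul hl.le, ← rpow_add hl]
  congr 2
  rw [ex]; push_cast; ring

lemma ph_hom (l : ℝ) (y : En (m + 3)) : ph (l • y) = l ^ 2 * ph y := by
  simp only [ph, PiLp.smul_apply, smul_eq_mul]
  rcases eq_or_ne l 0 with rfl | hl
  · simp
  rw [show (l * y 0) ^ 2 + (l * y 1) ^ 2 = l ^ 2 * (y 0 ^ 2 + y 1 ^ 2) by ring]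
  rcases eq_or_ne (y 0 ^ 2 + y 1 ^ 2) 0 with h | h
  · simp [h]
  · field_simp

lemma Xe_hom {P : En (m + 3) → ℝ} (hP : Nice P) {η : ℝ} (hη : 0 < η) (e : ℝ) {l : ℝ} (hl : 0 < l)
    (y : En (m + 3)) : Xe P η e (l • y) = l ^ (-((m + 2 : ℕ) : ℝ)) * Xe P η e y := by
  simp only [Xe]
  rw [F0_hom hP hη _ hl, ph_hom]
  linear_combination (-e * ph y) * wt_hom hl y

lemma Xe_neg {P : En (m + 3) → ℝ} (hP : Nice P) (η e : ℝ) (y : En (m + 3)) :
    Xe P η e (-y) = Xe P η e y := by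
  have := hP.hom (-1) y
  simp only [neg_smul, one_smul] at this
  simp [Xe, F0, ph, this]

lemma supq {A B : ℝ} (hB : 0 ≤ B) (h : |A| ≤ B) :
    (∀ l : ℝ, 4 * l * A - (2 * l ^ 2 + 1) * B ≤ (2 * A ^ 2 - B ^ 2) / B) ∧
      ∃ l : ℝ, |l| ≤ 1 ∧ 4 * l * A - (2 * l ^ 2 + 1) * B = (2 * A ^ 2 - B ^ 2) / B := by
  rcases hB.eq_or_lt with rfl | hB
  · obtain rfl : A = 0 := abs_nonpos_iff.1 h
    exact ⟨fun l => by simp, 0, by simp, by simp⟩
  · refine ⟨fun l => ?_, A / B, ?_, by field_simp; ring⟩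
    · rw [le_div_iff₀ hB]; nlinarith [sq_nonneg (A - l * B)]
    · rw [abs_div, abs_of_pos hB, div_le_one hB]; exact h

def Ke (P : En (m + 3) → ℝ) (η e : ℝ) : Set (En (m + 3)) := {y | y = 0 ∨ 1 ≤ Xe P η e y}

lemma body {P : En (m + 3) → ℝ} (hP : Nice P) {η : ℝ} (hη : 0 < η) : ∃ e0 > 0, ∀ e : ℝ, |e| < e0 →
    (∀ y, y ≠ 0 → 0 < Xe P η e y) ∧ Convex ℝ (Ke P η e) ∧ IsClosed (Ke P η e) ∧
    (∀ y, P y + 2 * η * ‖y‖ ^ 2 ≤ 1 → y ∈ Ke P η e) ∧ ∀ y ∈ Ke P η e, P y ≤ 1 := by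
  set q : ℝ × ℝ × ℝ → En (m + 3) → ℝ := fun c y => (c.1 * (y 0 ^ 2 - y 1 ^ 2) +
    c.2.1 * (2 * y 0 * y 1) - c.2.2 * (y 0 ^ 2 + y 1 ^ 2)) * (‖y‖ ^ 2) ^ ex m with hq
  have qs : ∀ c y, y ≠ 0 →
      ContDiffAt ℝ 2 (fun z : (ℝ × ℝ × ℝ) × En (m + 3) => q z.1 z.2) (c, y) := by
    intro c y hy
    have := norm_pos_iff.2 hy
    exact ContDiffAt.mul (by fun_prop) (ContDiffAt.rpow_const_of_ne
      ((contDiff_norm_sq ℝ).contDiffAt.comp (c, y) contDiffAt_snd) (by positivity))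
  have key := small hP hη (d := (m + 2 : ℕ)) (by positivity) q (fun y => by simp [hq])
    (fun c => by simp [hq]) (fun c l hl y => by
      simp only [hq, PiLp.smul_apply, smul_eq_mul]
      linear_combination (c.1 * (y 0 ^ 2 - y 1 ^ 2) + c.2.1 * (2 * y 0 * y 1) -
        c.2.2 * (y 0 ^ 2 + y 1 ^ 2)) * wt_hom hl y) qs
  obtain ⟨r, r0, hr⟩ := Metric.eventually_nhds_iff.1 key
  refine ⟨r / 4, by positivity, fun e he => ?_⟩
  obtain ⟨c, c1, c2, c3⟩ : ∃ c : ℝ → ℝ × ℝ × ℝ, (∀ l, |l| ≤ 1 → dist (c l) 0 < r) ∧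
      (∀ l y, q (c l) y ≤ e * (ph y * (‖y‖ ^ 2) ^ ex m)) ∧
      ∀ y, ∃ l, |l| ≤ 1 ∧ q (c l) y = e * (ph y * (‖y‖ ^ 2) ^ ex m) := by
    have nb : ∀ l : ℝ, |l| ≤ 1 → ‖|e| * (4 * l)‖ < r ∧ ‖|e| * (2 * l ^ 2 + 1)‖ < r := by
      intro l hl
      have : l ^ 2 ≤ 1 := by nlinarith [sq_abs l, abs_nonneg l]
      simp only [Real.norm_eq_abs, abs_mul, abs_abs]
      rw [abs_of_pos (a := 2 * l ^ 2 + 1) (by positivity), abs_of_pos (a := (4:ℝ)) (by norm_num)]
      constructor <;> nlinarith [abs_nonneg e]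
    have w0 : ∀ y : En (m + 3), 0 ≤ (‖y‖ ^ 2) ^ ex m := fun y => by positivity
    rcases le_total 0 e with h | h
    · rw [abs_of_nonneg h] at nb
      have s := fun y : En (m + 3) => supq (A := y 0 ^ 2 - y 1 ^ 2) (B := y 0 ^ 2 + y 1 ^ 2)
        (by positivity) (abs_le.2 ⟨by nlinarith, by nlinarith⟩)
      refine ⟨fun l => (e * (4 * l), 0, e * (2 * l ^ 2 + 1)), fun l hl => ?_, fun l y => ?_,
        fun y => ?_⟩
      · simp only [dist_zero_right, Prod.norm_def, norm_zero, max_lt_iff]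
        exact ⟨(nb l hl).1, r0, (nb l hl).2⟩
      · have := mul_le_mul_of_nonneg_left ((s y).1 l) (mul_nonneg h (w0 y))
        simp only [hq, ph]
        linarith
      · obtain ⟨l, hl, e1⟩ := (s y).2
        refine ⟨l, hl, ?_⟩
        simp only [hq, ph]
        rw [← e1]; ring
    · rw [abs_of_nonpos h] at nb
      have s := fun y : En (m + 3) => supq (A := 2 * y 0 * y 1) (B := y 0 ^ 2 + y 1 ^ 2)
        (by positivity) (abs_le.2 ⟨by nlinarith [sq_nonneg (y 0 + y 1)],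
          by nlinarith [sq_nonneg (y 0 - y 1)]⟩)
      have pe : ∀ y : En (m + 3), ph y = -((2 * (2 * y 0 * y 1) ^ 2 - (y 0 ^ 2 + y 1 ^ 2) ^ 2) /
          (y 0 ^ 2 + y 1 ^ 2)) := fun y => by
        rw [ph, ← neg_div]; congr 1; ring
      refine ⟨fun l => (0, -e * (4 * l), -e * (2 * l ^ 2 + 1)), fun l hl => ?_, fun l y => ?_,
        fun y => ?_⟩
      · simp only [dist_zero_right, Prod.norm_def, norm_zero, max_lt_iff]
        exact ⟨r0, (nb l hl).1, (nb l hl).2⟩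
      · have := mul_le_mul_of_nonneg_left ((s y).1 l) (mul_nonneg (neg_nonneg.2 h) (w0 y))
        simp only [hq, pe]
        linarith
      · obtain ⟨l, hl, e1⟩ := (s y).2
        refine ⟨l, hl, ?_⟩
        simp only [hq, pe]
        rw [← e1]; ring
  have eq : Ke P η e = ⋂ l ∈ {l : ℝ | |l| ≤ 1},
      {y | y = 0 ∨ 1 ≤ F0 P η (m + 2 : ℕ) y - q (c l) y} := by
    ext y
    simp only [Ke, Xe, mem_setOf_eq, mem_iInter]
    constructor
    · rintro (h | h) l _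
      · exact Or.inl h
      · exact Or.inr (by linarith [c2 l y])
    · intro h
      obtain ⟨l, hl, e1⟩ := c3 y
      rw [← e1]; exact h l hl
  refine ⟨fun y hy => ?_, ?_, ?_, fun y hy => ?_, fun y hy => ?_⟩
  · obtain ⟨l, hl, e1⟩ := c3 y
    rw [Xe, ← e1]; exact (hr (c1 l hl)).1 y hy
  · rw [eq]
    exact convex_iInter₂ fun l hl => (hr (c1 l hl)).2.1
  · rw [eq]
    refine isClosed_biInter fun l hl => ?_
    rw [← isOpen_compl_iff, isOpen_iff_eventually]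
    intro y hy
    simp only [mem_compl_iff, mem_setOf_eq, not_or, not_le] at hy ⊢
    have ca : ContinuousAt (fun y => F0 P η (m + 2 : ℕ) y - q (c l) y) y :=
      (F0_sm hP hη _ hy.1 0).continuousAt.sub ((qs (c l) y hy.1).continuousAt.comp
        (f := fun y => (c l, y)) (by fun_prop))
    exact (eventually_ne_nhds hy.1).and (ca.eventually (gt_mem_nhds hy.2))
  · rw [eq]
    exact mem_iInter₂.2 fun l hl => (hr (c1 l hl)).2.2.1 y hy
  · rw [eq] at hy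
    exact (hr (c1 0 (by simp))).2.2.2 y (mem_iInter₂.1 hy 0 (by simp))

end Pool.Agent.H80.Pz
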