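import Pool.Agent.H80.Pz1
import Pool.Agent.H80.Pz5

set_option autoImplicit false

namespace Pool.Agent.H80.Pz

open MeasureTheory Set Filter Topology Metric Pointwise Module
open scoped RealInnerProductSpace ENNReal
open Pool.Agent.H80.Ib Real

variable {m : ℕ}

noncomputable def c4 (θ : ℝ) : ℝ := 2 * (cos θ ^ 2 - sin θ ^ 2) ^ 2 - 1

lemma c4_abs (θ : ℝ) : |c4 θ| ≤ 1 := by
  have h := sin_sq_add_cos_sq θ
  have : (cos θ ^ 2 - sin θ ^ 2) ^ 2 ≤ 1 := by
    nlinarith [mul_nonneg (sq_nonneg (cos θ)) (sq_nonneg (sin θ))]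
  rw [c4, abs_le]; constructor <;> nlinarith [sq_nonneg (cos θ ^ 2 - sin θ ^ 2)]

lemma ph_io (θ t : ℝ) (z : En (m + 2)) : ph (io θ t z) =
    c4 θ * (z 0 ^ 2 - 7 * (lam t * z 1) ^ 2 +
      8 * ((lam t * z 1) ^ 4 / (z 0 ^ 2 + (lam t * z 1) ^ 2))) +
    (16 * (cos θ ^ 2 - sin θ ^ 2) * sin θ * cos θ) * (z 0 * (lam t * z 1) *
      ((lam t * z 1) ^ 2 - z 0 ^ 2) / (z 0 ^ 2 + (lam t * z 1) ^ 2)) := by
  have h := sin_sq_add_cos_sq θ
  simp only [ph, io0, io1, c4, mul_right_comm (lam t) _ (z 1)]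
  generalize lam t * z 1 = b
  generalize z 0 = a
  have e : (-sin θ * a - b * cos θ) ^ 2 + (cos θ * a - b * sin θ) ^ 2 = a ^ 2 + b ^ 2 := by
    linear_combination (a ^ 2 + b ^ 2) * h
  rw [e]
  rcases eq_or_ne (a ^ 2 + b ^ 2) 0 with h0 | h0
  · have ha : a = 0 := by nlinarith
    have hb : b = 0 := by nlinarith
    simp [ha, hb]
  · field_simp
    linear_combination (8 * a ^ 2 * b ^ 2 * (sin θ ^ 2 + cos θ ^ 2 + 1)) * h

lemma ph_abs (y : En (m + 3)) : |ph y| ≤ ‖y‖ ^ 2 := by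
  have h : y 0 ^ 2 + y 1 ^ 2 ≤ ‖y‖ ^ 2 := by
    rw [EuclideanSpace.real_norm_sq_eq, sum3]
    have : 0 ≤ ∑ i : Fin m, y i.succ.succ.succ ^ 2 := by positivity
    nlinarith [sq_nonneg (y 2)]
  refine le_trans ?_ h
  rw [ph, abs_div, abs_of_nonneg (a := y 0 ^ 2 + y 1 ^ 2) (by positivity)]
  refine div_le_of_le_mul₀ (by positivity) (by positivity) (abs_le.2 ⟨?_, ?_⟩) <;>
  nlinarith [sq_nonneg (y 0 ^ 2 - y 1 ^ 2), mul_nonneg (sq_nonneg (y 0)) (sq_nonneg (y 1))]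

noncomputable def eU (m : ℕ) : (ℝ × En (m + 1)) ≃L[ℝ] En (m + 2) :=
  ((((LinearEquiv.refl ℝ ℝ).prodCongr (WithLp.linearEquiv 2 ℝ (Fin (m + 1) → ℝ))).trans
    (Fin.consLinearEquiv ℝ fun _ : Fin (m + 2) => ℝ)).trans
    (WithLp.linearEquiv 2 ℝ (Fin (m + 2) → ℝ)).symm).toContinuousLinearEquiv

lemma eU0 (p : ℝ × En (m + 1)) : eU m p 0 = p.1 := rfl
lemma eU1 (p : ℝ × En (m + 1)) : eU m p 1 = p.2 0 := rfl
lemma eU_norm (p : ℝ × En (m + 1)) : ‖eU m p‖ ^ 2 = p.1 ^ 2 + ‖p.2‖ ^ 2 := by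
  rw [EuclideanSpace.real_norm_sq_eq, EuclideanSpace.real_norm_sq_eq, Fin.sum_univ_succ]
  rfl

lemma struct {P : En (m + 3) → ℝ} (hP : Nice P) {η : ℝ} (hη : 0 < η) :
    ∃ (g0 : ℝ × ℝ → ℝ) (a0 a1 : ℝ) (S : ℝ → ℝ), ContDiff ℝ 3 g0 ∧ 0 < a0 ∧ Continuous S ∧
      0 < S 0 ∧ ∀ e, (∀ y, y ≠ 0 → 0 < Xe P η e y) → IsCompact (Ke P η e) → ∀ θ t,
        (volume (io θ t ⁻¹' Ke P η e)).toReal =
          g0 (θ, t) - e * (c4 θ * (a0 - 7 * lam t ^ 2 * a1 + 8 * (|lam t| ^ 3 * S (lam t)))) := by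
  obtain ⟨c, c0, hc⟩ := volF (En (m + 2))
  obtain ⟨b, b0, hb, hb'⟩ := haar_equiv ((volume : Measure ℝ).prod (volume : Measure (En (m + 1))))
    (volume : Measure (En (m + 2))) (eU m)
  set j : En (m + 1) →L[ℝ] ℝ := EuclideanSpace.proj 0 with hjd
  have hj : ∀ w, |j w| ≤ ‖w‖ := fun w => PiLp.norm_apply_le w 0
  obtain ⟨a0, a1, a00, hG⟩ := G_eq (ex m) hj
  have sm : ContDiff ℝ 3 fun q : (ℝ × ℝ) × En (m + 2) =>
      F0 P η (m + 2 : ℕ) (io q.1.1 q.1.2 q.2) * chi (‖q.2‖ ^ 2) := by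
    rw [contDiff_iff_contDiffAt]
    intro q
    rcases eq_or_ne q.2 0 with h | h
    · refine (contDiffAt_const (c := (0 : ℝ))).congr_of_eventuallyEq ?_
      have : ContinuousAt (fun q : (ℝ × ℝ) × En (m + 2) => ‖q.2‖ ^ 2) q := by fun_prop
      filter_upwards [this.eventually (gt_mem_nhds (show ‖q.2‖ ^ 2 < 1 by simp [h]))] with x hx
      rw [chi_lo hx.le, mul_zero]
    · exact (ContDiffAt.comp (g := F0 P η (m + 2 : ℕ)) q
        (F0_sm hP hη _ (by rwa [Ne, io_eq_zero]) 3) (io_sm 3).contDiffAt).mul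
        ((chi_sm 3).comp ((contDiff_norm_sq ℝ).comp contDiff_snd)).contDiffAt
  have zs : ∀ (x : En (m + 2)), x ∉ closedBall (0 : En (m + 2)) 2 → chi (‖x‖ ^ 2) = 0 := by
    intro x hx
    rw [mem_closedBall_zero_iff, not_le] at hx
    exact chi_hi (by nlinarith)
  have g0s := param_int (n := 3) (volume : Measure (En (m + 2))) (locallyIntegrable_const (1 : ℝ))
    (g := fun (p : ℝ × ℝ) z => F0 P η (m + 2 : ℕ) (io p.1 p.2 z) * chi (‖z‖ ^ 2)) isOpen_univ
    (isCompact_closedBall 0 2) (fun p x _ hx => by rw [zs x hx, mul_zero]) sm.contDiffOn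
  simp only [one_mul, contDiffOn_univ] at g0s
  refine ⟨fun p => c * ∫ z, F0 P η (m + 2 : ℕ) (io p.1 p.2 z) * chi (‖z‖ ^ 2), c / b * a0,
    c / b * a1, fun l => c / b * S1 (ex m) j l, contDiff_const.mul g0s, by positivity,
    continuous_const.mul (S1_cont _ hj), mul_pos (by positivity)
      (S1_pos _ hj (w := EuclideanSpace.single 0 1) (by simp) (by simp [hjd])),
    fun e he hK θ t => ?_⟩
  have s1 : io θ t ⁻¹' Ke P η e = {z | z = 0 ∨ 1 ≤ Xe P η e (io θ t z)} := by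
    ext z; simp [Ke, io_eq_zero]
  have i1 : Integrable fun z => F0 P η (m + 2 : ℕ) (io θ t z) * chi (‖z‖ ^ 2) :=
    Continuous.integrable_of_hasCompactSupport
      (sm.continuous.comp (f := fun z : En (m + 2) => ((θ, t), z)) (by fun_prop))
      (HasCompactSupport.intro (isCompact_closedBall 0 2) fun x hx => by rw [zs x hx, mul_zero])
  have pe : ∀ p : ℝ × En (m + 1), ph (io θ t (eU m p)) = _ := fun p => ph_io θ t (eU m p)
  simp only [eU0, eU1] at pe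
  have i2 : Integrable fun z : En (m + 2) => ph (io θ t z) * om (ex m) (‖z‖ ^ 2) := by
    rw [← hb']
    simp only [eU_norm]
    refine intw _ ?_ (M := 1) fun p => ?_
    · simp only [pe]
      have : Measurable fun w : En (m + 1) => w 0 := j.continuous.measurable
      fun_prop
    · rw [one_mul, ← eU_norm, ← io_norm θ t]; exact ph_abs _
  have e2 := hb fun z => ph (io θ t z) * om (ex m) (‖z‖ ^ 2)
  simp only [eU_norm, pe] at e2
  have e3 := hG (lam t) (c4 θ) (16 * (cos θ ^ 2 - sin θ ^ 2) * sin θ * cos θ) (lam_abs t)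
  have e4 : (∫ z : En (m + 2), ph (io θ t z) * om (ex m) (‖z‖ ^ 2)) = b⁻¹ * (c4 θ *
      (a0 - 7 * lam t ^ 2 * a1 + 8 * (|lam t| ^ 3 * S1 (ex m) j (lam t)))) := by
    rw [← e3, eq_inv_mul_iff_mul_eq₀ b0.ne', ← e2]
    rfl
  have sp : ∀ z, Xe P η e (io θ t z) * chi (‖z‖ ^ 2) =
      F0 P η (m + 2 : ℕ) (io θ t z) * chi (‖z‖ ^ 2) - e * (ph (io θ t z) * om (ex m) (‖z‖ ^ 2)) :=
    fun z => by simp only [Xe, om, io_norm]; ring
  rw [s1, hc (fun z => Xe P η e (io θ t z)) (fun l hl z => by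
      rw [io_smul, Xe_hom hP hη e hl, finrank_euclideanSpace_fin])
    (fun z hz => he _ (by rwa [Ne, io_eq_zero]))
    (s1 ▸ (io_iso θ t).isClosedEmbedding.isCompact_preimage hK)
    (by simp only [sp]; exact i1.sub (i2.const_mul e))]
  simp only [sp]
  rw [integral_sub i1 (i2.const_mul e), integral_const_mul, e4]
  ring

lemma theta_int {n : ℕ} {G : ℝ → ℝ → ℝ} {s : Set ℝ} (hs : IsOpen s)
    (hG : ContDiffOn ℝ n (fun q : ℝ × ℝ => G q.1 q.2) (s ×ˢ univ)) :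
    ContDiffOn ℝ n (fun t => ∫ θ in Ioo (-π) π, G t θ) s := by
  let β : ContDiffBump (0 : ℝ) := ⟨4, 5, by norm_num, by norm_num⟩
  have h := param_int (n := n) (volume : Measure ℝ)
    ((locallyIntegrable_const (1 : ℝ)).indicator (measurableSet_Ioo (a := -π) (b := π)))
    (g := fun t θ => G t θ * β θ) hs (isCompact_closedBall 0 5) (fun p x _ hx => by
      rw [β.zero_of_le_dist (not_le.1 hx).le, mul_zero])
    (hG.mul (β.contDiff.comp contDiff_snd).contDiffOn)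
  refine h.congr fun t _ => ?_
  rw [← integral_indicator measurableSet_Ioo]
  congr 1
  ext θ
  simp only [indicator]
  split_ifs with hθ
  · rw [β.one_of_mem_closedBall, one_mul, mul_one]
    rw [mem_closedBall_zero_iff, Real.norm_eq_abs, abs_le]
    have := pi_le_four
    exact ⟨by change -4 ≤ θ; linarith [hθ.1], by change θ ≤ 4; linarith [hθ.2]⟩
  · simp

lemma est_lim {g0 : ℝ × ℝ → ℝ} {a0 a1 e m0 : ℝ} {S : ℝ → ℝ} (h0 : ContDiff ℝ 3 g0) (ha : 0 < a0)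
    (hS : Continuous S) (S0 : 0 < S 0) (gp : ∀ θ, 0 < g0 (θ, 0)) (he : e ≠ 0)
    (hI : 0 ≤ e * ∫ θ in Ioo (-π) π, c4 θ / g0 (θ, 0) ^ 2) {g : ℝ → ℝ → ℝ}
    (hg : ∀ θ t, g θ t =
      g0 (θ, t) - e * (c4 θ * (a0 - 7 * lam t ^ 2 * a1 + 8 * (|lam t| ^ 3 * S (lam t)))))
    (m00 : 0 < m0) (hm : ∀ θ t, m0 ≤ g θ t) : ∃ L, 0 < L ∧
    Tendsto (fun τ => d4 (fun t => ∫ θ in Ioo (-π) π, (kap t * g θ t)⁻¹) τ / τ ^ 3) (𝓝[>] 0)
      (𝓝 L) := by
  have ks := kap_sm 3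
  have ls := lam_sm 3
  have kc := ks.continuous
  have lc := ls.continuous
  have g0c := h0.continuous
  have cs : ContDiff ℝ 3 c4 := by unfold c4; fun_prop
  have cc := cs.continuous
  have l0 : lam 0 = 0 := by simp [lam]
  have k0 : kap 0 = 1 := by simp [kap]
  set gs : ℝ → ℝ → ℝ := fun θ t => g0 (θ, t) - e * (c4 θ * (a0 - 7 * lam t ^ 2 * a1)) with hgs
  have gc : Continuous fun q : ℝ × ℝ => g q.2 q.1 := by simp only [hg]; fun_prop
  have gss : ContDiff ℝ 3 fun q : ℝ × ℝ => gs q.2 q.1 := by simp only [hgs]; fun_prop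
  have df : ∀ θ t, gs θ t = g θ t + 8 * e * c4 θ * (|lam t| ^ 3 * S (lam t)) := fun θ t => by
    simp only [hgs, hg]; ring
  obtain ⟨a, a00, hsm⟩ : ∃ a > 0, ∀ t ∈ Ioo (-a) a, ∀ θ, 0 < gs θ t := by
    have c : ContinuousAt (fun t => |8 * e * (|lam t| ^ 3 * S (lam t))|) 0 := by fun_prop
    obtain ⟨a, a0, h⟩ := Metric.eventually_nhds_iff.1
      (c.eventually (gt_mem_nhds (show _ < m0 by simpa [l0] using m00)))
    refine ⟨a, a0, fun t ht θ => ?_⟩
    have h1 := h (y := t) (by rw [Real.dist_eq, sub_zero, abs_lt]; exact ht)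
    have h2 : |8 * e * c4 θ * (|lam t| ^ 3 * S (lam t))| ≤ |8 * e * (|lam t| ^ 3 * S (lam t))| := by
      rw [mul_right_comm, abs_mul _ (c4 θ)]
      exact mul_le_of_le_one_right (abs_nonneg _) (c4_abs θ)
    rw [df]
    linarith [hm θ t, (abs_le.1 h2).1]
  have gne : ∀ θ t, g θ t ≠ 0 := fun θ t => (m00.trans_le (hm θ t)).ne'
  have s1 : ContDiffOn ℝ 3 (fun q : ℝ × ℝ => (kap q.1 * gs q.2 q.1)⁻¹) (Ioo (-a) a ×ˢ univ) :=
    ((ks.comp contDiff_fst).mul gss).contDiffOn.inv fun q hq =>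
      (mul_pos (kap_pos _) (hsm _ hq.1 _)).ne'
  have s2 : ContinuousOn (fun q : ℝ × ℝ => 8 * e * c4 q.2 / (kap q.1 * gs q.2 q.1 * g q.2 q.1))
      (Ioo (-a) a ×ˢ univ) :=
    ContinuousOn.div (by fun_prop) (((kc.comp continuous_fst).mul gss.continuous).mul
      gc).continuousOn fun q hq => mul_ne_zero (mul_pos (kap_pos _) (hsm _ hq.1 _)).ne' (gne _ _)
  have t1 := theta_int (n := 3) (G := fun t θ => (kap t * gs θ t)⁻¹) isOpen_Ioo s1
  have t2 := theta_int (n := 0) (G := fun t θ => 8 * e * c4 θ / (kap t * gs θ t * g θ t))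
    isOpen_Ioo (contDiffOn_zero.2 s2)
  have m : (0 : ℝ) ∈ Ioo (-a) a := ⟨by linarith, a00⟩
  set w : ℝ → ℝ := fun t => ∫ θ in Ioo (-π) π, 8 * e * c4 θ / (kap t * gs θ t * g θ t) with hw
  set Hs : ℝ → ℝ := fun t => ∫ θ in Ioo (-π) π, (kap t * gs θ t)⁻¹ with hHs
  have wc : ContinuousAt w 0 := t2.continuousOn.continuousAt (isOpen_Ioo.mem_nhds m)
  set r : ℝ → ℝ := fun t => kap t ^ 3 * S (lam t) * w t with hr
  have rc : ContinuousAt r 0 := ContinuousAt.mul (by fun_prop) wc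
  have io' : ∀ {f : ℝ → ℝ}, Continuous f → IntegrableOn f (Ioo (-π) π) := fun hf =>
    (hf.integrableOn_Icc).mono_set Ioo_subset_Icc_self
  have sp : ∀ t ∈ Ioo (-a) a, ∫ θ in Ioo (-π) π, (kap t * g θ t)⁻¹ = Hs t + |t| ^ 3 * r t := by
    intro t ht
    have i1 : Continuous fun θ => (kap t * gs θ t)⁻¹ :=
      continuousOn_univ.1 (s1.continuousOn.comp (f := fun θ : ℝ => (t, θ)) (by fun_prop)
        fun θ _ => ⟨ht, trivial⟩)
    have i2 : Continuous fun θ => 8 * e * c4 θ / (kap t * gs θ t * g θ t) :=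
      continuousOn_univ.1 (s2.comp (f := fun θ : ℝ => (t, θ)) (by fun_prop)
        fun θ _ => ⟨ht, trivial⟩)
    simp only [hr, hw, hHs]
    rw [← mul_assoc, ← integral_const_mul, ← integral_add (io' i1) ((io' i2).const_mul _)]
    congr 1
    ext θ
    have h1 := (hsm t ht θ).ne'
    have h2 := gne θ t
    have h3 := (kap_pos t).ne'
    have h4 := df θ t
    rw [lam, abs_mul, abs_of_pos (kap_pos t), ← lam] at h4
    field_simp
    linear_combination h4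
  have w0 : 0 < w 0 := by
    have g00 : ∀ θ, g θ 0 = g0 (θ, 0) - e * c4 θ * a0 := fun θ => by rw [hg, l0]; ring
    have gq : ∀ θ, gs θ 0 = g θ 0 := fun θ => by rw [df, l0]; simp
    have gθ : Continuous fun θ => g θ 0 := gc.comp (f := fun θ : ℝ => ((0 : ℝ), θ)) (by fun_prop)
    have j1 : Continuous fun θ => c4 θ / g0 (θ, 0) ^ 2 :=
      cc.div (by fun_prop) fun θ => (pow_pos (gp θ) 2).ne'
    set D : ℝ → ℝ := fun θ => (e * c4 θ) ^ 2 * a0 * (g0 (θ, 0) + g θ 0) /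
      (g θ 0 * g0 (θ, 0)) ^ 2 with hD
    have gp' : ∀ θ, 0 < g θ 0 := fun θ => m00.trans_le (hm θ 0)
    have j2 : Continuous D := Continuous.div (by fun_prop) (by fun_prop) fun θ =>
      (pow_pos (mul_pos (gp' θ) (gp θ)) 2).ne'
    have e1 : w 0 = 8 * (e * ∫ θ in Ioo (-π) π, c4 θ / g0 (θ, 0) ^ 2) +
        8 * ∫ θ in Ioo (-π) π, D θ := by
      rw [← integral_const_mul, ← mul_add, ← integral_add ((io' j1).const_mul e) (io' j2),
        ← integral_const_mul]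
      simp only [hw, k0, gq, one_mul, hD]
      congr 1
      ext θ
      have h1 := (gp θ).ne'
      have h2 := gne θ 0
      have h3 := g00 θ
      field_simp
      linear_combination (-c4 θ * (g0 (θ, 0) + g θ 0)) * h3
    have e2 : 0 < ∫ θ in Ioo (-π) π, D θ := by
      rw [setIntegral_pos_iff_support_of_nonneg_ae (Eventually.of_forall fun θ => by
        have := gp θ; have := gp' θ; simp only [hD, Pi.zero_apply]; positivity) (io' j2)]
      refine (j2.isOpen_support.inter isOpen_Ioo).measure_pos volume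
        ⟨0, ?_, by linarith [pi_pos], pi_pos⟩
      have := gp 0
      have := gp' 0
      have : c4 0 = 1 := by simp [c4]; norm_num
      simp only [Function.mem_support, hD, this, mul_one]
      positivity
    linarith
  refine ⟨8 * r 0, by simp only [hr, k0, l0]; positivity, ?_⟩
  have q : ∀ c : ℝ, Tendsto (fun τ : ℝ => r (c * τ)) (𝓝[>] 0) (𝓝 (r 0)) := fun c => by
    have : Continuous fun x : ℝ => c * x := by fun_prop
    exact (rc.tendsto.comp (by simpa using this.tendsto 0)).mono_left nhdsWithin_le_nhds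
  have lim := (d4_lim a00 t1).add ((((q 2).add (q (-2))).const_mul 8).sub
    (((q 1).add (q (-1))).const_mul 4))
  rw [show 0 + (8 * (r 0 + r 0) - 4 * (r 0 + r 0)) = 8 * r 0 by ring] at lim
  refine lim.congr' ?_
  filter_upwards [Ioo_mem_nhdsGT (show (0 : ℝ) < a / 2 by positivity)] with τ hτ
  have τ0 := hτ.1
  have τ1 := hτ.2
  simp only [d4]
  rw [sp _ ⟨by linarith, by linarith⟩, sp _ ⟨by linarith, by linarith⟩, sp _ m,
    sp _ ⟨by linarith, by linarith⟩, sp _ ⟨by linarith, by linarith⟩]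
  simp only [abs_neg, abs_zero, neg_mul, one_mul, abs_of_pos τ0,
    abs_of_pos (show 0 < 2 * τ by linarith)]
  field_simp
  ring

end Pool.Agent.H80.Pz
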