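import Pool.Agent.H80.Pz6

set_option autoImplicit false

namespace Pool.Agent.H80.Pz

open MeasureTheory Set Filter Topology Metric Pointwise Module
open scoped RealInnerProductSpace ENNReal
open Real

variable {m : ℕ}

noncomputable def pos (H : ℝ → ℝ → ℝ) (p : ℝ × ℝ) : ℝ :=
  p.1 ^ 2 * (H p.2 (2 * p.1⁻¹) + H p.2 (-(2 * p.1⁻¹)) + 6 * H p.2 0)

noncomputable def neg (H : ℝ → ℝ → ℝ) (p : ℝ × ℝ) : ℝ :=
  p.1 ^ 2 * (4 * (H p.2 p.1⁻¹ + H p.2 (-p.1⁻¹)))

lemma int5 {α : Type} [MeasurableSpace α] {μ : Measure α} {f1 f2 f3 f4 f5 : α → ℝ}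
    (h1 : Integrable f1 μ) (h2 : Integrable f2 μ) (h3 : Integrable f3 μ) (h4 : Integrable f4 μ)
    (h5 : Integrable f5 μ) : ∫ x, (f1 x + f2 x + 6 * f3 x - 4 * (f4 x + f5 x)) ∂μ =
      ∫ x, f1 x ∂μ + ∫ x, f2 x ∂μ + 6 * ∫ x, f3 x ∂μ - 4 * (∫ x, f4 x ∂μ + ∫ x, f5 x ∂μ) := by
  have a1 := integral_sub ((h1.add h2).add (h3.const_mul 6)) ((h4.add h5).const_mul 4)
  have a2 := integral_add (h1.add h2) (h3.const_mul 6)
  simp only [Pi.add_apply, integral_const_mul, integral_add h1 h2, integral_add h4 h5] at a1 a2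
  rw [a1, a2]

lemma dom_meas (R : ℝ) : MeasurableSet (dom R) := measurableSet_Ioo.prod measurableSet_Ioo

lemma dom_fin (R : ℝ) : volume (dom R) ≠ ⊤ :=
  ((isBounded_Ioo _ _).prod (isBounded_Ioo _ _)).measure_lt_top.ne

lemma intH {H : ℝ → ℝ → ℝ} (hc : Continuous fun q : ℝ × ℝ => H q.1 q.2) {M : ℝ}
    (hb : ∀ θ t, |H θ t| ≤ M * (1 + |t|)) (R : ℝ) {s : ℝ → ℝ} (hs : Measurable s)
    (hs2 : ∀ ρ, 0 < ρ → |s ρ| ≤ 2 * ρ⁻¹) :
    IntegrableOn (fun p : ℝ × ℝ => p.1 ^ 2 * H p.2 (s p.1)) (dom R) := by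
  have M0 : 0 ≤ M := by simpa using (abs_nonneg _).trans (hb 0 0)
  refine Measure.integrableOn_of_bounded (M := M * (R ^ 2 + 2 * R)) (dom_fin R)
    (Measurable.mul (by fun_prop) (hc.measurable.comp (f := fun p : ℝ × ℝ => (p.2, s p.1))
      (by fun_prop))).aestronglyMeasurable ?_
  filter_upwards [self_mem_ae_restrict (dom_meas R)] with p hp
  have h0 : 0 < p.1 := hp.1.1
  have h1 : p.1 < R := hp.1.2
  rw [norm_mul, Real.norm_eq_abs, Real.norm_eq_abs, abs_of_pos (by positivity)]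
  have h2 := mul_le_mul_of_nonneg_left ((hb p.2 (s p.1)).trans (mul_le_mul_of_nonneg_left
    (add_le_add_right (hs2 _ h0) 1) M0)) (sq_nonneg p.1)
  refine h2.trans ?_
  rw [show p.1 ^ 2 * (M * (1 + 2 * p.1⁻¹)) = M * (p.1 ^ 2 + 2 * p.1) by field_simp]
  exact mul_le_mul_of_nonneg_left (by nlinarith) M0

lemma int_pn {H : ℝ → ℝ → ℝ} (hc : Continuous fun q : ℝ × ℝ => H q.1 q.2) {M : ℝ}
    (hb : ∀ θ t, |H θ t| ≤ M * (1 + |t|)) (R : ℝ) :
    IntegrableOn (pos H) (dom R) ∧ IntegrableOn (neg H) (dom R) := by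
  have i1 := intH hc hb R (s := fun ρ => 2 * ρ⁻¹) (by fun_prop) fun ρ h => by
    rw [abs_of_pos (by positivity)]
  have i2 := intH hc hb R (s := fun ρ => -(2 * ρ⁻¹)) (by fun_prop) fun ρ h => by
    rw [abs_neg, abs_of_pos (by positivity)]
  have i3 := intH hc hb R (s := fun _ => 0) (by fun_prop) fun ρ h => by
    rw [abs_zero]; positivity
  have i4 := intH hc hb R (s := fun ρ => ρ⁻¹) (by fun_prop) fun ρ h => by
    rw [abs_of_pos (by positivity)]; linarith [inv_pos.2 h]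
  have i5 := intH hc hb R (s := fun ρ => -ρ⁻¹) (by fun_prop) fun ρ h => by
    rw [abs_neg, abs_of_pos (by positivity)]; linarith [inv_pos.2 h]
  constructor
  · refine ((i1.add i2).add (i3.const_mul 6)).congr (Eventually.of_forall fun p => ?_)
    simp only [pos, Pi.add_apply]; ring
  · refine ((i4.add i5).const_mul 4).congr (Eventually.of_forall fun p => ?_)
    simp only [neg, Pi.add_apply]; ring

lemma est {H : ℝ → ℝ → ℝ} (hc : Continuous fun q : ℝ × ℝ => H q.1 q.2) {M : ℝ}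
    (hb : ∀ θ t, |H θ t| ≤ M * (1 + |t|)) {L : ℝ} (hL : 0 < L)
    (hl : Tendsto (fun τ => d4 (fun t => ∫ θ in Ioo (-π) π, H θ t) τ / τ ^ 3) (𝓝[>] 0) (𝓝 L)) :
    ∃ R, ∫ p in dom R, neg H p < ∫ p in dom R, pos H p := by
  set d : ℝ → ℝ := fun ρ => ρ ^ 2 * d4 (fun t => ∫ θ in Ioo (-π) π, H θ t) ρ⁻¹ with hd
  have io' : ∀ t, IntegrableOn (fun θ => H θ t) (Ioo (-π) π) := fun t =>
    ((hc.comp (f := fun θ : ℝ => (θ, t)) (by fun_prop)).integrableOn_Icc).mono_set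
      Ioo_subset_Icc_self
  have inn : ∀ ρ, ∫ θ in Ioo (-π) π, (pos H (ρ, θ) - neg H (ρ, θ)) = d ρ := by
    intro ρ
    simp only [pos, neg, hd, d4, ← mul_sub]
    rw [integral_const_mul, int5 (io' _) (io' _) (io' _) (io' _) (io' _)]
  have ii : ∀ R, IntegrableOn (fun p => pos H p - neg H p) (Ioo 0 R ×ˢ Ioo (-π) π)
      (volume.prod volume) := fun R => (int_pn hc hb R).1.sub (int_pn hc hb R).2
  obtain ⟨u, u0, hu⟩ := mem_nhdsGT_iff_exists_Ioo_subset.1
    (hl.eventually (lt_mem_nhds (half_lt_self hL)))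
  have u1 : 0 < u := u0
  obtain ⟨R, hR⟩ := logdiv (d := d) (fun R => by
    have := ii R
    rw [IntegrableOn, ← Measure.prod_restrict] at this
    have h2 := this.integral_prod_left
    simp only [inn] at h2
    exact h2) (c := L / 2) (R0 := 2 / u) (by positivity)
    (by positivity) fun ρ hρ => by
      have r0 : 0 < ρ := lt_of_lt_of_le (by positivity) hρ
      have h1 : ρ⁻¹ < u := by
        rw [inv_lt_iff_one_lt_mul₀ r0]
        rw [div_le_iff₀ u1] at hρ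
        linarith
      have h2 : L / 2 < _ := hu ⟨inv_pos.2 r0, h1⟩
      rw [lt_div_iff₀ (by positivity)] at h2
      have h3 := mul_le_mul_of_nonneg_left h2.le (sq_nonneg ρ)
      refine le_trans (le_of_eq ?_) h3
      field_simp
  refine ⟨R, ?_⟩
  rw [← sub_pos, ← integral_sub (int_pn hc hb R).1 (int_pn hc hb R).2]
  have := setIntegral_prod _ (ii R)
  simp only [inn] at this
  exact hR.trans_eq this.symm

lemma test (μ : Measure (En (m + 3))) [IsFiniteMeasure μ] (hμ : μ (sphere 0 1)ᶜ = 0)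
    {H : ℝ → ℝ → ℝ} {R a b : ℝ} (ip : IntegrableOn (pos H) (dom R))
    (iq : IntegrableOn (neg H) (dom R))
    (h : ∀ θ t, a * H θ t ≤ ∫ v, |cos θ * v 0 + sin θ * v 1 + t * v 2| ∂μ ∧
      ∫ v, |cos θ * v 0 + sin θ * v 1 + t * v 2| ∂μ ≤ b * H θ t) :
    a * ∫ p in dom R, pos H p ≤ b * ∫ p in dom R, neg H p := by
  have ae : ∀ᵐ v ∂μ, ‖v‖ = 1 := by
    filter_upwards [measure_eq_zero_iff_ae_notMem.1 hμ] with v hv
    simpa using hv
  have cv : ∀ (v : En (m + 3)) i, ‖v‖ = 1 → |v i| ≤ 1 := fun v i hv =>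
    hv ▸ PiLp.norm_apply_le v i
  have iZ : ∀ θ t, Integrable (fun v : En (m + 3) => |cos θ * v 0 + sin θ * v 1 + t * v 2|) μ := by
    intro θ t
    refine Integrable.of_bound (Continuous.aestronglyMeasurable (by fun_prop)) (2 + |t|) ?_
    filter_upwards [ae] with v hv
    rw [Real.norm_eq_abs, abs_abs]
    refine (abs_add_three _ _ _).trans ?_
    simp only [abs_mul]
    have := mul_le_mul (abs_cos_le_one θ) (cv v 0 hv) (abs_nonneg _) zero_le_one
    have := mul_le_mul (abs_sin_le_one θ) (cv v 1 hv) (abs_nonneg _) zero_le_one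
    have := mul_le_mul_of_nonneg_left (cv v 2 hv) (abs_nonneg t)
    linarith
  set Ψ : (ℝ × ℝ) × En (m + 3) → ℝ := fun q =>
    q.1.1 * Fk (q.2 2) (q.1.1 * (cos q.1.2 * q.2 0 + sin q.1.2 * q.2 1)) with hΨ
  have Ψc : Continuous Ψ := Continuous.mul (by fun_prop) (Fk_cont.comp (f := fun q :
    (ℝ × ℝ) × En (m + 3) => (q.2 2, q.1.1 * (cos q.1.2 * q.2 0 + sin q.1.2 * q.2 1))) (by fun_prop))
  have fin : IsFiniteMeasure (volume.restrict (dom R)) := ⟨by simpa using (dom_fin R).lt_top⟩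
  have iΨ : Integrable Ψ ((volume.restrict (dom R)).prod μ) := by
    obtain ⟨B, hB⟩ := ((isCompact_closedBall (0 : ℝ × ℝ) (|R| + 4)).prod
      (isCompact_sphere (0 : En (m + 3)) 1)).exists_bound_of_continuousOn Ψc.continuousOn
    refine Integrable.of_bound Ψc.aestronglyMeasurable B ?_
    filter_upwards [Measure.quasiMeasurePreserving_fst.ae (self_mem_ae_restrict (dom_meas R)),
      Measure.quasiMeasurePreserving_snd.ae ae] with q h1 h2
    refine hB q ⟨?_, by simpa using h2⟩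
    rw [mem_closedBall_zero_iff, Prod.norm_def, Real.norm_eq_abs, Real.norm_eq_abs]
    have := pi_le_four
    have := le_abs_self R
    have := abs_nonneg R
    refine max_le (abs_le.2 ⟨?_, ?_⟩) (abs_le.2 ⟨?_, ?_⟩) <;>
      linarith [h1.1.1, h1.1.2, h1.2.1, h1.2.2]
  have pt : ∀ p ∈ dom R, a * pos H p - b * neg H p ≤ ∫ v, Ψ (p, v) ∂μ := by
    intro p hp
    have h0 : 0 < p.1 := hp.1.1
    have e : ∀ v : En (m + 3), Ψ (p, v) = p.1 ^ 2 *
        (|cos p.2 * v 0 + sin p.2 * v 1 + 2 * p.1⁻¹ * v 2| +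
        |cos p.2 * v 0 + sin p.2 * v 1 + -(2 * p.1⁻¹) * v 2| +
        6 * |cos p.2 * v 0 + sin p.2 * v 1 + 0 * v 2| -
        4 * (|cos p.2 * v 0 + sin p.2 * v 1 + p.1⁻¹ * v 2| +
          |cos p.2 * v 0 + sin p.2 * v 1 + -p.1⁻¹ * v 2|)) := by
      intro v
      have k : ∀ s : ℝ, |p.1 * (cos p.2 * v 0 + sin p.2 * v 1) + s * v 2| =
          p.1 * |cos p.2 * v 0 + sin p.2 * v 1 + s * p.1⁻¹ * v 2| := fun s => by
        rw [← abs_of_pos h0, ← abs_mul, abs_of_pos h0]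
        congr 1; field_simp
      simp only [hΨ, Fk, d4, k]
      simp only [mul_one, one_mul, neg_mul, zero_mul]
      ring
    simp only [e]
    rw [integral_const_mul, int5 (iZ _ _) (iZ _ _) (iZ _ _) (iZ _ _) (iZ _ _)]
    have h1 := (h p.2 (2 * p.1⁻¹)).1
    have h2 := (h p.2 (-(2 * p.1⁻¹))).1
    have h3 := (h p.2 0).1
    have h4 := (h p.2 p.1⁻¹).2
    have h5 := (h p.2 (-p.1⁻¹)).2
    simp only [pos, neg]
    rw [mul_left_comm a, mul_left_comm b, ← mul_sub]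
    exact mul_le_mul_of_nonneg_left (by linarith) (sq_nonneg _)
  have k1 := setIntegral_mono_on ((ip.const_mul a).sub (iq.const_mul b)) iΨ.integral_prod_left
    (dom_meas R) pt
  have k2 := integral_sub (ip.const_mul a) (iq.const_mul b)
  have k3 := integral_integral_swap (f := fun p v => Ψ (p, v)) iΨ
  have k4 : ∫ v, (∫ p in dom R, Ψ (p, v)) ∂μ ≤ 0 := integral_nonpos fun v => kern R (v 0) (v 1) (v 2)
  simp only [integral_const_mul, Pi.sub_apply] at k1 k2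
  linarith

def Bad (m : ℕ) (K : Set (En (m + 3))) : Prop :=
  ∃ μ : Measure (En (m + 3)), IsFiniteMeasure μ ∧ μ (sphere 0 1)ᶜ = 0 ∧
    ∀ u : En (m + 3), ‖u‖ = 1 →
      (Measure.hausdorffMeasure (((m + 3 : ℕ) : ℝ) - 1) (K ∩ {x | ⟪u, x⟫ = 0})).toReal *
        (∫ v, |⟪u, v⟫| ∂μ) = 1

lemma io_pre (θ t : ℝ) {c : ℝ} (hc : 0 < c) (L : Set (En (m + 3))) :
    (volume (io θ t ⁻¹' (c • L))).toReal = c ^ (m + 2) * (volume (io θ t ⁻¹' L)).toReal := by
  have : io θ t ⁻¹' (c • L) = c • io θ t ⁻¹' L := by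
    ext z
    simp only [mem_preimage, mem_smul_set_iff_inv_smul_mem₀ hc.ne', io_smul]
  rw [this, Measure.addHaar_smul, finrank_euclideanSpace_fin, ENNReal.toReal_mul,
    ENNReal.toReal_ofReal (abs_nonneg _), abs_of_pos (by positivity)]

lemma io_mono (θ t : ℝ) {A B : Set (En (m + 3))} (h : A ⊆ B) (hB : IsCompact B) :
    (volume (io θ t ⁻¹' A)).toReal ≤ (volume (io θ t ⁻¹' B)).toReal :=
  ENNReal.toReal_mono ((io_iso θ t).isClosedEmbedding.isCompact_preimage hB).measure_lt_top.ne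
    (measure_mono (preimage_mono h))

theorem main {K : Set (En (m + 3))} (hK : IsCompact K) (hc : Convex ℝ K) (h0 : (0 : En (m + 3)) ∈ K)
    (hs : ∀ x ∈ K, -x ∈ K) {δ : ℝ} (hδ : 0 < δ) : ∃ L : Set (En (m + 3)), IsCompact L ∧
      Convex ℝ L ∧ (∀ x ∈ L, -x ∈ L) ∧ K ⊆ L ∧ (∀ y ∈ L, infDist y K ≤ 2 * δ) ∧ ∃ ε > 0,
      ∀ K' : Set (En (m + 3)), IsCompact K' → Convex ℝ K' → K'.Nonempty →
        hausdorffDist K' L < ε → ¬ Bad m K' := by
  obtain ⟨P, hP, θ0, θ1, hP1, hP2⟩ := approx hK hc h0 hs hδ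
  obtain ⟨R0, R00, hR0⟩ := hK.isBounded.exists_pos_norm_le
  set η := (1 - θ0) / (2 * R0 ^ 2) with hηd
  have hη : 0 < η := div_pos (by linarith) (by positivity)
  obtain ⟨e0, e00, hb⟩ := body hP hη
  obtain ⟨g0, a0, a1, S, g0s, a00, Sc, S0, hg⟩ := struct hP hη
  have cpt : ∀ e, |e| < e0 → IsCompact (Ke P η e) := by
    intro e he
    refine (isCompact_closedBall (0 : En (m + 3)) (R0 + 2 * δ)).of_isClosed_subset
      (hb e he).2.2.1 fun y hy => ?_
    obtain ⟨k, hk, e1⟩ := hK.exists_infDist_eq_dist ⟨0, h0⟩ y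
    have h1 := hP2 y ((hb e he).2.2.2.2 y hy)
    rw [e1, dist_eq_norm] at h1
    rw [mem_closedBall_zero_iff]
    linarith [hR0 k hk, norm_sub_norm_le y k]
  obtain ⟨r, r0, hr⟩ : ∃ r > 0, ∀ y ∈ closedBall (0 : En (m + 3)) r, P y + 2 * η * ‖y‖ ^ 2 ≤ 1 := by
    have pc : Continuous P := continuousOn_univ.1 (hP.cvx.continuousOn isOpen_univ)
    have c : ContinuousAt (fun y => P y + 2 * η * ‖y‖ ^ 2) 0 := by fun_prop
    exact nhds_basis_closedBall.eventually_iff.1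
      (c.eventually (ge_mem_nhds (by simp [P_zero hP])))
  have bl : ∀ e, |e| < e0 → closedBall 0 r ⊆ Ke P η e := fun e he y hy =>
    (hb e he).2.2.2.1 y (hr y hy)
  set m0 := (volume (closedBall (0 : En (m + 2)) r)).toReal with hm0
  have m00 : 0 < m0 :=
    ENNReal.toReal_pos (measure_closedBall_pos _ _ r0).ne' measure_closedBall_lt_top.ne
  have low : ∀ e, |e| < e0 → ∀ θ t, m0 ≤ (volume (io θ t ⁻¹' Ke P η e)).toReal := by
    intro e he θ t
    refine le_trans (le_of_eq ?_) (io_mono θ t (bl e he) (cpt e he))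
    have : io θ t ⁻¹' closedBall (0 : En (m + 3)) r = closedBall 0 r := by
      ext z
      simp [io_norm]
    rw [this]
  have z0 : |(0 : ℝ)| < e0 := by simpa using e00
  have gp : ∀ θ, 0 < g0 (θ, 0) := fun θ => by
    have := low 0 z0 θ 0
    rw [hg 0 (hb 0 z0).1 (cpt 0 z0)] at this
    linarith
  obtain ⟨e, he, en, hI⟩ : ∃ e : ℝ, |e| < e0 ∧ e ≠ 0 ∧
      0 ≤ e * ∫ θ in Ioo (-π) π, c4 θ / g0 (θ, 0) ^ 2 := by
    rcases le_total 0 (∫ θ in Ioo (-π) π, c4 θ / g0 (θ, 0) ^ 2) with h | h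
    · exact ⟨e0 / 2, by rw [abs_of_pos (by positivity)]; linarith, by positivity, by positivity⟩
    · exact ⟨-(e0 / 2), by rw [abs_neg, abs_of_pos (by positivity)]; linarith,
        neg_ne_zero.2 (by positivity), mul_nonneg_of_nonpos_of_nonpos (by linarith) h⟩
  set g : ℝ → ℝ → ℝ := fun θ t => (volume (io θ t ⁻¹' Ke P η e)).toReal with hgd
  have hg' := hg e (hb e he).1 (cpt e he)
  obtain ⟨L, L0, hL⟩ := est_lim (g := g) g0s a00 Sc S0 gp en hI hg' m00 (low e he)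
  have gp' : ∀ θ t, 0 < g θ t := fun θ t => m00.trans_le (low e he θ t)
  set H : ℝ → ℝ → ℝ := fun θ t => (kap t * g θ t)⁻¹ with hH
  have Hc : Continuous fun q : ℝ × ℝ => H q.1 q.2 := by
    have := (kap_sm 0).continuous
    have := (lam_sm 0).continuous
    have := g0s.continuous
    have : Continuous c4 := by unfold c4; fun_prop
    refine Continuous.inv₀ ?_ fun q => (mul_pos (kap_pos _) (gp' _ _)).ne'
    simp only [hgd, hg']
    fun_prop
  have Hb : ∀ θ t, |H θ t| ≤ m0⁻¹ * (1 + |t|) := by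
    intro θ t
    have := kap_pos t
    have := gp' θ t
    simp only [hH]
    rw [abs_of_pos (by positivity), mul_inv, mul_comm, kap, inv_inv]
    refine mul_le_mul (inv_anti₀ m00 (low e he θ t)) ?_ (by positivity) (by positivity)
    rw [sqrt_le_iff]
    exact ⟨by positivity, by nlinarith [sq_abs t, abs_nonneg t]⟩
  obtain ⟨R, hR⟩ := est Hc Hb L0 hL
  obtain ⟨κ, k0, k1, hκ⟩ : ∃ κ : ℝ, 0 < κ ∧ κ < 1 ∧ ((1 - κ) ^ (m + 2))⁻¹ * ∫ p in dom R, neg H p <
      ((1 + κ) ^ (m + 2))⁻¹ * ∫ p in dom R, pos H p := by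
    have c1 : ContinuousAt (fun κ : ℝ => ((1 - κ) ^ (m + 2))⁻¹ * ∫ p in dom R, neg H p) 0 :=
      (ContinuousAt.inv₀ (by fun_prop) (by simp)).mul continuousAt_const
    have c2 : ContinuousAt (fun κ : ℝ => ((1 + κ) ^ (m + 2))⁻¹ * ∫ p in dom R, pos H p) 0 :=
      (ContinuousAt.inv₀ (by fun_prop) (by simp)).mul continuousAt_const
    have ev := (c1.eventually_lt c2 (by simpa using hR)).filter_mono
      (nhdsWithin_le_nhds (s := Ioi 0))
    obtain ⟨κ, h1, h2⟩ := (ev.and (Ioo_mem_nhdsGT (zero_lt_one' ℝ))).exists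
    exact ⟨κ, h2.1, h2.2, h1⟩
  refine ⟨Ke P η e, cpt e he, (hb e he).2.1, fun x hx => by simpa [Ke, Xe_neg hP] using hx,
    fun y hy => (hb e he).2.2.2.1 y ?_, fun y hy => hP2 y ((hb e he).2.2.2.2 y hy), κ * r,
    by positivity, fun K' c1 c2 c3 hd => ?_⟩
  · have h1 := hP1 y hy
    have h2 : ‖y‖ ^ 2 ≤ R0 ^ 2 := pow_le_pow_left₀ (norm_nonneg _) (hR0 y hy) 2
    have h3 : 2 * η * R0 ^ 2 = 1 - θ0 := by rw [hηd]; field_simp
    nlinarith
  · rintro ⟨μ, f1, f2, f3⟩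
    obtain ⟨s1, s2⟩ := sandwich c1 c2 c3 (cpt e he) (hb e he).2.1 r0 (bl e he) k0 k1 hd
    obtain ⟨c, c0, hcc⟩ := haus m
    have k2 : 0 < 1 - κ := by linarith
    have := test μ f2 (int_pn Hc Hb R).1 (int_pn Hc Hb R).2
      (a := c⁻¹ * ((1 + κ) ^ (m + 2))⁻¹) (b := c⁻¹ * ((1 - κ) ^ (m + 2))⁻¹) fun θ t => by
      have q1 := f3 _ (un_norm θ t)
      have kp := kap_pos t
      have g1 := gp' θ t
      rw [hcc] at q1
      simp only [un_inner, abs_mul, abs_of_pos kp, integral_const_mul] at q1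
      have u1 := io_mono θ t s1 ((cpt e he).smul _)
      have u2 := io_mono θ t s2 c1
      rw [io_pre θ t (by positivity)] at u1 u2
      change _ ≤ _ * g θ t at u1
      change _ * g θ t ≤ _ at u2
      set G := (volume (io θ t ⁻¹' K')).toReal
      have G0 : 0 < G := lt_of_lt_of_le (by positivity) u2
      rw [← mul_assoc] at q1
      rw [eq_inv_of_mul_eq_one_right q1]
      simp only [hH, ← mul_inv]
      constructor <;> refine inv_anti₀ (by positivity) ?_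
      · have := mul_le_mul_of_nonneg_left u1 (mul_pos c0 kp).le
        linarith
      · have := mul_le_mul_of_nonneg_left u2 (mul_pos c0 kp).le
        linarith
    rw [mul_assoc, mul_assoc] at this
    exact absurd (le_of_mul_le_mul_left this (inv_pos.2 c0)) (not_le.2 hκ)

end Pool.Agent.H80.Pz
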