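import Pool.Agent.H80.Pz7

set_option autoImplicit false

namespace Pool.Agent.H80.Pz

open Set Filter Topology Metric

abbrev Sym (m : ℕ) := {K : ConvexBody (En (m + 3)) //
  ∀ x ∈ (K : Set (En (m + 3))), -x ∈ (K : Set (En (m + 3)))}

set_option maxHeartbeats 200000 in
theorem final (m : ℕ) : ∀ᶠ K : Sym m in residual (Sym m), ¬ Bad m (K.1 : Set (En (m + 3))) := by
  have d : Dense (interior {K : Sym m | ¬ Bad m (K.1 : Set (En (m + 3)))}) := by
    rw [Metric.dense_iff]
    rintro ⟨K, hs⟩ ε hε
    have h0 : (0 : En (m + 3)) ∈ (K : Set (En (m + 3))) := by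
      obtain ⟨x, hx⟩ := K.nonempty
      have := K.convex hx (hs x hx) (a := 1 / 2) (b := 1 / 2) (by norm_num) (by norm_num)
        (by norm_num)
      simpa using this
    obtain ⟨L, c1, c2, c3, c4, c5, r, r0, hr⟩ :=
      main K.isCompact K.convex h0 hs (δ := ε / 4) (by positivity)
    let L' : ConvexBody (En (m + 3)) := ⟨L, c2, c1, ⟨0, c4 h0⟩⟩
    have e : (L' : Set (En (m + 3))) = L := rfl
    refine ⟨⟨L', c3⟩, ?_, ?_⟩
    · rw [Metric.mem_ball, Subtype.dist_eq, ← ConvexBody.hausdorffDist_coe, e]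
      refine lt_of_le_of_lt (Metric.hausdorffDist_le_of_infDist (r := 2 * (ε / 4)) (by positivity)
        c5 fun y hy => ?_) (by linarith)
      rw [Metric.infDist_zero_of_mem (c4 hy)]
      positivity
    · rw [mem_interior_iff_mem_nhds]
      filter_upwards [Metric.ball_mem_nhds _ r0] with K' hK'
      rw [Metric.mem_ball, Subtype.dist_eq, ← ConvexBody.hausdorffDist_coe, e] at hK'
      exact hr _ K'.1.isCompact K'.1.convex K'.1.nonempty hK'
  exact Filter.mem_of_superset (residual_of_dense_open isOpen_interior d) interior_subset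

end Pool.Agent.H80.Pz
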