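import Pool.Agent.H80.RaceDefs

namespace Pool.Agent.H80.Race

open Classical

variable {s : ℕ}

lemma maxp {X : Type} [Finite X] (e : X → ℝ) (lev : X → ℕ) (k : ℕ) {q η : ℝ} (hq : 0 < q)
    (hq1 : q ≤ 1) (hη : 0 ≤ η)
    (H : ∀ x M, (∀ y, |e y| ≤ M) → e x = 0 ∨
      (lev x < k ∧ ∃ y, lev y = lev x + 1 ∧ |e x| ≤ η + q * |e y| + (1 - q) * M)) (x : X) :
    |e x| ≤ k * η / q ^ k := by
  have : Nonempty X := ⟨x⟩
  obtain ⟨x0, hx0⟩ := Finite.exists_max fun y => |e y|
  set M := |e x0| with hM
  have M0 : 0 ≤ M := abs_nonneg _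
  have key : ∀ t : ℕ, ∀ x, k ≤ lev x + t → |e x| ≤ t * η + (1 - q ^ t) * M := by
    intro t
    induction t with
    | zero =>
      intro x hx
      rcases H x M hx0 with h | ⟨h, -⟩
      · simp [h]
      · omega
    | succ t ih =>
      intro x hx
      have h1 : q ^ (t + 1) ≤ 1 := pow_le_one₀ hq.le hq1
      rcases H x M hx0 with h | ⟨-, y, hy, h⟩
      · rw [h, abs_zero]
        have : 0 ≤ (1 - q ^ (t + 1)) * M := mul_nonneg (by linarith) M0
        positivity
      · have h2 := ih y (by omega)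
        have h3 := mul_le_mul_of_nonneg_left h2 hq.le
        have h4 : q * (t * η) ≤ t * η := mul_le_of_le_one_left (by positivity) hq1
        push_cast
        rw [pow_succ]
        nlinarith
  have h := key k x0 (by omega)
  have hk : 0 < q ^ k := pow_pos hq k
  rw [le_div_iff₀ hk]
  have := mul_le_mul_of_nonneg_right (hx0 x) hk.le
  nlinarith

lemma avg {p : Fin s → ℝ} {q : ℝ} (hq : 0 ≤ q) (hp : ∀ c, q ≤ p c) (h1 : ∑ c, p c = 1)
    (g : Fin s → ℝ) {M : ℝ} (hg : ∀ c, |g c| ≤ M) (a : Fin s) :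
    |∑ c, p c * g c| ≤ q * |g a| + (1 - q) * M := by
  have h2 : |∑ c, p c * g c| ≤ ∑ c, p c * |g c| := by
    refine (Finset.abs_sum_le_sum_abs _ _).trans (Finset.sum_le_sum fun c _ => ?_)
    rw [abs_mul, abs_of_nonneg (hq.trans (hp c))]
  have h3 : ∑ c, p c * (M - |g c|) = M - ∑ c, p c * |g c| := by
    simp only [mul_sub, Finset.sum_sub_distrib, ← Finset.sum_mul, h1, one_mul]
  have h4 : p a * (M - |g a|) ≤ ∑ c, p c * (M - |g c|) :=
    Finset.single_le_sum (f := fun c => p c * (M - |g c|))
      (fun c _ => mul_nonneg (hq.trans (hp c)) (by linarith [hg c])) (Finset.mem_univ a)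
  have h5 : q * (M - |g a|) ≤ p a * (M - |g a|) :=
    mul_le_mul_of_nonneg_right (hp a) (by linarith [hg a])
  nlinarith

def dl (A : List (Fin s)) (i : ℕ) (c : Fin s) : ℕ :=
  Nat.findGreatest (fun j => A.take j <:+ A.take i ++ [c]) (i + 1)

lemma dl_le (A : List (Fin s)) (i : ℕ) (c : Fin s) : dl A i c ≤ i + 1 := Nat.findGreatest_le _

lemma dl_suffix (A : List (Fin s)) (i : ℕ) (c : Fin s) : A.take (dl A i c) <:+ A.take i ++ [c] :=
  Nat.findGreatest_spec (P := fun j => A.take j <:+ A.take i ++ [c]) (Nat.zero_le _) (by simp)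

lemma dl_next (A : List (Fin s)) {i : ℕ} (h : i < A.length) : dl A i A[i] = i + 1 := by
  apply le_antisymm (dl_le _ _ _)
  apply Nat.le_findGreatest le_rfl
  rw [List.take_append_getElem h]

lemma suffix_iff (A : List (Fin s)) {i : ℕ} (h : i < A.length) (c : Fin s) (w : List (Fin s)) :
    A <:+ A.take i ++ c :: w ↔ A <:+ A.take (dl A i c) ++ w := by
  have e : A.take i ++ c :: w = (A.take i ++ [c]) ++ w := by simp
  rw [e]
  constructor
  · intro h1
    rcases List.suffix_or_suffix_of_suffix h1 (List.suffix_append _ w) with h2 | h2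
    · exact h2.trans (List.suffix_append _ _)
    · obtain ⟨v, hv⟩ := h2
      have h3 : v <:+ A.take i ++ [c] := by
        obtain ⟨u, hu⟩ := h1
        refine ⟨u, List.append_cancel_right (bs := w) ?_⟩
        rw [List.append_assoc, hv, hu]
      have h4 : A.take v.length = v := by rw [← hv]; simp
      have h5 : v.length ≤ i + 1 := by
        have := h3.length_le
        simp at this; omega
      have h6 : v.length ≤ dl A i c := Nat.le_findGreatest h5 (by rw [h4]; exact h3)
      have h7 : v <:+ A.take (dl A i c) := by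
        apply List.suffix_of_suffix_length_le h3 (dl_suffix A i c)
        have := dl_le A i c
        simp; omega
      obtain ⟨u, hu⟩ := h7
      exact ⟨u, by rw [← hu, List.append_assoc, hv]⟩
  · intro h1
    obtain ⟨u, hu⟩ := dl_suffix A i c
    rw [← hu, List.append_assoc]
    exact h1.trans (List.suffix_append _ _)

def fromT (A t w : List (Fin s)) : Prop :=
  A <:+ t ++ w ∧ ∀ u, u <+: w → u ≠ w → ¬ A <:+ t ++ u

noncomputable def U (p : Fin s → ℝ) (A : List (Fin s)) (i n : ℕ) : ℝ :=
  expect p n fun w => if fromT A (A.take i) w then 1 else 0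

lemma U_law (p : Fin s → ℝ) (A : List (Fin s)) (n : ℕ) : U p A 0 n = law p A n := by
  have : ∀ w, fromT A (A.take 0) w ↔ firstAt A w := fun w => by simp [fromT, firstAt]
  simp only [U, law, this]

lemma not_suffix (A : List (Fin s)) {i : ℕ} (h : i < A.length) : ¬ A <:+ A.take i := by
  intro h1
  have := h1.length_le
  simp at this; omega

lemma U_zero (p : Fin s → ℝ) (A : List (Fin s)) {i : ℕ} (h : i < A.length) : U p A i 0 = 0 := by
  simp [U, expect, fromT, not_suffix A h]

lemma U_top0 (p : Fin s → ℝ) (A : List (Fin s)) : U p A A.length 0 = 1 := by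
  simp [U, expect, fromT]

lemma expect_zero (p : Fin s → ℝ) (n : ℕ) : expect p n (fun _ => 0) = 0 := by
  induction n with
  | zero => rfl
  | succ n ih => simp [expect, ih]

lemma U_top (p : Fin s → ℝ) (A : List (Fin s)) (n : ℕ) : U p A A.length (n + 1) = 0 := by
  have : ∀ (c : Fin s) (w : List (Fin s)), ¬ fromT A A (c :: w) := fun c w h =>
    h.2 [] List.nil_prefix (by simp) (by simp)
  simp [U, expect, this, expect_zero]

lemma U_succ (p : Fin s → ℝ) (A : List (Fin s)) {i : ℕ} (h : i < A.length) (n : ℕ) :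
    U p A i (n + 1) = ∑ c, p c * U p A (dl A i c) n := by
  have : ∀ (c : Fin s) (w : List (Fin s)),
      fromT A (A.take i) (c :: w) ↔ fromT A (A.take (dl A i c)) w := by
    intro c w
    unfold fromT
    rw [suffix_iff A h]
    refine and_congr_right fun _ => ⟨fun H u hu hne => ?_, fun H u hu hne => ?_⟩
    · rw [← suffix_iff A h]
      exact H (c :: u) (by simpa using hu) (by simpa using hne)
    · cases u with
      | nil => simpa using not_suffix A h
      | cons d u =>
        obtain ⟨rfl, hu'⟩ := List.cons_prefix_cons.mp hu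
        rw [suffix_iff A h]
        exact H u hu' (by simpa using hne)
  simp only [U, expect, this]

lemma expect_nonneg {p : Fin s → ℝ} (hp : ∀ c, 0 ≤ p c) (n : ℕ) (g : List (Fin s) → ℝ)
    (hg : ∀ l, 0 ≤ g l) : 0 ≤ expect p n g := by
  induction n generalizing g with
  | zero => exact hg _
  | succ n ih => exact Finset.sum_nonneg fun c _ => mul_nonneg (hp c) (ih _ fun l => hg _)

lemma U_nonneg {p : Fin s → ℝ} (hp : ∀ c, 0 ≤ p c) (A : List (Fin s)) (i n : ℕ) :
    0 ≤ U p A i n := expect_nonneg hp _ _ fun l => by split_ifs <;> norm_num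

lemma U_sum_le {p : Fin s → ℝ} (hp : ∀ c, 0 ≤ p c) (h1 : ∑ c, p c = 1) (A : List (Fin s))
    (N : ℕ) : ∀ i ≤ A.length, ∑ n ∈ Finset.range N, U p A i n ≤ 1 := by
  induction N with
  | zero => simp
  | succ N ih =>
    intro i hi
    rw [Finset.sum_range_succ']
    rcases hi.lt_or_eq with h | rfl
    · simp only [U_succ p A h, U_zero p A h, add_zero]
      rw [Finset.sum_comm, ← h1]
      refine Finset.sum_le_sum fun c _ => ?_
      rw [← Finset.mul_sum]
      exact mul_le_of_le_one_right (hp c) (ih _ (by have := dl_le A i c; omega))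
    · simp [U_top, U_top0]

lemma U_summable {p : Fin s → ℝ} (hp : ∀ c, 0 ≤ p c) (h1 : ∑ c, p c = 1) (A : List (Fin s))
    {i : ℕ} (hi : i ≤ A.length) : Summable (U p A i) :=
  summable_of_sum_range_le (U_nonneg hp A i) fun N => U_sum_le hp h1 A N i hi

lemma U_tsum {p : Fin s → ℝ} {q : ℝ} (hq : 0 < q) (hq1 : q ≤ 1) (hp : ∀ c, q ≤ p c)
    (h1 : ∑ c, p c = 1) (A : List (Fin s)) {i : ℕ} (hi : i ≤ A.length) :
    ∑' n, U p A i n = 1 := by
  have hp0 : ∀ c, 0 ≤ p c := fun c => hq.le.trans (hp c)
  have := maxp (X := Fin (A.length + 1)) (fun x => 1 - ∑' n, U p A x n) (fun x => x) A.length hq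
    hq1 le_rfl (by
      intro x M hM
      rcases (Nat.lt_succ_iff.mp x.2).lt_or_eq with h | h
      · refine Or.inr ⟨h, ⟨x + 1, by omega⟩, rfl, ?_⟩
        have hd : ∀ c, dl A x c ≤ A.length := fun c => by have := dl_le A x c; omega
        have e : 1 - ∑' n, U p A x n = ∑ c, p c * (1 - ∑' n, U p A (dl A x c) n) := by
          rw [(U_summable hp0 h1 A h.le).tsum_eq_zero_add, U_zero p A h, zero_add]
          simp only [U_succ p A h]
          rw [Summable.tsum_finsetSum fun c _ => (U_summable hp0 h1 A (hd c)).mul_left _]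
          simp only [tsum_mul_left, mul_sub, Finset.sum_sub_distrib, mul_one, h1]
        have := avg hq.le hp h1 (fun c => 1 - ∑' n, U p A (dl A x c) n)
          (fun c => hM ⟨dl A x c, by have := hd c; omega⟩) A[(x : ℕ)]
        simp only [dl_next A h] at this
        simp only [e, zero_add]
        exact this
      · left
        simp only [h]
        rw [(U_summable hp0 h1 A le_rfl).tsum_eq_zero_add]
        simp [U_top, U_top0]) ⟨i, by omega⟩
  simp only [mul_zero, zero_div, abs_nonpos_iff] at this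
  linarith

noncomputable def V (p : Fin s → ℝ) (B : List (Fin s)) (j m : ℕ) : ℝ :=
  ∑' n, U p B j (m + 1 + n) + U p B j m / 2

lemma tail_summable {p : Fin s → ℝ} (hp : ∀ c, 0 ≤ p c) (h1 : ∑ c, p c = 1) (B : List (Fin s))
    {j : ℕ} (hj : j ≤ B.length) (m : ℕ) : Summable fun n => U p B j (m + 1 + n) := by
  have := (summable_nat_add_iff (m + 1)).mpr (U_summable hp h1 B hj)
  simpa only [add_comm] using this

lemma V_succ {p : Fin s → ℝ} (hp : ∀ c, 0 ≤ p c) (h1 : ∑ c, p c = 1) (B : List (Fin s))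
    {j : ℕ} (h : j < B.length) (m : ℕ) : V p B j (m + 1) = ∑ c, p c * V p B (dl B j c) m := by
  have hd : ∀ c, dl B j c ≤ B.length := fun c => by have := dl_le B j c; omega
  have e : ∀ n, U p B j (m + 1 + 1 + n) = ∑ c, p c * U p B (dl B j c) (m + 1 + n) := fun n => by
    rw [show m + 1 + 1 + n = m + 1 + n + 1 by omega, U_succ p B h]
  simp only [V, e, U_succ p B h]
  rw [Summable.tsum_finsetSum fun c _ => (tail_summable hp h1 B (hd c) m).mul_left _]
  simp only [tsum_mul_left, mul_add, Finset.sum_add_distrib, Finset.sum_div, mul_div_assoc]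

lemma V_top (p : Fin s → ℝ) (B : List (Fin s)) (m : ℕ) :
    V p B B.length m = U p B B.length m / 2 := by
  have e : ∀ n, U p B B.length (m + 1 + n) = 0 := fun n => by
    rw [show m + 1 + n = m + n + 1 by omega, U_top]
  simp [V, e]

lemma V_bound {p : Fin s → ℝ} (hp : ∀ c, 0 ≤ p c) (h1 : ∑ c, p c = 1) (B : List (Fin s))
    {j : ℕ} (hj : j ≤ B.length) (m : ℕ) : 0 ≤ V p B j m ∧ V p B j m ≤ 2 := by
  have hs := U_summable hp h1 B hj
  have a1 : 0 ≤ ∑' n, U p B j (m + 1 + n) := tsum_nonneg fun n => U_nonneg hp B j _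
  have a2 := U_nonneg hp B j m
  have a3 : ∑' n, U p B j n ≤ 1 :=
    Real.tsum_le_of_sum_range_le (U_nonneg hp B j) fun N => U_sum_le hp h1 B N j hj
  have a4 := hs.sum_add_tsum_nat_add (m + 1)
  have a5 : 0 ≤ ∑ n ∈ Finset.range m, U p B j n := Finset.sum_nonneg fun n _ => U_nonneg hp B j n
  rw [Finset.sum_range_succ] at a4
  simp only [add_comm _ (m + 1)] at a4
  unfold V
  constructor <;> linarith

noncomputable def R (p : Fin s → ℝ) (A B : List (Fin s)) (i j : ℕ) : ℝ :=
  ∑' m, U p A i m * V p B j m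

lemma R_summable {p : Fin s → ℝ} (hp : ∀ c, 0 ≤ p c) (h1 : ∑ c, p c = 1) (A B : List (Fin s))
    {i j : ℕ} (hi : i ≤ A.length) (hj : j ≤ B.length) :
    Summable fun m => U p A i m * V p B j m :=
  Summable.of_nonneg_of_le (fun m => mul_nonneg (U_nonneg hp A i m) (V_bound hp h1 B hj m).1)
    (fun m => mul_le_mul_of_nonneg_left (V_bound hp h1 B hj m).2 (U_nonneg hp A i m))
    ((U_summable hp h1 A hi).mul_right 2)

theorem approx {p : Fin s → ℝ} {q η : ℝ} (hq : 0 < q) (hq1 : q ≤ 1) (hp : ∀ c, q ≤ p c)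
    (h1 : ∑ c, p c = 1) (hη : 0 ≤ η) (A B : List (Fin s)) (h : ℕ → ℕ → ℝ)
    (b1 : ∀ j < B.length, h A.length j = 1) (b2 : h A.length B.length = 1 / 2)
    (b3 : ∀ i < A.length, h i B.length = 0)
    (hr : ∀ i < A.length, ∀ j < B.length,
      |h i j - ∑ c, p c * ∑ d, p d * h (dl A i c) (dl B j d)| ≤ η) :
    |beats p A B - h 0 0| ≤ A.length * η / q ^ A.length := by
  have hp0 : ∀ c, 0 ≤ p c := fun c => hq.le.trans (hp c)
  have e0 : beats p A B = R p A B 0 0 := by simp only [beats, R, V, U_law]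
  rw [e0]
  refine maxp (X := Fin (A.length + 1) × Fin (B.length + 1))
    (fun x => R p A B x.1 x.2 - h x.1 x.2) (fun x => x.1) A.length hq hq1 hη ?_ (0, 0)
  rintro ⟨x, y⟩ M hM
  have hy' := Nat.lt_succ_iff.mp y.2
  rcases (Nat.lt_succ_iff.mp x.2).lt_or_eq with hx | hx
  · rcases hy'.lt_or_eq with hy | hy
    · right
      have hd : ∀ c, dl A x c ≤ A.length := fun c => by have := dl_le A x c; omega
      have hd' : ∀ c, dl B y c ≤ B.length := fun c => by have := dl_le B y c; omega
      have e : R p A B x y = ∑ c, p c * ∑ d, p d * R p A B (dl A x c) (dl B y d) := by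
        unfold R
        rw [(R_summable hp0 h1 A B hx.le hy').tsum_eq_zero_add, U_zero p A hx, zero_mul, zero_add]
        have : ∀ m, U p A x (m + 1) * V p B y (m + 1) = ∑ c, ∑ d,
            p c * (p d * (U p A (dl A x c) m * V p B (dl B y d) m)) := fun m => by
          rw [U_succ p A hx, V_succ hp0 h1 B hy, Finset.sum_mul_sum]
          refine Finset.sum_congr rfl fun c _ => Finset.sum_congr rfl fun d _ => by ring
        simp only [this]
        rw [Summable.tsum_finsetSum fun c _ => summable_sum fun d _ =>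
          ((R_summable hp0 h1 A B (hd c) (hd' d)).mul_left _).mul_left _]
        refine Finset.sum_congr rfl fun c _ => ?_
        rw [Summable.tsum_finsetSum fun d _ =>
          ((R_summable hp0 h1 A B (hd c) (hd' d)).mul_left _).mul_left _]
        simp only [tsum_mul_left, Finset.mul_sum]
      let g : Fin s → Fin s → ℝ := fun c d =>
        R p A B (dl A x c) (dl B y d) - h (dl A x c) (dl B y d)
      have hg : ∀ c d, |g c d| ≤ M := fun c d =>
        hM (⟨dl A x c, by have := hd c; omega⟩, ⟨dl B y d, by have := hd' d; omega⟩)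
      have : Nonempty (Fin s) := ⟨A[(x : ℕ)]⟩
      obtain ⟨d0, hd0⟩ := Finite.exists_max fun d => |g A[(x : ℕ)] d|
      refine ⟨hx, (⟨x + 1, by omega⟩, ⟨dl B y d0, by have := hd' d0; omega⟩), rfl, ?_⟩
      have a1 := avg hq.le hp h1 (fun c => ∑ d, p d * g c d) (M := M) (fun c => by
        have := avg le_rfl hp0 h1 (g c) (hg c) d0
        simpa using this) A[(x : ℕ)]
      have a2 := avg le_rfl hp0 h1 (g A[(x : ℕ)]) hd0 d0
      simp only [zero_mul, sub_zero, one_mul, zero_add] at a2
      have a3 := mul_le_mul_of_nonneg_left a2 hq.le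
      have a4 : g A[(x : ℕ)] d0 = R p A B (x + 1) (dl B y d0) - h (x + 1) (dl B y d0) := by
        simp only [g, dl_next A hx]
      have a5 := hr x hx y hy
      have a6 : R p A B x y - h x y = ∑ c, p c * ∑ d, p d * g c d
          - (h x y - ∑ c, p c * ∑ d, p d * h (dl A x c) (dl B y d)) := by
        rw [e]
        simp only [g, mul_sub, Finset.sum_sub_distrib]
        ring
      show |R p A B x y - h x y| ≤ η + q * |R p A B (x + 1) (dl B y d0) - h (x + 1) (dl B y d0)|
        + (1 - q) * M
      rw [a6, ← a4]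
      refine (abs_sub _ _).trans ?_
      linarith
    · left
      show R p A B x y - h x y = 0
      rw [hy, b3 x hx, sub_zero]
      unfold R
      rw [(R_summable hp0 h1 A B hx.le le_rfl).tsum_eq_zero_add]
      simp [U_zero p A hx, V_top, U_top]
  · left
    show R p A B x y - h x y = 0
    rw [hx]
    unfold R
    rw [(R_summable hp0 h1 A B le_rfl hy').tsum_eq_zero_add]
    simp only [U_top, U_top0, zero_mul, tsum_zero, add_zero, one_mul]
    rcases hy'.lt_or_eq with hy | hy
    · have a1 := U_tsum hq hq1 hp h1 B hy'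
      rw [(U_summable hp0 h1 B hy').tsum_eq_zero_add, U_zero p B hy, zero_add] at a1
      rw [b1 y hy, V, U_zero p B hy]
      simp only [zero_add, add_comm 1, a1]
      norm_num
    · rw [hy, b2, V_top, U_top0]; norm_num

end Pool.Agent.H80.Race
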