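import Mathlib

namespace Pool.Agent.H80.Race

open Classical

variable {s : ℕ}

noncomputable def expect (p : Fin s → ℝ) : ℕ → (List (Fin s) → ℝ) → ℝ
  | 0, g => g []
  | n + 1, g => ∑ c, p c * expect p n fun l => g (c :: l)

def firstAt (A l : List (Fin s)) : Prop := A <:+ l ∧ ∀ t, t <+: l → t ≠ l → ¬ A <:+ t

noncomputable def law (p : Fin s → ℝ) (A : List (Fin s)) (n : ℕ) : ℝ :=
  expect p n fun l => if firstAt A l then 1 else 0

noncomputable def beats (p : Fin s → ℝ) (A B : List (Fin s)) : ℝ :=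
  ∑' m, law p A m * (∑' n, law p B (m + 1 + n) + law p B m / 2)

end Pool.Agent.H80.Race
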