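import Mathlib

namespace Pool.Agent.H80.RatPos

open Polynomial

/-- `Σ`: finite sums `∑ a_j h_j²` with `a_j` nonnegative rationals. -/
def Sig : Set ℚ[X] :=
  {f | ∃ (n : ℕ) (a : Fin n → ℚ) (h : Fin n → ℚ[X]), (∀ j, 0 ≤ a j) ∧ f = ∑ j, C (a j) * h j ^ 2}

/-- The preordering `T_S` generated by the finite set `S`: sums `∑_E σ_E ∏_{g ∈ E} g` over the
subsets `E` of `S`, with `σ_E ∈ Σ`. -/
def T (S : Finset ℚ[X]) : Set ℚ[X] :=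
  {f | ∃ σ : Finset ℚ[X] → ℚ[X], (∀ E, σ E ∈ Sig) ∧ f = ∑ E ∈ S.powerset, σ E * ∏ g ∈ E, g}

/-- `Pos(K)`: rational polynomials that are nonnegative on `K`. -/
def Pos (K : Set ℝ) : Set ℚ[X] := {f | ∀ t ∈ K, 0 ≤ aeval t f}

end Pool.Agent.H80.RatPos
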