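import Mathlib
import Pool.Agent.H80.RatPosDefs

namespace Pool.Agent.H80.RatPos

open Polynomial Set

lemma Sig.add {f g : ℚ[X]} (hf : f ∈ Sig) (hg : g ∈ Sig) : f + g ∈ Sig := by
  obtain ⟨n, a, h, ha, rfl⟩ := hf
  obtain ⟨m, b, k, hb, rfl⟩ := hg
  refine ⟨n + m, Fin.append a b, Fin.append h k, fun j => ?_, ?_⟩
  · refine Fin.addCases (fun i => ?_) (fun i => ?_) j <;> simp [ha, hb]
  · simp [Fin.sum_univ_add]

lemma Sig.zero : (0 : ℚ[X]) ∈ Sig := ⟨0, Fin.elim0, Fin.elim0, fun j => j.elim0, by simp⟩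

lemma Sig.basic {a : ℚ} (ha : 0 ≤ a) (h : ℚ[X]) : C a * h ^ 2 ∈ Sig :=
  ⟨1, fun _ => a, fun _ => h, fun _ => ha, by simp⟩

lemma Sig.sum {ι : Type} (s : Finset ι) {f : ι → ℚ[X]} (h : ∀ i ∈ s, f i ∈ Sig) :
    ∑ i ∈ s, f i ∈ Sig :=
  Finset.sum_induction f (· ∈ Sig) (fun _ _ => Sig.add) Sig.zero h

lemma Sig.mul {f g : ℚ[X]} (hf : f ∈ Sig) (hg : g ∈ Sig) : f * g ∈ Sig := by
  obtain ⟨n, a, h, ha, rfl⟩ := hf
  obtain ⟨m, b, k, hb, rfl⟩ := hg
  rw [Finset.sum_mul_sum]
  refine Sig.sum _ fun i _ => Sig.sum _ fun j _ => ?_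
  convert Sig.basic (mul_nonneg (ha i) (hb j)) (h i * k j) using 1
  rw [C_mul]; ring

lemma Sig.sq (h : ℚ[X]) : h ^ 2 ∈ Sig := by simpa using Sig.basic zero_le_one h

lemma Sig.nonneg {f : ℚ[X]} (hf : f ∈ Sig) (t : ℝ) : 0 ≤ aeval t f := by
  obtain ⟨n, a, h, ha, rfl⟩ := hf
  rw [map_sum]
  refine Finset.sum_nonneg fun j _ => ?_
  simp only [map_mul, aeval_C, map_pow, eq_ratCast]
  exact mul_nonneg (by exact_mod_cast ha j) (sq_nonneg _)

noncomputable def P (S : Finset ℚ[X]) : AddSubmonoid ℚ[X] :=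
  AddSubmonoid.closure {f | ∃ σ ∈ Sig, ∃ E ⊆ S, f = σ * ∏ g ∈ E, g}

variable {S : Finset ℚ[X]}

lemma P_sub {f : ℚ[X]} (hf : f ∈ P S) : f ∈ T S := by
  classical
  induction hf using AddSubmonoid.closure_induction with
  | mem f hf =>
    obtain ⟨σ, hσ, E, hE, rfl⟩ := hf
    refine ⟨fun F => if F = E then σ else 0, fun F => ?_, ?_⟩
    · dsimp only; split_ifs; exacts [hσ, Sig.zero]
    · simp [ite_mul, hE]
  | zero => exact ⟨fun _ => 0, fun _ => Sig.zero, by simp⟩
  | add f g _ _ hf hg =>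
    obtain ⟨σ, h1, rfl⟩ := hf
    obtain ⟨τ, h2, rfl⟩ := hg
    exact ⟨fun E => σ E + τ E, fun E => Sig.add (h1 E) (h2 E), by
      simp [add_mul, Finset.sum_add_distrib]⟩

lemma T_pos {K : Set ℝ} (hS : ∀ g ∈ S, g ∈ Pos K) {f : ℚ[X]} (hf : f ∈ T S) : f ∈ Pos K := by
  obtain ⟨σ, h1, rfl⟩ := hf
  intro t ht
  rw [map_sum]
  refine Finset.sum_nonneg fun E hE => ?_
  rw [map_mul, map_prod]
  exact mul_nonneg (Sig.nonneg (h1 E) t)
    (Finset.prod_nonneg fun g hg => hS g (Finset.mem_powerset.1 hE hg) t ht)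

lemma P_sig {f : ℚ[X]} (hf : f ∈ Sig) : f ∈ P S :=
  AddSubmonoid.subset_closure ⟨f, hf, ∅, by simp, by simp⟩

lemma P_sig_mul {σ f : ℚ[X]} (hσ : σ ∈ Sig) (hf : f ∈ P S) : σ * f ∈ P S := by
  induction hf using AddSubmonoid.closure_induction with
  | mem f hf =>
    obtain ⟨τ, hτ, E, hE, rfl⟩ := hf
    exact AddSubmonoid.subset_closure ⟨σ * τ, Sig.mul hσ hτ, E, hE, by ring⟩
  | zero => simp
  | add f g _ _ hf hg => rw [mul_add]; exact add_mem hf hg

lemma P_gen_mul {q f : ℚ[X]} (hq : q ∈ S) (hf : f ∈ P S) : q * f ∈ P S := by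
  classical
  induction hf using AddSubmonoid.closure_induction with
  | mem f hf =>
    obtain ⟨τ, hτ, E, hE, rfl⟩ := hf
    by_cases h : q ∈ E
    · refine AddSubmonoid.subset_closure ⟨q ^ 2 * τ, Sig.mul (Sig.sq q) hτ, E.erase q,
        (Finset.erase_subset _ _).trans hE, ?_⟩
      rw [← Finset.mul_prod_erase E _ h]; ring
    · refine AddSubmonoid.subset_closure ⟨τ, hτ, insert q E, Finset.insert_subset hq hE, ?_⟩
      rw [Finset.prod_insert h]; ring
  | zero => simp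
  | add f g _ _ hf hg => rw [mul_add]; exact add_mem hf hg

lemma P_mul {f g : ℚ[X]} (hf : f ∈ P S) (hg : g ∈ P S) : f * g ∈ P S := by
  classical
  induction hf using AddSubmonoid.closure_induction with
  | mem f hf =>
    obtain ⟨τ, hτ, E, hE, rfl⟩ := hf
    rw [mul_assoc]
    refine P_sig_mul hτ ?_
    induction E using Finset.induction_on with
    | empty => simpa using hg
    | insert q E hq ih =>
      rw [Finset.prod_insert hq, mul_assoc]
      exact P_gen_mul (hE (by simp)) (ih ((Finset.subset_insert _ _).trans hE))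
  | zero => simp
  | add f g _ _ hf hg => rw [add_mul]; exact add_mem hf hg

lemma P_C {a : ℚ} (ha : 0 ≤ a) : C a ∈ P S := by simpa using P_sig (Sig.basic ha 1)

lemma P_gen {q : ℚ[X]} (hq : q ∈ S) : q ∈ P S := by simpa using P_gen_mul hq (P_C zero_le_one)

lemma P_sq (h : ℚ[X]) : h ^ 2 ∈ P S := P_sig (Sig.sq h)

lemma P_pow {f : ℚ[X]} (hf : f ∈ P S) (n : ℕ) : f ^ n ∈ P S := by
  induction n with
  | zero => simpa using P_C zero_le_one
  | succ n ih => rw [pow_succ]; exact P_mul ih hf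

def r (n i k : ℕ) : ℚ := (i.choose k : ℚ) / n.choose k

lemma pow_expand {a b : ℚ[X]} (hab : a + b = 1) {n k : ℕ} (hk : k ≤ n) :
    a ^ k = ∑ i ∈ Finset.range (n + 1), C (r n i k * n.choose i) * (a ^ i * b ^ (n - i)) := by
  obtain ⟨m, rfl⟩ := Nat.exists_eq_add_of_le hk
  rw [add_assoc, Finset.sum_range_add, Finset.sum_eq_zero (s := Finset.range k) (fun i hi => by
    simp [r, Nat.choose_eq_zero_of_lt (Finset.mem_range.1 hi)]), zero_add]
  calc a ^ k = a ^ k * (a + b) ^ m := by rw [hab, one_pow, mul_one]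
    _ = _ := by
      rw [add_pow, Finset.mul_sum]
      refine Finset.sum_congr rfl fun j hj => ?_
      have hj' : j ≤ m := Nat.lt_succ_iff.1 (Finset.mem_range.1 hj)
      have h1 := Nat.choose_mul (n := k + m) (k := k + j) (s := k) (by omega)
      have h2 : r (k + m) (k + j) k * (k + m).choose (k + j) = m.choose j := by
        have h0 : ((k + m).choose k : ℚ) ≠ 0 := by
          exact_mod_cast (Nat.choose_pos (by omega)).ne'
        rw [r, div_mul_eq_mul_div, div_eq_iff h0]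
        simp only [Nat.add_sub_cancel_left] at h1
        have := congrArg (Nat.cast : ℕ → ℚ) h1
        push_cast at this
        linarith
      rw [h2, show k + m - (k + j) = m - j by omega, map_natCast]; ring

lemma r_est {n i d : ℕ} (hi : i ≤ n) (hd : 2 * d ≤ n) (hn : 0 < n) : ∀ k ≤ d,
    |(r n i k : ℝ) - ((i : ℝ) / n) ^ k| ≤ k * (2 * d / n) := by
  intro k
  have hn' : (0 : ℝ) < n := by exact_mod_cast hn
  have hi' : (i : ℝ) ≤ n := by exact_mod_cast hi
  have hd' : 2 * (d : ℝ) ≤ n := by exact_mod_cast hd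
  have hi0 : (0 : ℝ) ≤ i := Nat.cast_nonneg _
  induction k with
  | zero => simp [r]
  | succ k ih =>
    intro hk
    have ih := ih (by omega)
    have hk' : (k : ℝ) + 1 ≤ d := by exact_mod_cast hk
    have hk0 : (0 : ℝ) ≤ k := Nat.cast_nonneg _
    have hnk : (0 : ℝ) < n - k := by linarith
    set ρ : ℝ := ((i - k : ℕ) : ℝ) / (n - k) with hρ
    have h1 : (r n i (k + 1) : ℝ) = r n i k * ρ := by
      have e1 := congrArg (Nat.cast : ℕ → ℝ) (Nat.choose_succ_right_eq i k)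
      have e2 := congrArg (Nat.cast : ℕ → ℝ) (Nat.choose_succ_right_eq n k)
      rw [Nat.cast_mul, Nat.cast_mul] at e1 e2
      rw [Nat.cast_sub (by omega : k ≤ n)] at e2
      have p1 : (0 : ℝ) < n.choose k := by exact_mod_cast Nat.choose_pos (by omega)
      have p2 : (0 : ℝ) < n.choose (k + 1) := by exact_mod_cast Nat.choose_pos (by omega)
      have p3 : (0 : ℝ) < ((k + 1 : ℕ) : ℝ) := by positivity
      simp only [r, hρ, Rat.cast_div, Rat.cast_natCast]
      rw [div_mul_div_comm, ← e1, ← e2]; field_simp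
    have h2 : 0 ≤ ρ ∧ ρ ≤ 1 ∧ |ρ - i / n| ≤ 2 * d / n := by
      have hb : (k : ℝ) / (n - k) ≤ 2 * d / n := by
        rw [div_le_div_iff₀ hnk hn']; nlinarith
      rcases le_total k i with h | h
      · rw [hρ, Nat.cast_sub h]
        have h' : (k : ℝ) ≤ i := by exact_mod_cast h
        refine ⟨div_nonneg (by linarith) hnk.le, (div_le_one hnk).2 (by linarith), le_trans ?_ hb⟩
        have : ((i : ℝ) - k) / (n - k) - i / n = -(k / (n - k) * ((n - i) / n)) := by
          field_simp; ring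
        rw [this, abs_neg, abs_of_nonneg (mul_nonneg (by positivity) (div_nonneg (by linarith) hn'.le))]
        exact mul_le_of_le_one_right (by positivity) ((div_le_one hn').2 (by linarith))
      · rw [hρ, Nat.sub_eq_zero_of_le h]
        have h' : (i : ℝ) ≤ k := by exact_mod_cast h
        simp only [Nat.cast_zero, zero_div, le_refl, zero_le_one, zero_sub, abs_neg, true_and]
        rw [abs_of_nonneg (by positivity)]
        gcongr; linarith
    have h3 : 0 ≤ ((i : ℝ) / n) ^ k := by positivity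
    have h4 : ((i : ℝ) / n) ^ k ≤ 1 := pow_le_one₀ (by positivity) ((div_le_one hn').2 hi')
    have : (r n i (k + 1) : ℝ) - ((i : ℝ) / n) ^ (k + 1) =
        (r n i k - ((i : ℝ) / n) ^ k) * ρ + ((i : ℝ) / n) ^ k * (ρ - i / n) := by rw [h1]; ring
    rw [this]
    refine (abs_add_le _ _).trans ?_
    rw [abs_mul, abs_mul, abs_of_nonneg h2.1, abs_of_nonneg h3]
    push_cast
    nlinarith [mul_le_of_le_one_right (abs_nonneg ((r n i k : ℝ) - ((i : ℝ) / n) ^ k)) h2.2.1,
      mul_le_of_le_one_left (abs_nonneg (ρ - i / n)) h4, h2.2.2]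

lemma polya {a b : ℚ[X]} (hab : a + b = 1) (ha : a ∈ P S) (hb : b ∈ P S) (G : ℚ[X])
    (hG : ∀ t ∈ Icc (0 : ℝ) 1, 0 < aeval t G) : G.comp a ∈ P S := by
  obtain ⟨t0, ht0, hmin⟩ := isCompact_Icc.exists_isMinOn ⟨0, left_mem_Icc.2 zero_le_one⟩
    (G.continuous_aeval (A := ℝ)).continuousOn
  have hε := hG t0 ht0
  set ε := aeval t0 G
  set d := G.natDegree
  set M : ℝ := ∑ k ∈ Finset.range (d + 1), |(G.coeff k : ℝ)| * k with hM
  have hM0 : 0 ≤ M := Finset.sum_nonneg fun k _ => by positivity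
  obtain ⟨n, hn⟩ := exists_nat_gt (2 * d + M * (2 * d) / ε)
  have h0 : 0 ≤ M * (2 * d) / ε := by positivity
  have hd0 : (0 : ℝ) ≤ d := Nat.cast_nonneg _
  have hn0 : (0 : ℝ) < n := by linarith
  have hd : 2 * d ≤ n := by exact_mod_cast (by linarith : (2 * d : ℝ) ≤ n)
  have hM1 : M * (2 * d / n) < ε := by
    have : M * (2 * d) / ε < n := by linarith
    rw [div_lt_iff₀ hε] at this
    rw [← mul_div_assoc, div_lt_iff₀ hn0]; linarith
  have : G.comp a = ∑ i ∈ Finset.range (n + 1),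
      C ((∑ k ∈ Finset.range (d + 1), G.coeff k * r n i k) * n.choose i) * (a ^ i * b ^ (n - i)) := by
    rw [comp, eval₂_eq_sum_range]
    rw [Finset.sum_congr rfl fun k hk => by
      rw [pow_expand hab (n := n) (k := k) (by have := Finset.mem_range.1 hk; omega), Finset.mul_sum]]
    rw [Finset.sum_comm]
    refine Finset.sum_congr rfl fun i _ => ?_
    simp only [Finset.sum_mul, map_sum, map_mul]
    exact Finset.sum_congr rfl fun k _ => by ring
  rw [this]
  refine sum_mem fun i hi => P_mul (P_C (mul_nonneg ?_ (by positivity))) (P_mul (P_pow ha _) (P_pow hb _))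
  have hi' : i ≤ n := Nat.lt_succ_iff.1 (Finset.mem_range.1 hi)
  have h1 : ε ≤ aeval ((i : ℝ) / n) G := hmin (show (i : ℝ) / n ∈ Icc 0 1 from
    ⟨by positivity, (div_le_one hn0).2 (by exact_mod_cast hi')⟩)
  rw [aeval_eq_sum_range] at h1
  have h2 : ∑ k ∈ Finset.range (d + 1), G.coeff k • ((i : ℝ) / n) ^ k - M * (2 * d / n) ≤
      ∑ k ∈ Finset.range (d + 1), (G.coeff k : ℝ) * r n i k := by
    rw [hM, Finset.sum_mul, ← Finset.sum_sub_distrib]
    refine Finset.sum_le_sum fun k hk => ?_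
    have h3 := r_est hi' hd (by exact_mod_cast hn0) k (Nat.lt_succ_iff.1 (Finset.mem_range.1 hk))
    have h4 := neg_abs_le ((G.coeff k : ℝ) * ((r n i k : ℝ) - ((i : ℝ) / n) ^ k))
    rw [abs_mul] at h4
    have h5 := mul_le_mul_of_nonneg_left h3 (abs_nonneg (G.coeff k : ℝ))
    rw [Rat.smul_def]; nlinarith
  have h3 : (0 : ℝ) ≤ ((∑ k ∈ Finset.range (d + 1), G.coeff k * r n i k : ℚ) : ℝ) := by
    push_cast; linarith
  exact_mod_cast h3

lemma strict {l u : ℚ} (hlu : l < u) (hl : X - C l ∈ P S) (hu : C u - X ∈ P S) (g : ℚ[X])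
    (hg : ∀ t ∈ Icc (l : ℝ) u, 0 < aeval t g) : g ∈ P S := by
  have h0 : 0 < u - l := by linarith
  have h1 : C (u - l) * C (u - l)⁻¹ = (1 : ℚ[X]) := by rw [← C_mul, mul_inv_cancel₀ h0.ne', C_1]
  have := polya (a := C (u - l)⁻¹ * (X - C l)) (b := C (u - l)⁻¹ * (C u - X))
    (by rw [C_sub] at h1; linear_combination h1) (P_mul (P_C (by positivity)) hl)
    (P_mul (P_C (by positivity)) hu) (g.comp (C l + C (u - l) * X)) (by
      intro t ht
      rw [aeval_comp]
      refine hg _ ?_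
      have : (0 : ℝ) < u - l := by exact_mod_cast h0
      simp only [map_add, aeval_C, eq_ratCast, map_mul, aeval_X, Rat.cast_sub]
      constructor <;> nlinarith [ht.1, ht.2])
  rw [comp_assoc] at this
  convert this
  simp only [add_comp, C_comp, mul_comp, X_comp]
  have : C l + C (u - l) * (C (u - l)⁻¹ * (X - C l)) = X := by linear_combination (X - C l) * h1
  rw [this, comp_X]

lemma quot_pos {α β : ℝ} (hαβ : α < β) {q f : ℚ[X]} (hq0 : q ≠ 0) (hq : q ∈ Pos (Icc α β))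
    (h : q * f ∈ Pos (Icc α β)) : f ∈ Pos (Icc α β) := by
  have hc : IsClosed {t : ℝ | 0 ≤ aeval t f} := isClosed_le continuous_const f.continuous_aeval
  have hZ : ((q.rootSet ℝ)ᶜ).Nonempty ∧ Dense ((q.rootSet ℝ)ᶜ) := by
    have := (q.rootSet_finite ℝ).countable.dense_compl ℝ
    exact ⟨this.nonempty, this⟩
  have h1 : Ioo α β ∩ (q.rootSet ℝ)ᶜ ⊆ {t : ℝ | 0 ≤ aeval t f} := by
    rintro t ⟨ht, ht2⟩
    have h2 := h t (Ioo_subset_Icc_self ht)
    have h3 : aeval t q ≠ 0 := fun h0 => ht2 (mem_rootSet.2 ⟨hq0, h0⟩)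
    rw [map_mul] at h2
    exact nonneg_of_mul_nonneg_right h2 (lt_of_le_of_ne (hq t (Ioo_subset_Icc_self ht)) h3.symm) 
  have h2 : Ioo α β ⊆ {t : ℝ | 0 ≤ aeval t f} :=
    (hZ.2.open_subset_closure_inter isOpen_Ioo).trans (closure_minimal h1 hc)
  have h3 := closure_minimal h2 hc
  rw [closure_Ioo hαβ.ne] at h3
  exact h3

theorem main {α β : ℝ} (hαβ : α < β) (hS : ∀ g ∈ S, g ∈ Pos (Icc α β))
    (hl : ∀ δ > 0, ∃ l : ℚ, α - δ < l ∧ X - C l ∈ P S)
    (hu : ∀ δ > 0, ∃ u : ℚ, u < β + δ ∧ C u - X ∈ P S)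
    (hα : ∃ q ∈ S, Irreducible q ∧ aeval α q = 0) (hβ : ∃ q ∈ S, Irreducible q ∧ aeval β q = 0) :
    Pos (Icc α β) = T S := by
  refine subset_antisymm (fun f hf => P_sub ?_) fun f => T_pos hS
  induction hn : f.natDegree using Nat.strong_induction_on generalizing f with
  | _ n ih =>
  by_cases hf0 : f = 0
  · rw [hf0]; exact zero_mem _
  have red : ∀ q ∈ P S, 0 < q.natDegree → q ∣ f → f ∈ P S := by
    rintro q hq hd ⟨g, rfl⟩
    have hq0 : q ≠ 0 := left_ne_zero_of_mul hf0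
    refine P_mul hq (ih g.natDegree ?_ g (quot_pos hαβ hq0 (T_pos hS (P_sub hq)) hf) rfl)
    rw [← hn, natDegree_mul hq0 (right_ne_zero_of_mul hf0)]; omega
  have endp : ∀ c : ℝ, aeval c f = 0 → (∃ q ∈ S, Irreducible q ∧ aeval c q = 0) → f ∈ P S := by
    rintro c hc ⟨q, hq, hi, h0⟩
    refine red q (P_gen hq) hi.natDegree_pos ?_
    by_contra hnd
    obtain ⟨a, b, hab⟩ := hi.coprime_iff_not_dvd.2 hnd
    have := congrArg (aeval c) hab
    simp [hc, h0] at this
  by_cases hr : ∃ t ∈ Icc α β, aeval t f = 0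
  · obtain ⟨t, ht, h0⟩ := hr
    rcases ht.1.eq_or_lt with rfl | h1
    · exact endp _ h0 hα
    rcases ht.2.eq_or_lt with rfl | h2
    · exact endp _ h0 hβ
    have hint : IsIntegral ℚ t := (show IsAlgebraic ℚ t from ⟨f, hf0, h0⟩).isIntegral
    obtain ⟨g, hg⟩ := minpoly.dvd ℚ t h0
    have hmin : IsLocalMin (fun x : ℝ => aeval x f) t := by
      filter_upwards [Icc_mem_nhds h1 h2] with x hx
      rw [h0]; exact hf x hx
    have hd := hmin.hasDerivAt_eq_zero (f.hasDerivAt_aeval t)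
    rw [hg, derivative_mul, map_add, map_mul, map_mul, minpoly.aeval, zero_mul, add_zero] at hd
    have h3 := (mul_eq_zero.1 hd).resolve_left
      ((minpoly.irreducible hint).separable.aeval_derivative_ne_zero (minpoly.aeval ℚ t))
    refine red (minpoly ℚ t ^ 2) (P_sq _) ?_ ?_
    · rw [natDegree_pow]; have := minpoly.natDegree_pos hint; omega
    · rw [hg, sq]; exact mul_dvd_mul_left _ (minpoly.dvd ℚ t h3)
  · push Not at hr
    obtain ⟨δ, hδ, h1⟩ := isCompact_Icc.exists_cthickening_subset_open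
      (isOpen_lt continuous_const f.continuous_aeval : IsOpen {t : ℝ | 0 < aeval t f})
      (fun t ht => lt_of_le_of_ne (hf t ht) (hr t ht).symm)
    obtain ⟨l, hl1, hl2⟩ := hl δ hδ
    obtain ⟨u, hu1, hu2⟩ := hu δ hδ
    have e1 := T_pos hS (P_sub hl2) α (left_mem_Icc.2 hαβ.le)
    have e2 := T_pos hS (P_sub hu2) β (right_mem_Icc.2 hαβ.le)
    simp only [map_sub, aeval_X, aeval_C, eq_ratCast] at e1 e2
    refine strict (by exact_mod_cast (by linarith : (l : ℝ) < u)) hl2 hu2 f fun t ht => h1 ?_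
    rcases le_total t α with h | h
    · exact Metric.mem_cthickening_of_dist_le t α δ _ (left_mem_Icc.2 hαβ.le)
        (by rw [Real.dist_eq, abs_le]; constructor <;> linarith [ht.1])
    rcases le_total t β with h' | h'
    · exact Metric.self_subset_cthickening _ ⟨h, h'⟩
    · exact Metric.mem_cthickening_of_dist_le t β δ _ (right_mem_Icc.2 hαβ.le)
        (by rw [Real.dist_eq, abs_le]; constructor <;> linarith [ht.2])

lemma irr {p n : ℕ} (hp : p.Prime) (hn : 0 < n) : Irreducible (X ^ n - C (p : ℚ)) := by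
  have hm : (X ^ n - C (p : ℤ)).Monic := monic_X_pow_sub_C _ hn.ne'
  have h := irreducible_of_eisenstein_criterion (f := X ^ n - C (p : ℤ)) (P := Ideal.span {(p : ℤ)})
    ((Ideal.span_singleton_prime (by exact_mod_cast hp.ne_zero)).2 (Nat.prime_iff_prime_int.1 hp))
    (by rw [hm.leadingCoeff, Ideal.mem_span_singleton]
        exact (Nat.prime_iff_prime_int.1 hp).not_dvd_one)
    (fun k hk => by
      rw [degree_X_pow_sub_C hn] at hk
      have hk' : k < n := by exact_mod_cast hk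
      rw [Ideal.mem_span_singleton, coeff_sub, coeff_X_pow, if_neg hk'.ne, coeff_C]
      split_ifs <;> simp)
    (by rw [degree_X_pow_sub_C hn]; exact_mod_cast hn)
    (by rw [Ideal.span_singleton_pow, Ideal.mem_span_singleton, coeff_sub, coeff_X_pow, if_neg hn.ne]
        simp only [coeff_C_zero, zero_sub, dvd_neg]
        intro h
        have := Int.le_of_dvd (by exact_mod_cast hp.pos) h
        have h2 : (2 : ℤ) ≤ p := by exact_mod_cast hp.two_le
        nlinarith)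
    hm.isPrimitive
  simpa using (IsPrimitive.Int.irreducible_iff_irreducible_map_cast hm.isPrimitive).1 h

lemma irr' {p n : ℕ} (hp : p.Prime) (hn : 0 < n) : Irreducible ((p : ℚ[X]) - X ^ n) := by
  have := (irr hp hn)
  have h2 := (Associated.neg_right (Associated.refl _)).irreducible this
  simpa using h2

lemma near {c : ℝ} (hc : 0 < c) (f g : ℝ → ℝ) (hf : Continuous f) (hg : Continuous g) (h : f c < g c) :
    ∃ a : ℚ, 0 < a ∧ f a < g a := by
  obtain ⟨a, ha⟩ := Rat.denseRange_cast.exists_mem_open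
    ((isOpen_lt continuous_const continuous_id).inter (isOpen_lt hf hg)) ⟨c, hc, h⟩
  exact ⟨a, by exact_mod_cast (show (0 : ℝ) < a from ha.1), ha.2⟩

theorem K1 : Pos (Icc 0 ((2 : ℝ) ^ (1 / 3 : ℝ))) = T {X, 2 - X ^ 3} := by
  classical
  set c := (2 : ℝ) ^ (1 / 3 : ℝ) with hc
  have hc0 : 0 < c := by positivity
  have hc3 : c ^ 3 = 2 := by rw [hc, ← Real.rpow_natCast, ← Real.rpow_mul (by norm_num)]; norm_num
  have hX : (X : ℚ[X]) ∈ P {X, 2 - X ^ 3} := P_gen (by simp)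
  have hq : (2 - X ^ 3 : ℚ[X]) ∈ P {X, 2 - X ^ 3} := P_gen (by simp)
  refine main hc0 ?_ (fun δ hδ => ⟨0, by simpa using hδ, by simpa using hX⟩) (fun δ hδ => ?_)
    ⟨X, by simp, irreducible_X, by simp⟩
    ⟨2 - X ^ 3, by simp, irr' Nat.prime_two (by norm_num), by simp [hc3, map_ofNat]⟩
  · intro g hg t ht
    simp only [Finset.mem_insert, Finset.mem_singleton] at hg
    rcases hg with rfl | rfl
    · simpa using ht.1
    · have := pow_le_pow_left₀ ht.1 ht.2 3
      simp [map_ofNat]; linarith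
  · obtain ⟨a, ha, h⟩ := near hc0 (fun a => 2 + 2 * a ^ 3) (fun a => (c + δ) * (3 * a ^ 2))
      (by fun_prop) (by fun_prop) (by have := mul_pos hδ (pow_pos hc0 2); nlinarith)
    have ha' : (0 : ℝ) < a := by exact_mod_cast ha
    refine ⟨(2 + 2 * a ^ 3) / (3 * a ^ 2), by push_cast; rwa [div_lt_iff₀ (by positivity)], ?_⟩
    have := P_mul (P_C (a := (3 * a ^ 2)⁻¹) (by positivity))
      (add_mem hq (P_mul (P_sq (X - C a)) (add_mem hX (P_C (a := 2 * a) (by positivity)))))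
    convert this using 1
    have h1 : C (3 * a ^ 2)⁻¹ * C (3 * a ^ 2) = (1 : ℚ[X]) := by
      rw [← C_mul, inv_mul_cancel₀ (by positivity), C_1]
    rw [div_eq_mul_inv]
    simp only [map_mul, map_add, map_pow, map_ofNat] at h1 ⊢
    linear_combination X * h1

lemma K2_low (n : ℕ) : ∃ l : ℚ, 0 ≤ l ∧ √2 - l ≤ 2 * (1 / 2) ^ n ∧
    X - C l ∈ P {X, X ^ 2 - 2, 3 - X ^ 2} := by
  classical
  have h2 : (√2 : ℝ) ^ 2 = 2 := Real.sq_sqrt (by norm_num)
  have h3 : (1 : ℝ) < √2 := Real.one_lt_sqrt_two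
  have h4 : (√2 : ℝ) < 2 := by nlinarith
  induction n with
  | zero => exact ⟨0, le_rfl, by simpa using h4.le, by simpa using P_gen (by simp)⟩
  | succ n ih =>
    obtain ⟨l, hl, h5, h6⟩ := ih
    have hl' : (0 : ℝ) ≤ l := by exact_mod_cast hl
    refine ⟨(2 * l + 2) / (l + 2), by positivity, ?_, ?_⟩
    · push_cast
      have : √2 - (2 * (l : ℝ) + 2) / (l + 2) = (2 - √2) / (l + 2) * (√2 - l) := by
        field_simp; nlinarith
      have h7 : (2 - √2) / ((l : ℝ) + 2) ≤ 1 / 2 := by rw [div_le_iff₀ (by positivity)]; linarith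
      have h8 : 0 ≤ (2 - √2) / ((l : ℝ) + 2) := div_nonneg (by linarith) (by positivity)
      have h9 : (0 : ℝ) ≤ (1 / 2) ^ n := by positivity
      rw [this, pow_succ]; nlinarith
    · have a1 : (X ^ 2 - 2 : ℚ[X]) ∈ P {X, X ^ 2 - 2, 3 - X ^ 2} := P_gen (by simp)
      have a2 : (3 - X ^ 2 : ℚ[X]) ∈ P {X, X ^ 2 - 2, 3 - X ^ 2} := P_gen (by simp)
      have := P_mul (P_C (a := (2 * (l + 2))⁻¹) (by positivity))
        (add_mem (P_mul h6 (add_mem a2 (P_sq (X - 1)))) (add_mem a1 a1))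
      convert this using 1
      have h1 : C (2 * (l + 2))⁻¹ * C (2 * (l + 2)) = (1 : ℚ[X]) := by
        rw [← C_mul, inv_mul_cancel₀ (by positivity), C_1]
      have h0 : (2 * l + 2) / (l + 2) = (2 * (l + 2))⁻¹ * (4 * l + 4) := by field_simp; ring
      rw [h0]
      simp only [map_mul, map_add, map_ofNat] at h1 ⊢
      linear_combination (-X) * h1

theorem K2 : Pos (Icc √2 √3) = T {X, X ^ 2 - 2, 3 - X ^ 2} := by
  classical
  have h2 : (√2 : ℝ) ^ 2 = 2 := Real.sq_sqrt (by norm_num)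
  have h3 : (√3 : ℝ) ^ 2 = 3 := Real.sq_sqrt (by norm_num)
  have hc0 : (0 : ℝ) < √3 := by positivity
  have hq : (3 - X ^ 2 : ℚ[X]) ∈ P {X, X ^ 2 - 2, 3 - X ^ 2} := P_gen (by simp)
  refine main (Real.sqrt_lt_sqrt (by norm_num) (by norm_num)) ?_ (fun δ hδ => ?_) (fun δ hδ => ?_)
    ⟨X ^ 2 - 2, by simp, irr Nat.prime_two (by norm_num), by simp [map_ofNat]⟩
    ⟨3 - X ^ 2, by simp, irr' Nat.prime_three (by norm_num), by simp [map_ofNat]⟩
  · intro g hg t ht
    have h0 : 0 ≤ t := (Real.sqrt_nonneg 2).trans ht.1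
    simp only [Finset.mem_insert, Finset.mem_singleton] at hg
    rcases hg with rfl | rfl | rfl
    · simpa using h0
    · have := pow_le_pow_left₀ (Real.sqrt_nonneg 2) ht.1 2
      simp [map_ofNat]; linarith
    · have := pow_le_pow_left₀ h0 ht.2 2
      simp [map_ofNat]; linarith
  · obtain ⟨n, hn⟩ := exists_pow_lt_of_lt_one (half_pos hδ) (show (1 / 2 : ℝ) < 1 by norm_num)
    obtain ⟨l, -, h4, h5⟩ := K2_low n
    exact ⟨l, by linarith, h5⟩
  · obtain ⟨a, ha, h⟩ := near hc0 (fun a => 3 + a ^ 2) (fun a => (√3 + δ) * (2 * a))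
      (by fun_prop) (by fun_prop) (by have := mul_pos hδ hc0; nlinarith)
    have ha' : (0 : ℝ) < a := by exact_mod_cast ha
    refine ⟨(3 + a ^ 2) / (2 * a), by push_cast; rwa [div_lt_iff₀ (by positivity)], ?_⟩
    have := P_mul (P_C (a := (2 * a)⁻¹) (by positivity)) (add_mem hq (P_sq (X - C a)))
    convert this using 1
    have h1 : C (2 * a)⁻¹ * C (2 * a) = (1 : ℚ[X]) := by
      rw [← C_mul, inv_mul_cancel₀ (by positivity), C_1]
    rw [div_eq_mul_inv]
    simp only [map_mul, map_add, map_pow, map_ofNat] at h1 ⊢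
    linear_combination X * h1

theorem K2_mem : (X - 1 : ℚ[X]) ∈ T {X, X ^ 2 - 2, 3 - X ^ 2} := by
  rw [← K2]
  intro t ht
  have := Real.one_lt_sqrt_two
  simp; linarith [ht.1]

theorem K3 : Pos (Icc (-(2 : ℝ) ^ (1 / 4 : ℝ)) ((2 : ℝ) ^ (1 / 4 : ℝ))) = T {2 - X ^ 4} := by
  classical
  set c := (2 : ℝ) ^ (1 / 4 : ℝ) with hc
  have hc0 : 0 < c := by positivity
  have hc3 : c ^ 4 = 2 := by rw [hc, ← Real.rpow_natCast, ← Real.rpow_mul (by norm_num)]; norm_num
  have hq : (2 - X ^ 4 : ℚ[X]) ∈ P {2 - X ^ 4} := P_gen (by simp)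
  have key : ∀ δ > 0, ∃ u : ℚ, u < c + δ ∧ C u - X ∈ P {2 - X ^ 4} ∧ X - C (-u) ∈ P {2 - X ^ 4} := by
    intro δ hδ
    obtain ⟨a, ha, h⟩ := near hc0 (fun a => 2 + 3 * a ^ 4) (fun a => (c + δ) * (4 * a ^ 3))
      (by fun_prop) (by fun_prop) (by have := mul_pos hδ (pow_pos hc0 3); nlinarith)
    have ha' : (0 : ℝ) < a := by exact_mod_cast ha
    have h1 : C (4 * a ^ 3)⁻¹ * C (4 * a ^ 3) = (1 : ℚ[X]) := by
      rw [← C_mul, inv_mul_cancel₀ (by positivity), C_1]
    refine ⟨(2 + 3 * a ^ 4) / (4 * a ^ 3), by push_cast; rwa [div_lt_iff₀ (by positivity)], ?_, ?_⟩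
    · have := P_mul (P_C (a := (4 * a ^ 3)⁻¹) (by positivity))
        (add_mem hq (P_mul (P_sq (X - C a)) (add_mem (P_sq (X + C a)) (P_C (a := 2 * a ^ 2) (by positivity)))))
      convert this using 1
      rw [div_eq_mul_inv]
      simp only [map_mul, map_add, map_pow, map_ofNat] at h1 ⊢
      linear_combination X * h1
    · have := P_mul (P_C (a := (4 * a ^ 3)⁻¹) (by positivity))
        (add_mem hq (P_mul (P_sq (X + C a)) (add_mem (P_sq (X - C a)) (P_C (a := 2 * a ^ 2) (by positivity)))))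
      convert this using 1
      rw [div_eq_mul_inv]
      simp only [map_mul, map_add, map_pow, map_ofNat, map_neg] at h1 ⊢
      linear_combination (-X) * h1
  refine main (by linarith) ?_ (fun δ hδ => ?_) (fun δ hδ => ?_)
    ⟨2 - X ^ 4, by simp, irr' Nat.prime_two (by norm_num), by
      simp [map_ofNat, Even.neg_pow (by norm_num : Even 4), hc3]⟩
    ⟨2 - X ^ 4, by simp, irr' Nat.prime_two (by norm_num), by simp [hc3, map_ofNat]⟩
  · intro g hg t ht
    rw [Finset.mem_singleton.1 hg]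
    have := pow_le_pow_left₀ (abs_nonneg t) (abs_le.2 ht) 4
    rw [Even.pow_abs (by norm_num)] at this
    simp [map_ofNat]; linarith
  · obtain ⟨u, h1, -, h2⟩ := key δ hδ
    exact ⟨-u, by push_cast; linarith, h2⟩
  · obtain ⟨u, h1, h2, -⟩ := key δ hδ
    exact ⟨u, h1, h2⟩

end Pool.Agent.H80.RatPos
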