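import Mathlib

namespace Pool.Agent.H80.RcD

/-- the planar map of the recurrence -/
noncomputable def T2 (α β A B : ℝ) (w : ℝ × ℝ) : ℝ × ℝ :=
  (w.2, (α + β * w.2 + w.1) / (A + B * w.2 + w.1))

/-- two-cycle p, q, p, q, ... -/
def Cyc2 (α β A B p q : ℝ) : Prop :=
  0 ≤ p ∧ 0 ≤ q ∧ p ≠ q ∧ A + B * q + p ≠ 0 ∧ A + B * p + q ≠ 0 ∧
    T2 α β A B (p, q) = (q, p) ∧ T2 α β A B (q, p) = (p, q)

end Pool.Agent.H80.RcD
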