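import Pool.Agent.H80.Pc1
import Pool.Agent.H80.RcDefs

namespace Pool.Agent.H80.Rc

open Filter Topology Pool.Agent.H80.PcD Pool.Agent.H80.Pc Pool.Agent.H80.RcD

theorem lasG {G : ℝ × ℝ → ℝ × ℝ} {P : ℝ × ℝ} {M : ℝ × ℝ →L[ℝ] ℝ × ℝ} (hG : HasFDerivAt G M P)
    (hP : G P = P) (L : ℝ × ℝ →L[ℝ] ℂ × ℂ) (hL : ∀ x, L x = 0 → x = 0) {k : ℝ} (k0 : 0 ≤ k) (k1 : k < 1)
    (hk : ∀ x, ‖L (M x)‖ ≤ k * ‖L x‖) : LAS G P := by
  obtain ⟨c, c0, hc⟩ := LinearMap.exists_antilipschitzWith (L : ℝ × ℝ →ₗ[ℝ] ℂ × ℂ)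
    (LinearMap.ker_eq_bot'.2 hL)
  have hc' : ∀ x, ‖x‖ ≤ c * ‖L x‖ := fun x => by simpa using hc.le_mul_dist x 0
  have c0' : (0 : ℝ) < c := c0
  set N := ‖L‖ + 1 with hN
  have N0 : 0 < N := by positivity
  have hLN : ∀ x, ‖L x‖ ≤ N * ‖x‖ := fun x => (L.le_opNorm x).trans (by gcongr; linarith)
  have h1 := hG.isLittleO.bound (c := (1 - k) / 2 / (N * c)) (by have := sub_pos.2 k1; positivity)
  obtain ⟨r, r0, hr⟩ := Metric.eventually_nhds_iff.1 h1
  set k' := (1 + k) / 2 with hk'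
  have k0' : 0 ≤ k' := by positivity
  have k1' : k' < 1 := by linarith
  have step : ∀ w, ‖L (w - P)‖ < r / c → ‖L (G w - P)‖ ≤ k' * ‖L (w - P)‖ := fun w hw => by
    have h2 : dist w P < r := by
      rw [dist_eq_norm]; refine (hc' _).trans_lt ?_; rwa [lt_div_iff₀' c0'] at hw
    have h3 := hr h2
    rw [hP] at h3
    have e : G w - P = M (w - P) + (G w - P - M (w - P)) := by abel
    have h4 : ‖L (G w - P - M (w - P))‖ ≤ (1 - k) / 2 * ‖L (w - P)‖ := by
      refine (hLN _).trans ?_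
      calc _ ≤ N * ((1 - k) / 2 / (N * c) * (c * ‖L (w - P)‖)) := by
            gcongr
            exact h3.trans (mul_le_mul_of_nonneg_left (hc' _) (by have := sub_pos.2 k1; positivity))
        _ = _ := by field_simp
    rw [e, map_add]
    refine (norm_add_le _ _).trans ?_
    have := hk (w - P)
    rw [hk']; linarith
  have iter : ∀ w, ‖L (w - P)‖ < r / c → ∀ n : ℕ, ‖L (G^[n] w - P)‖ ≤ k' ^ n * ‖L (w - P)‖ := by
    intro w hw n
    induction n with
    | zero => simp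
    | succ n ih =>
      rw [Function.iterate_succ_apply', pow_succ', mul_assoc]
      refine (step _ (ih.trans_lt ?_)).trans (by gcongr)
      exact (mul_le_of_le_one_left (norm_nonneg _) (pow_le_one₀ k0' k1'.le)).trans_lt hw
  have small : ∀ w (d : ℝ), dist w P < d / N → ‖L (w - P)‖ < d := fun w d h => by
    refine (hLN _).trans_lt ?_
    rwa [dist_eq_norm, lt_div_iff₀' N0] at h
  refine ⟨hP, fun ε e0 => ⟨min (r / c / N) (ε / c / N), by positivity, fun w hw n => ?_⟩,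
    r / c / N, by positivity, fun w hw => ?_⟩
  · have h2 := iter w (small w _ (hw.trans_le (min_le_left _ _))) n
    have h3 := small w _ (hw.trans_le (min_le_right _ _))
    rw [dist_eq_norm]
    refine (hc' _).trans_lt ?_
    rw [← lt_div_iff₀' c0']
    exact (h2.trans (mul_le_of_le_one_left (norm_nonneg _) (pow_le_one₀ k0' k1'.le))).trans_lt h3
  · rw [tendsto_iff_norm_sub_tendsto_zero]
    have h2 := ((tendsto_pow_atTop_nhds_zero_of_lt_one k0' k1').mul_const ‖L (w - P)‖).const_mul (c : ℝ)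
    rw [zero_mul, mul_zero] at h2
    refine squeeze_zero (fun _ => norm_nonneg _) (fun n => (hc' _).trans ?_) h2
    gcongr
    exact iter w (small w _ hw) n

theorem las3 {G : ℝ × ℝ → ℝ × ℝ} {P : ℝ × ℝ} {M : ℝ × ℝ →L[ℝ] ℝ × ℝ} (hG : HasFDerivAt G M P)
    (hP : G P = P) {t D : ℝ} (hM : ∀ x, M (M x) = t • M x - D • x) (D0 : 0 ≤ D) (D1 : D < 1)
    (ht : t ^ 2 < (1 + D) ^ 2) : LAS G P := by
  obtain ⟨B, S, k, S0, k0, k1, h⟩ := quad D0 D1 ht
  let L : (ℝ × ℝ →L[ℝ] ℝ) → ℝ × ℝ →L[ℝ] ℂ := fun l =>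
    Complex.equivRealProdCLM.symm.toContinuousLinearMap ∘L ((l ∘L M + B • l).prod (S • l))
  have hL : ∀ l x, ‖L l x‖ ^ 2 = (l (M x) + B * l x) ^ 2 + (S * l x) ^ 2 := fun l x => by
    rw [Complex.sq_norm, Complex.normSq_apply]
    simp [L]; ring
  have h0 : ∀ l x, L l x = 0 → l x = 0 := fun l x hx => by
    have := hL l x
    rw [hx, norm_zero] at this
    have h2 : S * l x = 0 := by nlinarith [sq_nonneg (l (M x) + B * l x), sq_nonneg (S * l x)]
    exact (mul_eq_zero.1 h2).resolve_left S0.ne'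
  have h1 : ∀ l x, ‖L l (M x)‖ ≤ k * ‖L l x‖ := fun l x => by
    rw [← sq_le_sq₀ (norm_nonneg _) (by positivity), mul_pow, hL, hL, hM]
    refine le_of_eq_of_le ?_ (h (l x) (l (M x)))
    simp
  refine lasG hG hP ((L (ContinuousLinearMap.fst ℝ ℝ ℝ)).prod (L (ContinuousLinearMap.snd ℝ ℝ ℝ)))
    (fun x hx => Prod.ext (h0 _ x (congrArg Prod.fst hx)) (h0 _ x (congrArg Prod.snd hx))) k0 k1 fun x => ?_
  simp only [ContinuousLinearMap.prod_apply, Prod.norm_def]
  exact max_le ((h1 _ x).trans (by gcongr; exact le_max_left _ _))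
    ((h1 _ x).trans (by gcongr; exact le_max_right _ _))

lemma T_der (α β A B : ℝ) {u v w : ℝ} (hd : A + B * v + u ≠ 0) (hw : w = (α + β * v + u) / (A + B * v + u)) :
    HasFDerivAt (T2 α β A B) ((ContinuousLinearMap.snd ℝ ℝ ℝ).prod
      (((1 - w) / (A + B * v + u)) • ContinuousLinearMap.fst ℝ ℝ ℝ +
      ((β - B * w) / (A + B * v + u)) • ContinuousLinearMap.snd ℝ ℝ ℝ)) (u, v) := by
  have f1 := hasFDerivAt_fst (𝕜 := ℝ) (p := (u, v))
  have f2 := hasFDerivAt_snd (𝕜 := ℝ) (p := (u, v))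
  have h1 := ((f2.const_mul β).const_add α).add f1
  have h2 := ((f2.const_mul B).const_add A).add f1
  have h3 := h1.mul ((hasDerivAt_inv hd).comp_hasFDerivAt (u, v) h2)
  refine f2.prodMk (HasFDerivAt.congr_fderiv (f' := _) (by
    simp only [div_eq_mul_inv]; exact h3) ?_)
  ext <;> simp [hw] <;> generalize A + B * v + u = y at hd ⊢ <;> field_simp <;> ring

theorem cyc_las {α β A B p q : ℝ} (a0 : 0 ≤ α) (A0 : 0 ≤ A) (b0 : 0 < β) (B0 : 0 < B)
    (h : Cyc2 α β A B p q) : LAS (T2 α β A B ∘ T2 α β A B) (p, q) := by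
  obtain ⟨p0, q0, hne, d1, d2, t1, t2⟩ := h
  have e1 : p = (α + β * q + p) / (A + B * q + p) := (congrArg Prod.snd t1).symm
  have e2 : q = (α + β * p + q) / (A + B * p + q) := (congrArg Prod.snd t2).symm
  have D1 := T_der α β A B d1 e1
  have D2 := T_der α β A B d2 e2
  rw [← t1] at D2
  rw [eq_div_iff d1] at e1
  rw [eq_div_iff d2] at e2
  have hs : p + q = 1 - β - A := by
    refine mul_left_cancel₀ (sub_ne_zero.2 hne) ?_
    linear_combination e1 - e2
  have hA : A = 1 - β - p - q := by linarith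
  have s0 : 0 < p + q := by
    rcases p0.eq_or_lt with h | h
    · have : q ≠ 0 := fun h' => hne (by rw [h', h])
      positivity
    · positivity
  have hc : (B - 1) * (p * q) = α + β * (p + q) := by subst hA; linear_combination e1
  have hc0 : 0 < (B - 1) * (p * q) := by rw [hc]; positivity
  have c0 : 0 < B - 1 := by
    by_contra hh; nlinarith [mul_nonneg p0 q0]
  have dd : 0 < (p - q) ^ 2 := by have := sub_ne_zero.2 hne; positivity
  have n1 : 0 < A + B * q + p := lt_of_le_of_ne (by positivity) d1.symm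
  have n2 : 0 < A + B * p + q := lt_of_le_of_ne (by positivity) d2.symm
  have p1 : 0 < 1 - p := by linarith
  have q1 : 0 < 1 - q := by linarith
  have cs : 4 * β < (B - 1) * (p + q) := by
    refine lt_of_mul_lt_mul_right ?_ s0.le
    nlinarith [mul_pos c0 dd]
  set x := A + B * q + p with hx
  set y := A + B * p + q with hy
  have J1 : (1 - p) * (1 - q) < x * y := by
    have : x * y = (1 - β) ^ 2 + (B - 1) * (p + q) * (1 - β) + (B - 1) * ((B - 1) * (p * q)) := by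
      rw [hx, hy, hA]; ring
    rw [this, hc]
    nlinarith [mul_nonneg c0.le a0, mul_nonneg p0 q1.le]
  have J2 : (β - B * p) * (β - B * q) + (1 - p) * y + (1 - q) * x < x * y + (1 - p) * (1 - q) := by
    have : x * y + (1 - p) * (1 - q) - ((β - B * p) * (β - B * q) + (1 - p) * y + (1 - q) * x) =
      (B - 1) * (p - q) ^ 2 := by rw [hx, hy, hA]; ring
    nlinarith [mul_pos c0 dd]
  have J3 : -(x * y + (1 - p) * (1 - q)) < (β - B * p) * (β - B * q) + (1 - p) * y + (1 - q) * x := by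
    have : x * y + (1 - p) * (1 - q) + ((β - B * p) * (β - B * q) + (1 - p) * y + (1 - q) * x) =
      (A + B * q + 1) * (A + B * p + 1) + (β - B * p) * (β - B * q) := by rw [hx, hy]; ring
    have b1 : 0 < 1 - β := by linarith
    nlinarith [mul_pos b1 (mul_pos B0 s0), mul_nonneg (mul_nonneg B0.le p0) (mul_nonneg B0.le q0),
      mul_nonneg A0 (mul_pos B0 s0).le, sq_nonneg A, sq_nonneg β]
  have xy : 0 < x * y := mul_pos n1 n2
  refine las3 (D2.comp _ D1) (by simp [t1, t2])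
    (t := ((β - B * p) * (β - B * q) + (1 - p) * y + (1 - q) * x) / (x * y))
    (D := (1 - p) * (1 - q) / (x * y)) (fun z => ?_) (by positivity) ((div_lt_one xy).2 J1) ?_
  · ext <;> simp <;> field_simp <;> ring
  · rw [one_add_div xy.ne', div_pow, div_pow]
    exact div_lt_div_of_pos_right (sq_lt_sq' J3 J2) (by positivity)

theorem ex {α β A B : ℝ} (a0 : 0 ≤ α) (A0 : 0 ≤ A) (b0 : 0 < β) (B0 : 0 < B) (h1 : β + A < 1)
    (h2 : 4 * α < (1 - β - A) * (B * (1 - β - A) - 1 - 3 * β + A)) : ∃ p q, Cyc2 α β A B p q := by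
  obtain ⟨s, hs⟩ : ∃ s, s = 1 - β - A := ⟨_, rfl⟩
  have s0 : 0 < s := by linarith
  have h3 : 4 * (α + β * s) < (B - 1) * s ^ 2 := by rw [hs]; nlinarith
  have c0 : 0 < B - 1 := by
    by_contra hh; nlinarith [sq_nonneg s, mul_pos b0 s0]
  obtain ⟨w, hw⟩ : ∃ w, (B - 1) * w = α + β * s := ⟨(α + β * s) / (B - 1), by field_simp⟩
  have w0 : 0 < w := (mul_pos_iff_of_pos_left c0).1 (by rw [hw]; positivity)
  have h4 : 0 < s ^ 2 - 4 * w := (mul_pos_iff_of_pos_left c0).1 (by linarith)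
  obtain ⟨d, d0, hd⟩ : ∃ d, 0 < d ∧ d ^ 2 = s ^ 2 - 4 * w := ⟨_, Real.sqrt_pos.2 h4, Real.sq_sqrt h4.le⟩
  have ds : 0 < s - d := by nlinarith
  have n1 : A + B * ((s - d) / 2) + (s + d) / 2 ≠ 0 := by positivity
  have n2 : A + B * ((s + d) / 2) + (s - d) / 2 ≠ 0 := by positivity
  have hA : A = 1 - β - s := by linarith
  refine ⟨(s + d) / 2, (s - d) / 2, by positivity, by positivity, by linarith, n1, n2,
    Prod.ext rfl ?_, Prod.ext rfl ?_⟩
  · change _ / _ = (s + d) / 2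
    rw [div_eq_iff n1, hA]; linear_combination -hw + (B - 1) / 4 * hd
  · change _ / _ = (s - d) / 2
    rw [div_eq_iff n2, hA]; linear_combination -hw + (B - 1) / 4 * hd

end Pool.Agent.H80.Rc
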