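import Pool.Agent.H80.SFDefs

namespace Pool.Agent.H80.SF

open MvPolynomial Finset

variable {n : ℕ} {K : Type} [Field K]

/-- Up operator on set functions. -/
def U (f : Finset (Fin n) → K) : Finset (Fin n) → K := fun σ => ∑ v ∈ σ, f (σ.erase v)

lemma U_local (j : ℕ) (f g : Finset (Fin n) → K) (σ : Finset (Fin n))
    (h : ∀ τ ⊆ σ, τ.card + j = σ.card → f τ = g τ) : U^[j] f σ = U^[j] g σ := by
  induction j generalizing σ with
  | zero => exact h σ (Subset.refl _) rfl
  | succ j ih =>
    rw [Function.iterate_succ_apply', Function.iterate_succ_apply']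
    refine Finset.sum_congr rfl fun v hv => ih _ fun τ hτ hc => h τ (hτ.trans (erase_subset _ _)) ?_
    rw [card_erase_of_mem hv] at hc
    have := card_pos.2 ⟨v, hv⟩
    omega

lemma U_lin (j : ℕ) (a : K) (f g : Finset (Fin n) → K) (σ : Finset (Fin n)) :
    U^[j] (fun τ => a * f τ + g τ) σ = a * U^[j] f σ + U^[j] g σ := by
  induction j generalizing σ with
  | zero => rfl
  | succ j ih =>
    simp only [Function.iterate_succ_apply']
    simp only [U, ih, Finset.sum_add_distrib, Finset.mul_sum]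

lemma U_zero (j : ℕ) (σ : Finset (Fin n)) : U^[j] (fun _ => (0 : K)) σ = 0 := by
  induction j generalizing σ with
  | zero => rfl
  | succ j ih =>
    simp only [Function.iterate_succ_apply']
    simp [U, ih]

lemma U_insert (j : ℕ) (f : Finset (Fin n) → K) (v : Fin n) (σ : Finset (Fin n)) (hv : v ∉ σ) :
    U^[j + 1] f (insert v σ) =
      (j + 1 : K) * U^[j] f σ + U^[j + 1] (fun τ => f (insert v τ)) σ := by
  have one : ∀ (f : Finset (Fin n) → K) (σ : Finset (Fin n)), v ∉ σ →
      U f (insert v σ) = f σ + U (fun τ => f (insert v τ)) σ := by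
    intro f σ hv
    simp only [U]
    rw [Finset.sum_insert hv, erase_insert hv]
    congr 1
    refine Finset.sum_congr rfl fun w hw => ?_
    rw [erase_insert_of_ne (fun e : v = w => hv (e ▸ hw))]
  induction j generalizing σ with
  | zero => simpa using one f σ hv
  | succ j ih =>
    rw [Function.iterate_succ_apply', one _ σ hv]
    have : U (fun τ => U^[j + 1] f (insert v τ)) σ =
        U (fun τ => (j + 1 : K) * U^[j] f τ + U^[j + 1] (fun τ => f (insert v τ)) τ) σ :=
      Finset.sum_congr rfl fun w _ => ih _ (fun h => hv (mem_of_mem_erase h))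
    rw [this]
    have h2 := U_lin 1 (j + 1 : K) (U^[j] f) (U^[j + 1] (fun τ => f (insert v τ))) σ
    simp only [Function.iterate_one] at h2
    rw [h2, ← Function.iterate_succ_apply' U j, ← Function.iterate_succ_apply' U (j + 1)]
    push_cast
    ring

lemma U_succ_zero (f : Finset (Fin n) → K) (σ : Finset (Fin n))
    (h : ∀ τ ⊆ σ, τ.card + 1 = σ.card → f τ = 0) : U f σ = 0 := by
  have := U_local 1 f (fun _ => 0) σ h
  rw [U_zero] at this
  exact this

variable [CharZero K]

lemma bool_inj (F : Finset (Fin n)) : ∀ (i j : ℕ) (f : Finset (Fin n) → K), 2 * i + j ≤ F.card →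
    (∀ σ ⊆ F, σ.card = i + j → U^[j] f σ = 0) → ∀ τ ⊆ F, τ.card = i → f τ = 0 := by
  induction F using Finset.induction_on with
  | empty =>
    intro i j f h hf τ hτ hc
    obtain rfl : j = 0 := by simp at h; omega
    exact hf τ hτ hc
  | insert v F hv ih =>
    intro i j f h hf
    cases j with
    | zero => exact hf
    | succ j =>
      rw [card_insert_of_notMem hv] at h
      have hj : (j + 1 : K) ≠ 0 := by exact_mod_cast Nat.succ_ne_zero j
      have h1 : ∀ σ ⊆ F, σ.card = i + j →
          (j + 1 : K) * U^[j] f σ + U^[j + 1] (fun τ => f (insert v τ)) σ = 0 := by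
        intro σ hσ hc
        have hvσ : v ∉ σ := fun e => hv (hσ e)
        rw [← U_insert j f v σ hvσ]
        exact hf _ (insert_subset_insert _ hσ) (by rw [card_insert_of_notMem hvσ]; omega)
      have hβ : ∀ τ ⊆ F, τ.card + 1 = i → f (insert v τ) = 0 := by
        intro τ hτ hc
        refine ih τ.card (j + 2) (fun τ => f (insert v τ)) (by omega) (fun σ hσ hc2 => ?_) τ hτ rfl
        have e := U_succ_zero (fun σ => (j + 1 : K) * U^[j] f σ +
          U^[j + 1] (fun τ => f (insert v τ)) σ) σ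
          (fun ρ hρ hc3 => h1 ρ (hρ.trans hσ) (by omega))
        have h2 := U_lin 1 (j + 1 : K) (U^[j] f) (U^[j + 1] (fun τ => f (insert v τ))) σ
        simp only [Function.iterate_one] at h2
        rw [h2, ← Function.iterate_succ_apply' U j, ← Function.iterate_succ_apply' U (j + 1),
          hf σ (hσ.trans (subset_insert _ _)) (by omega), mul_zero, zero_add] at e
        exact e
      have hα : ∀ τ ⊆ F, τ.card = i → f τ = 0 := by
        refine ih i j f (by omega) fun σ hσ hc => ?_
        have e := h1 σ hσ hc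
        rw [U_local (j + 1) _ (fun _ => 0) σ (fun ρ hρ hc3 => hβ ρ (hρ.trans hσ) (by omega)),
          U_zero, add_zero] at e
        exact (mul_eq_zero.1 e).resolve_left hj
      intro τ hτ hc
      by_cases hvτ : v ∈ τ
      · rw [← insert_erase hvτ]
        refine hβ _ (fun w hw => ?_) (by rw [card_erase_add_one hvτ, hc])
        exact (mem_insert.1 (hτ (mem_of_mem_erase hw))).resolve_left (ne_of_mem_erase hw)
      · exact hα τ (fun w hw => (mem_insert.1 (hτ hw)).resolve_left (fun e => hvτ (e ▸ hw))) hc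

/-- Gluing along a vertex. -/
def glue (v : Fin n) (α β : Finset (Fin n) → K) : Finset (Fin n) → K :=
  fun σ => if v ∈ σ then β (σ.erase v) else α σ

omit [CharZero K] in
lemma glue_out (j : ℕ) (v : Fin n) (α β : Finset (Fin n) → K) (σ : Finset (Fin n)) (hv : v ∉ σ) :
    U^[j] (glue v α β) σ = U^[j] α σ :=
  U_local j _ _ σ fun τ hτ _ => if_neg fun e => hv (hτ e)

omit [CharZero K] in
lemma glue_in (j : ℕ) (v : Fin n) (α β : Finset (Fin n) → K) (σ : Finset (Fin n)) (hv : v ∉ σ) :
    U^[j + 1] (glue v α β) (insert v σ) = (j + 1 : K) * U^[j] α σ + U^[j + 1] β σ := by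
  rw [U_insert j _ v σ hv, glue_out j v α β σ hv]
  congr 1
  refine U_local _ _ _ σ fun τ hτ _ => ?_
  simp only [glue, mem_insert_self, if_true]
  rw [erase_insert fun e => hv (hτ e)]

lemma bool_surj (F : Finset (Fin n)) : ∀ (k j : ℕ) (g : Finset (Fin n) → K), F.card + j ≤ 2 * k →
    ∃ f : Finset (Fin n) → K, ∀ σ ⊆ F, σ.card = k → U^[j] f σ = g σ := by
  induction F using Finset.induction_on with
  | empty =>
    intro k j g h
    refine ⟨g, fun σ hσ hc => ?_⟩
    have : σ.card = 0 := by simpa using hσ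
    obtain rfl : j = 0 := by simp at h; omega
    rfl
  | insert v F hv ih =>
    intro k j g h
    cases j with
    | zero => exact ⟨g, fun _ _ _ => rfl⟩
    | succ j =>
      rw [card_insert_of_notMem hv] at h
      have hj : (j + 1 : K) ≠ 0 := by exact_mod_cast Nat.succ_ne_zero j
      obtain ⟨β, hβ⟩ := ih k (j + 2)
        (fun σ => -(j + 1 : K) * g σ + U (fun τ => g (insert v τ)) σ) (by omega)
      obtain ⟨α, hα⟩ := ih (k - 1) j
        (fun σ => (j + 1 : K)⁻¹ * (g (insert v σ) - U^[j + 1] β σ)) (by omega)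
      have h1 : ∀ σ ⊆ F, σ.card + 1 = k →
          (j + 1 : K) * U^[j] α σ + U^[j + 1] β σ = g (insert v σ) := by
        intro σ hσ hc
        rw [hα σ hσ (by omega)]
        field_simp
        ring
      refine ⟨glue v α β, fun σ hσ hc => ?_⟩
      by_cases hvσ : v ∈ σ
      · rw [← insert_erase hvσ, glue_in j v α β _ (notMem_erase _ _)]
        refine h1 _ (fun w hw => ?_) (by rw [card_erase_add_one hvσ, hc])
        exact (mem_insert.1 (hσ (mem_of_mem_erase hw))).resolve_left (ne_of_mem_erase hw)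
      · have hσF : σ ⊆ F := fun w hw =>
          (mem_insert.1 (hσ hw)).resolve_left (fun e => hvσ (e ▸ hw))
        rw [glue_out _ v α β σ hvσ]
        have e := U_local 1 (fun σ => (j + 1 : K) * U^[j] α σ + U^[j + 1] β σ)
          (fun τ => g (insert v τ)) σ (fun ρ hρ hc3 => h1 ρ (hρ.trans hσF) (by omega))
        rw [U_lin] at e
        simp only [Function.iterate_one] at e
        rw [← Function.iterate_succ_apply' U j, ← Function.iterate_succ_apply' U (j + 1),
          hβ σ hσF hc] at e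
        apply mul_left_cancel₀ hj
        simp only [Nat.succ_eq_add_one] at e
        linear_combination e

/-- Solvability of `U^j f = g` at level `k` on a family `D`. -/
def Surj (K : Type) [Field K] (k j : ℕ) (D : Finset (Fin n) → Prop) : Prop :=
  ∀ g : Finset (Fin n) → K, ∃ f : Finset (Fin n) → K, ∀ σ, D σ → σ.card = k → U^[j] f σ = g σ

omit [CharZero K] in
lemma Surj.mono {k j : ℕ} {D D' : Finset (Fin n) → Prop} (h : Surj K k j D)
    (hD : ∀ σ, D' σ → σ.card = k → D σ) : Surj K k j D' := fun g =>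
  let ⟨f, hf⟩ := h g
  ⟨f, fun σ h1 h2 => hf σ (hD σ h1 h2) h2⟩

lemma Surj.step {k j : ℕ} {D : Finset (Fin n) → Prop} (h : Surj K k j D) (v : Fin n)
    (H : Finset (Fin n)) (hD : ∀ σ, D σ → v ∉ σ) (hH : v ∉ H) (hc : H.card + j + 2 ≤ 2 * k) :
    Surj K k j fun σ => D σ ∨ ∃ τ ⊆ H, σ = insert v τ := by
  intro g
  cases j with
  | zero => exact ⟨g, fun _ _ _ => rfl⟩
  | succ j =>
    obtain ⟨α, hα⟩ := h g
    obtain ⟨β, hβ⟩ := bool_surj H (k - 1) (j + 1)
      (fun σ => g (insert v σ) - (j + 1 : K) * U^[j] α σ) (by omega)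
    refine ⟨glue v α β, ?_⟩
    rintro σ (hσ | ⟨τ, hτ, rfl⟩) hk
    · rw [glue_out _ v α β σ (hD σ hσ), hα σ hσ hk]
    · have hv : v ∉ τ := fun e => hH (hτ e)
      rw [card_insert_of_notMem hv] at hk
      rw [glue_in j v α β τ hv, hβ τ hτ (by omega)]
      ring

lemma forest_surj (Δ : Set (Finset (Fin n))) (hΔ : IsForest Δ) (d k j : ℕ)
    (hd : ∀ F, IsFacet Δ F → F.card = d) (hc : d + j + 1 ≤ 2 * k)
    (T : Finset (Finset (Fin n))) (hT : ∀ F ∈ T, IsFacet Δ F) :
    Surj K k j fun σ => ∃ F ∈ T, σ ⊆ F := by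
  classical
  induction T using Finset.strongInduction with
  | H T ih =>
    rcases T.eq_empty_or_nonempty with rfl | ⟨F0, hF0⟩
    · exact fun g => ⟨g, by simp⟩
    have symm : ∀ F G, Conn Δ F G → Conn Δ G F := by
      intro F G h
      induction h with
      | refl => exact Relation.ReflTransGen.refl
      | tail _ hab ih2 =>
        exact Relation.ReflTransGen.head ⟨hab.2.1, hab.1, by rw [inter_comm]; exact hab.2.2⟩ ih2
    obtain ⟨F, hF, hleaf⟩ := hΔ {G | G ∈ T ∧ Conn Δ F0 G} ⟨F0, hF0, Relation.ReflTransGen.refl⟩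
      (fun G hG => hT G hG.1) (fun G hG G' hG' => (symm _ _ hG.2).trans hG'.2)
    have hcon : ∀ G ∈ T, (F ∩ G).Nonempty → Conn Δ F0 G := fun G hG hne =>
      hF.2.tail ⟨hT F hF.1, hT G hG, hne⟩
    obtain ⟨G, hG1, hG2⟩ : ∃ G : Finset (Fin n), (G = ∅ ∨ G ∈ T.erase F) ∧
        ∀ F' ∈ T.erase F, F ∩ F' ⊆ G := by
      rcases hleaf with h | ⟨G, hG, hGF, h⟩
      · refine ⟨∅, Or.inl rfl, fun F' hF' w hw => ?_⟩
        have : F' ∈ ({F} : Set (Finset (Fin n))) :=
          h ▸ ⟨mem_of_mem_erase hF', hcon F' (mem_of_mem_erase hF') ⟨w, hw⟩⟩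
        exact absurd this (ne_of_mem_erase hF')
      · refine ⟨G, Or.inr (mem_erase.2 ⟨hGF, hG.1⟩), fun F' hF' w hw => ?_⟩
        exact (mem_inter.1 (h F' ⟨mem_of_mem_erase hF', hcon F' (mem_of_mem_erase hF') ⟨w, hw⟩⟩
          (ne_of_mem_erase hF') hw)).2
    have base := ih (T.erase F) (erase_ssubset hF.1) fun G hG => hT G (mem_of_mem_erase hG)
    have main : ∀ W : Finset (Fin n), W ⊆ F \ G →
        Surj K k j fun σ => (∃ F' ∈ T.erase F, σ ⊆ F') ∨ σ ⊆ F ∩ G ∪ W := by
      intro W
      induction W using Finset.induction_on with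
      | empty =>
        intro _
        refine base.mono ?_
        rintro σ (h | h) hk
        · exact h
        · rw [union_empty] at h
          rcases hG1 with rfl | hG1
          · have : σ.card = 0 := by simpa using h
            omega
          · exact ⟨G, hG1, h.trans inter_subset_right⟩
      | insert v W hv ihW =>
        intro hW
        have hvF := mem_sdiff.1 (hW (mem_insert_self _ _))
        have hW' : W ⊆ F \ G := (subset_insert _ _).trans hW
        have hvH : v ∉ F ∩ G ∪ W := by simp [hv, hvF.2]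
        have hsub : insert v (F ∩ G ∪ W) ⊆ F :=
          insert_subset hvF.1 (union_subset inter_subset_left (hW'.trans sdiff_subset))
        have hcard := card_le_card hsub
        rw [card_insert_of_notMem hvH, hd F (hT F hF.1)] at hcard
        refine ((ihW hW').step v (F ∩ G ∪ W) ?_ hvH (by omega)).mono ?_
        · rintro σ (⟨F', h1, h2⟩ | h) hvσ
          · exact hvF.2 (hG2 F' h1 (mem_inter.2 ⟨hvF.1, h2 hvσ⟩))
          · exact hvH (h hvσ)
        · rintro σ (h | h) _
          · exact Or.inl (Or.inl h)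
          · rw [union_insert] at h
            by_cases hvσ : v ∈ σ
            · exact Or.inr ⟨σ.erase v, by rwa [← subset_insert_iff], (insert_erase hvσ).symm⟩
            · exact Or.inl (Or.inr ((subset_insert_iff_of_notMem hvσ).1 h))
    refine (main (F \ G) (Subset.refl _)).mono ?_
    rintro σ ⟨F', h1, h2⟩ _
    by_cases e : F' = F
    · right
      rw [union_comm, sdiff_union_inter]
      exact e ▸ h2
    · exact Or.inl ⟨F', mem_erase.2 ⟨e, h1⟩, h2⟩

/-- Exponent vector of a squarefree monomial. -/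
noncomputable def ind (σ : Finset (Fin n)) : Fin n →₀ ℕ := ∑ i ∈ σ, Finsupp.single i 1

lemma ind_apply (σ : Finset (Fin n)) (v : Fin n) : ind σ v = if v ∈ σ then 1 else 0 := by
  simp [ind, Finsupp.finset_sum_apply, Finsupp.single_apply]

lemma ind_inj {σ τ : Finset (Fin n)} (h : ind σ = ind τ) : σ = τ := by
  ext v
  have := DFunLike.congr_fun h v
  rw [ind_apply, ind_apply] at this
  split_ifs at this <;> simp_all

lemma ind_degree (σ : Finset (Fin n)) : (ind σ).degree = σ.card := by
  simp [ind, map_sum]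

omit [CharZero K] in
lemma prod_X (σ : Finset (Fin n)) :
    (∏ i ∈ σ, X i : MvPolynomial (Fin n) K) = monomial (ind σ) 1 := by
  rw [ind, monomial_sum_one]
  rfl

omit [CharZero K] in
lemma mem_idealA (Δ : Set (Finset (Fin n))) (hΔ : IsLowerSet Δ) (p : MvPolynomial (Fin n) K) :
    p ∈ idealA K Δ ↔ ∀ σ ∈ Δ, coeff (ind σ) p = 0 := by
  have e : idealA K Δ = Ideal.span ((fun s => monomial s (1 : K)) ''
      {s | (∃ σ, σ ∉ Δ ∧ s = ind σ) ∨ ∃ i, s = Finsupp.single i 2}) := by
    rw [idealA, ← Ideal.span_union]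
    congr 1
    ext q
    simp only [Set.mem_union, Set.mem_setOf_eq, Set.mem_image, prod_X, X_pow_eq_monomial]
    constructor
    · rintro (⟨σ, h, rfl⟩ | ⟨i, rfl⟩)
      · exact ⟨_, Or.inl ⟨σ, h, rfl⟩, rfl⟩
      · exact ⟨_, Or.inr ⟨i, rfl⟩, rfl⟩
    · rintro ⟨_, ⟨σ, h, rfl⟩ | ⟨i, rfl⟩, rfl⟩
      · exact Or.inl ⟨σ, h, rfl⟩
      · exact Or.inr ⟨i, rfl⟩
  rw [e, mem_ideal_span_monomial_image]
  constructor
  · intro h σ hσ
    by_contra hne
    obtain ⟨s, ⟨τ, h1, rfl⟩ | ⟨i, rfl⟩, hs⟩ := h _ (mem_support_iff.2 hne)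
    · refine h1 (hΔ (fun v hv => ?_ : τ ⊆ σ) hσ)
      have := hs v
      rw [ind_apply, ind_apply, if_pos hv] at this
      by_contra h2
      simp [h2] at this
    · have := hs i
      rw [ind_apply, Finsupp.single_eq_same] at this
      split_ifs at this <;> omega
  · intro h m hm
    by_cases h2 : ∃ i, 2 ≤ m i
    · obtain ⟨i, hi⟩ := h2
      exact ⟨_, Or.inr ⟨i, rfl⟩, Finsupp.single_le_iff.2 hi⟩
    · push Not at h2
      have hm2 : m = ind m.support := by
        ext v
        rw [ind_apply]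
        have := h2 v
        split_ifs with hv
        · have := Finsupp.mem_support_iff.1 hv
          omega
        · exact Finsupp.notMem_support_iff.1 hv
      refine ⟨_, Or.inl ⟨m.support, fun h3 => ?_, rfl⟩, hm2.ge⟩
      exact mem_support_iff.1 hm (hm2 ▸ h _ h3)

omit [CharZero K] in
lemma coeff_L (j : ℕ) (p : MvPolynomial (Fin n) K) (σ : Finset (Fin n)) :
    coeff (ind σ) ((∑ i, X i) ^ j * p) = U^[j] (fun τ => coeff (ind τ) p) σ := by
  induction j generalizing σ with
  | zero => simp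
  | succ j ih =>
    rw [Function.iterate_succ_apply', pow_succ', mul_assoc, Finset.sum_mul, coeff_sum]
    simp only [coeff_X_mul', U, Finsupp.mem_support_iff, ind_apply]
    rw [← Finset.sum_filter]
    refine Finset.sum_congr (by ext v; simp) fun v hv => ?_
    rw [← ih]
    congr 1
    ext w
    rw [Finsupp.tsub_apply, ind_apply, ind_apply, Finsupp.single_apply]
    by_cases h : v = w
    · subst h; simp [hv]
    · simp [h, Ne.symm h]

omit [CharZero K] in
lemma coeff_hom {p : MvPolynomial (Fin n) K} {i : ℕ} (hp : p.IsHomogeneous i)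
    {σ : Finset (Fin n)} (h : σ.card ≠ i) : coeff (ind σ) p = 0 :=
  hp.coeff_eq_zero (by rwa [ind_degree])

lemma exists_facet (Δ : Set (Finset (Fin n))) {σ : Finset (Fin n)} (h : σ ∈ Δ) :
    ∃ F, IsFacet Δ F ∧ σ ⊆ F := by
  obtain ⟨F, h1, h2⟩ := Set.Finite.exists_le_maximal (Set.toFinite Δ) h
  exact ⟨F, ⟨h2.1, fun G hG hFG => (h2.eq_of_le hG hFG).symm⟩, h1⟩

theorem slp (Δ : Set (Finset (Fin n))) (hΔ : IsLowerSet Δ) (hp : IsPure Δ) (hf : IsForest Δ)
    (i j : ℕ) : FullRank (idealA K Δ) ((∑ v, X v) ^ j) i (i + j) := by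
  classical
  obtain ⟨d, hd⟩ := hp
  have hL : ((∑ v, X v) ^ j : MvPolynomial (Fin n) K).IsHomogeneous j := by
    simpa using (IsHomogeneous.sum univ X 1 fun v _ => isHomogeneous_X K v).pow j
  by_cases h : 2 * i + j ≤ d
  · left
    intro p hp hm
    rw [mem_idealA Δ hΔ] at hm ⊢
    intro σ hσ
    by_cases hc : σ.card = i
    · obtain ⟨F, hF, hσF⟩ := exists_facet Δ hσ
      refine bool_inj F i j (fun τ => coeff (ind τ) p) (by rw [hd F hF]; exact h)
        (fun ρ hρ _ => ?_) σ hσF hc
      rw [← coeff_L]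
      exact hm ρ (hΔ hρ hF.1)
    · exact coeff_hom hp hc
  · right
    intro q hq
    obtain ⟨f, hf⟩ := forest_surj (K := K) Δ hf d (i + j) j hd (by omega)
      (univ.filter (IsFacet Δ)) (fun F hF => (mem_filter.1 hF).2) fun τ => coeff (ind τ) q
    have hp : (∑ τ ∈ univ.filter (fun τ : Finset (Fin n) => τ.card = i),
        monomial (ind τ) (f τ)).IsHomogeneous i :=
      IsHomogeneous.sum _ _ _ fun τ hτ => isHomogeneous_monomial _
        (by rw [ind_degree]; exact (mem_filter.1 hτ).2)
    refine ⟨_, hp, ?_⟩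
    rw [mem_idealA Δ hΔ]
    intro σ hσ
    by_cases hc : σ.card = i + j
    · obtain ⟨F, hF, hσF⟩ := exists_facet Δ hσ
      rw [coeff_sub, coeff_L, ← hf σ ⟨F, mem_filter.2 ⟨mem_univ _, hF⟩, hσF⟩ hc, sub_eq_zero]
      refine U_local j _ _ σ fun τ _ hτ => ?_
      rw [coeff_sum, Finset.sum_eq_single τ]
      · simp
      · intro ρ _ hne
        rw [coeff_monomial, if_neg fun e => hne (ind_inj e)]
      · intro h3
        exact absurd (mem_filter.2 ⟨mem_univ _, by omega⟩) h3
    · exact coeff_hom (((add_comm j i) ▸ hL.mul hp).sub hq) hc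

end Pool.Agent.H80.SF
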