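import Mathlib

/-! Simplicial forests and the algebra `A(Δ)`. -/

namespace Pool.Agent.H80.SF

open MvPolynomial

variable {n : ℕ}

/-- A facet: a maximal face. -/
def IsFacet (Δ : Set (Finset (Fin n))) (F : Finset (Fin n)) : Prop :=
  F ∈ Δ ∧ ∀ G ∈ Δ, F ⊆ G → G = F

/-- All facets have the same size. -/
def IsPure (Δ : Set (Finset (Fin n))) : Prop := ∃ d, ∀ F, IsFacet Δ F → F.card = d

/-- `F` is a leaf of the complex generated by the facets in `T`. -/
def IsLeaf (T : Set (Finset (Fin n))) (F : Finset (Fin n)) : Prop :=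
  F ∈ T ∧ (T = {F} ∨ ∃ G ∈ T, G ≠ F ∧ ∀ F' ∈ T, F' ≠ F → F ∩ F' ⊆ F ∩ G)

/-- Two facets lie in the same connected component. -/
def Conn (Δ : Set (Finset (Fin n))) : Finset (Fin n) → Finset (Fin n) → Prop :=
  Relation.ReflTransGen fun F G => IsFacet Δ F ∧ IsFacet Δ G ∧ (F ∩ G).Nonempty

/-- Every connected component is a simplicial tree: each nonempty set of facets of one component
has a leaf. -/
def IsForest (Δ : Set (Finset (Fin n))) : Prop :=
  ∀ T : Set (Finset (Fin n)), T.Nonempty → (∀ F ∈ T, IsFacet Δ F) →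
    (∀ F ∈ T, ∀ G ∈ T, Conn Δ F G) → ∃ F, IsLeaf T F

/-- The Stanley-Reisner ideal plus the squares of the variables. -/
noncomputable def idealA (K : Type) [Field K] (Δ : Set (Finset (Fin n))) :
    Ideal (MvPolynomial (Fin n) K) :=
  Ideal.span {p | ∃ σ, σ ∉ Δ ∧ p = ∏ i ∈ σ, X i} ⊔ Ideal.span {p | ∃ i, p = X i ^ 2}

/-- Multiplication by `M` from degree `i` to degree `k` of `S / I` is injective or surjective. -/
def FullRank {K : Type} [Field K] (I : Ideal (MvPolynomial (Fin n) K))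
    (M : MvPolynomial (Fin n) K) (i k : ℕ) : Prop :=
  (∀ p : MvPolynomial (Fin n) K, p.IsHomogeneous i → M * p ∈ I → p ∈ I) ∨
    ∀ q : MvPolynomial (Fin n) K, q.IsHomogeneous k →
      ∃ p : MvPolynomial (Fin n) K, p.IsHomogeneous i ∧ M * p - q ∈ I

end Pool.Agent.H80.SF
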