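import Mathlib

namespace Pool.Agent.H80.SR

open Matrix Kronecker

lemma comm_spec {ι : Type} [Fintype ι] [DecidableEq ι] (T U : Matrix ι ι ℂ) (h : T * U = U * T)
    {μ : ℂ} (hμ : μ ∈ spectrum ℂ (T + U)) :
    ∃ α ∈ spectrum ℂ T, μ - α ∈ spectrum ℂ U := by
  rw [← Matrix.spectrum_toLin', ← Module.End.hasEigenvalue_iff_mem_spectrum] at hμ
  set W := Module.End.eigenspace (Matrix.toLin' (T + U)) μ with hW
  have hmap : ∀ w ∈ W, Matrix.toLin' T w ∈ W := by
    intro w hw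
    rw [hW, Module.End.mem_eigenspace_iff] at hw ⊢
    have h1 : (T + U) * T = T * (T + U) := by rw [add_mul, mul_add, h]
    rw [← LinearMap.comp_apply, ← Matrix.toLin'_mul, h1, Matrix.toLin'_mul, LinearMap.comp_apply,
      hw, map_smul]
  have : Nontrivial W := Submodule.nontrivial_iff_ne_bot.mpr hμ
  obtain ⟨α, hα⟩ := Module.End.exists_eigenvalue ((Matrix.toLin' T).restrict hmap)
  obtain ⟨w, hw⟩ := hα.exists_hasEigenvector
  have hw0 : (w : ι → ℂ) ≠ 0 := fun h0 => hw.2 (Subtype.ext h0)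
  have hT : Matrix.toLin' T w = α • (w : ι → ℂ) := by
    have := congrArg Subtype.val hw.apply_eq_smul
    simpa [LinearMap.restrict_apply] using this
  have hS : Matrix.toLin' (T + U) w = μ • (w : ι → ℂ) := Module.End.mem_eigenspace_iff.mp w.2
  refine ⟨α, ?_, ?_⟩
  · rw [← Matrix.spectrum_toLin', ← Module.End.hasEigenvalue_iff_mem_spectrum]
    exact Module.End.hasEigenvalue_of_hasEigenvector
      ⟨Module.End.mem_eigenspace_iff.mpr hT, hw0⟩
  · rw [← Matrix.spectrum_toLin', ← Module.End.hasEigenvalue_iff_mem_spectrum]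
    refine Module.End.hasEigenvalue_of_hasEigenvector
      ⟨Module.End.mem_eigenspace_iff.mpr ?_, hw0⟩
    rw [map_add, LinearMap.add_apply, hT] at hS
    rw [sub_smul, ← hS]; abel

lemma spec_left {ι : Type} [Fintype ι] [DecidableEq ι] (M : Matrix ι ι ℂ) {α : ℂ}
    (h : α ∈ spectrum ℂ (M ⊗ₖ (1 : Matrix ι ι ℂ))) : α ∈ spectrum ℂ M := by
  by_contra hn
  apply h
  rw [spectrum.notMem_iff] at hn
  rw [spectrum.mem_resolventSet_iff]
  obtain ⟨u, hu⟩ := hn
  have e : algebraMap ℂ (Matrix (ι × ι) (ι × ι) ℂ) α - M ⊗ₖ (1 : Matrix ι ι ℂ)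
      = (u : Matrix ι ι ℂ) ⊗ₖ (1 : Matrix ι ι ℂ) := by
    rw [hu]
    ext ⟨i, k⟩ ⟨j, l⟩
    simp only [Matrix.algebraMap_matrix_apply, Matrix.sub_apply, Matrix.kroneckerMap_apply,
      Matrix.one_apply, Prod.mk.injEq]
    by_cases h1 : i = j <;> by_cases h2 : k = l <;> simp [h1, h2]
  rw [e]
  refine IsUnit.of_mul_eq_one ((u⁻¹ : (Matrix ι ι ℂ)ˣ) ⊗ₖ (1 : Matrix ι ι ℂ)) ?_
  rw [← Matrix.mul_kronecker_mul]; simp

lemma spec_right {ι : Type} [Fintype ι] [DecidableEq ι] (M : Matrix ι ι ℂ) {α : ℂ}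
    (h : α ∈ spectrum ℂ ((1 : Matrix ι ι ℂ) ⊗ₖ M)) : α ∈ spectrum ℂ M := by
  by_contra hn
  apply h
  rw [spectrum.notMem_iff] at hn
  rw [spectrum.mem_resolventSet_iff]
  obtain ⟨u, hu⟩ := hn
  have e : algebraMap ℂ (Matrix (ι × ι) (ι × ι) ℂ) α - (1 : Matrix ι ι ℂ) ⊗ₖ M
      = (1 : Matrix ι ι ℂ) ⊗ₖ (u : Matrix ι ι ℂ) := by
    rw [hu]
    ext ⟨i, k⟩ ⟨j, l⟩
    simp only [Matrix.algebraMap_matrix_apply, Matrix.sub_apply, Matrix.kroneckerMap_apply,
      Matrix.one_apply, Prod.mk.injEq]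
    by_cases h1 : i = j <;> by_cases h2 : k = l <;> simp [h1, h2]
  rw [e]
  refine IsUnit.of_mul_eq_one ((1 : Matrix ι ι ℂ) ⊗ₖ (u⁻¹ : (Matrix ι ι ℂ)ˣ)) ?_
  rw [← Matrix.mul_kronecker_mul]; simp

def Good {ι : Type} [Fintype ι] [DecidableEq ι] (M : Matrix ι ι ℝ) (x : ι) (ε : ℝ) : Prop :=
  (∀ i j, i ≠ j → 0 ≤ M i j) ∧ (∀ i, M i i ≤ 0) ∧ (∀ i, ∑ j, M i j - M i i ≤ 97 / 100) ∧
    M x x ≤ -201 / 100 ∧ (∀ i, i ≠ x → M i x ≤ ε) ∧
    ∀ μ ∈ spectrum ℂ (M.map (algebraMap ℝ ℂ)), ‖μ‖ < 1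

noncomputable def dbl {ι : Type} [DecidableEq ι] (M : Matrix ι ι ℝ) : Matrix (ι × ι) (ι × ι) ℝ :=
  fun p q => ((if p.2 = q.2 then M p.1 q.1 else 0) + (if p.1 = q.1 then M p.2 q.2 else 0)) / 2

lemma good_dbl {ι : Type} [Fintype ι] [DecidableEq ι] {M : Matrix ι ι ℝ} {x : ι} {ε : ℝ}
    (h : Good M x ε) : Good (dbl M) (x, x) (ε / 2) := by
  obtain ⟨h1, h2, h3, h4, h5, h6⟩ := h
  refine ⟨?_, ?_, ?_, ?_, ?_, ?_⟩
  · rintro ⟨i, k⟩ ⟨j, l⟩ hne
    unfold dbl
    by_cases a : i = j <;> by_cases b : k = l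
    · exact absurd (by rw [a, b]) hne
    · simp only [a, b, if_true, if_false]; have := h1 k l b; linarith
    · simp only [a, b, if_true, if_false]; have := h1 i j a; linarith
    · simp [a, b]
  · rintro ⟨i, k⟩
    have := h2 i; have := h2 k
    simp only [dbl, if_true]; linarith
  · rintro ⟨i, k⟩
    have e : ∑ q, dbl M (i, k) q = (∑ j, M i j + ∑ j, M k j) / 2 := by
      simp only [dbl]
      rw [← Finset.sum_div, Finset.sum_add_distrib]
      congr 2
      · rw [Fintype.sum_prod_type]; simp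
      · rw [Fintype.sum_prod_type_right]; simp
    rw [e]
    have := h3 i; have := h3 k
    simp only [dbl, if_true]; linarith
  · simp only [dbl, if_true]; linarith
  · rintro ⟨i, k⟩ hne
    unfold dbl
    by_cases a : i = x <;> by_cases b : k = x
    · exact absurd (by rw [a, b]) hne
    · simp only [a, b, if_true, if_false]; have := h5 k b; linarith
    · simp only [a, b, if_true, if_false]; have := h5 i a; linarith
    · have := h5 i a; have := h1 i x a
      simp only [a, b, if_false]; linarith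
  · intro μ hμ
    set N := M.map (algebraMap ℝ ℂ) with hN
    have e : (dbl M).map (algebraMap ℝ ℂ)
        = ((1 / 2 : ℂ) • N) ⊗ₖ (1 : Matrix ι ι ℂ) + (1 : Matrix ι ι ℂ) ⊗ₖ ((1 / 2 : ℂ) • N) := by
      ext ⟨i, k⟩ ⟨j, l⟩
      simp only [hN, dbl, Matrix.map_apply, Matrix.add_apply, Matrix.kroneckerMap_apply,
        Matrix.one_apply, Matrix.smul_apply, smul_eq_mul]
      by_cases a : i = j <;> by_cases b : k = l <;> simp [a, b] <;> ring
    rw [e] at hμ
    obtain ⟨α, hα, hβ⟩ := comm_spec _ _ (by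
      rw [← Matrix.mul_kronecker_mul, ← Matrix.mul_kronecker_mul]; simp) hμ
    have key : ∀ γ ∈ spectrum ℂ ((1 / 2 : ℂ) • N), ‖γ‖ < 1 / 2 := by
      intro γ hγ
      have h2' : (2 : ℂ) * γ ∈ spectrum ℂ N := by
        have u : IsUnit (1 / 2 : ℂ) := by simp
        have := (spectrum.smul_mem_smul_iff (a := N) (s := (2 : ℂ) * γ) (r := u.unit)).mp (by
          simpa [Units.smul_def, ← mul_assoc] using hγ)
        exact this
      have := h6 _ h2'
      rw [norm_mul] at this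
      simp at this
      linarith
    have a1 := key _ (spec_left _ hα)
    have a2 := key _ (spec_right _ hβ)
    have : ‖μ‖ ≤ ‖α‖ + ‖μ - α‖ := by
      calc ‖μ‖ = ‖α + (μ - α)‖ := by ring_nf
        _ ≤ _ := norm_add_le _ _
    linarith

lemma good_iter {ι : Type} [Fintype ι] [DecidableEq ι] {M : Matrix ι ι ℝ} {x : ι}
    (h : Good M x 1) (k : ℕ) : ∃ (κ : Type) (_ : Fintype κ) (_ : DecidableEq κ)
      (N : Matrix κ κ ℝ) (y : κ), Good N y (1 / 2 ^ k) := by
  induction k with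
  | zero => exact ⟨ι, inferInstance, inferInstance, M, x, by simpa using h⟩
  | succ k ih =>
    obtain ⟨κ, _, _, N, y, hN⟩ := ih
    refine ⟨κ × κ, inferInstance, inferInstance, dbl N, (y, y), ?_⟩
    have := good_dbl hN
    rwa [pow_succ, ← div_div]

lemma final {ι : Type} [Fintype ι] [DecidableEq ι] {M : Matrix ι ι ℝ} {x : ι}
    (h : Good M x (1 / 2 ^ 12)) : ∃ (A : Matrix ι ι ℝ) (E : ι → ℝ),
      (∀ i j, 0 ≤ A i j) ∧ (∀ i, ∑ j, A i j = 1) ∧ (∀ j, 0 ≤ E j) ∧ (∃ i, 3 ≤ E i) ∧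
      ∀ μ ∈ spectrum ℂ ((A - diagonal E).map (algebraMap ℝ ℂ)), ‖μ‖ < 1 := by
  obtain ⟨h1, h2, h3, h4, h5, h6⟩ := h
  let v : ι → ℝ := fun i => if i = x then 97 else 1
  have v0 : ∀ i, 0 < v i := fun i => by simp only [v]; split_ifs <;> norm_num
  let N : Matrix ι ι ℝ := fun i j => M i j * v j / v i
  have Nd : ∀ i, N i i = M i i := fun i => by
    simp only [N]; field_simp [(v0 i).ne']
  have split : ∀ (f : ι → ℝ) (i : ι), ∑ j, f j = f i + ∑ j ∈ Finset.univ.erase i, f j :=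
    fun f i => (Finset.add_sum_erase _ _ (Finset.mem_univ i)).symm
  have rx : ∑ j, N x j - N x x ≤ 1 / 100 := by
    rw [split _ x]
    have e : ∑ j ∈ Finset.univ.erase x, N x j = (∑ j ∈ Finset.univ.erase x, M x j) / 97 := by
      rw [Finset.sum_div]
      refine Finset.sum_congr rfl fun j hj => ?_
      simp [N, v, (Finset.mem_erase.mp hj).1]
    have := h3 x
    rw [split _ x] at this
    rw [e]; linarith
  have ri : ∀ i, ∑ j, N i j - N i i ≤ 1 := by
    intro i
    by_cases hi : i = x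
    · rw [hi]; linarith
    · have e : ∑ j, N i j = ∑ j, M i j + 96 * M i x := by
        rw [split (fun j => N i j) x, split (fun j => M i j) x]
        have : ∑ j ∈ Finset.univ.erase x, N i j = ∑ j ∈ Finset.univ.erase x, M i j := by
          refine Finset.sum_congr rfl fun j hj => ?_
          simp [N, v, (Finset.mem_erase.mp hj).1, hi]
        rw [this]
        simp [N, v, hi]; ring
      rw [e, Nd]
      have := h3 i; have := h5 i hi
      norm_num at this ⊢
      linarith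
  let E : ι → ℝ := fun i => 1 - ∑ j, N i j
  refine ⟨N + diagonal E, E, ?_, ?_, ?_, ⟨x, ?_⟩, ?_⟩
  · intro i j
    by_cases hij : i = j
    · subst hij
      have := ri i
      simp only [Matrix.add_apply, diagonal_apply_eq, E]; linarith
    · simp only [Matrix.add_apply, diagonal_apply_ne _ hij, add_zero, N]
      exact div_nonneg (mul_nonneg (h1 i j hij) (v0 j).le) (v0 i).le
  · intro i
    simp only [Matrix.add_apply, Finset.sum_add_distrib]
    simp [diagonal_apply, E]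
  · intro j
    have := ri j; have := h2 j; have := Nd j
    simp only [E]; linarith
  · have := Nd x
    simp only [E]; linarith
  · intro μ hμ
    rw [add_sub_cancel_right] at hμ
    apply h6
    let u : (Matrix ι ι ℂ)ˣ :=
      ⟨diagonal fun i => ((v i : ℂ))⁻¹, diagonal fun i => (v i : ℂ), by
        rw [diagonal_mul_diagonal, ← diagonal_one]; congr 1; funext i
        exact inv_mul_cancel₀ (by exact_mod_cast (v0 i).ne'), by
        rw [diagonal_mul_diagonal, ← diagonal_one]; congr 1; funext i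
        exact mul_inv_cancel₀ (by exact_mod_cast (v0 i).ne')⟩
    have e : N.map (algebraMap ℝ ℂ) = (u : Matrix ι ι ℂ) * M.map (algebraMap ℝ ℂ) *
        (u⁻¹ : (Matrix ι ι ℂ)ˣ) := by
      ext i j
      simp only [u, Units.inv_mk, mul_diagonal, diagonal_mul, Matrix.map_apply, N]
      simp; ring
    rwa [e, spectrum.units_conjugate] at hμ

end Pool.Agent.H80.SR
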