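import Pool.Agent.H80.SR1

namespace Pool.Agent.H80.SR

open Matrix

def fN {α : Type} (n : ℕ) (k : ℕ → α) : α :=
  match n with
  | 0 => k 0
  | m + 1 => k (m + 1)

def fI {α : Type} (x : ℤ) (k : ℤ → α) : α :=
  match x with
  | Int.ofNat n => fN n fun m => k (Int.ofNat m)
  | Int.negSucc n => fN n fun m => k (Int.negSucc m)

def fL {α : Type} : List ℤ → (List ℤ → α) → α
  | [], k => k []
  | x :: xs, k => fI x fun y => fL xs fun ys => k (y :: ys)

lemma fN_eq {α : Type} (n : ℕ) (k : ℕ → α) : fN n k = k n := by cases n <;> rfl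
lemma fI_eq {α : Type} (x : ℤ) (k : ℤ → α) : fI x k = k x := by
  cases x <;> simp [fI, fN_eq]
lemma fL_eq {α : Type} (L : List ℤ) (k : List ℤ → α) : fL L k = k L := by
  induction L generalizing k with
  | nil => rfl
  | cons x xs ih => simp [fL, fI_eq, ih]

def ent (L : List ℤ) (i j : ℕ) : ℤ := L.getD (8 * i + j) 0

def sq (L : List ℤ) : List ℤ :=
  (List.range 64).map fun p => ((List.range 8).map fun k => ent L (p / 8) k * ent L k (p % 8)).sum

def sqI : ℕ → List ℤ → List ℤ
  | 0, L => L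
  | n + 1, L => fL (sq L) (sqI n)

def toM (L : List ℤ) : Matrix (Fin 8) (Fin 8) ℤ := fun i j => ent L i j

lemma toM_sq (L : List ℤ) : toM (sq L) = toM L * toM L := by
  ext i j
  have h : 8 * (i : ℕ) + j < 64 := by omega
  have h1 : (8 * (i : ℕ) + j) / 8 = i := by omega
  have h2 : (8 * (i : ℕ) + j) % 8 = j := by omega
  have e : toM (sq L) i j = ((List.range 8).map fun k => ent L i k * ent L k j).sum := by
    show (sq L).getD (8 * (i : ℕ) + j) 0 = _
    unfold sq
    rw [List.getD_eq_getElem _ _ (by simpa using h)]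
    simp only [List.getElem_map, List.getElem_range, h1, h2]
  rw [e, Matrix.mul_apply, Fin.sum_univ_eight]
  simp [toM, List.range_succ, add_assoc]

lemma toM_sqI (n : ℕ) (L : List ℤ) : toM (sqI n L) = toM L ^ 2 ^ n := by
  induction n generalizing L with
  | zero => simp [sqI]
  | succ n ih => rw [sqI, fL_eq, ih, toM_sq, ← sq_eq_mul, ← pow_mul, pow_succ']
where sq_eq_mul : ∀ {M : Matrix (Fin 8) (Fin 8) ℤ}, M ^ 2 = M * M := fun {M} => pow_two M

def B : List ℤ :=
  [-20724074407, 10000000000, 0, 0, 0, 0, 0, 0,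
   0, -5817664373, 10000000000, 0, 0, 0, 0, 0,
   6789804335, 0, -5817664373, 3210195665, 0, 0, 0, 0,
   0, 7661291564, 0, -7321718124, 2338708436, 0, 0, 0,
   0, 0, 0, 0, -1553673529, 10000000000, 0, 0,
   0, 0, 0, 0, 0, -4661295068, 10000000000, 0,
   0, 0, 0, 0, 0, 0, -4661295068, 10000000000,
   0, 0, 0, 5676572472, 0, 4323427528, 0, -4661295068]

def chk (L : List ℤ) (b : ℕ) : Bool := L.all fun x => decide (8 * x.natAbs < b)

lemma cert : fL (sqI 11 B) (fun L => chk L (10310000000 ^ 2048)) = true := by decide +kernel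

lemma ent_lt {L : List ℤ} {b : ℕ} (hb : 0 < b) (h : chk L b = true) (i j : Fin 8) :
    8 * (toM L i j).natAbs < b := by
  unfold toM ent
  rw [List.getD_eq_getElem?_getD]
  cases hx : L[8 * (i : ℕ) + j]? with
  | none => simpa using hb
  | some x =>
    have := List.all_eq_true.mp h x (List.mem_of_getElem? hx)
    simpa using this

lemma spec_lt {N : Matrix (Fin 8) (Fin 8) ℂ} (h : ∀ i j, 8 * ‖N i j‖ < 1) {μ : ℂ}
    (hμ : μ ∈ spectrum ℂ N) : ‖μ‖ < 1 := by
  rw [← Matrix.spectrum_toLin', ← Module.End.hasEigenvalue_iff_mem_spectrum] at hμ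
  obtain ⟨w, hw⟩ := hμ.exists_hasEigenvector
  obtain ⟨i, hi⟩ := Finite.exists_max fun i => ‖w i‖
  have w0 : 0 < ‖w i‖ := by
    by_contra hn
    apply hw.2
    funext j
    have := hi j
    have : ‖w j‖ ≤ 0 := by linarith
    simpa using this
  have e := congrFun hw.apply_eq_smul i
  simp only [Matrix.toLin'_apply, Matrix.mulVec, dotProduct, Pi.smul_apply, smul_eq_mul] at e
  have h1 : ‖μ‖ * ‖w i‖ ≤ ∑ j, ‖N i j‖ * ‖w i‖ := by
    rw [← norm_mul, ← e]
    refine (norm_sum_le _ _).trans (Finset.sum_le_sum fun j _ => ?_)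
    rw [norm_mul]
    exact mul_le_mul_of_nonneg_left (hi j) (norm_nonneg _)
  rw [← Finset.sum_mul] at h1
  have h2 := le_of_mul_le_mul_right h1 w0
  rw [Fin.sum_univ_eight] at h2
  have := h i
  linarith [this 0, this 1, this 2, this 3, this 4, this 5, this 6, this 7]

noncomputable def M0 : Matrix (Fin 8) (Fin 8) ℝ := fun i j => (toM B i j : ℝ) / 10310000000

lemma spec_M0 : ∀ μ ∈ spectrum ℂ (M0.map (algebraMap ℝ ℂ)), ‖μ‖ < 1 := by
  intro μ hμ
  have e : M0.map (algebraMap ℝ ℂ)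
      = (1 / 10310000000 : ℂ) • (Int.castRingHom ℂ).mapMatrix (toM B) := by
    ext i j
    simp [M0]; ring
  have h1 := spectrum.pow_mem_pow _ 2048 hμ
  rw [e, smul_pow, ← map_pow] at h1
  have h2 : toM B ^ 2048 = toM (sqI 11 B) := by rw [toM_sqI]; norm_num
  rw [h2] at h1
  have hc := cert
  rw [fL_eq] at hc
  have hb : 0 < 10310000000 ^ 2048 := by positivity
  have h3 := ent_lt hb hc
  generalize toM (sqI 11 B) = P at h1 h3
  generalize 2048 = k at h1 h3
  have h4 := spec_lt (fun i j => by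
    have := h3 i j
    have h5 : (8 : ℝ) * ((P i j).natAbs : ℝ) < 10310000000 ^ k := by exact_mod_cast this
    have h6 : (0 : ℝ) < 10310000000 ^ k := by positivity
    simp only [Matrix.smul_apply, smul_eq_mul, norm_mul, norm_pow, RingHom.mapMatrix_apply,
      Matrix.map_apply, eq_intCast, Complex.norm_intCast, one_div, norm_inv, Complex.norm_ofNat,
      inv_pow]
    rw [Nat.cast_natAbs] at h5
    push_cast at h5
    rw [mul_left_comm, inv_mul_lt_iff₀ h6]; linarith) h1
  rw [norm_pow] at h4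
  by_contra hn
  have := one_le_pow₀ (n := k) (not_lt.mp hn)
  linarith

lemma good_M0 : Good M0 0 1 := by
  refine ⟨?_, ?_, ?_, ?_, ?_, spec_M0⟩
  · have : ∀ i j : Fin 8, i ≠ j → 0 ≤ toM B i j := by decide +kernel
    intro i j h
    have h1 : (0 : ℝ) ≤ toM B i j := by exact_mod_cast this i j h
    exact div_nonneg h1 (by norm_num)
  · have : ∀ i : Fin 8, toM B i i ≤ 0 := by decide +kernel
    intro i
    have h1 : (toM B i i : ℝ) ≤ 0 := by exact_mod_cast this i
    exact div_nonpos_of_nonpos_of_nonneg h1 (by norm_num)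
  · have : ∀ i : Fin 8, ∑ j, toM B i j - toM B i i ≤ 10000000000 := by decide +kernel
    intro i
    have h1 : (∑ j, (toM B i j : ℝ) - toM B i i : ℝ) ≤ 10000000000 := by exact_mod_cast this i
    simp only [M0]
    rw [← Finset.sum_div, ← sub_div, div_le_iff₀ (by norm_num)]
    linarith
  · have : toM B 0 0 = -20724074407 := by decide +kernel
    simp only [M0, this]; norm_num
  · have : ∀ i : Fin 8, i ≠ 0 → toM B i 0 ≤ 10000000000 := by decide +kernel
    intro i h
    have h1 : (toM B i 0 : ℝ) ≤ 10000000000 := by exact_mod_cast this i h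
    simp only [M0]
    rw [div_le_iff₀ (by norm_num)]
    linarith

theorem main : ∃ (n : ℕ) (A : Matrix (Fin n) (Fin n) ℝ) (E : Fin n → ℝ), 1 ≤ n ∧
    (∀ i j, 0 ≤ A i j) ∧ (∀ i, ∑ j, A i j = 1) ∧ (∀ j, 0 ≤ E j) ∧ (∃ i, 3 ≤ E i) ∧
    ∀ μ ∈ spectrum ℂ ((A - diagonal E).map (algebraMap ℝ ℂ)), ‖μ‖ < 1 := by
  obtain ⟨κ, _, _, N, y, hN⟩ := good_iter good_M0 12
  obtain ⟨A, E, h1, h2, h3, ⟨i, h4⟩, h5⟩ := final hN
  let e := Fintype.equivFin κ
  refine ⟨Fintype.card κ, reindex e e A, E ∘ e.symm, Fintype.card_pos_iff.mpr ⟨y⟩, ?_, ?_, ?_,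
    ⟨e i, by simpa using h4⟩, ?_⟩
  · intro i j; exact h1 _ _
  · intro i
    rw [← h2 (e.symm i)]
    exact e.symm.sum_comp fun j => A (e.symm i) j
  · intro j; exact h3 _
  · intro μ hμ
    apply h5
    have : ((reindex e e A - diagonal (E ∘ e.symm)).map (algebraMap ℝ ℂ))
        = reindexAlgEquiv ℂ ℂ e ((A - diagonal E).map (algebraMap ℝ ℂ)) := by
      ext i j
      by_cases h : i = j <;> simp [h]
    rwa [this, AlgEquiv.spectrum_eq] at hμ

end Pool.Agent.H80.SR
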