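import Pool.Agent.H80.STDefs

/-! Hilbert series along regular sequences of forms. -/

namespace Pool.Agent.H80.ST

open MvPolynomial Module

variable {K : Type} [Field K] {l : ℕ}

abbrev PS (K : Type) [Field K] (l : ℕ) : Type := MvPolynomial (Fin l) K

lemma hc_mul (a g : PS K l) (e t : ℕ) (hg : g.IsHomogeneous e) :
    homogeneousComponent (t + e) (a * g) = homogeneousComponent t a * g := by
  conv_lhs => rw [← sum_homogeneousComponent a, Finset.sum_mul, map_sum]
  have : ∀ i, homogeneousComponent (t + e) (homogeneousComponent i a * g) =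
      if i = t then homogeneousComponent t a * g else 0 := by
    intro i
    rw [homogeneousComponent_of_mem ((homogeneousComponent_isHomogeneous i a).mul hg)]
    by_cases h : i = t
    · simp [h]
    · rw [if_neg (by omega), if_neg h]
  simp only [this, Finset.sum_ite_eq', Finset.mem_range]
  split_ifs with h
  · rfl
  · rw [homogeneousComponent_eq_zero _ _ (by omega), zero_mul]

lemma hc_mul_lt (a g : PS K l) (e t : ℕ) (hg : g.IsHomogeneous e) (h : t < e) :
    homogeneousComponent t (a * g) = 0 := by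
  conv_lhs => rw [← sum_homogeneousComponent a, Finset.sum_mul, map_sum]
  refine Finset.sum_eq_zero fun i _ => ?_
  rw [homogeneousComponent_of_mem ((homogeneousComponent_isHomogeneous i a).mul hg),
    if_neg (by omega)]

def Hom (I : Ideal (PS K l)) : Prop := ∀ p ∈ I, ∀ k, homogeneousComponent k p ∈ I

def Nzd (I : Ideal (PS K l)) (f : PS K l) : Prop := ∀ q, f * q ∈ I → q ∈ I

lemma mem_sup_span {I : Ideal (PS K l)} {f p : PS K l} :
    p ∈ I ⊔ Ideal.span {f} ↔ ∃ i ∈ I, ∃ a, p = i + a * f := by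
  rw [Submodule.mem_sup]
  constructor
  · rintro ⟨i, hi, z, hz, rfl⟩
    obtain ⟨a, rfl⟩ := Ideal.mem_span_singleton'.1 hz
    exact ⟨i, hi, a, rfl⟩
  · rintro ⟨i, hi, a, rfl⟩
    exact ⟨i, hi, _, Ideal.mem_span_singleton'.2 ⟨a, rfl⟩, rfl⟩

lemma hom_bot : Hom (⊥ : Ideal (PS K l)) := by
  intro p hp k
  rw [Ideal.mem_bot] at hp ⊢
  simp [hp]

lemma hom_sup {I : Ideal (PS K l)} (hI : Hom I) {f : PS K l} {d : ℕ} (hf : f.IsHomogeneous d) :
    Hom (I ⊔ Ideal.span {f}) := by
  intro p hp k
  obtain ⟨i, hi, a, rfl⟩ := mem_sup_span.1 hp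
  rw [map_add]
  by_cases h : k < d
  · rw [hc_mul_lt _ _ _ _ hf h]
    exact mem_sup_span.2 ⟨_, hI _ hi k, 0, by simp⟩
  · obtain ⟨t, rfl⟩ : ∃ t, k = t + d := ⟨k - d, by omega⟩
    rw [hc_mul _ _ _ _ hf]
    exact mem_sup_span.2 ⟨_, hI _ hi _, _, rfl⟩

lemma Nzd.mul {I : Ideal (PS K l)} {f g : PS K l} (hf : Nzd I f) (hg : Nzd I g) :
    Nzd I (f * g) := fun q h => hg q (hf _ (by rwa [mul_assoc] at h))

lemma Nzd.swap {I : Ideal (PS K l)} {a b : PS K l} (ha : Nzd I a)
    (hb : Nzd (I ⊔ Ideal.span {a}) b) : Nzd (I ⊔ Ideal.span {b}) a := by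
  intro q hq
  obtain ⟨i, hi, r, h⟩ := mem_sup_span.1 hq
  have h1 : b * r ∈ I ⊔ Ideal.span {a} :=
    mem_sup_span.2 ⟨-i, I.neg_mem hi, q, by linear_combination -h⟩
  obtain ⟨j, hj, s, rfl⟩ := mem_sup_span.1 (hb _ h1)
  have h2 : a * (q - s * b) ∈ I := by
    have : a * (q - s * b) = i + b * j := by linear_combination h
    rw [this]
    exact I.add_mem hi (I.mul_mem_left _ hj)
  exact mem_sup_span.2 ⟨_, ha _ h2, s, by ring⟩

lemma sub_aeval_mem (J : Ideal (PS K l)) (g : Fin l → PS K l) (h : ∀ i, X i - g i ∈ J)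
    (p : PS K l) : p - aeval g p ∈ J := by
  induction p using MvPolynomial.induction_on with
  | C a => simp
  | add p q hp hq =>
    have := J.add_mem hp hq
    rw [map_add]
    convert this using 1
    ring
  | mul_X p i hp =>
    have := J.add_mem (J.mul_mem_left (X i) hp) (J.mul_mem_left (aeval g p) (h i))
    rw [map_mul, aeval_X]
    convert this using 1
    ring

lemma nzd_of_subst (J : Ideal (PS K l)) (g : Fin l → PS K l) (h : ∀ i, X i - g i ∈ J)
    (h2 : J ≤ RingHom.ker (aeval g : PS K l →ₐ[K] PS K l)) {f : PS K l} (hf : aeval g f ≠ 0) :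
    Nzd J f := by
  intro q hq
  have h3 : aeval g f * aeval g q = 0 := by
    rw [← map_mul]
    exact h2 hq
  have h4 := sub_aeval_mem J g h q
  rwa [(mul_eq_zero.1 h3).resolve_left hf, sub_zero] at h4

instance fin_hom (k : ℕ) : Module.Finite K (homogeneousSubmodule (Fin l) K k) :=
  Module.Finite.iff_fg.2 (homogeneousSubmodule_fg (Fin l) K k)

noncomputable def cf (I : Ideal (PS K l)) (k : ℕ) : ℕ :=
  finrank K ↥(homogeneousSubmodule (Fin l) K k ⊓ I.restrictScalars K)

lemma hf_add_cf (I : Ideal (PS K l)) (k : ℕ) :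
    hf I k + cf I k = finrank K (homogeneousSubmodule (Fin l) K k) := by
  have := LinearMap.finrank_range_add_finrank_ker
    ((Ideal.Quotient.mkₐ K I).toLinearMap.domRestrict (homogeneousSubmodule (Fin l) K k))
  rw [LinearMap.range_domRestrict, LinearMap.ker_domRestrict] at this
  rw [← this]
  unfold hf cf
  congr 1
  have e : (Ideal.Quotient.mkₐ K I).toLinearMap.ker = I.restrictScalars K := by
    ext p
    simp [Ideal.Quotient.eq_zero_iff_mem]
  rw [← Submodule.finrank_map_subtype_eq, Submodule.map_comap_subtype, e]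

lemma cf_lt {I : Ideal (PS K l)} (hI : Hom I) {f : PS K l} {d : ℕ} (hf : f.IsHomogeneous d)
    {k : ℕ} (hk : k < d) : cf (I ⊔ Ideal.span {f}) k = cf I k := by
  unfold cf
  refine congrArg (fun U : Submodule K (PS K l) => finrank K U) ?_
  ext p
  simp only [Submodule.mem_inf, Submodule.restrictScalars_mem, mem_homogeneousSubmodule]
  refine and_congr_right fun hp => ⟨fun h => ?_, fun h => Ideal.mem_sup_left h⟩
  obtain ⟨i, hi, a, h⟩ := mem_sup_span.1 h
  have := congrArg (homogeneousComponent k) h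
  rw [homogeneousComponent_eq_self hp, map_add, hc_mul_lt _ _ _ _ hf hk, add_zero] at this
  rw [this]
  exact hI _ hi _

lemma cf_ge {I : Ideal (PS K l)} (hI : Hom I) {f : PS K l} {d : ℕ} (hf : f.IsHomogeneous d)
    (h0 : f ≠ 0) (hn : Nzd I f) (k : ℕ) :
    cf (I ⊔ Ideal.span {f}) (k + d) + cf I k =
      cf I (k + d) + finrank K (homogeneousSubmodule (Fin l) K k) := by
  let m : PS K l →ₗ[K] PS K l := LinearMap.mulRight K f
  have hm : Function.Injective m := fun a b h => mul_right_cancel₀ h0 h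
  let U := homogeneousSubmodule (Fin l) K (k + d) ⊓ I.restrictScalars K
  let W := (homogeneousSubmodule (Fin l) K k).map m
  have : Module.Finite K U := Submodule.finiteDimensional_inf_left _ _
  have h1 := Submodule.finrank_sup_add_finrank_inf_eq U W
  have h2 : U ⊔ W = homogeneousSubmodule (Fin l) K (k + d) ⊓
      (I ⊔ Ideal.span {f}).restrictScalars K := by
    apply le_antisymm
    · refine sup_le (fun p hp => ⟨hp.1, Ideal.mem_sup_left hp.2⟩) ?_
      rintro _ ⟨a, ha, rfl⟩
      exact ⟨IsHomogeneous.mul ha hf, mem_sup_span.2 ⟨0, I.zero_mem, a, by simp [m]⟩⟩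
    · rintro p ⟨hp, h⟩
      obtain ⟨i, hi, a, h⟩ := mem_sup_span.1 h
      have := congrArg (homogeneousComponent (k + d)) h
      rw [homogeneousComponent_eq_self hp, map_add, hc_mul _ _ _ _ hf] at this
      rw [this]
      exact Submodule.add_mem_sup ⟨homogeneousComponent_mem _ _, hI _ hi _⟩
        ⟨_, homogeneousComponent_mem _ _, rfl⟩
  have h3 : U ⊓ W = (homogeneousSubmodule (Fin l) K k ⊓ I.restrictScalars K).map m := by
    apply le_antisymm
    · rintro _ ⟨hp, a, ha, rfl⟩
      exact ⟨a, ⟨ha, hn a (by rw [mul_comm]; exact hp.2)⟩, rfl⟩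
    · rintro _ ⟨a, ha, rfl⟩
      exact ⟨⟨IsHomogeneous.mul ha.1 hf, I.mul_mem_right _ ha.2⟩, a, ha.1, rfl⟩
  rw [h2, h3, ← (Submodule.equivMapOfInjective m hm _).finrank_eq,
    ← (Submodule.equivMapOfInjective m hm _).finrank_eq] at h1
  exact h1

/-- Hilbert series. -/
noncomputable def HS (I : Ideal (PS K l)) : PowerSeries ℚ := PowerSeries.mk fun k => (hf I k : ℚ)

lemma HS_sup {I : Ideal (PS K l)} (hI : Hom I) {f : PS K l} {d : ℕ} (hf : f.IsHomogeneous d)
    (h0 : f ≠ 0) (hn : Nzd I f) :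
    HS (I ⊔ Ideal.span {f}) = (1 - PowerSeries.X ^ d) * HS I := by
  ext k
  rw [sub_mul, one_mul, map_sub, PowerSeries.coeff_X_pow_mul']
  simp only [HS, PowerSeries.coeff_mk]
  split_ifs with h
  · obtain ⟨t, rfl⟩ : ∃ t, k = t + d := ⟨k - d, by omega⟩
    rw [Nat.add_sub_cancel, eq_sub_iff_add_eq]
    have h1 := cf_ge hI hf h0 hn t
    have h2 := hf_add_cf I t
    have h3 := hf_add_cf I (t + d)
    have h4 := hf_add_cf (I ⊔ Ideal.span {f}) (t + d)
    norm_cast
    omega
  · have h1 := cf_lt hI hf (not_le.1 h)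
    have h2 := hf_add_cf I k
    have h4 := hf_add_cf (I ⊔ Ideal.span {f}) k
    rw [sub_zero]
    norm_cast
    omega

lemma HS_max (J : Ideal (PS K l)) (h : ∀ i, X i ∈ J)
    (h2 : J ≤ RingHom.ker (aeval (fun _ => 0) : PS K l →ₐ[K] PS K l)) : HS J = 1 := by
  ext k
  simp only [HS, PowerSeries.coeff_mk, PowerSeries.coeff_one]
  have h3 := hf_add_cf J k
  split_ifs with hk
  · subst hk
    have h4 : cf J 0 = 0 := by
      unfold cf
      rw [Submodule.finrank_eq_zero, eq_bot_iff]
      rintro p ⟨hp, hJ⟩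
      have h5 : p = C (coeff 0 p) := by
        rw [← homogeneousComponent_zero, homogeneousComponent_eq_self hp]
      have h6 : aeval (fun _ => (0 : PS K l)) p = 0 := h2 hJ
      rw [h5] at h6 ⊢
      simpa using h6
    have h5 : finrank K (homogeneousSubmodule (Fin l) K 0) = 1 := by
      rw [homogeneousSubmodule_zero, Submodule.one_eq_span, finrank_span_singleton one_ne_zero]
    norm_cast
    omega
  · have h4 : cf J k = finrank K (homogeneousSubmodule (Fin l) K k) := by
      unfold cf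
      refine congrArg (fun U : Submodule K (PS K l) => finrank K U) ?_
      refine inf_eq_left.2 fun p hp => ?_
      have := sub_aeval_mem J (fun _ => 0) (by simpa using h) p
      rwa [aeval_zero', constantCoeff_eq,
        IsHomogeneous.coeff_eq_zero hp (by simpa using Ne.symm hk), map_zero, sub_zero] at this
    norm_cast
    omega

lemma isHilb_of {I : Ideal (PS K l)} {h : Polynomial ℚ} (e : HS I = h) : IsHilb I h := by
  intro k
  have := congrArg (PowerSeries.coeff k) e
  simp only [HS, PowerSeries.coeff_mk, Polynomial.coeff_coe] at this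
  exact this.symm

end Pool.Agent.H80.ST
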