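import Pool.Agent.H80.ST2

/-! The Solomon-Terao ideals of the example. -/

namespace Pool.Agent.H80.ST

open MvPolynomial Module

def av : Fin 6 → Fin 3 → ℤ :=
  ![![1, 0, 0], ![0, 1, 0], ![-1, 1, 0], ![1, 1, 0], ![0, 0, 1], ![-1, 0, 1]]

noncomputable def ac (i : Fin 6) : Fin 3 → ℂ := fun j => av i j

noncomputable def bc (i : Fin 2) : Fin 2 → ℂ := Pi.single i 1

open Classical in
noncomputable def A6 : Finset (Sub ℂ 3) := Finset.univ.image fun i => hyp (ac i)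

open Classical in
noncomputable def A2 : Finset (Sub ℂ 2) := Finset.univ.image fun i => hyp (bc i)

noncomputable def eta : PS ℂ 3 := X 0 ^ 2 + X 1 ^ 2 + X 2 ^ 2
noncomputable def mm (c : ℂ) : PS ℂ 3 := X 1 - C c * X 0
noncomputable def nn (c : ℂ) : PS ℂ 3 := X 2 - C c * X 0
noncomputable def f2 : PS ℂ 3 := nn 0 * (nn 0 * nn 1)
noncomputable def f3 : PS ℂ 3 := mm 0 * (mm 0 * (mm 1 * mm (-1)))

lemma ac_ne (i : Fin 6) : ac i ≠ 0 := by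
  have : ∀ i, ∃ j, av i j ≠ 0 := by decide
  obtain ⟨j, hj⟩ := this i
  intro h
  exact hj (by simpa [ac] using congrFun h j)

lemma bc_ne (i : Fin 2) : bc i ≠ 0 := by simp [bc]

lemma ne_of_eval {l : ℕ} {p : PS ℂ l} (v : Fin l → ℂ) (h : eval v p ≠ 0) : p ≠ 0 := by
  rintro rfl
  simp at h

lemma ker1 {l : ℕ} {g : Fin l → PS ℂ l} {I : Ideal (PS ℂ l)} {f : PS ℂ l}
    (h : I ≤ RingHom.ker (aeval g : PS ℂ l →ₐ[ℂ] PS ℂ l)) (hf : aeval g f = 0) :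
    I ⊔ Ideal.span {f} ≤ RingHom.ker (aeval g : PS ℂ l →ₐ[ℂ] PS ℂ l) :=
  sup_le h ((Ideal.span_singleton_le_iff_mem _).2 hf)

lemma mem_r {l : ℕ} {I : Ideal (PS ℂ l)} {f : PS ℂ l} : f ∈ I ⊔ Ideal.span {f} :=
  Ideal.mem_sup_right (Ideal.mem_span_singleton_self f)

lemma nzd_bot {l : ℕ} {f : PS ℂ l} (h : f ≠ 0) : Nzd ⊥ f := fun q hq => by
  rw [Ideal.mem_bot] at hq ⊢
  exact (mul_eq_zero.1 hq).resolve_left h

lemma nzd_m (c : ℂ) {f : PS ℂ 3} (v : Fin 3 → ℂ)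
    (hf : eval v (aeval ![X 0, C c * X 0, X 2] f : PS ℂ 3) ≠ 0) :
    Nzd (⊥ ⊔ Ideal.span {mm c}) f := by
  refine nzd_of_subst _ ![X 0, C c * X 0, X 2] (fun i => ?_) (ker1 bot_le (by simp [mm]))
    (ne_of_eval v hf)
  fin_cases i
  · simp
  · exact mem_r
  · simp

lemma nzd_n (c : ℂ) {f : PS ℂ 3} (v : Fin 3 → ℂ)
    (hf : eval v (aeval ![X 0, X 1, C c * X 0] f : PS ℂ 3) ≠ 0) :
    Nzd (⊥ ⊔ Ideal.span {nn c}) f := by
  refine nzd_of_subst _ ![X 0, X 1, C c * X 0] (fun i => ?_) (ker1 bot_le (by simp [nn]))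
    (ne_of_eval v hf)
  fin_cases i
  · simp
  · simp
  · exact mem_r

lemma nzd_mn (c e : ℂ) (h : 1 + c ^ 2 + e ^ 2 ≠ 0) :
    Nzd (⊥ ⊔ Ideal.span {mm c} ⊔ Ideal.span {nn e}) eta := by
  refine nzd_of_subst _ ![X 0, C c * X 0, C e * X 0] (fun i => ?_)
    (ker1 (ker1 bot_le (by simp [mm])) (by simp [nn])) (ne_of_eval ![1, 0, 0] (by simpa [eta]))
  fin_cases i
  · simp
  · exact Ideal.mem_sup_left mem_r
  · exact mem_r

lemma mm_ne (c : ℂ) : mm c ≠ 0 := ne_of_eval ![0, 1, 0] (by simp [mm])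
lemma nn_ne (c : ℂ) : nn c ≠ 0 := ne_of_eval ![0, 0, 1] (by simp [nn])
lemma eta_ne : eta ≠ 0 := ne_of_eval ![0, 0, 1] (by simp [eta])

lemma nzd_f2 : Nzd (⊥ ⊔ Ideal.span {eta}) f2 := by
  have : ∀ e, Nzd (⊥ ⊔ Ideal.span {eta}) (nn e) := fun e =>
    (nzd_bot (nn_ne e)).swap (nzd_n e ![0, 1, 0] (by simp [eta]))
  exact (this 0).mul ((this 0).mul (this 1))

lemma nzd_f3 : Nzd (⊥ ⊔ Ideal.span {eta} ⊔ Ideal.span {f2}) f3 := by
  have : ∀ c, 1 + c ^ 2 + 0 ^ 2 ≠ 0 → 1 + c ^ 2 + 1 ^ 2 ≠ 0 →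
      Nzd (⊥ ⊔ Ideal.span {eta} ⊔ Ideal.span {f2}) (mm c) := by
    intro c h0 h1
    refine ((nzd_bot (mm_ne c)).swap (nzd_m c ![0, 0, 1] (by simp [eta]))).swap ?_
    rw [sup_right_comm]
    have : ∀ e, 1 + c ^ 2 + e ^ 2 ≠ 0 →
        Nzd (⊥ ⊔ Ideal.span {mm c} ⊔ Ideal.span {eta}) (nn e) := fun e he =>
      (nzd_m c ![0, 0, 1] (by simp [nn])).swap (nzd_mn c e he)
    exact (this 0 h0).mul ((this 0 h0).mul (this 1 h1))
  have h0 := this 0 (by norm_num) (by norm_num)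
  exact h0.mul (h0.mul ((this 1 (by norm_num) (by norm_num)).mul
    (this (-1) (by norm_num) (by norm_num))))

lemma hX {l : ℕ} (i : Fin l) : (X i : PS ℂ l).IsHomogeneous 1 := isHomogeneous_X ℂ i
lemma hom_mm (c : ℂ) : (mm c).IsHomogeneous 1 := (hX 1).sub ((hX 0).C_mul c)
lemma hom_nn (c : ℂ) : (nn c).IsHomogeneous 1 := (hX 2).sub ((hX 0).C_mul c)
lemma hom_eta : eta.IsHomogeneous 2 := (((hX 0).pow 2).add ((hX 1).pow 2)).add ((hX 2).pow 2)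
lemma hom_f2 : f2.IsHomogeneous 3 := (hom_nn 0).mul ((hom_nn 0).mul (hom_nn 1))
lemma hom_f3 : f3.IsHomogeneous 4 :=
  (hom_mm 0).mul ((hom_mm 0).mul ((hom_mm 1).mul (hom_mm (-1))))

lemma HS_bot3 : (1 - PowerSeries.X) ^ 3 * HS (⊥ : Ideal (PS ℂ 3)) = 1 := by
  have h1 := HS_sup hom_bot (hX 0) (X_ne_zero (0 : Fin 3)) (nzd_bot (X_ne_zero _))
  have h2 := HS_sup (hom_sup hom_bot (hX 0)) (hX 1) (X_ne_zero (1 : Fin 3))
    (nzd_of_subst _ ![0, X 1, X 2] (fun i => by fin_cases i <;> simp)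
      (ker1 bot_le (by simp)) (by simp))
  have h3 := HS_sup (hom_sup (hom_sup hom_bot (hX 0)) (hX 1)) (hX 2) (X_ne_zero (2 : Fin 3))
    (nzd_of_subst _ ![0, 0, X 2] (fun i => by
        fin_cases i
        · simpa using Ideal.mem_sup_left (Ideal.mem_span_singleton_self _)
        · simpa using mem_r
        · simp)
      (ker1 (ker1 bot_le (by simp)) (by simp)) (by simp))
  rw [HS_max _ (fun i => by
      fin_cases i
      · exact Ideal.mem_sup_left (Ideal.mem_sup_left mem_r)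
      · exact Ideal.mem_sup_left mem_r
      · exact mem_r)
    (ker1 (ker1 (ker1 bot_le (by simp)) (by simp)) (by simp)), h2, h1] at h3
  linear_combination -h3

lemma HS_bot2 : (1 - PowerSeries.X) ^ 2 * HS (⊥ : Ideal (PS ℂ 2)) = 1 := by
  have h1 := HS_sup hom_bot (hX 0) (X_ne_zero (0 : Fin 2)) (nzd_bot (X_ne_zero _))
  have h2 := HS_sup (hom_sup hom_bot (hX 0)) (hX 1) (X_ne_zero (1 : Fin 2))
    (nzd_of_subst _ ![0, X 1] (fun i => by fin_cases i <;> simp)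
      (ker1 bot_le (by simp)) (by simp))
  rw [HS_max _ (fun i => by
      fin_cases i
      · exact Ideal.mem_sup_left mem_r
      · exact mem_r)
    (ker1 (ker1 bot_le (by simp)) (by simp)), h1] at h2
  linear_combination -h2

lemma one_sub_ne : (1 - PowerSeries.X : PowerSeries ℚ) ≠ 0 := by
  intro h
  simpa using congrArg PowerSeries.constantCoeff h

noncomputable def hA : Polynomial ℚ := (1 + .X) * (1 + .X + .X ^ 2) * (1 + .X + .X ^ 2 + .X ^ 3)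

noncomputable def hH : Polynomial ℚ := (1 + .X) ^ 2

lemma HS_J : HS (⊥ ⊔ Ideal.span {eta} ⊔ Ideal.span {f2} ⊔ Ideal.span {f3}) = hA := by
  have n2 : f2 ≠ 0 := mul_ne_zero (nn_ne _) (mul_ne_zero (nn_ne _) (nn_ne _))
  have n3 : f3 ≠ 0 :=
    mul_ne_zero (mm_ne _) (mul_ne_zero (mm_ne _) (mul_ne_zero (mm_ne _) (mm_ne _)))
  rw [HS_sup (hom_sup (hom_sup hom_bot hom_eta) hom_f2) hom_f3 n3 nzd_f3,
    HS_sup (hom_sup hom_bot hom_eta) hom_f2 n2 nzd_f2,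
    HS_sup hom_bot hom_eta eta_ne (nzd_bot eta_ne)]
  apply mul_left_cancel₀ (pow_ne_zero 3 one_sub_ne)
  have := HS_bot3
  simp only [hA, Polynomial.coe_mul, Polynomial.coe_add, Polynomial.coe_one, Polynomial.coe_X,
    Polynomial.coe_pow]
  linear_combination (1 - PowerSeries.X ^ 4) * (1 - PowerSeries.X ^ 3) *
    (1 - PowerSeries.X ^ 2) * this

lemma HS_J2 : HS (⊥ ⊔ Ideal.span {(X 0 ^ 2 : PS ℂ 2)} ⊔ Ideal.span {X 1 ^ 2}) = hH := by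
  have h : Nzd (⊥ ⊔ Ideal.span {(X 0 ^ 2 : PS ℂ 2)}) (X 1) := by
    refine (nzd_bot (X_ne_zero _)).swap (nzd_of_subst _ ![X 0, 0]
      (fun i => by fin_cases i <;> simp) (ker1 bot_le (by simp)) (by simp))
  rw [HS_sup (hom_sup hom_bot ((hX 0).pow 2)) ((hX 1).pow 2) (by simp) (sq (X 1 : PS ℂ 2) ▸ h.mul h),
    HS_sup hom_bot ((hX 0).pow 2) (by simp) (nzd_bot (by simp))]
  apply mul_left_cancel₀ (pow_ne_zero 2 one_sub_ne)
  have := HS_bot2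
  simp only [hH, Polynomial.coe_mul, Polynomial.coe_add, Polynomial.coe_one, Polynomial.coe_X,
    Polynomial.coe_pow]
  linear_combination (1 - PowerSeries.X ^ 2) ^ 2 * this

lemma dvd_iff {l : ℕ} {f p : PS ℂ l} : p ∈ ⊥ ⊔ Ideal.span {f} ↔ f ∣ p := by
  rw [bot_sup_eq, Ideal.mem_span_singleton]

lemma log6 (θ : Derivation ℂ (PS ℂ 3) (PS ℂ 3)) : IsLog A6 θ ↔
    X 0 ∣ θ (X 0) ∧ mm 0 ∣ θ (X 1) ∧ mm 1 ∣ θ (X 1) - θ (X 0) ∧ mm (-1) ∣ θ (X 1) + θ (X 0) ∧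
      nn 0 ∣ θ (X 2) ∧ nn 1 ∣ θ (X 2) - θ (X 0) := by
  have e0 : lin (ac 0) = X 0 := by simp [lin, ac, av, Fin.sum_univ_three]
  have e1 : lin (ac 1) = X 1 := by simp [lin, ac, av, Fin.sum_univ_three]
  have e2 : lin (ac 2) = X 1 - X 0 := by simp [lin, ac, av, Fin.sum_univ_three]; ring
  have e3 : lin (ac 3) = X 1 + X 0 := by simp [lin, ac, av, Fin.sum_univ_three]; ring
  have e4 : lin (ac 4) = X 2 := by simp [lin, ac, av, Fin.sum_univ_three]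
  have e5 : lin (ac 5) = X 2 - X 0 := by simp [lin, ac, av, Fin.sum_univ_three]; ring
  rw [A6, isLog_iff ac ac_ne]
  simp [Fin.forall_fin_succ, e0, e1, e2, e3, e4, e5, mm, nn]

lemma der_eta (θ : Derivation ℂ (PS ℂ 3) (PS ℂ 3)) :
    θ eta = 2 * (X 0 * θ (X 0) + X 1 * θ (X 1) + X 2 * θ (X 2)) := by
  simp [eta, sq]
  ring

lemma mem_of_two {l : ℕ} {I : Ideal (PS ℂ l)} {p : PS ℂ l} (h : 2 * p ∈ I) : p ∈ I := by
  have := I.mul_mem_left (C (1 / 2)) h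
  rwa [← mul_assoc, show (2 : PS ℂ l) = C 2 from rfl, ← map_mul, one_div_mul_cancel two_ne_zero,
    map_one, one_mul] at this

lemma st6 : stIdeal A6 eta = ⊥ ⊔ Ideal.span {eta} ⊔ Ideal.span {f2} ⊔ Ideal.span {f3} := by
  apply le_antisymm
  · rw [stIdeal, Ideal.span_le]
    rintro _ ⟨θ, hθ, rfl⟩
    obtain ⟨⟨f, h0⟩, ⟨r, h1⟩, h2, h3, ⟨u, h4⟩, h5⟩ := (log6 θ).1 hθ
    have k2 : mm 0 * (r - f) ∈ ⊥ ⊔ Ideal.span {mm 1} := by
      rw [dvd_iff]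
      convert dvd_sub h2 (dvd_mul_right _ f) using 1
      rw [h0, h1]
      simp only [mm, map_zero, map_one]
      ring
    obtain ⟨s, hs⟩ := dvd_iff.1 (nzd_m 1 ![1, 0, 0] (by simp [mm]) _ k2)
    have k3 : (mm 0 * mm 1) * s ∈ ⊥ ⊔ Ideal.span {mm (-1)} := by
      rw [dvd_iff, mul_assoc, ← hs]
      convert dvd_sub h3 (dvd_mul_right _ f) using 1
      rw [h0, h1]
      simp only [mm, map_zero, map_one, map_neg]
      ring
    obtain ⟨t, ht⟩ := dvd_iff.1 (nzd_m (-1) ![1, 0, 0] (by simp [mm]) _ k3)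
    have k5 : nn 0 * (u - f) ∈ ⊥ ⊔ Ideal.span {nn 1} := by
      rw [dvd_iff]
      convert dvd_sub h5 (dvd_mul_right _ f) using 1
      rw [h0, h4]
      simp only [nn, map_zero, map_one]
      ring
    obtain ⟨w, hw⟩ := dvd_iff.1 (nzd_n 1 ![1, 0, 0] (by simp [nn]) _ k5)
    have : θ eta = (2 * f) * eta + (2 * w) * f2 + (2 * t) * f3 := by
      rw [der_eta, h0, h1, h4, eq_add_of_sub_eq hs, eq_add_of_sub_eq hw, ht]
      simp only [eta, f2, f3, mm, nn, map_zero]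
      ring
    rw [SetLike.mem_coe, this]
    exact Ideal.add_mem _ (Ideal.add_mem _
      (Ideal.mul_mem_left _ _ (Ideal.mem_sup_left (Ideal.mem_sup_left mem_r)))
      (Ideal.mul_mem_left _ _ (Ideal.mem_sup_left mem_r))) (Ideal.mul_mem_left _ _ mem_r)
  · have key : ∀ (v : Fin 3 → PS ℂ 3) (p : PS ℂ 3), IsLog A6 (mkDerivation ℂ v) →
        p = X 0 * v 0 + X 1 * v 1 + X 2 * v 2 → Ideal.span {p} ≤ stIdeal A6 eta := by
      intro v p h hp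
      rw [Ideal.span_singleton_le_iff_mem]
      refine mem_of_two (Ideal.subset_span ⟨_, h, ?_⟩)
      simp [der_eta, hp]
    refine sup_le (sup_le (sup_le bot_le (key X _ ?_ ?_)) (key ![0, 0, nn 0 * nn 1] _ ?_ ?_))
      (key ![0, mm 0 * (mm 1 * mm (-1)), 0] _ ?_ ?_)
    · simp [log6, mm, nn]
    · simp [eta, sq]
    · simp [log6]
    · simp [f2, nn]
    · simp only [log6, mkDerivation_X]
      simp [dvd_mul_of_dvd_right]
    · simp [f3, mm]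

lemma st2 : stIdeal A2 (X 0 ^ 2 + X 1 ^ 2) =
    ⊥ ⊔ Ideal.span {(X 0 ^ 2 : PS ℂ 2)} ⊔ Ideal.span {X 1 ^ 2} := by
  have e : ∀ i, lin (bc i) = X i := by
    intro i
    fin_cases i <;> simp [lin, bc]
  have lg : ∀ θ, IsLog A2 θ ↔ X 0 ∣ θ (X 0) ∧ X 1 ∣ θ (X 1) := by
    intro θ
    rw [A2, isLog_iff bc bc_ne]
    simp [e]
  have de : ∀ θ : Derivation ℂ (PS ℂ 2) (PS ℂ 2),
      θ (X 0 ^ 2 + X 1 ^ 2) = 2 * (X 0 * θ (X 0) + X 1 * θ (X 1)) := by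
    intro θ
    simp [sq]
    ring
  apply le_antisymm
  · rw [stIdeal, Ideal.span_le]
    rintro _ ⟨θ, hθ, rfl⟩
    obtain ⟨⟨f, h0⟩, ⟨r, h1⟩⟩ := (lg θ).1 hθ
    have : θ (X 0 ^ 2 + X 1 ^ 2) = (2 * f) * X 0 ^ 2 + (2 * r) * X 1 ^ 2 := by
      rw [de, h0, h1]
      ring
    rw [SetLike.mem_coe, this]
    exact Ideal.add_mem _ (Ideal.mul_mem_left _ _ (Ideal.mem_sup_left mem_r))
      (Ideal.mul_mem_left _ _ mem_r)
  · have key : ∀ (v : Fin 2 → PS ℂ 2) (p : PS ℂ 2), IsLog A2 (mkDerivation ℂ v) →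
        p = X 0 * v 0 + X 1 * v 1 → Ideal.span {p} ≤ stIdeal A2 (X 0 ^ 2 + X 1 ^ 2) := by
      intro v p h hp
      rw [Ideal.span_singleton_le_iff_mem]
      refine mem_of_two (Ideal.subset_span ⟨_, h, ?_⟩)
      rw [de]
      simp [hp]
    refine sup_le (sup_le bot_le (key ![X 0, 0] _ ?_ ?_)) (key ![0, X 1] _ ?_ ?_)
    all_goals simp [lg, sq]

end Pool.Agent.H80.ST
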