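import Mathlib

/-! Hyperplane arrangements, Solomon-Terao algebras and Poincaré polynomials. -/

namespace Pool.Agent.H80.ST

open MvPolynomial

variable {K : Type} [Field K] {l m : ℕ}

/-- Linear subspaces of `K^l`. -/
abbrev Sub (K : Type) [Field K] (l : ℕ) : Type := Submodule K (Fin l → K)

/-- The zero set of the linear form with coefficient vector `a`. -/
def hyp (a : Fin l → K) : Sub K l := LinearMap.ker (Fintype.linearCombination K a)

/-- The linear form with coefficient vector `a`. -/
noncomputable def lin (a : Fin l → K) : MvPolynomial (Fin l) K := ∑ i, C (a i) * X i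

/-- Every member is a hyperplane. -/
def IsArr (A : Finset (Sub K l)) : Prop := ∀ H ∈ A, ∃ a, a ≠ 0 ∧ H = hyp a

/-- `θ ∈ D(A)`. -/
def IsLog (A : Finset (Sub K l))
    (θ : Derivation K (MvPolynomial (Fin l) K) (MvPolynomial (Fin l) K)) : Prop :=
  ∀ a, hyp a ∈ A → lin a ∣ θ (lin a)

/-- The Solomon-Terao ideal `{θ η : θ ∈ D(A)}`. -/
noncomputable def stIdeal (A : Finset (Sub K l)) (η : MvPolynomial (Fin l) K) :
    Ideal (MvPolynomial (Fin l) K) :=
  Ideal.span {p | ∃ θ, IsLog A θ ∧ p = θ η}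

/-- `dim (S / I)_k`. -/
noncomputable def hf (I : Ideal (MvPolynomial (Fin l) K)) (k : ℕ) : ℕ :=
  Module.finrank K
    ((homogeneousSubmodule (Fin l) K k).map (Ideal.Quotient.mkₐ K I).toLinearMap)

/-- `h` is the Hilbert series of `S / I`. -/
def IsHilb (I : Ideal (MvPolynomial (Fin l) K)) (h : Polynomial ℚ) : Prop :=
  ∀ k, h.coeff k = hf I k

open Classical in
/-- The intersection lattice. -/
noncomputable def lat (A : Finset (Sub K l)) : Finset (Sub K l) :=
  A.powerset.image fun B => B.inf id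

/-- `η ∈ U_2(A)`: a quadratic form non-degenerate on every `X ∈ L(A)`. -/
def InU2 (A : Finset (Sub K l)) (η : MvPolynomial (Fin l) K) : Prop :=
  η.IsHomogeneous 2 ∧ ∀ X ∈ lat A, ∀ p ∈ X,
    (∀ v ∈ X, ∑ i, v i * eval p (pderiv i η) = 0) → p = 0

open Classical in
/-- `μ` is the Möbius function of `L(A)`. -/
def IsMobius (A : Finset (Sub K l)) (μ : Sub K l → ℚ) : Prop :=
  μ ⊤ = 1 ∧ ∀ X ∈ lat A, X ≠ ⊤ → ∑ Y ∈ (lat A).filter (X ≤ ·), μ Y = 0

/-- `π` is the Poincaré polynomial of `A`. -/
def IsPoin (A : Finset (Sub K l)) (π : Polynomial ℚ) : Prop :=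
  ∃ μ, IsMobius A μ ∧
    π = ∑ X ∈ lat A, Polynomial.C (μ X) * (-Polynomial.X) ^ (l - Module.finrank K X)

/-- `M` parametrizes `H`: an injective linear map `K^m → K^l` with image `H`. -/
def IsParam (M : Matrix (Fin l) (Fin m) K) (H : Sub K l) : Prop :=
  Function.Injective M.mulVecLin ∧ LinearMap.range M.mulVecLin = H

open Classical in
/-- The restriction `A^H`, read in `K^m` through `M`. -/
noncomputable def resArr (A : Finset (Sub K l)) (H : Sub K l) (M : Matrix (Fin l) (Fin m) K) :
    Finset (Sub K m) :=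
  (A.erase H).image fun L => L.comap M.mulVecLin

/-- The restriction `η|_H`, read in `K^m` through `M`. -/
noncomputable def resPoly (η : MvPolynomial (Fin l) K) (M : Matrix (Fin l) (Fin m) K) :
    MvPolynomial (Fin m) K :=
  aeval (fun i => lin (M i)) η

end Pool.Agent.H80.ST
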