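import Mathlib

namespace Pool.Agent.H80.Shadow

open Set Filter Topology
open scoped ENNReal

/-- Euclidean space of dimension `N`. -/
abbrev Euc (N : ℕ) := EuclideanSpace ℝ (Fin N)

variable {N : ℕ}

/-- The intrinsic distance: the infimum of the lengths of the paths in `M` from `p` to `q`. -/
noncomputable def dM (M : Set (Euc N)) (p q : Euc N) : ℝ≥0∞ :=
  ⨅ (c : Path p q) (_ : ∀ t, c t ∈ M), eVariationOn c univ

/-- `(M, d_M)` is a geodesic metric space. -/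
def Geodesic (M : Set (Euc N)) : Prop :=
  ∀ p ∈ M, ∀ q ∈ M, dM M p q ≠ ⊤ ∧ ∃ c : ℝ → Euc N, c 0 = p ∧ c (dM M p q).toReal = q ∧
    (∀ s ∈ Icc 0 (dM M p q).toReal, c s ∈ M) ∧
    ∀ s ∈ Icc 0 (dM M p q).toReal, ∀ t ∈ Icc 0 (dM M p q).toReal,
      dM M (c s) (c t) = ENNReal.ofReal |s - t|

/-- Condition (M1). -/
def CondM1 (M : Set (Euc N)) : Prop :=
  ∃ ρ : ℝ, 0 < ρ ∧ ∀ (X : Type) [TopologicalSpace X] (f g : C(X, M)),
    (∀ x, dM M (f x) (g x) < ENNReal.ofReal ρ) → f.Homotopic g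

/-- Condition (M2). -/
def CondM2 (M : Set (Euc N)) : Prop :=
  ∃ δ ξ : ℝ, 0 < δ ∧ 1 < ξ ∧ ∀ p ∈ M, ∀ q ∈ M, ‖p - q‖ < δ →
    ENNReal.ofReal ‖p - q‖ ≤ dM M p q ∧ dM M p q ≤ ENNReal.ofReal (ξ * ‖p - q‖)

/-- The closed `r`-neighbourhood `N_r(M)`. -/
def nbd (r : ℝ) (M : Set (Euc N)) : Set (Euc N) := {x | Metric.infDist x M ≤ r}

/-- A neighbourhood `U` of `M` with a retraction `π : U → M` satisfying condition (M3). -/
def CondM3 (M : Set (Euc N)) : Prop :=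
  ∃ (U : Set (Euc N)) (π : Euc N → Euc N), U ∈ 𝓝ˢ M ∧ ContinuousOn π U ∧ MapsTo π U M ∧
    (∀ p ∈ M, π p = p) ∧ ∃ ε : ℝ → ℝ,
      (∀ r, 0 < r → nbd r M ⊆ U → 0 < ε r ∧ ∀ x ∈ nbd r M, ‖π x - x‖ < ε r) ∧
      Tendsto ε (𝓝[>] 0) (𝓝 0)

/-- The shadow of the Euclidean Vietoris-Rips complex of `S` at scale `β`. -/
def shadow (β : ℝ) (S : Finset (Euc N)) : Set (Euc N) :=
  ⋃ (σ : Finset (Euc N)) (_ : σ ⊆ S ∧ σ.Nonempty ∧ Metric.diam (σ : Set (Euc N)) < β),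
    convexHull ℝ (σ : Set (Euc N))

end Pool.Agent.H80.Shadow
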