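import Mathlib
import Pool.Agent.H80.ShadowDefs

namespace Pool.Agent.H80.Shadow

open Set Filter Topology unitInterval
open scoped ENNReal NNReal

lemma var_le_of_path {E : Type} [PseudoEMetricSpace E] (γ : ℝ → E) {τ : I → ℝ} (hτ : Continuous τ)
    {x y : ℝ} (h0 : τ 0 = x) (h1 : τ 1 = y) :
    eVariationOn γ (Icc x y) ≤ eVariationOn (γ ∘ τ) univ := by
  have key : ∀ t : ℝ, ∃ s : I, t ∈ Icc x y → IsLeast {s | t ≤ τ s} s := by
    intro t
    by_cases ht : t ∈ Icc x y
    · obtain ⟨s, hs⟩ := (isClosed_le continuous_const hτ : IsClosed {s | t ≤ τ s}).isCompact.exists_isLeast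
        ⟨1, by show t ≤ τ 1; rw [h1]; exact ht.2⟩
      exact ⟨s, fun _ => hs⟩
    · exact ⟨0, fun h => absurd h ht⟩
  choose ς hσ using key
  have hm : MonotoneOn ς (Icc x y) := fun a ha b hb hab =>
    (hσ a ha).2 (le_trans hab (hσ b hb).1)
  have he : EqOn γ ((γ ∘ τ) ∘ ς) (Icc x y) := by
    intro t ht
    obtain ⟨s, hs, hs2⟩ := intermediate_value_Icc (show (0 : I) ≤ ς t from bot_le) hτ.continuousOn
      (show t ∈ Icc (τ 0) (τ (ς t)) from ⟨h0 ▸ ht.1, (hσ t ht).1⟩)
    have : s = ς t := le_antisymm hs.2 ((hσ t ht).2 hs2.ge)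
    simp only [Function.comp]
    rw [← this, hs2]
  rw [eVariationOn.eq_of_eqOn he]
  exact eVariationOn.comp_le_of_monotoneOn _ _ hm (mapsTo_univ _ _)

variable {N : ℕ}

lemma dM_symm_le (M : Set (Euc N)) (p q : Euc N) : dM M p q ≤ dM M q p := by
  refine le_iInf₂ fun c hc => iInf₂_le_of_le c.symm (fun t => hc _) ?_
  exact eVariationOn.comp_le_of_antitoneOn c σ (fun a _ b _ hab => symm_le_symm.2 hab)
    (mapsTo_univ _ _)

lemma dM_symm (M : Set (Euc N)) (p q : Euc N) : dM M p q = dM M q p :=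
  le_antisymm (dM_symm_le _ _ _) (dM_symm_le _ _ _)

/-- A Lipschitz graph over the coordinate `i`. -/
structure Graph (γ : ℝ → Euc N) (i : Fin N) (L : ℝ≥0) : Prop where
  lip : LipschitzWith L γ
  coord : ∀ x, γ x i = x

namespace Graph
variable {γ : ℝ → Euc N} {i : Fin N} {L : ℝ≥0} (G : Graph γ i L)
include G

lemma le_dist (x y : ℝ) : |x - y| ≤ ‖γ x - γ y‖ := by
  have := PiLp.norm_apply_le (γ x - γ y) i
  simpa [G.coord] using this

lemma dM_eq {x y : ℝ} (hx : x ∈ Icc (0 : ℝ) 1) (hy : y ∈ Icc (0 : ℝ) 1) (hxy : x ≤ y) :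
    dM (γ '' Icc 0 1) (γ x) (γ y) = eVariationOn γ (Icc x y) := by
  apply le_antisymm
  · let φ : I → ℝ := fun t => x + t * (y - x)
    have hφ : ∀ t : I, φ t ∈ Icc x y := fun t =>
      ⟨by have := t.2.1; simp only [φ]; nlinarith, by have := t.2.2; simp only [φ]; nlinarith⟩
    let c : Path (γ x) (γ y) :=
      { toFun := γ ∘ φ
        continuous_toFun := G.lip.continuous.comp (by fun_prop)
        source' := by simp [φ]
        target' := by simp [φ] }
    refine iInf₂_le_of_le c (fun t => ⟨φ t, ⟨hx.1.trans (hφ t).1, (hφ t).2.trans hy.2⟩, rfl⟩) ?_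
    refine eVariationOn.comp_le_of_monotoneOn γ φ (fun a _ b _ hab => ?_) (fun t _ => hφ t)
    have : (a : ℝ) ≤ b := hab
    simp only [φ]; nlinarith
  · refine le_iInf₂ fun c hc => ?_
    have he : (c : I → Euc N) = γ ∘ fun t => c t i := by
      funext t
      obtain ⟨z, -, hz⟩ := hc t
      simp only [Function.comp]
      rw [← hz, G.coord]
    rw [he]
    exact var_le_of_path γ (by fun_prop) (by simp [G.coord]) (by simp [G.coord])

lemma lbv : LocallyBoundedVariationOn γ univ := G.lip.locallyBoundedVariationOn _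

lemma var_ne {x y : ℝ} : eVariationOn γ (Icc x y) ≠ ⊤ := by
  have := G.lbv x y trivial trivial
  rwa [univ_inter] at this

lemma var_eq {x y : ℝ} (h : x ≤ y) : eVariationOn γ (Icc x y) =
    ENNReal.ofReal (variationOnFromTo γ univ 0 y - variationOnFromTo γ univ 0 x) := by
  have := variationOnFromTo.add G.lbv (mem_univ 0) (mem_univ x) (mem_univ y)
  rw [← this, add_sub_cancel_left, variationOnFromTo.eq_of_le _ _ h, univ_inter,
    ENNReal.ofReal_toReal G.var_ne]

lemma var_le {x y : ℝ} : eVariationOn γ (Icc x y) ≤ ENNReal.ofReal (L * (y - x)) := by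
  have := (G.lip.lipschitzOnWith (s := univ)).comp_eVariationOn_le (g := id) (s := Icc x y)
    (mapsTo_univ _ _)
  rw [eVariationOn_id_Icc] at this
  rw [ENNReal.ofReal_mul L.coe_nonneg, ENNReal.ofReal_coe_nnreal]
  exact this

lemma le_var {x y : ℝ} (h : x ≤ y) : ENNReal.ofReal ‖γ x - γ y‖ ≤ eVariationOn γ (Icc x y) := by
  have := eVariationOn.edist_le γ (s := Icc x y) ⟨le_rfl, h⟩ ⟨h, le_rfl⟩
  rwa [edist_dist, dist_eq_norm] at this

lemma V_bounds {x y : ℝ} (h : x ≤ y) :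
    y - x ≤ variationOnFromTo γ univ 0 y - variationOnFromTo γ univ 0 x ∧
      variationOnFromTo γ univ 0 y - variationOnFromTo γ univ 0 x ≤ L * (y - x) := by
  have h1 := G.le_var h
  have h2 := G.var_le (x := x) (y := y)
  have h0 : 0 ≤ variationOnFromTo γ univ 0 y - variationOnFromTo γ univ 0 x :=
    sub_nonneg.2 (variationOnFromTo.monotoneOn G.lbv (mem_univ 0) trivial trivial h)
  rw [G.var_eq h] at h1 h2
  rw [ENNReal.ofReal_le_ofReal_iff h0] at h1
  rw [ENNReal.ofReal_le_ofReal_iff (mul_nonneg L.coe_nonneg (sub_nonneg.2 h))] at h2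
  have h3 := G.le_dist x y
  rw [abs_sub_comm, abs_of_nonneg (sub_nonneg.2 h)] at h3
  exact ⟨h3.trans h1, h2⟩

lemma dM_V {x y : ℝ} (hx : x ∈ Icc (0 : ℝ) 1) (hy : y ∈ Icc (0 : ℝ) 1) :
    dM (γ '' Icc 0 1) (γ x) (γ y) =
      ENNReal.ofReal |variationOnFromTo γ univ 0 y - variationOnFromTo γ univ 0 x| := by
  rcases le_total x y with h | h
  · rw [G.dM_eq hx hy h, G.var_eq h, abs_of_nonneg (by linarith [(G.V_bounds h).1])]
  · rw [dM_symm, G.dM_eq hy hx h, G.var_eq h, abs_sub_comm,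
      abs_of_nonneg (by linarith [(G.V_bounds h).1])]

lemma geodesic : Geodesic (γ '' Icc 0 1) := by
  set V := variationOnFromTo γ univ 0 with hV
  have hsm : StrictMono V := fun x y h => by linarith [(G.V_bounds h.le).1]
  have hc : Continuous V := by
    refine (LipschitzWith.of_dist_le_mul (K := L) fun x y => ?_).continuous
    rw [Real.dist_eq, Real.dist_eq]
    rcases le_total x y with h | h
    · have := G.V_bounds h
      rw [abs_sub_comm, abs_of_nonneg (by linarith), abs_sub_comm, abs_of_nonneg (by linarith)]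
      exact this.2
    · have := G.V_bounds h
      rw [abs_of_nonneg (by linarith), abs_of_nonneg (by linarith)]
      exact this.2
  have hsurj : Function.Surjective V := by
    refine hc.surjective ?_ ?_
    · refine tendsto_atTop_mono' _ ?_ (tendsto_atTop_add_const_right _ (V 0) tendsto_id)
      filter_upwards [eventually_ge_atTop 0] with x hx
      have := (G.V_bounds hx).1
      simp only [id]; linarith
    · refine tendsto_atBot_mono' _ ?_ (tendsto_atBot_add_const_right _ (V 0) tendsto_id)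
      filter_upwards [eventually_le_atBot 0] with x hx
      have := (G.V_bounds hx).1
      simp only [id]; linarith
  choose W hW using hsurj
  have hWV : ∀ x, W (V x) = x := fun x => hsm.injective (hW _)
  have hWm : ∀ s a b, V a ≤ s → s ≤ V b → W s ∈ Icc a b := fun s a b h1 h2 =>
    ⟨hsm.le_iff_le.1 (by rwa [hW]), hsm.le_iff_le.1 (by rwa [hW])⟩
  rintro _ ⟨x, hx, rfl⟩ _ ⟨y, hy, rfl⟩
  rw [G.dM_V hx hy, ENNReal.toReal_ofReal (abs_nonneg _), ← hV]
  refine ⟨ENNReal.ofReal_ne_top, ?_⟩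
  rcases le_total x y with h | h
  · have h' := hsm.monotone h
    rw [abs_of_nonneg (by linarith)]
    have hm : ∀ s ∈ Icc 0 (V y - V x), W (V x + s) ∈ Icc (0 : ℝ) 1 := fun s hs =>
      Icc_subset_Icc hx.1 hy.2 (hWm _ x y (by linarith [hs.1]) (by linarith [hs.2]))
    refine ⟨fun s => γ (W (V x + s)), by simp [hWV], by simp [hWV],
      fun s hs => ⟨_, hm s hs, rfl⟩, fun s hs t ht => ?_⟩
    rw [G.dM_V (hm s hs) (hm t ht), ← hV, hW, hW, abs_sub_comm]
    congr 2; ring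
  · have h' := hsm.monotone h
    rw [abs_sub_comm, abs_of_nonneg (by linarith)]
    have hm : ∀ s ∈ Icc 0 (V x - V y), W (V x - s) ∈ Icc (0 : ℝ) 1 := fun s hs =>
      Icc_subset_Icc hy.1 hx.2 (hWm _ y x (by linarith [hs.2]) (by linarith [hs.1]))
    refine ⟨fun s => γ (W (V x - s)), by simp [hWV], by simp [hWV],
      fun s hs => ⟨_, hm s hs, rfl⟩, fun s hs t ht => ?_⟩
    rw [G.dM_V (hm s hs) (hm t ht), ← hV, hW, hW]
    congr 2; ring

lemma condM2 : CondM2 (γ '' Icc 0 1) := by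
  refine ⟨1, L + 2, one_pos, by have := L.coe_nonneg; linarith, ?_⟩
  have key : ∀ x ∈ Icc (0 : ℝ) 1, ∀ y ∈ Icc (0 : ℝ) 1, x ≤ y →
      ENNReal.ofReal ‖γ x - γ y‖ ≤ dM (γ '' Icc 0 1) (γ x) (γ y) ∧
      dM (γ '' Icc 0 1) (γ x) (γ y) ≤ ENNReal.ofReal ((L + 2) * ‖γ x - γ y‖) := by
    intro x hx y hy h
    rw [G.dM_eq hx hy h]
    refine ⟨G.le_var h, G.var_le.trans (ENNReal.ofReal_le_ofReal ?_)⟩
    have h3 := G.le_dist x y
    rw [abs_sub_comm, abs_of_nonneg (sub_nonneg.2 h)] at h3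
    have := L.coe_nonneg
    exact mul_le_mul (by linarith) h3 (sub_nonneg.2 h) (by linarith)
  rintro _ ⟨x, hx, rfl⟩ _ ⟨y, hy, rfl⟩ -
  rcases le_total x y with h | h
  · exact key x hx y hy h
  · rw [dM_symm, norm_sub_rev]; exact key y hy x hx h

lemma contractible : ContractibleSpace (γ '' Icc 0 1 : Set (Euc N)) := by
  rw [contractible_iff_id_nullhomotopic]
  have hc := G.lip.continuous
  have hm : ∀ (t : I) (p : (γ '' Icc 0 1 : Set (Euc N))), γ (t * p.1 i) ∈ γ '' Icc 0 1 := by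
    rintro t ⟨_, x, hx, rfl⟩
    refine ⟨_, ?_, rfl⟩
    rw [G.coord]
    exact ⟨mul_nonneg t.2.1 hx.1, mul_le_one₀ t.2.2 hx.1 hx.2⟩
  refine ⟨⟨γ 0, 0, by simp, rfl⟩, ContinuousMap.Homotopic.symm ⟨⟨⟨fun q => ⟨_, hm q.1 q.2⟩, by fun_prop⟩, ?_, ?_⟩⟩⟩
  · intro p; ext1; simp
  · rintro ⟨_, x, hx, rfl⟩; ext1; simp [G.coord]

lemma condM1 : CondM1 (γ '' Icc 0 1) := by
  refine ⟨1, one_pos, fun X _ f g _ => ?_⟩
  have := G.contractible
  obtain ⟨p, hp⟩ := id_nullhomotopic (γ '' Icc 0 1 : Set (Euc N))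
  have h1 := hp.comp (ContinuousMap.Homotopic.refl f)
  have h2 := hp.comp (ContinuousMap.Homotopic.refl g)
  exact h1.trans h2.symm

lemma condM3 : CondM3 (γ '' Icc 0 1) := by
  have hc := G.lip.continuous
  refine ⟨univ, fun p => γ (projIcc (0 : ℝ) 1 zero_le_one (p i)), univ_mem, Continuous.continuousOn ?_,
    fun p _ => ⟨_, (projIcc (0 : ℝ) 1 zero_le_one (p i)).2, rfl⟩, ?_, fun r => (L + 2) * r,
    fun r hr _ => ⟨by have := L.coe_nonneg; positivity, fun p hp => ?_⟩, ?_⟩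
  · exact hc.comp (continuous_subtype_val.comp (continuous_projIcc.comp (by fun_prop)))
  · rintro _ ⟨x, hx, rfl⟩
    simp only [G.coord, projIcc_of_mem _ hx]
  · obtain ⟨_, ⟨x, hx, rfl⟩, h⟩ := (isCompact_Icc.image hc : IsCompact (γ '' Icc 0 1)).exists_infDist_eq_dist
      ⟨γ 0, 0, by simp, rfl⟩ p
    have h1 : ‖p - γ x‖ ≤ r := by rw [← dist_eq_norm, ← h]; exact hp
    have h2 : |p i - x| ≤ r := by
      have := PiLp.norm_apply_le (p - γ x) i
      simp [G.coord] at this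
      linarith
    have h3 : |(projIcc (0 : ℝ) 1 zero_le_one (p i) : ℝ) - x| ≤ r := by
      have := abs_projIcc_sub_projIcc (zero_le_one (α := ℝ)) (c := p i) (d := x)
      rw [projIcc_of_mem _ hx] at this
      exact this.trans h2
    have h4 := G.lip.dist_le_mul (projIcc (0 : ℝ) 1 zero_le_one (p i) : ℝ) x
    rw [dist_eq_norm, Real.dist_eq] at h4
    have h5 := norm_sub_le_norm_sub_add_norm_sub (γ (projIcc (0 : ℝ) 1 zero_le_one (p i) : ℝ)) (γ x) p
    rw [norm_sub_rev (γ x)] at h5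
    have h6 := mul_le_mul_of_nonneg_left h3 L.coe_nonneg
    nlinarith
  · refine tendsto_nhdsWithin_of_tendsto_nhds ?_
    have : Continuous fun r : ℝ => ((L : ℝ) + 2) * r := by fun_prop
    simpa using this.tendsto 0

end Graph

lemma lift_eq {E : Type} [TopologicalSpace E] (X : Set E) [SimplyConnectedSpace X] (f : E → ℂ)
    (hf : Continuous f) (h0 : ∀ p ∈ X, f p ≠ 0) {p : E} {z w : ℂ}
    (h : JoinedIn {q : E × ℂ | q.1 ∈ X ∧ Complex.exp q.2 = f q.1} (p, z) (p, w)) : z = w := by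
  obtain ⟨Γ, hΓ⟩ := h
  have hp : p ∈ X := by simpa using (hΓ 0).1
  let ℓ : Path (⟨p, hp⟩ : X) ⟨p, hp⟩ :=
    { toFun := fun t => ⟨(Γ t).1, (hΓ t).1⟩
      continuous_toFun := by fun_prop
      source' := by simp
      target' := by simp }
  let F : C(X, {z : ℂ // z ≠ 0}) := ⟨fun q => ⟨f q, h0 q q.2⟩, by fun_prop⟩
  have hh : ℓ.Homotopic (Path.refl _) := SimplyConnectedSpace.paths_homotopic _ _
  have hh2 : (F.comp ℓ.toContinuousMap).HomotopicRel (F.comp (Path.refl (⟨p, hp⟩ : X)).toContinuousMap) {0, 1} :=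
    ContinuousMap.HomotopicRel.comp_continuousMap hh F
  have cov := Complex.isCoveringMap_exp
  have e0 : Complex.exp z = f p := by simpa using (hΓ 0).2
  have a0 : (F.comp ℓ.toContinuousMap) 0 = ⟨_, z.exp_ne_zero⟩ := Subtype.ext (by simp [F, e0])
  have a1 : (F.comp (Path.refl (⟨p, hp⟩ : X)).toContinuousMap) 0 = ⟨_, z.exp_ne_zero⟩ :=
    Subtype.ext (by simp [F, e0])
  have h1 := cov.liftPath_apply_one_eq_of_homotopicRel hh2 z a0 a1
  have b0 := (cov.eq_liftPath_iff' (Γ := ⟨fun t => (Γ t).2, by fun_prop⟩) a0).2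
      ⟨funext fun t => Subtype.ext (hΓ t).2, by simp⟩
  have b1 := (cov.eq_liftPath_iff' (Γ := ContinuousMap.const _ z) a1).2
      ⟨funext fun t => Subtype.ext e0, by simp⟩
  rw [← b0, ← b1] at h1
  simpa using h1.symm

end Pool.Agent.H80.Shadow
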