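import Mathlib
import Pool.Agent.H80.ShadowDefs
import Pool.Agent.H80.Shadow1

namespace Pool.Agent.H80.Shadow

open Set Filter Topology Real
open scoped ENNReal NNReal

noncomputable def g (a x : ℝ) : ℂ :=
  circleMap (-(10 * a : ℝ)) (10 * a) (2 * π * (x - a) / (3 * a))

lemma g_lip {a : ℝ} (ha : 0 < a) (x y : ℝ) : ‖g a x - g a y‖ ≤ 21 * |x - y| := by
  have := (lipschitzWith_circleMap (-(10 * a : ℝ)) (10 * a)).dist_le_mul
    (2 * π * (x - a) / (3 * a)) (2 * π * (y - a) / (3 * a))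
  rw [dist_eq_norm, Real.dist_eq] at this
  refine this.trans ?_
  have h : 2 * π * (x - a) / (3 * a) - 2 * π * (y - a) / (3 * a) = 2 * π / (3 * a) * (x - y) := by
    field_simp; ring
  rw [h, abs_mul, abs_of_pos (by positivity), Real.coe_nnabs, abs_of_pos (by positivity), ← mul_assoc]
  refine mul_le_mul_of_nonneg_right ?_ (abs_nonneg _)
  have h2 : 10 * a * (2 * π / (3 * a)) = 20 * π / 3 := by field_simp; ring
  rw [h2]; linarith [Real.pi_lt_d2]

lemma g_left (a : ℝ) : g a a = 0 := by simp [g, circleMap]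

lemma g_right {a : ℝ} (ha : 0 < a) : g a (4 * a) = 0 := by
  have h : 2 * π * (4 * a - a) / (3 * a) = 2 * π := by field_simp; ring
  rw [g, h, circleMap]
  push_cast
  rw [Complex.exp_two_pi_mul_I]; ring

noncomputable def aa (x : ℝ) : ℝ := (4 : ℝ) ^ Int.log 4 x

lemma aa_pos (x : ℝ) : 0 < aa x := by unfold aa; positivity

lemma aa_le {x : ℝ} (hx : 0 < x) : aa x ≤ x := by
  simpa [aa] using Int.zpow_log_le_self (b := 4) (by norm_num) hx

lemma lt_aa (x : ℝ) : x < 4 * aa x := by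
  have := Int.lt_zpow_succ_log_self (b := 4) (by norm_num) x
  rw [zpow_add_one₀ (by norm_num)] at this
  simpa [aa, mul_comm] using this

noncomputable def h (x : ℝ) : ℂ := if x ≤ 0 then 0 else g (aa x) x

lemma h_le1 {x : ℝ} (hx : 0 < x) : ‖h x‖ ≤ 21 * (x - aa x) := by
  have := g_lip (aa_pos x) x (aa x)
  rw [g_left, sub_zero, abs_of_nonneg (by linarith [aa_le hx])] at this
  rwa [h, if_neg hx.not_ge]

lemma h_le2 {x : ℝ} (hx : 0 < x) : ‖h x‖ ≤ 21 * (4 * aa x - x) := by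
  have := g_lip (aa_pos x) x (4 * aa x)
  rw [g_right (aa_pos x), sub_zero, abs_sub_comm, abs_of_nonneg (by linarith [lt_aa x])] at this
  rwa [h, if_neg hx.not_ge]

lemma h_lip' {x y : ℝ} (hxy : x ≤ y) : ‖h x - h y‖ ≤ 21 * (y - x) := by
  rcases le_or_gt y 0 with hy | hy
  · rw [h, h, if_pos hy, if_pos (hxy.trans hy)]; simp; linarith
  rcases le_or_gt x 0 with hx | hx
  · rw [h, if_pos hx, zero_sub, norm_neg]
    linarith [h_le1 hy, aa_pos y]
  rcases (Int.log_mono_right (b := 4) hx hxy).eq_or_lt with he | he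
  · have : aa y = aa x := by rw [aa, aa, he]
    rw [h, h, if_neg hx.not_ge, if_neg hy.not_ge, this]
    have := g_lip (aa_pos x) x y
    rwa [abs_sub_comm, abs_of_nonneg (by linarith)] at this
  · have : 4 * aa x ≤ aa y := by
      have := zpow_le_zpow_right₀ (show (1 : ℝ) ≤ 4 by norm_num) (Int.add_one_le_of_lt he)
      rw [zpow_add_one₀ (by norm_num)] at this
      simpa [aa, mul_comm] using this
    linarith [norm_sub_le (h x) (h y), h_le1 hy, h_le2 hx]

lemma h_lip (x y : ℝ) : ‖h x - h y‖ ≤ 21 * |x - y| := by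
  rcases le_total x y with hxy | hxy
  · rw [abs_sub_comm, abs_of_nonneg (by linarith)]; exact h_lip' hxy
  · rw [abs_of_nonneg (by linarith), norm_sub_rev]; exact h_lip' hxy

lemma h_far (n : ℤ) (x : ℝ) : 5 * (4 : ℝ) ^ n ≤ ‖h x + (10 * (4 : ℝ) ^ n : ℝ)‖ := by
  have ha : (0 : ℝ) < 4 ^ n := by positivity
  unfold h
  split_ifs with hx
  · rw [zero_add, Complex.norm_real, Real.norm_eq_abs, abs_of_pos (by positivity)]; linarith
  have h1 : ‖g (aa x) x + (10 * aa x : ℝ)‖ = 10 * aa x := by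
    rw [← sub_neg_eq_add, g, circleMap_sub_center, norm_circleMap_zero,
      abs_of_pos (by linarith [aa_pos x])]
  have hA := aa_pos x
  rcases lt_or_ge (Int.log 4 x) n with hn | hn
  · have h2 : 4 * aa x ≤ 4 ^ n := by
      have := zpow_le_zpow_right₀ (show (1 : ℝ) ≤ 4 by norm_num) (Int.add_one_le_of_lt hn)
      rw [zpow_add_one₀ (by norm_num)] at this
      simpa [aa, mul_comm] using this
    have h3 := norm_sub_norm_le (((10 * (4 : ℝ) ^ n - 10 * aa x : ℝ) : ℂ)) (-(g (aa x) x + (10 * aa x : ℝ)))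
    rw [norm_neg, h1, Complex.norm_real, Real.norm_eq_abs, abs_of_pos (by linarith)] at h3
    refine le_trans (by linarith) (h3.trans (le_of_eq ?_))
    congr 1; push_cast; ring
  · have h2 : 4 ^ n ≤ aa x := zpow_le_zpow_right₀ (show (1 : ℝ) ≤ 4 by norm_num) hn
    have h3 := norm_sub_norm_le (g (aa x) x + (10 * aa x : ℝ)) (((10 * aa x - 10 * (4 : ℝ) ^ n : ℝ) : ℂ))
    rw [h1, Complex.norm_real, Real.norm_eq_abs, abs_of_nonneg (by linarith)] at h3
    refine le_trans (by linarith) (h3.trans (le_of_eq ?_))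
    congr 1; push_cast; ring

noncomputable def γ (x : ℝ) : Euc 3 := !₂[x, (h x).re, (h x).im]

noncomputable def pr (p : Euc 3) : ℂ := p 1 + p 2 * Complex.I

lemma pr_γ (x : ℝ) : pr (γ x) = h x := by simp [pr, γ]

lemma pr_cont : Continuous pr := by unfold pr; fun_prop

lemma pr_le (p q : Euc 3) : ‖pr p - pr q‖ ≤ ‖p - q‖ := by
  have h : ‖pr p - pr q‖ ^ 2 ≤ ‖p - q‖ ^ 2 := by
    rw [Complex.sq_norm, Complex.normSq_apply, EuclideanSpace.real_norm_sq_eq, Fin.sum_univ_three]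
    simp [pr]
    nlinarith [sq_nonneg (p 0 - q 0)]
  exact (pow_le_pow_iff_left₀ (norm_nonneg _) (norm_nonneg _) (by norm_num)).1 h

lemma γ_sq (x y : ℝ) : ‖γ x - γ y‖ ^ 2 = (x - y) ^ 2 + ‖h x - h y‖ ^ 2 := by
  rw [Complex.sq_norm, Complex.normSq_apply, EuclideanSpace.real_norm_sq_eq, Fin.sum_univ_three]
  simp [γ]
  ring

lemma γ_le (x y : ℝ) : ‖γ x - γ y‖ ≤ 22 * |x - y| := by
  have h1 := pow_le_pow_left₀ (norm_nonneg _) (h_lip x y) 2
  have h2 : ‖γ x - γ y‖ ^ 2 ≤ (22 * |x - y|) ^ 2 := by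
    rw [γ_sq]; rw [mul_pow, sq_abs] at *; nlinarith [sq_nonneg (x - y)]
  exact (pow_le_pow_iff_left₀ (norm_nonneg _) (by positivity) (by norm_num)).1 h2

lemma graph : Graph γ 0 22 :=
  ⟨LipschitzWith.of_dist_le_mul fun x y => by rw [dist_eq_norm, Real.dist_eq]; exact γ_le x y,
    fun x => by simp [γ]⟩

lemma seg_sub {β : ℝ} {S : Finset (Euc 3)} {p q : Euc 3} (hp : p ∈ S) (hq : q ∈ S)
    (h : ‖p - q‖ < β) : segment ℝ p q ⊆ shadow β S := by
  classical
  refine subset_iUnion₂_of_subset {p, q} ⟨?_, by simp, ?_⟩ ?_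
  · intro x hx; simp at hx; rcases hx with rfl | rfl <;> assumption
  · rw [Finset.coe_pair, Metric.diam_pair, dist_eq_norm]; exact h
  · rw [Finset.coe_pair, convexHull_pair]

lemma step {X : Set (Euc 3)} {p q : Euc 3} (hs : segment ℝ p q ⊆ X) {c z : ℂ} {δ : ℝ}
    (hδ : |δ| < 1) (hz : Complex.exp z = pr p + c)
    (hq : pr q + c = (pr p + c) * Complex.exp (δ * Complex.I)) :
    JoinedIn {u : Euc 3 × ℂ | u.1 ∈ X ∧ Complex.exp u.2 = pr u.1 + c} (p, z) (q, z + δ * Complex.I) := by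
  set w := Complex.exp (δ * Complex.I) - 1 with hw
  have hw1 : ‖w‖ < 1 := by
    have := Real.norm_exp_I_mul_ofReal_sub_one_le (x := δ)
    rw [mul_comm] at this
    exact this.trans_lt hδ
  have hsl : ∀ s ∈ Icc (0 : ℝ) 1, 1 + s * w ∈ Complex.slitPlane := by
    intro s hs
    refine Complex.mem_slitPlane_of_norm_lt_one ?_
    rw [norm_mul, Complex.norm_real, Real.norm_eq_abs, abs_of_nonneg hs.1]
    nlinarith [norm_nonneg w, hs.1, hs.2]
  refine JoinedIn.ofLine (f := fun s : ℝ => (AffineMap.lineMap p q s, z + Complex.log (1 + s * w)))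
    ?_ (by simp) ?_ ?_
  · refine ContinuousOn.prodMk (by fun_prop) (continuousOn_const.add ?_)
    exact ContinuousOn.clog (by fun_prop) hsl
  · simp only [AffineMap.lineMap_apply_one, Complex.ofReal_one, one_mul, hw, add_sub_cancel]
    rw [Complex.log_exp] <;> simp <;> linarith [abs_lt.1 hδ, Real.pi_gt_three]
  · rintro _ ⟨s, hs', rfl⟩
    refine ⟨hs (by rw [segment_eq_image_lineMap]; exact ⟨s, hs', rfl⟩), ?_⟩
    simp only
    rw [Complex.exp_add, Complex.exp_log (Complex.slitPlane_ne_zero (hsl s hs')), hz]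
    have : pr (AffineMap.lineMap p q s) = pr p + s * (pr q - pr p) := by
      simp [pr, AffineMap.lineMap_apply]; ring
    rw [this]
    linear_combination (-s : ℂ) * hq

lemma shadow_ne (n : ℤ) {S : Finset (Euc 3)} (hS : (S : Set (Euc 3)) ⊆ γ '' Icc 0 1) :
    ∀ p ∈ shadow (4 * 4 ^ n) S, pr p + (10 * (4 : ℝ) ^ n : ℝ) ≠ 0 := by
  intro p hp h0
  simp only [shadow, mem_iUnion] at hp
  obtain ⟨σ, ⟨h1, ⟨v, hv⟩, h3⟩, hp⟩ := hp
  have h4 : (σ : Set (Euc 3)) ⊆ Metric.ball v (4 * 4 ^ n) := fun u hu =>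
    (Metric.dist_le_diam_of_mem σ.finite_toSet.isBounded hu hv).trans_lt h3
  have h5 := convexHull_min h4 (convex_ball _ _) hp
  obtain ⟨x, -, rfl⟩ := hS (h1 hv)
  have h6 := pr_le (γ x) p
  rw [Metric.mem_ball, dist_comm, dist_eq_norm] at h5
  have h7 := h_far n x
  rw [pr_γ, eq_neg_of_add_eq_zero_left h0, sub_neg_eq_add] at h6
  have ha : (0 : ℝ) < 4 ^ n := by positivity
  linarith

lemma h_eq (n : ℤ) {x : ℝ} (h1 : 4 ^ n ≤ x) (h2 : x ≤ 4 * 4 ^ n) : h x = g (4 ^ n) x := by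
  have ha : (0 : ℝ) < 4 ^ n := by positivity
  have hx : 0 < x := ha.trans_le h1
  rw [h, if_neg hx.not_ge]
  rcases h2.eq_or_lt with h2 | h2
  · have : aa x = x := by
      rw [h2, mul_comm, ← zpow_add_one₀ (by norm_num), aa]
      have := Int.log_zpow (R := ℝ) (b := 4) (by norm_num) (n + 1)
      push_cast at this
      rw [this]
    rw [this, g_left, h2, g_right ha]
  · have : Int.log 4 x = n := by
      apply le_antisymm
      · have := (Int.lt_zpow_iff_log_lt (b := 4) (by norm_num) (x := n + 1) hx).1 (by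
          rw [zpow_add_one₀ (by norm_num)]; push_cast; linarith)
        omega
      · exact (Int.zpow_le_iff_le_log (b := 4) (by norm_num) hx).1 (by push_cast; exact h1)
    rw [aa, this]

lemma not_contractible (m K : ℕ) (hK : 6 ≤ K) :
    ¬ ContractibleSpace (shadow (4 * 4 ^ (-(m + 1 : ℕ) : ℤ))
      ((Finset.range (4 ^ (m + 1) * K + 1)).image fun j : ℕ => γ (j / (4 ^ (m + 1) * K)))) := by
  classical
  intro hc
  set n : ℤ := -(m + 1 : ℕ) with hn
  set S := (Finset.range (4 ^ (m + 1) * K + 1)).image fun j : ℕ => γ (j / (4 ^ (m + 1) * K)) with hS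
  set a : ℝ := 4 ^ n with ha
  have ha0 : 0 < a := by positivity
  have hK0 : (6 : ℝ) ≤ K := by exact_mod_cast hK
  have hx : ∀ j : ℕ, (j : ℝ) / (4 ^ (m + 1) * K) = a * j / K := by
    intro j
    rw [ha, hn, zpow_neg, zpow_natCast]; field_simp
  have hSM : (S : Set (Euc 3)) ⊆ γ '' Icc 0 1 := by
    intro p hp
    obtain ⟨j, hj, rfl⟩ := Finset.mem_image.1 hp
    refine ⟨_, ⟨by positivity, ?_⟩, rfl⟩
    rw [div_le_one (by positivity)]
    exact_mod_cast Nat.lt_succ_iff.1 (Finset.mem_range.1 hj)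
  have hmem : ∀ j : ℕ, j ≤ 4 * K → γ (a * j / K) ∈ S := by
    intro j hj
    refine Finset.mem_image.2 ⟨j, Finset.mem_range.2 ?_, by rw [hx]⟩
    have : 4 * K ≤ 4 ^ (m + 1) * K := Nat.mul_le_mul_right _ (by
      rw [pow_succ]; have := Nat.one_le_pow m 4 (by norm_num); omega)
    omega
  set z0 : ℂ := ((Real.log (10 * a) : ℝ) : ℂ) with hz0
  set δ : ℝ := 2 * π / (3 * K) with hδ
  have hδ1 : |δ| < 1 := by
    rw [abs_of_pos (by positivity), hδ, div_lt_one (by positivity)]; linarith [Real.pi_lt_d2]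
  have hpr : ∀ i : ℕ, i ≤ 3 * K → pr (γ (a * (K + i : ℕ) / K)) + (10 * a : ℝ) =
      Complex.exp (z0 + i * (δ * Complex.I)) := by
    intro i hi
    have hi' : (i : ℝ) ≤ 3 * K := by exact_mod_cast hi
    have hi0 : (0 : ℝ) ≤ i := Nat.cast_nonneg _
    rw [pr_γ, h_eq n (by rw [le_div_iff₀ (by positivity)]; push_cast; nlinarith)
      (by rw [div_le_iff₀ (by positivity)]; push_cast; nlinarith), g, circleMap, Complex.exp_add, hz0,
      ← Complex.ofReal_exp, Real.exp_log (by positivity)]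
    have : 2 * π * (a * (K + i : ℕ) / K - a) / (3 * a) = i * δ := by
      rw [hδ]; push_cast; field_simp; ring
    rw [← ha, this]; push_cast; ring_nf
  have hJ : ∀ i : ℕ, i ≤ 3 * K → JoinedIn {u : Euc 3 × ℂ | u.1 ∈ shadow (4 * a) S ∧
      Complex.exp u.2 = pr u.1 + (10 * a : ℝ)} (γ (a * (K + 0 : ℕ) / K), z0)
        (γ (a * (K + i : ℕ) / K), z0 + i * (δ * Complex.I)) := by
    intro i
    induction i with
    | zero =>
      intro _
      simp only [Nat.cast_zero, zero_mul, add_zero]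
      refine JoinedIn.refl ⟨seg_sub (hmem K (by omega)) (hmem K (by omega)) (by simp; positivity)
        (left_mem_segment _ _ _), ?_⟩
      simpa using (hpr 0 (by omega)).symm
    | succ i ih =>
      intro hi
      refine (ih (by omega)).trans ?_
      have := step (seg_sub (β := 4 * a) (hmem (K + i) (by omega)) (hmem (K + (i + 1)) (by omega)) (by
        refine (γ_le _ _).trans_lt ?_
        have : a * (K + i : ℕ) / K - a * (K + (i + 1) : ℕ) / K = -(a / K) := by
          push_cast; field_simp; ring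
        rw [this, abs_neg, abs_of_pos (by positivity), ← mul_div_assoc, div_lt_iff₀ (by positivity)]
        nlinarith)) hδ1 (hpr i (by omega)).symm (by
          rw [hpr i (by omega), hpr (i + 1) hi, ← Complex.exp_add]; push_cast; ring_nf)
      convert this using 2
      push_cast; ring
  have e1 : ((3 * K : ℕ) : ℂ) * (δ * Complex.I) = 2 * π * Complex.I := by
    have : (K : ℂ) ≠ 0 := by exact_mod_cast (by omega : K ≠ 0)
    rw [hδ]; push_cast; field_simp
  have hlast := step (seg_sub (β := 4 * a) (hmem (K + 3 * K) (by omega)) (hmem (K + 0) (by omega)) (by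
      have e2 : a * (K + 3 * K : ℕ) / K = 4 * a := by push_cast; field_simp; ring
      have e3 : a * (K + 0 : ℕ) / K = a := by push_cast; field_simp; ring
      rw [e2, e3]
      have := γ_sq (4 * a) a
      rw [h_eq n (by linarith) le_rfl, h_eq n le_rfl (by linarith), g_left, g_right ha0] at this
      have h2 : ‖γ (4 * a) - γ a‖ ^ 2 < (4 * a) ^ 2 := by rw [this]; simp; nlinarith
      exact lt_of_pow_lt_pow_left₀ 2 (by positivity) h2)) (δ := 0) (by simp)
      (hpr (3 * K) le_rfl).symm (by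
        rw [hpr (3 * K) le_rfl, hpr 0 (by omega), e1, Complex.exp_add, Complex.exp_add,
          Complex.exp_two_pi_mul_I]; simp)
  have := lift_eq (shadow (4 * a) S) (fun p => pr p + (10 * a : ℝ)) (pr_cont.add continuous_const)
    (shadow_ne n hSM) ((hJ (3 * K) le_rfl).trans hlast)
  rw [e1] at this
  have h2 := congrArg Complex.im this
  simp [hz0] at h2

lemma haus (N : ℕ) (hN : 0 < N) :
    Metric.hausdorffEDist (((Finset.range (N + 1)).image fun j : ℕ => γ (j / N) : Finset (Euc 3)) :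
      Set (Euc 3)) (γ '' Icc 0 1) ≤ ENNReal.ofReal (22 / N) := by
  have hN' : (0 : ℝ) < N := by exact_mod_cast hN
  refine Metric.hausdorffEDist_le_of_mem_edist (fun p hp => ⟨p, ?_, by simp⟩) ?_
  · obtain ⟨j, hj, rfl⟩ := Finset.mem_image.1 hp
    refine ⟨_, ⟨by positivity, ?_⟩, rfl⟩
    rw [div_le_one hN']
    exact_mod_cast Nat.lt_succ_iff.1 (Finset.mem_range.1 hj)
  · rintro _ ⟨x, hx, rfl⟩
    have h0 : 0 ≤ x * N := mul_nonneg hx.1 hN'.le
    have h1 := Nat.floor_le h0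
    have h2 := Nat.lt_floor_add_one (x * N)
    refine ⟨_, Finset.mem_image.2 ⟨⌊x * N⌋₊, Finset.mem_range.2 (Nat.lt_succ_iff.2 ?_), rfl⟩, ?_⟩
    · exact Nat.floor_le_of_le (by nlinarith [hx.2])
    · rw [edist_dist, dist_eq_norm]
      refine ENNReal.ofReal_le_ofReal ((γ_le _ _).trans ?_)
      have : x - (⌊x * N⌋₊ : ℝ) / N = (x * N - ⌊x * N⌋₊) / N := by field_simp
      rw [this, abs_of_nonneg (div_nonneg (by linarith) hN'.le), ← mul_div_assoc]
      gcongr
      linarith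

theorem main (β₀ : ℝ) (h0 : 0 < β₀) : ∃ β, 0 < β ∧ β < β₀ ∧ ∀ η : ℝ, 0 < η →
    ∃ S : Finset (Euc 3), Metric.hausdorffEDist (S : Set (Euc 3)) (γ '' Icc 0 1) < ENNReal.ofReal η ∧
      IsEmpty (ContinuousMap.HomotopyEquiv (shadow β S) (γ '' Icc 0 1 : Set (Euc 3))) := by
  obtain ⟨m, hm⟩ := exists_pow_lt_of_lt_one h0 (show (1 / 4 : ℝ) < 1 by norm_num)
  refine ⟨4 * 4 ^ (-(m + 1 : ℕ) : ℤ), by positivity, ?_, fun η hη => ?_⟩
  · refine lt_of_eq_of_lt ?_ hm
    rw [zpow_neg, zpow_natCast, pow_succ, one_div, inv_pow]; field_simp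
  obtain ⟨K, hK⟩ := exists_nat_gt (22 / η + 6)
  have h1 : 0 < 22 / η := by positivity
  have hK6 : 6 ≤ K := by exact_mod_cast (by linarith : (6 : ℝ) ≤ K)
  refine ⟨(Finset.range (4 ^ (m + 1) * K + 1)).image fun j : ℕ => γ (j / (4 ^ (m + 1) * K)), ?_, ⟨fun e => ?_⟩⟩
  · have := haus (4 ^ (m + 1) * K) (by positivity)
    rw [Nat.cast_mul, Nat.cast_pow, Nat.cast_ofNat] at this
    refine this.trans_lt ((ENNReal.ofReal_lt_ofReal_iff hη).2 ?_)
    have h2 : (1 : ℝ) ≤ 4 ^ (m + 1) := one_le_pow₀ (by norm_num)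
    have h3 : 22 / η < K := by linarith
    rw [div_lt_iff₀ hη] at h3
    rw [div_lt_iff₀ (by positivity)]
    have h4 : (0 : ℝ) ≤ K * η := by positivity
    nlinarith
  · have := graph.contractible
    exact not_contractible m K hK6 e.contractibleSpace

end Pool.Agent.H80.Shadow
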