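import Mathlib

set_option autoImplicit false

namespace Pool.Agent.H80.Specht

/-- The power sum `N_l` in `n` variables, evaluated at `x`. -/
def powerSum {n : ℕ} (l : ℕ) (x : Fin n → ℝ) : ℝ := ∑ i, x i ^ l

/-- `V_n(I)` for the ideal `I = (N_1, N_6 - 2 N_4 + N_2)` of the ring of symmetric functions. -/
def V (n : ℕ) : Set (Fin n → ℝ) :=
  {x | powerSum 1 x = 0 ∧ powerSum 6 x - 2 * powerSum 4 x + powerSum 2 x = 0}

/-- Singular cohomology in degree zero with rational coefficients: the `0`-cocycles, i.e. the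
functions `S → ℚ` taking the same value at the two ends of every path in `S`. -/
def H0 {n : ℕ} (S : Set (Fin n → ℝ)) : Submodule ℚ (S → ℚ) where
  carrier := {φ | ∀ x y : S, Joined x y → φ x = φ y}
  add_mem' ha hb x y h := by simp only [Pi.add_apply, ha x y h, hb x y h]
  zero_mem' _ _ _ := rfl
  smul_mem' c φ ha x y h := by simp only [Pi.smul_apply, ha x y h]

/-- Functions on `S` invariant under the permutations of the coordinates. -/
def symmetricFun {n : ℕ} (S : Set (Fin n → ℝ)) : Submodule ℚ (S → ℚ) where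
  carrier := {φ | ∀ (σ : Equiv.Perm (Fin n)) (x y : S), (y : Fin n → ℝ) = (x : Fin n → ℝ) ∘ σ →
    φ x = φ y}
  add_mem' ha hb σ x y h := by simp only [Pi.add_apply, ha σ x y h, hb σ x y h]
  zero_mem' _ _ _ _ := rfl
  smul_mem' c φ ha σ x y h := by simp only [Pi.smul_apply, ha σ x y h]

/-- Multiplicity of the trivial Specht module `S^{(n)}` in `H^0(S; ℚ)`: the dimension of the space
of invariants of the symmetric group. -/
noncomputable def trivialMult {n : ℕ} (S : Set (Fin n → ℝ)) : ℕ :=
  Module.finrank ℚ ↥(H0 S ⊓ symmetricFun S)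

end Pool.Agent.H80.Specht
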