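import Mathlib
import Pool.Agent.H80.SpechtDefs

set_option autoImplicit false

namespace Pool.Agent.H80.Specht

open Finset

theorem vals {n : ℕ} (x : V n) (i : Fin n) : x.1 i = 0 ∨ x.1 i = 1 ∨ x.1 i = -1 := by
  have h := x.2.2
  have e : powerSum 6 x.1 - 2 * powerSum 4 x.1 + powerSum 2 x.1 =
      ∑ i, (x.1 i * (x.1 i - 1) * (x.1 i + 1)) ^ 2 := by
    simp only [powerSum, mul_sum, ← sum_sub_distrib, ← sum_add_distrib]
    exact sum_congr rfl fun i _ => by ring
  rw [e, sum_eq_zero_iff_of_nonneg (fun i _ => sq_nonneg _)] at h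
  have := pow_eq_zero_iff (two_ne_zero) |>.1 (h i (mem_univ i))
  rcases mul_eq_zero.1 this with h1 | h1
  · rcases mul_eq_zero.1 h1 with h2 | h2
    · exact Or.inl h2
    · exact Or.inr (Or.inl (by linarith))
  · exact Or.inr (Or.inr (by linarith))

/-- number of coordinates with a given value -/
noncomputable def cnt {n : ℕ} (x : Fin n → ℝ) (c : ℝ) : ℕ := by
  classical exact (univ.filter fun i => x i = c).card

theorem sum_eq {n : ℕ} (x : Fin n → ℝ) (hx : ∀ i, x i = 0 ∨ x i = 1 ∨ x i = -1) (g : ℝ → ℝ) :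
    ∑ i, g (x i) = cnt x 0 * g 0 + cnt x 1 * g 1 + cnt x (-1) * g (-1) := by
  classical
  simp only [cnt, card_filter, Nat.cast_sum, sum_mul, ← sum_add_distrib]
  refine sum_congr rfl fun i _ => ?_
  rcases hx i with h | h | h <;> rw [h] <;> norm_num

theorem cnt_eq {n : ℕ} (x : V n) : cnt x.1 (-1) = cnt x.1 1 := by
  have h := x.2.1
  have e := sum_eq x.1 (vals x) (fun t => t ^ 1)
  rw [powerSum] at h
  rw [h] at e
  have : (cnt x.1 (-1) : ℝ) = cnt x.1 1 := by linarith
  exact_mod_cast this

theorem cnt_sum {n : ℕ} (x : V n) : cnt x.1 0 + 2 * cnt x.1 1 = n := by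
  have e := sum_eq x.1 (vals x) (fun _ => 1)
  rw [cnt_eq] at e
  simp only [sum_const, card_univ, Fintype.card_fin, nsmul_eq_mul, mul_one] at e
  have : (cnt x.1 0 : ℝ) + 2 * cnt x.1 1 = n := by linarith
  exact_mod_cast this

/-- the orbit invariant -/
noncomputable def cls {n : ℕ} (x : V n) : Fin (n / 2 + 1) :=
  ⟨cnt x.1 1, by have := cnt_sum x; omega⟩

theorem exists_perm {n : ℕ} (x y : V n) (h : cls x = cls y) :
    ∃ σ : Equiv.Perm (Fin n), y.1 = x.1 ∘ σ := by
  classical
  have h1 : cnt x.1 1 = cnt y.1 1 := congrArg Fin.val h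
  have hall : ∀ c, cnt y.1 c = cnt x.1 c := by
    intro c
    by_cases c0 : c = 0
    · subst c0; have := cnt_sum x; have := cnt_sum y; omega
    by_cases c1 : c = 1
    · subst c1; exact h1.symm
    by_cases c2 : c = -1
    · subst c2; rw [cnt_eq, cnt_eq, h1]
    have : ∀ z : V n, cnt z.1 c = 0 := by
      intro z
      simp only [cnt, card_eq_zero, filter_eq_empty_iff]
      intro i _ hi
      rcases vals z i with h | h | h <;> rw [h] at hi
      · exact c0 hi.symm
      · exact c1 hi.symm
      · exact c2 hi.symm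
    rw [this, this]
  have e : ∀ c, {i // y.1 i = c} ≃ {i // x.1 i = c} := fun c =>
    Fintype.equivOfCardEq (by
      rw [Fintype.card_subtype, Fintype.card_subtype]
      exact hall c)
  refine ⟨Equiv.ofFiberEquiv e, ?_⟩
  funext i
  exact (Equiv.ofFiberEquiv_map e i).symm

theorem cls_perm {n : ℕ} (σ : Equiv.Perm (Fin n)) (x y : V n) (h : y.1 = x.1 ∘ σ) :
    cls x = cls y := by
  classical
  apply Fin.ext
  change cnt x.1 1 = cnt y.1 1
  rw [h]
  simp only [cnt]
  symm
  refine card_bij (fun i _ => σ i) ?_ ?_ ?_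
  · intro i hi; simpa using hi
  · intro i _ j _ h; exact σ.injective h
  · intro j hj; exact ⟨σ.symm j, by simpa using hj, by simp⟩

theorem cls_surj (n : ℕ) : Function.Surjective (cls : V n → Fin (n / 2 + 1)) := by
  classical
  rintro ⟨a, ha⟩
  have ha2 : 2 * a ≤ n := by omega
  let x : Fin n → ℝ := fun i => if (i : ℕ) < a then 1 else if (i : ℕ) < 2 * a then -1 else 0
  have hx : ∀ i, x i = 0 ∨ x i = 1 ∨ x i = -1 := by
    intro i; simp only [x]; split_ifs <;> simp
  have c1 : cnt x 1 = a := by
    have : (univ.filter fun i : Fin n => x i = 1) = univ.filter fun i : Fin n => (i : ℕ) < a := by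
      refine filter_congr fun i _ => ?_
      simp only [x]; split_ifs with h1 h2 <;> simp [h1]; norm_num
    simp only [cnt]
    rw [this, Fin.card_filter_val_lt]; omega
  have c2 : cnt x 0 + 2 * a = n := by
    have : (univ.filter fun i : Fin n => x i = 0) =
        univ.filter fun i : Fin n => ¬ (i : ℕ) < 2 * a := by
      refine filter_congr fun i _ => ?_
      simp only [x]; split_ifs with h1 h2
      · simp; omega
      · simp [h2]
      · simp [h2]
    have h3 := card_filter_add_card_filter_not (s := (univ : Finset (Fin n)))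
      (fun i : Fin n => (i : ℕ) < 2 * a)
    simp only [cnt]
    rw [this]
    rw [Fin.card_filter_val_lt, card_univ, Fintype.card_fin] at h3
    omega
  have c3 : (cnt x (-1) : ℝ) = a := by
    have e := sum_eq x hx (fun _ => 1)
    simp only [sum_const, card_univ, Fintype.card_fin, nsmul_eq_mul, mul_one] at e
    have c2' : (cnt x 0 : ℝ) + 2 * a = n := by exact_mod_cast c2
    rw [c1] at e
    linarith
  refine ⟨⟨x, ?_, ?_⟩, Fin.ext c1⟩
  · rw [powerSum, sum_eq x hx (fun t => t ^ 1), c1, c3]; ring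
  · rw [powerSum, powerSum, powerSum, sum_eq x hx (fun t => t ^ 6), sum_eq x hx (fun t => t ^ 4),
      sum_eq x hx (fun t => t ^ 2)]
    ring

theorem finite_V (n : ℕ) : (V n).Finite := by
  refine (Set.Finite.pi' (fun _ : Fin n => (Set.toFinite ({0, 1, -1} : Set ℝ)))).subset ?_
  intro x hx i
  exact vals ⟨x, hx⟩ i

theorem joined_eq {n : ℕ} (x y : V n) (h : Joined x y) : x = y := by
  have : Finite (V n) := (finite_V n).to_subtype
  have h1 : y ∈ connectedComponent x := pathComponent_subset_component x h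
  rw [connectedComponent_eq_singleton] at h1
  exact h1.symm

theorem mult_eq (n : ℕ) : trivialMult (V n) = n / 2 + 1 := by
  let L : (Fin (n / 2 + 1) → ℚ) →ₗ[ℚ] (V n → ℚ) := LinearMap.funLeft ℚ ℚ cls
  have hinj : Function.Injective L := LinearMap.funLeft_injective_of_surjective _ _ _ (cls_surj n)
  have hr : LinearMap.range L = H0 (V n) ⊓ symmetricFun (V n) := by
    ext φ
    constructor
    · rintro ⟨g, rfl⟩
      refine ⟨fun x y h => by rw [joined_eq x y h], fun σ x y h => ?_⟩
      change g (cls x) = g (cls y)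
      rw [cls_perm σ x y h]
    · rintro ⟨-, h⟩
      refine ⟨fun a => φ (Function.surjInv (cls_surj n) a), ?_⟩
      funext x
      change φ (Function.surjInv (cls_surj n) (cls x)) = φ x
      obtain ⟨σ, hσ⟩ := exists_perm (Function.surjInv (cls_surj n) (cls x)) x
        (Function.surjInv_eq _ _)
      exact h σ _ _ hσ
  rw [trivialMult, ← hr, LinearMap.finrank_range_of_inj hinj]
  simp

theorem not_poly : ¬ ∃ (P : Polynomial ℚ) (N : ℕ), ∀ n : ℕ, N ≤ n →
    ((n / 2 + 1 : ℕ) : ℚ) = P.eval (n : ℚ) := by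
  rintro ⟨P, N, h⟩
  have h1 : P = Polynomial.C (1 / 2) * Polynomial.X + 1 := by
    apply Polynomial.eq_of_infinite_eval_eq
    refine Set.infinite_of_injective_forall_mem (f := fun k : ℕ => ((2 * (N + k) : ℕ) : ℚ)) ?_ ?_
    · intro a b hab
      have : 2 * (N + a) = 2 * (N + b) := Nat.cast_injective (R := ℚ) hab
      omega
    · intro k
      have := h (2 * (N + k)) (by omega)
      rw [Nat.mul_div_cancel_left _ two_pos] at this
      simp only [Set.mem_ofPred_eq, ← this]
      simp
  have h2 := h (2 * N + 1) (by omega)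
  rw [h1, show (2 * N + 1) / 2 = N by omega] at h2
  simp at h2
  linarith

end Pool.Agent.H80.Specht
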