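import Pool.Agent.H80.Spog1

/-! The Saito-type criterion for SPOG arrangements. -/

namespace Pool.Agent.H80.Spog

open MvPolynomial Pool.Agent.H80.ST

variable {K : Type} [Field K] {l n : ℕ}

section
variable {θ : Fin (l + 1) → Fin l → S K l} {g : Fin (l + 1) → S K l} {Q : S K l}

lemma rel_g (hQ : Q ≠ 0)
    (hg : ∀ i : Fin (l + 1),
      (-1) ^ (i.val + 1) * ((Matrix.of θ).submatrix i.succAbove id).det = g i * Q) :
    ∑ i, g i • θ i = 0 := by
  ext1 j
  let B : Matrix (Fin (l + 1)) (Fin (l + 1)) (S K l) := Matrix.of fun i => Fin.cons (θ i j) (θ i)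
  have h0 : B.det = 0 := Matrix.det_zero_of_column_eq (Fin.succ_ne_zero j).symm fun i => by
    simp [B]
  rw [Matrix.det_succ_column_zero] at h0
  apply mul_right_cancel₀ hQ
  simp only [Finset.sum_apply, Pi.smul_apply, smul_eq_mul, Pi.zero_apply, zero_mul,
    Finset.sum_mul]
  rw [← neg_eq_zero, ← h0, ← Finset.sum_neg_distrib]
  refine Finset.sum_congr rfl fun i _ => ?_
  have e : B.submatrix i.succAbove Fin.succ = (Matrix.of θ).submatrix i.succAbove id := by
    ext1 a b
    simp [B]
  have e2 : B i 0 = θ i j := by simp [B]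
  rw [e, e2]
  linear_combination θ i j * hg i

lemma rel_mul (hQ : Q ≠ 0)
    (hg : ∀ i : Fin (l + 1),
      (-1) ^ (i.val + 1) * ((Matrix.of θ).submatrix i.succAbove id).det = g i * Q)
    (hp : Prime (g (Fin.last l))) (hj : ∃ j, ¬ g (Fin.last l) ∣ g j) {s : Fin (l + 1) → S K l}
    (hs : ∑ i, s i • θ i = 0) : ∃ k : S K l, s = k • g := by
  have hd : ((Matrix.of θ).submatrix (Fin.last l).succAbove id).det ≠ 0 := by
    intro h
    have := hg (Fin.last l)
    rw [h, mul_zero] at this
    exact mul_ne_zero hp.ne_zero hQ this.symm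
  have h1 : ∑ i, (g (Fin.last l) * s i - s (Fin.last l) * g i) • θ i = 0 := by
    simp only [sub_smul, mul_smul, Finset.sum_sub_distrib, ← Finset.smul_sum, hs, rel_g hQ hg]
    simp
  rw [Fin.sum_univ_castSucc, mul_comm (g _) (s (Fin.last l)), sub_self, zero_smul,
    add_zero] at h1
  have h2 := Matrix.eq_zero_of_vecMul_eq_zero hd
    (v := fun i => g (Fin.last l) * s i.castSucc - s (Fin.last l) * g i.castSucc) (by
      rw [← h1]
      ext1 j
      simp [Matrix.vecMul, dotProduct])
  have h3 : ∀ i, g (Fin.last l) * s i = s (Fin.last l) * g i := by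
    intro i
    induction i using Fin.lastCases with
    | last => ring
    | cast i => exact sub_eq_zero.1 (congrFun h2 i)
  obtain ⟨j, hj⟩ := hj
  obtain ⟨k, hk⟩ := (hp.dvd_or_dvd ⟨_, (h3 j).symm⟩).resolve_right hj
  refine ⟨k, funext fun i => mul_left_cancel₀ hp.ne_zero ?_⟩
  rw [h3, hk, Pi.smul_apply, smul_eq_mul, mul_assoc]

end

lemma cramer_mem {a : Fin n → Fin l → K} (ha : ∀ h, a h ≠ 0)
    (hi : Function.Injective fun h => hyp (a h)) {θ : Fin (l + 1) → Fin l → S K l}
    (hθ : ∀ i, θ i ∈ D a) {g : Fin (l + 1) → S K l}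
    (hg : ∀ i : Fin (l + 1), (-1) ^ (i.val + 1) * ((Matrix.of θ).submatrix i.succAbove id).det =
      g i * ∏ h, lin (a h)) {η : Fin l → S K l} (hη : η ∈ D a) (i : Fin (l + 1)) :
    ∃ c : Fin (l + 1) → S K l, c i = 0 ∧ g i • η = ∑ j, c j • θ j := by
  have hQ : ∏ h, lin (a h) ≠ 0 := Finset.prod_ne_zero_iff.2 fun h _ => lin_ne (ha h)
  set N := (Matrix.of θ).submatrix i.succAbove id with hN
  have h1 : ∀ j, ∃ c, (N.updateRow j η).det = (∏ h, lin (a h)) * c := fun j =>
    Q_dvd ha hi _ fun k => by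
      by_cases hk : k = j
      · subst hk
        simpa using hη
      · rw [Matrix.updateRow_ne hk]
        exact hθ _
  choose c hc using h1
  refine ⟨i.insertNth 0 fun j => (-1) ^ (i.val + 1) * c j, by simp, ?_⟩
  rw [Fin.sum_univ_succAbove _ i]
  simp only [Fin.insertNth_apply_same, Fin.insertNth_apply_succAbove, zero_smul, zero_add]
  ext1 k
  have h2 := congrFun (Matrix.mulVec_cramer N.transpose η) k
  simp only [Matrix.mulVec, dotProduct, Matrix.cramer_transpose_apply, hc, Matrix.det_transpose,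
    Pi.smul_apply, smul_eq_mul, Matrix.transpose_apply] at h2
  apply mul_left_cancel₀ hQ
  simp only [Finset.sum_apply, Pi.smul_apply, smul_eq_mul, Finset.mul_sum]
  have h3 : ∑ x, (∏ h, lin (a h)) * ((-1) ^ (i.val + 1) * c x * θ (i.succAbove x) k) =
      (-1) ^ (i.val + 1) * ∑ x, N x k * ((∏ h, lin (a h)) * c x) := by
    rw [Finset.mul_sum]
    refine Finset.sum_congr rfl fun x _ => ?_
    simp only [hN, Matrix.submatrix_apply, Matrix.of_apply, id]
    ring
  rw [h3, h2]
  linear_combination -η k * hg i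

lemma hom_g {a : Fin n → Fin l → K} (ha : ∀ h, a h ≠ 0) {θ : Fin (l + 1) → Fin l → S K l}
    {d : Fin (l + 1) → ℕ} (hd : ∀ i j, (θ i j).IsHomogeneous (d i)) {g : Fin (l + 1) → S K l}
    (hg : ∀ i : Fin (l + 1), (-1) ^ (i.val + 1) * ((Matrix.of θ).submatrix i.succAbove id).det =
      g i * ∏ h, lin (a h)) (i : Fin (l + 1)) :
    g i = 0 ∨ ∃ e, e + n + d i = ∑ j, d j ∧ (g i).IsHomogeneous e := by
  have hQ : ∏ h, lin (a h) ≠ 0 := Finset.prod_ne_zero_iff.2 fun h _ => lin_ne (ha h)
  have h1 : (∏ h, lin (a h)).IsHomogeneous n := by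
    simpa using IsHomogeneous.prod Finset.univ (fun h => lin (a h)) (fun _ => 1)
      fun h _ => hom_lin _
  have h2 : ((Matrix.of θ).submatrix i.succAbove id).det.IsHomogeneous
      (∑ j, d (i.succAbove j)) := by
    rw [← Matrix.det_transpose, Matrix.det_apply]
    refine IsHomogeneous.sum _ _ _ fun σ _ => ?_
    have := IsHomogeneous.prod Finset.univ (fun j => θ (i.succAbove j) (σ j))
      (fun j => d (i.succAbove j)) fun j _ => hd _ _
    rcases Int.units_eq_one_or (Equiv.Perm.sign σ) with h | h <;> rw [h]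
    · simpa using this
    · simpa using this.neg
  have h3 : (g i * ∏ h, lin (a h)).IsHomogeneous (∑ j, d (i.succAbove j)) := by
    rw [← hg]
    rcases neg_one_pow_eq_or (S K l) (i.val + 1) with h | h <;> rw [h]
    · simpa using h2
    · simpa using h2.neg
  refine (hom_of_mul h3 h1 hQ).imp id ?_
  rintro ⟨k, h, hk⟩
  exact ⟨k, by rw [Fin.sum_univ_succAbove _ i]; omega, hk⟩

lemma mem_span_compl {θ : Fin (l + 1) → Fin l → S K l} {i : Fin (l + 1)} :
    θ i ∈ Submodule.span (S K l) (θ '' {i}ᶜ) ↔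
      ∃ s : Fin (l + 1) → S K l, s i = 1 ∧ ∑ j, s j • θ j = 0 := by
  have e : θ '' {i}ᶜ = Set.range fun j => θ (i.succAbove j) := by
    rw [← Fin.range_succAbove, ← Set.range_comp]
    rfl
  rw [e, Submodule.mem_span_range_iff_exists_fun]
  constructor
  · rintro ⟨c, hc⟩
    refine ⟨i.insertNth 1 fun j => -c j, by simp, ?_⟩
    rw [Fin.sum_univ_succAbove _ i]
    simp [hc]
  · rintro ⟨s, h1, h⟩
    rw [Fin.sum_univ_succAbove _ i, h1, one_smul] at h
    exact ⟨fun j => -s (i.succAbove j), by simp [eq_neg_of_add_eq_zero_left h]⟩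

theorem main {a : Fin n → Fin l → K} (ha : ∀ h, a h ≠ 0)
    (hi : Function.Injective fun h => hyp (a h)) {θ : Fin (l + 1) → Fin l → S K l}
    (hθ : ∀ i, θ i ∈ D a) (hd : ∀ i, ∃ d, ∀ j, (θ i j).IsHomogeneous d)
    {g : Fin (l + 1) → S K l}
    (hg : ∀ i : Fin (l + 1), (-1) ^ (i.val + 1) * ((Matrix.of θ).submatrix i.succAbove id).det =
      g i * ∏ h, lin (a h)) : CondI a θ g ↔ CondII g := by
  have hQ : ∏ h, lin (a h) ≠ 0 := Finset.prod_ne_zero_iff.2 fun h _ => lin_ne (ha h)
  choose d hd using hd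
  have hh := hom_g ha hd hg
  have hr := rel_g hQ hg
  constructor
  · rintro ⟨-, ⟨hsp, hmin⟩, ⟨-, hdiv⟩, -, h1, h0⟩
    have hp := prime_lin h1 h0
    have hj : ∃ j, ¬ g (Fin.last l) ∣ g j := by
      by_contra! h
      have := hdiv _ h
      rw [h1.totalDegree h0] at this
      exact one_ne_zero this
    refine ⟨⟨h1, h0⟩, fun i => ?_, ?_⟩
    · rcases hh i.castSucc with h | ⟨e, -, he⟩
      · exact ⟨1, one_pos, h ▸ isHomogeneous_zero _ _ _⟩
      rcases e.eq_zero_or_pos with rfl | he0
      swap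
      · exact ⟨e, he0, he⟩
      have h2 : g i.castSucc = C (coeff 0 (g i.castSucc)) := by
        rw [← homogeneousComponent_zero, homogeneousComponent_eq_self he]
      by_cases h3 : coeff 0 (g i.castSucc) = 0
      · exact ⟨1, one_pos, by rw [h2, h3, map_zero]; exact isHomogeneous_zero _ _ _⟩
      refine absurd (mem_span_compl.2 ⟨fun j => C (coeff 0 (g i.castSucc))⁻¹ * g j, ?_, ?_⟩)
        (hmin i.castSucc)
      · simp only
        conv_lhs => enter [2]; rw [h2]
        rw [← map_mul, inv_mul_cancel₀ h3, map_one]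
      · simp only [mul_smul, ← Finset.smul_sum, hr, smul_zero]
    · rintro ⟨h, hpos, hm⟩
      simp only [Ideal.mem_span_pair] at hm
      choose u v huv using hm
      set α := g (Fin.last l) with hα
      by_cases hah : α ∣ h
      · obtain ⟨j, hj⟩ := hj
        induction j using Fin.lastCases with
        | last => exact hj dvd_rfl
        | cast j => exact hj (huv j ▸ dvd_add (hah.mul_left _) (dvd_mul_left _ _))
      have e1 : h • ∑ i, u i • θ i.castSucc +
          α • (∑ i, v i • θ i.castSucc + θ (Fin.last l)) = 0 := by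
        rw [← hr, Fin.sum_univ_castSucc, smul_add, ← add_assoc, Finset.smul_sum, Finset.smul_sum,
          ← Finset.sum_add_distrib]
        congr 1
        refine Finset.sum_congr rfl fun i _ => ?_
        rw [← huv, add_smul, smul_smul, smul_smul, mul_comm h, mul_comm α]
      have e2 : ∀ j, ∃ c, (∑ i, u i • θ i.castSucc) j = α * c := fun j =>
        (hp.dvd_or_dvd ⟨_, eq_neg_of_add_eq_zero_left (congrFun e1 j) |>.trans
          (mul_neg _ _).symm⟩).resolve_left hah
      choose ψ hψ using e2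
      have e3 : ∑ i, u i • θ i.castSucc = α • ψ := funext hψ
      have e4 : h • ψ + (∑ i, v i • θ i.castSucc + θ (Fin.last l)) = 0 := by
        rw [e3, smul_comm, ← smul_add] at e1
        exact (smul_eq_zero.1 e1).resolve_left h0
      have hψD : ψ ∈ D a := by
        intro k
        have pk := prime_lin (hom_lin (a k)) (lin_ne (ha k))
        have f1 : lin (a k) ∣ α * app (a k) ψ := by
          rw [← app_smul, ← e3]
          exact sum_mem_D _ (fun i => hθ _) k
        have f2 : lin (a k) ∣ h * app (a k) ψ := by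
          have : h • ψ = ∑ i, (Fin.snoc (α := fun _ => S K l) (fun i => -v i) (-1) i) • θ i := by
            rw [Fin.sum_univ_castSucc, eq_neg_of_add_eq_zero_left e4]
            simp [add_comm]
          rw [← app_smul, this]
          exact sum_mem_D _ hθ k
        by_contra hn
        exact hah ((pk.irreducible.associated_of_dvd hp.irreducible
          ((pk.dvd_or_dvd f1).resolve_right hn)).symm.dvd.trans
            ((pk.dvd_or_dvd f2).resolve_right hn))
      rw [← hsp, SetLike.mem_coe, Submodule.mem_span_range_iff_exists_fun] at hψD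
      obtain ⟨c, hc⟩ := hψD
      obtain ⟨k, hk⟩ := rel_mul hQ hg hp hj
        (s := fun i => h * c i + Fin.snoc (α := fun _ => S K l) v 1 i) (by
          rw [← e4, ← hc]
          simp only [add_smul, Finset.sum_add_distrib, mul_smul, Finset.smul_sum]
          rw [Fin.sum_univ_castSucc (fun i => Fin.snoc (α := fun _ => S K l) v 1 i • θ i)]
          simp)
      have := congrArg constantCoeff (congrFun hk (Fin.last l))
      simp [cc_pos hpos, ← hα, cc_pos ⟨1, one_pos, h1⟩] at this
  · rintro ⟨⟨h1, h0⟩, hpos, hno⟩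
    have hp := prime_lin h1 h0
    have hcc : ∀ i, constantCoeff (g i) = 0 := fun i => by
      induction i using Fin.lastCases with
      | last => exact cc_pos ⟨1, one_pos, h1⟩
      | cast i => exact cc_pos (hpos i)
    obtain ⟨j, hj⟩ : ∃ j : Fin l, ¬ g (Fin.last l) ∣ g j.castSucc := by
      by_contra! h
      exact hno ⟨_, ⟨1, one_pos, h1⟩, fun i => Ideal.mem_span_pair.2
        ⟨(h i).choose, 0, by simpa [mul_comm] using (h i).choose_spec.symm⟩⟩
    have hrel : ∀ s : Fin (l + 1) → S K l, ∑ i, s i • θ i = 0 → ∃ k : S K l, s = k • g :=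
      fun s hs => rel_mul hQ hg hp ⟨_, hj⟩ hs
    have hsp : (Submodule.span (S K l) (Set.range θ) : Set (Fin l → S K l)) = D a := by
      ext η
      rw [SetLike.mem_coe, Submodule.mem_span_range_iff_exists_fun]
      refine ⟨by rintro ⟨c, rfl⟩; exact sum_mem_D c hθ, fun hη => ?_⟩
      obtain ⟨σ, s0, s1, s2⟩ := exists_ret h1 h0
      obtain ⟨c, -, hc⟩ := cramer_mem ha hi hθ hg hη (Fin.last l)
      obtain ⟨c', -, hc'⟩ := cramer_mem ha hi hθ hg hη j.castSucc
      obtain ⟨k, hk⟩ := hrel (fun i => g j.castSucc * c i - g (Fin.last l) * c' i) (by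
        simp only [sub_smul, mul_smul, Finset.sum_sub_distrib, ← Finset.smul_sum, ← hc, ← hc']
        rw [smul_comm, sub_self])
      have hk' : ∀ i, σ (g j.castSucc) * σ (c i) = σ k * σ (g i) := fun i => by
        simpa [s0] using congrArg σ (congrFun hk i)
      have hne : σ (g j.castSucc) ≠ 0 := fun h => hj (by simpa [h] using s1 (g j.castSucc))
      obtain ⟨m, hm⟩ := dvd_of_forall (fun i : Fin l => σ (g i.castSucc)) (by
        intro p hp'
        by_contra! hall
        refine hno ⟨homogeneousComponent p.totalDegree p, ⟨_, Nat.pos_of_ne_zero fun h => ?_,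
          homogeneousComponent_isHomogeneous _ _⟩, fun i => ?_⟩
        · rw [totalDegree_eq_zero_iff_eq_C] at h
          refine hp'.not_unit (h ▸ (Ne.isUnit fun h2 => hp'.ne_zero ?_).map C)
          rw [h, h2, map_zero]
        · obtain ⟨e, -, he⟩ := hpos i
          obtain ⟨u, hu⟩ := top_dvd (s2 _ _ he) hp'.ne_zero (hall i)
          obtain ⟨v, hv⟩ := s1 (g i.castSucc)
          exact Ideal.mem_span_pair.2 ⟨u, v, by linear_combination -hu - hv⟩)
        _ hne (σ k) fun i => ⟨_, (hk' _).symm⟩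
      have hdv : ∀ i, ∃ w, c i - m * g i = g (Fin.last l) * w := fun i => by
        have e : σ (c i) = m * σ (g i) :=
          mul_left_cancel₀ hne (by rw [hk', hm, mul_assoc])
        obtain ⟨w, hw⟩ := dvd_sub (s1 (c i)) ((s1 (g i)).mul_left m)
        exact ⟨w, by linear_combination hw + e⟩
      choose w hw using hdv
      refine ⟨w, ?_⟩
      have e : g (Fin.last l) • (∑ i, w i • θ i - η) = 0 := by
        rw [smul_sub, hc, Finset.smul_sum]
        simp only [← mul_smul, ← hw, sub_smul, Finset.sum_sub_distrib]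
        simp only [mul_smul, ← Finset.smul_sum, hr]
        simp
      exact sub_eq_zero.1 ((smul_eq_zero.1 e).resolve_left h0)
    refine ⟨⟨θ, d, g, hd, hsp, fun s => ⟨hrel s, ?_⟩, h0, fun i => ⟨hcc i, ?_⟩⟩,
      ⟨hsp, fun i h => ?_⟩, ⟨hr, fun p hp' => ?_⟩, fun f hf => ?_, h1, h0⟩
    · rintro ⟨k, rfl⟩
      simp only [Pi.smul_apply, smul_eq_mul, mul_smul, ← Finset.smul_sum, hr, smul_zero]
    · obtain ⟨e, he, he'⟩ := (hh (Fin.last l)).resolve_left h0
      have := he'.inj_right h1 h0
      refine (hh i).imp id ?_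
      rintro ⟨k, hk, hk'⟩
      exact ⟨k, by omega, hk'⟩
    · obtain ⟨s, hs1, hs⟩ := mem_span_compl.1 h
      obtain ⟨k, hk⟩ := hrel s hs
      have := congrArg constantCoeff (congrFun hk i)
      simp [hs1, hcc] at this
    · rcases hp.irreducible.dvd_iff.1 (hp' _) with hu | hu
      · exact (isUnit_iff_totalDegree_of_isReduced.1 hu).2
      · exact absurd (hu.dvd.trans (hp' _)) hj
    · obtain ⟨k, hk⟩ := hrel f hf.1
      have := hf.2 k fun i => ⟨g i, by simp [hk]⟩
      rw [totalDegree_eq_zero_iff_eq_C] at this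
      exact ⟨coeff 0 k, by rw [hk, this]; ext1 i; simp [smul_eq_C_mul]⟩

end Pool.Agent.H80.Spog
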