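import Pool.Agent.H80.SpogDefs2
import Pool.Agent.H80.Spog1

/-! Seven lines whose derivation module has a quadratic syzygy. -/

namespace Pool.Agent.H80.Spog

open MvPolynomial Pool.Agent.H80.ST

lemma mem_DM {K : Type} [Field K] {l n : ℕ} {a : Fin n → Fin l → K} {η : Fin l → S K l} :
    η ∈ DM a ↔ η ∈ D a := by
  refine ⟨fun h => ?_, fun h => Submodule.subset_span h⟩
  induction h using Submodule.span_induction with
  | mem x h => exact h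
  | zero => exact fun h => by simp [app]
  | add x y _ _ hx hy =>
    intro h
    have : app (a h) (x + y) = app (a h) x + app (a h) y := by
      simp [app, mul_add, Finset.sum_add_distrib]
    exact this ▸ dvd_add (hx h) (hy h)
  | smul c x _ hx =>
    intro h
    rw [app_smul]
    exact (hx h).mul_left c

abbrev T : Type := S ℚ 3

def a7 : Fin 7 → Fin 3 → ℚ :=
  ![![0, 0, 1], ![1, 0, -1], ![1, 0, 1], ![0, 1, -1], ![0, 1, 1], ![1, 1, -1], ![1, 1, 1]]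

noncomputable def qA : T := (X 0 - X 2) * (X 0 + X 2)
noncomputable def qB : T := (X 1 - X 2) * (X 1 + X 2)
noncomputable def qC : T := (X 0 + X 1 - X 2) * (X 0 + X 1 + X 2)

noncomputable def th : Fin 4 → Fin 3 → T :=
  ![![X 0, X 1, X 2], ![qA * qC, 0, 0], ![0, qB * qC, 0],
    ![qA * qB + X 0 ^ 3 * X 0, -(qA * qB) + X 0 ^ 3 * X 1, X 0 ^ 3 * X 2]]

noncomputable def gg : Fin 4 → T := ![-(qC * X 0 ^ 3), -qB, qA, qC]

lemma ne_ev {p : T} (v : Fin 3 → ℚ) (h : eval v p ≠ 0) : p ≠ 0 := by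
  rintro rfl
  simp at h

lemma a7_ne (h : Fin 7) : a7 h ≠ 0 := by revert h; decide +kernel

lemma a7_inj : Function.Injective fun h => hyp (a7 h) := by
  intro i j h
  obtain ⟨c, hc⟩ := exists_smul_of_hyp_eq (a7_ne j) h
  have : ∀ i j : Fin 7, (∀ s t, a7 i s * a7 j t = a7 i t * a7 j s) → i = j := by decide +kernel
  exact this i j fun s t => by simp only [hc, Pi.smul_apply, smul_eq_mul]; ring

lemma mem_D (η : Fin 3 → T) : η ∈ D a7 ↔ X 2 ∣ η 2 ∧ X 0 - X 2 ∣ η 0 - η 2 ∧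
    X 0 + X 2 ∣ η 0 + η 2 ∧ X 1 - X 2 ∣ η 1 - η 2 ∧ X 1 + X 2 ∣ η 1 + η 2 ∧
    X 0 + X 1 - X 2 ∣ η 0 + η 1 - η 2 ∧ X 0 + X 1 + X 2 ∣ η 0 + η 1 + η 2 := by
  simp [D, Fin.forall_fin_succ, a7, lin, app, Fin.sum_univ_three, sub_eq_add_neg, add_assoc]

lemma Q7 : ∏ h, lin (a7 h) = X 2 * qA * qB * qC := by
  simp [Fin.prod_univ_succ, a7, lin, Fin.sum_univ_three, qA, qB, qC]
  ring

lemma kr {g : Fin 3 → T} {I : Ideal T} {f : T}
    (h : I ≤ RingHom.ker (aeval g : T →ₐ[ℚ] T)) (hf : aeval g f = 0) :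
    I ⊔ Ideal.span {f} ≤ RingHom.ker (aeval g : T →ₐ[ℚ] T) :=
  sup_le h ((Ideal.span_singleton_le_iff_mem _).2 hf)

lemma mr {I : Ideal T} {f : T} : f ∈ I ⊔ Ideal.span {f} :=
  Ideal.mem_sup_right (Ideal.mem_span_singleton_self f)

lemma nb {f : T} (h : f ≠ 0) : Nzd ⊥ f := fun q hq => by
  rw [Ideal.mem_bot] at hq ⊢
  exact (mul_eq_zero.1 hq).resolve_left h

lemma dv {f p : T} : p ∈ ⊥ ⊔ Ideal.span {f} ↔ f ∣ p := by
  rw [bot_sup_eq, Ideal.mem_span_singleton]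

lemma nzd1 (u f : T) (hu : aeval ![u, X 1, X 2] u = u) (v : Fin 3 → ℚ)
    (hf : eval v (aeval ![u, X 1, X 2] f : T) ≠ 0) : Nzd (⊥ ⊔ Ideal.span {X 0 - u}) f := by
  refine nzd_of_subst _ ![u, X 1, X 2] (fun i => ?_) (kr bot_le (by rw [map_sub, hu]; simp)) (ne_ev v hf)
  fin_cases i
  · exact mr
  · simp
  · simp

lemma nzd2 (u f : T) (hu : aeval ![X 0, u, X 2] u = u) (v : Fin 3 → ℚ)
    (hf : eval v (aeval ![X 0, u, X 2] f : T) ≠ 0) : Nzd (⊥ ⊔ Ideal.span {X 1 - u}) f := by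
  refine nzd_of_subst _ ![X 0, u, X 2] (fun i => ?_) (kr bot_le (by rw [map_sub, hu]; simp)) (ne_ev v hf)
  fin_cases i
  · simp
  · exact mr
  · simp

lemma qA_ne : qA ≠ 0 := ne_ev ![1, 0, 0] (by simp [qA])
lemma qB_ne : qB ≠ 0 := ne_ev ![0, 1, 0] (by simp [qB])
lemma qC_ne : qC ≠ 0 := ne_ev ![0, 1, 0] (by simp [qC])

/-- A product `f g` in the ideal: `p` is regular modulo `I + (f g)`. -/
lemma nzd_prod {I : Ideal T} {f g p : T} (hf : Nzd I f) (h1 : Nzd (I ⊔ Ideal.span {f}) p)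
    (h2 : Nzd (I ⊔ Ideal.span {g}) p) : Nzd (I ⊔ Ideal.span {f * g}) p := by
  intro q hq
  obtain ⟨i, hi, r, h⟩ := mem_sup_span.1 hq
  obtain ⟨j, hj, s, rfl⟩ := mem_sup_span.1 (h1 q (mem_sup_span.2 ⟨i, hi, r * g, by
    rw [h]; ring⟩))
  have h3 : f * (p * s - r * g) ∈ I := by
    rw [show f * (p * s - r * g) = i - p * j by linear_combination h]
    exact I.sub_mem hi (I.mul_mem_left _ hj)
  obtain ⟨k, hk, t, rfl⟩ := mem_sup_span.1 (h2 s (mem_sup_span.2 ⟨_, hf _ h3, r, by ring⟩))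
  exact mem_sup_span.2 ⟨j + f * k, I.add_mem hj (I.mul_mem_left _ hk), t, by ring⟩

lemma nzd_A {p : T} (v w : Fin 3 → ℚ) (h1 : eval v (aeval ![X 2, X 1, X 2] p : T) ≠ 0)
    (h2 : eval w (aeval ![-X 2, X 1, X 2] p : T) ≠ 0) : Nzd (⊥ ⊔ Ideal.span {qA}) p :=
  nzd_prod (nb (ne_ev ![1, 0, 0] (by simp))) (nzd1 _ _ (by simp) v h1)
    (by simpa using nzd1 (-X 2) _ (by simp) w h2)

lemma nzd_AB : Nzd (⊥ ⊔ Ideal.span {qA}) qB :=
  nzd_A ![0, 1, 0] ![0, 1, 0] (by simp [qB]) (by simp [qB])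

lemma nzd_ABC : Nzd (⊥ ⊔ Ideal.span {qA} ⊔ Ideal.span {qB}) qC := by
  have k : ∀ c e : ℚ, c + e - 1 ≠ 0 → c + e + 1 ≠ 0 →
      Nzd (⊥ ⊔ Ideal.span {(X 1 - C e * X 2 : T)} ⊔ Ideal.span {X 0 - C c * X 2}) qC := by
    intro c e h1 h2
    refine nzd_of_subst _ ![C c * X 2, C e * X 2, X 2] (fun i => ?_)
      (kr (kr bot_le (by simp)) (by simp)) (ne_ev ![0, 0, 1] (by simp [qC, h1, h2]))
    fin_cases i
    · exact mr
    · exact Ideal.mem_sup_left mr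
    · simp
  have k2 : ∀ e : ℚ, e = 1 ∨ e = -1 →
      Nzd (⊥ ⊔ Ideal.span {qA} ⊔ Ideal.span {X 1 - C e * X 2}) qC := by
    intro e he
    rw [sup_right_comm]
    refine nzd_prod (nzd2 _ _ (by simp) ![1, 0, 0] (by simp)) ?_ ?_
    · simpa using k 1 e (by rcases he with rfl | rfl <;> norm_num)
        (by rcases he with rfl | rfl <;> norm_num)
    · simpa using k (-1) e (by rcases he with rfl | rfl <;> norm_num)
        (by rcases he with rfl | rfl <;> norm_num)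
  refine nzd_prod (nzd_A ![0, 1, 0] ![0, 1, 0] (by simp) (by simp)) ?_ ?_
  · simpa using k2 1 (Or.inl rfl)
  · simpa using k2 (-1) (Or.inr rfl)

lemma th_mem (i : Fin 4) : th i ∈ D a7 := by
  rw [mem_D]
  fin_cases i
  · simp [th]
  · simp [th, qA, qC, dvd_mul_of_dvd_left, dvd_mul_of_dvd_right]
  · simp [th, qB, qC, dvd_mul_of_dvd_left, dvd_mul_of_dvd_right]
  · refine ⟨⟨X 0 ^ 3, ?_⟩, ⟨(X 0 + X 2) * qB + X 0 ^ 3, ?_⟩, ⟨(X 0 - X 2) * qB + X 0 ^ 3, ?_⟩,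
      ⟨-(X 1 + X 2) * qA + X 0 ^ 3, ?_⟩, ⟨-(X 1 - X 2) * qA + X 0 ^ 3, ?_⟩, ⟨X 0 ^ 3, ?_⟩,
      ⟨X 0 ^ 3, ?_⟩⟩ <;> simp [th, qA, qB] <;> ring

lemma hX (i : Fin 3) : (X i : T).IsHomogeneous 1 := isHomogeneous_X ℚ i
lemma hA : qA.IsHomogeneous 2 := ((hX 0).sub (hX 2)).mul ((hX 0).add (hX 2))
lemma hB : qB.IsHomogeneous 2 := ((hX 1).sub (hX 2)).mul ((hX 1).add (hX 2))
lemma hC : qC.IsHomogeneous 2 :=
  (((hX 0).add (hX 1)).sub (hX 2)).mul (((hX 0).add (hX 1)).add (hX 2))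

lemma th_hom (i : Fin 4) (j : Fin 3) : (th i j).IsHomogeneous (![1, 4, 4, 4] i) := by
  have z := isHomogeneous_zero (Fin 3) ℚ 4
  have k := fun j => ((hX 0).pow 3).mul (hX j)
  fin_cases i <;> fin_cases j
  exacts [hX 0, hX 1, hX 2, hA.mul hC, z, z, z, hB.mul hC, z, (hA.mul hB).add (k 0),
    (hA.mul hB).neg.add (k 1), k 2]

lemma th_det (i : Fin 4) : (-1) ^ (i.val + 1) * ((Matrix.of th).submatrix i.succAbove id).det =
    gg i * ∏ h, lin (a7 h) := by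
  rw [Q7, Matrix.det_fin_three]
  fin_cases i <;> simp [th, gg, Fin.succAbove] <;> ring

lemma gen {η : Fin 3 → T} (h : η ∈ D a7) : ∃ c : Fin 4 → T, ∑ i, c i • th i = η := by
  obtain ⟨⟨f, h0⟩, ⟨u1, h1⟩, ⟨u2, h2⟩, ⟨v1, h3⟩, ⟨v2, h4⟩, ⟨w1, h5⟩, ⟨w2, h6⟩⟩ := (mem_D η).1 h
  obtain ⟨p, hp⟩ := dv.1 (nzd1 (X 2) (X 0 + X 2) (by simp) ![0, 0, 1] (by simp) (u2 - f)
    (dv.2 ⟨u1 - f, by linear_combination h1 - h2 + 2 * h0⟩))
  obtain ⟨q, hq⟩ := dv.1 (nzd2 (X 2) (X 1 + X 2) (by simp) ![0, 0, 1] (by simp) (v2 - f)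
    (dv.2 ⟨v1 - f, by linear_combination h3 - h4 + 2 * h0⟩))
  obtain ⟨r, hr⟩ := dv.1 (nzd1 (X 2 - X 1) (X 0 + X 1 + X 2) (by simp) ![0, 0, 1] (by simp)
    (w2 - f) (dv.2 ⟨w1 - f, by linear_combination h5 - h6 + 2 * h0⟩))
  have e0 : η 0 = f * X 0 + qA * p := by
    simp only [qA]; linear_combination h2 - h0 + (X 0 + X 2) * hp
  have e1 : η 1 = f * X 1 + qB * q := by
    simp only [qB]; linear_combination h4 - h0 + (X 1 + X 2) * hq
  have e2 : qC * r = p * qA + q * qB := by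
    simp only [qC]
    linear_combination e0 + e1 + h0 - h6 - (X 0 + X 1 + X 2) * hr
  obtain ⟨_, hi, b, hb⟩ := mem_sup_span.1 (nzd_ABC r (mem_sup_span.2
    ⟨_, dv.2 ⟨p, mul_comm _ _⟩, q, e2⟩))
  obtain ⟨a, rfl⟩ := dv.1 hi
  obtain ⟨t, ht⟩ := dv.1 (nzd_AB (b * qC - q) (dv.2 ⟨p - a * qC, by
    linear_combination e2 - qC * hb⟩))
  have e3 : p = a * qC + qB * t :=
    mul_left_cancel₀ qA_ne (by linear_combination qC * hb - e2 + qB * ht)
  refine ⟨![f - t * X 0 ^ 3, a, b, t], funext fun j => ?_⟩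
  fin_cases j <;> simp [th, Fin.sum_univ_four]
  · linear_combination -e0 - qA * e3
  · linear_combination -e1 + qB * ht
  · linear_combination -h0

lemma rel {s : Fin 4 → T} : ∑ i, s i • th i = 0 ↔ ∃ k : T, s = k • gg := by
  constructor
  · intro h
    have h0 := congrFun h 0
    have h1 := congrFun h 1
    have h2 := congrFun h 2
    simp [th, Fin.sum_univ_four] at h0 h1 h2
    have e0 : s 0 = -(s 3 * X 0 ^ 3) :=
      mul_right_cancel₀ (X_ne_zero (2 : Fin 3)) (by linear_combination h2)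
    have e1 : s 1 * qC + s 3 * qB = 0 :=
      mul_left_cancel₀ qA_ne (by linear_combination h0 - X 0 * e0)
    have e2 : s 2 * qC = s 3 * qA :=
      mul_left_cancel₀ qB_ne (by linear_combination h1 - X 1 * e0)
    obtain ⟨k, hk⟩ := dv.1 (nzd_A (p := qC) ![0, 1, 0] ![0, 1, 0] (by simp [qC]) (by simp [qC])
      (s 2) (dv.2 ⟨s 3, by linear_combination e2⟩))
    have e3 : s 3 = k * qC := mul_left_cancel₀ qA_ne (by linear_combination qC * hk - e2)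
    have e4 : s 1 = -(k * qB) := mul_left_cancel₀ qC_ne (by linear_combination e1 - qB * e3)
    refine ⟨k, funext fun i => ?_⟩
    fin_cases i <;> simp [gg]
    · linear_combination e0 - X 0 ^ 3 * e3
    · exact e4
    · linear_combination hk
    · exact e3
  · rintro ⟨k, rfl⟩
    ext1 j
    fin_cases j <;> simp [th, gg, Fin.sum_univ_four] <;> ring

lemma cc_gg (i : Fin 4) : constantCoeff (gg i) = 0 := by
  fin_cases i <;> simp [gg, qA, qB, qC]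

end Pool.Agent.H80.Spog
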