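import Pool.Agent.H80.Spog3

/-! The counterexample to the predicted resolution shape. -/

namespace Pool.Agent.H80.Spog

open MvPolynomial Pool.Agent.H80.ST

lemma graded {ι κ : Type} [Fintype ι] {θ : ι → κ → T} {δ : ι → ℕ}
    (hθ : ∀ i j, (θ i j).IsHomogeneous (δ i)) {η : κ → T} {d : ℕ}
    (hη : ∀ j, (η j).IsHomogeneous d) {c : ι → T} (h : ∑ i, c i • θ i = η) :
    ∃ b : ι → T, ∑ i, b i • θ i = η ∧ ∀ i, b i = 0 ∨ ∃ e, e + δ i = d ∧ (b i).IsHomogeneous e := by
  refine ⟨fun i => if δ i ≤ d then homogeneousComponent (d - δ i) (c i) else 0, ?_, fun i => ?_⟩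
  · ext1 j
    rw [← homogeneousComponent_eq_self (hη j), ← h]
    simp only [Finset.sum_apply, Pi.smul_apply, smul_eq_mul, map_sum]
    refine Finset.sum_congr rfl fun i _ => ?_
    split_ifs with hi
    · rw [← hc_mul _ _ _ _ (hθ i j), Nat.sub_add_cancel hi]
    · rw [hc_mul_lt _ _ _ _ (hθ i j) (by omega), zero_mul]
  · by_cases hi : δ i ≤ d
    · exact Or.inr ⟨d - δ i, by omega, by simpa [hi] using homogeneousComponent_isHomogeneous _ _⟩
    · simp [hi]

lemma no_split {k : Fin 4 → T} (h : ∑ j, gg j • k j • gg = gg) : False := by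
  have h1 := congrFun h 3
  simp only [Finset.sum_apply, Pi.smul_apply, smul_eq_mul, ← mul_assoc, ← Finset.sum_mul] at h1
  have h2 : ∑ j, gg j * k j = 1 := mul_right_cancel₀ qC_ne (by rw [one_mul]; exact h1)
  simpa [cc_gg] using congrArg constantCoeff h2

noncomputable def piD : (Fin 4 → T) →ₗ[T] DM a7 :=
  (Fintype.linearCombination T th).codRestrict _ fun c => mem_DM.2 (sum_mem_D c th_mem)

lemma piD_eq (c : Fin 4 → T) : piD c = 0 ↔ ∃ k : T, c = k • gg := by
  rw [← rel, Subtype.ext_iff]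
  rfl

lemma piD_surj : Function.Surjective piD := fun η =>
  let ⟨c, hc⟩ := gen (mem_DM.1 η.2)
  ⟨c, Subtype.ext hc⟩

lemma pdOne : PdOne a7 := by
  refine ⟨fun hP => ?_, 4, 1, Fintype.linearCombination T fun _ => gg, piD, ?_, fun c => ?_,
    piD_surj⟩
  · obtain ⟨s, hs⟩ := Module.projective_lifting_property piD LinearMap.id piD_surj
    have h1 : ∀ j, ∃ k : T, Pi.single j 1 - s (piD (Pi.single j 1)) = k • gg := fun j =>
      (piD_eq _).1 (by
        rw [map_sub, sub_eq_zero]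
        exact (LinearMap.congr_fun hs _).symm)
    choose k hk using h1
    apply no_split (k := k)
    have e : ∑ j, gg j • (Pi.single j 1 : Fin 4 → T) = gg := by
      ext1 i
      simp [Pi.single_apply]
    simp only [← hk, smul_sub, Finset.sum_sub_distrib, ← map_smul, ← map_sum, e]
    rw [(piD_eq gg).2 ⟨1, (one_smul _ _).symm⟩, map_zero, sub_zero]
  · intro c c' h
    have h1 := congrFun h 3
    simp only [Fintype.linearCombination_apply, Fin.sum_univ_one, Pi.smul_apply,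
      smul_eq_mul] at h1
    ext1 i
    rw [Subsingleton.elim i 0]
    exact mul_right_cancel₀ qC_ne h1
  · rw [piD_eq]
    simp only [Set.mem_range, Fintype.linearCombination_apply, Fin.sum_univ_one]
    exact ⟨fun ⟨k, hk⟩ => ⟨fun _ => k, hk.symm⟩, fun ⟨k, hk⟩ => ⟨k 0, hk.symm⟩⟩

lemma hypH : HypH a7 gg := by
  refine ⟨qC_ne, fun i => ?_, ?_, pdOne⟩
  · fin_cases i
    · exact ⟨⟨5, by norm_num, (hC.mul ((hX 0).pow 3)).neg⟩,
        neg_ne_zero.2 (mul_ne_zero qC_ne (pow_ne_zero _ (X_ne_zero _)))⟩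
    · exact ⟨⟨2, two_pos, hB.neg⟩, neg_ne_zero.2 qB_ne⟩
    · exact ⟨⟨2, two_pos, hA⟩, qA_ne⟩
  · rintro ⟨h, hp, hm⟩
    obtain ⟨u, v, h1⟩ := Ideal.mem_span_pair.1 (hm 1)
    obtain ⟨u', v', h2⟩ := Ideal.mem_span_pair.1 (hm 2)
    change u * h + v * qC = -qB at h1
    change u' * h + v' * qC = qA at h2
    obtain ⟨_, hi, b, hb⟩ := mem_sup_span.1 (nzd_ABC (u' * v - u * v') (mem_sup_span.2
      ⟨_, dv.2 ⟨-u, rfl⟩, -u', by linear_combination u' * h1 - u * h2⟩))
    obtain ⟨a, rfl⟩ := dv.1 hi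
    obtain ⟨t, ht⟩ := dv.1 (nzd_AB (u' + b * qC) (dv.2 ⟨-u - a * qC, by
      linear_combination u' * h1 - u * h2 - qC * hb⟩))
    obtain ⟨w, hw⟩ := dv.1 (nzd_A (p := qC) ![0, 1, 0] ![0, 1, 0] (by simp [qC]) (by simp [qC])
      (v' - b * h) (dv.2 ⟨1 - t * h, by linear_combination h2 - h * ht⟩))
    have e : t * h + qC * w = 1 :=
      mul_left_cancel₀ qA_ne (by linear_combination h2 - h * ht - qC * hw)
    simpa [cc_pos hp, qC] using congrArg constantCoeff e

lemma not_shape : ¬ Shape a7 := by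
  rintro ⟨q, ψ, d, R, hψ, hsp, ⟨hli, hrel⟩, hR⟩
  have h1 : ∀ i, ∃ b : Fin 4 → T, ∑ j, b j • th j = ψ i ∧
      ∀ j, b j = 0 ∨ ∃ e, e + ![1, 4, 4, 4] j = d i ∧ (b j).IsHomogeneous e := fun i => by
    obtain ⟨c, hc⟩ := gen (η := ψ i) (mem_DM.1 (hsp ▸ Submodule.subset_span ⟨i, rfl⟩))
    exact graded th_hom (hψ i) hc
  choose B hB hBd using h1
  have h2 : ∀ j, ∃ c : Fin (3 + q) → T, ∑ i, c i • ψ i = th j := fun j =>
    (Submodule.mem_span_range_iff_exists_fun T).1 (hsp ▸ mem_DM.2 (th_mem j))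
  choose A hA using h2
  have sw : ∀ {ι κ μ : Type} [Fintype ι] [Fintype κ] (c : ι → T) (M : ι → κ → T)
      (v : κ → μ → T), ∑ k, (∑ i, c i • M i) k • v k = ∑ i, c i • ∑ k, M i k • v k := by
    intro ι κ μ _ _ c M v
    simp only [Finset.sum_apply, Pi.smul_apply, smul_eq_mul, Finset.sum_smul, Finset.smul_sum,
      mul_smul]
    exact Finset.sum_comm
  have sg : ∀ {ι μ : Type} [Fintype ι] [DecidableEq ι] (v : ι → μ → T) (i : ι),
      ∑ k, (Pi.single i 1 : ι → T) k • v k = v i := by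
    intro ι μ _ _ v i
    simp [Pi.single_apply]
  have sg' : ∀ {ι : Type} [Fintype ι] [DecidableEq ι] (v : ι → T),
      ∑ k, v k • (Pi.single k 1 : ι → T) = v := by
    intro ι _ _ v
    ext1 i
    simp [Pi.single_apply]
  have h3 : ∀ i, ∃ L : Fin q → T, ∑ m, L m • R m = Pi.single i 1 - ∑ j, B i j • A j := fun i =>
    (Submodule.mem_span_range_iff_exists_fun T).1 ((hrel _).1 (by
      simp only [Pi.sub_apply, sub_smul, Finset.sum_sub_distrib, sg, sw, hA, hB, sub_self]))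
  choose L hL using h3
  rcases q.eq_zero_or_pos with rfl | hq
  · have h4 : ∀ j, ∃ k : T, Pi.single j 1 - ∑ i, A j i • B i = k • gg := fun j => rel.1 (by
      simp only [Pi.sub_apply, sub_smul, Finset.sum_sub_distrib, sg, sw, hA, hB, sub_self])
    choose k hk using h4
    have h5 : ∑ j, gg j • A j = 0 := by
      simpa using (hrel (∑ j, gg j • A j)).1 (by
        simp only [sw, hA]
        exact rel.2 ⟨1, (one_smul _ _).symm⟩)
    apply no_split (k := k)
    simp only [← hk, smul_sub, Finset.sum_sub_distrib, sg', ← sw, h5]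
    simp
  · have hd : ∀ i, d i ≤ 4 := fun i => by
      by_contra hi
      have := congrArg constantCoeff (congrFun (hL i) i)
      have z : ∀ j, constantCoeff (B i j) = 0 := fun j => by
        rcases hBd i j with h | ⟨e, he, h⟩
        · rw [h, map_zero]
        · refine cc_pos ⟨e, ?_, h⟩
          have : ![1, 4, 4, 4] j ≤ 4 := by fin_cases j <;> simp
          omega
      simp [z, (hR _ _).1] at this
    let m : Fin q := ⟨0, hq⟩
    obtain ⟨k, hk⟩ := rel.1 (show ∑ j, (∑ i, R m i • B i) j • th j = 0 by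
      simp only [sw, hB]
      exact (hrel _).2 (Submodule.subset_span ⟨m, rfl⟩))
    have h4 : (k * qC).IsHomogeneous (d (Fin.natAdd 3 m) - 3) := by
      rw [show k * qC = _ from (congrFun hk 3).symm, Finset.sum_apply]
      refine IsHomogeneous.sum _ _ _ fun i _ => ?_
      rw [Pi.smul_apply, smul_eq_mul]
      rcases (hR m i).2 with h | ⟨e, he, h⟩
      · rw [h, zero_mul]
        exact isHomogeneous_zero _ _ _
      rcases hBd i 3 with h' | ⟨e', he', h'⟩
      · rw [h', mul_zero]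
        exact isHomogeneous_zero _ _ _
      change e' + 4 = d i at he'
      rw [show d (Fin.natAdd 3 m) - 3 = e + e' by omega]
      exact h.mul h'
    have h5 : k = 0 := (hom_of_mul h4 hC qC_ne).resolve_right (by
      rintro ⟨t, ht, -⟩
      have := hd (Fin.natAdd 3 m)
      omega)
    rw [h5, zero_smul] at hk
    have h6 : ∑ j, ((∑ i, R m i • L i) - Pi.single m 1 : Fin q → T) j • R j = 0 := by
      simp only [Pi.sub_apply, sub_smul, Finset.sum_sub_distrib, sg, sw, hL, smul_sub, sg']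
      simp only [← sw, hk]
      simp
    have := congrArg constantCoeff (Fintype.linearIndependent_iff.1 hli _ h6 m)
    simp [(hR _ _).1] at this

theorem cex : ∃ (n : ℕ) (a : Fin n → Fin 3 → ℚ) (θ : Fin (3 + 1) → Fin 3 → S ℚ 3)
    (g : Fin (3 + 1) → S ℚ 3), (∀ h, a h ≠ 0) ∧ (Function.Injective fun h => hyp (a h)) ∧
    (∀ i, θ i ∈ D a) ∧ (∀ i, ∃ d, ∀ j, (θ i j).IsHomogeneous d) ∧
    (∀ i : Fin (3 + 1), (-1) ^ (i.val + 1) * ((Matrix.of θ).submatrix i.succAbove id).det =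
      g i * ∏ h, lin (a h)) ∧ HypH a g ∧ ¬ Shape a :=
  ⟨7, a7, th, gg, a7_ne, a7_inj, th_mem, fun i => ⟨_, th_hom i⟩, th_det, hypH, not_shape⟩

end Pool.Agent.H80.Spog
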