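import Pool.Agent.H80.STDefs

/-! Logarithmic derivations and SPOG arrangements. -/

namespace Pool.Agent.H80.Spog

open MvPolynomial Pool.Agent.H80.ST

variable {K : Type} [Field K] {l n : ℕ}

/-- The polynomial ring `S`. -/
abbrev S (K : Type) [Field K] (l : ℕ) : Type := MvPolynomial (Fin l) K

/-- `θ(α)` for `θ = ∑ θ_j ∂_j` and the linear form `α` with coefficient vector `a`. -/
noncomputable def app (a : Fin l → K) (θ : Fin l → S K l) : S K l := ∑ j, C (a j) * θ j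

/-- `D(A)` for the arrangement of the forms `lin (a h)`. -/
def D (a : Fin n → Fin l → K) : Set (Fin l → S K l) := {θ | ∀ h, lin (a h) ∣ app (a h) θ}

/-- `p ∈ S_{>0}`. -/
def Pos (p : S K l) : Prop := ∃ e, 0 < e ∧ p.IsHomogeneous e

/-- `D(A)` has a minimal graded free resolution
`0 → S[-d-1] → ⊕ S[-d_i] ⊕ S[-d] → D(A) → 0` whose last relation coefficient is nonzero. -/
def IsSPOG (a : Fin n → Fin l → K) : Prop :=
  ∃ (ψ : Fin (l + 1) → Fin l → S K l) (d : Fin (l + 1) → ℕ) (r : Fin (l + 1) → S K l),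
    (∀ i j, (ψ i j).IsHomogeneous (d i)) ∧
    (Submodule.span (S K l) (Set.range ψ) : Set (Fin l → S K l)) = D a ∧
    (∀ s : Fin (l + 1) → S K l, ∑ i, s i • ψ i = 0 ↔ ∃ k : S K l, s = k • r) ∧
    r (Fin.last l) ≠ 0 ∧ ∀ i, constantCoeff (r i) = 0 ∧
      (r i = 0 ∨ ∃ e, e + d i = d (Fin.last l) + 1 ∧ (r i).IsHomogeneous e)

/-- `θ` is a minimal generating set of `D(A)`. -/
def MinGen (a : Fin n → Fin l → K) (θ : Fin (l + 1) → Fin l → S K l) : Prop :=
  (Submodule.span (S K l) (Set.range θ) : Set (Fin l → S K l)) = D a ∧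
    ∀ i, θ i ∉ Submodule.span (S K l) (θ '' {i}ᶜ)

/-- `f` is a relation of minimal degree among the `θ i`. -/
def MinRel (θ : Fin (l + 1) → Fin l → S K l) (f : Fin (l + 1) → S K l) : Prop :=
  ∑ i, f i • θ i = 0 ∧ ∀ p, (∀ i, p ∣ f i) → p.totalDegree = 0

/-- Condition (i). -/
def CondI (a : Fin n → Fin l → K) (θ : Fin (l + 1) → Fin l → S K l)
    (g : Fin (l + 1) → S K l) : Prop :=
  IsSPOG a ∧ MinGen a θ ∧ MinRel θ g ∧ (∀ f, MinRel θ f → ∃ c : K, f = c • g) ∧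
    (g (Fin.last l)).IsHomogeneous 1 ∧ g (Fin.last l) ≠ 0

/-- Condition (ii). -/
def CondII (g : Fin (l + 1) → S K l) : Prop :=
  ((g (Fin.last l)).IsHomogeneous 1 ∧ g (Fin.last l) ≠ 0) ∧ (∀ i : Fin l, Pos (g i.castSucc)) ∧
    ¬ ∃ h, Pos h ∧ ∀ i : Fin l, g i.castSucc ∈ Ideal.span {h, g (Fin.last l)}

end Pool.Agent.H80.Spog
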