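import Pool.Agent.H80.SpogDefs

/-! Projective dimension one and the shape of the minimal resolution of `D(A)`. -/

namespace Pool.Agent.H80.Spog

open MvPolynomial Pool.Agent.H80.ST

variable {K : Type} [Field K] {l n : ℕ}

/-- `D(A)` as an `S`-module (the set `D a` is already closed under the module operations). -/
noncomputable def DM (a : Fin n → Fin l → K) : Submodule (S K l) (Fin l → S K l) :=
  Submodule.span (S K l) (D a)

/-- `pd M = 1`: not projective, with a finite free resolution of length one. -/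
def PdOneMod (R M : Type) [CommRing R] [AddCommGroup M] [Module R M] : Prop :=
  ¬ Module.Projective R M ∧
    ∃ (p q : ℕ) (f : (Fin q → R) →ₗ[R] Fin p → R) (π : (Fin p → R) →ₗ[R] M),
      Function.Injective f ∧ Function.Exact f π ∧ Function.Surjective π

/-- `pd D(A) = 1`. -/
def PdOne (a : Fin n → Fin l → K) : Prop := PdOneMod (S K l) (DM a)

/-- The rows of `r` form a basis of the module of relations among the `ψ i`. -/
def RelBasis {R M : Type} [CommRing R] [AddCommGroup M] [Module R M] {p q : ℕ}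
    (ψ : Fin p → M) (r : Fin q → Fin p → R) : Prop :=
  LinearIndependent R r ∧
    ∀ s : Fin p → R, ∑ i, s i • ψ i = 0 ↔ s ∈ Submodule.span R (Set.range r)

/-- Hypotheses (H). -/
def HypH (a : Fin n → Fin l → K) (g : Fin (l + 1) → S K l) : Prop :=
  g (Fin.last l) ≠ 0 ∧ (∀ i : Fin l, Pos (g i.castSucc) ∧ g i.castSucc ≠ 0) ∧
    (¬ ∃ h, Pos h ∧ ∀ i : Fin l, g i.castSucc ∈ Ideal.span {h, g (Fin.last l)}) ∧ PdOne a

/-- `D(A)` has a graded minimal free resolution
`0 → ⊕_{i > l} S[-d_i-1] → ⊕_i S[-d_i] → D(A) → 0`. -/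
def Shape (a : Fin n → Fin l → K) : Prop :=
  ∃ (q : ℕ) (ψ : Fin (l + q) → Fin l → S K l) (d : Fin (l + q) → ℕ)
    (R : Fin q → Fin (l + q) → S K l),
    (∀ i j, (ψ i j).IsHomogeneous (d i)) ∧ Submodule.span (S K l) (Set.range ψ) = DM a ∧
    RelBasis ψ R ∧
    ∀ j i, constantCoeff (R j i) = 0 ∧
      (R j i = 0 ∨ ∃ e, e + d i = d (Fin.natAdd l j) + 1 ∧ (R j i).IsHomogeneous e)

end Pool.Agent.H80.Spog
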