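import Mathlib

namespace Pool.Agent.H80.SymPos

open MvPolynomial

/-- A symmetric function is given as a polynomial `g` in variables `j` standing for the power sums
`p_j`; this is its truncation `f^{(n)}` to `n` variables. -/
noncomputable def trunc (n : ℕ) (g : MvPolynomial ℕ ℝ) : MvPolynomial (Fin n) ℝ :=
  aeval (fun j => psum (Fin n) ℝ j) g

/-- The value `f(x) = g(p_2(x), p_3(x), …)` at a sequence `x`. -/
noncomputable def val (g : MvPolynomial ℕ ℝ) (x : ℕ → ℝ) : ℝ := eval (fun j => ∑' i, x i ^ j) g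

/-- `f > 0` on the unit sphere `S` of `ℓ²`. -/
def PosOnS (g : MvPolynomial ℕ ℝ) : Prop :=
  ∀ x : ℕ → ℝ, HasSum (fun i => x i ^ 2) 1 → 0 < val g x

end Pool.Agent.H80.SymPos
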