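import Mathlib
import Pool.Agent.H80.SymPosDefs

namespace Pool.Agent.H80.SymPos

open MvPolynomial

noncomputable def g : MvPolynomial ℕ ℝ :=
  X 2 ^ 2 * (C 4 * X 4 - X 2 ^ 2) ^ 2 + (C 8 * X 6 - X 2 ^ 3) ^ 2

lemma g_vars : ∀ j ∈ g.vars, Even j ∧ 2 ≤ j := by
  have : g ∈ supported ℝ {j | Even j ∧ 2 ≤ j} := by
    have h : ∀ j, Even j ∧ 2 ≤ j → (X j : MvPolynomial ℕ ℝ) ∈ supported ℝ {j | Even j ∧ 2 ≤ j} :=
      fun j hj => X_mem_supported.2 hj
    have h2 := h 2 (by norm_num)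
    have h4 := h 4 (by decide)
    have h6 := h 6 (by decide)
    have hc : ∀ c : ℝ, (C c : MvPolynomial ℕ ℝ) ∈ supported ℝ {j | Even j ∧ 2 ≤ j} :=
      fun c => Subalgebra.algebraMap_mem _ c
    exact add_mem (mul_mem (pow_mem h2 _) (pow_mem (sub_mem (mul_mem (hc _) h4) (pow_mem h2 _)) _))
      (pow_mem (sub_mem (mul_mem (hc _) h6) (pow_mem h2 _)) _)
  exact fun j hj => mem_supported.1 this hj

lemma g_hom : IsWeightedHomogeneous id g 12 := by
  have h : ∀ j, IsWeightedHomogeneous id (X j : MvPolynomial ℕ ℝ) j := isWeightedHomogeneous_X ℝ id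
  have a1 : IsWeightedHomogeneous id (C 4 * X 4 - X 2 ^ 2 : MvPolynomial ℕ ℝ) 4 :=
    ((h 4).C_mul 4).sub ((h 2).pow 2)
  have a2 : IsWeightedHomogeneous id (C 8 * X 6 - X 2 ^ 3 : MvPolynomial ℕ ℝ) 6 :=
    ((h 6).C_mul 8).sub ((h 2).pow 3)
  exact (((h 2).pow 2).mul (a1.pow 2)).add (a2.pow 2)

lemma g_pos : PosOnS g := by
  intro x hx
  have h1 : ∀ i, x i ^ 2 ≤ 1 := fun i => le_hasSum hx i fun j _ => sq_nonneg _
  have s4 : Summable fun i => x i ^ 4 :=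
    Summable.of_nonneg_of_le (fun i => by positivity)
      (fun i => by nlinarith [h1 i, sq_nonneg (x i)]) hx.summable
  have s6 : Summable fun i => x i ^ 6 :=
    Summable.of_nonneg_of_le (fun i => by positivity)
      (fun i => by nlinarith [h1 i, sq_nonneg (x i ^ 2)]) s4
  simp only [val, g, map_add, map_mul, map_pow, map_sub, eval_X, eval_C, hx.tsum_eq]
  by_contra hn
  have e4 : ∑' i, x i ^ 4 = 1 / 4 := by
    nlinarith [sq_nonneg (4 * ∑' i, x i ^ 4 - 1), sq_nonneg (8 * ∑' i, x i ^ 6 - 1)]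
  have e6 : ∑' i, x i ^ 6 = 1 / 8 := by
    nlinarith [sq_nonneg (4 * ∑' i, x i ^ 4 - 1), sq_nonneg (8 * ∑' i, x i ^ 6 - 1)]
  have h4 := e4 ▸ s4.hasSum
  have h6 := e6 ▸ s6.hasSum
  have h2 : ∀ i, x i ^ 2 ≤ 1 / 2 := fun i => by
    have := le_hasSum h4 i fun j _ => by positivity
    nlinarith
  have h3 : HasSum (fun i => x i ^ 4 / 2 - x i ^ 6) 0 := by
    have := (h4.div_const 2).sub h6
    norm_num at this
    exact this
  have h5 := (hasSum_zero_iff_of_nonneg fun i => by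
    have := mul_nonneg (sq_nonneg (x i ^ 2)) (sub_nonneg.2 (h2 i))
    nlinarith).1 h3
  have h7 : (fun i => x i ^ 4) = fun i => x i ^ 2 / 2 := by
    funext i
    have : x i ^ 4 / 2 - x i ^ 6 = 0 := congrFun h5 i
    have h8 : (x i ^ 2 * (1 / 2 - x i ^ 2)) * x i ^ 2 = 0 := by linarith
    rcases mul_eq_zero.1 h8 with h | h
    · linarith
    · have : x i ^ 4 = (x i ^ 2) ^ 2 := by ring
      rw [this, h]; norm_num
  rw [h7] at h4
  have := h4.unique (hx.div_const 2)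
  norm_num at this

lemma prod_mono {σ : Type} {x y : σ → ℝ} (h0 : ∀ i, 0 ≤ x i) (h : ∀ i, x i ≤ y i) (s : Multiset σ) :
    0 ≤ (s.map x).prod ∧ (s.map x).prod ≤ (s.map y).prod := by
  induction s using Multiset.induction_on with
  | empty => simp
  | cons a s ih =>
    simp only [Multiset.map_cons, Multiset.prod_cons]
    exact ⟨mul_nonneg (h0 a) ih.1, mul_le_mul (h a) ih.2 ih.1 ((h0 a).trans (h a))⟩

lemma msymm_mono {n m : ℕ} {x y : Fin n → ℝ} (h0 : ∀ i, 0 ≤ x i) (h : ∀ i, x i ≤ y i)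
    (μ : m.Partition) : eval x (msymm (Fin n) ℝ μ) ≤ eval y (msymm (Fin n) ℝ μ) := by
  simp only [msymm, map_sum, map_multiset_prod, Multiset.map_map, Function.comp_def, eval_X]
  exact Finset.sum_le_sum fun s _ => (prod_mono h0 h _).2

lemma eval_trunc {n : ℕ} (x : Fin n → ℝ) (f : MvPolynomial ℕ ℝ) :
    eval x (trunc n f) = eval (fun j => ∑ i, x i ^ j) f := by
  unfold trunc
  induction f using MvPolynomial.induction_on with
  | C c => simp
  | add p q hp hq => simp only [map_add, hp, hq]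
  | mul_X p i hp => simp only [map_mul, hp, aeval_X, eval_X]; simp [psum]

theorem q1 (k : ℕ) (T : Finset (12 + 2 * k).Partition) (c : (12 + 2 * k).Partition → ℝ)
    (hc : ∀ μ, 0 ≤ c μ) : ¬ ∀ n, trunc n (X 2 ^ k * g) = ∑ μ ∈ T, c μ • msymm (Fin n) ℝ μ := by
  intro h
  obtain ⟨n, hn⟩ := exists_nat_gt ((2 : ℝ) ^ k * 1000)
  have h2k : (1 : ℝ) ≤ 2 ^ k := one_le_pow₀ (by norm_num)
  have hn0 : (1000 : ℝ) ≤ n := by linarith
  set w : ℝ := √(1 / (2 * n)) with hw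
  have hw2 : w ^ 2 = 1 / (2 * n) := Real.sq_sqrt (by positivity)
  set a : ℝ := √(1 / 2) with ha
  have ha2 : a ^ 2 = 1 / 2 := Real.sq_sqrt (by positivity)
  have key : eval (Fin.cons 0 fun _ => w : Fin (n + 1) → ℝ) (trunc (n + 1) (X 2 ^ k * g)) ≤
      eval (Fin.cons a fun _ => w : Fin (n + 1) → ℝ) (trunc (n + 1) (X 2 ^ k * g)) := by
    rw [h, map_sum, map_sum]
    refine Finset.sum_le_sum fun μ _ => ?_
    rw [smul_eval, smul_eval]
    refine mul_le_mul_of_nonneg_left (msymm_mono (fun i => ?_) (fun i => ?_) μ) (hc μ)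
    · refine Fin.cases le_rfl (fun _ => Real.sqrt_nonneg _) i
    · refine Fin.cases (Real.sqrt_nonneg _) (fun _ => le_rfl) i
  rw [eval_trunc, eval_trunc] at key
  simp only [g, map_add, map_mul, map_pow, map_sub, eval_X, eval_C, Fin.sum_univ_succ, Fin.cons_zero,
    Fin.cons_succ, Finset.sum_const, Finset.card_univ, Fintype.card_fin, nsmul_eq_mul] at key
  set e : ℝ := 1 / n with he
  have he0 : 0 < e := by positivity
  have he1 : e ≤ 1 / 1000 := one_div_le_one_div_of_le (by norm_num) hn0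
  have he2 : 2 ^ k * 1000 * e < 1 := by rw [he, mul_one_div, div_lt_one (by positivity)]; exact hn
  have p2 : n * w ^ 2 = 1 / 2 := by rw [hw2]; field_simp
  have p4 : n * w ^ 4 = e / 4 := by rw [show w ^ 4 = (w ^ 2) ^ 2 by ring, hw2, he]; field_simp; ring
  have p6 : n * w ^ 6 = e ^ 2 / 8 := by rw [show w ^ 6 = (w ^ 2) ^ 3 by ring, hw2, he]; field_simp; ring
  rw [p2, p4, p6, show a ^ 4 = (a ^ 2) ^ 2 by ring, show a ^ 6 = (a ^ 2) ^ 3 by ring, ha2] at key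
  norm_num at key
  have h1 : (1 / 2 : ℝ) ^ k * 2 ^ k = 1 := by rw [← mul_pow]; norm_num
  have h3 : 1 / 100 ≤ 1 / 4 * (4 * (e / 4) - 1 / 4) ^ 2 + (8 * (e ^ 2 / 8) - 1 / 8) ^ 2 := by
    nlinarith [sq_nonneg (8 * (e ^ 2 / 8) - 1 / 8)]
  have h4 : (4 * (1 / 4 + e / 4) - 1) ^ 2 + (8 * (1 / 8 + e ^ 2 / 8) - 1) ^ 2 ≤ e := by
    have : e ^ 2 ≤ e / 1000 := by nlinarith
    nlinarith
  have h5 : (0 : ℝ) < (1 / 2) ^ k := by positivity
  nlinarith [mul_le_mul_of_nonneg_left h3 h5.le]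

end Pool.Agent.H80.SymPos
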