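import Pool.Agent.H80.TameDefs

namespace Pool.Agent.H80.Tame

open MvPolynomial Submodule

lemma avoid_fin {V P : Type} [AddCommGroup V] [Module ℂ V] (W : P → Submodule ℂ V)
    (A : Set P) (hA : A.Finite) (hW : ∀ p ∈ A, W p ≠ ⊤) (H : Submodule ℂ V) (hH : H ≠ ⊤) :
    ∃ v, v ∉ H ∧ ∀ p ∈ A, v ∉ W p := by
  classical
  by_contra hc
  push Not at hc
  refine Subspace.biUnion_ne_univ_of_top_notMem (s := insert H (hA.toFinset.image W)) ?_ ?_
  · simp only [Finset.mem_insert, Finset.mem_image, Set.Finite.mem_toFinset, not_or, not_exists,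
      not_and]
    exact ⟨hH.symm, hW⟩
  · refine Set.eq_univ_of_forall fun v => ?_
    simp only [Set.mem_iUnion, Finset.mem_insert, Finset.mem_image, Set.Finite.mem_toFinset]
    by_cases hv : v ∈ H
    · exact ⟨H, Or.inl rfl, hv⟩
    · obtain ⟨p, h1, h2⟩ := hc v hv
      exact ⟨W p, Or.inr ⟨p, h1, rfl⟩, h2⟩

lemma avoid {V P : Type} [AddCommGroup V] [Module ℂ V] (W : P → Submodule ℂ V)
    (hW : ∀ p, W p ≠ ⊤) (H : Submodule ℂ V) (hH : H ≠ ⊤) (s : V) (hs : {p | s ∈ W p}.Finite)
    (G : Submodule ℂ V) (hG : G ≠ ⊤)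
    (hG2 : ∀ w, w ∉ G → {p | ∃ c : ℂ, w + c • s ∈ W p}.Finite) :
    ∃ v, v ∉ H ∧ ∀ p, v ∉ W p := by
  obtain ⟨w, hw1, hw2⟩ := avoid_fin (fun o : Option P => o.elim G W)
    (insert none (some '' {p | s ∈ W p})) ((hs.image _).insert _)
    (by rintro (_ | p) _; exacts [hG, hW p]) H hH
  have hwG : w ∉ G := hw2 none (Set.mem_insert _ _)
  have hwW : ∀ p, s ∈ W p → w ∉ W p := fun p hp =>
    hw2 (some p) (Set.mem_insert_of_mem _ ⟨p, hp, rfl⟩)
  have one : ∀ M : Submodule ℂ V, (s ∈ M → w ∉ M) → {c : ℂ | w + c • s ∈ M}.Finite := by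
    intro M hM
    refine Set.Subsingleton.finite fun c hc c' hc' => ?_
    by_contra hne
    have h1 : (c - c') • s ∈ M := by
      have := M.sub_mem hc hc'
      rwa [add_sub_add_left_eq_sub, ← sub_smul] at this
    have h2 : s ∈ M := (M.smul_mem_iff (sub_ne_zero.2 hne)).1 h1
    exact hM h2 (by simpa using M.sub_mem hc (M.smul_mem c h2))
  have fin := (one H fun _ => hw1).union
    ((hG2 w hwG).biUnion fun p _ => one (W p) (hwW p))
  obtain ⟨c, hc⟩ := fin.exists_notMem
  refine ⟨w + c • s, fun h => hc (Or.inl h), fun p h => hc (Or.inr ?_)⟩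
  exact Set.mem_biUnion (x := p) ⟨c, h⟩ h

variable {k : ℕ}

/-- Reduction of a vector to the residue field of a prime. -/
noncomputable def red (P : Ideal (S k)) [P.IsPrime] :
    Vec k →ₗ[S k] (Fin (k + 2) → P.ResidueField) :=
  LinearMap.pi fun j => (Algebra.linearMap (S k) P.ResidueField).comp (LinearMap.proj j)

lemma red_apply (P : Ideal (S k)) [P.IsPrime] (v : Vec k) (j : Fin (k + 2)) :
    red P v j = algebraMap _ _ (v j) := rfl

/-- Independence in the fibre. -/
def Ind (P : Ideal (S k)) [P.IsPrime] {r : ℕ} (y : Fin r → Vec k) : Prop :=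
  LinearIndependent P.ResidueField fun i => red P (y i)

/-- Vectors dependent on `y` in the fibre. -/
noncomputable def sat (P : Ideal (S k)) [P.IsPrime] {r : ℕ} (y : Fin r → Vec k) :
    Submodule (S k) (Vec k) :=
  ((span P.ResidueField (Set.range fun i => red P (y i))).restrictScalars (S k)).comap (red P)

lemma mem_sat (P : Ideal (S k)) [P.IsPrime] {r : ℕ} (y : Fin r → Vec k) (v : Vec k) :
    v ∈ sat P y ↔ red P v ∈ span P.ResidueField (Set.range fun i => red P (y i)) := Iff.rfl

lemma ind_cons (P : Ideal (S k)) [P.IsPrime] {r : ℕ} (y : Fin r → Vec k) (v : Vec k) :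
    Ind P (Fin.cons v y : Fin (r + 1) → Vec k) ↔ Ind P y ∧ v ∉ sat P y := by
  rw [Ind, Ind, mem_sat, ← linearIndependent_finCons]
  have : (fun i => red P ((Fin.cons v y : Fin (r + 1) → Vec k) i)) =
      (Fin.cons (red P v) fun i => red P (y i) : Fin (r + 1) → _) := by
    funext i
    refine Fin.cases rfl (fun _ => rfl) i
  rw [this]

lemma sat_smul (P : Ideal (S k)) [P.IsPrime] {r : ℕ} (y : Fin r → Vec k) (v : Vec k) (b : S k)
    (hb : b ∉ P) (h : b • v ∈ sat P y) : v ∈ sat P y := by
  rw [mem_sat, map_smul, ← algebraMap_smul P.ResidueField] at h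
  rw [mem_sat]
  exact (Submodule.smul_mem_iff _ (fun e => hb (Ideal.algebraMap_residueField_eq_zero.1 e))).1 h

lemma ind_iff (P : Ideal (S k)) [P.IsPrime] {r : ℕ} (y : Fin r → Vec k) (h : Ind P y)
    (a : Fin r → S k) (ha : ∀ j, (∑ i, a i • y i) j ∈ P) (i : Fin r) : a i ∈ P := by
  rw [← Ideal.algebraMap_residueField_eq_zero]
  refine Fintype.linearIndependent_iff.1 h (fun i => algebraMap _ _ (a i)) ?_ i
  simp only [algebraMap_smul, ← map_smul, ← map_sum]
  funext j
  rw [red_apply, Pi.zero_apply, Ideal.algebraMap_residueField_eq_zero]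
  exact ha j

lemma exists_g {r : ℕ} (y : Fin r → Vec k) (h : Ind ⊥ y) :
    ∃ g : S k, g ≠ 0 ∧ ∀ (P : Ideal (S k)) [P.IsPrime], g ∉ P → Ind P y := by
  set L := (⊥ : Ideal (S k)).ResidueField
  obtain ⟨T, hT⟩ := (Fintype.linearCombination L fun i => red ⊥ (y i)).exists_leftInverse_of_injective
    (LinearMap.ker_eq_bot.2 (linearIndependent_iff_injective_fintypeLinearCombination.1 h))
  obtain ⟨g, hg⟩ := IsLocalization.exist_integer_multiples_of_finite (nonZeroDivisors (S k))
    (fun x : Fin r × Fin (k + 2) => T (Pi.single x.2 1) x.1)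
  choose B hB using hg
  have key : ∀ i i', ∑ j, B (i, j) * y i' j = if i = i' then (g : S k) else 0 := by
    intro i i'
    apply IsFractionRing.injective (S k) L
    have e := congrFun (LinearMap.congr_fun hT (Pi.single i' 1)) i
    rw [LinearMap.comp_apply, Fintype.linearCombination_apply_single, one_smul,
      ← Finset.univ_sum_single (red ⊥ (y i')), map_sum, Finset.sum_apply] at e
    have e2 : ∀ j, T (Pi.single j (red ⊥ (y i') j)) i =
        T (Pi.single j 1) i * algebraMap _ L (y i' j) := by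
      intro j
      rw [← mul_one (red ⊥ (y i') j), ← smul_eq_mul, Pi.single_smul, map_smul, Pi.smul_apply,
        smul_eq_mul, mul_comm, red_apply]
    simp only [e2] at e
    simp only [map_sum, map_mul, hB, Algebra.smul_def, mul_assoc, ← Finset.mul_sum, e]
    by_cases hi : i = i'
    · simp [hi]
    · simp [hi]
  refine ⟨g, nonZeroDivisors.ne_zero g.2, fun P _ hg => Fintype.linearIndependent_iff.2 ?_⟩
  intro c hc i
  have e : ∑ j, algebraMap _ P.ResidueField (B (i, j)) * (∑ i', c i' • red P (y i')) j = 0 := by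
    rw [hc]; simp
  simp only [Finset.sum_apply, Pi.smul_apply, smul_eq_mul, red_apply, Finset.mul_sum] at e
  rw [Finset.sum_comm] at e
  have e3 : ∀ i', ∑ j, algebraMap _ P.ResidueField (B (i, j)) * (c i' * algebraMap _ _ (y i' j)) =
      c i' * algebraMap _ _ (∑ j, B (i, j) * y i' j) := by
    intro i'
    simp only [map_sum, map_mul, Finset.mul_sum]
    exact Finset.sum_congr rfl fun j _ => by ring
  simp only [e3, key] at e
  rw [Finset.sum_eq_single i (fun b _ hb => by simp [Ne.symm hb]) (by simp), if_pos rfl] at e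
  exact (mul_eq_zero.1 e).resolve_right (by rwa [Ideal.algebraMap_residueField_eq_zero])

/-- Principal primes (including zero). -/
abbrev PP (k : ℕ) : Type := {P : PrimeSpectrum (S k) // P.asIdeal.IsPrincipal}

lemma PP.gen (P : PP k) : ∃ p : S k, (p = 0 ∨ Prime p) ∧ P.1.asIdeal = Ideal.span {p} := by
  obtain ⟨p, hp⟩ := P.2
  refine ⟨p, ?_, hp⟩
  by_cases h : p = 0
  · exact Or.inl h
  · have := P.1.2
    rw [hp] at this
    exact Or.inr ((Ideal.span_singleton_prime h).1 this)

lemma fin_mem (g : S k) (hg : g ≠ 0) : {P : PP k | g ∈ P.1.asIdeal}.Finite := by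
  classical
  refine Set.Finite.of_finite_image (f := fun P => P.1.asIdeal) ?_
    fun P _ Q _ h => Subtype.ext (PrimeSpectrum.ext h)
  refine ((UniqueFactorizationMonoid.factors g).toFinset.finite_toSet.image
    fun q => Ideal.span {q}).subset ?_
  rintro _ ⟨P, hP, rfl⟩
  obtain ⟨p, hp, e⟩ := P.gen
  simp only [Set.mem_setOf_eq, e, Ideal.mem_span_singleton] at hP
  rcases hp with rfl | hp
  · exact absurd (zero_dvd_iff.1 hP) hg
  · obtain ⟨q, hq, ha⟩ := UniqueFactorizationMonoid.exists_mem_factors_of_dvd hg hp.irreducible hP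
    exact ⟨q, by simpa using hq, by
      simp only [e]; exact (Ideal.span_singleton_eq_span_singleton.2 ha).symm⟩

lemma fin_dep {r : ℕ} (y : Fin r → Vec k) (h : Ind ⊥ y) :
    {P : PP k | ¬ Ind P.1.asIdeal y}.Finite := by
  obtain ⟨g, hg, h2⟩ := exists_g y h
  exact (fin_mem g hg).subset fun P hP => by_contra fun h3 => hP (h2 _ h3)

lemma exists_X (P : PP k) : ∃ j, (X j : S k) ∉ P.1.asIdeal := by
  obtain ⟨p, hp, e⟩ := P.gen
  by_contra hc
  push Not at hc
  simp only [e, Ideal.mem_span_singleton] at hc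
  rcases hp with rfl | hp
  · exact X_ne_zero _ (zero_dvd_iff.1 (hc 0))
  · have h1 := hp.irreducible.associated_of_dvd X_prime.irreducible (hc 0)
    have h2 := X_dvd_X.1 (h1.symm.dvd.trans (hc 1))
    simp at h2

lemma pderiv_zero (p : S k) (h : ∀ j, p ∣ pderiv j p) : p = C (coeff 0 p) := by
  have h0 : ∀ j, pderiv j p = 0 := by
    intro j
    by_contra hne
    have h1 := totalDegree_le_of_dvd_of_isDomain (h j) hne
    obtain ⟨m, hm, e⟩ := Finset.exists_mem_eq_sup _ (support_nonempty.2 hne)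
      fun s : Fin (k + 2) →₀ ℕ => s.sum fun _ e => e
    have h2 : m + Finsupp.single j 1 ∈ p.support := by
      rw [mem_support_iff, coeff_pderiv] at hm
      exact mem_support_iff.2 (left_ne_zero_of_mul hm)
    have h3 := le_totalDegree h2
    rw [Finsupp.sum_add_index' (fun _ => rfl) (fun _ _ _ => rfl), Finsupp.sum_single_index rfl] at h3
    rw [totalDegree, totalDegree, e] at h1
    rw [totalDegree] at h3
    omega
  ext m
  rw [coeff_C]
  split_ifs with hm
  · rw [hm]
  · obtain ⟨j, hj⟩ := Finsupp.ne_iff.1 (Ne.symm hm)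
    have e := coeff_pderiv (i := j) p (m - Finsupp.single j 1)
    rw [h0, coeff_zero, tsub_add_cancel_of_le (Finsupp.single_le_iff.2
      (Nat.one_le_iff_ne_zero.2 hj))] at e
    exact (mul_eq_zero.1 e.symm).resolve_right (Nat.cast_add_one_ne_zero _)

lemma exists_pderiv {f : S k} {d : ℕ} (hf : f.IsHomogeneous d) (hd : d ≠ 0) (hs : Squarefree f)
    (P : PP k) : ∃ j, pderiv j f ∉ P.1.asIdeal := by
  obtain ⟨p, hp, e⟩ := P.gen
  by_contra hc
  push Not at hc
  simp only [e, Ideal.mem_span_singleton] at hc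
  have h1 : p ∣ f := by
    have : p ∣ d • f := hf.sum_X_mul_pderiv ▸ Finset.dvd_sum fun j _ => (hc j).mul_left _
    rw [nsmul_eq_mul, ← map_natCast (C : ℂ →+* S k)] at this
    exact (IsUnit.dvd_mul_left ((IsUnit.mk0 _ (by exact_mod_cast hd)).map C)).1 this
  rcases hp with rfl | hp
  · exact hs.ne_zero (zero_dvd_iff.1 h1)
  · obtain ⟨g, rfl⟩ := h1
    have h2 : ¬ p ∣ g := fun h => hp.not_unit (hs p (mul_dvd_mul_left p h))
    have h3 := pderiv_zero p fun j => by
      have := hc j
      rw [Derivation.leibniz, smul_eq_mul, smul_eq_mul] at this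
      exact (hp.dvd_or_dvd ((dvd_add_right (dvd_mul_right _ _)).1 this)).resolve_left h2
    by_cases h4 : coeff 0 p = 0
    · exact hp.ne_zero (by rw [h3, h4, map_zero])
    · exact hp.not_unit (h3 ▸ (IsUnit.mk0 _ h4).map C)

lemma rank_bound {f : S k} (P : Ideal (S k)) [P.IsPrime] (j0 : Fin (k + 2))
    (hj : pderiv j0 f ∉ P) {m r : ℕ} (ρ : Fin m → Vec k)
    (hρ : ∀ v, IsSyz f v → v ∈ span (S k) (Set.range ρ)) (y : Fin r → Vec k) (B : Finset (Fin m))
    (h : ∀ i, i ∉ B → ρ i ∈ sat P y) : k + 1 ≤ r + B.card := by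
  let z : Fin r ⊕ B → Fin (k + 2) → P.ResidueField := Sum.elim (fun i => red P (y i)) fun i => red P (ρ i)
  let ℓ : (Fin (k + 2) → P.ResidueField) →ₗ[P.ResidueField] P.ResidueField :=
    Fintype.linearCombination P.ResidueField fun j => algebraMap (S k) P.ResidueField (pderiv j f)
  have h1 : ∀ v, IsSyz f v → red P v ∈ span P.ResidueField (Set.range z) := by
    intro v hv
    have : span (S k) (Set.range ρ) ≤ ((span P.ResidueField (Set.range z)).restrictScalars (S k)).comap (red P) := by
      rw [span_le]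
      rintro _ ⟨i, rfl⟩
      by_cases hi : i ∈ B
      · exact subset_span ⟨Sum.inr ⟨i, hi⟩, rfl⟩
      · refine span_mono ?_ ((mem_sat _ _ _).1 (h i hi))
        rintro _ ⟨a, rfl⟩
        exact ⟨Sum.inl a, rfl⟩
    exact this (hρ v hv)
  have hj' : algebraMap (S k) P.ResidueField (pderiv j0 f) ≠ 0 := by
    rwa [Ne, Ideal.algebraMap_residueField_eq_zero]
  have h2 : LinearMap.ker ℓ ≤ span P.ResidueField (Set.range z) := by
    intro x hx
    rw [← Submodule.smul_mem_iff _ hj']
    have e : algebraMap (S k) P.ResidueField (pderiv j0 f) • x = ∑ i, x i •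
        red P (Pi.single i (pderiv j0 f) - Pi.single j0 (pderiv i f)) := by
      funext j
      simp only [LinearMap.mem_ker, ℓ, Fintype.linearCombination_apply, smul_eq_mul] at hx
      simp only [Finset.sum_apply, Pi.smul_apply, red_apply, Pi.sub_apply, map_sub, smul_eq_mul,
        mul_sub, Finset.sum_sub_distrib, Pi.single_apply, apply_ite (algebraMap (S k) P.ResidueField), map_zero,
        mul_ite, mul_zero, Finset.sum_ite_eq, Finset.mem_univ, if_true]
      by_cases hjj : j = j0
      · simp only [hjj, if_true, hx, sub_zero, mul_comm]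
      · simp [hjj, mul_comm]
    rw [e]
    refine sum_mem fun i _ => smul_mem _ _ (h1 _ ?_)
    simp [IsSyz, mul_sub, Finset.sum_sub_distrib, Pi.single_apply, mul_comm]
  have h3 := Submodule.finrank_mono h2
  have h4 := finrank_range_le_card (R := P.ResidueField) z
  have h5 := ℓ.finrank_range_add_finrank_ker
  have h6 := (LinearMap.range ℓ).finrank_le
  simp only [Module.finrank_self, Module.finrank_fintype_fun_eq_card, Fintype.card_fin,
    Fintype.card_sum, Fintype.card_coe] at h4 h5 h6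
  rw [Set.finrank] at h4
  omega

end Pool.Agent.H80.Tame
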