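import Pool.Agent.H80.Tame1

namespace Pool.Agent.H80.Tame

open MvPolynomial Submodule

variable {k : ℕ}

lemma hc_mul (a g : S k) (e t : ℕ) (hg : g.IsHomogeneous e) :
    homogeneousComponent (t + e) (a * g) = homogeneousComponent t a * g := by
  conv_lhs => rw [← sum_homogeneousComponent a, Finset.sum_mul, map_sum]
  have : ∀ i, homogeneousComponent (t + e) (homogeneousComponent i a * g) =
      if i = t then homogeneousComponent t a * g else 0 := by
    intro i
    rw [homogeneousComponent_of_mem ((homogeneousComponent_isHomogeneous i a).mul hg)]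
    by_cases h : i = t
    · simp [h]
    · rw [if_neg (by omega), if_neg h]
  simp only [this, Finset.sum_ite_eq', Finset.mem_range]
  split_ifs with h
  · rfl
  · rw [homogeneousComponent_eq_zero _ _ (by omega), zero_mul]

/-- The syzygy module. -/
def syz (f : S k) : Submodule (S k) (Vec k) where
  carrier := {v | IsSyz f v}
  add_mem' := by
    intro a b ha hb
    simp only [IsSyz, Set.mem_setOf_eq, Pi.add_apply, add_mul, Finset.sum_add_distrib] at *
    rw [ha, hb, add_zero]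
  zero_mem' := by simp [IsSyz]
  smul_mem' := by
    intro c a ha
    simp only [IsSyz, Set.mem_setOf_eq, Pi.smul_apply, smul_eq_mul, mul_assoc,
      ← Finset.mul_sum] at *
    rw [ha, mul_zero]

lemma exists_gen {f : S k} {d : ℕ} (hf : f.IsHomogeneous d) :
    ∃ (m : ℕ) (ρ : Fin m → Vec k), Generates f ρ := by
  classical
  let A : Set (Vec k) := {v | IsSyz f v ∧ ∃ e, ∀ j, (v j).IsHomogeneous e}
  have hA : span (S k) A = syz f := by
    refine le_antisymm (span_le.2 fun v hv => hv.1) fun v hv => ?_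
    have e : v = ∑ t ∈ Finset.range (Finset.univ.sup (fun j => (v j).totalDegree) + 1),
        fun j => homogeneousComponent t (v j) := by
      funext j
      rw [Finset.sum_apply]
      conv_lhs => rw [← sum_homogeneousComponent (v j)]
      refine Finset.sum_subset (Finset.range_mono (Nat.succ_le_succ
        (Finset.le_sup (f := fun j => (v j).totalDegree) (Finset.mem_univ j)))) fun t _ ht => ?_
      exact homogeneousComponent_eq_zero _ _ (by simpa using ht)
    rw [e]
    refine sum_mem fun t _ => subset_span ⟨?_, t, fun j => homogeneousComponent_isHomogeneous _ _⟩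
    have h1 := congrArg (homogeneousComponent (t + (d - 1))) (show ∑ j, v j * pderiv j f = 0 from hv)
    rw [map_sum, map_zero] at h1
    rw [IsSyz, ← h1]
    exact Finset.sum_congr rfl fun j _ => (hc_mul _ _ _ _ hf.pderiv).symm
  obtain ⟨T, hT1, hT2⟩ := (fg_span_iff_fg_span_finset_subset (R := S k) A).1
    (IsNoetherian.noetherian _)
  refine ⟨T.card, fun i => (T.equivFin.symm i : Vec k), fun i => (hT1 (T.equivFin.symm i).2).2,
    fun v => ?_⟩
  have : Set.range (fun i => (T.equivFin.symm i : Vec k)) = T := by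
    rw [← Subtype.range_coe (s := (T : Set (Vec k)))]
    exact T.equivFin.symm.surjective.range_comp _
  rw [this, ← hT2, hA]
  rfl

lemma exists_min {f : S k} {d : ℕ} (hf : f.IsHomogeneous d) :
    ∃ (m : ℕ) (ρ : Fin m → Vec k) (e : Fin m → ℕ), Monotone e ∧
      (∀ i j, (ρ i j).IsHomogeneous (e i)) ∧ Generates f ρ ∧
      ∀ (m' : ℕ) (ρ' : Fin m' → Vec k), Generates f ρ' → m ≤ m' := by
  classical
  have h := exists_gen hf
  obtain ⟨ρ, h1, h2⟩ := Nat.find_spec h
  choose e he using h1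
  refine ⟨Nat.find h, ρ ∘ Tuple.sort e, e ∘ Tuple.sort e, Tuple.monotone_sort e,
    fun i j => he _ j, ⟨fun i => ⟨_, he _⟩, fun v => ?_⟩, fun m' ρ' h' => Nat.find_min' h ⟨ρ', h'⟩⟩
  rw [(Tuple.sort e).surjective.range_comp, h2]

/-- The zero prime. -/
noncomputable def P0 (k : ℕ) : PP k := ⟨⟨⊥, Ideal.isPrime_bot⟩, bot_isPrincipal⟩

lemma step {f : S k} (hf : ∀ P : PP k, ∃ j, pderiv j f ∉ P.1.asIdeal) {m r : ℕ}
    (ρ : Fin m → Vec k) (e : Fin m → ℕ) (he : Monotone e)
    (hρ : ∀ i j, (ρ i j).IsHomogeneous (e i))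
    (hg : ∀ v, v ∈ span (S k) (Set.range ρ) ↔ IsSyz f v) (a : Fin m) (ha : a + k = m + r)
    (y : Fin r → Vec k) (hy : ∀ P : PP k, Ind P.1.asIdeal y) :
    ∃ w : Vec k, (∀ j, (w j).IsHomogeneous (e a)) ∧
      span (S k) (Set.range (Function.update ρ a w)) = span (S k) (Set.range ρ) ∧
      ∀ P : PP k, Ind P.1.asIdeal (Fin.cons w y : Fin (r + 1) → Vec k) := by
  classical
  let V' : Submodule ℂ (Vec k) :=
    (span (S k) (ρ '' {i | i < a})).restrictScalars ℂ ⊓
      Submodule.pi Set.univ fun _ => homogeneousSubmodule (Fin (k + 2)) ℂ (e a)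
  let ψ : (ℂ × V') →ₗ[ℂ] Vec k := (LinearMap.toSpanSingleton ℂ _ (ρ a)).coprod V'.subtype
  have hψ : ∀ x : ℂ × V', ψ x = x.1 • ρ a + x.2 := fun x => rfl
  have proper : ∀ (P : PP k) {t : ℕ} (z : Fin t → Vec k), t ≤ r + 1 →
      ((sat P.1.asIdeal z).restrictScalars ℂ).comap ψ ≠ ⊤ := by
    intro P t z ht htop
    have hall : ∀ x, ψ x ∈ sat P.1.asIdeal z := fun x =>
      (htop ▸ mem_top : x ∈ ((sat P.1.asIdeal z).restrictScalars ℂ).comap ψ)
    obtain ⟨j0, hj0⟩ := hf P
    obtain ⟨j1, hj1⟩ := exists_X P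
    have := rank_bound P.1.asIdeal j0 hj0 ρ (fun v hv => (hg v).2 hv) z (Finset.Ioi a) (by
      intro i hi
      rcases (not_lt.1 (Finset.mem_Ioi.not.1 hi)).eq_or_lt with rfl | hi
      · simpa [hψ] using hall (1, 0)
      · refine sat_smul _ z _ (X j1 ^ (e a - e i)) (fun h => hj1 (P.1.2.mem_of_pow_mem _ h)) ?_
        have hm : (X j1 ^ (e a - e i) : S k) • ρ i ∈ V' := by
          refine ⟨smul_mem (span (S k) (ρ '' {i | i < a})) _ (subset_span ⟨i, hi, rfl⟩),
            fun j _ => ?_⟩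
          have h3 := (isHomogeneous_X_pow (R := ℂ) j1 (e a - e i)).mul (hρ i j)
          rwa [Nat.sub_add_cancel (he hi.le)] at h3
        simpa [hψ] using hall (0, ⟨_, hm⟩))
    rw [Fin.card_Ioi] at this
    have := a.2
    omega
  obtain ⟨s, hs⟩ : ∃ s, s ∉ ((sat (P0 k).1.asIdeal y).restrictScalars ℂ).comap ψ := by
    by_contra hc
    push Not at hc
    exact proper (P0 k) y (by omega) (eq_top_iff.2 fun x _ => hc x)
  have hs1 : Ind ⊥ (Fin.cons (ψ s) y : Fin (r + 1) → Vec k) :=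
    (ind_cons ⊥ y _).2 ⟨hy (P0 k), hs⟩
  obtain ⟨x, hx1, hx2⟩ := avoid
    (fun P : PP k => ((sat P.1.asIdeal y).restrictScalars ℂ).comap ψ)
    (fun P => proper P y (by omega)) (LinearMap.ker (LinearMap.fst ℂ ℂ V'))
    (fun h => (one_ne_zero : (1 : ℂ) ≠ 0)
      (h ▸ mem_top : ((1 : ℂ), (0 : V')) ∈ LinearMap.ker (LinearMap.fst ℂ ℂ V'))) s
    ((fin_dep _ hs1).subset fun P hP h => ((ind_cons _ _ _).1 h).2 hP)
    _ (proper (P0 k) (Fin.cons (ψ s) y : Fin (r + 1) → Vec k) le_rfl) (by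
      intro w hw
      refine (fin_dep _ ((ind_cons ⊥ _ (ψ w)).2 ⟨hs1, hw⟩)).subset ?_
      rintro P ⟨c, hc⟩ h
      refine ((ind_cons _ _ _).1 h).2 ?_
      have h1 : ψ (w + c • s) ∈ sat P.1.asIdeal (Fin.cons (ψ s) y : Fin (r + 1) → Vec k) := by
        refine span_mono ?_ ((mem_sat _ _ _).1 hc)
        rintro _ ⟨i, rfl⟩
        exact ⟨i.succ, rfl⟩
      have h2 : ψ s ∈ sat P.1.asIdeal (Fin.cons (ψ s) y : Fin (r + 1) → Vec k) :=
        subset_span ⟨0, rfl⟩
      have h3 := sub_mem h1 (smul_of_tower_mem _ c h2)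
      rwa [map_add, map_smul, add_sub_cancel_right] at h3)
  have hx0 : x.1 ≠ 0 := hx1
  have hsub : span (S k) (ρ '' {i | i < a}) ≤ span (S k) (Set.range (Function.update ρ a (ψ x))) ⊓
      span (S k) (Set.range ρ) := by
    rw [span_le]
    rintro _ ⟨i, hi, rfl⟩
    exact ⟨subset_span ⟨i, Function.update_of_ne (ne_of_lt hi) _ _⟩, subset_span ⟨i, rfl⟩⟩
  refine ⟨ψ x, fun j => ?_, le_antisymm ?_ ?_, fun P => (ind_cons _ _ _).2 ⟨hy P, hx2 P⟩⟩
  · exact (homogeneousSubmodule (Fin (k + 2)) ℂ (e a)).add_mem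
      ((homogeneousSubmodule (Fin (k + 2)) ℂ (e a)).smul_mem x.1 (hρ a j)) (x.2.2.2 j trivial)
  · rw [span_le]
    rintro _ ⟨i, rfl⟩
    by_cases hi : i = a
    · rw [hi, Function.update_self, hψ]
      exact add_mem (smul_of_tower_mem _ _ (subset_span ⟨a, rfl⟩)) (hsub x.2.2.1).2
    · rw [Function.update_of_ne hi]
      exact subset_span ⟨i, rfl⟩
  · rw [span_le]
    rintro _ ⟨i, rfl⟩
    by_cases hi : i = a
    · have h1 : ψ x ∈ span (S k) (Set.range (Function.update ρ a (ψ x))) :=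
        subset_span ⟨a, Function.update_self _ _ _⟩
      have h2 := smul_of_tower_mem _ x.1⁻¹ (sub_mem h1 (hsub x.2.2.1).1)
      have h3 : x.1⁻¹ • (ψ x - x.2) = ρ a := by
        rw [hψ, add_sub_cancel_right, smul_smul, inv_mul_cancel₀ hx0, one_smul]
      rw [hi, ← h3]
      exact h2
    · exact subset_span ⟨i, Function.update_of_ne hi _ _⟩

lemma tame_of {f : S k} {d : ℕ} (hf : f.IsHomogeneous d) (hd : d ≠ 0) (h0 : f ≠ 0)
    (w : Fin k → Vec k) (hw : ∀ i, IsSyz f (w i)) (hy : ∀ P : PP k, Ind P.1.asIdeal w) :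
    IsTame f w := by
  have li : ∀ a : Fin k → S k, ∑ i, a i • w i = 0 → ∀ i, a i = 0 := fun a ha i =>
    ind_iff ⊥ w (hy (P0 k)) a (fun j => by rw [ha]; rfl) i
  have satur : ∀ b : S k, b ≠ 0 → ∀ ρ, b • ρ ∈ span (S k) (Set.range w) →
      ρ ∈ span (S k) (Set.range w) := by
    intro b
    induction b using UniqueFactorizationMonoid.induction_on_prime with
    | h₁ => intro h; exact absurd rfl h
    | h₂ u hu => exact fun _ ρ h => (smul_mem_iff_of_isUnit _ hu).1 h
    | h₃ b p hb hp ih =>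
      intro _ ρ h
      refine ih hb ρ ?_
      obtain ⟨a, ha⟩ := (mem_span_range_iff_exists_fun _).1 h
      have := (Ideal.span_singleton_prime hp.ne_zero).2 hp
      have h1 := ind_iff (Ideal.span {p}) w
        (hy ⟨⟨_, (Ideal.span_singleton_prime hp.ne_zero).2 hp⟩, ⟨p, rfl⟩⟩) a (fun j => by
          rw [ha, mul_smul]; exact Ideal.mem_span_singleton.2 (dvd_mul_right _ _))
      simp only [Ideal.mem_span_singleton] at h1
      choose c hc using h1
      refine (mem_span_range_iff_exists_fun _).2 ⟨c, smul_right_injective _ hp.ne_zero ?_⟩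
      simp only [Finset.smul_sum, ← mul_smul, ← hc, ha]
  have vm : ∀ (ρ : Vec k) (v : Fin (k + 2) → S k), Matrix.vecMul v (mat w ρ) =
      v 0 • (X : Vec k) + (∑ i, v (Fin.succ (Fin.castSucc i)) • w i + v (Fin.last _) • ρ) := by
    intro ρ v
    rw [Matrix.vecMul_eq_sum, Fin.sum_univ_succ, Fin.sum_univ_castSucc]
    have e : ∀ i, mat w ρ i = (Fin.cons X (Fin.snoc w ρ : Fin (k + 1) → Vec k) :
        Fin (k + 2) → Vec k) i := fun _ => rfl
    simp only [Matrix.row, e, Fin.cons_zero, Fin.cons_succ, Fin.snoc_castSucc, Fin.snoc_last,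
      ← Fin.succ_last]
  refine ⟨Fintype.linearIndependent_iff.2 li, fun ρ hρ => ?_⟩
  rw [← Matrix.exists_vecMul_eq_zero_iff]
  constructor
  · rintro ⟨v, hv, h⟩
    rw [vm] at h
    have h1 : ∑ i, v (Fin.succ (Fin.castSucc i)) • w i + v (Fin.last _) • ρ ∈ syz f :=
      add_mem (sum_mem fun i _ => smul_mem _ _ (hw i)) (smul_mem _ _ hρ)
    rw [← neg_eq_of_add_eq_zero_right h, neg_mem_iff] at h1
    have h2 : v 0 = 0 := by
      have h3 : ∑ j, (v 0 • (X : Vec k)) j * pderiv j f = 0 := h1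
      simp only [Pi.smul_apply, smul_eq_mul, mul_assoc, ← Finset.mul_sum,
        hf.sum_X_mul_pderiv] at h3
      exact (mul_eq_zero.1 h3).resolve_right (smul_ne_zero hd h0)
    rw [h2, zero_smul, zero_add] at h
    refine satur (v (Fin.last _)) (fun h3 => hv ?_) ρ ?_
    · rw [h3, zero_smul, add_zero] at h
      funext i
      refine Fin.cases h2 (fun i => Fin.lastCases h3 (fun i => li _ h i) i) i
    · rw [← neg_eq_of_add_eq_zero_right h]
      exact neg_mem (sum_mem fun i _ => smul_mem _ _ (subset_span ⟨i, rfl⟩))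
  · intro h
    obtain ⟨a, ha⟩ := (mem_span_range_iff_exists_fun _).1 h
    refine ⟨Fin.cons 0 (Fin.snoc a (-1) : Fin (k + 1) → S k), fun h => ?_, ?_⟩
    · have := congrFun h (Fin.succ (Fin.last k))
      simp at this
    · rw [vm, ← Fin.succ_last]
      simp [ha]

theorem always_tame (f : S k) (d : ℕ) (hf : f.IsHomogeneous d) (hd : d ≠ 0) (hs : Squarefree f) :
    ∃ (m : ℕ) (ρ : Fin m → Vec k) (ι : Fin k → Fin m), IsMinGen f ρ ∧ Function.Injective ι ∧
      IsTame f (ρ ∘ ι) := by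
  obtain ⟨m, ρ0, e, he, h1, h2, h3⟩ := exists_min hf
  have hP := exists_pderiv hf hd hs
  have hm : k + 1 ≤ m := by
    obtain ⟨j, hj⟩ := hP (P0 k)
    simpa using rank_bound _ j hj ρ0 (fun v hv => (h2.2 v).2 hv) (Fin.elim0 : Fin 0 → Vec k)
      Finset.univ (by simp)
  have main : ∀ r ≤ k, ∃ (ρ : Fin m → Vec k) (ι : Fin r → Fin m),
      (∀ i j, (ρ i j).IsHomogeneous (e i)) ∧
      (∀ v, v ∈ span (S k) (Set.range ρ) ↔ IsSyz f v) ∧ Function.Injective ι ∧
      (∀ i, (ι i : ℕ) + k < m + r) ∧ ∀ P : PP k, Ind P.1.asIdeal (ρ ∘ ι) := by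
    intro r
    induction r with
    | zero =>
      exact fun _ => ⟨ρ0, Fin.elim0, h1, h2.2, fun i => i.elim0, fun i => i.elim0,
        fun P => linearIndependent_empty_type⟩
    | succ r ih =>
      intro hr
      obtain ⟨ρ, ι, g1, g2, g3, g4, g5⟩ := ih (by omega)
      let a : Fin m := ⟨m + r - k, by omega⟩
      have ha : (a : ℕ) + k = m + r := by simp only [a]; omega
      have hne : ∀ i, ι i ≠ a := fun i h => by have := g4 i; rw [h] at this; omega
      obtain ⟨w, w1, w2, w3⟩ := step hP ρ e he g1 g2 a ha _ g5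
      refine ⟨Function.update ρ a w, Fin.cons a ι, fun i j => ?_, fun v => by rw [w2, g2],
        Fin.cons_injective_iff.2 ⟨fun ⟨i, hi⟩ => hne i hi, g3⟩, fun i => ?_, fun P => ?_⟩
      · by_cases hi : i = a
        · rw [hi, Function.update_self]; exact w1 j
        · rw [Function.update_of_ne hi]; exact g1 i j
      · refine Fin.cases ?_ (fun i => ?_) i
        · simp only [Fin.cons_zero]; omega
        · have := g4 i
          simp only [Fin.cons_succ]; omega
      · convert w3 P using 1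
        funext i
        refine Fin.cases ?_ (fun i => ?_) i
        · simp
        · simp [Function.update_of_ne (hne i)]
  obtain ⟨ρ, ι, g1, g2, g3, -, g5⟩ := main k le_rfl
  exact ⟨m, ρ, ι, ⟨⟨fun i => ⟨_, g1 i⟩, g2⟩, h3⟩, g3,
    tame_of hf hd hs.ne_zero _ (fun i => (g2 _).1 (subset_span ⟨ι i, rfl⟩)) g5⟩

end Pool.Agent.H80.Tame
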