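import Mathlib

/-! Jacobian syzygies and tameness. Here `n = k + 1`, so there are `k + 2` variables. -/

namespace Pool.Agent.H80.Tame

open MvPolynomial

/-- The ring `ℂ[x_0, …, x_n]`, `n = k + 1`. -/
abbrev S (k : ℕ) : Type := MvPolynomial (Fin (k + 2)) ℂ

/-- Vectors `(a_0, …, a_n)`. -/
abbrev Vec (k : ℕ) : Type := Fin (k + 2) → S k

variable {k : ℕ}

/-- `ρ` is a Jacobian syzygy of `f`. -/
def IsSyz (f : S k) (ρ : Vec k) : Prop := ∑ j, ρ j * pderiv j f = 0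

/-- A family of homogeneous syzygies generating `D_0(f)`. -/
def Generates (f : S k) {m : ℕ} (ρ : Fin m → Vec k) : Prop :=
  (∀ i, ∃ e, ∀ j, (ρ i j).IsHomogeneous e) ∧
    ∀ v, v ∈ Submodule.span (S k) (Set.range ρ) ↔ IsSyz f v

/-- A minimal set of generators of `D_0(f)`. -/
def IsMinGen (f : S k) {m : ℕ} (ρ : Fin m → Vec k) : Prop :=
  Generates f ρ ∧ ∀ (m' : ℕ) (ρ' : Fin m' → Vec k), Generates f ρ' → m ≤ m'

/-- The matrix with rows `(x_0, …, x_n)`, `w_1, …, w_(n-1)`, `ρ`. -/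
noncomputable def mat (w : Fin k → Vec k) (ρ : Vec k) : Matrix (Fin (k + 2)) (Fin (k + 2)) (S k) :=
  Matrix.of (Fin.cons X (Fin.snoc w ρ : Fin (k + 1) → Vec k) : Fin (k + 2) → Vec k)

/-- Tameness with respect to `w`: `u` is injective and `ker v = im u`, where
`v ρ = det (mat w ρ) / f`. -/
def IsTame (f : S k) (w : Fin k → Vec k) : Prop :=
  LinearIndependent (S k) w ∧
    ∀ ρ, IsSyz f ρ → ((mat w ρ).det = 0 ↔ ρ ∈ Submodule.span (S k) (Set.range w))

end Pool.Agent.H80.Tame
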