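import Mathlib

namespace Pool.Agent.H80.Theta

open Real

/-- `x, y, z` are distinct points of the circle in counterclockwise cyclic order. -/
def Ccw (x y z : Circle) : Prop :=
  ∃ a b c : ℝ, a < b ∧ b < c ∧ c < a + 2 * π ∧
    x = Circle.exp a ∧ y = Circle.exp b ∧ z = Circle.exp c

open Classical in
/-- The orientation cocycle: `1` on counterclockwise triples, `-1` on clockwise triples,
`0` otherwise (that is, when two points coincide). -/
noncomputable def Ori (x y z : Circle) : ℝ :=
  if Ccw x y z then 1 else if Ccw x z y then -1 else 0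

/-- The alternated product `Θ_n`. -/
noncomputable def Theta (n : ℕ) (θ : Fin (2 * n + 1) → Fin n → Circle) : ℝ :=
  π ^ n / ((2 * n + 1).factorial : ℝ) * ∑ σ : Equiv.Perm (Fin (2 * n + 1)),
    ((Equiv.Perm.sign σ : ℤ) : ℝ) * ∏ i : Fin n,
      Ori (θ (σ ⟨2 * i, by omega⟩) i) (θ (σ ⟨2 * i + 1, by omega⟩) i)
        (θ (σ ⟨2 * i + 2, by omega⟩) i)

/-- The configuration `θ*`: the `k`-th coordinate (`k = 1, …, n`) of `θ*_j` is `ζ ^ (k j)`. -/
noncomputable def thetaStar (n : ℕ) (j : Fin (2 * n + 1)) (k : Fin n) : Circle :=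
  Circle.exp (2 * π / (2 * n + 1)) ^ ((k.val + 1) * j.val)

end Pool.Agent.H80.Theta
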