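import Mathlib
import Pool.Agent.H80.ThetaDefs

namespace Pool.Agent.H80.Theta

open Real Equiv

def sumTo (f : ℕ → ℤ) : ℕ → ℤ
  | 0 => 0
  | n + 1 => sumTo f n + f n

lemma sumTo_eq (f : ℕ → ℤ) (n : ℕ) : sumTo f n = ∑ p : Fin n, f p := by
  induction n with
  | zero => simp [sumTo]
  | succ n ih => rw [sumTo, ih, Fin.sum_univ_castSucc]; simp

def rest (l : List ℕ) (p : ℕ) : List ℕ := l.eraseIdx p

def eps (p : ℕ) : ℤ := if p % 2 = 0 then 1 else -1

lemma eps_eq (p : ℕ) : eps p = (-1) ^ p := by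
  unfold eps
  split_ifs with h
  · rw [Even.neg_one_pow (Nat.even_iff.2 h)]
  · rw [Odd.neg_one_pow (Nat.odd_iff.2 (by omega))]

def fN {α : Type} (a : ℕ) (k : ℕ → α) : α :=
  match a with
  | 0 => k 0
  | n + 1 => k (n + 1)

lemma fN_eq {α : Type} (a : ℕ) (k : ℕ → α) : fN a k = k a := by cases a <;> rfl

def fL {α : Type} : List ℕ → (List ℕ → α) → α
  | [], k => k []
  | a :: t, k => fN a fun a' => fL t fun t' => k (a' :: t')

lemma fL_eq {α : Type} (l : List ℕ) : ∀ (k : List ℕ → α), fL l k = k l := by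
  induction l with
  | nil => intro k; rfl
  | cons a t ih => intro k; rw [fL, fN_eq, ih]

def nZ (x : ℤ) : ℤ :=
  match x with
  | Int.ofNat n => fN n Int.ofNat
  | Int.negSucc n => fN n Int.negSucc

lemma nZ_eq (x : ℤ) : nZ x = x := by cases x <;> simp only [nZ, fN_eq]

def A : ℕ → (List ℕ → ℤ) → List ℕ → ℤ
  | 0, g, _ => g []
  | n + 1, g, l => sumTo (fun p => eps p * A n (fun w => g (l.getD p 0 :: w)) (rest l p)) (n + 1)

lemma rest_ofFn {n : ℕ} (v : Fin (n + 1) → ℕ) (p : Fin (n + 1)) :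
    rest (List.ofFn v) p = List.ofFn (fun x : Fin n => v (p.succAbove x)) := by
  have hp := p.2
  apply List.ext_getElem
  · simp [rest, List.length_eraseIdx, -List.ofFn_succ]; omega
  · intro i h1 h2
    simp only [rest, List.getElem_eraseIdx, List.getElem_ofFn]
    have hi : i < n := by simpa using h2
    split_ifs with h3
    · rw [Fin.succAbove_of_castSucc_lt _ _ (by simpa [Fin.lt_def] using h3)]; rfl
    · rw [Fin.succAbove_of_le_castSucc _ _ (by simpa [Fin.le_def] using h3)]; rfl

lemma A_eq (n : ℕ) : ∀ (g : List ℕ → ℤ) (v : Fin n → ℕ),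
    ∑ σ : Perm (Fin n), (Perm.sign σ : ℤ) * g (List.ofFn (fun x => v (σ x))) =
      A n g (List.ofFn v) := by
  induction n with
  | zero => intro g v; simp [A]
  | succ n ih =>
    intro g v
    rw [Finset.univ_perm_fin_succ, Finset.sum_map, Fintype.sum_prod_type, A, sumTo_eq]
    refine Finset.sum_congr rfl fun p _ => ?_
    have h1 : (List.ofFn v).getD p 0 = v p := by
      rw [List.getD_eq_getElem _ _ (by simpa using p.2), List.getElem_ofFn]
    rw [rest_ofFn, ← ih, Finset.mul_sum, h1]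
    simp only [Equiv.coe_toEmbedding, Perm.decomposeFin.symm_sign, List.ofFn_succ,
      Perm.decomposeFin_symm_apply_zero, Perm.decomposeFin_symm_apply_succ]
    refine Fin.cases ?_ (fun i => ?_) p
    · simp [eps]
    · rw [← Equiv.sum_comp (Equiv.mulLeft i.cycleRange) (fun e : Perm (Fin n) => eps (i.succ : Fin (n + 1)) *
        ((Perm.sign e : ℤ) * g (v i.succ :: List.ofFn fun x => v (i.succ.succAbove (e x)))))]
      refine Finset.sum_congr rfl fun e _ => ?_
      simp only [Equiv.coe_mulLeft, Perm.coe_mul, Function.comp, Fin.succAbove_cycleRange,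
        Perm.sign_mul, Fin.sign_cycleRange, eps_eq, Fin.val_succ, Fin.succ_ne_zero, if_false]
      push_cast
      have : ((-1 : ℤ) ^ (i : ℕ)) * (-1) ^ (i : ℕ) = 1 := by rw [← mul_pow]; simp
      rw [pow_succ]
      linear_combination (((Perm.sign e : ℤ)) * g (v i.succ :: List.ofFn fun x => v (swap 0 i.succ (e x).succ))) * this

lemma A_mul (n : ℕ) : ∀ (c : ℤ) (g : List ℕ → ℤ) (l : List ℕ),
    A n (fun w => c * g w) l = c * A n g l := by
  induction n with
  | zero => intro c g l; rfl
  | succ n ih =>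
    intro c g l
    simp only [A, sumTo_eq, Finset.mul_sum]
    refine Finset.sum_congr rfl fun p _ => ?_
    rw [ih c (fun w => g (l.getD p 0 :: w))]; ring

def orZ (i j k : ℕ) : ℤ :=
  if i < j then (if j < k then 1 else if k < i then 1 else if k = i then 0 else if k = j then 0 else -1)
  else if i = j then 0
  else (if j < k then (if k < i then 1 else if k = i then 0 else -1) else if k = j then 0 else -1)

def dig (k x : ℕ) : ℕ := x / 16 ^ k % 16

def o (k x y z : ℕ) : ℤ := orZ (dig k x) (dig k y) (dig k z)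

def G : List ℕ → ℕ → List ℕ → ℤ
  | k :: ks, cur, b :: c :: w => o k cur b c * G ks c w
  | _, _, _ => 1

def B : List ℕ → ℕ → ℕ → List ℕ → ℤ
  | [], _, _, _ => 1
  | k :: ks, m, cur, l => nZ (sumTo (fun p => fN (l.getD p 0) fun b => fL (rest l p) fun r =>
      eps p * sumTo (fun q => fN (r.getD q 0) fun c => fL (rest r q) fun r' =>
        eps q * (o k cur b c * B ks (m - 2) c r')) (m - 1)) m)

lemma B_eq (ks : List ℕ) : ∀ (cur : ℕ) (l : List ℕ),
    A (2 * ks.length) (G ks cur) l = B ks (2 * ks.length) cur l := by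
  induction ks with
  | nil => intro cur l; rfl
  | cons k ks ih =>
    intro cur l
    have h : 2 * (k :: ks).length = 2 * ks.length + 1 + 1 := by simp; ring
    rw [h, A, B]
    simp only [nZ_eq, fN_eq, fL_eq]
    congr 1
    funext p
    congr 1
    rw [A]
    show _ = sumTo _ (2 * ks.length + 1)
    congr 1
    funext q
    congr 1
    show A _ (fun w => o k cur _ _ * G ks _ w) _ = _
    rw [A_mul, ih]
    rfl

def G0 : List ℕ → ℤ
  | a :: w => G [0, 1, 2, 3] a w
  | [] => 1

def B0 (l : List ℕ) : ℤ := sumTo (fun p => eps p * B [0, 1, 2, 3] 8 (l.getD p 0) (rest l p)) 9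

lemma B0_eq (l : List ℕ) : A 9 G0 l = B0 l := by
  rw [A, B0]
  congr 1
  funext p
  congr 1
  exact B_eq [0, 1, 2, 3] _ _

lemma b1 : B0 [0x0, 0x4321, 0x8642, 0x3063, 0x7384, 0x2615, 0x6036, 0x1357, 0x5678] = 12960 := by
  decide +kernel

lemma b2 : B0 [0x8170, 0x1511, 0x3042, 0x5783, 0x7334, 0x2465, 0x0826, 0x4207, 0x6658] = 21888 := by
  decide +kernel

end Pool.Agent.H80.Theta
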