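import Mathlib
import Pool.Agent.H80.ThetaDefs
import Pool.Agent.H80.ThetaA

namespace Pool.Agent.H80.Theta

open Real Equiv

noncomputable def w (m : ℕ) : Circle := Circle.exp (2 * π / 9 * m)

lemma ccw_w {i j k : ℕ} (hi : i < 9) (hj : j < 9) (hk : k < 9) :
    Ccw (w i) (w j) (w k) ↔ (i < j ∧ j < k) ∨ (j < k ∧ k < i) ∨ (k < i ∧ i < j) := by
  have hπ := Real.pi_pos
  constructor
  · rintro ⟨a, b, c, h1, h2, h3, ha, hb, hc⟩
    obtain ⟨m1, e1⟩ := Circle.exp_eq_exp.1 ha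
    obtain ⟨m2, e2⟩ := Circle.exp_eq_exp.1 hb
    obtain ⟨m3, e3⟩ := Circle.exp_eq_exp.1 hc
    have f1 : ((i : ℤ) - 9 * m1 : ℤ) < (j : ℤ) - 9 * m2 := by
      have : ((i : ℝ) - 9 * m1) < (j : ℝ) - 9 * m2 := by nlinarith
      exact_mod_cast this
    have f2 : ((j : ℤ) - 9 * m2 : ℤ) < (k : ℤ) - 9 * m3 := by
      have : ((j : ℝ) - 9 * m2) < (k : ℝ) - 9 * m3 := by nlinarith
      exact_mod_cast this
    have f3 : ((k : ℤ) - 9 * m3 : ℤ) < (i : ℤ) - 9 * m1 + 9 := by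
      have : ((k : ℝ) - 9 * m3) < (i : ℝ) - 9 * m1 + 9 := by nlinarith
      exact_mod_cast this
    omega
  · have hw : ∀ m : ℕ, w m = Circle.exp (2 * π / 9 * m + 2 * π) := fun m => by
      rw [Circle.exp_add_two_pi]; rfl
    have hi' : (i : ℝ) < 9 := by exact_mod_cast hi
    have hj' : (j : ℝ) < 9 := by exact_mod_cast hj
    have hk' : (k : ℝ) < 9 := by exact_mod_cast hk
    have hi0 : (0 : ℝ) ≤ i := Nat.cast_nonneg _
    have hj0 : (0 : ℝ) ≤ j := Nat.cast_nonneg _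
    have hk0 : (0 : ℝ) ≤ k := Nat.cast_nonneg _
    rintro (⟨h1, h2⟩ | ⟨h1, h2⟩ | ⟨h1, h2⟩)
    · have h1' : (i : ℝ) < j := by exact_mod_cast h1
      have h2' : (j : ℝ) < k := by exact_mod_cast h2
      exact ⟨_, _, _, by nlinarith, by nlinarith, by nlinarith, rfl, rfl, rfl⟩
    · have h1' : (j : ℝ) < k := by exact_mod_cast h1
      have h2' : (k : ℝ) < i := by exact_mod_cast h2
      exact ⟨_, _, _, by nlinarith, by nlinarith, by nlinarith, rfl, hw j, hw k⟩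
    · have h1' : (k : ℝ) < i := by exact_mod_cast h1
      have h2' : (i : ℝ) < j := by exact_mod_cast h2
      exact ⟨_, _, _, by nlinarith, by nlinarith, by nlinarith, rfl, rfl, hw k⟩

lemma ori_w {i j k : ℕ} (hi : i < 9) (hj : j < 9) (hk : k < 9) :
    Ori (w i) (w j) (w k) = orZ i j k := by
  unfold Ori orZ
  rw [ccw_w hi hj hk, ccw_w hi hk hj]
  split_ifs <;> first | omega | simp

lemma theta_eq (v : Fin 9 → ℕ) (hv : ∀ j : Fin 9, ∀ k : Fin 4, dig k (v j) < 9) :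
    Theta 4 (fun (j : Fin 9) (k : Fin 4) => w (dig k (v j))) = π ^ 4 / ((9 : ℕ).factorial : ℝ) * B0 (List.ofFn v) := by
  unfold Theta
  congr 1
  rw [← B0_eq, ← A_eq]
  push_cast
  refine Finset.sum_congr rfl fun σ _ => ?_
  congr 1
  simp only [Fin.prod_univ_four, ori_w (hv _ _) (hv _ _) (hv _ _)]
  simp only [List.ofFn_succ, List.ofFn_zero, G0, G, o]
  push_cast
  simp only [mul_one, mul_assoc]
  rfl

def v1 : Fin 9 → ℕ := fun j => j % 9 + 16 * (2 * j % 9) + 256 * (3 * j % 9) + 4096 * (4 * j % 9)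

def v2 : Fin 9 → ℕ := ![0x8170, 0x1511, 0x3042, 0x5783, 0x7334, 0x2465, 0x0826, 0x4207, 0x6658]

lemma l1 : List.ofFn v1 = [0x0, 0x4321, 0x8642, 0x3063, 0x7384, 0x2615, 0x6036, 0x1357, 0x5678] := by
  decide +kernel

lemma l2 : List.ofFn v2 = [0x8170, 0x1511, 0x3042, 0x5783, 0x7334, 0x2465, 0x0826, 0x4207, 0x6658] := by
  decide +kernel

lemma star_eq : thetaStar 4 = fun (j : Fin 9) (k : Fin 4) => w (dig k (v1 j)) := by
  funext j k
  have h : dig k (v1 j) = (k.val + 1) * j.val % 9 := by revert j k; decide +kernel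
  rw [h, thetaStar, w, ← Circle.exp_nsmul]
  refine Circle.exp_eq_exp.2 ⟨(((k.val + 1) * j.val / 9 : ℕ) : ℤ), ?_⟩
  have h2 := Nat.mod_add_div ((k.val + 1) * j.val) 9
  generalize (k.val + 1) * j.val = N at *
  have h3 : (N : ℝ) = (N % 9 : ℕ) + 9 * (N / 9 : ℕ) := by exact_mod_cast h2.symm
  rw [nsmul_eq_mul, Int.cast_natCast]
  generalize N % 9 = a at *
  generalize N / 9 = b at *
  rw [h3]; push_cast; ring

lemma ori_abs (x y z : Circle) : |Ori x y z| ≤ 1 := by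
  unfold Ori; split_ifs <;> simp

lemma bdd (n : ℕ) : BddAbove (Set.range fun θ => |Theta n θ|) := by
  refine ⟨π ^ n / ((2 * n + 1).factorial : ℝ) * ∑ σ : Perm (Fin (2 * n + 1)), 1, ?_⟩
  rintro _ ⟨θ, rfl⟩
  have hp : 0 ≤ π ^ n / ((2 * n + 1).factorial : ℝ) := by positivity
  simp only [Theta]
  rw [abs_mul, abs_of_nonneg hp]
  refine mul_le_mul_of_nonneg_left ((Finset.abs_sum_le_sum_abs _ _).trans
    (Finset.sum_le_sum fun σ _ => ?_)) hp
  rw [abs_mul, Finset.abs_prod]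
  have h1 : |((Perm.sign σ : ℤ) : ℝ)| = 1 := by
    rcases Int.units_eq_one_or (Perm.sign σ) with h | h <;> simp [h]
  rw [h1, one_mul]
  exact Finset.prod_le_one (fun _ _ => abs_nonneg _) (fun _ _ => ori_abs _ _ _)

lemma main : |Theta 4 (thetaStar 4)| < ⨆ θ, |Theta 4 θ| := by
  refine lt_of_lt_of_le ?_ (le_ciSup (bdd 4) (fun (j : Fin 9) (k : Fin 4) => w (dig k (v2 j))))
  rw [star_eq, theta_eq v1 (by decide +kernel), theta_eq v2 (by decide +kernel), l1, l2, b1, b2]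
  have hp : 0 < π ^ 4 / ((9 : ℕ).factorial : ℝ) := by positivity
  rw [abs_mul, abs_mul, abs_of_pos hp]
  refine mul_lt_mul_of_pos_left ?_ hp
  norm_num

end Pool.Agent.H80.Theta
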