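import Mathlib

set_option autoImplicit false

namespace Pool.Agent.H80.Toric

open MvPolynomial

theorem aeval_monomial_eq {ι κ : Type} (A : ι → κ →₀ ℕ) (m : ι →₀ ℕ) (c : ℂ) :
    aeval (fun f => (monomial (A f) 1 : MvPolynomial κ ℂ)) (monomial m c) =
      monomial (Finsupp.linearCombination ℕ A m) c := by
  rw [aeval_monomial, Finsupp.linearCombination_apply, monomial_finsupp_sum_index,
    algebraMap_eq]
  congr 1
  refine Finsupp.prod_congr fun f _ => ?_
  rw [monomial_pow, one_pow]

/-- A point satisfying all binomial relations with exponents in a class `S` satisfies every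
polynomial of the toric ideal whose monomials are in `S`. -/
theorem eval_eq_zero {ι κ : Type} (A : ι → κ →₀ ℕ) (z : ι → ℂ) (S : (ι →₀ ℕ) → Prop)
    (hz : ∀ m m', S m → S m' →
      Finsupp.linearCombination ℕ A m = Finsupp.linearCombination ℕ A m' →
      m.prod (fun f n => z f ^ n) = m'.prod (fun f n => z f ^ n))
    (q : MvPolynomial ι ℂ) (hq : aeval (fun f => (monomial (A f) 1 : MvPolynomial κ ℂ)) q = 0)
    (hS : ∀ m ∈ q.support, S m) : eval z q = 0 := by
  classical
  let val : (κ →₀ ℕ) → ℂ := fun μ =>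
    if h : ∃ m, S m ∧ Finsupp.linearCombination ℕ A m = μ then
      h.choose.prod (fun f n => z f ^ n) else 0
  let lam : MvPolynomial κ ℂ →ₗ[ℂ] ℂ := (basisMonomials κ ℂ).constr ℂ val
  have hlam : ∀ μ c, lam (monomial μ c) = c * val μ := by
    intro μ c
    have : (monomial μ c : MvPolynomial κ ℂ) = c • basisMonomials κ ℂ μ := by
      rw [coe_basisMonomials, smul_monomial, smul_eq_mul, mul_one]
    rw [this, map_smul, Module.Basis.constr_basis, smul_eq_mul]
  have hval : ∀ m, S m → val (Finsupp.linearCombination ℕ A m) = m.prod (fun f n => z f ^ n) := by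
    intro m hm
    have h : ∃ m', S m' ∧ Finsupp.linearCombination ℕ A m' = Finsupp.linearCombination ℕ A m :=
      ⟨m, hm, rfl⟩
    simp only [val, dif_pos h]
    exact hz _ _ h.choose_spec.1 hm h.choose_spec.2
  have h1 : lam (aeval (fun f => (monomial (A f) 1 : MvPolynomial κ ℂ)) q) = eval z q := by
    conv_lhs => rw [q.as_sum]
    conv_rhs => rw [q.as_sum]
    rw [map_sum, map_sum, map_sum]
    refine Finset.sum_congr rfl fun m hm => ?_
    rw [aeval_monomial_eq, hlam, hval m (hS m hm), eval_monomial]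
  rw [← h1, hq, map_zero]

theorem lc_sum {ι : Type} [Fintype ι] (u : ι → ℤ) (m : ι →₀ ℕ) :
    Finsupp.linearCombination ℕ u m = ∑ f, (m f : ℤ) * u f := by
  rw [Finsupp.linearCombination_apply, Finsupp.sum_fintype _ _ (by simp)]
  simp

theorem lc_test {ι κ : Type} (A : ι → κ →₀ ℕ) (h : κ → ℤ) (m : ι →₀ ℕ) :
    Finsupp.linearCombination ℕ (fun f => Finsupp.linearCombination ℕ h (A f)) m =
      Finsupp.linearCombination ℕ h (Finsupp.linearCombination ℕ A m) := by
  rw [Finsupp.apply_linearCombination]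
  rfl

theorem eq_of_test {κ : Type} (μ μ' : κ →₀ ℕ)
    (h : ∀ h : κ → ℤ, Finsupp.linearCombination ℕ h μ = Finsupp.linearCombination ℕ h μ') :
    μ = μ' := by
  classical
  ext k
  have key : ∀ ν : κ →₀ ℕ,
      Finsupp.linearCombination ℕ (fun j => if j = k then (1 : ℤ) else 0) ν = ν k := by
    intro ν
    rw [Finsupp.linearCombination_apply, Finsupp.sum]
    simp only [smul_ite, smul_zero, Finset.sum_ite_eq', Finsupp.mem_support_iff]
    split_ifs with h
    · simp
    · push Not at h; simp [h]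
  have := h (fun j => if j = k then (1 : ℤ) else 0)
  rw [key, key] at this
  exact_mod_cast this

/-- value of the test point on a monomial supported on the face -/
theorem prod_face {ι : Type} [Fintype ι] [DecidableEq ι] (F : ι → Prop) [DecidablePred F] (f0 : ι)
    (m : ι →₀ ℕ) (hm : ∀ f, m f ≠ 0 → F f) :
    m.prod (fun f n => (if F f then (if f = f0 then (2 : ℂ) else 1) else 0) ^ n) = 2 ^ m f0 := by
  rw [Finsupp.prod_fintype _ _ (by simp), Finset.prod_eq_single f0]
  · by_cases h : m f0 = 0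
    · simp [h]
    · simp [hm f0 h]
  · intro f _ hf
    by_cases h : m f = 0
    · simp [h]
    · simp [hm f h, hf]
  · simp

theorem prod_off {ι : Type} [Fintype ι] [DecidableEq ι] (F : ι → Prop) [DecidablePred F] (f0 : ι)
    (m : ι →₀ ℕ) (hm : ¬ ∀ f, m f ≠ 0 → F f) :
    m.prod (fun f n => (if F f then (if f = f0 then (2 : ℂ) else 1) else 0) ^ n) = 0 := by
  push Not at hm
  obtain ⟨f, h1, h2⟩ := hm
  rw [Finsupp.prod_fintype _ _ (by simp)]
  exact Finset.prod_eq_zero (Finset.mem_univ f) (by simp [h1, h2])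

/-- a nonnegative weight whose pairing with `m` vanishes vanishes on the support -/
theorem face_iff {ι : Type} [Fintype ι] (u : ι → ℤ) (hu : ∀ f, 0 ≤ u f) (m : ι →₀ ℕ) :
    Finsupp.linearCombination ℕ u m = 0 ↔ ∀ f, m f ≠ 0 → u f = 0 := by
  rw [lc_sum, Finset.sum_eq_zero_iff_of_nonneg (fun f _ => mul_nonneg (by positivity) (hu f))]
  simp only [Finset.mem_univ, true_implies, mul_eq_zero, Nat.cast_eq_zero]
  constructor
  · intro h f hf; exact (h f).resolve_left hf
  · intro h f; by_cases hf : m f = 0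
    · exact Or.inl hf
    · exact Or.inr (h f hf)

/-- the test point attached to a face and a distinguished vertex of it -/
noncomputable def testPt {ι : Type} (F : ι → Prop) (f0 : ι) : ι → ℂ := by
  classical
  exact fun f => if F f then (if f = f0 then (2 : ℂ) else 1) else 0

theorem testPt_self {ι : Type} (F : ι → Prop) (f0 : ι) (h : F f0) : testPt F f0 f0 = 2 := by
  simp [testPt, h]

theorem eval_testPt_monomial {ι : Type} [Fintype ι] (F : ι → Prop) (f0 : ι) (m : ι →₀ ℕ)
    (hm : ∀ f, m f ≠ 0 → F f) : eval (testPt F f0) (monomial m 1) = 2 ^ m f0 := by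
  classical
  rw [eval_monomial, one_mul, ← prod_face F f0 m hm]
  refine Finsupp.prod_congr fun f _ => ?_
  simp [testPt]

/-- face criterion -/
theorem eval_testPt_eq_zero {ι κ : Type} [Fintype ι] (A : ι → κ →₀ ℕ) (pen : κ → ℤ)
    (hpen : ∀ f, 0 ≤ Finsupp.linearCombination ℕ pen (A f)) (F : ι → Prop)
    (hF : ∀ f, F f ↔ Finsupp.linearCombination ℕ pen (A f) = 0) (f0 : ι) (S : (ι →₀ ℕ) → Prop)
    (hrig : ∀ m m', S m → S m' → (∀ f, m f ≠ 0 → F f) → (∀ f, m' f ≠ 0 → F f) →
      Finsupp.linearCombination ℕ A m = Finsupp.linearCombination ℕ A m' → m f0 = m' f0)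
    (q : MvPolynomial ι ℂ) (hq : aeval (fun f => (monomial (A f) 1 : MvPolynomial κ ℂ)) q = 0)
    (hS : ∀ m ∈ q.support, S m) : eval (testPt F f0) q = 0 := by
  classical
  refine eval_eq_zero A _ S ?_ q hq hS
  intro m m' hm hm' h
  have hface : (∀ f, m f ≠ 0 → F f) ↔ (∀ f, m' f ≠ 0 → F f) := by
    simp only [hF]
    rw [← face_iff _ hpen, ← face_iff _ hpen, lc_test, lc_test, h]
  have e : ∀ n : ι →₀ ℕ, n.prod (fun f k => testPt F f0 f ^ k) =
      n.prod (fun f k => (if F f then (if f = f0 then (2 : ℂ) else 1) else 0) ^ k) := by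
    intro n
    refine Finsupp.prod_congr fun f _ => ?_
    simp [testPt]
  rw [e, e]
  by_cases h1 : ∀ f, m f ≠ 0 → F f
  · rw [prod_face F f0 m h1, prod_face F f0 m' (hface.1 h1), hrig m m' hm hm' h1 (hface.1 h1) h]
  · rw [prod_off F f0 m h1, prod_off F f0 m' (fun h2 => h1 (hface.2 h2))]

end Pool.Agent.H80.Toric
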