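import Mathlib
import Pool.Agent.H80.Toric

set_option autoImplicit false

namespace Pool.Agent.H80.Tripod

open MvPolynomial Pool.Agent.H80.Toric

/-- levels and offsets -/
abbrev H (K : ℕ) : Type := ZMod (K + 1) × ZMod 3

/-- the group -/
abbrev G (K : ℕ) : Type := H K × H K

/-- base point of a block -/
def bx (K : ℕ) (b : H K) : H K :=
  if b.1.val < K then b else if b.2 = 1 then (0, 1) else if b.2 = 2 then (b.1, 1) else b

/-- step of a block -/
def ba (K : ℕ) (b : H K) : H K :=
  if b.1.val < K then (1, b.2) else if b.2 = 0 then (1, 0) else (0, 2)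

/-- the potential on third coordinates -/
def pot (K : ℕ) (y : H K) : ℤ := if y.2 = 0 then 0 else 2 ^ (K - y.1.val)

/-- second difference of the potential on a block -/
def tau (K : ℕ) (b : H K) : ℤ :=
  pot K (bx K b) - 2 * pot K (bx K b + ba K b) + pot K (bx K b + ba K b + ba K b)

theorem val_K (K : ℕ) : ((K : ZMod (K + 1))).val = K := ZMod.val_cast_of_lt (Nat.lt_succ_self K)

theorem ba_ne_zero (K : ℕ) (hK : 1 ≤ K) (b : H K) : ba K b ≠ 0 := by
  have h1 : (1 : ZMod (K + 1)) ≠ 0 := by
    intro h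
    have := congrArg ZMod.val h
    rw [ZMod.val_one'' (by omega), ZMod.val_zero] at this
    exact one_ne_zero this
  unfold ba
  split_ifs
  · exact fun h => h1 (congrArg Prod.fst h)
  · exact fun h => h1 (congrArg Prod.fst h)
  · exact fun h => absurd (congrArg Prod.snd h) (show (2 : ZMod 3) ≠ 0 by decide)

theorem tau_eq (K : ℕ) (b : H K) :
    tau K b = if b = ((K : ZMod (K + 1)), 1) then 2 ^ (K + 1)
      else if b = ((K : ZMod (K + 1)), 2) then 2 else 0 := by
  obtain ⟨k, j⟩ := b
  have hj : j = 0 ∨ j = 1 ∨ j = 2 := by revert j; decide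
  by_cases hk : k.val < K
  · have hne : k ≠ (K : ZMod (K + 1)) := by
      intro h; rw [h, val_K] at hk; omega
    have hv : (k + 1).val = k.val + 1 := by
      rw [ZMod.val_add, ZMod.val_one'' (by omega), Nat.mod_eq_of_lt (by omega)]
    have hp : (2 : ℤ) ^ (K - k.val) = 2 * 2 ^ (K - (k.val + 1)) := by
      rw [← pow_succ']; congr 1; omega
    have h3 : (1 + 1 + 1 : ZMod 3) = 0 := by decide
    have h4 : (1 + 1 : ZMod 3) ≠ 0 := by decide
    have h5 : (2 + 2 + 2 : ZMod 3) = 0 := by decide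
    have h6 : (2 + 2 : ZMod 3) ≠ 0 := by decide
    have h7 : (2 : ZMod 3) ≠ 0 := by decide
    rcases hj with rfl | rfl | rfl <;>
      simp [tau, bx, ba, pot, hk, hne, hv, hp, h3, h4, h5, h6, h7]
  · have hk' : k = (K : ZMod (K + 1)) := by
      apply ZMod.val_injective
      have := k.val_lt
      rw [val_K]; omega
    subst hk'
    have h1 : (0 : ZMod 3) ≠ 1 := by decide
    have h2 : (0 : ZMod 3) ≠ 2 := by decide
    have h3 : (2 : ZMod 3) ≠ 1 := by decide
    have h4 : (1 + 2 : ZMod 3) = 0 := by decide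
    have h7 : (2 : ZMod 3) ≠ 0 := by decide
    rcases hj with rfl | rfl | rfl <;>
      simp [tau, bx, ba, pot, val_K, h1, h2, h3, h4, h7, pow_succ, -CharP.cast_eq_zero,
        -ZMod.natCast_self'] <;> ring

/-- exponent vector of a flow given by its first two coordinates -/
noncomputable def A {Γ : Type} [AddCommGroup Γ] (g : Γ × Γ) : Fin 3 × Γ →₀ ℕ :=
  Finsupp.single (0, g.1) 1 + Finsupp.single (1, g.2) 1 + Finsupp.single (2, -(g.1 + g.2)) 1

theorem lc_A {Γ : Type} [AddCommGroup Γ] (h : Fin 3 × Γ → ℤ) (g : Γ × Γ) :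
    Finsupp.linearCombination ℕ h (A g) = h (0, g.1) + h (1, g.2) + h (2, -(g.1 + g.2)) := by
  simp [A]

/-- the four cells of a block -/
def cell (K : ℕ) (b : H K) (i j : Bool) : G K × G K :=
  ((if i then bx K b + ba K b else bx K b, b), (if j then ba K b else 0, -b))

/-- the face -/
def Face (K : ℕ) (g : G K × G K) : Prop := ∃ b i j, g = cell K b i j

open Classical in
/-- penalty for leaving the face -/
noncomputable def pen (K : ℕ) (κ : Fin 3 × G K) : ℤ :=
  if κ.1 = 0 then (if κ.2.1 = bx K κ.2.2 ∨ κ.2.1 = bx K κ.2.2 + ba K κ.2.2 then 0 else 1)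
  else if κ.1 = 1 then (if κ.2.1 = 0 ∨ κ.2.1 = ba K (-κ.2.2) then 0 else 1)
  else (if κ.2.2 = 0 then 0 else 1)

theorem pen_nonneg (K : ℕ) (κ : Fin 3 × G K) : 0 ≤ pen K κ := by
  unfold pen; split_ifs <;> norm_num

theorem face_iff_pen (K : ℕ) (g : G K × G K) :
    Face K g ↔ Finsupp.linearCombination ℕ (pen K) (A g) = 0 := by
  rw [lc_A]
  constructor
  · rintro ⟨b, i, j, rfl⟩
    cases i <;> cases j <;> simp [pen, cell]
  · intro h
    have h0 := pen_nonneg K (0, g.1)
    have h1 := pen_nonneg K (1, g.2)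
    have h2 := pen_nonneg K (2, -(g.1 + g.2))
    have e0 : pen K (0, g.1) = 0 := by omega
    have e1 : pen K (1, g.2) = 0 := by omega
    have e2 : pen K (2, -(g.1 + g.2)) = 0 := by omega
    obtain ⟨⟨r, b⟩, ⟨s, c⟩⟩ := g
    have e2' : c = -b := by
      by_contra hc
      have : -c + -b ≠ 0 := fun h' => hc (by linear_combination (exp := 1) -h')
      simp [pen, this] at e2
    subst e2'
    have e0' : r = bx K b ∨ r = bx K b + ba K b := by
      by_contra hc
      simp [pen, hc] at e0
    have e1' : s = 0 ∨ s = ba K b := by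
      by_contra hc
      simp [pen, hc] at e1
    rcases e0' with rfl | rfl <;> rcases e1' with rfl | rfl
    · exact ⟨b, false, false, rfl⟩
    · exact ⟨b, false, true, rfl⟩
    · exact ⟨b, true, false, rfl⟩
    · exact ⟨b, true, true, rfl⟩

open Classical in
/-- the dual certificate -/
noncomputable def cert (K : ℕ) (κ : Fin 3 × G K) : ℤ :=
  if κ.1 = 0 then (if κ.2.1 = bx K κ.2.2 then tau K κ.2.2 - pot K κ.2.1 else - pot K κ.2.1)
  else if κ.1 = 1 then (if κ.2.1 = 0 then 0 else
    pot K (bx K (-κ.2.2) + ba K (-κ.2.2)) - pot K (bx K (-κ.2.2) + ba K (-κ.2.2) + ba K (-κ.2.2)))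
  else pot K (-κ.2.1)

theorem cert_cell (K : ℕ) (hK : 1 ≤ K) (b : H K) (i j : Bool) :
    Finsupp.linearCombination ℕ (cert K) (A (cell K b i j)) =
      if i = false ∧ j = false then tau K b else 0 := by
  have h := ba_ne_zero K hK b
  rw [lc_A]
  cases i <;> cases j <;> simp [cert, cell, h, tau, add_comm] <;> ring

theorem cell_eq_iff (K : ℕ) (hK : 1 ≤ K) (b b' : H K) (i j : Bool) :
    cell K b i j = cell K b' false false ↔ b = b' ∧ i = false ∧ j = false := by
  have h := ba_ne_zero K hK b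
  constructor
  · intro e
    have e1 : b = b' := congrArg (fun g : G K × G K => g.1.2) e
    subst e1
    cases i <;> cases j <;> simp_all [cell]
  · rintro ⟨rfl, rfl, rfl⟩; rfl

/-- distinguished vertices -/
def f0 (K : ℕ) : G K × G K := cell K ((K : ZMod (K + 1)), 1) false false

/-- distinguished vertices -/
def f1 (K : ℕ) : G K × G K := cell K ((K : ZMod (K + 1)), 2) false false

theorem cert_pair (K : ℕ) (hK : 1 ≤ K) (m : G K × G K →₀ ℕ) (hm : ∀ f, m f ≠ 0 → Face K f) :
    Finsupp.linearCombination ℕ (cert K) (Finsupp.linearCombination ℕ A m) =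
      2 ^ (K + 1) * (m (f0 K) : ℤ) + 2 * (m (f1 K) : ℤ) := by
  classical
  rw [← lc_test, lc_sum]
  have : ∀ f, (m f : ℤ) * Finsupp.linearCombination ℕ (cert K) (A f) =
      (if f = f0 K then 2 ^ (K + 1) * (m f : ℤ) else 0) + (if f = f1 K then 2 * (m f : ℤ) else 0) := by
    intro f
    by_cases hf : m f = 0
    · simp [hf]
    · obtain ⟨b, i, j, rfl⟩ := hm f hf
      rw [cert_cell K hK, tau_eq]
      simp only [f0, f1, cell_eq_iff K hK]
      have h12 : (((K : ZMod (K + 1)), 1) : H K) ≠ ((K : ZMod (K + 1)), 2) := by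
        intro h; exact absurd (congrArg Prod.snd h) (show (1 : ZMod 3) ≠ 2 by decide)
      by_cases hij : i = false ∧ j = false
      · by_cases hb1 : b = ((K : ZMod (K + 1)), 1)
        · subst hb1; simp only [hij, and_self, if_true, h12, false_and, if_false]; ring
        · by_cases hb2 : b = ((K : ZMod (K + 1)), 2)
          · subst hb2; simp only [hij, and_self, if_true, hb1, false_and, if_false]; ring
          · simp only [hij, and_self, if_true, hb1, hb2, false_and, if_false]; ring
      · simp only [hij, and_false, if_false]; ring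
  simp only [this, Finset.sum_add_distrib, Finset.sum_ite_eq', Finset.mem_univ, if_true]

theorem rigid (K : ℕ) (hK : 1 ≤ K) (m m' : G K × G K →₀ ℕ) (h1 : ∀ f, m f < 2 ^ K)
    (h2 : ∀ f, m' f < 2 ^ K) (hm : ∀ f, m f ≠ 0 → Face K f) (hm' : ∀ f, m' f ≠ 0 → Face K f)
    (h : Finsupp.linearCombination ℕ A m = Finsupp.linearCombination ℕ A m') :
    m (f0 K) = m' (f0 K) := by
  have e := (cert_pair K hK m hm).symm.trans (h ▸ cert_pair K hK m' hm')
  have a1 : (m (f1 K) : ℤ) < 2 ^ K := by exact_mod_cast h1 _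
  have a2 : (m' (f1 K) : ℤ) < 2 ^ K := by exact_mod_cast h2 _
  have a3 : (0 : ℤ) ≤ m (f1 K) := by positivity
  have a4 : (0 : ℤ) ≤ m' (f1 K) := by positivity
  rw [pow_succ] at e
  have hp : (0 : ℤ) < 2 ^ K := by positivity
  generalize (2 : ℤ) ^ K = P at *
  rcases lt_trichotomy (m (f0 K)) (m' (f0 K)) with hl | he | hl
  · have : (m (f0 K) : ℤ) + 1 ≤ m' (f0 K) := by exact_mod_cast hl
    nlinarith
  · exact he
  · have : (m' (f0 K) : ℤ) + 1 ≤ m (f0 K) := by exact_mod_cast hl
    nlinarith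

/-- diagonal pair of a block -/
noncomputable def dg (K : ℕ) (b : H K) : G K × G K →₀ ℕ :=
  Finsupp.single (cell K b false false) 1 + Finsupp.single (cell K b true true) 1

/-- antidiagonal pair of a block -/
noncomputable def ad (K : ℕ) (b : H K) : G K × G K →₀ ℕ :=
  Finsupp.single (cell K b false true) 1 + Finsupp.single (cell K b true false) 1

/-- one side of the long binomial -/
noncomputable def side (K : ℕ) (P Q : H K → (G K × G K →₀ ℕ)) : G K × G K →₀ ℕ :=
  ∑ n ∈ Finset.range K, (2 ^ n) • (2 • P ((n : ZMod (K + 1)), 0) + Q ((n : ZMod (K + 1)), 1) +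
    Q ((n : ZMod (K + 1)), 2)) + P ((K : ZMod (K + 1)), 1) + (2 ^ K) • Q ((K : ZMod (K + 1)), 2)

/-- interaction of a weight on a block -/
def inter (K : ℕ) (u : G K × G K → ℤ) (b : H K) : ℤ :=
  u (cell K b false false) + u (cell K b true true) - u (cell K b false true) -
    u (cell K b true false)

theorem side_diff (K : ℕ) (u : G K × G K → ℤ) :
    Finsupp.linearCombination ℕ u (side K (dg K) (ad K)) -
      Finsupp.linearCombination ℕ u (side K (ad K) (dg K)) =
    ∑ n ∈ Finset.range K, 2 ^ n * (2 * inter K u ((n : ZMod (K + 1)), 0) -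
      inter K u ((n : ZMod (K + 1)), 1) - inter K u ((n : ZMod (K + 1)), 2)) +
      inter K u ((K : ZMod (K + 1)), 1) - 2 ^ K * inter K u ((K : ZMod (K + 1)), 2) := by
  simp only [side, map_add, map_sum, map_nsmul, dg, ad, Finsupp.linearCombination_single, inter,
    one_smul, nsmul_eq_mul]
  push_cast
  rw [show ∀ a b c d e f : ℤ, a + b + c - (d + e + f) = (a - d) + (b - e) + (c - f) from
    fun _ _ _ _ _ _ => by ring, ← Finset.sum_sub_distrib]
  rw [sub_eq_add_neg _ (_ * _)]
  congr 1
  · congr 1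
    · exact Finset.sum_congr rfl fun n _ => by ring
    · ring
  · ring

theorem side_face (K : ℕ) (P Q : H K → (G K × G K →₀ ℕ))
    (hP : ∀ b, Finsupp.linearCombination ℕ (pen K) (Finsupp.linearCombination ℕ A (P b)) = 0)
    (hQ : ∀ b, Finsupp.linearCombination ℕ (pen K) (Finsupp.linearCombination ℕ A (Q b)) = 0) :
    ∀ f, side K P Q f ≠ 0 → Face K f := by
  simp only [face_iff_pen]
  rw [← face_iff _ (fun f => by
    rw [lc_A]; have := pen_nonneg K (0, f.1); have := pen_nonneg K (1, f.2)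
    have := pen_nonneg K (2, -(f.1 + f.2)); omega), lc_test]
  simp only [side, map_add, map_sum, map_nsmul, hP, hQ]
  simp

theorem pen_dg (K : ℕ) (b : H K) :
    Finsupp.linearCombination ℕ (pen K) (Finsupp.linearCombination ℕ A (dg K b)) = 0 := by
  simp only [dg, map_add, Finsupp.linearCombination_single, one_smul]
  rw [(face_iff_pen K _).1 ⟨b, _, _, rfl⟩, (face_iff_pen K _).1 ⟨b, _, _, rfl⟩, add_zero]

theorem pen_ad (K : ℕ) (b : H K) :
    Finsupp.linearCombination ℕ (pen K) (Finsupp.linearCombination ℕ A (ad K b)) = 0 := by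
  simp only [ad, map_add, Finsupp.linearCombination_single, one_smul]
  rw [(face_iff_pen K _).1 ⟨b, _, _, rfl⟩, (face_iff_pen K _).1 ⟨b, _, _, rfl⟩, add_zero]

theorem inter_marginal (K : ℕ) (h : Fin 3 × G K → ℤ) (b : H K) :
    inter K (fun f => Finsupp.linearCombination ℕ h (A f)) b =
      h (2, (-bx K b, 0)) - 2 * h (2, (-(bx K b + ba K b), 0)) +
        h (2, (-(bx K b + ba K b + ba K b), 0)) := by
  simp only [inter, lc_A, cell, Prod.mk_add_mk, Prod.neg_mk, add_neg_cancel, neg_zero, add_zero,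
    if_true, Bool.false_eq_true, if_false]
  ring

theorem side_marginal (K : ℕ) :
    Finsupp.linearCombination ℕ A (side K (dg K) (ad K)) =
      Finsupp.linearCombination ℕ A (side K (ad K) (dg K)) := by
  apply eq_of_test
  intro h
  rw [← lc_test, ← lc_test, ← sub_eq_zero, side_diff]
  simp only [inter_marginal]
  let U : ℕ → ZMod 3 → ℤ := fun n o => h (2, (-(((n : ZMod (K + 1)), o) : H K), 0))
  let ρ : ℕ → ℤ := fun n => 2 ^ n * (2 * U n 0 - U n 1 - U n 2)
  have hsum := Finset.sum_range_sub' ρ K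
  have h3 : (1 + 1 + 1 : ZMod 3) = 0 := by decide
  have h4 : (1 + 1 : ZMod 3) = 2 := by decide
  have h5 : (1 + 2 : ZMod 3) = 0 := by decide
  have h6 : (2 + 2 : ZMod 3) = 1 := by decide
  have h7 : (2 + 1 : ZMod 3) = 0 := by decide
  have h8 : (2 : ZMod 3) ≠ 1 := by decide
  have h9 : (2 : ZMod 3) ≠ 0 := by decide
  have h10 : (1 : ZMod 3) ≠ 0 := by decide
  rw [Finset.sum_congr rfl (g := fun n => ρ n - ρ (n + 1)), hsum]
  · simp only [ρ, U, bx, ba, val_K, lt_self_iff_false, if_false, if_true, h8, h9, h10,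
      Prod.mk_add_mk, add_zero, zero_add, h5, Nat.cast_zero]
    ring
  · intro n hn
    have hn' : n < K := Finset.mem_range.1 hn
    have hv : ((n : ZMod (K + 1))).val = n := ZMod.val_cast_of_lt (by omega)
    simp only [ρ, U, bx, ba, hv, hn', if_true, Prod.mk_add_mk, add_zero, h4, h5, h6, h7,
      Nat.cast_add, Nat.cast_one]
    ring

theorem side_f0 (K : ℕ) (hK : 1 ≤ K) :
    side K (dg K) (ad K) (f0 K) ≠ side K (ad K) (dg K) (f0 K) := by
  classical
  have key : ∀ m : G K × G K →₀ ℕ,
      Finsupp.linearCombination ℕ (fun f => if f = f0 K then (1 : ℤ) else 0) m = m (f0 K) := by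
    intro m
    rw [lc_sum]; simp
  have e := side_diff K (fun f => if f = f0 K then (1 : ℤ) else 0)
  rw [key, key] at e
  have hi : ∀ b, inter K (fun f => if f = f0 K then (1 : ℤ) else 0) b =
      if b = ((K : ZMod (K + 1)), 1) then 1 else 0 := by
    intro b
    simp [inter, f0, cell_eq_iff K hK]
  have h12 : (((K : ZMod (K + 1)), 2) : H K) ≠ ((K : ZMod (K + 1)), 1) := by
    intro h; exact absurd (congrArg Prod.snd h) (show (2 : ZMod 3) ≠ 1 by decide)
  simp only [hi, if_true, h12, if_false] at e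
  rw [Finset.sum_eq_zero] at e
  · intro h; rw [h] at e; simp at e
  · intro n hn
    have hn' : n < K := Finset.mem_range.1 hn
    have hv : ((n : ZMod (K + 1))) ≠ (K : ZMod (K + 1)) := by
      intro h
      have := congrArg ZMod.val h
      rw [val_K, ZMod.val_cast_of_lt (by omega)] at this
      omega
    simp only [Prod.mk.injEq, hv, false_and, if_false]
    ring

/-- Main theorem, for flows indexed by their first two coordinates. -/
theorem main (K : ℕ) (hK : 1 ≤ K) :
    ∃ (z : G K × G K → ℂ) (f : G K × G K) (p : MvPolynomial (G K × G K) ℂ), z f ≠ 0 ∧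
      aeval (fun g => (monomial (A g) 1 : MvPolynomial (Fin 3 × G K) ℂ)) p = 0 ∧ eval z p ≠ 0 ∧
      ∀ q : MvPolynomial (G K × G K) ℂ,
        aeval (fun g => (monomial (A g) 1 : MvPolynomial (Fin 3 × G K) ℂ)) q = 0 →
        q.totalDegree < 2 ^ K → eval z q = 0 := by
  refine ⟨testPt (Face K) (f0 K), f0 K,
    monomial (side K (dg K) (ad K)) 1 - monomial (side K (ad K) (dg K)) 1, ?_, ?_, ?_, ?_⟩
  · rw [testPt_self _ _ ⟨_, _, _, rfl⟩]; norm_num
  · rw [map_sub, aeval_monomial_eq, aeval_monomial_eq, side_marginal, sub_self]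
  · rw [map_sub, eval_testPt_monomial _ _ _ (side_face K _ _ (pen_dg K) (pen_ad K)),
      eval_testPt_monomial _ _ _ (side_face K _ _ (pen_ad K) (pen_dg K)), sub_ne_zero]
    intro h
    apply side_f0 K hK
    have h' : (2 : ℕ) ^ (side K (dg K) (ad K) (f0 K)) = 2 ^ (side K (ad K) (dg K) (f0 K)) := by
      exact_mod_cast h
    exact Nat.pow_right_injective le_rfl h'
  · intro q hq hd
    refine eval_testPt_eq_zero A (pen K) (fun f => ?_) (Face K) (face_iff_pen K) (f0 K)
      (fun m => ∀ f, m f < 2 ^ K) (fun m m' h1 h2 h3 h4 h5 => rigid K hK m m' h1 h2 h3 h4 h5) q hq ?_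
    · rw [lc_A]; have := pen_nonneg K (0, f.1); have := pen_nonneg K (1, f.2)
      have := pen_nonneg K (2, -(f.1 + f.2)); omega
    · intro m hm f
      exact lt_of_le_of_lt ((monomial_le_degreeOf f hm).trans (degreeOf_le_totalDegree q f)) hd

/-- Main theorem transported to any indexing of the flows. -/
theorem main' (K : ℕ) (hK : 1 ≤ K) {ι : Type} (e : ι ≃ G K × G K)
    (φ : ι → MvPolynomial (Fin 3 × G K) ℂ)
    (hφ : ∀ f, φ f = X (0, (e f).1) * X (1, (e f).2) * X (2, -((e f).1 + (e f).2))) :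
    ∃ (z : ι → ℂ) (f : ι) (p : MvPolynomial ι ℂ), z f ≠ 0 ∧ aeval φ p = 0 ∧ eval z p ≠ 0 ∧
      ∀ q : MvPolynomial ι ℂ, aeval φ q = 0 → q.totalDegree < 2 ^ K → eval z q = 0 := by
  obtain ⟨z, f, p, h1, h2, h3, h4⟩ := main K hK
  have hφ' : φ = (fun g => (monomial (A g) 1 : MvPolynomial (Fin 3 × G K) ℂ)) ∘ e := by
    funext f
    rw [hφ]
    simp [A, X, monomial_mul]
  refine ⟨z ∘ e, e.symm f, rename e.symm p, by simpa using h1, ?_, ?_, ?_⟩
  · rw [aeval_rename, hφ', Function.comp_assoc, e.self_comp_symm]; exact h2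
  · rw [eval_rename, Function.comp_assoc, e.self_comp_symm]; exact h3
  · intro q hq hd
    rw [← eval_rename]
    apply h4
    · rw [aeval_rename, ← hφ']; exact hq
    · exact lt_of_le_of_lt (totalDegree_rename_le _ _) hd

theorem card_G (K : ℕ) : Fintype.card (G K) = 9 * (K + 1) ^ 2 := by
  simp only [Fintype.card_prod, ZMod.card]; ring

end Pool.Agent.H80.Tripod
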