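import Mathlib
import Pool.Agent.H80.Tripod

set_option autoImplicit false

namespace Pool.Agent.H80.TripodFin

open MvPolynomial Pool.Agent.H80.Tripod

/-- flows of length three are determined by two coordinates -/
def flowEquiv (Γ : Type) [AddCommGroup Γ] : {g : Fin 3 → Γ // ∑ i, g i = 0} ≃ Γ × Γ where
  toFun g := (g.1 0, g.1 1)
  invFun p := ⟨![p.1, p.2, -(p.1 + p.2)], by simp [Fin.sum_univ_three]⟩
  left_inv g := by
    have h := g.2
    rw [Fin.sum_univ_three] at h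
    apply Subtype.ext
    funext i
    fin_cases i
    · rfl
    · rfl
    · exact (eq_neg_of_add_eq_zero_right h).symm
  right_inv p := rfl

theorem main_fin (K : ℕ) (hK : 1 ≤ K) :
    ∃ (z : {g : Fin 3 → G K // ∑ i, g i = 0} → ℂ) (f : {g : Fin 3 → G K // ∑ i, g i = 0})
      (p : MvPolynomial {g : Fin 3 → G K // ∑ i, g i = 0} ℂ), z f ≠ 0 ∧
      aeval (fun g : {g : Fin 3 → G K // ∑ i, g i = 0} =>
        ∏ i : Fin 3, (X (i, g.1 i) : MvPolynomial (Fin 3 × G K) ℂ)) p = 0 ∧ eval z p ≠ 0 ∧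
      ∀ q : MvPolynomial {g : Fin 3 → G K // ∑ i, g i = 0} ℂ,
        aeval (fun g : {g : Fin 3 → G K // ∑ i, g i = 0} =>
          ∏ i : Fin 3, (X (i, g.1 i) : MvPolynomial (Fin 3 × G K) ℂ)) q = 0 →
        q.totalDegree < 2 ^ K → eval z q = 0 := by
  apply main' K hK (flowEquiv (G K))
  intro g
  have h := g.2
  rw [Fin.sum_univ_three] at h
  rw [Fin.prod_univ_three, eq_neg_of_add_eq_zero_right h]
  rfl

/-- flows as triples -/
def tripleEquiv (Γ : Type) [AddCommGroup Γ] :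
    {g : Γ × Γ × Γ // g.1 + g.2.1 + g.2.2 = 0} ≃ Γ × Γ where
  toFun g := (g.1.1, g.1.2.1)
  invFun p := ⟨(p.1, p.2, -(p.1 + p.2)), by simp⟩
  left_inv g := by
    apply Subtype.ext
    exact Prod.ext rfl (Prod.ext rfl (eq_neg_of_add_eq_zero_right g.2).symm)
  right_inv p := rfl

theorem poly_lt_exp (Q : Polynomial ℕ) : ∃ K : ℕ, 1 ≤ K ∧ Q.eval (9 * (K + 1) ^ 2) < 2 ^ K := by
  have h1 : ∀ P : Polynomial ℕ, ∃ c d : ℕ, ∀ x : ℕ, 1 ≤ x → P.eval x ≤ c * x ^ d := by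
    intro P
    refine ⟨∑ i ∈ Finset.range (P.natDegree + 1), P.coeff i, P.natDegree, fun x hx => ?_⟩
    rw [Polynomial.eval_eq_sum_range, Finset.sum_mul]
    refine Finset.sum_le_sum fun i hi => Nat.mul_le_mul_left _ (Nat.pow_le_pow_right hx ?_)
    exact Nat.lt_succ_iff.1 (Finset.mem_range.1 hi)
  obtain ⟨c, d, hcd⟩ := h1 Q
  have h2 := isLittleO_pow_const_const_pow_of_one_lt (R := ℝ) (2 * d) (one_lt_two : (1 : ℝ) < 2)
  have h3 := h2.def (c := 1 / (2 * (c * 9 ^ d + 1))) (by positivity)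
  obtain ⟨N, hN⟩ := Filter.eventually_atTop.1 h3
  refine ⟨N + 1, by omega, lt_of_le_of_lt (hcd _ (Nat.succ_le_of_lt (by positivity))) ?_⟩
  have h4 := hN (N + 1 + 1) (by omega)
  rw [Real.norm_of_nonneg (by positivity), Real.norm_of_nonneg (by positivity)] at h4
  have h5 : ((c * (9 * (N + 1 + 1) ^ 2) ^ d : ℕ) : ℝ) < ((2 ^ (N + 1) : ℕ) : ℝ) := by
    push_cast at h4 ⊢
    rw [mul_pow, ← pow_mul]
    set t : ℝ := ((N : ℝ) + 1 + 1) ^ (2 * d) with ht
    have ht0 : 0 < t := by positivity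
    rw [pow_succ (2 : ℝ) (N + 1), div_mul_eq_mul_div, le_div_iff₀ (by positivity)] at h4
    nlinarith
  exact_mod_cast h5

end Pool.Agent.H80.TripodFin
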