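import Mathlib

namespace Pool.Agent.H80.Unexp

open MvPolynomial

variable {n : ℕ}

/-- The homogeneous vanishing ideal of the set of points of `ℙ^n` with representatives in `Z`:
polynomials vanishing on all scalar multiples of these vectors. -/
noncomputable def idealOf (Z : Set (Fin (n + 1) → ℂ)) : Ideal (MvPolynomial (Fin (n + 1)) ℂ) :=
  vanishingIdeal ℂ {x | ∃ c : ℂ, ∃ z ∈ Z, x = c • z}

/-- The dimension of the degree `d` part `[I]_d` of an ideal. -/
noncomputable def dimPart (I : Ideal (MvPolynomial (Fin (n + 1)) ℂ)) (d : ℕ) : ℕ :=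
  Module.finrank ℂ ↥(I.restrictScalars ℂ ⊓ homogeneousSubmodule (Fin (n + 1)) ℂ d)

end Pool.Agent.H80.Unexp
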