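import Mathlib
import Pool.Agent.H80.UnexpDefs

namespace Pool.Agent.H80.Unexp

open MvPolynomial

lemma sv_lt (P : Polynomial ℝ) (hP : P ≠ 0) : P.signVariations < P.support.card := by
  induction h : P.support.card using Nat.strong_induction_on generalizing P with
  | _ n ih =>
  have h1 := Polynomial.card_support_eraseLead_add_one hP
  by_cases h0 : P.eraseLead = 0
  · have := Polynomial.signVariations_le_eraseLead_succ (P := P)
    have h2 := Polynomial.eraseLead_add_monomial_natDegree_leadingCoeff P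
    rw [h0, zero_add] at h2
    rw [← h2, Polynomial.signVariations_monomial]
    omega
  · have := ih _ (by omega) P.eraseLead h0 rfl
    have := Polynomial.signVariations_le_eraseLead_succ (P := P)
    omega

def e : Fin 6 → ℕ := ![0, 1, 4, 9, 11, 34]

lemma e_inj : Function.Injective e := by decide

def γ (t : ℕ) : Fin 6 → ℂ := fun j => (t : ℂ) ^ e j

lemma γ_inj : Function.Injective γ := fun s t h => by simpa [γ, e] using congrFun h 1

lemma indep (t : Fin 6 → ℕ) (ht : Function.Injective t) (h0 : ∀ i, 0 < t i) :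
    LinearIndependent ℂ fun i => γ (t i) := by
  let A : Matrix (Fin 6) (Fin 6) ℝ := fun i j => (t i : ℝ) ^ e j
  have hA : A.det ≠ 0 := by
    intro hd
    obtain ⟨v, hv, h⟩ := Matrix.exists_mulVec_eq_zero_iff.2 hd
    set P : Polynomial ℝ := ∑ j, Polynomial.monomial (e j) (v j) with hPdef
    have hc : ∀ j, P.coeff (e j) = v j := by
      intro j
      simp [hPdef, Polynomial.coeff_monomial, e_inj.eq_iff]
    have hP : P ≠ 0 := fun h0 => hv (funext fun j => by rw [← hc, h0]; simp)
    have hs : P.support ⊆ Finset.univ.image e := by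
      intro k hk
      by_contra hn
      simp only [Finset.mem_image, Finset.mem_univ, true_and, not_exists] at hn
      simp [hPdef, Polynomial.coeff_monomial, hn] at hk
    have h1 := (Finset.card_le_card hs).trans Finset.card_image_le
    have h2 := sv_lt P hP
    have h3 := Polynomial.roots_countP_pos_le_signVariations (P := P)
    have h4 : (Finset.univ.image fun i => (t i : ℝ)).val ≤ P.roots.filter (0 < ·) := by
      rw [Finset.val_le_iff_val_subset]
      intro x hx
      obtain ⟨i, -, rfl⟩ := Finset.mem_image.1 (show x ∈ Finset.univ.image fun i => (t i : ℝ) from hx)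
      refine Multiset.mem_filter.2 ⟨(Polynomial.mem_roots hP).2 ?_, by exact_mod_cast h0 i⟩
      have := congrFun h i
      simpa [hPdef, Polynomial.eval_finset_sum, Matrix.mulVec, dotProduct, A, mul_comm] using this
    have h5 := Multiset.card_le_card h4
    rw [← Multiset.countP_eq_card_filter, ← Finset.card_def, Finset.card_image_of_injective _
      (fun a b hab => ht (by exact_mod_cast hab))] at h5
    simp at h1 h5
    omega
  have hB : (A.map (algebraMap ℝ ℂ)).det ≠ 0 := by
    rw [← RingHom.mapMatrix_apply, ← RingHom.map_det]; simpa using hA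
  have := Matrix.linearIndependent_rows_of_det_ne_zero hB
  have h : (fun i => γ (t i)) = fun i => A.map (algebraMap ℝ ℂ) i := by
    funext i j
    simp [γ, A]
  rw [h]; exact this

noncomputable def Z : Finset (Fin 6 → ℂ) := (Finset.Icc 1 103).map ⟨γ, γ_inj⟩

lemma lgp6 (S : Finset (Fin 6 → ℂ)) (hS : S ⊆ Z) (h : S.card = 6) :
    LinearIndependent ℂ (fun p : S => (p : Fin 6 → ℂ)) := by
  have hp : ∀ p : S, ∃ t, 0 < t ∧ γ t = p := fun p => by
    obtain ⟨t, ht, h⟩ := Finset.mem_map.1 (hS p.2)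
    exact ⟨t, (Finset.mem_Icc.1 ht).1, h⟩
  choose t h0 ht using hp
  let f := S.equivFinOfCardEq h
  have := indep (fun i => t (f.symm i)) (fun a b hab => f.symm.injective (Subtype.ext (by
    rw [← ht, ← ht]; exact congrArg γ hab))) (fun i => h0 _)
  simp only [ht] at this
  exact (linearIndependent_equiv f.symm).1 this

lemma lgp (S : Finset (Fin 6 → ℂ)) (hS : S ⊆ Z) (h : S.card ≤ 6) :
    LinearIndependent ℂ (fun p : S => (p : Fin 6 → ℂ)) := by
  obtain ⟨T, h1, h2, h3⟩ := Finset.exists_subsuperset_card_eq hS h (by simp [Z])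
  exact (lgp6 T h2 h3).comp (Set.inclusion h1) (Set.inclusion_injective _)

lemma span_top : Submodule.span ℂ (Z : Set (Fin 6 → ℂ)) = ⊤ := by
  obtain ⟨T, h2, h3⟩ := Finset.exists_subset_card_eq (s := Z) (n := 6) (by simp [Z])
  have := (lgp6 T h2 h3).span_eq_top_of_card_eq_finrank' (by simp [h3])
  rw [eq_top_iff, ← this]
  exact Submodule.span_mono (by rintro _ ⟨p, rfl⟩; exact h2 p.2)

lemma eval_smul {σ : Type} {F : MvPolynomial σ ℂ} {d : ℕ} (h : F.IsHomogeneous d) (c : ℂ)
    (x : σ → ℂ) : eval (c • x) F = c ^ d * eval x F := by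
  rw [eval_eq, eval_eq, Finset.mul_sum]
  refine Finset.sum_congr rfl fun u hu => ?_
  have := h (mem_support_iff.1 hu)
  rw [← this]
  simp [mul_pow, Finset.prod_mul_distrib, Finset.prod_pow_eq_pow_sum, Finsupp.weight_apply,
    Finsupp.sum]
  ring

lemma deg3 {u : Fin 6 →₀ ℕ} (h : Finsupp.weight 1 u = 3) :
    ∃ i j k, u = Finsupp.single i 1 + Finsupp.single j 1 + Finsupp.single k 1 := by
  have : u.toMultiset.card = 3 := by
    rw [Finsupp.card_toMultiset, ← h]; simp [Finsupp.weight_apply]; rfl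
  obtain ⟨i, j, k, h⟩ := Multiset.card_eq_three.1 this
  refine ⟨i, j, k, ?_⟩
  rw [← Finsupp.toMultiset_toFinsupp u, h, show ({i, j, k} : Multiset (Fin 6)) = {i} + {j} + {k} from rfl]
  simp only [map_add, Multiset.toFinsupp_singleton]

lemma uniq : ∀ j k a b c : Fin 6, e 5 + e j + e k = e a + e b + e c →
    ∀ l : Fin 6, (if 5 = l then 1 else 0) + (if j = l then 1 else 0) + (if k = l then 1 else 0) =
      (if a = l then 1 else 0) + (if b = l then 1 else 0) + (if c = l then 1 else 0) := by
  decide +kernel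

lemma uniq' {u w : Fin 6 →₀ ℕ} (hu : Finsupp.weight 1 u = 3) (hw : Finsupp.weight 1 w = 3)
    (h5 : u 5 ≠ 0) (h : Finsupp.weight e u = Finsupp.weight e w) : u = w := by
  obtain ⟨a, b, c, rfl⟩ := deg3 hw
  have : ∃ j k, u = Finsupp.single 5 1 + Finsupp.single j 1 + Finsupp.single k 1 := by
    obtain ⟨i, j, k, rfl⟩ := deg3 hu
    by_cases hi : i = 5
    · exact ⟨j, k, by rw [hi]⟩
    by_cases hj : j = 5
    · exact ⟨i, k, by rw [hj, add_comm (Finsupp.single i 1)]⟩
    by_cases hk : k = 5
    · exact ⟨i, j, by rw [hk]; abel⟩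
    simp [Finsupp.single_apply, hi, hj, hk] at h5
  obtain ⟨j, k, rfl⟩ := this
  simp only [map_add, Finsupp.weight_single, one_smul] at h
  ext l
  simpa [Finsupp.single_apply] using uniq j k a b c h l

noncomputable abbrev V : Submodule ℂ (MvPolynomial (Fin 6) ℂ) :=
  (idealOf (n := 5) Z).restrictScalars ℂ ⊓ homogeneousSubmodule (Fin 6) ℂ 3

lemma eval_γ (t : ℕ) (F : MvPolynomial (Fin 6) ℂ) : eval (γ t) F =
    (∑ u ∈ F.support, Polynomial.monomial (Finsupp.weight e u) (F.coeff u)).eval (t : ℂ) := by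
  rw [eval_eq, Polynomial.eval_finset_sum]
  refine Finset.sum_congr rfl fun u _ => ?_
  simp [γ, ← pow_mul, Finset.prod_pow_eq_pow_sum, Finsupp.weight_apply, Finsupp.sum, mul_comm]

lemma pderiv5 {F : MvPolynomial (Fin 6) ℂ} (hF : F ∈ V) : pderiv 5 F = 0 := by
  have h3 : F.IsHomogeneous 3 := hF.2
  set Q : Polynomial ℂ := ∑ u ∈ F.support, Polynomial.monomial (Finsupp.weight e u) (F.coeff u) with hQ
  have hQ0 : Q = 0 := by
    refine Polynomial.eq_zero_of_natDegree_lt_card_of_eval_eq_zero' Q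
      ((Finset.Icc 1 103).image (Nat.cast : ℕ → ℂ)) (fun x hx => ?_) ?_
    · obtain ⟨t, ht, rfl⟩ := Finset.mem_image.1 hx
      rw [← eval_γ]
      have := hF.1 (γ t) ⟨1, γ t, Finset.mem_map_of_mem _ ht, by simp⟩
      simpa using this
    · rw [Finset.card_image_of_injective _ Nat.cast_injective]
      refine lt_of_le_of_lt (Polynomial.natDegree_sum_le_of_forall_le _ _ (n := 102) fun u hu => ?_) (by simp)
      refine (Polynomial.natDegree_monomial_le _).trans ?_
      obtain ⟨i, j, k, rfl⟩ := deg3 (h3 (mem_support_iff.1 hu))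
      have : ∀ i, e i ≤ 34 := by decide
      simp only [map_add, Finsupp.weight_single, one_smul]
      linarith [this i, this j, this k]
  refine pderiv_eq_zero_of_notMem_vars fun hv => ?_
  obtain ⟨u, hu, h5⟩ := (mem_vars_iff_mem_support _).1 hv
  have := congrArg (fun q => Polynomial.coeff q (Finsupp.weight e u)) hQ0
  simp only [hQ, Polynomial.finset_sum_coeff, Polynomial.coeff_monomial, Polynomial.coeff_zero] at this
  rw [Finset.sum_eq_single u, if_pos rfl] at this
  · exact mem_support_iff.1 hu this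
  · intro w hw hne
    exact if_neg fun h => hne (uniq' (h3 (mem_support_iff.1 hu)) (h3 (mem_support_iff.1 hw))
      (Finsupp.mem_support_iff.1 h5) h.symm).symm
  · exact fun h => absurd hu h

lemma taylor {σ A : Type} [Fintype σ] [CommRing A] [Algebra ℂ A] (a b : σ → A) (I : Ideal A)
    (hb : ∀ j, b j ∈ I) (F : MvPolynomial σ ℂ) :
    aeval (a + b) F - aeval a F - ∑ j, aeval a (pderiv j F) * b j ∈ I ^ 2 := by
  classical
  induction F using MvPolynomial.induction_on with
  | C c => simp
  | add p q hp hq =>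
    convert add_mem hp hq using 1
    simp [add_mul, Finset.sum_add_distrib]; ring
  | mul_X p i hp =>
    have h1 : (∑ j, aeval a (pderiv j p) * b j) * b i ∈ I ^ 2 := by
      rw [sq]
      exact Ideal.mul_mem_mul (sum_mem fun j _ => I.mul_mem_left _ (hb j)) (hb i)
    convert add_mem ((I ^ 2).mul_mem_right (a i + b i) hp) h1 using 1
    have : ∑ j, aeval a (pderiv j (p * X i)) * b j =
        aeval a p * b i + (∑ j, aeval a (pderiv j p) * b j) * a i := by
      simp only [Derivation.leibniz, pderiv_X, smul_eq_mul, map_add, map_mul, aeval_X, add_mul,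
        Finset.sum_add_distrib, Finset.sum_mul]
      congr 1
      · rw [Finset.sum_eq_single i] <;> simp +contextual [Pi.single_apply, eq_comm]
      · exact Finset.sum_congr rfl fun j _ => by ring
    rw [this]
    simp only [map_mul, aeval_X, Pi.add_apply]
    ring

lemma mem_sq {P : Fin 6 → ℂ} (hP : P ≠ 0) {F : MvPolynomial (Fin 6) ℂ} (h3 : F.IsHomogeneous 3)
    (h : ∀ j, eval P (pderiv j F) = 0) : F ∈ idealOf (n := 5) {P} ^ 2 := by
  obtain ⟨i, hi⟩ := Function.ne_iff.1 hP
  have hi : P i ≠ 0 := hi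
  have key : ∀ {G : MvPolynomial (Fin 6) ℂ} {d : ℕ}, G.IsHomogeneous d → eval P G = 0 →
      aeval (fun j => C (P j / P i) * X i : Fin 6 → MvPolynomial (Fin 6) ℂ) G = 0 := by
    intro G d hG h0
    apply MvPolynomial.funext
    intro x
    have : eval x (aeval (fun j => C (P j / P i) * X i : Fin 6 → MvPolynomial (Fin 6) ℂ) G) =
        eval ((x i / P i) • P) G := by
      rw [aeval_eq_bind₁, eval, eval₂Hom_bind₁]
      congr 2
      funext j
      simp; ring
    rw [this, eval_smul hG, h0]; simp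
  have h0 : eval P F = 0 := by
    have := congrArg (eval P) h3.sum_X_mul_pderiv
    simpa [h] using this
  have := taylor (fun j => C (P j / P i) * X i) (fun j => X j - C (P j / P i) * X i)
    (idealOf (n := 5) {P}) (by
      rintro j _ ⟨c, z, rfl, rfl⟩
      simp; field_simp; ring) F
  simp only [key h3 h0, key h3.pderiv (h _), zero_mul, Finset.sum_const_zero, sub_zero] at this
  convert this
  have : ((fun j => C (P j / P i) * X i) + fun j => X j - C (P j / P i) * X i :
    Fin 6 → MvPolynomial (Fin 6) ℂ) = X := by funext j; simp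
  rw [this, aeval_X_left]; rfl

instance fd : FiniteDimensional ℂ (homogeneousSubmodule (Fin 6) ℂ 3) :=
  Submodule.finiteDimensional_of_le (S₂ := restrictTotalDegree (Fin 6) ℂ 3) fun F hF =>
    (mem_restrictTotalDegree _ _ _).2 (IsHomogeneous.totalDegree_le hF)

instance : FiniteDimensional ℂ V :=
  Submodule.finiteDimensional_of_le (S₂ := homogeneousSubmodule (Fin 6) ℂ 3) inf_le_right

def tr : Fin 6 → (Fin 6 × Fin 6 × Fin 6) × (Fin 6 × Fin 6 × Fin 6) :=
  ![((0, 0, 3), (1, 2, 2)), ((0, 0, 4), (1, 1, 3)), ((0, 1, 4), (2, 2, 2)), ((0, 2, 3), (1, 1, 4)),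
    ((0, 4, 4), (2, 3, 3)), ((1, 3, 3), (2, 2, 4))]

noncomputable def mono (p : Fin 6 × Fin 6 × Fin 6) : MvPolynomial (Fin 6) ℂ := X p.1 * X p.2.1 * X p.2.2

noncomputable def bin (r : Fin 6) : MvPolynomial (Fin 6) ℂ := mono (tr r).1 - mono (tr r).2

lemma mono_hom (p : Fin 6 × Fin 6 × Fin 6) : (mono p).IsHomogeneous 3 :=
  ((isHomogeneous_X ℂ _).mul (isHomogeneous_X ℂ _)).mul (isHomogeneous_X ℂ _)

lemma bin_mem (r : Fin 6) : bin r ∈ V := by
  have h : (bin r).IsHomogeneous 3 := (mono_hom _).sub (mono_hom _)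
  refine ⟨?_, h⟩
  rintro _ ⟨c, z, hz, rfl⟩
  obtain ⟨t, -, rfl⟩ := Finset.mem_map.1 hz
  show eval _ _ = 0
  rw [eval_smul h]
  fin_cases r <;> simp [bin, mono, tr, γ, e] <;> right <;> ring

def pts : Fin 6 → Fin 6 → ℂ :=
  ![![1, 0, 0, 1, 0, 0], ![0, 1, 0, 1, 0, 0], ![0, 0, 1, 0, 0, 0], ![0, 1, 0, 0, 1, 0],
    ![1, 0, 0, 0, 1, 0], ![0, 1, 0, -1, 0, 0]]

lemma six_le : 6 ≤ Module.finrank ℂ V := by
  have : LinearIndependent ℂ (fun r => (⟨bin r, bin_mem r⟩ : V)) := by
    rw [Fintype.linearIndependent_iff]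
    intro g hg
    have h : ∀ s, ∑ r, g r * eval (pts s) (bin r) = 0 := by
      intro s
      have := congrArg (fun F : V => eval (pts s) F.1) hg
      simpa [smul_eval] using this
    have h0 := h 0
    have h1 := h 1
    have h2 := h 2
    have h3 := h 3
    have h4 := h 4
    have h5 := h 5
    simp [Fin.sum_univ_six, bin, mono, tr, pts] at h0 h1 h2 h3 h4 h5
    intro r
    fin_cases r <;> simp
    · exact h0
    · linear_combination (-1 / 2 : ℂ) * h1 + (1 / 2 : ℂ) * h5
    · exact h2
    · exact h3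
    · linear_combination h4 + (1 / 2 : ℂ) * h1 - (1 / 2 : ℂ) * h5
    · linear_combination (1 / 2 : ℂ) * h1 + (1 / 2 : ℂ) * h5
  simpa using this.fintype_card_le_finrank

lemma main {P : Fin 6 → ℂ} (hP : P ≠ 0) :
    dimPart (idealOf (n := 5) Z) 3 ≤ dimPart (idealOf (n := 5) Z ⊓ idealOf {P} ^ 2) 3 + 5 := by
  let φ : V →ₗ[ℂ] (Fin 5 → ℂ) :=
    { toFun := fun F j => eval P (pderiv j.castSucc F.1)
      map_add' := fun F G => by funext j; simp
      map_smul' := fun c F => by funext j; simp [smul_eval] }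
  have h1 := φ.finrank_range_add_finrank_ker
  have h2 : Module.finrank ℂ (LinearMap.range φ) ≤ 5 := by
    simpa using (LinearMap.range φ).finrank_le
  have h3 : (LinearMap.ker φ).map V.subtype ≤ (idealOf (n := 5) Z ⊓ idealOf {P} ^ 2).restrictScalars ℂ ⊓
      homogeneousSubmodule (Fin 6) ℂ 3 := by
    rintro _ ⟨F, hF, rfl⟩
    refine ⟨⟨F.2.1, mem_sq hP F.2.2 fun j => ?_⟩, F.2.2⟩
    refine Fin.lastCases ?_ (fun j => congrFun hF j) j
    show eval P (pderiv 5 F.1) = 0
    rw [pderiv5 F.2, map_zero]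
  have : FiniteDimensional ℂ ↥((idealOf (n := 5) Z ⊓ idealOf {P} ^ 2).restrictScalars ℂ ⊓
      homogeneousSubmodule (Fin 6) ℂ 3) :=
    @Submodule.finiteDimensional_of_le _ _ _ _ _ _ (homogeneousSubmodule (Fin 6) ℂ 3) fd inf_le_right
  have h4 := Submodule.finrank_mono h3
  rw [Submodule.finrank_map_subtype_eq] at h4
  exact h1.symm.le.trans ((add_le_add h2 h4).trans (add_comm _ _).le)

end Pool.Agent.H80.Unexp
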