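import Mathlib

namespace Pool.Agent.H80.Waring

open MvPolynomial

/-- The linear form with coefficient vector `v`. -/
noncomputable def lin {σ : Type} [Fintype σ] (v : σ → ℂ) : MvPolynomial σ ℂ := ∑ j, C (v j) * X j

/-- The Waring rank of a form `F` of degree `d`: the least `w` such that `F` is a sum of `w`
`d`-th powers of linear forms in the variables `σ`. -/
noncomputable def WR {σ : Type} [Fintype σ] (d : ℕ) (F : MvPolynomial σ ℂ) : ℕ :=
  sInf {w : ℕ | ∃ l : Fin w → σ → ℂ, F = ∑ i, lin (l i) ^ d}

end Pool.Agent.H80.Waring
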