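import Mathlib
import Pool.Agent.H80.WaringDefs

namespace Pool.Agent.H80.Waring

open MvPolynomial

noncomputable def f : MvPolynomial (Fin 3) ℂ :=
  X 0 ^ 3 + 2 * X 1 ^ 3 + 3 * X 2 ^ 3 - (X 0 + 2 * X 1 + 3 * X 2) ^ 3

noncomputable def g : MvPolynomial (Fin 3) ℂ :=
  3 * (X 0 ^ 2 + 2 * X 1 ^ 2 + 3 * X 2 ^ 2 - (X 0 + 2 * X 1 + 3 * X 2) ^ 2)

theorem hom_f : f.IsHomogeneous 3 := by
  have h0 := isHomogeneous_X ℂ (0 : Fin 3)
  have h1 := isHomogeneous_X ℂ (1 : Fin 3)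
  have h2 := isHomogeneous_X ℂ (2 : Fin 3)
  have c2 : (2 : MvPolynomial (Fin 3) ℂ).IsHomogeneous 0 := isHomogeneous_C _ (2 : ℂ)
  have c3 : (3 : MvPolynomial (Fin 3) ℂ).IsHomogeneous 0 := isHomogeneous_C _ (3 : ℂ)
  exact (((h0.pow 3).add (c2.mul (h1.pow 3))).add (c3.mul (h2.pow 3))).sub
    (((h0.add (c2.mul h1)).add (c3.mul h2)).pow 3)

theorem hom_g : g.IsHomogeneous 2 := by
  have h0 := isHomogeneous_X ℂ (0 : Fin 3)
  have h1 := isHomogeneous_X ℂ (1 : Fin 3)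
  have h2 := isHomogeneous_X ℂ (2 : Fin 3)
  have c2 : (2 : MvPolynomial (Fin 3) ℂ).IsHomogeneous 0 := isHomogeneous_C _ (2 : ℂ)
  have c3 : (3 : MvPolynomial (Fin 3) ℂ).IsHomogeneous 0 := isHomogeneous_C _ (3 : ℂ)
  exact c3.mul ((((h0.pow 2).add (c2.mul (h1.pow 2))).add (c3.mul (h2.pow 2))).sub
    (((h0.add (c2.mul h1)).add (c3.mul h2)).pow 2))

theorem f_ne : f ≠ 0 := by
  intro h
  have := congrArg (eval ![0, 1, 0]) h
  simp [f] at this
  norm_num at this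

theorem g_ne : g ≠ 0 := by
  intro h
  have := congrArg (eval ![0, 1, 0]) h
  simp [g] at this
  norm_num at this

theorem cube (a : ℂ) : ∃ b : ℂ, b ^ 3 = a := IsAlgClosed.exists_pow_nat_eq a (by norm_num)

theorem upper : WR 3 (rename some f + X none * rename some g) ≤ 5 := by
  obtain ⟨b2, h2⟩ := cube 2
  obtain ⟨b3, h3⟩ := cube 3
  obtain ⟨b5, h5⟩ := cube (-5)
  apply Nat.sInf_le
  refine ⟨![fun o => o.elim 1 ![1, 0, 0], fun o => o.elim b2 ![0, b2, 0],
    fun o => o.elim b3 ![0, 0, b3], fun o => o.elim (-1) ![-1, -2, -3],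
    fun o => o.elim b5 ![0, 0, 0]], ?_⟩
  have e2 : (C b2 : MvPolynomial (Option (Fin 3)) ℂ) ^ 3 = 2 := by rw [← map_pow, h2]; rfl
  have e3 : (C b3 : MvPolynomial (Option (Fin 3)) ℂ) ^ 3 = 3 := by rw [← map_pow, h3]; rfl
  have e5 : (C b5 : MvPolynomial (Option (Fin 3)) ℂ) ^ 3 = -5 := by
    rw [← map_pow, h5, map_neg]; rfl
  simp [lin, f, g, Fin.sum_univ_succ, map_ofNat]
  linear_combination (-(X none + X (some 1)) ^ 3) * e2 - (X none + X (some 2)) ^ 3 * e3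
    - (X none) ^ 3 * e5

theorem nonempty (v : Fin 3 → ℂ) :
    {w : ℕ | ∃ l : Fin w → Fin 3 → ℂ, f + lin v * g = ∑ i, lin (l i) ^ 3}.Nonempty := by
  obtain ⟨b2, h2⟩ := cube 2
  obtain ⟨b3, h3⟩ := cube 3
  obtain ⟨b5, h5⟩ := cube (-5)
  refine ⟨5, ![v + ![1, 0, 0], b2 • (v + ![0, 1, 0]), b3 • (v + ![0, 0, 1]), -(v + ![1, 2, 3]),
    b5 • v], ?_⟩
  have e2 : (C b2 : MvPolynomial (Fin 3) ℂ) ^ 3 = 2 := by rw [← map_pow, h2]; rfl
  have e3 : (C b3 : MvPolynomial (Fin 3) ℂ) ^ 3 = 3 := by rw [← map_pow, h3]; rfl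
  have e5 : (C b5 : MvPolynomial (Fin 3) ℂ) ^ 3 = -5 := by
    rw [← map_pow, h5, map_neg]; rfl
  have ladd : ∀ a b : Fin 3 → ℂ, lin (a + b) = lin a + lin b := by
    intro a b; simp [lin, add_mul, Finset.sum_add_distrib]
  have lsm : ∀ (c : ℂ) (a : Fin 3 → ℂ), lin (c • a) = C c * lin a := by
    intro c a; simp [lin, Finset.mul_sum, mul_assoc]
  have lneg : ∀ (a : Fin 3 → ℂ), lin (-a) = -lin a := by
    intro a; simp [lin]
  have l1 : lin ![1, 0, 0] = X 0 := by simp [lin, Fin.sum_univ_succ]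
  have l2 : lin ![0, 1, 0] = X 1 := by simp [lin, Fin.sum_univ_succ]
  have l3 : lin ![0, 0, 1] = X 2 := by simp [lin, Fin.sum_univ_succ]
  have l4 : lin ![1, 2, 3] = X 0 + 2 * X 1 + 3 * X 2 := by
    simp [lin, Fin.sum_univ_succ, map_ofNat, add_assoc]
  rw [Fin.sum_univ_five]
  simp only [Matrix.cons_val_zero, Matrix.cons_val_one, Matrix.cons_val, ladd, lsm, lneg,
    l1, l2, l3, l4, f, g]
  linear_combination (-(lin v + X 1) ^ 3) * e2 - (lin v + X 2) ^ 3 * e3 - (lin v) ^ 3 * e5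

theorem not_two (v a b : Fin 3 → ℂ) : f + lin v * g ≠ lin a ^ 3 + lin b ^ 3 := by
  intro h
  have H : ∀ x y z : ℂ, x ^ 3 + 2 * y ^ 3 + 3 * z ^ 3 - (x + 2 * y + 3 * z) ^ 3 +
      (v 0 * x + v 1 * y + v 2 * z) * (3 * (x ^ 2 + 2 * y ^ 2 + 3 * z ^ 2 - (x + 2 * y + 3 * z) ^ 2))
      = (a 0 * x + a 1 * y + a 2 * z) ^ 3 + (b 0 * x + b 1 * y + b 2 * z) ^ 3 := by
    intro x y z
    have := congrArg (eval ![x, y, z]) h
    simpa [f, g, lin, Fin.sum_univ_three] using this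
  obtain ⟨D, hD0, hD⟩ : ∃ D : Fin 3 → ℂ, D ≠ 0 ∧ (Matrix.of ![a, b]).mulVec D = 0 := by
    have : LinearMap.ker (Matrix.mulVecLin (Matrix.of ![a, b])) ≠ ⊥ :=
      LinearMap.ker_ne_bot_of_finrank_lt (by simp)
    obtain ⟨D, h1, h2⟩ := Submodule.exists_mem_ne_zero_of_ne_bot this
    exact ⟨D, h2, h1⟩
  have d1 : a 0 * D 0 + a 1 * D 1 + a 2 * D 2 = 0 := by
    simpa [Matrix.mulVec, dotProduct, Fin.sum_univ_three] using congrFun hD 0
  have d2 : b 0 * D 0 + b 1 * D 1 + b 2 * D 2 = 0 := by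
    simpa [Matrix.mulVec, dotProduct, Fin.sum_univ_three] using congrFun hD 1
  set A := v 0
  set B := v 1
  set Cc := v 2
  set p := D 0 with hp
  set q := D 1 with hq
  set r := D 2 with hr
  have K : ∀ x y z : ℂ, (-24) * A * p * x * y + (-36) * A * p * x * z + (-36) * A * p * y * z + (-6) * A * p * y^2 + (-18) * A * p * z^2 + (-12) * A * q * x * y + (-36) * A * q * x * z + (-12) * A * q * x^2 + (-36) * A * r * x * y + (-36) * A * r * x * z + (-18) * A * r * x^2 + (-18) * B * p * y * z + (-12) * B * p * y^2 + (-24) * B * q * x * y + (-18) * B * q * x * z + (-72) * B * q * y * z + (-18) * B * q * y^2 + (-18) * B * q * z^2 + (-18) * B * r * x * y + (-36) * B * r * y * z + (-36) * B * r * y^2 + (-12) * Cc * p * y * z + (-18) * Cc * p * z^2 + (-12) * Cc * q * x * z + (-12) * Cc * q * y * z + (-36) * Cc * q * z^2 + (-12) * Cc * r * x * y + (-36) * Cc * r * x * z + (-72) * Cc * r * y * z + (-6) * Cc * r * y^2 + (-54)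 * Cc * r * z^2 + (-12) * p * x * y + (-18) * p * x * z + (-36) * p * y * z + (-12) * p * y^2 + (-27) * p * z^2 + (-24) * q * x * y + (-36) * q * x * z + (-6) * q * x^2 + (-72) * q * y * z + (-18) * q * y^2 + (-54) * q * z^2 + (-36) * r * x * y + (-54) * r * x * z + (-9) * r * x^2 + (-108) * r * y * z + (-36) * r * y^2 + (-72) * r * z^2 = 0 := by
    intro x y z
    linear_combination (H (x + p) (y + q) (z + r) - H (x - p) (y - q) (z - r) - 2 * H p q r) / 2
      + 3 * (a 0 * x + a 1 * y + a 2 * z) ^ 2 * d1 + 3 * (b 0 * x + b 1 * y + b 2 * z) ^ 2 * d2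
  have e1 : p = 0 := by linear_combination ((3481/6300) + (-3511/2100) * A + (-14/25) * A * B + (-524/525) * A * Cc + (121/175) * A^2 + (473/450) * B + (-581/225) * B * Cc + (4751/1800) * B^2 + (7093/9450) * Cc + (6757/4725) * Cc^2) * K 1 0 0 + ((1381/6300) + (397/300) * A + (-21/100) * A * B + (-109/525) * A * Cc + (747/350) * A^2 + (-1013/1800) * B + (-89/150) * B * Cc + (43/150) * B^2 + (4784/4725) * Cc + (566/675) * Cc^2) * K 0 1 0 + ((1381/6300) + (5917/6300) * A + (6/25) * A * B + (-262/1575) * A * Cc + (1271/1050) * A^2 + (209/225) * B + (-178/675) * B * Cc + (2269/2700) * B^2 + (-253/1050) * Cc + (113/2025) * Cc^2) * K 0 0 1 + ((-2903/12600) + (-571/600) * A + (-347/200) * A * B + (787/1050) * A * Cc + (-121/700) * A^2 + (-4891/3600) * B + (281/900) * B * Cc + (-43/225) * B^2 + (5689/4725) * Cc + (56/675) * Cc^2) * (K 1 1 0 - K 1 0 0 - K 0 1 0) + ((-23/600) + (-2057/4200) * A + (16/25) * A * B + (-148/175)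 * A * Cc + (-121/700) * A^2 + (373/450) * B + (103/450) * B * Cc + (-97/900) * B^2 + (-11429/18900) * Cc + (-113/1350) * Cc^2) * (K 1 0 1 - K 1 0 0 - K 0 0 1) + ((-237/1400) + (-221/600) * A + (17/300) * A * B + (29/350) * A * Cc + (-471/700) * A^2 + (-2479/5400) * B + (-857/2700) * B * Cc + (-43/225) * B^2 + (-5839/18900) * Cc + (-113/1350) * Cc^2) * (K 0 1 1 - K 0 1 0 - K 0 0 1)
  have e2 : q = 0 := by linear_combination ((1537/6300) + (-15781/6300) * A + (-862/225) * A * B + (-3004/1575) * A * Cc + (8513/1575) * A^2 + (787/150) * B + (773/225) * B * Cc + (5327/1800) * B^2 + (27731/9450) * Cc + (7039/4725) * Cc^2) * K 1 0 0 + ((2587/6300) + (3307/900) * A + (-431/300) * A * B + (-1739/1575) * A * Cc + (5497/1050) * A^2 + (-881/1800) * B + (37/150) * B * Cc + (-7/75) * B^2 + (-4012/4725) * Cc + (-118/675) * Cc^2) * K 0 1 0 + ((1537/6300) + (29587/18900) * A + (-1006/675) * A * B + (-1502/4725) * A * Cc + (25363/9450)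 * A^2 + (-436/675) * B + (74/675) * B * Cc + (-287/2700) * B^2 + (-949/9450) * Cc + (-11/225) * Cc^2) * K 0 0 1 + ((-26071/12600) + (-7841/1800) * A + (-4051/1800) * A * B + (-2873/3150) * A * Cc + (-8513/6300) * A^2 + (-3667/3600) * B + (3/100) * B * Cc + (14/225) * B^2 + (-9269/9450) * Cc + (-238/675) * Cc^2) * (K 1 1 0 - K 1 0 0 - K 0 1 0) + ((-5479/5400) + (-116441/37800) * A + (-97/225) * A * B + (-6172/4725) * A * Cc + (-8513/6300) * A^2 + (-277/1350) * B + (353/1350) * B * Cc + (-119/900) * B^2 + (-7073/18900) * Cc + (11/150) * Cc^2) * (K 1 0 1 - K 1 0 0 - K 0 0 1) + ((33157/37800) + (10367/5400) * A + (1037/900) * A * B + (8531/9450) * A * Cc + (79/2100) * A^2 + (2777/5400) * B + (-269/2700) * B * Cc + (14/225) * B^2 + (8657/18900) * Cc + (11/150) * Cc^2) * (K 0 1 1 - K 0 1 0 - K 0 0 1)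
  have e3 : r = 0 := by linear_combination ((-598/1575) + (436/175) * A + (224/75) * A * B + (988/525) * A * Cc + (-2416/525) * A^2 + (-1601/450) * B + (-733/225) * B * Cc + (-319/225) * B^2 + (-10688/4725) * Cc + (-4114/4725) * Cc^2) * K 1 0 0 + ((-598/1575) + (-62/25) * A + (28/25) * A * B + (-67/525) * A * Cc + (-477/175) * A^2 + (142/225) * B + (23/150) * B * Cc + (-47/300) * B^2 + (367/4725) * Cc + (-32/675) * Cc^2) * K 0 1 0 + ((-47/175) + (-652/525) * A + (62/225) * A * B + (494/1575) * A * Cc + (-2458/1575) * A^2 + (1/50) * B + (46/675) * B * Cc + (-119/1350) * B^2 + (36/175) * Cc + (-26/2025) * Cc^2) * K 0 0 1 + ((4169/3150) + (413/150) * A + (19/75) * A * B + (477/350) * A * Cc + (604/525) * A^2 + (463/900) * B + (283/900) * B * Cc + (47/450) * B^2 + (6919/9450) * Cc + (-62/675) * Cc^2) * (K 1 1 0 - K 1 0 0 - K 0 1 0) + ((317/450) + (3419/1575) * A + (163/150) * A * B + (509/1575) * A * Cc + (604/525) *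 A^2 + (203/900) * B + (2/225) * B * Cc + (-281/900) * B^2 + (872/4725) * Cc + (13/675) * Cc^2) * (K 1 0 1 - K 1 0 0 - K 0 0 1) + ((-733/1575) + (-263/225) * A + (-33/100) * A * B + (-566/1575) * A * Cc + (-239/350) * A^2 + (-203/1350) * B + (-113/1350) * B * Cc + (47/450) * B^2 + (-1073/4725) * Cc + (13/675) * Cc^2) * (K 0 1 1 - K 0 1 0 - K 0 0 1)
  apply hD0
  funext i
  fin_cases i
  · exact e1
  · exact e2
  · exact e3

theorem lower (v : Fin 3 → ℂ) : 3 ≤ WR 3 (f + lin v * g) := by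
  obtain ⟨l, hl⟩ := Nat.sInf_mem (nonempty v)
  by_contra hlt
  push Not at hlt
  unfold WR at hlt
  generalize sInf {w : ℕ | ∃ l : Fin w → Fin 3 → ℂ, f + lin v * g = ∑ i, lin (l i) ^ 3} = w at *
  have h0 : lin (0 : Fin 3 → ℂ) = 0 := by simp [lin]
  interval_cases w
  · exact not_two v 0 0 (by simpa [h0] using hl)
  · exact not_two v (l 0) 0 (by simpa [h0] using hl)
  · exact not_two v (l 0) (l 1) (by simpa [Fin.sum_univ_two] using hl)

end Pool.Agent.H80.Waring
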